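import Pool.Agent.Lib.S6.Blue2
import Pool.Agent.Lib.SH.All1
import Pool.Agent.Lib.SH.B_QL
import Pool.Agent.Lib.SH.B_NL2
import Pool.Agent.Lib.SH.B_MIC1

open Set Filter Topology Metric
open scoped ContDiff

noncomputable section

namespace Pool.Agent.S6

open Pool.Agent.Lib

namespace AB

theorem exists_th : ∃ (th : ℝ → ℝ) (Cth : ℝ), 0 ≤ Cth ∧ ContDiff ℝ ∞ th ∧
    (∀ s t, |th s - th t| ≤ Cth * |s - t|) ∧ (∀ s, 2 / 5 ≤ s → th s = 0) ∧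
    (∀ s, s ≤ 1 / 4 → th s = Real.pi / 4) ∧ ∀ s, 0 ≤ th s ∧ th s ≤ Real.pi / 4 := by
  obtain ⟨th, e⟩ : ∃ th : ℝ → ℝ,
    th = fun s => Real.pi / 4 * Real.smoothTransition ((2 / 5 - s) * (20 / 3)) := ⟨_, rfl⟩
  have h1 : ContDiff ℝ ∞ th := by
    rw [e]; exact contDiff_const.mul (Real.smoothTransition.contDiff.comp (by fun_prop))
  have h2 : ∀ s, 2 / 5 ≤ s → th s = 0 := fun s hs => by
    simp only [e]; rw [Real.smoothTransition.zero_of_nonpos (by linarith), mul_zero]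
  have h3 : ∀ s, s ≤ 1 / 4 → th s = Real.pi / 4 := fun s hs => by
    simp only [e]; rw [Real.smoothTransition.one_of_one_le (by linarith), mul_one]
  obtain ⟨K, hK⟩ := (h1.contDiffOn (s := Icc (1 / 4) (2 / 5))).exists_lipschitzOnWith (by simp)
    (convex_Icc _ _) isCompact_Icc
  have h4 : ∀ s, th s = th (max (1 / 4) (min (2 / 5) s)) := fun s => by
    rcases le_total (2 / 5) s with a | a
    · rw [min_eq_left a, max_eq_right (by norm_num), h2 s a, h2 _ le_rfl]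
    rcases le_total (1 / 4) s with b | b
    · rw [min_eq_right a, max_eq_right b]
    · rw [min_eq_right a, max_eq_left b, h3 s b, h3 _ le_rfl]
  have h5 : ∀ s : ℝ, max (1 / 4) (min (2 / 5) s) ∈ Icc (1 / 4 : ℝ) (2 / 5) := fun s =>
    ⟨le_max_left _ _, max_le (by norm_num) (min_le_left _ _)⟩
  refine ⟨th, K, K.2, h1, fun s t => ?_, h2, h3, fun s => ?_⟩
  · have a := hK.dist_le_mul _ (h5 s) _ (h5 t)
    rw [← h4, ← h4, Real.dist_eq, Real.dist_eq] at a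
    refine a.trans (mul_le_mul_of_nonneg_left ?_ K.2)
    refine (abs_max_sub_max_le_max _ _ _ _).trans (max_le (by simp) ?_)
    exact (abs_min_sub_min_le_max _ _ _ _).trans (max_le (by simp) le_rfl)
  · have a := Real.smoothTransition.nonneg ((2 / 5 - s) * (20 / 3))
    have b := Real.smoothTransition.le_one ((2 / 5 - s) * (20 / 3))
    have c := Real.pi_pos
    simp only [e]
    constructor <;> nlinarith

end AB

theorem st_ab2 : St_AB2 := by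
  classical
  intro L0
  obtain ⟨th, Cth, t0, t1, t2, t3, t4, t5⟩ := AB.exists_th
  obtain ⟨c0, c1, c2, hL⟩ := SH.st_locf
  obtain ⟨CD, M8, y4, s1, s2, s3, L1, hS⟩ := SH.st_shape c0 c1 c2
  obtain ⟨L2, hL⟩ := hL CD
  obtain ⟨L3, hA⟩ := SH.st_wact SH.st_ql SH.all_nwb
  obtain ⟨L4, CN, n1, cn, n2, Mn, n3, hN⟩ := SH.st_wneu SH.st_nl2 SH.all_mic2 SH.all_nwb
  obtain ⟨CB, b1, hB⟩ := SH.st_wbir SH.st_nl2 SH.st_mic1 SH.all_nwb SH.all_nl0r
  obtain ⟨L5, hB⟩ := hB c0 CD c1 c2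
  obtain ⟨L, l0, l1, l2, l3, l4, l5, l6⟩ : ∃ L : ℝ, L0 ≤ L ∧ L1 ≤ L ∧ L2 ≤ L ∧ L3 ≤ L ∧ L4 ≤ L ∧
      L5 ≤ L ∧ 100 ≤ L :=
    ((eventually_ge_atTop L0).and ((eventually_ge_atTop L1).and ((eventually_ge_atTop L2).and
      ((eventually_ge_atTop L3).and ((eventually_ge_atTop L4).and ((eventually_ge_atTop L5).and
      (eventually_ge_atTop 100))))))).exists
  obtain ⟨Mb, b2, σ1, b3, hB⟩ := hB L M8 Cth l5 (hL L l2) s1
  have hA' : ∀ β : ℝ, ∃ M ≥ (64 : ℝ), 0 < β → β ≤ 1 → WActP L β M := fun β => by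
    by_cases h : 0 < β ∧ β ≤ 1
    · obtain ⟨M, a, b⟩ := hA β L h.1 h.2 l3
      exact ⟨M, a, fun _ _ => b⟩
    · exact ⟨64, le_rfl, fun a b => absurd ⟨a, b⟩ h⟩
  choose Ma a1 a2 using hA'
  obtain ⟨σ, e1, e2, e3, e4⟩ : ∃ σ : ℝ, 0 < σ ∧ σ ≤ σ1 ∧ σ ≤ 1 / (100 * L) ∧
      σ ≤ 1 / (2 * (Cth + 1)) :=
    ⟨min σ1 (min (1 / (100 * L)) (1 / (2 * (Cth + 1)))), by positivity, min_le_left _ _,
      (min_le_right _ _).trans (min_le_left _ _), (min_le_right _ _).trans (min_le_right _ _)⟩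
  have p1 : ∀ β, 0 ≤ 100000 * Ma β ^ 5 := fun β => by have := a1 β; positivity
  have p2 : 1 ≤ 100000 * CN ^ 2 * Mn := by nlinarith [one_le_pow₀ (n := 2) n1]
  have p3 : 0 ≤ 100000 * CB ^ 2 * Mb := by positivity
  refine ⟨⟨L, c0, CD, M8, y4, σ, fun β => 100000 * Ma β ^ 5 + 100000 * CN ^ 2 * Mn +
    100000 * CB ^ 2 * Mb, th⟩, ⟨⟨l6, c1, c2, s1, s2, s3, e1, e3, fun β => ?_⟩,
    ⟨t1, ⟨Cth, ?_, t2⟩, t3, t4, t5⟩, hL L l2, fun x δ a b c => hS L l1 (hL L l2) x δ 0 a b c,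
    fun β a b => ⟨Ma β, a1 β, a2 β a b, ?_⟩,
    ⟨CN, n1, cn, n2, Mn, n3, fun C0 Λ => hN L C0 Λ l4, fun β => ?_⟩,
    ⟨CB, b1, Mb, b2, fun C0 Λ => ?_, fun β => ?_⟩⟩, l0⟩
  · show 1 ≤ _ + _ + _
    linarith [p1 β]
  · show σ * Cth ≤ 1 / 2
    rw [le_div_iff₀ (by positivity)] at e4
    nlinarith
  · show _ ≤ _ + _ + _
    linarith
  · show _ ≤ _ + _ + _
    linarith [p1 β]
  · obtain ⟨ι, i0, H⟩ := hB C0 Λ
    refine ⟨ι, i0, fun X K P D0 G ρ a b c d g => H X K P D0 G (deriv G) th ρ a b c d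
      (fun s => (g.diff s).hasDerivAt) g.zero g.pos (fun s u v => ?_) t2
      (fun s u => t3 s (by linarith)) t5⟩
    have w := g.steep s u v
    have w0 : 0 ≤ deriv G s := nonneg_of_mul_nonneg_right ((g.pos s u).le.trans w) e1
    exact w.trans (mul_le_mul_of_nonneg_right e2 w0)
  · show _ ≤ _ + _ + _
    linarith [p1 β]

theorem st_ab : St_AB := let ⟨ab, h, _⟩ := st_ab2 0; ⟨ab, h⟩

end Pool.Agent.S6
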