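import Pool.Agent.Lib.S6.Ends1
import Pool.Agent.Lib.SH.EndOK

/-!
The end property at a loop from the ring wall and the window properties.
-/

open Set Filter Topology Metric

noncomputable section

namespace Pool.Agent.S6.ENDS

open Pool.Agent.CF (End Kind SLH)
open Pool.Agent.Lib Pool.Agent.Lib.SH Pool.Agent.Lib.SH.Win Pool.Agent.Lib.SH.Ring

variable {l : End}

theorem ech_ne (hr : 0 < l.r) {z : ℂ} (hz : z ≠ 0) :
    ech l z ≠ l.c ∧ l.dep (ech l z) = -Real.log ‖z‖ :=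
  (End.mem_sphere_rad hr).1 (mem_sphere_iff_norm.2 (ENDL.norm_ech hr
    (by rw [neg_neg, Real.exp_log (norm_pos_iff.2 hz)])))

theorem ech_der (hr : 0 < l.r) {z : ℂ} (hz : z ≠ 0) : AnalyticAt ℂ (ech l) z ∧
    (z * deriv (ech l) z = ech l z - l.c ∨ z * deriv (ech l) z = -(ech l z - l.c)) := by
  unfold ech
  split_ifs
  · have : HasDerivAt (fun z : ℂ => l.c + l.r * z) l.r z := by
      simpa using ((hasDerivAt_id z).const_mul (l.r : ℂ)).const_add l.c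
    exact ⟨by fun_prop, Or.inl (by rw [this.deriv]; ring)⟩
  · have : HasDerivAt (fun z : ℂ => l.c + l.r / z) (-(l.r / z ^ 2)) z := by
      have := ((hasDerivAt_inv hz).const_mul (l.r : ℂ)).const_add l.c
      simpa only [div_eq_mul_inv, mul_neg] using this
    exact ⟨analyticAt_const.add (analyticAt_const.div analyticAt_id hz),
      Or.inr (by rw [this.deriv]; field_simp; ring)⟩

theorem ech_surj (hr : 0 < l.r) {y : E} (hy : y.1 ≠ l.c) : ∃ v : E, v.1 ≠ 0 ∧ bc (ech l) v = y :=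
  ⟨(ENDL.inv l y.1, y.2), norm_pos_iff.1 (by
    rw [ENDL.norm_inv' hr (End.norm_eq_rad hr hy)]; exact Real.exp_pos _),
    Prod.ext (ENDL.ech_inv hr hy) rfl⟩

/-- closed annulus of depths between `-a` and `h` -/
def AN (a h : ℝ) : Set ℂ := {z | Real.exp (-h) ≤ ‖z‖ ∧ ‖z‖ ≤ Real.exp a}

theorem an_ne {a h : ℝ} {z : ℂ} (hz : z ∈ AN a h) : z ≠ 0 :=
  norm_pos_iff.1 ((Real.exp_pos _).trans_le hz.1)

theorem mem_AN {a h : ℝ} {z : ℂ} (hz : z ≠ 0) : z ∈ AN a h ↔ -Real.log ‖z‖ ∈ Icc (-a) h := by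
  have := norm_pos_iff.2 hz
  rw [AN, mem_ofPred_eq, ← Real.le_log_iff_exp_le this, ← Real.log_le_iff_le_exp this]
  exact ⟨fun a => ⟨by linarith [a.2], by linarith [a.1]⟩, fun a => ⟨by linarith [a.2],
    by linarith [a.1]⟩⟩

theorem ech_AN (hr : 0 < l.r) {a h : ℝ} {z : ℂ} (hz : z ≠ 0) :
    ech l z ∈ l.ann (Icc (-a) h) ↔ z ∈ AN a h := by
  rw [mem_AN hz, ← (ech_ne hr hz).2]
  exact ⟨fun a => a.2, fun a => ⟨(ech_ne hr hz).1, a⟩⟩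

theorem isCompact_AN (a h : ℝ) : IsCompact (AN a h) :=
  (isCompact_closedBall 0 (Real.exp a)).of_isClosed_subset
    ((isClosed_le continuous_const continuous_norm).inter
      (isClosed_le continuous_norm continuous_const)) fun _ hz => mem_closedBall_zero_iff.2 hz.2

theorem ball_AN {x z : ℂ} {ρ h : ℝ} (hx : ‖x‖ = 1) (h1 : h ≤ 1) (hρ : ρ ≤ h / 8)
    (hz : ‖z - x‖ ≤ ρ) : z ∈ AN h h := by
  have a1 := norm_sub_norm_le z x
  have a2 := norm_sub_norm_le x z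
  rw [norm_sub_rev] at a2
  have a0 := norm_nonneg (z - x)
  refine ⟨?_, by linarith [Real.add_one_le_exp h]⟩
  rw [Real.exp_neg, inv_le_iff_one_le_mul₀ (Real.exp_pos _)]
  nlinarith [Real.add_one_le_exp h]

/-- the part of `X` which is not too far beyond the loop -/
def cut (X : Set E) (l : End) (a : ℝ) : Set E := {y | y ∈ X ∧ -a ≤ l.dep y.1}

/-- the tube in the chart of the loop -/
def Xc (X : Set E) (l : End) (a R : ℝ) : Set E := bc (ech l) ⁻¹' near (cut X l a) l.w R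

/-- normal coordinate -/
def nu (l : End) (y : E) : ℂ := y.2 - l.w (ech l y.1)

/-- fibre coordinate -/
def Vc (l : End) (ch : ℂ → ℂ) (y : E) : ℂ := nu l y * ch (ech l y.1)

/-- standing hypotheses at a loop -/
structure LS (X K : Set E) (l : End) (ch : ℂ → ℂ) (τ a R h : ℝ) : Prop where
  std : Std X K
  hk : l.k ≠ Kind.pt
  hr : 0 < l.r
  ha : 0 < a ∧ a ≤ h
  hR : 0 < R ∧ R ≤ τ
  hw : AnalyticOnNhd ℂ l.w (l.ann (Icc (-h) h))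
  hch : AnalyticOnNhd ℂ ch (l.ann (Icc (-a) h))
  nr : ∀ y ∈ X, y ∉ K → y.1 ∈ l.ann (Icc (-h) h) → ‖y.2 - l.w y.1‖ ≤ τ →
    ‖y.2 - l.w y.1‖ < R ∧ -a < l.dep y.1

namespace LS

variable {X K : Set E} {ch : ℂ → ℂ} {τ a R h : ℝ} (s : LS X K l ch τ a R h)
include s

theorem sub : l.ann (Icc (-a) h) ⊆ l.ann (Icc (-h) h) :=
  End.ann_mono (Icc_subset_Icc (neg_le_neg s.ha.2) le_rfl)

theorem mem {y : E} (hy : y ∈ ov (Xc X l a R) (AN h h)) : y.1 ∈ AN a h ∧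
    ech l y.1 ∈ l.ann (Icc (-a) h) := by
  have h1 : ech l y.1 ∈ l.ann (Icc (-a) h) :=
    ⟨(ech_ne s.hr (an_ne hy.2)).1, hy.1.1.2, ((ech_AN s.hr (an_ne hy.2)).2 hy.2).2.2⟩
  exact ⟨(ech_AN s.hr (an_ne hy.2)).1 h1, h1⟩

theorem lt {y : E} (hy : y ∈ ov (Xc X l a R) (AN h h)) (hk : y ∉ bc (ech l) ⁻¹' K) :
    ‖y.1‖ < Real.exp a := by
  have := (s.nr _ hy.1.1.1 hk (s.sub (s.mem hy).2) (hy.1.2.trans s.hR.2)).2
  change -a < l.dep (ech l y.1) at this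
  rw [(ech_ne s.hr (an_ne hy.2)).2] at this
  exact (Real.log_lt_iff_lt_exp (norm_pos_iff.2 (an_ne hy.2))).1 (by linarith)

theorem np : NP (Xc X l a R) (bc (ech l) ⁻¹' K) (AN h h) := by
  have h1 : NP (near X l.w R) K (l.ann (Icc (-a) h)) := np_near s.std.cX s.std.np
    (End.isCompact_ann s.hr isCompact_Icc).isClosed (fun z hz => (s.hw z (s.sub hz)).continuousAt)
    fun y hy hk hz e => (s.nr y hy hk (s.sub hz) (e.le.trans s.hR.2)).1.ne e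
  have h2 := st_pull _ _ _ (AN a h) (ech l) h1 (isCompact_AN _ _) fun z hz =>
    ⟨(ech_der s.hr (an_ne hz)).1, fun e => (ech_ne s.hr (an_ne hz)).1 (sub_eq_zero.1 (by
      rcases (ech_der s.hr (an_ne hz)).2 with b | b <;> rw [e, mul_zero] at b
      · exact b.symm
      · exact neg_eq_zero.1 b.symm)), (ech_AN s.hr (an_ne hz)).2 hz⟩
  have h3 : ov (Xc X l a R) (AN h h) = ov (bc (ech l) ⁻¹' near X l.w R) (AN a h) :=
    Set.ext fun y => ⟨fun hy => ⟨⟨hy.1.1.1, hy.1.2⟩, (s.mem hy).1⟩, fun hy =>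
      ⟨⟨⟨hy.1.1, ((ech_AN s.hr (an_ne hy.2)).2 hy.2).2.1⟩, hy.1.2⟩, hy.2.1,
        hy.2.2.trans (Real.exp_le_exp.2 s.ha.2)⟩⟩
  refine ⟨h3 ▸ h2.cpt, fun y hy => hy.1, fun y hy hk ⟨G, a1, a2⟩ =>
    h2.np y (h3 ▸ hy) hk ⟨G, a1, ?_⟩⟩
  have c : ContinuousAt (fun v : E => ‖v.1‖) y := by fun_prop
  filter_upwards [a2, c.eventually (Iio_mem_nhds (s.lt hy hk)),
    c.eventually (Ioi_mem_nhds (norm_pos_iff.2 (an_ne hy.2)))] with v b1 b2 b3 hv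
  refine b1 ⟨⟨hv.1, ?_⟩, hv.2⟩
  change -a ≤ l.dep (ech l v.1)
  rw [(ech_ne s.hr (norm_pos_iff.1 b3)).2, neg_le_neg_iff]
  exact (Real.log_le_iff_le_exp b3).2 b2.le

theorem an_nu : AnalyticOnNhd ℂ (nu l) (ov (Xc X l a R) (AN h h)) := fun y hy =>
  analyticAt_snd.sub (((s.hw _ (s.sub (s.mem hy).2)).comp (ech_der s.hr (an_ne hy.2)).1).comp
    analyticAt_fst)

theorem an : AnalyticOnNhd ℂ (Vc l ch) (ov (Xc X l a R) (AN h h)) := fun y hy =>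
  (s.an_nu y hy).mul (((s.hch _ (s.mem hy).2).comp (ech_der s.hr (an_ne hy.2)).1).comp analyticAt_fst)

/-- points of the wide tube are in the chart -/
theorem lift {y : E} (hy : y ∈ near (X \ K) l.w τ) (hz : y.1 ∈ l.ann (Icc (-h) h)) :
    y ∈ near (cut X l a) l.w R ∧ ∃ v ∈ ov (Xc X l a R) (AN h h), bc (ech l) v = y := by
  obtain ⟨a1, a2⟩ := s.nr y hy.1.1 hy.1.2 hz hy.2
  obtain ⟨v, b1, rfl⟩ := ech_surj s.hr hz.1
  exact ⟨⟨⟨hy.1.1, a2.le⟩, a1.le⟩, v, ⟨⟨⟨hy.1.1, a2.le⟩, a1.le⟩, (ech_AN s.hr b1).1 hz⟩, rfl⟩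

end LS

theorem slh_tr {X D : Set E} {φ : E → ℝ} {R τ h B Λ κ : ℝ} (hr : 0 < l.r) (h0 : 0 < h)
    (H : SLH l X φ R h B Λ κ) (hR : R ≤ τ)
    (h1 : ∀ y ∈ near X l.w R, y.1 ∈ l.ann (Icc (h / 16) h) → y ∈ D ∨ φ y = 0)
    (h2 : ∀ y ∈ near D l.w τ, y.1 ∈ l.ann (Icc (h / 16) h) → y ∈ near X l.w R) :
    SLH l D φ τ h B Λ κ := by
  obtain ⟨Λ1, H⟩ := H
  refine ⟨Λ1, fun s hs f a1 a2 a3 a4 => ?_⟩
  obtain ⟨Bd, b1, b2, b3, b4⟩ := H s hs f a1 a2 a3 fun y c1 c2 c3 =>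
    (h1 y ⟨c1, c3⟩ (End.sphere_subset_ann hr (mem_Icc.2 ⟨by linarith [hs.1], by linarith [hs.2]⟩) c2)).elim
      (fun d => a4 y d c2 (c3.trans hR)) fun d => d.trans_le (Real.exp_pos _).le
  refine ⟨Bd, b1, b2, fun y c1 c2 c3 => ?_, b4⟩
  have := h2 y ⟨c1, c3⟩ (End.sphere_subset_ann hr (mem_Icc.2 ⟨by linarith [hs.1], by linarith [hs.2]⟩) c2)
  exact b3 y this.1 c2 this.2

theorem pos_inf {W : Type} [Finite W] {p : W → ℝ → Prop} (h : ∀ i, ∃ o > (0 : ℝ), p i o) :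
    ∃ o > (0 : ℝ), ∀ i, ∃ o' ≥ o, p i o' := by
  choose f f0 hf using h
  rcases isEmpty_or_nonempty W with e | e
  · exact ⟨1, one_pos, fun i => e.elim i⟩
  · obtain ⟨i, hi⟩ := Finite.exists_min f
    exact ⟨f i, f0 i, fun j => ⟨f j, hi j, hf j⟩⟩

/-- the end property at a loop -/
theorem ring_core {h Λw Cu Λ0 η : ℝ} {n : ℕ} {κf : ℝ → ℝ} (hK : Kit h n Λw Cu Λ0 η κf)
    {W : Type} [Fintype W] {x : W → ℂ} {ρ ex Cw : W → ℝ} (hW : WinOK h n x ρ ex Cw) (CD : ℝ)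
    (hD : 0 ≤ CD) : ∃ o > (0 : ℝ), ∀ (I : Type) [Fintype I] (Ef Ef' : I → ℝ → ℝ) (u : I → ℂ → ℂ)
    (Cf : ℂ → ℝ) (X K : Set E) (l : End) (ch om : ℂ → ℂ) (τ a R t o' k Λ κ r1 r2 : ℝ)
    (rmin : W → ℝ), LS X K l ch τ a R h → a ≤ o → 0 < t → t ≤ o → 0 < o' → o' ≤ o →
    RL Ef Ef' u o' Cf t → (∀ z : ℂ, |Real.log ‖z‖| ≤ 2 * t → ∀ s : ℝ, s ≤ 1 →
      (∀ i, s ≤ ‖z - x i‖) → s * Cf z ≤ CD) →
    KW (Xc X l a R) (bc (ech l) ⁻¹' K) (Vc l ch) (zs Ef u)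
      (annW h x fun i => κf (Cw i) * ρ i) t (fun y => Vc l ch y ≠ 0) →
    (∀ i, WinP (Xc X l a R \ bc (ech l) ⁻¹' K) (Vc l ch) (x i) (ρ i) (ex i) (Cw i) (rmin i) ∧
      rmin i ≤ κf (Cw i) * ρ i) →
    LW l h r1 (fun z => Real.log ‖om z / ch z‖) k Λ → Λ ≤ Λw →
    (∀ z ∈ l.ann (Icc (h / 16) h), om z ≠ 0 ∧ ch z ≠ 0) → k - (∑ i, ex i) / 4 + η ≤ κ →
    EP l (X \ K) (fun y => ‖y.2 - l.w y.1‖ * ‖om y.1‖) τ h r1 r2 Cu Λ0 κ 0 ∧
      ((∀ y ∈ near (X \ K) l.w τ, y.1 ∈ l.ann {h} → y.2 = l.w y.1) →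
        ∀ y ∈ ov (Xc X l a R) (AN h h), y ∉ bc (ech l) ⁻¹' K → Vc l ch y = 0) := by
  obtain ⟨h0, h1, k1, k2, k3, k4, k5, Λ1, Λ2, k6, k7, k8, k9, k10⟩ := hK
  have w : ∀ j, ‖x j‖ = 1 ∧ 0 < ρ j ∧ ρ j ≤ h / 8 ∧ |ex j| ≤ 4 ∧ 1 ≤ Cw j ∧ 0 < κf (Cw j) ∧
      κf (Cw j) ≤ 1 / 3 := fun j => by
    obtain ⟨c1, c2, c3, c4, c5⟩ := hW.2.1 j
    exact ⟨c1, c2, c3, c4, c5, (k5 _ c5).1,
      (k5 _ c5).2.trans (one_div_le_one_div_of_le (by norm_num) (by linarith))⟩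
  obtain ⟨s1, s10, hs1⟩ := pos_inf (p := fun i o => o = κf (Cw i) * ρ i)
    fun i => ⟨_, mul_pos (w i).2.2.2.2.2.1 (w i).2.1, rfl⟩
  obtain ⟨s0, s00, s01, s02⟩ : ∃ s0 > (0 : ℝ), s0 ≤ 1 ∧ ∀ i, 2 * s0 ≤ κf (Cw i) * ρ i :=
    ⟨min (s1 / 2) 1, by positivity, min_le_right _ _, fun i => by
      obtain ⟨_, a, rfl⟩ := hs1 i
      linarith [min_le_left (s1 / 2) 1]⟩
  have p1 : 0 < η * h / 4 := by positivity
  obtain ⟨ι1, i1, H1⟩ := all_endl h n Λw 0 _ Λ1 κf h0 h1 k1 le_rfl p1 k6 k9 W x ρ ex Cw hW.1 w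
    hW.2.2 (cW (CD / s0)) 0
  obtain ⟨ι2, i2, H2⟩ := all_endl h n Λw Λ0 _ Λ2 κf h0 h1 k1 k2 p1 k7 k10 W x ρ ex Cw hW.1 w
    hW.2.2 (cW (CD / s0)) 0
  have i0 : 0 < min ι1 ι2 := lt_min i1 i2
  obtain ⟨o, ho, HA⟩ := aw_of (min ι1 ι2) (CD / s0) i0 (by positivity)
  refine ⟨min (min o (min ι1 ι2)) (min (s0 / 4) (h / 32)), by positivity, ?_⟩
  intro I _ Ef Ef' u Cf X K l ch om τ a R t o' k Λ κ r1 r2 rmin s a1 t0 t1 o0 o1 hR hf hKW hw hL hΛ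
    hne hκ
  simp only [le_min_iff] at a1 t1 o1
  obtain ⟨rr, hR'⟩ := hR.rw o0.le
  obtain ⟨l1, g, l2, -⟩ := hL
  obtain ⟨l2, l3⟩ := l2 s.hk
  have sb : annW h x (fun i => κf (Cw i) * ρ i) ⊆ AN h h := fun z hz => ⟨hz.1, hz.2.1⟩
  have cl : ∀ z : ℂ, Real.exp (-h) ≤ ‖z‖ → ‖z‖ ≤ Real.exp (-(h / 16)) →
      ech l z ∈ l.ann (Icc (h / 16) h) := fun z b c => by
    have := (ech_AN (a := -(h / 16)) s.hr (an_ne ⟨b, c⟩)).2 ⟨b, c⟩
    rwa [neg_neg] at this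
  have e0 : ‖((Real.exp (-h) : ℝ) : ℂ)‖ = Real.exp (-h) := by
    rw [Complex.norm_real, Real.norm_of_nonneg (Real.exp_pos _).le]
  have cl0 := cl (Real.exp (-h) : ℝ) e0.ge (e0.le.trans (Real.exp_le_exp.2 (by linarith)))
  have kz : ∀ y ∈ near (cut X l a) l.w R, y.1 ∈ l.ann (Icc (h / 16) h) → y ∈ K →
      ‖y.2 - l.w y.1‖ * ‖om y.1‖ = 0 := fun y hy hz hk => by
    obtain ⟨v, b1, rfl⟩ := ech_surj s.hr hz.1
    have b2 := hz.2
    change l.dep (ech l v.1) ∈ _ at b2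
    rw [(ech_ne s.hr b1).2] at b2
    by_contra c
    have := ((hKW v ⟨hy, ENDL.mem_annW h0 h1 (fun j => ⟨(w j).1, by
      nlinarith [(w j).2.1, (w j).2.2.1, (w j).2.2.2.2.2.2]⟩) (by
        rw [neg_neg, Real.exp_log (norm_pos_iff.2 b1)]) b2.1 b2.2⟩
      (mul_ne_zero (norm_ne_zero_iff.1 (left_ne_zero_of_mul c)) (hne _ hz).2)).1 hk).1
    linarith [neg_abs_le (Real.log ‖v.1‖), b2.1, t1.2.2]
  have LH : LoopHyp (cut X l a) K (fun y => ‖y.2 - l.w y.1‖ * ‖om y.1‖) l (Vc l ch) (fun _ => 1)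
      (fun z => g (ech l z)) 0 h R n x ρ (fun i => κf (Cw i) * ρ i) ex Cw (min ι1 ι2)
      (cW (CD / s0)) 0 Λw (1 / 2) k 0 0 := by
    refine ⟨le_rfl, s.np.mono (ENDL.isClosed_annW _ _ _) sb, s.an.mono (ov_mono sb),
      fun _ _ => analyticAt_const, fun z _ => ⟨one_ne_zero, by simp, fun _ => by simpa using i0.le⟩,
      HA I W x _ _ _ _ Ef Ef' u _ _ 0 o' h t rr Cf t0 t1.1.1 o0 o1.1.1
        (fun j => by linarith [s02 j, t1.2.1]) hR' (fun z b c => ?_) (hKW.mono subset_rfl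
          fun y _ b e => b (by simp [pp, e])) fun y hy hk => (s.lt ⟨hy.1, sb hy.2⟩ hk).le.trans
            (Real.exp_le_exp.2 (le_min a1.1.2.1 a1.1.2.2)),
      fun j => ⟨rmin j, 0, by simp only [mul_one, norm_pp0]; exact (hw j).1.1, (hw j).2, ?_⟩,
      l1.trans hΛ, fun z b c => ⟨(l2 _ (cl z b c)).comp (ech_der s.hr (an_ne ⟨b, c⟩)).1, ?_⟩,
      fun y hy b c => ⟨kz _ hy (cl _ b c), fun _ => ?_⟩⟩
    · rw [le_div_iff₀ s00, mul_comm]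
      exact hf z b s0 s01 fun i => by linarith [s02 i, c i]
    · have := (w j).2.1
      have := (w j).2.2.2.2.1
      positivity
    · exact abs_le.2 ⟨by linarith [(l3 _ cl0).2 _ (cl z b c)],
        by linarith [(l3 _ (cl z b c)).2 _ cl0]⟩
    · have c1 := cl _ b c
      have c2 := an_ne ⟨b, c⟩
      obtain ⟨c3, c4⟩ := hne _ c1
      have c5 := (l3 _ c1).1
      rw [(ech_ne s.hr c2).2] at c5
      have c6 : ‖pp 0 (Vc l ch y) * 1‖ ^ (1 / 2 : ℝ) * Real.exp (g (ech l y.1)).re * ‖y.1‖ ^ k =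
          ‖nu l y‖ * ‖om (ech l y.1)‖ := by
        rw [mul_one, norm_pp0, one_div, show (2 : ℝ)⁻¹ = ((2 : ℕ) : ℝ)⁻¹ by norm_num,
          Real.pow_rpow_inv_natCast (norm_nonneg _) two_ne_zero,
          Real.rpow_def_of_pos (norm_pos_iff.2 c2), mul_assoc, ← Real.exp_add,
          show (g (ech l y.1)).re + Real.log ‖y.1‖ * k = Real.log ‖om (ech l y.1) / ch (ech l y.1)‖
            by linarith, Real.exp_log (norm_pos_iff.2 (div_ne_zero c3 c4)), Vc,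
          ← norm_mul, ← norm_mul, mul_assoc, mul_div_cancel₀ _ c4]
      rw [c6, Real.exp_zero, one_mul, one_mul]
      exact ⟨le_rfl, le_rfl⟩
  have E1 := H1 _ _ _ l _ _ _ _ _ _ _ _ _ s.hk s.hr le_rfl (by norm_num) le_rfl zero_le_one le_rfl
    (LH.mono (min_le_left _ _))
  have E2 := H2 _ _ _ l _ _ _ _ _ _ _ _ _ s.hk s.hr le_rfl (by norm_num) le_rfl zero_le_one le_rfl
    (LH.mono (min_le_right _ _))
  have dn : ∀ y ∈ near (cut X l a) l.w R, y ∉ K → y ∈ near (X \ K) l.w τ := fun y hy hk =>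
    ⟨⟨hy.1.1, hk⟩, hy.2.trans s.hR.2⟩
  have up : ∀ y ∈ near (X \ K) l.w τ, y.1 ∈ l.ann (Icc (h / 16) h) → y ∈ near (cut X l a) l.w R :=
    fun y hy hz => (s.lift hy (End.ann_mono (Icc_subset_Icc (by linarith) le_rfl) hz)).1
  refine ⟨fun lv b _ => ⟨fun _ B Λ' c d => slh_tr s.hr h0 ((E2 lv b b.le).1 B Λ' κ c d ?_) s.hR.2
    (fun y hy hz => ?_) up, fun c y hy hz => ?_⟩, fun c => ?_⟩
  · rw [show (η * h / 4 + 2 * 0) * 2 / h = η / 2 by field_simp; ring]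
    linarith
  · by_cases e : y ∈ K
    · exact Or.inr (div_eq_zero_iff.2 (Or.inl (kz y hy hz e)))
    · exact Or.inl ⟨hy.1.1, e⟩
  · rw [col, if_neg s.hk] at hz
    rw [cc, if_neg s.hk] at c
    rw [if_neg s.hk, mul_one]
    exact (((E1 lv b b.le).2 fun v e f => c v (dn v e f)).1 y (up y hy hz) hz).trans (by gcongr)
  have z1 : ∀ y ∈ ov (Xc X l a R) (annW h x fun i => κf (Cw i) * ρ i), y ∉ bc (ech l) ⁻¹' K →
      Vc l ch y = 0 := fun y hy hk => by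
    have b1 : Tendsto (fun lv : ℝ => (lv * Real.exp (-(g (ech l (Real.exp (-h) : ℝ))).re)) ^ 2 *
        Real.exp Λ1 * s0⁻¹ ^ (5 * n)) (𝓝[>] 0) (𝓝 0) :=
      (Continuous.tendsto' (by fun_prop) _ _ (by simp)).mono_left nhdsWithin_le_nhds
    have b2 := ge_of_tendsto b1 (eventually_mem_nhdsWithin.mono fun lv b => by
      have := ((E1 lv b (le_of_lt b)).2 fun v e f g => by
        simp only [c v (dn v e f) g, sub_self, norm_zero, zero_mul]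
        exact le_of_lt b).2 y hy hk s0 s00 s01 fun j => by linarith [s02 j, hy.2.2.2 j]
      rwa [show (1 : ℝ) / (1 / 2) = (2 : ℕ) by norm_num, Real.rpow_natCast, mul_one, norm_pp0]
        at this)
    exact norm_eq_zero.1 (pow_eq_zero_iff two_ne_zero |>.1 (le_antisymm b2 (by positivity)))
  intro y hy hk
  by_cases b : ∀ i, κf (Cw i) * ρ i ≤ ‖y.1 - x i‖
  · exact z1 y ⟨hy.1, hy.2.1, hy.2.2, b⟩ hk
  push Not at b
  obtain ⟨i, b⟩ := b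
  obtain ⟨w1, w2, w3, -, w5, w6, w7⟩ := w i
  refine (hw i).1.2 (fun v hv c1 c2 => z1 v ⟨hv.1, (ball_AN w1 h1 w3 c2).1, (ball_AN w1 h1 w3 c2).2,
    fun j => ?_⟩ hv.2) y ⟨hy.1, hk⟩ (by nlinarith)
  by_cases e : i = j
  · subst e
    refine le_trans ?_ c1
    have := (k5 _ w5).2
    rw [le_div_iff₀ (by linarith)] at this ⊢
    nlinarith
  · have d1 := hW.2.2 i j e
    have d2 := hW.2.2 j i (Ne.symm e)
    have d3 := norm_sub_le_norm_sub_add_norm_sub (x i) v.1 (x j)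
    rw [norm_sub_rev (x j)] at d2
    rw [norm_sub_rev (x i) v.1] at d3
    nlinarith [(w j).2.1, (w j).2.2.2.2.2.2]

end Pool.Agent.S6.ENDS
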