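import Pool.Agent.Lib.S6.Site2
import Pool.Agent.Lib.S6.Ends2

/-!
Section 6 of the project 9ccfb7: the wall hypotheses on the annulus without the window discs.
-/

open Set Filter Topology Metric
open scoped ContDiff

noncomputable section

namespace Pool.Agent.S6

open Pool.Agent.CF (End Kind IsCurve Geo SLH Cv Priv)
open Pool.Agent.Lib
open Pool.Agent.Lib.SH (bc ov ech pp GP)

namespace AWD

theorem hq_near (l : End) (hr : 0 < l.r) {x : ℂ} (hx : ‖x‖ = 1) {s t : ℝ} (h : |s| + |t| ≤ 1) :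
    ‖hq l x s t - (l.c + l.r * x)‖ ≤ 2 * l.r * (|s| + |t|) := by
  have e1 : hq l x s t - (l.c + l.r * x) =
      l.r * x * (Complex.exp (-s + t * Complex.I) - 1) := by
    unfold hq; ring
  have e2 : ‖(-s + t * Complex.I : ℂ)‖ ≤ |s| + |t| := by
    refine (norm_add_le _ _).trans (le_of_eq ?_)
    simp
  have e3 := Complex.norm_exp_sub_one_le (e2.trans h)
  rw [e1, norm_mul, norm_mul, hx, Complex.norm_real, Real.norm_eq_abs, abs_of_pos hr]
  nlinarith

theorem disc_near (l : End) (hr : 0 < l.r) {x : ℂ} (hx : ‖x‖ = 1) {δ L u : ℝ} (hδ : 0 < δ)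
    (hδ1 : δ ≤ 1) (hL : 10 ≤ L) (hu : u ≤ 1) {z : ℂ}
    (hz : z ∈ closedBall (hq l x δ 0) (2 * l.r * δ * Real.exp (-δ - L) * Real.exp u)) :
    ‖z - (l.c + l.r * x)‖ ≤ 3 * l.r * δ := by
  have e1 := hq_near l hr hx (s := δ) (t := 0) (by rw [abs_of_pos hδ, abs_zero]; linarith)
  rw [abs_of_pos hδ, abs_zero, add_zero] at e1
  have e2 : Real.exp (-δ - L) * Real.exp u ≤ 1 / 2 := by
    rw [← Real.exp_add]
    have a1 : Real.exp (-δ - L + u) ≤ Real.exp (-1) := Real.exp_le_exp.2 (by linarith)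
    have a2 : Real.exp (-1) ≤ 1 / 2 := by
      rw [Real.exp_neg, inv_eq_one_div]
      exact one_div_le_one_div_of_le (by norm_num) (by linarith [Real.add_one_le_exp 1])
    linarith
  have e3 : ‖z - hq l x δ 0‖ ≤ l.r * δ := by
    have := mem_closedBall_iff_norm.1 hz
    have a : 0 < l.r * δ := mul_pos hr hδ
    nlinarith
  have e4 := norm_add_le (z - hq l x δ 0) (hq l x δ 0 - (l.c + l.r * x))
  rw [sub_add_sub_cancel] at e4
  linarith

theorem ech_out {l : End} (hk : l.k = Kind.out) (z : ℂ) : ech l z = l.c + l.r * z := by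
  unfold ech; rw [if_pos hk]

theorem dist_out {l : End} (hk : l.k = Kind.out) (hr : 0 < l.r) (z x : ℂ) :
    ‖ech l z - (l.c + l.r * x)‖ = l.r * ‖z - x‖ := by
  rw [ech_out hk, show l.c + l.r * z - (l.c + l.r * x) = l.r * (z - x) by ring, norm_mul,
    Complex.norm_real, Real.norm_eq_abs, abs_of_pos hr]

theorem norm_E (x y : ℝ) : ‖Complex.exp (Complex.I * (x + y * Complex.I))‖ = Real.exp (-y) := by
  rw [Complex.norm_exp]
  simp

theorem E_near (x y : ℝ) (hy : |y| ≤ 1) :
    ‖Complex.exp (Complex.I * (x + y * Complex.I)) - Complex.exp (Complex.I * x)‖ ≤ 2 * |y| := by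
  have e1 : Complex.exp (Complex.I * (x + y * Complex.I)) - Complex.exp (Complex.I * x) =
      Complex.exp (Complex.I * x) * (Complex.exp (-y) - 1) := by
    rw [mul_sub, ← Complex.exp_add, mul_one]
    congr 2
    linear_combination (y : ℂ) * Complex.I_mul_I
  have e2 : ‖(-y : ℂ)‖ = |y| := by simp
  have e3 := Complex.norm_exp_sub_one_le (x := -y) (by rw [e2]; exact hy)
  have e4 : ‖Complex.exp (Complex.I * x)‖ = 1 := by
    rw [Complex.norm_exp]; simp
  rw [e1, norm_mul, e4, one_mul, ← e2]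
  exact e3

theorem chart {l : End} (hr : 0 < l.r) (hr' : l.r ≤ 10) (x y : ℝ) (hy : |y| ≤ 1) :
    AnalyticAt ℂ (fun ζ => ech l (Complex.exp (Complex.I * ζ))) (x + y * Complex.I) ∧
      ‖deriv (fun ζ => ech l (Complex.exp (Complex.I * ζ))) (x + y * Complex.I)‖ ≤ 100 ∧
      ech l (Complex.exp (Complex.I * (x + y * Complex.I))) ≠ l.c ∧
      l.dep (ech l (Complex.exp (Complex.I * (x + y * Complex.I)))) = y := by
  have hE := Complex.exp_ne_zero (Complex.I * (x + y * Complex.I))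
  obtain ⟨a1, a2⟩ := ENDS.ech_der hr hE
  obtain ⟨b1, b2⟩ := ENDS.ech_ne hr hE
  rw [norm_E, Real.log_exp, neg_neg] at b2
  have hd : HasDerivAt (fun ζ : ℂ => Complex.exp (Complex.I * ζ))
      (Complex.exp (Complex.I * (x + y * Complex.I)) * Complex.I) (x + y * Complex.I) := by
    simpa using ((hasDerivAt_id (x + y * Complex.I : ℂ)).const_mul Complex.I).cexp
  have hc : HasDerivAt (fun ζ => ech l (Complex.exp (Complex.I * ζ)))
      (deriv (ech l) (Complex.exp (Complex.I * (x + y * Complex.I))) *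
        (Complex.exp (Complex.I * (x + y * Complex.I)) * Complex.I)) (x + y * Complex.I) :=
    HasDerivAt.comp (h₂ := ech l) _ a1.differentiableAt.hasDerivAt hd
  refine ⟨AnalyticAt.comp (g := ech l) (f := fun ζ : ℂ => Complex.exp (Complex.I * ζ)) a1
    (by fun_prop), ?_, b1, b2⟩
  rw [hc.deriv, ← mul_assoc, norm_mul, Complex.norm_I, mul_one, mul_comm]
  have e1 : ‖Complex.exp (Complex.I * (x + y * Complex.I)) *
      deriv (ech l) (Complex.exp (Complex.I * (x + y * Complex.I)))‖ = l.rad y := by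
    have b3 := End.norm_eq_rad hr b1
    rw [b2] at b3
    rcases a2 with a | a
    · rw [a, b3]
    · rw [a, norm_neg, b3]
  rw [e1, End.rad]
  have e2 : Real.exp (l.sgn * y) ≤ Real.exp 1 := by
    refine Real.exp_le_exp.2 ?_
    have := abs_le.1 hy
    unfold End.sgn
    split_ifs <;> push_cast <;> linarith
  have e3 := Real.exp_one_lt_d9
  have e4 := Real.exp_pos (l.sgn * y)
  nlinarith

theorem wv_le {E1 T S : ℝ → ℝ} {u1 u2 : ℂ → ℂ} {e y r o : ℝ} {z : ℂ} (he : 0 < e) (hr : 4 * e ≤ r)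
    (ho : o ≤ 1 / 2) (h1 : |E1 y| ≤ r / 4) (hT : 0 ≤ T y ∧ T y ≤ 1) (hS : 0 ≤ S y ∧ S y ≤ 2)
    (n1 : ‖u1 z - 1‖ ≤ o) (n2 : ‖u2 z - 1‖ ≤ o) : ‖wv E1 T S u1 u2 e y z‖ ≤ r := by
  have m1 : ‖u1 z‖ ≤ 3 / 2 := by
    have := norm_add_le (u1 z - 1) 1
    rw [sub_add_cancel, norm_one] at this
    linarith
  have m2 : ‖u2 z‖ ≤ 3 / 2 := by
    have := norm_add_le (u2 z - 1) 1
    rw [sub_add_cancel, norm_one] at this
    linarith
  have m3 : ‖2 - u2 z‖ ≤ 3 / 2 := by
    have := norm_sub_le (1 : ℂ) (u2 z - 1)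
    rw [show (1 : ℂ) - (u2 z - 1) = 2 - u2 z by ring, norm_one] at this
    linarith
  have k1 : ‖(E1 y : ℂ) * u1 z‖ ≤ r / 4 * (3 / 2) := by
    rw [norm_mul, Complex.norm_real, Real.norm_eq_abs]
    exact mul_le_mul h1 m1 (norm_nonneg _) (by linarith)
  have k2 : ‖((e / 2 * T y : ℝ) : ℂ) * u2 z‖ ≤ e / 2 * (3 / 2) := by
    rw [norm_mul, Complex.norm_real, Real.norm_eq_abs,
      abs_of_nonneg (mul_nonneg (by linarith) hT.1)]
    exact mul_le_mul (by nlinarith [hT.2]) m2 (norm_nonneg _) (by linarith)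
  have k3 : ‖((e / 2 * S y : ℝ) : ℂ) * (2 - u2 z)‖ ≤ e * (3 / 2) := by
    rw [norm_mul, Complex.norm_real, Real.norm_eq_abs,
      abs_of_nonneg (mul_nonneg (by linarith) hS.1)]
    exact mul_le_mul (by nlinarith [hS.2]) m3 (norm_nonneg _) (by linarith)
  have k4 := norm_add₃_le (a := (E1 y : ℂ) * u1 z) (b := ((e / 2 * T y : ℝ) : ℂ) * u2 z)
    (c := ((e / 2 * S y : ℝ) : ℂ) * (2 - u2 z))
  unfold wv
  linarith

end AWD

open AWD in
open Classical in
theorem st_awd (hS : St_SPW) : St_AWD := by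
  intro ι s0 h hι hs0 hh hh1
  obtain ⟨o1, ho1, H⟩ := hS ι hι
  refine ⟨min (min o1 ι) (min (h / 100) (min (s0 / 100) (1 / 2))), by positivity, ?_⟩
  intro s l one L τ a π π' _ x δ x' lm Tw E1 T X K ho hx hx' hL hδs hδh R hcut
  have o1' : s.o ≤ o1 := ho.trans ((min_le_left _ _).trans (min_le_left _ _))
  have o2 : s.o ≤ ι := ho.trans ((min_le_left _ _).trans (min_le_right _ _))
  have o3 : s.o ≤ h / 100 := ho.trans ((min_le_right _ _).trans (min_le_left _ _))
  have o4 : s.o ≤ s0 / 100 :=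
    ho.trans ((min_le_right _ _).trans ((min_le_right _ _).trans (min_le_left _ _)))
  have o5 : s.o ≤ 1 / 2 :=
    ho.trans ((min_le_right _ _).trans ((min_le_right _ _).trans (min_le_right _ _)))
  obtain ⟨he, her⟩ := R.num.e
  obtain ⟨hy2, -, ht, hto⟩ := R.num.y2
  have hR := R.num.R
  obtain ⟨ha, hat, hRτ, hδ, -⟩ := R.num'
  obtain ⟨-, hr, hr10, -⟩ := R.wall.lk
  obtain ⟨-, hy8, ht16⟩ := R.wall.pf.num
  have kπ : ∀ _ : π, l.k = Kind.out := fun k => by
    by_cases hone : one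
    · exact (R.out.1 hone).1
    · exact ((R.out.2 hone).1.false k).elim
  have kπ' : ∀ _ : π', l.k = Kind.out := fun k => by
    by_cases hone : one
    · exact (R.out.1 hone).1
    · exact ((R.out.2 hone).2.1.false k).elim
  -- points of the tube over the annulus
  have base : ∀ ρ0 : π ⊕ π' → ℝ, ∀ y ∈ ov (s.cX l X) (SH.annW h (Sum.elim x x') ρ0),
      y.1 ≠ 0 ∧ ech l y.1 ∈ l.ann (Icc (-h) h) ∧ ech l y.1 ∈ l.ann (Icc (-a) h) := by
    intro ρ0 y hy
    have h0 : y.1 ≠ 0 := norm_pos_iff.1 ((Real.exp_pos _).trans_le hy.2.1)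
    have h1 : ech l y.1 ∈ l.ann (Icc (-h) h) := (ENDS.ech_AN hr h0).2 ⟨hy.2.1, hy.2.2.1⟩
    exact ⟨h0, h1, h1.1, hcut (bc (ech l) y) hy.1 h1, h1.2.2⟩
  -- the wall in the unit d1
  have hN : ∀ z ∈ l.ann (Icc (if one then 0 else -(2 * s.t)) (2 * s.t)),
      (∀ k, s.y2 / 20000 * l.r ≤ ‖z - (l.c + l.r * x' k)‖) →
      wv E1 T s.S (fun z => s.d0 z / s.d1 z) (fun z => lm z / s.d1 z) s.e (l.dep z) z * s.d1 z =
        s.N z := by
    intro z hz hk
    have hz' : z ∈ l.ann (Icc (-(2 * s.t)) (2 * s.t)) :=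
      ⟨hz.1, le_trans (by split_ifs <;> linarith) hz.2.1, hz.2.2⟩
    have hd : s.d1 z ≠ 0 := by
      intro h0
      have := (R.wall.str z hz').1
      rw [h0, norm_zero, mul_zero] at this
      linarith
    rw [R.wall.eq z hz, (R.pure z hz hk).1]
    unfold wv
    push_cast
    field_simp
    ring
  have far : ∀ v : ℂ, (∀ k, s0 / 2 ≤ ‖v - x' k‖) →
      ∀ k, s.y2 / 20000 * l.r ≤ ‖ech l v - (l.c + l.r * x' k)‖ := by
    intro v hv k
    rw [dist_out (kπ' k) hr, mul_comm]
    exact mul_le_mul_of_nonneg_left (le_trans (by linarith) (hv k)) hr.le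
  refine ⟨?_, ?_, ?_⟩
  · intro y hy hz hK
    obtain ⟨h1 | ⟨k, h1⟩, -⟩ := R.kd1 y hy hK ⟨hz.1, le_trans (by linarith) hz.2.1, hz.2.2⟩
    · linarith [h1.2.2, hz.2.1]
    · have e1 := disc_near l hr (hx k) hδ (by linarith) hL (by linarith) h1
      have e2 := End.norm_eq_rad hr hz.1
      have e3 : (l.sgn : ℝ) = -1 := by
        unfold End.sgn; rw [if_pos (kπ k)]; norm_num
      rw [End.rad, e3] at e2
      have e4 : Real.exp (-1 * l.dep y.1) ≤ Real.exp (-(6 * δ)) :=
        Real.exp_le_exp.2 (by linarith [hz.2.1])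
      have e5 : Real.exp (-(6 * δ)) * (1 + 6 * δ) ≤ 1 := by
        rw [Real.exp_neg, inv_mul_le_iff₀ (Real.exp_pos _)]
        linarith [Real.add_one_le_exp (6 * δ)]
      have e6 := norm_sub_le (y.1 - l.c) (y.1 - (l.c + l.r * x k))
      rw [show y.1 - l.c - (y.1 - (l.c + l.r * x k)) = l.r * x k by ring, norm_mul, hx k,
        Complex.norm_real, Real.norm_eq_abs, abs_of_pos hr, mul_one] at e6
      have e7 : 1 - 3 * δ ≤ Real.exp (-(6 * δ)) := by
        have : l.r * (1 - 3 * δ) ≤ l.r * Real.exp (-(6 * δ)) := by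
          have := mul_le_mul_of_nonneg_left e4 hr.le
          linarith
        exact le_of_mul_le_mul_left this hr
      have e8 : (1 - 3 * δ) * (1 + 6 * δ) ≤ 1 :=
        (mul_le_mul_of_nonneg_right e7 (by linarith)).trans e5
      nlinarith
  · intro y hy
    obtain ⟨h0, -, h2⟩ := base _ y hy
    obtain ⟨c1, c2⟩ := R.cmp _ h2
    obtain ⟨c3, -, c4⟩ := c2 (y.2 - s.w (ech l y.1)) hy.1.2
    rw [add_sub_cancel] at c3 c4
    obtain ⟨m, hm⟩ := R.pole
    obtain ⟨m1, -, m2⟩ := hm _ h2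
    have d0 : AnalyticAt ℂ (fun v => (s.d0 v)⁻¹) (ech l y.1) := by
      refine AnalyticAt.congr ?_ (EventuallyEq.symm m2)
      refine m1.mul (Finset.analyticAt_fun_prod _ fun k _ => ?_)
      refine AnalyticAt.div (by fun_prop) (by fun_prop) ?_
      intro h3
      have q2 : Real.sqrt 2 ≤ 2 := Real.sqrt_le_iff.2 ⟨by norm_num, by norm_num⟩
      have q0 : 0 ≤ Real.sqrt 2 * δ := by positivity
      have q3 : |Real.sqrt 2 * δ| + |-δ| ≤ 3 * δ := by
        rw [abs_of_nonneg q0, abs_neg, abs_of_pos hδ]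
        nlinarith
      have e1 := hq_near l hr (hx k) (q3.trans (by linarith))
      rw [← sub_eq_zero.1 h3, dist_out (kπ k) hr] at e1
      have e2 : s0 ≤ ‖y.1 - x k‖ := hy.2.2.2 (Sum.inl k)
      have e3 : l.r * s0 ≤ l.r * ‖y.1 - x k‖ := mul_le_mul_of_nonneg_left e2 hr.le
      have e4 : l.r * (|Real.sqrt 2 * δ| + |-δ|) ≤ l.r * (3 * δ) :=
        mul_le_mul_of_nonneg_left q3 hr.le
      have e5 : l.r * (100 * δ) ≤ l.r * s0 := mul_le_mul_of_nonneg_left hδs hr.le
      have e6 : 0 < l.r * δ := mul_pos hr hδ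
      linarith
    have hV : AnalyticAt ℂ s.V (ech l y.1, y.2) := by
      refine AnalyticAt.congr ?_ (EventuallyEq.symm c4)
      simp only [div_eq_mul_inv]
      refine AnalyticAt.mul (AnalyticAt.mul (analyticAt_snd.sub ?_) ?_) c3
      · exact AnalyticAt.comp (g := s.w) (f := fun p : E => p.1) c1 analyticAt_fst
      · exact AnalyticAt.comp (g := fun v => (s.d0 v)⁻¹) (f := fun p : E => p.1) d0 analyticAt_fst
    have hb : AnalyticAt ℂ (bc (ech l)) y :=
      (AnalyticAt.comp (g := ech l) (f := fun p : E => p.1) (ENDS.ech_der hr h0).1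
        analyticAt_fst).prod analyticAt_snd
    exact AnalyticAt.comp (g := s.V) (f := bc (ech l)) hV hb
  · intro ρ0 hρ
    have small : ∀ y ∈ Icc (-(2 * (s.t / 1))) (2 * (s.t / 1)), y ∈ Icc (-(2 * s.t)) (2 * s.t) ∧
        |y| ≤ 2 * s.t := by
      intro y hy
      rw [div_one] at hy
      exact ⟨hy, abs_le.2 hy⟩
    obtain ⟨Ψy, hΨ⟩ := H (SH.arcW (Sum.elim x x') ρ0) E1 T s.S s.y2 s.t 1 s.e s.r s.o
      (fun ζ => ech l (Complex.exp (Complex.I * ζ))) (fun z => s.d0 z / s.d1 z)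
      (fun z => lm z / s.d1 z) s.Θ R.wall.pf one_pos (by linarith) he her o1' R.wall.bd
      (fun u _ y hy => by
        obtain ⟨y1, y2⟩ := small y hy
        obtain ⟨c1, c2, c3, c4⟩ := chart hr hr10 u y (by linarith)
        exact ⟨c1, c2, (R.wall.str _ ⟨c3, by rw [c4]; exact y1⟩).2.1⟩)
      (fun y hy => by
        obtain ⟨y1, y2⟩ := small y hy
        by_cases hc : one ∧ y < 0
        · left
          rw [one_mul]
          filter_upwards [Iio_mem_nhds hc.2] with v hv
          have hv' : v < 0 := hv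
          exact ⟨((R.out.1 hc.1).2 v hv'.le).1, ((R.out.1 hc.1).2 v hv'.le).2,
            R.wall.pf.S0 v (by linarith)⟩
        · right
          intro u hu
          obtain ⟨-, -, c3, c4⟩ := chart hr hr10 u y (by linarith)
          refine ⟨(R.wall.str _ ⟨c3, by rw [c4]; exact y1⟩).2.2.2, (R.pure _ ⟨c3, ?_⟩ ?_).2⟩
          · rw [c4]
            refine ⟨?_, y1.2⟩
            split_ifs with hone
            · exact not_lt.1 fun hlt => hc ⟨hone, hlt⟩
            · exact y1.1
          · refine far _ fun k => ?_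
            have e1 : ρ0 (Sum.inr k) ≤ ‖Complex.exp (Complex.I * u) - x' k‖ := hu (Sum.inr k)
            have e2 := E_near u y (by linarith)
            have e3 := norm_sub_le (Complex.exp (Complex.I * (u + y * Complex.I)) - x' k)
              (Complex.exp (Complex.I * (u + y * Complex.I)) - Complex.exp (Complex.I * u))
            rw [show Complex.exp (Complex.I * (u + y * Complex.I)) - x' k -
              (Complex.exp (Complex.I * (u + y * Complex.I)) - Complex.exp (Complex.I * u)) =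
              Complex.exp (Complex.I * u) - x' k by ring] at e3
            linarith [hρ (Sum.inr k)])
    have far' : ∀ y ∈ ov (s.cX l X) (SH.annW h (Sum.elim x x') ρ0),
        ∀ k, s.y2 / 20000 * l.r ≤ ‖ech l y.1 - (l.c + l.r * x' k)‖ := fun y hy =>
      far _ fun k => by
        have e1 : ρ0 (Sum.inr k) ≤ ‖y.1 - x' k‖ := hy.2.2.2 (Sum.inr k)
        linarith [hρ (Sum.inr k)]
    refine ⟨s.t / 1, _, Ψy, hΨ s.e 0 (Or.inl ⟨rfl, le_rfl⟩), ?_, ?_, ?_⟩
    · intro y hy hK _
      obtain ⟨h0, -, h2⟩ := base _ y hy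
      obtain ⟨h3, h4⟩ := R.kd1 (bc (ech l) y) hy.1 hK h2
      have h5 : ech l y.1 ∈ l.ann (Icc (if one then 0 else -s.t) s.t) := by
        rcases h3 with h3 | ⟨k, h3⟩
        · exact h3
        · exfalso
          have e1 := disc_near l hr (hx k) hδ (by linarith) hL (by linarith) h3
          have e0 : (bc (ech l) y).1 = ech l y.1 := rfl
          rw [e0, dist_out (kπ k) hr] at e1
          have e2 : ρ0 (Sum.inl k) ≤ ‖y.1 - x k‖ := hy.2.2.2 (Sum.inl k)
          have e3 : l.r * (100 * δ) ≤ l.r * ‖y.1 - x k‖ :=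
            mul_le_mul_of_nonneg_left (by linarith [hρ (Sum.inl k)]) hr.le
          have e6 : 0 < l.r * δ := mul_pos hr hδ
          linarith
      have h6 : -s.t ≤ l.dep (ech l y.1) := le_trans (by split_ifs <;> linarith) h5.2.1
      have h7 := (ENDS.ech_ne hr h0).2
      refine ⟨by rw [div_one]; exact abs_le.2 ⟨by linarith [h5.2.2], by linarith⟩, ?_⟩
      intro u _ v hv
      have h8 : l.dep (ech l y.1) = v := by
        rw [h7, hv, norm_E, Real.log_exp, neg_neg]
      have h9 := hN (ech l y.1) ⟨h5.1, le_trans (by split_ifs <;> linarith) h5.2.1,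
        by linarith [h5.2.2]⟩ (far' y hy)
      have h4' : y.2 = s.w (ech l y.1) + s.N (ech l y.1) := h4
      simp only [← hv, one_mul, SD.Θ, SD.cV, bc]
      rw [← h8, h9, ← h4']
    · intro y hy hp u _ v hv hE hV
      obtain ⟨h0, -, -⟩ := base _ y hy
      obtain ⟨h1, h7⟩ := ENDS.ech_ne hr h0
      have h8 : l.dep (ech l y.1) = v := by
        rw [h7, hE, norm_E, Real.log_exp, neg_neg]
      rw [div_one] at hv
      have hv' := abs_le.1 hv
      obtain ⟨s1, s2, s3, s4⟩ := R.wall.str (ech l y.1) ⟨h1, by rw [h8]; exact hv'⟩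
      simp only [← hE, one_mul] at hV
      have hd : s.d1 (ech l y.1) ≠ 0 := by
        intro h0
        rw [h0, norm_zero, mul_zero] at s1
        linarith
      by_cases hc : one ∧ v < 0
      · exfalso
        have z1 := (R.out.1 hc.1).2 v hc.2.le
        have z2 := R.wall.pf.S0 v (by linarith [hc.2])
        have z3 : wv E1 T s.S (fun z => s.d0 z / s.d1 z) (fun z => lm z / s.d1 z) s.e v
            (ech l y.1) = 0 := by
          unfold wv
          rw [z1.1, z1.2, z2]
          simp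
        rw [z3, s2.1.self_of_nhds.1] at hV
        exact hp (by rw [hV]; simp [pp])
      · have hz : ech l y.1 ∈ l.ann (Icc (if one then 0 else -(2 * s.t)) (2 * s.t)) := by
          refine ⟨h1, ?_⟩
          rw [h8]
          refine ⟨?_, hv'.2⟩
          split_ifs with hone
          · exact not_lt.1 fun hlt => hc ⟨hone, hlt⟩
          · exact hv'.1
        have h9 := hN _ hz (far' y hy)
        rw [h8] at h9
        have n1 : ‖y.2 - s.w (ech l y.1)‖ ≤ s.R := hy.1.2
        have n2 : ‖(y.2 - s.w (ech l y.1)) / s.d1 (ech l y.1)‖ ≤ s.r := by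
          rw [norm_div, div_le_iff₀ (norm_pos_iff.2 hd)]
          linarith
        have n3 := wv_le (E1 := E1) (T := T) (S := s.S) (u1 := fun z => s.d0 z / s.d1 z)
          (u2 := fun z => lm z / s.d1 z) (y := v) (z := ech l y.1) he her o5 (R.wall.bd v hv')
          (R.wall.pf.dT.2 v).2 (R.wall.pf.dS.2 v).2 s4.2.1 (R.pure _ hz (far' y hy)).2.2.1
        have n4 : s.Θ (ech l y.1, (y.2 - s.w (ech l y.1)) / s.d1 (ech l y.1)) = s.cV l y := by
          simp only [SD.Θ, SD.cV, bc]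
          rw [div_mul_cancel₀ _ hd, add_sub_cancel]
        have n5 := s3 _ _ n2 n3
        rw [n4, hV, sub_self, zero_sub, norm_neg] at n5
        have n6 : (y.2 - s.w (ech l y.1)) / s.d1 (ech l y.1) -
            wv E1 T s.S (fun z => s.d0 z / s.d1 z) (fun z => lm z / s.d1 z) s.e v
              (ech l y.1) = 0 := by
          refine norm_eq_zero.1 (le_antisymm ?_ (norm_nonneg _))
          nlinarith [norm_nonneg ((y.2 - s.w (ech l y.1)) / s.d1 (ech l y.1) -
            wv E1 T s.S (fun z => s.d0 z / s.d1 z) (fun z => lm z / s.d1 z) s.e v (ech l y.1))]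
        rw [← sub_eq_zero.1 n6, div_mul_cancel₀ _ hd] at h9
        have n7 := R.kd2 _ (Or.inl hz)
        rw [← h9, add_sub_cancel] at n7
        exact n7
    · intro y hy hK
      obtain ⟨h0, h1, -⟩ := base _ y hy
      have e1 := (R.tube (bc (ech l) y) ⟨hy.1.1, hy.1.2.trans hRτ⟩ hK h1).2
      have e2 : l.dep (bc (ech l) y).1 = -Real.log ‖y.1‖ := (ENDS.ech_ne hr h0).2
      rw [← Real.log_le_iff_le_exp (norm_pos_iff.2 h0)]
      linarith

end Pool.Agent.S6
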