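import Pool.Agent.Lib.S6.Desc

/-!
An unmodified surface serves the ends.
-/

open Set Filter Topology Metric

noncomputable section

namespace Pool.Agent.S6

open DESC

theorem st_serve (hE : St_ENDS) : St_SERVE := by
  intro ab hab I J _ _ fx F hz A B W Y sp fd τ sm gap h0 sw ok hk cY fit zone gain
  have b : Base ab.L ab.Cw fx F hz A B W Y sp fd τ :=
    ⟨by linarith [hab.num.1], hab.num.2.2.2.2.2.2.2.2, fun i => (sm i).continuous, gap, h0, sw, ok,
      hk, fit, zone⟩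
  obtain ⟨o, o0, H⟩ := ends_o hE hab A sp fd
  replace H := H A.lam W.pr fd.mu fit ok hk
  obtain ⟨o', p0, p1, p2⟩ := exists_o A fd o0
  obtain ⟨t1, a1, c1⟩ := small fun j => b.desc o0 j
  obtain ⟨t2, a2, c2⟩ := portL_exact sw h0 ok
  obtain ⟨t3, a3, c3⟩ := small (p := fun j t => (sp.l j).k ≠ CF.Kind.pt →
      RingL (sp.l j) (fd.win A j) (fun k => (A.e k).c) (fd.m j = A.H)
        (fun z => F (W.cp (fd.m j)) z - (sp.l j).w z) (fd.chart A j) t o' (2 * fd.CD)) fun j => by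
    by_cases h : (sp.l j).k = CF.Kind.pt
    · exact ⟨1, one_pos, fun _ _ _ n => (n h).elim⟩
    · obtain ⟨t, a, c⟩ := b.ringL_exact h p0
      exact ⟨t, a, fun s x y _ => c s x y⟩
  have t0 : 0 < min (min t1 t2) t3 := by positivity
  have m1 := (min_le_left (min t1 t2) t3).trans (min_le_left t1 t2)
  have m2 := (min_le_left (min t1 t2) t3).trans (min_le_right t1 t2)
  have lc : Loc ab.L A W sp fd F fd.U (min (min t1 t2) t3) o o' :=
    ⟨c3 _ t0 (min_le_right _ _), fun k D h => c2 _ t0 m2 k (b.PD_pt h) D o _ o0.le⟩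
  obtain ⟨r, r0, d⟩ := small (c1 _ t0 m1)
  obtain ⟨η, e0, e⟩ := tube cY b.lok zone.an zone.iso r0 r0
  refine ⟨η, e0, fun X K st hX j hK => ?_⟩
  obtain ⟨d1, d2⟩ := d r r0 le_rfl j F fd.U o' X K p0.le p1
    (fun k h => p2 k h (fit.win k h).2.2.1) (fun i z _ => by simpa using r0.le) lc hK
    fun y x u => e j y (hX ⟨x, u⟩)
  obtain ⟨h1, h2⟩ := H X K τ j st (zone.an j)
  by_cases h : (sp.l j).k = CF.Kind.pt
  · exact h1 h (d1 h)
  · exact h2 h fd.U ∅ subset_rfl (Finset.disjoint_empty_right _) (fun _ => gain) (d2 h)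

end Pool.Agent.S6
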