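import Pool.Agent.Lib.S6.BirDesc

/-!
The new ends in the birth step.
-/

open Set Filter Topology Metric
open scoped ContDiff

noncomputable section

namespace Pool.Agent.S6.Birth

open Pool.Agent.CF (End Kind Cv)
open Pool.Agent.Lib FitNew

namespace Ends

variable {π : Type} [Fintype π] {ab : Ab} {A : Cv} {x : π → ℂ} {Ef : ℝ → ℝ} {f : ℂ → ℂ}
  {t δ y1 τ : ℝ} {G : ℝ → ℝ} {D0 : π → ℂ → ℝ} {Bw M : ℂ → ℂ}

theorem prG (h : HW ab A x Ef t δ y1 τ G D0 Bw M) {N : ℝ} (hN : 0 < N) {two : Prop}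
    (n : ¬ two) : SH.PR (fun s => τ * G (s / N)) two := by
  refine SH.st_prof.2.1 G two τ N ⟨SH.PROF.flat_left h.bg.smooth h.bg.zero,
    eventually_mem_nhdsWithin.mono h.bg.pos, fun a => absurd a n, fun _ => h.bg.zero,
    fun a => ?_⟩ h.num.1 hN
  rw [← nhdsLE_sup_nhdsGT, eventually_sup]
  refine ⟨eventually_mem_nhdsWithin.mono fun s (c : s ≤ 0) => ?_, ?_⟩
  · rw [h.bg.zero s c, abs_zero, mul_zero]
    exact mul_nonneg (abs_nonneg _) (h.bg.mono s)
  · filter_upwards [h.st.2 a, self_mem_nhdsWithin] with s b (c : 0 < s)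
    rwa [abs_of_pos c, abs_of_nonneg (h.G0 s)]

theorem wall (o : OW A Ef f t) (h : HW ab A x Ef t δ y1 τ G D0 Bw M) {z : ℂ}
    (hz : z ∈ A.hub.ann (Icc 0 (2 * δ))) : f z + M z =
      A.hub.w z + τ * Bw ((z - A.c) / A.R) * (A.lam A.H z / bB A x δ z) := by
  have d0 := h.d0
  have d1 := h.d1
  have yt := h.num.2.2.1
  rw [o.ex z ⟨hz.1, hz.2.1, by linarith [hz.2.2]⟩, add_assoc,
    h.eq z ⟨hz.1, hz.2.1, by linarith [hz.2.2]⟩, pf, h.cut o (by linarith [hz.2.2])]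
  simp

theorem rad (hab : ab.OK) (o : OW A Ef f t) (h : HW ab A x Ef t δ y1 τ G D0 Bw M) :
    0 < bpr A ab.L δ ∧ bpr A ab.L δ * Real.exp (ab.y4 * δ) ≤ 2 * bpr A ab.L δ ∧
      2 * bpr A ab.L δ ≤ A.R * δ / 16 := by
  have d0 := h.d0
  have L0 := hab.num.1
  obtain ⟨m4, y0, y4, -, -, m1⟩ := h.bw.num
  have b0 := (HP.bpr_le o.hR d0 (L := ab.L) (by linarith)).1
  have a : Real.exp (ab.y4 * δ) ≤ 2 := by
    have := Real.exp_le_exp.2 (show ab.y4 * δ + ab.y4 * δ ≤ 1 by nlinarith)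
    rw [Real.exp_add] at this
    nlinarith [Real.exp_one_lt_d9, Real.exp_pos (ab.y4 * δ)]
  refine ⟨b0, by nlinarith, ?_⟩
  have c := HP.exp_le_eighth (s := 4) le_rfl
  have d := HP.exp_le_eighth (s := δ + ab.L - 4) (by linarith)
  have e : Real.exp (-δ - ab.L) ≤ 1 / 64 := by
    rw [show -δ - ab.L = -4 + -(δ + ab.L - 4) by ring, Real.exp_add]
    nlinarith [Real.exp_pos (-4), Real.exp_pos (-(δ + ab.L - 4))]
  have := mul_pos o.hR d0
  unfold bpr
  nlinarith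

theorem disc (o : OW A Ef f t) (h : HW ab A x Ef t δ y1 τ G D0 Bw M) (k : π) {z : ℂ}
    (hz : ‖z - hp A (x k) δ 0‖ ≤ A.R * δ / 16) : z ∈ A.hub.ann (Ioc (δ / 4) (2 * δ)) := by
  have e := dep_hp A o.hk (h.bw.unit k) o.hR δ
  have d0 := h.d0
  have d1 : 64 * δ ≤ t := h.d1.trans h.num.2.2.1
  have t1 := o.ht.2
  have R0 := o.hR
  have p := mul_pos R0 d0
  have a : z ∈ A.hub.ann (Icc (-(2 * δ)) (2 * δ)) :=
    ZONE.ball_subset_ann o.hk o.hR (HP.hp_ne o.hR (h.bw.unit k) _ _) (by rwa [e])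
      (by rw [e]; linarith) (by rw [e]) (by rw [e]; show _ ≤ A.R * δ / 2; linarith)
      (mem_closedBall_iff_norm.2 hz)
  refine ⟨a.1, ?_, a.2.2⟩
  have b := norm_of_dep A o.hk o.hR a.1
  have c := norm_sub_le_norm_sub_add_norm_sub z (hp A (x k) δ 0) A.c
  rw [b, norm_hp A (h.bw.unit k) o.hR] at c
  have d := exp_neg_le d0.le (by linarith)
  have g := Real.add_one_le_exp (-A.hub.dep z)
  nlinarith

end Ends

theorem st_bends : St_BENDS := by
  intro ab I π _ A B x Ef f t δ y1 τ G D0 Bw M hab o h hW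
  have d0 := h.d0
  have d1 : 64 * δ ≤ t := h.d1.trans h.num.2.2.1
  have t0 := o.ht.1
  obtain ⟨-, y0, y4, L0, -⟩ := h.bw.num
  have z0 : 0 < ab.y4 * δ := mul_pos y0 d0
  have z1 : ab.y4 * δ ≤ δ / 4 := by nlinarith
  obtain ⟨b0, b1, b2⟩ := Ends.rad hab o h
  have p := mul_pos o.hR d0
  have R0 : (A.R : ℂ) ≠ 0 := Complex.ofReal_ne_zero.2 o.hR.ne'
  have np : A.hub.k ≠ Kind.pt := by rw [o.hk]; decide
  refine ⟨ab.y4 * δ, z0, by linarith, fun cp pr F' Ef0 hF => ⟨?_, fun k => ?_, fun k z hz => ?_⟩⟩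
  · have e : (Wd.born A cp pr π ab.L δ (nEf A π Ef0 ab.L δ τ G)).zn (born A π x δ) (ab.y4 * δ)
        (Sum.inl A.H) = A.hub.ann (Icc 0 (ab.y4 * δ)) := UPD.zn_one np _ rfl _
    have e1 : (born A π x δ).lam (Sum.inl A.H) = fun z => A.lam A.H z / bB A x δ z :=
      funext HP.born_lam_hub
    have e2 : (Wd.born A cp pr π ab.L δ (nEf A π Ef0 ab.L δ τ G)).Ef (Sum.inl A.H) =
        fun s => τ * G (s / δ) := if_pos rfl
    have key : ∀ z ∈ A.hub.ann (Icc 0 (ab.y4 * δ)),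
        AnalyticAt ℂ (fun z => A.lam A.H z / bB A x δ z) z ∧ A.lam A.H z / bB A x δ z ≠ 0 := by
      intro z c
      have r := le_R o.hk o.hR c.1 c.2.1
      have l := o.lam z ⟨c.1, by linarith [c.2.1], by linarith [c.2.2]⟩
      have b := bB_ne A x δ (z := z) fun k => ⟨fun a => by
        have := c.2.2
        rw [a, dep_hp A o.hk (h.bw.unit k) o.hR] at this
        linarith, ne_ref o.hR (h.bw.unit k) d0 r⟩
      exact ⟨l.1.div (an_bB o.hR h.bw.unit d0 r) b, div_ne_zero l.2 b⟩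
    refine ⟨fun a => absurd a np, fun _ => ?_, ?_, ?_, ?_⟩
    · rw [e, e1]; exact ⟨fun z c => (key z c).1, fun z c => (key z c).2⟩
    · rw [e]; exact o.w.mono (End.ann_mono (Icc_subset_Icc_right (by linarith)))
    · rw [e2]; exact Ends.prG h d0 fun a => a.2 rfl
    · rw [e, e1, e2]
      intro z c
      show F' (cp A.H) z = A.hub.w z + ((τ * G ((wl A.hub (pr A.H)).dep z / δ) : ℝ) : ℂ) * _
      rw [hF, Ends.wall o h ⟨c.1, c.2.1, by linarith [c.2.2]⟩, UPD.wl_loop np,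
        h.bz.pure _ (nz_ne o.hR c.1) (Or.inr (by rw [log_nz o.hk o.hR c.1]; exact c.2.2)),
        log_nz o.hk o.hR c.1]
      push_cast
      rfl
  · have e : (Wd.born A cp pr π ab.L δ (nEf A π Ef0 ab.L δ τ G)).zn (born A π x δ) (ab.y4 * δ)
        (Sum.inr k) = closedBall (hp A (x k) δ 0) (bpr A ab.L δ * Real.exp (ab.y4 * δ)) :=
      UPD.zn_pt rfl _ _ _
    have s : closedBall (hp A (x k) δ 0) (bpr A ab.L δ * Real.exp (ab.y4 * δ)) ⊆
        closedBall (hp A (x k) δ 0) (A.R * δ / 4) := closedBall_subset_closedBall (by linarith)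
    refine ⟨fun _ => ⟨b0, HP.born_priv (CF.PRIVO.mono (hW.priv k) ?_), ?_⟩,
      fun a => absurd rfl a, ?_, Ends.prG h (by linarith) fun a => a.1 rfl, ?_⟩
    · show bpr A ab.L δ ≤ _
      linarith
    · rw [e]; exact (hW.pole o.hR k).mono s
    · rw [e]; exact (hW.priv k).an.mono s
    · rw [e]
      intro z c
      rw [mem_closedBall_iff_norm] at c
      have m := Ends.disc o h k (z := z) (by linarith)
      have e1 : ‖z - hp A (x k) δ 0‖ = A.R * ‖(z - A.c) / A.R - SH.wp (x k) δ‖ := by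
        rw [show z - hp A (x k) δ 0 = A.R * ((z - A.c) / A.R - SH.wp (x k) δ) by
          rw [← hp_wp]; field_simp; ring, norm_mul, Complex.norm_real, Real.norm_of_nonneg o.hR.le]
      have e2 : A.R * ‖SH.wp (x k) δ‖ = A.R * Real.exp (-δ) := by
        rw [← norm_hp A (h.bw.unit k) o.hR δ, ← hp_wp, add_sub_cancel_left, norm_mul,
          Complex.norm_real, Real.norm_of_nonneg o.hR.le]
      have e3 : bpr A ab.L δ = A.R * SH.wr (x k) δ ab.L := by
        rw [SH.wr, bpr, sub_eq_add_neg, Real.exp_add]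
        linear_combination -2 * δ * Real.exp (-ab.L) * e2
      show F' (cp A.H) z = A.hub.w z + ((τ * G ((wl ⟨hp A (x k) δ 0, 0, Kind.pt, A.hub.w⟩
        (bpr A ab.L δ)).dep z / ab.L) : ℝ) : ℂ) *
          (Complex.exp (Real.pi / 4 * Complex.I) * A.lam A.H z / bB A x δ z)
      rw [hF, Ends.wall o h ⟨m.1, by linarith [m.2.1], m.2.2⟩, UPD.wl_pt rfl, UPD.hole_dep,
        h.bz.port k _ (le_of_mul_le_mul_left (by rw [← e1, mul_left_comm, ← e3]; linarith) o.hR),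
        e1, e3, mul_div_mul_left _ _ o.hR.ne']
      push_cast
      ring
  · rw [mem_closedBall_iff_norm] at hz
    have m := Ends.disc o h k (z := z) (by linarith)
    refine ⟨⟨m.1, by linarith [m.2.1], by linarith [m.2.2]⟩, fun k' n c => ?_⟩
    rw [mem_closedBall_iff_norm] at c
    linarith [(hW.good k z (by linarith)).2.2.2.1 k' n]

end Pool.Agent.S6.Birth
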