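import Pool.Agent.Lib.S6.BirCtx

/-!
The inner part of the support of the birth step, and the saddles.
-/

open Set Filter Topology Metric
open scoped ContDiff

noncomputable section

namespace Pool.Agent.S6.Birth

open Pool.Agent.CF (End Kind Cv)
open Pool.Agent.Lib FitNew

namespace In

variable {π : Type} [Fintype π] {ab : Ab} {A : Cv} {x : π → ℂ} {Ef : ℝ → ℝ} {f : ℂ → ℂ}
  {t δ y1 τ : ℝ} {G : ℝ → ℝ} {D0 : π → ℂ → ℝ} {Bw M : ℂ → ℂ}

theorem form (o : OW A Ef f t) (h : HW ab A x Ef t δ y1 τ G D0 Bw M) {z : ℂ}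
    (hz : z ∈ A.hub.ann (Ioo 0 (5 * t / 2))) : ∀ᶠ v in 𝓝 z, v ≠ A.c ∧
      f v + M v = A.hub.w v + pf A y1 τ Ef Bw v * (A.lam A.H v / bB A x δ v) := by
  have t0 := o.ht.1
  filter_upwards [(End.isOpen_ann (e := A.hub) o.hR isOpen_Ioo).mem_nhds hz] with v hv
  refine ⟨hv.1, ?_⟩
  rw [o.ex v ⟨hv.1, hv.2.1.le, by linarith [hv.2.2]⟩, add_assoc,
    h.eq v ⟨hv.1, hv.2.1.le, hv.2.2.le⟩]

theorem dirn (o : OW A Ef f t) (h : HW ab A x Ef t δ y1 τ G D0 Bw M) {z : ℂ}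
    (hz : z ∈ A.hub.ann (Ioo 0 (5 * t / 2))) (hp' : ∀ k, z ≠ hp A (x k) δ 0) :
    AnalyticAt ℂ A.hub.w z ∧ AnalyticAt ℂ (fun v => A.lam A.H v / bB A x δ v) z ∧
      A.lam A.H z / bB A x δ z ≠ 0 := by
  have t0 := o.ht.1
  have d0 := h.bw.num.2.2.2.2.1
  have r := le_R o.hk o.hR hz.1 hz.2.1.le
  have l := o.lam z ⟨hz.1, by linarith [hz.2.1], by linarith [hz.2.2]⟩
  have b := bB_ne A x δ fun k => ⟨hp' k, ne_ref o.hR (h.bw.unit k) d0 r⟩
  exact ⟨o.w z ⟨hz.1, hz.2.1.le, by linarith [hz.2.2]⟩,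
    l.1.div (an_bB o.hR h.bw.unit d0 r) b, div_ne_zero l.2 b⟩

theorem near (o : OW A Ef f t) (h : HW ab A x Ef t δ y1 τ G D0 Bw M) {ζ : ℂ} (hB : Bw ζ ≠ 0)
    {k : π} (hk : ‖ζ - x k‖ ≤ 2 * ab.M8 * δ) :
    A.c + A.R * ζ ∈ A.hub.ann (Ioo 0 t) ∧ AnalyticAt ℂ A.hub.w (A.c + A.R * ζ) ∧
      AnalyticAt ℂ (fun v => τ * (A.lam A.H v / bB A x δ v)) (A.c + A.R * ζ) ∧
      τ * (A.lam A.H (A.c + A.R * ζ) / bB A x δ (A.c + A.R * ζ)) ≠ 0 ∧
      ∀ᶠ v in 𝓝 (A.c + A.R * ζ), f v + M v =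
        A.hub.w v + Bw ((v - A.c) / A.R) * (τ * (A.lam A.H v / bB A x δ v)) := by
  obtain ⟨m4, -, -, -, d0, m1⟩ := h.bw.num
  obtain ⟨τ0, y0, yt, my⟩ := h.num
  have R0 : (A.R : ℂ) ≠ 0 := Complex.ofReal_ne_zero.2 o.hR.ne'
  have lo : 1 - 2 * ab.M8 * δ ≤ ‖ζ‖ := by
    have := norm_sub_norm_le (x k) ζ
    rw [h.bw.unit k, norm_sub_rev] at this
    linarith
  have n0 : 0 < ‖ζ‖ := by linarith
  have z0 : ζ ≠ 0 := norm_pos_iff.1 n0
  have nz := mt (h.bz.zero ζ z0).2 hB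
  rw [not_or, not_le, not_exists] at nz
  have zc : A.c + A.R * ζ ≠ A.c := fun e => mul_ne_zero R0 z0 (add_eq_left.1 e)
  have e : (A.c + A.R * ζ - A.c) / A.R = ζ := by field_simp; ring
  have dp : A.hub.dep (A.c + A.R * ζ) = -Real.log ‖ζ‖ := by rw [← log_nz o.hk o.hR zc, e]
  have md : 0 < ab.M8 * δ := by positivity
  have d1 : 0 < -Real.log ‖ζ‖ := neg_pos.2 (Real.log_neg n0 nz.1)
  have d2 : -Real.log ‖ζ‖ < y1 / 2 := by
    have a := Real.one_sub_inv_le_log_of_pos n0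
    have b : ‖ζ‖⁻¹ ≤ 1 + 4 * ab.M8 * δ := by
      rw [inv_eq_one_div, div_le_iff₀ n0]; nlinarith
    linarith
  have hz : A.c + A.R * ζ ∈ A.hub.ann (Ioo 0 (5 * t / 2)) :=
    ⟨zc, by rw [dp]; exact d1, by rw [dp]; linarith⟩
  obtain ⟨a1, a2, a3⟩ := dirn o h hz fun j c => nz.2 j (by
    rw [← hp_wp] at c
    rw [mul_left_cancel₀ R0 (add_left_cancel c), sub_self, norm_zero]
    unfold SH.wr
    positivity)
  refine ⟨⟨zc, by rw [dp]; exact d1, by rw [dp]; linarith⟩, a1, analyticAt_const.mul a2,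
    mul_ne_zero (Complex.ofReal_ne_zero.2 τ0.ne') a3, ?_⟩
  filter_upwards [form o h hz, (End.continuousAt_dep (e := A.hub) o.hR zc).eventually
    (eventually_lt_nhds (dp ▸ d2))] with v b c
  rw [b.2, pf, (SH.st_cutp.1 Ef y1 o.sE y0).2.1 _ c.le]
  push_cast
  ring

theorem far (hab : ab.OK) (o : OW A Ef f t) (h : HW ab A x Ef t δ y1 τ G D0 Bw M) {z : ℂ}
    (hz : z ∈ A.hub.ann (Ioo 0 (5 * t / 2))) (hp' : ∀ k, z ≠ hp A (x k) δ 0)
    (hk : ∀ k, 2 * ab.M8 * δ < ‖(z - A.c) / A.R - x k‖) :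
    f z + M z ≠ A.hub.w z ∧ SH.dbar (fun z => f z + M z) z ≠ 0 := by
  have t0 := o.ht.1
  have d0 := h.bw.num.2.2.2.2.1
  obtain ⟨τ0, y0, -⟩ := h.num
  have s0 : 0 < ab.σ0 := hab.num.2.2.2.2.2.2.1
  obtain ⟨a1, a2, a3⟩ := dirn o h hz hp'
  have ev : ∀ᶠ v in 𝓝 z, f v + M v = A.hub.w v +
      ((SH.cutP y1 Ef (A.hub.dep v) + τ * G (A.hub.dep v / δ) : ℝ) : ℂ) *
        (A.lam A.H v / bB A x δ v) := by
    have c : ∀ᶠ v in 𝓝 z, ∀ k, 2 * ab.M8 * δ < ‖(v - A.c) / A.R - x k‖ :=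
      eventually_all.2 fun k => (by fun_prop : Continuous fun v : ℂ =>
        ‖(v - A.c) / A.R - x k‖).continuousAt.eventually (eventually_gt_nhds (hk k))
    filter_upwards [form o h hz, c] with v b c
    rw [b.2, pf, h.bz.pure _ (nz_ne o.hR b.1) (Or.inl fun k => (c k).le), log_nz o.hk o.hR b.1]
    push_cast
    ring
  set s := A.hub.dep z with hs
  have s1 : 0 < s := hz.2.1
  have ep := o.Ep s s1 (by linarith [hz.2.2])
  obtain ⟨c1, -, -, c2⟩ := SH.st_cutp.1 Ef y1 o.sE y0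
  obtain ⟨c2, -, c3, -⟩ := c2 s ep.1.le ep.2.le
  have g1 := h.bg.pos (s / δ) (div_pos s1 d0)
  have g2 : 0 < deriv G (s / δ) :=
    (mul_pos_iff_of_pos_left s0).1 (g1.trans_le (h.st.1 _ (div_pos s1 d0)))
  refine ⟨fun e => ?_, ?_⟩
  · rw [ev.self_of_nhds, add_eq_left] at e
    exact mul_ne_zero (Complex.ofReal_ne_zero.2 (by positivity)) a3 e
  · have hd : HasDerivAt (fun r : ℝ => SH.cutP y1 Ef r + τ * G (r / δ))
        (deriv (SH.cutP y1 Ef) s + τ * (deriv G (s / δ) * (1 / δ))) s :=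
      (c1.differentiable (by simp) s).hasDerivAt.add
        (((h.bg.smooth.differentiable (by simp) _).hasDerivAt.comp s
          ((hasDerivAt_id s).div_const δ)).const_mul τ)
    refine (SH.st_dbs.1 Unit A.hub.dep
      (fun _ r => ((SH.cutP y1 Ef r + τ * G (r / δ) : ℝ) : ℂ)) (fun _ => _)
      (fun _ v => A.lam A.H v / bB A x δ v) _ A.hub.w z
      ((SH.CSM.dep_smooth A.hub o.hR hz.1).differentiableAt (by simp))
      (SH.CSM.dep_grad A.hub o.hR hz.1) a1 (fun _ => ⟨hd.ofReal_comp, a2⟩) ?_ ?_).2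
    · simpa only [Fintype.sum_unique] using ev
    · rw [Fintype.sum_unique]
      exact mul_ne_zero (Complex.ofReal_ne_zero.2 (by positivity)) a3

end In

theorem st_bin : St_BIN := by
  intro ab π _ A x Ef f t δ y1 τ G D0 Bw M hab o h
  obtain ⟨z1, z2⟩ := SH.st_bz2 π x ab.c0 ab.CD δ ab.L ab.M8 ab.y4 D0 G ab.th Bw A.c A.R
    hab.num.2.1 hab.locf h.bw h.bg h.bz o.hR
  obtain ⟨m4, -, -, -, d0, m1⟩ := h.bw.num
  have R0 : (A.R : ℂ) ≠ 0 := Complex.ofReal_ne_zero.2 o.hR.ne'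
  have ne : ∀ {ζ : ℂ} {k : π}, Bw ζ ≠ 0 → ‖ζ - x k‖ ≤ 2 * ab.M8 * δ →
      f (A.c + A.R * ζ) + M (A.c + A.R * ζ) ≠ A.hub.w (A.c + A.R * ζ) := fun {ζ k} a b e => by
    obtain ⟨-, -, -, c, d⟩ := In.near o h a b
    rw [d.self_of_nhds, add_eq_left, add_sub_cancel_left, mul_div_cancel_left₀ _ R0] at e
    exact mul_ne_zero a c e
  refine ⟨fun z hz hn => ?_, ?_⟩
  · have bp : 0 ≤ bpr A ab.L δ := by have := o.hR; unfold bpr; positivity
    by_cases hk : ∀ k, 2 * ab.M8 * δ < ‖(z - A.c) / A.R - x k‖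
    · have := In.far hab o h hz (fun k e => hn k (e ▸ mem_closedBall_self bp)) hk
      exact ⟨this.1, Or.inl this.2⟩
    obtain ⟨k, hk⟩ := not_forall.1 hk
    rw [not_lt] at hk
    have hB : Bw ((z - A.c) / A.R) ≠ 0 := fun e => by
      rcases (h.bz.zero _ (nz_ne o.hR hz.1)).1 e with a | ⟨j, a⟩
      · rw [norm_nz o.hk o.hR hz.1, Real.one_le_exp_iff] at a
        linarith [hz.2.1]
      · refine hn j (mem_closedBall_iff_norm.2 ?_)
        have e1 : z - hp A (x j) δ 0 = A.R * ((z - A.c) / A.R - SH.wp (x j) δ) := by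
          rw [← hp_wp]; field_simp; ring
        have e2 : A.R * ‖SH.wp (x j) δ‖ = A.R * Real.exp (-δ) := by
          rw [← norm_hp A (h.bw.unit j) o.hR δ, ← hp_wp, add_sub_cancel_left, norm_mul,
            Complex.norm_real, Real.norm_of_nonneg o.hR.le]
        rw [e1, norm_mul, Complex.norm_real, Real.norm_of_nonneg o.hR.le]
        refine (mul_le_mul_of_nonneg_left a o.hR.le).trans (le_of_eq ?_)
        rw [SH.wr, bpr, sub_eq_add_neg, Real.exp_add]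
        linear_combination 2 * δ * Real.exp (-ab.L) * e2
    have n1 := ne hB hk
    obtain ⟨-, b1, b2, b3, b4⟩ := In.near o h hB hk
    refine ⟨back o.hR z ▸ n1, ?_⟩
    by_cases hs : ∀ j, (z - A.c) / A.R ≠ SH.ws (x j) δ ab.L
    · have := z1 _ (fun z => f z + M z) _ _ hB ⟨k, hk⟩ hs b1 b2 b3 b4
      rw [back o.hR] at this
      exact Or.inl this
    · obtain ⟨j, hj⟩ := not_forall.1 hs
      exact Or.inr ⟨j, by rw [← not_not.1 hj, back o.hR]⟩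
  · rintro k _ rfl
    obtain ⟨a, b, c⟩ := z2 k
    have b' : ‖SH.ws (x k) δ ab.L - x k‖ ≤ 2 * ab.M8 * δ := b.trans (by nlinarith)
    obtain ⟨b0, b1, b2, b3, b4⟩ := In.near o h a b'
    exact ⟨b0, ne a b', fun S hS => c S (fun z => f z + M z) _ _ b1 b2 b3 b4 hS⟩

end Pool.Agent.S6.Birth
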