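import Pool.Agent.Lib.S6.BirCtx

/-!
The outer part of the support in the birth step.
-/

open Set Filter Topology Metric
open scoped ContDiff

noncomputable section

namespace Pool.Agent.S6.Birth

open Pool.Agent.CF (End Kind Cv)
open Pool.Agent.Lib

theorem pos_min {Z : Set ℂ} (hZ : IsCompact Z) {g : ℂ → ℂ} (hg : ContinuousOn g Z)
    (h0 : ∀ z ∈ Z, g z ≠ 0) : ∃ ε > (0 : ℝ), ∀ z ∈ Z, ε < ‖g z‖ := by
  obtain ⟨a, a0, a1⟩ := hZ.exists_forall_le' hg.norm (a := 0) fun z hz => norm_pos_iff.2 (h0 z hz)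
  exact ⟨a / 2, half_pos a0, fun z hz => (half_lt_self a0).trans_le (a1 z hz)⟩

theorem st_bout : St_BOUT := by
  intro A Ef f t h
  have hr : 0 < A.hub.r := h.hR
  have ht := h.ht.1
  have hZ : IsCompact (A.hub.ann (Icc (2 * t) (3 * t))) := End.isCompact_ann hr isCompact_Icc
  have s1 : A.hub.ann (Icc (2 * t) (3 * t)) ⊆ A.hub.ann (Ioo 0 (4 * t)) :=
    End.ann_mono (Icc_subset_Ioo (by linarith) (by linarith))
  have s2 : A.hub.ann (Ioo 0 (4 * t)) ⊆ A.hub.ann (Icc 0 (4 * t)) := End.ann_mono Ioo_subset_Icc_self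
  have s3 : A.hub.ann (Ioo 0 (4 * t)) ⊆ A.hub.ann (Icc (-t) (4 * t)) :=
    End.ann_mono fun s hs => ⟨by linarith [hs.1], hs.2.le⟩
  have df : Differentiable ℝ f := h.sm.differentiable (by simp)
  obtain ⟨e1, p1, b1⟩ := pos_min hZ (g := fun z => f z - A.hub.w z)
    (h.sm.continuous.continuousOn.sub (h.w.mono (s1.trans s2)).continuousOn) fun z hz => by
      rw [h.ex z (s2 (s1 hz)), add_sub_cancel_left]
      exact mul_ne_zero (Complex.ofReal_ne_zero.2 (h.Ep _ (s1 hz).2.1 (s1 hz).2.2.le).1.ne')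
        (h.lam z (s3 (s1 hz))).2
  have cf : Continuous (fderiv ℝ f) := h.sm.continuous_fderiv (by simp)
  obtain ⟨e2, p2, b2⟩ := pos_min hZ (g := SH.dbar f)
    (Continuous.continuousOn (by unfold SH.dbar; fun_prop)) fun z hz => by
      refine (SH.CSM.d1 Unit A.hub.dep (fun _ s => (Ef s : ℂ))
        (fun _ => ((deriv Ef (A.hub.dep z) : ℝ) : ℂ)) (fun _ => A.lam A.H) f A.hub.w z
        ((SH.CSM.dep_smooth A.hub hr hz.1).differentiableAt (by simp))
        (SH.CSM.dep_grad A.hub hr hz.1) (h.w z (s2 (s1 hz)))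
        (fun _ => ⟨(h.sE.differentiable (by simp) _).hasDerivAt.ofReal_comp,
          (h.lam z (s3 (s1 hz))).1⟩) ?_ ?_).2
      · filter_upwards [(End.isOpen_ann hr isOpen_Ioo).mem_nhds (s1 hz)] with u hu
        simpa using h.ex u (s2 hu)
      · simpa using ⟨(h.Ep _ (s1 hz).2.1 (s1 hz).2.2.le).2.ne', (h.lam z (s3 (s1 hz))).2⟩
  refine ⟨min e1 e2, lt_min p1 p2, fun M hM z hz => ⟨fun e => ?_, fun e => ?_⟩⟩
  · have a := hM.2 0 zero_le_one z
    rw [norm_iteratedFDeriv_zero] at a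
    have b := b1 z hz
    rw [show f z - A.hub.w z = -M z by rw [← e]; ring, norm_neg] at b
    linarith [min_le_left e1 e2]
  · have a := hM.2 1 le_rfl z
    rw [norm_iteratedFDeriv_one] at a
    have b := SH.CSM.d3 (fun z => f z + M z) f z
    rw [e, zero_sub, norm_neg, fderiv_fun_add (df z) (hM.1.differentiable (by simp) z),
      add_sub_cancel_left] at b
    linarith [min_le_right e1 e2, b2 z hz]

end Pool.Agent.S6.Birth
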