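import Pool.Agent.Lib.S6.Blue
import Pool.Agent.Lib.CF.Basic

/-!
Polynomial convexity of a modified state from the end properties.
-/

open Set Filter Topology Metric
open scoped ContDiff

noncomputable section

namespace Pool.Agent.S6

open Pool.Agent.CF (End Kind IsCurve Geo SLH Cv Priv)
open Pool.Agent.Lib

theorem close_le {I : Type} {k : ℕ} {ε : ℝ} {F F' : I → ℂ → ℂ} {R R' : I → ℝ}
    (h : MP_9ccfb7_an.Close k ε F F' R R') (i : I) (z : ℂ) : ‖F' i z - F i z‖ ≤ ε := by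
  simpa using (h i).1 0 (Nat.zero_le _) z

theorem S_thick {I : Type} (fx : Fix I) {ε : ℝ} {F F' : I → ℂ → ℂ}
    (h : ∀ i z, ‖F' i z - F i z‖ ≤ ε) : fx.S F' ⊆ cthickening ε (fx.S F) := by
  intro y hy
  obtain ⟨i, h1, h2⟩ := mem_iUnion.1 hy
  refine mem_cthickening_of_dist_le y (y.1, F i y.1) ε _ (mem_iUnion.2 ⟨i, h1, rfl⟩) ?_
  rw [Prod.dist_eq, dist_self, dist_eq_norm, h2]
  exact max_le ((norm_nonneg _).trans (h i y.1)) (h i y.1)

theorem mem_S {I : Type} (fx : Fix I) {F : I → ℂ → ℂ} {y : E} :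
    y ∈ fx.S F ↔ ∃ i, y.1 ∈ fx.dom i ∧ y.2 = F i y.1 := mem_iUnion

theorem Pre.cA {I : Type} {fx : Fix I} {σ : Conf I} (h : Pre fx σ) : IsCompact σ.A :=
  h.alg.hC.curve.cpt.union h.alg.hK.curve.cpt

/-- The hull of a modified surface. First the radius `ρz` of the admissible region, then for every
`a`, `R` the closeness `η`. -/
theorem glue (hP : St_PCS) (hN : St_NEAR) (hI : St_INH) {I J : Type} [Fintype I] [Fintype J]
    {fx : Fix I} {σ : Conf I} {sp : Sp J} {τ : ℝ} {T0 : Set E} (ok : fx.OK) (g : Good fx σ)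
    (c : Cert sp τ (fx.S σ.F) T0 σ.A) (hl : ∀ j, (sp.l j).ok)
    (an : ∀ j, AnalyticOnNhd ℂ (sp.l j).w ((sp.l j).near sp.h sp.r1))
    (iso : ∀ j, ∀ y ∈ σ.A, y ∈ sp.T τ j → y.2 = (sp.l j).w y.1 ∧ (sp.l j).side y.1) :
    ∃ ρz > 0, ∀ a > 0, ∀ R > 0, ∃ η > 0, ∀ σ' : Conf I, σ'.A = σ.A →
      (∀ i, ContDiff ℝ ∞ (σ'.F i)) → Nxt fx σ.F σ'.F 1 η T0 →
      (∀ i, ∀ z ∈ fx.dom i, σ'.F i z ≠ σ.F i z → (z, σ.F i z) ∈ thickening ρz σ.A) →
      (∀ s ∈ σ.Sd, SH.LB2 (fx.S σ'.F) s) ∧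
      (Pre fx σ' → (∀ X : Set E, Std X (fx.S σ'.F) →
        (∀ j, ∀ y ∈ X, y ∉ fx.S σ'.F → y ∈ sp.T τ j → ‖y.2 - (sp.l j).w y.1‖ < R ∧
          ((sp.l j).k ≠ Kind.pt → -a < (sp.l j).dep y.1)) →
        ∀ j, sp.End1 (X \ fx.S σ'.F) τ j) → Good fx σ') := by
  obtain ⟨ρz, r0, H⟩ := hP I fx σ ok g
  obtain ⟨η0, e0, C⟩ := c
  refine ⟨ρz, r0, fun a ha R hR => ?_⟩
  have N : ∀ j, ∃ η > 0, ∀ y ∈ cthickening η σ.A, y ∈ sp.T τ j →
      ‖y.2 - (sp.l j).w y.1‖ < R ∧ ((sp.l j).k ≠ Kind.pt → -a < (sp.l j).dep y.1) := by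
    intro j
    by_cases hk : (sp.l j).k = Kind.pt
    · obtain ⟨η, b, N⟩ := hN σ.A _ _ τ univ g.pre.cA (End.isCompact_near (hl j) _ _).isClosed
        (an j).continuousOn isOpen_univ (fun y p q r => ⟨(iso j y p ⟨q, r⟩).1, trivial⟩) R hR
      exact ⟨η, b, fun y p q => ⟨(N y p q.1 q.2).1, fun k => absurd hk k⟩⟩
    · have hr : 0 < (sp.l j).r := by simpa [End.ok, hk] using hl j
      obtain ⟨η, b, N⟩ := hN σ.A _ _ τ ((sp.l j).ann (Ioi (-a))) g.pre.cA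
        (End.isCompact_near (hl j) _ _).isClosed (an j).continuousOn
        (End.isOpen_ann hr isOpen_Ioi) (fun y p q r => by
          have i := iso j y p ⟨q, r⟩
          have z : y.1 ≠ (sp.l j).c := by rw [End.near_loop hk] at q; exact q.1
          have := (End.side_iff hk hr z).1 i.2
          exact ⟨i.1, z, show -a < _ by linarith⟩) R hR
      exact ⟨η, b, fun y p q => ⟨(N y p q.1 q.2).1, fun _ => (N y p q.1 q.2).2.2⟩⟩
  choose ηj pj Nj using N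
  obtain ⟨η1, p1, q1⟩ : ∃ η > 0, η ≤ η0 ∧ ∀ j, η ≤ ηj j := by
    have : ∀ᶠ η in 𝓝[>] (0 : ℝ), η ≤ η0 ∧ ∀ j, η ≤ ηj j :=
      ((eventually_le_nhds e0).and
        (eventually_all.2 fun j => eventually_le_nhds (pj j))).filter_mono nhdsWithin_le_nhds
    obtain ⟨η, b1, b2⟩ := (this.and self_mem_nhdsWithin).exists
    exact ⟨η, b2, b1⟩
  obtain ⟨η2, p2, H⟩ := H η1 p1
  refine ⟨min η2 η0, lt_min p2 e0, fun σ' eA sm nx md => ?_⟩
  obtain ⟨s1, s2, s3, s4⟩ := H σ'.F σ'.A sm (nx.1.mono le_rfl (min_le_left _ _)) md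
  refine ⟨s3, fun pre en => ⟨pre, ?_⟩⟩
  have hA := hI I fx σ' ok pre
  have := C _ _ s1 ((S_thick fx (close_le nx.1)).trans
    (cthickening_mono (min_le_right _ _) _)) nx.2 (s2.trans (cthickening_mono q1.1 _))
    (eA ▸ hA) (en _ s1 fun j y p q r => Nj j y (cthickening_mono (q1.2 j) _ (s2 ⟨p, q⟩)) r)
  exact s4 hA (eA ▸ this)

end Pool.Agent.S6
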