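import Pool.Agent.Lib.S6.BirDesc
import Pool.Agent.Lib.S6.BirEnds
import Pool.Agent.Lib.S6.BirIn
import Pool.Agent.Lib.S6.BirOut
import Pool.Agent.Lib.S6.B_SERVE
import Pool.Agent.Lib.S6.Glue

/-!
Birth of windows at the hub.
-/

open Set Filter Topology Metric
open scoped ContDiff

noncomputable section

namespace Pool.Agent.S6

open Pool.Agent.CF (End Kind Cv)
open Pool.Agent.Lib DESC

namespace Birth

theorem glue2 {I J : Type} [Fintype I] {fx : Fix I} {σ : Conf I} {sp : Sp J} {τ : ℝ} {T0 : Set E}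
    (ok : fx.OK) (g : Good fx σ) (c : Cert sp τ (fx.S σ.F) T0 σ.A) :
    ∃ ρz > 0, ∀ η1 > 0, ∃ η > 0, ∀ F' : I → ℂ → ℂ, (∀ i, ContDiff ℝ ∞ (F' i)) →
      Nxt fx σ.F F' 1 η T0 →
      (∀ i, ∀ z ∈ fx.dom i, F' i z ≠ σ.F i z → (z, σ.F i z) ∈ thickening ρz σ.A) →
      (∀ s ∈ σ.Sd, SH.LB2 (fx.S F') s) ∧ ∀ σ' : Conf I, σ'.A = σ.A → σ'.F = F' → Pre fx σ' →
        (∀ X : Set E, Std X (fx.S F') → X \ fx.S F' ⊆ cthickening η1 σ.A →
          ∀ j, sp.End1 (X \ fx.S F') τ j) → Good fx σ' := by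
  obtain ⟨ρz, r0, H⟩ := st_pcs I fx σ ok g
  obtain ⟨η0, e0, C⟩ := c
  refine ⟨ρz, r0, fun η1 p1 => ?_⟩
  obtain ⟨η2, p2, H⟩ := H (min η1 η0) (lt_min p1 e0)
  refine ⟨min η2 η0, lt_min p2 e0, fun F' sm nx md => ?_⟩
  obtain ⟨s1, s2, s3, s4⟩ := H F' σ.A sm (nx.1.mono le_rfl (min_le_left _ _)) md
  refine ⟨s3, fun σ' eA eF pre en => ⟨pre, ?_⟩⟩
  subst eF
  have hA := eA ▸ st_inh I fx σ' ok pre
  have := s4 hA (C _ _ s1 ((S_thick fx (close_le nx.1)).trans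
    (cthickening_mono (min_le_right _ _) _)) nx.2
    (s2.trans (cthickening_mono (min_le_right _ _) _)) hA
    (en _ s1 (s2.trans (cthickening_mono (min_le_left _ _) _))))
  rwa [← eA] at this

theorem loc_graph {I : Type} [Finite I] (fx : Fix I) {F : I → ℂ → ℂ} (hF : ∀ i, Continuous (F i))
    (gap : ∀ i i', i ≠ i' → ∀ z ∈ fx.dom i, z ∈ fx.dom i' → F i z ≠ F i' z) {i : I} {z : ℂ}
    (hz : fx.dom i ∈ 𝓝 z) : ∀ᶠ y in 𝓝 ((z, F i z) : E), y ∈ fx.S F ↔ y.2 = F i y.1 := by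
  have key : ∀ i', ∀ᶠ y in 𝓝 ((z, F i z) : E), i' ≠ i → ¬ (y.1 ∈ fx.dom i' ∧ y.2 = F i' y.1) :=
    fun i' => by
      by_cases e : i' = i
      · exact Eventually.of_forall fun _ n => absurd e n
      have cl : IsClosed {y : E | y.1 ∈ fx.dom i' ∧ y.2 = F i' y.1} :=
        ((PCS.isCompact_dom fx i').isClosed.preimage continuous_fst).inter
          (isClosed_eq continuous_snd ((hF i').comp continuous_fst))
      filter_upwards [cl.isOpen_compl.mem_nhds (show ((z, F i z) : E) ∈ _ from fun a =>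
        gap _ _ e z a.1 (mem_of_mem_nhds hz) a.2.symm)] with y a _ using a
  filter_upwards [eventually_all.2 key, (continuousAt_fst (p := ((z, F i z) : E))).eventually hz]
    with y a b
  refine ⟨fun c => ?_, fun c => (mem_S fx).2 ⟨i, b, c⟩⟩
  obtain ⟨i', c⟩ := (mem_S fx).1 c
  by_cases e : i' = i
  · exact e ▸ c.2
  · exact absurd c (a i' e)

theorem closed_T {J : Type} {sp : Sp J} {j : J} (ok : (sp.l j).ok)
    (an : AnalyticOnNhd ℂ (sp.l j).w ((sp.l j).near sp.h sp.r1)) (τ : ℝ) : IsClosed (sp.T τ j) :=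
  ((End.isCompact_near ok sp.h sp.r1).isClosed.preimage continuous_fst).isClosed_le
    (f := fun y : E => ‖y.2 - (sp.l j).w y.1‖) (g := fun _ => τ) (fun _ c =>
      (continuousAt_snd.sub ((an _ c).continuousAt.comp continuousAt_fst)).norm.continuousWithinAt)
    continuousOn_const

theorem ev_le (c : ℝ) {b : ℝ} (hb : 0 < b) : ∀ᶠ t in 𝓝[>] (0 : ℝ), c * t ≤ b :=
  (((continuous_const.mul continuous_id).tendsto' (0 : ℝ) 0 (by simp)).eventually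
    (eventually_le_nhds hb)).filter_mono nhdsWithin_le_nhds

theorem ev_le1 {b : ℝ} (hb : 0 < b) : ∀ᶠ t in 𝓝[>] (0 : ℝ), t ≤ b :=
  (eventually_le_nhds hb).filter_mono nhdsWithin_le_nhds

theorem exists_OW {I : Type} {fx : Fix I} {σ : Conf I} (pre : Pre fx σ) :
    ∀ᶠ t in 𝓝[>] (0 : ℝ), OW σ.C (σ.WC.Ef σ.C.H) (σ.F (σ.WC.cp σ.C.H)) t ∧ 4 * t ≤ σ.hz := by
  have sw := pre.wall.C
  have hp : (σ.C.e σ.C.H).k ≠ Kind.pt := HP.hub_loop pre.alg.hC
  have pE := sw.pr σ.C.H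
  obtain ⟨t1, p1, q1⟩ := PR_small pE (2 * 4)
  obtain ⟨t2, p2, q2⟩ := End.shrink (pre.alg.hC.curve.ok σ.C.H) (HP.hub_lam pre.alg.hC)
  have zH : σ.WC.zn σ.C σ.hz σ.C.H = σ.C.hub.ann (Icc 0 σ.hz) := UPD.zn_one hp _ rfl _
  filter_upwards [ev_le 4 p1, ev_le 4 p2, ev_le 4 pre.wall.hz.1, ev_le 8 one_pos,
    self_mem_nhdsWithin] with t a1 a2 a3 a4 a5
  have t0 : 0 < t := a5
  have sub : σ.C.hub.ann (Icc 0 (4 * t)) ⊆ σ.WC.zn σ.C σ.hz σ.C.H :=
    zH ▸ End.ann_mono (Icc_subset_Icc_right a3)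
  refine ⟨⟨pre.alg.hC.out, HP.R_pos pre.alg.hC, ⟨t0, by linarith⟩, pre.wall.smooth _, pE.flat.1,
    pE.one fun a => a.2 rfl, fun s b c => ?_, fun y h => ⟨PR_diff pE y, PR_stp pE (by norm_num)
      (q1 y (by rw [abs_le]; constructor <;> linarith [h.1, h.2])).1 (abs_le.2 h)⟩,
    fun z h => (q2 (4 * t) 0 a2 p2.le ?_).2, (sw.an _).mono sub, fun z h => ?_⟩, a3⟩
  · obtain ⟨d1, d2, -⟩ := q1 s (by rw [abs_of_pos b]; linarith)
    rw [abs_of_pos b, abs_of_pos (d2 b)] at d1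
    exact ⟨d2 b, (mul_pos_iff_of_pos_left b).1 (by linarith [d2 b])⟩
  · rw [End.near_loop hp]; exact ⟨h.1, le_trans (by linarith) h.2.1, h.2.2⟩
  · have := sw.exact _ z (sub h)
    rwa [wl_loop hp] at this

end Birth

open Birth

theorem st_birth (hE : St_ENDS) : St_BIRTH := by
  intro ab hab I J _ _ fx σ sp fd τ T0 π _ x ρ β ok c one gain pos fit n ε hε
  classical
  have pre := c.good.pre
  have sw := pre.wall.C
  have b : Base ab.L ab.Cw fx σ.F σ.hz σ.C σ.K σ.WC σ.A sp fd τ :=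
    ⟨by linarith [hab.num.1], hab.num.2.2.2.2.2.2.2.2, fun i => (pre.wall.smooth i).continuous,
      pre.wall.gap, pre.wall.hz.1, sw, pre.alg.hC.curve.ok, pre.alg.hC.out, c.fit, c.zone⟩
  obtain ⟨j0, hj⟩ := c.fit.hub
  have hl : sp.l j0 = σ.C.hub := l_hub c.fit hj
  have hk : (sp.l j0).k ≠ Kind.pt := hl ▸ b.hp
  have hH : σ.C.H ∉ fd.U := hj ▸ (c.fit.eq j0).2
  have hR : 0 < σ.C.R := b.hR
  have zH : ∀ t, σ.WC.zn σ.C t σ.C.H = σ.C.hub.ann (Icc 0 t) := fun t => UPD.zn_one b.hp _ rfl t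
  obtain ⟨o, o0, HE⟩ := hE ab hab (fd.U ⊕ π) (Sum.elim (fun i => hx σ.C.hub (σ.C.e i).c) x)
    (Sum.elim (fun i => fd.ρ i) ρ) (Sum.elim (fun i => fd.β i) β) sp.h fd.n fd.Λw sp.Cu sp.Λ0 fd.η
    fd.CD fd.κf
  obtain ⟨ηs, s0, SV⟩ := st_serve hE ab hab I J fx σ.F σ.hz σ.C σ.K σ.WC σ.A sp fd τ
    pre.wall.smooth pre.wall.gap b.h0 sw b.ok b.hk pre.cA c.fit c.zone gain
  obtain ⟨ρz, r0, GU⟩ := glue2 ok c.good c.cert
  obtain ⟨t4, a4, c4, c5⟩ := UPD.ex_pos (((UPD.two pre).nxt_zone (· = σ.C.H) c.T0.1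
    (fun k e => c.T0.2 k (Or.inr ⟨j0, hj.trans e.symm⟩)) (Y := σ.A) subset_union_left r0).and
    (eventually_all.2 fun j : {j // j ≠ j0} => (UPD.two pre).nxt_zone (· = σ.C.H)
      (closed_T (b.lok j) (c.zone.an j) τ) (fun k e => by
        subst e
        have n : fd.m j ≠ σ.C.H := fun e => j.2 (c.fit.inj (e.trans hj.symm))
        exact disjoint_left.2 fun y p q => disjoint_left.1
          (c.zone.only j _ n.symm fun a => n (win_hub a).1) p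
          ⟨q.1, (c.zone.iso j y (Or.inl ((UPD.two pre).cg_sub _ p)) q).1⟩)
      (Y := σ.A) subset_union_left r0))
  obtain ⟨t1, a1, c1⟩ := b.frame hk
  obtain ⟨t2, a2, c2⟩ := b.portW
  obtain ⟨t3, a3, c3⟩ := portL_exact sw b.h0 b.ok
  obtain ⟨t5, a5, -, c6⟩ := exists_o σ.C fd o0
  obtain ⟨t6, a6, c7⟩ := End.shrink (b.lok j0) (one j0 hk)
  obtain ⟨t, t0, ⟨ow, m0⟩, m1, m2, m3, m4, m5, m6, m7, m8⟩ := UPD.ex_pos ((exists_OW pre).and
    ((ev_le1 a1).and ((ev_le1 a2).and ((ev_le1 a3).and ((ev_le 3 a4).and ((ev_le1 a5).and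
      ((ev_le 2 a6).and ((ev_le1 o0).and (ev_le1 b.hpos)))))))))
  obtain ⟨R0, r1, a, a0, r2, r3, c1⟩ := c1 t t t0 m1 t0 m1
  obtain ⟨R1, r4, c2⟩ := c2 t t0 m2
  obtain ⟨mu, mu0, c1⟩ := c1 a le_rfl
  have r5 : 0 < min R0 R1 := lt_min r1 r4
  obtain ⟨η1, e1, TB⟩ := tube pre.cA b.lok c.zone.an c.zone.iso a0 r5
  obtain ⟨η, e0, GU⟩ := GU (min η1 ηs) (lt_min e1 s0)
  obtain ⟨εo, e2, BO⟩ := st_bout _ _ _ _ ow
  obtain ⟨e, e3, WB, GP, d1, d2, d3, d4, d5⟩ := UPD.ex_pos ((wall_born pre).and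
    ((UPD.gap_persist fx b.cF b.gap).and ((ev_le1 hε).and ((ev_le1 e0).and ((ev_le1 r5).and
      ((ev_le1 a4).and (ev_le1 e2)))))))
  filter_upwards [exists_HW ab hab b.hk hR (fun k => (pos.2 k).1) pos.1 ow.sE ow.E0 t0
    (fun z h => (ow.lam z h).1) (max n 1) e3, fit, HP.born_alg pre.alg pos] with δ
    ⟨y1, τ', G, D0, Bw, M, h, sm⟩ fit ⟨hW, alg⟩
  obtain ⟨hz', z0, z1, BE⟩ := st_bends ab I π σ.C σ.K x _ _ t δ y1 τ' G D0 Bw M hab ow h hW
  obtain ⟨B1, B2⟩ := st_bin ab π σ.C x _ _ t δ y1 τ' G D0 Bw M hab ow h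
  set F' : I → ℂ → ℂ := fun i z => σ.F i z + if σ.WC.cp σ.C.H = i then M z else 0 with hF
  have fH : F' (σ.WC.cp σ.C.H) = fun z => σ.F (σ.WC.cp σ.C.H) z + M z :=
    funext fun z => by simp only [hF, if_true]
  have sm' : ∀ i, SH.Small (max n 1) e fun z => if σ.WC.cp σ.C.H = i then M z else 0 := fun i => by
    split_ifs
    · exact sm
    · exact SH.Small.zero _ e3.le
  have sF : ∀ i, ContDiff ℝ ∞ (F' i) := fun i => (pre.wall.smooth i).add (sm' i).1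
  have cl : MP_9ccfb7_an.Close (max n 1) e σ.F F' fx.R fx.R := fun i =>
    ⟨by simpa only [hF, add_sub_cancel_left] using (sm' i).2, le_rfl, by linarith⟩
  have cl0 := close_le cl
  have f0 : ∀ i z, (σ.WC.cp σ.C.H = i → z ∉ σ.C.hub.ann (Icc 0 (3 * t))) → F' i z = σ.F i z :=
    fun i z p => by
      simp only [hF, add_eq_left]
      split_ifs with q
      · exact h.off z fun r => p q (End.ann_mono Ioo_subset_Icc_self r)
      · rfl
  have md : ∀ i, ∀ z ∈ fx.dom i, F' i z ≠ σ.F i z →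
      ∃ k, k = σ.C.H ∧ σ.WC.cp k = i ∧ z ∈ σ.WC.zn σ.C t4 k := fun i z _ p => by
    by_contra q
    exact p (f0 i z fun r s => q ⟨_, rfl, r, zH t4 ▸ End.ann_mono (Icc_subset_Icc_right m4) s⟩)
  obtain ⟨n1, n2⟩ := c4 F' (fun i z _ => (cl0 i z).trans d4) md
  obtain ⟨G1, G2⟩ := GU F' sF ⟨cl.mono (le_max_right _ _) d2, n1⟩ n2
  obtain ⟨E1, E2, E3⟩ := BE σ.WC.cp σ.WC.pr F' σ.WC.Ef (congrFun fH)
  have sub : ∀ s, s ≤ 4 * t → σ.C.hub.ann (Icc 0 s) ⊆ σ.WC.zn σ.C σ.hz σ.C.H := fun s p =>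
    (End.ann_mono (Icc_subset_Icc_right (p.trans m0))).trans (zH _).ge
  refine ⟨F', nEf σ.C π σ.WC.Ef ab.L δ τ' G, hz', σ.Sd ∪ Finset.univ.image fun k =>
    (σ.C.c + σ.C.R * SH.ws (x k) δ ab.L, F' (σ.WC.cp σ.C.H) (σ.C.c + σ.C.R * SH.ws (x k) δ ab.L)),
    G2 _ rfl rfl ⟨alg, WB π x ab.L δ F' _ hz' _ (σ.C.hub.ann (Icc 0 (3 * t)))
      (fun i z _ => cl0 i z) sF z0 (by linarith) (fun z p _ => (zH _).le (sub _ (by linarith) p))
      (fun i z _ p => ⟨f0 i z p, fun _ => ?_⟩) (fun j p => if_neg p) E1 E2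
      (fun k z p => ⟨End.ann_mono (Ioc_subset_Ioc_right (by linarith)) (E3 k z p).1, (E3 k z p).2⟩)
      (fun z p _ q r => ?_) Finset.subset_union_left fun s p => ?_⟩ fun X st hX j => ?_,
    cl.mono (le_max_left _ _) d1, n1⟩
  · have : F' i =ᶠ[𝓝 z] σ.F i := by
      by_cases q : σ.WC.cp σ.C.H = i
      · filter_upwards [(End.isCompact_ann b.hR isCompact_Icc).isClosed.isOpen_compl.mem_nhds
          (p q)] with v r using f0 i v fun _ => r
      · exact Eventually.of_forall fun v => f0 i v fun r => absurd r q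
    simp only [SH.dbar, this.fderiv_eq]
  · have d0 : 0 < σ.C.hub.dep z :=
      p.2.1.lt_of_ne' fun a => q ((End.mem_circ b.hR).2 ⟨p.1, a⟩)
    rcases lt_or_ge (σ.C.hub.dep z) (5 * t / 2) with u | u
    · obtain ⟨v1, v2⟩ := B1 z ⟨p.1, d0, u⟩ r
      refine ⟨fH ▸ v1, v2.imp (fun v => fH ▸ v) ?_⟩
      rintro ⟨k, rfl⟩
      exact Finset.mem_union_right _ (Finset.mem_image_of_mem _ (Finset.mem_univ k))
    · obtain ⟨v1, v2⟩ := BO M (sm.mono (le_max_right _ _) d5) z ⟨p.1, by linarith, p.2.2⟩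
      exact ⟨fH ▸ v1, Or.inl (fH ▸ v2)⟩
  · rcases Finset.mem_union.1 p with p | p
    · exact ⟨G1 s p, Or.inl p⟩
    obtain ⟨k, -, rfl⟩ := Finset.mem_image.1 p
    obtain ⟨v1, v2, v3⟩ := B2 k _ rfl
    have u : σ.C.hub.ann (Ioo 0 t) ⊆ fx.dom (σ.WC.cp σ.C.H) :=
      (End.ann_mono Ioo_subset_Icc_self).trans ((sub t (by linarith)).trans (sw.dom _))
    have g := loc_graph fx (fun i => (sF i).continuous) (GP F' fun i z _ => cl0 i z)
      (mem_of_superset ((End.isOpen_ann b.hR isOpen_Ioo).mem_nhds v1) u)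
    rw [fH] at g ⊢
    exact ⟨v3 _ g, Or.inr ⟨⟨v1.1, v1.2.1.le, by linarith [v1.2.2]⟩, u v1, rfl, v2⟩⟩
  · by_cases q : j = j0
    swap
    · exact SV X _ st (hX.trans (cthickening_mono (min_le_right _ _) _)) j
        (c5 ⟨j, q⟩ F' (fun i z _ => (cl0 i z).trans d4) md).1
    subst q
    obtain ⟨N, N1, N2, N3⟩ := c1 _ (min_le_left R0 R1) F' _ (fun i z _ => (cl0 i z).trans d3) rfl
    have tb := fun y p q => TB j y (cthickening_mono (min_le_left _ _) _ (hX (a := y) ⟨p, q⟩))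
    have nr := End.near_loop hk sp.h sp.r1
    have up := up_tube st hk ((b.lok j).pos hk) a0 (r3.trans m8) ((min_le_left _ _).trans r2)
      (fun z p => (c.zone.an j z (nr ▸ p)).continuousAt)
      (fun y p q r s => ⟨(tb y p q ⟨nr ▸ r, s⟩).1, (tb y p q ⟨nr ▸ r, s⟩).2 hk⟩) fun y p q r => by
        rcases (N3.1 y p q r).1 with u | u
        · rw [if_pos hj, ← l_eq c.fit] at u; exact u.2.1
        · obtain ⟨k, u1, u2⟩ := mem_iUnion₂.1 u
          rw [hl]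
          exact (b.pd_ann (win_hub u1).2 (b.zn_pd (win_hub u1).2 (s := t) (by linarith [ow.ht.2])
            (by rwa [b.zn_win (win_hub u1).2]))).2.1
    refine (HE J (born σ.C π x δ) _ sp _ (Sum.map Subtype.val id) fit alg.hC.curve.ok b.hk ?_
      (Subtype.val_injective.sumMap Function.injective_id) ?_
      ⟨rfl, rfl, rfl, rfl, rfl, rfl, rfl, rfl⟩ X _ τ j st (c.zone.an j)).2 hk _ _ ?_ ?_ ?_
      (rdesc hab ow h hj hl hH (by linarith [c.fit.num.2.1]) σ.WC.pr ρ β (N := N) a0 m7 t0 m7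
        (by linarith [ow.ht.2]) r5 ((min_le_left _ _).trans r2) (fun z p => ?_) (hl ▸ mu)
        (hl ▸ mu0) (fun z p => ?_) (fun k p => ⟨m5.trans (c6 k p (c.fit.win k p).2.2.1), ?_⟩)
        (hl ▸ N3) fun y p q r => hl ▸ ⟨(tb y p q r).1, up y p q (nr ▸ r.1) r.2⟩)
    · rintro (k | k) p
      · exact ⟨Sum.inl ⟨k, Finset.inl_mem_disjSum.1 p⟩, rfl⟩
      · exact ⟨Sum.inr k, rfl⟩
    · rintro (k | k)
      · exact ⟨Finset.inl_mem_disjSum.2 k.2, rfl, rfl, rfl⟩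
      · exact ⟨Finset.inr_mem_disjSum.2 (Finset.mem_univ k), HP.hx_hp hR (pos.2 k).1 δ, rfl, rfl⟩
    · intro k p
      obtain ⟨k, u, rfl⟩ := Finset.mem_map.1 p
      exact Finset.inl_mem_disjSum.2 u
    · refine Finset.disjoint_left.2 fun k p q => ?_
      obtain ⟨k, -, rfl⟩ := Finset.mem_map.1 p
      obtain ⟨_, -, e⟩ := Finset.mem_map.1 q
      cases e
    · exact fun _ => gain.trans (Finset.sum_map fd.U Function.Embedding.inl
        fun k : σ.C.ι ⊕ π => 1 - Sum.elim fd.β β k / 2).ge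
    · rw [← hj]
      refine c7 (2 * t) 0 m6 a6.le ?_
      rw [End.near_loop hk, hl]
      exact ⟨p.1, by linarith [p.2.1], p.2.2⟩
    · rw [N1 z (by rwa [hj, zH]), hj, fH, hl]
    · have pp := prpos sw k (b.win_pt p)
      refine c2 _ r5 (min_le_right _ _) k _ (Or.inl ⟨p, rfl⟩) N o True
        ((c3 t t0 m3 k (b.win_pt p) _ o True o0.le).congr pp id fun z q => ?_)
      rw [N2 k (win_eq hj ▸ p) z q, f0 _ z fun u v => disjoint_left.1
        (sw.disj σ.C.H k (fun w => hH (w ▸ p)) u) (sub _ (by linarith) v)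
        (zn_sub sw k (s := 2 * t) (by linarith) (by rwa [b.zn_win p]))]

end Pool.Agent.S6
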