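import Pool.Agent.Lib.S6.Site2

/-!
Bounds for the Blaschke type factors.
-/

open Set Filter Topology Metric

noncomputable section

namespace Pool.Agent.S6

open Pool.Agent.CF (End)
open Pool.Agent.Lib

namespace BQ

/-- the factor in the normalised plane -/
def fc (x : ℂ) (δ : ℝ) (z : ℂ) : ℂ :=
  (z - (Real.exp (-δ) : ℝ) * x) / (z - (Real.exp δ : ℝ) * x)

theorem hq_eq (l : End) (x : ℂ) (s : ℝ) :
    hq l x s 0 = l.c + l.r * ((Real.exp (-s) : ℝ) * x) := by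
  simp only [hq]; push_cast; ring_nf

theorem sub_hq (l : End) (x : ℂ) (s : ℝ) (z : ℂ) :
    l.c + l.r * z - hq l x s 0 = l.r * (z - (Real.exp (-s) : ℝ) * x) := by
  rw [hq_eq]; ring

theorem bq_eq {l : End} (hr : 0 < l.r) {π : Type} [Fintype π] (x : π → ℂ) (δ : ℝ) (z : ℂ) :
    bq l x δ (l.c + l.r * z) = ∏ k, fc (x k) δ z := by
  refine Finset.prod_congr rfl fun k _ => ?_
  rw [sub_hq, sub_hq, neg_neg, fc, mul_div_mul_left _ _ (Complex.ofReal_ne_zero.2 hr.ne')]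

theorem norm_mono {x z : ℂ} (hx : ‖x‖ = 1) (hz : ‖z‖ ≤ 1) {a b : ℝ} (h1 : a ≤ b) (h2 : 2 ≤ a + b) :
    ‖z - a * x‖ ≤ ‖z - b * x‖ := by
  have e1 : x.re ^ 2 + x.im ^ 2 = 1 := by
    have := Complex.sq_norm x
    rw [hx, Complex.normSq_apply] at this
    nlinarith
  have e2 : z.re ^ 2 + z.im ^ 2 ≤ 1 := by
    have := Complex.sq_norm z
    rw [Complex.normSq_apply] at this
    nlinarith [norm_nonneg z]
  have e3 : z.re * x.re + z.im * x.im ≤ 1 := by
    nlinarith [sq_nonneg (z.re - x.re), sq_nonneg (z.im - x.im)]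
  refine (sq_le_sq₀ (norm_nonneg _) (norm_nonneg _)).1 ?_
  rw [Complex.sq_norm, Complex.sq_norm, Complex.normSq_apply, Complex.normSq_apply]
  simp only [Complex.sub_re, Complex.sub_im, Complex.mul_re, Complex.mul_im, Complex.ofReal_re,
    Complex.ofReal_im, zero_mul, sub_zero, add_zero]
  have : 0 ≤ (b - a) * (a + b - 2 * (z.re * x.re + z.im * x.im)) :=
    mul_nonneg (by linarith) (by linarith)
  have e4 : (b ^ 2 - a ^ 2) * (x.re ^ 2 + x.im ^ 2) = b ^ 2 - a ^ 2 := by rw [e1, mul_one]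
  nlinarith

theorem norm_sm {x : ℂ} (hx : ‖x‖ = 1) (a b : ℝ) : ‖(a : ℂ) * x - b * x‖ = |a - b| := by
  rw [← sub_mul, norm_mul, hx, mul_one, ← Complex.ofReal_sub, Complex.norm_real, Real.norm_eq_abs]

/-- numerical facts on the two radii -/
theorem ab {δ : ℝ} (h0 : 0 < δ) (h1 : δ ≤ 1 / 100) : 1 - δ ≤ Real.exp (-δ) ∧ Real.exp (-δ) ≤ 1 ∧
    1 + δ ≤ Real.exp δ ∧ Real.exp δ ≤ 1 + 51 / 50 * δ := by
  have a1 := Real.add_one_le_exp (-δ)
  have a2 := Real.add_one_le_exp δ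
  have a3 : Real.exp (-δ) * Real.exp δ = 1 := by rw [← Real.exp_add]; simp
  have a4 := Real.exp_pos δ
  refine ⟨by linarith, Real.exp_le_one_iff.2 (by linarith), by linarith, ?_⟩
  by_contra c
  nlinarith [mul_le_mul_of_nonneg_right a1 a4.le, not_le.1 c]

section one

variable {x z : ℂ} {δ : ℝ}

theorem num_ge (hx : ‖x‖ = 1) (h0 : 0 < δ) (h1 : δ ≤ 1 / 100) (z : ℂ) :
    ‖z - x‖ - δ ≤ ‖z - (Real.exp (-δ) : ℝ) * x‖ := by
  obtain ⟨a1, a2, -, -⟩ := ab h0 h1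
  have := norm_sub_le_norm_sub_add_norm_sub z ((Real.exp (-δ) : ℝ) * x) ((1 : ℝ) * x)
  rw [norm_sm hx, abs_of_nonpos (by linarith), Complex.ofReal_one, one_mul] at this
  linarith

theorem den_le (hx : ‖x‖ = 1) (h0 : 0 < δ) (h1 : δ ≤ 1 / 100) (z : ℂ) :
    ‖z - (Real.exp δ : ℝ) * x‖ ≤ ‖z - x‖ + 51 / 50 * δ := by
  obtain ⟨-, -, a1, a2⟩ := ab h0 h1
  have := norm_sub_le_norm_sub_add_norm_sub z ((1 : ℝ) * x) ((Real.exp δ : ℝ) * x)
  rw [norm_sm hx, abs_of_nonpos (by linarith), Complex.ofReal_one, one_mul] at this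
  linarith

theorem den_pos (hx : ‖x‖ = 1) (hz : ‖z‖ ≤ 1) (h0 : 0 < δ) :
    0 < ‖z - (Real.exp δ : ℝ) * x‖ := by
  refine norm_pos_iff.2 (sub_ne_zero.2 fun e => ?_)
  rw [e, norm_mul, hx, mul_one, Complex.norm_real, Real.norm_of_nonneg (Real.exp_pos _).le] at hz
  linarith [Real.add_one_le_exp δ]

theorem fc_le (hx : ‖x‖ = 1) (hz : ‖z‖ ≤ 1) (h0 : 0 < δ) : ‖fc x δ z‖ ≤ 1 := by
  rw [fc, norm_div, div_le_one (den_pos hx hz h0)]
  exact norm_mono hx hz (Real.exp_le_exp.2 (by linarith))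
    (by linarith [Real.add_one_le_exp δ, Real.add_one_le_exp (-δ)])

theorem fc_ge (hx : ‖x‖ = 1) (hz : ‖z‖ ≤ 1) (h0 : 0 < δ) (h1 : δ ≤ 1 / 100) {m : ℝ} (hm : 0 ≤ m)
    (h : m * (‖z - x‖ + 51 / 50 * δ) ≤ ‖z - (Real.exp (-δ) : ℝ) * x‖) : m ≤ ‖fc x δ z‖ := by
  rw [fc, norm_div, le_div_iff₀ (den_pos hx hz h0)]
  exact (mul_le_mul_of_nonneg_left (den_le hx h0 h1 z) hm).trans h

end one

theorem prod_ge {π : Type} (s : Finset π) {g : π → ℝ} {ε : ℝ} (h1 : ε ≤ 1)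
    (h : ∀ k ∈ s, 1 - ε ≤ g k) : 1 - s.card * ε ≤ ∏ k ∈ s, g k := by
  have a := one_add_mul_le_pow (a := -ε) (by linarith) s.card
  have b := Finset.prod_le_prod (s := s) (f := fun _ => 1 - ε) (g := g)
    (fun _ _ => by linarith) h
  rw [Finset.prod_const] at b
  rw [← sub_eq_add_neg] at a
  linarith

section many

variable {π : Type} [Fintype π] {x : π → ℂ} {δ ρ : ℝ} {z : ℂ}

omit [Fintype π] in
theorem far (hs : Sepd x ρ) {k k' : π} (hk : k' ≠ k) (h : ‖z - x k‖ ≤ ρ) : ρ ≤ ‖z - x k'‖ := by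
  have a := hs.2 k' k hk
  have b := norm_sub_le_norm_sub_add_norm_sub (x k') z (x k)
  rw [norm_sub_rev (x k') z] at b
  linarith

theorem lower (h0 : 0 < δ) (hs : Sepd x ρ) (hn : 100 * (Fintype.card π + 1) * δ ≤ ρ)
    (h8 : ρ ≤ 1 / 8) (hz : ‖z‖ ≤ 1) {m : ℝ} (_m0 : 0 ≤ m) (m1 : m ≤ 1)
    (h : ∀ k, ‖z - x k‖ ≤ ρ → m ≤ ‖fc (x k) δ z‖) : 9 / 10 * m ≤ ‖∏ k, fc (x k) δ z‖ := by
  classical
  have n0 : (0 : ℝ) ≤ Fintype.card π := Nat.cast_nonneg _
  have d1 : 100 * δ ≤ ρ := by nlinarith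
  have r0 : 0 < ρ := by linarith
  have e1 : 3 * δ / ρ ≤ 1 := by rw [div_le_one r0]; linarith
  have key : ∀ s : Finset π, (∀ k ∈ s, ρ ≤ ‖z - x k‖) → 9 / 10 ≤ ∏ k ∈ s, ‖fc (x k) δ z‖ := by
    intro s a
    refine le_trans ?_ (prod_ge s e1 fun k b => fc_ge (hs.1 k) hz h0 (by linarith)
      (by linarith) (le_trans ?_ (num_ge (hs.1 k) h0 (by linarith) z)))
    · have c : (s.card : ℝ) ≤ Fintype.card π := by exact_mod_cast Finset.card_le_univ s
      have d : (s.card : ℝ) * (3 * δ / ρ) ≤ 1 / 10 := by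
        rw [← mul_div_assoc, div_le_iff₀ r0]; nlinarith
      linarith
    · have c := a k b
      have d : 3 * δ ≤ 3 * δ / ρ * ‖z - x k‖ := by
        rw [div_mul_eq_mul_div, le_div_iff₀ r0]; nlinarith
      have : 0 ≤ 3 * δ / ρ * δ := by positivity
      nlinarith
  rw [norm_prod]
  by_cases c : ∃ k, ‖z - x k‖ ≤ ρ
  · obtain ⟨k, c⟩ := c
    rw [← Finset.mul_prod_erase _ _ (Finset.mem_univ k), mul_comm]
    exact mul_le_mul (h k c) (key _ fun k' a => far hs (Finset.ne_of_mem_erase a) c)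
      (by norm_num) (norm_nonneg _)
  · have := key Finset.univ fun k _ => (not_le.1 fun a => c ⟨k, a⟩).le
    linarith

end many

theorem wp_eq (x : ℂ) (δ : ℝ) : SH.wp x δ = (Real.exp (-δ) : ℝ) * x := by
  simp only [SH.wp, SH.wch]
  rw [mul_comm]
  congr 1
  push_cast
  congr 1
  linear_combination (δ : ℂ) * Complex.I_mul_I

theorem three (l : End) (π : Type) [Fintype π] (x : π → ℂ) (δ : ℝ) (hr : 0 < l.r) (h0 : 0 < δ)
    (hx : ∀ k, ‖x k‖ = 1) (o d : ℝ) (z : ℂ) (o0 : 0 < o) (o1 : o ≤ 1) (d0 : 0 < d) (d1 : d ≤ 1)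
    (hn : 100 * (Fintype.card π + 1) * δ ≤ o * d ^ 2 * min 1 l.r)
    (hd : ∀ k, d * l.r ≤ ‖z - (l.c + l.r * x k)‖) : N1 (fun v => (bq l x δ v)⁻¹) o z := by
  classical
  have n0 : (0 : ℝ) ≤ Fintype.card π := Nat.cast_nonneg _
  have m0 : 0 < min 1 l.r := lt_min one_pos hr
  have od : 0 < o * d ^ 2 := by positivity
  have n1 : 100 * (Fintype.card π + 1) * δ ≤ o * d ^ 2 :=
    hn.trans (mul_le_of_le_one_right od.le (min_le_left _ _))
  have n2 : 100 * (Fintype.card π + 1) * δ ≤ o * d ^ 2 * l.r :=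
    hn.trans (mul_le_mul_of_nonneg_left (min_le_right _ _) od.le)
  have o2 : o * d ^ 2 ≤ d := by nlinarith [mul_le_mul o1 d1 d0.le zero_le_one]
  have s1 : 100 * δ ≤ d := by nlinarith
  obtain ⟨a1, a2, a3, a4⟩ := ab h0 (by linarith)
  have nr : ‖(l.r : ℂ)‖ = l.r := by rw [Complex.norm_real, Real.norm_of_nonneg hr.le]
  have p1 : ∀ k, d * l.r / 2 ≤ ‖z - hq l (x k) δ 0‖ := fun k => by
    have a := norm_sub_le_norm_sub_add_norm_sub z (hq l (x k) δ 0) (l.c + l.r * x k)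
    have b : ‖hq l (x k) δ 0 - (l.c + l.r * x k)‖ ≤ l.r * δ := by
      rw [norm_sub_rev, sub_hq, norm_mul, nr]
      have := norm_sm (hx k) 1 (Real.exp (-δ))
      rw [Complex.ofReal_one, one_mul, abs_of_nonneg (by linarith)] at this
      rw [this]; exact mul_le_mul_of_nonneg_left (by linarith) hr.le
    nlinarith [hd k]
  have dr : 0 < d * l.r / 2 := by positivity
  have p0 : ∀ k, z - hq l (x k) δ 0 ≠ 0 := fun k => norm_pos_iff.1 (dr.trans_le (p1 k))
  have p2 : ∀ k, ‖hq l (x k) δ 0 - hq l (x k) (-δ) 0‖ ≤ 3 * δ * l.r := fun k => by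
    rw [hq_eq l (x k) δ, sub_hq, norm_mul, nr, neg_neg, norm_sm (hx k),
      abs_of_nonpos (by linarith)]
    nlinarith
  have eu : (fun v => (bq l x δ v)⁻¹) =
      fun v => ∏ k, (v - hq l (x k) (-δ) 0) / (v - hq l (x k) δ 0) := funext fun v => by
    rw [bq, ← Finset.prod_inv_distrib]
    exact Finset.prod_congr rfl fun k _ => inv_div _ _
  have pb : ∀ s : Finset π, ‖∏ k ∈ s, (z - hq l (x k) (-δ) 0) / (z - hq l (x k) δ 0) - 1‖ ≤ o := by
    intro s
    have e : ∀ k ∈ s, (z - hq l (x k) (-δ) 0) / (z - hq l (x k) δ 0) =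
        1 + (hq l (x k) δ 0 - hq l (x k) (-δ) 0) / (z - hq l (x k) δ 0) := fun k _ => by
      have := p0 k
      field_simp; ring
    rw [Finset.prod_congr rfl e]
    refine (Finset.norm_prod_one_add_sub_one_le _ _).trans ?_
    have b : ∑ k ∈ s, ‖(hq l (x k) δ 0 - hq l (x k) (-δ) 0) / (z - hq l (x k) δ 0)‖ ≤ o / 2 := by
      refine (Finset.sum_le_card_nsmul s _ (6 * δ / d) fun k _ => ?_).trans ?_
      · rw [norm_div, div_le_div_iff₀ (dr.trans_le (p1 k)) d0]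
        nlinarith [mul_le_mul_of_nonneg_right (p2 k) d0.le,
          mul_le_mul_of_nonneg_left (p1 k) h0.le]
      · have c : (s.card : ℝ) ≤ Fintype.card π := by exact_mod_cast Finset.card_le_univ s
        rw [nsmul_eq_mul, ← mul_div_assoc, div_le_iff₀ d0]
        nlinarith [mul_le_mul_of_nonneg_right c h0.le, mul_pos o0 d0,
          mul_le_mul_of_nonneg_left d1 (mul_pos o0 d0).le]
    have c := Real.exp_le_exp.2 b
    have e2 := Real.abs_exp_sub_one_le (x := o / 2) (by rw [abs_of_pos (half_pos o0)]; linarith)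
    rw [abs_of_pos (half_pos o0)] at e2
    linarith [le_abs_self (Real.exp (o / 2) - 1)]
  rw [eu]
  refine ⟨Finset.analyticAt_fun_prod _ fun k _ => (analyticAt_id.sub analyticAt_const).div
    (analyticAt_id.sub analyticAt_const) (p0 k), pb _, ?_⟩
  have der : ∀ k ∈ Finset.univ, HasDerivAt
      (fun v => (v - hq l (x k) (-δ) 0) / (v - hq l (x k) δ 0))
      (-(hq l (x k) δ 0 - hq l (x k) (-δ) 0) / (z - hq l (x k) δ 0) ^ 2) z := fun k _ => by
    have := ((hasDerivAt_id z).sub_const (hq l (x k) (-δ) 0)).div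
      ((hasDerivAt_id z).sub_const (hq l (x k) δ 0)) (p0 k)
    refine this.congr_deriv ?_
    simp only [id]
    congr 1; ring
  rw [(HasDerivAt.fun_finsetProd der).deriv]
  refine (norm_sum_le _ _).trans ((Finset.sum_le_card_nsmul _ _ (2 * (12 * δ / (d ^ 2 * l.r)))
    fun k _ => ?_).trans ?_)
  · rw [smul_eq_mul, norm_mul]
    refine mul_le_mul ?_ ?_ (norm_nonneg _) zero_le_two
    · have := norm_le_norm_sub_add (∏ j ∈ Finset.univ.erase k,
        (z - hq l (x j) (-δ) 0) / (z - hq l (x j) δ 0)) 1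
      rw [norm_one] at this
      linarith [pb (Finset.univ.erase k)]
    · rw [norm_div, norm_neg, norm_pow, div_le_div_iff₀ (pow_pos (dr.trans_le (p1 k)) 2)
        (by positivity)]
      have a := pow_le_pow_left₀ dr.le (p1 k) 2
      have b := mul_le_mul_of_nonneg_right (p2 k) (show 0 ≤ d ^ 2 * l.r by positivity)
      nlinarith [mul_le_mul_of_nonneg_left a h0.le]
  · rw [nsmul_eq_mul, Finset.card_univ, ← mul_div_assoc, ← mul_div_assoc,
      div_le_iff₀ (by positivity)]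
    nlinarith [mul_nonneg n0 h0.le]

end BQ

open BQ

theorem st_bq : St_BQ := by
  classical
  intro l π _ x δ ρ hr h0 hs hn h8
  have n0 : (0 : ℝ) ≤ Fintype.card π := Nat.cast_nonneg _
  have d1 : 100 * δ ≤ ρ := by nlinarith
  have d2 : δ ≤ 1 / 100 := by linarith
  have r0 : (l.r : ℂ) ≠ 0 := Complex.ofReal_ne_zero.2 hr.ne'
  have q4 : ∀ z : ℂ, ‖z‖ ≤ 1 → ∀ k, 7 / 4 * δ ≤ ‖z - x k‖ → 1 / 4 ≤ ‖fc (x k) δ z‖ :=
    fun z hz k a => fc_ge (hs.1 k) hz h0 d2 (by norm_num)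
      (le_trans (by linarith) (num_ge (hs.1 k) h0 d2 z))
  have q7 : ∀ z : ℂ, ‖z‖ ≤ 1 → (∀ k, 7 / 4 * δ ≤ ‖z - x k‖) →
      1 / 7 ≤ ‖bq l x δ (l.c + l.r * z)‖ := fun z hz a => by
    rw [bq_eq hr]
    linarith [lower h0 hs hn h8 hz (m := 1 / 4) (by norm_num) (by norm_num)
      fun k _ => q4 z hz k (a k)]
  refine ⟨fun z hz => ?_, ?_, fun o d z o0 o1 d0 d1 _ a b =>
    three l π x δ hr h0 hs.1 o d z o0 o1 d0 d1 a b⟩
  · have dn : ∀ k, l.c + l.r * z - hq l (x k) (-δ) 0 ≠ 0 := fun k => by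
      rw [sub_hq, neg_neg]
      exact mul_ne_zero r0 (norm_pos_iff.1 (den_pos (hs.1 k) hz h0))
    have an : ∀ k, AnalyticAt ℂ (fun v => (v - hq l (x k) δ 0) / (v - hq l (x k) (-δ) 0))
        (l.c + l.r * z) := fun k => (analyticAt_id.sub analyticAt_const).div
      (analyticAt_id.sub analyticAt_const) (dn k)
    refine ⟨Finset.analyticAt_fun_prod _ fun k _ => an k, ?_, q7 z hz, fun k a => ?_⟩
    · rw [bq_eq hr, norm_prod]
      exact Finset.prod_le_one (fun _ _ => norm_nonneg _) fun k _ => fc_le (hs.1 k) hz h0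
    · refine ⟨fun v => (v - hq l (x k) (-δ) 0)⁻¹ * ∏ j ∈ Finset.univ.erase k,
        (v - hq l (x j) δ 0) / (v - hq l (x j) (-δ) 0),
        ((analyticAt_id.sub analyticAt_const).inv (dn k)).mul
          (Finset.analyticAt_fun_prod _ fun j _ => an j),
        mul_ne_zero (inv_ne_zero (dn k)) (Finset.prod_ne_zero_iff.2 fun j b =>
          div_ne_zero ?_ (dn j)), fun v => ?_⟩
      · rw [sub_hq]
        refine mul_ne_zero r0 (norm_pos_iff.1 ?_)
        linarith [num_ge (hs.1 j) h0 d2 z, far hs (Finset.ne_of_mem_erase b) a]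
      · rw [bq, ← Finset.mul_prod_erase _ _ (Finset.mem_univ k), div_eq_mul_inv, mul_assoc]
  · intro c0 CD L M8 y4 σ0 c D0 G th Bw z hW hG hB s0 s1 z0 hz hc hu
    obtain ⟨hM, -, -, hL, -, -⟩ := hW.num
    have G0 : ∀ s, 0 ≤ G s := fun s =>
      (lt_or_ge 0 s).elim (fun a => (hG.pos s a).le) fun a => (hG.zero s a).ge
    have c0' : 0 ≤ c := (G0 _).trans hc
    have up := hB.up z z0 hz
    by_cases a : ∀ k, 7 / 4 * δ ≤ ‖z - x k‖
    · nlinarith [mul_le_mul_of_nonneg_left (q7 z hz a) c0']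
    obtain ⟨k0, a⟩ := not_forall.1 a
    replace a := not_le.1 a
    by_cases b : Bw z = 0
    · rw [b, norm_zero]; positivity
    have b' : ∀ k, SH.wr (x k) δ L < ‖z - SH.wp (x k) δ‖ := fun k =>
      not_le.1 fun e => b ((hB.zero z z0).2 (Or.inr ⟨k, e⟩))
    have eL : 0 < Real.exp (-L) := Real.exp_pos _
    have eL1 : Real.exp (-L) ≤ 1 := Real.exp_le_one_iff.2 (by linarith)
    obtain ⟨a1, -, -, -⟩ := ab h0 d2
    have lo := lower h0 hs hn h8 hz (m := Real.exp (-L) / 4) (by positivity) (by linarith)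
      fun k _ => by
        rcases le_or_gt (7 / 4 * δ) ‖z - x k‖ with e | e
        · linarith [q4 z hz k e]
        · refine fc_ge (hs.1 k) hz h0 d2 (by positivity) ?_
          have w := b' k
          rw [SH.wr, wp_eq, norm_mul, hs.1 k, mul_one, Complex.norm_real,
            Real.norm_of_nonneg (Real.exp_pos _).le] at w
          nlinarith [mul_pos h0 eL, mul_le_mul_of_nonneg_left a1 (mul_pos h0 eL).le,
            mul_le_mul_of_nonneg_left e.le eL.le, mul_le_mul_of_nonneg_left d2 (mul_pos h0 eL).le]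
    have zn := norm_pos_iff.2 z0
    have z1 : 1 - 7 / 4 * δ ≤ ‖z‖ := by
      have := norm_sub_norm_le (x k0) z
      rw [hs.1 k0, norm_sub_rev] at this
      linarith
    have l1 : -Real.log ‖z‖ ≤ 3 * δ := by
      have e := Real.one_sub_inv_le_log_of_pos zn
      have f : ‖z‖⁻¹ ≤ 1 + 3 * δ := by
        rw [inv_le_iff_one_le_mul₀ zn]; nlinarith
      linarith
    have l0 : 0 ≤ -Real.log ‖z‖ / δ := div_nonneg (neg_nonneg.2 (Real.log_nonpos zn.le hz)) h0.le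
    have l2 : -Real.log ‖z‖ / δ ≤ 3 := by rwa [div_le_iff₀ h0]
    have e1 : Real.exp ((-Real.log ‖z‖ / δ + 1 - 4 * M8) / σ0) ≤ Real.exp (-L) := by
      refine Real.exp_le_exp.2 ?_
      rw [div_le_iff₀ s0]
      rw [le_div_iff₀ (by linarith)] at s1
      linarith
    have e2 := hu _ (by linarith : 0 < -Real.log ‖z‖ / δ + 1) (by linarith)
    rw [bq_eq hr]
    nlinarith [mul_le_mul_of_nonneg_left e1 c0', mul_le_mul_of_nonneg_left lo c0',
      mul_nonneg c0' eL.le]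

end Pool.Agent.S6
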