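import Pool.Agent.Lib.S6.Part
import Pool.Agent.Lib.CF.All3

/-!
The first certificate.
-/

open Set Filter Topology Metric

noncomputable section

namespace Pool.Agent.S6

open Pool.Agent.CF (End Kind IsCurve Geo SLH tube core reg dw pen)
open Pool.Agent.Lib

namespace Cert1

variable {J : Type}

/-- change of the tube radius in the end properties -/
theorem end1_congr {sp : Sp J} {j : J} (ho : (sp.l j).ok) {D : Set E} {τ τ' : ℝ} (h0 : 0 < sp.h)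
    (hr : sp.r2 ≤ sp.r1) (H : ∀ y : E, y.1 ∈ (sp.l j).near sp.h sp.r1 →
      (y ∈ SH.near D (sp.l j).w τ ↔ y ∈ SH.near D (sp.l j).w τ'))
    (hE : sp.End1 D τ' j) : sp.End1 D τ j :=
  ⟨EP.congr ho (w := (sp.l j).w) h0 hr (fun y hy => H y (col_near h0.le hy)) hE.1,
    fun T y a b => hE.2 (fun u c d =>
      T u ((H u (col_near h0.le (PF.cc_col h0.le hr d))).2 c) d) y ((H y b).1 a) b⟩

theorem isClosed_dsc {Γ : Set E} (hΓ : IsClosed Γ) (Sig : Finset ℂ) (r1 : ℝ) :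
    IsClosed (SH.dsc Γ Sig r1) := by
  have : SH.dsc Γ Sig r1 = Γ ∩ ⋃ b ∈ Sig, {x : E | ‖x.1 - b‖ ≤ r1} := by
    ext x; simp [SH.dsc]
  rw [this]
  exact hΓ.inter
    (Sig.finite_toSet.isClosed_biUnion fun b _ => isClosed_le (by fun_prop) continuous_const)

theorem isCompact_core [Fintype J] {P : E → ℂ} {Γ : Set E} {sp : Sp J} {Sig : Finset ℂ}
    (hG : Geom P Γ sp Sig) : IsCompact (core Γ sp.l Sig sp.r2 (sp.h / 16)) := by
  have p1 := hG.geo.hpos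
  have p2 := hG.geo.r1pos
  exact (CF.all_reg J P Γ sp.l Sig sp.r1 sp.h hG.curve hG.geo).2 _ _ (by linarith) (by linarith)
    hG.r2.1 (by linarith [hG.r2.2])

/-- the surface avoids the large core and the node discs -/
theorem avoid {P : E → ℂ} {Γ S : Set E} {sp : Sp J} {Sig : Finset ℂ} (hG : Geom P Γ sp Sig)
    (hS : ∀ y ∈ S, y ∈ Γ → ∃ j, y ∈ (sp.l j).gr ((sp.l j).nearO (sp.h / 16) sp.r2)) :
    S ⊆ (core Γ sp.l Sig sp.r2 (sp.h / 16) ∪ SH.dsc Γ Sig sp.r1)ᶜ := by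
  have p1 := hG.geo.hpos
  have p2 := hG.geo.r1pos
  rintro y hy (h | ⟨h, b, hb, h'⟩)
  · obtain ⟨j, hj⟩ := hS y hy h.1
    exact h.2.2 j hj
  · obtain ⟨j, hj⟩ := hS y hy h
    linarith [hG.geo.sig j _ ((sp.l j).nearO_subset_near (by linarith)
      (by linarith [hG.r2.2]) hj.1) b hb]

/-- one side of the certificate -/
theorem side [Fintype J] {P O : E → ℂ} {Γ U : Set E} {sp : Sp J} {Sig : Finset ℂ} {a x : ℝ}
    {φ : E → ℝ} (hG : Geom P Γ sp Sig) (hO : Continuous O) (h0 : ∀ y ∈ Γ, O y = 0 → y.1 ∈ Sig)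
    (om : ∀ j, sp.om j = (sp.l j).res (dw P))
    (H : PFit Γ sp.l Sig sp.h sp.r1 sp.r2 a (fun j z => x * Real.log ‖(sp.l j).res O z‖) sp.κ
      sp.Cu sp.Λ0 0) (ha : 0 < a) (hx : 0 ≤ x) (hφ : ∀ y, φ y = ‖P y‖ ^ a * ‖O y‖ ^ x)
    (hU : IsOpen U) (hcU : core Γ sp.l Sig sp.r2 (sp.h / 16) ⊆ U) :
    ∃ τ1 > (0 : ℝ), ∀ σ ≤ τ1, ∀ X L : Set E, (∀ y ∈ L, y ∉ U) → (∀ j, sp.End1 (X \ L) σ j) →
      (∀ lv, 0 < lv → SH.CoreB Γ sp.l Sig sp.r1 sp.h σ X φ lv →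
        SH.Rig Γ sp.l Sig sp.r1 sp.h sp.r2 σ X L φ lv 1) ∧
      (SH.CoreB Γ sp.l Sig sp.r1 sp.h σ X φ 0 → ∀ j, ∀ y ∈ X, y ∉ L →
        y ∈ tube ((sp.l j).gr ((sp.l j).near sp.h sp.r1)) σ → y ∈ Γ) := by
  have hc := hG.curve
  have hg := hG.geo
  have p1 := hg.hpos
  have p2 := hg.r1pos
  have p3 := hG.r2.1
  have hr : sp.r2 ≤ sp.r1 := by linarith [hG.r2.2]
  obtain ⟨C, -, t, ht, R⟩ := H.rig hc hg p3 (by linarith [hG.r2.2])
  have hA := isCompact_core hG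
  have n1 : ∀ y ∈ core Γ sp.l Sig sp.r2 (sp.h / 16), dw P y ≠ 0 := fun y hy k =>
    SH.core_ne_sig p3 hy (hg.br ⟨y, hy.1, k, rfl⟩)
  have n2 : ∀ y ∈ core Γ sp.l Sig sp.r2 (sp.h / 16), O y ≠ 0 := fun y hy k =>
    SH.core_ne_sig p3 hy (h0 y hy.1 k)
  obtain ⟨R1, a1, b1⟩ := cmp hA hc.poly hc.poly n1 (t := t / (2 * a)) (by positivity)
  obtain ⟨R2, a2, b2⟩ := ratio hA hO n2 (t := t / (2 * (x + 1))) (by positivity)
  obtain ⟨R3, a3, b3⟩ := SH.tube_sub hA hU hcU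
  refine ⟨min R1 (min R2 R3), by positivity, fun σ hσ X L hL hE => ?_⟩
  have s1 : σ ≤ R1 := hσ.trans (min_le_left _ _)
  have s2 : σ ≤ R2 := hσ.trans ((min_le_right _ _).trans (min_le_left _ _))
  have s3 : σ ≤ R3 := hσ.trans ((min_le_right _ _).trans (min_le_right _ _))
  have key : ∀ j, ∀ y : E, ‖y.2 - (sp.l j).w y.1‖ ≤ σ → y.1 ∈ col (sp.l j) sp.h sp.r1 sp.r2 →
      0 ≤ sp.φ j y ∧ Cl t (φ y)
        (sp.φ j y ^ a * Real.exp (x * Real.log ‖(sp.l j).res O y.1‖) * 1) := by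
    intro j y c d
    have m := col_core hc hg hr j d
    have c1 := b1 _ m 0 y.2 ((sp.l j).w y.1) (by simpa using a1.le) (c.trans s1)
      (by simpa using a1.le) (by simpa [pen] using hc.zero _ m.1)
    have c2 := b2 _ m y.2 (c.trans s2)
    have c3 : pen P P 0 (y.1, y.2) = P y := by simp [pen]
    have c4 : Real.exp (x * Real.log ‖(sp.l j).res O y.1‖) = ‖O (y.1, (sp.l j).w y.1)‖ ^ x := by
      rw [Real.rpow_def_of_pos (norm_pos_iff.2 (n2 _ m)), mul_comm]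
      rfl
    have c5 : sp.φ j y = ‖y.2 - (sp.l j).w y.1‖ * ‖dw P (y.1, (sp.l j).w y.1)‖ := by
      rw [Sp.φ, om j]
      rfl
    simp only [c3] at c1
    refine ⟨by rw [c5]; positivity, ?_⟩
    rw [hφ, c4, c5, mul_one]
    refine ((c1.rpow ha.le).mul (c2.rpow hx)).mono ?_
    have e1 : t / (2 * a) * a = t / 2 := by field_simp
    have e2 : t / (2 * (x + 1)) * (x + 1) = t / 2 := by field_simp
    have e3 : 0 < t / (2 * (x + 1)) := by positivity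
    nlinarith
  refine ⟨fun lv hlv hB => (R X L σ φ sp.φ (fun _ => 0) 1 lv one_pos hlv (fun j y c d => ?_)
    (fun j => ⟨le_rfl, fun z _ => ?_⟩) (fun j => (hE j).1) hB).1 1 le_rfl (by simp),
    fun hB j y c d f => ?_⟩
  · obtain ⟨k1, k2⟩ := key j y c.2 d
    exact ⟨fun k => hL y k (b3 ⟨_, col_core hc hg hr j d, rfl, c.2.trans s3⟩), k1, k2.2.2.1,
      k2.2.2.2⟩
  · rw [Real.zero_rpow ha.ne', zero_mul, zero_mul]
    exact hlv.le
  · obtain ⟨f1, f2⟩ := CF.mem_tube_gr.1 f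
    obtain ⟨g1, g2⟩ := (hE j).2 (fun u u1 u2 => by
      have m := PF.cc_col p1.le hr u2
      obtain ⟨k1, k2⟩ := key j u u1.2 m
      have k3 := hB u u1.1.1 ⟨_, cc_core hc hg j u2, rfl, u1.2⟩
      have k4 := k2.2.2.2.trans (mul_nonpos_of_nonneg_of_nonpos (Real.exp_pos t).le k3)
      rw [mul_one] at k4
      have k5 : sp.φ j u ^ a ≤ 0 := nonpos_of_mul_nonpos_left k4 (Real.exp_pos _)
      have k6 : sp.φ j u = 0 := by
        by_contra k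
        exact absurd k5 (not_le.2 (Real.rpow_pos_of_pos (lt_of_le_of_ne k1 (Ne.symm k)) a))
      rw [Sp.φ, om j, mul_eq_zero, norm_eq_zero, norm_eq_zero, sub_eq_zero] at k6
      exact k6.resolve_right (n1 _ (col_core hc hg hr j m))) y ⟨⟨c, d⟩, f2⟩ f1
    have := (hg.mem j (near_two hg j f1)).2 g2
    rwa [← g1] at this

/-- the continuation of a sheet lies in the end tube -/
theorem cont_tube {l : End} (hk : l.k ≠ Kind.pt) {a h r1 σ : ℝ} (ha : a ≤ h) (h0 : 0 ≤ h)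
    (hσ : 0 ≤ σ) {y : E} (hy : y ∈ l.gr (l.ann (Ioo (-a) 0))) :
    y ∈ tube (l.gr (l.near h r1)) σ := by
  refine CF.mem_tube_gr.2 ⟨?_, by rw [hy.2, sub_self, norm_zero]; exact hσ⟩
  rw [End.near_loop hk]
  exact ⟨hy.1.1, by linarith [hy.1.2.1], by linarith [hy.1.2.2]⟩

end Cert1

open Cert1

theorem st_cert1 : St_CERT1 := by
  intro J J' _ _ C K G G' S sp sp' Sig Sig' hG hG' hK hC om om' H H' cS hS hS'
  have hc := hG.curve
  have hc' := hG'.curve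
  have hg := hG.geo
  have hg' := hG'.geo
  have p1 := hg.hpos
  have p2 := hg.r1pos
  have q1 := hg'.hpos
  have q2 := hg'.r1pos
  have h4 : sp.r2 ≤ sp.r1 / 4 := by linarith [hG.r2.2]
  have h4' : sp'.r2 ≤ sp'.r1 / 4 := by linarith [hG'.r2.2]
  have hC' : ∀ y ∈ G', C y = 0 → y.1 ∈ Sig ∧ y.1 ∈ Sig' := fun y a b =>
    (hK y (hC y a b) (hc'.zero y a)).2
  obtain ⟨η0, e0, f0⟩ := cS.exists_cthickening_subset_open
    ((((isCompact_core hG).isClosed.union (isClosed_dsc hc.cpt.isClosed Sig sp.r1)).isOpen_compl).inter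
      ((isCompact_core hG').isClosed.union
        (isClosed_dsc hc'.cpt.isClosed Sig' sp'.r1)).isOpen_compl)
    (subset_inter (avoid hG hS) (avoid hG' hS'))
  have hU : IsOpen (cthickening η0 S)ᶜ := isClosed_cthickening.isOpen_compl
  have u1 : core G sp.l Sig sp.r2 (sp.h / 16) ⊆ (cthickening η0 S)ᶜ :=
    fun y a b => (f0 b).1 (Or.inl a)
  have u2 : core G' sp'.l Sig' sp'.r2 (sp'.h / 16) ⊆ (cthickening η0 S)ᶜ :=
    fun y a b => (f0 b).2 (Or.inl a)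
  obtain ⟨t1, a1, b1⟩ := side (φ := fun y => ‖C y ^ 2 * K y‖) hG hc'.poly.continuous
    (fun y a b => (hK y a b).2.1) om H two_pos zero_le_one (fun y => by simp) hU u1
  obtain ⟨t2, a2, b2⟩ := side (φ := fun y => ‖C y ^ 2 * K y‖) hG' hc.poly.continuous
    (fun y a b => (hC' y a b).2) om' H' one_pos zero_le_two (fun y => by simp [mul_comm]) hU u2
  obtain ⟨t3, a3, b3⟩ := SH.frame CF.all_vb CF.st_shell CF.all_tube CF.all_reg hc hg hc' hg'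
    (fun y a b => (hK y a (hc'.zero y b)).2) hG.r2.1 h4 hG'.r2.1 h4' hU hU hU u1 u2
    (fun y a b => (f0 b).1 (Or.inr a)) fun y a b => (f0 b).2 (Or.inr a)
  obtain ⟨t4, a4, -, b4⟩ := iso hc hg hc'.cpt fun y a b => (hC' y a b).1
  obtain ⟨t5, a5, -, b5⟩ := iso hc' hg' hc.cpt fun y a b => (hK y a b).2.2
  obtain ⟨Z1, c1, d1⟩ := CF.st_znear J C G sp.l hc sp.h p1
  obtain ⟨Z2, c2, d2⟩ := CF.st_znear J' K G' sp'.l hc' sp'.h q1
  obtain ⟨Z3, c3, d3⟩ := SH.zero_near hc.poly.continuous hc'.cpt hC c1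
  obtain ⟨Z4, c4, d4⟩ := SH.zero_near hc'.poly.continuous hc.cpt (fun y a b => (hK y a b).1) c2
  obtain ⟨τ0, g0, g1, g2, g3, g4, g5⟩ :
      ∃ τ0 > (0 : ℝ), τ0 ≤ t1 ∧ τ0 ≤ t2 ∧ τ0 ≤ t3 ∧ τ0 ≤ t4 ∧ τ0 ≤ t5 :=
    ⟨min t1 (min t2 (min t3 (min t4 t5))), by positivity, by simp, by simp, by simp, by simp,
      by simp⟩
  refine ⟨τ0, g0, fun τ τ' k1 k2 k3 k4 => ?_⟩
  obtain ⟨σ, s0, s1, s2⟩ : ∃ σ > (0 : ℝ), σ ≤ τ ∧ σ ≤ τ' :=
    ⟨min τ τ', by positivity, min_le_left _ _, min_le_right _ _⟩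
  obtain ⟨R0, r0, V, hf⟩ := b3 σ s0 (by linarith)
  obtain ⟨R4, r4, i4⟩ := b4 σ s0
  obtain ⟨R5, r5, i5⟩ := b5 σ s0
  obtain ⟨η, m0, m1, m2, m3, m4, m5, m6⟩ :
      ∃ η > (0 : ℝ), η ≤ η0 ∧ η ≤ R4 ∧ η ≤ R5 ∧ η ≤ R0 / 2 ∧ η ≤ Z3 / 2 ∧ η ≤ Z4 / 2 :=
    ⟨min η0 (min R4 (min R5 (min (R0 / 2) (min (Z3 / 2) (Z4 / 2))))), by positivity, by simp,
      by simp, by simp, by simp, by simp, by simp⟩
  refine ⟨η, m0, fun X L hX hL hD hE hE' => ?_⟩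
  have hLU : ∀ y ∈ L, y ∉ (cthickening η0 S)ᶜ := fun y a b => b (cthickening_mono m1 _ (hL a))
  have th : ∀ R, η ≤ R / 2 → X \ L ⊆ thickening R (G ∪ G') := fun R a =>
    hD.trans (cthickening_subset_thickening' (by linarith) (by linarith) _)
  obtain ⟨v1, w1⟩ := b1 σ (by linarith) X L hLU fun j =>
    end1_congr (hc.ok j) p1 (by linarith) (fun y hy => ⟨fun a => ⟨a.1, a.2.trans s1⟩, fun a =>
      ⟨a.1, (i4 j y (cthickening_mono m2 _ (hD a.1)) hy (by linarith [a.2])).le⟩⟩) (hE j)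
  obtain ⟨v2, w2⟩ := b2 σ (by linarith) X L hLU fun j =>
    end1_congr (hc'.ok j) q1 (by linarith) (fun y hy => ⟨fun a => ⟨a.1, a.2.trans s2⟩, fun a =>
      ⟨a.1, (i5 j y (union_comm G G' ▸ cthickening_mono m3 _ (hD a.1)) hy
        (by linarith [a.2])).le⟩⟩) (hE' j)
  obtain ⟨z1, z2, z3⟩ := SH.cert2R hg hg' h4 h4' hf s0 hX.cX hX.lm (th R0 m4)
    (φ := fun y => ‖C y ^ 2 * K y‖) le_rfl
    (SH.labs_norm fun y _ => ((hc.poly.analyticAt y).pow 2).mul (hc'.poly.analyticAt y))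
    (fun y _ a b => absurd b (hLU y a)) fun lv a b c => ⟨v1 lv a b, v2 lv a c⟩
  intro y hy
  by_cases hyL : y ∈ L
  · exact Or.inl hyL
  refine Or.inr ?_
  have zero : ‖C y ^ 2 * K y‖ ≤ 0 → y ∈ G ∪ G' := fun a => by
    rw [norm_le_zero_iff, mul_eq_zero, pow_eq_zero_iff two_ne_zero] at a
    rcases a with a | a
    · rcases d1 y (d3 y (th Z3 m5 ⟨hy, hyL⟩) a) a with b | ⟨j, b, b'⟩
      · exact Or.inl b
      · exact Or.inl (w1 z1 j y hy hyL (cont_tube b le_rfl p1.le s0.le b'))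
    · rcases d2 y (d4 y (union_comm G G' ▸ th Z4 m6 ⟨hy, hyL⟩) a) a with b | ⟨j, b, b'⟩
      · exact Or.inr b
      · exact Or.inr (w2 z2 j y hy hyL (cont_tube b le_rfl q1.le s0.le b'))
  rcases hf.cov y (th R0 m4 ⟨hy, hyL⟩) with a | a | a | ⟨j, a⟩ | ⟨j, a⟩
  · exact zero (z3 y hy a)
  · exact zero (z1 y hy a)
  · exact zero (z2 y hy a)
  · exact Or.inl (w1 z1 j y hy hyL a)
  · exact Or.inr (w2 z2 j y hy hyL a)

end Pool.Agent.S6
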