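import Pool.Agent.Lib.S6.CertbA

/-!
The certificate of the split.
-/

open Set Filter Topology Metric

noncomputable section

namespace Pool.Agent.S6

open Pool.Agent.CF (End Kind IsCurve Geo tube core reg dw pen IsPoly)
open Pool.Agent.Lib
open Pool.Agent.Lib.SH (fB fB0 fB1 fBK pA CoreB Sep)

namespace CERTB

/-- the facts which hold after the choice of all constants -/
structure Loc {J J' : Type} (C K G q : E → ℂ) (Γ Γ' : Set E) (l : J → End) (Sig Sig' : Finset ℂ)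
    (h r1 r2 c B q0 : ℝ) (sp : Sp J') (e τ τ' t : ℝ) (w : J' → ℂ → ℂ) (N U U' W V X L : Set E) :
    Prop where
  hc : IsCurve C Γ l
  hg : Geo C Γ l Sig r1 h
  hK : Geom K Γ' sp Sig'
  pG : IsPoly G
  pq : IsPoly q
  hr : 0 < r2 ∧ r2 ≤ r1 / 4
  pos : 0 < e ∧ e ≤ B⁻¹ ∧ 0 < τ ∧ 0 ≤ c ∧ t ≤ 1 ∧ 0 < q0
  std : Std X L
  fr : SH.Frame Γ l Sig r1 h r2 Γ' sp.l Sig' sp.r1 sp.h sp.r2 τ N U U' W V
  bc : SH.BCon C K G q B (tube (core Γ l Sig r1 h) τ) (tube (core Γ' sp.l Sig' sp.r1 sp.h) τ)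
    U U' W
  qU : ∀ x ∈ U, q0 ≤ ‖q x‖
  sub : X \ L ⊆ N
  off : ∀ x ∈ U ∪ U' ∪ W, x ∉ L
  colC : ∀ j, ∀ x : E, x.1 ∈ col (l j) h r1 r2 → ‖x.2 - (l j).w x.1‖ ≤ τ → x ∉ L ∧ q x ≠ 0 ∧
    ∀ M : ℝ, 0 ≤ M →
      Cl t (fB C K G q e x) (sP C K G q e x * Real.exp (sF K G q (l j) x.1) * 1) ∧
      Cl t (fB0 C K G q e M x) (sP C K G q e x * Real.exp (sF K G q (l j) x.1) * M) ∧
      Cl t (fB1 C K G q e M c x) (sP C K G q e x *
        Real.exp (sF K G q (l j) x.1 + -c * Real.log ‖(l j).res K x.1‖) * M)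
  ccC : ∀ j, ∀ z ∈ cc (l j) h r1,
    Real.exp (sF K G q (l j) z) ≤ B ^ 5 ∧ B⁻¹ ≤ ‖(l j).res K z‖
  isoC : ∀ j, ∀ y ∈ Γ, y.1 ∈ (l j).near h r1 → ‖y.2 - (l j).w y.1‖ ≤ 2 * τ →
    y.2 = (l j).w y.1 ∧ (l j).side y.1
  isoK : ∀ j, ∀ y ∈ Γ, y.1 ∈ (sp.l j).near sp.h sp.r1 → 2 * τ < ‖y.2 - (sp.l j).w y.1‖
  colK : ∀ j, ∀ x : E, x.1 ∈ col (sp.l j) sp.h sp.r1 sp.r2 → ‖x.2 - (sp.l j).w x.1‖ ≤ τ →
    x ∉ L ∧ sp.om j x.1 ≠ 0 ∧
      Cl t (fB C K G q e x)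
        ((sp.setW w).φ j x * Real.exp (2 * Real.log ‖(sp.l j).res C x.1‖) * 1) ∧
      Cl t (fBK C K G q e c x)
        ((sp.setW w).φ j x * Real.exp ((2 + c) * Real.log ‖(sp.l j).res C x.1‖) * (e ^ c)⁻¹)
  tub : ∀ j, ∀ x ∈ X \ L, x.1 ∈ (sp.l j).near sp.h sp.r1 →
    (‖x.2 - (sp.l j).w x.1‖ ≤ τ ↔ ‖x.2 - w j x.1‖ ≤ τ')
  eK : ∀ j, (sp.setW w).End1 (X \ L) τ' j

namespace Loc

variable {J J' : Type} {C K G q : E → ℂ} {Γ Γ' : Set E} {l : J → End} {Sig Sig' : Finset ℂ}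
  {h r1 r2 c B q0 : ℝ} {sp : Sp J'} {e τ τ' t : ℝ} {w : J' → ℂ → ℂ} {N U U' W V X L : Set E}
  (H : Loc C K G q Γ Γ' l Sig Sig' h r1 r2 c B q0 sp e τ τ' t w N U U' W V X L)

include H

theorem r4 : sp.r2 ≤ sp.r1 / 4 := by linarith [H.hK.r2.1, H.hK.r2.2]

theorem rr : r2 ≤ r1 := by linarith [H.hr.1, H.hr.2]

theorem rr' : sp.r2 ≤ sp.r1 := by linarith [H.hK.r2.1, H.hK.r2.2]

theorem coreU {x : E} (hx : x ∈ tube (core Γ l Sig r1 h) τ) : x ∈ U :=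
  H.fr.l.sub (SH.core_tube_sub H.hg H.hr.2 hx)

theorem coreU' {x : E} (hx : x ∈ tube (core Γ' sp.l Sig' sp.r1 sp.h) τ) : x ∈ U' :=
  H.fr.r.sub (SH.core_tube_sub H.hK.geo H.r4 hx)

theorem ccT {j : J} {x : E} (h1 : x.1 ∈ cc (l j) h r1) (h2 : ‖x.2 - (l j).w x.1‖ ≤ τ) :
    x ∈ tube (core Γ l Sig r1 h) τ := ⟨_, cc_core H.hc H.hg j h1, rfl, h2⟩

theorem epK (j : J') : EP (sp.l j) (X \ L) ((sp.setW w).φ j) τ sp.h sp.r1 sp.r2 sp.Cu sp.Λ0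
    (sp.κ j) 0 :=
  EP.congr (w := w j) (H.hK.curve.ok j) H.hK.geo.hpos H.rr'
    (fun y hy => and_congr_right fun a => H.tub j y a (col_near H.hK.geo.hpos.le hy)) (H.eK j).1

/-- the first certificate -/
theorem b1 {κ : J → ℝ} {Cu Λ0 θ : ℝ}
    (R1 : RG Γ l Sig h r1 r2 (fun j => sF K G q (l j)) κ Cu Λ0 1 t)
    (R2 : RG Γ' sp.l Sig' sp.h sp.r1 sp.r2 (fun j z => 2 * Real.log ‖(sp.l j).res C z‖) sp.κ
      sp.Cu sp.Λ0 1 t) (hθ : 0 ≤ θ)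
    (hE : ∀ j, EP (l j) (X \ L) (sP C K G q e) τ h r1 r2 Cu Λ0 (κ j) (θ * e ^ 2)) :
    CoreB Γ l Sig r1 h τ X (fB C K G q e) (θ * B ^ 5 * e ^ 2) ∧
      CoreB Γ' sp.l Sig' sp.r1 sp.h τ X (fB C K G q e) (θ * B ^ 5 * e ^ 2) ∧
      ∀ x ∈ X, x ∈ V → fB C K G q e x ≤ θ * B ^ 5 * e ^ 2 := by
  have B0 : 0 < B := one_pos.trans_le H.bc.one
  have p : 0 ≤ θ * B ^ 5 * e ^ 2 := by positivity
  have f := H.fr
  refine SH.cert2R (U := U ∪ U' ∪ W) H.hg H.hK.geo H.hr.2 H.r4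
    ⟨⟨f.l.cpt, fun x a => Or.inl (Or.inl (f.l.sub a)), f.l.shell, f.l.mem⟩,
      ⟨f.r.cpt, fun x a => Or.inl (Or.inr (f.r.sub a)), f.r.shell, f.r.mem⟩, f.op,
      fun x a => Or.inr (f.sub a), f.bd, f.cov⟩ H.pos.2.2.1 H.std.cX H.std.lm H.sub p
    (SH.labs_fB H.hc.poly H.hK.curve.poly H.pG H.pq ?_) (fun x _ a b => absurd a (H.off x b))
    fun lv a b1 b2 => ⟨R1 X L τ _ (fun _ => sP C K G q e) (fun _ => θ * e ^ 2) 1 lv one_pos
      (p.trans_lt a) (fun j y c d => ?_) (fun j => ⟨by positivity, fun z hz => ?_⟩) hE b1,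
      R2 X L τ _ (sp.setW w).φ (fun _ => 0) 1 lv one_pos (p.trans_lt a) (fun j y c d => ?_)
        (fun j => ⟨le_rfl, fun z _ => by simpa using p.trans a.le⟩) H.epK b2⟩
  · rintro x ((a | a) | a)
    exacts [(H.bc.reg x a).1, (H.bc.reg' x a).1, H.bc.nod x a]
  · obtain ⟨a1, -, a2⟩ := H.colC j y d c.2
    exact ⟨a1, norm_nonneg _, (a2 1 zero_le_one).1⟩
  · have := mul_le_mul_of_nonneg_left (H.ccC j z hz).1 (by positivity : 0 ≤ θ * e ^ 2)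
    linarith
  · obtain ⟨a1, -, a2, -⟩ := H.colK j y d c.2
    exact ⟨a1, mul_nonneg (norm_nonneg _) (norm_nonneg _), a2⟩

/-- the separation -/
theorem sep {κ : J → ℝ} {Cu Λ0 θ θ2 b s : ℝ} (h1 : 16 * b * B ^ 3 < q0 ^ 2) (h2 : 0 < θ2)
    (h3 : θ ≤ θ2) (h4 : b * (B ^ 3 / q0 ^ 2) ≤ θ2)
    (h5 : θ2 * (Real.exp Cu * (r1 / r2) ^ s) < 1 / 16) (h6 : ∀ j, |κ j| ≤ s)
    (hE : ∀ j, EP (l j) (X \ L) (sP C K G q e) τ h r1 r2 Cu Λ0 (κ j) (θ * e ^ 2))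
    (c1 : CoreB Γ l Sig r1 h τ X (fB C K G q e) (b * e ^ 2))
    (c2 : CoreB Γ' sp.l Sig' sp.r1 sp.h τ X (fB C K G q e) (b * e ^ 2))
    (c3 : ∀ x ∈ X, x ∈ V → fB C K G q e x ≤ b * e ^ 2) :
    (∀ j, ∀ y ∈ SH.near (X \ L) (l j).w τ, y.1 ∈ cc (l j) h r1 → sP C K G q e y ≤ θ2 * e ^ 2) ∧
    (∀ j, ∀ y ∈ SH.near X (l j).w τ, y.1 ∈ col (l j) h r1 r2 → Sep C K G q e y) ∧
    ∀ x ∈ X, x ∈ tube (reg Γ l Sig (h / 16) r2 r2) τ → Sep C K G q e x := by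
  obtain ⟨e0, -, -, -, -, q1⟩ := H.pos
  have e2 : 0 < e ^ 2 := by positivity
  have top : ∀ j, ∀ y ∈ SH.near (X \ L) (l j).w τ, y.1 ∈ cc (l j) h r1 →
      sP C K G q e y ≤ θ2 * e ^ 2 := fun j y a d => by
    have u := H.ccT d a.2
    obtain ⟨g1, g2, g3, g4, -⟩ := H.bc.reg y (H.coreU u)
    refine (sP_le g1 g2 g3 g4 q1 (H.qU y (H.coreU u)) (c1 y a.1.1 u)).trans ?_
    rw [mul_right_comm]
    exact mul_le_mul_of_nonneg_right h4 e2.le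
  have cl : ∀ j, ∀ y ∈ SH.near X (l j).w τ, y.1 ∈ col (l j) h r1 r2 → Sep C K G q e y :=
    fun j y a d => by
      obtain ⟨a1, a2, -⟩ := H.colC j y d a.2
      have k := (hE j _ (mul_pos h2 e2) (mul_le_mul_of_nonneg_right h3 e2.le)).2 (top j) y
        ⟨⟨a.1, a1⟩, a.2⟩ d
      have k2 := mul_le_mul_of_nonneg_left (fac_le H.hr.1 H.rr (h6 j) d)
        (by positivity : 0 ≤ θ2 * e ^ 2 * Real.exp Cu)
      exact sep_of_sP a2 (by nlinarith)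
  refine ⟨top, cl, fun x hx hx' => ?_⟩
  have u := H.fr.l.sub hx'
  obtain ⟨g1, -, g3, g4, -⟩ := H.bc.reg x u
  have k := SH.sep_of e0 g1 g3 g4 q1.le (H.qU x u) h1 (C := C)
  obtain ⟨y, y1, y2, y3⟩ := hx'
  have tri : ∀ v : ℂ, ‖x.2 - v‖ ≤ τ → ‖y.2 - v‖ ≤ 2 * τ := fun v a => by
    have := norm_sub_le_norm_sub_add_norm_sub y.2 x.2 v
    rw [norm_sub_rev y.2 x.2] at this
    linarith
  rcases H.fr.cov x (H.sub ⟨hx, H.off x (Or.inl (Or.inl u))⟩) with a | a | a | ⟨j, a⟩ | ⟨j, a⟩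
  · exact k (c3 x hx a)
  · exact k (c1 x hx a)
  · exact k (c2 x hx a)
  · obtain ⟨a1, a2⟩ := CF.mem_tube_gr.1 a
    obtain ⟨a3, a4⟩ := H.isoC j y y1.1 (y2 ▸ a1) (y2 ▸ tri _ a2)
    exact cl j x ⟨hx, a2⟩ (y2 ▸ mem_col (H.hc.ok j) (y2 ▸ a1) a4 fun m => y1.2.2 j ⟨m, a3⟩)
  · obtain ⟨a1, a2⟩ := CF.mem_tube_gr.1 a
    exact absurd (H.isoK j y y1.1 (y2 ▸ a1)) (not_lt.2 (y2 ▸ tri _ a2))

/-- the second certificate -/
theorem b2 {κ1 κ0 k : J → ℝ} {Cu Λ0 Λw M : ℝ} (hM : M = (2 * B ^ 3) ^ c)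
    (R1 : RG Γ l Sig h r1 r2 (fun j z => sF K G q (l j) z + -c * Real.log ‖(l j).res K z‖) κ1
      Cu Λ0 (M ^ 4) t)
    (R0 : RG Γ l Sig h r1 r2 (fun j => sF K G q (l j)) κ0 Cu Λ0 (M ^ 4) t)
    (R2 : RG Γ' sp.l Sig' sp.h sp.r1 sp.r2 (fun j z => (2 + c) * Real.log ‖(sp.l j).res C z‖)
      sp.κ sp.Cu sp.Λ0 1 t) (hW : ∀ j, LW (l j) h r1 (sF K G q (l j)) (k j) Λw)
    (s1 : ∀ j, ∀ y ∈ SH.near X (l j).w τ, y.1 ∈ col (l j) h r1 r2 → Sep C K G q e y)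
    (s2 : ∀ x ∈ X, x ∈ tube (reg Γ l Sig (h / 16) r2 r2) τ → Sep C K G q e x)
    (hE : ∀ j, ∀ thr > 0, (∀ y ∈ SH.near (X \ L) (l j).w τ, y.1 ∈ cc (l j) h r1 →
      sP C K G q e y ≤ Real.exp (1 + 2 * |Λw * (1 + h)|) * (B ^ c * B ^ c) * thr) →
      EP (l j) {y | y ∈ X \ L ∧ ‖sV C K G q y - e‖ ≤ e / 2} (sP C K G q e) τ h r1 r2 Cu Λ0
        (κ1 j) thr ∧
      EP (l j) {y | y ∈ X \ L ∧ ‖sV C K G q y‖ ≤ e / 2} (sP C K G q e) τ h r1 r2 Cu Λ0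
        (κ0 j) thr) :
    ∀ x ∈ X, x ∈ V ∨ x ∈ tube (core Γ l Sig r1 h) τ ∨
      x ∈ tube (core Γ' sp.l Sig' sp.r1 sp.h) τ → G x ≠ 0 ∧ fB C K G q e x ≤ 0 := by
  obtain ⟨e0, e1, t0, c0, t1, q1⟩ := H.pos
  have B1 := H.bc.one
  have B0 : 0 < B := one_pos.trans_le B1
  have M0 : 0 < M := by rw [hM]; positivity
  have Bc : 1 ≤ B ^ c := Real.one_le_rpow B1 c0
  have p1 := H.hg.r1pos
  have p2 := H.hg.hpos
  set O : Set E := {x | Sep C K G q e x} ∪ Xᶜ with hO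
  have o1 : IsOpen O := (isOpen_sep H.hc.poly.continuous H.hK.curve.poly.continuous
    H.pG.continuous H.pq.continuous).union H.std.cX.isClosed.isOpen_compl
  have o2 : ∀ x ∈ X, x ∈ O → Sep C K G q e x := fun x a b => b.resolve_right fun d => d a
  have f := H.fr
  have cs : ∀ x ∈ X, x ∈ tube (core Γ l Sig r1 h) τ →
      x ∈ SH.X1 C K G q e X O ∨ x ∈ SH.X0 C K G q e X O := fun x a b => by
    have := mul_nonneg e0.le (norm_nonneg (q x))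
    exact ((s2 x a (SH.core_tube_sub H.hg H.hr.2 b)).cases e0).imp
      (fun m => ⟨a, fun _ => by linarith [m.1]⟩) fun m => ⟨a, fun _ => by linarith [m.1]⟩
  obtain ⟨k1, k2, k3, k4⟩ := SH.certBR (U := U ∩ O) (O := O) H.hc H.hg H.hK.curve H.hK.geo H.pG
    H.pq H.hr.2 H.r4 ⟨⟨f.l.cpt, fun x a => ⟨f.l.sub a, by
      by_cases b : x ∈ X
      exacts [Or.inl (s2 x b a), Or.inr b]⟩, f.l.shell, f.l.mem⟩, f.r, f.op, f.sub, f.bd, f.cov⟩ t0
    ⟨B1, H.bc.core, H.bc.core', fun x a => H.bc.reg x a.1, H.bc.reg', H.bc.nod⟩ H.std.cX H.std.lm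
    H.sub e0 e1 c0 hM o1 inter_subset_right (fun x a _ b => o2 x a b)
    (fun x _ a b => absurd a (H.off x (b.imp_left (Or.imp_left And.left))))
    (fun lv l0 b1 b0 b2 => by
      choose z0 hz0 using fun j => PF.cc_ne (H.hc.ok j) (h := h) p1.le
      set o := |Λw * (1 + h)| with ho
      have os : ∀ j, ∀ z ∈ cc (l j) h r1, sF K G q (l j) z ≤ sF K G q (l j) (z0 j) + o ∧
          sF K G q (l j) (z0 j) ≤ sF K G q (l j) z + o := fun j z hz => by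
        have := abs_le.1 ((osc_cc (hW j) p2 p1 hz (hz0 j)).trans (le_abs_self _))
        constructor <;> linarith [this.1, this.2]
      set thr : J → ℝ := fun j => lv / (M * B ^ c * Real.exp (sF K G q (l j) (z0 j) + o))
        with hthr
      have th0 : ∀ j, 0 < thr j := fun j => by rw [hthr]; positivity
      have th1 : ∀ j, thr j * (M * B ^ c * Real.exp (sF K G q (l j) (z0 j) + o)) = lv :=
        fun j => div_mul_cancel₀ _ (by positivity)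
      have th2 : ∀ j, ∀ z ∈ cc (l j) h r1,
          thr j * (Real.exp (sF K G q (l j) z) * B ^ c) * M ≤ lv := fun j z hz => by
        rw [← th1 j]
        have := Real.exp_le_exp.2 (os j z hz).1
        have := th0 j
        calc _ = thr j * (M * B ^ c * Real.exp (sF K G q (l j) z)) := by ring
          _ ≤ _ := by gcongr
      have EE := fun j => hE j (thr j) (th0 j) fun y a d => by
        have u := H.ccT d a.2
        obtain ⟨g1, g2, -, g4, -⟩ := H.bc.reg y (H.coreU u)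
        have g5 := norm_pos_iff.2 g2
        have f0 : 0 ≤ fB C K G q e y := norm_nonneg _
        have m1 : M * fB C K G q e y ≤ lv * B ^ c := by
          rcases cs y a.1.1 u with m | m
          · have := b1 y m u
            rw [fB1, Real.inv_rpow g5.le, ← div_eq_mul_inv, div_le_iff₀ (by positivity)] at this
            exact this.trans (by gcongr)
          · exact (b0 y m u).trans (le_mul_of_one_le_right l0.le Bc)
        have m2 := ((H.colC j y (PF.cc_col p2.le H.rr d) a.2).2.2 M M0.le).2.1.2.2.2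
        have m3 : Real.exp t ≤ Real.exp 1 := Real.exp_le_exp.2 t1
        have m4 : Real.exp (sF K G q (l j) (z0 j) + o) ≤
            Real.exp (2 * o) * Real.exp (sF K G q (l j) y.1) := by
          rw [← Real.exp_add]; exact Real.exp_le_exp.2 (by linarith [(os j _ d).2])
        have := th0 j
        refine le_of_mul_le_mul_right ?_ (mul_pos (Real.exp_pos (sF K G q (l j) y.1)) M0)
        calc _ = sP C K G q e y * Real.exp (sF K G q (l j) y.1) * M := by ring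
          _ ≤ Real.exp t * (M * fB C K G q e y) := m2
          _ ≤ Real.exp 1 * (thr j * (M * B ^ c * Real.exp (sF K G q (l j) (z0 j) + o)) * B ^ c) := by
            rw [th1 j]; gcongr
          _ ≤ Real.exp 1 * (thr j * (M * B ^ c *
              (Real.exp (2 * o) * Real.exp (sF K G q (l j) y.1))) * B ^ c) := by gcongr
          _ = _ := by rw [Real.exp_add]; ring
      have nO : ∀ j, ∀ y ∈ SH.near X (l j).w τ, y.1 ∈ col (l j) h r1 r2 → y ∉ L ∪ Oᶜ :=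
        fun j y a d m => m.elim (H.colC j y d a.2).1 fun m => m (Or.inl (s1 j y a d))
      have cg : ∀ (a : E → ℝ) (b : E → ℝ), (∀ y, q y ≠ 0 → a y = ‖q y‖ * b y) → ∀ j, ∀ y : E,
          y.1 ∈ col (l j) h r1 r2 →
          (y ∈ SH.near (SH.piece X O a (fun x => e * ‖q x‖ / 2) \ (L ∪ Oᶜ)) (l j).w τ ↔
            y ∈ SH.near {y | y ∈ X \ L ∧ b y ≤ e / 2} (l j).w τ) := fun a b ab j y d => by
        refine and_congr_left fun m => ?_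
        obtain ⟨a1, a2, -⟩ := H.colC j y d m
        have a3 := norm_pos_iff.2 a2
        have a4 : a y ≤ e * ‖q y‖ / 2 ↔ b y ≤ e / 2 := by
          rw [ab y a2, mul_comm e, mul_div_assoc, mul_le_mul_iff_right₀ a3]
        exact ⟨fun n => ⟨⟨n.1.1, a1⟩, a4.1 (n.1.2 (Or.inl (s1 j y ⟨n.1.1, m⟩ d)))⟩,
          fun n => ⟨⟨n.1.1, fun _ => a4.2 n.2⟩, nO j y ⟨n.1.1, m⟩ d⟩⟩
      refine ⟨R1 _ _ τ _ (fun _ => sP C K G q e) thr M lv M0 l0 (fun j y a d =>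
          ⟨nO j y ⟨a.1.1, a.2⟩ d, norm_nonneg _, ((H.colC j y d a.2).2.2 M M0.le).2.2⟩)
          (fun j => ⟨(th0 j).le, fun z hz => le_trans ?_ (th2 j z hz)⟩)
          (fun j => EP.congr (w := (l j).w) (H.hc.ok j) p2 H.rr
            (cg _ _ (fun y => pA_eq) j) (EE j).1) b1,
        R0 _ _ τ _ (fun _ => sP C K G q e) thr M lv M0 l0 (fun j y a d =>
          ⟨nO j y ⟨a.1.1, a.2⟩ d, norm_nonneg _, ((H.colC j y d a.2).2.2 M M0.le).2.1⟩)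
          (fun j => ⟨(th0 j).le, fun z hz => le_trans ?_ (th2 j z hz)⟩)
          (fun j => EP.congr (w := (l j).w) (H.hc.ok j) p2 H.rr
            (cg _ _ (fun y => F_eq) j) (EE j).2) b0,
        R2 X L τ _ (sp.setW w).φ (fun _ => 0) (e ^ c)⁻¹ lv (by positivity) l0 (fun j y a d => ?_)
          (fun j => ⟨le_rfl, fun z _ => by simpa using l0.le⟩) H.epK b2⟩
      · have := th0 j
        have m := (H.ccC j z hz).2
        have m' := (inv_pos.2 B0).trans_le m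
        rw [Real.exp_add, mul_comm (-c), ← Real.rpow_def_of_pos m', Real.rpow_neg m'.le,
          ← Real.inv_rpow m'.le]
        gcongr
        exact inv_le_of_inv_le₀ B0 m
      · have := th0 j
        gcongr
        exact le_mul_of_one_le_right (Real.exp_pos _).le Bc
      · obtain ⟨a1, -, -, a2⟩ := H.colK j y d a.2
        exact ⟨a1, mul_nonneg (norm_nonneg _) (norm_nonneg _), a2⟩)
  rintro x hx (a | a | a)
  · exact ⟨H.bc.nod x (f.sub (subset_closure a)), k4 x hx a⟩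
  · obtain ⟨g1, g2, -⟩ := H.bc.reg x (H.coreU a)
    have g5 := norm_pos_iff.2 g2
    refine ⟨g1, not_lt.1 fun m => ?_⟩
    rcases cs x hx a with n | n
    · exact absurd (k1 x n a) (not_le.2 (by rw [fB1]; positivity))
    · exact absurd (k2 x n a) (not_le.2 (by rw [fB0]; positivity))
  · obtain ⟨g1, g2⟩ := H.bc.reg' x (H.coreU' a)
    have g5 := norm_pos_iff.2 g2
    exact ⟨g1, not_lt.1 fun m => absurd (k3 x hx a) (not_le.2 (by rw [fBK]; positivity))⟩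

/-- the ending -/
theorem fin {A : Set E}
    (z : ∀ x ∈ X, x ∈ V ∨ x ∈ tube (core Γ l Sig r1 h) τ ∨
      x ∈ tube (core Γ' sp.l Sig' sp.r1 sp.h) τ → G x ≠ 0 ∧ fB C K G q e x ≤ 0)
    (m : ∀ j, ∀ z ∈ (sp.l j).near sp.h sp.r1, (sp.l j).side z → (z, w j z) ∈ A)
    (z1 : ∀ y ∈ X, y ∉ L → pA C K G q e y = 0 → y ∈ A ∨
      (∃ j, y.1 ∈ (l j).near h r1 ∧ ‖y.2 - (l j).w y.1‖ ≤ τ) ∨ ∃ j, y ∈ (sp.setW w).T τ' j)
    (z2 : ∀ y ∈ X, y ∉ L → C y = 0 →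
      y ∈ Γ ∨ ∃ j, (l j).k ≠ Kind.pt ∧ y ∈ (l j).gr ((l j).ann (Ioo (-h) 0)))
    (zr : ∀ j, (∀ y ∈ SH.near (X \ L) (l j).w τ, y.1 ∈ cc (l j) h r1 → sP C K G q e y = 0) →
      ∀ y ∈ SH.near (X \ L) (l j).w τ, y.1 ∈ (l j).near h r1 → y ∈ A ∪ Γ) :
    X ⊆ L ∪ (A ∪ Γ) := by
  have p2 := H.hg.hpos
  have p3 := H.hK.geo.hpos
  intro x hx
  refine or_iff_not_imp_left.2 fun hL => ?_
  have T1 : ∀ j, x.1 ∈ (l j).near h r1 → ‖x.2 - (l j).w x.1‖ ≤ τ → x ∈ A ∪ Γ := fun j a b =>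
    zr j (fun y c d => by
      have := cl_zero ((H.colC j y (PF.cc_col p2.le H.rr d) c.2).2.2 1 zero_le_one).1
        (z y c.1.1 (Or.inr (Or.inl (H.ccT d c.2)))).2
      simpa using this) x ⟨⟨hx, hL⟩, b⟩ a
  have T2 : ∀ j, x.1 ∈ (sp.l j).near sp.h sp.r1 → ‖x.2 - w j x.1‖ ≤ τ' → x ∈ A ∪ Γ :=
    fun j a b => by
      obtain ⟨a1, a2⟩ := (H.eK j).2 (fun y c d => by
        have d1 : y.1 ∈ col (sp.l j) sp.h sp.r1 sp.r2 := PF.cc_col p3.le H.rr' d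
        have d2 := (H.tub j y c.1 (col_near p3.le d1)).2 c.2
        obtain ⟨-, a1, a2, -⟩ := H.colK j y d1 d2
        have := cl_zero a2 (z y c.1.1 (Or.inr (Or.inr
          ⟨_, cc_core H.hK.curve H.hK.geo j d, rfl, d2⟩))).2
        rw [mul_one, mul_eq_zero, or_iff_left (Real.exp_ne_zero _), Sp.φ, mul_eq_zero,
          or_iff_left (b := ‖(sp.setW w).om j y.1‖ = 0) (norm_ne_zero_iff.2 a1), norm_eq_zero,
          sub_eq_zero] at this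
        exact this) x ⟨⟨hx, hL⟩, b⟩ a
      exact Or.inl (by rw [show x = (x.1, w j x.1) from Prod.ext rfl a1]; exact m j _ a a2)
  have T3 : G x ≠ 0 ∧ fB C K G q e x ≤ 0 → x ∈ A ∪ Γ := by
    rintro ⟨a, b⟩
    rw [fB, norm_le_zero_iff, div_eq_zero_iff, or_iff_left a, mul_eq_zero] at b
    rcases b with b | b
    · rcases z1 x hx hL b with d | ⟨j, d⟩ | ⟨j, d⟩
      exacts [Or.inl d, T1 j d.1 d.2, T2 j d.1 d.2]
    · rcases z2 x hx hL b with d | ⟨j, d1, d2⟩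
      · exact Or.inr d
      · refine T1 j ?_ (by rw [d2.2, sub_self, norm_zero]; exact H.pos.2.2.1.le)
        rw [End.near_loop d1]
        exact End.ann_mono (Ioo_subset_Icc_self.trans (Icc_subset_Icc_right p2.le)) d2.1
  rcases H.fr.cov x (H.sub ⟨hx, hL⟩) with a | a | a | ⟨j, a⟩ | ⟨j, a⟩
  · exact T3 (z x hx (Or.inl a))
  · exact T3 (z x hx (Or.inr (Or.inl a)))
  · exact T3 (z x hx (Or.inr (Or.inr a)))
  · exact T1 j (CF.mem_tube_gr.1 a).1 (CF.mem_tube_gr.1 a).2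
  · exact T2 j (CF.mem_tube_gr.1 a).1
      ((H.tub j x ⟨hx, hL⟩ (CF.mem_tube_gr.1 a).1).1 (CF.mem_tube_gr.1 a).2)

end Loc

theorem ex_le (L : List ℝ) (h : L.Forall fun a => 0 < a) :
    ∃ x > (0 : ℝ), L.Forall fun a => x ≤ a := by
  simp only [List.forall_iff_forall_mem] at h ⊢
  induction L with
  | nil => exact ⟨1, one_pos, by simp⟩
  | cons b L ih =>
    obtain ⟨x, a, c⟩ := ih fun a m => h a (List.mem_cons_of_mem _ m)
    exact ⟨min x b, lt_min a (h b (by simp)), List.forall_mem_cons.2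
      ⟨min_le_right _ _, fun a m => (min_le_left _ _).trans (c a m)⟩⟩

theorem w_le {a b d B : ℝ} (hB : 0 < B) (h0 : 0 < a) (h1 : a < B) (h2 : B⁻¹ < b) (h3 : B⁻¹ < d) :
    Real.exp (Real.log (a ^ 2 / (b ^ 2 * d))) ≤ B ^ 5 := by
  have i := inv_pos.2 hB
  have p1 := i.trans h2
  have p2 := i.trans h3
  rw [Real.exp_log (by positivity)]
  calc _ ≤ B ^ 2 / (B⁻¹ ^ 2 * B⁻¹) := by gcongr
    _ = _ := by field_simp

end CERTB

open CERTB in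
theorem st_certb : St_CERTB := by
  intro J J' _ _ C K G0 Q0 Γ Γ' l Sig Sig' h r1 c Λw k kK κ κ1 κ0 sp hc hg hK cG cq n1 n2 n3 c0
    hW s s1 s0 om P1 P2
  have p1 := hg.r1pos
  have p2 := hg.hpos
  have p3 := hK.geo.hpos
  have r0' := hK.r2.1
  have r4' : sp.r2 ≤ sp.r1 / 4 := by linarith [hK.r2.2]
  have hn : ∀ y ∈ Γ, y ∈ Γ' → y.1 ∈ Sig ∧ y.1 ∈ Sig' := fun y a b =>
    ⟨(n1 y a (hK.curve.zero y b)).2.1, (n1 y a (hK.curve.zero y b)).2.2.1⟩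
  have n4 : ∀ y ∈ Γ', C y = 0 → y.1 ∈ Sig' := fun y a b => (hn y (n2 y a b) a).2
  have ne : ∀ {a ρ : ℝ}, 0 < a → 0 < ρ → ∀ y ∈ core Γ l Sig ρ a, G0 y ≠ 0 ∧ Q0 y ≠ 0 :=
    fun a b y hy => by
      have m : y ∉ CF.ends l := fun ⟨j, m⟩ =>
        hy.2.2 j (End.gr_mono _ (End.circ_subset_nearO (hc.ok j) a b) m)
      exact ⟨fun d => m ((n3 y hy.1).1 d),
        fun d => ((n3 y hy.1).2 d).elim (SH.core_ne_sig b hy) m⟩
  obtain ⟨B, hB⟩ := SH.bpre CF.all_reg hc hg hK.curve hK.geo cG cq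
    (fun y a b => ⟨(n1 y a b).2.1, (n1 y a b).2.2.2⟩) n4 fun y a => (ne p2 p1 y a).1
  have B1 : 1 ≤ B := by
    obtain ⟨_, η, a, b⟩ := hB (r1 / 4) (by positivity) le_rfl (ne (by positivity) (by positivity))
    exact (b G0 Q0 fun y _ => by simp [a.le]).one
  have B0 : 0 < B := one_pos.trans_le B1
  have Bc : 1 ≤ B ^ c := Real.one_le_rpow B1 c0
  obtain ⟨M, hM⟩ : ∃ M, M = (2 * B ^ 3) ^ c := ⟨_, rfl⟩
  have M1 : 1 ≤ M ^ 4 := one_le_pow₀ (hM ▸ Real.one_le_rpow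
    (by linarith [one_le_pow₀ (n := 3) B1]) c0)
  have M2 : M ^ 4 ≤ Real.exp (Real.log (M ^ 4)) := (Real.exp_log (by linarith)).ge
  refine ⟨Real.exp (1 + 2 * |Λw * (1 + h)|) * (B ^ c * B ^ c), one_le_mul_of_one_le_of_one_le
    (Real.one_le_exp (by positivity)) (one_le_mul_of_one_le_of_one_le Bc Bc), fun Cu => ?_⟩
  obtain ⟨La, a1, ra, a2, Pa⟩ := pfit hc hg one_pos (k := k) (κ := κ) (by simpa using s) Λw Cu 0
  obtain ⟨Lb, -, rb, a3, Pb⟩ := pfit hc hg one_pos (k := fun j => k j + -c * kK j) (κ := κ1)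
    (le_of_eq_of_le (Finset.sum_congr rfl fun j _ => by ring) s1) (Λw + |-c| * Λw) Cu
    (Real.log (M ^ 4))
  obtain ⟨Lc, -, rc, a4, Pc⟩ := pfit hc hg one_pos (k := k) (κ := κ0) (by simpa using s0) Λw Cu
    (Real.log (M ^ 4))
  obtain ⟨r20, a5, a6, a7, a8, a9⟩ := ex_le [r1 / 4, ra, rb, rc] ⟨by positivity, a2, a3, a4⟩
  refine ⟨max La (max Lb Lc), le_max_of_le_left a1, r20, a5, fun Λ0 hΛ r2 r0 hr θ1 t1 => ?_⟩
  have r4 : r2 ≤ r1 / 4 := hr.trans a6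
  have rr : r2 ≤ r1 := by linarith
  simp only [ge_iff_le, max_le_iff] at hΛ
  obtain ⟨q0, η, η0, hη⟩ := hB r2 r0 r4 (ne (by positivity) r0)
  have q1 : 0 < q0 := (hη G0 Q0 fun y _ => by simp [η0.le]).pos
  obtain ⟨θ, ⟨⟨v1, v2⟩, v3⟩, θ0⟩ := ((((small (16 * B ^ 5 * B ^ 3) (pow_pos q1 2)).and
    (small (1 + B ^ 5 * (B ^ 3 / q0 ^ 2)) t1)).and
    (small ((1 + B ^ 5 * (B ^ 3 / q0 ^ 2)) * (Real.exp Cu * (r1 / r2) ^ ∑ j, |κ j|))
      (by norm_num : (0 : ℝ) < 1 / 16))).and self_mem_nhdsWithin).exists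
  replace θ0 : 0 < θ := θ0
  refine ⟨θ, θ0, η, η0, fun G q pG pq hGq g1 g2 hW' S cS S1 S2 => ?_⟩
  have bp := hη G q hGq
  obtain ⟨t, ⟨⟨⟨⟨⟨Ra, Rb⟩, Rc⟩, Rd⟩, Re⟩, t1'⟩, t0⟩ := (((((((rg_of
    (Pa r2 r0 (hr.trans a7) _ Λ0 hW' hΛ.1) hc hg r0 r4 le_rfl (by simp)).and
    (rg_of (Pb r2 r0 (hr.trans a8) _ Λ0 (fun j => st_lw.1 _ _ _ _ _ _ _ _ _ (-c) (hW' j) (hW j))
      hΛ.2.1) hc hg r0 r4 M1 M2)).and
    (rg_of (Pc r2 r0 (hr.trans a9) _ Λ0 hW' hΛ.2.2) hc hg r0 r4 M1 M2)).and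
    (rg_of P1 hK.curve hK.geo r0' r4' le_rfl (by simp))).and
    (rg_of P2 hK.curve hK.geo r0' r4' le_rfl (by simp))).and
    (mem_nhdsWithin_of_mem_nhds (Iic_mem_nhds one_pos))).and self_mem_nhdsWithin).exists
  obtain ⟨cA, R1, b1, d1⟩ := away hc hg r0 r4 cS S1
  obtain ⟨cA', R2, b2, d2⟩ := away hK.curve hK.geo r0' r4' cS S2
  obtain ⟨R0, b3, b4, b5⟩ := ex_le [R1, R2] ⟨b1, b2⟩
  have o : IsOpen (cthickening R0 S)ᶜ := isClosed_cthickening.isOpen_compl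
  replace d1 := union_subset_iff.1 (d1.trans (compl_subset_compl.2 (cthickening_mono b4 S)))
  replace d2 := union_subset_iff.1 (d2.trans (compl_subset_compl.2 (cthickening_mono b5 S)))
  obtain ⟨τ1, e1, U, U', W, -, u1, u2, u3, u4, hf⟩ := SH.bframe CF.all_vb CF.st_shell CF.all_tube
    CF.all_reg hc hg hK.curve hK.geo pG.continuous pq.continuous hn n4 g1 (fun y a b u hu => by
      obtain ⟨j, m⟩ := g2 y a b
      linarith [hg.sig j _ (near_two hg j m.1) u hu]) r0 r4 r0' r4' bp o o o d1.1 d2.1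
    (union_subset d1.2 d2.2)
  have nz : ∀ y ∈ core Γ l Sig r2 (h / 16), G y ≠ 0 ∧ K y ≠ 0 ∧ q y ≠ 0 := fun y hy =>
    ⟨(bp.reg y hy).1, (bp.reg y hy).2.1, norm_pos_iff.1 (q1.trans (bp.reg y hy).2.2.2.2.2)⟩
  have nz' : ∀ y ∈ core Γ' sp.l Sig' sp.r2 (sp.h / 16),
      K y = 0 ∧ G y ≠ 0 ∧ C y ≠ 0 ∧ dw K y ≠ 0 := fun y hy =>
    ⟨hK.curve.zero y hy.1, g1 y hy.1, fun m => SH.core_ne_sig r0' hy (n4 y hy.1 m),
      fun m => SH.core_ne_sig r0' hy (hK.geo.br ⟨y, hy.1, m, rfl⟩)⟩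
  obtain ⟨τ2, e2, f2⟩ := SH.tube_sub cA (o.inter (isOpen_ne_fun pq.continuous continuous_const))
    fun y hy => ⟨d1.1 hy, (nz y hy).2.2⟩
  obtain ⟨τ3, e3, f3⟩ := SH.tube_sub cA' o d2.1
  obtain ⟨τ4, e4, f4⟩ := cmpC cA hK.curve.poly.continuous pG.continuous pq.continuous nz t0 c0
  obtain ⟨τ5, e5, f5⟩ := cmpK cA' hc.poly hK.curve.poly pG pq nz' t0 c0
  obtain ⟨τ6, e6, f6, -⟩ := iso hc hg hK.curve.cpt fun y a b => (hn y (n2 y a b) a).1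
  obtain ⟨τ7, e7, f7, f8⟩ := iso hK.curve hK.geo hc.cpt fun y a b => (n1 y a b).2.2.1
  obtain ⟨τ0, e0, m1, m2, m3, m4, m5, m6, m7⟩ := ex_le [τ1, τ2, τ3, τ4, τ5, τ6 / 2, τ7 / 2]
    ⟨e1, e2, e3, e4, e5, half_pos e6, half_pos e7⟩
  replace m7 : τ0 ≤ τ7 / 2 := m7
  refine ⟨τ0, e0, fun τ τ' x1 x2 x3 x4 => ?_⟩
  obtain ⟨bc, R3, b6, V, fr⟩ := hf τ x1 (x2.trans m1)
  obtain ⟨R4, b7, f9⟩ := f8 (min τ τ' / 2) (by positivity)
  obtain ⟨R5, b8, z1⟩ := CF.st_znear J C Γ l hc h p2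
  obtain ⟨R6, b9, z2⟩ := SH.zero_near hc.poly.continuous hK.curve.cpt n2 b8
  obtain ⟨R, R0', y1, y2, y3, y4, y5, y6, y7⟩ := ex_le [R0, R3 / 2, R4, R6 / 2, B⁻¹, τ5, τ' / 2]
    ⟨b3, half_pos b6, b7, half_pos b9, inv_pos.2 B0, e5, half_pos x3⟩
  replace y7 : R ≤ τ' / 2 := y7
  refine ⟨R, R0', fun e w A X L i1 i2 hw st hL hX zer so eK => ?_⟩
  have oL : ∀ x ∈ (cthickening R0 S)ᶜ, x ∉ L := fun x a b => a (cthickening_mono y1 S (hL b))
  have H : Loc C K G q Γ Γ' l Sig Sig' h r1 r2 c B q0 sp e τ τ' t w _ U U' W V X L :=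
    { hc := hc, hg := hg, hK := hK, pG := pG, pq := pq, hr := ⟨r0, r4⟩
      pos := ⟨i1, i2.trans y5, x1, c0, t1', q1⟩
      std := st, fr := fr, bc := bc, qU := u4, eK := eK
      sub := hX.trans (cthickening_subset_thickening' b6 (by linarith) _)
      off := fun x a => oL x (union_subset (union_subset u1 u2) u3 a)
      colC := fun j x a b => by
        have m := col_core hc hg rr j a
        have n := f2 (a := x) ⟨_, m, rfl, b.trans (x2.trans m2)⟩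
        exact ⟨oL x n.1, n.2, f4 _ m x rfl (b.trans (x2.trans m4)) C e⟩
      ccC := fun j z a => by
        obtain ⟨w1, w2, w3⟩ := bp.core _ (cc_core hc hg j a)
        refine ⟨?_, w1.le⟩
        rw [sF, End.res, norm_div, norm_mul, norm_pow, norm_pow]
        exact w_le B0 (norm_pos_iff.2 (nz _ (col_core hc hg rr j (PF.cc_col p2.le rr a))).2.2)
          w3 w2 w1
      isoC := fun j y a b d => by
        have := f6 j y (Or.inl a) b (by linarith)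
        exact ⟨this.1, this.2.1⟩
      isoK := fun j y a b => not_le.1 fun d => (f7 j y (Or.inr a) b (by linarith)).2.2 a
      colK := fun j x a b => by
        have m := col_core hK.curve hK.geo (by linarith) j a
        obtain ⟨w1, w2, -⟩ := hw j x.1 (col_near p3.le a)
        have n := f5 _ m x rfl (b.trans (x2.trans m5)) e (w j x.1) i1 (i2.trans y6) (w1.trans y6) w2
        have e : (sp.setW w).φ j x = ‖x.2 - w j x.1‖ * ‖dw K (x.1, (sp.l j).w x.1)‖ := by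
          rw [show dw K (x.1, (sp.l j).w x.1) = sp.om j x.1 by rw [om j]; rfl]; rfl
        rw [e, om j]
        exact ⟨oL x (f3 ⟨_, m, rfl, b.trans (x2.trans m3)⟩), (nz' _ m).2.2.2, n⟩
      tub := fun j x a b => by
        have m := f9 j x (union_comm Γ Γ' ▸ cthickening_mono y3 _ (hX a)) b
        have w1 := (hw j x.1 b).1
        have w2 := norm_sub_le_norm_sub_add_norm_sub x.2 (w j x.1) ((sp.l j).w x.1)
        have w3 := norm_sub_le_norm_sub_add_norm_sub x.2 ((sp.l j).w x.1) (w j x.1)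
        rw [norm_sub_rev ((sp.l j).w x.1)] at w3
        have w4 := min_le_left τ τ'
        have w5 := min_le_right τ τ'
        exact ⟨fun d => by linarith [m (by linarith)], fun d => by linarith [m (by linarith)]⟩ }
  have v4 : 0 ≤ θ * (B ^ 5 * (B ^ 3 / q0 ^ 2)) := by positivity
  obtain ⟨k1, k2, k3⟩ := H.b1 Ra Rd θ0.le fun j => (so j).b1
  obtain ⟨k4, k5, k6⟩ := H.sep (θ2 := θ * (1 + B ^ 5 * (B ^ 3 / q0 ^ 2))) (s := ∑ j, |κ j|)
    (by linarith) (by positivity) (by linarith) (by linarith) (by linarith)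
    (fun j => Finset.single_le_sum (f := fun j => |κ j|) (fun _ _ => abs_nonneg _)
      (Finset.mem_univ j)) (fun j => (so j).b1) k1 k2 k3
  exact H.fin (H.b2 hM Rb Rc Re hW' k5 k6 fun j => (so j).b2 fun y a b => (k4 j y a b).trans
      (mul_le_mul_of_nonneg_right v2.le (sq_nonneg e)))
    (fun j z a => (hw j z a).2.2) zer
    (fun y a b d => z1 y (z2 y (cthickening_subset_thickening' b9 (by linarith) _ (hX ⟨a, b⟩)) d) d)
    fun j => (so j).zr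

end Pool.Agent.S6
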