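import Pool.Agent.Lib.S6.Site2
import Pool.Agent.Lib.S6.Ends2
import Pool.Agent.Lib.SH.All1

/-!
The basic facts in the chart of a loop.
-/

open Set Filter Topology Metric

noncomputable section

namespace Pool.Agent.S6

open Pool.Agent.CF (End Kind)
open Pool.Agent.Lib Pool.Agent.Lib.SH Pool.Agent.S6.ENDS

namespace CHB

theorem norm_hq (l : End) (hr : 0 < l.r) {x : ℂ} (hx : ‖x‖ = 1) (s t : ℝ) :
    ‖hq l x s t - l.c‖ = l.r * Real.exp (-s) := by
  rw [hq, add_sub_cancel_left, norm_mul, norm_mul, hx, Complex.norm_exp, Complex.norm_real,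
    Real.norm_of_nonneg hr.le]
  simp

theorem port_in (l : End) (hr : 0 < l.r) {x z : ℂ} (hx : ‖x‖ = 1) {δ L t : ℝ} (hδ : 0 < δ)
    (ht : t + 1 ≤ L) (hz : z ∈ closedBall (hq l x δ 0) (2 * l.r * δ * Real.exp (-δ - L) * Real.exp t)) :
    ‖z - l.c‖ ≤ l.r := by
  have h1 := norm_sub_le_norm_sub_add_norm_sub z (hq l x δ 0) l.c
  rw [norm_hq l hr hx] at h1
  rw [mem_closedBall_iff_norm] at hz
  have h2 : Real.exp (-δ - L) * Real.exp t = Real.exp (-δ) * Real.exp (t - L) := by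
    rw [← Real.exp_add, ← Real.exp_add]; ring_nf
  have h3 : 2 * Real.exp (t - L) ≤ 1 := by
    have a1 := Real.add_one_le_exp (L - t)
    have a2 : Real.exp (t - L) * Real.exp (L - t) = 1 := by rw [← Real.exp_add]; simp
    nlinarith [Real.exp_pos (t - L)]
  have h4 : Real.exp (-δ) * (1 + δ) ≤ 1 := by
    have a1 := Real.add_one_le_exp δ
    have a2 : Real.exp (-δ) * Real.exp δ = 1 := by rw [← Real.exp_add]; simp
    nlinarith [Real.exp_pos (-δ)]
  rw [mul_assoc, h2] at hz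
  have h5 := mul_le_mul_of_nonneg_left h3 (show 0 ≤ l.r * δ * Real.exp (-δ) by positivity)
  have h6 := mul_le_mul_of_nonneg_left h4 hr.le
  nlinarith

end CHB

theorem st_chb : St_CHB := by
  intro s l one L h τ a π π' _ x δ x' lm Tw E1 T X K hah hx hL _ ho r hc
  obtain ⟨hk, hr, -, -⟩ := r.wall.lk
  obtain ⟨ha, -, hR, hδ, -⟩ := r.num'
  have sub : l.ann (Icc (-a) h) ⊆ l.ann (Icc (-h) h) :=
    End.ann_mono (Icc_subset_Icc (by linarith) le_rfl)
  have h1 : NP (near X s.w s.R) K (l.ann (Icc (-a) h)) := Win.np_near r.std.cX r.std.np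
    (End.isCompact_ann hr isCompact_Icc).isClosed (fun z hz => (r.cmp z hz).1.continuousAt)
    fun y hy hk hz e => (r.tube y ⟨hy, e.le.trans hR⟩ hk (sub hz)).1.ne e
  have h3 : ov (near X s.w s.R) (l.ann (Icc (-h) h)) = ov (near X s.w s.R) (l.ann (Icc (-a) h)) :=
    Set.ext fun y => ⟨fun hy => ⟨hy.1, hy.2.1, hc y hy.1 hy.2, hy.2.2.2⟩, fun hy => ⟨hy.1, sub hy.2⟩⟩
  have h2 : NP (near X s.w s.R) K (l.ann (Icc (-h) h)) := by rw [NP, h3]; exact h1
  refine ⟨st_pull _ _ _ (AN h h) (ech l) h2 (isCompact_AN _ _) fun z hz =>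
    ⟨(ech_der hr (an_ne hz)).1, fun e => (ech_ne hr (an_ne hz)).1 (sub_eq_zero.1 (by
      rcases (ech_der hr (an_ne hz)).2 with b | b <;> rw [e, mul_zero] at b
      · exact b.symm
      · exact neg_eq_zero.1 b.symm)), (ech_AN hr (an_ne hz)).2 hz⟩, fun h1' y hy b1 b2 => ?_⟩
  have hz : y.1 ∈ AN h h := ⟨b1, b2⟩
  have h4 := all_up _ K l h 0 hk hr (by linarith) h2 (by linarith) (by linarith) (fun v hv =>
    ⟨fun hK => ?_, by linarith [hc v hv.1 hv.2]⟩) (bc (ech l) y) ⟨hy, (ech_AN hr (an_ne hz)).2 hz⟩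
  · change 0 ≤ l.dep (ech l y.1) at h4
    rw [(ech_ne hr (an_ne hz)).2] at h4
    exact (Real.log_nonpos_iff (norm_nonneg _)).1 (by linarith)
  · rcases (r.kd1 v hv.1 hK (h3 ▸ hv : v ∈ ov _ (l.ann (Icc (-a) h))).2).1 with b | ⟨k, b⟩
    · have := b.2.1
      rwa [if_pos h1'] at this
    · have b3 := CHB.port_in l hr (hx k) hδ (by linarith [r.num.y2.2.2.2]) b
      have b4 : (l.sgn : ℝ) = -1 := by simp [End.sgn, (r.out.1 h1').1]
      rw [End.dep, b4, neg_one_mul, neg_nonneg]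
      exact Real.log_nonpos (by positivity) ((div_le_one hr).2 b3)

end Pool.Agent.S6
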