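import Pool.Agent.Lib.S6.Blue3
import Pool.Agent.Lib.CF.All3

open Set Filter Topology Metric

noncomputable section

namespace Pool.Agent.S6

open Pool.Agent.CF (End Kind IsCurve Half Priv Cv Nodal HasWind SameW Geo)

namespace GEOW

theorem ev_lt {ε : ℝ} (hε : 0 < ε) (c : ℝ) : ∀ᶠ δ in 𝓝[>] (0 : ℝ), c * δ < ε := by
  have h : ContinuousAt (fun δ : ℝ => c * δ) 0 := by fun_prop
  exact (h.eventually (gt_mem_nhds (by simpa using hε))).filter_mono nhdsWithin_le_nhds

theorem fin_brv {A : Cv} (h : IsCurve A.P A.Γ A.e) : (CF.brv A.P A.Γ).Finite :=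
  (((CF.st_fib _ _ _ _ h).2).image Prod.fst).subset fun _ ⟨y, a1, a2, a3⟩ => ⟨y, ⟨a1, a2⟩, a3⟩

theorem exp_up {s : ℝ} (h0 : 0 ≤ s) (h1 : s ≤ 3 / 16) : Real.exp (-s) ≤ 1 - 13 / 16 * s := by
  have b := Real.abs_exp_sub_one_sub_id_le (x := -s) (by rw [abs_neg, abs_of_nonneg h0]; linarith)
  nlinarith [(abs_le.1 b).2]

theorem tri (z b c : ℂ) : ‖z - c‖ ≤ ‖z - b‖ + ‖b - c‖ := norm_sub_le_norm_sub_add_norm_sub z b c

end GEOW

open GEOW HP

theorem st_geow : St_GEOW := by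
  classical
  intro C K Nd TC TK D a Z q G π _ x hA hZ hx
  have h := hA.hC
  have hr := R_pos h
  have hk := hub_loop h
  have f0 : (CF.brv C.P C.Γ ∪ CF.brv K.P K.Γ ∪ Prod.fst '' (Nd : Set E) ∪
      Prod.fst '' (Z : Set E)).Finite :=
    (((fin_brv h.curve).union (fin_brv hA.hK.curve)).union (Nd.finite_toSet.image _)).union
      (Z.finite_toSet.image _)
  obtain ⟨S0, hS0⟩ := f0.exists_finset_coe
  obtain ⟨d, hd, hG⟩ := CF.st_geo _ C.P C.Γ C.e S0 h.curve
    (by rw [hS0]; exact fun b hb => Or.inl (Or.inl (Or.inl hb))) (by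
      rw [hS0]
      rintro b (((hb | hb) | ⟨y, hy, rfl⟩) | ⟨y, hy, rfl⟩) j
      · exact h.off.1 b hb j
      · exact hA.hK.off.2 b hb j
      · exact (hA.off y hy).1 j
      · exact (hZ.2 y hy).2.2.2.2 j)
  have g0 := hG (d / 2) (d / 2) (half_pos hd) (half_lt_self hd) (half_pos hd) (half_lt_self hd)
  have n0 : C.hub.near (2 * (d / 2)) (2 * (d / 2)) ∈ 𝓝ˢ C.hub.circ := by
    refine mem_of_superset ((End.isOpen_nearO (h.curve.ok C.H) d d).mem_nhdsSet.2 fun z hz => ?_)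
      (End.nearO_subset_near _ (by linarith) (by linarith))
    show z ∈ C.hub.nearO d d
    rw [End.nearO_loop hk]
    obtain ⟨a1, a2⟩ := (End.mem_circ hr).1 hz
    exact ⟨a1, by rw [a2]; exact ⟨by linarith, hd⟩⟩
  obtain ⟨-, ⟨a0, ha0, harc⟩, -⟩ := CF.st_arc _ _ _ _ h hA.hK
  have far : ∀ j k, ∀ᶠ δ in 𝓝[>] (0 : ℝ), j ≠ C.H →
      ∀ z ∈ (C.e j).near (2 * (δ / 100)) (2 * (C.R * δ / 100)),
        6 * C.R * δ < ‖z - (C.c + C.R * x k)‖ := by
    intro j k
    by_cases e : j = C.H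
    · exact Eventually.of_forall fun _ f => absurd e f
    obtain ⟨a1, a2⟩ := (End.mem_circ hr).1 (bp_mem hr (hx.2 k).1)
    have a3 := (harc _ ⟨a1, by rw [a2]; exact ⟨by linarith, ha0.le⟩⟩
      (win_far (δ := 0) h (hx.2 k).2 (by norm_num) (by simp)).le).2.2.1 j e
    obtain ⟨ε, hε, a4⟩ : ∃ ε > 0, (C.e j).r + 2 * ε ≤ ‖C.c + C.R * x k - (C.e j).c‖ :=
      ⟨(‖C.c + C.R * x k - (C.e j).c‖ - (C.e j).r) / 2, by linarith, by linarith⟩
    obtain ⟨s, hs, a5⟩ := End.shrink (h.curve.ok j)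
      (N := {z | ε < ‖z - (C.c + C.R * x k)‖})
      ((isOpen_lt continuous_const (by fun_prop)).mem_nhdsSet.2 fun z hz => by
        have b1 : ‖z - (C.e j).c‖ = (C.e j).r := mem_sphere_iff_norm.1 hz
        have b2 := tri (C.c + C.R * x k) z (C.e j).c
        rw [norm_sub_rev _ z] at b2
        show ε < _
        linarith)
    filter_upwards [ev_lt hε (6 * C.R), ev_lt hs (1 / 50), ev_lt hs (C.R / 50)] with δ b1 b2 b3 _ z hz
    exact b1.trans (a5 _ _ (by linarith) (by linarith) hz)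
  have sep : ∀ k k', ∀ᶠ δ in 𝓝[>] (0 : ℝ), k ≠ k' →
      20 * C.R * δ < ‖C.c + C.R * x k - (C.c + C.R * x k')‖ := by
    intro k k'
    by_cases e : k = k'
    · exact Eventually.of_forall fun _ f => absurd e f
    refine (ev_lt (norm_pos_iff.2 (sub_ne_zero.2 fun f => e (hx.1 (mul_left_cancel₀
      (Complex.ofReal_ne_zero.2 hr.ne') (add_left_cancel f))))) _).mono fun _ f _ => f
  filter_upwards [win_nhds hr n0, eventually_all.2 fun j => eventually_all.2 (far j),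
    eventually_all.2 fun k => eventually_all.2 (sep k), ev_lt hd C.R, ev_lt hd 1,
    Ioc_mem_nhdsGT (show (0 : ℝ) < 1 / 8 by norm_num)] with δ c1 c2 c3 c4 c5 ⟨h0, h1⟩
  have rδ := mul_pos hr h0
  have g := hG (C.R * δ / 100) (δ / 100) (by positivity) (by linarith) (by positivity) (by linarith)
  obtain ⟨u, hu⟩ : ∃ u : π → ℂ, u = fun k => hp C (x k) (Real.sqrt 2 * δ) (-δ) := ⟨_, rfl⟩
  obtain ⟨p, hp'⟩ : ∃ p : π → ℂ, p = fun k => hp C (x k) δ 0 := ⟨_, rfl⟩
  have s2 : 7 / 5 ≤ Real.sqrt 2 := Real.le_sqrt_of_sq_le (by norm_num)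
  have s3 := sqrt2.2
  have u1 : ∀ k, ‖u k - (C.c + C.R * x k)‖ ≤ 5 * C.R * δ := fun k => hu ▸
    hp_near hr (hx.2 k).1 h1 (by rw [abs_of_pos (by positivity)]; nlinarith)
      (by rw [abs_neg, abs_of_pos h0])
  have u2 : ∀ k, ‖u k - C.c‖ ≤ C.R - 9 / 8 * (C.R * δ) := fun k => by
    have b := exp_up (s := Real.sqrt 2 * δ) (by positivity) (by nlinarith)
    have b2 := mul_le_mul_of_nonneg_left b hr.le
    rw [hu, norm_hp hr (hx.2 k).1]
    nlinarith [mul_le_mul_of_nonneg_right s2 rδ.le]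
  have p1 : ∀ k z, z ∈ closedBall (p k) (2 * (C.R * δ / 100)) →
      ‖z - (C.c + C.R * x k)‖ ≤ 5 * C.R * δ ∧ ‖z - C.c‖ ≤ C.R - 3 / 4 * (C.R * δ) ∧
        C.R - 51 / 50 * (C.R * δ) ≤ ‖z - C.c‖ := fun k z hz => by
    have b0 := mem_closedBall_iff_norm.1 hz
    have b1 : ‖p k - C.c‖ = C.R * Real.exp (-δ) := hp' ▸ norm_hp hr (hx.2 k).1 _ _
    have b2 := mul_le_mul_of_nonneg_left (exp_up h0.le (by linarith)) hr.le
    have b3 := mul_le_mul_of_nonneg_left (Real.add_one_le_exp (-δ)) hr.le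
    have b4 := tri z (p k) C.c
    have b5 := tri (p k) z C.c
    rw [norm_sub_rev (p k) z] at b5
    refine ⟨(win_in hr (hx.2 k).1 h0 h1 ?_).2, by linarith, by linarith⟩
    rw [hp'] at b0
    exact b0.trans (by linarith)
  have p2 : ∀ k z, z ∈ closedBall (p k) (2 * (C.R * δ / 100)) →
      z ∈ C.hub.near (2 * (d / 2)) (2 * (d / 2)) := fun k z hz => c1 _ z (hx.2 k).1 (p1 k z hz).1
  have q1 : ∀ z ∈ C.hub.near (2 * (δ / 100)) (2 * (C.R * δ / 100)),
      C.R - 1 / 50 * (C.R * δ) ≤ ‖z - C.c‖ := fun z hz => by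
    rw [End.near_loop hk] at hz
    have b1 : ‖z - C.c‖ = C.R * Real.exp (C.hub.sgn * C.hub.dep z) := End.norm_eq_rad hr hz.1
    have b2 : (C.hub.sgn : ℝ) = -1 := by simp [End.sgn, h.out]
    have b3 := mul_le_mul_of_nonneg_left (Real.add_one_le_exp (C.hub.sgn * C.hub.dep z)) hr.le
    rw [b1]
    rw [b2] at b3 ⊢
    nlinarith [mul_le_mul_of_nonneg_left hz.2.2 hr.le]
  have e1 : ∀ k, (winS C K π a q G x δ).e (Sum.inr k) = ⟨p k, 0, Kind.pt, C.hub.w⟩ := fun k => by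
    rw [hp']; rfl
  have e2 : ∀ k s t, ((winS C K π a q G x δ).e (Sum.inr k)).near s t = closedBall (p k) t :=
    fun k s t => by rw [e1]; exact End.near_pt rfl _ _
  have mS : ∀ b, b ∈ S0 ∪ Finset.univ.image u → b ∈ S0 ∨ ∃ k, u k = b := fun b hb => by
    simpa using hb
  have us : ∀ k, ∀ b ∈ S0, d < ‖u k - b‖ := fun k b hb => by
    have := g0.sig C.H _ (c1 _ _ (hx.2 k).1 (u1 k)) b hb
    linarith
  have dj : ∀ j k, Disjoint ((C.e j).gr ((C.e j).near (2 * (δ / 100)) (2 * (C.R * δ / 100))))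
      (((winS C K π a q G x δ).e (Sum.inr k)).gr
        (((winS C K π a q G x δ).e (Sum.inr k)).near (2 * (δ / 100)) (2 * (C.R * δ / 100)))) := by
    intro j k
    rw [e2, Set.disjoint_left]
    intro y b1 b2
    obtain ⟨b3, b4, -⟩ := p1 k _ b2.1
    by_cases e : j = C.H
    · subst e
      linarith [q1 _ b1.1]
    · linarith [c2 j k e _ b1.1]
  refine ⟨S0 ∪ Finset.univ.image u, ⟨g.r1pos, g.hpos, fun b hb => ?_, fun b hb b' hb' ne => ?_,
    ?_, ?_, ?_, ?_, ?_⟩, fun b hb => ?_, fun y hy => ?_, fun y hy => ?_⟩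
  · exact Finset.mem_coe.2 (Finset.mem_union_left _ (g.br hb))
  · rcases mS b hb with b1 | ⟨k, rfl⟩ <;> rcases mS b' hb' with b2 | ⟨k', rfl⟩
    · exact g.dd b b1 b' b2 ne
    · rw [norm_sub_rev]; linarith [us k' b b1]
    · linarith [us k b' b2]
    · have b3 := c3 k k' fun f => ne (by rw [f])
      have b4 := tri (C.c + C.R * x k) (u k) (C.c + C.R * x k')
      have b5 := tri (u k) (u k') (C.c + C.R * x k')
      rw [norm_sub_rev _ (u k)] at b4
      linarith [u1 k, u1 k']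
  · rintro (j | k)
    · exact g.wan j
    · rw [e2]; exact fun z hz => g0.wan C.H z (p2 k z hz)
  · rintro (j | k)
    · exact g.wz j
    · rw [e2]; exact fun z hz => g0.wz C.H z (p2 k z hz)
  · rintro (j | k)
    · exact g.loc j
    · rw [e2, e1]
      intro z hz
      have b1 : ∀ᶠ y : E in 𝓝 (z, C.hub.w z), ‖y.1 - C.c‖ < C.R :=
        (isOpen_lt (by fun_prop) continuous_const).mem_nhds
          (show ‖z - C.c‖ < C.R by linarith [(p1 k z hz).2.1])
      filter_upwards [g0.loc C.H z (p2 k z hz), b1] with y b2 b3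
      exact b2.trans (and_congr Iff.rfl (iff_of_true ⟨fun _ => b3.le, fun f =>
        absurd (h.out.symm.trans f) (by decide)⟩ (End.side_pt rfl _)))
  · rintro (j | k) z hz b hb
    · rcases mS b hb with b1 | ⟨k, rfl⟩
      · exact g.sig j z hz b b1
      · by_cases e : j = C.H
        · subst e
          linarith [q1 z hz, u2 k, tri z (u k) C.c]
        · linarith [c2 j k e z hz, u1 k, tri z (u k) (C.c + C.R * x k)]
    · rw [e2] at hz
      rcases mS b hb with b1 | ⟨k', rfl⟩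
      · linarith [g0.sig C.H z (p2 k z hz) b b1]
      · by_cases e : k = k'
        · subst e
          linarith [(p1 k z hz).2.2, u2 k, tri z (u k) C.c]
        · have b4 := tri (C.c + C.R * x k) z (C.c + C.R * x k')
          rw [norm_sub_rev _ z] at b4
          linarith [c3 k k' e, (p1 k z hz).1, u1 k', tri z (u k') (C.c + C.R * x k')]
  · rintro (j | k) (j' | k') ne
    · exact g.disj fun f => ne (congrArg Sum.inl f)
    · exact dj j k'
    · exact (dj j' k).symm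
    · rw [e2, e2, Set.disjoint_left]
      intro y b1 b2
      have b4 := tri (C.c + C.R * x k) y.1 (C.c + C.R * x k')
      rw [norm_sub_rev _ y.1] at b4
      linarith [c3 k k' fun f => ne (congrArg Sum.inr f), (p1 k _ b1.1).1, (p1 k' _ b2.1).1]
  · refine Finset.mem_coe.2 (Finset.mem_union_left _ (Finset.mem_coe.1 ?_))
    rw [hS0]; exact Or.inl (Or.inl (Or.inr hb))
  · refine Finset.mem_union_left _ (Finset.mem_coe.1 ?_)
    rw [hS0]; exact Or.inl (Or.inr ⟨y, hy, rfl⟩)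
  · rcases Finset.mem_union.1 hy with b1 | b1
    · refine Finset.mem_union_left _ (Finset.mem_coe.1 ?_)
      rw [hS0]; exact Or.inr ⟨y, b1, rfl⟩
    · obtain ⟨k, -, rfl⟩ := Finset.mem_image.1 b1
      exact Finset.mem_union_right _ (Finset.mem_image.2 ⟨k, Finset.mem_univ _, by rw [hu]⟩)

open CF.ADDP in
theorem st_addk : St_ADDK := by
  classical
  intro A B Nd T T' D π _ x δ hW h hx
  have a := h.hK
  have b := h.hC
  have hr := R_pos a
  have h0 : 0 < A.R * δ / 4 := by have := hW.pos.1; positivity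
  obtain ⟨p, hp'⟩ : ∃ p : π → ℂ, p = fun k => hp A (x k) δ 0 := ⟨_, rfl⟩
  have pv : ∀ k, Priv A B (p k) 0 A.hub.w := fun k => hp' ▸ CF.PRIVO.mono (hW.priv k) h0.le
  have pn : ∀ k j, (A.e j).k = Kind.pt → (A.e j).c ≠ p k := fun k j e => hp' ▸
    ((hW.good k _ (hW.self hr k)).2.2.2.2 j e).symm
  have pw : ∀ k, HasWind ⟨p k, 0, Kind.pt, A.hub.w⟩ ((born A π x δ).lam (Sum.inr k)) 1 :=
    fun k => hp' ▸ Pole.wind (hW.pole hr k) (closedBall_mem_nhds _ h0)
  have hs : ∀ j, j ≠ A.H → (born A π x δ).lam (Sum.inl j) = A.lam j := fun j e => born_lam_ne e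
  have hH : ∃ k, HasWind A.hub (A.lam A.H) k ∧
      HasWind A.hub ((born A π x δ).lam (Sum.inl A.H)) (k - Fintype.card π) := by
    obtain ⟨k, c, -⟩ := a.lam A.H
    have s : A.hub.sgn = -1 := by simp [End.sgn, a.out]
    have d : ∀ k, HasWind A.hub (fun z => (z - hp A (x k) δ 0) / (z - hp A (x k) (-δ) 0)) 1 :=
      fun k => ((HasWind.lin_in (win_in hr (hx.2 k).1 hW.pos.1 hW.pos.2 (hW.self hr k)).1).div
        (HasWind.lin_out (win_out hr (hx.2 k).1 (neg_lt_zero.2 hW.pos.1) 0) hr.le)).cast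
        (by simp [s])
    exact ⟨k, c, ((HasWind.div c (HasWind.prod Finset.univ fun k _ => d k)).congr'
      fun z => if_pos rfl).cast (by simp)⟩
  have ee : (born A π x δ).e = Sum.elim A.e fun k => (⟨p k, 0, Kind.pt, A.hub.w⟩ : End) := by
    rw [hp']; rfl
  have m0 : ∀ k, p k ∈ closedBall (p k) 0 := fun k => mem_closedBall_self le_rfl
  have nK : ∀ k, ∀ y ∈ B.Γ, y.1 ≠ p k := fun k y hy e => (pv k).none y hy (e ▸ m0 k)
  have cq : ∀ k z, z ∈ ((born A π x δ).e (Sum.inr k)).circ → z = p k := fun k z hz => by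
    rw [ee] at hz; exact circ_eq hz
  obtain ⟨n, hn, hsum⟩ := a.tot
  refine ⟨⟨b.curve, b.out, b.cen, b.rad, b.ins, b.big, ⟨b.off.1, ?_⟩, b.lam,
    fun j hj => priv_born (b.priv j hj), b.tot⟩,
    ⟨?_, a.out, a.cen, a.rad, ?_, ?_, ⟨?_, a.off.2⟩, ?_, ?_,
    Sum.elim (fun j => n j - if j = A.H then Fintype.card π else 0) fun _ => 1, ?_, ?_⟩,
    ⟨fun y hy => ?_, h.nodal.left, h.nodal.right⟩, fun y hy => ⟨(h.off y hy).1, ?_⟩,
    ⟨h.nout.1, ?_⟩, h.num, h.pt⟩
  · rintro _ ⟨y, y1, y2, rfl⟩ (j | k) hz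
    · exact b.off.2 _ ⟨y, y1, y2, rfl⟩ j hz
    · exact nK k y y1 (cq k _ hz)
  · rw [ee]
    refine CF.st_addpt _ _ _ _ _ p (fun _ => A.hub.w) a.curve (fun k k' e => ?_) fun k => ?_
    · have e' : p k = p k' := congrArg Prod.fst e
      rw [hp'] at e'
      exact hx.1 (hp_inj hr e')
    obtain ⟨x1, x2, x3⟩ := (pv k).mem _ (m0 k)
    refine ⟨x1, ?_, x3, (pv k).an _ (m0 k), (pv k).zero.filter_mono (nhds_le_nhdsSet (m0 k))⟩
    rintro ⟨j, hj⟩
    by_cases e : (A.e j).k = Kind.pt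
    · have := hj.1
      rw [End.circ_pt (a.curve.ok j) e] at this
      exact pn k j e (Eq.symm this)
    · exact x2 ⟨j, e, hj⟩
  · rintro (j | k) hj
    · exact a.ins j fun e => hj (congrArg Sum.inl e)
    · rw [ee]; exact (pv k).ins.trans subset_union_left
  · rintro (j | k) z hz
    · exact a.big j z hz
    · have h1 := (pv k).far _ (m0 k)
      have h2 : ‖B.c‖ = 1 := by rcases b.cen.1 with e | e <;> simp [e]
      have h3 := norm_sub_le (p k) B.c
      rw [cq k z hz]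
      linarith
  · rintro _ ⟨y, y1, y2, rfl⟩ (j | k) hz
    · exact a.off.1 _ ⟨y, y1, y2, rfl⟩ j hz
    · have e := cq k _ hz
      have e2 := (pv k).only y y1 (e ▸ m0 k)
      refine ((pv k).mem _ (m0 k)).2.2 ?_
      rw [← e, ← e2]
      exact y2
  · rintro (j | k)
    · by_cases e : j = A.H
      · obtain ⟨m, -, h2⟩ := hH
        subst e
        exact ⟨_, h2, fun c => absurd (a.out.symm.trans c) (by decide)⟩
      · rw [hs j e]; exact a.lam j
    · rw [ee]; exact ⟨1, pw k, fun _ => rfl⟩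
  · rintro (j | k) hj
    · exact born_priv (a.priv j hj)
    · rw [ee]; exact born_priv (pv k)
  · rintro (j | k)
    · by_cases e : j = A.H
      · obtain ⟨m, h1, h2⟩ := hH
        subst e
        exact (chg (hn A.H) h1 h2).cast (by simp)
      · exact ((hn j).congr' fun z => congrArg (· * _) (congrFun (hs j e) z)).cast (by simp [e])
    · obtain ⟨x1, -, x3⟩ := (pv k).mem _ (m0 k)
      have c := ((pw k).mul (HasWind.of_pt (W := (⟨p k, 0, Kind.pt, A.hub.w⟩ : End).res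
        fun y => CF.dw A.P y * B.P y) (by simp [End.ok]) rfl
        (End.analyticOnNhd_res (a.curve.poly.dw.mul b.curve.poly) (pv k).an _ (m0 k))
        (mul_ne_zero x3 fun c => nK k _ (h.nodal.node _ (h.nodal.right _ x1 c)).1 rfl))).cast
        (show 1 + 0 = (1 : ℤ) by simp)
      rw [hp'] at c
      exact c
  · show ∑ j : A.ι ⊕ π, _ = T
    rw [Fintype.sum_sum_type]
    simp [hsum]
  · obtain ⟨x1, x2, x3, x4, x5, x6, x7⟩ := h.nodal.node y hy
    refine ⟨x1, x2, x3, x4, x5, x6, ?_⟩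
    rintro ⟨j | k, hj⟩
    · exact x7 ⟨j, hj⟩
    · exact nK k y x1 (cq k _ hj.1)
  · rintro (j | k) hz
    · exact (h.off y hy).2 j hz
    · exact nK k y (h.nodal.node y hy).1 (cq k _ hz)
  · refine le_of_eq_of_le ?_ h.nout.2
    show (Finset.univ.filter fun j : A.ι ⊕ π => ((born A π x δ).e j).k = Kind.out).card = _
    rw [ee, Cv.nout, Finset.card_filter, Finset.card_filter, Fintype.sum_sum_type]
    simp only [Sum.elim_inl, Sum.elim_inr, reduceCtorEq, if_false, Finset.sum_const_zero, add_zero]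
    rfl

end Pool.Agent.S6
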