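import Pool.Agent.Lib.S6.Blue3
import Pool.Agent.Lib.CF.All3

/-!
Section 6 of the project 9ccfb7: the macro secant without zeros over a closed set; clear zones.
-/

open Set Filter Topology Metric

noncomputable section

namespace Pool.Agent.S6

open Pool.Agent.CF

open SECA in
theorem st_seca2 : St_SECA2 := by
  intro C K Nd TC TK D a Z m Y h hZ hm haK haN hY hY0
  have hF := st_fib
  have hG := st_geo
  have hU := st_wuni
  have hA := st_arc
  have hS := all_sec
  have hC := h.hC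
  have cv := hC.curve
  have pK := h.hK.curve.poly
  obtain ⟨k, hk, hsum⟩ := hC.tot
  have hKne : ∀ j, ∀ z ∈ (C.e j).circ, K.P (z, (C.e j).w z) ≠ 0 := fun j z hz e =>
    (h.off _ (h.nodal.left _ (cv.mem_of_circ j hz) e)).1 j hz
  have hpt : ∀ j, (C.e j).k = Kind.pt →
      k j = 1 ∧ ∀ y ∈ C.Γ, y.1 = (C.e j).c → y.2 = (C.e j).w (C.e j).c := by
    refine fun j hj => ⟨?_, fun y hy e => ?_⟩
    · obtain ⟨l, hl, h1⟩ := hC.lam j
      have hz : (C.e j).c ∈ (C.e j).circ := by rw [End.circ_pt (cv.ok j) hj]; rfl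
      have h2 : HasWind (C.e j) ((C.e j).res fun y => dw C.P y * K.P y) 0 :=
        HasWind.of_pt (cv.ok j) hj (End.analyticOnNhd_res (cv.poly.dw.mul pK) (cv.wan j) _ hz)
          (mul_ne_zero (cv.wreg j _ hz) (hKne j _ hz))
      have := hU _ _ _ _ (cv.ok j) (hk j) (hl.mul h2)
      rw [this, h1 hj, add_zero]
    · have := (hC.priv j hj).only y hy (by simp [e])
      rwa [e] at this
  -- the singular values and the geometry
  have hfin : (brv C.P C.Γ).Finite := by
    refine ((hF _ _ _ _ cv).2.image Prod.fst).subset ?_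
    rintro b ⟨y, h1, h2, h3⟩
    exact ⟨y, ⟨h1, h2⟩, h3⟩
  obtain ⟨δ, hδ, geo⟩ := hG _ _ _ _ hfin.toFinset cv (by simp) (by simpa using hC.off.1)
  obtain ⟨-, ⟨h0, hh0, arc⟩, -⟩ := hA C K TC TK hC h.hK
  have hkH : C.hub.k ≠ Kind.pt := by rw [hC.out]; simp
  have hr : 0 < C.hub.r := (cv.ok C.H).pos hkH
  have hc1 : ‖C.c‖ = 1 := by rcases hC.cen.1 with e | e <;> simp [e]
  set b : ℝ → ℂ := fun s => C.c + C.c * C.hub.rad s with hb
  have hbn : ∀ s, ‖b s - C.hub.c‖ = C.hub.rad s := fun s => by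
    show ‖C.c + C.c * C.hub.rad s - C.c‖ = _
    rw [add_sub_cancel_left, norm_mul, hc1, one_mul, Complex.norm_real,
      Real.norm_of_nonneg (End.rad_pos hr s).le]
  have hbK : ∀ s, 8 / 5 ≤ ‖b s - K.c‖ := fun s => by
    have e : b s - K.c = C.c * ((2 + C.hub.rad s : ℝ) : ℂ) := by
      rw [hC.cen.2, hb]; push_cast; ring
    have := End.rad_pos hr s
    rw [e, norm_mul, hc1, one_mul, Complex.norm_real, Real.norm_of_nonneg (by linarith)]
    linarith
  have hba : ∀ s I, s ∈ I → b s ∈ C.hub.ann I := fun s I hs =>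
    End.sphere_subset_ann hr hs (mem_sphere_iff_norm.2 (hbn s))
  have hbc : Continuous b := by
    have := C.hub.continuous_rad
    rw [hb]; fun_prop
  have gap := (arc (b 0) (hba 0 _ ⟨by linarith, hh0.le⟩) (hbK 0)).2.2.1
  set ρ : C.ι → ℝ := fun j => ((C.e j).r + ‖b 0 - (C.e j).c‖) / 2 with hρ
  have e1 := shrink_all cv.ok (N := fun j => {z | K.P (z, (C.e j).w z) ≠ 0 ∧
      (j ≠ C.H → ‖z - (C.e j).c‖ < ρ j)}) fun j => eventually_nhdsSet_iff_forall.2 fun z hz => by
    have c1 : ContinuousAt (fun z => K.P (z, (C.e j).w z)) z :=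
      (End.analyticOnNhd_res pK (cv.wan j) z hz).continuousAt
    refine (c1.eventually_ne (hKne j z hz)).and ?_
    by_cases hj : j = C.H
    · exact Eventually.of_forall fun _ a => absurd hj a
    · have c2 : ContinuousAt (fun z => ‖z - (C.e j).c‖) z := by fun_prop
      have := gap j hj
      filter_upwards [c2.eventually (gt_mem_nhds (show ‖z - (C.e j).c‖ < ρ j by
        rw [mem_sphere_iff_norm.1 hz, hρ]; dsimp only; linarith))] with x hx _ using hx
  obtain ⟨t, ht, ht0, htδ⟩ := (e1.and (Ioo_mem_nhdsGT hδ)).exists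
  have e2 : ∀ᶠ s in 𝓝 (0 : ℝ), ∀ j, j ≠ C.H → ρ j < ‖b s - (C.e j).c‖ := by
    refine eventually_all.2 fun j => ?_
    by_cases hj : j = C.H
    · exact Eventually.of_forall fun _ a => absurd hj a
    · have c2 : ContinuousAt (fun s => ‖b s - (C.e j).c‖) 0 := by fun_prop
      have := gap j hj
      filter_upwards [c2.eventually (lt_mem_nhds (show ρ j < ‖b 0 - (C.e j).c‖ by
        rw [hρ]; dsimp only; linarith))] with x hx _ using hx
  have e3 : ∀ᶠ s in 𝓝 (0 : ℝ), b s ∉ Y :=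
    hbc.continuousAt.eventually (hY.isOpen_compl.mem_nhds (show b 0 ∈ Yᶜ by
      rw [hb]; dsimp only; rw [End.rad_zero, mul_comm]; exact hY0))
  obtain ⟨s, ⟨hs1, hsY⟩, hs2, hs3⟩ := (((e2.and e3).filter_mono nhdsWithin_le_nhds).and
    (Ioo_mem_nhdsLT (show -min t h0 < 0 by simpa using ⟨ht0, hh0⟩))).exists
  have hs4 : -t < s := by linarith [min_le_left t h0]
  have hs5 : -h0 < s := by linarith [min_le_right t h0]
  have arc2 := arc (b s) (hba s _ ⟨hs5.le, by linarith⟩) (hbK s)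
  have hdep : C.hub.dep (b s) = s := (End.dep_of_norm hr (hbn s)).2
  have t2 : 2 * (t / 2) = t := by ring
  obtain ⟨q, G, pq, pG, n1, n2, w1, w2⟩ := hS _ C.P K.P C.Γ C.e hfin.toFinset (t / 2) (t / 2) C.H
    (b s) a Z k cv (geo _ _ (by linarith) (by linarith) (by linarith) (by linarith)) pK
    (Nd.finite_toSet.subset fun y hy => h.nodal.left y hy.1 hy.2)
    (fun j z hz => by rw [t2] at hz; exact (ht j hz).1) hC.out
    (by rw [t2]; exact hba s _ ⟨hs4, hs3⟩)
    (fun w hw => by have := ((arc2.1 w).1 hw).2; linarith)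
    (fun j hj z hz => by rw [t2] at hz; exact ((ht j hz).2 hj).trans (hs1 j hj)) hZ hpt
  · refine ⟨q, G, ⟨hZ, hm, ⟨haK, haN⟩, ⟨pq, pG⟩, fun y hy => hy.elim (n2 y) fun hy =>
      n1 y (h.hK.curve.zero y hy) fun e => arc2.2.1 y.2 (by rw [← e]; exact hy), fun j hj => ?_, ?_⟩,
      fun y h1 h2 => (n1 y h1 fun e => hsY (e ▸ h2)).2⟩
    · obtain ⟨l, hl, -⟩ := hC.lam j
      refine ⟨l, hl, (wind hl (hk j) (w1 j hj) fun z => ?_).cast (by ring)⟩
      simp only [Cv.sec, End.res]
      rw [div_div]; ring_nf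
    · obtain ⟨l, hl, -⟩ := hC.lam C.H
      have h1 : HasWind C.hub (C.sec K (fun y => G y *
          ∏ i ∈ Finset.univ.filter fun i => (C.e i).k = Kind.pt, (y.1 - (C.e i).c))
          (fun y => (y.1 - a) * q y) C.hub) _ := wind hl (hk C.H) w2 fun z => by
        simp only [Cv.sec, End.res, Cv.hub]
        rw [div_div]; ring_nf
      have h2 : C.hub.sgn = -1 := by simp [End.sgn, hC.out]
      refine ⟨l, hl, (((HasWind.self C.hub).pow m).mul h1).cast ?_⟩
      rw [h2, hsum, ← hm]; ring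

theorem st_clear : St_CLEAR := by
  refine ⟨fun A B T T' O h h' hO h0 => ?_, fun J _ A sp π _ x hx ho hc => ?_⟩
  · obtain ⟨-, ⟨a, a0, arc⟩, -⟩ := st_arc A B T T' h h'
    have hr := HP.R_pos h
    have hcl : IsClosed {z : ℂ | z ∈ A.hub.circ ∧ 8 / 5 ≤ ‖z - B.c‖} :=
      A.hub.isCompact_circ.isClosed.inter
        (isClosed_le continuous_const (continuous_id.sub continuous_const).norm)
    have e1 := SECA.shrink_all h'.curve.ok (N := fun j => {z | O (z, (B.e j).w z) ≠ 0 ∧
        z ∈ {z : ℂ | z ∈ A.hub.circ ∧ 8 / 5 ≤ ‖z - B.c‖}ᶜ ∧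
        ∀ i, (A.e i).k = Kind.pt → z ≠ (A.e i).c}) fun j =>
      eventually_nhdsSet_iff_forall.2 fun z hz => by
        have c1 : ContinuousAt (fun z => O (z, (B.e j).w z)) z :=
          hO.continuousAt.comp (continuousAt_id.prodMk (h'.curve.wan j z hz).continuousAt)
        refine (c1.eventually_ne (h0 j z hz)).and (Eventually.and
          (hcl.isOpen_compl.mem_nhds fun b => ?_) (eventually_all.2 fun i => ?_))
        · obtain ⟨b1, b2⟩ := (End.mem_circ hr).1 b.1
          exact ((arc z ⟨b1, by rw [b2]; exact ⟨by linarith, a0.le⟩⟩ b.2).2.2.2 j).ne'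
            (mem_sphere_iff_norm.1 hz)
        · by_cases e : (A.e i).k = Kind.pt
          · filter_upwards [isOpen_ne.mem_nhds (show z ≠ (A.e i).c from fun f =>
              (h.priv i e).none _ (h'.curve.mem_of_circ j hz)
                (f ▸ mem_closedBall_self le_rfl))] with u f _ using f
          · exact Eventually.of_forall fun _ f => absurd f e
    obtain ⟨t, ht, ht0⟩ := (e1.and self_mem_nhdsWithin).exists
    refine ⟨t, ht0, fun j z hz => ⟨(ht j hz).1, fun x h1 h2 e => (ht j hz).2.1 ?_, (ht j hz).2.2⟩⟩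
    rw [e]
    exact ⟨HP.bp_mem hr h1, (HP.win_far (δ := 0) h h2 (by norm_num) (by simp)).le⟩
  · have e1 : ∀ j k, ∀ᶠ δ in 𝓝[>] (0 : ℝ), hp A (x k) δ 0 ∉ (sp.l j).near sp.h sp.r1 := fun j k => by
      have c : Continuous fun δ : ℝ => hp A (x k) δ 0 := by unfold hp; fun_prop
      refine (c.continuousAt.eventually ((End.isCompact_near (ho j) sp.h sp.r1).isClosed.isOpen_compl.mem_nhds
        fun b => (hc j _ b).2.1 (x k) (hx.2 k).1 (hx.2 k).2 ?_)).filter_mono nhdsWithin_le_nhds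
      simp [hp]
    filter_upwards [eventually_all.2 fun j => eventually_all.2 (e1 j)] with δ hδ j z hz
    refine ⟨(hc j z hz).1, (hc j z hz).2.1, ?_⟩
    rintro (i | k) hi
    · exact (hc j z hz).2.2 i hi
    · exact fun e => hδ j k (by rw [show hp A (x k) δ 0 = z from e.symm]; exact hz)

end Pool.Agent.S6
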