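import Pool.Agent.Lib.S6.Hp

/-! The algebraic facts on the secant with windows. -/

open Set Filter Topology Metric

noncomputable section

namespace Pool.Agent.S6

open Pool.Agent.CF (End Kind IsCurve Half Priv Cv HasWind)
open HP

namespace WINS

theorem ev_ne {c : ℝ} (hc : 0 < c) (b : ℝ) : ∀ᶠ δ in 𝓝[>] (0 : ℝ), c * δ ≠ b := by
  rcases le_or_gt b 0 with h | h
  · filter_upwards [self_mem_nhdsWithin] with δ (a : 0 < δ) using (h.trans_lt (mul_pos hc a)).ne'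
  · filter_upwards [Ioo_mem_nhdsGT (div_pos h hc)] with δ a
    exact (mul_comm c δ ▸ (lt_div_iff₀ hc).1 a.2).ne

theorem a0_ne {π : Type} [Fintype π] {C : Cv} {x : π → ℂ} (hr : 0 < C.R) (hx : Pos C x) (w : ℂ) :
    ∏ k, -((starRingEnd ℂ) (x k * Complex.exp w) / C.R) ≠ 0 :=
  Finset.prod_ne_zero_iff.2 fun k _ => neg_ne_zero.2 (div_ne_zero ((map_ne_zero _).2
    (mul_ne_zero (norm_ne_zero_iff.1 ((hx.2 k).1 ▸ one_ne_zero)) (Complex.exp_ne_zero _)))
    (Complex.ofReal_ne_zero.2 hr.ne'))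

end WINS

open WINS in
theorem st_wins : St_WINS := by
  classical
  intro C K Nd TC TK D a Z q G π _ x hA hS hx
  obtain ⟨h, h0, H⟩ := CF.all_winq C K Nd TC TK D hA
  have hr := R_pos hA.hC
  have ho := hA.hC.out
  obtain ⟨s1, s2⟩ := sqrt2
  filter_upwards [Ioo_mem_nhdsGT (lt_min (half_pos h0) (show (0 : ℝ) < 1 / 8 by norm_num)),
    ev_ne one_pos (C.hub.dep a), ev_ne (one_pos.trans s1) (C.hub.dep a)] with δ hδ n1 n2
  obtain ⟨d0, d1⟩ := hδ
  obtain ⟨d1, d2⟩ := lt_min_iff.1 d1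
  have d3 : δ < Real.sqrt 2 * δ := lt_mul_of_one_lt_left d0 s1
  have d4 : Real.sqrt 2 * δ ≤ 3 / 2 * δ := mul_le_mul_of_nonneg_right s2.le d0.le
  have dp := fun k => dep_hp ho hr (hx.2 k).1
  have far : ∀ k s t, |s| ≤ 3 / 2 * δ → |t| ≤ δ → 8 / 5 < ‖hp C (x k) s t - K.c‖ :=
    fun k s t a b => win_far hA.hC (hx.2 k).2 d2.le (hp_near hr (hx.2 k).1 d2.le a b)
  have ua : ∀ k, hp C (x k) (Real.sqrt 2 * δ) (-δ) ≠ a := fun k e => n2 (e ▸ (dp k _ _).symm)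
  obtain ⟨a1, a2, a3, -, a5, a6, a7, -⟩ := H _ a Z q G π (fun k => hp C (x k) δ 0)
    (fun k => hp C (x k) (Real.sqrt 2 * δ) (-δ)) (fun k => hp C (x k) (-(Real.sqrt 2 * δ)) (-δ))
    (fun k => hp C (x k) (-δ) 0) (a0_ne hr hx (-(Real.sqrt 2 * δ) - δ * Complex.I)) hS.z hS.off.1
    hS.off.2 hS.poly.1 hS.poly.2 hS.ne hS.side hS.hub (fun k k' e => hx.1 (hp_inj hr e))
    (fun k k' e => hx.1 (hp_inj hr e))
    (fun k k' e => d3.ne' ((dp k _ _).symm.trans ((congrArg _ e).trans (dp k' _ _))))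
    fun k => ⟨ua k, fun e => n1 (e ▸ (one_mul δ).trans (dp k _ _).symm),
      mem_ann ho hr (hx.2 k).1 (mem_Ioo.2 ⟨d0, by linarith⟩) _,
      mem_ann ho hr (hx.2 k).1 (mem_Ioo.2 ⟨by linarith, by linarith⟩) _,
      mem_ann ho hr (hx.2 k).1 (mem_Ioo.2 ⟨by linarith, by linarith⟩) _,
      mem_ann ho hr (hx.2 k).1 (mem_Ioo.2 ⟨by linarith, by linarith⟩) _,
      far k _ _ (by rw [abs_of_pos d0]; linarith) (by rw [abs_zero]; exact d0.le),
      far k _ _ (by rwa [abs_of_pos (d0.trans d3)]) (by rw [abs_neg, abs_of_pos d0]),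
      far k _ _ (by rwa [abs_neg, abs_of_pos (d0.trans d3)]) (by rw [abs_neg, abs_of_pos d0]),
      far k _ _ (by rw [abs_neg, abs_of_pos d0]; linarith) (by rw [abs_zero]; exact d0.le)⟩
  have c1 : ((ndS C Z x δ).card : ℤ) = TC := by
    rw [ndS, Finset.card_union_of_disjoint, Finset.card_image_of_injective, ← hS.card]
    · simp
    · exact fun k k' e => hx.1 (hp_inj hr (congrArg Prod.fst e))
    · refine Finset.disjoint_left.2 fun y b c => ?_
      obtain ⟨k, -, rfl⟩ := Finset.mem_image.1 c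
      exact ua k (sub_eq_zero.1 (hS.z.2 _ b).2.1)
  refine ⟨a1, a2, a3, a6, c1, a7, fun y hy e => ?_, ?_⟩
  · obtain ⟨j, b1, b2⟩ := a5 y (hS.z.2 y hy).1 e
    refine (a6.2 y (Finset.mem_union_left _ hy)).2.2.2.2 j ?_
    rw [End.circ_pt (a1.hC.curve.ok j) b1, b2]; rfl
  · obtain ⟨n, b1, b2⟩ := CF.all_tk _ C.P K.P (gS C G x δ) (qS C a q x δ) C.Γ
      (winS C K π a q G x δ).e Nd (ndS C Z x δ) (winS C K π a q G x δ).lam (-1) a1.hC.curve
      a1.hC.off.1 hA.hK.curve.poly a2 a3 (by simp)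
      (a1.nodal.simpleZ a1.hC.curve a1.hK.curve a1.off).1 a6 a5 fun j => by
        obtain ⟨k, b, -⟩ := a1.hC.lam j
        exact ⟨k, b, by cases j <;> exact b⟩
    refine ⟨n, fun j => (b1 j).congr ?_, by rw [b2, c1]⟩
    filter_upwards [a1.hC.curve.wz j] with z (hz : C.P (z, ((winS C K π a q G x δ).e j).w z) = 0) _
    simp [End.res, CF.pen, hz]

end Pool.Agent.S6
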