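import Pool.Agent.Lib.S6.SplitC
import Pool.Agent.Lib.S6.B_GEOW
import Pool.Agent.Lib.S6.B_SECA2
import Pool.Agent.Lib.S6.B_WINS

/-!
Section 6 of the project 9ccfb7: clear zones, the geometry at the depth of the ports, the cut curve.
-/

open Set Filter Topology Metric

noncomputable section

namespace Pool.Agent.S6

open Pool.Agent.CF (End Kind IsCurve Half Priv Cv Geo)
open GEOW HP

theorem st_clearb : St_CLEARB := by
  classical
  intro C K Nd TC TK D a Z q G m π _ x hA hS hx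
  have h := hA.hC
  have cv := h.curve
  have hr := R_pos h
  have f0 : (CF.brv C.P C.Γ ∪ Prod.fst '' (Nd : Set E) ∪ Prod.fst '' (Z : Set E)).Finite :=
    ((fin_brv cv).union (Nd.finite_toSet.image _)).union (Z.finite_toSet.image _)
  obtain ⟨S0, hS0⟩ := f0.exists_finset_coe
  obtain ⟨d, hd, hG⟩ := CF.st_geo _ C.P C.Γ C.e S0 cv
    (by rw [hS0]; exact fun b hb => Or.inl (Or.inl hb)) (by
      rw [hS0]
      rintro b ((hb | ⟨y, hy, rfl⟩) | ⟨y, hy, rfl⟩) j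
      · exact h.off.1 b hb j
      · exact (hA.off y hy).1 j
      · exact (hS.z.2 y hy).2.2.2.2 j)
  obtain ⟨-, ⟨a0, ha0, harc⟩, -⟩ := CF.st_arc _ _ _ _ h hA.hK
  have e1 := CF.SECA.shrink_all cv.ok (N := fun j => {z | K.P (z, (C.e j).w z) ≠ 0 ∧
      G (z, (C.e j).w z) ≠ 0 ∧ q (z, (C.e j).w z) ≠ 0 ∧ z ≠ a ∧
      (∀ i, i ≠ j → (C.e i).k = Kind.pt → z ≠ (C.e i).c) ∧
      (j ≠ C.H → ∀ k, z ≠ C.c + C.R * x k)}) fun j =>
    eventually_nhdsSet_iff_forall.2 fun z hz => by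
      have m0 := cv.mem_of_circ j hz
      have c1 : ∀ O : E → ℂ, CF.IsPoly O → O (z, (C.e j).w z) ≠ 0 →
          ∀ᶠ u in 𝓝 z, O (u, (C.e j).w u) ≠ 0 := fun O a1 a2 =>
        (End.analyticOnNhd_res a1 (cv.wan j) z hz).continuousAt.eventually_ne a2
      have c2 : ∀ (b : ℂ) (p : Prop), (p → z ≠ b) → ∀ᶠ u in 𝓝 z, p → u ≠ b := fun b p a1 => by
        by_cases e : p
        · filter_upwards [isOpen_ne.mem_nhds (a1 e)] with u f _ using f
        · exact Eventually.of_forall fun _ f => absurd f e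
      filter_upwards [c1 _ hA.hK.curve.poly fun e => (hA.off _ (hA.nodal.left _ m0 e)).1 j hz,
        c1 _ hS.poly.2 (hS.ne _ (Or.inl m0)).2, c1 _ hS.poly.1 (hS.ne _ (Or.inl m0)).1,
        isOpen_ne.mem_nhds (show z ≠ a from fun e =>
          (hS.z.2 _ (hS.z.1 _ m0 (sub_eq_zero.2 e))).2.2.2.2 j hz),
        eventually_all.2 fun i => c2 (C.e i).c (i ≠ j ∧ (C.e i).k = Kind.pt) fun b e =>
          disjoint_left.1 (cv.disj b.1) (show (z, (C.e j).w z) ∈ (C.e i).gr (C.e i).circ from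
            ⟨by rw [End.circ_pt (cv.ok i) b.2]; exact e,
              (h.priv i b.2).only _ m0 (by rw [← e]; exact mem_closedBall_self le_rfl)⟩) ⟨hz, rfl⟩,
        eventually_all.2 fun k => c2 (C.c + C.R * x k) (j ≠ C.H) fun b e => by
          obtain ⟨a1, a2⟩ := (End.mem_circ hr).1 (bp_mem hr (hx.2 k).1)
          have a3 := (harc _ ⟨a1, by rw [a2]; exact ⟨by linarith, ha0.le⟩⟩
            (win_far (δ := 0) h (hx.2 k).2 (by norm_num) (by simp)).le).2.2.1 j b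
          exact a3.ne' (e ▸ mem_sphere_iff_norm.1 hz)] with u b1 b2 b3 b4 b5 b6
      exact ⟨b1, b2, b3, b4, fun i i1 i2 => b5 i ⟨i1, i2⟩, fun i k => b6 k i⟩
  obtain ⟨t, ht, ht0, htd⟩ := (e1.and (Ioo_mem_nhdsGT hd)).exists
  refine ⟨t, ht0, S0, fun y hy => Finset.mem_coe.1 ?_, fun y hy => Finset.mem_coe.1 ?_,
    fun s r s0 s1 r0 r1 => ⟨fun j z hz => ht j ((C.e j).near_mono s1 r1 hz),
      hG _ _ r0 (r1.trans_lt htd) s0 (s1.trans_lt htd)⟩⟩
  · rw [hS0]; exact Or.inl (Or.inr ⟨y, hy, rfl⟩)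
  · rw [hS0]; exact Or.inr ⟨y, hy, rfl⟩

namespace CIN

theorem bpr_small {A : Cv} {δ L : ℝ} (hr : 0 < A.R) (h0 : 0 < δ) (hL : 10 ≤ L) :
    2 * bpr A L δ ≤ A.R * δ / 100 := by
  have c := exp_le_eighth (s := (δ + L) / 2 - 1) (by linarith)
  have d : Real.exp (-1) ≤ 2 / 5 := Real.exp_neg_one_lt_d9.le.trans (by norm_num)
  have e : Real.exp (-δ - L) =
      (Real.exp (-((δ + L) / 2 - 1)) * Real.exp (-1)) ^ 2 := by
    rw [← Real.exp_add, ← Real.exp_nat_mul]; congr 1; push_cast; ring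
  have f : Real.exp (-((δ + L) / 2 - 1)) * Real.exp (-1) ≤ 1 / 20 :=
    (mul_le_mul c d (Real.exp_pos _).le (by norm_num)).trans (by norm_num)
  have g : Real.exp (-δ - L) ≤ 1 / 400 :=
    e ▸ (pow_le_pow_left₀ (by positivity) f 2).trans (by norm_num)
  have := mul_le_mul_of_nonneg_left g (mul_pos hr h0).le
  unfold bpr
  linarith

open WINS in
theorem sin_of (C K : Cv) (Nd : Finset E) (TC TK : ℤ) (D : ℕ) (a : ℂ) (Z : Finset E) (q G : E → ℂ)
    (π : Type) [Fintype π] (x : π → ℂ) (hA : CF.Alg C K Nd TC TK D)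
    (hS : Sec C K Nd TC a Z q G (Fintype.card π)) (hx : Pos C x) : ∀ᶠ δ in 𝓝[>] (0 : ℝ),
    ∃ Sg, SIn (winS C K π a q G x δ) K Nd (ndS C Z x δ) (gS C G x δ) (qS C a q x δ) Sg
      (C.R * δ / 100) (δ / 100) := by
  classical
  obtain ⟨h, h0, H⟩ := CF.all_winq C K Nd TC TK D hA
  have hr := R_pos hA.hC
  have ho := hA.hC.out
  obtain ⟨s1, s2⟩ := sqrt2
  filter_upwards [Ioo_mem_nhdsGT (lt_min (half_pos h0) (show (0 : ℝ) < 1 / 8 by norm_num)),
    ev_ne one_pos (C.hub.dep a), ev_ne (one_pos.trans s1) (C.hub.dep a),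
    st_geow C K Nd TC TK D a Z q G π x hA hS.z hx] with δ hδ n1 n2 ⟨Sg, g1, g2⟩
  obtain ⟨d0, d1⟩ := hδ
  obtain ⟨d1, d2⟩ := lt_min_iff.1 d1
  have d3 : δ < Real.sqrt 2 * δ := lt_mul_of_one_lt_left d0 s1
  have d4 : Real.sqrt 2 * δ ≤ 3 / 2 * δ := mul_le_mul_of_nonneg_right s2.le d0.le
  have dp := fun k => dep_hp ho hr (hx.2 k).1
  have far : ∀ k s t, |s| ≤ 3 / 2 * δ → |t| ≤ δ → 8 / 5 < ‖hp C (x k) s t - K.c‖ :=
    fun k s t a b => win_far hA.hC (hx.2 k).2 d2.le (hp_near hr (hx.2 k).1 d2.le a b)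
  have ua : ∀ k, hp C (x k) (Real.sqrt 2 * δ) (-δ) ≠ a := fun k e => n2 (e ▸ (dp k _ _).symm)
  obtain ⟨a1, a2, a3, a4, a5, a6, a7, a8⟩ := H _ a Z q G π (fun k => hp C (x k) δ 0)
    (fun k => hp C (x k) (Real.sqrt 2 * δ) (-δ)) (fun k => hp C (x k) (-(Real.sqrt 2 * δ)) (-δ))
    (fun k => hp C (x k) (-δ) 0) (a0_ne hr hx (-(Real.sqrt 2 * δ) - δ * Complex.I)) hS.z hS.off.1
    hS.off.2 hS.poly.1 hS.poly.2 hS.ne hS.side hS.hub (fun k k' e => hx.1 (hp_inj hr e))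
    (fun k k' e => hx.1 (hp_inj hr e))
    (fun k k' e => d3.ne' ((dp k _ _).symm.trans ((congrArg _ e).trans (dp k' _ _))))
    fun k => ⟨ua k, fun e => n1 (e ▸ (one_mul δ).trans (dp k _ _).symm),
      mem_ann ho hr (hx.2 k).1 (mem_Ioo.2 ⟨d0, by linarith⟩) _,
      mem_ann ho hr (hx.2 k).1 (mem_Ioo.2 ⟨by linarith, by linarith⟩) _,
      mem_ann ho hr (hx.2 k).1 (mem_Ioo.2 ⟨by linarith, by linarith⟩) _,
      mem_ann ho hr (hx.2 k).1 (mem_Ioo.2 ⟨by linarith, by linarith⟩) _,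
      far k _ _ (by rw [abs_of_pos d0]; linarith) (by rw [abs_zero]; exact d0.le),
      far k _ _ (by rwa [abs_of_pos (d0.trans d3)]) (by rw [abs_neg, abs_of_pos d0]),
      far k _ _ (by rwa [abs_neg, abs_of_pos (d0.trans d3)]) (by rw [abs_neg, abs_of_pos d0]),
      far k _ _ (by rw [abs_neg, abs_of_pos d0]; linarith) (by rw [abs_zero]; exact d0.le)⟩
  refine ⟨Sg, a2, a3, g1, g2, a4, a5, a6, a7, a8, fun j => ?_⟩
  obtain ⟨k, b, -⟩ := a1.hC.lam j
  exact ⟨k, b, by cases j <;> exact b⟩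

end CIN

theorem st_cin : St_CIN := by
  classical
  intro J _ C K Nd TC TK D a Z q G π _ x Sig Sig' h r1 r2 L sp hA hS hx hG hL hK hc hne
  have hC := hA.hC
  have hr := R_pos hC
  have hk := hub_loop hC
  have h0 := hG.hpos
  have r0 := hG.r1pos
  have n0 : C.hub.nearO (h / 16) r2 ∈ 𝓝ˢ C.hub.circ := by
    refine (End.isOpen_nearO (hC.curve.ok C.H) _ _).mem_nhdsSet.2 fun z hz => ?_
    show z ∈ C.hub.nearO (h / 16) r2
    rw [End.nearO_loop hk]
    obtain ⟨a1, a2⟩ := (End.mem_circ hr).1 hz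
    exact ⟨a1, by rw [a2]; exact ⟨by linarith, by linarith⟩⟩
  filter_upwards [CIN.sin_of C K Nd TC TK D a Z q G π x hA hS hx, win_nhds hr n0,
    st_clear.2 J C sp π x hx hK.curve.ok hc, ev_lt h0 1, ev_lt r0 C.R,
    Ioc_mem_nhdsGT (show (0 : ℝ) < 1 / 8 by norm_num)] with δ c1 c2 c3 c4 c5 ⟨d0, d1⟩
  have rδ := mul_pos hr d0
  have c6 : ∀ k, closedBall (hp C (x k) δ 0) (C.R * δ / 4) ⊆ C.hub.nearO (h / 16) r2 :=
    fun k z hz => c2 _ z (hx.2 k).1 (win_in hr (hx.2 k).1 d0 d1 (mem_closedBall_iff_norm.1 hz)).2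
  obtain ⟨b1, b2, -⟩ := bpr_le hr d0 hL
  refine ⟨c1, ⟨fun j => ⟨hC.curve.ok j, (hG.wan j).continuousOn.mono
      ((C.e j).near_mono (by linarith) (by linarith))⟩, ?_⟩,
    fun k => (closedBall_subset_closedBall b2).trans (c6 k), b1, CIN.bpr_small hr d0 hL,
    fun j z hz => mul_ne_zero (mul_ne_zero (hne j z hz) (Finset.prod_ne_zero_iff.2 fun i hi =>
      sub_ne_zero.2 ((hc j z hz).2.2 i (Finset.mem_filter.1 hi).2)))
      (Finset.prod_ne_zero_iff.2 fun k _ => sub_ne_zero.2 ((c3 j z hz).2.2 (Sum.inr k) rfl))⟩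
  rintro (i | k)
  · exact ⟨rfl, (C.e i).near_subset_nearO (by linarith) (by linarith)⟩
  · refine ⟨rfl, fun z hz => ?_⟩
    have e := c6 k (closedBall_subset_closedBall (show 2 * (C.R * δ / 100) ≤ _ by linarith)
      (End.near_pt (e := (winS C K π a q G x δ).e (Sum.inr k)) rfl _ _ ▸ hz))
    show z ∈ C.hub.nearO h r1
    rw [End.nearO_loop hk] at e ⊢
    exact End.ann_mono (Ioo_subset_Ioo (by linarith) (by linarith)) e

namespace CIN

variable {C : Cv} {π : Type} {l : C.ι ⊕ π → End} {ρ : C.ι ⊕ π → ℝ} {Sig Sg : Finset ℂ}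
  {h r1 r' h' y : ℝ}

/-- the region is cut out by the sides of the moved ends -/
theorem rg_iff (ho : ∀ j, (C.e j).ok) (l1 : ∀ i, l (Sum.inl i) = C.e i)
    (l2 : ∀ k, (l (Sum.inr k)).k = Kind.pt) (hρ : ∀ k, (l k).k = Kind.pt → 0 < ρ k) (s u : ℝ)
    (j : C.ι) (z : ℂ) : z ∈ rg C l ρ h r1 s u j ↔ z ∈ (C.e j).near h r1 ∧
      ∀ k, par C π k = j → ((l k).adj s (ρ k * Real.exp u)).side z := by
  refine and_congr_right fun hz => ?_
  have a1 : (C.e j).k ≠ Kind.pt → ∀ t, ((C.e j).adj s t).side z ↔ s ≤ (C.e j).dep z :=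
    fun e t => by
      rw [End.near_loop e] at hz
      rw [End.adj_loop e, End.side_move e ((ho j).pos e) hz.1]
  have a2 : ∀ k, (l k).k = Kind.pt →
      (((l k).adj s (ρ k * Real.exp u)).side z ↔ ρ k * Real.exp u ≤ ‖z - (l k).c‖) := fun k e => by
    rw [End.adj_pt e (mul_pos (hρ k e) (Real.exp_pos u)), End.side_hole]
  refine ⟨fun b k e => ?_, fun b => ⟨fun e => ?_, fun k e f => (a2 k f).1 (b k e)⟩⟩
  · by_cases f : (l k).k = Kind.pt
    · exact (a2 k f).2 (b.2 k e f)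
    · rcases k with i | k
      · obtain rfl : i = j := e
        rw [l1] at f ⊢
        exact (a1 f _).2 (b.1 f)
      · exact absurd (l2 k) f
  · have := b (Sum.inl j) rfl
    rw [l1] at this
    exact (a1 e _).1 this

theorem circ_sub {e : End} {t : ℝ} (ho : e.ok) (h0 : 0 < y) (h1 : y ≤ h') (h2 : 0 < r')
    (ht : e.k = Kind.pt → t ≤ r') : (e.adj y t).circ ⊆ e.nearO (2 * h') (2 * r') := by
  have a : |y| < 2 * h' := by rw [abs_of_pos h0]; linarith
  by_cases f : e.k = Kind.pt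
  · exact End.adj_circ_subset ho a (by linarith [ht f]) (by linarith)
  · rw [End.adj_loop f, ← End.adj_loop (t := 0) f]
    exact End.adj_circ_subset ho a (by linarith) (by linarith)

theorem cutm [Fintype π] (c1 : IsCurve C.P C.Γ C.e) (c2 : IsCurve C.P C.Γ l)
    (g1 : Geo C.P C.Γ C.e Sig r1 h) (g2 : Geo C.P C.Γ l Sg r' h')
    (l1 : ∀ i, l (Sum.inl i) = C.e i) (l2 : ∀ k, (l (Sum.inr k)).k = Kind.pt)
    (hp : ∀ k, (l k).w = (C.e (par C π k)).w ∧
      (l k).near (2 * h') (2 * r') ⊆ (C.e (par C π k)).nearO h r1) (h0 : 0 < y) (h1 : y ≤ h')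
    (hρ : ∀ k, (l k).k = Kind.pt → 0 < ρ k ∧ ρ k * Real.exp y ≤ r') :
    (∀ j, IsCompact (rg C l ρ h r1 y y j) ∧
      (∀ z ∈ rg C l ρ h r1 y y j, ContinuousAt (C.e j).w z ∧
        (z, (C.e j).w z) ∈ CF.moved C.Γ l (fun k => (l k).adj y (ρ k * Real.exp y)) r' h') ∧
      ∀ k, ∀ z ∈ rg C l ρ h r1 y y j, z ∈ ((l k).adj y (ρ k * Real.exp y)).circ →
        (C.e j).w z = (l k).w z → ∀ z' ∈ rg C l ρ h r1 y y j,
          ((l k).adj y (ρ k * Real.exp y)).side z') ∧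
    ∀ (s u : ℝ) k, s ≤ y → u ≤ y →
      ((l k).adj y (ρ k * Real.exp y)).circ ⊆ rg C l ρ h r1 s u (par C π k) := by
  have hh := g1.hpos
  have hr := g1.r1pos
  have hr' := g2.r1pos
  have key := rg_iff (h := h) (r1 := r1) c1.ok l1 l2 fun k e => (hρ k e).1
  have n2 : ∀ j, (C.e j).near h r1 ⊆ (C.e j).near (2 * h) (2 * r1) := fun j =>
    (C.e j).near_mono (by linarith) (by linarith)
  have n3 : ∀ k, (l k).near (2 * h') (2 * r') ⊆ (C.e (par C π k)).near h r1 := fun k =>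
    (hp k).2.trans (End.nearO_subset_near _ le_rfl le_rfl)
  have n4 : ∀ k, ((l k).adj y (ρ k * Real.exp y)).circ ⊆ (l k).near (2 * h') (2 * r') := fun k =>
    (circ_sub (c2.ok k) h0 h1 hr' fun e => (hρ k e).2).trans (g2.nearO_sub k)
  have pa : ∀ j k z, z ∈ (C.e j).near h r1 → z ∈ (l k).near (2 * h') (2 * r') →
      (C.e j).w z = (l k).w z → par C π k = j := fun j k z a b c => by
    by_contra e
    exact disjoint_left.1 (g1.disj e) (show (z, (C.e j).w z) ∈ _ from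
      ⟨n2 _ (n3 k b), c.trans (congrFun (hp k).1 z)⟩) ⟨n2 j a, rfl⟩
  refine ⟨fun j => ⟨?_, fun z hz => ⟨(g1.wan j z (n2 j hz.1)).continuousAt,
    g2.mem_moved ((g1.mem j (n2 j hz.1)).2 ?_) fun k b =>
      ((key _ _ _ _).1 hz).2 k (pa j k z hz.1 (g2.nearO_sub k b.1) b.2)⟩,
    fun k z hz b c z' hz' => ((key _ _ _ _).1 hz').2 k (pa j k z hz.1 (n4 k b) c)⟩,
    fun s u k hs hu z hz => ?_⟩
  · have e : rg C l ρ h r1 y y j = (C.e j).near h r1 ∩
        ⋂ k, ⋂ _ : par C π k = j, {z | ((l k).adj y (ρ k * Real.exp y)).side z} := by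
      ext z
      rw [key]
      simp only [mem_inter_iff, mem_iInter, mem_ofPred_eq]
    rw [e]
    exact (End.isCompact_near (c1.ok j) _ _).inter_right
      (isClosed_iInter fun k => isClosed_iInter fun _ => End.isClosed_side _)
  · by_cases e : (C.e j).k = Kind.pt
    · exact End.side_pt e z
    · have b := hz.1
      rw [End.near_loop e] at b
      exact (End.side_iff e ((c1.ok j).pos e) b.1).2 (h0.le.trans (hz.2.1 e))
  · have b := n4 k hz
    have dj : ∀ k', k' ≠ k → par C π k' = par C π k → z ∉ (l k').near (2 * h') (2 * r') :=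
      fun k' e f c => disjoint_left.1 (g2.disj e) (show (z, (l k).w z) ∈ _ from
        ⟨c, by rw [(hp k).1, (hp k').1, f]⟩) ⟨b, rfl⟩
    refine ⟨n3 k b, fun e => ?_, fun k' e f => ?_⟩
    · have r0 := (c1.ok _).pos e
      rcases k with i | k
      · have e' : (C.e i).k ≠ Kind.pt := e
        rw [l1, End.adj_loop e'] at hz
        exact hs.trans ((End.mem_sphere_rad r0).1 hz).2.ge
      · have b1 := n3 _ b
        have b2 := (g2.mem _ b).2 (End.side_pt (l2 k) z)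
        rw [(hp _).1, g1.mem _ (n2 _ b1)] at b2
        have b3 := dj (Sum.inl (par C π (Sum.inr k))) Sum.inl_ne_inr rfl
        rw [l1, End.near_loop e] at b3
        rw [End.near_loop e] at b1
        have b4 := (End.side_iff e r0 b1.1).1 b2
        by_contra b5
        exact b3 ⟨b1.1, by linarith, by linarith⟩
    · obtain ⟨b1, b2⟩ := hρ k' f
      have b3 := mul_le_mul_of_nonneg_left (Real.exp_le_exp.2 hu) b1.le
      by_cases i : k' = k
      · subst i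
        rw [End.adj_pt f (mul_pos b1 (Real.exp_pos y))] at hz
        exact b3.trans (mem_sphere_iff_norm.1 hz).ge
      · have b4 := dj k' i e
        rw [End.near_pt f, mem_closedBall_iff_norm, not_le] at b4
        linarith

end CIN

theorem st_cutm : St_CUTM := by
  intro C K π _ a q G x δ Sig Sg h r1 r' h' y ρ c1 c2 g1 g2 hI h0 h1 hρ
  obtain ⟨a1, a2⟩ := CIN.cutm (ρ := ρ) c1 c2 g1 g2 (fun _ => rfl) (fun _ => rfl) hI.par h0 h1 hρ
  have hr' := g2.r1pos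
  have sub := g2.cut_subset c2 (s := fun _ => y) (t := fun k => ρ k * Real.exp y) fun _ _ => h0.le
  refine ⟨a1, a2, fun k ρ' e b1 b2 v hv b3 => ?_, fun p ρ' b1 e b2 v hv b3 => ?_⟩
  · obtain ⟨b4, b5⟩ := hρ k e
    have b6 := mem_closedBall_iff_norm.1 b3
    have b7 := g2.side_of_moved hv (j := k) ⟨by
      rw [End.nearO_pt e, mem_ball_iff_norm]; linarith, b2.only v (sub hv) b3⟩
    beta_reduce at b7
    rw [End.adj_pt e (mul_pos b4 (Real.exp_pos y)), End.side_hole] at b7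
    linarith
  · obtain ⟨b4, b5, b6⟩ := b1 b3
    have b7 : (C.hub.adj y (ρ (Sum.inl C.H) * Real.exp y)).side v.1 :=
      g2.side_of_moved hv (j := Sum.inl C.H) ⟨show v.1 ∈ C.hub.nearO (2 * h') (2 * r') by
        rw [End.nearO_loop e]; exact ⟨b4, by linarith, by linarith⟩, b2.only v (sub hv) b3⟩
    rw [End.adj_loop e, End.side_move e ((c1.ok C.H).pos e) b4] at b7
    linarith

end Pool.Agent.S6
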