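import Pool.Agent.Lib.S6.EndsB

/-!
Section 6 of the project 9ccfb7: the end lemma at a large port.
-/

open Set Filter Topology Metric

noncomputable section

namespace Pool.Agent.S6

open Pool.Agent.CF (End Kind)
open Pool.Agent.Lib
open Pool.Agent.Lib.SH (bc ov)
open Pool.Agent.Lib.SH.Ring (af af_norm af_surj)

namespace ENDSP

theorem exp_two : (1 / 8 : ℝ) ≤ Real.exp (-2) := by
  have h1 : Real.exp 2 ≤ 8 := by
    rw [show (2 : ℝ) = 1 + 1 by norm_num, Real.exp_add]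
    have := Real.exp_one_lt_d9
    nlinarith [Real.exp_pos 1]
  rw [Real.exp_neg, one_div]
  exact inv_anti₀ (Real.exp_pos _) h1

theorem af_mem {p : ℂ} {r : ℝ} (hr : 0 < r) {z : ℂ} (hz : z ∈ closedBall (0 : ℂ) 1) :
    af p r z ∈ closedBall p r := by
  rw [mem_closedBall_iff_norm, af_norm hr]
  exact mul_le_of_le_one_right hr.le (mem_closedBall_zero_iff.1 hz)

theorem mem_af {p : ℂ} {r : ℝ} (hr : 0 < r) {z : ℂ} (hz : af p r z ∈ closedBall p r) :
    z ∈ closedBall (0 : ℂ) 1 := by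
  rw [mem_closedBall_iff_norm, af_norm hr] at hz
  rw [mem_closedBall_zero_iff]
  by_contra h
  nlinarith [not_le.1 h]

theorem an_af (p : ℂ) (r : ℝ) (z : ℂ) : AnalyticAt ℂ (af p r) z := by
  unfold af; fun_prop

/-- the final inequality -/
theorem fin {v s b γ κ : ℝ} (hv : 0 ≤ v) (hs : 0 < s) (hs1 : s ≤ 1) (hb : 0 ≤ b)
    (h : v ^ 2 * s ^ γ ≤ b ^ 2) (hκ : 1 + γ / 2 ≤ κ) : v / s ≤ b * s⁻¹ ^ κ := by
  have a1 : 0 < s ^ (γ / 2) := Real.rpow_pos_of_pos hs _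
  have a2 : s ^ γ = (s ^ (γ / 2)) ^ 2 := by
    rw [← Real.rpow_natCast, ← Real.rpow_mul hs.le]; norm_num
  rw [a2, ← mul_pow] at h
  have a3 : v * s ^ (γ / 2) ≤ b := (pow_le_pow_iff_left₀ (by positivity) hb two_ne_zero).1 h
  have a4 : s⁻¹ ^ (1 + γ / 2) ≤ s⁻¹ ^ κ :=
    Real.rpow_le_rpow_of_exponent_le ((one_le_inv₀ hs).2 hs1) hκ
  have a5 : s⁻¹ ^ (1 + γ / 2) = s⁻¹ * (s ^ (γ / 2))⁻¹ := by
    rw [Real.rpow_add (inv_pos.2 hs), Real.rpow_one, Real.inv_rpow hs.le]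
  refine le_trans ?_ (mul_le_mul_of_nonneg_left a4 hb)
  rw [a5, div_eq_mul_inv, mul_comm s⁻¹, ← mul_assoc]
  refine mul_le_mul_of_nonneg_right ?_ (inv_pos.2 hs).le
  rw [← div_eq_mul_inv, le_div_iff₀ a1]
  exact a3

end ENDSP

open ENDSP in
theorem st_endsp (hP : St_PPHW) : St_ENDSP := by
  intro η η0 η1
  have g0 : 0 < η / 2 := by positivity
  have g1 : η / 2 ≤ 1 / 2 := by linarith
  obtain ⟨ι, hι, H⟩ := SH.all_pp2 (η / 2) (4 * 1 * Real.exp (2 * 1)) g0 g1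
  obtain ⟨o, ho, HP⟩ := hP ι hι
  refine ⟨o, ho, fun J sp j lam X K ρ τ Λw o' hoo hS hk hw ⟨g, ga, gz⟩ hom ⟨hΛ, G, _, hG⟩ hCu hκ
    hρ2 hr2 hr21 ⟨Nw, t, R, t0, t1, R0, R1, ρ0, hR, hKD, hW⟩ => ?_⟩
  obtain ⟨Ga, Gz⟩ := hG hk
  set l := sp.l j with hl
  set r := sp.r1 with hr
  have r0 : 0 < r := by linarith
  have rc : (r : ℂ) ≠ 0 := Complex.ofReal_ne_zero.2 r0.ne'
  have hnear : l.near sp.h r = closedBall l.c r := End.near_pt hk _ _
  have hin : ∀ y ∈ SH.near (X \ K) l.w τ, y.1 ∈ closedBall l.c r → y ∈ SH.near X l.w R :=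
    fun y hy h => ⟨hy.1.1, (hR y hy.1.1 hy.1.2 ⟨hnear ▸ h, hy.2⟩).le⟩
  have hout : ∀ y ∈ SH.near X l.w R, y ∉ K → y ∈ SH.near (X \ K) l.w τ :=
    fun y hy h => ⟨⟨hy.1, h⟩, hy.2.trans R1⟩
  have np0 : SH.NP (SH.near X l.w R) K (closedBall l.c r) :=
    SH.Win.np_near hS.cX hS.np isClosed_closedBall (fun z hz => (hw z hz).continuousAt)
      fun y h1 h2 h3 h4 => (hR y h1 h2 ⟨hnear ▸ h3, h4.le.trans R1⟩).ne h4
  have np1 : SH.NP (bc (af l.c r) ⁻¹' SH.near X l.w R) (bc (af l.c r) ⁻¹' K) (closedBall 0 1) :=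
    SH.Win.np_aff r0 np0
  set N : E → ℂ := fun y => (y.2 - l.w (af l.c r y.1)) * r / g (af l.c r y.1) with hN
  have Na : AnalyticOnNhd ℂ N (ov (bc (af l.c r) ⁻¹' SH.near X l.w R) (closedBall 0 1)) := by
    intro y hy
    have a1 : AnalyticAt ℂ (fun y : E => af l.c r y.1) y := (an_af _ _ _).comp analyticAt_fst
    have a2 : AnalyticAt ℂ (fun y : E => l.w (af l.c r y.1)) y :=
      AnalyticAt.comp (f := fun y : E => af l.c r y.1) (hw _ (af_mem r0 hy.2)) a1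
    have a3 : AnalyticAt ℂ (fun y : E => g (af l.c r y.1)) y :=
      AnalyticAt.comp (f := fun y : E => af l.c r y.1) (ga _ (af_mem r0 hy.2)) a1
    exact ((analyticAt_snd.sub a2).mul analyticAt_const).div a3 (gz _ (af_mem r0 hy.2)).1
  have afne : ∀ z : ℂ, z ≠ 0 → af l.c r z ≠ l.c := fun z hz h => by
    have := af_norm (p := l.c) r0 z
    rw [h, sub_self, norm_zero] at this
    exact (mul_pos r0 (norm_pos_iff.2 hz)).ne this
  have Neq : ∀ y : E, y.1 ∈ closedBall (0 : ℂ) 1 → y.1 ≠ 0 →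
      y.1 * N y * lam (af l.c r y.1) = y.2 - l.w (af l.c r y.1) := fun y hy h0 => by
    obtain ⟨b1, b2⟩ := gz _ (af_mem r0 hy)
    rw [b2 (afne _ h0)]
    have : af l.c r y.1 - l.c = r * y.1 := by simp [af]
    simp only [hN, this]
    field_simp
  obtain ⟨Mup, hPP, hM⟩ := HP (SH.near X l.w R) K l.w Nw lam N l.c (closedBall l.c r) r ρ t R
    (η / 2) o' False ρ0 (by nlinarith [exp_two]) t0 (t1.trans hoo) hoo g0 g1 R0 subset_rfl hW
    (fun y hy => ⟨hy.1.2, fun h => hKD.1 y h hy.2 hy.1.2⟩) hKD.2 fun y hy h => Neq y hy.2 h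
  have key : ∀ b : ℝ, 0 ≤ b →
      (∀ y ∈ bc (af l.c r) ⁻¹' SH.near X l.w R, y ∉ bc (af l.c r) ⁻¹' K → ‖y.1‖ = 1 →
        ‖y.1 * N y‖ ≤ b) →
      ∀ y ∈ ov (bc (af l.c r) ⁻¹' SH.near X l.w R) (closedBall 0 1), y ∉ bc (af l.c r) ⁻¹' K →
        ‖y.1 * N y‖ ^ 2 * ‖y.1‖ ^ (η / 2) ≤ b ^ 2 := fun b hb h y hy hK => by
    have := H _ _ N 0 0 Mup (b ^ 2) le_rfl np1 Na hPP (by positivity) (by positivity)
      (fun u hu _ => by rw [SH.Win.norm_pp0]; exact (hM u hu).1)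
      (fun u hu h1 h2 => by rw [SH.Win.norm_pp0]; gcongr; exact h u hu h1 h2) y hy hK
    rwa [SH.Win.norm_pp0] at this
  have hφ : ∀ y : E, y.1 ∈ closedBall (0 : ℂ) 1 → y.1 ≠ 0 →
      sp.φ j (bc (af l.c r) y) = ‖y.1 * N y‖ / ‖y.1‖ * Real.exp (G (af l.c r y.1)).re := by
    intro y hy h0
    have m := af_mem (p := l.c) r0 hy
    have n0 : 0 < ‖y.1‖ := norm_pos_iff.2 h0
    have b1 := (Gz _ m).1 (afne _ h0)
    have b2 : lam (af l.c r y.1) ≠ 0 := by
      rw [(gz _ m).2 (afne _ h0)]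
      exact div_ne_zero (gz _ m).1 (sub_ne_zero.2 (afne _ h0))
    have b3 : 0 < ‖sp.om j (af l.c r y.1) * lam (af l.c r y.1)‖ :=
      norm_pos_iff.2 (mul_ne_zero (hom _ m) b2)
    have b4 := congrArg Real.exp b1
    rw [Real.exp_log b3, af_norm r0, one_mul, Real.exp_add, Real.exp_log (by positivity)] at b4
    change ‖y.2 - l.w (af l.c r y.1)‖ * ‖sp.om j (af l.c r y.1)‖ = _
    rw [← Neq y hy h0, norm_mul _ (lam _), mul_assoc, ← norm_mul (lam _), mul_comm (lam _), b4]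
    field_simp
  refine ⟨fun lv lv0 _ => ⟨fun h => absurd hk h, fun h x hx hc => ?_⟩, fun h x hx hc => ?_⟩
  · rw [cc, if_pos hk] at h
    rw [col, if_pos hk] at hc
    rw [if_pos hk]
    obtain ⟨y, rfl⟩ := af_surj l.c r0 x
    have c1 : af l.c r y.1 ∈ closedBall l.c r := mem_closedBall_iff_norm.2 hc.2
    have c2 := mem_af r0 c1
    have c3 : y.1 ≠ 0 := fun e => by
      have : sp.r2 ≤ ‖af l.c r y.1 - l.c‖ := hc.1
      rw [af_norm r0, e, norm_zero] at this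
      linarith
    have n0 : 0 < ‖y.1‖ := norm_pos_iff.2 c3
    have c4 := key (lv * Real.exp (Λw - (G l.c).re)) (by positivity) (fun u hu h1 h2 => by
      have d1 : u.1 ∈ closedBall (0 : ℂ) 1 := mem_closedBall_zero_iff.2 h2.le
      have d2 : u.1 ≠ 0 := fun e => by simp [e] at h2
      have d3 := h _ (hout _ hu h1) (mem_sphere_iff_norm.2 ((af_norm r0 _).trans (by
        rw [h2, mul_one])))
      rw [hφ u d1 d2, h2, div_one, ← le_div_iff₀ (Real.exp_pos _), div_eq_mul_inv,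
        ← Real.exp_neg] at d3
      refine d3.trans (mul_le_mul_of_nonneg_left (Real.exp_le_exp.2 ?_) lv0.le)
      linarith [(Gz _ (mem_closedBall_self r0.le)).2 _ (af_mem (p := l.c) r0 d1)])
      y ⟨hin _ hx c1, c2⟩ hx.1.2
    have c5 := fin (κ := sp.κ j) (norm_nonneg _) n0 (mem_closedBall_zero_iff.1 c2)
      (by positivity) c4 (by linarith)
    have c6 : r / ‖(bc (af l.c r) y).1 - l.c‖ = ‖y.1‖⁻¹ := by
      change r / ‖af l.c r y.1 - l.c‖ = _
      rw [af_norm r0]; field_simp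
    rw [hφ y c2 c3, c6]
    have c7 : Real.exp (Λw - (G l.c).re) * Real.exp (G (af l.c r y.1)).re ≤ Real.exp sp.Cu := by
      rw [← Real.exp_add, Real.exp_le_exp]
      linarith [(Gz _ c1).2 _ (mem_closedBall_self r0.le)]
    have c8 : 0 ≤ ‖y.1‖⁻¹ ^ sp.κ j := by positivity
    calc _ ≤ lv * Real.exp (Λw - (G l.c).re) * ‖y.1‖⁻¹ ^ sp.κ j *
          Real.exp (G (af l.c r y.1)).re := mul_le_mul_of_nonneg_right c5 (Real.exp_pos _).le
      _ = lv * (Real.exp (Λw - (G l.c).re) * Real.exp (G (af l.c r y.1)).re) *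
          ‖y.1‖⁻¹ ^ sp.κ j := by ring
      _ ≤ _ := by gcongr
  · refine ⟨?_, End.side_pt hk _⟩
    rw [cc, if_pos hk] at h
    rw [hnear] at hc
    obtain ⟨Eg, u, y0, e1, -, e3, e4, e5, -⟩ := hW
    have c1 := key 0 le_rfl fun u hu h1 h2 => by
      have d3 : u.2 = l.w (af l.c r u.1) :=
        h _ (hout _ hu h1) (mem_sphere_iff_norm.2 ((af_norm r0 _).trans (by rw [h2, mul_one])))
      simp [hN, d3]
    have c2 : 0 < ρ * Real.exp y0 / r := by positivity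
    have c3 : ρ * Real.exp y0 ≤ ρ := mul_le_of_le_one_right ρ0.le (Real.exp_le_one_iff.2 e1)
    have c4 := SH.Win.port_zero np1 Na c2 ((div_le_one r0).2 (by linarith)) (fun u hu h1 => by
      by_cases e : u.1 = 0
      · rw [e, zero_mul]
      · have d1 : 0 < ‖u.1‖ ^ (η / 2) := Real.rpow_pos_of_pos (norm_pos_iff.2 e) _
        have d2 := c1 u hu h1
        have d3 : ‖u.1 * N u‖ ^ 2 ≤ 0 := by
          by_contra c
          nlinarith [mul_pos (not_le.1 c) d1]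
        exact norm_eq_zero.1 (pow_eq_zero_iff two_ne_zero |>.1 (le_antisymm d3 (by positivity))))
      fun v hv h1 => by
        have d1 : ‖af l.c r v.1 - l.c‖ ≤ ρ * Real.exp y0 := by
          have := mem_closedBall_zero_iff.1 hv.2
          rw [le_div_iff₀ r0] at this
          rw [af_norm r0]; linarith
        have d2 : v.2 = l.w (af l.c r v.1) + Nw (af l.c r v.1) :=
          (hKD.1 _ h1 (mem_closedBall_iff_norm.2 (d1.trans (by linarith))) hv.1.2).2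
        have d3 : Nw (af l.c r v.1) = 0 := by
          by_cases e : af l.c r v.1 = l.c
          · rw [e, e4]
          · have n0 : 0 < ‖af l.c r v.1 - l.c‖ := norm_pos_iff.2 (sub_ne_zero.2 e)
            have d4 : Real.log (‖af l.c r v.1 - l.c‖ / ρ) ≤ y0 := by
              rw [Real.log_le_iff_le_exp (by positivity), div_le_iff₀ ρ0]; linarith
            have d5 : ρ ≤ ρ * Real.exp (2 * t) :=
              le_mul_of_one_le_right ρ0.le (Real.one_le_exp (by positivity))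
            rw [e5 _ (mem_closedBall_iff_norm.2 (d1.trans (c3.trans d5))) e]
            simp [fun i => (e3 i).2.2.2.2 _ d4]
        simp [hN, d2, d3]
    obtain ⟨y, rfl⟩ := af_surj l.c r0 x
    have c5 := c4 y ⟨hin _ hx hc, mem_af r0 hc⟩ hx.1.2
    simp only [hN, div_eq_zero_iff, mul_eq_zero, rc, or_false] at c5
    rcases c5 with c5 | c5
    · exact sub_eq_zero.1 c5
    · exact absurd c5 (gz _ hc).1

end Pool.Agent.S6
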