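import Pool.Agent.Lib.S6.EndsB
import Pool.Agent.Lib.SH.All1

open Set Filter Topology Metric

noncomputable section

namespace Pool.Agent.S6

open Pool.Agent.Lib
open Pool.Agent.Lib.SH (bc ov)
open Pool.Agent.Lib.SH.Ring (af af_norm)

namespace PPHW

theorem dirz {u : ℂ → ℂ} {p z : ℂ} {r o ω : ℝ} (hu : AnalyticAt ℂ u (af p r z))
    (h1 : ‖u (af p r z) - 1‖ ≤ o) (h2 : ‖(af p r z - p) * deriv u (af p r z)‖ ≤ o)
    (ho : o ≤ 1 / 2) (hω : o ≤ ω / 2) :
    SH.DirZ (fun s => u (af p r s)) ω 1 z ∧ 1 / 2 ≤ ‖u (af p r z)‖ ∧ ‖u (af p r z)‖ ≤ 2 := by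
  have ha : HasDerivAt (af p r) r z := by
    have := ((hasDerivAt_id z).const_mul (r : ℂ)).const_add p
    rwa [mul_one] at this
  have hd : z * deriv (fun s => u (af p r s)) z = (af p r z - p) * deriv u (af p r z) := by
    rw [show deriv (fun s => u (af p r s)) z = deriv u (af p r z) * r from
      (hu.differentiableAt.hasDerivAt.comp z ha).deriv, af]
    ring
  have a1 := (Complex.abs_re_le_norm _).trans h1
  have a2 := (Complex.abs_im_le_norm _).trans h1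
  rw [Complex.sub_re, Complex.one_re] at a1
  rw [Complex.sub_im, Complex.one_im, sub_zero] at a2
  have a3 : 1 / 2 ≤ (u (af p r z)).re := by linarith [neg_abs_le ((u (af p r z)).re - 1)]
  have a4 := a3.trans (Complex.re_le_norm _)
  have a5 := norm_le_norm_add_norm_sub' (u (af p r z)) 1
  have a6 : 0 ≤ ω := by linarith [norm_nonneg (u (af p r z) - 1)]
  rw [norm_one] at a5
  refine ⟨⟨hu.comp (analyticAt_const.add (analyticAt_const.mul analyticAt_id)), ?_, ?_, ?_⟩,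
    a4, by linarith⟩
  · nlinarith
  · rw [hd]; linarith
  · rw [hd]; nlinarith [Complex.abs_re_le_norm ((af p r z - p) * deriv u (af p r z))]

theorem rpow_le {s γ : ℝ} (hs : 0 ≤ s) (h0 : 0 ≤ γ) (h1 : γ ≤ 1) : s ^ γ ≤ 1 + s :=
  (Real.rpow_le_rpow hs (by linarith) h0).trans
    ((Real.rpow_le_rpow_of_exponent_le (by linarith) h1).trans_eq (Real.rpow_one _))

theorem exp_three : Real.exp 3 ≤ 100 := by
  rw [show (3 : ℝ) = (3 : ℕ) * 1 by norm_num, Real.exp_nat_mul]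
  have := Real.exp_one_lt_d9
  calc Real.exp 1 ^ 3 ≤ 3 ^ 3 := by gcongr; linarith
    _ ≤ 100 := by norm_num

end PPHW

open PPHW

theorem st_pphw : St_PPHW := by
  intro ι hι
  obtain ⟨ω, hω, H⟩ := SH.all_pps ι 1 hι zero_le_one
  refine ⟨min (ω / 2) (1 / 2), lt_min (half_pos hω) (by norm_num), ?_⟩
  intro X K w Nw lam N p D rad ρ t R γ o' act hρ hρr ht hto ho' hγ hγ' hR hD
    ⟨Eg, u, y0, _, _, hu, _, hN, hl⟩ hX hK hP
  have m1 := min_le_left (ω / 2) (1 / 2 : ℝ)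
  have m2 := min_le_right (ω / 2) (1 / 2 : ℝ)
  have hr : 0 < rad := (mul_pos_iff_of_pos_right (Real.exp_pos _)).1 (hρ.trans_le hρr)
  obtain ⟨η, hη⟩ : ∃ η, η = Real.log (ρ / rad) := ⟨_, rfl⟩
  have e0 : Real.exp η = ρ / rad := by rw [hη, Real.exp_log (div_pos hρ hr)]
  have η2 : η ≤ -2 := by
    rw [← Real.exp_le_exp, e0, div_le_iff₀ hr, mul_comm]; exact hρr
  have mem : ∀ z ∈ closedBall (0 : ℂ) 1, af p rad z ∈ closedBall p rad := fun z hz => by
    rw [mem_closedBall_iff_norm, af_norm hr]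
    exact mul_le_of_le_one_right hr.le (mem_closedBall_zero_iff.1 hz)
  have ne : ∀ z : ℂ, z ≠ 0 → af p rad z ≠ p := fun z hz h => by
    have := af_norm (p := p) hr z
    rw [h, sub_self, norm_zero] at this
    exact (mul_pos hr (norm_pos_iff.2 hz)).ne this
  have lg : ∀ z : ℂ, z ≠ 0 → Real.log (‖af p rad z - p‖ / ρ) = Real.log ‖z‖ - η := fun z hz => by
    rw [af_norm hr, hη, ← Real.log_div (norm_ne_zero_iff.2 hz) (div_pos hρ hr).ne']
    congr 1; field_simp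
  have iff : ∀ (z : ℂ) (s : ℝ), z ≠ 0 →
      (af p rad z ∈ closedBall p (ρ * Real.exp s) ↔ Real.log ‖z‖ - η ≤ s) := fun z s hz => by
    rw [← lg z hz, mem_closedBall_iff_norm, Real.log_le_iff_le_exp
      (div_pos (norm_pos_iff.2 (sub_ne_zero.2 (ne z hz))) hρ), div_le_iff₀ hρ, mul_comm]
  have l0 : ∀ z ∈ closedBall (0 : ℂ) 1, z ≠ 0 → lam (af p rad z) ≠ 0 := fun z hz h0 h => by
    have := hl _ (hD (mem z hz)) (ne z h0)
    rw [h, norm_zero, mul_zero] at this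
    exact absurd this (not_le.2 (by positivity))
  refine ⟨(∑ i, Eg i (t / 2)) ^ 2 * Real.exp (γ * (η + t / 2)), ?_, fun y hy => ?_⟩
  · refine H Bool _ _ N (fun i y => Eg i (y - η)) (fun i y => deriv (Eg i) (y - η))
      (fun i s => u i (af p rad s)) γ (t / 2) (η + y0) (η + t / 2) _ hγ hγ' (half_pos ht)
      (by linarith) (by linarith) (fun i y hy => ?_) (fun y hy => ?_) (fun i z hz => ?_)
      (by simp only [add_sub_cancel_left, le_refl]) (fun y hy a b _ => ?_) fun y hy a b c => ?_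
    · obtain ⟨a, b⟩ := (hu i).2.2.1 (y - η) (show y - η ≤ 2 * t by linarith)
      refine ⟨a.hasDerivAt.comp_sub_const y η, ?_, fun c => (hu i).2.2.2.2 _ (by linarith)⟩
      exact nonneg_of_mul_nonneg_right ((abs_nonneg _).trans b) (by positivity)
    · rw [Finset.mul_sum]
      refine Finset.sum_le_sum fun i _ => (le_abs_self _).trans ?_
      exact ((hu i).2.2.1 (y - η) (show y - η ≤ 2 * t by linarith)).2.trans_eq (by ring)
    · have a := hD (mem z hz)
      exact dirz ((hu i).1 _ a) ((hu i).2.1 _ a).1 ((hu i).2.1 _ a).2 (by linarith) (by linarith)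
    · have h0 : y.1 ≠ 0 := left_ne_zero_of_mul b
      obtain ⟨c, d⟩ := (hX (bc (af p rad) y) ⟨hy.1, mem _ hy.2⟩).2 a
      have c' := (iff y.1 t h0).1 c
      have d' : y.2 = w (af p rad y.1) + Nw (af p rad y.1) := d
      refine ⟨by linarith, mul_right_cancel₀ (l0 _ hy.2 h0) ?_⟩
      rw [hP y hy h0, d', add_sub_cancel_left,
        hN _ ((iff y.1 _ h0).2 (by linarith)) (ne _ h0), lg _ h0]
    · have h0 : y.1 ≠ 0 := left_ne_zero_of_mul a
      have d := (iff y.1 (2 * t) h0).2 (by linarith)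
      have e := hP y hy h0
      rw [c, ← lg _ h0, ← hN _ d (ne _ h0)] at e
      have f := hK _ d
      rw [e, add_sub_cancel] at f
      exact f
  by_cases h0 : y.1 = 0
  · simp only [h0, zero_mul, norm_zero, ne_eq, OfNat.ofNat_ne_zero, not_false_eq_true, zero_pow]
    exact ⟨by positivity, fun _ => by positivity⟩
  obtain ⟨S, hS⟩ : ∃ S, S = ∑ i, Eg i (t / 2) := ⟨_, rfl⟩
  obtain ⟨s, hs⟩ : ∃ s, s = ‖af p rad y.1 - p‖ / ρ := ⟨_, rfl⟩
  have s0 : 0 ≤ s := by rw [hs]; positivity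
  have S0 : 0 ≤ S := hS ▸ Finset.sum_nonneg fun i _ => (hu i).2.2.2.1 _ (by linarith)
  have a1 := hl _ (hD (mem _ hy.2)) (ne _ h0)
  have a2 : ‖y.1 * N y‖ * ‖lam (af p rad y.1)‖ ≤ R := by
    rw [← norm_mul, hP y hy h0]; exact (hX (bc (af p rad) y) ⟨hy.1, mem _ hy.2⟩).1
  rw [← hS, ← hs] at a1
  rw [← hS]
  obtain ⟨q, hq⟩ : ∃ q, q = ‖y.1 * N y‖ := ⟨_, rfl⟩
  have q0 : 0 ≤ q := hq ▸ norm_nonneg _
  rw [← hq] at a2 ⊢
  have a3 : 100 * (1 + s) * q ≤ S := by
    refine le_of_mul_le_mul_left ?_ hR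
    nlinarith [mul_le_mul_of_nonneg_left a1 q0, mul_le_mul_of_nonneg_left a2 S0]
  have a4 : 10000 * (1 + s) ^ 2 * q ^ 2 ≤ S ^ 2 := by
    have := pow_le_pow_left₀ (by positivity) a3 2
    linarith
  have a5 : (1 + s) * q ^ 2 ≤ S ^ 2 ∧ 100 * q ^ 2 ≤ S ^ 2 := by
    constructor <;> nlinarith [mul_nonneg s0 (sq_nonneg q), mul_nonneg (sq_nonneg s) (sq_nonneg q)]
  have a6 : Real.exp (γ * η) ≤ Real.exp (γ * (η + t / 2)) := Real.exp_le_exp.2 (by nlinarith)
  refine ⟨?_, fun hb => ?_⟩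
  · have b1 : ‖y.1‖ = s * Real.exp η := by rw [hs, af_norm hr, e0]; field_simp
    have b2 := rpow_le s0 hγ.le (by linarith : γ ≤ 1)
    rw [b1, Real.mul_rpow s0 (Real.exp_pos _).le, ← Real.exp_mul, mul_comm η]
    calc q ^ 2 * (s ^ γ * Real.exp (γ * η)) ≤ q ^ 2 * ((1 + s) * Real.exp (γ * (η + t / 2))) := by
          gcongr
      _ = (1 + s) * q ^ 2 * Real.exp (γ * (η + t / 2)) := by ring
      _ ≤ _ := by gcongr; exact a5.1
  · have b1 : -5 ≤ η := by
      rw [← Real.exp_le_exp, e0, le_div_iff₀ hr, Real.exp_neg, inv_mul_le_iff₀ (Real.exp_pos _)]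
      exact hb
    have b2 : Real.exp (-3) ≤ Real.exp (γ * (η + t / 2)) := Real.exp_le_exp.2 (by nlinarith)
    have b3 : 1 / 100 ≤ Real.exp (-3) := by
      rw [Real.exp_neg, ← one_div]; exact one_div_le_one_div_of_le (Real.exp_pos _) exp_three
    nlinarith [mul_le_mul_of_nonneg_left (b3.trans b2) (sq_nonneg S), a5.2]

end Pool.Agent.S6
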