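import Pool.Agent.Lib.S6.Ends4
import Pool.Agent.Lib.S6.B_PPHW
import Pool.Agent.Lib.S6.B_ENDSP

/-!
The end lemma: the descriptions give the end properties.
-/

open Set Filter Topology Metric

noncomputable section

namespace Pool.Agent.S6

open Pool.Agent.CF (End Kind Cv)
open Pool.Agent.Lib Pool.Agent.Lib.SH Pool.Agent.Lib.SH.Win Pool.Agent.Lib.SH.Ring

namespace ENDS

variable {l : End}

theorem norm_hx {p : ℂ} (hp : p ≠ l.c) : ‖hx l p‖ = 1 := by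
  rw [hx, norm_div, Complex.norm_real, norm_norm, div_self (norm_ne_zero_iff.2 (sub_ne_zero.2 hp))]

theorem ech_port (hk : l.k = Kind.out) (hr : 0 < l.r) {p : ℂ} (hp : p ≠ l.c) :
    ech l (wch (hx l p) (l.dep p) 0 Complex.I) = p := by
  have a1 := norm_pos_iff.2 (sub_ne_zero.2 hp)
  have a2 : Complex.exp (Complex.I * (l.dep p * Complex.I + (0 : ℝ) * Complex.I)) =
      ((‖p - l.c‖ / l.r : ℝ) : ℂ) := by
    rw [← Real.exp_log (div_pos a1 hr), Complex.ofReal_exp, End.dep, End.sgn, if_pos hk]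
    congr 1
    push_cast
    linear_combination (-(Real.log (‖p - l.c‖ / l.r) : ℂ)) * Complex.I_sq
  have a3 : (l.r : ℂ) ≠ 0 := Complex.ofReal_ne_zero.2 hr.ne'
  have a4 : ((‖p - l.c‖ : ℝ) : ℂ) ≠ 0 := Complex.ofReal_ne_zero.2 a1.ne'
  rw [ech, if_pos hk, wch, a2, hx]
  push_cast
  field_simp
  ring

/-- bound of the logarithmic derivatives of the directions -/
def cf (u : Bool → ℂ → ℂ) (z : ℂ) : ℝ :=
  max (‖z * deriv (u true) z‖ / ‖u true z‖) (‖z * deriv (u false) z‖ / ‖u false z‖)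

theorem pos_of {f : ℝ → ℝ} {t s : ℝ} (ht : 0 < t) (h1 : Stp f (Icc (-(2 * t)) (2 * t)) s)
    (h2 : ∀ y ∈ Icc (-(2 * t)) (2 * t), 0 ≤ y * f y) (y : ℝ) (a : 0 ≤ y) (b : y ≤ 2 * t) :
    0 ≤ f y := by
  have k : ∀ y, 0 < y → y ≤ 2 * t → 0 ≤ f y := fun y a b =>
    nonneg_of_mul_nonneg_right (h2 y ⟨by linarith, b⟩) a
  rcases a.eq_or_lt with rfl | a
  · refine ge_of_tendsto ((h1 0 ⟨by linarith, b⟩).1.continuousAt.tendsto.mono_left
      (nhdsWithin_le_nhds (s := Ioi 0))) ?_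
    filter_upwards [Ioc_mem_nhdsGT (show 0 < 2 * t by linarith)] with y hy using k y hy.1 hy.2
  · exact k y a b

theorem rl_of {ι W : Type} {U : Finset ι} {p : ι → ℂ} {x : W → ℂ} {δ : W → ℝ}
    {Ef : Bool → ℝ → ℝ} {u : Bool → ℂ → ℂ} {o C t : ℝ} (hr : 0 < l.r) (ht : 0 < t) (hC : 0 ≤ C)
    (hU : ∀ k ∈ U, ∃ i, l.k = Kind.out ∧ hx l (p k) = x i ∧ l.dep (p k) = δ i)
    (h : ∀ i, Stp (Ef i) (Icc (-(2 * t)) (2 * t)) (t / 4) ∧
      (∀ y ∈ Icc (-(2 * t)) (2 * t), 0 ≤ y * Ef i y) ∧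
      ∀ z ∈ l.ann (Icc (-(2 * t)) (2 * t)), NDir l U p (u i) o C z) :
    (∀ om, o ≤ om → RL Ef (fun i => deriv (Ef i)) (fun i z => u i (ech l z)) om
      (cf fun i z => u i (ech l z)) t) ∧ ∀ z : ℂ, |Real.log ‖z‖| ≤ 2 * t → ∀ s : ℝ, s ≤ 1 →
      (∀ i, s ≤ ‖z - x i‖ + δ i) → s * cf (fun i z => u i (ech l z)) z ≤ C := by
  have k : ∀ i (z : ℂ), z ≠ 0 → -Real.log ‖z‖ ∈ Icc (-(2 * t)) (2 * t) →
      NDir l U p (u i) o C (ech l z) ∧ (z * deriv (fun z => u i (ech l z)) z =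
        (ech l z - l.c) * deriv (u i) (ech l z) ∨ z * deriv (fun z => u i (ech l z)) z =
        -((ech l z - l.c) * deriv (u i) (ech l z))) := fun i z a b => by
    have a1 := (h i).2.2 _ ⟨(ech_ne hr a).1, (ech_ne hr a).2 ▸ b⟩
    refine ⟨a1, ?_⟩
    rw [show deriv (fun z => u i (ech l z)) z = _ from deriv_comp z a1.1.differentiableAt
      (ech_der hr a).1.differentiableAt, mul_left_comm]
    exact (ech_der hr a).2.imp (fun e => by rw [e, mul_comm]) fun e => by rw [e]; ring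
  refine ⟨fun om ho => ⟨fun i y hy => ⟨((h i).1 y hy).1.hasDerivAt, nonneg_of_mul_nonneg_right
    ((abs_nonneg _).trans ((h i).1 y hy).2) (by positivity)⟩, fun i y hy => Or.inr fun z hz => ?_,
    fun y hy z _ => ?_, fun y hy => ?_⟩, fun z hz s s1 hs => ?_⟩
  · have a0 : z ≠ 0 := norm_pos_iff.1 (hz ▸ Real.exp_pos _)
    obtain ⟨⟨a1, a2, a3, a4, -⟩, a5⟩ := k i z a0 (by rwa [hz, Real.log_exp, neg_neg])
    have a6 := a2.trans_le (Complex.re_le_norm _)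
    refine ⟨a1.comp (ech_der hr a0).1, a3.trans (by gcongr), (div_le_iff₀ a6).1 ?_, ?_⟩
    · cases i
      exacts [le_max_right _ _, le_max_left _ _]
    · rcases a5 with e | e <;> rw [e]
      · exact a4.trans (by gcongr)
      · rw [Complex.neg_re, abs_neg]
        exact a4.trans (by gcongr)
  · rw [Finset.mul_sum]
    exact Finset.sum_le_sum fun i _ => by
      rw [← mul_assoc]; exact mul_le_mul_of_nonneg_right ((h i).1 y hy).2 (norm_nonneg _)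
  · rcases le_or_gt 0 y with a | a
    · exact Or.inl fun i => pos_of ht (h i).1 (h i).2.1 y a hy.2
    · exact Or.inr fun i => by nlinarith [(h i).2.1 y hy]
  by_cases a0 : z = 0
  · simpa [cf, a0] using hC
  have b : ∀ i, s * (‖z * deriv (fun z => u i (ech l z)) z‖ / ‖u i (ech l z)‖) ≤ C := fun i => by
    obtain ⟨⟨-, a2, -, -, a4⟩, a5⟩ := k i z a0 (thin_mem a0 hz).1
    rw [← mul_div_assoc, div_le_iff₀ (a2.trans_le (Complex.re_le_norm _)),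
      show ‖z * deriv (fun z => u i (ech l z)) z‖ = ‖(ech l z - l.c) * deriv (u i) (ech l z)‖ by
        rcases a5 with e | e <;> simp only [e, norm_neg]]
    refine a4 s s1 fun j hj => ?_
    obtain ⟨m, e1, e2, e3⟩ := hU j hj
    rw [e2, e3, ech, if_pos e1, add_sub_cancel_left,
      mul_div_cancel_left₀ _ (Complex.ofReal_ne_zero.2 hr.ne')]
    exact hs m
  rw [cf, max_def]
  split_ifs
  exacts [b false, b true]

theorem ends_loop (hP : St_PPHW) {ab : Ab} (hab : ab.OK) {W : Type} [Fintype W] {x : W → ℂ}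
    {ρ β : W → ℝ} {h Λw Cu Λ0 η CD : ℝ} {n : ℕ} {κf : ℝ → ℝ} (hK : Kit h n Λw Cu Λ0 η κf)
    (hn : Fintype.card W ≤ n) (hW : ∀ i, ‖x i‖ = 1 ∧ 0 < ρ i ∧ ρ i ≤ h / 8 ∧ 0 < β i ∧ β i ≤ 1)
    (hs : ∀ i k, i ≠ k → 2 * ρ i ≤ ‖x i - x k‖) (hD : 1 ≤ CD) : ∃ o > (0 : ℝ),
    ∀ (J : Type) (A : Cv) (pr : A.ι → ℝ) (sp : Sp J) (fd : FD J A.ι) (wk : W → A.ι) (j : J),
    Fit ab.L ab.Cw A pr sp fd → (∀ j, (A.e j).ok) → A.hub.k = Kind.out →
    (∀ k, k ∈ fd.win A j ↔ ∃ i, wk i = k) → Function.Injective wk →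
    (∀ i, hx A.hub (A.e (wk i)).c = x i ∧ fd.ρ (wk i) = ρ i ∧ fd.β (wk i) = β i) →
    sp.h = h ∧ fd.n = n ∧ fd.Λw = Λw ∧ sp.Cu = Cu ∧ sp.Λ0 = Λ0 ∧ fd.η = η ∧ fd.CD = CD ∧
      fd.κf = κf →
    ∀ (X K : Set E) (τ o1 : ℝ) (V Bs : Finset A.ι), o1 ≤ o → Std X K →
      AnalyticOnNhd ℂ (sp.l j).w ((sp.l j).near sp.h sp.r1) → (sp.l j).k ≠ Kind.pt →
      V ⊆ fd.U → Disjoint V Bs → (fd.m j = A.H → fd.gain ≤ fd.gsum V) →
      RDesc ab A pr sp fd j V Bs X K τ o1 → sp.End1 (X \ K) τ j := by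
  classical
  obtain ⟨L1, -, -, L2, -, -, L3, L4, L5⟩ := hab.num
  have hL : 13 ≤ ab.L := by linarith
  obtain ⟨CN, n1, c0, n2, Mn, n3, n4, n5⟩ := hab.neu
  obtain ⟨CB, b1, Mb, b2, b3, b4⟩ := hab.bir
  choose Ma a1 a2 a3 using fun i => hab.act (β i) (hW i).2.2.2.1 (hW i).2.2.2.2
  have h0 := hK.1
  have h1 := hK.2.1
  have kf := fun i => hK.2.2.2.2.2.2.1 _ (L5 (β i))
  obtain ⟨o1, p1, H1⟩ := pos_inf fun b : W → Prop => ring_core hK (x := x) (ρ := ρ)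
    (ex := fun i => if b i then 4 - 2 * β i else 0) (Cw := fun i => ab.Cw (β i))
    ⟨hn, fun i => ⟨(hW i).1, (hW i).2.1, (hW i).2.2.1, by
      beta_reduce
      split_ifs
      · exact abs_le.2 ⟨by linarith [(hW i).2.2.2.2], by linarith [(hW i).2.2.2.1]⟩
      · simp, L5 _⟩, hs⟩ (2 * CD) (by linarith)
  obtain ⟨o2, p2, H2⟩ := pos_inf fun i => act_core (a2 i) hL (a1 i) (hW i).2.2.2.1 (hW i).2.2.2.2
    (8 * CD) (by linarith)
  obtain ⟨o3, p3, H3⟩ := neu_core n4 hL n3 n2 n1 (8 * CD) (by linarith)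
  obtain ⟨o4, p4, H4⟩ := bir_core b3 hL L2 b2 b1 L3
    (L4.trans ((div_le_one (by linarith)).2 (by linarith)))
  obtain ⟨o5, p5, H5⟩ := ports hP
  obtain ⟨o6, p6, H6⟩ := pos_inf (p := fun i o => o = min (κf (ab.Cw (β i)) * ρ i) (o4 * ρ i))
    fun i => ⟨_, lt_min (mul_pos (kf i).1 (hW i).2.1) (mul_pos p4 (hW i).2.1), rfl⟩
  refine ⟨min (min (min o1 o2) (min o3 o5)) (min (min o6 h) (min (1 / (8 * ab.L)) (1 / 10))),
    by positivity, ?_⟩
  rintro J A pr sp fd wk j hF hok hub hw inj hk ⟨rfl, rfl, rfl, rfl, rfl, rfl, rfl, rfl⟩ X K τ o V Bs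
    ho hS hA hp hV hB hg ⟨N, Ef, u, a, t, t', R, o', r1, r2, r3, r4, r5, r6, r7, r8, r9, d1, d2,
      d3, d4, d5, d6, d7, d8⟩
  simp only [le_min_iff] at ho
  obtain ⟨⟨⟨q1, q2⟩, q3, q5⟩, ⟨q6, q7⟩, q8, q9⟩ := ho
  have t0 := r1.trans_le r2
  have el := (hF.eq j).1
  have hr : 0 < (sp.l j).r := by
    have := hok (fd.m j)
    rwa [← el, End.ok, if_neg hp] at this
  have mw : ∀ i, wk i ∈ fd.win A j := fun i => (hw _).2 ⟨i, rfl⟩
  have hh : ∀ i, fd.m j = A.H ∧ wk i ∈ fd.U := fun i => by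
    have := mw i
    unfold FD.win at this
    split_ifs at this with e
    exacts [⟨e, this⟩, absurd this (Finset.notMem_empty _)]
  have eh : W → A.hub = sp.l j := fun i => by rw [el, (hh i).1]; rfl
  have en : (sp.l j).near sp.h sp.r1 = (sp.l j).ann (Icc (-sp.h) sp.h) := if_neg hp
  have ec : fd.chart A j = chW (fd.mu j) fun i => (A.e (wk i)).c := funext fun z => by
    exact congrArg _ (Finset.prod_of_injOn wk inj.injOn (fun i _ => mw i) (fun k a b =>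
      absurd (((hw k).1 a).imp fun i e => ⟨Finset.mem_univ i, e⟩) b) fun _ _ => rfl).symm
  set δ : W → ℝ := fun i => A.hub.dep (A.e (wk i)).c with hδ
  have fw : ∀ i, 0 < δ i ∧ ab.Cw (β i) * δ i ≤ fd.κf (ab.Cw (β i)) * ρ i ∧
      fd.κf (ab.Cw (β i)) * ρ i ≤ ρ i ∧ 100000 ≤ ab.Cw (β i) := fun i => by
    obtain ⟨-, -, w1, -, -, -, -, w2, -⟩ := hF.win _ (hh i).2
    rw [(hk i).2.1, (hk i).2.2] at w2
    exact ⟨w1, w2, mul_le_of_le_one_left (hW i).2.1.le ((kf i).2.trans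
      ((div_le_one (by linarith [L5 (β i)])).2 (by linarith [L5 (β i)]))),
      le_trans (by nlinarith) (n5 _)⟩
  have ft : ∀ i, t ≤ fd.κf (ab.Cw (β i)) * ρ i ∧ t ≤ o4 * ρ i := fun i => by
    obtain ⟨_, w, rfl⟩ := H6 i
    exact le_min_iff.1 (r3.trans (q6.trans w))
  have fp : ∀ i, pr (wk i) ≤ 2 * (sp.l j).r * δ i * Real.exp (-ab.L + 1 / 2) ∧ (0 < pr (wk i) →
      2 * (sp.l j).r * δ i * Real.exp (-ab.L - 1 / 2) ≤ pr (wk i)) := fun i => by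
    have w := abs_le.1 (hF.win _ (hh i).2).2.2.2.2.2.2.2.2.2.1
    rw [Cv.R, eh i, ← eh i] at w
    have w0 : 0 < 2 * (sp.l j).r * δ i := by linarith [mul_pos hr (fw i).1]
    rw [← eh i] at w0 ⊢
    refine ⟨(le_or_gt (pr (wk i)) 0).elim (fun b => b.trans (by positivity)) fun b =>
      (div_le_iff₀' w0).1 ((Real.log_le_iff_le_exp (div_pos b w0)).1 (by linarith [w.2])),
      fun b => (le_div_iff₀' w0).1 ((Real.le_log_iff_exp_le (div_pos b w0)).1 (by linarith [w.1]))⟩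
  have ew : ∀ i ζ, wz A.hub (A.e (wk i)).c ζ = ech (sp.l j) (wch (x i) (δ i) 0 ζ) := fun i ζ => by
    rw [← eh i, ech, if_pos hub, wz, (hk i).1]
  rw [ec] at d7 d8
  rw [en] at hA
  have c : RC X K (sp.l j) (fd.mu j) N (zs Ef fun i z => u i (ech (sp.l j) z))
      (fun i => (A.e (wk i)).c) x δ (fun i => pr (wk i)) ρ (fun i => fd.κf (ab.Cw (β i)) * ρ i)
      ab.L ab.M8 τ a R sp.h t t' (fd.m j = A.H) fun i => wk i ∈ Bs := by
    refine ⟨⟨hS, hp, hr, ⟨r1, by linarith⟩, ⟨r6, r7⟩, hA, fun z hz => (d2 z hz).mul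
      (Finset.analyticAt_fun_prod _ fun _ _ => analyticAt_id.sub analyticAt_const),
      fun y w1 w2 w3 w4 => d1 y w1 w2 ⟨en ▸ w3, w4⟩⟩, ⟨h1, r2, by linarith, hL⟩,
      fun i => ⟨(hh i).1, eh i ▸ hub⟩, fun z hz => ⟨d2 z hz, d3 z hz⟩,
      fun i => ⟨(hW i).1, (fw i).1, by nlinarith [fw i], (fw i).2.2.1, (hW i).2.2.1,
        fun b => ⟨((d8 _ (mw i)).2 b).1, (ft i).1, by linarith⟩⟩, fun i => ⟨?_, (fp i).1⟩, hs,
      fun y w1 w2 w3 => ⟨?_, (d4.1 y w1 w2 w3).2⟩, fun z w1 w2 => d4.2 z (Or.inl ?_),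
      fun z w1 w2 w3 w4 => ?_⟩
    · rw [← (hk i).1, ← eh i]
      exact ech_port hub (eh i ▸ hr) (hF.win _ (hh i).2).2.2.2.1
    · rcases (d4.1 y w1 w2 w3).1 with b | b
      · rw [← el] at b
        exact Or.inl ⟨b.2.2, fun e => by simpa only [if_pos e] using b.2.1⟩
      · obtain ⟨k, b1, b2⟩ := mem_iUnion₂.1 b
        obtain ⟨i, rfl⟩ := (hw k).1 b1
        exact Or.inr ⟨i, mem_closedBall_iff_norm.1 b2⟩
    · rw [← el]
      refine ⟨w1.1, ?_, w1.2.2⟩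
      split_ifs with e
      exacts [w2 e, w1.2.1]
    · obtain ⟨e1, e2⟩ := ech_ne hr w1
      rw [d7 _ ⟨e1, ?_⟩ fun k b1 b2 ζ b3 e => ?_, e2, zs]
      · rw [e2]
        refine ⟨?_, (thin_mem w1 w2).1.2⟩
        split_ifs with e
        exacts [neg_nonneg.2 (Real.log_nonpos (norm_nonneg _) (w3 e)), (thin_mem w1 w2).1.1]
      · obtain ⟨i, rfl⟩ := (hw k).1 b1
        rw [ew, ← sub_eq_zero, ech_sub (eh i ▸ hub)] at e
        exact w4 i b2 ζ b3 (sub_eq_zero.1 ((mul_eq_zero.1 e).resolve_left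
          (Complex.ofReal_ne_zero.2 hr.ne')))
  obtain ⟨rl, hcf⟩ := rl_of (x := x) (δ := δ) hr t0 (by linarith : 0 ≤ 2 * fd.CD) (fun k b => by
    obtain ⟨i, rfl⟩ := (hw k).1 b
    exact ⟨i, eh i ▸ ⟨hub, (hk i).1, rfl⟩⟩) fun i => ⟨(d6 i).1, fun y b => ((d6 i).2.1 y b).1,
      (d6 i).2.2⟩
  have pt : ∀ i, wk i ∉ Bs → PT K (sp.l j).w N (A.lam (wk i)) (chW (fd.mu j) fun i => (A.e (wk i)).c)
      (A.e (wk i)).c (sp.l j).r (δ i) (pr (wk i)) ab.L o t t' R (wk i ∈ V) := fun i b => by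
    obtain ⟨w1, -, w2⟩ := (d8 _ (mw i)).1 b
    have w3 := (hF.win _ (hh i).2).2.2.2.2.2.2.2.2.2.2 j (hh i).1
    rw [ec] at w3
    exact ⟨⟨w1.trans (by nlinarith [(fw i).1]), r4⟩, eh i ▸ w2, eh i ▸ w3, (fp i).2, fun z hz =>
      d4.2 z (Or.inr (mem_iUnion₂.2 ⟨_, mw i, hz⟩))⟩
  obtain ⟨bv, hb⟩ : ∃ bv : W → Prop, ∀ i, bv i ↔ wk i ∈ V := ⟨_, fun _ => Iff.rfl⟩
  have wp : ∀ i, WinP (Xc X (sp.l j) a R \ bc (ech (sp.l j)) ⁻¹' K)
      (Vc (sp.l j) (chW (fd.mu j) fun i => (A.e (wk i)).c)) (x i) (ρ i)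
      (if bv i then 4 - 2 * β i else 0) (ab.Cw (β i)) (100 * δ i) := fun i => by
    obtain ⟨w1, w2, w3, w4⟩ := fw i
    have w5 := (hW i).2.1.le
    have w6 : ∀ M, 1000 * M ≤ ab.Cw (β i) → 1000 * M * δ i ≤ ρ i := fun M b => by nlinarith
    have w7 : ∀ {C M : ℝ}, 1 ≤ C → 64 ≤ M → 100000 * C ^ 2 * M ≤ ab.Cw (β i) →
        1000 * M ≤ ab.Cw (β i) := fun c m b => by nlinarith [one_le_pow₀ (n := 2) c]
    by_cases b : wk i ∈ Bs
    · obtain ⟨v1, v2, -, D0, G, v3, v4, v5, v6⟩ := (d8 _ (mw i)).2 b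
      rw [(hk i).1] at v3
      rw [if_neg fun e => Finset.disjoint_right.1 hB b ((hb i).1 e)]
      refine (H4 _ _ _ _ Ef _ D0 G _ _ _ t _ (c.wh i) (w6 _ (w7 b1 b2 (b4 _))) v1
        (ft i).2 v3 v4 (fun k => (d6 k).1) (rl _ le_rfl).coh v5 (fun ζ e1 e2 e3 e4 => ?_)
        (c.kw_bir b)).mono (by positivity) (le_trans (by nlinarith) (b4 _)) le_rfl w5 (by positivity)
      by_cases e : ‖ζ‖ < ab.M8
      · rw [if_pos e, ← ew]
        exact v6 ζ e e2 e4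
      · rw [if_neg e]
        refine (c.bfm b e1 e2 e3 (not_lt.1 e)).trans ?_
        simp [zs, v2, log_wch (hW i).1]
    obtain ⟨v1, v2, -⟩ := (d8 _ (mw i)).1 b
    have ow : OW (Xc X (sp.l j) a R) (bc (ech (sp.l j)) ⁻¹' K) _ Ef _ _ _ (x i) (δ i) (ρ i) ab.L
        (8 * fd.CD) o t (wk i ∈ V) := ⟨c.wh i, ⟨t0, v1⟩, rl _ v2, fun k =>
      pos_of t0 (d6 k).1 fun y e => ((d6 k).2.1 y e).1, fun z e1 e2 => by
        have e3 := mem_closedBall_iff_norm.1 e1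
        have := hcf z e2 ((δ i + ‖z - x i‖) / 2) (by nlinarith [(c.d1 i).1, (c.d1 i).2]) fun k => by
          by_cases e : i = k
          · subst e; linarith [norm_nonneg (z - x i)]
          · have e4 := hs i k e
            have e5 := norm_sub_le_norm_sub_add_norm_sub (x i) z (x k)
            rw [norm_sub_rev (x i) z] at e5
            nlinarith [(fw k).1]
        linarith, c.kw_wo b, c.port (pt i b) q8⟩
    obtain ⟨u1, u2⟩ := H5 c (pt i b) (r5.trans q5) q5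
    split_ifs with e
    · obtain ⟨o', e1, e2⟩ := H2 i
      have e3 := a1 i
      have e4 : Ma i ≤ Ma i ^ 5 := le_self_pow₀ (by linarith) (by norm_num)
      exact (e2 _ _ _ _ _ _ _ _ _ _ _ _ _ _ (q2.trans e1) ((hb i).1 e) ow (w6 _ (by linarith [a3 i]))
        (u1 ((hb i).1 e))).mono (by linarith) (by linarith [a3 i]) le_rfl w5 (by positivity)
    · exact (H3 _ _ _ _ _ _ _ _ _ _ _ _ _ _ q3 ow (w6 _ (w7 n1 n3 (n5 _))) u2).mono
        (by positivity) (le_trans (by nlinarith) (n5 _)) le_rfl w5 (by positivity)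
  obtain ⟨-, -, -, ⟨Λ, f1, f2⟩, f3, f4⟩ := hF.ring j hp
  obtain ⟨o', e1, e2⟩ := H1 bv
  rw [ec] at f2
  obtain ⟨g1, g2⟩ := e2 _ _ _ _ _ _ _ _ _ (sp.om j) _ _ _ _ o _ Λ (sp.κ j) sp.r1 sp.r2
    (fun i => 100 * δ i) c.ls (by linarith) t0 (by linarith) (by linarith) (by linarith) (rl _ r9)
    (fun z b s s1 s2 => hcf z b s s1 fun i => by linarith [s2 i, (fw i).1]) c.kw_ann
    (fun i => ⟨wp i, by nlinarith [fw i]⟩) f2 f1.le (fun z hz => ⟨f3 z hz, mul_ne_zero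
      (d3 z (End.ann_mono (Icc_subset_Icc (by linarith) le_rfl) hz)) (Finset.prod_ne_zero_iff.2
        fun i _ e => by
          have := hz.2.1
          rw [sub_eq_zero.1 e, ← eh i] at this
          nlinarith [fw i, (hW i).2.2.1])⟩) (by
      refine le_trans ?_ f4
      have s0 : ∀ i, 0 ≤ if bv i then 4 - 2 * β i else 0 := fun i => by
        split_ifs <;> linarith [(hW i).2.2.2.2]
      split_ifs with e
      · have s1 : ∑ i, (if bv i then 4 - 2 * β i else 0) = ∑ k ∈ V, (4 - 2 * fd.β k) := by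
          rw [← Finset.sum_filter]
          refine Finset.sum_bij (fun i _ => wk i) (fun i b => (hb i).1 (Finset.mem_filter.1 b).2)
            (fun _ _ _ _ b => inj b) (fun k b => ?_) fun i _ => by rw [(hk i).2.2]
          obtain ⟨i, rfl⟩ := (hw k).1 (by rw [FD.win, if_pos e]; exact hV b)
          exact ⟨i, Finset.mem_filter.2 ⟨Finset.mem_univ i, (hb i).2 b⟩, rfl⟩
        have s2 : fd.gsum V = (∑ k ∈ V, (4 - 2 * fd.β k)) / 4 := by
          rw [FD.gsum, Finset.sum_div]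
          exact Finset.sum_congr rfl fun k _ => by ring
        linarith [hg e]
      · linarith [Finset.sum_nonneg fun i (_ : i ∈ Finset.univ) => s0 i])
  refine ⟨g1, fun z1 y hy hz => c.zr (fun i => ?_) (fun e z b => d5 z b e)
    (g2 fun v hv b => z1 v hv (by rwa [cc, if_neg hp])) y hy (en ▸ hz)⟩
  by_cases b : wk i ∈ Bs
  · obtain ⟨-, -, v2, D0, G, v3, -, -, v6⟩ := (d8 _ (mw i)).2 b
    rw [(hk i).1] at v3
    exact c.bnear v3 L2 v2 fun ζ s1 s2 s3 s4 => by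
      rw [← ew]
      exact (v6 ζ s1 s2 s3).trans (if_neg (not_lt.2 s4))
  · exact c.pnear (pt i b)

end ENDS

open ENDS in
theorem st_ends : St_ENDS := by
  classical
  have hP := st_pphw
  have hE := st_endsp hP
  intro ab hab W _ x ρ β h n Λw Cu Λ0 η CD κf
  by_cases ad : Kit h n Λw Cu Λ0 η κf ∧ Fintype.card W ≤ n ∧
      (∀ i, ‖x i‖ = 1 ∧ 0 < ρ i ∧ ρ i ≤ h / 8 ∧ 0 < β i ∧ β i ≤ 1) ∧
      (∀ i k, i ≠ k → 2 * ρ i ≤ ‖x i - x k‖) ∧ 1 ≤ CD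
  · obtain ⟨hK, hn, hW, hs, hD⟩ := ad
    obtain ⟨o1, p1, H1⟩ := ends_loop hP hab hK hn hW hs hD
    obtain ⟨o2, p2, H2⟩ := ends_loop (W := PEmpty) (x := PEmpty.elim) (ρ := PEmpty.elim)
      (β := PEmpty.elim) hP hab hK (by simp) (fun i => i.elim) (fun i => i.elim) hD
    obtain ⟨o3, p3, H3⟩ := hE η hK.2.2.2.2.1 hK.2.2.2.2.2.1
    refine ⟨min (min o1 o2) o3, by positivity, fun J A pr sp fd wk hF hok hub hU inj hk hc X K τ j
      hS hA => ⟨fun hp hd => ?_, fun hp V Bs hV hB hg hd => ?_⟩⟩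
    · obtain ⟨a1, a2, a3, a4, a5⟩ := hF.port j hp
      obtain ⟨-, -, -, -, -, -, -, Λ1, -, b1, -, b2, -⟩ := hF.kit
      rw [End.near, if_pos hp] at hA
      exact H3 J sp j _ X K _ τ _ _ (min_le_right _ _) hS hp hA a1 a2 a3 (by linarith)
        (hc.2.2.2.2.2.1 ▸ a4) a5 hF.num.2.2.1 hF.num.2.2.2 hd
    by_cases e : fd.m j = A.H
    · exact H1 J A pr sp fd wk j hF hok hub (fun k => by
        rw [FD.win, if_pos e]
        exact ⟨hU k, fun ⟨i, b⟩ => b ▸ (hk i).1⟩) inj (fun i => (hk i).2) hc X K τ _ V Bs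
        ((min_le_left _ _).trans (min_le_left _ _)) hS hA hp hV hB hg hd
    · exact H2 J A pr sp fd PEmpty.elim j hF hok hub (fun k => by simp [FD.win, e])
        (fun i => i.elim) (fun i => i.elim) hc X K τ _ V Bs
        ((min_le_left _ _).trans (min_le_right _ _)) hS hA hp hV hB hg hd
  refine ⟨1, one_pos, ?_⟩
  rintro J A pr sp fd wk hF - - - inj hk ⟨rfl, rfl, rfl, rfl, rfl, rfl, rfl, rfl⟩
  refine absurd ⟨hF.kit, le_trans ?_ hF.num.1, fun i => ?_, fun i k e => ?_, hF.num.2.1⟩ ad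
  · exact Finset.card_le_card_of_injOn wk (fun i _ => (hk i).1) inj.injOn
  · obtain ⟨a0, a1, a2, a3⟩ := hk i
    obtain ⟨-, -, b1, b2, b3, b4, b5, b6, -⟩ := hF.win _ a0
    have b7 := hab.num.2.2.2.2.2.2.2.2 (fd.β (wk i))
    exact ⟨a1 ▸ norm_hx b2, a2 ▸ pos_of_mul_pos_right ((mul_pos (by linarith) b1).trans_le b6)
      (hF.kit.2.2.2.2.2.2.1 _ b7).1.le, a2 ▸ b5, a3 ▸ b3, a3 ▸ b4⟩
  · rw [← (hk i).2.1, ← (hk k).2.1, ← (hk i).2.2.1]
    exact (hF.win _ (hk i).1).2.2.2.2.2.2.2.2.1 _ (hk k).1 fun b => e (inj b)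

end Pool.Agent.S6
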