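import Pool.Agent.Lib.S6.Blue
import Pool.Agent.Lib.SH.B_HTUBE
import Pool.Agent.Lib.SH.B_BRIDGE
import Pool.Agent.Lib.CF.B_MAXC

open Set Filter Topology Metric
open scoped ContDiff

noncomputable section

namespace Pool.Agent.S6

open Pool.Agent.CF (End Kind IsCurve Geo SLH Cv Priv)
open Pool.Agent.Lib

namespace PCS

theorem mem_S {I : Type} {fx : Fix I} {F : I → ℂ → ℂ} {y : E} :
    y ∈ fx.S F ↔ ∃ i, y.1 ∈ fx.dom i ∧ y.2 = F i y.1 := mem_iUnion

theorem S_eq {I : Type} (fx : Fix I) (F : I → ℂ → ℂ) : fx.S F = SH.grs F fx.dom :=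
  Set.ext fun _ => mem_S

theorem isCompact_dom {I : Type} (fx : Fix I) (i : I) : IsCompact (fx.dom i) :=
  MP_9ccfb7_an.isCompact_ann _ _ _

theorem isCompact_S {I : Type} [Finite I] (fx : Fix I) {F : I → ℂ → ℂ}
    (hF : ∀ i, Continuous (F i)) : IsCompact (fx.S F) :=
  MP_9ccfb7_an.isCompact_surf _ _ _ hF

theorem isCompact_A {I : Type} {fx : Fix I} {σ : Conf I} (h : Pre fx σ) : IsCompact σ.A :=
  h.alg.hC.curve.cpt.union h.alg.hK.curve.cpt

theorem subset_hull (K : Set E) : K ⊆ SH.hull K := fun x hx _ _ _ hc => hc x hx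

theorem hull_sub {K Y : Set E} (h : K ⊆ SH.hull Y) : SH.hull K ⊆ SH.hull Y :=
  fun _ hx p hp c hc => hx p hp c fun _ hy => h hy p hp c hc

theorem isCompact_hull {K : Set E} (hK : IsCompact K) : IsCompact (SH.hull K) := by
  rw [SH.BRIDGE.hull_eq]; exact HULL.isCompact_hull2 hK

theorem std_hull {K : Set E} (hK : IsCompact K) : Std (SH.hull K) K :=
  ⟨isCompact_hull hK, hK.isClosed, SH.st_rossi K hK⟩

theorem PR_zero {Ef : ℝ → ℝ} {two : Prop} (h : SH.PR Ef two) : Ef 0 = 0 := by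
  have := (h.steep 1).self_of_nhds
  simpa using this

theorem circ_dep {l : End} (hr : 0 < l.r) {z : ℂ} (hz : z ∈ l.circ) : z ≠ l.c ∧ l.dep z = 0 := by
  have h1 : ‖z - l.c‖ = l.r := mem_sphere_iff_norm.1 hz
  refine ⟨fun h => ?_, ?_⟩
  · rw [h, sub_self, norm_zero] at h1; exact hr.ne h1
  · rw [End.dep, h1, div_self hr.ne', Real.log_one, mul_zero]

theorem loops_sub {I : Type} {fx : Fix I} {F : I → ℂ → ℂ} {hz : ℝ} {A B : Cv} {W : Wd I A.ι}
    (h : SideWall fx F hz A B W) (h0 : 0 < hz) (ho : ∀ j, (A.e j).ok) :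
    CF.loops A.e ⊆ fx.S F := by
  rintro y ⟨j, hk, h1, h2⟩
  have hr : 0 < (A.e j).r := by simpa [End.ok, hk] using ho j
  obtain ⟨a, b⟩ := circ_dep hr h1
  have hm : y.1 ∈ W.zn A hz j := by
    unfold Wd.zn zn
    rw [if_neg hk]
    split_ifs
    · exact ⟨a, by rw [b]; exact ⟨le_rfl, h0.le⟩⟩
    · exact ⟨a, by rw [b]; exact ⟨by linarith, h0.le⟩⟩
  refine mem_S.2 ⟨W.cp j, h.dom j hm, ?_⟩
  rw [h.exact j _ hm, wl, if_neg hk, b, PR_zero (h.pr j), h2]
  simp

theorem inh {I : Type} {fx : Fix I} {F : I → ℂ → ℂ} {hz : ℝ} {A B : Cv} {W : Wd I A.ι}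
    (h : SideWall fx F hz A B W) (h0 : 0 < hz) (hc : IsCurve A.P A.Γ A.e) :
    A.Γ ⊆ SH.hull (fx.S F) := by
  refine (CF.st_maxc _ _ _ _ hc).trans ?_
  rw [← SH.BRIDGE.hull_eq]
  exact SH.HTUBE.hull_mono (loops_sub h h0 hc.ok)

theorem lb2 {S S' : Set E} {s : E} {ρ : ℝ} (hρ : 0 < ρ) (h : SH.LB2 S s)
    (hS : S' ∩ ball s ρ ⊆ S) : SH.LB2 S' s := by
  intro r hr
  obtain ⟨η, hη, h1⟩ := h (min r (ρ / 2)) (lt_min hr (half_pos hρ))
  have hb : ball s (min r (ρ / 2)) ⊆ ball s r := ball_subset_ball (min_le_left _ _)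
  have m1 := min_le_left (η / 2) (ρ / 4)
  have m2 := min_le_right (η / 2) (ρ / 4)
  have m3 := min_le_right r (ρ / 2)
  have m0 : 0 < min (η / 2) (ρ / 4) := lt_min (half_pos hη) (by positivity)
  refine ⟨min (η / 2) (ρ / 4), m0, fun X K hX hp hK hc => ?_⟩
  refine (inter_subset_inter_right _ (ball_subset_ball (by linarith))).trans
    (h1 X K hX (fun y a b => hp y a (hb b)) (fun y a => hS ⟨hK ⟨a.1, hb a.2⟩,
      ball_subset_ball (by linarith) a.2⟩) fun x a => ?_)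
  obtain ⟨y, b, c⟩ := mem_thickening_iff.1 (cthickening_subset_thickening'
    (δ₂ := 2 * min (η / 2) (ρ / 4)) (by linarith) (by linarith) S' (hc ⟨a.1, hb a.2⟩))
  have d : dist x s < min r (ρ / 2) := a.2
  refine mem_cthickening_of_dist_le x y η S (hS ⟨b, ?_⟩) (by linarith)
  rw [mem_ball]
  linarith [dist_triangle_left y s x]

theorem dist_gr (z a b : ℂ) : dist ((z, a) : E) (z, b) = ‖a - b‖ := by
  rw [Prod.dist_eq, dist_self, dist_eq_norm]; exact max_eq_right (norm_nonneg _)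

/-- the modified surface lies near the old one -/
theorem S_near {I : Type} {fx : Fix I} {F F' : I → ℂ → ℂ} {η : ℝ}
    (h : ∀ i, ∀ z ∈ fx.dom i, ‖F' i z - F i z‖ ≤ η) : fx.S F' ⊆ cthickening η (fx.S F) := by
  rintro ⟨z, v⟩ hy
  obtain ⟨i, a, b⟩ := mem_S.1 hy
  have b' : v = F' i z := b
  refine mem_cthickening_of_dist_le _ (z, F i z) η _ (mem_S.2 ⟨i, a, rfl⟩) ?_
  rw [dist_gr, b']; exact h i z a

theorem close_fderiv {I : Type} {F F' : I → ℂ → ℂ} {η : ℝ} {R R' : I → ℝ} {k : ℕ} (hk : 1 ≤ k)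
    (h : MP_9ccfb7_an.Close k η F F' R R') (hF : ∀ i, ContDiff ℝ ∞ (F i))
    (hF' : ∀ i, ContDiff ℝ ∞ (F' i)) (i : I) (z : ℂ) :
    ‖fderiv ℝ (F' i) z - fderiv ℝ (F i) z‖ ≤ η := by
  have := (h i).1 1 hk z
  rwa [norm_iteratedFDeriv_one, fderiv_fun_sub ((hF' i).differentiable (by simp) z)
    ((hF i).differentiable (by simp) z)] at this

end PCS

open PCS

theorem st_near : St_NEAR := by
  intro Y Z w τ U hY hZ hw hU h R hR
  have hc : ContinuousOn (fun y : E => ‖y.2 - w y.1‖) (Prod.fst ⁻¹' Z) :=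
    (continuousOn_snd.sub (hw.comp continuousOn_fst fun _ a => a)).norm
  have hZ' : IsClosed (Prod.fst ⁻¹' Z : Set E) := hZ.preimage continuous_fst
  have c1 := hc.preimage_isClosed_of_isClosed hZ' (isClosed_Icc (a := R) (b := τ))
  have c2 := (hc.preimage_isClosed_of_isClosed hZ' (isClosed_Iic (a := τ))).inter
    (hU.isClosed_compl.preimage (continuous_fst (X := ℂ) (Y := ℂ)))
  obtain ⟨η, hη, hs⟩ := hY.exists_cthickening_subset_open (c1.union c2).isOpen_compl (by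
    rintro y hy (a | a)
    · have b := a.2.1
      simp only [(h y hy a.1 a.2.2).1, sub_self, norm_zero] at b
      linarith
    · exact a.2 (h y hy a.1.1 a.1.2).2)
  refine ⟨η, hη, fun y hy a b => ⟨?_, ?_⟩⟩
  · by_contra c
    exact hs hy (Or.inl ⟨a, not_lt.1 c, b⟩)
  · by_contra c
    exact hs hy (Or.inr ⟨⟨a, b⟩, c⟩)

theorem st_frame : St_FRAME := by
  intro I κ _ fx F Z w cp U hF hZ hw hU h
  have key : ∀ᶠ d in 𝓝 (0 : ℝ), ∀ z0 ∈ Z, ∀ᶠ z in 𝓝 z0, ∀ i, z ∈ fx.dom i → ‖F i z - w z‖ ≤ d →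
      ∃ k, cp k = i ∧ z ∈ U k := by
    refine hZ.eventually_forall_of_forall_eventually fun z0 hz0 => ?_
    have h1 : ∀ i, ∃ e > (0 : ℝ), ∀ᶠ z in 𝓝 z0, z ∈ fx.dom i → ‖F i z - w z‖ < e →
        ∃ k, cp k = i ∧ z ∈ U k := by
      intro i
      by_cases a : z0 ∈ fx.dom i
      · by_cases b : F i z0 = w z0
        · obtain ⟨k, c, d⟩ := h i z0 a hz0 b
          exact ⟨1, one_pos, by filter_upwards [(hU k).mem_nhds d] with z e _ _ using ⟨k, c, e⟩⟩
        · have c : 0 < ‖F i z0 - w z0‖ := norm_pos_iff.2 (sub_ne_zero.2 b)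
          refine ⟨‖F i z0 - w z0‖ / 2, half_pos c, ?_⟩
          filter_upwards [((hF i).continuousAt.sub (hw z0 hz0)).norm.eventually
            (lt_mem_nhds (half_lt_self c))] with z e _ f using absurd f (not_lt.2 (le_of_lt e))
      · exact ⟨1, one_pos, by
          filter_upwards [(isCompact_dom fx i).isClosed.isOpen_compl.mem_nhds a] with z e f
            using absurd f e⟩
    choose e he h2 using h1
    rw [nhds_prod_eq]
    filter_upwards [(eventually_all.2 fun i => gt_mem_nhds (he i)).prod_mk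
      (eventually_all.2 h2).eventually_nhds] with p hp
    filter_upwards [hp.2] with z a i b c using a i b (c.trans_lt (hp.1 i))
  obtain ⟨d, hd, h1⟩ := ((key.filter_mono (nhdsWithin_le_nhds (s := Ioi 0))).and
    self_mem_nhdsWithin).exists
  obtain ⟨O, o1, o2, o3⟩ := eventually_nhdsSet_iff_exists.1 (eventually_nhdsSet_iff_forall.2 hd)
  obtain ⟨η, hη, hs⟩ := hZ.exists_cthickening_subset_open o1 o2
  have h0 : 0 < d := h1
  refine ⟨min η (d / 2), lt_min hη (half_pos h0), fun F' hF' y hy a b => ?_⟩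
  obtain ⟨i, c, e⟩ := mem_S.1 hy
  have m := min_le_right η (d / 2)
  obtain ⟨k, rfl, g⟩ := o3 y.1 (hs (cthickening_mono (min_le_left _ _) Z a)) i c (by
    have := norm_sub_le_norm_sub_add_norm_sub (F i y.1) (F' i y.1) (w y.1)
    rw [norm_sub_rev (F i y.1) (F' i y.1)] at this
    rw [e] at b
    linarith [hF' i _ c])
  exact ⟨k, g, c, e⟩

theorem st_inh : St_INH := fun _ _ _ _ _ h =>
  union_subset (inh h.wall.C h.wall.hz.1 h.alg.hC.curve) (inh h.wall.K h.wall.hz.1 h.alg.hK.curve)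

theorem st_pcs : St_PCS := by
  intro I _ fx σ _ hG
  have hW := hG.pre.wall
  have hA := isCompact_A hG.pre
  obtain ⟨ρ, hρ, hs⟩ := hA.exists_cthickening_subset_open
    σ.Sd.finite_toSet.isClosed.isOpen_compl fun y a b => (hW.saddle y b).1 a
  have h3 : 0 < ρ / 3 := by positivity
  refine ⟨ρ / 3, h3, fun η1 hη1 => ?_⟩
  obtain ⟨η, hη, H⟩ := SH.st_htube SH.st_usc SH.st_rossi SH.st_lbt I σ.F fx.dom fx.dom σ.A σ.Sd
    (ρ / 3) η1 (fun i => (hW.smooth i).of_le (by simp)) (isCompact_dom fx) (isCompact_dom fx)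
    (fun _ => subset_rfl) hW.gap hA (by rw [← S_eq, union_comm]; exact hG.pc) hW.real
    (fun s a => by rw [← S_eq]; exact (hW.saddle s a).2) h3 hη1
  refine ⟨min η (ρ / 3), lt_min hη h3, fun F' A' hF' hC hm => ?_⟩
  have m1 := min_le_left η (ρ / 3)
  have m2 := min_le_right η (ρ / 3)
  have hS' := isCompact_S fx fun i => (hF' i).continuous
  have hb : ∀ s ∈ σ.Sd, fx.S F' ∩ ball s (ρ / 3) ⊆ fx.S σ.F := by
    rintro s a ⟨z, v⟩ ⟨b, c⟩
    obtain ⟨i, d, e⟩ := mem_S.1 b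
    have e' : v = F' i z := e
    by_cases f : F' i z = σ.F i z
    · exact mem_S.2 ⟨i, d, e'.trans f⟩
    · obtain ⟨x, g, k⟩ := mem_thickening_iff.1 (hm i z d f)
      refine absurd a (hs (mem_cthickening_of_dist_le s x ρ _ g ?_))
      have c' : dist (z, v) s < ρ / 3 := c
      have n : dist ((z, v) : E) (z, σ.F i z) ≤ ρ / 3 := by
        rw [dist_gr, e']; exact (hC.norm i z).trans m2
      linarith [dist_triangle_left s (z, σ.F i z) (z, v), dist_triangle s (z, σ.F i z) x]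
  refine ⟨std_hull hS', ?_, fun s a => lb2 h3 (hW.saddle s a).2 (hb s a), fun a b =>
    (hull_sub (union_subset a (subset_hull _))).trans (b.trans (union_comm _ _).subset)⟩
  rw [S_eq]
  refine H F' fx.dom (isCompact_dom fx) (fun _ => subset_rfl)
    (fun i => (hF' i).of_le (by simp)) (fun i z => ⟨(hC.norm i z).trans m1,
      (close_fderiv le_rfl hC hW.smooth hF' i z).trans m1⟩) ?_ fun s a => ?_
  · rw [← S_eq, ← S_eq]
    exact (S_near fun i z _ => (hC.norm i z).trans m1).trans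
      (cthickening_subset_of_subset _ subset_union_left)
  · rw [← S_eq, ← S_eq]; exact hb s a

end Pool.Agent.S6
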