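import Pool.Agent.Lib.S6.Blue

/-!
Section 6 of the project 9ccfb7: the block ZONE.
-/

open Set Filter Topology Metric
open scoped ContDiff

noncomputable section

namespace Pool.Agent.S6

open Pool.Agent.CF (End Kind IsCurve Geo SLH Cv Priv)
open Pool.Agent.Lib

/-- `St_ZONE` with the hypothesis on `G'` in part one stated for all zeros of `A.P` -/
def St_ZONE2 : Prop :=
  (∀ (J : Type) [Fintype J] (L : ℝ) (Cw : ℝ → ℝ) (A : Cv) (pr : A.ι → ℝ) (sp : Sp J)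
    (fd : FD J A.ι) (Sig : Finset ℂ) (G' : Set E), 10 ≤ L → (∀ β, 1 ≤ Cw β) →
    Geom A.P A.Γ sp Sig → Fit L Cw A pr sp fd → (∀ k, fd.site k) → A.hub.k = Kind.out →
    (∀ k, (A.e k).k = Kind.pt → 0 < pr k) → IsCompact G' → (∀ y ∈ G', A.P y = 0 → y.1 ∈ Sig) →
    ∃ τ0 > 0, ∀ τ, 0 < τ → τ ≤ τ0 → Zone A pr (A.Γ ∪ G') sp fd τ ∧ Zone A pr (G' ∪ A.Γ) sp fd τ) ∧
  (∀ (J : Type) (L : ℝ) (Cw : ℝ → ℝ) (A : Cv) (pr : A.ι → ℝ) (Y : Set E) (sp : Sp J)
    (fd : FD J A.ι) (τ : ℝ) (π : Type) [Fintype π] (x : π → ℂ) (δ : ℝ) (ρ β : π → ℝ), 10 ≤ L →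
    (∀ β, 1 ≤ Cw β) → A.hub.k = Kind.out → 0 < A.R → 0 < δ → Zone A pr Y sp fd τ →
    Fit L Cw (born A π x δ) (Sum.elim pr fun _ => bpr A L δ) sp (fd.born A π x δ ρ β) →
    Zone (born A π x δ) (Sum.elim pr fun _ => bpr A L δ) Y sp (fd.born A π x δ ρ β) τ) ∧
  ∀ (J : Type) (A : Cv) (pr pr' : A.ι → ℝ) (Y : Set E) (sp : Sp J) (fd : FD J A.ι) (τ : ℝ)
    (lam : A.ι → ℂ → ℂ) (mu : J → ℂ → ℂ), Zone A pr Y sp fd τ → (∀ k, pr' k ≤ pr k) →
    Zone (A.rot lam) pr' Y sp (fd.setMu mu) τ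

namespace ZONE

/-- a small disc about a point of small depth lies in a thin annulus -/
theorem ball_subset_ann {l : End} (hk : l.k = Kind.out) (hr : 0 < l.r) {p : ℂ} (hp : p ≠ l.c)
    {ρ a : ℝ} (hd : 0 < l.dep p) (hd1 : l.dep p ≤ 1 / 4) (ha : 2 * l.dep p ≤ a)
    (hρ : ρ ≤ l.r * l.dep p / 2) : closedBall p ρ ⊆ l.ann (Icc (-a) a) := by
  intro z hz
  have hs : (l.sgn : ℝ) = -1 := by simp [End.sgn, hk]
  have h1 := End.norm_eq_rad hr hp
  set d := l.dep p with hdd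
  rw [End.rad, hs] at h1
  have h2 : ‖z - p‖ ≤ ρ := by simpa [dist_eq_norm] using hz
  have h3 : ‖z - l.c‖ ≤ ‖z - p‖ + ‖p - l.c‖ := by
    simpa using norm_add_le (z - p) (p - l.c)
  have h4 : ‖p - l.c‖ ≤ ‖z - p‖ + ‖z - l.c‖ := by
    have := norm_add_le (p - z) (z - l.c)
    rw [norm_sub_rev p z] at this
    simpa using this
  have e1 : Real.exp (-1 * d) ≤ 1 := Real.exp_le_one_iff.2 (by linarith)
  have e2 : 1 + d ≤ Real.exp d := by linarith [Real.add_one_le_exp d]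
  have e3 : 1 / 2 ≤ Real.exp (-(2 * d)) := by linarith [Real.add_one_le_exp (-(2 * d))]
  have e4 : Real.exp (-1 * d) = Real.exp (-(2 * d)) * Real.exp d := by
    rw [← Real.exp_add]; congr 1; ring
  have e5 : Real.exp (-(2 * d)) + d / 2 ≤ Real.exp (-1 * d) := by
    rw [e4]; nlinarith [Real.exp_pos (-(2 * d))]
  have lo : l.r * Real.exp (-(2 * d)) ≤ ‖z - l.c‖ := by nlinarith
  have hi : ‖z - l.c‖ ≤ l.r * Real.exp d := by nlinarith
  have hpos : 0 < ‖z - l.c‖ := lt_of_lt_of_le (mul_pos hr (Real.exp_pos _)) lo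
  refine ⟨fun h => by simp [h] at hpos, ?_⟩
  have l1 : -(2 * d) ≤ Real.log (‖z - l.c‖ / l.r) := by
    rw [Real.le_log_iff_exp_le (div_pos hpos hr), le_div_iff₀ hr]; linarith
  have l2 : Real.log (‖z - l.c‖ / l.r) ≤ d := by
    rw [Real.log_le_iff_le_exp (div_pos hpos hr), div_le_iff₀ hr]; linarith
  have : l.dep z = -Real.log (‖z - l.c‖ / l.r) := by rw [End.dep, hs]; ring
  rw [this]
  constructor <;> linarith

/-- the contact disc of a window lies in the zone of the hub -/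
theorem win_subset {J : Type} {L : ℝ} {Cw : ℝ → ℝ} {A : Cv} {pr : A.ι → ℝ} {sp : Sp J}
    {fd : FD J A.ι} (hL : 10 ≤ L) (hC : ∀ β, 1 ≤ Cw β) (hf : Fit L Cw A pr sp fd)
    (hk : A.hub.k = Kind.out) (hR : 0 < A.R) {k : A.ι} (hU : k ∈ fd.U) (hp : 0 < pr k) {j : J}
    (hj : fd.m j = A.H) :
    cg (A.e k) (pr k) ⊆ (sp.l j).gr ((sp.l j).near sp.h sp.r1) := by
  obtain ⟨w1, w2, w3, w4, -, -, w7, w8, -, w10, -⟩ := hf.win k hU
  obtain ⟨k1, k2, -, -, -, -, k7, -⟩ := hf.kit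
  have hl : sp.l j = A.hub := by rw [(hf.eq j).1, hj]; rfl
  obtain ⟨c1, c2⟩ := k7 _ (hC (fd.β k))
  have c0 := hC (fd.β k)
  set d := A.hub.dep (A.e k).c with hd
  have c3 : fd.κf (Cw (fd.β k)) ≤ 1 / 3 :=
    c2.trans (one_div_le_one_div_of_le (by norm_num) (by linarith))
  have c4 : d ≤ sp.h / 24 := by nlinarith
  have c5 : pr k ≤ A.R * d / 2 := by
    have p0 : 0 < 2 * A.R * d := by positivity
    have p1 : Real.log (pr k / (2 * A.R * d)) ≤ -(L - 1 / 2) := by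
      linarith [(abs_le.1 w10).2]
    rw [Real.log_le_iff_le_exp (div_pos hp p0), div_le_iff₀ p0] at p1
    have p2 : Real.exp (-(L - 1 / 2)) ≤ 1 / 4 := by
      rw [Real.exp_neg, inv_le_comm₀ (Real.exp_pos _) (by norm_num)]
      linarith [Real.add_one_le_exp (L - 1 / 2)]
    nlinarith
  rintro y ⟨y1, y2⟩
  rw [hl]
  refine ⟨?_, by rw [y2, w2]⟩
  rw [End.near_loop (by rw [hk]; decide)]
  rw [ct, if_pos w1] at y1
  exact ball_subset_ann hk hR w4 w3 (by linarith) (by linarith) c5 y1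

theorem cg_mono (l : End) {ρ ρ' : ℝ} (h : ρ' ≤ ρ) : cg l ρ' ⊆ cg l ρ := by
  refine l.gr_mono ?_
  unfold ct
  split_ifs
  · exact closedBall_subset_closedBall h
  · exact subset_rfl

theorem zone3 (J : Type) (A : Cv) (pr pr' : A.ι → ℝ) (Y : Set E) (sp : Sp J) (fd : FD J A.ι)
    (τ : ℝ) (lam : A.ι → ℂ → ℂ) (mu : J → ℂ → ℂ) (hz : Zone A pr Y sp fd τ)
    (hp : ∀ k, pr' k ≤ pr k) : Zone (A.rot lam) pr' Y sp (fd.setMu mu) τ :=
  ⟨hz.pos, hz.an, hz.mem, hz.iso,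
    fun j k h1 h2 => (hz.only j k h1 h2).mono_left (cg_mono _ (hp k)), hz.sep⟩

theorem zone2 (J : Type) (L : ℝ) (Cw : ℝ → ℝ) (A : Cv) (pr : A.ι → ℝ) (Y : Set E) (sp : Sp J)
    (fd : FD J A.ι) (τ : ℝ) (π : Type) [Fintype π] (x : π → ℂ) (δ : ℝ) (ρ β : π → ℝ)
    (hL : 10 ≤ L) (hC : ∀ β, 1 ≤ Cw β) (hk : A.hub.k = Kind.out) (hR : 0 < A.R) (hδ : 0 < δ)
    (hz : Zone A pr Y sp fd τ)
    (hf : Fit L Cw (born A π x δ) (Sum.elim pr fun _ => bpr A L δ) sp (fd.born A π x δ ρ β)) :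
    Zone (born A π x δ) (Sum.elim pr fun _ => bpr A L δ) Y sp (fd.born A π x δ ρ β) τ := by
  classical
  refine ⟨hz.pos, hz.an, hz.mem, hz.iso, fun j k h1 h2 => ?_, hz.sep⟩
  have hw : fd.m j = A.H → k ∉ fd.U.disjSum (Finset.univ : Finset π) := fun h a => h2 (by
    have : (fd.born A π x δ ρ β).m j = (born A π x δ).H := congrArg Sum.inl h
    have e : FD.win (born A π x δ) (fd.born A π x δ ρ β) j = (fd.born A π x δ ρ β).U :=
      if_pos this
    exact e ▸ a)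
  rcases k with k | k
  · refine hz.only j k (fun h => h1 (congrArg Sum.inl h)) fun h => ?_
    by_cases hj : fd.m j = A.H
    · rw [FD.win, if_pos hj] at h
      exact hw hj (Finset.inl_mem_disjSum.2 h)
    · rw [FD.win, if_neg hj] at h
      simp at h
  · obtain ⟨j0, hj0⟩ := hf.hub
    have hU : (Sum.inr k : A.ι ⊕ π) ∈ fd.U.disjSum (Finset.univ : Finset π) :=
      Finset.inr_mem_disjSum.2 (Finset.mem_univ k)
    have hne : j0 ≠ j := by
      rintro rfl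
      exact hw (Sum.inl_injective hj0) hU
    have hp : 0 < bpr A L δ := by unfold bpr; positivity
    exact (hz.sep j0 j hne).mono_left
      (win_subset (A := born A π x δ) hL hC hf hk hR (k := Sum.inr k) hU hp hj0)

theorem zone1 (J : Type) [Fintype J] (L : ℝ) (Cw : ℝ → ℝ) (A : Cv) (pr : A.ι → ℝ) (sp : Sp J)
    (fd : FD J A.ι) (Sig : Finset ℂ) (G' : Set E) (hL : 10 ≤ L) (hC : ∀ β, 1 ≤ Cw β)
    (hg : Geom A.P A.Γ sp Sig) (hf : Fit L Cw A pr sp fd) (hs : ∀ k, fd.site k)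
    (hk : A.hub.k = Kind.out) (hp : ∀ k, (A.e k).k = Kind.pt → 0 < pr k) (hG : IsCompact G')
    (hS : ∀ y ∈ G', A.P y = 0 → y.1 ∈ Sig) :
    ∃ τ0 > 0, ∀ τ, 0 < τ → τ ≤ τ0 →
      Zone A pr (A.Γ ∪ G') sp fd τ ∧ Zone A pr (G' ∪ A.Γ) sp fd τ := by
  have hh := hg.geo.hpos
  have hr := hg.geo.r1pos
  have hn : ∀ j, (sp.l j).near sp.h sp.r1 ⊆ (sp.l j).near (2 * sp.h) (2 * sp.r1) := fun j =>
    (sp.l j).near_mono (by linarith) (by linarith)
  have han : ∀ j, AnalyticOnNhd ℂ (sp.l j).w ((sp.l j).near sp.h sp.r1) := fun j =>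
    (hg.geo.wan j).mono (hn j)
  have key : ∀ j, ∃ ε > 0, ∀ y ∈ A.Γ ∪ G', y ∈ sp.T ε j →
      y.2 = (sp.l j).w y.1 ∧ (sp.l j).side y.1 := by
    intro j
    have hc : IsCompact ((sp.l j).gr ((sp.l j).near sp.h sp.r1)) :=
      End.isCompact_gr (End.isCompact_near (hg.curve.ok j) _ _) (han j).continuousOn
    have hev : ∀ᶠ y in 𝓝ˢ ((sp.l j).gr ((sp.l j).near sp.h sp.r1)),
        y ∈ A.Γ ∪ G' → y.2 = (sp.l j).w y.1 ∧ (sp.l j).side y.1 := by
      refine eventually_nhdsSet_iff_forall.2 ?_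
      rintro ⟨z, v⟩ ⟨y1, y2⟩
      obtain rfl : v = (sp.l j).w z := y2
      have a1 := hg.geo.loc j z (hn j y1)
      have a2 : (z, (sp.l j).w z) ∉ G' := fun h => by
        have := hg.geo.sig j z (hn j y1) z (hS _ h (hg.geo.wz j z (hn j y1)).1)
        simp at this
        linarith
      filter_upwards [a1, hG.isClosed.isOpen_compl.mem_nhds a2] with y b1 b2 b3
      exact b1.1 (b3.resolve_right b2)
    obtain ⟨U, hU, h1, h2⟩ := mem_nhdsSet_iff_exists.1 hev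
    obtain ⟨ε, hε, h3⟩ := hc.exists_cthickening_subset_open hU h1
    refine ⟨ε, hε, fun y hy hT => h2 (h3 ?_) hy⟩
    refine mem_cthickening_of_dist_le y (y.1, (sp.l j).w y.1) _ _ ⟨hT.1, rfl⟩ ?_
    rw [Prod.dist_eq, dist_self, dist_eq_norm]
    exact max_le hε.le hT.2
  choose ε hε hkey using key
  obtain ⟨τ0, hτ0, hle⟩ : ∃ τ0 > (0 : ℝ), ∀ j, τ0 ≤ ε j := by
    have : ∀ᶠ t in 𝓝[>] (0 : ℝ), ∀ j, t ≤ ε j :=
      eventually_all.2 fun j => mem_nhdsWithin_of_mem_nhds (Iic_mem_nhds (hε j))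
    obtain ⟨t, h1, h2⟩ := (this.and self_mem_nhdsWithin).exists
    exact ⟨t, h2, h1⟩
  have hsep : ∀ j j', j ≠ j' → Disjoint ((sp.l j).gr ((sp.l j).near sp.h sp.r1))
      ((sp.l j').gr ((sp.l j').near sp.h sp.r1)) := fun j j' h =>
    (hg.geo.disj h).mono ((sp.l j).gr_mono (hn j)) ((sp.l j').gr_mono (hn j'))
  refine ⟨τ0, hτ0, fun τ h0 h1 => ?_⟩
  have main : Zone A pr (A.Γ ∪ G') sp fd τ := by
    refine ⟨h0, han, fun j z hz h => (hg.geo.mem j (hn j hz)).2 h,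
      fun j y hy hT => hkey j y hy ⟨hT.1, hT.2.trans (h1.trans (hle j))⟩,
      fun j k h2 h3 => ?_, hsep⟩
    rcases hs k with hU | ⟨j', rfl⟩
    · obtain ⟨j0, hj0⟩ := hf.hub
      have hne : j0 ≠ j := by
        rintro rfl
        exact h3 (by rw [FD.win, if_pos hj0]; exact hU)
      have hR : 0 < A.R := by
        have := hg.curve.ok j0
        rw [(hf.eq j0).1, hj0] at this
        exact this.pos (by change A.hub.k ≠ _; rw [hk]; decide)
      exact (hsep j0 j hne).mono_left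
        (win_subset hL hC hf hk hR hU (hp k (hf.win k hU).1) hj0)
    · have hne : j' ≠ j := by rintro rfl; exact h2 rfl
      refine (hsep j' j hne).mono_left ?_
      rw [← (hf.eq j').1]
      refine (sp.l j').gr_mono ?_
      unfold ct
      split_ifs with hpt
      · rw [End.near_pt hpt]
        have := (hf.port j' hpt).2.2.2.2
        exact closedBall_subset_closedBall (by linarith [hg.r2.2])
      · exact (End.circ_subset_nearO (hg.curve.ok j') hh hr).trans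
          ((sp.l j').nearO_subset_near le_rfl le_rfl)
  exact ⟨main, union_comm A.Γ G' ▸ main⟩

end ZONE

theorem st_zone2 : St_ZONE2 := ⟨ZONE.zone1, ZONE.zone2, ZONE.zone3⟩

end Pool.Agent.S6
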