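import Pool.Agent.Lib.S6.B_KFIT
import Pool.Agent.Lib.S6.B_CERT1
import Pool.Agent.Lib.S6.B_SERVE
import Pool.Agent.Lib.S6.B_PCS
import Pool.Agent.Lib.S6.B_ZONE
import Pool.Agent.Lib.S6.B_ENDS

/-!
The context of the first certificate.
-/

open Set Filter Topology Metric

noncomputable section

namespace Pool.Agent.S6

open Pool.Agent.CF (End Kind Cv)
open Pool.Agent.Lib

theorem CTX.contact {I J : Type} {fx : Fix I} {F : I → ℂ → ℂ} {hz L : ℝ} {A B : Cv}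
    {W : Wd I A.ι} {Cw : ℝ → ℝ} {O : E → ℂ} {Nd : Finset E} {sp : Sp J} {fd : FD J A.ι}
    {Sig : Finset ℂ} {a : ℝ} {xs : Set ℝ} {T : ℤ} (hL : 10 ≤ L) (hC : ∀ β, 1 ≤ Cw β)
    (h : CF.Half A B T) (w : SideWall fx F hz A B W) (r : Rdy L Cw A W.pr O Nd sp fd Sig a xs) :
    ∀ y ∈ fx.S F, y ∈ A.Γ → ∃ j, y ∈ (sp.l j).gr ((sp.l j).nearO (sp.h / 16) sp.r2) := by
  obtain ⟨p, hp⟩ := st_kpar J L Cw A W.pr sp fd hL hC r.fit r.all h.out h.curve.ok
    fun k e => (w.port k e).1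
  intro y a b
  obtain ⟨k, c, d⟩ := w.contact y a b
  exact ⟨p k, (hp.ct k).2.1 c, hp.w k ▸ d⟩

theorem st_ctx2 : St_CTX := by
  intro ab hab I J J' _ _ _ fx σ sp fd Sig sp' fd' Sig' xs _ pre r r' h2 hg
  have hL : 10 ≤ ab.L := le_trans (by norm_num) hab.num.1
  have hC := hab.num.2.2.2.2.2.2.2.2
  have a := pre.alg
  have w := pre.wall
  obtain ⟨τ1, p1, H1⟩ := ZONE.zone1 J _ _ _ _ sp fd Sig σ.K.Γ hL hC r.geom r.fit r.all a.hC.out
    (fun k e => (w.C.port k e).1) a.hK.curve.cpt fun y b c => r.sig y (a.nodal.right y b c)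
  obtain ⟨τ2, p2, H2⟩ := ZONE.zone1 J' _ _ _ _ sp' fd' Sig' σ.C.Γ hL hC r'.geom r'.fit r'.all
    a.hK.out (fun k e => (w.K.port k e).1) a.hC.curve.cpt
    fun y b c => r'.sig y (a.nodal.left y b c)
  obtain ⟨τ3, p3, H3⟩ := st_cert1 J J' _ _ _ _ (fx.S σ.F) sp sp' Sig Sig' r.geom r'.geom
    (fun y b c => ⟨(a.nodal.node y (a.nodal.left y b c)).2.1, r.sig y (a.nodal.left y b c),
      r'.sig y (a.nodal.left y b c)⟩) (fun y b c => (a.nodal.node y (a.nodal.right y b c)).1)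
    r.om r'.om (r.part 1 rfl) (r'.part 2 h2)
    (PCS.isCompact_S fx fun i => (w.smooth i).continuous)
    (CTX.contact hL hC a.hC w.C r) (CTX.contact hL hC a.hK w.K r')
  have t0 : 0 < min (min τ1 τ2) τ3 := by positivity
  have t1 := min_le_left (min τ1 τ2) τ3
  have z := (H2 _ t0 (t1.trans (min_le_right _ _))).2
  obtain ⟨η1, q1, G1⟩ := H3 _ _ t0 (min_le_right _ _) t0 (min_le_right _ _)
  obtain ⟨η2, q2, G2⟩ := st_serve st_ends ab hab I J' fx σ.F σ.hz _ _ σ.WK σ.A sp' fd' _ w.smooth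
    w.gap w.hz.1 w.K a.hK.curve.ok a.hK.out (PCS.isCompact_A pre) r'.fit z hg
  refine ⟨_, ⋃ j, sp'.T (min (min τ1 τ2) τ3) j, (H1 _ t0 (t1.trans (min_le_left _ _))).1,
    ⟨min η1 η2, lt_min q1 q2, fun X K s b c d _ e => G1 X K s
      (b.trans (cthickening_mono (min_le_left _ _) _))
      (d.trans (cthickening_mono (min_le_left _ _) _)) e fun j => G2 X K s
        (d.trans (cthickening_mono (min_le_right _ _) _)) j (Set.ext fun y => ⟨fun f =>
          ⟨(c.le ⟨f.1, mem_iUnion.2 ⟨j, f.2⟩⟩).1, f.2⟩, fun f =>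
          ⟨(c.ge ⟨f.1, mem_iUnion.2 ⟨j, f.2⟩⟩).1, f.2⟩⟩)⟩,
    isClosed_iUnion_of_finite fun j => ?_, fun y hy b => ?_⟩
  · exact ((End.isCompact_near (r'.geom.curve.ok j) _ _).isClosed.preimage
      continuous_fst).isClosed_le (f := fun y : E => ‖y.2 - (sp'.l j).w y.1‖) (fun _ c =>
        (continuousAt_snd.sub ((z.an j _ c).continuousAt.comp
          continuousAt_fst)).norm.continuousWithinAt) continuousOn_const
  · obtain ⟨j, c⟩ := mem_iUnion.1 hy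
    obtain ⟨d1, d2⟩ := z.iso j y (Or.inl b) c
    have d3 := z.mem j _ c.1 d2
    rw [← d1] at d3
    have := r'.geom.geo.sig j _ ((sp'.l j).near_mono (by linarith [r'.geom.geo.hpos])
      (by linarith [r'.geom.geo.r1pos]) c.1) _ (r'.sig y (a.nodal.left y b (a.hK.curve.zero y d3)))
    rw [sub_self, norm_zero] at this
    linarith [r'.geom.geo.r1pos]

end Pool.Agent.S6
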