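import Pool.Agent.Lib.S6.Blue

/-! A certificate survives small steps. -/

open Set Filter Topology Metric

noncomputable section

namespace Pool.Agent.S6

open Pool.Agent.Lib

namespace CTXM

theorem surf_sub {I : Type} (fx : Fix I) {F F' : I → ℂ → ℂ} {k : ℕ} {ε : ℝ}
    (h : MP_9ccfb7_an.Close k ε F F' fx.R fx.R) : fx.S F' ⊆ cthickening ε (fx.S F) := by
  intro y hy
  obtain ⟨i, h1, h2⟩ := mem_iUnion.1 hy
  have h3 := (h i).1 0 (Nat.zero_le _) y.1
  rw [norm_iteratedFDeriv_zero] at h3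
  have h4 : 0 ≤ ε := (norm_nonneg _).trans h3
  refine mem_cthickening_of_dist_le y (y.1, F i y.1) _ _ (mem_iUnion.2 ⟨i, h1, rfl⟩) ?_
  rw [Prod.dist_eq, dist_self, dist_eq_norm, h2]
  exact max_le h4 h3

end CTXM

theorem st_ctxm : St_CTXM := by
  rintro I J _ fx F sp τ T0 A ⟨η, hη, h⟩
  refine ⟨η / 2, by positivity, fun F' k ε hε hN => ⟨η / 2, by positivity, ?_⟩⟩
  intro X K hs h1 h2 h3 h4 h5
  refine h X K hs (h1.trans ?_) (h2.trans hN.2) (h3.trans (cthickening_mono (by linarith) _)) h4 h5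
  have h6 : fx.S F' ⊆ cthickening (η / 2) (fx.S F) :=
    (CTXM.surf_sub fx hN.1).trans (cthickening_mono hε _)
  refine (cthickening_subset_of_subset _ h6).trans ?_
  refine (cthickening_cthickening_subset (by positivity) (by positivity) _).trans ?_
  rw [add_halves]

end Pool.Agent.S6
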