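import Pool.Agent.Lib.S6.Site3

/-!
Section 6 of the project 9ccfb7: the profiles of the split wall.
-/

open Set Filter Topology Metric
open scoped ContDiff

noncomputable section

namespace Pool.Agent.S6

open Pool.Agent.Lib Pool.Agent.Lib.SH.PROF

namespace PRF

theorem pr_of {h f g : ℝ → ℝ} {two two' : Prop} (hf : SH.PR f two) (hg : SH.PR g two')
    (hh : ContDiff ℝ ∞ h) (h1 : ∀ s ≤ 0, h s = f s) (h2 : ∀ᶠ s in 𝓝[>] (0 : ℝ), h s = g s) :
    SH.PR h two := by
  refine ⟨?_, ?_, fun a => ?_, fun a s b => (h1 s b).trans (hf.one a s b), fun A => ?_⟩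
  · simpa only [sub_add_cancel] using flat_add
      (flat_left (hh.sub hf.flat.1) fun s a => sub_eq_zero.2 (h1 s a)) hf.flat
  · filter_upwards [h2, hg.pos] with s a b using a ▸ b
  · filter_upwards [hf.neg a, self_mem_nhdsWithin] with s b c using (h1 s (le_of_lt c)).symm ▸ b
  · filter_upwards [hf.steep A, hg.steep A, (eventually_nhdsWithin_iff.1 h2).eventually_nhds]
      with s a b c
    rcases lt_trichotomy s 0 with d | rfl | d
    · have e : h =ᶠ[𝓝 s] f := (eventually_lt_nhds d).mono fun u x => h1 u x.le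
      rwa [e.deriv_eq, e.self_of_nhds]
    · have e : f 0 = 0 := by simpa using hf.flat.2 0
      simp [h1 0 le_rfl, e]
    · have e : h =ᶠ[𝓝 s] g := (c.and (eventually_gt_nhds d)).mono fun u x => x.1 x.2
      rwa [e.deriv_eq, e.self_of_nhds]

theorem sS_eq {y2 : ℝ} (h : 0 < y2) : sS y2 = fun y =>
    Real.smoothTransition ((y - y2 / 4) / (3 * y2 / 4)) + expNegInvGlue (y - y2) := by
  funext y
  unfold sS
  split_ifs with a
  · rw [expNegInvGlue.zero_of_nonpos (sub_nonpos.2 a), add_zero]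
  · rw [Real.smoothTransition.one_of_one_le]
    rw [one_le_div (by positivity)]; linarith [not_le.1 a]

theorem sS_smooth {y2 : ℝ} (h : 0 < y2) : ContDiff ℝ ∞ (sS y2) := by
  rw [sS_eq h]
  exact (Real.smoothTransition.contDiff.comp ((contDiff_id.sub contDiff_const).div_const _)).add
    (expNegInvGlue.contDiff.comp (contDiff_id.sub contDiff_const))

theorem sS_deriv {y2 : ℝ} (h : 0 < y2) (y : ℝ) : deriv (sS y2) y =
    deriv Real.smoothTransition ((y - y2 / 4) / (3 * y2 / 4)) * (1 / (3 * y2 / 4)) +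
      (y - y2)⁻¹ ^ 2 * expNegInvGlue (y - y2) * 1 := by
  rw [sS_eq h]
  exact (((diff Real.smoothTransition.contDiff _).comp y
    (((hasDerivAt_id y).sub_const _).div_const _)).add
    ((e_deriv _).comp y ((hasDerivAt_id y).sub_const _))).deriv

theorem cutE_eq {y2 : ℝ} (h : 0 < y2) {Ef : ℝ → ℝ} (hE : ContDiff ℝ ∞ Ef) : cutE y2 Ef =
    fun s => (if s ≤ 0 then Ef s else 0) + SH.cutP (4 * y2) Ef s := by
  funext s
  unfold cutE
  split_ifs with a
  · rw [(SH.st_cutp.1 Ef (4 * y2) hE (by linarith)).2.1 s (by linarith), add_zero]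
  · rw [zero_add]

theorem cutE_ok {Ef : ℝ → ℝ} {two : Prop} {y2 : ℝ} (hE : SH.PR Ef two) (h : 0 < y2) :
    ContDiff ℝ ∞ (cutE y2 Ef) ∧ (∀ s, s ≤ 0 ∨ 4 * y2 ≤ s → cutE y2 Ef s = Ef s) ∧
      (∀ s ∈ Icc 0 (2 * y2), cutE y2 Ef s = 0) ∧ ∀ s, |cutE y2 Ef s| ≤ |Ef s| := by
  obtain ⟨a1, a2, a3, -⟩ := SH.st_cutp.1 Ef (4 * y2) hE.flat.1 (by linarith)
  refine ⟨?_, fun s b => ?_, fun s b => ?_, fun s => ?_⟩
  · rw [cutE_eq h hE.flat.1]
    exact (SH.st_flat.2 Ef hE.flat).2.1.add a1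
  · unfold cutE
    split_ifs with c
    · rfl
    · exact a3 s (b.resolve_left c)
  · unfold cutE
    split_ifs with c
    · rw [le_antisymm c b.1]; simpa using hE.flat.2 0
    · exact a2 s (by linarith [b.2])
  · unfold cutE
    split_ifs with c
    · rfl
    · rw [SH.cutP, abs_mul, abs_of_nonneg (Real.smoothTransition.nonneg _)]
      exact mul_le_of_le_one_left (abs_nonneg _) (Real.smoothTransition.le_one _)

theorem cutE_d {Ef : ℝ → ℝ} {two : Prop} {y2 t y : ℝ} (hE : SH.PR Ef two) (h : 0 < y2)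
    (ho : RESET.OP Ef two t) (ht : 0 < t) (hy : y ∈ Icc (-(2 * t)) (2 * t)) :
    |cutE y2 Ef y| ≤ t / 8 * deriv (cutE y2 Ef) y ∧ 0 ≤ y * cutE y2 Ef y := by
  obtain ⟨a1, a2, -, a4⟩ := SH.st_cutp.1 Ef (4 * y2) hE.flat.1 (by linarith)
  obtain ⟨b1, b2, b3⟩ := ho y (by linarith [hy.2]) fun _ => by linarith [hy.1]
  have b4 : 0 ≤ deriv Ef y := nonneg_of_mul_nonneg_right ((abs_nonneg _).trans b1) (by positivity)
  have b5 : |Ef y| ≤ t / 8 * deriv Ef y := b1.trans (mul_le_mul_of_nonneg_right (by linarith) b4)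
  have d : deriv (cutE y2 Ef) y =
      (if y ≤ 0 then deriv Ef y else 0) + deriv (SH.cutP (4 * y2) Ef) y := by
    rw [cutE_eq h hE.flat.1]
    refine ((SH.FLAT.cut_deriv (fun s => s ≤ 0) (fun s hs => ?_) hE.flat y).add (diff a1 y)).deriv
    rcases lt_or_gt_of_ne hs with c | c
    · filter_upwards [gt_mem_nhds c] with u x using iff_of_true x.le c.le
    · filter_upwards [lt_mem_nhds c] with u x using iff_of_false (not_le.2 x) (not_le.2 c)
  rw [d, cutE]
  split_ifs with c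
  · have e : SH.cutP (4 * y2) Ef =ᶠ[𝓝 y] fun _ => 0 :=
      (eventually_lt_nhds (show y < 4 * y2 / 2 by linarith)).mono fun u x => a2 u x.le
    rw [e.deriv_eq, deriv_const, add_zero]
    refine ⟨b5, ?_⟩
    rcases c.eq_or_lt with f | f
    · rw [f, zero_mul]
    · by_cases g : two
      · exact (mul_pos_of_neg_of_neg f (b3 g f)).le
      · rw [hE.one g y c, mul_zero]
  · have f := not_le.1 c
    obtain ⟨c1, -, -, c2, -⟩ := a4 y (b2 f).le b4
    have c3 := c2 1 (t / 8) zero_le_one (by positivity)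
      (by rw [one_mul]; exact (le_abs_self _).trans b5)
    rw [zero_add, abs_of_nonneg c1]
    exact ⟨by rwa [one_mul] at c3, mul_nonneg f.le c1⟩

theorem phi_deriv {Φ G : ℝ → ℝ} (hΦ : PhiOK Φ) (hG : ContDiff ℝ ∞ G) (a b y : ℝ) :
    HasDerivAt (fun u => G u * Φ (a * u / b - 1 / 2))
      (deriv G y * Φ (a * y / b - 1 / 2) + G y * (deriv Φ (a * y / b - 1 / 2) * (a * 1 / b))) y :=
  (diff hG y).fun_mul ((diff hΦ.smooth _).comp y
    ((((hasDerivAt_id y).const_mul a).div_const b).sub_const _))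

theorem e_le_one (s : ℝ) : expNegInvGlue s ≤ 1 := by
  unfold expNegInvGlue
  split_ifs with a
  · exact zero_le_one
  · exact Real.exp_le_one_iff.2 (neg_nonpos.2 (inv_nonneg.2 (not_le.1 a).le))

theorem pf {Φ : ℝ → ℝ} {t y2 : ℝ} (hΦ : PhiOK Φ) (ht : 0 < t) (ht' : t ≤ 1 / 32) (h : 0 < y2)
    (h1 : 12 * y2 ≤ t * (Real.smoothTransition (1 / 6) * (1 - Real.smoothTransition (1 / 3))))
    {Ef Tl : ℝ → ℝ} {two : Prop} (hE : SH.PR Ef two) (ho : RESET.OP Ef two t)
    (hT : ContDiff ℝ ∞ Tl) (t1 : ∀ y, 0 ≤ deriv Tl y ∧ 0 ≤ Tl y ∧ Tl y ≤ 1)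
    (t2 : ∀ y, y2 / 8 ≤ y → Tl y = 1) (t3 : two → ∀ y ≤ 0, Tl y = 0) :
    Pf (cutE y2 Ef) (fun y => Tl y * Φ (y / y2 - 1 / 2)) (sS y2) y2 t := by
  obtain ⟨a1, a2, a3, -⟩ := cutE_ok hE h
  have p0 := Real.smoothTransition.nonneg (1 / 6)
  have p1 := Real.smoothTransition.le_one (1 / 6)
  have q0 := sub_nonneg.2 (Real.smoothTransition.le_one (1 / 3))
  have q1 : 1 - Real.smoothTransition (1 / 3) ≤ 1 :=
    sub_le_self _ (Real.smoothTransition.nonneg _)
  set p := Real.smoothTransition (1 / 6) with hp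
  set q := 1 - Real.smoothTransition (1 / 3) with hq
  have n1 : 12 * y2 ≤ t * p := h1.trans (mul_le_mul_of_nonneg_left
    (mul_le_of_le_one_right p0 q1) ht.le)
  have n2 : 12 * y2 ≤ t * q := h1.trans (mul_le_mul_of_nonneg_left
    (mul_le_of_le_one_left q0 p1) ht.le)
  have n3 : 12 * y2 ≤ t := n1.trans (mul_le_of_le_one_right ht.le p1)
  have dT := fun y => phi_deriv hΦ hT 1 y2 y
  simp only [one_mul] at dT
  have T0 : ∀ y, 0 ≤ deriv (fun y => Tl y * Φ (y / y2 - 1 / 2)) y ∧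
      0 ≤ Tl y * Φ (y / y2 - 1 / 2) ∧ Tl y * Φ (y / y2 - 1 / 2) ≤ 1 := fun y => by
    obtain ⟨b1, b2, b3⟩ := t1 y
    obtain ⟨c1, c2, c3⟩ := hΦ.pos (y / y2 - 1 / 2)
    rw [(dT y).deriv]
    exact ⟨by positivity, by positivity, mul_le_one₀ b3 c1.le c2⟩
  have T1 : ∀ y, y2 / 2 ≤ y → Tl y * Φ (y / y2 - 1 / 2) = 1 := fun y b => by
    rw [t2 y (by linarith), hΦ.one, one_mul]
    rw [sub_nonneg, le_div_iff₀ h]; linarith
  have ar : ∀ y ≤ 3 * y2 / 8, y / y2 - 1 / 2 ≤ -1 / 8 := fun y b => by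
    rw [sub_le_iff_le_add, div_le_iff₀ h]; linarith
  have low : ∀ y ≤ 3 * y2 / 8, 1024 * (Tl y * Φ (y / y2 - 1 / 2)) ≤
      y2 * deriv (fun y => Tl y * Φ (y / y2 - 1 / 2)) y := fun y b => by
    have c := mul_nonneg h.le (mul_nonneg (t1 y).1 (hΦ.pos (y / y2 - 1 / 2)).1.le)
    rw [(dT y).deriv, (hΦ.exp _ (ar y b)).2, mul_add,
      show y2 * (Tl y * (1024 * Φ (y / y2 - 1 / 2) * (1 / y2))) =
        1024 * (Tl y * Φ (y / y2 - 1 / 2)) by field_simp]
    linarith
  have N0 : 0 < 3 * y2 / 4 := by positivity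
  have de : ∀ y, 0 ≤ (y - y2)⁻¹ ^ 2 * expNegInvGlue (y - y2) * 1 := fun y => by
    have := expNegInvGlue.nonneg (y - y2); positivity
  have ds : ∀ u, 0 ≤ deriv Real.smoothTransition u * (1 / (3 * y2 / 4)) := fun u => by
    have := S_nonneg u; positivity
  have big : ∀ u a b : ℝ, 0 < u → u ≤ 1 → 0 ≤ a → 12 * y2 ≤ t * b →
      a * b ≤ Real.smoothTransition u * (1 - Real.smoothTransition u) →
      2 * a ≤ t / 8 * (deriv Real.smoothTransition u * (1 / (3 * y2 / 4))) :=
    fun u a b u0 u1 a0 b0 c => by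
      have c1 := mul_le_mul_of_nonneg_left (c.trans (S_low u0 u1)) ht.le
      rw [show t / 8 * (deriv Real.smoothTransition u * (1 / (3 * y2 / 4))) =
        t * deriv Real.smoothTransition u / (6 * y2) by field_simp; ring, le_div_iff₀ (by positivity)]
      nlinarith [mul_le_mul_of_nonneg_left b0 a0]
  refine ⟨⟨h, by linarith, by linarith⟩, fun y hy => ⟨(diff a1 y).differentiableAt,
      cutE_d hE h ho ht hy⟩, ⟨fun y => (dT y).differentiableAt, T0⟩,
    ⟨(sS_smooth h).differentiable (by simp), fun y => ⟨?_, ?_, ?_⟩⟩, a3, fun y hy => ?_, T1,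
    fun y b => ⟨low y b, ?_⟩, fun y b => ?_, fun y b => ?_, ⟨?_, fun y b => ?_, fun y b => ?_⟩,
    fun y hy => ?_⟩
  · rw [sS_deriv h]; exact add_nonneg (ds _) (de y)
  · rw [sS_eq h]; exact add_nonneg (Real.smoothTransition.nonneg _) (expNegInvGlue.nonneg _)
  · rw [sS_eq h]
    linarith [Real.smoothTransition.le_one ((y - y2 / 4) / (3 * y2 / 4)), e_le_one (y - y2)]
  · by_cases g : two
    · exact Or.inr (by rw [t3 g y hy.2, zero_mul])
    · exact Or.inl ((a2 y (Or.inl hy.2)).trans (hE.one g y hy.2))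
  · exact (mul_le_of_le_one_left (hΦ.pos _).1.le (t1 y).2.2).trans (hΦ.exp _ (ar y b)).1.le
  · rw [t2 y b.1, one_mul]; exact (hΦ.exp _ (ar y b.2)).1
  · rw [sS, if_pos (by linarith)]
    exact Real.smoothTransition.zero_of_nonpos (div_nonpos_of_nonpos_of_nonneg (by linarith) N0.le)
  · rw [sS, if_pos le_rfl]
    exact Real.smoothTransition.one_of_one_le ((one_le_div N0).2 (by linarith))
  · rw [sS, if_pos b.le]
    exact Real.smoothTransition.lt_one_of_lt_one ((div_lt_one N0).2 (by linarith))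
  · rw [sS, if_neg b.not_ge]
    exact lt_add_of_pos_right _ (expNegInvGlue.pos_of_pos (sub_pos.2 b))
  obtain ⟨c1, c2, c3⟩ := T0 y
  have c4 := mul_nonneg (show 0 ≤ t / 8 by positivity) c1
  have c5 := mul_nonneg (show 0 ≤ t / 8 by positivity) (de y)
  have c6 := mul_nonneg (show 0 ≤ t / 8 by positivity) (ds ((y - y2 / 4) / (3 * y2 / 4)))
  have s0 := Real.smoothTransition.nonneg ((y - y2 / 4) / (3 * y2 / 4))
  have s1 := Real.smoothTransition.le_one ((y - y2 / 4) / (3 * y2 / 4))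
  have lo : 3 * y2 / 8 ≤ y → 1 / 6 ≤ (y - y2 / 4) / (3 * y2 / 4) := fun b => by
    rw [le_div_iff₀ N0]; linarith
  have hi : y ≤ y2 / 2 → (y - y2 / 4) / (3 * y2 / 4) ≤ 1 / 3 := fun b => by
    rw [div_le_iff₀ N0]; linarith
  rw [sS_deriv h, sS_eq h, mul_add, mul_add]
  beta_reduce
  generalize (y - y2 / 4) / (3 * y2 / 4) = u at *
  rcases le_total y (y2 / 2) with b | b
  · have d1 : q ≤ 1 - Real.smoothTransition u :=
      sub_le_sub_left (Real.smoothTransition.monotone (hi b)) 1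
    rw [expNegInvGlue.zero_of_nonpos (x := y - y2) (by linarith)] at c5 ⊢
    left
    rcases le_total y (3 * y2 / 8) with b' | b'
    · have d2 := low y b'
      have d3 := mul_le_mul_of_nonneg_right (show y2 ≤ t / 8 by linarith) c1
      rcases le_or_gt u 0 with d4 | d4
      · rw [Real.smoothTransition.zero_of_nonpos d4]; linarith
      · linarith [big u _ q d4 (by linarith [hi b]) s0 n2 (mul_le_mul_of_nonneg_left d1 s0)]
    · have d2 := big u 1 (p * q) (by linarith [lo b']) (by linarith [hi b]) zero_le_one h1 (by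
        rw [one_mul]
        exact mul_le_mul (Real.smoothTransition.monotone (lo b')) d1 q0 s0)
      linarith
  · have d1 : 1 - Real.smoothTransition u ≤
        t / 8 * (deriv Real.smoothTransition u * (1 / (3 * y2 / 4))) := by
      rcases le_total u 1 with d | d
      · have d2 := lo (by linarith)
        linarith [big u _ p (by linarith) d (sub_nonneg.2 s1) n1 (by
          rw [mul_comm]
          exact mul_le_mul_of_nonneg_right (Real.smoothTransition.monotone d2) (sub_nonneg.2 s1))]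
      · rw [Real.smoothTransition.one_of_one_le d]; linarith
    have e0 := expNegInvGlue.nonneg (y - y2)
    have d2 : expNegInvGlue (y - y2) ≤ t / 8 * ((y - y2)⁻¹ ^ 2 * expNegInvGlue (y - y2) * 1) := by
      rcases le_or_gt (y - y2) 0 with d | d
      · rw [expNegInvGlue.zero_of_nonpos d] at c5 ⊢; exact c5
      · rw [mul_one, ← mul_assoc]
        refine le_mul_of_one_le_left e0 ?_
        rw [inv_pow, ← div_eq_mul_inv, one_le_div (by positivity)]
        nlinarith [hy.2]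
    right
    rw [T1 y b, sub_self, abs_zero, zero_add]
    exact abs_le.2 ⟨by linarith, by linarith⟩

theorem pr_G {G0 : ℝ → ℝ} {M8 σ0 : ℝ} (h : GZ G0 M8 σ0) : SH.PR G0 False := by
  refine ⟨flat_left h.smooth h.zero, eventually_nhdsWithin_of_forall h.pos, False.elim,
    fun _ => h.zero, fun A => ?_⟩
  filter_upwards [eventually_nhdsWithin_iff.1 (h.flat A)] with s a
  rcases le_or_gt s 0 with b | b
  · rw [h.zero s b, abs_zero, mul_zero]
    exact mul_nonneg (abs_nonneg s) (h.mono s).1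
  · rw [abs_of_pos b, abs_of_pos (h.pos s b)]
    exact a b

end PRF

open PRF in
theorem st_prf : St_PRF := by
  refine ⟨?_, fun y2 h => ⟨sS_smooth h, fun c hc => ?_⟩, fun _ _ _ a b => cutE_ok a b,
    fun Φ t hΦ ht ht' => ?_, fun Φ Ef two s0 y2 c hΦ hE h0 h1 h hc => ?_,
    fun Φ G0 M8 σ0 δ y2 hΦ hG h0 hδ h => ?_⟩
  · obtain ⟨Φ, a1, a2, a3, a4, a5⟩ := SH.st_prof2.2.1 1024 (by norm_num)
    refine ⟨Φ, a1, fun s => ⟨(a2 s).1, (a2 s).2, ?_⟩, a3, a5⟩
    rcases lt_or_ge s 0 with b | b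
    · exact (a4 s b).le
    · exact (IsLocalMax.deriv_eq_zero (Eventually.of_forall fun u => (a3 s b).symm ▸ (a2 u).2)).ge
  · have N0 : 0 < 3 * y2 / 4 := by positivity
    refine pr_of (pr_scale (pr_junction le_rfl) hc N0) (pr_scale pr_e hc one_pos)
      (contDiff_const.mul (((sS_smooth h).comp (contDiff_const.add contDiff_id)).sub
        contDiff_const)) (fun s a => ?_) (eventually_nhdsWithin_of_forall fun s (a : 0 < s) => ?_)
    · rw [if_pos (div_nonpos_of_nonpos_of_nonneg a N0.le), sS, if_pos (by linarith), pow_one,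
        show (y2 + s - y2 / 4) / (3 * y2 / 4) = 1 + s / (3 * y2 / 4) by field_simp; ring]
    · rw [sS, if_neg (by linarith), add_sub_cancel_left, add_sub_cancel_left, div_one]
  · have a : 0 < t * (Real.smoothTransition (1 / 6) * (1 - Real.smoothTransition (1 / 3))) / 12 :=
      div_pos (mul_pos ht (mul_pos (Real.smoothTransition.pos_of_pos (by norm_num))
        (sub_pos.2 (Real.smoothTransition.lt_one_of_lt_one (by norm_num))))) (by norm_num)
    filter_upwards [Ioc_mem_nhdsGT a] with y2 b Ef Tl two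
    exact pf hΦ ht ht' b.1 (by linarith [b.2])
  · obtain ⟨a1, a2, a3, -⟩ := cutE_ok hE h
    have u1 : ContDiff ℝ ∞ fun s => Φ ((s0 + s) / y2 - 1 / 2) :=
      hΦ.smooth.comp (((contDiff_const.add contDiff_id).div_const _).sub contDiff_const)
    refine pr_of hE (pr_mul (pr_scale pr_S hc (show 0 < y2 / 8 by positivity)) u1 (hΦ.pos _).1)
      ((a1.comp (contDiff_const.add contDiff_id)).add (contDiff_const.mul
        ((Real.smoothTransition.contDiff.comp ((contDiff_const.mul contDiff_id).div_const _)).mul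
          u1))) (fun s a => ?_) ?_
    · rw [Real.smoothTransition.zero_of_nonpos (div_nonpos_of_nonpos_of_nonneg (by linarith) h.le),
        zero_mul, mul_zero, add_zero, a2 _ (Or.inl (by linarith))]
      by_cases g : two
      · rw [h1 g, zero_add]
      · rw [hE.one g s a, hE.one g _ (by linarith)]
    · filter_upwards [Ioo_mem_nhdsGT h] with s a
      have e : cutE y2 Ef (s0 + s) = 0 := by
        rcases le_or_gt 0 (s0 + s) with b | b
        · exact a3 _ ⟨b, by linarith [a.2]⟩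
        · exact (a2 _ (Or.inl b.le)).trans
            (hE.one (fun g => by rw [h1 g] at b; linarith [a.1]) _ b.le)
      rw [e, zero_add, mul_assoc, show 8 * s / y2 = s / (y2 / 8) by field_simp]
  · have u1 : ContDiff ℝ ∞ fun u => Φ (δ * u / y2 - 1 / 2) :=
      hΦ.smooth.comp (((contDiff_const.mul contDiff_id).div_const _).sub contDiff_const)
    have g0 : ∀ s, 0 ≤ G0 s := fun s => by
      rcases le_or_gt s 0 with b | b
      · exact (hG.zero s b).ge
      · exact (hG.pos s b).le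
    have g1 : ∀ s, 0 ≤ G0 s * (deriv Φ (δ * s / y2 - 1 / 2) * (δ * 1 / y2)) := fun s =>
      mul_nonneg (g0 s) (mul_nonneg (hΦ.pos _).2.2 (by positivity))
    refine ⟨fun c N hc hN => pr_scale (pr_mul (pr_G hG) u1 (hΦ.pos _).1) hc hN,
      fun th Cth a b => ⟨hG.smooth.mul u1, fun s d => by rw [hG.zero s d, zero_mul],
        fun s d => mul_pos (hG.pos s d) (hΦ.pos _).1, fun s => ?_, fun s d d' => ?_, a, b.2.1,
        b.2.2.1⟩⟩
    · rw [(phi_deriv hΦ hG.smooth δ y2 s).deriv]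
      exact add_nonneg (mul_nonneg (hG.mono s).1 (hΦ.pos _).1.le) (g1 s)
    · rw [(phi_deriv hΦ hG.smooth δ y2 s).deriv]
      exact add_pos_of_pos_of_nonneg (mul_pos ((mul_pos_iff_of_pos_left h0).1
        ((hG.pos s d).trans_le (hG.steep s d d').1)) (hΦ.pos _).1) (g1 s)

end Pool.Agent.S6
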