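import Pool.Agent.Lib.S6.Site4
import Pool.Agent.Lib.S6.B_PRF

/-!
The descriptions of the ends after the split.
-/

open Set Filter Topology Metric

noncomputable section

namespace Pool.Agent.S6

open Pool.Agent.CF (End Kind Cv)
open Pool.Agent.Lib Pool.Agent.Lib.SH

namespace DSC

theorem n1_mono {u : ℂ → ℂ} {o o' : ℝ} {z : ℂ} (h : N1 u o z) (a : o ≤ o') : N1 u o' z :=
  ⟨h.1, h.2.1.trans a, h.2.2.trans a⟩

theorem n1_mul {lm d0 d1 : ℂ → ℂ} {o : ℝ} {z : ℂ} (h : N1 (fun v => lm v / d0 v) (o / 4) z)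
    (h' : N1 (fun v => d0 v / d1 v) (o / 4) z) (ho : o ≤ 1) : N1 (fun v => lm v / d1 v) o z := by
  obtain ⟨a1, a2, a3⟩ := h
  obtain ⟨b1, b2, b3⟩ := h'
  have o0 := (norm_nonneg _).trans a2
  have e : (fun v => lm v / d0 v) * (fun v => d0 v / d1 v) =ᶠ[𝓝 z] fun v => lm v / d1 v := by
    filter_upwards [b1.continuousAt.eventually_ne (y := 0) fun c => by
      have d : ‖d0 z / d1 z - 1‖ ≤ _ := b2
      rw [c, zero_sub, norm_neg, norm_one] at d; linarith] with v hv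
    exact div_mul_div_cancel₀ (left_ne_zero_of_mul hv)
  have n : ∀ u : ℂ, ‖u - 1‖ ≤ o / 4 → ‖u‖ ≤ 2 := fun u c => by
    linarith [norm_sub_norm_le u 1, norm_one (α := ℂ)]
  refine ⟨(a1.mul b1).congr e, ?_, ?_⟩
  · rw [← e.self_of_nhds, Pi.mul_apply, show lm z / d0 z * (d0 z / d1 z) - 1 =
      (lm z / d0 z - 1) * (d0 z / d1 z) + (d0 z / d1 z - 1) by ring]
    refine (norm_add_le _ _).trans ?_
    rw [norm_mul]
    nlinarith [mul_le_mul a2 (n _ b2) (norm_nonneg _) o0]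
  · rw [← e.deriv_eq, deriv_mul a1.differentiableAt b1.differentiableAt]
    refine (norm_add_le _ _).trans ?_
    rw [norm_mul, norm_mul]
    nlinarith [mul_le_mul a3 (n _ b2) (norm_nonneg _) o0,
      mul_le_mul (n _ a2) b3 (norm_nonneg _) zero_le_two]

variable {I : Type} {C K : Cv} {π π' : Type} [Fintype π] [Fintype π'] {a : ℂ} {q G : E → ℂ}
  {x : π → ℂ} {x' : π' → ℂ} {wc : WC} {L δ δ' : ℝ} {W : Wd I (C.ι ⊕ π)} {pr : C.ι ⊕ π → ℝ}
  {M : C.ι ⊕ π → ℂ → ℂ} {sd : π' → ℂ} {h r1 τ β : ℝ} {X Y : Set E} {j : C.ι} {s : SD}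
  (m : Mid C K π π' a q G x x' wc L δ δ' W pr M sd h r1 τ β X Y j s)
include m

theorem eqs {k : C.ι ⊕ π} (e : par C π k = j) : ((winS C K π a q G x δ).e k).w = s.w ∧
    (winS C K π a q G x δ).lam k = s.d0 := by
  rw [m.eqs.1, m.eqs.2.1, ← e]
  cases k <;> exact ⟨rfl, rfl⟩

theorem pos (k : C.ι ⊕ π) (e : ((winS C K π a q G x δ).e k).k = Kind.pt) : 0 < W.pr k := by
  have := (m.geb.rad.1 k).1
  rwa [wk, wl, if_pos e] at this

theorem nw {k : C.ι ⊕ π} (e : par C π k = j) {u : ℝ} (hu : u ≤ 3 * s.t) {z : ℂ}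
    (hz : z ∈ W.zn (winS C K π a q G x δ) u k) : s.N z = nW (winS C K π a q G x δ) W M k z :=
  m.wall k e z (DESC.zn_mono (pos m k) _ hu hz)

theorem zs {k : C.ι ⊕ π} (e : par C π k = j) {z : ℂ}
    (hz : z ∈ (wk (winS C K π a q G x δ) W k).ann (Icc (-(2 * s.t)) (2 * s.t))) :
    z ∈ zS C (winS C K π a q G x δ).e W.pr s.t j := by
  obtain ⟨t0, t1, -⟩ := m.geb.num
  refine ⟨k, e, End.ann_mono (Icc_subset_Icc ?_ (by linarith)) hz⟩
  unfold lo0
  split_ifs <;> linarith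

theorem wall {k : C.ι ⊕ π} (e : par C π k = j) {lm Tw : ℂ → ℂ} {T : ℝ → ℝ} {J : Set ℝ}
    (p : Pf (cutE s.y2 (W.Ef k)) T (sS s.y2) s.y2 s.t)
    (f : Form (wk (winS C K π a q G x δ) W k) (W.Ef k) ((winS C K π a q G x δ).lam k) s.d1
      (nW (winS C K π a q G x δ) W M k) lm Tw s.e s.y2 s.t)
    (hJ : ∀ z ∈ (wk (winS C K π a q G x δ) W k).ann J,
      z ∈ W.zn (winS C K π a q G x δ) (2 * s.t) k ∧ (wk (winS C K π a q G x δ) W k).dep z ≤ 2 * s.t) :
    s.Wall (wk (winS C K π a q G x δ) W k) lm Tw (cutE s.y2 (W.Ef k)) T J := by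
  refine ⟨⟨?_, (m.geb.rad.1 k).1, (m.geb.rad.1 k).2, ?_⟩, m.eqs.2.2 ▸ p, fun y hy =>
    ((st_prf.2.2.1 _ _ _ (m.prf k) m.num.1.y2.1).2.2.2 y).trans (((m.geb.bd k).1 y hy).trans
      m.num.2.2.2.2.2), fun z hz => m.str.1 z (zs m e hz), fun z hz => ?_⟩
  · unfold wk wl
    split_ifs with b
    exacts [by simp [End.hole], b]
  · rw [← (eqs m e).1]
    unfold wk wl
    split_ifs <;> rfl
  · rw [nw m e (by linarith [m.geb.num.1]) (hJ z hz).1, f.2 z hz.1 (hJ z hz).2, (eqs m e).2,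
      m.eqs.2.2]

theorem pwall {k : C.ι ⊕ π} (e : par C π k = j) (b : ((winS C K π a q G x δ).e k).k = Kind.pt) :
    s.PWall ((winS C K π a q G x δ).e k).c (W.pr k) := by
  obtain ⟨lm, Tw, T, l1, l2⟩ := m.low k e
  have n : k ≠ (winS C K π a q G x δ).H := fun c => by
    rw [c] at b
    exact absurd (m.ok.2.1.symm.trans b) (by decide)
  obtain ⟨rfl, rfl, r⟩ := l1.rad n
  have pe : s.pe ((winS C K π a q G x δ).e k).c (W.pr k) = wk (winS C K π a q G x δ) W k := by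
    rw [wk, wl, if_pos b, SD.pe, ← (eqs m e).1]; rfl
  have c : (wk (winS C K π a q G x δ) W k).c = _ := RW.wl_c _ _
  refine ⟨cutE s.y2 (W.Ef k), T, ?_, fun y hy => ?_, ?_, r⟩
  · rw [pe, ← (eqs m e).2]
    exact wall m e l1.pf.2 l2 fun z hz => ⟨(RW.mem_zn (pos m k) _ (c ▸ hz.1)).2
      ⟨hz.2, fun d => absurd b d⟩, hz.2⟩
  · rw [cutE, if_pos hy]
    exact (m.prf k).one (fun d => d.1 b) y hy
  · rw [nw m e le_rfl (by
      rw [Wd.zn, DESC.zn_pt b]
      exact mem_closedBall_self (mul_pos (pos m k b) (Real.exp_pos _)).le), ← c]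
    exact l2.1

theorem only (n : j ≠ C.H) {k : C.ι ⊕ π} (e : par C π k = j) : k = Sum.inl j := by
  cases k
  · exact congrArg _ e
  · exact absurd e.symm n

end DSC

open DSC in
theorem st_desc : St_DESC := by
  classical
  intro I C K π π' _ _ a q G x x' wc L δ δ' W pr M sd h r1 τ β X Y j s m
  obtain ⟨t0, t1, t2, -⟩ := m.geb.num
  obtain ⟨n1, n2, n3, n4, n5, -⟩ := m.num
  have y0 := n1.y2.1
  have o0 : s.o / 4 ≤ s.o := by linarith [n1.y2.2.2.2]
  have ew := m.eqs.1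
  have tube := m.kd.tube
  have kd1 := m.kd.kd1
  have kd2 := m.kd.kd2
  have cmp := m.cmp
  rw [← ew] at tube kd1 kd2
  obtain ⟨lm, Tw, T, l1, l2⟩ := m.low (Sum.inl j) rfl
  have lp : ∀ (b : (C.e j).k ≠ Kind.pt), wk (winS C K π a q G x δ) W (Sum.inl j) = C.e j ∧
      (C.e j).ann (Icc (-(s.t / 2)) h) ⊆ (C.e j).near h r1 ∧
      (∀ z ∈ (C.e j).ann (Icc 0 (s.y2 / 4)), ‖Tw z * lm z‖ ≤ ‖s.d0 z‖) ∧
      (∀ y ∈ near X s.w τ, y ∉ Y → y.1 ∈ (C.e j).ann (Icc (-h) h) →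
        ‖y.2 - s.w y.1‖ < s.R ∧ -(s.t / 2) < (C.e j).dep y.1) ∧
      ∀ u v : ℝ, -h ≤ u → rg C (winS C K π a q G x δ).e W.pr h r1 u v j =
        {z | z ∈ (C.e j).ann (Icc u h) ∧ (j = C.H → ∀ k, 2 * C.hub.r * δ * Real.exp (-δ - L) *
          Real.exp v ≤ ‖z - hq C.hub (x k) δ 0‖)} := fun b => by
    have e : wk (winS C K π a q G x δ) W (Sum.inl j) = C.e j := DESC.wl_loop b _
    have en := End.near_loop (a := h) (ρ := r1) b
    refine ⟨e, en ▸ End.ann_mono (Icc_subset_Icc (by linarith) le_rfl), fun z hz => ?_,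
      fun y c d f => (tube y c d (en ▸ f)).imp_right fun g => g b, fun u v c => Set.ext fun z => ?_⟩
    · have := l1.low.lowb z
      rw [e, RW.foot_loop (l := (winS C K π a q G x δ).e (Sum.inl j)) b, (eqs m rfl).2] at this
      exact this hz
    · rw [rg, en]
      refine ⟨fun d => ⟨⟨d.1.1, d.2.1 b, d.1.2.2⟩, fun f k => ?_⟩, fun d =>
        ⟨⟨d.1.1, c.trans d.1.2.1, d.1.2.2⟩, fun _ => d.1.2.1, fun k f g => ?_⟩⟩
      · have := d.2.2 (Sum.inr k) f.symm rfl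
        rwa [m.ok.2.2] at this
      · rcases k with k | k
        · obtain rfl : k = j := f
          exact absurd g b
        · rw [m.ok.2.2]
          exact d.2 f.symm k
  refine ⟨fun b => ?_, fun b n => ?_, fun e => ?_⟩
  · have n : j ≠ C.H := fun c => by
      rw [c] at b
      exact absurd (m.ok.2.1.symm.trans b) (by decide)
    have zp : ∀ u, W.zn (winS C K π a q G x δ) u (Sum.inl j) =
        closedBall (C.e j).c (W.pr (Sum.inl j) * Real.exp u) := fun u => DESC.zn_pt b _ _ _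
    have e : ∀ u v : ℝ, rg C (winS C K π a q G x δ).e W.pr h r1 u v j =
        {z | W.pr (Sum.inl j) * Real.exp v ≤ ‖z - (C.e j).c‖ ∧ ‖z - (C.e j).c‖ ≤ r1} := fun u v => by
      rw [rg, End.near_pt b]
      exact Set.ext fun z => ⟨fun d => ⟨d.2.2 (Sum.inl j) rfl b, mem_closedBall_iff_norm.1 d.1⟩,
        fun d => ⟨mem_closedBall_iff_norm.2 d.2, fun c => absurd b c, fun k f _ =>
          only m n f ▸ d.1⟩⟩
    rw [End.near_pt b] at tube kd1 cmp
    refine ⟨⟨n1, m.geb.rad.2 j b, pwall m (k := Sum.inl j) rfl b, cmp, m.eqs.2.1 ▸ m.geb.poleP j b,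
      Win.np_near m.std.cX m.std.np isClosed_closedBall (fun z hz => (cmp z hz).1.continuousAt)
        fun y c d f g => (tube y ⟨c, g.le.trans n2⟩ d f).1.ne g, fun y c d f => ?_,
      fun z hz => ?_⟩, fun y c d f => (tube y c d f).1, e _ _ ▸ m.sht, e _ _⟩
    · obtain ⟨k, k1, k2, k3⟩ := kd1 y c d f fun g => absurd b g
      obtain rfl := only m n k1
      exact ⟨zp _ ▸ k2, by rw [nw m k1 (by linarith) k2]; exact k3⟩
    · rw [← zp] at hz
      rw [nw m rfl (by linarith) hz]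
      exact kd2 _ rfl z hz
  · obtain ⟨e, p1, p2, p3, p4⟩ := lp b
    have n' : (Sum.inl j : C.ι ⊕ π) ≠ (winS C K π a q G x δ).H := fun c => n (Sum.inl_injective c)
    have zp : ∀ u, W.zn (winS C K π a q G x δ) u (Sum.inl j) =
        (C.e j).ann (Icc (@ite _ False (Classical.propDecidable _) 0 (-u)) u) := fun u => by
      rw [if_neg not_false]; exact UPD.zn_two b _ n' _
    have rz : ∀ u v : ℝ, -h ≤ u → rg C (winS C K π a q G x δ).e W.pr h r1 u v j =
        SD.rz (C.e j) (Empty.elim : Empty → ℂ) L δ h u v := fun u v c => by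
      rw [p4 u v c]
      exact Set.ext fun z => and_congr_right fun _ => ⟨fun _ k => k.elim, fun _ d => absurd d n⟩
    obtain ⟨r1', r2, -⟩ := l1.rad n'
    obtain ⟨mm, hm⟩ := m.geb.poleL j b n
    refine ⟨lm, Tw, cutE s.y2 (W.Ef (Sum.inl j)), T, ⟨n1, ⟨by linarith, by linarith, n2, n3, n4⟩,
      m.std, ⟨False.elim, fun _ => ⟨inferInstance, inferInstance, fun y hy => ?_⟩⟩, ?_,
      fun z hz _ => ⟨by rw [r2, e], ?_⟩, p2, p3, fun z hz => cmp z (p1 hz), ⟨mm, fun z hz => ?_⟩,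
      fun y c d f => ?_, fun z hz => ?_, fun k => k.elim, fun z hz => m.sht z ?_,
      fun z hz => m.mem z (rz _ _ (by linarith) ▸ hz)⟩, rz _ _ (by linarith)⟩
    · rw [cutE, if_pos hy.2.le]
      exact (m.geb.op _ y (by linarith [hy.2]) fun _ => by linarith [hy.1]).2.2 ⟨b, n'⟩ hy.2
    · rw [← e]
      exact wall m rfl l1.pf.2 l2 fun z hz => ⟨by rw [zp, ← e]; exact hz, hz.2.2⟩
    · rw [r1', (eqs m rfl).2]
      rw [if_neg not_false, ← e] at hz
      exact n1_mono (m.str.2 z (zs m rfl hz)) o0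
    · simpa only [Finset.univ_eq_empty, Finset.prod_empty, mul_one, m.eqs.2.1] using
        hm z (End.ann_mono (Icc_subset_Icc (by linarith) le_rfl) hz)
    · obtain ⟨k, k1, k2, k3⟩ := kd1 y c d (p1 f) fun _ => f.2.1
      obtain rfl := only m n k1
      exact ⟨Or.inl (zp _ ▸ k2), by rw [nw m k1 (by linarith) k2]; exact k3⟩
    · have := hz.resolve_right fun ⟨k, _⟩ => k.elim
      rw [← zp] at this
      rw [nw m rfl (by linarith) this]
      exact kd2 _ rfl z this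
    · rw [rz _ _ (by linarith)]
      exact ⟨End.ann_mono (Icc_subset_Icc (by linarith) le_rfl) hz.1, hz.2⟩
  subst e
  have b : (C.e C.H).k ≠ Kind.pt := by rw [show (C.e C.H).k = _ from m.ok.2.1]; decide
  obtain ⟨e, p1, p2, p3, p4⟩ := lp b
  have zp : ∀ u, W.zn (winS C K π a q G x δ) u (Sum.inl C.H) =
      C.hub.ann (Icc (@ite _ True (Classical.propDecidable _) 0 (-u)) u) := fun u => by
    rw [if_pos trivial]; exact UPD.zn_one b _ rfl _
  have zq : ∀ u k, W.zn (winS C K π a q G x δ) u (Sum.inr k) = closedBall (hq C.hub (x k) δ 0)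
      (2 * C.hub.r * δ * Real.exp (-δ - L) * Real.exp u) := fun u k => by
    rw [Wd.zn, m.ok.2.2]; exact DESC.zn_pt rfl _ _ _
  have rz : ∀ u v : ℝ, -h ≤ u → rg C (winS C K π a q G x δ).e W.pr h r1 u v C.H =
      SD.rz C.hub x L δ h u v := fun u v c => by
    rw [p4 u v c]
    exact Set.ext fun z => and_congr_right fun _ => ⟨fun d => d rfl, fun d _ => d⟩
  obtain ⟨h1, h2, h3⟩ := l1.hub rfl
  obtain ⟨mm, hm⟩ := m.geb.poleH
  refine ⟨lm, Tw, cutE s.y2 (W.Ef (Sum.inl C.H)), T, ⟨n1, ⟨by linarith, by linarith, n2, n3, n4⟩,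
    m.std, ⟨fun _ => ⟨m.ok.2.1, fun y hy => ⟨?_, h1 y hy⟩⟩, fun c => absurd trivial c⟩, ?_,
    fun z hz c => ?_, p2, p3, fun z hz => cmp z (p1 hz), ⟨mm, fun z hz => ?_⟩,
    fun y c d f => ?_, fun z hz => ?_, fun k => ?_, fun z hz => m.sht z ?_,
    fun z hz => m.mem z (rz _ _ (by linarith) ▸ hz)⟩, h3 s (eqs m rfl).2.symm rfl o0,
    rz _ _ (by linarith)⟩
  · rw [cutE, if_pos hy]
    exact (m.prf _).one (fun d => d.2 rfl) y hy
  · rw [Cv.hub, ← e]
    exact wall m rfl l1.pf.2 l2 fun z hz => ⟨by rw [zp, Cv.hub, ← e]; exact hz, hz.2.2⟩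
  · rw [if_pos trivial] at hz
    obtain ⟨d1, d2⟩ := h2 z hz c
    rw [(eqs m rfl).2] at d2
    exact ⟨d1, n1_mul d2 (m.str.2 z (zs m (k := Sum.inl C.H) rfl (by
      rw [e]; exact End.ann_mono (Icc_subset_Icc (by linarith) le_rfl) hz))) (by linarith)⟩
  · rw [m.eqs.2.1]
    exact hm z (End.ann_mono (Icc_subset_Icc (by linarith) le_rfl) hz)
  · obtain ⟨k, k1, k2, k3⟩ := kd1 y c d (p1 f) fun _ => f.2.1
    refine ⟨?_, by rw [nw m k1 (by linarith) k2]; exact k3⟩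
    rcases k with k | k
    · obtain rfl : k = C.H := k1
      exact Or.inl (zp _ ▸ k2)
    · exact Or.inr ⟨k, zq _ _ ▸ k2⟩
  · rcases hz with c | ⟨k, c⟩
    · rw [← zp] at c
      rw [nw m rfl (by linarith) c]
      exact kd2 _ rfl z c
    · rw [← zq] at c
      rw [nw m rfl (by linarith) c]
      exact kd2 _ rfl z c
  · have := pwall m (k := Sum.inr k) rfl rfl
    rwa [m.ok.2.2] at this
  · rw [rz _ _ (by linarith)]
    exact ⟨End.ann_mono (Icc_subset_Icc (by linarith) le_rfl) hz.1, hz.2⟩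

end Pool.Agent.S6
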