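import Pool.Agent.Lib.S6.Blue

/-!
The new windows fit.
-/

open Set Filter Topology Metric

noncomputable section

namespace Pool.Agent.S6.FitNew

open Pool.Agent.CF (End Kind Cv)

lemma hp_sub (A : Cv) (x : ℂ) (s : ℝ) :
    hp A x s 0 - A.c = ((A.R * Real.exp (-s) : ℝ) : ℂ) * x := by
  simp only [hp]
  push_cast
  simp only [zero_mul, add_zero]
  ring

lemma norm_hp (A : Cv) {x : ℂ} (hx : ‖x‖ = 1) (hR : 0 < A.R) (s : ℝ) :
    ‖hp A x s 0 - A.c‖ = A.R * Real.exp (-s) := by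
  rw [hp_sub, norm_mul, hx, mul_one, Complex.norm_real, Real.norm_eq_abs, abs_of_pos]
  positivity

lemma dep_hub (A : Cv) (hk : A.hub.k = Kind.out) (z : ℂ) :
    A.hub.dep z = -Real.log (‖z - A.c‖ / A.R) := by
  simp [End.dep, End.sgn, hk, Cv.c, Cv.R]

lemma hx_hp (A : Cv) {x : ℂ} (hx1 : ‖x‖ = 1) (hR : 0 < A.R) (s : ℝ) :
    hx A.hub (hp A x s 0) = x := by
  have h1 : A.hub.c = A.c := rfl
  have h2 : ((A.R * Real.exp (-s) : ℝ) : ℂ) ≠ 0 := by
    have : 0 < A.R * Real.exp (-s) := by positivity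
    exact_mod_cast this.ne'
  rw [hx, h1, norm_hp A hx1 hR, hp_sub, mul_div_cancel_left₀ _ h2]

lemma dep_hp (A : Cv) (hk : A.hub.k = Kind.out) {x : ℂ} (hx1 : ‖x‖ = 1) (hR : 0 < A.R) (s : ℝ) :
    A.hub.dep (hp A x s 0) = s := by
  rw [dep_hub A hk, norm_hp A hx1 hR, mul_div_cancel_left₀ _ hR.ne', Real.log_exp, neg_neg]

/-- the norm in terms of the depth -/
lemma norm_of_dep (A : Cv) (hk : A.hub.k = Kind.out) (hR : 0 < A.R) {z : ℂ} (hz : z ≠ A.c) :
    ‖z - A.c‖ = A.R * Real.exp (-A.hub.dep z) := by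
  have h0 : 0 < ‖z - A.c‖ := norm_pos_iff.2 (sub_ne_zero.2 hz)
  rw [dep_hub A hk, neg_neg, Real.exp_log (div_pos h0 hR)]
  field_simp

lemma exp_neg_le {s : ℝ} (h0 : 0 ≤ s) (h1 : s ≤ 1 / 2) : Real.exp (-s) ≤ 1 - 2 / 3 * s := by
  have h2 : 1 + s ≤ Real.exp s := by linarith [Real.add_one_le_exp s]
  have h3 : Real.exp (-s) * Real.exp s = 1 := by rw [← Real.exp_add]; simp
  have h4 : 0 < Real.exp (-s) := Real.exp_pos _
  have h5 : Real.exp (-s) * (1 + s) ≤ 1 := by nlinarith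
  by_contra hc
  push Not at hc
  nlinarith

lemma exp_six {L : ℝ} (hL : 10 ≤ L) : Real.exp (6 - L) ≤ 1 / 5 := by
  have h1 : Real.exp (6 - L) ≤ Real.exp (-4) := Real.exp_le_exp.2 (by linarith)
  have h2 : (5 : ℝ) ≤ Real.exp 4 := by linarith [Real.add_one_le_exp (4 : ℝ)]
  have h3 : Real.exp (-4) * Real.exp 4 = 1 := by rw [← Real.exp_add]; simp
  have h4 : 0 < Real.exp (-4) := Real.exp_pos _
  nlinarith

/-- the disc about a port lies inside the hub circle -/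
lemma pd_sub (A : Cv) (hk : A.hub.k = Kind.out) (hR : 0 < A.R) {L : ℝ} (hL : 10 ≤ L) {p : ℂ}
    (hp0 : p ≠ A.c) (h0 : 0 ≤ A.hub.dep p) (h1 : A.hub.dep p ≤ 1 / 2) :
    pd L A.hub p ⊆ closedBall A.c (A.R * (1 - A.hub.dep p / 3)) := by
  intro z hz
  rw [pd, mem_closedBall, dist_eq_norm] at hz
  rw [mem_closedBall, dist_eq_norm]
  have h2 : ‖z - A.c‖ ≤ ‖z - p‖ + ‖p - A.c‖ := norm_sub_le_norm_sub_add_norm_sub _ _ _
  have h3 := norm_of_dep A hk hR hp0
  have h4 := exp_neg_le h0 h1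
  have h5 := exp_six hL
  have h6 : A.hub.r = A.R := rfl
  rw [h6] at hz
  have h7 : A.R * A.hub.dep p * Real.exp (6 - L) ≤ A.R * A.hub.dep p * (1 / 5) :=
    mul_le_mul_of_nonneg_left h5 (by positivity)
  have h8 : A.R * Real.exp (-A.hub.dep p) ≤ A.R * (1 - 2 / 3 * A.hub.dep p) :=
    mul_le_mul_of_nonneg_left h4 hR.le
  have h9 : 0 ≤ A.R * A.hub.dep p := by positivity
  nlinarith

variable {π : Type} [Fintype π]

/-- logarithm of the product of the Blaschke type factors -/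
def lgB (A : Cv) (x : π → ℂ) (δ : ℝ) (z : ℂ) : ℂ :=
  ∑ k, Complex.log ((z - hp A (x k) δ 0) / (z - hp A (x k) (-δ) 0))

lemma lgB_small (A : Cv) (x : π → ℂ) (hx1 : ∀ k, ‖x k‖ = 1) (hR : 0 < A.R) {R' ε : ℝ}
    (hR' : R' < A.R) (hε : 0 < ε) : ∀ᶠ δ in 𝓝[>] (0 : ℝ), ∀ z ∈ closedBall A.c R',
      AnalyticAt ℂ (lgB A x δ) z ∧ ‖lgB A x δ z‖ ≤ ε ∧ bB A x δ z = Complex.exp (lgB A x δ z) := by
  have hd : 0 < A.R - R' := sub_pos.2 hR'
  set om : ℝ → ℝ := fun δ => A.R * (Real.exp δ - Real.exp (-δ)) / (A.R - R') with hom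
  have hc : Continuous om := by fun_prop
  have h0 : om 0 = 0 := by simp [hom]
  have e1 : ∀ᶠ δ in 𝓝 (0 : ℝ), om δ < 1 / 2 :=
    hc.continuousAt.eventually_lt continuousAt_const (by rw [h0]; norm_num)
  have e2 : ∀ᶠ δ in 𝓝 (0 : ℝ), Fintype.card π * (3 / 2 * om δ) < ε :=
    (show Continuous fun δ => Fintype.card π * (3 / 2 * om δ) by fun_prop).continuousAt.eventually_lt
      continuousAt_const (by simpa [h0] using hε)
  filter_upwards [nhdsWithin_le_nhds e1, nhdsWithin_le_nhds e2, self_mem_nhdsWithin] with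
    δ h1 h2 hδ z hz
  have hδ : 0 < δ := hδ
  rw [mem_closedBall, dist_eq_norm] at hz
  have key : ∀ k, z - hp A (x k) (-δ) 0 ≠ 0 ∧ ∃ w : ℂ, ‖w‖ ≤ om δ ∧
      (z - hp A (x k) δ 0) / (z - hp A (x k) (-δ) 0) = 1 + w := by
    intro k
    have a1 := norm_hp A (hx1 k) hR (-δ)
    rw [neg_neg] at a1
    have a2 : 1 ≤ Real.exp δ := Real.one_le_exp hδ.le
    have a3 : ‖hp A (x k) (-δ) 0 - A.c‖ ≤ ‖hp A (x k) (-δ) 0 - z‖ + ‖z - A.c‖ :=
      norm_sub_le_norm_sub_add_norm_sub _ _ _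
    have a4 : A.R - R' ≤ ‖z - hp A (x k) (-δ) 0‖ := by
      rw [norm_sub_rev]
      nlinarith
    have a5 : z - hp A (x k) (-δ) 0 ≠ 0 := norm_pos_iff.1 (hd.trans_le a4)
    refine ⟨a5, (hp A (x k) (-δ) 0 - hp A (x k) δ 0) / (z - hp A (x k) (-δ) 0), ?_, ?_⟩
    · have b1 : hp A (x k) (-δ) 0 - hp A (x k) δ 0 =
          ((A.R * (Real.exp δ - Real.exp (-δ)) : ℝ) : ℂ) * x k := by
        have c1 := hp_sub A (x k) (-δ)
        have c2 := hp_sub A (x k) δ
        rw [neg_neg] at c1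
        have : hp A (x k) (-δ) 0 - hp A (x k) δ 0 =
          (hp A (x k) (-δ) 0 - A.c) - (hp A (x k) δ 0 - A.c) := by ring
        rw [this, c1, c2]
        push_cast
        ring
      have b2 : 0 ≤ A.R * (Real.exp δ - Real.exp (-δ)) :=
        mul_nonneg hR.le (sub_nonneg.2 (Real.exp_le_exp.2 (by linarith)))
      rw [norm_div, b1, norm_mul, hx1, mul_one, Complex.norm_real, Real.norm_eq_abs,
        abs_of_nonneg b2]
      exact div_le_div_of_nonneg_left b2 hd a4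
    · field_simp
      ring
  refine ⟨?_, ?_, ?_⟩
  · refine Finset.analyticAt_fun_sum _ fun k _ => ?_
    obtain ⟨a5, w, hw, he⟩ := key k
    refine AnalyticAt.clog (AnalyticAt.fun_div (by fun_prop) (by fun_prop) a5) ?_
    rw [he]
    exact Complex.mem_slitPlane_of_norm_lt_one (by linarith)
  · refine (norm_sum_le _ _).trans (le_trans ?_ h2.le)
    refine (Finset.sum_le_card_nsmul _ _ (3 / 2 * om δ) fun k _ => ?_).trans (by simp)
    obtain ⟨-, w, hw, he⟩ := key k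
    rw [he]
    exact (Complex.norm_log_one_add_half_le_self (by linarith)).trans (by linarith)
  · rw [lgB, Complex.exp_sum, bB]
    refine Finset.prod_congr rfl fun k _ => ?_
    obtain ⟨-, w, hw, he⟩ := key k
    rw [Complex.exp_log]
    rw [he]
    exact Complex.slitPlane_ne_zero (Complex.mem_slitPlane_of_norm_lt_one (by linarith))

lemma lw_hub (A : Cv) (hk : A.hub.k = Kind.out) (x : π → ℂ) (hx1 : ∀ k, ‖x k‖ = 1) (hR : 0 < A.R)
    {h r1 k Λ Λ' : ℝ} (hh : 0 < h) (om ch : ℂ → ℂ)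
    (ho : ∀ z ∈ A.hub.ann (Icc (h / 16) h), om z ≠ 0 ∧ ch z ≠ 0)
    (hL : LW A.hub h r1 (fun z => Real.log ‖om z / ch z‖) k Λ) (hΛ : Λ < Λ') :
    ∀ᶠ δ in 𝓝[>] (0 : ℝ),
      LW A.hub h r1 (fun z => Real.log ‖om z / (ch z * bB A x δ z)‖) k Λ' := by
  have hR' : A.R * Real.exp (-(h / 16)) < A.R :=
    mul_lt_of_lt_one_right hR (Real.exp_lt_one_iff.2 (by linarith))
  have hsub : A.hub.ann (Icc (h / 16) h) ⊆ closedBall A.c (A.R * Real.exp (-(h / 16))) := by
    intro z hz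
    rw [mem_closedBall, dist_eq_norm, norm_of_dep A hk hR hz.1]
    exact mul_le_mul_of_nonneg_left (Real.exp_le_exp.2 (by linarith [hz.2.1])) hR.le
  obtain ⟨hkΛ, g, hg, -⟩ := hL
  have hne : A.hub.k ≠ Kind.pt := by rw [hk]; decide
  obtain ⟨ga, hg⟩ := hg hne
  filter_upwards [lgB_small A x hx1 hR hR' (half_pos (sub_pos.2 hΛ))] with δ hδ
  refine ⟨hkΛ.trans hΛ.le, fun z => g z - lgB A x δ z, fun _ => ⟨fun z hz => ?_, fun z hz => ?_⟩,
    fun h => absurd h hne⟩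
  · exact (ga z hz).sub (hδ z (hsub hz)).1
  · obtain ⟨-, b2, b3⟩ := hδ z (hsub hz)
    obtain ⟨g1, g2⟩ := hg z hz
    refine ⟨?_, fun z' hz' => ?_⟩
    · have c1 : ‖om z / ch z‖ ≠ 0 := norm_ne_zero_iff.2 (div_ne_zero (ho z hz).1 (ho z hz).2)
      simp only at g1 ⊢
      rw [← div_div, norm_div, b3, Complex.norm_exp, Real.log_div c1 (Real.exp_pos _).ne',
        Real.log_exp, g1, Complex.sub_re]
      ring
    · have c1 := abs_le.1 ((Complex.abs_re_le_norm _).trans b2)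
      have c2 := abs_le.1 ((Complex.abs_re_le_norm _).trans (hδ z' (hsub hz')).2.1)
      have c3 := g2 z' hz'
      simp only [Complex.sub_re]
      linarith [c1.1, c2.2]

lemma portDir_old (A : Cv) (hk : A.hub.k = Kind.out) (x : π → ℂ) (hx1 : ∀ k, ‖x k‖ = 1)
    (hR : 0 < A.R) {L : ℝ} (hL : 10 ≤ L) {p : ℂ} (hp0 : p ≠ A.c) (h0 : 0 < A.hub.dep p)
    (h1 : A.hub.dep p ≤ 1 / 2) (v : ℂ → ℂ) (hv : PortDir L p (pd L A.hub p) v) :
    ∀ᶠ δ in 𝓝[>] (0 : ℝ), PortDir L p (pd L A.hub p) fun z => v z * bB A x δ z := by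
  obtain ⟨a, lg, ha, hb⟩ := hv
  have hsub := pd_sub A hk hR hL hp0 h0.le h1
  have hR' : A.R * (1 - A.hub.dep p / 3) < A.R := mul_lt_of_lt_one_right hR (by linarith)
  have hcp : IsCompact (pd L A.hub p) := isCompact_closedBall _ _
  have hne : (pd L A.hub p).Nonempty := by
    refine ⟨p, mem_closedBall_self ?_⟩
    have : 0 < A.hub.r := hR
    positivity
  obtain ⟨z0, hz0, hmax⟩ := hcp.exists_isMaxOn hne ha.continuousOn.norm
  have hlt := (hb z0 hz0).1
  filter_upwards [lgB_small A x hx1 hR hR' (half_pos (sub_pos.2 hlt))] with δ hδ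
  refine ⟨a, fun z => lg z + lgB A x δ z, fun z hz => (ha z hz).add (hδ z (hsub hz)).1,
    fun z hz => ⟨?_, fun hzp => ?_⟩⟩
  · have c1 : ‖lg z‖ ≤ ‖lg z0‖ := hmax hz
    have c2 := (hδ z (hsub hz)).2.1
    have c3 := norm_add_le (lg z) (lgB A x δ z)
    linarith
  · simp only
    rw [(hb z hz).2 hzp, (hδ z (hsub hz)).2.2, ← Complex.exp_add, add_assoc]

lemma bB_ne (A : Cv) (x : π → ℂ) (δ : ℝ) {z : ℂ}
    (hz : ∀ k, z ≠ hp A (x k) δ 0 ∧ z ≠ hp A (x k) (-δ) 0) : bB A x δ z ≠ 0 :=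
  Finset.prod_ne_zero_iff.2 fun k _ => div_ne_zero (sub_ne_zero.2 (hz k).1) (sub_ne_zero.2 (hz k).2)

lemma bB_ne_circ (A : Cv) (hk : A.hub.k = Kind.out) (x : π → ℂ) (hx1 : ∀ k, ‖x k‖ = 1)
    (hR : 0 < A.R) {δ : ℝ} (hδ : 0 < δ) : ∀ᶠ z in 𝓝ˢ A.hub.circ, bB A x δ z ≠ 0 := by
  have ho : IsOpen {z : ℂ | ∀ k, z ≠ hp A (x k) δ 0 ∧ z ≠ hp A (x k) (-δ) 0} := by
    rw [ofPred_forall]
    exact isOpen_iInter_of_finite fun k => isOpen_ne.inter isOpen_ne
  have hs : A.hub.circ ⊆ {z : ℂ | ∀ k, z ≠ hp A (x k) δ 0 ∧ z ≠ hp A (x k) (-δ) 0} := by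
    intro z hz k
    have h1 : ‖z - A.c‖ = A.R := by
      rw [← dist_eq_norm]
      exact hz
    have h2 : A.hub.dep z = 0 := by rw [dep_hub A hk, h1, div_self hR.ne', Real.log_one, neg_zero]
    constructor
    · rintro rfl
      rw [dep_hp A hk (hx1 k) hR] at h2
      linarith
    · rintro rfl
      rw [dep_hp A hk (hx1 k) hR] at h2
      linarith
  filter_upwards [ho.mem_nhdsSet.2 hs] with z hz using bB_ne A x δ hz

lemma portDir_new (A : Cv) (hk : A.hub.k = Kind.out) (x : π → ℂ) (hx1 : ∀ k, ‖x k‖ = 1)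
    (hR : 0 < A.R) {L : ℝ} (hL : 10 ≤ L) (lam ch : ℂ → ℂ)
    (h1 : ∀ᶠ z in 𝓝ˢ A.hub.circ, lam z * ch z = 1) (k : π) {ρ : ℝ} (hρ : 0 < ρ)
    (hs : ∀ k', k ≠ k' → 2 * ρ ≤ ‖x k - x k'‖) :
    ∀ᶠ δ in 𝓝[>] (0 : ℝ), PortDir L (hp A (x k) δ 0) (pd L A.hub (hp A (x k) δ 0)) fun z =>
      Complex.exp (Real.pi / 4 * Complex.I) * lam z / bB A x δ z * (ch z * bB A x δ z) := by
  have hq : hp A (x k) 0 0 ∈ A.hub.circ := by
    have := norm_hp A (hx1 k) hR 0
    rw [neg_zero, Real.exp_zero, mul_one, ← dist_eq_norm] at this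
    exact this
  obtain ⟨r, hr, hb⟩ := Metric.eventually_nhds_iff.1 ((nhds_le_nhdsSet hq) h1)
  have e1 : ∀ᶠ δ in 𝓝 (0 : ℝ), δ < min (1 / 2) (min ρ (r / (2 * A.R))) :=
    eventually_lt_nhds (by positivity)
  filter_upwards [nhdsWithin_le_nhds e1, self_mem_nhdsWithin] with δ e1 hδ
  have hδ : 0 < δ := hδ
  have d1 : δ < 1 / 2 := e1.trans_le (min_le_left _ _)
  have d2 : δ < ρ := e1.trans_le ((min_le_right _ _).trans (min_le_left _ _))
  have d3 : δ < r / (2 * A.R) := e1.trans_le ((min_le_right _ _).trans (min_le_right _ _))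
  rw [lt_div_iff₀ (by positivity)] at d3
  have hdep := dep_hp A hk (hx1 k) hR δ
  have hp0 : hp A (x k) δ 0 ≠ A.c := by
    rw [← sub_ne_zero, ← norm_pos_iff, norm_hp A (hx1 k) hR]
    positivity
  have hsub := pd_sub A hk hR hL hp0 (by rw [hdep]; exact hδ.le) (by rw [hdep]; exact d1.le)
  rw [hdep] at hsub
  have ex1 : 1 - δ ≤ Real.exp (-δ) := by linarith [Real.add_one_le_exp (-δ)]
  have ex2 : Real.exp (-δ) ≤ 1 := Real.exp_le_one_iff.2 (by linarith)
  have hRδ : 0 < A.R * δ := by positivity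
  refine ⟨0, fun _ => 0, fun _ _ => analyticAt_const, fun z hz => ⟨?_, fun hzp => ?_⟩⟩
  · rw [norm_zero]
    have : 0 < L := by linarith
    positivity
  · have z1 : ‖z - hp A (x k) δ 0‖ ≤ A.R * δ * (1 / 5) := by
      have hz' := hz
      rw [pd, mem_closedBall, dist_eq_norm, hdep] at hz'
      exact hz'.trans (mul_le_mul_of_nonneg_left (exp_six hL) hRδ.le)
    have z2 : ‖z - A.c‖ ≤ A.R * (1 - δ / 3) := by
      rw [← dist_eq_norm]
      exact hsub hz
    have hB : bB A x δ z ≠ 0 := by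
      refine bB_ne A x δ fun k' => ⟨?_, ?_⟩
      · by_cases hkk : k = k'
        · rw [← hkk]
          exact hzp
        · rintro rfl
          have c1 : hp A (x k') δ 0 - hp A (x k) δ 0 =
              ((A.R * Real.exp (-δ) : ℝ) : ℂ) * (x k' - x k) := by
            have : hp A (x k') δ 0 - hp A (x k) δ 0 =
              (hp A (x k') δ 0 - A.c) - (hp A (x k) δ 0 - A.c) := by ring
            rw [this, hp_sub, hp_sub]
            ring
          rw [c1, norm_mul, Complex.norm_real, Real.norm_eq_abs, abs_of_pos (by positivity),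
            norm_sub_rev] at z1
          have c2 := hs k' hkk
          have c3 : A.R * (1 / 2) * (2 * δ) ≤ A.R * Real.exp (-δ) * ‖x k - x k'‖ :=
            mul_le_mul (mul_le_mul_of_nonneg_left (by linarith) hR.le) (by linarith)
              (by positivity) (by positivity)
          nlinarith
      · rintro rfl
        rw [norm_hp A (hx1 k') hR, neg_neg] at z2
        have c1 : 1 ≤ Real.exp δ := Real.one_le_exp hδ.le
        nlinarith
    have hone : lam z * ch z = 1 := by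
      refine hb ?_
      have c1 : hp A (x k) δ 0 - hp A (x k) 0 0 =
          ((A.R * (Real.exp (-δ) - 1) : ℝ) : ℂ) * x k := by
        have : hp A (x k) δ 0 - hp A (x k) 0 0 =
          (hp A (x k) δ 0 - A.c) - (hp A (x k) 0 0 - A.c) := by ring
        rw [this, hp_sub, hp_sub, neg_zero, Real.exp_zero]
        push_cast
        ring
      have c2 : ‖hp A (x k) δ 0 - hp A (x k) 0 0‖ ≤ A.R * δ := by
        rw [c1, norm_mul, hx1, mul_one, Complex.norm_real, Real.norm_eq_abs, abs_le]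
        constructor <;> nlinarith
      have c3 : ‖z - hp A (x k) 0 0‖ ≤
          ‖z - hp A (x k) δ 0‖ + ‖hp A (x k) δ 0 - hp A (x k) 0 0‖ :=
        norm_sub_le_norm_sub_add_norm_sub _ _ _
      rw [dist_eq_norm]
      nlinarith
    have : Complex.exp (Real.pi / 4 * Complex.I) * lam z / bB A x δ z * (ch z * bB A x δ z) =
        Complex.exp (Real.pi / 4 * Complex.I) * (lam z * ch z) := by
      field_simp
    simp only
    rw [this, hone]
    simp

lemma ndir_one {ι : Type} (l : End) (U : Finset ι) (p : ι → ℂ) (u : ℂ → ℂ) {CD : ℝ} (hC : 0 ≤ CD)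
    {z : ℂ} (hu : ∀ᶠ y in 𝓝 z, u y = 1) : NDir l U p u 0 CD z := by
  have h1 : u =ᶠ[𝓝 z] fun _ => 1 := hu
  have h2 : u z = 1 := hu.self_of_nhds
  have h3 : deriv u z = 0 := by rw [h1.deriv_eq]; simp
  refine ⟨analyticAt_const.congr h1.symm, ?_, ?_, ?_, fun s _ _ => ?_⟩ <;> simp [h2, h3, hC]

variable {J : Type} (A : Cv) (fd : FD J A.ι) (x : π → ℂ) (δ : ℝ) (ρ β : π → ℝ)

lemma chart_hub {j : J} (hj : fd.m j = A.H) (z : ℂ) :
    (fd.born A π x δ ρ β).chart (born A π x δ) j z = fd.chart A j z * bB A x δ z := by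
  have h1 : (fd.born A π x δ ρ β).win (born A π x δ) j = fd.U.disjSum Finset.univ :=
    if_pos (congrArg Sum.inl hj)
  have h2 : fd.win A j = fd.U := if_pos hj
  have h3 : (fd.born A π x δ ρ β).mu j z = fd.mu j z / ∏ k, (z - hp A (x k) (-δ) 0) := if_pos hj
  have h4 : ∏ k ∈ (fd.born A π x δ ρ β).win (born A π x δ) j, (z - ((born A π x δ).e k).c) =
      (∏ k ∈ fd.U, (z - (A.e k).c)) * ∏ k, (z - hp A (x k) δ 0) :=
    (congrArg (fun s : Finset (A.ι ⊕ π) => ∏ k ∈ s, (z - ((born A π x δ).e k).c)) h1).trans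
      (Finset.prod_disjSum _ _ _)
  rw [FD.chart, FD.chart, h2, h3, h4, bB, Finset.prod_div_distrib]
  ring

lemma chart_off {j : J} (hj : fd.m j ≠ A.H) :
    (fd.born A π x δ ρ β).chart (born A π x δ) j = fd.chart A j := by
  funext z
  have h1 : (fd.born A π x δ ρ β).win (born A π x δ) j = ∅ :=
    if_neg fun h => hj (Sum.inl_injective h)
  have h2 : fd.win A j = ∅ := if_neg hj
  have h3 : (fd.born A π x δ ρ β).mu j z = fd.mu j z := if_neg hj
  rw [FD.chart, FD.chart, h1, h2, h3, Finset.prod_empty, Finset.prod_empty]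

lemma lam_hub {k : A.ι} (hk : k = A.H) (z : ℂ) :
    (born A π x δ).lam (Sum.inl k) z = A.lam k z / bB A x δ z := if_pos hk

lemma lam_off {k : A.ι} (hk : k ≠ A.H) : (born A π x δ).lam (Sum.inl k) = A.lam k :=
  funext fun _ => if_neg hk

variable {A fd x δ}

lemma one_born {sp : Sp J} (hk : A.hub.k = Kind.out) (hx1 : ∀ k, ‖x k‖ = 1) (hR : 0 < A.R)
    (hδ : 0 < δ) (he : ∀ j, sp.l j = A.e (fd.m j)) (h1 : One A sp fd) :
    One (born A π x δ) sp (fd.born A π x δ ρ β) := by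
  intro j hj
  show ∀ᶠ z in 𝓝ˢ (sp.l j).circ, (born A π x δ).lam (Sum.inl (fd.m j)) z *
    (fd.born A π x δ ρ β).chart (born A π x δ) j z = 1
  by_cases hH : fd.m j = A.H
  · have h2 : sp.l j = A.hub := by rw [he j, hH]; rfl
    have h3 := bB_ne_circ A hk x hx1 hR hδ
    rw [← h2] at h3
    filter_upwards [h1 j hj, h3] with z a1 a2
    rw [lam_hub A x δ hH, chart_hub A fd x δ ρ β hH, ← a1]
    field_simp
  · rw [lam_off A x δ hH, chart_off A fd x δ ρ β hH]
    exact h1 j hj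

end Pool.Agent.S6.FitNew

namespace Pool.Agent.S6

open Pool.Agent.CF (End Kind Cv)
open FitNew

theorem st_fitnew : St_FITNEW := by
  intro J _ L Cw A pr sp fd π _ x ρ β Λx hL hCw hk hR hF h1 hn hx
  have hx1 : ∀ k, ‖x k‖ = 1 := fun k => (hx k).1
  obtain ⟨hh, hh1, -, -, -, -, hκ, -⟩ := hF.kit
  have hnp : A.hub.k ≠ Kind.pt := by rw [hk]; decide
  have hl : ∀ j, fd.m j = A.H → sp.l j = A.hub := fun j hj => by rw [(hF.eq j).1, hj]; rfl
  have hdep : ∀ k ∈ fd.U, A.hub.dep (A.e k).c ≤ sp.h / 24 := by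
    intro k hkU
    obtain ⟨-, -, a1, -, -, -, a2, a3, -⟩ := hF.win k hkU
    obtain ⟨b1, b2⟩ := hκ _ (hCw (fd.β k))
    have b3 := hCw (fd.β k)
    have b4 : 1 / (3 * Cw (fd.β k)) ≤ 1 / 3 :=
      one_div_le_one_div_of_le (by norm_num) (by linarith)
    have b5 : fd.κf (Cw (fd.β k)) * fd.ρ k ≤ fd.κf (Cw (fd.β k)) * (sp.h / 8) :=
      mul_le_mul_of_nonneg_left a2 b1.le
    nlinarith
  have hne : ∀ j, fd.m j = A.H → ∀ z ∈ A.hub.ann (Icc (sp.h / 16) sp.h),
      sp.om j z ≠ 0 ∧ fd.chart A j z ≠ 0 := by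
    intro j hj z hz
    obtain ⟨-, a1, -, -, a2, -⟩ := hF.ring j (by rw [hl j hj]; exact hnp)
    rw [hl j hj] at a1 a2
    refine ⟨a2 z hz, mul_ne_zero (a1 z ⟨hz.1, by linarith [hz.2.1], hz.2.2⟩)
      (Finset.prod_ne_zero_iff.2 fun k hkw => sub_ne_zero.2 ?_)⟩
    have h2 : fd.win A j = fd.U := if_pos hj
    rw [h2] at hkw
    rintro rfl
    linarith [hdep k hkw, hz.2.1]
  have hLW : ∀ j (Λ Λ' : ℝ), Λ < Λ' →
      LW (sp.l j) sp.h sp.r1 (fun z => Real.log ‖sp.om j z / fd.chart A j z‖) (fd.k j) Λ →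
      ∀ᶠ δ in 𝓝[>] (0 : ℝ), ∃ Λ'' ≤ Λ', LW (sp.l j) sp.h sp.r1 (fun z => Real.log
        ‖sp.om j z / (fd.born A π x δ ρ β).chart (born A π x δ) j z‖) (fd.k j) Λ'' ∧
        (fd.m j ≠ A.H → Λ'' = Λ) := by
    intro j Λ Λ' hΛ hw
    by_cases hj : fd.m j = A.H
    · rw [hl j hj] at hw ⊢
      filter_upwards [lw_hub A hk x hx1 hR hh _ _ (hne j hj) hw hΛ] with δ hδ
      refine ⟨Λ', le_rfl, ?_, fun h => absurd hj h⟩
      simpa only [chart_hub A fd x δ ρ β hj] using hδ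
    · refine Eventually.of_forall fun δ => ⟨Λ, hΛ.le, ?_, fun _ => rfl⟩
      rw [chart_off A fd x δ ρ β hj]
      exact hw
  have e1 : ∀ᶠ δ in 𝓝[>] (0 : ℝ), ∀ j, (sp.l j).k ≠ Kind.pt → ∃ Λ < fd.Λw,
      LW (sp.l j) sp.h sp.r1 (fun z => Real.log
        ‖sp.om j z / (fd.born A π x δ ρ β).chart (born A π x δ) j z‖) (fd.k j) Λ := by
    refine eventually_all.2 fun j => ?_
    by_cases hj : (sp.l j).k ≠ Kind.pt
    · obtain ⟨-, -, -, ⟨Λ, a1, a2⟩, -⟩ := hF.ring j hj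
      filter_upwards [hLW j Λ ((Λ + fd.Λw) / 2) (by linarith) a2] with δ hδ _
      obtain ⟨Λ'', b1, b2, -⟩ := hδ
      exact ⟨Λ'', by linarith, b2⟩
    · exact Eventually.of_forall fun δ h => absurd h hj
  have e2 : ∀ᶠ δ in 𝓝[>] (0 : ℝ),
      Marg A sp fd Λx → Marg (born A π x δ) sp (fd.born A π x δ ρ β) Λx := by
    by_cases hM : Marg A sp fd Λx
    · refine (eventually_all.2 fun j => ?_).mono fun δ h _ => h
      obtain ⟨Λ, a1, a2, a3⟩ := hM j
      by_cases hj : (sp.l j).k = Kind.pt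
      · refine Eventually.of_forall fun δ => ⟨Λ, a1, fun h => absurd hj h, fun _ => ?_⟩
        have hH : fd.m j ≠ A.H := fun h => hnp (by rw [← hl j h]; exact hj)
        show LW (sp.l j) sp.h sp.r1
          (fun z => Real.log ‖sp.om j z * (born A π x δ).lam (Sum.inl (fd.m j)) z‖) 1 Λ
        rw [lam_off A x δ hH]
        exact a3 hj
      · filter_upwards [hLW j Λ ((Λ + (fd.Λw - 2 * Λx)) / 2) (by linarith) (a2 hj)] with δ hδ
        obtain ⟨Λ'', b1, b2, -⟩ := hδ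
        refine ⟨Λ'', ?_, fun _ => b2, fun h => absurd h hj⟩
        show Λ'' + 2 * Λx < fd.Λw
        linarith
    · exact Eventually.of_forall fun δ h => absurd h hM
  have e3 : ∀ᶠ δ in 𝓝[>] (0 : ℝ), ∀ k ∈ fd.U, ∀ j, fd.m j = A.H →
      PortDir L (A.e k).c (pd L A.hub (A.e k).c)
        fun z => A.lam k z * fd.chart A j z * bB A x δ z := by
    refine (eventually_all_finset _).2 fun k hkU => eventually_all.2 fun j => ?_
    by_cases hj : fd.m j = A.H
    · obtain ⟨-, -, a1, a2, -, -, -, -, -, -, a3⟩ := hF.win k hkU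
      filter_upwards [portDir_old A hk x hx1 hR hL a2 a1 (by linarith [hdep k hkU]) _ (a3 j hj)]
        with δ hδ _ using hδ
    · exact Eventually.of_forall fun δ h => absurd h hj
  have e4 : ∀ᶠ δ in 𝓝[>] (0 : ℝ), ∀ k j, fd.m j = A.H →
      PortDir L (hp A (x k) δ 0) (pd L A.hub (hp A (x k) δ 0)) fun z =>
        Complex.exp (Real.pi / 4 * Complex.I) * A.lam A.H z / bB A x δ z *
          (fd.chart A j z * bB A x δ z) := by
    refine eventually_all.2 fun k => eventually_all.2 fun j => ?_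
    by_cases hj : fd.m j = A.H
    · have a1 := h1 j (by rw [hl j hj]; exact hnp)
      rw [hl j hj, hj] at a1
      filter_upwards [portDir_new A hk x hx1 hR hL _ _ a1 k (hx k).2.2.2.1 (hx k).2.2.2.2.2.1]
        with δ hδ _ using hδ
    · exact Eventually.of_forall fun δ h => absurd h hj
  have e5 : ∀ᶠ δ in 𝓝[>] (0 : ℝ), ∀ k, Cw (β k) * δ < fd.κf (Cw (β k)) * ρ k := by
    refine eventually_all.2 fun k => nhdsWithin_le_nhds ?_
    refine (show Continuous fun δ : ℝ => Cw (β k) * δ by fun_prop).continuousAt.eventually_lt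
      continuousAt_const ?_
    simpa using mul_pos (hκ _ (hCw (β k))).1 (hx k).2.2.2.1
  have e6 : ∀ᶠ δ in 𝓝[>] (0 : ℝ), δ < 1 / 2 := nhdsWithin_le_nhds (eventually_lt_nhds (by norm_num))
  filter_upwards [e1, e2, e3, e4, e5, e6, self_mem_nhdsWithin] with δ e1 e2 e3 e4 e5 e6 hδ
  have hδ : 0 < δ := hδ
  have hOne := one_born ρ β hk hx1 hR hδ (fun j => (hF.eq j).1) h1
  refine ⟨⟨fun a b h => hF.inj (Sum.inl_injective h), fun j => ⟨(hF.eq j).1, fun h => ?_⟩, ?_,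
    hF.kit, ⟨?_, hF.num.2⟩, fun j hj => ?_, fun j hj => ?_, fun k hkU => ?_⟩, hOne, e2,
    fun k => ⟨hx_hp A (hx1 k) hR δ, dep_hp A hk (hx1 k) hR δ⟩⟩
  · exact (hF.eq j).2 (Finset.inl_mem_disjSum.1 h)
  · obtain ⟨j, hj⟩ := hF.hub
    exact ⟨j, congrArg Sum.inl hj⟩
  · show (fd.U.disjSum (Finset.univ : Finset π)).card ≤ fd.n
    rw [Finset.card_disjSum, Finset.card_univ]
    exact hn
  · obtain ⟨a1, a2, -, -, a5, a6⟩ := hF.ring j hj
    have hmu : AnalyticOnNhd ℂ ((fd.born A π x δ ρ β).mu j) ((sp.l j).ann (Icc 0 sp.h)) ∧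
        ∀ z ∈ (sp.l j).ann (Icc 0 sp.h), (fd.born A π x δ ρ β).mu j z ≠ 0 := by
      by_cases hH : fd.m j = A.H
      · have b1 : (fd.born A π x δ ρ β).mu j =
            fun z => fd.mu j z / ∏ k, (z - hp A (x k) (-δ) 0) := funext fun z => if_pos hH
        have b2 : ∀ z ∈ (sp.l j).ann (Icc 0 sp.h), ∏ k, (z - hp A (x k) (-δ) 0) ≠ 0 := by
          intro z hz
          refine Finset.prod_ne_zero_iff.2 fun k _ => sub_ne_zero.2 ?_
          rintro rfl
          have c1 := hz.2.1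
          rw [hl j hH, dep_hp A hk (hx1 k) hR] at c1
          linarith
        rw [b1]
        exact ⟨fun z hz => (a1 z hz).fun_div
          (Finset.analyticAt_fun_prod _ fun k _ => by fun_prop) (b2 z hz),
          fun z hz => div_ne_zero (a2 z hz) (b2 z hz)⟩
      · have b1 : (fd.born A π x δ ρ β).mu j = fd.mu j := funext fun z => if_neg hH
        rw [b1]
        exact ⟨a1, a2⟩
    refine ⟨hmu.1, hmu.2, fun z hz => ?_, e1 j hj, a5, ?_⟩
    · exact ndir_one _ _ _ _ (zero_le_one.trans hF.num.2.1) ((nhds_le_nhdsSet hz) (hOne j hj))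
    · split_ifs with hH
      · rw [if_pos (Sum.inl_injective hH)] at a6
        exact a6
      · rw [if_neg fun h => hH (congrArg Sum.inl h)] at a6
        exact a6
  · have hH : fd.m j ≠ A.H := fun h => hnp (by rw [← hl j h]; exact hj)
    have b1 : (born A π x δ).lam ((fd.born A π x δ ρ β).m j) = A.lam (fd.m j) := lam_off A x δ hH
    rw [b1]
    exact hF.port j hj
  · rcases k with k | k
    · have hU : k ∈ fd.U := Finset.inl_mem_disjSum.1 hkU
      obtain ⟨a1, a2, a3, a4, a5, a6, a7, a8, a9, a10, -⟩ := hF.win k hU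
      refine ⟨a1, a2, a3, a4, a5, a6, a7, a8, fun k' hk' hkk => ?_, a10, fun j hj => ?_⟩
      · rcases k' with k' | k'
        · exact a9 k' (Finset.inl_mem_disjSum.1 hk') fun h => hkk (congrArg Sum.inl h)
        · show 2 * fd.ρ k ≤ ‖S6.hx A.hub (A.e k).c - S6.hx A.hub (hp A (x k') δ 0)‖
          rw [hx_hp A (hx1 k') hR, norm_sub_rev]
          exact ((hx k').2.2.2.2.2.2 k hU).2
      · have hH : fd.m j = A.H := Sum.inl_injective hj
        have hkH : k ≠ A.H := fun h => hnp (by rw [h] at a1; exact a1)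
        show PortDir L (A.e k).c (pd L A.hub (A.e k).c) fun z =>
          (born A π x δ).lam (Sum.inl k) z * (fd.born A π x δ ρ β).chart (born A π x δ) j z
        simpa only [lam_off A x δ hkH, chart_hub A fd x δ ρ β hH, mul_assoc] using e3 k hU j hH
    · obtain ⟨-, a1, a2, a3, a4, a5, a6⟩ := hx k
      have hd := dep_hp A hk (hx1 k) hR δ
      refine ⟨rfl, rfl, ?_, ?_, a1, a2, a4, ?_, fun k' hk' hkk => ?_, ?_, fun j hj => ?_⟩
      · exact hδ.trans_eq hd.symm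
      · show hp A (x k) δ 0 ≠ A.c
        rw [← sub_ne_zero, ← norm_pos_iff, norm_hp A (hx1 k) hR]
        positivity
      · show Cw (β k) * A.hub.dep (hp A (x k) δ 0) ≤ fd.κf (Cw (β k)) * ρ k
        rw [hd]
        exact (e5 k).le
      · rcases k' with k' | k'
        · show 2 * ρ k ≤ ‖S6.hx A.hub (hp A (x k) δ 0) - S6.hx A.hub (A.e k').c‖
          rw [hx_hp A (hx1 k) hR]
          exact (a6 k' (Finset.inl_mem_disjSum.1 hk')).1
        · show 2 * ρ k ≤ ‖S6.hx A.hub (hp A (x k) δ 0) - S6.hx A.hub (hp A (x k') δ 0)‖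
          rw [hx_hp A (hx1 k) hR, hx_hp A (hx1 k') hR]
          exact a5 k' fun h => hkk (congrArg Sum.inr h)
      · show |Real.log (bpr A L δ / (2 * A.R * A.hub.dep (hp A (x k) δ 0))) + L| ≤ 1 / 2
        rw [hd, bpr, mul_div_cancel_left₀ _ (by positivity), Real.log_exp, abs_le]
        constructor <;> linarith
      · have hH : fd.m j = A.H := Sum.inl_injective hj
        show PortDir L (hp A (x k) δ 0) (pd L A.hub (hp A (x k) δ 0)) fun z =>
          Complex.exp (Real.pi / 4 * Complex.I) * A.lam A.H z / bB A x δ z *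
            (fd.born A π x δ ρ β).chart (born A π x δ) j z
        simpa only [chart_hub A fd x δ ρ β hH] using e4 k j hH

end Pool.Agent.S6
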