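import Pool.Agent.Lib.S6.SplitC

/-!
Local data of the walls after the split.
-/

open Set Filter Topology Metric
open scoped ContDiff

noncomputable section

namespace Pool.Agent.S6

open Pool.Agent.CF (End Kind IsCurve Geo SLH Cv Priv SheetFam)
open Pool.Agent.Lib
open UPD

namespace GENW

/-- interior points of a zone -/
theorem zn_int {l : End} (ho : l.ok) {ρ : ℝ} (hρ : l.k = Kind.pt → 0 < ρ) {one : Prop} {s h : ℝ}
    (hs : s < h) {z : ℂ} (hz : z ∈ zn l ρ one s) (hc : z ∉ ct l ρ) :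
    ∀ᶠ v in 𝓝 z, v ∈ zn l ρ one h := by
  by_cases hk : l.k = Kind.pt
  · rw [zn_pt hk] at hz ⊢
    have : z ∈ ball l.c (ρ * Real.exp h) :=
      lt_of_le_of_lt hz (mul_lt_mul_of_pos_left (Real.exp_lt_exp.2 hs) (hρ hk))
    filter_upwards [isOpen_ball.mem_nhds this] with v a using ball_subset_closedBall a
  · have hr := ho.pos hk
    rw [ct_loop hk] at hc
    by_cases h1 : one
    · rw [zn_one hk _ h1] at hz ⊢
      have : z ∈ l.ann (Ioo 0 h) := ⟨hz.1, lt_of_le_of_ne hz.2.1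
        (fun e => hc ((End.mem_circ hr).2 ⟨hz.1, e.symm⟩)), hz.2.2.trans_lt hs⟩
      filter_upwards [(End.isOpen_ann hr isOpen_Ioo).mem_nhds this] with v a
        using End.ann_mono Ioo_subset_Icc_self a
    · rw [zn_two hk _ h1] at hz ⊢
      have : z ∈ l.ann (Ioo (-h) h) := ⟨hz.1, by linarith [hz.2.1], hz.2.2.trans_lt hs⟩
      filter_upwards [(End.isOpen_ann hr isOpen_Ioo).mem_nhds this] with v a
        using End.ann_mono Ioo_subset_Icc_self a

theorem wl_setW (l : End) (w : ℂ → ℂ) (ρ : ℝ) : (wl (l.setW w) ρ).dep = (wl l ρ).dep := by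
  by_cases hk : l.k = Kind.pt
  · rw [wl_pt hk, wl_pt (l := l.setW w) hk]; rfl
  · rw [wl_loop hk, wl_loop (l := l.setW w) hk]; rfl

theorem pr_iff {f : ℝ → ℝ} {p p' : Prop} (h : SH.PR f p) (e : p' ↔ p) : SH.PR f p' :=
  propext e ▸ h

/-- near an interior point of a component the surface is the graph -/
theorem graph {I : Type} [Finite I] (fx : Fix I) {F : I → ℂ → ℂ} (hF : ∀ i, Continuous (F i))
    (gap : ∀ i i', i ≠ i' → ∀ z ∈ fx.dom i, z ∈ fx.dom i' → F i z ≠ F i' z) {i : I} {z : ℂ}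
    (hz : ∀ᶠ v in 𝓝 z, v ∈ fx.dom i) :
    ∀ᶠ y in 𝓝 ((z, F i z) : E), y ∈ fx.S F ↔ y.2 = F i y.1 := by
  have key : ∀ j, ∀ᶠ y in 𝓝 ((z, F i z) : E), j ≠ i → y.1 ∈ fx.dom j → y.2 ≠ F j y.1 := by
    intro j
    by_cases e : j = i
    · exact Eventually.of_forall fun _ a => absurd e a
    by_cases a : z ∈ fx.dom j
    · have c : ContinuousAt (fun y : E => y.2 - F j y.1) (z, F i z) :=
        (continuous_snd.sub ((hF j).comp continuous_fst)).continuousAt
      filter_upwards [c.eventually_ne (sub_ne_zero.2 (gap j i e z a hz.self_of_nhds).symm)]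
        with y b _ _ using sub_ne_zero.1 b
    · filter_upwards [(continuousAt_fst (p := ((z, F i z) : E))).eventually
        ((PCS.isCompact_dom fx j).isClosed.isOpen_compl.mem_nhds a)] with y b _ c using absurd c b
  filter_upwards [eventually_all.2 key, (continuousAt_fst (p := ((z, F i z) : E))).eventually hz]
    with y a b
  refine ⟨fun c => ?_, fun c => PCS.mem_S.2 ⟨i, b, c⟩⟩
  obtain ⟨j, d, e⟩ := PCS.mem_S.1 c
  by_cases f : j = i
  · exact f ▸ e
  · exact absurd e (a j f d)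

end GENW

open GENW

theorem st_genw (hN : St_NEWF) : St_GENW := by
  classical
  intro I _ fx σ G q y2 dC dK Γe e lA Nd' π' _ x' L δ' M MK EA pr Ef hz' sd Zb t τ kk ε h ht h4 hε
    sw km cA hC hK pK pC b0 pB gap sad
  have T := two h
  have h3 : 3 * t ≤ σ.hz := by linarith
  have h3' : 3 * t < σ.hz := by linarith
  have hz0 := sw.pos.1
  have hz1 : hz' ≤ 3 * t := by linarith [sw.pos.2]
  obtain ⟨sm, -, nC, nK, nO⟩ := hN I fx σ M MK t kk ε h ht h3 hε sw.small km.small sw.supp km.off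
  set F' := newF σ M MK with hF'
  set A := splB σ.C σ.K G q (fun _ => y2) (fun k => σ.WC.pr k * Real.exp y2) dC dK Γe e lA with hA
  set B := born σ.C π' x' δ' with hB
  set W' := Wd.born σ.C σ.WC.cp pr π' L δ' Ef with hW'
  have cA' : IsCurve A.P A.Γ A.e := cA
  have sC := fun k => zn_le (endW T.sA k) h3
  have sK := fun k => zn_le (endW T.sB k) h3
  have np : ∀ k, (aE σ.C σ.WC y2 k).k ≠ Kind.pt := fun k =>
    End.adj_ne_pt fun a => mul_pos (T.sA.port k a).1 (Real.exp_pos _)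
  have zl : ∀ k, (newW σ EA).zn A hz' (Sum.inl k) = (aE σ.C σ.WC y2 k).ann (Icc (-hz') hz') :=
    fun k => zn_two (l := A.e (Sum.inl k)) (np k) _ Sum.inl_ne_inr _
  have zr : ∀ k, (newW σ EA).zn A hz' (Sum.inr k) = σ.WK.zn σ.K hz' k := fun k => by
    show zn (σ.K.e k) (σ.WK.pr k) ((Sum.inr k : σ.C.ι ⊕ σ.K.ι) = Sum.inr σ.K.H) hz' = _
    rw [Sum.inr.injEq]; rfl
  have cl : ∀ k, ct (A.e (Sum.inl k)) ((newW σ EA).pr (Sum.inl k)) = (aE σ.C σ.WC y2 k).circ :=
    fun k => ct_loop (l := A.e (Sum.inl k)) (np k) _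
  have wB : ∀ j, (B.e j).w = (σ.C.e (par σ.C π' j)).w := by rintro (j | j) <;> rfl
  have pB' : ∀ j, W'.cp j = σ.WC.cp (par σ.C π' j) := by rintro (j | j) <;> rfl
  have val : ∀ k, ∀ z ∈ σ.WC.zn σ.C (3 * t) k,
      F' (σ.WC.cp k) z = (σ.C.e k).w z + nW σ.C σ.WC M k z := fun k z a => by
    rw [(nC k z (sC k a)).self_of_nhds, T.sA.exact k z (sC k a), nW, add_assoc]
  have ev : ∀ k, ∀ z ∈ σ.WC.zn σ.C (3 * t) k, z ∉ ct (σ.C.e k) (σ.WC.pr k) ∨ k ≠ σ.C.H →
      ∀ᶠ v in 𝓝 z, v ∈ σ.WC.zn σ.C σ.hz k := by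
    intro k z a b
    by_cases c : z ∈ ct (σ.C.e k) (σ.WC.pr k)
    · have d := b.resolve_left (not_not.2 c)
      by_cases hk : (σ.C.e k).k = Kind.pt
      · unfold Wd.zn
        rw [ct_pt hk] at c
        rw [zn_pt hk]
        have : z ∈ ball (σ.C.e k).c (σ.WC.pr k * Real.exp σ.hz) := lt_of_le_of_lt c
          (lt_mul_of_one_lt_right (T.sA.port k hk).1 (Real.one_lt_exp_iff.2 T.pos))
        filter_upwards [isOpen_ball.mem_nhds this] with v a using ball_subset_closedBall a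
      · unfold Wd.zn
        rw [ct_loop hk] at c
        rw [zn_two hk _ d]
        have hr := (T.cA.ok k).pos hk
        obtain ⟨p1, p2⟩ := PCS.circ_dep hr c
        have : z ∈ (σ.C.e k).ann (Ioo (-σ.hz) σ.hz) :=
          ⟨p1, by rw [p2]; exact ⟨by linarith [T.pos], T.pos⟩⟩
        filter_upwards [(End.isOpen_ann hr isOpen_Ioo).mem_nhds this] with v a
          using End.ann_mono Ioo_subset_Icc_self a
    · exact zn_int (T.cA.ok k) (fun x => (T.sA.port k x).1) h3' a c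
  have ev' : ∀ k z, z ∈ σ.WC.zn σ.C (3 * t) k → (∀ᶠ v in 𝓝 z, v ∈ σ.WC.zn σ.C σ.hz k) →
      ∀ᶠ v in 𝓝 z, F' (σ.WC.cp k) v = (σ.C.e k).w v + nW σ.C σ.WC M k v := fun k z a b => by
    filter_upwards [nC k z (sC k a), b] with v c d
    rw [c, T.sA.exact k v d, nW, add_assoc]
  have eC : ∀ j, EndW F' hz' A B (newW σ EA) j := by
    rintro (k | k)
    · refine ⟨fun a => absurd a (np k), fun _ => ?_, ?_, ?_, ?_⟩
      · rw [zl]; exact ⟨fun z a => (sw.anA k z a).2.1, fun z a => (sw.anA k z a).2.2⟩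
      · rw [zl]
        intro z a
        have b : AnalyticAt ℂ (aE σ.C σ.WC y2 k).w z := by
          rw [aE, End.adj_w]; exact T.sA.an k z (sC k (sw.subA k a).1)
        exact b.add (analyticAt_const.mul (sw.anA k z a).1)
      · exact pr_iff (sw.prA k) (iff_true_intro ⟨np k, Sum.inl_ne_inr⟩)
      · rw [zl, wl_loop (l := A.e (Sum.inl k)) (np k)]
        intro z a
        show F' (σ.WC.cp k) z = ((aE σ.C σ.WC y2 k).w z + e * dC k (z, e)) +
          (EA k ((aE σ.C σ.WC y2 k).dep z) : ℂ) * lA k z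
        rw [val k z (sw.subA k a).1, sw.exactA k z a, add_assoc]
        congr 1
        rw [aE, End.adj_w]
    · have s1 : σ.WK.zn σ.K hz' k ⊆ σ.WK.zn σ.K (3 * t) k := zn_le (endW T.sB k) hz1
      have s2 := s1.trans (sK k)
      refine ⟨fun a => ?_, fun a => ?_, ?_, ?_, ?_⟩
      · rw [zr]
        exact ⟨(T.sB.port k a).1, priv_mono (pK k a) le_rfl rfl rfl rfl rfl Subset.rfl rfl rfl,
          (T.sB.port k a).2.2.mono s2⟩
      · rw [zr]
        exact ⟨(T.sB.loop k a).1.mono s2, fun z b => (T.sB.loop k a).2 z (s2 b)⟩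
      · rw [zr]; exact fun z a => (hK k z (s1 a)).1
      · exact pr_iff (T.sB.pr k) (and_congr Iff.rfl (not_congr Sum.inr_injective.eq_iff))
      · rw [zr]
        intro z a
        have d : (wl (A.e (Sum.inr k)) ((newW σ EA).pr (Sum.inr k))).dep =
          (wl (σ.K.e k) (σ.WK.pr k)).dep := wl_setW _ _ _
        rw [d]
        show F' (σ.WK.cp k) z = ((σ.K.e k).w z + e * dK k (z, e)) +
          (σ.WK.Ef k ((wl (σ.K.e k) (σ.WK.pr k)).dep z) : ℂ) * σ.K.lam k z
        rw [(nK k z (s2 a)).self_of_nhds, T.sB.exact k z (s2 a),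
          km.eq k z (zn_le (endW T.sB k) sw.pos.2 a)]
        ring
  have eK : ∀ j, EndW F' hz' B A W' j := by
    intro j
    refine ⟨fun a => ?_, sw.loop j, ?_, sw.pr j, fun z a => ?_⟩
    · rcases j with k | k
      · exact ⟨(pC k a).1, priv_mono (pC k a).2 le_rfl rfl rfl rfl rfl
          (loops_addp _ _ _ _ _ _).subset rfl rfl, sw.pole _ a⟩
      · exact ⟨b0, priv_mono (pB k) le_rfl rfl rfl rfl rfl
          (loops_addp _ _ _ _ _ _).subset rfl rfl, sw.pole _ a⟩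
    · rw [wB]; exact (T.sA.an _).mono ((sw.sub j).trans (sC _))
    · rw [wB, pB', val _ z (sw.sub j a), sw.exact j z a]
  have onB : ∀ j, ∀ z ∈ ct (B.e j) (W'.pr j), (z, (B.e j).w z) ∈ σ.C.Γ := by
    intro j z a
    by_cases hk : (B.e j).k = Kind.pt
    · rw [ct_pt hk] at a; exact (((eK j).port hk).2.1.mem z a).1
    · rw [ct_loop hk] at a
      rcases j with k | k
      · exact T.cA.mem_of_circ k a
      · exact absurd rfl hk
  have onA : ∀ k, ∀ z ∈ σ.WC.zn σ.C (3 * t) k, (z, F' (σ.WC.cp k) z) ∈ Γe e →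
      z ∈ (aE σ.C σ.WC y2 k).circ := fun k z a b => by
    refine sw.zero1 k z a (by_contra fun c => (hC k z a).1 c _ b) ?_
    rw [← val k z a]; exact cA.zero _ b
  have onC : ∀ k, ∀ z ∈ σ.WC.zn σ.C (3 * t) k, (z, F' (σ.WC.cp k) z) ∈ σ.C.Γ →
      nW σ.C σ.WC M k z = 0 := fun k z a b => by
    have c := (hC k z a).2 _ (by rw [val k z a, add_sub_cancel_left]; exact sw.bd k z a) b
    rwa [val k z a, add_eq_left] at c
  have hk : (σ.C.e σ.C.H).k ≠ Kind.pt := by
    have o : (σ.C.e σ.C.H).k = Kind.out := T.oA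
    rw [o]; decide
  refine ⟨sm, ⟨hz0, hz1.trans (h3.trans h.wall.hz.2)⟩, T.sB.hub, T.sA.hub, eC, eK, ?_,
    fun j => ⟨pB' j, (sw.sub j).trans (sC _)⟩, fun j j' a b => absurd b a,
    fun j j' a b => sw.disj j j' a (Sum.inl.inj b), ?_, fun i z a b => ?_, ?_, ?_, ?_,
    Finset.subset_union_left, fun s a => ?_⟩
  · rintro (k | k)
    · exact ⟨rfl, fun z a => sC k (sw.subA k (zl k ▸ a)).1⟩
    · exact ⟨rfl, fun z a => sK k (zn_le (endW T.sB k) hz1 (zr k ▸ a))⟩
  · rintro _ k rfl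
    exact zl _ ▸ sw.cross k
  · have c := nO i z a b
    refine ⟨c.self_of_nhds, ?_⟩
    show SH.dbar (F' i) z = _
    unfold SH.dbar
    rw [EventuallyEq.fderiv_eq c]
  · rintro (k | k) z a b
    · have c : z ∈ ct (A.e (Sum.inl k)) ((newW σ EA).pr (Sum.inl k)) := cl k ▸ onA k z a b
      exact ⟨Sum.inl k, c, exact_ct (eC (Sum.inl k)) (cA'.ok _) hz0.le c⟩
    · have c := (hK k z a).2.2 b
      exact ⟨Sum.inr k, km.con k z a ((nK k z (sK k a)).self_of_nhds.symm.trans c), c⟩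
  · rintro (k | k) z a b
    · have c := onC k z a b
      obtain ⟨j, rfl, d⟩ := sw.zero0 k z a c
      refine ⟨j, d, ?_⟩
      show F' (σ.WC.cp (par σ.C π' j)) z = (B.e j).w z
      rw [val _ z a, c, add_zero, wB]
    · exact absurd b (hK k z a).2.1
  · rintro (k | k) z a b
    · have b1 : (z, F' (σ.WC.cp k) z) ∉ Γe e := fun c => b (Or.inl c)
      have b2 : (z, F' (σ.WC.cp k) z) ∉ σ.C.Γ := fun c => b (Or.inr c)
      have n0 : nW σ.C σ.WC M k z ≠ 0 := fun c => by
        obtain ⟨j, rfl, d⟩ := sw.zero0 k z a c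
        refine b2 ?_
        rw [val _ z a, c, add_zero, ← wB]; exact onB j z d
      have n1 : z ∉ (aE σ.C σ.WC y2 k).circ := fun c => by
        have c' : z ∈ ct (A.e (Sum.inl k)) ((newW σ EA).pr (Sum.inl k)) := cl k ▸ c
        exact b1 (cg_sub (eC (Sum.inl k)) cA'
          ⟨c', exact_ct (eC (Sum.inl k)) (cA'.ok _) hz0.le c'⟩)
      have n2 : z ∉ ct (σ.C.e k) (σ.WC.pr k) ∨ k ≠ σ.C.H := by
        by_cases c : k = σ.C.H
        · subst c
          refine Or.inl fun d => b2 ?_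
          have d' : z ∈ ct (B.e (Sum.inl σ.C.H)) (W'.pr (Sum.inl σ.C.H)) := by
            rw [ct_loop hk] at d
            exact (ct_loop (l := B.e (Sum.inl σ.C.H)) hk _).symm ▸ d
          have := exact_ct (eK (Sum.inl σ.C.H)) (T.cA.ok _) hz0.le d'
          exact (show F' (σ.WC.cp σ.C.H) z = _ from this) ▸ onB _ z d'
        · exact Or.inr c
      refine (sw.real k z a n0 n1 _ (ev' k z a (ev k z a n2))).imp id ?_
      rintro ⟨rfl, i, rfl⟩
      exact Finset.mem_union_right _ (Finset.mem_image_of_mem _ (Finset.mem_univ i))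
    · refine Or.inl (km.real k z a (fun c => b (Or.inl ?_)) _ (nK k z (sK k a)))
      exact cg_sub (eC (Sum.inr k)) cA' ⟨c, exact_ct (eC (Sum.inr k)) (cA'.ok _) hz0.le c⟩
  · rcases Finset.mem_union.1 a with b | b
    · exact ⟨sad s b, Or.inl b⟩
    · obtain ⟨i, -, rfl⟩ := Finset.mem_image.1 b
      obtain ⟨c1, -, c3, c4, c5⟩ := sw.saddle i
      have m : sd i ∈ σ.WC.zn σ.C (3 * t) σ.C.H := by
        unfold Wd.zn
        rw [zn_one hk _ rfl]
        exact ⟨c1.1, c1.2.1.le, c1.2.2.le.trans (by linarith)⟩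
      have n : ∀ᶠ v in 𝓝 (sd i), v ∈ σ.WC.zn σ.C σ.hz σ.C.H := by
        refine ev _ _ m (Or.inl fun d => ?_)
        rw [ct_loop hk] at d
        exact c1.2.1.ne' (PCS.circ_dep ((T.cA.ok _).pos hk) d).2
      refine ⟨c5 _ _ (ev' _ _ m n) (graph fx (fun i => (sm i).continuous) gap
        (n.mono fun v x => T.sA.dom _ x)), Or.inr ?_⟩
      rintro (d | d)
      · exact c4 (onA _ _ m d)
      · exact c3 (onC _ _ m d)

end Pool.Agent.S6
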