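import Pool.Agent.Lib.S6.Blue
import Pool.Agent.Lib.CF.WinD

/-! Points near the hub circle, new ports at a hub and their algebraic invariants. -/

open Set Filter Topology Metric

noncomputable section

namespace Pool.Agent.S6.HP

open Pool.Agent.CF (End Kind IsCurve Half Priv Cv Nodal HasWind SameW)

section geo

variable {A : Cv} {x z : ℂ} {s t δ : ℝ}

theorem hp_sub (A : Cv) (x : ℂ) (s t : ℝ) :
    hp A x s t - A.c = A.R * x * Complex.exp (-s + t * Complex.I) := add_sub_cancel_left _ _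

theorem norm_hp (hr : 0 < A.R) (hx : ‖x‖ = 1) (s t : ℝ) :
    ‖hp A x s t - A.c‖ = A.R * Real.exp (-s) := by
  rw [hp_sub, norm_mul, norm_mul, hx, Complex.norm_exp, Complex.norm_real,
    Real.norm_of_nonneg hr.le]
  simp

theorem hp_ne (hr : 0 < A.R) (hx : ‖x‖ = 1) (s t : ℝ) : hp A x s t ≠ A.c :=
  sub_ne_zero.1 (norm_pos_iff.1 (by rw [norm_hp hr hx]; positivity))

theorem dep_hp (hk : A.hub.k = Kind.out) (hr : 0 < A.R) (hx : ‖x‖ = 1) (s t : ℝ) :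
    A.hub.dep (hp A x s t) = s := by
  have : ‖hp A x s t - A.hub.c‖ / A.hub.r = Real.exp (-s) :=
    (div_eq_iff hr.ne').2 ((norm_hp hr hx s t).trans (mul_comm _ _))
  rw [End.dep, this, Real.log_exp]
  simp [End.sgn, hk]

theorem hx_hp (hr : 0 < A.R) (h : ‖x‖ = 1) (s : ℝ) : hx A.hub (hp A x s 0) = x := by
  show (hp A x s 0 - A.c) / (‖hp A x s 0 - A.c‖ : ℂ) = x
  rw [norm_hp hr h, hp_sub, div_eq_iff (Complex.ofReal_ne_zero.2 (by positivity))]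
  push_cast
  rw [zero_mul, add_zero]; ring

theorem mem_ann (hk : A.hub.k = Kind.out) (hr : 0 < A.R) (hx : ‖x‖ = 1) {I : Set ℝ} (hs : s ∈ I)
    (t : ℝ) : hp A x s t ∈ A.hub.ann I :=
  ⟨hp_ne hr hx s t, (dep_hp hk hr hx s t).symm ▸ hs⟩

theorem hp_inj (hr : 0 < A.R) {x' : ℂ} (h : hp A x s t = hp A x' s t) : x = x' :=
  mul_left_cancel₀ (Complex.ofReal_ne_zero.2 hr.ne')
    (mul_right_cancel₀ (Complex.exp_ne_zero _) (add_left_cancel h))

theorem hp_close (hr : 0 < A.R) (hx : ‖x‖ = 1) (h : |s| + |t| ≤ 1) :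
    ‖hp A x s t - (A.c + A.R * x)‖ ≤ 2 * A.R * (|s| + |t|) := by
  have a : ‖(-s + t * Complex.I : ℂ)‖ ≤ |s| + |t| := (norm_add_le _ _).trans (by simp)
  have b := Complex.norm_exp_sub_one_le (a.trans h)
  rw [show hp A x s t - (A.c + A.R * x) =
    A.R * x * (Complex.exp (-s + t * Complex.I) - 1) by unfold hp; ring, norm_mul, norm_mul, hx,
    Complex.norm_real, Real.norm_of_nonneg hr.le]
  nlinarith

theorem sqrt2 : 1 < Real.sqrt 2 ∧ Real.sqrt 2 < 3 / 2 :=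
  ⟨Real.one_lt_sqrt_two, Real.sqrt_two_lt_three_halves⟩

theorem hp_near (hr : 0 < A.R) (hx : ‖x‖ = 1) (h1 : δ ≤ 1 / 8) (hs : |s| ≤ 3 / 2 * δ)
    (ht : |t| ≤ δ) : ‖hp A x s t - (A.c + A.R * x)‖ ≤ 5 * A.R * δ := by
  have := hp_close hr hx (s := s) (t := t) (by linarith)
  nlinarith

theorem win_in (hr : 0 < A.R) (hx : ‖x‖ = 1) (h0 : 0 < δ) (h1 : δ ≤ 1 / 8)
    (hz : ‖z - hp A x δ 0‖ ≤ A.R * δ / 4) :
    ‖z - A.c‖ < A.R ∧ ‖z - (A.c + A.R * x)‖ ≤ 5 * A.R * δ := by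
  have b := Real.abs_exp_sub_one_sub_id_le (x := -δ) (by rw [abs_neg, abs_of_pos h0]; linarith)
  have c := (abs_le.1 b).2
  have d : Real.exp (-δ) ≤ 1 - δ / 2 := by nlinarith
  constructor
  · have e := norm_add_le (z - hp A x δ 0) (hp A x δ 0 - A.c)
    rw [sub_add_sub_cancel, norm_hp hr hx] at e
    nlinarith [mul_le_mul_of_nonneg_left d hr.le, mul_pos hr h0]
  · have e := norm_add_le (z - hp A x δ 0) (hp A x δ 0 - (A.c + A.R * x))
    have f := hp_close hr hx (s := δ) (t := 0) (by rw [abs_of_pos h0, abs_zero]; linarith)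
    rw [abs_of_pos h0, abs_zero] at f
    rw [sub_add_sub_cancel] at e
    nlinarith [mul_pos hr h0]

theorem win_out (hr : 0 < A.R) (hx : ‖x‖ = 1) (h0 : s < 0) (t : ℝ) : A.R < ‖hp A x s t - A.c‖ := by
  rw [norm_hp hr hx]
  exact lt_mul_of_one_lt_right hr (Real.one_lt_exp_iff.2 (neg_pos.2 h0))

theorem bp_mem (hr : 0 < A.R) (hx : ‖x‖ = 1) : A.c + A.R * x ∈ A.hub.circ := by
  show A.c + A.R * x ∈ sphere A.c A.R
  simp [hx, hr.le]

theorem win_nhds (hr : 0 < A.R) {N : Set ℂ} (hN : N ∈ 𝓝ˢ A.hub.circ) :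
    ∀ᶠ δ in 𝓝[>] (0 : ℝ), ∀ x z : ℂ, ‖x‖ = 1 → ‖z - (A.c + A.R * x)‖ ≤ 5 * A.R * δ → z ∈ N := by
  obtain ⟨U, a, b, c⟩ := mem_nhdsSet_iff_exists.1 hN
  obtain ⟨ε, d, e⟩ := A.hub.isCompact_circ.exists_cthickening_subset_open a b
  filter_upwards [Ioo_mem_nhdsGT (show 0 < ε / (5 * A.R) by positivity)] with δ h x z hx hz
  refine c (e (mem_cthickening_of_dist_le z (A.c + A.R * x) _ _ (bp_mem hr hx) ?_))
  have := (lt_div_iff₀ (by positivity)).1 h.2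
  rw [dist_eq_norm]; linarith

theorem win_far {B : Cv} {T : ℤ} (h : Half A B T) (hx : ‖x - A.c‖ ≤ 1 / 2) (h1 : δ ≤ 1 / 8)
    (hz : ‖z - (A.c + A.R * x)‖ ≤ 5 * A.R * δ) : 8 / 5 < ‖z - B.c‖ := by
  obtain ⟨hr, hr'⟩ := h.rad
  have e : ((2 + A.R : ℝ) : ℂ) * A.c = (z - B.c) - (z - (A.c + A.R * x)) - A.R * (x - A.c) := by
    rw [h.cen.2]; push_cast; ring
  have a := norm_sub_le ((z - B.c) - (z - (A.c + A.R * x))) (A.R * (x - A.c))
  have b := norm_sub_le (z - B.c) (z - (A.c + A.R * x))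
  rw [← e, norm_mul, h.norm_c.1, norm_mul, Complex.norm_real, Complex.norm_real,
    Real.norm_of_nonneg (by linarith), Real.norm_of_nonneg (by linarith)] at a
  nlinarith

theorem win_sep {π : Type} [Fintype π] {x : π → ℂ} (hr : 0 < A.R) (hx : Function.Injective x) :
    ∀ᶠ δ in 𝓝[>] (0 : ℝ), ∀ k k', k ≠ k' → ∀ z : ℂ, ‖z - (A.c + A.R * x k)‖ ≤ 5 * A.R * δ →
      5 * A.R * δ < ‖z - (A.c + A.R * x k')‖ := by
  refine eventually_all.2 fun k => eventually_all.2 fun k' => ?_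
  by_cases e : k = k'
  · exact Eventually.of_forall fun _ a => absurd e a
  have p : 0 < ‖x k - x k'‖ := norm_pos_iff.2 (sub_ne_zero.2 fun a => e (hx a))
  filter_upwards [Ioo_mem_nhdsGT (show 0 < ‖x k - x k'‖ / 10 by positivity)] with δ h _ z hz
  have a := norm_sub_le (z - (A.c + A.R * x k')) (z - (A.c + A.R * x k))
  rw [show z - (A.c + A.R * x k') - (z - (A.c + A.R * x k)) = A.R * (x k - x k') by ring, norm_mul,
    Complex.norm_real, Real.norm_of_nonneg hr.le] at a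
  nlinarith [h.2]

theorem exp_le_eighth {s : ℝ} (hs : 4 ≤ s) : Real.exp (-s) ≤ 1 / 8 := by
  rw [Real.exp_neg, ← one_div]
  refine one_div_le_one_div_of_le (by norm_num) ?_
  have := Real.add_one_le_exp (s / 2)
  rw [show s = s / 2 + s / 2 by ring, Real.exp_add]; nlinarith

theorem bpr_le (hr : 0 < A.R) (h0 : 0 < δ) {L : ℝ} (hL : 10 ≤ L) :
    0 < bpr A L δ ∧ bpr A L δ ≤ A.R * δ / 4 ∧ A.R * δ * Real.exp (6 - L) ≤ A.R * δ / 4 := by
  have c := exp_le_eighth (s := δ + L) (by linarith)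
  have d := exp_le_eighth (s := L - 6) (by linarith)
  rw [neg_sub] at d
  rw [neg_add, ← sub_eq_add_neg] at c
  unfold bpr
  have := mul_pos hr h0
  exact ⟨by positivity, by nlinarith, by nlinarith⟩

end geo

theorem Pole.mono {f : ℂ → ℂ} {p : ℂ} {D D' : Set ℂ} (h : Pole f p D) (hD : D' ⊆ D) : Pole f p D' :=
  let ⟨g, a, b⟩ := h; ⟨g, a.mono hD, fun z hz => b z (hD hz)⟩

theorem Pole.wind {f w : ℂ → ℂ} {p : ℂ} {D : Set ℂ} (h : Pole f p D) (hD : D ∈ 𝓝 p) :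
    HasWind ⟨p, 0, Kind.pt, w⟩ f 1 := by
  obtain ⟨g, a, b⟩ := h
  have c := mem_of_mem_nhds hD
  refine (((HasWind.of_pt (e := ⟨p, 0, Kind.pt, w⟩) (by simp [End.ok]) rfl (a p c) (b p c).1).div
    (HasWind.self _)).congr ?_).cast (by simp [End.sgn])
  refine eventually_nhdsSet_iff_forall.2 fun z hz => ?_
  rw [CF.ADDP.circ_eq hz]
  filter_upwards [hD] with u hu using (b u hu).2

section alg

variable {π : Type} [Fintype π] {A B : Cv} {x : π → ℂ} {δ : ℝ} {T : ℤ}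

theorem R_pos (h : Half A B T) : 0 < A.R := lt_trans (by norm_num) h.rad.1

theorem hub_loop (h : Half A B T) : A.hub.k ≠ Kind.pt := by rw [h.out]; decide

theorem hub_lam (h : Half A B T) : ∀ᶠ z in 𝓝ˢ A.hub.circ,
    z ≠ A.c ∧ AnalyticAt ℂ (A.lam A.H) z ∧ A.lam A.H z ≠ 0 := by
  obtain ⟨k, a, -⟩ := h.lam A.H
  filter_upwards [a.analyticAt, isOpen_ne.mem_nhdsSet.2 fun z (hz : z ∈ A.hub.circ) =>
    ((End.mem_circ (R_pos h)).1 hz).1] with z b c using ⟨c, b c⟩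

theorem born_lam_ne {j : A.ι} (h : j ≠ A.H) : (born A π x δ).lam (Sum.inl j) = A.lam j :=
  funext fun _ => if_neg h

theorem born_lam_hub (z : ℂ) : (born A π x δ).lam (Sum.inl A.H) z = A.lam A.H z / bB A x δ z :=
  if_pos rfl

theorem born_priv {q : ℂ} {ρ : ℝ} {v : ℂ → ℂ} (y : Priv A B q ρ v) : Priv (born A π x δ) B q ρ v :=
  ⟨y.ins, y.far, y.an, y.zero, fun z hz => ⟨(y.mem z hz).1,
    fun c => (y.mem z hz).2.1 (CF.ADDP.loops_sum _ _ _ c), (y.mem z hz).2.2⟩, y.only, y.none⟩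

theorem priv_born {q : ℂ} {ρ : ℝ} {v : ℂ → ℂ} (y : Priv B A q ρ v) : Priv B (born A π x δ) q ρ v :=
  ⟨y.ins, y.far, y.an, y.zero, y.mem, y.only, y.none⟩

/-- the small discs about the new ports -/
structure Wins (A B : Cv) (x : π → ℂ) (δ : ℝ) : Prop where
  pos : 0 < δ ∧ δ ≤ 1 / 8
  priv : ∀ k, Priv A B (hp A (x k) δ 0) (A.R * δ / 4) A.hub.w
  good : ∀ k z, ‖z - hp A (x k) δ 0‖ ≤ A.R * δ / 4 →
    AnalyticAt ℂ (A.lam A.H) z ∧ A.lam A.H z ≠ 0 ∧ (∀ k', z ≠ hp A (x k') (-δ) 0) ∧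
    (∀ k', k' ≠ k → A.R * δ / 4 < ‖z - hp A (x k') δ 0‖) ∧
    ∀ j, (A.e j).k = Kind.pt → z ≠ (A.e j).c

theorem wins {T' : ℤ} (h : Half A B T) (h' : Half B A T') (hx : Pos A x) :
    ∀ᶠ δ in 𝓝[>] (0 : ℝ), Wins A B x δ := by
  obtain ⟨-, -, a, a0, a1⟩ := CF.st_arc _ _ _ _ h h'
  have hr := R_pos h
  have b1 : ∀ᶠ z in 𝓝ˢ A.hub.circ, z ∈ A.hub.ann (Ioo (-a) a) ∧
      ∀ j, (A.e j).k = Kind.pt → z ≠ (A.e j).c := by
    refine eventually_nhdsSet_iff_forall.2 fun z hz => ?_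
    have c2 : ∀ j, ∀ᶠ u in 𝓝 z, (A.e j).k = Kind.pt → u ≠ (A.e j).c := fun j => by
      by_cases e : (A.e j).k = Kind.pt
      · filter_upwards [isOpen_ne.mem_nhds (show z ≠ (A.e j).c from fun f =>
          (mem_ball_iff_norm.1 ((h.priv j e).ins (f ▸ mem_closedBall_self le_rfl))).ne
            (mem_sphere_iff_norm.1 hz))] with u f _ using f
      · exact Eventually.of_forall fun _ f => absurd f e
    filter_upwards [(End.isOpen_ann hr isOpen_Ioo).mem_nhds (show z ∈ A.hub.ann (Ioo (-a) a)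
      from ⟨((End.mem_circ hr).1 hz).1, by rw [((End.mem_circ hr).1 hz).2]; exact
        ⟨by linarith, a0⟩⟩), eventually_all.2 c2] with u d1 d4 using ⟨d1, d4⟩
  filter_upwards [win_nhds hr (b1.and (hub_lam h)), win_sep hr hx.1,
    Ioc_mem_nhdsGT (show (0 : ℝ) < 1 / 8 by norm_num)] with δ c1 c2 c3
  have c4 := fun k z hz => win_in (z := z) hr (hx.2 k).1 c3.1 c3.2 hz
  refine ⟨c3, fun k => a1 _ _ (fun z hz => ?_) fun z hz => ?_, fun k z hz => ?_⟩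
  · obtain ⟨d1, d2⟩ := c4 k z (mem_closedBall_iff_norm.1 hz)
    obtain ⟨d3, -, d4⟩ := (c1 _ z (hx.2 k).1 d2).1.1
    refine ⟨d3, ?_, d4⟩
    by_contra e
    rcases (not_lt.1 e).eq_or_lt with e | e
    · exact d1.ne (mem_sphere_iff_norm.1 ((End.mem_circ hr).2 ⟨d3, e⟩))
    · exact d1.not_gt ((CF.Winq.inside h.out hr d3).2 e)
  · exact win_far h (hx.2 k).2 c3.2 (c4 k z (mem_closedBall_iff_norm.1 hz)).2
  · obtain ⟨d1, d2⟩ := c4 k z hz
    obtain ⟨⟨-, d4⟩, -, d3⟩ := c1 _ z (hx.2 k).1 d2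
    refine ⟨d3.1, d3.2, fun k' e => ?_, fun k' e => ?_, d4⟩
    · exact d1.not_gt (e ▸ win_out hr (hx.2 k').1 (neg_lt_zero.2 c3.1) 0)
    · by_contra f
      exact (c2 k k' e.symm z d2).not_ge (c4 k' z (not_lt.1 f)).2

omit [Fintype π] in
theorem Wins.self (hW : Wins A B x δ) (hr : 0 < A.R) (k : π) :
    ‖hp A (x k) δ 0 - hp A (x k) δ 0‖ ≤ A.R * δ / 4 := by
  rw [sub_self, norm_zero]; have := hW.pos.1; positivity

theorem Wins.pole (hW : Wins A B x δ) (hr : 0 < A.R) (k : π) :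
    Pole ((born A π x δ).lam (Sum.inr k)) (hp A (x k) δ 0)
      (closedBall (hp A (x k) δ 0) (A.R * δ / 4)) := by
  classical
  have b : ∀ z ∈ closedBall (hp A (x k) δ 0) (A.R * δ / 4), ∀ k' ∈ Finset.univ.erase k,
      z - hp A (x k') δ 0 ≠ 0 := fun z hz k' e f => by
    have := (hW.good k z (mem_closedBall_iff_norm.1 hz)).2.2.2.1 k' (Finset.ne_of_mem_erase e)
    rw [f, norm_zero] at this
    have := hW.pos.1
    nlinarith
  refine ⟨fun z => Complex.exp (Real.pi / 4 * Complex.I) * A.lam A.H z *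
    (∏ k', (z - hp A (x k') (-δ) 0)) / ∏ k' ∈ Finset.univ.erase k, (z - hp A (x k') δ 0),
    fun z hz => ?_, fun z hz => ?_⟩ <;>
    obtain ⟨a1, a2, a3, -⟩ := hW.good k z (mem_closedBall_iff_norm.1 hz)
  · exact ((analyticAt_const.mul a1).mul (Finset.analyticAt_fun_prod _ fun _ _ =>
      analyticAt_id.sub analyticAt_const)).div (Finset.analyticAt_fun_prod _ fun _ _ =>
      analyticAt_id.sub analyticAt_const) (Finset.prod_ne_zero_iff.2 (b z hz))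
  · refine ⟨div_ne_zero (mul_ne_zero (mul_ne_zero (Complex.exp_ne_zero _) a2)
      (Finset.prod_ne_zero_iff.2 fun k' _ => sub_ne_zero.2 (a3 k')))
      (Finset.prod_ne_zero_iff.2 (b z hz)), fun _ => ?_⟩
    show Complex.exp (Real.pi / 4 * Complex.I) * A.lam A.H z / bB A x δ z = _
    rw [bB, Finset.prod_div_distrib, ← Finset.mul_prod_erase _ _ (Finset.mem_univ k), div_div_eq_mul_div,
      div_div, mul_comm (z - hp A (x k) δ 0)]

omit [Fintype π] in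
theorem Wins.circ (hW : Wins A B x δ) (hr : 0 < A.R) (hx : Pos A x) {z : ℂ}
    (hz : z ∈ A.hub.circ) (k : π) : z ≠ hp A (x k) (-δ) 0 ∧ z ≠ hp A (x k) δ 0 := by
  have a : ‖z - A.c‖ = A.R := mem_sphere_iff_norm.1 hz
  exact ⟨fun e => (win_out hr (hx.2 k).1 (neg_lt_zero.2 hW.pos.1) 0).ne' (e ▸ a),
    fun e => (win_in hr (hx.2 k).1 hW.pos.1 hW.pos.2 (hW.self hr k)).1.ne (e ▸ a)⟩

theorem Wins.alg {Nd : Finset E} {T' : ℤ} {D : ℕ} (hW : Wins A B x δ)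
    (hA : CF.Alg A B Nd T T' D) (hx : Pos A x) : CF.Alg (born A π x δ) B Nd T T' D := by
  have h := hA.hC
  have hr := R_pos h
  have h0 : 0 < A.R * δ / 4 := by have := hW.pos.1; positivity
  refine CF.all_addp _ _ _ _ _ _ π _ _ _ _ hA (fun k k' e => hx.1 (hp_inj hr e))
    (fun k => ⟨CF.PRIVO.mono (hW.priv k) h0.le, fun j a =>
      ((hW.good k _ (hW.self hr k)).2.2.2.2 j a).symm,
      Pole.wind (hW.pole hr k) (closedBall_mem_nhds _ h0)⟩) (fun j e => ?_) ?_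
  · obtain ⟨k, a, -⟩ := h.lam j
    exact ⟨k, a, a.congr' fun _ => if_neg e⟩
  · obtain ⟨k, a, -⟩ := h.lam A.H
    have s : A.hub.sgn = -1 := by simp [End.sgn, h.out]
    have b : ∀ k, HasWind A.hub (fun z => (z - hp A (x k) δ 0) / (z - hp A (x k) (-δ) 0)) 1 :=
      fun k => ((HasWind.lin_in (win_in hr (hx.2 k).1 hW.pos.1 hW.pos.2 (hW.self hr k)).1).div
        (HasWind.lin_out (win_out hr (hx.2 k).1 (neg_lt_zero.2 hW.pos.1) 0) hr.le)).cast
        (by simp [s])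
    exact ⟨k, a, ((HasWind.div a (HasWind.prod Finset.univ fun k _ => b k)).congr'
      fun z => if_pos rfl).cast (by simp)⟩

/-- the algebraic invariants after a birth -/
theorem born_alg {Nd : Finset E} {T' : ℤ} {D : ℕ} (hA : CF.Alg A B Nd T T' D) (hx : Pos A x) :
    ∀ᶠ δ in 𝓝[>] (0 : ℝ), Wins A B x δ ∧ CF.Alg (born A π x δ) B Nd T T' D :=
  (wins hA.hC hA.hK hx).mono fun _ h => ⟨h, h.alg hA hx⟩

end alg

end Pool.Agent.S6.HP
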