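import Pool.Agent.Lib.S6.Site4
import Pool.Agent.Lib.S6.Hp

/-!
Geometry of the zones at the site of the split.
-/

open Set Filter Topology Metric
open scoped ContDiff

noncomputable section

namespace Pool.Agent.S6

open Pool.Agent.CF (End Kind IsCurve Geo SLH Cv Priv IsPoly dw)
open Pool.Agent.Lib UPD

namespace GEOB

theorem ev_le {c t0 : ℝ} (hc : 0 < c) (h : 0 < t0) : ∀ᶠ t in 𝓝[>] (0 : ℝ), c * t ≤ t0 := by
  filter_upwards [Ioc_mem_nhdsGT (div_pos h hc)] with t a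
  rw [mul_comm]; exact (le_div_iff₀ hc).1 a.2

theorem rad_le {p : ℂ} {ρ : ℝ} (h0 : 0 ≤ ρ) (h : closedBall p ρ ⊆ ball 0 5) : ρ ≤ 10 := by
  have a : p + ρ ∈ closedBall p ρ := by simp [abs_of_nonneg h0]
  have b : p ∈ closedBall p ρ := mem_closedBall_self h0
  have c := norm_sub_le (p + ρ) p
  rw [add_sub_cancel_left, Complex.norm_real, Real.norm_of_nonneg h0] at c
  linarith [mem_ball_zero_iff.1 (h a), mem_ball_zero_iff.1 (h b)]

theorem ball5 {A B : Cv} {T : ℤ} (h : CF.Half A B T) : ball A.c A.R ⊆ ball 0 5 :=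
  ball_subset_ball' (by rw [dist_zero_right, h.norm_c.1]; linarith [h.rad.2])

theorem exp_two : Real.exp 2 ≤ 8 := by
  have := Real.exp_one_lt_d9
  have := Real.exp_pos 1
  rw [show (2 : ℝ) = 1 + 1 by norm_num, Real.exp_add]; nlinarith

section one

variable {I : Type} {F : I → ℂ → ℂ} {hz : ℝ} {A B : Cv} {W : Wd I A.ι} {k : A.ι}

theorem ev_an (h : EndW F hz A B W k) (ho : (A.e k).ok) (h0 : 0 < hz) :
    ∀ᶠ t in 𝓝[>] (0 : ℝ), ∀ z, z ≠ (wk A W k).c → (wk A W k).dep z ≤ 4 * t →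
      ((A.e k).k ≠ Kind.pt → -(4 * t) ≤ (wk A W k).dep z) →
      AnalyticAt ℂ (A.lam k) z ∧ A.lam k z ≠ 0 := by
  have n : RW.New (A.e k) (W.pr k) (W.pr k) (A.lam k) (A.lam k) := by
    refine ⟨fun a z b => ?_, fun a => ⟨(h.port a).1, le_rfl, fun _ => 1,
      Eventually.of_forall fun z => ⟨analyticAt_const, by simp, fun _ => (one_mul _).symm⟩⟩⟩
    have c := ct_zn h ho h0.le (show z ∈ ct (A.e k) (W.pr k) by rwa [ct_loop a])
    exact ⟨(h.loop a).1 z c, by rw [div_self ((h.loop a).2 z c)]; exact Complex.one_mem_slitPlane⟩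
  filter_upwards [RW.ev_dir h ho h0 n] with t a z b c d
  have e : z ≠ (A.e k).c := RW.wl_c (A.e k) (W.pr k) ▸ b
  have := a.1 z ((RW.mem_zn (fun x => (h.port x).1) False e).2
    ⟨c, fun x => ⟨False.elim, fun _ => d x⟩⟩) e
  exact ⟨this.1, this.2.2.1⟩

theorem ev_bd (h : EndW F hz A B W k) (ho : (A.e k).ok) (h0 : 0 < hz)
    (hF : ContDiff ℝ ∞ (F (W.cp k))) {β : ℝ} (hβ : 0 < β) : ∀ᶠ t in 𝓝[>] (0 : ℝ),
    (∀ y ∈ Icc (-(2 * t)) (2 * t), |W.Ef k y| ≤ β) ∧ ∀ z ∈ W.zn A (3 * t) k,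
      ‖(W.Ef k ((wk A W k).dep z) : ℂ) * A.lam k z‖ ≤ β := by
  have a : ∀ᶠ y in 𝓝 (0 : ℝ), |W.Ef k y| ≤ β :=
    h.pr.flat.1.continuous.abs.continuousAt.eventually
      (eventually_le_nhds (by
        show |W.Ef k 0| < β
        rwa [PCS.PR_zero h.pr, abs_zero]))
  obtain ⟨ε, e0, e1⟩ := Metric.eventually_nhds_iff.1 a
  have b : ∀ᶠ z in 𝓝ˢ (ct (A.e k) (W.pr k)), ‖F (W.cp k) z - (A.e k).w z‖ ≤ β :=
    eventually_nhdsSet_iff_forall.2 fun z c =>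
      (hF.continuous.continuousAt.sub (h.an z (ct_zn h ho h0.le c)).continuousAt).norm.eventually
        (eventually_le_nhds (by
          show ‖F (W.cp k) z - (A.e k).w z‖ < β
          rwa [exact_ct h ho h0.le c, sub_self, norm_zero]))
  obtain ⟨t0, p, q⟩ := zn_shrink ho (fun x => (h.port x).1.le) (k = A.H) b
  filter_upwards [ev_le (c := 3) (by norm_num) e0, ev_le (c := 3) (by norm_num) p,
    ev_le (c := 3) (by norm_num) h0, self_mem_nhdsWithin] with t c d e f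
  replace f : 0 < t := f
  refine ⟨fun y g => e1 ?_, fun z g => ?_⟩
  · rw [Real.dist_eq, sub_zero, abs_lt]; constructor <;> linarith [g.1, g.2]
  · have : ‖F (W.cp k) z - (A.e k).w z‖ ≤ β := q _ d g
    rwa [h.exact z (zn_le h e g), add_sub_cancel_left] at this

end one

/-- the small discs about the windows -/
structure Dl (C : Cv) {π : Type} (x : π → ℂ) (δ h r1 : ℝ) : Prop where
  pos : 0 < δ ∧ δ ≤ 1 / 16
  hub : 0 < C.R ∧ C.hub.k = Kind.out ∧ ∀ k, ‖x k‖ = 1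
  inn : ∀ k z, ‖z - (C.c + C.R * x k)‖ ≤ 5 * C.R * δ →
    z ∈ C.hub.near h r1 ∧ ∀ j, j ≠ C.H → z ∉ (C.e j).near h r1
  sep : ∀ k k', k ≠ k' → ∀ z : ℂ, ‖z - (C.c + C.R * x k)‖ ≤ 5 * C.R * δ →
    5 * C.R * δ < ‖z - (C.c + C.R * x k')‖

section dl

variable {C K : Cv} {Nd : Finset E} {TC TK : ℤ} {D : ℕ} {a : ℂ} {Z : Finset E} {q G : E → ℂ}
  {π π' : Type} {x : π → ℂ} {x' : π' → ℂ} {sp : Sp C.ι} {Sig : Finset ℂ} {δ h r1 : ℝ}

theorem geo [Fintype π] (H : Pre0 C K Nd TC TK D a Z q G x x' sp Sig) :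
    Geo C.P C.Γ C.e Sig sp.r1 sp.h := H.l ▸ H.geom.geo

theorem ev_dl [Fintype π] (H : Pre0 C K Nd TC TK D a Z q G x x' sp Sig) :
    ∀ᶠ δ in 𝓝[>] (0 : ℝ), Dl C x δ sp.h sp.r1 := by
  have hr := HP.R_pos H.alg.hC
  have ok := H.alg.hC.curve.ok
  have g := geo H
  have hx : ∀ k, ‖x k‖ = 1 := fun k => (H.pos.2 (Sum.inl k)).1
  have a1 : C.hub.near sp.h sp.r1 ∈ 𝓝ˢ C.hub.circ := mem_of_superset
    ((End.isOpen_nearO (ok C.H) _ _).mem_nhdsSet.2 (End.circ_subset_nearO (ok C.H) g.hpos g.r1pos))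
    (End.nearO_subset_near _ le_rfl le_rfl)
  have a2 : ∀ k j, ∀ᶠ δ in 𝓝[>] (0 : ℝ), ∀ z, ‖z - (C.c + C.R * x k)‖ ≤ 5 * C.R * δ → j ≠ C.H →
      z ∉ (C.e j).near sp.h sp.r1 := fun k j => by
    by_cases e : j = C.H
    · exact Eventually.of_forall fun _ _ _ b => absurd e b
    obtain ⟨ε, p, b⟩ := Metric.nhds_basis_closedBall.mem_iff.1
      ((End.isCompact_near (ok j) sp.h sp.r1).isClosed.isOpen_compl.mem_nhds
        fun b => (H.clear j _ b).2.2.2.2.2 e k rfl)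
    filter_upwards [ev_le (c := 5 * C.R) (by positivity) p] with δ c z d _
    exact b (mem_closedBall_iff_norm.2 (d.trans c))
  filter_upwards [HP.win_nhds hr a1, eventually_all.2 fun k => eventually_all.2 (a2 k),
    HP.win_sep (x := x) hr fun k k' e => Sum.inl_injective (H.pos.1 (a₁ := Sum.inl k)
      (a₂ := Sum.inl k') e), Ioc_mem_nhdsGT (show (0 : ℝ) < 1 / 16 by norm_num)] with δ b c d e
  exact ⟨e, ⟨hr, H.alg.hC.out, hx⟩, fun k z f => ⟨b _ z (hx k) f, fun j => c k j z f⟩, d⟩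

namespace Dl

theorem pt (d : Dl C x δ h r1) (k : π) {s u : ℝ} (hs : |s| ≤ 3 / 2 * δ) (hu : |u| ≤ δ) :
    ‖hp C (x k) s u - (C.c + C.R * x k)‖ ≤ 5 * C.R * δ :=
  HP.hp_near d.hub.1 (d.hub.2.2 k) (by linarith [d.pos.2]) hs hu

theorem p0 (d : Dl C x δ h r1) (k : π) : ‖hp C (x k) δ 0 - (C.c + C.R * x k)‖ ≤ 5 * C.R * δ :=
  d.pt k (by rw [abs_of_pos d.pos.1]; linarith [d.pos.1]) (by rw [abs_zero]; exact d.pos.1.le)

theorem p1 (d : Dl C x δ h r1) (k : π) : ‖hp C (x k) (-δ) 0 - (C.c + C.R * x k)‖ ≤ 5 * C.R * δ :=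
  d.pt k (by rw [abs_neg, abs_of_pos d.pos.1]; linarith [d.pos.1])
    (by rw [abs_zero]; exact d.pos.1.le)

theorem s2 (d : Dl C x δ h r1) : δ < Real.sqrt 2 * δ ∧ |Real.sqrt 2 * δ| ≤ 3 / 2 * δ := by
  have := HP.sqrt2
  have := d.pos.1
  rw [abs_of_pos (by positivity)]
  constructor <;> nlinarith

theorem u0 (d : Dl C x δ h r1) (k : π) :
    ‖hp C (x k) (Real.sqrt 2 * δ) (-δ) - (C.c + C.R * x k)‖ ≤ 5 * C.R * δ :=
  d.pt k d.s2.2 (by rw [abs_neg, abs_of_pos d.pos.1])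

theorem u1 (d : Dl C x δ h r1) (k : π) :
    ‖hp C (x k) (-(Real.sqrt 2 * δ)) (-δ) - (C.c + C.R * x k)‖ ≤ 5 * C.R * δ :=
  d.pt k (by rw [abs_neg]; exact d.s2.2) (by rw [abs_neg, abs_of_pos d.pos.1])

theorem win (d : Dl C x δ h r1) {k : π} {z : ℂ} (hz : ‖z - hp C (x k) δ 0‖ ≤ C.R * δ / 4) :
    ‖z - C.c‖ < C.R ∧ ‖z - (C.c + C.R * x k)‖ ≤ 5 * C.R * δ :=
  HP.win_in d.hub.1 (d.hub.2.2 k) d.pos.1 (by linarith [d.pos.2]) hz

theorem uniq (d : Dl C x δ h r1) {k k' : π} {z : ℂ} (a : ‖z - hp C (x k) δ 0‖ ≤ C.R * δ / 4)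
    (b : ‖z - hp C (x k') δ 0‖ ≤ C.R * δ / 4) : k = k' :=
  by_contra fun e => (d.sep k k' e z (d.win a).2).not_ge (d.win b).2

theorem ne_u (d : Dl C x δ h r1) {k : π} {z : ℂ} (hz : ‖z - hp C (x k) δ 0‖ ≤ C.R * δ / 4)
    (k' : π) : z ≠ hp C (x k') (Real.sqrt 2 * δ) (-δ) := by
  rintro rfl
  by_cases e : k = k'
  swap
  · exact (d.sep k k' e _ (d.win hz).2).not_ge (d.u0 k')
  subst e
  have a := norm_sub_norm_le (hp C (x k) δ 0 - C.c) (hp C (x k) (Real.sqrt 2 * δ) (-δ) - C.c)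
  rw [sub_sub_sub_cancel_right, HP.norm_hp d.hub.1 (d.hub.2.2 k),
    HP.norm_hp d.hub.1 (d.hub.2.2 k), norm_sub_rev] at a
  obtain ⟨p0, p1⟩ := d.pos
  have s : Real.sqrt 2 * Real.sqrt 2 = 2 := Real.mul_self_sqrt (by norm_num)
  have s1 : 7 / 5 < Real.sqrt 2 := Real.lt_sqrt_of_sq_lt (by norm_num)
  have b := (abs_le.1 (Real.abs_exp_sub_one_sub_id_le (x := -(Real.sqrt 2 * δ))
    (by rw [abs_neg]; linarith [d.s2.2]))).2
  have c := Real.add_one_le_exp (-δ)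
  have e : (-(Real.sqrt 2 * δ)) ^ 2 = 2 * δ ^ 2 := by linear_combination δ ^ 2 * s
  have f : δ / 4 < Real.exp (-δ) - Real.exp (-(Real.sqrt 2 * δ)) := by nlinarith
  nlinarith [mul_lt_mul_of_pos_left f d.hub.1]

theorem bpr_exp (d : Dl C x δ h r1) {L s : ℝ} (hL : 20 ≤ L) (hs : s ≤ 10) :
    0 < bpr C L δ ∧ bpr C L δ * Real.exp s ≤ C.R * δ / 4 := by
  refine ⟨(HP.bpr_le d.hub.1 d.pos.1 (by linarith)).1, le_trans (le_of_eq ?_)
    (HP.bpr_le d.hub.1 d.pos.1 (L := L - s) (by linarith)).2.1⟩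
  unfold bpr
  rw [mul_assoc _ _ (Real.exp s), ← Real.exp_add]
  exact congrArg (fun u => 2 * C.R * δ * Real.exp u) (by ring)

theorem ev_off [Fintype π] (d : Dl C x δ h r1) : ∀ᶠ t in 𝓝[>] (0 : ℝ),
    ∀ z ∈ C.hub.ann (Icc (-(3 * t)) (3 * t)), ∀ k, C.R * δ / 4 < ‖z - hp C (x k) δ 0‖ := by
  have hk : C.hub.k ≠ Kind.pt := by rw [d.hub.2.1]; decide
  have ho : C.hub.ok := by unfold End.ok; rw [if_neg hk]; exact d.hub.1
  have a : ∀ᶠ z in 𝓝ˢ C.hub.circ, ∀ k, C.R * δ / 4 < ‖z - hp C (x k) δ 0‖ :=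
    eventually_all.2 fun k => (isOpen_lt continuous_const (by fun_prop)).mem_nhdsSet.2 fun z b =>
      lt_of_not_ge fun c => (d.win c).1.ne (mem_sphere_iff_norm.1 b)
  obtain ⟨ε, p, b⟩ := End.shrink ho a
  filter_upwards [ev_le (c := 3) (by norm_num) p] with t c z e
  exact b _ ε c le_rfl (by rwa [End.near_loop hk])

end Dl

theorem isCompact_rg (ok : ∀ j, (C.e j).ok) (l : C.ι ⊕ π → End) (ρ : C.ι ⊕ π → ℝ) (s u : ℝ)
    (j : C.ι) : IsCompact (rg C l ρ h r1 s u j) := by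
  have c : IsClosed {z : ℂ | ∀ k, par C π k = j → (l k).k = Kind.pt →
      ρ k * Real.exp u ≤ ‖z - (l k).c‖} := by
    simp only [ofPred_forall]
    exact isClosed_iInter fun k => isClosed_iInter fun _ => isClosed_iInter fun _ =>
      isClosed_le continuous_const (by fun_prop)
  by_cases hk : (C.e j).k = Kind.pt
  · have e : rg C l ρ h r1 s u j = (C.e j).near h r1 ∩ _ := Set.ext fun z =>
      ⟨fun a => ⟨a.1, a.2.2⟩, fun a => ⟨a.1, fun b => absurd hk b, a.2⟩⟩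
    exact e ▸ (End.isCompact_near (ok j) _ _).inter_right c
  · have e : rg C l ρ h r1 s u j = (C.e j).ann (Icc (-h) h ∩ Ici s) ∩ _ := Set.ext fun z => by
      unfold rg
      rw [End.near_loop hk]
      exact ⟨fun a => ⟨⟨a.1.1, a.1.2, a.2.1 hk⟩, a.2.2⟩,
        fun a => ⟨⟨a.1.1, a.1.2.1⟩, fun _ => a.1.2.2, a.2⟩⟩
    exact e ▸ (End.isCompact_ann ((ok j).pos hk)
      (isCompact_Icc.inter_right isClosed_Ici)).inter_right c

theorem isCompact_zS [Finite π] {l : C.ι ⊕ π → End} {ρ : C.ι ⊕ π → ℝ}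
    (hr : ∀ k, 0 < (wl (l k) (ρ k)).r) (t : ℝ) (j : C.ι) : IsCompact (zS C l ρ t j) := by
  have e : zS C l ρ t j = ⋃ k ∈ {k | par C π k = j},
      (wl (l k) (ρ k)).ann (Icc (lo0 (l k) t) (3 * t)) := by
    ext z; simp [zS]
  exact e ▸ (toFinite _).isCompact_biUnion fun k _ => End.isCompact_ann (hr k) isCompact_Icc

theorem mem_pt {l : End} (hk : l.k = Kind.pt) {ρ t : ℝ} (hρ : 0 < ρ) {z : ℂ} :
    z ∈ (wl l ρ).ann (Icc (lo0 l t) (3 * t)) ↔
      ρ * Real.exp (-1 / 2) ≤ ‖z - l.c‖ ∧ ‖z - l.c‖ ≤ ρ * Real.exp (3 * t) := by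
  rw [wl_pt hk, lo0, if_pos hk]
  have k : z ≠ l.c → ((l.hole ρ).dep z ∈ Icc (-1 / 2) (3 * t) ↔
      ρ * Real.exp (-1 / 2) ≤ ‖z - l.c‖ ∧ ‖z - l.c‖ ≤ ρ * Real.exp (3 * t)) := fun a => by
    have p := norm_pos_iff.2 (sub_ne_zero.2 a)
    rw [mem_Icc, hole_dep, RW.log_le hρ p, Real.le_log_iff_exp_le (div_pos p hρ),
      le_div_iff₀ hρ, mul_comm]
  refine ⟨fun a => (k a.1).1 a.2, fun a => ?_⟩
  have b : z ≠ l.c := sub_ne_zero.1 (norm_pos_iff.1 (lt_of_lt_of_le (by positivity) a.1))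
  exact ⟨b, (k b).2 a⟩

theorem mem_loop {l : End} (hk : l.k ≠ Kind.pt) (ρ t : ℝ) :
    (wl l ρ).ann (Icc (lo0 l t) (3 * t)) = l.ann (Icc (-(3 * t)) (3 * t)) := by
  rw [wl_loop hk, lo0, if_neg hk]

/-- the zones on the scale `t` -/
structure Zs (C : Cv) {π : Type} (x : π → ℂ) (δ h r1 t : ℝ) (ρ : C.ι ⊕ π → ℝ) : Prop where
  dl : Dl C x δ h r1
  num : 0 < t ∧ 4 * t ≤ h ∧ 4 * t ≤ δ
  old : ∀ j, (C.e j).k = Kind.pt → 0 < ρ (Sum.inl j) ∧ ρ (Sum.inl j) * Real.exp (3 * t) ≤ r1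
  new : ∀ k, 0 < ρ (Sum.inr k) ∧ ρ (Sum.inr k) * Real.exp (3 * t) ≤ C.R * δ / 4
  off : ∀ z ∈ C.hub.ann (Icc (-(3 * t)) (3 * t)), ∀ k, C.R * δ / 4 < ‖z - hp C (x k) δ 0‖

/-- the ends with the new ports -/
def nE (C : Cv) {π : Type} (x : π → ℂ) (δ : ℝ) : C.ι ⊕ π → End :=
  Sum.elim C.e fun k => ⟨hp C (x k) δ 0, 0, Kind.pt, C.hub.w⟩

namespace Zs

variable {t : ℝ} {ρ : C.ι ⊕ π → ℝ}

theorem hk (s : Zs C x δ h r1 t ρ) : (C.e C.H).k ≠ Kind.pt := by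
  rw [show (C.e C.H).k = _ from s.dl.hub.2.1]; decide

theorem small (s : Zs C x δ h r1 t ρ) (k : π) :
    ρ (Sum.inr k) * Real.exp (-1 / 2) ≤ C.R * δ / 4 :=
  (mul_le_mul_of_nonneg_left (Real.exp_le_exp.2 (by linarith [s.num.1])) (s.new k).1.le).trans
    (s.new k).2

theorem ball (s : Zs C x δ h r1 t ρ) {k : π} {one : Prop} {z : ℂ}
    (hz : z ∈ zn (nE C x δ (Sum.inr k)) (ρ (Sum.inr k)) one (3 * t)) :
    ‖z - hp C (x k) δ 0‖ ≤ C.R * δ / 4 := by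
  rw [zn_pt rfl] at hz
  exact (mem_closedBall_iff_norm.1 hz).trans (s.new k).2

theorem near (s : Zs C x δ h r1 t ρ) (k : C.ι ⊕ π) (one : Prop) :
    zn (nE C x δ k) (ρ k) one (3 * t) ⊆ (C.e (par C π k)).near h r1 := by
  rcases k with j | k
  · show zn (C.e j) _ _ _ ⊆ (C.e j).near h r1
    by_cases hk : (C.e j).k = Kind.pt
    · rw [zn_pt hk, End.near_pt hk]; exact closedBall_subset_closedBall (s.old j hk).2
    · rw [End.near_loop hk]
      exact (zn_loop hk _ _ (by linarith [s.num.1])).trans (End.ann_mono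
        (Icc_subset_Icc (by linarith [s.num.1, s.num.2.1]) (by linarith [s.num.1, s.num.2.1])))
  · exact fun z a => (s.dl.inn k z (s.dl.win (s.ball a)).2).1

theorem disj (s : Zs C x δ h r1 t ρ) (k k' : C.ι ⊕ π) (one one' : Prop) (n : k ≠ k')
    (e : par C π k = par C π k') :
    Disjoint (zn (nE C x δ k) (ρ k) one (3 * t)) (zn (nE C x δ k') (ρ k') one' (3 * t)) := by
  have key : ∀ (i : π) (o o' : Prop) z, z ∈ zn (C.e C.H) (ρ (Sum.inl C.H)) o (3 * t) →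
      z ∉ zn (nE C x δ (Sum.inr i)) (ρ (Sum.inr i)) o' (3 * t) := fun i o o' z a b =>
    (s.off z (zn_loop s.hk _ _ (by linarith [s.num.1]) a) i).not_ge (s.ball b)
  refine disjoint_left.2 fun z a b => ?_
  rcases k with j | k <;> rcases k' with j' | k'
  · exact n (congrArg _ e)
  · obtain rfl : j = C.H := e
    exact key _ _ _ z a b
  · obtain rfl : C.H = j' := e
    exact key _ _ _ z b a
  · exact n (congrArg _ (s.dl.uniq (s.ball a) (s.ball b)))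

theorem pos (s : Zs C x δ h r1 t ρ) (k : C.ι ⊕ π) (hk : (nE C x δ k).k = Kind.pt) : 0 < ρ k := by
  rcases k with j | k
  · exact (s.old j hk).1
  · exact (s.new k).1

theorem strip_zn (s : Zs C x δ h r1 t ρ) (k : C.ι ⊕ π) :
    (wl (nE C x δ k) (ρ k)).ann (Icc (lo0 (nE C x δ k) t) (3 * t)) ⊆
      zn (nE C x δ k) (ρ k) False (3 * t) := by
  intro z a
  by_cases hk : (nE C x δ k).k = Kind.pt
  · rw [zn_pt hk]; exact mem_closedBall_iff_norm.2 ((mem_pt hk (s.pos k hk)).1 a).2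
  · rwa [zn_two hk _ not_false, ← mem_loop hk (ρ k)]

theorem strip (s : Zs C x δ h r1 t ρ) (k : C.ι ⊕ π) :
    (wl (nE C x δ k) (ρ k)).ann (Icc (lo0 (nE C x δ k) t) (3 * t)) ⊆
      rg C (nE C x δ) ρ h r1 (-(3 * t)) (-1 / 2) (par C π k) := by
  intro z a
  have b := s.strip_zn k a
  refine ⟨s.near k _ b, fun c => ?_, fun k' c d => ?_⟩
  · rcases k with j | k
    · exact (mem_loop (l := C.e j) c (ρ (Sum.inl j)) t ▸ a).2.1
    · have n := s.near _ _ b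
      rw [End.near_loop c] at n
      refine le_trans (by linarith [s.num.1]) ((End.side_iff c s.dl.hub.1 n.1).1 ?_)
      exact ⟨fun _ => (s.dl.win (s.ball b)).1.le, fun e => by
        rw [show (C.e (par C π (Sum.inr k))).k = _ from s.dl.hub.2.1] at e; cases e⟩
  · by_cases e : k' = k
    · subst e; exact ((mem_pt d (s.pos _ d)).1 a).1
    · refine le_of_not_gt fun f => disjoint_left.1 (s.disj k' k False False e c) ?_ b
      rw [zn_pt d]
      exact mem_closedBall_iff_norm.2 (f.le.trans (mul_le_mul_of_nonneg_left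
        (Real.exp_le_exp.2 (by linarith [s.num.1])) (s.pos _ d).le))

theorem back (s : Zs C x δ h r1 t ρ) (k : C.ι ⊕ π) (one : Prop) :
    zn (nE C x δ k) (ρ k) one (3 * t) ∩ rg C (nE C x δ) ρ h r1 (-(3 * t)) (-1 / 2) (par C π k) ⊆
      (wl (nE C x δ k) (ρ k)).ann (Icc (lo0 (nE C x δ k) t) (3 * t)) := by
  rintro z ⟨a, b⟩
  by_cases hk : (nE C x δ k).k = Kind.pt
  · rw [zn_pt hk] at a
    exact (mem_pt hk (s.pos k hk)).2 ⟨b.2.2 k rfl hk, mem_closedBall_iff_norm.1 a⟩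
  · rw [mem_loop hk]; exact zn_loop hk _ _ (by linarith [s.num.1]) a

theorem pg_ne (s : Zs C x δ h r1 t ρ) (cl : ClearB C K a q G x h r1) {j : C.ι} {z : ℂ}
    (hz : z ∈ rg C (nE C x δ) ρ h r1 (-(3 * t)) (-1 / 2) j) :
    (∀ i, (C.e i).k = Kind.pt → z ≠ (C.e i).c) ∧ ∀ k, z ≠ hp C (x k) δ 0 := by
  have key : ∀ k, par C π k = j → (nE C x δ k).k = Kind.pt → z ≠ (nE C x δ k).c := fun k b c =>
    sub_ne_zero.1 (norm_pos_iff.1 (lt_of_lt_of_le (mul_pos (s.pos k c) (Real.exp_pos _))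
      (hz.2.2 k b c)))
  refine ⟨fun i b => ?_, fun k => ?_⟩
  · by_cases e : i = j
    · exact key (Sum.inl i) e b
    · exact (cl j z hz.1).2.2.2.2.1 i e b
  · by_cases e : j = C.H
    · exact key (Sum.inr k) e.symm rfl
    · rintro rfl; exact (s.dl.inn k _ (s.dl.p0 k)).2 j e hz.1

theorem pq_ne (s : Zs C x δ h r1 t ρ) {j : C.ι} {z : ℂ} (hz : z ∈ zS C (nE C x δ) ρ t j)
    (k : π) : z ≠ hp C (x k) (Real.sqrt 2 * δ) (-δ) ∧ z ≠ hp C (x k) (-(Real.sqrt 2 * δ)) (-δ) ∧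
      z ≠ hp C (x k) (-δ) 0 := by
  obtain ⟨k0, rfl, a⟩ := hz
  have b := s.strip_zn k0 a
  have d := s.dl
  have n := s.num
  have m := d.s2.1
  rcases k0 with j | i
  · by_cases e : j = C.H
    · subst e
      replace b : z ∈ C.hub.ann (Icc (-(3 * t)) (3 * t)) := zn_loop s.hk _ _ (by linarith) b
      have f := fun u v => HP.dep_hp d.hub.2.1 d.hub.1 (d.hub.2.2 k) u v
      refine ⟨?_, ?_, ?_⟩ <;> rintro rfl <;> have g := b.2 <;> rw [f] at g <;>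
        linarith [g.1, g.2]
    · have f := fun y c => (d.inn k y c).2 j e
      refine ⟨?_, ?_, ?_⟩ <;> rintro rfl
      exacts [f _ (d.u0 k) (s.near _ _ b), f _ (d.u1 k) (s.near _ _ b),
        f _ (d.p1 k) (s.near _ _ b)]
  · have c := (d.win (s.ball b)).1
    have f := fun u v g => HP.win_out (s := u) d.hub.1 (d.hub.2.2 k) g v
    refine ⟨d.ne_u (s.ball b) k, ?_, ?_⟩ <;> rintro rfl <;>
      exact c.not_gt (f _ _ (by linarith [d.pos.1]))

end Zs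

theorem lin (c : ℂ) : CF.IsPoly fun y : E => y.1 - c := CF.IsPoly.fst.sub (CF.IsPoly.const c)

theorem shyp [Fintype π] (H : Pre0 C K Nd TC TK D a Z q G x x' sp Sig) {t : ℝ} {ρ : C.ι ⊕ π → ℝ}
    (s : Zs C x δ sp.h sp.r1 t ρ) (hr : ∀ k, 0 < (wl (nE C x δ k) (ρ k)).r) (j : C.ι) :
    SHyp C.P K.P G q (gS C G x δ) (qS C a q x δ) (C.e j).w ((C.e j).near sp.h sp.r1)
      (rg C (nE C x δ) ρ sp.h sp.r1 (-(3 * t)) (-1 / 2) j) (zS C (nE C x δ) ρ t j) := by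
  have g := geo H
  have ok := H.alg.hC.curve.ok
  have h1 := g.hpos
  have h2 := g.r1pos
  have sub : (C.e j).near sp.h sp.r1 ⊆ (C.e j).near (2 * sp.h) (2 * sp.r1) :=
    End.near_mono _ (by linarith) (by linarith)
  have zr : zS C (nE C x δ) ρ t j ⊆ rg C (nE C x δ) ρ sp.h sp.r1 (-(3 * t)) (-1 / 2) j := by
    rintro z ⟨k, rfl, b⟩; exact s.strip k b
  refine ⟨⟨H.alg.hC.curve.poly, H.alg.hK.curve.poly, H.sec.poly.2, H.sec.poly.1,
    (H.sec.poly.2.mul (CF.IsPoly.prod _ fun _ _ => lin _)).mul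
      (CF.IsPoly.prod _ fun _ _ => lin _),
    ((CF.IsPoly.const _).mul ((lin a).mul H.sec.poly.1)).mul
      (CF.IsPoly.prod _ fun _ _ => ((lin _).mul (lin _)).mul (lin _))⟩,
    ⟨End.isCompact_near (ok j) _ _, isCompact_rg ok _ _ _ _ j, isCompact_zS hr t j, zr,
      fun z b => b.1⟩, ⟨(g.wan j).mono sub, ?_⟩,
    fun z b => ⟨(g.wz j z (sub b)).2, (H.clear j z b).1, (H.clear j z b).2.1,
      (H.clear j z b).2.2.1⟩,
    fun z => (∏ i ∈ Finset.univ.filter fun i => (C.e i).k = Kind.pt, (z - (C.e i).c)) *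
      ∏ k, (z - hp C (x k) δ 0),
    fun z => (∏ k, -((starRingEnd ℂ) (x k * Complex.exp (-(Real.sqrt 2 * δ) - δ * Complex.I)) /
      C.R)) * (z - a) * ∏ k, ((z - hp C (x k) (Real.sqrt 2 * δ) (-δ)) *
        (z - hp C (x k) (-(Real.sqrt 2 * δ)) (-δ)) * (z - hp C (x k) (-δ) 0)),
    fun y => mul_assoc _ _ _, fun y => by unfold qS CF.qWin; ring, fun z b => ?_, fun z b => ?_⟩
  · filter_upwards [(End.isOpen_nearO (ok j) (2 * sp.h) (2 * sp.r1)).mem_nhdsSet.2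
      (End.near_subset_nearO _ (by linarith) (by linarith))] with z b
    exact (g.wz j z (End.nearO_subset_near _ le_rfl le_rfl b)).1
  · obtain ⟨c, d⟩ := s.pg_ne H.clear b
    exact mul_ne_zero (Finset.prod_ne_zero_iff.2 fun i e =>
      sub_ne_zero.2 (c i (Finset.mem_filter.1 e).2))
      (Finset.prod_ne_zero_iff.2 fun k _ => sub_ne_zero.2 (d k))
  · refine mul_ne_zero (mul_ne_zero (Finset.prod_ne_zero_iff.2 fun k _ => neg_ne_zero.2
      (div_ne_zero ((map_ne_zero _).2 (mul_ne_zero (norm_pos_iff.1 ?_) (Complex.exp_ne_zero _)))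
        (Complex.ofReal_ne_zero.2 s.dl.hub.1.ne'))) (sub_ne_zero.2 (H.clear j z (zr b).1).2.2.2.1))
      (Finset.prod_ne_zero_iff.2 fun k _ => ?_)
    · rw [s.dl.hub.2.2 k]; exact one_pos
    · obtain ⟨c, d, e⟩ := s.pq_ne b k
      exact mul_ne_zero (mul_ne_zero (sub_ne_zero.2 c) (sub_ne_zero.2 d)) (sub_ne_zero.2 e)

end dl

/-- analytic and nonzero -/
def AN (f : ℂ → ℂ) (z : ℂ) : Prop := AnalyticAt ℂ f z ∧ f z ≠ 0

theorem AN.mul {f g : ℂ → ℂ} {z : ℂ} (a : AN f z) (b : AN g z) : AN (fun v => f v * g v) z :=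
  ⟨a.1.mul b.1, mul_ne_zero a.2 b.2⟩

theorem AN.div {f g : ℂ → ℂ} {z : ℂ} (a : AN f z) (b : AN g z) : AN (fun v => f v / g v) z :=
  ⟨a.1.div b.1 b.2, div_ne_zero a.2 b.2⟩

theorem AN.lin {z c : ℂ} (a : z ≠ c) : AN (fun v => v - c) z :=
  ⟨analyticAt_id.sub analyticAt_const, sub_ne_zero.2 a⟩

theorem AN.prod {ι : Type} (s : Finset ι) {f : ι → ℂ → ℂ} {z : ℂ} (a : ∀ i ∈ s, AN (f i) z) :
    AN (fun v => ∏ i ∈ s, f i v) z :=
  ⟨Finset.analyticAt_fun_prod _ fun i b => (a i b).1, Finset.prod_ne_zero_iff.2 fun i b => (a i b).2⟩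

theorem AN.res {P : E → ℂ} {w : ℂ → ℂ} {z : ℂ} (a : CF.IsPoly P) (b : AnalyticAt ℂ w z)
    (c : P (z, w z) ≠ 0) : AN (fun v => P (v, w v)) z :=
  ⟨(a.analyticAt _).comp (analyticAt_id.prod b), c⟩

open Classical in
theorem poles2 {C K : Cv} {Nd : Finset E} {TC TK : ℤ} {D : ℕ} {a : ℂ} {Z : Finset E} {q G : E → ℂ}
    {π π' : Type} [Fintype π] {x : π → ℂ} {x' : π' → ℂ} {sp : Sp C.ι} {Sig : Finset ℂ} {δ t : ℝ}
    (H : Pre0 C K Nd TC TK D a Z q G x x' sp Sig) (d : Dl C x δ sp.h sp.r1) (ht : t < δ)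
    (th : t ≤ sp.h) :
    (∀ j, (C.e j).k = Kind.pt → ∃ m : ℂ → ℂ, ∀ z ∈ closedBall (C.e j).c sp.r1,
      AnalyticAt ℂ m z ∧ m z ≠ 0 ∧ ∀ᶠ v in 𝓝 z,
        (C.sec K (gS C G x δ) (qS C a q x δ) (C.e j) v)⁻¹ = (v - (C.e j).c) * m v) ∧
    (∀ j, (C.e j).k ≠ Kind.pt → j ≠ C.H → ∃ m : ℂ → ℂ, ∀ z ∈ (C.e j).ann (Icc (-t) sp.h),
      AnalyticAt ℂ m z ∧ m z ≠ 0 ∧ ∀ᶠ v in 𝓝 z,
        (C.sec K (gS C G x δ) (qS C a q x δ) (C.e j) v)⁻¹ = m v) ∧
    ∃ m : ℂ → ℂ, ∀ z ∈ C.hub.ann (Icc (-t) sp.h), AnalyticAt ℂ m z ∧ m z ≠ 0 ∧ ∀ᶠ v in 𝓝 z,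
      (C.sec K (gS C G x δ) (qS C a q x δ) C.hub v)⁻¹ =
        m v * ∏ k, (v - hq C.hub (x k) δ 0) / (v - hq C.hub (x k) (Real.sqrt 2 * δ) (-δ)) := by
  have g := geo H
  have hk : (C.e C.H).k ≠ Kind.pt := HP.hub_loop H.alg.hC
  set a0 : ℂ := ∏ k, -((starRingEnd ℂ) (x k * Complex.exp (-(Real.sqrt 2 * δ) - δ * Complex.I)) /
    C.R) with ha
  have n0 : a0 ≠ 0 := Finset.prod_ne_zero_iff.2 fun k _ => neg_ne_zero.2
    (div_ne_zero ((map_ne_zero _).2 (mul_ne_zero (norm_pos_iff.1 (by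
      rw [d.hub.2.2 k]; exact one_pos)) (Complex.exp_ne_zero _)))
      (Complex.ofReal_ne_zero.2 d.hub.1.ne'))
  set m0 : C.ι → ℂ → ℂ := fun j v => G (v, (C.e j).w v) * K.P (v, (C.e j).w v) *
    dw C.P (v, (C.e j).w v) * (∏ i ∈ (Finset.univ.filter fun i => (C.e i).k = Kind.pt).erase j,
      (v - (C.e i).c)) / (a0 * ((v - a) * q (v, (C.e j).w v))) with hm
  have A : ∀ j, ∀ z ∈ (C.e j).near sp.h sp.r1, AN (m0 j) z := fun j z b => by
    have c := End.near_mono _ (show sp.h ≤ 2 * sp.h by linarith [g.hpos])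
      (show sp.r1 ≤ 2 * sp.r1 by linarith [g.r1pos]) b
    have w := g.wan j z c
    obtain ⟨c1, c2, c3, c4, c5, -⟩ := H.clear j z b
    exact ((((AN.res H.sec.poly.2 w c2).mul (AN.res H.alg.hK.curve.poly w c1)).mul
      (AN.res H.alg.hC.curve.poly.dw w (g.wz j z c).2)).mul (AN.prod _ fun i e => AN.lin
        (c5 i (Finset.ne_of_mem_erase e) (Finset.mem_filter.1 (Finset.mem_of_mem_erase e)).2))).div
      (AN.mul ⟨analyticAt_const, n0⟩ ((AN.lin c4).mul (AN.res H.sec.poly.1 w c3)))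
  set m1 : ℂ → ℂ := fun v => ∏ k, (v - hp C (x k) δ 0) / (v - hp C (x k) (Real.sqrt 2 * δ) (-δ))
    with h1
  set m2 : ℂ → ℂ := fun v => ∏ k, ((v - hp C (x k) (-(Real.sqrt 2 * δ)) (-δ)) *
    (v - hp C (x k) (-δ) 0)) with h2
  have E0 : ∀ j v, (C.sec K (gS C G x δ) (qS C a q x δ) (C.e j) v)⁻¹ =
      (if (C.e j).k = Kind.pt then v - (C.e j).c else 1) * (m0 j v / m2 v * m1 v) := fun j v => by
    have e : (∏ i ∈ Finset.univ.filter fun i => (C.e i).k = Kind.pt, (v - (C.e i).c)) =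
        (if (C.e j).k = Kind.pt then v - (C.e j).c else 1) *
          ∏ i ∈ (Finset.univ.filter fun i => (C.e i).k = Kind.pt).erase j, (v - (C.e i).c) := by
      split_ifs with b
      · exact (Finset.mul_prod_erase _ _ (Finset.mem_filter.2 ⟨Finset.mem_univ j, b⟩)).symm
      · rw [one_mul, Finset.erase_eq_of_notMem (a := j) (by simpa using b)]
    simp only [Cv.sec, End.res, gS, qS, CF.gWin, CF.qWin, inv_div, hm, h1, h2, ← ha, e,
      Finset.prod_mul_distrib, Finset.prod_div_distrib]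
    simp only [div_eq_mul_inv, mul_inv]
    ring
  have B : ∀ j, j ≠ C.H → ∀ z ∈ (C.e j).near sp.h sp.r1, AN (fun v => m0 j v / m2 v * m1 v) z :=
    fun j e z b => by
      have f : ∀ k y, ‖y - (C.c + C.R * x k)‖ ≤ 5 * C.R * δ → AN (fun v => v - y) z :=
        fun k y c => AN.lin fun n => (d.inn k y c).2 j e (n ▸ b)
      exact ((A j z b).div (AN.prod _ fun k _ => (f k _ (d.u1 k)).mul (f k _ (d.p1 k)))).mul
        (AN.prod _ fun k _ => (f k _ (d.p0 k)).div (f k _ (d.u0 k)))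
  have S : ∀ j, (C.e j).k ≠ Kind.pt → (C.e j).ann (Icc (-t) sp.h) ⊆ (C.e j).near sp.h sp.r1 :=
    fun j b => by rw [End.near_loop b]; exact End.ann_mono (Icc_subset_Icc (by linarith) le_rfl)
  refine ⟨fun j b => ⟨fun v => m0 j v / m2 v * m1 v, fun z c => ?_⟩,
    fun j b e => ⟨fun v => m0 j v / m2 v * m1 v, fun z c => ?_⟩,
    fun v => m0 C.H v / m2 v, fun z c => ?_⟩
  · have := B j (fun e => hk (e ▸ b)) z (by rwa [End.near_pt b])
    exact ⟨this.1, this.2, Eventually.of_forall fun v => by rw [E0, if_pos b]⟩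
  · have := B j e z (S j b c)
    exact ⟨this.1, this.2, Eventually.of_forall fun v => by rw [E0, if_neg b, one_mul]⟩
  · have f : ∀ k u v, u < -t → AN (fun y => y - hp C (x k) u v) z := fun k u v e => AN.lin fun n =>
      e.not_ge (HP.dep_hp d.hub.2.1 d.hub.1 (d.hub.2.2 k) u v ▸ n ▸ c.2.1)
    have := (A C.H z (S _ hk c)).div (AN.prod Finset.univ fun k _ =>
      (f k (-(Real.sqrt 2 * δ)) (-δ) (by linarith [d.s2.1])).mul (f k (-δ) 0 (by linarith)))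
    exact ⟨this.1, this.2, Eventually.of_forall fun v =>
      (E0 C.H v).trans (by rw [if_neg hk, one_mul]; rfl)⟩

end GEOB

open GEOB in
theorem st_geob : St_GEOB := by
  intro C K Nd TC TK D a Z q G π π' _ x x' sp Sig L H hL
  filter_upwards [ev_dl H] with δ d I fx F W hz P β hβ
  have g := geo H
  have hC := H.alg.hC
  have ok : ∀ k, ((winS C K π a q G x δ).e k).ok := by
    rintro (j | k)
    · exact hC.curve.ok j
    · exact (if_pos rfl).mpr rfl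
  have ew := endW P.sw
  have r2 : ∀ j, (C.e j).k = Kind.pt → W.pr (Sum.inl j) * Real.exp 2 ≤ sp.r1 := fun j b => by
    have := mul_le_mul_of_nonneg_left exp_two (P.sw.port (Sum.inl j) b).1.le
    linarith [P.r2 j b, H.geom.r2.2]
  have rd : ∀ k, 0 < (wk (winS C K π a q G x δ) W k).r ∧
      (wk (winS C K π a q G x δ) W k).r ≤ 10 := fun k => by
    have p := RW.wl_r (ok k) fun b => (P.sw.port k b).1
    refine ⟨p, ?_⟩
    unfold wk
    by_cases b : ((winS C K π a q G x δ).e k).k = Kind.pt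
    · rw [wl_pt b]
      exact rad_le (P.sw.port k b).1.le ((P.sw.port k b).2.1.ins.trans (ball5 (A := C) hC))
    · rw [wl_loop b] at p ⊢
      rcases k with j | k
      · by_cases e : j = C.H
        · subst e; exact hC.rad.2.le.trans (by norm_num)
        · exact rad_le p.le ((hC.ins j e).trans (union_subset (ball5 hC) (ball5 H.alg.hK)))
      · exact absurd rfl b
  have op : ∀ k, ∀ᶠ t in 𝓝[>] (0 : ℝ), RESET.OP (W.Ef k) (tw (winS C K π a q G x δ) k) t :=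
    fun k => by
      obtain ⟨t0, p, b⟩ := RESET.exists_OP (P.sw.pr k)
      filter_upwards [Ioc_mem_nhdsGT p] with t c using b t c.1 c.2
  filter_upwards [eventually_all.2 op, eventually_all.2 fun k => ev_an (ew k) (ok k) P.hz0,
    eventually_all.2 fun k => ev_bd (ew k) (ok k) P.hz0 (P.sm _) hβ, d.ev_off,
    ev_le (c := 4) (by norm_num) g.hpos, ev_le (c := 4) (by norm_num) d.pos.1,
    Ioc_mem_nhdsGT (show (0 : ℝ) < 1 / 32 by norm_num)] with t b1 b2 b3 b4 b5 b6 b7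
  have t0 := b7.1
  have s : Zs C x δ sp.h sp.r1 t W.pr := by
    refine ⟨d, ⟨t0, b5, b6⟩, fun j b => ⟨(P.sw.port (Sum.inl j) b).1, le_trans
      (mul_le_mul_of_nonneg_left (Real.exp_le_exp.2 (by linarith [b7.2]))
        (P.sw.port (Sum.inl j) b).1.le) (r2 j b)⟩, fun k => ?_, b4⟩
    rw [P.bp k]; exact d.bpr_exp hL (by linarith [b7.2])
  obtain ⟨c1, c2, c3⟩ := poles2 (t := t) H d (by linarith) (by linarith)
  refine ⟨⟨t0, b7.2, b5, b6⟩, shyp H s fun k => (rd k).1, fun k => s.near k _,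
    fun k k' => s.disj k k' _ _, fun k => ⟨subset_trans (End.ann_mono (Icc_subset_Icc ?_ le_rfl))
      (s.strip k), s.back k _⟩, b1, b2, b3, ⟨rd, r2⟩, c1, c2, c3⟩
  unfold lo0; split_ifs <;> linarith

end Pool.Agent.S6
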