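import Pool.Agent.Lib.S6.IThin
import Pool.Agent.Lib.S6.B_FITNEW
import Pool.Agent.Lib.CF.AlgInit

/-! The initial state. -/

open Set Filter Topology Metric

noncomputable section

namespace Pool.Agent.S6

open Pool.Agent.CF (End Kind IsCurve Half Priv Cv)
open Pool.Agent.Lib

namespace INIT

theorem swap {C K : Cv} {Nd : Finset E} {T : ℤ} {D : ℕ} (h : CF.Alg C K Nd T T D)
    (hp : ∃ y ∈ K.Γ, ‖y.1‖ < 1 / 5) : CF.Alg K C Nd T T D := by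
  refine ⟨h.hK, h.hC, ⟨fun y hy => ?_, h.nodal.right, h.nodal.left⟩,
    fun y hy => (h.off y hy).symm, h.nout.symm, h.num, hp⟩
  obtain ⟨a, b, c, d, e, f, g⟩ := h.nodal.node y hy
  exact ⟨b, a, d, c, fun k => e (by unfold CF.jac at k ⊢; linear_combination -k), g, f⟩

theorem posn {c : ℂ} (hc : ‖c‖ = 1) (N : ℕ) : ∃ x : Fin N → ℂ, Function.Injective x ∧
    ∀ k, ‖x k‖ = 1 ∧ ‖x k - c‖ ≤ 1 / 2 ∧ x k ≠ c := by
  have h0 : c ≠ 0 := norm_ne_zero_iff.1 (hc ▸ one_ne_zero)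
  have h1 : ∀ s ∈ Icc (0 : ℝ) (1 / 2), ∀ t ∈ Icc (0 : ℝ) (1 / 2),
      c * Complex.exp (Complex.I * s) = c * Complex.exp (Complex.I * t) → s = t := by
    intro s a t b e
    have := Real.pi_gt_three
    exact Complex.ofReal_injective (mul_left_cancel₀ Complex.I_ne_zero
      (Complex.exp_inj_of_neg_pi_lt_of_le_pi (by simp; linarith [a.1]) (by simp; linarith [a.2])
        (by simp; linarith [b.1]) (by simp; linarith [b.2]) (mul_left_cancel₀ h0 e)))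
  let e := (Ioc_infinite (show (0 : ℝ) < 1 / 2 by norm_num)).natEmbedding
  refine ⟨fun k => c * Complex.exp (Complex.I * (e k : ℝ)), fun k k' a => Fin.ext (e.injective
    (Subtype.ext (h1 _ (Ioc_subset_Icc_self (e k).2) _ (Ioc_subset_Icc_self (e k').2) a))),
    fun k => ⟨by simp [hc], ?_, fun a => (e k).2.1.ne' (h1 _ (Ioc_subset_Icc_self (e k).2) 0
      ⟨le_rfl, by norm_num⟩ (by simpa using a))⟩⟩
  rw [← mul_sub_one, norm_mul, hc, one_mul]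
  exact Real.norm_exp_I_mul_ofReal_sub_one_le.trans
    ((Real.norm_of_nonneg (e k).2.1.le).le.trans (e k).2.2)

theorem ev_le {b : ℝ} (hb : 0 < b) : ∀ᶠ r in 𝓝[>] (0 : ℝ), 8 * r ≤ b := by
  filter_upwards [Ioo_mem_nhdsGT (show 0 < b / 8 by positivity)] with r h
  linarith [h.2]

variable {A B : Cv} {Nd : Finset E} {T T' : ℤ} {D : ℕ} {L : ℝ} {Cw : ℝ → ℝ}

/-- new windows on a curve without ports -/
theorem side (hN : St_NEWGEO) (hA : CF.Alg A B Nd T T' D) (hL : 10 ≤ L) (hC : ∀ β, 1 ≤ Cw β)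
    (h1 : ∀ j, j = A.H) {a gain : ℝ} (xs : Finset ℝ) (ha : 1 ≤ a ∧ a ≤ 2)
    (hx : ∀ x ∈ xs, a * (T - Nd.card - gain) + x * Nd.card ≤ -1 / 2) (N n : ℕ) (hn : N ≤ n) :
    ∃ x : Fin N → ℂ, Pos A x ∧ ∀ᶠ δ in 𝓝[>] (0 : ℝ), ∃ (sp : Sp A.ι)
      (fd : FD A.ι (born A (Fin N) x δ).ι) (Sig : Finset ℂ),
      Rdy L Cw (born A (Fin N) x δ) (Sum.elim (fun _ => 0) fun _ => bpr A L δ) B.P Nd sp fd Sig a xs ∧
      One (born A (Fin N) x δ) sp fd ∧ Free (born A (Fin N) x δ) fd ∧ fd.gain = gain ∧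
      fd.gsum fd.U = 3 / 4 * N ∧ fd.U.card = N ∧ fd.n = n := by
  have h := hA.hC
  have np : ∀ j, (A.e j).k ≠ Kind.pt := fun j => h1 j ▸ HP.hub_loop h
  obtain ⟨sp, fd, Sig, -, -, b1, b2, b3, b4, -, b5, -, b6⟩ := hN L Cw A B.P Nd T a xs gain 1 0 1 n
    h.curve h.off.1 h.out hA.hK.curve.poly (hA.nodal.simpleZ h.curve hA.hK.curve hA.off).1 h.lam
    h.tot ha.1 ha.2 hx le_rfl le_rfl one_pos
  have hR := b6 (fun _ => 0) fun j e => absurd e (np j)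
  obtain ⟨x, x1, x2⟩ := posn h.norm_c.1 N
  have e1 : ∀ k k', ∀ᶠ r in 𝓝[>] (0 : ℝ), k ≠ k' → 8 * r ≤ ‖x k - x k'‖ := fun k k' => by
    by_cases e : k = k'
    · exact Eventually.of_forall fun _ c => absurd e c
    · exact (ev_le (norm_pos_iff.2 (sub_ne_zero.2 fun c => e (x1 c)))).mono fun _ c _ => c
  have e2 : ∀ᶠ r in 𝓝[>] (0 : ℝ), 0 < r ∧ 8 * r ≤ 1 ∧ 8 * r ≤ sp.h ∧
      (∀ k k', k ≠ k' → 8 * r ≤ ‖x k - x k'‖) ∧ ∀ k, 8 * r ≤ ‖x k - A.c‖ := by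
    filter_upwards [self_mem_nhdsWithin, ev_le one_pos, ev_le hR.fit.kit.1,
      eventually_all.2 fun k => eventually_all.2 (e1 k),
      eventually_all.2 fun k => ev_le (norm_pos_iff.2 (sub_ne_zero.2 (x2 k).2.2))]
      with r c1 c2 c3 c4 c5 using ⟨c1, c2, c3, c4, c5⟩
  obtain ⟨r, r0, r1, r2, r3, r4⟩ := e2.exists
  refine ⟨x, ⟨x1, fun k => ⟨(x2 k).1, (x2 k).2.1⟩⟩, ?_⟩
  filter_upwards [st_fitnew _ L Cw A _ sp fd (Fin N) x (fun _ => r) (fun _ => 1 / 2) 0 hL hC h.out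
    (HP.R_pos h) hR.fit b5 (by simpa [b1, b4] using hn) fun k => ⟨(x2 k).1, by norm_num, by norm_num,
      r0, by linarith, fun k' e => by linarith [r3 k k' e], by simp [b1]⟩] with δ ⟨c1, c2, _, c4⟩
  have hU : (fd.born A (Fin N) x δ (fun _ => r) fun _ => 1 / 2).U =
      Finset.univ.map Function.Embedding.inr := by
    simp [FD.born, b1]
  refine ⟨sp, fd.born A (Fin N) x δ (fun _ => r) fun _ => 1 / 2, Sig,
    ⟨hR.geom, hR.sig, hR.om, ?_, c1, hR.part⟩, c2,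
    ⟨A.c, r, h.norm_c.1, r0, by
      show ‖A.c - A.c‖ + r ≤ 1 / 2
      rw [sub_self, norm_zero]; linarith, fun k hk => ?_⟩, b3, ?_,
    (congrArg Finset.card hU).trans (by simp), b4⟩
  · rintro (j | k)
    · exact Or.inr ⟨j, congrArg Sum.inl (congrFun b2 j)⟩
    · exact Or.inl (hU ▸ Finset.mem_map_of_mem _ (Finset.mem_univ k))
  · obtain ⟨k, -, rfl⟩ := Finset.mem_map.1 (hU ▸ hk)
    show 2 * r + r ≤ ‖S6.hx A.hub (hp A (x k) δ 0) - A.c‖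
    rw [(c4 k).1]; linarith [r4 k]
  · refine (congrArg (fd.born A (Fin N) x δ (fun _ => r) fun _ => 1 / 2).gsum hU).trans ?_
    rw [FD.gsum, Finset.sum_map]
    simp [FD.born]; ring

theorem sx_born {π : Type} [Fintype π] {x : π → ℂ} {δ : ℝ} (hW : HP.Wins A B x δ) (h : Half A B T)
    (hL : 10 < L) (h1 : ∀ j, j = A.H) :
    SX (born A π x δ) B (Sum.elim (fun _ => 0) fun _ => bpr A L δ) := by
  have hr := HP.R_pos h
  have np : ∀ j, (A.e j).k ≠ Kind.pt := fun j => h1 j ▸ HP.hub_loop h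
  have a := HP.bpr_le hr hW.pos.1 hL.le
  have b : bpr A L δ < A.R * δ / 4 := lt_of_lt_of_le (mul_lt_mul_of_pos_left
    (Real.exp_lt_exp.2 (by linarith)) (by have := hW.pos.1; positivity))
    (HP.bpr_le hr hW.pos.1 le_rfl).2.1
  refine ⟨?_, ?_, ?_⟩
  · rintro (j | k) e
    · exact congrArg Sum.inl (h1 j)
    · exact absurd rfl e
  · rintro (j | k) e
    · exact absurd e (np j)
    · exact ⟨a.1, HP.born_priv (CF.PRIVO.mono (hW.priv k) b.le), _, b, hW.pole hr k⟩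
  · rintro (j | k) (j' | k') e c d
    · exact absurd c (np j)
    · exact absurd c (np j)
    · exact absurd d (np j')
    · exact disjoint_left.2 fun z f g => ((hW.good k z ((mem_closedBall_iff_norm.1 f).trans
        b.le)).2.2.2.1 k' fun i => e (congrArg _ i.symm)).not_ge
        ((mem_closedBall_iff_norm.1 g).trans b.le)

theorem SX.born {pr : A.ι → ℝ} (h : SX A B pr) {π : Type} [Fintype π] (x : π → ℂ) (δ : ℝ) :
    SX A (born B π x δ) pr :=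
  ⟨h.hp, fun j e => ⟨(h.port j e).1, HP.priv_born (h.port j e).2.1, (h.port j e).2.2⟩, h.pdisj⟩

theorem good (hX : St_CTX) (hS : St_SERVE) {ab : Ab} (hab : ab.OK) {pC : A.ι → ℝ} {pK : B.ι → ℝ}
    (hA : CF.Alg A B Nd T T' D) (sC : SX A B pC) (sK : SX B A pK)
    (hp : HULL.hull (A.Γ ∪ B.Γ) ⊆ A.Γ ∪ B.Γ) {J J' : Type} [Fintype J] [Fintype J'] {sp : Sp J}
    {fd : FD J A.ι} {Sig : Finset ℂ} {sp' : Sp J'} {fd' : FD J' B.ι} {Sig' : Finset ℂ} {xs : Set ℝ}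
    (c : Rdy ab.L ab.Cw A pC B.P Nd sp fd Sig 2 {1})
    (d : Rdy ab.L ab.Cw B pK A.P Nd sp' fd' Sig' 1 xs) (h2 : 2 ∈ xs)
    (g1 : fd.gain ≤ fd.gsum fd.U) (g2 : fd'.gain ≤ fd'.gsum fd'.U) :
    ∃ F t, (fxT A B pC pK t).OK ∧ Good (fxT A B pC pK t) (cfT A B Nd T T' D pC pK F t) := by
  obtain ⟨F, hF⟩ := INIT.thin hA sC sK
  obtain ⟨t0, e1, e2, -⟩ := (hF 1 one_pos).exists
  obtain ⟨τ, T0, f1, f2, -⟩ := hX ab hab _ _ _ _ (cfT A B Nd T T' D pC pK F t0) sp fd Sig sp' fd'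
    Sig' xs e1 e2 c d h2 g2
  exact ⟨F, (pcT sC sK hF hp e2 f2 (hS ab hab _ _ _ F t0 _ _ _ _ sp fd τ e2.wall.smooth e2.wall.gap
    e2.wall.hz.1 e2.wall.C hA.hC.curve.ok hA.hC.out (PCS.isCompact_A e2) c.fit f1 g1)).exists⟩

end INIT

open INIT SH.Init in
theorem st_init (hN : St_NEWGEO) (hX : St_CTX) (hS : St_SERVE) : St_INIT := by
  classical
  intro ab hab
  obtain ⟨B, B1, B2⟩ := (infinite_of_mem_nhds (0 : ℂ) (closedBall_mem_nhds 0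
    (show (0 : ℝ) < 1 / 2 by norm_num))).exists_subset_card_eq 4
  have B3 : ∀ b ∈ B, ‖b‖ ≤ 1 / 2 := fun b hb => mem_closedBall_zero_iff.1 (B1 hb)
  have hR : (3 / 2 : ℝ) < 31 / 20 ∧ (31 / 20 : ℝ) < 8 / 5 := by norm_num
  have n4 : (nodes B).card = 4 := (Finset.card_map _).trans B2
  have hA := CF.alg0 (c := 1) (m := 4) (m' := 4) (Or.inl rfl) hR hR B3 B2.ge (by simp [B2])
    (by simp [B2])
  rw [B2, show (4 : ℤ) + (4 : ℕ) = 8 from rfl] at hA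
  set C := CF.cv0 (fun _ => 0) 1 (31 / 20) 4
  set K := CF.cv0 (pB B) (-1) (31 / 20) 4
  have pK : ∃ y ∈ K.Γ, ‖y.1‖ < 1 / 5 := ⟨(0, pB B 0), ⟨by norm_num, rfl⟩, by simp⟩
  have hL : 10 < ab.L := by linarith [hab.num.1]
  have hC := hab.num.2.2.2.2.2.2.2.2
  obtain ⟨x, x1, x2⟩ := side (a := 2) (gain := 25 / 4) hN hA hL.le hC (fun _ => rfl) {1}
    (by norm_num) (by simp [n4]; norm_num) 34 42 (by norm_num)
  obtain ⟨x', y1, y2⟩ := side (a := 1) (gain := 51 / 2) hN (swap hA pK) hL.le hC (fun _ => rfl)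
    {2, xB 8 4} (by norm_num) (by simp [n4, xB]; norm_num) 34 84 (by norm_num)
  obtain ⟨δ, ⟨c1, c2⟩, sp, fd, Sig, c3, c4, c5, c6, c7, c8, c9⟩ :=
    ((HP.born_alg hA x1).and x2).exists
  obtain ⟨δ', ⟨d1, d2⟩, sp', fd', Sig', d3, d4, d5, d6, d7, d8, d9⟩ :=
    ((HP.born_alg (swap c2 pK) y1).and y2).exists
  have hA' := swap d2 hA.pt
  have sC := (sx_born c1 hA.hC hL fun _ => rfl).born x' δ'
  have sK := sx_born d1 c2.hK hL fun _ => rfl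
  rw [Finset.coe_singleton] at c3
  rw [Finset.coe_pair] at d3
  have g1 : fd.gain ≤ fd.gsum fd.U := by rw [c6, c7]; norm_num
  have g2 : fd'.gain ≤ fd'.gsum fd'.U := by rw [d6, d7]; norm_num
  have hp : HULL.hull (C.Γ ∪ K.Γ) ⊆ C.Γ ∪ K.Γ :=
    pc (f := fun _ => 0) (c := 1) (c' := -1) (r := 31 / 20) (r' := 31 / 20) (CF.IsPoly.const 0)
      (pB_poly B) (by norm_num) (by norm_num) fun z hz => by
      linarith [norm_sub_le z 1, B3 z (pB_eq.1 hz.symm), norm_one (α := ℂ)]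
  obtain ⟨F, t, f3, f4⟩ := good hX hS hab hA' sC sK hp c3 d3 (Or.inl rfl) g1 g2
  refine ⟨_, inferInstance, _, f3, ⟨⟨_, f4,
    ⟨_, inferInstance, sp, fd, Sig, c3, c4, c5, g1, ?_, ?_⟩,
    _, inferInstance, sp', fd', Sig', ?_, d4, d5, g2, ?_, ?_⟩⟩⟩
  · rw [c6]; simp [cfT, n4]; norm_num
  · show (fd.U.card : ℤ) + 8 ≤ fd.n
    rw [c8, c9]; norm_num
  · exact n4 ▸ d3
  · rw [d6]; simp [cfT]; norm_num
  · show (fd'.U.card : ℤ) + (4 * 8 + 2 * 8 + 2) ≤ fd'.n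
    rw [d8, d9]; norm_num

end Pool.Agent.S6
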