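import Pool.Agent.Lib.S6.Blue2
import Pool.Agent.Lib.S6.Hp

/-!
Section 6 of the project 9ccfb7: states in which the end zones of `K` are clear of `C`.
-/

open Set Filter Topology Metric
open scoped ContDiff

noncomputable section

namespace Pool.Agent.S6

open Pool.Agent.CF (End Kind IsCurve Geo SLH Cv Priv)
open Pool.Agent.Lib

/-- the two-sided end zones of `sp` miss the zeros of `C.P`, the private arc and the ports of `C` -/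
def Clear {J : Type} (C : Cv) (sp : Sp J) : Prop :=
  ∀ j, ∀ z ∈ (sp.l j).near sp.h sp.r1, C.P (z, (sp.l j).w z) ≠ 0 ∧
    (∀ x : ℂ, ‖x‖ = 1 → ‖x - C.c‖ ≤ 1 / 2 → z ≠ C.c + C.R * x) ∧
    ∀ i, (C.e i).k = Kind.pt → z ≠ (C.e i).c

def RdyK2 {I : Type} (L : ℝ) (Cw : ℝ → ℝ) (σ : Conf I) : Prop :=
  ∃ (J : Type) (_ : Fintype J) (sp : Sp J) (fd : FD J σ.K.ι) (Sig : Finset ℂ),
    Rdy L Cw σ.K σ.WK.pr σ.C.P σ.Nd sp fd Sig 1 {2, xB σ.TC σ.Nd.card} ∧ One σ.K sp fd ∧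
      Free σ.K fd ∧ fd.gain ≤ fd.gsum fd.U ∧ fd.gain ≤ 2 * σ.TC + σ.TK + 3 / 2 ∧
      (fd.U.card : ℤ) + (4 * σ.TC + 2 * σ.TK + 2) ≤ fd.n ∧ Clear σ.C sp

/-- states -/
structure State2 {I : Type} (fx : Fix I) (L : ℝ) (Cw : ℝ → ℝ) where
  σ : Conf I
  good : Good fx σ
  rC : RdyC L Cw σ
  rK : RdyK2 L Cw σ

/-- the split for the constants `ab` -/
def SplitP2 (ab : Ab) : Prop := ∀ (I J : Type) [Fintype I] [Fintype J] (fx : Fix I)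
  (C K : Cv) (Nd : Finset E) (TC TK : ℤ) (D : ℕ) (a : ℂ) (Z : Finset E) (q G : E → ℂ)
  (π π' : Type) [Fintype π] [Fintype π'] (x : π → ℂ) (x' : π' → ℂ) (prK : K.ι → ℝ) (sp : Sp J)
  (fd : FD J K.ι) (Sig : Finset ℂ), fx.OK → CF.Alg C K Nd TC TK D →
  Sec C K Nd TC a Z q G (Fintype.card π) → Z.card ≤ D → Pos C (Sum.elim x x') →
  2 * (TC : ℝ) - Nd.card + 1 ≤ 3 / 4 * Fintype.card π' →
  Rdy ab.L ab.Cw K prK C.P Nd sp fd Sig 1 {2, xB TC Nd.card} → One K sp fd →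
  fd.gain ≤ fd.gsum fd.U → Clear C sp →
  (∀ j, ∀ z ∈ (sp.l j).near sp.h sp.r1, G (z, (sp.l j).w z) ≠ 0) →
  ∀ᶠ δ in 𝓝[>] (0 : ℝ), ∃ rb > (0 : ℝ), ∀ (F : I → ℂ → ℂ) (WC : Wd I (C.ι ⊕ π)) (WK : Wd I K.ι)
    (hz : ℝ) (Sd : Finset E), Good fx (preS C K Nd TC TK D π a q G x δ F WC WK hz Sd) →
    WK.pr = prK → (∀ j, (C.e j).k = Kind.pt → WC.pr (Sum.inl j) < rb) →
    (∀ k, WC.pr (Sum.inr k) = bpr C ab.L δ) →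
    ∀ pr : C.ι ⊕ π → ℝ, (∀ j, ((winS C K π a q G x δ).e j).k = Kind.pt →
      0 < pr j ∧ pr j ≤ WC.pr j) →
    ∀ (k : ℕ) (ε : ℝ), 0 < ε → ∀ᶠ δ' in 𝓝[>] (0 : ℝ),
      ∃ (A : Cv) (e : ℝ) (F' : I → ℂ → ℂ) (WA : Wd I A.ι) (Ef : (C.ι ⊕ π) ⊕ π' → ℝ → ℝ) (hz' : ℝ)
        (Sd' : Finset E) (sp5 : Sp J) (fd5 : FD J A.ι) (τ : ℝ) (T0 : Set E),
        0 < e ∧ A.P = SH.pA C.P K.P (gS C G x δ) (qS C a q x δ) e ∧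
        A.Γ ⊆ thickening ε (C.Γ ∪ K.Γ) ∧ MP_9ccfb7_an.Close k ε F F' fx.R fx.R ∧
        Ctx fx ab.L ab.Cw
          (postS C K A Nd Z TC TK D π π' a q G x x' ab.L δ δ' F' WA WC.cp pr Ef hz' Sd')
          sp5 fd5 τ T0 ∧
        One A sp5 fd5 ∧ (Free K fd → Free A fd5) ∧ fd5.gain = fd.gain ∧
        fd5.gsum fd5.U = fd.gsum fd.U ∧ fd5.U.card = fd.U.card ∧ fd5.n = fd.n ∧
        (∀ j, (A.e j).k = Kind.pt → fd5.site j) ∧ ∀ y ∈ T0, y ∈ cg A.hub 0 → False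

/-- the stage for the constants `ab` -/
def StageP2 (ab : Ab) : Prop := ∀ (I : Type) [Fintype I] (fx : Fix I), fx.OK →
  ∀ (s : State2 fx ab.L ab.Cw) (k : ℕ) (ε : ℝ), 0 < ε → ∀ (a : ℂ) (ρ : ℝ), 0 < ρ →
    ∃ s' : State2 fx ab.L ab.Cw, MP_9ccfb7_an.Close k ε s.σ.F s'.σ.F fx.R fx.R ∧
      MP_9ccfb7_an.NoGr (s'.σ.K.Γ \ s'.σ.C.Γ) a ρ ∧
      (MP_9ccfb7_an.NoGr (s.σ.K.Γ \ s.σ.C.Γ) a ρ → MP_9ccfb7_an.NoGr (s'.σ.C.Γ \ s'.σ.K.Γ) a ρ) ∧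
      (MP_9ccfb7_an.NoGr (s.σ.C.Γ \ s.σ.K.Γ) a ρ → MP_9ccfb7_an.NoGr (s.σ.K.Γ \ s.σ.C.Γ) a ρ →
        MP_9ccfb7_an.NoGr s'.σ.C.Γ a ρ) ∧
      (MP_9ccfb7_an.NoGr s.σ.C.Γ a ρ → MP_9ccfb7_an.NoGr s'.σ.K.Γ a ρ)

def St_SPLIT3 : Prop := ∃ L0 : ℝ, ∀ ab : Ab, ab.OK → L0 ≤ ab.L → SplitP2 ab

def St_STAGE3 : Prop := ∀ ab : Ab, ab.OK → SplitP2 ab → StageP2 ab

def St_INIT3 : Prop := ∀ ab : Ab, ab.OK → ∃ (I : Type) (_ : Fintype I) (fx : Fix I), fx.OK ∧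
  Nonempty (State2 fx ab.L ab.Cw)

def St_RUN3 : Prop := ∃ ab : Ab, ab.OK ∧ StageP2 ab

theorem run3_of (h1 : St_AB2) (h2 : St_SPLIT3) (h3 : St_STAGE3) : St_RUN3 := by
  obtain ⟨L0, H⟩ := h2
  obtain ⟨ab, a, b⟩ := h1 L0
  exact ⟨ab, a, h3 ab a (H ab a b)⟩

/-- the macro secant; `G` has no zeros on the second curve over `Y` -/
def St_SECA2 : Prop := ∀ (C K : Cv) (Nd : Finset E) (TC TK : ℤ) (D : ℕ) (a : ℂ) (Z : Finset E)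
  (m : ℕ) (Y : Set ℂ), CF.Alg C K Nd TC TK D → CF.SimpleZ C.P (fun y => y.1 - a) C.Γ C.e Z →
  (Z.card : ℤ) + m = TC → (∀ j, a ∉ (K.e j).circ) → (∀ y ∈ Nd, y.1 ≠ a) → IsClosed Y →
  C.c + C.R * C.c ∉ Y →
  ∃ q G : E → ℂ, Sec C K Nd TC a Z q G m ∧ ∀ y, K.P y = 0 → y.1 ∈ Y → G y ≠ 0

/-- thin zones are clear; `O` has the zeros of `A.P` on the sheets of `B`; births keep it -/
def St_CLEAR : Prop :=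
  (∀ (A B : Cv) (T T' : ℤ) (O : E → ℂ), CF.Half A B T → CF.Half B A T' → Continuous O →
    (∀ j, ∀ z ∈ (B.e j).circ, O (z, (B.e j).w z) ≠ 0) →
    ∃ h0 > (0 : ℝ), ∀ j, ∀ z ∈ (B.e j).near h0 h0, O (z, (B.e j).w z) ≠ 0 ∧
      (∀ x : ℂ, ‖x‖ = 1 → ‖x - A.c‖ ≤ 1 / 2 → z ≠ A.c + A.R * x) ∧
      ∀ i, (A.e i).k = Kind.pt → z ≠ (A.e i).c) ∧
  ∀ (J : Type) [Fintype J] (A : Cv) (sp : Sp J) (π : Type) [Fintype π] (x : π → ℂ), Pos A x →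
    (∀ j, (sp.l j).ok) → Clear A sp → ∀ᶠ δ in 𝓝[>] (0 : ℝ), Clear (born A π x δ) sp

/-- a birth on the second curve -/
def St_ADDK : Prop := ∀ (A B : Cv) (Nd : Finset E) (T T' : ℤ) (D : ℕ) (π : Type) [Fintype π]
  (x : π → ℂ) (δ : ℝ), HP.Wins A B x δ → CF.Alg B A Nd T' T D → Pos A x →
  CF.Alg B (born A π x δ) Nd T' T D

/-- an explicit geometry for the curve with the new ports and the pinned nodes -/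
def St_GEOW : Prop := ∀ (C K : Cv) (Nd : Finset E) (TC TK : ℤ) (D : ℕ) (a : ℂ) (Z : Finset E)
  (q G : E → ℂ) (π : Type) [Fintype π] (x : π → ℂ), CF.Alg C K Nd TC TK D →
  CF.SimpleZ C.P (fun y => y.1 - a) C.Γ C.e Z → Pos C x →
  ∀ᶠ δ in 𝓝[>] (0 : ℝ), ∃ Sig : Finset ℂ,
    Geo C.P C.Γ (winS C K π a q G x δ).e Sig (C.R * δ / 100) (δ / 100) ∧
    CF.brv K.P K.Γ ⊆ Sig ∧ (∀ y ∈ Nd, y.1 ∈ Sig) ∧ ∀ y ∈ ndS C Z x δ, y.1 ∈ Sig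

end Pool.Agent.S6
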