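import Pool.Agent.Lib.S6.B_INIT
import Pool.Agent.Lib.S6.Blue3

/-! The initial state with clear zones. -/

open Set Filter Topology Metric

noncomputable section

namespace Pool.Agent.S6

open Pool.Agent.CF (End Kind IsCurve Half Priv Cv)
open Pool.Agent.Lib

namespace INIT

variable {A B : Cv} {Nd : Finset E} {T T' : ℤ} {D : ℕ} {L : ℝ} {Cw : ℝ → ℝ}

/-- new windows on a curve without ports -/
theorem side3 (hN : St_NEWGEO) (hA : CF.Alg A B Nd T T' D) (hL : 10 ≤ L) (hC : ∀ β, 1 ≤ Cw β)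
    (h1 : ∀ j, j = A.H) {a gain : ℝ} (xs : Finset ℝ) (ha : 1 ≤ a ∧ a ≤ 2)
    (hx : ∀ x ∈ xs, a * (T - Nd.card - gain) + x * Nd.card ≤ -1 / 2) (N n : ℕ) (hn : N ≤ n)
    {h0 : ℝ} (hh : 0 < h0) :
    ∃ x : Fin N → ℂ, Pos A x ∧ ∀ᶠ δ in 𝓝[>] (0 : ℝ), ∃ (sp : Sp A.ι)
      (fd : FD A.ι (born A (Fin N) x δ).ι) (Sig : Finset ℂ),
      Rdy L Cw (born A (Fin N) x δ) (Sum.elim (fun _ => 0) fun _ => bpr A L δ) B.P Nd sp fd Sig a xs ∧
      One (born A (Fin N) x δ) sp fd ∧ Free (born A (Fin N) x δ) fd ∧ fd.gain = gain ∧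
      fd.gsum fd.U = 3 / 4 * N ∧ fd.U.card = N ∧ fd.n = n ∧
      ∀ j, (sp.l j).near sp.h sp.r1 ⊆ (A.e j).near h0 h0 ∧ (sp.l j).w = (A.e j).w := by
  have h := hA.hC
  have np : ∀ j, (A.e j).k ≠ Kind.pt := fun j => h1 j ▸ HP.hub_loop h
  obtain ⟨sp, fd, Sig, b7, b8, b1, b2, b3, b4, -, b5, -, b6⟩ := hN L Cw A B.P Nd T a xs gain 1 0 h0 n
    h.curve h.off.1 h.out hA.hK.curve.poly (hA.nodal.simpleZ h.curve hA.hK.curve hA.off).1 h.lam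
    h.tot ha.1 ha.2 hx le_rfl le_rfl hh
  have hR := b6 (fun _ => 0) fun j e => absurd e (np j)
  obtain ⟨x, x1, x2⟩ := posn h.norm_c.1 N
  have e1 : ∀ k k', ∀ᶠ r in 𝓝[>] (0 : ℝ), k ≠ k' → 8 * r ≤ ‖x k - x k'‖ := fun k k' => by
    by_cases e : k = k'
    · exact Eventually.of_forall fun _ c => absurd e c
    · exact (ev_le (norm_pos_iff.2 (sub_ne_zero.2 fun c => e (x1 c)))).mono fun _ c _ => c
  have e2 : ∀ᶠ r in 𝓝[>] (0 : ℝ), 0 < r ∧ 8 * r ≤ 1 ∧ 8 * r ≤ sp.h ∧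
      (∀ k k', k ≠ k' → 8 * r ≤ ‖x k - x k'‖) ∧ ∀ k, 8 * r ≤ ‖x k - A.c‖ := by
    filter_upwards [self_mem_nhdsWithin, ev_le one_pos, ev_le hR.fit.kit.1,
      eventually_all.2 fun k => eventually_all.2 (e1 k),
      eventually_all.2 fun k => ev_le (norm_pos_iff.2 (sub_ne_zero.2 (x2 k).2.2))]
      with r c1 c2 c3 c4 c5 using ⟨c1, c2, c3, c4, c5⟩
  obtain ⟨r, r0, r1, r2, r3, r4⟩ := e2.exists
  refine ⟨x, ⟨x1, fun k => ⟨(x2 k).1, (x2 k).2.1⟩⟩, ?_⟩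
  filter_upwards [st_fitnew _ L Cw A _ sp fd (Fin N) x (fun _ => r) (fun _ => 1 / 2) 0 hL hC h.out
    (HP.R_pos h) hR.fit b5 (by simpa [b1, b4] using hn) fun k => ⟨(x2 k).1, by norm_num, by norm_num,
      r0, by linarith, fun k' e => by linarith [r3 k k' e], by simp [b1]⟩] with δ ⟨c1, c2, _, c4⟩
  have hU : (fd.born A (Fin N) x δ (fun _ => r) fun _ => 1 / 2).U =
      Finset.univ.map Function.Embedding.inr := by
    simp [FD.born, b1]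
  refine ⟨sp, fd.born A (Fin N) x δ (fun _ => r) fun _ => 1 / 2, Sig,
    ⟨hR.geom, hR.sig, hR.om, ?_, c1, hR.part⟩, c2,
    ⟨A.c, r, h.norm_c.1, r0, by
      show ‖A.c - A.c‖ + r ≤ 1 / 2
      rw [sub_self, norm_zero]; linarith, fun k hk => ?_⟩, b3, ?_,
    (congrArg Finset.card hU).trans (by simp), b4, fun j => ?_⟩
  · rintro (j | k)
    · exact Or.inr ⟨j, congrArg Sum.inl (congrFun b2 j)⟩
    · exact Or.inl (hU ▸ Finset.mem_map_of_mem _ (Finset.mem_univ k))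
  · obtain ⟨k, -, rfl⟩ := Finset.mem_map.1 (hU ▸ hk)
    show 2 * r + r ≤ ‖S6.hx A.hub (hp A (x k) δ 0) - A.c‖
    rw [(c4 k).1]; linarith [r4 k]
  · refine (congrArg (fd.born A (Fin N) x δ (fun _ => r) fun _ => 1 / 2).gsum hU).trans ?_
    rw [FD.gsum, Finset.sum_map]
    simp [FD.born]; ring
  · rw [(hR.fit.eq j).1, b2]
    exact ⟨End.near_mono _ b7 b8, rfl⟩

end INIT

open INIT SH.Init in
theorem st_init3 (hN : St_NEWGEO) (hX : St_CTX) (hS : St_SERVE) (hK : St_CLEAR) : St_INIT3 := by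
  classical
  intro ab hab
  obtain ⟨B, B1, B2⟩ := (infinite_of_mem_nhds (0 : ℂ) (closedBall_mem_nhds 0
    (show (0 : ℝ) < 1 / 2 by norm_num))).exists_subset_card_eq 4
  have B3 : ∀ b ∈ B, ‖b‖ ≤ 1 / 2 := fun b hb => mem_closedBall_zero_iff.1 (B1 hb)
  have hR : (3 / 2 : ℝ) < 31 / 20 ∧ (31 / 20 : ℝ) < 8 / 5 := by norm_num
  have n4 : (nodes B).card = 4 := (Finset.card_map _).trans B2
  have hA := CF.alg0 (c := 1) (m := 4) (m' := 4) (Or.inl rfl) hR hR B3 B2.ge (by simp [B2])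
    (by simp [B2])
  rw [B2, show (4 : ℤ) + (4 : ℕ) = 8 from rfl] at hA
  set C := CF.cv0 (fun _ => 0) 1 (31 / 20) 4
  set K := CF.cv0 (pB B) (-1) (31 / 20) 4
  have pK : ∃ y ∈ K.Γ, ‖y.1‖ < 1 / 5 := ⟨(0, pB B 0), ⟨by norm_num, rfl⟩, by simp⟩
  have hL : 10 < ab.L := by linarith [hab.num.1]
  have hC := hab.num.2.2.2.2.2.2.2.2
  obtain ⟨x, x1, x2⟩ := side (a := 2) (gain := 25 / 4) hN hA hL.le hC (fun _ => rfl) {1}
    (by norm_num) (by simp [n4]; norm_num) 34 42 (by norm_num)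
  obtain ⟨δ, ⟨c1, c2⟩, sp, fd, Sig, c3, c4, c5, c6, c7, c8, c9⟩ :=
    ((HP.born_alg hA x1).and x2).exists
  obtain ⟨h0, k1, k2⟩ := hK.1 _ K _ _ (born C (Fin 34) x δ).P c2.hC c2.hK
    c2.hC.curve.poly.continuous fun j z hz e =>
      (c2.off _ (c2.nodal.right _ (c2.hK.curve.mem_of_circ j hz) e)).2 j hz
  obtain ⟨x', y1, y2⟩ := side3 (a := 1) (gain := 51 / 2) hN (swap c2 pK) hL.le hC (fun _ => rfl)
    {2, xB 8 4} (by norm_num) (by simp [n4, xB]; norm_num) 34 84 (by norm_num) k1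
  obtain ⟨δ', ⟨d1, d2⟩, sp', fd', Sig', d3, d4, d5, d6, d7, d8, d9, d0⟩ :=
    ((HP.born_alg (swap c2 pK) y1).and y2).exists
  have hA' := swap d2 hA.pt
  have sC := (sx_born c1 hA.hC hL fun _ => rfl).born x' δ'
  have sK := sx_born d1 c2.hK hL fun _ => rfl
  rw [Finset.coe_singleton] at c3
  rw [Finset.coe_pair] at d3
  have g1 : fd.gain ≤ fd.gsum fd.U := by rw [c6, c7]; norm_num
  have g2 : fd'.gain ≤ fd'.gsum fd'.U := by rw [d6, d7]; norm_num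
  have hp : HULL.hull (C.Γ ∪ K.Γ) ⊆ C.Γ ∪ K.Γ :=
    pc (f := fun _ => 0) (c := 1) (c' := -1) (r := 31 / 20) (r' := 31 / 20) (CF.IsPoly.const 0)
      (pB_poly B) (by norm_num) (by norm_num) fun z hz => by
      linarith [norm_sub_le z 1, B3 z (pB_eq.1 hz.symm), norm_one (α := ℂ)]
  obtain ⟨F, t, f3, f4⟩ := good hX hS hab hA' sC sK hp c3 d3 (Or.inl rfl) g1 g2
  refine ⟨_, inferInstance, _, f3, ⟨⟨_, f4,
    ⟨_, inferInstance, sp, fd, Sig, c3, c4, c5, g1, ?_, ?_⟩,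
    _, inferInstance, sp', fd', Sig', ?_, d4, d5, g2, ?_, ?_, fun j z hz => (d0 j).2 ▸ k2 j z ((d0 j).1 hz)⟩⟩⟩
  · rw [c6]; simp [cfT, n4]; norm_num
  · show (fd.U.card : ℤ) + 8 ≤ fd.n
    rw [c8, c9]; norm_num
  · exact n4 ▸ d3
  · rw [d6]; simp [cfT]; norm_num
  · show (fd'.U.card : ℤ) + (4 * 8 + 2 * 8 + 2) ≤ fd'.n
    rw [d8, d9]; norm_num

end Pool.Agent.S6
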