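import Pool.Agent.Lib.S6.B_PCS
import Pool.Agent.Lib.S6.B_ZONE

/-!
Descriptions of a surface near the ends: zones, frames, walls at ports.
-/

open Set Filter Topology Metric
open scoped ContDiff

noncomputable section

namespace Pool.Agent.S6

open Pool.Agent.CF (End Kind IsCurve Geo SLH Cv Priv)
open Pool.Agent.Lib

namespace DESC

/-! ### zones -/

theorem zn_pt {l : End} (hk : l.k = Kind.pt) (ρ : ℝ) (one : Prop) (s : ℝ) :
    zn l ρ one s = closedBall l.c (ρ * Real.exp s) := if_pos hk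

open Classical in
theorem zn_loop {l : End} (hk : l.k ≠ Kind.pt) (ρ : ℝ) (one : Prop) (s : ℝ) :
    zn l ρ one s = l.ann (Icc (if one then 0 else -s) s) := by
  unfold zn; rw [if_neg hk]; split_ifs <;> rfl

theorem ct_pt {l : End} (hk : l.k = Kind.pt) (ρ : ℝ) : ct l ρ = closedBall l.c ρ := if_pos hk

theorem ct_loop {l : End} (hk : l.k ≠ Kind.pt) (ρ : ℝ) : ct l ρ = l.circ := if_neg hk

theorem wl_loop {l : End} (hk : l.k ≠ Kind.pt) (ρ : ℝ) : wl l ρ = l := if_neg hk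

theorem wl_dep_pt {l : End} (hk : l.k = Kind.pt) (ρ : ℝ) (z : ℂ) :
    (wl l ρ).dep z = Real.log (‖z - l.c‖ / ρ) := by
  simp [wl, hk, End.hole, End.dep, End.sgn]

theorem isCompact_ct (l : End) (ρ : ℝ) : IsCompact (ct l ρ) := by
  unfold ct; split_ifs
  · exact isCompact_closedBall _ _
  · exact l.isCompact_circ

theorem isCompact_zn {l : End} (ok : l.ok) (ρ : ℝ) (one : Prop) (s : ℝ) :
    IsCompact (zn l ρ one s) := by
  by_cases hk : l.k = Kind.pt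
  · rw [zn_pt hk]; exact isCompact_closedBall _ _
  · rw [zn_loop hk]; exact End.isCompact_ann (ok.pos hk) isCompact_Icc

theorem zn_mono {l : End} {ρ : ℝ} (hρ : l.k = Kind.pt → 0 < ρ) (one : Prop) {s s' : ℝ}
    (h : s ≤ s') : zn l ρ one s ⊆ zn l ρ one s' := by
  by_cases hk : l.k = Kind.pt
  · rw [zn_pt hk, zn_pt hk]
    exact closedBall_subset_closedBall (by have := hρ hk; gcongr)
  · rw [zn_loop hk, zn_loop hk]
    refine End.ann_mono (Icc_subset_Icc ?_ h)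
    split_ifs <;> linarith

theorem zn_near (l : End) (ρ : ℝ) (one : Prop) {s : ℝ} (h : 0 ≤ s) :
    zn l ρ one s ⊆ l.near s (ρ * Real.exp s) := by
  by_cases hk : l.k = Kind.pt
  · rw [zn_pt hk, End.near_pt hk]
  · rw [zn_loop hk, End.near_loop hk]
    refine End.ann_mono (Icc_subset_Icc ?_ le_rfl)
    split_ifs <;> linarith

theorem ct_nearO {l : End} (ok : l.ok) {ρ : ℝ} (hρ : l.k = Kind.pt → 0 < ρ) {s : ℝ} (h : 0 < s) :
    ct l ρ ⊆ l.nearO s (ρ * Real.exp s) := by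
  by_cases hk : l.k = Kind.pt
  · rw [ct_pt hk, End.nearO_pt hk]
    refine closedBall_subset_ball ?_
    have := hρ hk
    nlinarith [Real.add_one_le_exp s]
  · rw [ct_loop hk, End.nearO_loop hk]
    intro z hz
    obtain ⟨a, b⟩ := (End.mem_circ (ok.pos hk)).1 hz
    exact ⟨a, by rw [b]; exact ⟨by linarith, h⟩⟩

theorem ct_zn {l : End} (ok : l.ok) {ρ : ℝ} (hρ : l.k = Kind.pt → 0 < ρ) (one : Prop) {s : ℝ}
    (h : 0 ≤ s) : ct l ρ ⊆ zn l ρ one s := by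
  by_cases hk : l.k = Kind.pt
  · rw [ct_pt hk, zn_pt hk]
    refine closedBall_subset_closedBall ?_
    have := hρ hk
    nlinarith [Real.add_one_le_exp s]
  · rw [ct_loop hk, zn_loop hk]
    intro z hz
    obtain ⟨a, b⟩ := (End.mem_circ (ok.pos hk)).1 hz
    refine ⟨a, ?_⟩
    rw [b]
    split_ifs
    · exact ⟨le_rfl, h⟩
    · exact ⟨by linarith, h⟩

/-- the closed neighbourhoods shrink to the contact set -/
theorem near_ev {l : End} (ok : l.ok) {ρ : ℝ} (hρ : l.k = Kind.pt → 0 < ρ) {N : Set ℂ}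
    (hN : N ∈ 𝓝ˢ (ct l ρ)) : ∀ᶠ s in 𝓝 (0 : ℝ), l.near s (ρ * Real.exp s) ⊆ N := by
  by_cases hk : l.k = Kind.pt
  · rw [ct_pt hk] at hN
    obtain ⟨U, hU, h1, h2⟩ := mem_nhdsSet_iff_exists.1 hN
    obtain ⟨ε, hε, h3⟩ := (isCompact_closedBall l.c ρ).exists_cthickening_subset_open hU h1
    rw [cthickening_closedBall hε.le (hρ hk).le] at h3
    have c : ContinuousAt (fun s : ℝ => ρ * Real.exp s) 0 := by fun_prop
    filter_upwards [c.eventually (eventually_le_nhds (b := ε + ρ) (by simpa using hε))] with s a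
    rw [End.near_pt hk]
    exact ((closedBall_subset_closedBall a).trans h3).trans h2
  · rw [ct_loop hk] at hN
    obtain ⟨δ, h0, h1⟩ := End.shrink ok hN
    filter_upwards [eventually_le_nhds h0] with s a
    have := h1 s 0 a h0.le
    rwa [End.near_loop hk] at this ⊢

theorem ev2 {p : ℝ → Prop} (h : ∀ᶠ s in 𝓝 (0 : ℝ), p s) : ∃ t0 > 0, ∀ s, 0 ≤ s → s ≤ t0 → p s := by
  obtain ⟨ε, e0, h⟩ := Metric.eventually_nhds_iff.1 h
  refine ⟨ε / 2, half_pos e0, fun s a b => h ?_⟩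
  rw [Real.dist_eq, sub_zero, abs_of_nonneg a]; linarith

theorem zn_ev {l : End} (ok : l.ok) {ρ : ℝ} (hρ : l.k = Kind.pt → 0 < ρ) (one : Prop) {N : Set ℂ}
    (hN : N ∈ 𝓝ˢ (ct l ρ)) : ∃ t0 > 0, ∀ s, s ≤ t0 → zn l ρ one s ⊆ N := by
  obtain ⟨t0, h0, h⟩ := ev2 (near_ev ok hρ hN)
  exact ⟨t0, h0, fun s a => ((zn_mono hρ one a).trans (zn_near l ρ one h0.le)).trans
    (h t0 h0.le le_rfl)⟩

/-- finitely many bounds -/
theorem small {κ : Type} [Finite κ] {p : κ → ℝ → Prop}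
    (h : ∀ k, ∃ t0 > 0, ∀ s, 0 < s → s ≤ t0 → p k s) :
    ∃ t0 > 0, ∀ s, 0 < s → s ≤ t0 → ∀ k, p k s := by
  choose t t0 h using h
  have : ∀ᶠ s in 𝓝[>] (0 : ℝ), ∀ k, s ≤ t k :=
    (eventually_all.2 fun k => eventually_le_nhds (t0 k)).filter_mono nhdsWithin_le_nhds
  obtain ⟨s, a, b⟩ := (this.and self_mem_nhdsWithin).exists
  exact ⟨s, b, fun r c d k => h k r c (d.trans (a k))⟩

theorem piece {κ : Type} (P : κ → Prop) (U : κ → Set ℂ) (f : κ → ℂ → ℂ)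
    (h : ∀ k k', P k → P k' → ∀ z ∈ U k, z ∈ U k' → k = k') :
    ∃ N : ℂ → ℂ, ∀ k, P k → ∀ z ∈ U k, N z = f k z := by
  classical
  refine ⟨fun z => if h : ∃ k, P k ∧ z ∈ U k then f h.choose z else 0, fun k a z b => ?_⟩
  have e : ∃ k, P k ∧ z ∈ U k := ⟨k, a, b⟩
  simp only [dif_pos e]
  rw [h _ _ e.choose_spec.1 a z e.choose_spec.2 b]

/-! ### walls -/

section wall

variable {I : Type} {fx : Fix I} {F : I → ℂ → ℂ} {hz : ℝ} {A B : Cv} {W : Wd I A.ι}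

theorem prpos (sw : SideWall fx F hz A B W) (k : A.ι) : (A.e k).k = Kind.pt → 0 < W.pr k :=
  fun h => (sw.port k h).1

theorem ct_sub (sw : SideWall fx F hz A B W) (ok : ∀ j, (A.e j).ok) (k : A.ι) {s : ℝ}
    (h : 0 ≤ s) : ct (A.e k) (W.pr k) ⊆ W.zn A s k := ct_zn (ok k) (prpos sw k) _ h

theorem zn_sub (sw : SideWall fx F hz A B W) (k : A.ι) {s s' : ℝ} (h : s ≤ s') :
    W.zn A s k ⊆ W.zn A s' k := zn_mono (prpos sw k) _ h

/-- on the contact set the surface is the sheet -/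
theorem on_ct (sw : SideWall fx F hz A B W) (h0 : 0 < hz) (ok : ∀ j, (A.e j).ok) (k : A.ι) {z : ℂ}
    (h : z ∈ ct (A.e k) (W.pr k)) : z ∈ fx.dom (W.cp k) ∧ F (W.cp k) z = (A.e k).w z := by
  have hm := ct_sub sw ok k h0.le h
  refine ⟨sw.dom k hm, ?_⟩
  rw [sw.exact k z hm]
  by_cases hk : (A.e k).k = Kind.pt
  · rw [ct_pt hk, mem_closedBall_iff_norm] at h
    have := prpos sw k hk
    rw [(sw.pr k).one (fun a => a.1 hk) _ (by
      rw [wl_dep_pt hk]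
      exact Real.log_nonpos (by positivity) ((div_le_one this).2 h))]
    simp
  · rw [ct_loop hk] at h
    rw [wl_loop hk, ((End.mem_circ ((ok k).pos hk)).1 h).2, PCS.PR_zero (sw.pr k)]
    simp

/-- contact sets on the same sheet are disjoint -/
theorem ct_disj (sw : SideWall fx F hz A B W) (h0 : 0 < hz) (ok : ∀ j, (A.e j).ok)
    (gap : ∀ i i', i ≠ i' → ∀ z ∈ fx.dom i, z ∈ fx.dom i' → F i z ≠ F i' z) {k k' : A.ι}
    (hk : k ≠ k') (hw : (A.e k).w = (A.e k').w) :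
    Disjoint (ct (A.e k) (W.pr k)) (ct (A.e k') (W.pr k')) := by
  refine disjoint_left.2 fun z a b => ?_
  obtain ⟨a1, a2⟩ := on_ct sw h0 ok k a
  obtain ⟨b1, b2⟩ := on_ct sw h0 ok k' b
  by_cases e : W.cp k = W.cp k'
  · exact disjoint_left.1 (sw.disj k k' hk e) (ct_sub sw ok k h0.le a) (ct_sub sw ok k' h0.le b)
  · exact gap _ _ e z a1 b1 (by rw [a2, b2, hw])

theorem hub_dep (sw : SideWall fx F hz A B W) (ok : ∀ j, (A.e j).ok) (hk : A.hub.k = Kind.out)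
    {z : ℂ} (h : z ∈ fx.dom (W.cp A.H)) (hc : z ≠ A.hub.c) : 0 ≤ A.hub.dep z := by
  have hp : A.hub.k ≠ Kind.pt := by rw [hk]; decide
  refine (End.side_iff hp ((ok A.H).pos hp) hc).1 ⟨fun _ => ?_, fun a => ?_⟩
  · have := h.2
    rwa [sw.hub.1, sw.hub.2] at this
  · rw [hk] at a; cases a

end wall

/-! ### windows -/

theorem ball_ann {l : End} (hk : l.k = Kind.out) (hr : 0 < l.r) {p : ℂ} (hp : p ≠ l.c)
    {ρ a : ℝ} (hd : 0 < l.dep p) (hd1 : l.dep p ≤ 1 / 4) (ha : 2 * l.dep p ≤ a)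
    (hρ : ρ ≤ l.r * l.dep p / 2) : closedBall p ρ ⊆ l.ann (Icc 0 a) := by
  intro z hz
  obtain ⟨a1, -, a3⟩ := ZONE.ball_subset_ann hk hr hp hd hd1 ha hρ hz
  have hq : l.k ≠ Kind.pt := by rw [hk]; decide
  refine ⟨a1, (End.side_iff hq hr a1).1 ⟨fun _ => ?_, fun a => ?_⟩, a3⟩
  · have hs : (l.sgn : ℝ) = -1 := by simp [End.sgn, hk]
    have h1 := End.norm_eq_rad hr hp
    rw [End.rad, hs] at h1
    have h2 : ‖z - p‖ ≤ ρ := mem_closedBall_iff_norm.1 hz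
    have h3 : ‖z - l.c‖ ≤ ‖z - p‖ + ‖p - l.c‖ := norm_sub_le_norm_sub_add_norm_sub _ _ _
    have e1 : Real.exp (-1 * l.dep p) * Real.exp (l.dep p) = 1 := by
      rw [← Real.exp_add]; simp
    have e2 := Real.add_one_le_exp (l.dep p)
    have e3 := Real.exp_pos (-1 * l.dep p)
    have e4 : Real.exp (-1 * l.dep p) ≤ 1 - l.dep p / 2 := by nlinarith
    nlinarith
  · rw [hk] at a; cases a

section win

variable {J : Type} {L : ℝ} {Cw : ℝ → ℝ} {A : Cv} {pr : A.ι → ℝ} {sp : Sp J} {fd : FD J A.ι}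

theorem win_hub {j : J} {k : A.ι} (h : k ∈ fd.win A j) : fd.m j = A.H ∧ k ∈ fd.U := by
  unfold FD.win at h
  split_ifs at h with a
  · exact ⟨a, h⟩
  · simp at h

theorem win_eq {j : J} (h : fd.m j = A.H) : fd.win A j = fd.U := if_pos h

theorem l_eq (hf : Fit L Cw A pr sp fd) (j : J) : sp.l j = A.e (fd.m j) := (hf.eq j).1

theorem l_hub (hf : Fit L Cw A pr sp fd) {j : J} (h : fd.m j = A.H) : sp.l j = A.hub := by
  rw [l_eq hf, h]; rfl

theorem win_w (hf : Fit L Cw A pr sp fd) {j : J} {k : A.ι} (h : k ∈ fd.win A j) :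
    (A.e k).w = (sp.l j).w := by
  rw [l_hub hf (win_hub h).1]; exact (hf.win k (win_hub h).2).2.1

theorem dep_le (hC : ∀ β, 1 ≤ Cw β) (hf : Fit L Cw A pr sp fd) {k : A.ι} (hU : k ∈ fd.U) :
    A.hub.dep (A.e k).c ≤ sp.h / 24 := by
  obtain ⟨-, -, w3, -, -, -, w7, w8, -⟩ := hf.win k hU
  obtain ⟨k1, -, -, -, -, -, k7, -⟩ := hf.kit
  obtain ⟨c1, c2⟩ := k7 _ (hC (fd.β k))
  have c0 := hC (fd.β k)
  have c3 : fd.κf (Cw (fd.β k)) ≤ 1 / 3 :=
    c2.trans (one_div_le_one_div_of_le (by norm_num) (by linarith))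
  nlinarith

theorem pd_sub (hL : 10 ≤ L) (hC : ∀ β, 1 ≤ Cw β) (hf : Fit L Cw A pr sp fd)
    (hk : A.hub.k = Kind.out) (hR : 0 < A.hub.r) {k : A.ι} (hU : k ∈ fd.U) :
    pd L A.hub (A.e k).c ⊆ A.hub.ann (Icc 0 sp.h) := by
  have d := dep_le hC hf hU
  obtain ⟨-, -, w3, w4, -⟩ := hf.win k hU
  obtain ⟨k1, k2, -⟩ := hf.kit
  refine ball_ann hk hR w4 w3 (by linarith) (by linarith) ?_
  have : Real.exp (6 - L) ≤ 1 / 2 := by
    rw [← neg_sub, Real.exp_neg, inv_le_comm₀ (Real.exp_pos _) (by norm_num)]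
    linarith [Real.add_one_le_exp (L - 6)]
  have p : 0 < A.hub.r * A.hub.dep (A.e k).c := mul_pos hR w3
  nlinarith

theorem ball_pd (hf : Fit L Cw A pr sp fd) (hR : 0 < A.hub.r) {k : A.ι} (hU : k ∈ fd.U)
    (hp : 0 < pr k) {s : ℝ} (hs : s ≤ 4) :
    closedBall (A.e k).c (pr k * Real.exp s) ⊆ pd L A.hub (A.e k).c := by
  obtain ⟨-, -, w3, -, -, -, -, -, -, w10, -⟩ := hf.win k hU
  refine closedBall_subset_closedBall ?_
  have p0 : 0 < 2 * A.R * A.hub.dep (A.e k).c := by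
    have : 0 < A.R := hR
    positivity
  have p1 : Real.log (pr k / (2 * A.R * A.hub.dep (A.e k).c)) ≤ -(L - 1 / 2) := by
    linarith [(abs_le.1 w10).2]
  rw [Real.log_le_iff_le_exp (div_pos hp p0), div_le_iff₀ p0] at p1
  have e1 : Real.exp (-(L - 1 / 2)) * Real.exp s * Real.exp 1 ≤ Real.exp (6 - L) := by
    rw [← Real.exp_add, ← Real.exp_add]; exact Real.exp_le_exp.2 (by linarith)
  have e2 : 2 ≤ Real.exp 1 := by linarith [Real.add_one_le_exp 1]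
  have e3 : 0 < Real.exp (-(L - 1 / 2)) * Real.exp s := by positivity
  have e4 : 2 * (Real.exp (-(L - 1 / 2)) * Real.exp s) ≤ Real.exp (6 - L) := by nlinarith
  have q : 0 < A.hub.r * A.hub.dep (A.e k).c := mul_pos hR w3
  calc pr k * Real.exp s ≤ Real.exp (-(L - 1 / 2)) * (2 * A.R * A.hub.dep (A.e k).c) *
        Real.exp s := by gcongr
    _ = A.hub.r * A.hub.dep (A.e k).c * (2 * (Real.exp (-(L - 1 / 2)) * Real.exp s)) := by
      unfold Cv.R; ring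
    _ ≤ _ := by gcongr

end win

/-! ### frames -/

/-- the standing data of a description -/
structure Base {I J : Type} (L : ℝ) (Cw : ℝ → ℝ) (fx : Fix I) (F : I → ℂ → ℂ) (hz : ℝ) (A B : Cv)
    (W : Wd I A.ι) (Y : Set E) (sp : Sp J) (fd : FD J A.ι) (τ : ℝ) : Prop where
  hL : 10 ≤ L
  hC : ∀ β, 1 ≤ Cw β
  cF : ∀ i, Continuous (F i)
  gap : ∀ i i', i ≠ i' → ∀ z ∈ fx.dom i, z ∈ fx.dom i' → F i z ≠ F i' z
  h0 : 0 < hz
  sw : SideWall fx F hz A B W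
  ok : ∀ j, (A.e j).ok
  hk : A.hub.k = Kind.out
  fit : Fit L Cw A W.pr sp fd
  zone : Zone A W.pr Y sp fd τ

/-- the zones seen from the end `j` -/
def thn {I J : Type} (A : Cv) (W : Wd I A.ι) (fd : FD J A.ι) (j : J) (t t' : ℝ) : Set ℂ :=
  W.zn A t (fd.m j) ∪ ⋃ k ∈ fd.win A j, W.zn A t' k

section frame

variable {I J : Type} {L : ℝ} {Cw : ℝ → ℝ} {fx : Fix I} {F : I → ℂ → ℂ} {hz : ℝ} {A B : Cv}
  {W : Wd I A.ι} {Y : Set E} {sp : Sp J} {fd : FD J A.ι} {τ : ℝ}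

theorem Base.hp (b : Base L Cw fx F hz A B W Y sp fd τ) : A.hub.k ≠ Kind.pt := by
  rw [b.hk]; decide

theorem Base.hR (b : Base L Cw fx F hz A B W Y sp fd τ) : 0 < A.hub.r := (b.ok A.H).pos b.hp

theorem Base.lok (b : Base L Cw fx F hz A B W Y sp fd τ) (j : J) : (sp.l j).ok := by
  rw [l_eq b.fit]; exact b.ok _

theorem Base.hpos (b : Base L Cw fx F hz A B W Y sp fd τ) : 0 < sp.h := b.fit.kit.1

theorem Base.win_ne (b : Base L Cw fx F hz A B W Y sp fd τ) {j : J} {k : A.ι}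
    (h : k ∈ fd.win A j) : k ≠ fd.m j := fun e => (b.fit.eq j).2 (e ▸ (win_hub h).2)

theorem Base.win_pt (b : Base L Cw fx F hz A B W Y sp fd τ) {k : A.ι} (h : k ∈ fd.U) :
    (A.e k).k = Kind.pt := (b.fit.win k h).1

theorem Base.zn_win (b : Base L Cw fx F hz A B W Y sp fd τ) {k : A.ι} (h : k ∈ fd.U) (s : ℝ) :
    W.zn A s k = closedBall (A.e k).c (W.pr k * Real.exp s) := zn_pt (b.win_pt h) _ _ _

theorem Base.zn_pd (b : Base L Cw fx F hz A B W Y sp fd τ) {k : A.ι} (h : k ∈ fd.U) {s : ℝ}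
    (hs : s ≤ 4) : W.zn A s k ⊆ pd L A.hub (A.e k).c := by
  rw [b.zn_win h]
  exact ball_pd b.fit b.hR h (prpos b.sw k (b.win_pt h)) hs

theorem Base.pd_ann (b : Base L Cw fx F hz A B W Y sp fd τ) {k : A.ι} (h : k ∈ fd.U) :
    pd L A.hub (A.e k).c ⊆ A.hub.ann (Icc 0 sp.h) := pd_sub b.hL b.hC b.fit b.hk b.hR h

theorem Base.zn_port (b : Base L Cw fx F hz A B W Y sp fd τ) {j : J} (h : (sp.l j).k = Kind.pt)
    (s : ℝ) : W.zn A s (fd.m j) = closedBall (sp.l j).c (W.pr (fd.m j) * Real.exp s) := by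
  rw [l_eq b.fit] at h ⊢; exact zn_pt h _ _ _

open Classical in
theorem Base.zn_ring (b : Base L Cw fx F hz A B W Y sp fd τ) {j : J} (h : (sp.l j).k ≠ Kind.pt)
    (s : ℝ) : W.zn A s (fd.m j) = (sp.l j).ann (Icc (if fd.m j = A.H then 0 else -s) s) := by
  rw [l_eq b.fit] at h ⊢; exact zn_loop h _ _ _

theorem Base.win_port (b : Base L Cw fx F hz A B W Y sp fd τ) {j : J} (h : (sp.l j).k = Kind.pt) :
    fd.win A j = ∅ :=
  if_neg fun e => b.hp (by rw [← l_hub b.fit e]; exact h)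

theorem Base.thin_eq (b : Base L Cw fx F hz A B W Y sp fd τ) {j : J} (h : (sp.l j).k ≠ Kind.pt)
    (t t' : ℝ) : thin A W.pr fd j t t' = thn A W fd j t t' := by
  unfold thin thn
  rw [b.zn_ring h, l_eq b.fit]
  exact congrArg _ (iUnion₂_congr fun k hk => (b.zn_win (win_hub hk).2 _).symm)

theorem Base.thn_port (b : Base L Cw fx F hz A B W Y sp fd τ) {j : J} (h : (sp.l j).k = Kind.pt)
    (t t' : ℝ) : thn A W fd j t t' = closedBall (sp.l j).c (W.pr (fd.m j) * Real.exp t) := by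
  unfold thn
  rw [b.zn_port h, b.win_port h]; simp

theorem Base.zn_near (b : Base L Cw fx F hz A B W Y sp fd τ) {j : J} {k : A.ι}
    (h : k = fd.m j ∨ k ∈ fd.win A j) {s : ℝ} (hs : s ≤ sp.h) :
    W.zn A s k ⊆ (sp.l j).near sp.h sp.r1 := by
  have h1 : sp.h ≤ 1 := b.fit.kit.2.1
  have h2 := b.hpos
  rcases h with rfl | h
  · refine (zn_sub b.sw _ hs).trans ?_
    by_cases hk : (sp.l j).k = Kind.pt
    · rw [b.zn_port hk, End.near_pt hk]
      refine closedBall_subset_closedBall ?_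
      have a1 := (b.fit.port j hk).2.2.2.2
      have a2 := b.fit.num.2.2
      have a3 : Real.exp sp.h ≤ 8 :=
        (Real.exp_le_exp.2 h1).trans (by linarith [Real.exp_one_lt_d9])
      have a4 := prpos b.sw (fd.m j) (by rwa [← l_eq b.fit])
      nlinarith
    · rw [b.zn_ring hk, End.near_loop hk]
      refine End.ann_mono (Icc_subset_Icc ?_ le_rfl)
      split_ifs <;> linarith
  · obtain ⟨a1, a2⟩ := win_hub h
    rw [l_hub b.fit a1, End.near_loop b.hp]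
    exact ((b.zn_pd a2 (by linarith)).trans (b.pd_ann a2)).trans
      (End.ann_mono (Icc_subset_Icc (by linarith) le_rfl))

theorem Base.w_eq (b : Base L Cw fx F hz A B W Y sp fd τ) {j : J} {k : A.ι}
    (h : k = fd.m j ∨ k ∈ fd.win A j) : (A.e k).w = (sp.l j).w := by
  rcases h with rfl | h
  · rw [l_eq b.fit]
  · exact win_w b.fit h

/-- thin zones seen from one end are disjoint -/
theorem Base.zn_disj (b : Base L Cw fx F hz A B W Y sp fd τ) (j : J) : ∃ t0 > 0, ∀ k k',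
    (k = fd.m j ∨ k ∈ fd.win A j) → (k' = fd.m j ∨ k' ∈ fd.win A j) →
    ∀ z ∈ W.zn A t0 k, z ∈ W.zn A t0 k' → k = k' := by
  have : ∀ p : A.ι × A.ι, ∃ t0 > 0, ∀ s, 0 < s → s ≤ t0 → (p.1 = fd.m j ∨ p.1 ∈ fd.win A j) →
      (p.2 = fd.m j ∨ p.2 ∈ fd.win A j) → ∀ z ∈ W.zn A s p.1, z ∈ W.zn A s p.2 → p.1 = p.2 := by
    rintro ⟨k, k'⟩
    by_cases h : (k = fd.m j ∨ k ∈ fd.win A j) ∧ (k' = fd.m j ∨ k' ∈ fd.win A j) ∧ k ≠ k'
    · have d := ct_disj b.sw b.h0 b.ok b.gap h.2.2 ((b.w_eq h.1).trans (b.w_eq h.2.1).symm)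
      obtain ⟨U, u, V, v, e⟩ := Filter.disjoint_iff.1 (disjoint_nhdsSet_nhdsSet
        (isCompact_ct _ _).isClosed (isCompact_ct _ _).isClosed d)
      obtain ⟨t1, p1, q1⟩ := zn_ev (b.ok k) (prpos b.sw k) (k = A.H) u
      obtain ⟨t2, p2, q2⟩ := zn_ev (b.ok k') (prpos b.sw k') (k' = A.H) v
      exact ⟨min t1 t2, lt_min p1 p2, fun s _ c _ _ z x y => (disjoint_left.1 e
        (q1 s (c.trans (min_le_left _ _)) x) (q2 s (c.trans (min_le_right _ _)) y)).elim⟩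
    · exact ⟨1, one_pos, fun s _ _ x y _ _ _ => by_contra fun e => h ⟨x, y, e⟩⟩
  obtain ⟨t0, p, q⟩ := small this
  exact ⟨t0, p, fun k k' => q t0 p le_rfl (k, k')⟩

/-- in thin zones the surface is near the sheet -/
theorem Base.zn_close (b : Base L Cw fx F hz A B W Y sp fd τ) (j : J) {e : ℝ} (e0 : 0 < e) :
    ∃ t0 > 0, ∀ k, (k = fd.m j ∨ k ∈ fd.win A j) →
      ∀ z ∈ W.zn A t0 k, ‖F (W.cp k) z - (sp.l j).w z‖ < e := by
  have : ∀ k, ∃ t0 > 0, ∀ s, 0 < s → s ≤ t0 → (k = fd.m j ∨ k ∈ fd.win A j) →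
      ∀ z ∈ W.zn A s k, ‖F (W.cp k) z - (sp.l j).w z‖ < e := by
    intro k
    by_cases h : k = fd.m j ∨ k ∈ fd.win A j
    · have u : {z | ‖F (W.cp k) z - (sp.l j).w z‖ < e} ∈ 𝓝ˢ (ct (A.e k) (W.pr k)) := by
        refine mem_nhdsSet_iff_forall.2 fun z hz => ?_
        have c1 := (b.zone.an j z (b.zn_near h b.hpos.le (ct_sub b.sw b.ok k le_rfl hz))).continuousAt
        have c2 : ContinuousAt (fun z => ‖F (W.cp k) z - (sp.l j).w z‖) z :=
          ((b.cF _).continuousAt.sub c1).norm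
        refine c2.eventually (eventually_lt_nhds ?_)
        beta_reduce
        rw [(on_ct b.sw b.h0 b.ok k hz).2, b.w_eq h]; simpa using e0
      obtain ⟨t1, p1, q1⟩ := zn_ev (b.ok k) (prpos b.sw k) (k = A.H) u
      exact ⟨t1, p1, fun s _ c _ z x => q1 s c x⟩
    · exact ⟨1, one_pos, fun s _ _ x => (h x).elim⟩
  obtain ⟨t0, p, q⟩ := small this
  exact ⟨t0, p, fun k => q t0 p le_rfl k⟩

/-- the curve side of the zone of an end -/
def cs (sp : Sp J) (j : J) : Set ℂ := (sp.l j).near sp.h sp.r1 ∩ {z | (sp.l j).side z}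

/-- The frame at the end `j`, for any surface `F'` near `F` and any `K` equal to it in the tube. -/
theorem Base.kd [Finite I] (b : Base L Cw fx F hz A B W Y sp fd τ) (j : J) :
    ∃ t0 > 0, ∀ t t', 0 < t → t ≤ t0 → 0 < t' → t' ≤ t0 → ∃ R0 > 0, R0 ≤ τ ∧ ∀ R, R ≤ R0 →
      ∀ (F' : I → ℂ → ℂ) (K : Set E), (∀ i, ∀ z ∈ fx.dom i, ‖F' i z - F i z‖ ≤ R) →
        K ∩ sp.T τ j = fx.S F' ∩ sp.T τ j → ∃ N : ℂ → ℂ,
          (∀ z ∈ W.zn A (2 * t) (fd.m j), N z = F' (W.cp (fd.m j)) z - (sp.l j).w z) ∧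
          (∀ k ∈ fd.win A j, ∀ z ∈ W.zn A (2 * t') k, N z = F' (W.cp k) z - (sp.l j).w z) ∧
          ∀ Z, Z ⊆ (sp.l j).near sp.h sp.r1 → Z ⊆ cthickening R0 (cs sp j) →
            KD K (sp.l j).w N Z (thn A W fd j t t') (thn A W fd j (2 * t) (2 * t')) R := by
  classical
  have τ0 := b.zone.pos
  obtain ⟨t1, p1, q1⟩ := b.zn_disj j
  obtain ⟨t2, p2, q2⟩ := b.zn_close j (half_pos τ0)
  have h0 := b.h0
  have h1 := b.hpos
  refine ⟨min (min t1 t2) (min hz sp.h) / 2, by positivity, fun t t' a1 a2 a3 a4 => ?_⟩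
  have m1 := min_le_left (min t1 t2) (min hz sp.h)
  have m2 := min_le_right (min t1 t2) (min hz sp.h)
  have m3 := min_le_left t1 t2
  have m4 := min_le_right t1 t2
  have m5 := min_le_left hz sp.h
  have m6 := min_le_right hz sp.h
  set s : A.ι → ℝ := fun k => if k = fd.m j then t else t' with hs
  have s0 : ∀ k, 0 < s k ∧ 2 * s k ≤ min (min t1 t2) (min hz sp.h) := fun k => by
    simp only [hs]; split_ifs <;> constructor <;> linarith
  have s1 : s (fd.m j) = t := if_pos rfl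
  have s2 : ∀ k ∈ fd.win A j, s k = t' := fun k h => if_neg (b.win_ne h)
  have th : ∀ (c : ℝ) (z : ℂ), z ∈ thn A W fd j (c * t) (c * t') ↔
      ∃ k, (k = fd.m j ∨ k ∈ fd.win A j) ∧ z ∈ W.zn A (c * s k) k := fun c z => by
    simp only [thn, mem_union, mem_iUnion]
    constructor
    · rintro (h | ⟨k, h, h'⟩)
      · exact ⟨_, Or.inl rfl, s1 ▸ h⟩
      · exact ⟨k, Or.inr h, (s2 k h).symm ▸ h'⟩
    · rintro ⟨k, rfl | h, h'⟩
      · exact Or.inl (s1 ▸ h')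
      · exact Or.inr ⟨k, h, s2 k h ▸ h'⟩
  obtain ⟨R1, r1, fr⟩ := st_frame I A.ι fx F (cs sp j) (sp.l j).w W.cp
    (fun k => {z | (k = fd.m j ∨ k ∈ fd.win A j) ∧
      z ∈ (A.e k).nearO (s k) (W.pr k * Real.exp (s k))}) b.cF
    ((End.isCompact_near (b.lok j) _ _).inter_right (End.isClosed_side _))
    (fun z h => (b.zone.an j z h.1).continuousAt)
    (fun k => isOpen_const.inter (End.isOpen_nearO (b.ok k) _ _)) (fun i z d h e => by
      obtain ⟨k, c1, c2⟩ := b.sw.contact (z, (sp.l j).w z) (PCS.mem_S.2 ⟨i, d, e.symm⟩)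
        (b.zone.mem j z h.1 h.2)
      have kk : k = fd.m j ∨ k ∈ fd.win A j := by
        by_contra n
        rw [not_or] at n
        exact disjoint_left.1 (b.zone.only j k n.1 n.2) ⟨c1, c2⟩ ⟨h.1, rfl⟩
      obtain ⟨c3, c4⟩ := on_ct b.sw h0 b.ok k c1
      refine ⟨k, by_contra fun n => b.gap _ _ n z c3 d ?_, kk,
        ct_nearO (b.ok k) (prpos b.sw k) (s0 k).1 c1⟩
      rw [c4, e]; exact c2.symm)
  refine ⟨min R1 (τ / 2), by positivity, (min_le_right _ _).trans (by linarith),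
    fun R hR F' K cl hK => ?_⟩
  have R1' := hR.trans (min_le_left _ _)
  have R2' := hR.trans (min_le_right _ _)
  obtain ⟨N, hN⟩ := piece (fun k => k = fd.m j ∨ k ∈ fd.win A j) (fun k => W.zn A (2 * s k) k)
    (fun k z => F' (W.cp k) z - (sp.l j).w z) fun k k' x y z u v =>
      q1 k k' x y z (zn_sub b.sw k (by linarith [(s0 k).2]) u)
        (zn_sub b.sw k' (by linarith [(s0 k').2]) v)
  refine ⟨N, fun z h => hN _ (Or.inl rfl) z (s1.symm ▸ h),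
    fun k h z h' => hN k (Or.inr h) z ((s2 k h).symm ▸ h'), fun Z z1 z2 => ⟨fun y y1 y2 y3 => ?_,
      fun z h => ?_⟩⟩
  · have yS : y ∈ fx.S F' :=
      (hK ▸ (⟨y1, z1 y2, y3.trans (by linarith)⟩ : y ∈ K ∩ sp.T τ j) : y ∈ fx.S F' ∩ sp.T τ j).1
    obtain ⟨k, ⟨kk, u⟩, d, e⟩ := fr F' (fun i z h => (cl i z h).trans R1') y yS
      (cthickening_mono (min_le_left _ _) _ (z2 y2)) (y3.trans R1')
    have v : y.1 ∈ W.zn A (s k) k := by
      have u' := End.nearO_subset_near _ le_rfl le_rfl u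
      by_cases hk : (A.e k).k = Kind.pt
      · rw [End.near_pt hk] at u'
        rwa [Wd.zn, zn_pt hk]
      · rw [End.near_loop hk] at u'
        rw [Wd.zn, zn_loop hk]
        refine ⟨u'.1, ?_, u'.2.2⟩
        split_ifs with hh
        · subst hh; exact hub_dep b.sw b.ok b.hk d u'.1
        · exact u'.2.1
    refine ⟨?_, ?_⟩
    · have := (th 1 y.1).2 ⟨k, kk, by rwa [one_mul]⟩
      rwa [one_mul, one_mul] at this
    · rw [hN k kk y.1 (zn_sub b.sw k (by linarith [(s0 k).1]) v), e]; ring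
  · obtain ⟨k, kk, u⟩ := (th 2 z).1 h
    have d := b.sw.dom k (zn_sub b.sw k (by linarith [(s0 k).2]) u)
    have e : (sp.l j).w z + N z = F' (W.cp k) z := by rw [hN k kk z u]; ring
    have c1 := q2 k kk z (zn_sub b.sw k (by linarith [(s0 k).2]) u)
    have c2 := cl _ z d
    have c3 := norm_sub_le_norm_sub_add_norm_sub (F' (W.cp k) z) (F (W.cp k) z) ((sp.l j).w z)
    rw [e]
    exact (hK.symm ▸ (⟨PCS.mem_S.2 ⟨_, d, rfl⟩, b.zn_near kk (by linarith [(s0 k).2]) u,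
      show ‖F' (W.cp k) z - (sp.l j).w z‖ ≤ τ by linarith⟩ :
        (z, F' (W.cp k) z) ∈ fx.S F' ∩ sp.T τ j) : (z, F' (W.cp k) z) ∈ K ∩ sp.T τ j).1

/-- the collar on the outer side of a loop -/
theorem Base.collar (b : Base L Cw fx F hz A B W Y sp fd τ) {j : J} (hk : (sp.l j).k ≠ Kind.pt)
    {R0 : ℝ} (r0 : 0 < R0) : ∃ a0 > 0, ∀ a, a ≤ a0 →
      AnalyticOnNhd ℂ (fd.mu j) ((sp.l j).ann (Icc (-a) sp.h)) ∧
      (∀ z ∈ (sp.l j).ann (Icc (-a) sp.h), fd.mu j z ≠ 0) ∧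
      (sp.l j).ann (Icc (-a) sp.h) ⊆ (sp.l j).near sp.h sp.r1 ∧
      (sp.l j).ann (Icc (-a) sp.h) ⊆ cthickening R0 (cs sp j) := by
  obtain ⟨r1, r2, -⟩ := b.fit.ring j hk
  have hr := (b.lok j).pos hk
  have h1 := b.hpos
  have c0 : (sp.l j).ann (Icc 0 sp.h) ⊆ cs sp j := fun z h => ⟨by
    rw [End.near_loop hk]; exact ⟨h.1, by linarith [h.2.1], h.2.2⟩,
    (End.side_iff hk hr h.1).2 h.2.1⟩
  have u : {z | AnalyticAt ℂ (fd.mu j) z ∧ fd.mu j z ≠ 0 ∧ z ∈ cthickening R0 (cs sp j)} ∈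
      𝓝ˢ (sp.l j).circ := by
    refine mem_nhdsSet_iff_forall.2 fun z hz => ?_
    obtain ⟨a1, a2⟩ := (End.mem_circ hr).1 hz
    have m : z ∈ (sp.l j).ann (Icc 0 sp.h) := ⟨a1, by rw [a2]; exact ⟨le_rfl, h1.le⟩⟩
    filter_upwards [(r1 z m).eventually_analyticAt, (r1 z m).continuousAt.eventually_ne (r2 z m),
      isOpen_thickening.mem_nhds (self_subset_thickening r0 _ (c0 m))] with x p q r
    exact ⟨p, q, thickening_subset_cthickening _ _ r⟩
  obtain ⟨δ, d0, d1⟩ := End.shrink (b.lok j) u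
  refine ⟨min δ sp.h, by positivity, fun a ha => ?_⟩
  have key : ∀ z ∈ (sp.l j).ann (Icc (-a) sp.h),
      AnalyticAt ℂ (fd.mu j) z ∧ fd.mu j z ≠ 0 ∧ z ∈ cthickening R0 (cs sp j) := fun z h => by
    rcases le_total 0 ((sp.l j).dep z) with p | p
    · have m : z ∈ (sp.l j).ann (Icc 0 sp.h) := ⟨h.1, p, h.2.2⟩
      exact ⟨r1 z m, r2 z m, self_subset_cthickening _ (c0 m)⟩
    · refine d1 δ 0 le_rfl d0.le ?_
      rw [End.near_loop hk]
      exact ⟨h.1, by linarith [h.2.1, min_le_left δ sp.h], by linarith⟩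
  refine ⟨fun z h => (key z h).1, fun z h => (key z h).2.1, ?_, fun z h => (key z h).2.2⟩
  rw [End.near_loop hk]
  exact End.ann_mono (Icc_subset_Icc (by linarith [min_le_right δ sp.h]) le_rfl)

/-- the discs of the ports which belong to the fit -/
def PD (L : ℝ) (A : Cv) (sp : Sp J) (fd : FD J A.ι) (k : A.ι) (D : Set ℂ) : Prop :=
  (k ∈ fd.U ∧ D = pd L A.hub (A.e k).c) ∨
    ∃ j, fd.m j = k ∧ (sp.l j).k = Kind.pt ∧ D = closedBall (sp.l j).c sp.r1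

theorem Base.PD_pt (b : Base L Cw fx F hz A B W Y sp fd τ) {k : A.ι} {D : Set ℂ}
    (h : PD L A sp fd k D) : (A.e k).k = Kind.pt := by
  rcases h with h | ⟨j, rfl, h, -⟩
  · exact b.win_pt h.1
  · rwa [← l_eq b.fit]

theorem Base.PD_ball (b : Base L Cw fx F hz A B W Y sp fd τ) {k : A.ι} {D : Set ℂ}
    (h : PD L A sp fd k D) : ∃ r, D = closedBall (A.e k).c r := by
  rcases h with h | ⟨j, rfl, -, h⟩
  · exact ⟨_, h.2⟩
  · exact ⟨_, by rwa [← l_eq b.fit]⟩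

theorem Base.zn_PD (b : Base L Cw fx F hz A B W Y sp fd τ) {k : A.ι} {D : Set ℂ}
    (h : PD L A sp fd k D) {s : ℝ} (hs : s ≤ sp.h) : W.zn A s k ⊆ D := by
  rcases h with ⟨h, rfl⟩ | ⟨j, rfl, h, rfl⟩
  · exact b.zn_pd h (by linarith [b.fit.kit.2.1])
  · rw [← End.near_pt h sp.h]; exact b.zn_near (Or.inl rfl) hs

theorem analyticAt_chart {j : J} {z : ℂ} (h : AnalyticAt ℂ (fd.mu j) z) :
    AnalyticAt ℂ (fd.chart A j) z :=
  h.mul (Finset.analyticAt_fun_prod _ fun _ _ => by fun_prop)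

/-- the direction of a port is bounded below -/
theorem Base.lam_lb (b : Base L Cw fx F hz A B W Y sp fd τ) {k : A.ι} {D : Set ℂ}
    (h : PD L A sp fd k D) : ∃ m > 0, ∀ z ∈ D, z ≠ (A.e k).c → m ≤ ‖A.lam k z‖ := by
  rcases h with ⟨h, rfl⟩ | ⟨j, rfl, h, rfl⟩
  · obtain ⟨j, hj⟩ := b.fit.hub
    obtain ⟨a, lg, -, g⟩ := (b.fit.win k h).2.2.2.2.2.2.2.2.2.2 j hj
    have hl := l_hub b.fit hj
    have c : ContinuousOn (fd.chart A j) (pd L A.hub (A.e k).c) := fun z hz =>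
      (analyticAt_chart ((b.fit.ring j (hl ▸ b.hp)).1 z
        (hl ▸ b.pd_ann h hz))).continuousAt.continuousWithinAt
    obtain ⟨M, hM⟩ := (isCompact_closedBall _ _).exists_bound_of_continuousOn c
    refine ⟨Real.exp (a - 1) / (|M| + 1), by positivity, fun z hz n => ?_⟩
    obtain ⟨g1, g2⟩ := g z hz
    have g3 := congrArg norm (g2 n)
    rw [norm_mul, Complex.norm_exp] at g3
    have g4 : 1 / (8 * L) ≤ 1 := by
      rw [div_le_one (by linarith [b.hL])]; linarith [b.hL]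
    have g5 : a - 1 ≤ (a + Real.pi / 4 * Complex.I + lg z : ℂ).re := by
      have := (abs_le.1 (Complex.abs_re_le_norm (lg z))).1
      simp; linarith
    have g6 := Real.exp_le_exp.2 g5
    have g7 := (hM z hz).trans (le_abs_self M)
    rw [div_le_iff₀ (by positivity)]
    nlinarith [norm_nonneg (A.lam k z)]
  · obtain ⟨g, g1, g2⟩ := (b.fit.port j h).1
    have r1 : 0 < sp.r1 := by linarith [b.fit.num.2.2.1, b.fit.num.2.2.2]
    obtain ⟨x, hx, hm⟩ := (isCompact_closedBall (sp.l j).c sp.r1).exists_isMinOn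
      ⟨_, mem_closedBall_self r1.le⟩ g1.continuousOn.norm
    have p := norm_pos_iff.2 (g2 x hx).1
    refine ⟨‖g x‖ / sp.r1, by positivity, fun z hz n => ?_⟩
    rw [← l_eq b.fit] at n
    rw [(g2 z hz).2 n, norm_div]
    have := norm_pos_iff.2 (sub_ne_zero.2 n)
    exact div_le_div₀ (norm_nonneg _) (hm hz) this (mem_closedBall_iff_norm.1 hz)

end frame

/-- the wall at a port without the size condition; `e` is a lower bound for the profile -/
def PortL (N lam : ℂ → ℂ) (p : ℂ) (ρ : ℝ) (D : Set ℂ) (o t e : ℝ) (act : Prop) : Prop :=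
  ∃ (Eg : Bool → ℝ → ℝ) (u : Bool → ℂ → ℂ) (y0 : ℝ), y0 ≤ 0 ∧ (act → y0 = 0) ∧
    (∀ i, AnalyticOnNhd ℂ (u i) D ∧ (∀ z ∈ D, ‖u i z - 1‖ ≤ o ∧ ‖(z - p) * deriv (u i) z‖ ≤ o) ∧
      Stp (Eg i) (Iic (2 * t)) (t / 64) ∧ (∀ y ≤ 2 * t, 0 ≤ Eg i y) ∧ ∀ y ≤ y0, Eg i y = 0) ∧
    N p = 0 ∧ (∀ z ∈ closedBall p (ρ * Real.exp (2 * t)), z ≠ p →
      N z = (∑ i, (Eg i (Real.log (‖z - p‖ / ρ)) : ℂ) * u i z) * lam z) ∧
    e ≤ ∑ i, Eg i (t / 2)

theorem PortL.congr {N N' lam : ℂ → ℂ} {p : ℂ} {ρ : ℝ} {D : Set ℂ} {o t e : ℝ} {act act' : Prop}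
    (h : PortL N lam p ρ D o t e act) (hρ : 0 < ρ) (ha : act' → act)
    (hN : ∀ z ∈ closedBall p (ρ * Real.exp (2 * t)), N' z = N z) :
    PortL N' lam p ρ D o t e act' := by
  obtain ⟨Eg, u, y0, a1, a2, a3, a4, a5, a6⟩ := h
  exact ⟨Eg, u, y0, a1, fun a => a2 (ha a), a3,
    (hN p (mem_closedBall_self (by positivity))).trans a4,
    fun z x y => (hN z x).trans (a5 z x y), a6⟩

theorem portW_of {lam : ℂ → ℂ} {p : ℂ} {ρ r m e : ℝ} (hρ : 0 < ρ) (m0 : 0 < m) (e0 : 0 < e)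
    (hm : ∀ z ∈ closedBall p r, z ≠ p → m ≤ ‖lam z‖) : ∃ R0 > 0, ∀ R, 0 < R → R ≤ R0 →
      ∀ (N : ℂ → ℂ) (o t : ℝ) (act : Prop), PortL N lam p ρ (closedBall p r) o t e act →
        PortW N lam p ρ (closedBall p r) o t R act := by
  refine ⟨e * m / (100 * (1 + |r| / ρ)), by positivity, fun R r0 r1 N o t act h => ?_⟩
  obtain ⟨Eg, u, y0, a1, a2, a3, a4, a5, a6⟩ := h
  refine ⟨Eg, u, y0, a1, a2, a3, a4, a5, fun z x y => ?_⟩
  rw [le_div_iff₀ (by positivity)] at r1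
  have b1 : ‖z - p‖ / ρ ≤ |r| / ρ := by
    gcongr; exact (mem_closedBall_iff_norm.1 x).trans (le_abs_self r)
  calc 100 * R * (1 + ‖z - p‖ / ρ) ≤ 100 * R * (1 + |r| / ρ) := by gcongr
    _ ≤ e * m := by linarith
    _ ≤ _ := mul_le_mul a6 (hm z x y) m0.le (e0.le.trans a6)

/-! ### profiles -/

theorem PR_diff {Ef : ℝ → ℝ} {two : Prop} (h : SH.PR Ef two) (y : ℝ) : DifferentiableAt ℝ Ef y :=
  h.flat.1.differentiable (by simp) y

/-- signs and steepness of a profile near `0` -/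
theorem PR_small {Ef : ℝ → ℝ} {two : Prop} (h : SH.PR Ef two) (C : ℝ) : ∃ t0 > 0, ∀ y, |y| ≤ t0 →
    C * |Ef y| ≤ |y| * deriv Ef y ∧ (0 < y → 0 < Ef y) ∧ (two → y < 0 → Ef y < 0) := by
  have h2 : ∀ᶠ y in 𝓝 (0 : ℝ), two → y < 0 → Ef y < 0 := by
    by_cases a : two
    · exact (eventually_nhdsWithin_iff.1 (h.neg a)).mono fun y p _ q => p q
    · exact Eventually.of_forall fun y p => (a p).elim
  obtain ⟨ε, e0, e⟩ := Metric.eventually_nhds_iff.1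
    ((h.steep C).and ((eventually_nhdsWithin_iff.1 h.pos).and h2))
  exact ⟨ε / 2, half_pos e0, fun y a => e (by rw [Real.dist_eq, sub_zero]; linarith)⟩

theorem PR_sign {Ef : ℝ → ℝ} {two : Prop} (h : SH.PR Ef two) {y : ℝ} (p : 0 < y → 0 < Ef y)
    (q : two → y < 0 → Ef y < 0) : 0 ≤ y * Ef y := by
  rcases lt_trichotomy y 0 with a | a | a
  · by_cases b : two
    · exact (mul_pos_of_neg_of_neg a (q b a)).le
    · rw [h.one b y a.le]; simp
  · simp [a]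
  · exact (mul_pos a (p a)).le

theorem PR_deriv0 {Ef : ℝ → ℝ} {two : Prop} (h : SH.PR Ef two) : deriv Ef 0 = 0 := by
  simpa using h.flat.2 1

/-- a profile is steep at every small scale -/
theorem PR_stp {Ef : ℝ → ℝ} {two : Prop} (h : SH.PR Ef two) {C y t : ℝ} (hC : 0 < C)
    (a : 2 * C * |Ef y| ≤ |y| * deriv Ef y) (hy : |y| ≤ 2 * t) : |Ef y| ≤ t / C * deriv Ef y := by
  rcases eq_or_ne y 0 with rfl | n
  · simp [PCS.PR_zero h, PR_deriv0 h]
  · have p := abs_pos.2 n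
    have d : 0 ≤ deriv Ef y := by
      by_contra c
      nlinarith [abs_nonneg (Ef y), mul_nonneg hC.le (abs_nonneg (Ef y))]
    rw [div_mul_eq_mul_div, le_div_iff₀ hC]
    nlinarith

theorem stp_zero (S : Set ℝ) (t : ℝ) : Stp (fun _ => 0) S t := fun _ _ => by simp

theorem PR_stp_one {Ef : ℝ → ℝ} {two : Prop} (h : SH.PR Ef two) (h2 : ¬ two) : ∃ t0 > 0,
    ∀ t, 0 < t → t ≤ t0 → Stp Ef (Iic (2 * t)) (t / 64) ∧ (∀ y ≤ 2 * t, 0 ≤ Ef y) ∧
      ∀ y, 0 < y → y ≤ 2 * t → 0 < Ef y := by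
  obtain ⟨t0, p, q⟩ := PR_small h (2 * 64)
  refine ⟨t0 / 2, half_pos p, fun t a b => ⟨fun y c => ⟨PR_diff h y, ?_⟩, fun y c => ?_,
    fun y c d => (q y (by rw [abs_of_pos c]; linarith)).2.1 c⟩⟩
  · rcases lt_or_ge y 0 with d | d
    · have : Ef =ᶠ[𝓝 y] fun _ => 0 := (eventually_lt_nhds d).mono fun x e => h.one h2 x e.le
      simp [this.deriv_eq, h.one h2 y d.le]
    · have c : y ≤ 2 * t := c
      exact PR_stp h (by norm_num) (q y (by rw [abs_of_nonneg d]; linarith)).1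
        (by rwa [abs_of_nonneg d])
  · rcases le_or_gt y 0 with d | d
    · exact (h.one h2 y d).ge
    · exact ((q y (by rw [abs_of_pos d]; linarith)).2.1 d).le

/-! ### directions -/

theorem NDir.ne {ι : Type} {l : End} {U : Finset ι} {p : ι → ℂ} {u : ℂ → ℂ} {o CD : ℝ} {z : ℂ}
    (h : NDir l U p u o CD z) : u z ≠ 0 := fun e => by simpa [e] using h.2.1

theorem NDir.mono {ι : Type} {l : End} {U : Finset ι} {p : ι → ℂ} {u : ℂ → ℂ} {o o' CD : ℝ} {z : ℂ}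
    (h : NDir l U p u o CD z) (ho : o ≤ o') : NDir l U p u o' CD z :=
  ⟨h.1, h.2.1, h.2.2.1.trans (mul_le_mul_of_nonneg_right ho h.2.1.le),
    h.2.2.2.1.trans (mul_le_mul_of_nonneg_right ho (norm_nonneg _)), h.2.2.2.2⟩

theorem NDir.nhds {ι : Type} {l : End} {U : Finset ι} {p : ι → ℂ} {u : ℂ → ℂ} {o o' CD : ℝ} {z : ℂ}
    (h : NDir l U p u o CD z) (ho : o < o') (hC : 0 < CD) :
    ∀ᶠ x in 𝓝 z, NDir l U p u o' (2 * CD) x := by
  classical
  obtain ⟨f, f0, f1, f2, f3⟩ : ∃ f : ℂ → ℝ, Continuous f ∧ f z ≤ 1 ∧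
      (∀ k ∈ U, f z ≤ ‖(z - l.c) / l.r - hx l (p k)‖ + l.dep (p k)) ∧ ∀ x s, s ≤ 1 →
        (∀ k ∈ U, s ≤ ‖(x - l.c) / l.r - hx l (p k)‖ + l.dep (p k)) → s ≤ f x := by
    clear h
    induction U using Finset.induction_on with
    | empty => exact ⟨fun _ => 1, continuous_const, le_rfl, by simp, fun _ _ a _ => a⟩
    | insert k U _ ih =>
      obtain ⟨f, f0, f1, f2, f3⟩ := ih
      refine ⟨fun x => min (f x) (‖(x - l.c) / l.r - hx l (p k)‖ + l.dep (p k)), by fun_prop,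
        (min_le_left _ _).trans f1, fun k' hk => ?_, fun x s a b => le_min
          (f3 x s a fun k' hk => b k' (Finset.mem_insert_of_mem hk))
          (b k (Finset.mem_insert_self _ _))⟩
      rcases Finset.mem_insert.1 hk with rfl | hk
      · exact min_le_right _ _
      · exact (min_le_left _ _).trans (f2 k' hk)
  have n := norm_pos_iff.2 (NDir.ne h)
  obtain ⟨a1, a2, a3, a4, a5⟩ := h
  have c1 := a1.continuousAt
  have c2 := a1.deriv.continuousAt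
  have e1 : ∀ᶠ x in 𝓝 z, 0 < (u x).re :=
    continuousAt_const.eventually_lt (by fun_prop) a2
  have e2 : ∀ᶠ x in 𝓝 z, |(u x).im| < o' * (u x).re :=
    ContinuousAt.eventually_lt (by fun_prop) (by fun_prop) (by nlinarith)
  have e3 : ∀ᶠ x in 𝓝 z, |((x - l.c) * deriv u x).re| < o' * ‖u x‖ :=
    ContinuousAt.eventually_lt (by fun_prop) (by fun_prop) (by nlinarith)
  have e4 : ∀ᶠ x in 𝓝 z, f x * ‖(x - l.c) * deriv u x‖ < 2 * CD * ‖u x‖ :=
    ContinuousAt.eventually_lt (by fun_prop) (by fun_prop) (by nlinarith [a5 _ f1 f2])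
  filter_upwards [a1.eventually_analyticAt, e1, e2, e3, e4] with x b1 b2 b3 b4 b5
  exact ⟨b1, b2, b3.le, b4.le, fun s c d =>
    (mul_le_mul_of_nonneg_right (f3 x s c d) (norm_nonneg _)).trans b5.le⟩

theorem NDir.ring {ι : Type} {l : End} (ok : l.ok) (hk : l.k ≠ Kind.pt) {U : Finset ι} {p : ι → ℂ}
    {u : ℂ → ℂ} {o o' CD : ℝ} (h : ∀ z ∈ l.circ, NDir l U p u o CD z) (ho : o < o')
    (hC : 0 < CD) : ∃ t0 > 0, ∀ z ∈ l.ann (Icc (-t0) t0), NDir l U p u o' (2 * CD) z := by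
  obtain ⟨δ, d0, d1⟩ := End.shrink ok (N := {x | NDir l U p u o' (2 * CD) x})
    (mem_nhdsSet_iff_forall.2 fun z hz => NDir.nhds (h z hz) ho hC)
  refine ⟨δ, d0, fun z hz => d1 δ 0 le_rfl d0.le ?_⟩
  rwa [End.near_loop hk]

/-! ### descriptions -/

open Classical in
/-- the wall `N` along a loop is a sum of two steep walls with nearly positive directions -/
def RingL {ι : Type} (l : End) (U : Finset ι) (p : ι → ℂ) (hub : Prop) (N ch : ℂ → ℂ)
    (t o CD : ℝ) : Prop :=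
  ∃ (Ef : Bool → ℝ → ℝ) (u : Bool → ℂ → ℂ),
    (∀ i, Stp (Ef i) (Icc (-(2 * t)) (2 * t)) (t / 4) ∧
      (∀ y ∈ Icc (-(2 * t)) (2 * t), 0 ≤ y * Ef i y ∧ (hub → y ≤ 0 → Ef i y = 0)) ∧
      ∀ z ∈ l.ann (Icc (-(2 * t)) (2 * t)), NDir l U p (u i) o CD z) ∧
    (∀ z ∈ l.ann (Icc (if hub then 0 else -(2 * t)) (2 * t)),
      N z * ch z = ∑ i, (Ef i (l.dep z) : ℂ) * u i z) ∧
    (¬ hub → ∀ y ∈ Ico (-t) 0, ∃ i, Ef i y ≠ 0)

/-- local form of the surface `F'` at the sites of a fit -/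
structure Loc {I J : Type} (L : ℝ) (A : Cv) (W : Wd I A.ι) (sp : Sp J) (fd : FD J A.ι)
    (F' : I → ℂ → ℂ) (V : Finset A.ι) (t o o' : ℝ) : Prop where
  ring : ∀ j, (sp.l j).k ≠ Kind.pt → RingL (sp.l j) (fd.win A j) (fun k => (A.e k).c)
    (fd.m j = A.H) (fun z => F' (W.cp (fd.m j)) z - (sp.l j).w z) (fd.chart A j) t o' (2 * fd.CD)
  port : ∀ k D, PD L A sp fd k D → PortL (fun z => F' (W.cp k) z - (A.e k).w z) (A.lam k)
    (A.e k).c (W.pr k) D o t (W.Ef k (t / 2)) (k ∈ V)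

theorem sum_ne {a : Bool → ℝ} {u : Bool → ℂ} (h1 : ∀ i, a i ≤ 0) (h2 : ∀ i, 0 < (u i).re)
    (h3 : ∃ i, a i ≠ 0) : ∑ i, (a i : ℂ) * u i ≠ 0 := by
  intro e
  have e := congrArg Complex.re e
  simp only [Fintype.sum_bool, Complex.add_re, Complex.re_ofReal_mul, Complex.zero_re] at e
  have p := fun i => mul_nonpos_of_nonpos_of_nonneg (h1 i) (h2 i).le
  obtain ⟨i, n⟩ := h3
  have q := mul_neg_of_neg_of_pos ((h1 i).lt_of_ne n) (h2 i)
  cases i <;> linarith [p true, p false]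

section desc

variable {I J : Type} {L : ℝ} {Cw : ℝ → ℝ} {fx : Fix I} {F : I → ℂ → ℂ} {hz : ℝ} {A B : Cv}
  {W : Wd I A.ι} {Y : Set E} {sp : Sp J} {fd : FD J A.ι} {τ : ℝ}

/-- The frame at a loop. -/
theorem Base.frame [Finite I] (b : Base L Cw fx F hz A B W Y sp fd τ) {j : J}
    (hk : (sp.l j).k ≠ Kind.pt) : ∃ t0 > 0, ∀ t t', 0 < t → t ≤ t0 → 0 < t' → t' ≤ t0 →
      ∃ R0 > 0, ∃ a0 > 0, R0 ≤ τ ∧ a0 ≤ t ∧ ∀ a, a ≤ a0 →
        AnalyticOnNhd ℂ (fd.mu j) ((sp.l j).ann (Icc (-a) sp.h)) ∧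
        (∀ z ∈ (sp.l j).ann (Icc (-a) sp.h), fd.mu j z ≠ 0) ∧ ∀ R, R ≤ R0 →
        ∀ (F' : I → ℂ → ℂ) (K : Set E), (∀ i, ∀ z ∈ fx.dom i, ‖F' i z - F i z‖ ≤ R) →
          K ∩ sp.T τ j = fx.S F' ∩ sp.T τ j → ∃ N : ℂ → ℂ,
          (∀ z ∈ W.zn A (2 * t) (fd.m j), N z = F' (W.cp (fd.m j)) z - (sp.l j).w z) ∧
          (∀ k ∈ fd.win A j, ∀ z ∈ closedBall (A.e k).c (W.pr k * Real.exp (2 * t')),
            N z = F' (W.cp k) z - (A.e k).w z) ∧
          KD K (sp.l j).w N ((sp.l j).ann (Icc (-a) sp.h)) (thin A W.pr fd j t t')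
            (thin A W.pr fd j (2 * t) (2 * t')) R := by
  obtain ⟨t0, p, q⟩ := b.kd j
  refine ⟨t0, p, fun t t' a1 a2 a3 a4 => ?_⟩
  obtain ⟨R0, r0, r1, q⟩ := q t t' a1 a2 a3 a4
  obtain ⟨a0, c0, c⟩ := b.collar hk r0
  refine ⟨R0, r0, min a0 t, lt_min c0 a1, r1, min_le_right _ _, fun a ha => ?_⟩
  obtain ⟨c1, c2, c3, c4⟩ := c a (ha.trans (min_le_left _ _))
  refine ⟨c1, c2, fun R hR F' K cl hK => ?_⟩
  obtain ⟨N, n1, n2, n3⟩ := q R hR F' K cl hK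
  refine ⟨N, n1, fun k h z x => ?_, ?_⟩
  · rw [win_w b.fit h]; exact n2 k h z (by rwa [b.zn_win (win_hub h).2])
  · rw [b.thin_eq hk, b.thin_eq hk]; exact n3 _ c3 c4

/-- the size condition at the ports -/
theorem Base.portW [Finite J] (b : Base L Cw fx F hz A B W Y sp fd τ) : ∃ t0 > 0, ∀ t, 0 < t →
    t ≤ t0 → ∃ R0 > 0, ∀ R, 0 < R → R ≤ R0 → ∀ k D, PD L A sp fd k D →
      ∀ (N : ℂ → ℂ) (o : ℝ) (act : Prop),
        PortL N (A.lam k) (A.e k).c (W.pr k) D o t (W.Ef k (t / 2)) act →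
        PortW N (A.lam k) (A.e k).c (W.pr k) D o t R act := by
  obtain ⟨t0, p, q⟩ := small (p := fun k y => 0 < W.Ef k y) fun k => by
    obtain ⟨t0, p, q⟩ := PR_small (b.sw.pr k) 0
    exact ⟨t0, p, fun y a c => (q y (by rwa [abs_of_pos a])).2.1 a⟩
  refine ⟨t0, p, fun t a c => ?_⟩
  have key : ∀ k D, PD L A sp fd k D → ∃ R0 > 0, ∀ R, 0 < R → R ≤ R0 →
      ∀ (N : ℂ → ℂ) (o : ℝ) (act : Prop),
        PortL N (A.lam k) (A.e k).c (W.pr k) D o t (W.Ef k (t / 2)) act →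
        PortW N (A.lam k) (A.e k).c (W.pr k) D o t R act := fun k D h => by
    obtain ⟨m, m0, hm⟩ := b.lam_lb h
    obtain ⟨r, rfl⟩ := b.PD_ball h
    obtain ⟨R0, r0, r1⟩ := portW_of (prpos b.sw k (b.PD_pt h)) m0
      (q (t / 2) (half_pos a) (by linarith) k) hm
    exact ⟨R0, r0, fun R x y N o act => r1 R x y N o t act⟩
  obtain ⟨R0, r0, r1⟩ := small (κ := A.ι ⊕ J) (p := fun i R => ∀ k D, (i = Sum.inl k ∧
      k ∈ fd.U ∧ D = pd L A.hub (A.e k).c ∨ ∃ j, i = Sum.inr j ∧ fd.m j = k ∧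
        (sp.l j).k = Kind.pt ∧ D = closedBall (sp.l j).c sp.r1) →
      ∀ (N : ℂ → ℂ) (o : ℝ) (act : Prop),
        PortL N (A.lam k) (A.e k).c (W.pr k) D o t (W.Ef k (t / 2)) act →
        PortW N (A.lam k) (A.e k).c (W.pr k) D o t R act) fun i => by
    rcases i with k | j
    · by_cases h : k ∈ fd.U
      · obtain ⟨R0, r0, r1⟩ := key k _ (Or.inl ⟨h, rfl⟩)
        refine ⟨R0, r0, fun R x y k' D e => ?_⟩
        rcases e with ⟨e, -, rfl⟩ | ⟨j, e, -⟩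
        · cases e; exact r1 R x y
        · cases e
      · refine ⟨1, one_pos, fun R x y k' D e => ?_⟩
        rcases e with ⟨e, e', -⟩ | ⟨j, e, -⟩
        · cases e; exact (h e').elim
        · cases e
    · by_cases h : (sp.l j).k = Kind.pt
      · obtain ⟨R0, r0, r1⟩ := key _ _ (Or.inr ⟨j, rfl, h, rfl⟩)
        refine ⟨R0, r0, fun R x y k' D e => ?_⟩
        rcases e with ⟨e, -⟩ | ⟨j, e, rfl, -, rfl⟩
        · cases e
        · cases e; exact r1 R x y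
      · refine ⟨1, one_pos, fun R x y k' D e => ?_⟩
        rcases e with ⟨e, -⟩ | ⟨j, e, -, e', -⟩
        · cases e
        · cases e; exact (h e').elim
  refine ⟨R0, r0, fun R x y k D h => ?_⟩
  rcases h with h | ⟨j, h⟩
  · exact r1 R x y (Sum.inl k) k D (Or.inl ⟨rfl, h⟩)
  · exact r1 R x y (Sum.inr j) k D (Or.inr ⟨j, rfl, h⟩)

/-- the exact wall at a port -/
theorem portL_exact (sw : SideWall fx F hz A B W) (h0 : 0 < hz) (ok : ∀ j, (A.e j).ok) :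
    ∃ t0 > 0, ∀ t, 0 < t → t ≤ t0 → ∀ k, (A.e k).k = Kind.pt → ∀ (D : Set ℂ) (o : ℝ)
      (act : Prop), 0 ≤ o → PortL (fun z => F (W.cp k) z - (A.e k).w z) (A.lam k) (A.e k).c
        (W.pr k) D o t (W.Ef k (t / 2)) act := by
  refine small fun k => ?_
  by_cases hk : (A.e k).k = Kind.pt
  · have h2 : ¬ ((A.e k).k ≠ Kind.pt ∧ k ≠ A.H) := fun a => a.1 hk
    obtain ⟨t0, p, q⟩ := PR_stp_one (sw.pr k) h2
    refine ⟨min t0 (hz / 2), by positivity, fun t a c _ D o act o0 => ?_⟩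
    obtain ⟨q1, q2, -⟩ := q t a (c.trans (min_le_left _ _))
    refine ⟨fun i => cond i (fun _ => 0) (W.Ef k), fun _ _ => 1, 0, le_rfl, fun _ => rfl,
      fun i => ⟨analyticOnNhd_const, fun z _ => by simpa using o0, ?_⟩, ?_, fun z x _ => ?_,
      by simp⟩
    · cases i
      · exact ⟨q1, q2, (sw.pr k).one h2⟩
      · exact ⟨stp_zero _ _, fun _ _ => le_rfl, fun _ _ => rfl⟩
    · exact sub_eq_zero.2 (on_ct sw h0 ok k (by
        rw [ct_pt hk]; exact mem_closedBall_self (prpos sw k hk).le)).2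
    · have m : z ∈ W.zn A hz k := zn_sub sw k (s := 2 * t)
        (by linarith [min_le_right t0 (hz / 2)]) (by rwa [Wd.zn, zn_pt hk])
      simp [sw.exact k z m, wl_dep_pt hk]
  · exact ⟨1, one_pos, fun _ _ _ a => (hk a).elim⟩

/-- the exact wall along a loop -/
theorem Base.ringL_exact (b : Base L Cw fx F hz A B W Y sp fd τ) {j : J}
    (hk : (sp.l j).k ≠ Kind.pt) {o : ℝ} (o0 : 0 < o) : ∃ t0 > 0, ∀ t, 0 < t → t ≤ t0 →
      RingL (sp.l j) (fd.win A j) (fun k => (A.e k).c) (fd.m j = A.H)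
        (fun z => F (W.cp (fd.m j)) z - (sp.l j).w z) (fd.chart A j) t o (2 * fd.CD) := by
  obtain ⟨t1, p1, q1⟩ := NDir.ring (b.lok j) hk (b.fit.ring j hk).2.2.1 o0
    (by linarith [b.fit.num.2.1])
  have pr := b.sw.pr (fd.m j)
  obtain ⟨t2, p2, q2⟩ := PR_small pr (2 * 4)
  have h0 := b.h0
  have hk' : (A.e (fd.m j)).k ≠ Kind.pt := by rwa [← l_eq b.fit]
  refine ⟨min (min t1 t2) hz / 2, by positivity, fun t a c => ?_⟩
  have m1 := min_le_left (min t1 t2) hz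
  have m2 := min_le_right (min t1 t2) hz
  have m3 := min_le_left t1 t2
  have m4 := min_le_right t1 t2
  have q3 : ∀ y ∈ Icc (-(2 * t)) (2 * t), |y| ≤ t2 := fun y h => by
    rw [abs_le]; constructor <;> linarith [h.1, h.2]
  refine ⟨fun i => cond i (fun _ => 0) (W.Ef (fd.m j)),
    fun _ z => A.lam (fd.m j) z * fd.chart A j z, fun i => ⟨?_, ?_, fun z h => q1 z
      (End.ann_mono (Icc_subset_Icc (by linarith) (by linarith)) h)⟩, fun z h => ?_,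
    fun n y h => ⟨false, ((q2 y (q3 y ⟨by linarith [h.1], by linarith [h.2]⟩)).2.2 ⟨hk', n⟩ h.2).ne⟩⟩
  · cases i
    · exact fun y h => ⟨PR_diff pr y, PR_stp pr (by norm_num) (q2 y (q3 y h)).1 (abs_le.2 h)⟩
    · exact stp_zero _ _
  · cases i
    · exact fun y h => ⟨PR_sign pr (q2 y (q3 y h)).2.1 (q2 y (q3 y h)).2.2,
        fun e => pr.one (fun x => x.2 e) y⟩
    · exact fun y h => ⟨by simp, fun _ _ => rfl⟩
  · have m : z ∈ W.zn A hz (fd.m j) := zn_sub b.sw _ (s := 2 * t) (by linarith)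
      (by rwa [b.zn_ring hk])
    have := b.sw.exact _ z m
    rw [wl_loop hk', ← l_eq b.fit] at this
    simp only [this, Fintype.sum_bool, cond]
    push_cast; ring

end desc

/-- The descriptions from the local form of a surface `F'` near `F`. -/
theorem Base.desc {I J : Type} [Finite I] [Finite J] {ab : Ab} {fx : Fix I} {F : I → ℂ → ℂ}
    {hz : ℝ} {A B : Cv} {W : Wd I A.ι} {Y : Set E} {sp : Sp J} {fd : FD J A.ι} {τ : ℝ}
    (b : Base ab.L ab.Cw fx F hz A B W Y sp fd τ) {o : ℝ} (o0 : 0 < o) (j : J) :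
    ∃ t0 > 0, ∀ t, 0 < t → t ≤ t0 → ∃ r0 > 0, ∀ r, 0 < r → r ≤ r0 →
      ∀ (F' : I → ℂ → ℂ) (V : Finset A.ι) (o' : ℝ) (X K : Set E), 0 ≤ o' → o' ≤ o →
        (∀ k ∈ fd.U, o' ≤ o * A.hub.dep (A.e k).c) →
        (∀ i, ∀ z ∈ fx.dom i, ‖F' i z - F i z‖ ≤ r) → Loc ab.L A W sp fd F' V t o o' →
        K ∩ sp.T τ j = fx.S F' ∩ sp.T τ j →
        (∀ y ∈ X, y ∉ K → y ∈ sp.T τ j → ‖y.2 - (sp.l j).w y.1‖ < r ∧
          ((sp.l j).k ≠ Kind.pt → -r < (sp.l j).dep y.1)) →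
        ((sp.l j).k = Kind.pt → PDesc sp j (A.lam (fd.m j)) (W.pr (fd.m j)) X K τ o) ∧
        ((sp.l j).k ≠ Kind.pt → RDesc ab A W.pr sp fd j V ∅ X K τ o) := by
  classical
  obtain ⟨t1, p1, q1⟩ := b.portW
  by_cases hk : (sp.l j).k = Kind.pt
  · obtain ⟨t2, p2, q2⟩ := b.kd j
    refine ⟨min (min t1 t2) o, by positivity, fun t a c => ?_⟩
    simp only [le_min_iff] at c
    obtain ⟨R1, r1, q1⟩ := q1 t a c.1.1
    obtain ⟨R2, r2, r3, q2⟩ := q2 t t a c.1.2 a c.1.2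
    refine ⟨min R1 R2, by positivity, fun r d e F' V o' X K _ _ _ cl lc hK tb =>
      ⟨fun _ => ?_, fun n => (n hk).elim⟩⟩
    simp only [le_min_iff] at e
    obtain ⟨N, n1, -, n3⟩ := q2 r e.2 F' K cl hK
    have pp := prpos b.sw (fd.m j) (by rwa [← l_eq b.fit])
    have pd : PD ab.L A sp fd (fd.m j) _ := Or.inr ⟨j, rfl, hk, rfl⟩
    refine ⟨N, t, r, a, c.2, d, e.2.trans r3, pp, fun y x u v => (tb y x u v).1, ?_, ?_⟩
    · rw [← b.thn_port hk t t, ← b.thn_port hk (2 * t) (2 * t)]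
      refine n3 _ (End.near_pt hk _ _).ge fun z h => self_subset_cthickening _ ⟨?_, ?_⟩
      · rwa [End.near_pt hk]
      · exact End.side_pt hk z
    · have := q1 r d e.1 _ _ pd N o False ((lc.port _ _ pd).congr pp False.elim fun z h => by
        rw [← l_eq b.fit] at h ⊢
        exact n1 z (by rwa [b.zn_port hk]))
      rwa [← l_eq b.fit] at this
  · obtain ⟨t2, p2, q2⟩ := b.frame hk
    obtain ⟨t3, p3, q3⟩ := small (p := fun k t => k ∈ fd.U → t ≤ o * A.hub.dep (A.e k).c) fun k => by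
      by_cases h : k ∈ fd.U
      · exact ⟨_, mul_pos o0 (b.fit.win k h).2.2.1, fun _ _ a _ => a⟩
      · exact ⟨1, one_pos, fun _ _ _ a => (h a).elim⟩
    refine ⟨min (min t1 t2) (min t3 o), by positivity, fun t a c => ?_⟩
    simp only [le_min_iff] at c
    obtain ⟨R1, r1, q1⟩ := q1 t a c.1.1
    obtain ⟨R2, r2, a0, r3, r4, r5, q2⟩ := q2 t t a c.1.2 a c.1.2
    refine ⟨min (min R1 R2) a0, by positivity, fun r d e F' V o' X K o1 o2 o3 cl lc hK tb =>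
      ⟨fun n => (hk n).elim, fun _ => ?_⟩⟩
    simp only [le_min_iff] at e
    obtain ⟨m1, m2, q2⟩ := q2 r e.2
    obtain ⟨N, n1, n2, n3⟩ := q2 r e.1.2 F' K cl hK
    obtain ⟨Ef, u, l1, l2, l3⟩ := lc.ring j hk
    rw [b.zn_ring hk] at n1
    have rt : r ≤ t := e.2.trans r5
    refine ⟨N, Ef, u, r, t, t, r, o', d, rt, c.2.2, a, c.2.2, d, e.1.2.trans r4, o1, o2,
      fun y x v w => ⟨(tb y x v w).1, (tb y x v w).2 hk⟩, m1, m2, n3, fun z h n e0 => ?_, l1,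
      fun z h _ => ?_, fun k h => ⟨fun _ => ⟨q3 t a c.2.1 k (win_hub h).2, o3 k (win_hub h).2, ?_⟩,
        fun h => by simp at h⟩⟩
    · have z1 : (sp.l j).dep z ∈ Icc (-(2 * t)) (2 * t) :=
        ⟨by linarith [h.2.1], by linarith [h.2.2]⟩
      have z2 : z ∈ (sp.l j).ann (Icc (if fd.m j = A.H then 0 else -(2 * t)) (2 * t)) := by
        rw [if_neg n]; exact ⟨h.1, z1⟩
      have := l2 z z2
      simp only [← n1 z z2, e0, zero_mul] at this
      exact sum_ne (fun i => by nlinarith [((l1 i).2.1 _ z1).1, h.2.2])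
        (fun i => ((l1 i).2.2 z ⟨h.1, z1⟩).2.1) (l3 n _ ⟨by linarith [h.2.1], h.2.2⟩) this.symm
    · rw [n1 z h]; exact l2 z h
    · have pd : PD ab.L A sp fd k _ := Or.inl ⟨(win_hub h).2, rfl⟩
      exact q1 r d e.1.1 _ _ pd N o _ ((lc.port _ _ pd).congr
        (prpos b.sw k (b.PD_pt pd)) id (n2 k h))

/-- the constant of the end lemma is uniform for all directions, radii and charts -/
theorem ends_o (hE : St_ENDS) {ab : Ab} (hab : ab.OK) {J : Type} (A0 : Cv) (sp : Sp J)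
    (fd : FD J A0.ι) : ∃ o > (0 : ℝ), ∀ (lam : A0.ι → ℂ → ℂ) (pr : A0.ι → ℝ) (mu : J → ℂ → ℂ),
      Fit ab.L ab.Cw (A0.rot lam) pr sp (fd.setMu mu) → (∀ j, (A0.e j).ok) →
      A0.hub.k = Kind.out → ∀ (X K : Set E) (τ : ℝ) (j : J), Std X K →
      AnalyticOnNhd ℂ (sp.l j).w ((sp.l j).near sp.h sp.r1) →
      ((sp.l j).k = Kind.pt → PDesc sp j (lam (fd.m j)) (pr (fd.m j)) X K τ o →
        sp.End1 (X \ K) τ j) ∧
      ((sp.l j).k ≠ Kind.pt → ∀ V Bs : Finset A0.ι, V ⊆ fd.U → Disjoint V Bs →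
        (fd.m j = A0.H → fd.gain ≤ fd.gsum V) →
        RDesc ab (A0.rot lam) pr sp (fd.setMu mu) j V Bs X K τ o → sp.End1 (X \ K) τ j) := by
  obtain ⟨o, o0, H⟩ := hE ab hab fd.U (fun i => hx A0.hub (A0.e i).c) (fun i => fd.ρ i)
    (fun i => fd.β i) sp.h fd.n fd.Λw sp.Cu sp.Λ0 fd.η fd.CD fd.κf
  exact ⟨o, o0, fun lam pr mu hf ok hk => H J (A0.rot lam) pr sp (fd.setMu mu) Subtype.val hf ok hk
    (fun k h => ⟨⟨k, h⟩, rfl⟩) Subtype.val_injective (fun i => ⟨i.2, rfl, rfl, rfl⟩)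
    ⟨rfl, rfl, rfl, rfl, rfl, rfl, rfl, rfl⟩⟩

/-- the tube facts from nearness to `Y` -/
theorem tube {J : Type} [Finite J] {sp : Sp J} {Y : Set E} {τ : ℝ} (hY : IsCompact Y)
    (hl : ∀ j, (sp.l j).ok) (an : ∀ j, AnalyticOnNhd ℂ (sp.l j).w ((sp.l j).near sp.h sp.r1))
    (iso : ∀ j, ∀ y ∈ Y, y ∈ sp.T τ j → y.2 = (sp.l j).w y.1 ∧ (sp.l j).side y.1) {a R : ℝ}
    (ha : 0 < a) (hR : 0 < R) : ∃ η > 0, ∀ j, ∀ y ∈ cthickening η Y, y ∈ sp.T τ j →
      ‖y.2 - (sp.l j).w y.1‖ < R ∧ ((sp.l j).k ≠ Kind.pt → -a < (sp.l j).dep y.1) := by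
  obtain ⟨η, p, q⟩ := small (p := fun j η => ∀ y ∈ cthickening η Y, y ∈ sp.T τ j →
      ‖y.2 - (sp.l j).w y.1‖ < R ∧ ((sp.l j).k ≠ Kind.pt → -a < (sp.l j).dep y.1)) fun j => by
    by_cases hk : (sp.l j).k = Kind.pt
    · obtain ⟨η, b, N⟩ := st_near Y _ _ τ univ hY (End.isCompact_near (hl j) _ _).isClosed
        (an j).continuousOn isOpen_univ (fun y p q r => ⟨(iso j y p ⟨q, r⟩).1, trivial⟩) R hR
      exact ⟨η, b, fun s _ c y p q =>
        ⟨(N y (cthickening_mono c _ p) q.1 q.2).1, fun k => absurd hk k⟩⟩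
    · have hr := (hl j).pos hk
      obtain ⟨η, b, N⟩ := st_near Y _ _ τ ((sp.l j).ann (Ioi (-a))) hY
        (End.isCompact_near (hl j) _ _).isClosed (an j).continuousOn
        (End.isOpen_ann hr isOpen_Ioi) (fun y p q r => by
          have i := iso j y p ⟨q, r⟩
          have z : y.1 ≠ (sp.l j).c := by rw [End.near_loop hk] at q; exact q.1
          have := (End.side_iff hk hr z).1 i.2
          exact ⟨i.1, z, show -a < _ by linarith⟩) R hR
      exact ⟨η, b, fun s _ c y p q => ⟨(N y (cthickening_mono c _ p) q.1 q.2).1,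
        fun _ => (N y (cthickening_mono c _ p) q.1 q.2).2.2⟩⟩
  exact ⟨η, p, q η p le_rfl⟩

/-- a constant below `o` times all window depths -/
theorem exists_o {J : Type} (A : Cv) (fd : FD J A.ι) {o : ℝ} (o0 : 0 < o) : ∃ o' > 0, o' ≤ o ∧
    ∀ k ∈ fd.U, 0 < A.hub.dep (A.e k).c → o' ≤ o * A.hub.dep (A.e k).c := by
  obtain ⟨t, p, q⟩ := small (p := fun k t => 0 < A.hub.dep (A.e k).c →
      t ≤ o * A.hub.dep (A.e k).c) fun k => by
    by_cases h : 0 < A.hub.dep (A.e k).c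
    · exact ⟨_, mul_pos o0 h, fun _ _ a _ => a⟩
    · exact ⟨1, one_pos, fun _ _ _ a => (h a).elim⟩
  exact ⟨min t o, lt_min p o0, min_le_right _ _, fun k _ =>
    q _ (lt_min p o0) (min_le_left _ _) k⟩

end DESC

end Pool.Agent.S6
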