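import Pool.Agent.Lib.S6.Site4
import Pool.Agent.Lib.S6.Desc

/-!
The points of the surface in the tubes about the ends of the old curve.
-/

open Set Filter Topology Metric

noncomputable section

namespace Pool.Agent.S6

open Pool.Agent.CF (End Kind IsCurve Geo SLH Cv Priv)
open Pool.Agent.Lib
open DESC

namespace KDS

variable {I J : Type} {fx : Fix I} {F : I → ℂ → ℂ} {hz : ℝ} {A B : Cv} {W : Wd I A.ι}

/-- near the circle of a loop only its own component meets the sheet -/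
theorem outer [Finite I] (sw : SideWall fx F hz A B W) (h0 : 0 < hz) (ok : ∀ k, (A.e k).ok)
    (cF : ∀ i, Continuous (F i))
    (gap : ∀ i i', i ≠ i' → ∀ z ∈ fx.dom i, z ∈ fx.dom i' → F i z ≠ F i' z) (k : A.ι) :
    ∀ᶠ t in 𝓝[>] (0 : ℝ), ∀ z ∈ (A.e k).near t (W.pr k * Real.exp t), ∀ i, z ∈ fx.dom i →
      F i z = (A.e k).w z → W.cp k = i := by
  refine (near_ev (ok k) (prpos sw k) (N := {z | ∀ i, z ∈ fx.dom i → F i z = (A.e k).w z →
    W.cp k = i}) (mem_nhdsSet_iff_forall.2 fun z hz => eventually_all.2 fun i => ?_)).filter_mono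
    nhdsWithin_le_nhds
  obtain ⟨a1, a2⟩ := on_ct sw h0 ok k hz
  by_cases e : W.cp k = i
  · exact Eventually.of_forall fun _ _ _ => e
  by_cases d : z ∈ fx.dom i
  · have c : ContinuousAt (fun v => F i v - (A.e k).w v) z :=
      (cF i).continuousAt.sub (sw.an k z (ct_sub sw ok k h0.le hz)).continuousAt
    filter_upwards [c.eventually_ne (y := 0)
      (sub_ne_zero.2 fun f => gap _ _ e z a1 d (a2.trans f.symm))] with v f _ g
    exact (f (sub_eq_zero.2 g)).elim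
  · filter_upwards [(PCS.isCompact_dom fx i).isClosed.isOpen_compl.mem_nhds d] with v f g
    exact (f g).elim

/-- points of a surface near the sheet of the end `l j` lie over the thin zones -/
theorem kd1 [Finite I] (sw : SideWall fx F hz A B W) (h0 : 0 < hz) (ok : ∀ k, (A.e k).ok)
    (hk : A.hub.k = Kind.out) (cF : ∀ i, Continuous (F i))
    (gap : ∀ i i', i ≠ i' → ∀ z ∈ fx.dom i, z ∈ fx.dom i' → F i z ≠ F i' z) {l : J → End}
    {P : E → ℂ} {Sig : Finset ℂ} {h r1 t : ℝ} (g : Geo P A.Γ l Sig r1 h) {pa : A.ι → J}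
    (hw : ∀ k, (A.e k).w = (l (pa k)).w) (hc : ∀ k, ct (A.e k) (W.pr k) ⊆ (l (pa k)).near h r1)
    {k0 : A.ι} (e0 : A.e k0 = l (pa k0)) (t0 : 0 < t)
    (ho : ∀ z ∈ (A.e k0).near t (W.pr k0 * Real.exp t), ∀ i, z ∈ fx.dom i →
      F i z = (A.e k0).w z → W.cp k0 = i) :
    ∃ R0 > 0, ∀ F' : I → ℂ → ℂ, (∀ i, ∀ z ∈ fx.dom i, ‖F' i z - F i z‖ ≤ R0) →
      ∀ y ∈ fx.S F', y.1 ∈ (l (pa k0)).near h r1 →
        ((l (pa k0)).k ≠ Kind.pt → -(t / 2) ≤ (l (pa k0)).dep y.1) →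
        ‖y.2 - (l (pa k0)).w y.1‖ ≤ R0 →
        ∃ k, pa k = pa k0 ∧ y.1 ∈ W.zn A t k ∧ y.2 = F' (W.cp k) y.1 := by
  have dbl : ∀ j, (l j).near h r1 ⊆ (l j).near (2 * h) (2 * r1) := fun j =>
    End.near_mono _ (by linarith [g.hpos]) (by linarith [g.r1pos])
  have lok : (l (pa k0)).ok := e0 ▸ ok k0
  obtain ⟨R1, r1, fr⟩ := st_frame I A.ι fx F {z | z ∈ (l (pa k0)).near h r1 ∧
      ((l (pa k0)).k ≠ Kind.pt → -(t / 2) ≤ (l (pa k0)).dep z)} (l (pa k0)).w W.cp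
    (fun k => {z | pa k = pa k0 ∧ z ∈ (A.e k).nearO t (W.pr k * Real.exp t)}) cF
    (by
      by_cases p : (l (pa k0)).k = Kind.pt
      · simpa [p] using End.isCompact_near lok h r1
      · have := End.isCompact_ann (lok.pos p) (isCompact_Icc.inter_right
          (isClosed_Ici (a := -(t / 2))) : IsCompact (Icc (-h) h ∩ Ici (-(t / 2))))
        refine Eq.mp (congrArg _ (Set.ext fun z => ?_)) this
        rw [End.near_loop p]
        exact ⟨fun a => ⟨⟨a.1, a.2.1⟩, fun _ => a.2.2⟩, fun a => ⟨a.1.1, a.1.2, a.2 p⟩⟩)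
    (fun z a => (g.wan _ z (dbl _ a.1)).continuousAt)
    (fun k => isOpen_const.inter (End.isOpen_nearO (ok k) _ _)) (fun i z d a e => by
      by_cases s : (l (pa k0)).side z
      · obtain ⟨k, c1, c2⟩ := sw.contact (z, (l (pa k0)).w z) (PCS.mem_S.2 ⟨i, d, e.symm⟩)
          ((g.loc _ z (dbl _ a.1)).self_of_nhds.2 ⟨rfl, s⟩)
        have kk : pa k = pa k0 := by_contra fun n => disjoint_left.1 (g.disj n)
          (show (z, (l (pa k0)).w z) ∈ _ from ⟨dbl _ (hc k c1), hw k ▸ c2⟩)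
          ⟨dbl _ a.1, rfl⟩
        obtain ⟨c3, c4⟩ := on_ct sw h0 ok k c1
        refine ⟨k, by_contra fun n => gap _ _ n z c3 d ?_, kk, ct_nearO (ok k) (prpos sw k) t0 c1⟩
        rw [c4, e]; exact c2.symm
      · rw [← e0] at s a e
        have p : (A.e k0).k ≠ Kind.pt := fun p => s (End.side_pt p z)
        obtain ⟨a1, a2⟩ := a
        rw [End.near_loop p] at a1
        have m : z ∈ (A.e k0).nearO t (W.pr k0 * Real.exp t) := by
          rw [End.side_iff p ((ok k0).pos p) a1.1, not_le] at s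
          rw [End.nearO_loop p]
          exact ⟨a1.1, by linarith [a2 p], by linarith⟩
        exact ⟨k0, ho z (End.nearO_subset_near _ le_rfl le_rfl m) i d e, rfl, m⟩)
  refine ⟨R1, r1, fun F' cl y y1 y2 y3 y4 => ?_⟩
  obtain ⟨k, ⟨kk, u⟩, d, e⟩ := fr F' cl y y1 (self_subset_cthickening _ ⟨y2, y3⟩) y4
  refine ⟨k, kk, ?_, e⟩
  have u' := End.nearO_subset_near _ le_rfl le_rfl u
  by_cases p : (A.e k).k = Kind.pt
  · rw [End.near_pt p] at u'
    rwa [Wd.zn, zn_pt p]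
  · rw [End.near_loop p] at u'
    rw [Wd.zn, zn_loop p]
    refine ⟨u'.1, ?_, u'.2.2⟩
    split_ifs with hh
    · subst hh; exact hub_dep sw ok hk d u'.1
    · exact u'.2.1

theorem ev_le {a : ℝ} (h : 0 < a) : ∀ᶠ s in 𝓝[>] (0 : ℝ), 0 < s ∧ s ≤ a :=
  Ioc_mem_nhdsGT h

end KDS

open KDS

theorem st_kds : St_KDS := by
  intro C K Nd TC TK D a Z q G π π' _ x x' sp Sig L δ I _ fx F W hz τ p0 _ p1 τ0 iso
  have cv := p0.alg.hC.curve
  have ok : ∀ k, ((winS C K π a q G x δ).e k).ok := fun k => by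
    rcases k with j | k
    · exact cv.ok j
    · exact (if_pos (c := Kind.pt = Kind.pt) rfl).mpr rfl
  have hw : ∀ k, ((winS C K π a q G x δ).e k).w = (C.e (par C π k)).w := fun k => by
    rcases k with j | k <;> rfl
  have cF := fun i => (p1.sm i).continuous
  have g := p0.geom.geo
  have hT : ∀ j y, y ∈ sp.T τ j ↔ y.1 ∈ (C.e j).near sp.h sp.r1 ∧ ‖y.2 - (C.e j).w y.1‖ ≤ τ :=
    fun j y => by rw [← p0.l]; rfl
  rw [p0.l] at g
  filter_upwards [eventually_all.2 (outer p1.sw p1.hz0 ok cF p1.gap), ev_le (half_pos p1.hz0)]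
    with t ho ⟨t0, t1⟩ β gb
  obtain ⟨R0, r0, k1⟩ := small (p := fun j R => ∀ F' : I → ℂ → ℂ,
      (∀ i, ∀ z ∈ fx.dom i, ‖F' i z - F i z‖ ≤ R) → ∀ y ∈ fx.S F',
      y.1 ∈ (C.e j).near sp.h sp.r1 → ((C.e j).k ≠ Kind.pt → -(t / 2) ≤ (C.e j).dep y.1) →
      ‖y.2 - (C.e j).w y.1‖ ≤ R → ∃ k, par C π k = j ∧
        y.1 ∈ W.zn (winS C K π a q G x δ) t k ∧ y.2 = F' (W.cp k) y.1) fun j => by
    obtain ⟨R0, r0, k1⟩ := kd1 (pa := par C π) p1.sw p1.hz0 ok p0.alg.hC.out cF p1.gap g hw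
      (fun k => (ct_sub p1.sw ok k (by linarith)).trans (gb.near k)) (k0 := Sum.inl j) rfl t0
      (ho _)
    exact ⟨R0, r0, fun s _ c F' cl y y1 y2 y3 y4 =>
      k1 F' (fun i z b => (cl i z b).trans c) y y1 y2 y3 (y4.trans c)⟩
  replace k1 := k1 R0 r0 le_rfl
  filter_upwards [ev_le r0, ev_le τ0] with R ⟨R1, R2⟩ ⟨_, R3⟩
  obtain ⟨η, η0, tb⟩ := tube (sp := sp) (τ := τ) (cv.cpt.union p0.alg.hK.curve.cpt)
    (fun j => p0.l ▸ cv.ok j) (fun j => p0.l ▸ (g.wan j).mono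
      (End.near_mono _ (by linarith [g.hpos]) (by linarith [g.r1pos])))
    (fun j => p0.l ▸ iso j) (half_pos t0) R1
  filter_upwards [ev_le r0, ev_le η0] with η' ⟨_, e1⟩ ⟨_, e2⟩ M F' bd cl md X Y hX j hY
  have ex : ∀ k, ∀ z ∈ W.zn (winS C K π a q G x δ) hz k, F' (W.cp k) z =
      (C.e (par C π k)).w z + nW (winS C K π a q G x δ) W M k z := fun k z b => by
    rw [md k z b, p1.sw.exact k z b, hw, add_assoc]; rfl
  refine ⟨fun y b c d => ?_, fun y b c d e => ?_, fun k e z b => ?_⟩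
  · have := tb j y (cthickening_mono e2 _ (hX ⟨b.1, c⟩)) ((hT j y).2 ⟨d, b.2⟩)
    rwa [p0.l] at this
  · obtain ⟨k, rfl, u, v⟩ := k1 j F' (fun i z b => (cl i z b).trans e1) y
      (hY ▸ (⟨c, (hT j y).2 ⟨d, b.2.trans R3⟩⟩ : y ∈ Y ∩ sp.T τ j) : y ∈ fx.S F' ∩ sp.T τ j).1 d e
      (b.2.trans R2)
    exact ⟨k, rfl, u, v.trans (ex k _ (zn_sub p1.sw k (by linarith) u))⟩
  · subst e
    have b1 := zn_sub p1.sw k (s' := hz) (by linarith) b
    have b2 := zn_sub p1.sw k (s' := 3 * t) (by linarith) b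
    have m : (z, F' (W.cp k) z) ∈ fx.S F' ∩ sp.T τ (par C π k) :=
      ⟨PCS.mem_S.2 ⟨_, p1.sw.dom k b1, rfl⟩, (hT _ _).2 ⟨gb.near k b2, by
        rw [ex k z b1, add_sub_cancel_left]; exact bd k z b2⟩⟩
    rw [← ex k z b1]
    exact (hY.symm ▸ m : (z, F' (W.cp k) z) ∈ Y ∩ sp.T τ (par C π k)).1

end Pool.Agent.S6
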