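import Pool.Agent.Lib.S6.B_ZONE

/-!
Section 6 of the project 9ccfb7: the block PATH.
-/

open Set Filter Topology Metric
open scoped ContDiff

noncomputable section

namespace Pool.Agent.S6

open Pool.Agent.CF (End Kind IsCurve Geo SLH Cv Priv)
open Pool.Agent.Lib

namespace PATH

/-- small multiples of a function analytic on a compact set have exponentials close to one -/
theorem small {g : ℂ → ℂ} {D : Set ℂ} (p : ℂ) (hD : IsCompact D) (hg : AnalyticOnNhd ℂ g D)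
    {o : ℝ} (ho : 0 < o) : ∀ᶠ s : ℝ in 𝓝[>] (0 : ℝ), ∀ z ∈ D,
      ‖Complex.exp (s * g z) - 1‖ ≤ o ∧
        ‖(z - p) * deriv (fun y => Complex.exp (s * g y)) z‖ ≤ o := by
  obtain ⟨M1, h1⟩ := hD.exists_bound_of_continuousOn hg.continuousOn
  obtain ⟨M2, h2⟩ := hD.exists_bound_of_continuousOn (f := fun z => (z - p) * deriv g z)
    ((continuousOn_id.sub continuousOn_const).mul hg.deriv.continuousOn)
  set M := max (max M1 M2) 1 with hM
  have m1 : M1 ≤ M := (le_max_left _ _).trans (le_max_left _ _)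
  have m2 : M2 ≤ M := (le_max_right _ _).trans (le_max_left _ _)
  have m0 : 0 < M := lt_of_lt_of_le one_pos (le_max_right _ _)
  have q0 : 0 < min o 1 := lt_min ho one_pos
  filter_upwards [Ioo_mem_nhdsGT (show 0 < min o 1 / (3 * M) by positivity)] with s hs z hz
  have s1 : s * M ≤ min o 1 / 3 := by
    have := (lt_div_iff₀ (by positivity)).1 hs.2
    linarith
  have q1 := min_le_left o 1
  have q2 := min_le_right o 1
  have ns : ‖(s : ℂ)‖ = s := by rw [Complex.norm_real, Real.norm_of_nonneg hs.1.le]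
  have a : ‖(s : ℂ) * g z‖ ≤ min o 1 / 3 := by
    rw [norm_mul, ns]
    exact (mul_le_mul_of_nonneg_left ((h1 z hz).trans m1) hs.1.le).trans s1
  have b := Complex.norm_exp_sub_one_le (a.trans (by linarith))
  have c : ‖Complex.exp (s * g z)‖ ≤ 2 := by
    have := norm_add_le (Complex.exp (s * g z) - 1) 1
    rw [sub_add_cancel, norm_one] at this
    linarith
  refine ⟨by linarith, ?_⟩
  have d : HasDerivAt (fun y => Complex.exp (s * g y)) (Complex.exp (s * g z) * (s * deriv g z)) z :=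
    ((hg z hz).differentiableAt.hasDerivAt.const_mul (s : ℂ)).cexp
  rw [d.deriv, show (z - p) * (Complex.exp (s * g z) * (s * deriv g z)) =
    Complex.exp (s * g z) * (s * ((z - p) * deriv g z)) by ring, norm_mul, norm_mul, ns]
  have e : s * ‖(z - p) * deriv g z‖ ≤ min o 1 / 3 :=
    (mul_le_mul_of_nonneg_left ((h2 z hz).trans m2) hs.1.le).trans s1
  have f : 0 ≤ s * ‖(z - p) * deriv g z‖ := mul_nonneg hs.1.le (norm_nonneg _)
  nlinarith [norm_nonneg (Complex.exp (s * g z))]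

theorem ndir_of {ι : Type} (l : End) (U : Finset ι) (p : ι → ℂ) {u v : ℂ → ℂ} {o o' CD : ℝ} {z : ℂ}
    (e : u =ᶠ[𝓝 z] v) (hv : AnalyticAt ℂ v z) (h1 : ‖v z - 1‖ ≤ o')
    (h2 : ‖(z - l.c) * deriv v z‖ ≤ o') (ho : 2 * o' ≤ o) (ho' : o' ≤ 1 / 2) (hC : 1 ≤ CD) :
    NDir l U p u o CD z := by
  have o0 : 0 ≤ o' := (norm_nonneg _).trans h1
  have a : |(v z).re - 1| ≤ o' := by
    simpa using (Complex.abs_re_le_norm (v z - 1)).trans h1
  have b : |(v z).im| ≤ o' := by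
    simpa using (Complex.abs_im_le_norm (v z - 1)).trans h1
  have c : 1 / 2 ≤ (v z).re := by linarith [(abs_le.1 a).1]
  have d : 1 / 2 ≤ ‖v z‖ := c.trans (Complex.re_le_norm _)
  unfold NDir
  rw [e.deriv_eq, e.self_of_nhds]
  refine ⟨hv.congr e.symm, by linarith, by nlinarith,
    ((Complex.abs_re_le_norm _).trans h2).trans (by nlinarith), fun s hs _ => ?_⟩
  have f := norm_nonneg ((z - l.c) * deriv v z)
  nlinarith

theorem ndir_mono {ι : Type} {l : End} {U : Finset ι} {p : ι → ℂ} {u : ℂ → ℂ} {o CD : ℝ} {z : ℂ}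
    (h : NDir l U p u 0 CD z) (ho : 0 ≤ o) : NDir l U p u o CD z := by
  obtain ⟨a, b, c, d, e⟩ := h
  refine ⟨a, b, c.trans ?_, d.trans ?_, e⟩
  · rw [zero_mul]; positivity
  · rw [zero_mul]; positivity

theorem ratio_one {lam lam' : ℂ → ℂ} {p : ℂ} {D : Set ℂ} {o : ℝ} (ho : 0 ≤ o)
    (h : ∀ z ∈ D, z ≠ p → lam' z = lam z) : Ratio lam lam' p D o :=
  ⟨fun _ => 1, analyticOnNhd_const, fun z hz => ⟨by simpa using ho, by simpa using ho,
    fun a => by rw [h z hz a, one_mul]⟩⟩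

variable {J : Type} {L : ℝ} {Cw : ℝ → ℝ} {A : Cv} {pr : A.ι → ℝ} {sp : Sp J} {fd : FD J A.ι}

theorem dep_le (hC : ∀ β, 1 ≤ Cw β) (hf : Fit L Cw A pr sp fd) {k : A.ι} (hU : k ∈ fd.U) :
    A.hub.dep (A.e k).c ≤ sp.h / 24 := by
  obtain ⟨-, -, w3, -, -, -, w7, w8, -⟩ := hf.win k hU
  obtain ⟨k1, k2, -, -, -, -, k7, -⟩ := hf.kit
  obtain ⟨c1, c2⟩ := k7 _ (hC (fd.β k))
  have c0 := hC (fd.β k)
  have c3 : fd.κf (Cw (fd.β k)) ≤ 1 / 3 :=
    c2.trans (one_div_le_one_div_of_le (by norm_num) (by linarith))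
  nlinarith

theorem pd_subset (hL : 10 ≤ L) (hC : ∀ β, 1 ≤ Cw β) (hf : Fit L Cw A pr sp fd)
    (hk : A.hub.k = Kind.out) (hR : 0 < A.R) {k : A.ι} (hU : k ∈ fd.U) {j : J}
    (hj : fd.m j = A.H) : pd L A.hub (A.e k).c ⊆ (sp.l j).near sp.h sp.r1 := by
  have c4 := dep_le hC hf hU
  obtain ⟨-, -, w3, w4, -⟩ := hf.win k hU
  obtain ⟨k1, k2, -⟩ := hf.kit
  have hl : sp.l j = A.hub := by rw [(hf.eq j).1, hj]; rfl
  rw [hl, End.near_loop (by rw [hk]; decide)]
  refine ZONE.ball_subset_ann hk hR w4 w3 (by linarith) (by linarith) ?_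
  have p2 : Real.exp (6 - L) ≤ 1 / 2 := by
    rw [show 6 - L = -(L - 6) by ring, Real.exp_neg,
      inv_le_comm₀ (Real.exp_pos _) (by norm_num)]
    linarith [Real.add_one_le_exp (L - 6)]
  have p3 : 0 < A.hub.r * A.hub.dep (A.e k).c := mul_pos hR w3
  nlinarith

theorem chart_ne (hC : ∀ β, 1 ≤ Cw β) (hf : Fit L Cw A pr sp fd) {j : J}
    (hj : (sp.l j).k ≠ Kind.pt) {z : ℂ} (hz : z ∈ (sp.l j).ann (Icc (sp.h / 16) sp.h)) :
    fd.chart A j z ≠ 0 := by
  have k1 := hf.kit.1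
  refine mul_ne_zero ((hf.ring j hj).2.1 z (End.ann_mono (Icc_subset_Icc_left (by linarith)) hz))
    (Finset.prod_ne_zero_iff.2 fun k hk => sub_ne_zero.2 fun e => ?_)
  by_cases h : fd.m j = A.H
  · rw [FD.win, if_pos h] at hk
    have hl : sp.l j = A.hub := by rw [(hf.eq j).1, h]; rfl
    have a := dep_le hC hf hk
    have b := hz.2.1
    rw [hl, e] at b
    linarith
  · rw [FD.win, if_neg h] at hk
    simp at hk

/-- directions along the path -/
def lt (A : Cv) (g : A.ι → ℂ → ℂ) (t : ℝ) (k : A.ι) (z : ℂ) : ℂ :=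
  A.lam k z * Complex.exp (t * g k z)

/-- charts along the path -/
def mt {ι : Type} (fd : FD J ι) (l : J → ℂ → ℂ) (t : ℝ) (j : J) (z : ℂ) : ℂ :=
  fd.mu j z * Complex.exp (-(t * l j z))

theorem chart_t (lam : A.ι → ℂ → ℂ) (l : J → ℂ → ℂ) (t : ℝ) (j : J) (z : ℂ) :
    (fd.setMu (mt fd l t)).chart (A.rot lam) j z =
      fd.chart A j z * Complex.exp (-(t * l j z)) := by
  show fd.mu j z * Complex.exp (-(t * l j z)) * ∏ k ∈ fd.win A j, (z - (A.e k).c) = _
  unfold FD.chart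
  ring

/-- the logarithmic data of the path -/
structure Dat (L : ℝ) (A : Cv) (sp : Sp J) (fd : FD J A.ι) (lam : A.ι → ℂ → ℂ) (l : J → ℂ → ℂ)
    (g : A.ι → ℂ → ℂ) : Prop where
  mac : ∀ j, g (fd.m j) = l j
  an : ∀ k ∈ fd.U, AnalyticOnNhd ℂ (g k) (pd L A.hub (A.e k).c)
  fin : ∀ k ∈ fd.U, ∀ z ∈ pd L A.hub (A.e k).c, z ≠ (A.e k).c →
    lam k z = A.lam k z * Complex.exp (g k z)
  dir : ∀ k ∈ fd.U, ∀ j, fd.m j = A.H → ∀ t ∈ Icc (0 : ℝ) 1,
    PortDir L (A.e k).c (pd L A.hub (A.e k).c) fun z =>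
      lt A g t k z * (fd.chart A j z * Complex.exp (-(t * l j z)))

theorem exists_dat {lam : A.ι → ℂ → ℂ} {Λx : ℝ} {l : J → ℂ → ℂ} (hL : 10 ≤ L)
    (hC : ∀ β, 1 ≤ Cw β) (hf : Fit L Cw A pr sp fd) (hk : A.hub.k = Kind.out) (hR : 0 < A.R)
    (ht : Targ L A sp fd lam Λx l) : ∃ g, Dat L A sp fd lam l g := by
  classical
  obtain ⟨j0, hj0⟩ := hf.hub
  have key : ∀ k, ∃ g : ℂ → ℂ, k ∈ fd.U → AnalyticOnNhd ℂ g (pd L A.hub (A.e k).c) ∧
      (∀ z ∈ pd L A.hub (A.e k).c, z ≠ (A.e k).c → lam k z = A.lam k z * Complex.exp (g z)) ∧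
      ∀ t ∈ Icc (0 : ℝ) 1, PortDir L (A.e k).c (pd L A.hub (A.e k).c) fun z =>
        A.lam k z * Complex.exp (t * g z) * (fd.chart A j0 z * Complex.exp (-(t * l j0 z))) := by
    intro k
    by_cases hU : k ∈ fd.U
    swap
    · exact ⟨0, fun h => absurd h hU⟩
    obtain ⟨a, lg, h1, h2⟩ := (hf.win k hU).2.2.2.2.2.2.2.2.2.2 j0 hj0
    obtain ⟨a', lg', h3, h4⟩ := ht.win k hU j0 hj0
    refine ⟨fun z => l j0 z + ((a' : ℂ) - a) + (lg' z - lg z), fun _ => ⟨?_, fun z hz hp => ?_,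
      fun t ht => ⟨a + t * (a' - a), fun z => (1 - t : ℝ) * lg z + t * lg' z, ?_,
        fun z hz => ⟨?_, fun hp => ?_⟩⟩⟩⟩
    · exact (((ht.an j0).1.mono (pd_subset hL hC hf hk hR hU hj0)).add analyticOnNhd_const).add
        (h3.sub h1)
    · have e1 := (h2 z hz).2 hp
      have e2 := (h4 z hz).2 hp
      simp only at e1 e2
      have c0 : fd.chart A j0 z ≠ 0 := fun h => by
        rw [h, mul_zero] at e1; exact Complex.exp_ne_zero _ e1.symm
      refine mul_right_cancel₀ (mul_ne_zero c0 (Complex.exp_ne_zero (-l j0 z))) ?_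
      rw [e2, show ∀ x y : ℂ, A.lam k z * x * (fd.chart A j0 z * y) =
        A.lam k z * fd.chart A j0 z * (x * y) from fun x y => by ring, e1, ← Complex.exp_add,
        ← Complex.exp_add]
      congr 1
      ring
    · exact (analyticOnNhd_const.mul h1).add (analyticOnNhd_const.mul h3)
    · have b1 := (h2 z hz).1
      have b2 := (h4 z hz).1
      refine (norm_add_le _ _).trans_lt ?_
      rw [norm_mul, norm_mul, Complex.norm_real, Complex.norm_real,
        Real.norm_of_nonneg (sub_nonneg.2 ht.2), Real.norm_of_nonneg ht.1]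
      rcases eq_or_lt_of_le ht.1 with h | h
      · rw [← h]; simpa using b1
      · nlinarith [ht.2]
    · have e1 := (h2 z hz).2 hp
      simp only at e1 ⊢
      rw [show ∀ x y : ℂ, A.lam k z * x * (fd.chart A j0 z * y) =
        A.lam k z * fd.chart A j0 z * (x * y) from fun x y => by ring, e1, ← Complex.exp_add,
        ← Complex.exp_add]
      congr 1
      push_cast
      ring
  choose g hg using key
  have e : ∀ k ∈ fd.U, Function.extend fd.m l g k = g k := fun k hU =>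
    Function.extend_apply' _ _ _ fun ⟨j, hj⟩ => (hf.eq j).2 (hj ▸ hU)
  refine ⟨Function.extend fd.m l g, fun j => hf.inj.extend_apply _ _ _, fun k hU => ?_,
    fun k hU => ?_, fun k hU j hj => ?_⟩
  · rw [e k hU]; exact (hg k hU).1
  · rw [e k hU]; exact (hg k hU).2.1
  · obtain rfl : j = j0 := hf.inj (hj.trans hj0.symm)
    unfold lt
    rw [e k hU]; exact (hg k hU).2.2

theorem log_mul_exp {a b : ℂ} (ha : a ≠ 0) :
    Real.log ‖a * Complex.exp b‖ = Real.log ‖a‖ + b.re := by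
  rw [norm_mul, Complex.norm_exp, Real.log_mul (norm_ne_zero_iff.2 ha) (Real.exp_pos _).ne',
    Real.log_exp]

theorem fit_t (hW : St_LW) {lam : A.ι → ℂ → ℂ} {Λx : ℝ} {l : J → ℂ → ℂ} {g : A.ι → ℂ → ℂ}
    (hC : ∀ β, 1 ≤ Cw β) (hf : Fit L Cw A pr sp fd) (hok : ∀ j, (sp.l j).ok)
    (hm : Marg A sp fd Λx) (ht : Targ L A sp fd lam Λx l) (hd : Dat L A sp fd lam l g) {t : ℝ}
    (h01 : t ∈ Icc (0 : ℝ) 1) : Fit L Cw (A.rot (lt A g t)) pr sp (fd.setMu (mt fd l t)) := by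
  have h0 := hf.kit.1
  have r0 : 0 < sp.r1 := by linarith [hf.num.2.2.1, hf.num.2.2.2]
  have lw : ∀ j (f f' : ℂ → ℝ) (k Λ : ℝ), LW (sp.l j) sp.h sp.r1 f k Λ →
      (∀ z ∈ (sp.l j).near sp.h sp.r1, z ≠ (sp.l j).c →
        ((sp.l j).k ≠ Kind.pt → sp.h / 16 ≤ (sp.l j).dep z) → f' z = f z + t * (l j z).re) →
      LW (sp.l j) sp.h sp.r1 f' k (Λ + 2 * Λx) := by
    intro j f f' k Λ h1 h2
    have x0 : 0 ≤ Λx := by
      have r : 0 ≤ (sp.l j).r := by
        by_cases hk : (sp.l j).k = Kind.pt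
        · exact ((hok j).zero hk).ge
        · exact ((hok j).pos hk).le
      obtain ⟨z, hz⟩ : (sp.l j).circ.Nonempty := NormedSpace.sphere_nonempty.2 r
      exact (norm_nonneg _).trans ((ht.an j).2 z ((sp.l j).nearO_subset_near le_rfl le_rfl
        (End.circ_subset_nearO (hok j) h0 r0 hz)))
    have a := hW.1 _ _ _ _ _ _ _ _ _ t h1 (hW.2.2.1 _ _ sp.r1 _ _ h0 (ht.an j).1 x0 (ht.an j).2)
    rw [mul_zero, add_zero, abs_of_nonneg h01.1] at a
    exact hW.2.1 _ _ _ _ _ _ _ _ 0 a (by nlinarith [h01.2])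
      (fun z b c d => by rw [add_zero]; exact h2 z b c d) h0
  refine ⟨hf.inj, hf.eq, hf.hub, hf.kit, hf.num, fun j hj => ?_, fun j hj => ?_, fun k hU => ?_⟩
  · obtain ⟨a1, a2, a3, -, a5, a6⟩ := hf.ring j hj
    obtain ⟨Λ, b1, b2, -⟩ := hm j
    have sub : (sp.l j).ann (Icc 0 sp.h) ⊆ (sp.l j).near sp.h sp.r1 := by
      rw [End.near_loop hj]; exact End.ann_mono (Icc_subset_Icc_left (by linarith))
    refine ⟨a1.mul (analyticOnNhd_const.mul ((ht.an j).1.mono sub)).neg.cexp,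
      fun z hz => mul_ne_zero (a2 z hz) (Complex.exp_ne_zero _), fun z hz => ?_,
      ⟨Λ + 2 * Λx, b1, lw j _ _ _ _ (b2 hj) fun z c1 c2 c3 => ?_⟩, a5, a6⟩
    · have e : (fun z => (A.rot (lt A g t)).lam ((fd.setMu (mt fd l t)).m j) z *
          (fd.setMu (mt fd l t)).chart (A.rot (lt A g t)) j z) =
          fun z => A.lam (fd.m j) z * fd.chart A j z := by
        funext z
        rw [chart_t]
        show A.lam (fd.m j) z * Complex.exp (t * g (fd.m j) z) * _ = _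
        rw [hd.mac, Complex.exp_neg]
        field_simp
      rw [e]
      exact a3 z hz
    · have hz : z ∈ (sp.l j).ann (Icc (sp.h / 16) sp.h) := by
        rw [End.near_loop hj] at c1
        exact ⟨c2, c3 hj, c1.2.2⟩
      show Real.log ‖sp.om j z / (fd.setMu (mt fd l t)).chart (A.rot (lt A g t)) j z‖ = _
      rw [chart_t, Complex.exp_neg, ← div_div, div_inv_eq_mul,
        log_mul_exp (div_ne_zero (a5 z hz) (chart_ne hC hf hj hz)), Complex.re_ofReal_mul]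
  · obtain ⟨⟨q, a1, a2⟩, a3, -, a5, a6⟩ := hf.port j hj
    obtain ⟨Λ, b1, -, b2⟩ := hm j
    have an := (ht.an j).1
    rw [End.near_pt hj] at an
    refine ⟨⟨fun z => q z * Complex.exp (t * l j z), a1.mul (analyticOnNhd_const.mul an).cexp,
      fun z hz => ⟨mul_ne_zero (a2 z hz).1 (Complex.exp_ne_zero _), fun c => ?_⟩⟩, a3,
      hW.2.1 _ _ _ _ _ _ _ _ 0 (lw j _ _ _ _ (b2 hj) fun z c1 c2 _ => ?_) b1.le
        (fun z _ _ _ => (add_zero _).symm) h0, a5, a6⟩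
    · show A.lam (fd.m j) z * Complex.exp (t * g (fd.m j) z) = _
      rw [hd.mac, (a2 z hz).2 c]
      ring
    · rw [End.near_pt hj] at c1
      show Real.log ‖sp.om j z * (A.lam (fd.m j) z * Complex.exp (t * g (fd.m j) z))‖ = _
      rw [hd.mac, ← mul_assoc, log_mul_exp, Complex.re_ofReal_mul]
      rw [(a2 z c1).2 c2]
      exact mul_ne_zero (a3 z c1) (div_ne_zero (a2 z c1).1 (sub_ne_zero.2 c2))
  · obtain ⟨w1, w2, w3, w4, w5, w6, w7, w8, w9, w10, -⟩ := hf.win k hU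
    refine ⟨w1, w2, w3, w4, w5, w6, w7, w8, w9, w10, fun j hj => ?_⟩
    simp only [chart_t]
    exact hd.dir k hU j hj t h01

theorem lt_add (g : A.ι → ℂ → ℂ) (t s : ℝ) (k : A.ι) (z : ℂ) :
    lt A g (t + s) k z = Complex.exp (s * g k z) * lt A g t k z := by
  unfold lt
  rw [mul_left_comm, ← Complex.exp_add]
  congr 2
  push_cast
  ring

theorem step [Fintype J] {lam : A.ι → ℂ → ℂ} {Λx : ℝ} {l : J → ℂ → ℂ} {g : A.ι → ℂ → ℂ}
    (hf : Fit L Cw A pr sp fd) (hok : ∀ j, (sp.l j).ok) (hs : ∀ k, fd.site k) (h1 : One A sp fd)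
    (hl : ∀ j, (sp.l j).k ≠ Kind.pt → ∀ z ∈ (sp.l j).circ, AnalyticAt ℂ (A.lam (fd.m j)) z)
    (hp : ∀ k, (A.e k).k = Kind.pt → 0 < pr k) (hg : fd.gain ≤ fd.gsum fd.U)
    (ht : Targ L A sp fd lam Λx l) (hd : Dat L A sp fd lam l g) {o : ℝ} (ho : 0 < o) :
    ∀ᶠ s in 𝓝[>] (0 : ℝ), ∀ t : ℝ, NewD L (A.rot (lt A g t)) pr sp (fd.setMu (mt fd l t))
      (lt A g (t + s)) pr fd.U o := by
  have h0 := hf.kit.1
  have r0 : 0 < sp.r1 := by linarith [hf.num.2.2.1, hf.num.2.2.2]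
  have q0 : 0 < min o 1 / 2 := half_pos (lt_min ho one_pos)
  have q1 := min_le_left o 1
  have q2 := min_le_right o 1
  filter_upwards [eventually_all.2 fun j => small (sp.l j).c (End.isCompact_near (hok j) _ _)
      (ht.an j).1 q0,
    (Filter.eventually_all_finset fd.U).2 fun k hU => small (A.e k).c (isCompact_closedBall _ _)
      (hd.an k hU) ho] with s a b t
  refine ⟨fun k h => absurd (hs k) h, fun j hj z hz => ?_, fun j hj => ?_, fun k hU => ?_,
    fun k hk => ⟨hp k hk, le_rfl, fun _ => rfl⟩, subset_rfl, hg⟩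
  · have hn : z ∈ (sp.l j).near sp.h sp.r1 := (sp.l j).nearO_subset_near le_rfl le_rfl
      (End.circ_subset_nearO (hok j) h0 r0 hz)
    have an := (ht.an j).1 z hn
    refine ⟨?_, ndir_of _ _ _ (v := fun y => Complex.exp (s * l j y)) ?_
      (analyticAt_const.mul an).cexp (a j z hn).1 (a j z hn).2 (by linarith) (by linarith)
      hf.num.2.1⟩
    · show AnalyticAt ℂ (fun z => A.lam (fd.m j) z *
        Complex.exp ((t + s : ℝ) * g (fd.m j) z)) z
      rw [hd.mac]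
      exact (hl j hj z hz).mul (analyticAt_const.mul an).cexp
    · filter_upwards [eventually_nhdsSet_iff_forall.1 (h1 j hj) z hz] with y hy
      rw [chart_t]
      show lt A g (t + s) (fd.m j) y * _ = _
      rw [lt_add]
      unfold lt
      rw [hd.mac, Complex.exp_neg]
      have := Complex.exp_ne_zero (t * l j y)
      field_simp
      exact hy
  · have an := (ht.an j).1
    have a' := a j
    rw [End.near_pt hj] at an a'
    refine ⟨fun y => Complex.exp (s * l j y), (analyticOnNhd_const.mul an).cexp, fun z hz =>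
      ⟨(a' z hz).1.trans (by linarith), (a' z hz).2.trans (by linarith), fun _ => ?_⟩⟩
    show lt A g (t + s) (fd.m j) z = _ * lt A g t (fd.m j) z
    rw [lt_add, hd.mac]
  · exact ⟨fun y => Complex.exp (s * g k y), (analyticOnNhd_const.mul (hd.an k hU)).cexp,
      fun z hz => ⟨(b k hU z hz).1, (b k hU z hz).2, fun _ => lt_add g t s k z⟩⟩

theorem last {lam : A.ι → ℂ → ℂ} {Λx : ℝ} {l : J → ℂ → ℂ} {g : A.ι → ℂ → ℂ} {pr' : A.ι → ℝ}
    (hs : ∀ k, fd.site k) (hg : fd.gain ≤ fd.gsum fd.U)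
    (hp : ∀ k, (A.e k).k = Kind.pt → 0 < pr' k ∧ pr' k ≤ pr k ∧ (k ∈ fd.U → pr' k = pr k))
    (ht : Targ L A sp fd lam Λx l) (hd : Dat L A sp fd lam l g) {o : ℝ} (ho : 0 < o) :
    NewD L (A.rot (lt A g 1)) pr sp (fd.setMu (mt fd l 1)) lam pr' fd.U o := by
  refine ⟨fun k h => absurd (hs k) h, fun j hj z hz => ⟨(ht.ring j hj z hz).1, ?_⟩,
    fun j hj => ratio_one ho.le fun z hz c => ?_, fun k hU => ratio_one ho.le fun z hz c => ?_,
    hp, subset_rfl, hg⟩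
  · simp only [chart_t, Complex.ofReal_one, one_mul]
    exact ndir_mono (ht.ring j hj z hz).2 ho.le
  · show lam (fd.m j) z = A.lam (fd.m j) z * Complex.exp ((1 : ℝ) * g (fd.m j) z)
    rw [hd.mac, Complex.ofReal_one, one_mul]
    exact ht.port j hj z hz c
  · show lam k z = A.lam k z * Complex.exp ((1 : ℝ) * g k z)
    rw [Complex.ofReal_one, one_mul]
    exact hd.fin k hU z hz c

theorem cg_subset {I : Type} {fx : Fix I} {σ : Conf I} (h : Pre fx σ) (k : σ.C.ι) :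
    cg (σ.C.e k) (σ.WC.pr k) ⊆ σ.C.Γ := by
  rintro ⟨z, w⟩ ⟨y1, y2⟩
  obtain rfl : w = (σ.C.e k).w z := y2
  unfold ct at y1
  split_ifs at y1 with hk
  · exact ((h.wall.C.port k hk).2.1.mem z y1).1
  · exact h.alg.hC.curve.mem_of_circ k y1

end PATH

open PATH in
theorem st_path (hX : St_CTX) (hM : St_CTXM) (hR : St_RESET) (hW : St_LW) : St_PATH := by
  intro ab hab I J J' _ _ _ fx σ sp fd Sig sp' fd' Sig' xs lam Λx l pr' ok good rC one marg gain
    rK h2 gain' targ hpr k ε hε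
  have hL : 10 ≤ ab.L := le_trans (by norm_num) hab.num.1
  have hC := hab.num.2.2.2.2.2.2.2.2
  have half := good.pre.alg.hC
  have R0 : 0 < σ.C.R := lt_trans (by norm_num) half.rad.1
  have hok := rC.geom.curve.ok
  obtain ⟨τ, T0, zone, cert, cl, dis⟩ :=
    hX ab hab I J J' fx σ sp fd Sig sp' fd' Sig' xs ok good.pre rC rK h2 gain'
  obtain ⟨η, η0, hM⟩ := hM I J fx σ.F sp τ T0 σ.A cert
  obtain ⟨o, o0, hR⟩ := hR ab hab I J fx σ sp fd ok
  obtain ⟨g, dat⟩ := exists_dat hL hC rC.fit half.out R0 targ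
  have hl : ∀ j, (sp.l j).k ≠ Kind.pt → ∀ z ∈ (sp.l j).circ,
      AnalyticAt ℂ (σ.C.lam (fd.m j)) z := fun j hj z hz => by
    obtain ⟨n, w, -⟩ := half.lam (fd.m j)
    rw [← (rC.fit.eq j).1] at w
    exact ((eventually_nhdsSet_iff_forall.1 w.analyticAt z hz).self_of_nhds
      ((End.mem_circ ((hok j).pos hj)).1 hz).1).1
  have st := step rC.fit hok rC.all one hl (fun k hk => (good.pre.wall.C.port k hk).1) gain targ
    dat o0
  have lim : Tendsto (fun n : ℕ => 1 / ((n : ℝ) + 1)) atTop (𝓝[>] 0) :=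
    tendsto_nhdsWithin_iff.2 ⟨tendsto_one_div_add_atTop_nhds_zero_nat,
      Eventually.of_forall fun n => mem_Ioi.2 Nat.one_div_pos_of_nat⟩
  obtain ⟨N, st⟩ := (lim.eventually st).exists
  set s : ℝ := 1 / ((N : ℝ) + 1) with hs
  have s0 : 0 < s := Nat.one_div_pos_of_nat
  have s1 : ((N + 1 : ℕ) : ℝ) * s = 1 := by rw [hs]; push_cast; field_simp
  have m0 : 0 < min ε η := lt_min hε η0
  set e : ℝ := min ε η / 2 * s with he
  have e0 : 0 < e := by positivity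
  have ctx : ∀ (n : ℕ) (F : I → ℂ → ℂ) (Ef : σ.C.ι → ℝ → ℝ) (hz : ℝ), n ≤ N + 1 →
      Good fx (σ.reset F (lt σ.C g (n * s)) Ef σ.WC.pr hz) → Nxt fx σ.F F k (n * e) T0 →
      Ctx fx ab.L ab.Cw (σ.reset F (lt σ.C g (n * s)) Ef σ.WC.pr hz) sp
        (fd.setMu (mt fd l (n * s))) τ T0 := by
    intro n F Ef hz hn gd nx
    have t1 : (n : ℝ) * s ≤ 1 :=
      s1 ▸ mul_le_mul_of_nonneg_right (Nat.cast_le.2 hn) s0.le
    refine ⟨gd, fit_t hW hC rC.fit hok marg targ dat ⟨by positivity, t1⟩,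
      ZONE.zone3 J σ.C σ.WC.pr σ.WC.pr σ.A sp fd τ _ _ zone fun _ => le_rfl,
      hM F k _ ?_ nx, cl, fun k _ => disjoint_left.2 fun y a b => dis y b (cg_subset good.pre k a)⟩
    have := min_le_right ε η
    rw [he]
    nlinarith
  have tr : ∀ {F F' : I → ℂ → ℂ} {a b : ℝ}, (∀ i, ContDiff ℝ ∞ (F i)) →
      (∀ i, ContDiff ℝ ∞ (F' i)) → Nxt fx σ.F F k a T0 → Nxt fx F F' k b T0 →
      Nxt fx σ.F F' k (a + b) T0 := fun c d p q =>
    ⟨p.1.trans q.1 good.pre.wall.smooth c d, q.2.trans p.2⟩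
  have ind : ∀ n : ℕ, n ≤ N + 1 → ∃ (F : I → ℂ → ℂ) (Ef : σ.C.ι → ℝ → ℝ) (hz : ℝ),
      Good fx (σ.reset F (lt σ.C g (n * s)) Ef σ.WC.pr hz) ∧ Nxt fx σ.F F k (n * e) T0 := by
    intro n
    induction n with
    | zero =>
      intro _
      have z : lt σ.C g ((0 : ℕ) * s) = σ.C.lam := by
        funext k z
        simp [lt]
      rw [z]
      exact ⟨σ.F, σ.WC.Ef, σ.hz, good, MP_9ccfb7_an.Close.refl k (by simp) _ _, rfl⟩
    | succ n ih =>
      intro hn
      obtain ⟨F, Ef, hz, gd, nx⟩ := ih (by omega)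
      obtain ⟨F', Ef', hz', gd', nx'⟩ := hR F _ Ef _ hz _ τ T0 (ctx n F Ef hz (by omega) gd nx) _ _ _
        (st (n * s)) k e e0
      refine ⟨F', Ef', hz', ?_, ?_⟩
      · rw [Nat.cast_succ, add_mul, one_mul]; exact gd'
      · rw [Nat.cast_succ, add_mul, one_mul]
        exact tr gd.pre.wall.smooth gd'.pre.wall.smooth nx nx'
  obtain ⟨F, Ef, hz, gd, nx⟩ := ind (N + 1) le_rfl
  have c := ctx (N + 1) F Ef hz le_rfl gd nx
  rw [s1] at c
  obtain ⟨F', Ef', hz', gd', nx'⟩ := hR F _ Ef _ hz _ τ T0 c _ _ _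
    (last rC.all gain hpr targ dat o0) k (ε / 2) (half_pos hε)
  refine ⟨F', Ef', hz', gd', (tr gd.pre.wall.smooth gd'.pre.wall.smooth nx nx').1.mono le_rfl ?_⟩
  have := min_le_left ε η
  rw [he, mul_left_comm, s1]
  linarith

end Pool.Agent.S6
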