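import Pool.Agent.Lib.S6.SplitC
import Pool.Agent.Lib.S6.B_PATH
import Pool.Agent.Lib.CF.AlgB

/-!
Section 6 of the project 9ccfb7: the blocks KPAR and KFIT.
-/

open Set Filter Topology Metric
open scoped ContDiff

noncomputable section

namespace Pool.Agent.S6

open Pool.Agent.CF (End Kind IsCurve Geo SLH Cv Priv SheetFam)
open Pool.Agent.Lib

namespace KFIT

/-- a very small disc about a point of small depth lies in a thin open annulus -/
theorem ball_subset_annO {l : End} (hk : l.k = Kind.out) (hr : 0 < l.r) {p : ℂ} (hp : p ≠ l.c)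
    {ρ a : ℝ} (hd : 0 < l.dep p) (hd1 : l.dep p ≤ 1 / 4) (ha : 7 / 5 * l.dep p < a)
    (hρ : ρ ≤ l.r * l.dep p / 5) : closedBall p ρ ⊆ l.ann (Ioo (-a) a) := by
  intro z hz
  have hs : (l.sgn : ℝ) = -1 := by simp [End.sgn, hk]
  have h1 := End.norm_eq_rad hr hp
  set d := l.dep p with hdd
  rw [End.rad, hs] at h1
  have h2 : ‖z - p‖ ≤ ρ := by simpa [dist_eq_norm] using hz
  have h3 : ‖z - l.c‖ ≤ ‖z - p‖ + ‖p - l.c‖ := by
    simpa using norm_add_le (z - p) (p - l.c)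
  have h4 : ‖p - l.c‖ ≤ ‖z - p‖ + ‖z - l.c‖ := by
    have := norm_add_le (p - z) (z - l.c)
    rw [norm_sub_rev p z] at this
    simpa using this
  have e1 : Real.exp (-1 * d) ≤ 1 := Real.exp_le_one_iff.2 (by linarith)
  have e2 : 1 + d ≤ Real.exp d := by linarith [Real.add_one_le_exp d]
  have e2' : 1 + 2 / 5 * d ≤ Real.exp (2 / 5 * d) := by linarith [Real.add_one_le_exp (2 / 5 * d)]
  have e3 : 1 / 2 ≤ Real.exp (-(7 / 5 * d)) := by linarith [Real.add_one_le_exp (-(7 / 5 * d))]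
  have e4 : Real.exp (-1 * d) = Real.exp (-(7 / 5 * d)) * Real.exp (2 / 5 * d) := by
    rw [← Real.exp_add]; congr 1; ring
  have e5 : Real.exp (-(7 / 5 * d)) + d / 5 ≤ Real.exp (-1 * d) := by
    rw [e4]; nlinarith [Real.exp_pos (-(7 / 5 * d))]
  have lo : l.r * Real.exp (-(7 / 5 * d)) ≤ ‖z - l.c‖ := by nlinarith
  have hi : ‖z - l.c‖ ≤ l.r * Real.exp d := by nlinarith
  have hpos : 0 < ‖z - l.c‖ := lt_of_lt_of_le (mul_pos hr (Real.exp_pos _)) lo
  refine ⟨fun h => by simp [h] at hpos, ?_⟩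
  have l1 : -(7 / 5 * d) ≤ Real.log (‖z - l.c‖ / l.r) := by
    rw [Real.le_log_iff_exp_le (div_pos hpos hr), le_div_iff₀ hr]; linarith
  have l2 : Real.log (‖z - l.c‖ / l.r) ≤ d := by
    rw [Real.log_le_iff_le_exp (div_pos hpos hr), div_le_iff₀ hr]; linarith
  have : l.dep z = -Real.log (‖z - l.c‖ / l.r) := by rw [End.dep, hs]; ring
  rw [this]
  constructor <;> linarith

section

variable {J : Type} {L : ℝ} {Cw : ℝ → ℝ} {K : Cv} {pr : K.ι → ℝ} {sp : Sp J} {fd : FD J K.ι}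

theorem mem_win {j : J} {k : K.ι} : k ∈ fd.win K j ↔ fd.m j = K.H ∧ k ∈ fd.U := by
  unfold FD.win
  split_ifs with h <;> simp [h]

/-- the contact disc of a window lies in the thin open zone of the hub -/
theorem win_subset (hL : 10 ≤ L) (hC : ∀ β, 1 ≤ Cw β) (hf : Fit L Cw K pr sp fd)
    (hk : K.hub.k = Kind.out) (hR : 0 < K.R) {k : K.ι} (hU : k ∈ fd.U) (hp : 0 < pr k) :
    closedBall (K.e k).c (pr k) ⊆ K.hub.nearO (sp.h / 16) sp.r2 := by
  have c4 := PATH.dep_le hC hf hU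
  obtain ⟨-, -, w3, w4, -, -, -, -, -, w10, -⟩ := hf.win k hU
  obtain ⟨k1, k2, -⟩ := hf.kit
  set d := K.hub.dep (K.e k).c with hd
  have c5 : pr k ≤ K.R * d / 5 := by
    have p0 : 0 < 2 * K.R * d := by positivity
    have p1 : Real.log (pr k / (2 * K.R * d)) ≤ -(L - 1 / 2) := by
      linarith [(abs_le.1 w10).2]
    rw [Real.log_le_iff_le_exp (div_pos hp p0), div_le_iff₀ p0] at p1
    have p2 : Real.exp (-(L - 1 / 2)) ≤ 1 / 10 := by
      rw [Real.exp_neg, inv_le_comm₀ (Real.exp_pos _) (by norm_num)]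
      linarith [Real.add_one_le_exp (L - 1 / 2)]
    nlinarith
  rw [End.nearO_loop (by rw [hk]; decide)]
  exact ball_subset_annO hk hR w4 w3 (by linarith) (by linarith) c5

end

section

variable {J : Type} {W K : Cv} {fd : FD J K.ι} {G q : E → ℂ} {s t : W.ι → ℝ}
  {dC : W.ι → ℂ × ℂ → ℂ} {dK : K.ι → ℂ × ℂ → ℂ} {Γe : ℂ → Set E} {e : ℝ} {lA : W.ι → ℂ → ℂ}

theorem win_inr (j : J) : FD.win (splB W K G q s t dC dK Γe e lA) (fd.inr W.ι) j =
    (fd.win K j).map ⟨Sum.inr, Sum.inr_injective⟩ := by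
  by_cases h : fd.m j = K.H
  · have h' : (fd.inr W.ι).m j = (splB W K G q s t dC dK Γe e lA).H := congrArg Sum.inr h
    have a : fd.win K j = fd.U := if_pos h
    rw [a]
    exact if_pos h'
  · have h' : ¬ (fd.inr W.ι).m j = (splB W K G q s t dC dK Γe e lA).H :=
      fun a => h (Sum.inr_injective a)
    have a : fd.win K j = ∅ := if_neg h
    rw [a]
    exact if_neg h'

theorem chart_inr (j : J) : FD.chart (splB W K G q s t dC dK Γe e lA) (fd.inr W.ι) j =
    fd.chart K j := by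
  funext z
  unfold FD.chart
  rw [win_inr]
  exact congrArg _ (Finset.prod_map _ _ _)

theorem ndir_map {ι κ : Type} {l : End} {U : Finset ι} {p : ι → ℂ} {u : ℂ → ℂ} {o CD : ℝ} {z : ℂ}
    (h : NDir l U p u o CD z) (w : ℂ → ℂ) (f : ι ↪ κ) {p' : κ → ℂ} (hp : ∀ k, p' (f k) = p k) :
    NDir (l.setW w) (U.map f) p' u o CD z := by
  obtain ⟨b1, b2, b3, b4, b5⟩ := h
  refine ⟨b1, b2, b3, b4, fun x hx h => b5 x hx fun k hk => ?_⟩
  have := h _ (Finset.mem_map_of_mem f hk)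
  rw [hp] at this
  exact this

theorem ite_le {a b : Prop} {da : Decidable a} {db : Decidable b} (h : a ↔ b) {x y z v : ℝ}
    (h' : x - @ite _ b db y 0 + z ≤ v) : x - @ite _ a da y 0 + z ≤ v := by
  by_cases c : a
  · rw [if_pos c]; rwa [if_pos (h.1 c)] at h'
  · rw [if_neg c]; rwa [if_neg fun c' => c (h.2 c')] at h'

theorem mem_U {k : W.ι ⊕ K.ι} : k ∈ (fd.inr W.ι).U ↔ ∃ k' ∈ fd.U, Sum.inr k' = k :=
  Finset.mem_map

end

end KFIT

theorem st_kpar : St_KPAR := by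
  classical
  intro J L Cw K pr sp fd hL hC hf hs hk hok hp
  obtain ⟨j0, hj0⟩ := hf.hub
  obtain ⟨p, h1, h2⟩ : ∃ p : K.ι → J, (∀ j, p (fd.m j) = j) ∧ ∀ k ∈ fd.U, p k = j0 := by
    refine ⟨fun k => if h : ∃ j, fd.m j = k then h.choose else j0, fun j => ?_, fun k hk => ?_⟩
    · have h : ∃ j', fd.m j' = fd.m j := ⟨j, rfl⟩
      exact (dif_pos h).trans (hf.inj h.choose_spec)
    · exact dif_neg fun ⟨j, h⟩ => (hf.eq j).2 (h ▸ hk)
  have hh := hf.kit.1
  obtain ⟨-, -, r1, r2⟩ := hf.num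
  have hl : sp.l j0 = K.hub := by rw [(hf.eq j0).1, hj0]; rfl
  have hR : 0 < K.R := (hok K.H).pos (by change K.hub.k ≠ _; rw [hk]; decide)
  refine ⟨p, fun j => ⟨(hf.eq j).1, h1 j⟩, fun k => ?_, fun j k h => ?_, fun k h => ?_,
    fun k => ?_, fun k => ⟨?_, ?_, End.nearO_subset_near _ (by linarith) (by linarith)⟩⟩
  · rcases hs k with hU | ⟨j, rfl⟩
    · exact Or.inr (KFIT.mem_win.2 ⟨by rw [h2 k hU, hj0], hU⟩)
    · exact Or.inl (by rw [h1])
  · obtain ⟨a, b⟩ := KFIT.mem_win.1 h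
    rw [h2 k b]
    exact hf.inj (hj0.trans a.symm)
  · rcases hs k with hU | ⟨j, rfl⟩
    · exact absurd (hf.win k hU).1 h
    · rw [h1]
  · rcases hs k with hU | ⟨j, rfl⟩
    · rw [h2 k hU, hl]; exact (hf.win k hU).2.1
    · rw [h1, (hf.eq j).1]
  · by_cases h : (K.e k).k = Kind.pt
    · rw [UPD.ct_pt h, End.circ_pt (hok k) h]
      exact singleton_subset_iff.2 (mem_closedBall_self (hp k h).le)
    · rw [UPD.ct_loop h]
  · rcases hs k with hU | ⟨j, rfl⟩
    · have h := (hf.win k hU).1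
      rw [h2 k hU, hl, UPD.ct_pt h]
      exact KFIT.win_subset hL hC hf hk hR hU (hp k h)
    · rw [h1, ← (hf.eq j).1]
      by_cases h : (sp.l j).k = Kind.pt
      · rw [UPD.ct_pt h, End.nearO_pt h]
        exact closedBall_subset_ball (hf.port j h).2.2.2.2
      · rw [UPD.ct_loop h]
        exact End.circ_subset_nearO (by rw [(hf.eq j).1]; exact hok _) (by linarith) r1

theorem st_kfit : St_KFIT := by
  classical
  intro J J0 L Cw W K pr sp fd p G q s t dC d Γe e lA hf hp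
  refine ⟨⟨fun a b h => hf.inj (Sum.inr_injective h), fun j => ⟨?_, fun h => ?_⟩, ?_, hf.kit, ?_,
    fun j hj => ?_, fun j hj => hf.port j hj, fun k hk => ?_⟩, fun h j hj => ?_, ?_,
    Finset.sum_map _ _ _, Finset.card_map _, fun k => ⟨?_, ?_⟩,
    fun P l h0 r0 τ τ' R hτ hS hn ht => ?_⟩
  · change (sp.l j).setW (shW sp d e j) = (K.e (fd.m j)).pert (d (p (fd.m j))) e
    rw [(hp.eq j).2, ← (hp.eq j).1]
    rfl
  · obtain ⟨k, a, b⟩ := KFIT.mem_U.1 h
    obtain rfl : k = fd.m j := Sum.inr_injective b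
    exact (hf.eq j).2 a
  · obtain ⟨j, h⟩ := hf.hub
    exact ⟨j, congrArg Sum.inr h⟩
  · exact ⟨(Finset.card_map _).le.trans hf.num.1, hf.num.2⟩
  · obtain ⟨a1, a2, a3, a4, a5, a6⟩ := hf.ring j hj
    rw [KFIT.chart_inr, KFIT.win_inr]
    refine ⟨a1, a2, fun z hz => ?_, a4, a5, ?_⟩
    · exact KFIT.ndir_map (a3 z hz) _ _ fun _ => rfl
    · exact KFIT.ite_le ⟨fun a => Sum.inr_injective a, fun a => congrArg Sum.inr a⟩ a6
  · obtain ⟨k, hU, rfl⟩ := KFIT.mem_U.1 hk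
    obtain ⟨w1, w2, w3, w4, w5, w6, w7, w8, w9, w10, w11⟩ := hf.win k hU
    refine ⟨w1, ?_, w3, w4, w5, w6, w7, w8, fun k' hk' hne => ?_, w10, fun j hj => ?_⟩
    · obtain ⟨j, h⟩ := hf.hub
      have a : p k = p K.H := by
        rw [hp.win j k (KFIT.mem_win.2 ⟨h, hU⟩), ← h, (hp.eq j).2]
      change (fun z => (K.e k).w z + e * d (p k) (z, e)) =
        fun z => K.hub.w z + e * d (p K.H) (z, e)
      rw [w2, a]
    · obtain ⟨k', hU', rfl⟩ := KFIT.mem_U.1 hk'
      exact w9 k' hU' fun a => hne (congrArg Sum.inr a)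
    · rw [KFIT.chart_inr]
      exact w11 j (Sum.inr_injective hj)
  · rw [KFIT.chart_inr]
    exact h j hj
  · rintro ⟨x0, r0, a1, a2, a3, a4⟩
    refine ⟨x0, r0, a1, a2, a3, fun k hk => ?_⟩
    obtain ⟨k, hU, rfl⟩ := KFIT.mem_U.1 hk
    exact a4 k hU
  · rintro (h | ⟨j, h⟩)
    · obtain ⟨k', -, rfl⟩ := KFIT.mem_U.1 h
      exact ⟨k', rfl⟩
    · exact ⟨_, h.symm⟩
  · rintro ⟨k, rfl⟩
    rcases hp.mem k with h | h
    · exact Or.inr ⟨p k, congrArg Sum.inr h.symm⟩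
    · exact Or.inl (KFIT.mem_U.2 ⟨k, (KFIT.mem_win.1 h).2, rfl⟩)
  · have hT : ∀ j, ((sp.setW (shW sp d e)).l j).gr ((sp.l j).near sp.h sp.r1) ⊆
        (sp.setW (shW sp d e)).T τ' j := fun j y hy =>
      ⟨hy.1, by rw [hy.2, sub_self, norm_zero]; exact hτ.le⟩
    refine ⟨hτ, hS.an, fun j z hz => (hS.mem j z hz).2, fun j y hy h => ?_, fun j k h1 h2 => ?_,
      fun j j' h => (hS.sep j j' h).mono (hT j) (hT j')⟩
    · exact (hS.iso j y h).2 (hy.resolve_right (hS.iso j y h).1)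
    · rcases k with i | k
      · refine disjoint_left.2 fun y y1 y2 => ?_
        have a : ((W.e i).adj (s i) (t i)).k ≠ Kind.pt := End.adj_ne_pt (ht i)
        have b : y.1 ∈ ((W.e i).adj (s i) (t i)).circ := by
          have := y1.1
          rw [UPD.ct_loop (l := (splB W K G q s t dC (fun k => d (p k)) Γe e lA).e (Sum.inl i)) a]
            at this
          exact this
        have c : y.2 = ((W.e i).adj (s i) (t i)).w y.1 + e * dC i (y.1, e) := y1.2
        rw [End.adj_w] at c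
        exact hn i j y.1 y2.1 b (y2.2.symm.trans c)
      · have a : p k ≠ j := by
          rintro rfl
          rcases hp.mem k with h | h
          · exact h1 (congrArg Sum.inr h)
          · exact h2 (by rw [KFIT.win_inr]; exact Finset.mem_map_of_mem _ h)
        refine (hS.sep _ _ a).mono (Subset.trans (fun y hy => ?_) (hT (p k))) (hT j)
        refine ⟨(hp.ct k).2.2 ((hp.ct k).2.1 hy.1), ?_⟩
        have c : y.2 = (K.e k).w y.1 + e * d (p k) (y.1, e) := hy.2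
        rw [hp.w k] at c
        exact c

end Pool.Agent.S6
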