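import Pool.Agent.Lib.S6.SplitC
import Pool.Agent.Lib.SH.B_AMP

open Set Filter Topology Metric
open scoped ContDiff Manifold

noncomputable section

namespace Pool.Agent.S6

open Pool.Agent.CF (End Kind IsCurve Cv)
open Pool.Agent.Lib

namespace KMOD

open UPD

theorem cut {s t : Set ℂ} (hs : IsClosed s) (hd : s ⊆ interior t) : ∃ χ : ℂ → ℂ,
    ContDiff ℝ ∞ χ ∧ (∀ᶠ z in 𝓝ˢ s, χ z = 1) ∧ ∀ z ∉ t, χ z = 0 := by
  obtain ⟨f, a, b, -⟩ := exists_contMDiffMap_one_nhds_of_subset_interior (n := ⊤) 𝓘(ℝ, ℂ) hs hd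
  exact ⟨fun z => (f z : ℂ), Complex.ofRealCLM.contDiff.comp f.contMDiff.contDiff,
    a.mono fun z e => by simp [e], fun z e => by simp [b z e]⟩

theorem dbar_add {f g h : ℂ → ℂ} {z : ℂ} (hf : DifferentiableAt ℝ f z)
    (hg : DifferentiableAt ℝ g z) (e : ∀ᶠ v in 𝓝 z, h v = f v + g v) :
    SH.dbar h z = SH.dbar f z + SH.dbar g z := by
  have : fderiv ℝ h z = fderiv ℝ f z + fderiv ℝ g z :=
    (EventuallyEq.fderiv_eq e).trans (fderiv_fun_add hf hg)
  simp only [SH.dbar, this, add_apply]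
  ring

theorem dbar_congr {f g : ℂ → ℂ} {z : ℂ} (e : ∀ᶠ v in 𝓝 z, f v = g v) :
    SH.dbar f z = SH.dbar g z := by
  simp only [SH.dbar, EventuallyEq.fderiv_eq (𝕜 := ℝ) e]

theorem norm_dbar (f : ℂ → ℂ) (z : ℂ) : ‖SH.dbar f z‖ ≤ ‖fderiv ℝ f z‖ := by
  have a := (fderiv ℝ f z).le_opNorm 1
  have b := (fderiv ℝ f z).le_opNorm Complex.I
  have c := norm_add_le (fderiv ℝ f z 1) (Complex.I * fderiv ℝ f z Complex.I)
  rw [norm_mul, Complex.norm_I] at c
  rw [norm_one] at a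
  rw [Complex.norm_I] at b
  rw [SH.dbar, norm_div, Complex.norm_two]
  linarith

theorem cont_dbar {f : ℂ → ℂ} (hf : ContDiff ℝ ∞ f) : Continuous (SH.dbar f) := by
  have := hf.continuous_fderiv (by simp)
  unfold SH.dbar
  fun_prop

theorem zn_sub {l : End} (ρ : ℝ) (one : Prop) {s : ℝ} (h0 : 0 ≤ s) :
    zn l ρ one s ⊆ zn l ρ False s := by
  by_cases hk : l.k = Kind.pt
  · rw [zn_pt hk, zn_pt hk]
  · rw [zn_two hk ρ not_false]; exact zn_loop hk ρ one h0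

theorem zn_int {l : End} (ho : l.ok) {ρ : ℝ} (hρ : l.k = Kind.pt → 0 < ρ) {s s' : ℝ} (h : s < s') :
    zn l ρ False s ⊆ interior (zn l ρ False s') := by
  by_cases hk : l.k = Kind.pt
  · rw [zn_pt hk, zn_pt hk]
    exact (closedBall_subset_ball (mul_lt_mul_of_pos_left (Real.exp_lt_exp.2 h) (hρ hk))).trans
      ball_subset_interior_closedBall
  · rw [zn_two hk ρ not_false, zn_two hk ρ not_false]
    exact (End.ann_mono (Icc_subset_Ioo (neg_lt_neg h) h)).trans (interior_maximal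
      (End.ann_mono Ioo_subset_Icc_self) (End.isOpen_ann (ho.pos hk) isOpen_Ioo))

variable {I : Type} {fx : Fix I} {F : I → ℂ → ℂ} {hz : ℝ} {A B : Cv} {W : Wd I A.ι}
  {V : Wd I B.ι}

theorem zn_dom (h : Two fx F hz A B W V) (k : A.ι) {s : ℝ} {z : ℂ}
    (a : z ∈ zn (A.e k) (W.pr k) False s) (d : z ∈ fx.dom (W.cp k)) : z ∈ W.zn A s k := by
  unfold Wd.zn
  by_cases hk : (A.e k).k = Kind.pt
  · rw [zn_pt hk] at a ⊢; exact a
  rw [zn_two hk _ not_false] at a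
  by_cases e : k = A.H
  · rw [zn_one hk _ e]
    refine ⟨a.1, (End.side_iff hk ((h.cA.ok k).pos hk) a.1).1 ?_, a.2.2⟩
    subst e
    have o : (A.e A.H).k = Kind.out := h.oA
    refine ⟨fun _ => ?_, fun x => absurd (o.symm.trans x) (by decide)⟩
    have := d.2
    rwa [h.sA.hub.1, h.sA.hub.2] at this
  · rw [zn_two hk _ e]; exact a

/-- in thin zones the wall meets the sheet only on the contact set -/
theorem meet (h : Two fx F hz A B W V) (k : A.ι) : ∀ᶠ t in 𝓝[>] (0 : ℝ), ∀ z ∈ W.zn A t k,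
    F (W.cp k) z = (A.e k).w z → z ∈ ct (A.e k) (W.pr k) := by
  have p := h.sA.pr k
  obtain ⟨a, a0, a1⟩ := (nhdsGT_basis (0 : ℝ)).eventually_iff.1 p.pos
  obtain ⟨b, b0, b1⟩ : ∃ b < (0 : ℝ), (A.e k).k ≠ Kind.pt ∧ k ≠ A.H →
      ∀ s ∈ Ioo b 0, W.Ef k s < 0 := by
    by_cases e : (A.e k).k ≠ Kind.pt ∧ k ≠ A.H
    · obtain ⟨b, b0, b1⟩ := (nhdsLT_basis (0 : ℝ)).eventually_iff.1 (p.neg e)
      exact ⟨b, b0, fun _ s hs => b1 hs⟩
    · exact ⟨-1, by norm_num, fun f => absurd f e⟩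
  filter_upwards [Ioo_mem_nhdsGT a0, Ioo_mem_nhdsGT (neg_pos.2 b0), Ioo_mem_nhdsGT h.pos]
    with t t1 t2 t3 z c d
  have c' := zn_le (endW h.sA k) t3.2.le c
  rw [h.sA.exact k z c', add_eq_left, mul_eq_zero, Complex.ofReal_eq_zero] at d
  unfold Wd.zn at c
  by_cases hk : (A.e k).k = Kind.pt
  · obtain ⟨q0, -, g, -, q1⟩ := h.sA.port k hk
    rw [ct_pt hk, mem_closedBall_iff_norm]
    by_contra f
    have f' := not_le.1 f
    have n : z ≠ (A.e k).c := fun e => by rw [e, sub_self, norm_zero] at f'; linarith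
    rw [wl_pt hk, hole_dep, (q1 z c').2 n] at d
    rw [zn_pt hk, mem_closedBall_iff_norm] at c
    refine d.elim (a1 ⟨Real.log_pos ((one_lt_div q0).2 f'), lt_of_le_of_lt ?_ t1.2⟩).ne'
      (div_ne_zero (q1 z c').1 (sub_ne_zero.2 n))
    rw [Real.log_le_iff_le_exp (div_pos (q0.trans f') q0), div_le_iff₀ q0, mul_comm]
    exact c
  · rw [wl_loop hk] at d
    have d' := d.resolve_right ((h.sA.loop k hk).2 z c')
    have c2 := zn_loop hk _ _ t1.1.le c
    rw [ct_loop hk, End.mem_circ ((h.cA.ok k).pos hk)]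
    refine ⟨c2.1, le_antisymm (not_lt.1 fun f => (a1 ⟨f, c2.2.2.trans_lt t1.2⟩).ne' d')
      (not_lt.1 fun f => ?_)⟩
    by_cases e : k = A.H
    · rw [zn_one hk _ e] at c; exact f.not_ge c.2.1
    · exact (b1 ⟨hk, e⟩ _ ⟨by linarith [c2.2.1, t2.2], f⟩).ne d'

theorem tends (c : ℝ) (hc : 0 < c) : Tendsto (fun t : ℝ => c * t) (𝓝[>] 0) (𝓝[>] 0) := by
  refine tendsto_nhdsWithin_iff.2 ⟨?_, eventually_mem_nhdsWithin.mono fun t a => mul_pos hc a⟩
  have h : ContinuousAt (fun t : ℝ => c * t) 0 := by fun_prop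
  simpa using h.tendsto.mono_left nhdsWithin_le_nhds

end KMOD

open KMOD UPD

theorem st_kmod : St_KMOD := by
  intro I _ fx σ d hP hd
  have T := (two hP).symm
  suffices H : ∀ k, ∀ᶠ t in 𝓝[>] (0 : ℝ), ∀ (kk : ℕ) (ε : ℝ), 0 < ε → ∀ᶠ e : ℝ in 𝓝[>] 0,
      ∃ M : ℂ → ℂ, SH.Small kk ε M ∧
        (∀ z ∈ fx.dom (σ.WK.cp k), z ∉ σ.WK.zn σ.K (3 * t) k → ∀ᶠ v in 𝓝 z, M v = 0) ∧
        (∀ z ∈ σ.WK.zn σ.K t k, M z = e * d k (z, e)) ∧
        (∀ z ∈ σ.WK.zn σ.K (3 * t) k, σ.F (σ.WK.cp k) z + M z = (σ.K.e k).w z + e * d k (z, e) →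
          z ∈ ct (σ.K.e k) (σ.WK.pr k)) ∧
        ∀ z ∈ σ.WK.zn σ.K (3 * t) k, z ∉ ct (σ.K.e k) (σ.WK.pr k) → ∀ f : ℂ → ℂ,
          (∀ᶠ v in 𝓝 z, f v = σ.F (σ.WK.cp k) v + M v) → SH.dbar f z ≠ 0 by
    filter_upwards [eventually_all.2 H] with t ht kk ε hε
    filter_upwards [eventually_all.2 fun k => ht k kk ε hε] with e he
    choose M m1 m2 m3 m4 m5 using he
    exact ⟨M, m1, m2, m3, m4, m5⟩
  intro k
  have ok := T.cA.ok k
  have pp : (σ.K.e k).k = Kind.pt → 0 < σ.WK.pr k := fun a => (T.sA.port k a).1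
  have sm := hP.wall.smooth (σ.WK.cp k)
  obtain ⟨t0, t1, t2⟩ := zn_shrink ok (fun a => (pp a).le) False
    (N := {z | AnalyticAt ℂ (d k) (z, 0)}) (mem_nhdsSet_iff_forall.2 fun z a =>
      (continuous_id.prodMk continuous_const).continuousAt.eventually
        (hd k (z, 0) ⟨a, rfl⟩).eventually_analyticAt)
  have sd := T.zone_nhds k (N := (σ.Sd : Set E)ᶜ)
    (σ.Sd.finite_toSet.isClosed.isOpen_compl.mem_nhdsSet.2 fun y a b =>
      (hP.wall.saddle y b).1 (Or.inr (T.cg_sub k a)))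
  have io : ∀ s : ℝ, 0 < s → ∀ᶠ t in 𝓝[>] (0 : ℝ), t ∈ Ioc 0 s := fun s a => Ioc_mem_nhdsGT a
  filter_upwards [(tends 3 (by norm_num)).eventually ((meet T k).and (sd.and ((io _ t1).and
    (io _ T.pos))))] with t ⟨a1, a2, a3, a4⟩ kk ε hε
  have t3 : 0 < t := by linarith [a3.1]
  have zz : σ.WK.zn σ.K (3 * t) k ⊆ σ.WK.zn σ.K σ.hz k := zn_le (endW T.sA k) a4.2
  have an : ∀ z ∈ zn (σ.K.e k) (σ.WK.pr k) False (3 * t), AnalyticAt ℂ (d k) (z, 0) :=
    t2 _ a3.2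
  have s3 : σ.WK.zn σ.K (3 * t) k ⊆ zn (σ.K.e k) (σ.WK.pr k) False (3 * t) := zn_sub _ _ a3.1.le
  have s2 : zn (σ.K.e k) (σ.WK.pr k) False (2 * t) ⊆ zn (σ.K.e k) (σ.WK.pr k) False (3 * t) :=
    zn_mono (by linarith) fun a => ⟨(pp a).le, le_rfl⟩
  have re : ∀ z ∈ σ.WK.zn σ.K (3 * t) k, z ∉ ct (σ.K.e k) (σ.WK.pr k) →
      SH.dbar (σ.F (σ.WK.cp k)) z ≠ 0 := fun z a b =>
    (hP.wall.real _ z (T.sA.dom k (zz a)) fun c => c.elim (T.zn_off (zz a))
      fun c => b (T.zn_on (zz a) c)).resolve_right (a2 z a _ (by simpa using t3.le))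
  obtain ⟨χ, x1, x2, x3⟩ := cut (isCompact_zn ok (σ.WK.pr k) False t).isClosed
    (zn_int ok pp (show t < 2 * t by linarith))
  obtain ⟨O, o1, o2, o3⟩ := eventually_nhdsSet_iff_exists.1 x2
  have hQ : IsCompact (σ.WK.zn σ.K (3 * t) k \ O) := (isCompact_zn ok _ _ _).diff o1
  have nq : ∀ z ∈ σ.WK.zn σ.K (3 * t) k \ O, z ∉ ct (σ.K.e k) (σ.WK.pr k) := fun z a b =>
    a.2 (o2 (ct_sub_zn ok (fun c => (pp c).le) False t3.le b))
  obtain ⟨c, c0, c1⟩ := hQ.exists_forall_le' (cont_dbar sm).norm.continuousOn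
    fun z a => norm_pos_iff.2 (re z a.1 (nq z a))
  have e1 := SH.st_amp.2 univ _ χ (d k) isOpen_univ (isCompact_zn ok (σ.WK.pr k) False (2 * t))
    (subset_univ _) x1.contDiffOn (fun z _ a => x3 z a)
    (by rintro ⟨z, u⟩ ⟨a, rfl : u = 0⟩; exact an z (s2 a)) (max kk 1) (min ε (c / 2))
    (lt_min hε (half_pos c0))
  have e2 : ∀ᶠ τ in 𝓝 (0 : ℂ), ∀ z ∈ σ.WK.zn σ.K (3 * t) k, AnalyticAt ℂ (d k) (z, τ) :=
    (isCompact_zn ok _ _ _).eventually_forall_of_forall_eventually fun z a =>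
      (continuous_swap.continuousAt (x := ((0 : ℂ), z))).eventually
        (an z (s3 a)).eventually_analyticAt
  have e3 : ∀ᶠ τ in 𝓝 (0 : ℂ), ∀ z ∈ σ.WK.zn σ.K (3 * t) k \ O,
      σ.F (σ.WK.cp k) z + τ * (χ z * d k (z, τ)) - ((σ.K.e k).w z + τ * d k (z, τ)) ≠ 0 := by
    refine hQ.eventually_forall_of_forall_eventually fun z a => ?_
    have b1 : ContinuousAt (fun p : ℂ × ℂ => d k (p.2, p.1)) (0, z) :=
      ContinuousAt.comp (f := Prod.swap) (an z (s3 a.1)).continuousAt continuous_swap.continuousAt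
    have b2 : ContinuousAt (fun p : ℂ × ℂ => (σ.K.e k).w p.2) (0, z) :=
      ContinuousAt.comp (f := Prod.snd) (T.sA.an k z (zz a.1)).continuousAt continuousAt_snd
    refine ContinuousAt.eventually_ne (((sm.continuous.comp continuous_snd).continuousAt.add
      (continuousAt_fst.mul ((x1.continuous.comp continuous_snd).continuousAt.mul b1))).sub
      (b2.add (continuousAt_fst.mul b1))) ?_
    simpa [sub_eq_zero] using fun b => nq z a (a1 z a.1 b)
  have ct0 : Tendsto (fun e : ℝ => (e : ℂ)) (𝓝[>] 0) (𝓝 0) := by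
    simpa using (Complex.continuous_ofReal.tendsto 0).mono_left nhdsWithin_le_nhds
  filter_upwards [ct0.eventually (e1.and (e2.and e3))] with e ⟨f1, f2, f3⟩
  rw [indicator_univ] at f1
  refine ⟨fun z => e * (χ z * d k (z, e)), ⟨f1.1, fun j a z =>
    (f1.2 j (a.trans (le_max_left _ _)) z).trans (min_le_left _ _)⟩, fun z a b => ?_,
    fun z a => ?_, fun z a b => ?_, fun z a b f g => ?_⟩
  · filter_upwards [(isCompact_zn ok (σ.WK.pr k) False (2 * t)).isClosed.isOpen_compl.mem_nhds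
      fun c => b (zn_dom T k (s2 c) a)] with v c
    rw [x3 v c, zero_mul, mul_zero]
  · simp only [o3 z (o2 (zn_sub _ _ t3.le a)), one_mul]
  · by_cases q : z ∈ O
    · simp only [o3 z q, one_mul, add_left_inj] at b
      exact a1 z a b
    · exact absurd (sub_eq_zero.2 b) (f3 z ⟨a, q⟩)
  · rw [dbar_add (sm.differentiable (by simp) z) (f1.1.differentiable (by simp) z) g]
    by_cases q : z ∈ O
    · have u : DifferentiableAt ℂ (fun v : ℂ => (e : ℂ) * d k (v, e)) z :=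
        (analyticAt_const.mul (AnalyticAt.comp (f := fun v : ℂ => (v, (e : ℂ))) (f2 z a)
          (analyticAt_id.prod analyticAt_const))).differentiableAt
      rw [dbar_congr (f := fun v : ℂ => (e : ℂ) * (χ v * d k (v, e)))
        (g := fun v : ℂ => (e : ℂ) * d k (v, e))
        (by filter_upwards [o1.mem_nhds q] with v r using by rw [o3 v r, one_mul]),
        SH.dbar_eq_zero u, add_zero]
      exact re z a b
    · intro r
      have u1 := c1 z ⟨a, q⟩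
      have u2 := (f1.2 1 (le_max_right _ _) z).trans (min_le_right _ _)
      rw [norm_iteratedFDeriv_one] at u2
      have u3 := (norm_dbar _ z).trans u2
      rw [eq_neg_of_add_eq_zero_left r, norm_neg] at u1
      linarith

end Pool.Agent.S6
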