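import Pool.Agent.Lib.S6.SplitC

/-!
Section 6 of the project 9ccfb7: the blocks KREL, ISO, NEWF.
-/

open Set Filter Topology Metric
open scoped ContDiff

noncomputable section

namespace Pool.Agent.S6

open Pool.Agent.CF (End Kind IsCurve Geo SLH Cv Priv SheetFam)
open Pool.Agent.Lib UPD

namespace KREL

/-- points of the surface in a thin tube lie over the zones of the ends of the macro end -/
theorem thin {I J : Type} [Fintype I] [Fintype J] {fx : Fix I} {σ : Conf I} {sp : Sp J}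
    {fd : FD J σ.K.ι} {p : σ.K.ι → J} {τ : ℝ} (h : Pre fx σ) (hp : KPar σ.K σ.WK.pr sp fd p)
    (hz : Zone σ.K σ.WK.pr σ.A sp fd τ) {t : ℝ} (ht : 0 < t) :
    ∀ᶠ ε in 𝓝[>] (0 : ℝ), ∀ j i, ∀ z ∈ fx.dom i, z ∈ (sp.l j).near sp.h sp.r1 →
      ((sp.l j).k = Kind.pt ∨ -ε ≤ (sp.l j).dep z) → ‖σ.F i z - (sp.l j).w z‖ ≤ ε →
      ∃ k, p k = j ∧ σ.WK.cp k = i ∧ z ∈ σ.WK.zn σ.K t k := by
  have T := (two h).symm
  refine eventually_all.2 fun j => eventually_all.2 fun i => nhdsWithin_le_nhds ?_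
  have ok : (sp.l j).ok := (hp.eq j).1 ▸ T.cA.ok _
  have key := ((PCS.isCompact_dom fx i).inter_right
    (End.isCompact_near ok sp.h sp.r1).isClosed).eventually_forall_of_forall_eventually
    (x₀ := (0 : ℝ)) (P := fun ε z => z ∈ fx.dom i →
      ((sp.l j).k = Kind.pt ∨ -ε ≤ (sp.l j).dep z) → ‖σ.F i z - (sp.l j).w z‖ ≤ ε →
      ∃ k, p k = j ∧ σ.WK.cp k = i ∧ z ∈ σ.WK.zn σ.K t k) fun z0 h0 => ?_
  · filter_upwards [key] with ε a z b c using a z ⟨b, c⟩ b
  by_cases e : σ.F i z0 = (sp.l j).w z0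
  swap
  · have hc : ContinuousAt (fun x : ℝ × ℂ => ‖σ.F i x.2 - (sp.l j).w x.2‖ - x.1) (0, z0) :=
      (ContinuousAt.comp (f := Prod.snd) (x := ((0 : ℝ), z0))
        ((T.cont i).continuousAt.sub (hz.an j z0 h0.2).continuousAt).norm
        continuousAt_snd).sub continuousAt_fst
    have p0 : (0 : ℝ) < ‖σ.F i z0 - (sp.l j).w z0‖ - 0 := by simpa using sub_ne_zero.2 e
    filter_upwards [hc.eventually (eventually_gt_nhds p0)] with x a _ _ b
    linarith
  by_cases s : (sp.l j).side z0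
  · obtain ⟨k, rfl, b, c⟩ := T.touch h0.1 (e ▸ hz.mem j z0 h0.2 s)
    have pk : p k = j := by
      by_contra n
      exact disjoint_left.1 (hz.sep _ _ n) (show ((z0, σ.F (σ.WK.cp k) z0) : E) ∈ _ from
        ⟨(hp.ct k).2.2 ((hp.ct k).2.1 b), by rw [← hp.w k]; exact c⟩) ⟨h0.2, e⟩
    filter_upwards [continuousAt_snd.eventually (T.zn_nhds k ht b)] with x a d _ _
    exact ⟨k, pk, rfl, a d⟩
  · have hk : (sp.l j).k ≠ Kind.pt := fun a => s (End.side_pt a z0)
    have z : z0 ≠ (sp.l j).c := by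
      have := h0.2
      rw [End.near_loop hk] at this
      exact this.1
    have d := mt (End.side_iff hk (ok.pos hk) z).2 s
    have hc : ContinuousAt (fun x : ℝ × ℂ => (sp.l j).dep x.2 + x.1) (0, z0) :=
      (ContinuousAt.comp (f := Prod.snd) (x := ((0 : ℝ), z0))
        (End.continuousAt_dep (ok.pos hk) z) continuousAt_snd).add continuousAt_fst
    filter_upwards [hc.eventually (eventually_lt_nhds (b := (0 : ℝ))
      (by simpa using d))] with x a _ b _
    rcases b with b | b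
    · exact absurd b hk
    · linarith

theorem small_sum {κ : Type} (s : Finset κ) {k : ℕ} {ε : ℝ} {M : κ → ℂ → ℂ}
    (h : ∀ i, SH.Small k ε (M i)) : SH.Small k (s.card * ε) fun z => ∑ i ∈ s, M i z := by
  refine ⟨ContDiff.sum fun i _ => (h i).1, fun j hj z => ?_⟩
  have hj' : ((j : ℕ∞) : WithTop ℕ∞) ≤ ∞ := by exact_mod_cast le_top
  rw [iteratedFDeriv_sum fun i _ => (h i).1.of_le hj', Finset.sum_apply]
  refine (norm_sum_le _ _).trans ((Finset.sum_le_card_nsmul s _ ε fun i _ =>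
    (h i).2 j hj z).trans_eq (nsmul_eq_mul _ _))

open Classical in
theorem newF_eq {I : Type} (σ : Conf I) (M : σ.C.ι → ℂ → ℂ) (MK : σ.K.ι → ℂ → ℂ) (i : I) (z : ℂ) :
    newF σ M MK i z = σ.F i z + ∑ κ, if σ.cp κ = i then Sum.elim M MK κ z else 0 := by
  rw [Fintype.sum_sum_type, newF, add_assoc]
  rfl

end KREL

theorem st_krel : St_KREL := by
  intro I J _ _ fx σ sp fd p τ h hp hz t ht
  obtain ⟨ε, e0, H⟩ := ex_pos (KREL.thin h hp hz ht)
  refine ⟨ε / 3, by positivity, ε, e0, fun F' s c1 c2 c3 j y hy ha => ?_⟩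
  rw [PCS.mem_S, PCS.mem_S]
  refine exists_congr fun i => and_congr_right fun d => ⟨fun e => ?_, fun e => ?_⟩
  · have e' : y.2 + s j y.1 = F' i y.1 := e
    obtain ⟨k, rfl, rfl, q⟩ := H j i y.1 d hy.1 ha (by
      rw [show σ.F i y.1 - (sp.l j).w y.1 =
        (y.2 - (sp.l j).w y.1) + s j y.1 - (F' i y.1 - σ.F i y.1) by rw [← e']; ring]
      linarith [norm_sub_le ((y.2 - (sp.l j).w y.1) + s j y.1) (F' i y.1 - σ.F i y.1),
        norm_add_le (y.2 - (sp.l j).w y.1) (s j y.1), hy.2, c1 i y.1 d, c2 j y.1 hy.1])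
    exact add_right_cancel (e'.trans (c3 k y.1 q))
  · obtain ⟨k, rfl, rfl, q⟩ := H j i y.1 d hy.1 ha (by rw [← e]; linarith [hy.2])
    show y.2 + _ = F' _ y.1
    rw [c3 k y.1 q, e]

theorem st_iso : St_ISO := by
  intro J _ P Γ Γ' sp Sig hg hG hn
  have hh := hg.geo.hpos
  have hr := hg.geo.r1pos
  have sub : ∀ j, (sp.l j).near sp.h sp.r1 ⊆ (sp.l j).near (2 * sp.h) (2 * sp.r1) := fun j =>
    (sp.l j).near_mono (by linarith) (by linarith)
  have cw : ∀ j, ContinuousOn (sp.l j).w ((sp.l j).near sp.h sp.r1) := fun j =>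
    ((hg.geo.wan j).mono (sub j)).continuousOn
  have cn := fun j => End.isCompact_near (hg.curve.ok j) sp.h sp.r1
  refine ⟨fun τ => isClosed_iUnion_of_finite fun j => ?_, ?_⟩
  · exact ContinuousOn.preimage_isClosed_of_isClosed
      (f := fun y : E => ‖y.2 - (sp.l j).w y.1‖) (s := Prod.fst ⁻¹' (sp.l j).near sp.h sp.r1)
      (continuousOn_snd.sub ((cw j).comp continuousOn_fst fun _ a => a)).norm
      ((cn j).isClosed.preimage continuous_fst) (isClosed_Iic (a := τ))
  · obtain ⟨τ0, a, b⟩ := ex_pos (eventually_all.2 fun j => tube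
      (p := fun y => y ∉ Γ' ∧ (y ∈ Γ → y.2 = (sp.l j).w y.1 ∧ (sp.l j).side y.1)) (cn j) (cw j)
      fun z c => Eventually.and (hG.isClosed.isOpen_compl.mem_nhds (hn j z c))
        ((hg.geo.loc j z (sub j c)).mono fun _ d => d.1))
    exact ⟨τ0, a, fun τ c j y d => b j y.1 d.1 y.2 (d.2.trans c)⟩

theorem st_newf : St_NEWF := by
  classical
  intro I _ fx σ M MK t kk ε h ht hz hε sM sK oM oK
  have sm : ∀ i κ, SH.Small kk ε fun z => if σ.cp κ = i then Sum.elim M MK κ z else 0 := by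
    intro i κ
    split_ifs
    · rcases κ with k | k
      · exact sM k
      · exact sK k
    · exact ⟨contDiff_const, fun j _ z => by simpa using hε⟩
  have ss := fun i => KREL.small_sum Finset.univ (sm i)
  have off : ∀ κ, ∀ z ∈ fx.dom (σ.cp κ), z ∉ σ.Z (3 * t) κ →
      ∀ᶠ v in 𝓝 z, Sum.elim M MK κ v = 0 := by
    rintro (k | k) z a b
    · filter_upwards [(isCompact_zn (h.alg.hC.curve.ok k) (σ.WC.pr k) (k = σ.C.H)
        (3 * t)).isClosed.isOpen_compl.mem_nhds b] with v c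
      exact by_contra fun d => c (oM k v d)
    · exact oK k z a b
  have one : ∀ κ, ∀ z ∈ σ.Z σ.hz κ, ∀ᶠ v in 𝓝 z,
      newF σ M MK (σ.cp κ) v = σ.F (σ.cp κ) v + Sum.elim M MK κ v := by
    intro κ z a
    have : ∀ κ', ∀ᶠ v in 𝓝 z, κ' ≠ κ →
        (if σ.cp κ' = σ.cp κ then Sum.elim M MK κ' v else 0) = 0 := fun κ' => by
      by_cases b : κ' = κ
      · exact Eventually.of_forall fun _ c => absurd b c
      split_ifs with c
      · filter_upwards [off κ' z (c ▸ Z_dom h.wall κ a) fun d =>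
          disjoint_left.1 (Z_disj h.wall κ' κ b c) (Z_mono h.wall κ' hz d) a] with v d _ using d
      · exact Eventually.of_forall fun _ _ => rfl
    filter_upwards [eventually_all.2 this] with v b
    rw [KREL.newF_eq, Finset.sum_eq_single κ (fun κ' _ c => b κ' c)
      fun c => absurd (Finset.mem_univ κ) c, if_pos rfl]
  refine ⟨fun i => ?_, fun i => ⟨fun j hj z => ?_, le_rfl, le_add_of_nonneg_right (by positivity)⟩,
    fun k => one (Sum.inl k), fun k => one (Sum.inr k), fun i z a b => ?_⟩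
  · rw [show newF σ M MK i = _ from funext (KREL.newF_eq σ M MK i)]
    exact (h.wall.smooth i).add (ss i).1
  · have := (ss i).2 j hj z
    simp only [KREL.newF_eq, add_sub_cancel_left]
    rwa [Finset.card_univ, Fintype.card_sum, Nat.cast_add] at this
  · have : ∀ κ, ∀ᶠ v in 𝓝 z, (if σ.cp κ = i then Sum.elim M MK κ v else 0) = 0 := fun κ => by
      split_ifs with c
      · exact off κ z (c ▸ a) (b κ c)
      · exact Eventually.of_forall fun _ => rfl
    filter_upwards [eventually_all.2 this] with v c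
    rw [KREL.newF_eq, Finset.sum_eq_zero fun κ _ => c κ, add_zero]

end Pool.Agent.S6
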