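import Pool.Agent.Lib.S6.Site3
import Pool.Agent.Lib.CF.Div

/-! Blocks FAM and VCM: convergence of analytic families, comparison of the fibre function with
the linear coordinate. -/

open Set Filter Topology Metric

noncomputable section

namespace Pool.Agent.S6

open Pool.Agent.CF (IsPoly dw dz)
open Pool.Agent.Lib

theorem st_fam : St_FAM := by
  intro Z d d0 o hZ hd h0 ho
  have key : ∀ z ∈ Z, ∀ᶠ p : ℂ × ℂ in 𝓝 ((0 : ℂ), z), AnalyticAt ℂ d (p.2, p.1) ∧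
      ‖d (p.2, p.1) - d (p.2, 0)‖ ≤ o ∧ ‖dz d (p.2, p.1) - dz d (p.2, 0)‖ ≤ o ∧
      ((∀ v ∈ Z, d0 v ≠ 0) → d (p.2, p.1) ≠ 0 ∧
        AnalyticAt ℂ (fun y : ℂ × ℂ => d (y.1, 0) / d y) (p.2, p.1) ∧
        ‖d (p.2, 0) / d (p.2, p.1) - 1‖ ≤ o ∧
        ‖dz (fun y : ℂ × ℂ => d (y.1, 0) / d y) (p.2, p.1)‖ ≤ o) := by
    intro z hz
    have a0 : AnalyticAt ℂ d (z, 0) := hd _ ⟨hz, rfl⟩
    have c1 : ContinuousAt (fun p : ℂ × ℂ => ((p.2, p.1) : ℂ × ℂ)) (0, z) := by fun_prop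
    have c2 : ContinuousAt (fun p : ℂ × ℂ => ((p.2, 0) : ℂ × ℂ)) (0, z) := by fun_prop
    have sm : ∀ (f : ℂ × ℂ → ℂ), ContinuousAt f (z, 0) → ∀ᶠ p : ℂ × ℂ in 𝓝 ((0 : ℂ), z),
        ‖f (p.2, p.1) - f (p.2, 0)‖ ≤ o := fun f hf => by
      have c3 : ContinuousAt (fun p : ℂ × ℂ => ‖f (p.2, p.1) - f (p.2, 0)‖) (0, z) :=
        ((hf.comp_of_eq c1 rfl).sub (hf.comp_of_eq c2 rfl)).norm
      exact (c3.eventually (gt_mem_nhds (a := o) (by simpa using ho))).mono fun _ h => h.le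
    have sm' : ∀ (f : ℂ × ℂ → ℂ), ContinuousAt f (z, 0) → f (z, 0) = 0 →
        ∀ᶠ p : ℂ × ℂ in 𝓝 ((0 : ℂ), z), ‖f (p.2, p.1)‖ ≤ o := fun f hf e => by
      have c3 : ContinuousAt (fun p : ℂ × ℂ => ‖f (p.2, p.1)‖) (0, z) :=
        (hf.comp_of_eq c1 rfl).norm
      exact (c3.eventually (gt_mem_nhds (a := o) (by simpa [e] using ho))).mono fun _ h => h.le
    refine (c1.eventually a0.eventually_analyticAt).and ((sm d a0.continuousAt).and
      ((sm _ (CF.analyticAt_dz a0).continuousAt).and ?_))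
    refine Filter.eventually_imp_distrib_left.2 fun hne => ?_
    have n0 : d (z, 0) ≠ 0 := by
      rw [h0.self_of_nhdsSet z hz]
      exact hne z hz
    have a1 : AnalyticAt ℂ (fun y : ℂ × ℂ => d (y.1, 0) / d y) (z, 0) :=
      (a0.comp_of_eq (f := fun y : ℂ × ℂ => ((y.1, 0) : ℂ × ℂ))
        (analyticAt_fst.prod analyticAt_const) rfl).div a0 n0
    have c4 : ContinuousAt (fun v : ℂ => ((v, 0) : ℂ × ℂ)) z := by fun_prop
    have e1 : dz (fun y : ℂ × ℂ => d (y.1, 0) / d y) (z, 0) = 0 := by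
      have : (fun v : ℂ => d (v, 0) / d (v, 0)) =ᶠ[𝓝 z] fun _ => 1 :=
        (c4.eventually (a0.continuousAt.eventually_ne n0)).mono fun v hv => div_self hv
      exact this.deriv_eq.trans (deriv_const _ _)
    exact (c1.eventually (a0.continuousAt.eventually_ne n0)).and
      ((c1.eventually a1.eventually_analyticAt).and
        ((sm' (fun y => d (y.1, 0) / d y - 1) (a1.continuousAt.sub continuousAt_const)
          (by rw [div_self n0, sub_self])).and (sm' _ (CF.analyticAt_dz a1).continuousAt e1)))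
  have tube := hZ.eventually_forall_of_forall_eventually (x₀ := (0 : ℂ))
    (P := fun e z => AnalyticAt ℂ d (z, e) ∧ ‖d (z, e) - d (z, 0)‖ ≤ o ∧
      ‖dz d (z, e) - dz d (z, 0)‖ ≤ o ∧ ((∀ v ∈ Z, d0 v ≠ 0) → d (z, e) ≠ 0 ∧
        AnalyticAt ℂ (fun y : ℂ × ℂ => d (y.1, 0) / d y) (z, e) ∧ ‖d (z, 0) / d (z, e) - 1‖ ≤ o ∧
        ‖dz (fun y : ℂ × ℂ => d (y.1, 0) / d y) (z, e)‖ ≤ o)) key
  have t1 : Tendsto (fun e : ℝ => (e : ℂ)) (𝓝[>] 0) (𝓝 0) := by
    have := Complex.continuous_ofReal.tendsto 0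
    rw [Complex.ofReal_zero] at this
    exact this.mono_left nhdsWithin_le_nhds
  filter_upwards [t1.eventually tube] with e he z hz
  obtain ⟨a1, a2, a3, a4⟩ := he z hz
  have e0 : (fun v => d (v, 0)) =ᶠ[𝓝 z] d0 := h0.filter_mono (nhds_le_nhdsSet hz)
  have e1 : d (z, 0) = d0 z := e0.self_of_nhds
  have sl : AnalyticAt ℂ (fun v : ℂ => ((v, (e : ℂ)) : ℂ × ℂ)) z :=
    analyticAt_id.prod analyticAt_const
  refine ⟨a1.comp_of_eq sl rfl, e1 ▸ a2, e0.deriv_eq ▸ a3, fun hne => ?_⟩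
  obtain ⟨b1, b2, b3, b4⟩ := a4 hne
  have e2 : (fun v => d (v, 0) / d (v, e)) =ᶠ[𝓝 z] fun v => d0 v / d (v, e) :=
    e0.mono fun v hv => congrArg (· / d (v, e)) hv
  rw [e1] at b3
  exact ⟨b1, (b2.comp_of_eq sl rfl).congr e2, b3, e2.deriv_eq ▸ b4⟩

theorem VCM.alg {G K D q pg pq G0 K0 c0 q0 ν : ℂ} (h1 : G0 ≠ 0) (h2 : K0 ≠ 0) (h3 : c0 ≠ 0)
    (h4 : q0 ≠ 0) : G * pg * K * (ν * D) / (q * pq) =
      ν / (q0 * pq / (G0 * pg * K0 * c0)) * (G * K * D / q / (G0 * K0 * c0 / q0)) := by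
  by_cases a1 : pq = 0
  · simp [a1]
  by_cases a2 : pg = 0
  · simp [a2]
  by_cases a3 : q = 0
  · simp [a3]
  field_simp

theorem st_vcm : St_VCM := by
  intro C K G q g q' w Zc Zb Zs H
  obtain ⟨pC, pK, pG, pq, -, -⟩ := H.poly
  obtain ⟨hw, hC⟩ := H.wan
  obtain ⟨fg, fq, eg, eq, -⟩ := H.fac
  obtain ⟨D, -, D2, D3, D4⟩ := pC.div_snd
  refine ⟨fun y => G y * K y * D (w y.1, y) / q y /
    (G (y.1, w y.1) * K (y.1, w y.1) * dw C (y.1, w y.1) / q (y.1, w y.1)), fun o ho => ?_⟩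
  set Wt : E → ℂ := fun y => G y * K y * D (w y.1, y) / q y /
    (G (y.1, w y.1) * K (y.1, w y.1) * dw C (y.1, w y.1) / q (y.1, w y.1)) with hWt
  have key : ∀ z ∈ Zc, ∀ᶠ p : ℂ × ℂ in 𝓝 ((0 : ℂ), z), AnalyticAt ℂ Wt (p.2, w p.2 + p.1) ∧
      ‖Wt (p.2, w p.2 + p.1) - 1‖ ≤ o := by
    intro z hz
    obtain ⟨n1, n2, n3, n4⟩ := H.ne z hz
    have w1 : AnalyticAt ℂ (fun y : E => w y.1) (z, w z) :=
      (hw z hz).comp_of_eq analyticAt_fst rfl
    have w2 : AnalyticAt ℂ (fun y : E => ((y.1, w y.1) : E)) (z, w z) := analyticAt_fst.prod w1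
    have an : ∀ {F : E → ℂ}, IsPoly F → AnalyticAt ℂ (fun y : E => F (y.1, w y.1)) (z, w z) :=
      fun h => (h.analyticAt _).comp w2
    have n5 := div_ne_zero (mul_ne_zero (mul_ne_zero n3 n2) n1) n4
    have a1 : AnalyticAt ℂ Wt (z, w z) :=
      ((((pG.analyticAt _).mul (pK.analyticAt _)).mul ((D2 _).comp (w1.prod analyticAt_id))).div
        (pq.analyticAt _) n4).div ((((an pG).mul (an pK)).mul (an pC.dw)).div (an pq) n4) n5
    have e1 : Wt (z, w z) = 1 := by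
      have := D4 (z, w z)
      simp only [hWt]
      rw [this]
      exact div_self n5
    have c1 : Tendsto (fun p : ℂ × ℂ => ((p.2, w p.2 + p.1) : E)) (𝓝 (0, z)) (𝓝 (z, w z)) := by
      have c2 : ContinuousAt (fun p : ℂ × ℂ => ((p.2, w p.2 + p.1) : E)) (0, z) :=
        continuousAt_snd.prodMk ((ContinuousAt.comp (g := w) (f := Prod.snd)
          (hw z hz).continuousAt continuousAt_snd).add continuousAt_fst)
      simpa only [ContinuousAt, add_zero] using c2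
    have c3 : ContinuousAt (fun y => ‖Wt y - 1‖) (z, w z) :=
      (a1.continuousAt.sub continuousAt_const).norm
    exact c1.eventually (a1.eventually_analyticAt.and
      ((c3.eventually (gt_mem_nhds (a := o) (by simpa [e1] using ho))).mono fun _ h => h.le))
  have tube := H.cpt.1.eventually_forall_of_forall_eventually (x₀ := (0 : ℂ))
    (P := fun ν z => AnalyticAt ℂ Wt (z, w z + ν) ∧ ‖Wt (z, w z + ν) - 1‖ ≤ o) key
  obtain ⟨r, hr, hb⟩ := Metric.nhds_basis_closedBall.eventually_iff.1 tube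
  filter_upwards [Ioo_mem_nhdsGT hr] with R hR s s1 s2 s3 s4 s5 s6 z hz
  rw [s1, s2, s3, s4, s5]
  refine ⟨hw z hz, fun ν hν => ?_⟩
  obtain ⟨a1, a2⟩ := hb (mem_closedBall_zero_iff.2 (hν.trans hR.2.le)) z hz
  refine ⟨a1, a2.trans s6, ?_⟩
  obtain ⟨n1, n2, n3, n4⟩ := H.ne z hz
  have c1 : ContinuousAt (fun v : ℂ => ((v, w v) : E)) z :=
    continuousAt_id.prodMk (hw z hz).continuousAt
  have ev : ∀ᶠ v in 𝓝 z, C (v, w v) = 0 ∧ dw C (v, w v) ≠ 0 ∧ K (v, w v) ≠ 0 ∧ G (v, w v) ≠ 0 ∧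
      q (v, w v) ≠ 0 := (hC.filter_mono (nhds_le_nhdsSet hz)).and
    ((c1.eventually (pC.dw.continuous.continuousAt.eventually_ne n1)).and
      ((c1.eventually (pK.continuous.continuousAt.eventually_ne n2)).and
        ((c1.eventually (pG.continuous.continuousAt.eventually_ne n3)).and
          (c1.eventually (pq.continuous.continuousAt.eventually_ne n4)))))
  have c2 : ContinuousAt (fun y : E => y.1) (z, w z + ν) := continuousAt_fst
  filter_upwards [c2.eventually ev] with y hy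
  obtain ⟨b0, b1, b2, b3, b4⟩ := hy
  have e1 := D3 (w y.1) y
  rw [b0, sub_zero] at e1
  simp only [vF, dF, hWt]
  rw [eg, eq, eg, eq, e1]
  exact VCM.alg b3 b2 b1 b4

end Pool.Agent.S6
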