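import Pool.Agent.Lib.S6.B_PRF
import Pool.Agent.Lib.S6.B_VCM
import Pool.Agent.Lib.CF.All1

/-!
Section 6 of the project 9ccfb7: the local wall of the split.
-/

open Set Filter Topology Metric
open scoped ContDiff

noncomputable section

namespace Pool.Agent.S6

open Pool.Agent.CF (End Kind)
open Pool.Agent.Lib

namespace LOC

theorem key {p q r : ℝ} {a b c : ℂ} (ha : a ≠ 0) (hb : ‖b / a - 1‖ ≤ 1 / 10)
    (hc : ‖c / a - 1‖ ≤ 1 / 10) (h : (|q| + |r|) / 10 < |p + q + r|) :
    (p : ℂ) * a + q * b + r * c ≠ 0 := by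
  intro e
  have e1 : ((p + q + r : ℝ) : ℂ) = -(q * (b / a - 1) + r * (c / a - 1)) := by
    push_cast; field_simp; linear_combination e
  have e2 := congrArg norm e1
  rw [Complex.norm_real, norm_neg, Real.norm_eq_abs] at e2
  have e3 := norm_add_le ((q : ℂ) * (b / a - 1)) (r * (c / a - 1))
  rw [norm_mul, norm_mul, Complex.norm_real, Complex.norm_real, Real.norm_eq_abs,
    Real.norm_eq_abs] at e3
  nlinarith [mul_le_mul_of_nonneg_left hb (abs_nonneg q),
    mul_le_mul_of_nonneg_left hc (abs_nonneg r)]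

theorem k_pos {p q r : ℝ} (hp : 0 ≤ p) (hq : 0 ≤ q) (hr : 0 ≤ r) (h : 0 < p + q + r) :
    (|q| + |r|) / 10 < |p + q + r| := by
  rw [abs_of_nonneg hq, abs_of_nonneg hr, abs_of_pos h]; linarith

theorem k_neg {p q r : ℝ} (hp : p ≤ 0) (hq : q ≤ 0) (hr : r ≤ 0) (h : p + q + r < 0) :
    (|q| + |r|) / 10 < |p + q + r| := by
  rw [abs_of_nonpos hq, abs_of_nonpos hr, abs_of_neg h]; linarith

theorem k_big {p q r : ℝ} (h : 2 * (|q| + |r|) < p) : (|q| + |r|) / 10 < |p + q + r| := by
  linarith [le_abs_self (p + q + r), neg_abs_le q, neg_abs_le r, abs_nonneg q, abs_nonneg r]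

theorem inv_near {a b : ℂ} (ha : a ≠ 0) (hb : b ≠ 0) (h : ‖a / b - 1‖ ≤ 1 / 100) :
    ‖b / a - 1‖ ≤ 1 / 50 := by
  have h1 : 1 / 2 ≤ ‖a / b‖ := by
    have := norm_sub_norm_le (1 : ℂ) (a / b)
    rw [norm_one, norm_sub_rev] at this
    linarith
  have e : b / a - 1 = -(a / b - 1) / (a / b) := by field_simp; ring
  rw [e, norm_div, norm_neg, div_le_iff₀ (by linarith)]
  linarith

/-- the outer cut-off -/
def chi (t s : ℝ) : ℝ := Real.smoothTransition (6 - 2 * s / t)

theorem chi_smooth (t : ℝ) : ContDiff ℝ ∞ (chi t) :=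
  Real.smoothTransition.contDiff.comp (by fun_prop)

theorem chi_one {t s : ℝ} (ht : 0 < t) (h : s ≤ 5 * t / 2) : chi t s = 1 := by
  have a : 2 * s / t ≤ 5 := by rw [div_le_iff₀ ht]; linarith
  exact Real.smoothTransition.one_of_one_le (by linarith)

theorem chi_zero {t s : ℝ} (ht : 0 < t) (h : 3 * t ≤ s) : chi t s = 0 := by
  have a : 6 ≤ 2 * s / t := by rw [le_div_iff₀ ht]; linarith
  exact Real.smoothTransition.zero_of_nonpos (by linarith)

theorem chi_deriv {t s : ℝ} (ht : 0 < t) (h : s ≤ 2 * t) (f : ℝ → ℝ) :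
    deriv (fun s => chi t s * f s) s = deriv f s := by
  refine EventuallyEq.deriv_eq ?_
  filter_upwards [eventually_lt_nhds (show s < 5 * t / 2 by linarith)] with x a
  rw [chi_one ht a.le, one_mul]

theorem core {l : End} {two : Prop} {Ef : ℝ → ℝ} {d0 : ℂ → ℂ} {d : ℂ × ℂ → ℂ} {s0 lo t : ℝ}
    (H : St0 l two Ef d0 d s0 lo t) {y2 : ℝ} {lm Tw : ℂ → ℂ} {T : ℝ → ℝ} {o : ℝ} {Sad : Set ℂ}
    (ho : o ≤ 1 / 100) (L : Low l d0 lm Tw T s0 y2 t o Sad) (hT : ContDiff ℝ ∞ T)
    (P : Pf (cutE y2 Ef) T (sS y2) y2 t) {e : ℝ} (he : 0 < e) {d1 M : ℂ → ℂ}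
    (h1 : ∀ z ∈ l.ann (Icc lo (3 * t)), AnalyticAt ℂ d1 z ∧ ‖d1 z / d0 z - 1‖ ≤ 1 / 50)
    (hM : ∀ z ∈ l.ann (Ioo (s0 - t) (4 * t)), nL l Ef d0 M z =
      (cutE y2 Ef (l.dep z) : ℂ) * d0 z + e * (chi t (l.dep z) : ℂ) *
        (Tw z * lm z / 2 + (sS y2 (l.dep z) : ℂ) * (d1 z - lm z / 2)))
    (hM0 : ∀ z, z ∉ l.ann (Ioo (s0 - t) (4 * t)) → M z = 0)
    (hs : ∀ y ∈ Icc (2 * t) (3 * t), 2 * e < Ef y ∧
      e * (|deriv (fun s => chi t s * T s) y| + |deriv (fun s => chi t s * sS y2 s) y|) < Ef y) :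
    Loc l two Ef d0 d1 lm Tw s0 lo e y2 t Sad M := by
  obtain ⟨y0, y8, -⟩ := P.num
  obtain ⟨t0, t1⟩ := H.tt
  obtain ⟨f1, f2, f3, f4⟩ := H.foot
  have hr := H.lk.2
  obtain ⟨sE, cE, -, -⟩ := PRF.cutE_ok H.pr y0
  have sS' := PRF.sS_smooth y0
  have a0 : ∀ z, z ≠ l.c → -(4 * t) ≤ l.dep z ∨ lo ≤ l.dep z → l.dep z ≤ 4 * t →
      AnalyticAt ℂ d0 z ∧ d0 z ≠ 0 := fun z a b c => H.an z ⟨a, b.elim (fun b => Or.inr ⟨b, c⟩)
        fun b => Or.inl ⟨by linarith [min_le_right s0 lo], c⟩⟩
  have supp : ∀ z, M z ≠ 0 → z ∈ l.ann (Icc s0 (3 * t)) := by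
    intro z a
    have b : z ∈ l.ann (Ioo (s0 - t) (4 * t)) := by_contra fun b => a (hM0 z b)
    have c := hM z b
    refine ⟨b.1, not_lt.1 fun x => a ?_, not_lt.1 fun x => a ?_⟩
    · rw [cE _ (Or.inl (by linarith)), L.off z b.1 x.le, P.S0 _ (by linarith), nL] at c
      simpa using c
    · rw [cE _ (Or.inr (by linarith)), chi_zero t0 x.le, nL] at c
      simpa using c
  have eq : ∀ z, z ≠ l.c → l.dep z ≤ 2 * t → nL l Ef d0 M z =
      (cutE y2 Ef (l.dep z) : ℂ) * d0 z +
        e * (Tw z / 2 * lm z + (sS y2 (l.dep z) : ℂ) * (d1 z - lm z / 2)) := by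
    intro z a b
    by_cases c : s0 - t < l.dep z
    · rw [hM z ⟨a, c, by linarith⟩, chi_one t0 (by linarith)]
      push_cast; ring
    · rw [nL, hM0 z fun x => c x.2.1, cE _ (Or.inl (by linarith)), P.S0 _ (by linarith),
        div_mul_eq_mul_div, L.off z a (by linarith)]
      simp
  have up : ∀ z, z ≠ l.c → y2 / 16 ≤ l.dep z → l.dep z < 4 * t → nL l Ef d0 M z =
      (cutE y2 Ef (l.dep z) : ℂ) * d0 z +
        ((e / 2 * (chi t (l.dep z) * T (l.dep z)) : ℝ) : ℂ) * lm z +
        ((e / 2 * (chi t (l.dep z) * sS y2 (l.dep z)) : ℝ) : ℂ) * (2 * d1 z - lm z) := by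
    intro z a b c
    rw [hM z ⟨a, by linarith, c⟩, (L.pure z ⟨a, b, c.le⟩).1]
    push_cast; ring
  have nr : ∀ z, z ≠ l.c → y2 / 16 ≤ l.dep z → l.dep z ≤ 3 * t → d0 z ≠ 0 ∧
      ‖lm z / d0 z - 1‖ ≤ 1 / 10 ∧ ‖(2 * d1 z - lm z) / d0 z - 1‖ ≤ 1 / 10 := by
    intro z a b c
    have u := (L.pure z ⟨a, b, by linarith⟩).2.2.2.1
    have v := (h1 z ⟨a, by linarith, c⟩).2
    refine ⟨(a0 z a (Or.inl (by linarith)) (by linarith)).2, by linarith, ?_⟩
    have w := norm_sub_le (2 * (d1 z / d0 z - 1)) (lm z / d0 z - 1)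
    rw [norm_mul, Complex.norm_two] at w
    rw [show (2 * d1 z - lm z) / d0 z - 1 = 2 * (d1 z / d0 z - 1) - (lm z / d0 z - 1) by ring]
    linarith
  have kk : ∀ z, z ≠ l.c → y2 / 16 ≤ l.dep z → l.dep z ≤ 3 * t → ∀ p q r : ℝ,
      (|q| + |r|) / 10 < |p + q + r| →
      (p : ℂ) * d0 z + q * lm z + r * (2 * d1 z - lm z) ≠ 0 := fun z a b c p q r h =>
    key (nr z a b c).1 (nr z a b c).2.1 (nr z a b c).2.2 h
  have E0 : ∀ y, 0 < y → y ≤ 2 * t → 0 ≤ cutE y2 Ef y := fun y a b =>
    nonneg_of_mul_nonneg_right (P.dE y ⟨by linarith, b⟩).2.2 a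
  have T0 : ∀ y, y2 / 8 ≤ y → 0 < T y := fun y a => by
    have m : Monotone T := monotone_of_deriv_nonneg P.dT.1 fun y => (P.dT.2 y).1
    refine lt_of_lt_of_le ?_ (m a)
    rw [P.mid _ ⟨le_rfl, by linarith⟩]; exact Real.exp_pos _
  have c0 : ∀ y, 0 ≤ chi t y ∧ chi t y ≤ 1 := fun y =>
    ⟨Real.smoothTransition.nonneg _, Real.smoothTransition.le_one _⟩
  have an2 : ∀ z, z ≠ l.c → y2 / 16 ≤ l.dep z → l.dep z ≤ 3 * t → AnalyticAt ℂ lm z ∧
      AnalyticAt ℂ (fun v => 2 * d1 v - lm v) z := fun z a b c =>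
    ⟨(L.pure z ⟨a, b, by linarith⟩).2.1, (analyticAt_const.mul (h1 z ⟨a, by linarith, c⟩).1).sub
      (L.pure z ⟨a, b, by linarith⟩).2.1⟩
  refine ⟨supp, eq, fun z a => ?_, fun z a b => ?_, fun z a b c n0 n1 f w hw hf => ?_,
    fun z a => ?_, ?_⟩
  · obtain ⟨a, b, c⟩ := a
    rw [up z a (by linarith) (by linarith)]
    have p1 := mul_nonneg (half_pos he).le (mul_nonneg (c0 (l.dep z)).1 (P.dT.2 (l.dep z)).2.1)
    have p2 := mul_nonneg (half_pos he).le (mul_nonneg (c0 (l.dep z)).1 (P.dS.2 (l.dep z)).2.1)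
    refine kk z a (by linarith) c _ _ _ ?_
    by_cases x : l.dep z ≤ 2 * t
    · have p3 := E0 _ (by linarith) x
      refine k_pos p3 p1 p2 ?_
      rw [chi_one t0 (by linarith)] at p2 ⊢
      nlinarith [mul_pos (half_pos he) (T0 _ b)]
    · have p3 := (hs (l.dep z) ⟨by linarith, c⟩).1
      rw [cE _ (Or.inr (by linarith))]
      exact k_pos (by linarith) p1 p2 (by linarith)
  · obtain ⟨a, a1, a2⟩ := a
    by_contra n
    by_cases x : l.dep z ≤ y2 / 4
    · have g0 := (a0 z a (Or.inr a1) (by linarith)).2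
      have g1 := (h1 z ⟨a, a1, a2⟩).2
      have g2 : ‖Tw z * lm z / d0 z‖ ≤ 1 := by
        rw [norm_div, div_le_one (norm_pos_iff.2 g0)]
        by_cases u : l.dep z ≤ s0
        · rw [L.off z a u, norm_zero]; exact norm_nonneg _
        · exact L.lowb z ⟨a, by linarith, x⟩
      have g3 : cutE y2 Ef (l.dep z) ≤ 0 := by
        rcases le_or_gt 0 (l.dep z) with u | u
        · exact (P.e0 _ ⟨u, by linarith⟩).le
        · rw [cE _ (Or.inl u.le)]
          by_cases v : two
          · exact ((H.op _ (by linarith) fun _ => by linarith [f4 v]).2.2 v u).le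
          · exact (H.pr.one v _ u.le).le
      rw [eq z a (by linarith), P.S0 _ x] at b
      have g4 : ((e - cutE y2 Ef (l.dep z) : ℝ) : ℂ) =
          ((e / 2 : ℝ) : ℂ) * (Tw z * lm z / d0 z) - (e : ℂ) * (d1 z / d0 z - 1) := by
        push_cast at b ⊢
        field_simp
        linear_combination -2 * b
      have g5 := congrArg norm g4
      have g6 := norm_sub_le (((e / 2 : ℝ) : ℂ) * (Tw z * lm z / d0 z))
        ((e : ℂ) * (d1 z / d0 z - 1))
      rw [← g5, norm_mul, norm_mul, Complex.norm_real, Complex.norm_real, Complex.norm_real,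
        Real.norm_of_nonneg (half_pos he).le, Real.norm_of_nonneg he.le,
        Real.norm_of_nonneg (by linarith)] at g6
      nlinarith
    · rw [not_le] at x
      rw [up z a (by linarith) (by linarith)] at b
      refine kk z a (by linarith) a2 (cutE y2 Ef (l.dep z))
        (e / 2 * (chi t (l.dep z) * T (l.dep z) - 1))
        (e / 2 * (chi t (l.dep z) * sS y2 (l.dep z) - 1)) ?_
        (by push_cast at b ⊢; linear_combination b)
      rcases lt_or_gt_of_ne n with u | u
      · rw [chi_one t0 (by linarith), P.e0 _ ⟨by linarith, by linarith⟩, one_mul, one_mul]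
        have p1 := mul_nonneg (half_pos he).le (sub_nonneg.2 (P.dT.2 (l.dep z)).2.2)
        have p2 := mul_pos (half_pos he) (sub_pos.2 (P.S1.2.1 _ u))
        exact k_neg le_rfl (by linarith) (by linarith) (by linarith)
      · rw [P.T1 _ (by linarith)]
        by_cases v : l.dep z ≤ 2 * t
        · rw [chi_one t0 (by linarith), one_mul, one_mul]
          have p1 := E0 _ (by linarith) v
          have p2 := mul_pos (half_pos he) (sub_pos.2 (P.S1.2.2 _ u))
          exact k_pos p1 (by linarith) p2.le (by linarith)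
        · rw [cE _ (Or.inr (by linarith))]
          have p1 := (hs (l.dep z) ⟨by linarith, a2⟩).1
          obtain ⟨p2, p3⟩ := c0 (l.dep z)
          obtain ⟨-, p4, p5⟩ := P.dS.2 (l.dep z)
          have q1 : |chi t (l.dep z) * 1 - 1| ≤ 1 := abs_le.2 ⟨by linarith, by linarith⟩
          have q2 : |chi t (l.dep z) * sS y2 (l.dep z) - 1| ≤ 1 :=
            abs_le.2 ⟨by nlinarith, by nlinarith⟩
          refine k_big ?_
          rw [abs_mul, abs_mul, abs_of_pos (half_pos he)]
          nlinarith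
  · have cd := End.continuousAt_dep hr a
    have ne : ∀ᶠ v in 𝓝 z, v ≠ l.c := isOpen_ne.mem_nhds a
    have dd := (SH.CSM.dep_smooth l hr a).differentiableAt (by simp)
    have dg := SH.CSM.dep_grad l hr a
    rcases lt_trichotomy (l.dep z) s0 with x | x | x
    · have M0 : ∀ᶠ v in 𝓝 z, M v = 0 := by
        filter_upwards [cd.eventually (eventually_lt_nhds x)] with v u
        exact by_contra fun y => absurd (supp v y).2.1 (not_le.2 u)
      have n2 : Ef (l.dep z) ≠ 0 := fun u => n0 (by simp [nL, u, M0.self_of_nhds])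
      have tw : two := by_contra fun u => n2 (H.pr.one u _ (by linarith))
      obtain ⟨g1, g2⟩ := a0 z a (Or.inl (by linarith [c tw])) (by linarith)
      have g3 := (H.op _ (by linarith) fun _ => by linarith [c tw]).1
      have g4 : deriv Ef (l.dep z) ≠ 0 := fun u => by
        rw [u] at g3; linarith [abs_pos.2 n2]
      refine Or.inl (SH.CSM.d1 Unit l.dep (fun _ s => (Ef s : ℂ))
        (fun _ => ((deriv Ef (l.dep z) : ℝ) : ℂ)) (fun _ => d0) f w z dd dg hw
        (fun _ => ⟨(SH.PROF.diff H.pr.flat.1 _).ofReal_comp, g1⟩) ?_ (by simpa using ⟨g4, g2⟩)).2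
      filter_upwards [hf, M0] with v p q
      simp [p, nL, q]
    · have g : Ef s0 = 0 := by
        by_cases u : two
        · rw [f2 u]; exact PCS.PR_zero H.pr
        · exact H.pr.one u _ f1
      refine absurd ?_ n0
      rw [eq z a (by linarith), cE _ (Or.inl (by linarith)), P.S0 _ (by linarith),
        div_mul_eq_mul_div, L.off z a x.le, x, g]
      simp
    · by_cases x' : l.dep z ≤ y2 / 8
      · have ev : ∀ᶠ v in 𝓝 z, nL l Ef d0 M v = ((e / 2 : ℝ) : ℂ) * (Tw v * lm v) := by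
          filter_upwards [ne, cd.eventually (eventually_gt_nhds x),
            cd.eventually (eventually_lt_nhds (show l.dep z < y2 / 4 by linarith))] with v p q r
          have g : cutE y2 Ef (l.dep v) = 0 := by
            rcases le_or_gt 0 (l.dep v) with u | u
            · exact P.e0 _ ⟨u, by linarith⟩
            · rw [cE _ (Or.inl u.le)]
              exact H.pr.one (fun k => by linarith [f2 k]) _ u.le
          rw [eq v p (by linarith), g, P.S0 _ r.le]
          push_cast; ring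
        refine L.real z ⟨a, x.le, x'⟩ (fun u => n0 ?_) f w (e / 2) (half_pos he) hw ?_
        · rw [ev.self_of_nhds, u, mul_zero]
        · filter_upwards [hf, ev] with v p q
          rw [p, q]
      · rw [not_le] at x'
        obtain ⟨g1, g2⟩ := an2 z a (by linarith) b
        have sT := (chi_smooth t).mul hT
        have sU := (chi_smooth t).mul sS'
        refine Or.inl (SH.CSM.d1 (Fin 3) l.dep
          ![fun s => (cutE y2 Ef s : ℂ), fun s => ((e / 2 * (chi t s * T s) : ℝ) : ℂ),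
            fun s => ((e / 2 * (chi t s * sS y2 s) : ℝ) : ℂ)]
          ![((deriv (cutE y2 Ef) (l.dep z) : ℝ) : ℂ),
            ((e / 2 * deriv (fun s => chi t s * T s) (l.dep z) : ℝ) : ℂ),
            ((e / 2 * deriv (fun s => chi t s * sS y2 s) (l.dep z) : ℝ) : ℂ)]
          ![d0, lm, fun v => 2 * d1 v - lm v] f w z dd dg hw (fun i => ?_) ?_ ?_).2
        · fin_cases i
          · exact ⟨(SH.PROF.diff sE _).ofReal_comp,
              (a0 z a (Or.inl (by linarith)) (by linarith)).1⟩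
          · exact ⟨((SH.PROF.diff sT _).const_mul _).ofReal_comp, g1⟩
          · exact ⟨((SH.PROF.diff sU _).const_mul _).ofReal_comp, g2⟩
        · filter_upwards [hf, ne,
            cd.eventually (eventually_gt_nhds (show y2 / 16 < l.dep z by linarith)),
            cd.eventually (eventually_lt_nhds (show l.dep z < 4 * t by linarith))] with v p q r s
          rw [p, up v q r.le s, Fin.sum_univ_three]; rfl
        · rw [Fin.sum_univ_three]
          refine kk z a (by linarith) b _ _ _ ?_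
          by_cases v : l.dep z ≤ 2 * t
          · rw [chi_deriv t0 v, chi_deriv t0 v]
            have m : l.dep z ∈ Icc (-(2 * t)) (2 * t) := ⟨by linarith, v⟩
            have p1 : 0 ≤ deriv (cutE y2 Ef) (l.dep z) :=
              nonneg_of_mul_nonneg_right ((abs_nonneg _).trans (P.dE _ m).2.1) (by linarith)
            have p2 := mul_nonneg (half_pos he).le (P.dT.2 (l.dep z)).1
            have p3 := mul_nonneg (half_pos he).le (P.dS.2 (l.dep z)).1
            have p4 : 0 < t / 8 * (deriv T (l.dep z) + deriv (sS y2) (l.dep z)) := by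
              rcases P.steep _ m with u | u
              · linarith [T0 _ x'.le, (P.dS.2 (l.dep z)).2.1]
              · have : sS y2 (l.dep z) - 1 ≠ 0 := by
                  rcases lt_or_gt_of_ne n1 with k | k
                  · linarith [P.S1.2.1 _ k]
                  · linarith [P.S1.2.2 _ k]
                linarith [abs_pos.2 this, abs_nonneg (T (l.dep z) - 1)]
            have p5 := mul_pos (half_pos he) ((mul_pos_iff_of_pos_left (by linarith)).1 p4)
            exact k_pos p1 p2 p3 (by linarith)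
          · rw [not_le] at v
            have p1 : deriv (cutE y2 Ef) (l.dep z) = deriv Ef (l.dep z) :=
              EventuallyEq.deriv_eq ((eventually_gt_nhds v).mono fun s u =>
                cE s (Or.inr (by linarith)))
            obtain ⟨p2, p3⟩ := hs (l.dep z) ⟨v.le, b⟩
            have p4 := (H.op (l.dep z) (by linarith) fun _ => by linarith).1
            rw [abs_of_pos (by linarith)] at p4
            have p5 : 0 < deriv Ef (l.dep z) :=
              (mul_pos_iff_of_pos_left (show 0 < t / 64 by linarith)).1 (by linarith)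
            refine k_big ?_
            rw [p1, abs_mul, abs_mul, abs_of_pos (half_pos he)]
            nlinarith
  · obtain ⟨a, b, c⟩ := a
    refine ⟨(h1 z ⟨a, by linarith, by linarith⟩).1, (an2 z a (by linarith) (by linarith)).2,
      by simpa using kk z a (by linarith) (by linarith) 0 0 1 (by norm_num), ?_⟩
    rw [up z a (by linarith) (by linarith), chi_one t0 (by linarith),
      P.e0 _ ⟨by linarith, by linarith⟩, P.T1 _ (by linarith)]
    push_cast; ring
  · have mc : ∀ z ∈ (l.move y2).circ, z ≠ l.c ∧ l.dep z = y2 := fun z a =>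
      (End.mem_sphere_rad hr).1 a
    have g : ∀ z ∈ (l.move y2).circ, AnalyticAt ℂ d0 z ∧ d0 z ≠ 0 := fun z a =>
      a0 z (mc z a).1 (Or.inl (by linarith [(mc z a).2])) (by linarith [(mc z a).2])
    obtain ⟨k, hk⟩ := CF.all_wext.1 (l.move y2) d0 H.lk.1 (End.rad_pos hr _)
      (fun z a => (g z a).1) fun z a => (g z a).2
    refine ⟨k, hk, hk.perturb (fun z a => (g z a).1) (fun z a => (an2 z (mc z a).1
      (by linarith [(mc z a).2]) (by linarith [(mc z a).2])).2) fun z a => ?_⟩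
    have u := (nr z (mc z a).1 (by linarith [(mc z a).2]) (by linarith [(mc z a).2])).2.2
    have v := norm_pos_iff.2 (g z a).2
    rw [div_sub_one (g z a).2, norm_div, div_le_iff₀ v] at u
    linarith

end LOC

open LOC

theorem st_loc : St_LOC := by
  classical
  intro l two Ef d0 d s0 lo t H kk ε hε
  obtain ⟨t0, t1⟩ := H.tt
  obtain ⟨f1, f2, f3, f4⟩ := H.foot
  have hr := H.lk.2
  set U := l.ann (Ioo (s0 - t) (4 * t)) with hU
  have oU : IsOpen U := End.isOpen_ann hr isOpen_Ioo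
  have dU : ContDiffOn ℝ ∞ l.dep U := fun z hz => (SH.CSM.dep_smooth l hr hz.1).contDiffWithinAt
  have aU : ∀ z ∈ U, AnalyticAt ℂ d0 z := fun z a =>
    (H.an z ⟨a.1, Or.inl ⟨by linarith [min_le_left s0 lo, a.2.1], a.2.2.le⟩⟩).1
  have cU : IsCompact {z | z ∈ U ∧ |l.dep z| ≤ t / 2} := by
    have : {z | z ∈ U ∧ |l.dep z| ≤ t / 2} = l.ann (Icc (-(t / 2)) (t / 2)) := by
      ext z
      exact ⟨fun a => ⟨a.1.1, abs_le.1 a.2⟩, fun a =>
        ⟨⟨a.1, by linarith [a.2.1], by linarith [a.2.2]⟩, abs_le.2 a.2⟩⟩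
    rw [this]; exact End.isCompact_ann hr isCompact_Icc
  have e0 := PCS.PR_zero H.pr
  set f : ℝ → ℝ := fun s => if 0 ≤ s then Ef s else 0 with hf
  have f0 : ∀ s ≤ 0, f s = 0 := fun s a => by
    rcases a.eq_or_lt with rfl | a
    · simp [hf, e0]
    · exact if_neg (not_le.2 a)
  have s1 := SH.st_cutp.2 U l.dep d0 f (t / 2) oU (half_pos t0) dU
    (fun z a => (RESET.sm_an (aU z a)).contDiffWithinAt) cU (SH.st_flat.2 Ef H.pr.flat).1.1 f0 kk
    (ε / 3) (by linarith)
  have td : Tendsto (fun y : ℝ => 4 * y) (𝓝[>] 0) (𝓝[>] 0) :=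
    tendsto_nhdsWithin_iff.2 ⟨((continuous_const_mul (4 : ℝ)).tendsto' 0 0
      (mul_zero _)).mono_left nhdsWithin_le_nhds,
      eventually_nhdsWithin_of_forall fun y (a : 0 < y) => show 0 < 4 * y by linarith⟩
  filter_upwards [td.eventually s1] with y2 s1 lm Tw T o Sad ho L hT P
  obtain ⟨y0, y8, -⟩ := P.num
  have sS' := PRF.sS_smooth y0
  have cut : ∀ s, SH.cutP (4 * y2) f s - f s = cutE y2 Ef s - Ef s := fun s => by
    unfold cutE
    split_ifs with a
    · simp [SH.cutP, f0 s a]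
    · simp [SH.cutP, hf, (not_le.1 a).le]
  have rC : ∀ g : ℝ → ℝ, ContDiff ℝ ∞ g → ContDiffOn ℝ ∞ (fun z => (g (l.dep z) : ℂ)) U :=
    fun g a => Complex.ofRealCLM.contDiff.comp_contDiffOn (a.comp_contDiffOn dU)
  have sL : ContDiffOn ℝ ∞ (fun z => (sS y2 (l.dep z) : ℂ) * lm z) U := by
    intro z a
    by_cases b : y2 / 16 ≤ l.dep z
    · exact (rC _ sS' z a).mul (RESET.sm_an (L.pure z ⟨a.1, b, a.2.2.le⟩).2.1).contDiffWithinAt
    · refine ((contDiffAt_const (c := (0 : ℂ))).congr_of_eventuallyEq ?_).contDiffWithinAt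
      filter_upwards [(End.continuousAt_dep hr a.1).eventually
        (eventually_lt_nhds (show l.dep z < y2 / 4 by linarith))] with v c
      simp [P.S0 _ c.le]
  have s2 := SH.amp_real U (l.ann (Icc s0 (3 * t))) (fun z => (chi t (l.dep z) : ℂ) *
      (Tw z * lm z / 2 - (sS y2 (l.dep z) : ℂ) * lm z / 2)) oU
    (End.isCompact_ann hr isCompact_Icc)
    (End.ann_mono fun s a => ⟨by linarith [a.1], by linarith [a.2]⟩)
    ((rC _ (chi_smooth t)).mul ((L.sm.div_const _).sub (sL.div_const _)))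
    (fun z a b => by
      by_cases c : l.dep z ≤ 3 * t
      · have c' : l.dep z < s0 := not_le.1 fun x => b ⟨a.1, x, c⟩
        simp [L.off z a.1 c'.le, P.S0 _ (show l.dep z ≤ y2 / 4 by linarith)]
      · simp [chi_zero t0 (not_le.1 c).le]) kk (ε / 3) (by linarith)
  have s3 := (Complex.continuous_ofReal.tendsto 0).eventually (SH.st_amp.2 U
    (l.ann (Icc 0 (3 * t))) (fun z => (chi t (l.dep z) : ℂ) * (sS y2 (l.dep z) : ℂ)) d oU
    (End.isCompact_ann hr isCompact_Icc)
    (End.ann_mono fun s a => ⟨by linarith [a.1], by linarith [a.2]⟩)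
    ((rC _ (chi_smooth t)).mul (rC _ sS'))
    (fun z a b => by
      by_cases c : l.dep z ≤ 3 * t
      · have c' : l.dep z < 0 := not_le.1 fun x => b ⟨a.1, x, c⟩
        simp [P.S0 _ (show l.dep z ≤ y2 / 4 by linarith)]
      · simp [chi_zero t0 (not_le.1 c).le])
    (H.fam.1.mono (prod_mono (End.ann_mono (Icc_subset_Icc f3 le_rfl)) Subset.rfl)) kk (ε / 3)
    (by linarith))
  have n0 : ∀ v ∈ l.ann (Icc lo (3 * t)), d0 v ≠ 0 := fun v a =>
    (H.an v ⟨a.1, Or.inl ⟨by linarith [min_le_right s0 lo, a.2.1], by linarith [a.2.2]⟩⟩).2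
  have s4 := st_fam _ d d0 (1 / 100) (End.isCompact_ann hr isCompact_Icc) H.fam.1 H.fam.2
    (by norm_num)
  have s5 := (isCompact_Icc (a := 2 * t) (b := 3 * t)).eventually_forall_of_forall_eventually
    (x₀ := (0 : ℝ)) (P := fun e y => 2 * e < Ef y ∧
      e * (|deriv (fun s => chi t s * T s) y| + |deriv (fun s => chi t s * sS y2 s) y|) < Ef y)
    fun y a => by
      have p := (H.op y (by linarith [a.2]) fun _ => by linarith [a.1]).2.1 (by linarith [a.1])
      have c1 : Continuous fun x : ℝ × ℝ => Ef x.2 := H.pr.flat.1.continuous.comp continuous_snd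
      have c2 := (((chi_smooth t).mul hT).continuous_deriv (by simp)).comp
        (continuous_snd (X := ℝ) (Y := ℝ))
      have c3 := (((chi_smooth t).mul sS').continuous_deriv (by simp)).comp
        (continuous_snd (X := ℝ) (Y := ℝ))
      exact ((continuous_const.mul continuous_fst).continuousAt.eventually_lt c1.continuousAt
        (by simpa using p)).and ((continuous_fst.mul (c2.abs.add c3.abs)).continuousAt.eventually_lt
          c1.continuousAt (by simpa using p))
  filter_upwards [nhdsWithin_le_nhds s2, nhdsWithin_le_nhds s3, s4, nhdsWithin_le_nhds s5,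
    self_mem_nhdsWithin] with e s2 s3 s4 s5 he
  refine ⟨_, ((s1.add s2).add s3).mono le_rfl (by linarith), core H ho L hT P he
    (fun z a => ⟨(s4 z a).1, inv_near (n0 z a) ((s4 z a).2.2.2 n0).1 ((s4 z a).2.2.2 n0).2.2.1⟩)
    (fun z a => ?_) (fun z a => by simp [indicator_of_notMem (s := U) a]) s5⟩
  simp only [nL, indicator_of_mem (s := U) a, cut]
  push_cast; ring

end Pool.Agent.S6
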