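import Pool.Agent.Lib.S6.Site2
import Pool.Agent.Lib.SH.B_PROF2

/-!
Windows born in the split: standing hypotheses and basic facts in the chart of the loop.
-/

open Set Filter Topology Metric
open scoped ContDiff

noncomputable section

namespace Pool.Agent.S6

open Pool.Agent.CF (End Kind)
open Pool.Agent.Lib
open Pool.Agent.Lib.SH (bc ov ech pp wch wp wr hgt bw ss cutP)

namespace W3LU

/-- depth in the chart of the loop -/
def dp (z : ℂ) : ℝ := -Real.log ‖z‖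

theorem dp_half {z : ℂ} (h0 : z ≠ 0) (h1 : 0 ≤ dp z) (h2 : dp z ≤ 1) {p : ℂ} (hp : ‖p‖ = 1) :
    dp z / 2 ≤ ‖z - p‖ := by
  have a1 : ‖z‖ = Real.exp (-dp z) := by
    rw [dp, neg_neg, Real.exp_log (norm_pos_iff.2 h0)]
  have a2 := norm_sub_norm_le p z
  rw [norm_sub_rev, hp] at a2
  have a3 : Real.exp (-dp z) * Real.exp (dp z) = 1 := by rw [← Real.exp_add]; simp
  have a4 := Real.add_one_le_exp (dp z)
  have a5 := Real.exp_pos (-dp z)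
  have a6 : Real.exp (-dp z) ≤ 1 - dp z / 2 := by
    by_contra a
    nlinarith [not_le.1 a, mul_nonneg h1 (sub_nonneg.2 h2)]
  linarith

theorem near_exp {p : ℂ} (hp : ‖p‖ = 1) {u : ℂ} (hu : ‖u‖ ≤ 1) :
    ‖p * Complex.exp u - p‖ ≤ 2 * ‖u‖ := by
  rw [show p * Complex.exp u - p = p * (Complex.exp u - 1) by ring, norm_mul, hp, one_mul]
  exact Complex.norm_exp_sub_one_le hu

theorem ex_mono {y2 a b : ℝ} (h0 : 0 < y2) (h : a ≤ b) : ex y2 a ≤ ex y2 b := by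
  unfold ex
  gcongr

theorem ex_pos (y2 a : ℝ) : 0 < ex y2 a := Real.exp_pos _

theorem mono_of {f : ℝ → ℝ} (h : Differentiable ℝ f) (h1 : ∀ y, 0 ≤ deriv f y) : Monotone f :=
  monotone_of_deriv_nonneg h h1

theorem n1_norm {u : ℂ → ℂ} {o : ℝ} {z : ℂ} (h : N1 u o z) :
    ‖u z‖ ≤ 1 + o ∧ ‖2 - u z‖ ≤ 1 + o ∧ 1 - o ≤ (u z).re ∧ 1 - o ≤ (2 - u z).re := by
  have a1 := h.2.1
  have a2 := norm_add_le (u z - 1) 1
  have a3 := norm_sub_le (1 : ℂ) (u z - 1)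
  have a4 := Complex.abs_re_le_norm (u z - 1)
  rw [sub_add_cancel, norm_one] at a2
  rw [norm_one, show (1 : ℂ) - (u z - 1) = 2 - u z by ring] at a3
  rw [abs_le, Complex.sub_re, Complex.one_re] at a4
  refine ⟨by linarith, by linarith, by linarith [a4.1], ?_⟩
  rw [Complex.sub_re]
  have : (2 : ℂ).re = 2 := rfl
  linarith [a4.2]

/-- standing hypotheses -/
structure Ctx (wc : WC) (L ρ : ℝ) (s : SD) (l : End) (h τ a : ℝ) {π π' : Type} [Fintype π]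
    [Fintype π'] (x : π → ℂ) (δ : ℝ) (x' : π' → ℂ) (δ' : ℝ) (lm Tw : ℂ → ℂ) (E1 T : ℝ → ℝ)
    (X K : Set E) (D0 : π' → ℂ → ℝ) (G : ℝ → ℝ) (Bw : ℂ → ℂ) : Prop where
  ok : wc.OK L
  hB : St_BQ
  rho : 0 < ρ ∧ ρ ≤ 1 / 8 ∧ ρ ≤ h / 8 ∧ 64 * δ ≤ ρ
  sep : Sepd (Sum.elim x x') ρ
  ring : s.Ring l True L h τ a x δ x' lm Tw E1 T X K
  ch : ChartB s l True h X K
  hlm : ∀ z, lm z = s.d0 z / bq l x' δ' z
  hbw : SH.BW x' wc.c0 wc.CD δ' L wc.M8 wc.y4 D0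
  bg : SH.BG G wc.th wc.M8
  bz : SH.BZ x' δ' L wc.M8 wc.y4 D0 G wc.th Bw
  tw : ∀ z, Tw z = Bw ((z - l.c) / l.r)
  tg : ∀ y, T y = G (y / δ')
  gg : ∀ u, δ' * u ≤ 3 * s.y2 / 8 → G u = wc.G0 u * ex s.y2 (δ' * u)
  o1 : s.o ≤ 1 / 100
  o2 : 100 * (Fintype.card π' + 1) * δ' ≤ ρ
  o3 : 100000 * wc.M8 * δ' ≤ s.y2
  o4 : s.o ≤ ρ

namespace Ctx

variable {wc : WC} {L ρ : ℝ} {s : SD} {l : End} {h τ a : ℝ} {π π' : Type} [Fintype π]
  [Fintype π'] {x : π → ℂ} {δ : ℝ} {x' : π' → ℂ} {δ' : ℝ} {lm Tw : ℂ → ℂ} {E1 T : ℝ → ℝ}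
  {X K : Set E} {D0 : π' → ℂ → ℝ} {G : ℝ → ℝ} {Bw : ℂ → ℂ}
  (c : Ctx wc L ρ s l h τ a x δ x' δ' lm Tw E1 T X K D0 G Bw)
include c

theorem r0 : 0 < l.r := c.ring.wall.lk.2.1

theorem rne : (l.r : ℂ) ≠ 0 := Complex.ofReal_ne_zero.2 c.r0.ne'

theorem d0' : 0 < δ' := c.hbw.num.2.2.2.2.1

theorem d0 : 0 < δ := c.ring.num'.2.2.2.1

theorem e0 : 0 < s.e := c.ring.num.e.1

theorem y0 : 0 < s.y2 := c.ring.num.y2.1

theorem t0 : 0 < s.t := c.ring.num.y2.2.2.1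

theorem o0 : 0 < s.o := c.t0.trans_le c.ring.num.y2.2.2.2

theorem m8 : 4 ≤ wc.M8 := c.hbw.num.1

theorem pf : Pf E1 T s.S s.y2 s.t := c.ring.wall.pf

theorem yt : 8 * s.y2 ≤ s.t := c.pf.num.2.1

theorem t1 : s.t ≤ 1 / 100 := c.ring.num.y2.2.2.2.trans c.o1

theorem dy : 400000 * δ' ≤ s.y2 := by nlinarith [c.o3, c.m8, c.d0']

theorem dr : 100 * δ' ≤ ρ := by
  have : (0 : ℝ) ≤ Fintype.card π' := Nat.cast_nonneg _
  nlinarith [c.o2, c.d0']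

theorem ech_eq (z : ℂ) : ech l z = l.c + l.r * z := by
  simp [ech, (c.ring.out.1 trivial).1]

theorem an_ech (z : ℂ) : AnalyticAt ℂ (ech l) z := by
  rw [show ech l = fun z => l.c + l.r * z from funext c.ech_eq]
  fun_prop

theorem norm_ech (z p : ℂ) : ‖ech l z - (l.c + l.r * p)‖ = l.r * ‖z - p‖ := by
  rw [c.ech_eq, show l.c + l.r * z - (l.c + l.r * p) = l.r * (z - p) by ring, norm_mul,
    Complex.norm_real, Real.norm_of_nonneg c.r0.le]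

theorem dep_ech (z : ℂ) : l.dep (ech l z) = dp z := by
  have := c.norm_ech z 0
  rw [mul_zero, add_zero, sub_zero] at this
  simp only [End.dep, End.sgn, (c.ring.out.1 trivial).1, if_true, this, dp]
  rw [mul_div_cancel_left₀ _ c.r0.ne']
  simp

theorem ann_ech {z : ℂ} {I : Set ℝ} (h0 : z ≠ 0) (h1 : dp z ∈ I) : ech l z ∈ l.ann I := by
  refine ⟨fun e => h0 ?_, by rwa [c.dep_ech]⟩
  rw [c.ech_eq, add_eq_left] at e
  exact (mul_eq_zero.1 e).resolve_left c.rne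

theorem tw_ech (z : ℂ) : Tw (ech l z) = Bw z := by
  rw [c.tw, c.ech_eq, add_sub_cancel_left, mul_div_cancel_left₀ _ c.rne]

theorem u1 (k : π') : ‖x' k‖ = 1 := c.sep.1 (Sum.inr k)

theorem u0 (j : π) : ‖x j‖ = 1 := c.sep.1 (Sum.inl j)

theorem sep' : Sepd x' ρ :=
  ⟨c.u1, fun k k' e => c.sep.2 (Sum.inr k) (Sum.inr k') fun f => e (Sum.inr.inj f)⟩

section
variable {k : π'} {z : ℂ} (hz : ‖z - x' k‖ ≤ ρ)
include hz

theorem far (j : π ⊕ π') (hj : j ≠ Sum.inr k) : ρ ≤ ‖z - Sum.elim x x' j‖ := by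
  have a1 := c.sep.2 j (Sum.inr k) hj
  have a2 := norm_sub_le_norm_sub_add_norm_sub (Sum.elim x x' j) z (x' k)
  rw [norm_sub_rev (Sum.elim x x' j) z] at a2
  simp only [Sum.elim_inr] at a1
  linarith

theorem low : 1 - ρ ≤ ‖z‖ ∧ ‖z‖ ≤ 1 + ρ := by
  have a1 := norm_sub_norm_le z (x' k)
  have a2 := norm_sub_norm_le (x' k) z
  rw [norm_sub_rev] at a2
  rw [c.u1] at a1 a2
  constructor <;> linarith

theorem ne0 : z ≠ 0 := fun e => by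
  have := (c.low hz).1
  rw [e, norm_zero] at this
  linarith [c.rho.2.1]

theorem memA : Real.exp (-h) ≤ ‖z‖ ∧ ‖z‖ ≤ Real.exp h := by
  obtain ⟨a1, a2⟩ := c.low hz
  obtain ⟨b1, b2, b3, -⟩ := c.rho
  have a4 := Real.add_one_le_exp h
  refine ⟨le_trans ?_ a1, by linarith⟩
  have a3 : Real.exp (-h) * Real.exp h = 1 := by rw [← Real.exp_add]; simp
  have a5 := Real.exp_pos (-h)
  by_contra a
  nlinarith [not_le.1 a, mul_pos b1 (show 0 < 7 - 8 * ρ by linarith)]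

theorem dp_mem (h1 : ‖z‖ ≤ 1) : dp z ∈ Icc 0 h := by
  have a0 := norm_pos_iff.2 (c.ne0 hz)
  refine ⟨neg_nonneg.2 (Real.log_nonpos a0.le h1), ?_⟩
  have := (Real.le_log_iff_exp_le a0).2 (c.memA hz).1
  unfold dp
  linarith

theorem memC (h1 : ‖z‖ ≤ 1) : ech l z ∈ l.ann (Icc (-a) h) :=
  c.ann_ech (c.ne0 hz) ⟨by linarith [(c.dp_mem hz h1).1, c.ring.num'.1], (c.dp_mem hz h1).2⟩

/-- distance from the ports and poles of the pinned windows -/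
theorem far_hq (j : π) {u v : ℝ} (hu : |u| ≤ 2 * δ) (hv : |v| ≤ 2 * δ) :
    l.r * (56 * δ) ≤ ‖ech l z - hq l (x j) u v‖ := by
  have a1 := c.far hz (Sum.inl j) (by simp)
  have a2 : ‖(-u + v * Complex.I : ℂ)‖ ≤ 4 * δ := by
    refine (norm_add_le _ _).trans ?_
    simp only [norm_neg, Complex.norm_real, Real.norm_eq_abs, norm_mul, Complex.norm_I, mul_one]
    linarith
  have a3 := near_exp (c.u0 j) (u := -u + v * Complex.I) (by linarith [c.rho.2.1, c.rho.2.2.2])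
  have a4 := norm_sub_le_norm_sub_add_norm_sub z (x j * Complex.exp (-u + v * Complex.I)) (x j)
  simp only [Sum.elim_inl] at a1
  rw [hq, mul_assoc, c.norm_ech]
  gcongr
  · exact c.r0.le
  · linarith [c.rho.2.2.2]

theorem memR (h1 : ‖z‖ ≤ 1) {u : ℝ} (hu : u ≤ 1) : ech l z ∈ SD.rz l x L δ h (-a) u := by
  refine ⟨c.memC hz h1, fun j => le_trans ?_ (c.far_hq hz j (u := δ) (v := 0)
    (by rw [abs_of_pos c.d0]; linarith [c.d0]) (by simpa using c.d0.le))⟩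
  have a1 : Real.exp (-δ - L) * Real.exp u ≤ 1 := by
    rw [← Real.exp_add, Real.exp_le_one_iff]
    linarith [c.ok.num.1, c.d0]
  have a2 := mul_pos c.r0 c.d0
  nlinarith

/-- the inverse of the secant is analytic and has no zero -/
theorem an_d (h1 : ‖z‖ ≤ 1) :
    AnalyticAt ℂ (fun v => (s.d0 v)⁻¹) (ech l z) ∧ s.d0 (ech l z) ≠ 0 := by
  obtain ⟨m, hm⟩ := c.ring.pole
  obtain ⟨a1, a2, a3⟩ := hm _ (c.memC hz h1)
  have b0 := mul_pos c.r0 c.d0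
  have b1 : ∀ j, ech l z - hq l (x j) δ 0 ≠ 0 := fun j => norm_pos_iff.1 (lt_of_lt_of_le
    (by linarith) (c.far_hq hz j (u := δ) (v := 0)
      (by rw [abs_of_pos c.d0]; linarith [c.d0]) (by simpa using c.d0.le)))
  have b2 : ∀ j, ech l z - hq l (x j) (Real.sqrt 2 * δ) (-δ) ≠ 0 := fun j => norm_pos_iff.1
    (lt_of_lt_of_le (by linarith) (c.far_hq hz j (u := Real.sqrt 2 * δ) (v := -δ) (by
      rw [abs_of_nonneg (mul_nonneg (Real.sqrt_nonneg _) c.d0.le)]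
      have : Real.sqrt 2 ≤ 2 := Real.sqrt_le_iff.2 ⟨by norm_num, by norm_num⟩
      nlinarith [c.d0]) (by rw [abs_neg, abs_of_pos c.d0]; linarith [c.d0])))
  refine ⟨AnalyticAt.congr (a1.mul (Finset.analyticAt_fun_prod _ fun j _ =>
    (analyticAt_id.sub analyticAt_const).div (analyticAt_id.sub analyticAt_const) (b2 j)))
    (a3.mono fun v hv => hv.symm), fun e => ?_⟩
  have := a3.self_of_nhds
  rw [e, inv_zero] at this
  exact mul_ne_zero a2 (Finset.prod_ne_zero_iff.2 fun j _ => div_ne_zero (b1 j) (b2 j)) this.symm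

theorem bq1 (h1 : ‖z‖ ≤ 1) : AnalyticAt ℂ (bq l x' δ') (ech l z) ∧ ‖bq l x' δ' (ech l z)‖ ≤ 1 ∧
    (7 / 4 * δ' ≤ ‖z - x' k‖ → 1 / 7 ≤ ‖bq l x' δ' (ech l z)‖) ∧
    ∃ g : ℂ → ℂ, AnalyticAt ℂ g (ech l z) ∧ g (ech l z) ≠ 0 ∧
      ∀ v, bq l x' δ' (ech l v) = (v - wp (x' k) δ') * (l.r * g (ech l v)) := by
  obtain ⟨a1, a2, a3, a4⟩ := (c.hB l π' x' δ' ρ c.r0 c.d0' c.sep' c.o2 c.rho.2.1).1 z h1
  rw [← c.ech_eq] at a1 a2 a3 a4
  refine ⟨a1, a2, fun b => a3 fun k' => ?_, ?_⟩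
  · by_cases e : k' = k
    · rwa [e]
    · have := c.far hz (Sum.inr k') fun f => e (Sum.inr.inj f)
      simp only [Sum.elim_inr] at this
      linarith [c.dr, c.d0']
  · obtain ⟨g, b1, b2, b3⟩ := a4 k hz
    refine ⟨g, b1, b2, fun v => ?_⟩
    have : hq l (x' k) δ' 0 = l.c + l.r * wp (x' k) δ' := by
      have e : Complex.I * (δ' * Complex.I) = -δ' := by
        linear_combination (δ' : ℂ) * Complex.I_mul_I
      simp [hq, wp, wch, e, mul_assoc]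
    rw [b3, this, c.ech_eq]
    ring

end

/-! ### the wall -/

theorem e1z {y : ℝ} (hy : y ≤ 2 * s.y2) : E1 y = 0 := by
  rcases le_total y 0 with a | a
  · exact ((c.ring.out.1 trivial).2 y a).1
  · exact c.pf.e0 y ⟨a, hy⟩

theorem e1n {y : ℝ} (h0 : 0 ≤ y) (hy : y ≤ 2 * s.t) : 0 ≤ E1 y := by
  rcases h0.eq_or_lt with a | a
  · rw [c.e1z (by linarith [c.y0])]
  · exact nonneg_of_mul_nonneg_right (c.pf.dE y ⟨by linarith [c.t0], hy⟩).2.2 a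

theorem nlow {z : ℂ} (h0 : z ≠ 0) (h1 : dp z ∈ Icc 0 (s.y2 / 4)) :
    s.N (ech l z) = s.e / 2 * Bw z * (s.d0 (ech l z) / bq l x' δ' (ech l z)) := by
  have a1 := c.ring.wall.eq (ech l z) (c.ann_ech h0 (by
    rw [if_pos trivial]; exact ⟨h1.1, by linarith [h1.2, c.yt, c.y0]⟩))
  rw [a1, c.dep_ech, c.e1z (by linarith [h1.2, c.y0]), c.pf.S0 _ h1.2, c.tw_ech, c.hlm]
  push_cast
  ring

theorem str {z : ℂ} (h0 : z ≠ 0) (h1 : dp z ∈ Icc (-(2 * s.t)) (2 * s.t)) :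
    s.d1 (ech l z) ≠ 0 ∧ s.R ≤ s.r * ‖s.d1 (ech l z)‖ ∧ SH.Th s.Θ s.e s.o s.r (ech l z) ∧
      N1 (fun z => s.d0 z / s.d1 z) s.o (ech l z) ∧
      (∀ v v' : ℂ, ‖v‖ ≤ s.r → ‖v'‖ ≤ s.r → s.Θ (ech l z, v) = s.Θ (ech l z, v') → v = v') ∧
      ∀ v : ℂ, ‖v‖ ≤ s.r → ‖v‖ ≤ 2 * ‖s.Θ (ech l z, v)‖ ∧ ‖s.Θ (ech l z, v)‖ ≤ 2 * ‖v‖ := by
  obtain ⟨a1, a2, a3, a4⟩ := c.ring.wall.str _ (c.ann_ech h0 h1)
  have o1 := c.o1
  refine ⟨fun e => ?_, a1, a2, a4, fun v v' b1 b2 e => ?_, fun v b => ?_⟩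
  · rw [e, norm_zero, mul_zero] at a1
    linarith [c.ring.num.R]
  · have := a3 v v' b1 b2
    rw [e, sub_self, zero_sub, norm_neg] at this
    exact sub_eq_zero.1 (norm_le_zero_iff.1 (by nlinarith [norm_nonneg (v - v')]))
  · have b1 := a3 v 0 b (by rw [norm_zero]; linarith [c.ring.num.e.1, c.ring.num.e.2])
    rw [a2.1.self_of_nhds.1, sub_zero, sub_zero] at b1
    have b2 := norm_sub_norm_le (s.Θ (ech l z, v)) v
    have b3 := norm_sub_norm_le v (s.Θ (ech l z, v))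
    rw [norm_sub_rev] at b3
    have b4 := norm_nonneg v
    constructor <;> nlinarith

theorem pure {z : ℂ} (h0 : z ≠ 0) (h1 : dp z ∈ Icc (s.y2 / 8192) (2 * s.t)) :
    Bw z = T (dp z) ∧ N1 (fun z => lm z / s.d1 z) s.o (ech l z) := by
  have y0 := c.y0
  have := c.ring.pure (ech l z) (c.ann_ech h0 (by
    rw [if_pos trivial]; exact ⟨by linarith [h1.1], h1.2⟩)) fun k => by
      rw [c.norm_ech, mul_comm]
      have := dp_half h0 (by linarith [h1.1]) (by linarith [h1.2, c.t1]) (c.u1 k)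
      gcongr
      · exact c.r0.le
      · linarith [h1.1]
  rwa [c.tw_ech, c.dep_ech] at this

theorem nwv {z : ℂ} (h0 : z ≠ 0) (h1 : dp z ∈ Icc (s.y2 / 8192) (2 * s.t)) :
    s.N (ech l z) = wv E1 T s.S (fun z => s.d0 z / s.d1 z) (fun z => lm z / s.d1 z) s.e (dp z)
      (ech l z) * s.d1 (ech l z) := by
  have y0 := c.y0
  have a1 := c.ring.wall.eq (ech l z) (c.ann_ech h0 (by
    rw [if_pos trivial]; exact ⟨by linarith [h1.1], h1.2⟩))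
  have a2 := (c.str h0 ⟨by linarith [h1.1, c.t0], h1.2⟩).1
  rw [a1, c.dep_ech, c.tw_ech, (c.pure h0 h1).1, wv]
  push_cast
  field_simp
  ring

theorem wv_bd {z : ℂ} (h0 : z ≠ 0) (h1 : dp z ∈ Icc (s.y2 / 8192) (2 * s.t)) :
    ‖wv E1 T s.S (fun z => s.d0 z / s.d1 z) (fun z => lm z / s.d1 z) s.e (dp z) (ech l z)‖ ≤ s.r ∧
    s.e / 4 * T (dp z) ≤
      ‖wv E1 T s.S (fun z => s.d0 z / s.d1 z) (fun z => lm z / s.d1 z) s.e (dp z) (ech l z)‖ := by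
  have y0 := c.y0
  have h2 : dp z ∈ Icc (-(2 * s.t)) (2 * s.t) := ⟨by linarith [h1.1, c.t0], h1.2⟩
  obtain ⟨a1, -, a2, -⟩ := n1_norm (c.str h0 h2).2.2.2.1
  obtain ⟨a3, a4, a5, a6⟩ := n1_norm (c.pure h0 h1).2
  have b1 := c.ring.wall.bd _ h2
  have b2 := c.e1n (y := dp z) (by linarith [h1.1]) h1.2
  obtain ⟨-, b3, b4⟩ := c.pf.dT.2 (dp z)
  obtain ⟨-, b5, b6⟩ := c.pf.dS.2 (dp z)
  obtain ⟨e0, e1⟩ := c.ring.num.e
  have o1 := c.o1
  have o0 := c.o0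
  rw [abs_of_nonneg b2] at b1
  unfold wv
  set u1 := s.d0 (ech l z) / s.d1 (ech l z)
  set u2 := lm (ech l z) / s.d1 (ech l z)
  have f1 : 0 ≤ s.e / 2 * T (dp z) := by positivity
  have f2 : 0 ≤ s.e / 2 * s.S (dp z) := by positivity
  constructor
  · refine (norm_add₃_le).trans ?_
    simp only [norm_mul, Complex.norm_real, Real.norm_of_nonneg b2, Real.norm_of_nonneg f1,
      Real.norm_of_nonneg f2]
    have g1 : E1 (dp z) * ‖u1‖ ≤ s.r / 4 * (1 + s.o) := by gcongr; linarith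
    have g2 : s.e / 2 * T (dp z) * ‖u2‖ ≤ s.e / 2 * 1 * (1 + s.o) := by gcongr
    have g3 : s.e / 2 * s.S (dp z) * ‖2 - u2‖ ≤ s.e / 2 * 2 * (1 + s.o) := by gcongr
    nlinarith
  · refine le_trans ?_ (Complex.re_le_norm _)
    simp only [Complex.add_re, Complex.re_ofReal_mul]
    have g1 : 0 ≤ E1 (dp z) * u1.re := mul_nonneg b2 (by linarith)
    have g2 : s.e / 2 * T (dp z) * (1 / 2) ≤ s.e / 2 * T (dp z) * u2.re := by gcongr; linarith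
    have g3 : 0 ≤ s.e / 2 * s.S (dp z) * (2 - u2).re := mul_nonneg f2 (by linarith)
    linarith

theorem inK {y : E} (h0 : y.1 ≠ 0) (h1 : dp y.1 ∈ Icc 0 (2 * s.t))
    (h2 : y.2 - s.w (ech l y.1) = s.N (ech l y.1)) : y ∈ bc (ech l) ⁻¹' K := by
  have := c.ring.kd2 (ech l y.1) (Or.inl (c.ann_ech h0 (by rwa [if_pos trivial])))
  rwa [← h2, add_sub_cancel] at this

theorem gmono : Monotone G := mono_of (c.bg.smooth.differentiable (by simp)) c.bg.mono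

theorem tmono : Monotone T := mono_of c.pf.dT.1 fun y => (c.pf.dT.2 y).1

/-! ### points of the tube over the window -/

section
variable {k : π'} {y : E} (hy : y ∈ s.cX l X) (hz : ‖y.1 - x' k‖ ≤ ρ)
include hy hz

theorem up : ‖y.1‖ ≤ 1 := c.ch.up trivial y hy (c.memA hz).1 (c.memA hz).2

theorem dp0 : 0 ≤ dp y.1 := (c.dp_mem hz (c.up hy hz)).1

theorem cmpV : AnalyticAt ℂ (s.cV l) y ∧
    AnalyticAt ℂ (fun v : E => (v.2 - s.w (ech l v.1)) * (s.d0 (ech l v.1))⁻¹) y ∧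
    ∃ W : ℂ, ‖W - 1‖ ≤ s.o ∧ s.cV l y = (y.2 - s.w (ech l y.1)) * (s.d0 (ech l y.1))⁻¹ * W := by
  obtain ⟨a1, a2⟩ := c.ring.cmp _ (c.memC hz (c.up hy hz))
  obtain ⟨a3, a4, a5⟩ := a2 (y.2 - s.w (ech l y.1)) hy.2
  rw [add_sub_cancel] at a3 a4 a5
  have b0 : AnalyticAt ℂ (bc (ech l)) y := SH.an_bc (c.an_ech _)
  have b1 : AnalyticAt ℂ (fun v : E => ech l v.1) y := (c.an_ech _).comp analyticAt_fst
  have b2 : AnalyticAt ℂ (fun v : E => (v.2 - s.w (ech l v.1)) * (s.d0 (ech l v.1))⁻¹) y :=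
    (analyticAt_snd.sub (a1.comp_of_eq b1 rfl)).mul
      ((c.an_d hz (c.up hy hz)).1.comp_of_eq b1 rfl)
  refine ⟨AnalyticAt.congr (b2.mul (a3.comp_of_eq b0 rfl)) ?_, b2, _, a4, ?_⟩
  · exact (b0.continuousAt.eventually a5).mono fun v hv => by
      simp only [SD.cV, hv, div_eq_mul_inv]; rfl
  · have := a5.self_of_nhds
    rw [div_eq_mul_inv] at this
    exact this

theorem anP : AnalyticAt ℂ (s.cP l x' δ') y :=
  (c.cmpV hy hz).2.1.mul ((c.bq1 hz (c.up hy hz)).1.comp_of_eq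
    ((c.an_ech _).comp analyticAt_fst) rfl)

theorem cmpP : ‖s.cP l x' δ' y‖ ≤ 2 * ‖s.cV l y‖ ∧
    (7 / 4 * δ' ≤ ‖y.1 - x' k‖ → ‖s.cV l y‖ ≤ 8 * ‖s.cP l x' δ' y‖) := by
  obtain ⟨-, -, W, a1, a2⟩ := c.cmpV hy hz
  obtain ⟨-, a3, a4, -⟩ := c.bq1 hz (c.up hy hz)
  have b1 := norm_sub_norm_le W 1
  have b2 := norm_sub_norm_le 1 W
  rw [norm_sub_rev] at b2
  rw [norm_one] at b1 b2
  have o1 := c.o1
  rw [a2, SD.cP, norm_mul _ W, norm_mul _ (bq _ _ _ _)]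
  have b3 := norm_nonneg ((y.2 - s.w (ech l y.1)) * (s.d0 (ech l y.1))⁻¹)
  exact ⟨by nlinarith, fun b => by nlinarith [a4 b]⟩

theorem vth (h1 : dp y.1 ≤ 2 * s.t) : ‖(y.2 - s.w (ech l y.1)) / s.d1 (ech l y.1)‖ ≤ s.r ∧
    s.cV l y = s.Θ (ech l y.1, (y.2 - s.w (ech l y.1)) / s.d1 (ech l y.1)) := by
  obtain ⟨a1, a2, -⟩ := c.str (c.ne0 hz) ⟨by linarith [c.dp0 hy hz, c.t0], h1⟩
  refine ⟨?_, ?_⟩
  · rw [norm_div, div_le_iff₀ (norm_pos_iff.2 a1)]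
    exact le_trans hy.2 a2
  · simp only [SD.Θ, div_mul_cancel₀ _ a1, add_sub_cancel]
    rfl

theorem kpt (hk : y ∈ bc (ech l) ⁻¹' K) :
    dp y.1 ≤ s.t ∧ y.2 - s.w (ech l y.1) = s.N (ech l y.1) := by
  obtain ⟨a1, a2⟩ := c.ring.kd1 _ hy hk (c.memC hz (c.up hy hz))
  refine ⟨?_, sub_eq_iff_eq_add'.2 a2⟩
  rcases a1 with a | ⟨j, a⟩
  · have := a.2.2
    rwa [show (bc (ech l) y).1 = ech l y.1 from rfl, c.dep_ech] at this
  · have b1 := (c.memR hz (c.up hy hz) (u := 1) le_rfl).2 j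
    have b2 : ‖ech l y.1 - hq l (x j) δ 0‖ ≤ _ := mem_closedBall_iff_norm.1 a
    have b3 : Real.exp s.t < Real.exp 1 := Real.exp_lt_exp.2 (by linarith [c.t1])
    have b4 : 0 < 2 * l.r * δ * Real.exp (-δ - L) := by have := c.r0; have := c.d0; positivity
    nlinarith

/-- on the lower part of the wall the linear coordinate is the birth wall -/
theorem pK (h1 : dp y.1 ≤ s.y2 / 4) (hk : y ∈ bc (ech l) ⁻¹' K) (hp : s.cP l x' δ' y ≠ 0) :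
    s.cP l x' δ' y = s.e / 2 * Bw y.1 := by
  have a1 : bq l x' δ' (ech l y.1) ≠ 0 := right_ne_zero_of_mul hp
  have a2 := (c.an_d hz (c.up hy hz)).2
  rw [SD.cP, (c.kpt hy hz hk).2, c.nlow (c.ne0 hz) ⟨c.dp0 hy hz, h1⟩]
  field_simp

theorem pK' (h1 : dp y.1 ≤ s.y2 / 4) (hp : s.cP l x' δ' y ≠ 0)
    (h2 : s.cP l x' δ' y = s.e / 2 * Bw y.1) : y ∈ bc (ech l) ⁻¹' K := by
  have a1 : bq l x' δ' (ech l y.1) ≠ 0 := right_ne_zero_of_mul hp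
  have a2 := (c.an_d hz (c.up hy hz)).2
  refine c.inK (c.ne0 hz) ⟨c.dp0 hy hz, by linarith [c.yt, c.y0]⟩ ?_
  rw [c.nlow (c.ne0 hz) ⟨c.dp0 hy hz, h1⟩, ← h2, SD.cP]
  field_simp

theorem vK (hk : y ∈ bc (ech l) ⁻¹' K) (h1 : s.y2 / 8192 ≤ dp y.1) :
    s.cV l y = s.Θ (ech l y.1, wv E1 T s.S (fun z => s.d0 z / s.d1 z) (fun z => lm z / s.d1 z) s.e
      (dp y.1) (ech l y.1)) := by
  obtain ⟨a1, a2⟩ := c.kpt hy hz hk
  have a3 : dp y.1 ≤ 2 * s.t := by linarith [c.t0]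
  rw [(c.vth hy hz a3).2, a2, c.nwv (c.ne0 hz) ⟨h1, a3⟩, mul_div_cancel_right₀ _
    (c.str (c.ne0 hz) ⟨by linarith [c.dp0 hy hz, c.t0], a3⟩).1]

theorem vK' (h1 : s.y2 / 8192 ≤ dp y.1) (h2 : dp y.1 ≤ 2 * s.t)
    (h3 : s.cV l y = s.Θ (ech l y.1, wv E1 T s.S (fun z => s.d0 z / s.d1 z)
      (fun z => lm z / s.d1 z) s.e (dp y.1) (ech l y.1))) : y ∈ bc (ech l) ⁻¹' K := by
  obtain ⟨a1, -, -, -, a2, -⟩ := c.str (c.ne0 hz) ⟨by linarith [c.dp0 hy hz, c.t0], h2⟩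
  obtain ⟨a3, a4⟩ := c.vth hy hz h2
  have a5 := a2 _ _ a3 (c.wv_bd (c.ne0 hz) ⟨h1, h2⟩).1 (a4.symm.trans h3)
  refine c.inK (c.ne0 hz) ⟨c.dp0 hy hz, h2⟩ ?_
  rw [c.nwv (c.ne0 hz) ⟨h1, h2⟩, ← a5, div_mul_cancel₀ _ a1]

/-- small values lie on the lower part of the wall -/
theorem small (hk : y ∈ bc (ech l) ⁻¹' K)
    (h1 : ‖s.cV l y‖ ≤ 20 * (8 * Real.exp (-512) * s.e)) : dp y.1 ≤ s.y2 / 8 := by
  by_contra a
  have a0 := not_le.1 a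
  have y0 := c.y0
  have e0 := c.e0
  have a1 : dp y.1 ∈ Icc (s.y2 / 8192) (2 * s.t) :=
    ⟨by linarith, by linarith [(c.kpt hy hz hk).1, c.t0]⟩
  obtain ⟨a2, a3⟩ := c.wv_bd (c.ne0 hz) a1
  have a4 := ((c.str (c.ne0 hz) ⟨by linarith [c.dp0 hy hz, c.t0], a1.2⟩).2.2.2.2.2 _ a2).1
  rw [← c.vK hy hz hk a1.1] at a4
  have a5 := c.tmono a0.le
  have a6 : ex s.y2 (s.y2 / 8) = Real.exp (-512) * Real.exp 128 := by
    rw [ex, ← Real.exp_add]; congr 1; field_simp; norm_num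
  rw [c.pf.mid _ ⟨le_rfl, by linarith⟩, a6] at a5
  have a7 : 1280 < Real.exp 128 := by
    have := Real.quadratic_le_exp_of_nonneg (x := 128) (by norm_num)
    linarith
  have a8 := Real.exp_pos (-512)
  have a9 : s.e / 4 * (Real.exp (-512) * Real.exp 128) ≤ s.e / 4 * T (dp y.1) := by gcongr
  nlinarith [mul_pos e0 a8]

/-- large values lie above the cut -/
theorem large (hk : y ∈ bc (ech l) ⁻¹' K)
    (h1 : 8 * Real.exp (-512) * s.e < ‖s.cV l y‖) : s.y2 / 4096 ≤ dp y.1 := by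
  by_contra a
  have a0 := not_le.1 a
  have y0 := c.y0
  have e0 := c.e0
  have d0 := c.d0'
  have dy := c.dy
  have a1 := c.dp0 hy hz
  have a2 : ‖Bw y.1‖ ≤ 7 * ex s.y2 (s.y2 / 2048) * ‖bq l x' δ' (ech l y.1)‖ := by
    rw [c.ech_eq]
    refine (c.hB l π' x' δ' ρ c.r0 c.d0' c.sep' c.o2 c.rho.2.1).2.1 _ _ _ _ _ wc.σ0 _ _ _ _ _ _
      c.hbw c.bg c.bz c.ok.num.2.2.2.2.2.2.1 c.ok.num.2.2.2.2.2.2.2 (c.ne0 hz) (c.up hy hz) ?_
      fun u u0 u1 => ?_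
    · have b1 : δ' * (-Real.log ‖y.1‖ / δ' + 1) = dp y.1 + δ' := by unfold dp; field_simp
      rw [c.gg _ (by rw [b1]; linarith), b1]
      exact (mul_le_of_le_one_left (ex_pos _ _).le (c.ok.G0.mono _).2).trans
        (ex_mono y0 (by linarith))
    · have b1 : δ' * u ≤ δ' * 4 := by gcongr
      rw [c.gg _ (by linarith), mul_comm]
      exact mul_le_mul (ex_mono y0 (by linarith)) (c.ok.G0.steep u u0 (by linarith [c.m8])).2
        (c.ok.G0.pos u u0).le (ex_pos _ _).le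
  have a3 : ex s.y2 (s.y2 / 2048) = Real.exp (-512) * Real.exp (1 / 2) := by
    rw [ex, ← Real.exp_add]; congr 1; field_simp; norm_num
  have a4 : Real.exp (1 / 2) ≤ 2 := by
    have := Real.exp_one_lt_d9
    have b3 : Real.exp (1 / 2) ^ 2 = Real.exp 1 := by rw [← Real.exp_nat_mul]; norm_num
    nlinarith [Real.exp_pos (1 / 2)]
  have a8 := Real.exp_pos (-512)
  obtain ⟨-, -, W, b1, b2⟩ := c.cmpV hy hz
  have b3 := norm_sub_norm_le W 1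
  rw [norm_one] at b3
  have b4 := (c.an_d hz (c.up hy hz)).2
  have b5 : ‖Bw y.1 / bq l x' δ' (ech l y.1)‖ ≤ 14 * Real.exp (-512) := by
    rw [norm_div]
    refine div_le_of_le_mul₀ (norm_nonneg _) (by positivity) (a2.trans ?_)
    rw [a3]
    exact mul_le_mul_of_nonneg_right (by nlinarith) (norm_nonneg _)
  have b6 : s.cV l y = s.e / 2 * (Bw y.1 / bq l x' δ' (ech l y.1)) * W := by
    rw [b2, (c.kpt hy hz hk).2, c.nlow (c.ne0 hz) ⟨a1, by linarith⟩]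
    field_simp
  have b7 : ‖((s.e : ℂ) / 2)‖ = s.e / 2 := by
    rw [norm_div, Complex.norm_real, Real.norm_of_nonneg e0.le]; simp
  rw [b6, norm_mul, norm_mul, b7] at h1
  have b8 : s.e / 2 * ‖Bw y.1 / bq l x' δ' (ech l y.1)‖ * ‖W‖ ≤
      s.e / 2 * (14 * Real.exp (-512)) * (8 / 7) := by
    gcongr
    linarith [c.o1]
  nlinarith

end

end Ctx

end W3LU

end Pool.Agent.S6
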