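import Pool.Agent.Lib.S6.LowN
import Pool.Agent.Lib.S6.B_BQ
import Pool.Agent.Lib.S6.W3A

/-!
The lower wall at the hub.
-/

open Set Filter Topology Metric
open scoped ContDiff

noncomputable section

namespace Pool.Agent.S6

open Pool.Agent.CF (End Kind Cv)
open Pool.Agent.Lib

namespace LOWH

theorem ev_le (c b : ℝ) (hb : 0 < b) : ∀ᶠ δ in 𝓝[>] (0 : ℝ), c * δ ≤ b :=
  (((continuous_const.mul continuous_id).tendsto' (0 : ℝ) 0 (by simp)).eventually
    (eventually_le_nhds hb)).filter_mono nhdsWithin_le_nhds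

theorem ex_sepd {π : Type} [Fintype π] {x : π → ℂ} (hi : Function.Injective x)
    (hu : ∀ k, ‖x k‖ = 1) : ∃ ρ : ℝ, 0 < ρ ∧ ρ ≤ 1 / 8 ∧ Sepd x ρ := by
  have e1 : ∀ᶠ δ in 𝓝[>] (0 : ℝ), ∀ k k', k ≠ k' → 2 * δ ≤ ‖x k - x k'‖ :=
    eventually_all.2 fun k => eventually_all.2 fun k' => by
      by_cases e : k = k'
      · exact Eventually.of_forall fun _ a => absurd e a
      · exact (ev_le _ _ (norm_pos_iff.2 (sub_ne_zero.2 fun a => e (hi a)))).mono fun _ a _ => a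
  obtain ⟨ρ, a, b⟩ := (e1.and (Ioc_mem_nhdsGT (show (0 : ℝ) < 1 / 8 by norm_num))).exists
  exact ⟨ρ, b.1, b.2, hu, a⟩

theorem n1_congr {u v : ℂ → ℂ} {o o' : ℝ} {z : ℂ} (h : N1 u o z) (e : u =ᶠ[𝓝 z] v)
    (ho : o ≤ o') : N1 v o' z :=
  ⟨h.1.congr e, by rw [← e.self_of_nhds]; exact h.2.1.trans ho,
    by rw [← e.deriv_eq]; exact h.2.2.trans ho⟩

theorem phi_le {Φ : ℝ → ℝ} (h : PhiOK Φ) {s : ℝ} (hs : s ≤ -1 / 8) : Φ s ≤ 1 / 7 := by
  rw [(h.exp s hs).1]
  exact (Real.exp_le_exp.2 (by linarith)).trans ((HP.exp_le_eighth (s := 4) le_rfl).trans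
    (by norm_num))

end LOWH

open LOWH in
theorem st_lowh2 : St_LOWH := by
  intro I B W pr PA d Zb t τ o wc L π' _ x' h o0 hw hi hu
  have hk : B.hub.k = Kind.out := h.ok.2
  have hk' : (B.e B.H).k ≠ Kind.pt := by rw [show (B.e B.H).k = Kind.out from hk]; decide
  have hR : 0 < B.R := h.ok.1.pos hk'
  have ew : wk B W B.H = B.hub := UPD.wl_loop hk' _
  obtain ⟨t0, t1⟩ := h.st.tt
  have an : ∀ z ∈ B.hub.ann (Icc (-(4 * t)) (4 * t)),
      AnalyticAt ℂ (B.lam B.H) z ∧ B.lam B.H z ≠ 0 :=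
    fun z hz => h.st.an z (by rw [ew]; exact ⟨hz.1, Or.inr hz.2⟩)
  obtain ⟨Φ, hΦ⟩ := st_prf.1
  obtain ⟨ρ, r0, r1, hs⟩ := ex_sepd hi hu
  obtain ⟨n1, n2, -, n4, n5, n6, n7, n8⟩ := hw.num
  obtain ⟨th1, Cth, th2⟩ := hw.th
  filter_upwards [st_prf.2.2.2.1 Φ t hΦ t0 t1, Ioc_mem_nhdsGT t0] with y2 hP hy
  obtain ⟨y0, y1⟩ := hy
  have m0 : 0 < min o 1 * (y2 / 20000) ^ 2 * min 1 B.R := by positivity
  filter_upwards [new_hub (x' := x') h hw hΦ y0 y1, ev_le (100 * (Fintype.card π' + 1)) _ r0,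
    ev_le (100 * (Fintype.card π' + 1)) _ m0, ev_le (100000 * wc.M8) _ y0,
    ev_le 1 _ (mul_pos o0 y0), ev_le (8 * wc.M8) _ r0, self_mem_nhdsWithin]
    with δ hN d1 d2 d3 d4 d5 d0
  replace d0 : 0 < δ := d0
  choose D0 hD using fun k => hw.shape (x' k) δ (SH.Win.ne0 (hu k)) d0 (by nlinarith)
  have hW : SH.BW x' wc.c0 wc.CD δ L wc.M8 wc.y4 D0 :=
    ⟨⟨n4, n5, n6, by linarith, d0, by linarith⟩, hu,
      fun k k' e => by linarith [hs.2 k k' e], hD⟩
  set G : ℝ → ℝ := fun u => wc.G0 u * Φ (δ * u / y2 - 1 / 2) with hG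
  have bg : SH.BG G wc.th wc.M8 :=
    (st_prf.2.2.2.2.2 Φ wc.G0 wc.M8 wc.σ0 δ y2 hΦ hw.G0 n7 d0 y0).2 _ _ th1 th2
  obtain ⟨Bw, hZ⟩ := SH.st_bz1 π' x' _ _ _ _ _ _ D0 G _ hW bg
  set T : ℝ → ℝ := fun y => wc.G0 (y / δ) * Φ (y / y2 - 1 / 2) with hT
  have eT : ∀ y, T y = G (y / δ) := fun y => by
    simp only [hT, hG, mul_div_cancel₀ _ d0.ne']
  have sl : ContDiff ℝ ∞ fun y => wc.G0 (y / δ) := hw.G0.smooth.comp (contDiff_id.div_const _)
  have sT : ContDiff ℝ ∞ T :=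
    sl.mul (hΦ.smooth.comp ((contDiff_id.div_const _).sub contDiff_const))
  have g0 : ∀ u, 0 ≤ wc.G0 u := fun u => by
    rcases le_or_gt u 0 with a | a
    · exact (hw.G0.zero u a).ge
    · exact (hw.G0.pos u a).le
  have pf : Pf (cutE y2 (W.Ef B.H)) T (sS y2) y2 t :=
    hP _ _ _ h.st.pr h.st.op sl (fun y => ⟨by
      have a : HasDerivAt (fun y => wc.G0 (y / δ)) (deriv wc.G0 (y / δ) * (1 / δ)) y :=
        ((hw.G0.smooth.differentiable (by simp)) (y / δ)).hasDerivAt.comp y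
          ((hasDerivAt_id y).div_const δ)
      rw [a.deriv]
      have := (hw.G0.mono (y / δ)).1
      positivity, g0 _, (hw.G0.mono _).2⟩)
      (fun y a => hw.G0.one _ (by rw [le_div_iff₀ d0]; nlinarith)) fun a => absurd rfl a.2
  obtain ⟨-, q2, q3⟩ := st_bq B.hub π' x' δ ρ hR d0 hs d1 r1
  have z0 : ∀ z, z ≠ B.c → B.hub.dep z ≤ 0 → Bw ((z - B.c) / B.R) = 0 := fun z a b =>
    (hZ.zero _ (Birth.nz_ne hR a)).2 (Or.inl (by
      rw [Birth.norm_nz hk hR a]; exact Real.one_le_exp (by linarith)))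
  have al : ∀ z ∈ B.hub.ann (Icc (-(4 * t)) (4 * t)), ‖z - B.c‖ ≤ B.R → bB B x' δ z ≠ 0 →
      AnalyticAt ℂ (fun z => B.lam B.H z / bB B x' δ z) z := fun z a b c =>
    (an z a).1.div (Birth.an_bB hR hu d0 b) c
  have pu : ∀ z ∈ B.hub.ann (Icc 0 (4 * t)),
      (∀ i, y2 / 20000 * B.R ≤ ‖z - (B.c + B.R * x' i)‖) →
      Bw ((z - B.c) / B.R) = T (B.hub.dep z) ∧
        AnalyticAt ℂ (fun z => B.lam B.H z / bB B x' δ z) z ∧
        N1 (fun v => B.lam B.H v / bB B x' δ v / B.lam B.H v) o z := fun z a b => by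
    have a1 : z ∈ B.hub.ann (Icc (-(4 * t)) (4 * t)) := ⟨a.1, by linarith [a.2.1], a.2.2⟩
    have a2 := Birth.le_R hk hR a.1 a.2.1
    have a3 := q3 (min o 1) (y2 / 20000) z (by positivity) (min_le_right _ _) (by positivity)
      (by linarith) a2 d2 b
    refine ⟨?_, ((an z a1).1.mul a3.1).congr (Eventually.of_forall fun v =>
      (div_eq_mul_inv _ _).symm), n1_congr a3 ?_ (min_le_left _ _)⟩
    · rw [hZ.pure _ (Birth.nz_ne hR a.1) (Or.inl fun i => ?_), Birth.log_nz hk hR a.1, eT]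
      have := b i
      rw [nz_sub hR, mul_comm] at this
      nlinarith [le_of_mul_le_mul_left this hR]
    · filter_upwards [(an z a1).1.continuousAt.eventually_ne (an z a1).2] with v hv
      rw [div_right_comm, div_self hv, one_div]
      rfl
  refine ⟨fun i => B.hub.c + B.hub.r * SH.ws (x' i) δ L,
    fun z => B.lam B.H z / bq B.hub x' δ z, fun z => Bw ((z - B.hub.c) / B.hub.r), T,
    ?_, ⟨sT, pf⟩, hN D0 Bw hW hZ, fun a => absurd rfl a, fun _ => ⟨fun y a => ?_,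
      fun z a b => ?_, fun s s1 s2 s3 => ?_⟩⟩
  · rw [ew, RW.foot_loop hk']
    refine ⟨SH.st_bz3 π' x' _ _ _ _ _ _ D0 G _ Bw B.c B.R _ _ hW bg hZ hR
      (End.isOpen_ann hR isOpen_Ioo) (fun a => a.1 rfl) fun v hv v1 v2 => Birth.sm_an
        (al v ⟨hv.1, by linarith [hv.2.1], hv.2.2.le⟩ v1 (FitNew.bB_ne B x' δ fun k =>
          ⟨by rw [← Birth.hp_wp]; exact v2 k, Birth.ne_ref hR (hu k) d0 v1⟩)),
      fun z a b => mul_eq_zero_of_left (z0 z a b) _, fun z a => ?_, fun z a => ?_,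
      fun z a b f w c c0 hw' hf => ?_⟩
    · refine pu z ⟨a.1, by linarith [a.2.1], a.2.2⟩ fun i => ?_
      have a1 : W3LU.dp ((z - B.c) / B.R) = B.hub.dep z := Birth.log_nz hk hR a.1
      have a2 := W3LU.dp_half (Birth.nz_ne hR a.1) (by rw [a1]; linarith [a.2.1])
        (by rw [a1]; linarith [a.2.2]) (hu i)
      rw [nz_sub hR, mul_comm]
      gcongr
      linarith [a.2.1]
    · have a1 := Birth.log_nz hk hR a.1
      have a2 := q2 _ _ _ _ _ wc.σ0 (1 / 7) _ _ _ _ _ hW bg hZ n7 n8 (Birth.nz_ne hR a.1)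
        (by rw [Birth.norm_nz hk hR a.1, Real.exp_le_one_iff]; linarith [a.2.1])
        (by
          have b1 : δ * (B.hub.dep z / δ + 1) / y2 ≤ 3 / 8 := by
            rw [mul_add, mul_div_cancel₀ _ d0.ne', div_le_iff₀ y0]; nlinarith [a.2.2]
          rw [a1]
          exact (mul_le_of_le_one_left (hΦ.pos _).1.le (hw.G0.mono _).2).trans
            (phi_le hΦ (by linarith)))
        fun u u0 u1 => by
          have b1 : δ * u / y2 ≤ 3 / 8 := by rw [div_le_iff₀ y0]; nlinarith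
          rw [mul_comm]
          exact mul_le_mul (hw.G0.steep u u0 (by linarith)).2 (phi_le hΦ (by linarith))
            (hΦ.pos _).1.le (Real.exp_pos _).le
      rw [show B.hub.c + B.hub.r * ((z - B.c) / B.R) = z from Birth.back hR z] at a2
      rw [norm_mul, norm_div, ← mul_div_assoc]
      refine div_le_of_le_mul₀ (norm_nonneg _) (norm_nonneg _) ?_
      rw [mul_comm]
      exact mul_le_mul_of_nonneg_left (a2.trans_eq (by ring)) (norm_nonneg _)
    · have a1 : z ∈ B.hub.ann (Icc (-(4 * t)) (4 * t)) :=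
        ⟨a.1, by linarith [a.2.1], by linarith [a.2.2]⟩
      have b1 : Bw ((z - B.c) / B.R) ≠ 0 := left_ne_zero_of_mul b
      have b2 : B.lam B.H z / bB B x' δ z ≠ 0 := right_ne_zero_of_mul b
      have b3 : AnalyticAt ℂ (fun v => (c : ℂ) * (B.lam B.H v / bB B x' δ v)) z :=
        analyticAt_const.mul (al z a1 (Birth.le_R hk hR a.1 a.2.1) (div_ne_zero_iff.1 b2).2)
      have b4 : (c : ℂ) * (B.lam B.H z / bB B x' δ z) ≠ 0 :=
        mul_ne_zero (Complex.ofReal_ne_zero.2 c0.ne') b2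
      have b5 : ∀ᶠ v in 𝓝 z, f v = w v +
          Bw ((v - B.c) / B.R) * ((c : ℂ) * (B.lam B.H v / bB B x' δ v)) :=
        hf.mono fun v hv => hv.trans (congrArg _ (mul_left_comm _ _ _))
      by_cases e1 : ∃ k, ‖(z - B.c) / B.R - x' k‖ ≤ 2 * wc.M8 * δ
      · by_cases e2 : ∃ k, (z - B.c) / B.R = SH.ws (x' k) δ L
        · obtain ⟨k, e2⟩ := e2
          exact Or.inr ⟨rfl, k, by rw [← e2]; exact (Birth.back hR z).symm⟩
        · left
          have := (SH.st_bz2 π' x' _ _ _ _ _ _ D0 G _ Bw B.c B.R n2 hw.locf hW bg hZ hR).1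
            ((z - B.c) / B.R) f w (fun v => (c : ℂ) * (B.lam B.H v / bB B x' δ v)) b1 e1
            (fun k e => e2 ⟨k, e⟩)
          rw [Birth.back hR z] at this
          exact this hw' b3 b4 b5
      · left
        have e2 : ∀ᶠ v in 𝓝 z, Bw ((v - B.c) / B.R) = T (B.hub.dep v) := by
          have c1 : ∀ᶠ v in 𝓝 z, ∀ k, 2 * wc.M8 * δ < ‖(v - B.c) / B.R - x' k‖ :=
            eventually_all.2 fun k =>
              (show ContinuousAt (fun v : ℂ => ‖(v - B.c) / B.R - x' k‖) z by fun_prop).eventually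
              (lt_mem_nhds (not_le.1 fun a => e1 ⟨k, a⟩))
          filter_upwards [c1, isOpen_ne.mem_nhds a.1] with v v1 v2
          rw [hZ.pure _ (Birth.nz_ne hR v2) (Or.inl fun k => (v1 k).le), Birth.log_nz hk hR v2, eT]
        have c2 : 0 < deriv T (B.hub.dep z) := by
          have c3 : T (B.hub.dep z) ≠ 0 := fun e => b1 (by rw [e2.self_of_nhds, e]; simp)
          have c4 := lt_of_le_of_ne (pf.dT.2 (B.hub.dep z)).2.1 c3.symm
          have c5 := (pf.low (B.hub.dep z) (by linarith [a.2.2])).1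
          exact (mul_pos_iff_of_pos_left y0).1 (by linarith)
        obtain ⟨c6, c7, -⟩ := SH.st_csm.2.2 B.hub hk' hR
        refine (SH.st_dbs.1 Unit B.hub.dep (fun _ s => (T s : ℂ))
          (fun _ => (deriv T (B.hub.dep z) : ℝ))
          (fun _ v => (c : ℂ) * (B.lam B.H v / bB B x' δ v)) f w z
          ((c6.contDiffAt (isOpen_ne.mem_nhds a.1)).differentiableAt (by simp)) (c7 z a.1) hw'
          (fun _ => ⟨(pf.dT.1 _).hasDerivAt.ofReal_comp, b3⟩) ?_ ?_).2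
        · filter_upwards [b5, e2] with v v1 v2
          rw [v1, v2]; simp
        · simpa using ⟨c2.ne', c0.ne', div_ne_zero_iff.1 b2⟩
  · rw [eT]
    exact bg.zero _ (div_nonpos_of_nonpos_of_nonneg a d0.le)
  · have := pu z ⟨a.1, a.2.1, by linarith [a.2.2]⟩ b
    exact ⟨this.1, this.2.2⟩
  · refine ⟨by rw [s2]; nlinarith, fun z => by rw [s1], D0, G, Bw, hW, bg, hZ, fun _ => rfl, eT,
      fun u a => ?_⟩
    rw [s2] at a ⊢
    have b1 : δ * u / y2 ≤ 3 / 8 := by rw [div_le_iff₀ y0]; linarith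
    simp only [hG, ex]
    rw [(hΦ.exp _ (by linarith)).1]

end Pool.Agent.S6
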