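import Pool.Agent.Lib.S6.Site4
import Pool.Agent.Lib.S6.B_PRF
import Pool.Agent.Lib.S6.Hp

/-!
Section 6 of the project 9ccfb7: the lower wall at a site other than the hub.
-/

open Set Filter Topology Metric
open scoped ContDiff

noncomputable section

namespace Pool.Agent.S6

open Pool.Agent.CF (End Kind Cv)
open Pool.Agent.Lib UPD

theorem st_lowr : St_LOWR := by
  intro I B W pr PA d Zb t τ o k h hk ho
  obtain ⟨⟨Φ, hΦ⟩, -, p3, p4, p5, -⟩ := st_prf
  obtain ⟨⟨lk, lr⟩, ⟨t0, t1⟩, ⟨f1, f2, f3, -⟩, prE, op, an, -⟩ := h.st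
  have rp : (B.e k).k = Kind.pt → 0 < W.pr k := fun a => (h.port a).1.trans_le (h.port a).2.1
  have dn : ∀ {z}, z ≠ (B.e k).c → (wl (B.e k) (pr k)).dep z =
      (wk B W k).dep z - RW.foot (B.e k) (W.pr k) (pr k) := fun a =>
    RW.dep_new (fun b => ⟨rp b, (h.port b).1⟩) a
  have fl : (B.e k).k ≠ Kind.pt → RW.foot (B.e k) (W.pr k) (pr k) = 0 := fun a => f2 ⟨a, hk⟩
  have lc : (wk B W k).c = (B.e k).c := RW.wl_c _ _
  have mz : ∀ {z s}, z ≠ (B.e k).c → (z ∈ W.zn B s k ↔ (wk B W k).dep z ≤ s ∧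
      ((B.e k).k ≠ Kind.pt → -s ≤ (wk B W k).dep z)) := fun a =>
    (RW.mem_zn rp _ a).trans (and_congr Iff.rfl
      ⟨fun b c => (b c).2 hk, fun b c => ⟨fun e => absurd e hk, fun _ => b c⟩⟩)
  have ll : (B.e k).k ≠ Kind.pt → wk B W k = B.e k := fun a => wl_loop a _
  generalize hs : RW.foot (B.e k) (W.pr k) (pr k) = s0 at *
  filter_upwards [p4 Φ t hΦ t0 t1, self_mem_nhdsWithin] with y2 q4 (h0 : 0 < y2) wc L π' _ x' δ' sd
  have sT : ContDiff ℝ ∞ fun y => Real.smoothTransition (8 * (y - s0) / y2) :=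
    Real.smoothTransition.contDiff.comp (by fun_prop)
  have z0 : ∀ y ≤ s0, Real.smoothTransition (8 * (y - s0) / y2) = 0 := fun y a =>
    Real.smoothTransition.zero_of_nonpos (div_nonpos_of_nonpos_of_nonneg (by linarith) h0.le)
  have pf := q4 (W.Ef k) _ _ prE op sT (fun y => ⟨Monotone.deriv_nonneg fun a b c =>
      Real.smoothTransition.monotone (by gcongr), Real.smoothTransition.nonneg _,
      Real.smoothTransition.le_one _⟩)
    (fun y a => Real.smoothTransition.one_of_one_le ((one_le_div h0).2 (by linarith)))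
    fun a y b => z0 y (f2 a ▸ b)
  obtain ⟨T, hT⟩ : ∃ T : ℝ → ℝ,
    T = fun y => Real.smoothTransition (8 * (y - s0) / y2) * Φ (y / y2 - 1 / 2) := ⟨_, rfl⟩
  have T0 : ∀ y ≤ s0, T y = 0 := fun y a => by rw [hT]; beta_reduce; rw [z0 y a, zero_mul]
  have T1 : ∀ y, s0 < y → 0 < T y := fun y a => by
    rw [hT]
    exact mul_pos (Real.smoothTransition.pos_of_pos (div_pos (by linarith) h0)) (hΦ.pos _).1
  have T2 : ContDiff ℝ ∞ T := hT ▸ sT.mul (hΦ.smooth.comp (by fun_prop))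
  rw [← hT] at pf
  have y8 := pf.num.2.1
  obtain ⟨-, c2, c3, -⟩ := p3 _ _ y2 prE h0
  have a1 : ∀ z, z ≠ (wk B W k).c → s0 - t ≤ (wk B W k).dep z → (wk B W k).dep z ≤ 4 * t →
      AnalyticAt ℂ (B.lam k) z ∧ B.lam k z ≠ 0 := fun z a b c =>
    an z ⟨a, Or.inl ⟨(sub_le_sub_right (min_le_left _ _) t).trans b, c⟩⟩
  have pk : ∀ k', par B π' k' = k → k' = Sum.inl k := by
    rintro (j | j) a
    · exact congrArg Sum.inl a
    · exact absurd a.symm hk
  refine ⟨B.lam k, fun z => (T ((wk B W k).dep z) : ℂ), T, ?_, ⟨T2, pf⟩, fun e he => ?_,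
    fun _ => ⟨rfl, rfl, s0, T0⟩, fun a => absurd a hk⟩
  · rw [hs]
    refine ⟨fun z a => ((Complex.ofRealCLM.contDiff.contDiffAt.comp z (T2.contDiffAt.comp z
      (SH.CSM.dep_smooth _ lr a.1))).mul (RESET.sm_an (a1 z a.1 a.2.1.le a.2.2.le).1)).contDiffWithinAt,
      fun z _ a => by rw [T0 _ a]; simp, fun z a => ?_, fun z _ => ?_, fun z a b f w c c0 hw e => ?_⟩
    · obtain ⟨b1, b2⟩ := a1 z a.1 (by linarith [a.2.1]) a.2.2
      have e : (fun v => B.lam k v / B.lam k v) =ᶠ[𝓝 z] fun _ => 1 :=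
        (b1.continuousAt.eventually_ne b2).mono fun v x => div_self x
      exact ⟨rfl, b1, b1.div b1 b2, by rw [e.self_of_nhds]; simpa using ho,
        by rw [e.deriv_eq]; simpa using ho⟩
    · rw [norm_mul, Complex.norm_real, Real.norm_of_nonneg (pf.dT.2 _).2.1]
      exact mul_le_of_le_one_left (norm_nonneg _) (pf.dT.2 _).2.2
    · obtain ⟨b1, b2⟩ := a1 z a.1 (by linarith [a.2.1]) (by linarith [a.2.2])
      have b3 : 0 < T ((wk B W k).dep z) :=
        (pf.dT.2 _).2.1.lt_of_ne fun x => b (by rw [← x]; simp)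
      have b4 : 0 < deriv T ((wk B W k).dep z) := (mul_pos_iff_of_pos_left h0).1
        (lt_of_lt_of_le (by positivity) (pf.low _ (by linarith [a.2.2])).1)
      refine Or.inl (SH.st_dbs.1 Unit (wk B W k).dep (fun _ s => ((c * T s : ℝ) : ℂ))
        (fun _ => ((c * deriv T ((wk B W k).dep z) : ℝ) : ℂ)) (fun _ => B.lam k) f w z
        ((SH.CSM.dep_smooth _ lr a.1).differentiableAt (by simp)) (SH.CSM.dep_grad _ lr a.1) hw
        (fun _ => ⟨((SH.PROF.diff T2 _).const_mul c).ofReal_comp, b1⟩) (e.mono fun v x => ?_) ?_).2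
      · rw [x, Fintype.sum_unique]; push_cast; ring
      · rw [Fintype.sum_unique]
        exact mul_ne_zero (Complex.ofReal_ne_zero.2 (mul_pos c0 b4).ne') b2
  refine ⟨fun _ s => cutE y2 (W.Ef k) (s0 + s) +
    e / 2 * (Real.smoothTransition (8 * s / y2) * Φ ((s0 + s) / y2 - 1 / 2)), ?_⟩
  filter_upwards [Ioc_mem_nhdsGT (show 0 < y2 / 8 by positivity)] with hz' ⟨g0, g1⟩
  have hk' : ¬ (Sum.inl k : B.ι ⊕ π') = Sum.inl B.H := fun a => hk (Sum.inl_injective a)
  have sub : ∀ z ∈ zn (B.e k) (pr k) ((Sum.inl k : B.ι ⊕ π') = Sum.inl B.H) hz', ∀ s, y2 / 8 ≤ s →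
      z ∈ W.zn B s k ∧ (wk B W k).dep z ≤ y2 / 8 := fun z a s b => by
    by_cases c : z = (B.e k).c
    · have e : (B.e k).k = Kind.pt := by_contra fun e => RW.zn_ne e a c
      refine ⟨?_, ?_⟩
      · rw [c, Wd.zn, zn_pt e]
        exact mem_closedBall_self (mul_pos (rp e) (Real.exp_pos _)).le
      · rw [c, ← lc, End.dep]; simpa using g0.le.trans g1
    · obtain ⟨b1, b2⟩ := (RW.mem_zn (fun x => (h.port x).1) _ c).1 a
      rw [dn c] at b1 b2
      exact ⟨(mz c).2 ⟨by linarith, fun e => by linarith [(b2 e).2 hk', fl e]⟩, by linarith⟩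
  have bl : (born B π' x' δ').lam (Sum.inl k) = B.lam k := HP.born_lam_ne hk
  refine ⟨fun k' a z b => ?_, fun k' a => ?_, fun k' a z b c => ?_, fun k' a b => ?_,
    fun k' a b => ?_, fun k1 k2 a b c => absurd ((pk k1 b).trans (pk k2 c).symm) a,
    fun z a b c n => ⟨Sum.inl k, rfl, ?_⟩, fun a => (h.port a).1, fun a => absurd a hk⟩
  · obtain rfl := pk k' a
    exact sub z b _ (by linarith)
  · obtain rfl := pk k' a
    rw [show tw (born B π' x' δ') (Sum.inl k) = tw B k from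
      propext (and_congr Iff.rfl ⟨fun _ => hk, fun _ => hk'⟩)]
    exact p5 Φ _ _ s0 y2 (e / 2) hΦ prE f1 f2 h0 (half_pos he)
  · obtain rfl := pk k' a
    rw [bl, show (wk (born B π' x' δ') (Wd.born B W.cp pr π' L δ' _) (Sum.inl k)).dep z = _
      from dn c, lw, hT]
    simp only [Wd.born, add_sub_cancel]
    push_cast
    ring
  · obtain rfl := pk k' a
    rw [bl]
    exact HP.Pole.mono (h.port b).2.2 fun z c => (sub z c _ (by linarith)).1
  · obtain rfl := pk k' a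
    have e : ∀ z ∈ zn (B.e k) (pr k) ((Sum.inl k : B.ι ⊕ π') = Sum.inl B.H) hz',
        AnalyticAt ℂ (B.lam k) z ∧ B.lam k z ≠ 0 := fun z c => by
      have c1 := RW.zn_ne b c
      obtain ⟨c2, c3⟩ := (mz c1).1 (sub z c t (by linarith)).1
      exact a1 z (lc ▸ c1) (by linarith [c3 b, fl b]) (by linarith)
    rw [bl]
    exact ⟨fun z c => (e z c).1, fun z c => (e z c).2⟩
  · show z ∈ ct (B.e k) (pr k)
    obtain ⟨-, b2⟩ := (mz b).1 a
    have e : B.lam k z ≠ 0 →
        cutE y2 (W.Ef k) ((wk B W k).dep z) + e / 2 * T ((wk B W k).dep z) = 0 := fun x => by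
      refine Complex.ofReal_eq_zero.1 ((mul_eq_zero.1 (Eq.trans ?_ n)).resolve_right x)
      rw [lw]; push_cast; ring
    have up : (wk B W k).dep z ≤ s0 := by
      by_contra x
      have x1 := not_le.1 x
      have x2 := e (a1 z (lc ▸ b) (by linarith) (by linarith)).2
      have x3 : cutE y2 (W.Ef k) ((wk B W k).dep z) = 0 := by
        rcases le_or_gt 0 ((wk B W k).dep z) with y | y
        · exact c3 _ ⟨y, by linarith⟩
        · exact (c2 _ (Or.inl y.le)).trans (prE.one (fun u => by linarith [f2 u]) _ y.le)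
      linarith [mul_pos (half_pos he) (T1 _ x1)]
    by_cases p : (B.e k).k = Kind.pt
    · have x := (RW.mem_zn (s := 0) (fun x => (h.port x).1) True b).2
        ⟨by rw [dn b]; linarith, fun x => absurd p x⟩
      rwa [zn_pt p, Real.exp_zero, mul_one, ← ct_pt p] at x
    · rw [ct_loop p, End.mem_circ (h.ok.1.pos p), ← ll p]
      refine ⟨lc ▸ b, le_antisymm (fl p ▸ up) (not_lt.1 fun x => ?_)⟩
      have x1 := b2 p
      have x2 := e (an z ⟨lc ▸ b, Or.inr ⟨by linarith, by linarith⟩⟩).2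
      rw [T0 _ up, c2 _ (Or.inl x.le)] at x2
      linarith [(op _ (by linarith) fun _ => by linarith).2.2 ⟨p, hk⟩ x]

end Pool.Agent.S6
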