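import Pool.Agent.Lib.S6.Blue

/-! Algebra of the winding and oscillation property. -/

open Set Filter Topology Metric

noncomputable section

namespace Pool.Agent.S6

open Pool.Agent.CF (End Kind)

namespace LWb

theorem ann_sub {l : End} (hk : l.k ≠ Kind.pt) {h : ℝ} (hh : 0 < h) (r1 : ℝ) :
    l.ann (Icc (h / 16) h) ⊆ l.near h r1 := by
  rw [End.near_loop hk]
  exact End.ann_mono (Icc_subset_Icc (by linarith) le_rfl)

theorem osc {a a' b b' x Λ Λ' : ℝ} (h1 : a - a' ≤ Λ) (h2 : b - b' ≤ Λ') (h3 : b' - b ≤ Λ') :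
    a + x * b - (a' + x * b') ≤ Λ + |x| * Λ' := by
  have h4 : |b - b'| ≤ Λ' := abs_le.2 ⟨by linarith, h2⟩
  have h5 : x * (b - b') ≤ |x| * Λ' :=
    (le_abs_self _).trans (by rw [abs_mul]; exact mul_le_mul_of_nonneg_left h4 (abs_nonneg _))
  linarith

theorem re_add (a b : ℂ) (x : ℝ) : (a + (x : ℂ) * b).re = a.re + x * b.re := by
  rw [Complex.add_re, Complex.re_ofReal_mul]

theorem log_norm {W c z G : ℂ} {n : ℤ} (hz : z ≠ c) (h : W = (z - c) ^ n * Complex.exp G) :
    Real.log ‖W‖ = G.re + n * Real.log ‖z - c‖ := by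
  have h0 : 0 < ‖z - c‖ := norm_pos_iff.2 (sub_ne_zero.2 hz)
  rw [h, norm_mul, norm_zpow, Complex.norm_exp, Real.log_mul (zpow_pos h0 n).ne' (Real.exp_pos _).ne',
    Real.log_zpow, Real.log_exp]
  ring

end LWb

theorem st_lw : St_LW := by
  refine ⟨?_, ?_, ?_, ?_⟩
  · rintro l h r1 f f' k k' Λ Λ' x ⟨a1, g, a2, a3⟩ ⟨b1, g', b2, b3⟩
    refine ⟨?_, fun z => g z + (x : ℂ) * g' z, fun hk => ?_, fun hk => ?_⟩
    · refine (abs_add_le _ _).trans (add_le_add a1 ?_)
      rw [abs_mul]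
      exact mul_le_mul_of_nonneg_left b1 (abs_nonneg _)
    · obtain ⟨c1, c2⟩ := a2 hk
      obtain ⟨d1, d2⟩ := b2 hk
      refine ⟨fun z hz => (c1 z hz).add (analyticAt_const.mul (d1 z hz)), fun z hz => ⟨?_, ?_⟩⟩
      · beta_reduce
        rw [LWb.re_add, (c2 z hz).1, (d2 z hz).1]; ring
      · intro z' hz'
        rw [LWb.re_add, LWb.re_add]
        exact LWb.osc ((c2 z hz).2 z' hz') ((d2 z hz).2 z' hz') ((d2 z' hz').2 z hz)
    · obtain ⟨c1, c2⟩ := a3 hk
      obtain ⟨d1, d2⟩ := b3 hk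
      refine ⟨fun z hz => (c1 z hz).add (analyticAt_const.mul (d1 z hz)), fun z hz => ⟨?_, ?_⟩⟩
      · intro hc
        beta_reduce
        rw [LWb.re_add, (c2 z hz).1 hc, (d2 z hz).1 hc]; ring
      · intro z' hz'
        rw [LWb.re_add, LWb.re_add]
        exact LWb.osc ((c2 z hz).2 z' hz') ((d2 z hz).2 z' hz') ((d2 z' hz').2 z hz)
  · rintro l h r1 f f' k Λ Λ' b ⟨a1, g, a2, a3⟩ hΛ hf hh
    refine ⟨a1.trans hΛ, fun z => g z + (b : ℂ), fun hk => ?_, fun hk => ?_⟩
    · obtain ⟨c1, c2⟩ := a2 hk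
      refine ⟨fun z hz => (c1 z hz).add analyticAt_const, fun z hz => ⟨?_, fun z' hz' => ?_⟩⟩
      · rw [hf z (LWb.ann_sub hk hh r1 hz) hz.1 (fun _ => hz.2.1), (c2 z hz).1, Complex.add_re,
          Complex.ofReal_re]
        ring
      · have := (c2 z hz).2 z' hz'
        simp only [Complex.add_re, Complex.ofReal_re]
        linarith
    · obtain ⟨c1, c2⟩ := a3 hk
      refine ⟨fun z hz => (c1 z hz).add analyticAt_const, fun z hz => ⟨fun hc => ?_, fun z' hz' => ?_⟩⟩
      · rw [hf z (by rwa [End.near_pt hk]) hc (fun h' => absurd hk h'), (c2 z hz).1 hc,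
          Complex.add_re, Complex.ofReal_re]
        ring
      · have := (c2 z hz).2 z' hz'
        simp only [Complex.add_re, Complex.ofReal_re]
        linarith
  · intro l h r1 g Λ hh hg hΛ hb
    have key : ∀ z ∈ l.near h r1, ∀ z' ∈ l.near h r1, (g z).re - (g z').re ≤ 2 * Λ := by
      intro z hz z' hz'
      have h1 := (abs_le.1 ((Complex.abs_re_le_norm _).trans (hb z hz))).2
      have h2 := (abs_le.1 ((Complex.abs_re_le_norm _).trans (hb z' hz'))).1
      linarith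
    refine ⟨by rw [abs_zero]; linarith, g, fun hk => ?_, fun hk => ?_⟩
    · have hs := LWb.ann_sub hk hh r1
      exact ⟨hg.mono hs, fun z hz => ⟨by ring, fun z' hz' => key z (hs hz) z' (hs hz')⟩⟩
    · rw [End.near_pt hk] at hg key
      exact ⟨hg, fun z hz => ⟨fun _ => by ring, fun z' hz' => key z hz z' hz'⟩⟩
  · rintro l W k ho ⟨g, hg, hW⟩
    have h1 : ∀ᶠ z in 𝓝ˢ l.circ, AnalyticAt ℂ g z :=
      (isOpen_analyticAt ℂ g).mem_nhdsSet.2 hg
    obtain ⟨δ, hδ, h2⟩ := End.shrink ho (h1.and hW)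
    refine ⟨δ, hδ, fun h r1 hh hh0 hr hr0 => ?_⟩
    have h3 := h2 h r1 hh0 hr0
    have hc : ContinuousOn g (l.near h r1) := fun z hz => (h3 hz).1.continuousAt.continuousWithinAt
    obtain ⟨B, hB⟩ := (End.isCompact_near ho h r1).exists_bound_of_continuousOn hc
    have key : ∀ z ∈ l.near h r1, ∀ z' ∈ l.near h r1, ∀ b : ℝ,
        (g z + (b : ℂ)).re - (g z' + (b : ℂ)).re ≤ max |(k : ℝ)| (2 * B) := by
      intro z hz z' hz' b
      have h1 := (abs_le.1 ((Complex.abs_re_le_norm _).trans (hB z hz))).2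
      have h2 := (abs_le.1 ((Complex.abs_re_le_norm _).trans (hB z' hz'))).1
      refine le_trans ?_ (le_max_right _ _)
      simp only [Complex.add_re, Complex.ofReal_re]
      linarith
    refine ⟨max |(k : ℝ)| (2 * B), le_max_left _ _, fun z => g z +
      ((if l.k = Kind.pt then -(k * Real.log r1) else -(k * l.sgn * Real.log l.r) : ℝ) : ℂ),
      fun hk => ?_, fun hk => ?_⟩
    · have hs := LWb.ann_sub hk hh r1
      refine ⟨fun z hz => (h3 (hs hz)).1.add analyticAt_const, fun z hz =>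
        ⟨?_, fun z' hz' => key z (hs hz) z' (hs hz') _⟩⟩
      have h0 : 0 < ‖z - l.c‖ := norm_pos_iff.2 (sub_ne_zero.2 hz.1)
      beta_reduce
      rw [LWb.log_norm hz.1 ((h3 (hs hz)).2 hz.1), if_neg hk, Complex.add_re, Complex.ofReal_re,
        End.dep, Real.log_div h0.ne' (ho.pos hk).ne']
      push_cast
      ring
    · rw [End.near_pt hk] at h3 key
      refine ⟨fun z hz => (h3 hz).1.add analyticAt_const, fun z hz =>
        ⟨fun hz' => ?_, fun z' hz' => key z hz z' hz' _⟩⟩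
      have h0 : 0 < ‖z - l.c‖ := norm_pos_iff.2 (sub_ne_zero.2 hz')
      have h5 : l.sgn = 1 := by rw [End.sgn, hk]; rfl
      beta_reduce
      rw [LWb.log_norm hz' ((h3 hz).2 hz'), if_pos hk, Complex.add_re, Complex.ofReal_re,
        Real.log_div hr.ne' h0.ne', h5]
      push_cast
      ring

end Pool.Agent.S6
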