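import Pool.Agent.Lib.S6.Blue3
import Pool.Agent.Lib.SH.Limit
import Pool.Agent.Lib.CF.B_FIB

/-!
The final assembly: the tower of states gives the surface.
-/

open Set Filter Topology Metric
open scoped ContDiff

noncomputable section

namespace Pool.Agent.S6

open Pool.Agent.CF (End Kind IsCurve Geo SLH Cv Priv)
open Pool.Agent.Lib

namespace MAIN

theorem pair {C K : Cv} {Nd : Finset E} {TC TK : ℤ} {D : ℕ} (h : CF.Alg C K Nd TC TK D) :
    MP_9ccfb7_an.Pair C.Γ K.Γ C.P K.P :=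
  ⟨h.hC.curve.cpt, h.hK.curve.cpt, h.hC.curve.poly.differentiableAt,
    h.hK.curve.poly.differentiableAt, h.hC.curve.zero, h.hK.curve.zero,
    fun y a b => (h.nodal.node y (h.nodal.left y a b)).2.1,
    fun y a b => (h.nodal.node y (h.nodal.right y a b)).1,
    Nd.finite_toSet.subset fun y a => h.nodal.left y a.1 (h.hK.curve.zero y a.2)⟩

theorem fibre {A : Cv} (h : IsCurve A.P A.Γ A.e) (z : ℂ) : {w | (z, w) ∈ A.Γ}.Finite := by
  obtain ⟨⟨_, H⟩, -⟩ := CF.st_fib _ _ _ _ h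
  exact (H z).1

/-- the assembly for an arbitrary type of states -/
theorem gen (hH : St_INH) {I : Type} [Fintype I] {fx : Fix I} (ok : fx.OK) {St : Type*}
    (σ : St → Conf I) (good : ∀ s, Good fx (σ s)) (s0 : St)
    (hst : ∀ (s : St) (k : ℕ) (ε : ℝ), 0 < ε → ∀ (a : ℂ) (ρ : ℝ), 0 < ρ →
      ∃ s' : St, MP_9ccfb7_an.Close k ε (σ s).F (σ s').F fx.R fx.R ∧
        MP_9ccfb7_an.NoGr ((σ s').K.Γ \ (σ s').C.Γ) a ρ ∧
        (MP_9ccfb7_an.NoGr ((σ s).K.Γ \ (σ s).C.Γ) a ρ →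
          MP_9ccfb7_an.NoGr ((σ s').C.Γ \ (σ s').K.Γ) a ρ) ∧
        (MP_9ccfb7_an.NoGr ((σ s).C.Γ \ (σ s).K.Γ) a ρ →
          MP_9ccfb7_an.NoGr ((σ s).K.Γ \ (σ s).C.Γ) a ρ → MP_9ccfb7_an.NoGr (σ s').C.Γ a ρ) ∧
        (MP_9ccfb7_an.NoGr (σ s).C.Γ a ρ → MP_9ccfb7_an.NoGr (σ s').K.Γ a ρ)) : St_MAIN := by
  have hF : ∀ s i, ContDiff ℝ ∞ ((σ s).F i) := fun s => (good s).pre.wall.smooth
  refine MP_9ccfb7_an.limit fx.c fx.r fx.R (fun s => (σ s).F) (fun _ => fx.R)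
    (fun s => (σ s).Y fx) hF (fun _ i => ⟨(ok.lt i).1, (ok.lt i).2, le_rfl⟩) (fun s => ?_)
    (fun s => ?_) ok.far s0 (good s0).pre.wall.gap ?_
  · refine ⟨((good s).pre.alg.hC.curve.cpt.union (good s).pre.alg.hK.curve.cpt).union
      (MP_9ccfb7_an.isCompact_surf _ _ _ fun i => (hF s i).continuous),
      SH.hull_eq _ ▸ (good s).pc, subset_union_right, fun z => ?_⟩
    refine (((fibre (good s).pre.alg.hC.curve z).union
      (fibre (good s).pre.alg.hK.curve z)).union (finite_range fun i => (σ s).F i z)).subset ?_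
    rintro w ((a | a) | a)
    · exact Or.inl (Or.inl a)
    · exact Or.inl (Or.inr a)
    · obtain ⟨i, -, b⟩ := mem_iUnion.1 a
      exact Or.inr ⟨i, Eq.symm b⟩
  · obtain ⟨y, a, b⟩ := (good s).pre.alg.pt
    exact ⟨y, SH.hull_eq _ ▸ hH I fx (σ s) ok (good s).pre (Or.inl a), b.le⟩
  · refine MP_9ccfb7_an.ng5 _ _ (fun s => (σ s).C.Γ) (fun s => (σ s).K.Γ) _ hF
      (fun s a ρ hC hK => ?_) hst
    refine MP_9ccfb7_an.ng3 (pair (good s).pre.alg) hC hK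
      (SH.ng4_dbar (fun i => (hF s i).continuous) ((σ s).Sd.finite_toSet.image Prod.fst)
        fun i z a b c => ((good s).pre.wall.real i z a b).resolve_right fun d => c ⟨_, d, rfl⟩)

end MAIN

theorem st_main (hR : St_RUN3) (hI : St_INIT3) (hH : St_INH) : St_MAIN := by
  obtain ⟨ab, hab, hst⟩ := hR
  obtain ⟨I, _, fx, ok, ⟨s0⟩⟩ := hI ab hab
  exact MAIN.gen hH ok (fun s : State2 fx ab.L ab.Cw => s.σ) (fun s => s.good) s0 (hst I fx ok)

end Pool.Agent.S6
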