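import Pool.Agent.Lib.S6.PFit
import Pool.Agent.Lib.S6.B_LW
import Pool.Agent.Lib.CF.WinD

/-! A new geometry in which all present ports are macro ports. -/

open Set Filter Topology Metric

noncomputable section

namespace Pool.Agent.S6

open Pool.Agent.CF (End Kind IsCurve Geo Cv HasWind)

namespace NG7

theorem ndir {ι : Type} {l : End} {U : Finset ι} {p : ι → ℂ} {u : ℂ → ℂ} {CD : ℝ} {z : ℂ}
    (hC : 0 ≤ CD) (h : ∀ᶠ x in 𝓝 z, u x = 1) : NDir l U p u 0 CD z := by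
  have a : u =ᶠ[𝓝 z] fun _ => 1 := h
  have b : deriv u z = 0 := by rw [a.deriv_eq, deriv_const]
  refine ⟨analyticAt_const.congr a.symm, ?_⟩
  simp [b, h.self_of_nhds, hC]

theorem lw {ι : Type} [Fintype ι] {e : ι → End} (ho : ∀ j, (e j).ok) {W : ι → ℂ → ℂ} {k : ι → ℤ}
    (h : ∀ j, HasWind (e j) (W j) (k j)) : ∀ᶠ a in 𝓝[>] (0 : ℝ), ∃ Λ ≥ (0 : ℝ),
      ∀ j, LW (e j) a a (fun z => Real.log ‖W j z‖) (k j) Λ := by
  choose h0 a b using fun j => st_lw.2.2.2 (e j) (W j) (k j) (ho j) (h j)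
  filter_upwards [eventually_all.2 fun j =>
    (show ∀ᶠ s in 𝓝[>] (0 : ℝ), s ∈ Ioo 0 (h0 j) from Ioo_mem_nhdsGT (a j)),
    self_mem_nhdsWithin] with s c (d : 0 < s)
  choose Λ f using fun j => b j s s d (c j).2.le d (c j).2.le
  have g : ∀ j, 0 ≤ Λ j := fun j => (abs_nonneg _).trans (f j).1
  exact ⟨∑ j, Λ j, Finset.sum_nonneg fun j _ => g j, fun j => st_lw.2.1 _ _ _ _ _ _ _ _ 0 (f j)
    (Finset.single_le_sum (fun j _ => g j) (Finset.mem_univ j)) (fun _ _ _ _ => (add_zero _).symm) d⟩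

end NG7

open NG7 in
theorem st_newgeo7 : St_NEWGEO := by
  classical
  intro L Cw A O Nd T a xs gain CD Λx h0 n hc ho hk hO hZ hl hT a1 a2 hx hCD hΛ hh
  choose nl l1 l2 using hl
  obtain ⟨kt, t1, t2⟩ := hT
  obtain ⟨ko, o1, o2⟩ := CF.all_arg2 _ _ _ _ _ _ hc ho hO hZ
  choose ka b1 using fun j => CF.exists_wind CF.all_wext (hc.ok j) hc.poly.dw (hc.wan j) (hc.wreg j)
  have w1 : ∀ j, HasWind (A.e j) (fun z => (A.e j).res (CF.dw A.P) z * A.lam j z) (ka j + nl j) :=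
    fun j => (b1 j).mul (l1 j)
  have e1 : ∀ j, kt j = ka j + nl j + ko j := fun j => CF.st_wuni _ _ _ _ (hc.ok j) (t1 j)
    (((w1 j).mul (o1 j)).congr' fun z => by simp only [End.res]; ring)
  have pz : ∀ j, (A.e j).k = Kind.pt → ∀ {H : E → ℂ} {k : ℤ}, CF.IsPoly H →
      H ((A.e j).c, (A.e j).w (A.e j).c) ≠ 0 → HasWind (A.e j) ((A.e j).res H) k → k = 0 :=
    fun j p H k c d f => CF.st_wuni _ _ _ _ (hc.ok j) f (HasWind.of_pt (hc.ok j) p
      (End.analyticOnNhd_res c (hc.wan j) _ (by rw [End.circ_pt (hc.ok j) p]; rfl)) d)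
  have mc : ∀ j, (A.e j).k = Kind.pt → (A.e j).c ∈ (A.e j).circ := fun j p => by
    rw [End.circ_pt (hc.ok j) p]; rfl
  have e2 : ∀ j, (A.e j).k = Kind.pt → ka j + nl j = 1 ∧ ko j = 0 ∧ j ≠ A.H := fun j p =>
    ⟨by rw [pz j p hc.poly.dw (hc.wreg j _ (mc j p)) (b1 j), l2 j p, zero_add],
      pz j p hO (fun c => (hZ.2 _ (hZ.1 _ (hc.mem_of_circ j (mc j p)) c)).2.2.2.2 j (mc j p)) (o1 j),
      fun c => by subst c; exact absurd (hk.symm.trans p) (by decide)⟩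
  have fb : (CF.brv A.P A.Γ).Finite :=
    ((CF.st_fib _ _ _ _ hc).2.image Prod.fst).subset fun b ⟨y, c1, c2, c3⟩ => ⟨y, ⟨c1, c2⟩, c3⟩
  set Sig : Finset ℂ := fb.toFinset ∪ Nd.image Prod.fst
  obtain ⟨δ, d0, d1⟩ := CF.st_geo _ _ _ _ Sig hc (fun b c => by simpa [Sig] using Or.inl c)
    fun b c j => by
      rcases Finset.mem_union.1 c with c | c
      · exact ho b (fb.mem_toFinset.1 c) j
      · obtain ⟨y, f, rfl⟩ := Finset.mem_image.1 c
        exact (hZ.2 y f).2.2.2.2 j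
  choose g g1 g2 using l1
  have g3 := CF.SECA.shrink_all hc.ok fun j => ((eventually_nhdsSet_iff_forall.2 fun z hz =>
    (g1 j z hz).eventually_analyticAt).and (g2 j)).and (HasWind.analyticAt ⟨g j, g1 j, g2 j⟩)
  obtain ⟨h, ⟨⟨⟨Λ, s0, s1⟩, Λ', s2, s3⟩, s4⟩, s5⟩ := (((lw hc.ok w1).and (lw hc.ok o1)).and g3).and
    (Ioo_mem_nhdsGT (lt_min (lt_min d0 hh) one_pos)) |>.exists
  obtain ⟨hp, s5⟩ := s5
  obtain ⟨s5, s7⟩ := lt_min_iff.1 s5
  obtain ⟨s5, s6⟩ := lt_min_iff.1 s5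
  have G := d1 h h hp s5 hp s5
  set η : ℝ := 1 / (8 * (Fintype.card A.ι + 1))
  have η0 : 0 < η := by positivity
  have η1 : η * (8 * (Fintype.card A.ι + 1)) = 1 := one_div_mul_cancel (by positivity)
  have c0 : (0 : ℝ) ≤ Fintype.card A.ι := Nat.cast_nonneg _
  obtain ⟨Cu, u0, u1⟩ := st_kit h n (Λ + 2 * Λx + 1) η hp s7.le (by positivity) η0 (by nlinarith)
  set κ : A.ι → ℝ := fun j => (ka j + nl j : ℤ) - (if j = A.H then gain else 0) + η
  have sκ : ∑ j, κ j = T - Nd.card - gain + Fintype.card A.ι * η := by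
    have : (∑ j, (ka j + nl j) : ℤ) = T - Nd.card := by
      rw [← t2, ← o2, ← Finset.sum_sub_distrib]
      exact Finset.sum_congr rfl fun j _ => by rw [e1 j]; ring
    simp only [κ, Finset.sum_add_distrib, Finset.sum_sub_distrib, ← Int.cast_sum, this]
    simp
  have so : ∑ j, (ko j : ℝ) = Nd.card := by exact_mod_cast o2
  have pf : ∀ x, ∃ Λ1 ≥ (0 : ℝ), ∃ r20 > (0 : ℝ), x ∈ xs → ∀ Λ0 ≥ Λ1, ∀ r2, 0 < r2 → r2 ≤ r20 →
      PFit A.Γ A.e Sig h h r2 a (fun j z => x * Real.log ‖(A.e j).res O z‖) κ Cu Λ0 0 := fun x => by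
    by_cases m : x ∈ xs
    · obtain ⟨Λ1, p1, r20, p2, p3⟩ := st_pfit.1 _ _ _ _ Sig h h a
        (fun j z => x * Real.log ‖(A.e j).res O z‖) (fun j => 0 + x * ko j) κ (2 * 0 + |x| * Λ') Cu 0
        hc G a1 a2 (fun j => by
          simpa using st_lw.1 _ _ _ _ _ _ _ _ _ x (st_lw.2.2.1 (A.e j) h h (fun _ => 0) 0 hp
            analyticOnNhd_const le_rfl fun _ _ => by simp) (s3 j)) u0
        (fun j p => by
          simp only [κ, (e2 j p).1, (e2 j p).2.1, if_neg (e2 j p).2.2]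
          push_cast; nlinarith) (by
          simp only [Finset.sum_add_distrib, ← Finset.mul_sum, zero_add, sκ, so]
          nlinarith [hx x m, mul_nonneg c0 η0.le])
      exact ⟨Λ1, p1, r20, p2, fun _ => p3⟩
    · exact ⟨0, le_rfl, 1, one_pos, fun c => absurd c m⟩
  choose Λ1 p1 r20 p2 p3 using pf
  obtain ⟨κf, u2⟩ := u1 (∑ x ∈ xs, Λ1 x) (Finset.sum_nonneg fun x _ => p1 x)
  obtain ⟨r2, q1, q2⟩ := ((show ∀ᶠ s in 𝓝[>] (0 : ℝ), s ∈ Ioo 0 (h / 8) from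
    Ioo_mem_nhdsGT (by positivity)).and ((eventually_all_finset xs).2 fun x _ =>
    (show ∀ᶠ s in 𝓝[>] (0 : ℝ), s ∈ Ioo 0 (r20 x) from Ioo_mem_nhdsGT (p2 x)))).exists
  set fd : FD A.ι A.ι := ⟨id, ∅, fun j z => (A.lam j z)⁻¹, fun j => (ka j + nl j : ℤ), fun _ => 0,
    fun _ => 0, n, Λ + 2 * Λx + 1, η, CD, gain, κf⟩
  have ch : ∀ j, fd.chart A j = fun z => (A.lam j z)⁻¹ := fun j => funext fun z => by
    simp [FD.chart, FD.win, fd]
  have nr : ∀ j, (A.e j).near h h ⊆ (A.e j).near (2 * h) (2 * h) := fun j =>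
    End.near_mono _ (by linarith) (by linarith)
  have an : ∀ j, (A.e j).k ≠ Kind.pt → ∀ s, -h ≤ s → (A.e j).ann (Icc s h) ⊆ (A.e j).near h h :=
    fun j p s c => by rw [End.near_loop p]; exact End.ann_mono (Icc_subset_Icc_left c)
  have one : ∀ j, (A.e j).k ≠ Kind.pt →
      ∀ᶠ z in 𝓝ˢ (A.e j).circ, A.lam j z * fd.chart A j z = 1 := fun j p => by
    filter_upwards [HasWind.ne_zero ⟨g j, g1 j, g2 j⟩, isOpen_ne.mem_nhdsSet.2
      fun z (hz : z ∈ (A.e j).circ) => ((End.mem_circ ((hc.ok j).pos p)).1 hz).1] with z b c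
    rw [ch]; exact mul_inv_cancel₀ (b c)
  have lr : ∀ j, LW (A.e j) h h (fun z => Real.log ‖(A.e j).res (CF.dw A.P) z / fd.chart A j z‖)
      (ka j + nl j : ℤ) Λ := fun j => by
    simp only [ch, div_inv_eq_mul]; exact s1 j
  have lp : ∀ j, (A.e j).k = Kind.pt →
      LW (A.e j) h h (fun z => Real.log ‖(A.e j).res (CF.dw A.P) z * A.lam j z‖) 1 Λ :=
    fun j p => by simpa [(e2 j p).1] using s1 j
  refine ⟨⟨A.e, fun j => (A.e j).res (CF.dw A.P), κ, h, h, r2, Cu, ∑ x ∈ xs, Λ1 x⟩, fd, Sig, s6.le,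
    s6.le, rfl, rfl, rfl, rfl, rfl, one, fun j => ⟨Λ, lt_add_one _, fun _ => lr j, lp j⟩,
    fun pr hpr => ⟨⟨hc, G, q1.1, q1.2.le⟩, fun y hy => Finset.mem_union_right _
      (Finset.mem_image_of_mem _ hy), fun _ => rfl, fun k => Or.inr ⟨k, rfl⟩,
    ⟨Function.injective_id, fun j => ⟨rfl, Finset.notMem_empty _⟩, ⟨A.H, rfl⟩, u2,
      ⟨Nat.zero_le _, hCD, q1.1, q1.2.le⟩, fun j p => ⟨fun z hz => ?_, fun z hz => ?_,
        fun z hz => ndir (by linarith) (eventually_nhdsSet_iff_forall.1 (one j p) z hz),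
        ⟨Λ, by show Λ < Λ + 2 * Λx + 1; linarith, lr j⟩,
        fun z hz => (G.wz j z (nr j (an j p _ (by linarith) hz))).2, le_rfl⟩,
      fun j p => ⟨⟨fun z => Complex.exp (g j z), fun z hz => ?_, fun z hz =>
        ⟨Complex.exp_ne_zero _, fun c => ?_⟩⟩, fun z hz => (G.wz j z (nr j ?_)).2,
        st_lw.2.1 _ _ _ _ _ _ _ _ 0 (lp j p) (by show Λ ≤ Λ + 2 * Λx + 1; linarith)
          (fun _ _ _ _ => (add_zero _).symm) hp, ?_, hpr j p⟩,
      fun k c => absurd c (Finset.notMem_empty _)⟩,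
    fun x m => p3 x m _ (Finset.single_le_sum (fun x _ => p1 x) m) r2 q1.1 (q2 x m).2.le⟩⟩
  · have := (s4 j (an j p 0 (by linarith) hz)).2 hz.1
    exact this.1.inv this.2
  · exact inv_ne_zero ((s4 j (an j p 0 (by linarith) hz)).2 hz.1).2
  · exact (s4 j (End.near_pt p h h ▸ hz)).1.1.cexp
  · have := (s4 j (End.near_pt p h h ▸ hz)).1.2 c
    have sg : (A.e j).sgn = 1 := by
      have : (A.e j).k = Kind.pt := p
      simp [End.sgn, this]
    rw [l2 j p, sg] at this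
    show A.lam j z = Complex.exp (g j z) / (z - (A.e j).c)
    rw [this]; simp [div_eq_inv_mul]
  · exact End.near_pt p h h ▸ hz
  · show 1 + η ≤ κ j
    simp only [κ, (e2 j p).1, if_neg (e2 j p).2.2]; norm_num

end Pool.Agent.S6
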