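import Pool.Agent.Lib.S6.Site2
import Pool.Agent.Lib.SH.B_NB1
import Pool.Agent.Lib.SH.B_NB2

/-! The window properties at a window with a pinned zero. -/

open Set Filter Topology Metric

noncomputable section

namespace Pool.Agent.S6

open Pool.Agent.CF (End Kind)
open Pool.Agent.Lib Pool.Agent.Lib.SH Pool.Agent.Lib.SH.Win

namespace NWD

/-- everything over a port disc lies on the two sheets, if this holds over its circle -/
theorem port_on {s : SD} {p : ℂ} {ρ rad : ℝ} {X K : Set E} {Z Z' : Set ℂ} (hρ : 0 < ρ)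
    (h : s.Port p ρ rad X K)
    (c : s.PortC p ρ rad (SH.near X s.w s.R \ K) (1 / 2) (Real.exp (-333)))
    (hs : s.Sht Z') (hZ : Z ⊆ Z')
    (hin : ∀ z, ρ * Real.exp (-1 / 4) ≤ ‖z - p‖ → ‖z - p‖ ≤ rad → z ∈ Z)
    (hc : ∀ y ∈ SH.near X s.w s.R \ K, ‖y.1 - p‖ = rad → s.On Z y) :
    ∀ y ∈ SH.near X s.w s.R \ K, ‖y.1 - p‖ ≤ rad → s.On Z y := by
  have he := h.num.e.1
  have hr : 0 < rad := lt_of_lt_of_le (by positivity) h.rd
  have a0 : ∀ y ∈ SH.near X s.w s.R \ K, ‖y.1 - p‖ = rad → psi s.V s.e y ≤ 0 := fun y hy e => by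
    have b0 : y.1 ∈ closedBall p rad := mem_closedBall_iff_norm.2 e.le
    have b1 : s.V y = 0 ∨ s.V y = s.e := by
      rcases hc y hy e with b | b
      · have b2 := ((h.cmp _ b0).2 0 (by rw [norm_zero]; exact h.num.R.le)).2.2.self_of_nhds
        rw [add_zero, ← b] at b2
        exact Or.inl (by rw [show s.V y = s.V (y.1, y.2) from rfl, b2]; simp [b])
      · obtain ⟨m, hm⟩ := h.pole
        obtain ⟨-, m1, m2⟩ := hm _ b0
        have b2 : (s.d0 y.1)⁻¹ ≠ 0 := by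
          rw [m2.self_of_nhds]
          exact mul_ne_zero (norm_pos_iff.1 (by rwa [e])) m1
        have b3 := (hs _ (hZ b.1)).2.2.1 fun a => b2 (by rw [a, inv_zero])
        rw [← b.2] at b3
        exact Or.inr b3
    rcases b1 with b | b <;> simp [psi, SH.pp, b]
  have a1 : ∀ y ∈ SH.near X s.w s.R \ K, ‖y.1 - p‖ ≤ rad →
      psi s.V s.e y ≤ Real.exp (-330) * s.e ^ 2 := fun y hy e => by
    have b := (c.c1 _ le_rfl (fun u hu f => (a0 u hu f).trans (by positivity)) y hy e).2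
    rwa [← mul_assoc, ← Real.exp_add, show (3 + -333 : ℝ) = -330 by norm_num] at b
  obtain ⟨c1, c2, c3⟩ := c.c3 a1
  intro y hy e
  by_cases b0 : ‖s.V y‖ ≤ s.e / 2
  · exact Or.inl ((c3 0 le_rfl (fun u hu _ f => a0 u hu f) y hy e b0).2 rfl)
  have b1 : ‖s.V y - s.e‖ ≤ s.e / 2 := by
    by_contra b1
    have b2 := a1 y hy e
    have b3 : Real.exp (-330) ≤ 1 / 4 := by
      rw [Real.exp_neg, one_div]
      exact inv_anti₀ (by norm_num) (by linarith [Real.add_one_le_exp (330 : ℝ)])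
    rw [psi, SH.pp, norm_mul] at b2
    have b4 := mul_lt_mul'' (not_le.1 b0) (not_le.1 b1) (by positivity) (by positivity)
    nlinarith [mul_le_mul_of_nonneg_right b3 (sq_nonneg s.e)]
  have b2 := c1 y hy e b1
  have b3 := c2 0 le_rfl (fun u hu _ f => a0 u hu f) y hy e b1
  have b4 : 0 < ‖y.1 - p‖ := lt_of_lt_of_le (by positivity) b2
  have b5 : 0 < (‖y.1 - p‖ / rad) ^ (1 / 2 : ℝ) := by positivity
  have b6 : SH.pp s.e (s.V y) = 0 :=
    norm_le_zero_iff.1 (nonpos_of_mul_nonpos_left b3 b5)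
  have b7 : s.V y = s.e := by
    rcases mul_eq_zero.1 b6 with b | b
    · exact absurd (by rw [b, norm_zero]; positivity) b0
    · exact sub_eq_zero.1 b
  have b8 := hin _ b2 e
  have b9 := (hs _ (hZ b8)).2.2.2 (y.2 - s.w y.1) hy.1.2 (by rw [add_sub_cancel]; exact b7)
  exact Or.inr ⟨b8, by rw [← b9, add_sub_cancel]⟩

variable {l : End} {x : ℂ} {δ ρ L : ℝ}

theorem ech_hq (hk : l.k = Kind.out) (x : ℂ) (δ : ℝ) :
    ech l (wch x δ 0 Complex.I) = hq l x δ 0 := by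
  simp only [ech, if_pos hk, wch, hq, mul_assoc]
  congr 4
  push_cast
  linear_combination (δ : ℂ) * Complex.I_mul_I

theorem ech_dist (hk : l.k = Kind.out) (hr : 0 < l.r) (z z' : ℂ) :
    ‖ech l z - ech l z'‖ = l.r * ‖z - z'‖ := by
  rw [show ech l z - ech l z' = l.r * (z - z') by simp only [ech, if_pos hk]; ring, norm_mul,
    Complex.norm_real, Real.norm_of_nonneg hr.le]

/-- points of the port disc in the window chart -/
theorem disc (hk : l.k = Kind.out) (hr : 0 < l.r) (hx : x ≠ 0) (hδ : 0 < δ) (hδ1 : δ ≤ 1 / 16)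
    (hL : 13 ≤ L) {v : ℂ} (hv : ‖v - hq l x δ 0‖ ≤ l.r * prad x δ 0 L) :
    ∃ ζ, ech l (wch x δ 0 ζ) = v ∧ ‖ζ - Complex.I‖ ≤ 1 / 4 ∧
      (‖v - hq l x δ 0‖ = l.r * prad x δ 0 L → Real.exp (-L + 2) ≤ ‖bl ζ‖) := by
  have a0 := prad_pos (yr := 0) hx hδ L
  obtain ⟨ξ, hξ⟩ := pch_surj (yr := 0) hx hδ L ((v - l.c) / l.r)
  have a1 : ech l (pch x δ 0 L ξ) = v := by
    have : (l.r : ℂ) ≠ 0 := Complex.ofReal_ne_zero.2 hr.ne'
    rw [hξ, ech, if_pos hk]; field_simp; ring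
  have a2 : ‖v - hq l x δ 0‖ = l.r * prad x δ 0 L * ‖ξ‖ := by
    rw [← a1, ← ech_hq hk, ech_dist hk hr, pch, add_sub_cancel_left, norm_mul, Complex.norm_real,
      Real.norm_of_nonneg a0.le, mul_assoc]
  have a3 : 0 < l.r * prad x δ 0 L := mul_pos hr a0
  obtain ⟨ζ, b1, b2⟩ := pch_wch (yr := 0) hx hδ hδ1 hL (ξ := ξ) (by
    rw [a2] at hv; exact le_of_mul_le_mul_left (by rwa [mul_one]) a3)
  refine ⟨ζ, by rw [b1, a1], b2, fun e => ?_⟩
  have b3 : ‖ξ‖ = 1 := mul_left_cancel₀ a3.ne' (by rw [← a2, e, mul_one])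
  have b4 := (bl_pc (yr := 0) hx hδ (by linarith) b2).1
  rw [b1, pc_pch hx hδ, b3, mul_one, show -L + 7 / 2 = -L + 2 + 3 / 2 by ring, Real.exp_add] at b4
  nlinarith [Real.exp_pos (-L + 2), Real.add_one_le_exp (3 / 2 : ℝ)]

theorem norm_le {ζ : ℂ} (hδ : 0 < δ) (h : 64 * δ ≤ ρ) (hζ : ‖ζ - Complex.I‖ ≤ 1 / 4) :
    ‖ζ‖ ≤ ρ / (2 * δ) := by
  have a := norm_add_le (ζ - Complex.I) Complex.I
  rw [sub_add_cancel, Complex.norm_I] at a
  rw [le_div_iff₀ (by positivity)]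
  nlinarith

/-- the outer part of the port disc lies in the zone -/
theorem mem_rz {π : Type} {x : π → ℂ} {h a u : ℝ} (hk : l.k = Kind.out) (hr : 0 < l.r)
    (hx : ∀ k, ‖x k‖ = 1) (hs : ∀ k k', k ≠ k' → 2 * ρ ≤ ‖x k - x k'‖) (hδ : 0 < δ)
    (h1 : 64 * δ ≤ ρ) (h2 : ρ ≤ 1 / 8) (h3 : ρ ≤ h / 8) (ha : 0 < a) (hL : 13 ≤ L) (hu : u ≤ 0)
    (k : π) {v : ℂ} (h4 : 2 * l.r * δ * Real.exp (-δ - L) * Real.exp u ≤ ‖v - hq l (x k) δ 0‖)
    (h5 : ‖v - hq l (x k) δ 0‖ ≤ l.r * prad (x k) δ 0 L) : v ∈ SD.rz l x L δ h (-a) u := by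
  obtain ⟨ζ, rfl, b, -⟩ := disc hk hr (ne0 (hx k)) hδ (by linarith) hL h5
  have b1 := wch_mem (yr := 0) (hx k) hδ h2 (by rw [abs_zero]; linarith) (norm_le hδ h1 b)
  have b2 : |ζ.im - 1| ≤ 1 / 4 := by simpa using (Complex.abs_im_le_norm _).trans b
  have b3 : ‖ech l (wch (x k) δ 0 ζ) - l.c‖ = l.r * Real.exp (-(δ * ζ.im)) := by
    rw [ech, if_pos hk, add_sub_cancel_left, norm_mul, Complex.norm_real,
      Real.norm_of_nonneg hr.le, norm_wch (hx k), add_zero]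
  rw [abs_le] at b2
  refine ⟨⟨sub_ne_zero.1 (norm_pos_iff.1 (by rw [b3]; positivity)), ?_⟩, fun j => ?_⟩
  · have b4 : l.dep (ech l (wch (x k) δ 0 ζ)) = δ * ζ.im := by
      rw [End.dep, b3, mul_div_cancel_left₀ _ hr.ne', Real.log_exp, End.sgn, if_pos hk]
      push_cast; ring
    rw [b4]
    constructor <;> nlinarith [b2.1, b2.2]
  by_cases e : k = j
  · rwa [← e]
  have b4 := (wch_mem (yr := 0) (hx j) hδ h2 (by rw [abs_zero]; linarith)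
    (norm_le (ζ := Complex.I) hδ h1 (by rw [sub_self, norm_zero]; norm_num))).1
  have b5 := hs k j e
  have b6 := norm_sub_le_norm_sub_add_norm_sub (x k) (wch (x k) δ 0 ζ) (x j)
  have b7 := norm_sub_le_norm_sub_add_norm_sub (wch (x k) δ 0 ζ) (wch (x j) δ 0 Complex.I) (x j)
  rw [norm_sub_rev (x k) (wch _ _ _ _)] at b6
  have b8 : Real.exp (-δ - L) * Real.exp u ≤ 1 := by
    rw [← Real.exp_add]; exact Real.exp_le_one_iff.2 (by linarith)
  rw [← ech_hq hk, ech_dist hk hr, mul_assoc]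
  calc _ ≤ 2 * l.r * δ * 1 := by gcongr
    _ = l.r * (2 * δ) := by ring
    _ ≤ _ := by gcongr; linarith [b1.1]

end NWD

open NWD Ring in
theorem st_nwd (hW : St_NWIN) (hP : St_PSD) : St_NWD := by
  obtain ⟨L1, H1⟩ := st_nb1
  obtain ⟨L2, M2, hM2, c0, hc0, H2⟩ := st_nb2
  refine ⟨max (max L1 L2) 20, fun β L hβ hβ1 hL => ?_⟩
  obtain ⟨hL12, hL3⟩ := max_le_iff.1 hL
  obtain ⟨M1, hM1, H1⟩ := H1 β L hβ hβ1 (max_le_iff.1 hL12).1
  obtain ⟨ι1, hι1, H1⟩ := H1 (cW 1)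
  obtain ⟨ι0, hι0, H2⟩ := H2 L (cW 1) (max_le_iff.1 hL12).2
  obtain ⟨o3, ho3, H3⟩ := hP (1 / 2) (Real.exp (-333)) (by norm_num) le_rfl (Real.exp_pos _)
    (Real.exp_le_one_iff.2 (by norm_num))
  obtain ⟨M, m1, m2, m3⟩ : ∃ M : ℝ, M1 ≤ M ∧ M2 ≤ M ∧ 64 ≤ M := ⟨max (max M1 M2) 64,
    le_max_of_le_left (le_max_left _ _), le_max_of_le_left (le_max_right _ _), le_max_right _ _⟩
  refine ⟨M, by linarith, fun δ ρ hδ hM hρ1 => ?_⟩
  have d1 : 64 * δ ≤ ρ := le_trans (by gcongr) hM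
  have hρ : 0 < ρ := by linarith
  have d2 : 0 < 1 + Real.log (ρ / (2 * δ)) := by
    have := Real.log_nonneg (x := ρ / (2 * δ)) (by rw [le_div_iff₀ (by positivity)]; linarith)
    linarith
  obtain ⟨ι2, i1, i2, i3⟩ : ∃ ι : ℝ, 0 < ι ∧ ι ≤ ι0 ∧ ι * (1 + Real.log (ρ / (2 * δ))) ≤ c0 :=
    ⟨min ι0 (c0 / (1 + Real.log (ρ / (2 * δ)))), lt_min hι0 (div_pos hc0 d2), min_le_left _ _,
      (le_div_iff₀ d2).1 (min_le_right _ _)⟩
  obtain ⟨o1, ho1, W1⟩ := hW ι1 L δ ρ hι1 hL3 hδ d1 hρ1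
  obtain ⟨o2, ho2, W2⟩ := hW ι2 L δ ρ i1 hL3 hδ d1 hρ1
  refine ⟨min (min o1 o2) o3, lt_min (lt_min ho1 ho2) ho3,
    fun s l h τ a π π' _ x x' lm Tw E1 T X K ho hh hs hR hB k => ?_⟩
  obtain ⟨ho12, ho3'⟩ := le_min_iff.1 ho
  have hx : ∀ j, ‖x j‖ = 1 := fun j => hs.1 (Sum.inl j)
  have he := hR.num.e.1
  have hk := (hR.out.1 trivial).1
  have hr := hR.wall.lk.2.1
  obtain ⟨-, P1, N1, -⟩ := W1 s l h τ a π π' x x' lm Tw E1 T X K (le_min_iff.1 ho12).1 hh hs hR hB k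
  obtain ⟨hp, P2, N2, Z2⟩ :=
    W2 s l h τ a π π' x x' lm Tw E1 T X K (le_min_iff.1 ho12).2 hh hs hR hB k
  obtain ⟨G1, G2⟩ := H2 _ _ _ P2 (x k) δ ρ s.e ι2 (hx k) hδ hρ1 he (le_trans (by gcongr) hM) i1 i2
    i3 N2
  refine ⟨fun t ht => gp_mono (H1 _ _ _ P1 (x k) δ ρ s.e t (hx k) hδ hρ1 he ht
    (le_trans (by gcongr) hM) N1) (by positivity) (by gcongr) le_rfl hρ.le (by positivity)
    (by positivity), gp_mono G1 (by positivity) m2 le_rfl hρ.le le_rfl (by positivity),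
    fun H y hy hd => ?_⟩
  have Z : ∀ (ζ : ℂ) (u : E), u ∈ SH.near X s.w s.R \ K → ech l (wch (x k) δ 0 ζ) = u.1 →
      ‖ζ‖ ≤ ρ / (2 * δ) → Real.exp (-L + 2) ≤ ‖bl ζ‖ →
      s.On (SD.rz l x L δ h (-a) (-1 / 4)) u := fun ζ u hu e b1 b2 => by
    have e1 : bc (ech l) (bc (wch (x k) δ 0) (ζ, u.2)) = u := Prod.ext e rfl
    have e2 : (ζ, u.2) ∈ bc (wch (x k) δ 0) ⁻¹' s.cX l X := by
      rw [SD.cX, mem_preimage, mem_preimage, e1]; exact hu.1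
    rw [← e1]
    exact Z2 _ e2 b1 b2 (G2 (fun v a1 a2 a3 a4 => H v ⟨a1, a2⟩ (le_trans (by gcongr) a3) a4) _ e2
      (by rw [mem_preimage, mem_preimage, e1]; exact hu.2) b1 b2)
  have d3 : ‖y.1 - x k‖ ≤ ρ / 64 := hd.trans (by gcongr)
  obtain ⟨ζ, c1, c2⟩ := wch_surj (yr := 0) (ne0 (hx k)) hδ 0 (z := y.1) (by
    rw [wch_zero, hx k]; linarith)
  have c3 := (wch_dist (x := x k) (yr := 0) hδ c2).1
  rw [c1, wch_zero, hx k, mul_one, sub_zero] at c3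
  have c4 : ‖ζ‖ ≤ ρ / (2 * δ) := by rw [le_div_iff₀ (by positivity)]; linarith
  have c5 : bc (ech l) y ∈ SH.near X s.w s.R \ K := ⟨hy.1, hy.2⟩
  rcases le_total (Real.exp (-L + 2)) ‖bl ζ‖ with b | b
  · exact Z ζ _ c5 (by rw [c1]; rfl) c4 b
  have hw : ‖wch (x k) δ 0 Complex.I‖ = Real.exp (-δ) := by rw [norm_wch (hx k)]; simp
  refine port_on (by positivity) hp (H3 s _ _ _ X K ho3' ?_ hp) hR.sht
    (fun z hz => ⟨hz.1, fun j => le_trans (mul_le_mul_of_nonneg_left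
      (Real.exp_le_exp.2 (by norm_num)) (by positivity)) (hz.2 j)⟩)
    (fun z => mem_rz hk hr hx (fun i j e => hs.2 (Sum.inl i) (Sum.inl j)
      fun f => e (Sum.inl.inj f)) hδ d1 hρ1 hh hR.num'.1 (by linarith) (by norm_num) k)
    (fun u hu e => ?_) _ c5 ?_
  · have e : 2 * l.r * δ * Real.exp (-δ - L) / (l.r * prad (x k) δ 0 L) = Real.exp (-(7 / 2)) := by
      rw [prad, hw, div_eq_iff (by positivity),
        show -δ - L = -(7 / 2) + (-δ + (-L + 7 / 2)) by ring, Real.exp_add, Real.exp_add]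
      ring
    rw [e, Real.log_exp]; norm_num
  · obtain ⟨ξ, f1, f2, f3⟩ := disc hk hr (ne0 (hx k)) hδ (by linarith) (by linarith) e.le
    exact Z ξ u hu f1 (norm_le hδ d1 f2) (f3 e)
  · have f0 : (ζ, y.2) ∈ bc (wch (x k) δ 0) ⁻¹' s.cX l X := by
      rw [mem_preimage, show bc (wch (x k) δ 0) (ζ, y.2) = y from Prod.ext c1 rfl]; exact hy.1
    have f1 : 0 ≤ ζ.im := N2.up (ζ, y.2) ⟨f0, mem_closedBall_zero_iff.2 c4⟩
    have f2 := near_of_bl (z := ζ) (by linarith)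
      (b.trans ((Real.exp_le_exp.2 (by linarith)).trans (exp_small (L := L) (by linarith))))
    have f3 := (bl_pc (yr := 0) (ne0 (hx k)) hδ (by linarith) f2).1
    have f4 : pc (x k) δ 0 y.1 ≤ Real.exp (-L + 7 / 2) := by
      rw [show -L + 7 / 2 = -L + 2 + 3 / 2 by ring, Real.exp_add, ← c1]
      nlinarith [Real.exp_pos (-L + 2), Real.add_one_le_exp (3 / 2 : ℝ)]
    rw [pc, div_le_iff₀ (by rw [hw]; positivity)] at f4
    rw [← ech_hq hk, show (bc (ech l) y).1 = ech l y.1 from rfl, ech_dist hk hr, prad]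
    exact mul_le_mul_of_nonneg_left (by linarith) hr.le

end Pool.Agent.S6
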