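import Pool.Agent.Lib.S6.NWin1
import Pool.Agent.Lib.SH.All1

/-!
Windows with a pinned zero after the split: the hypotheses of the window lemmas.
-/

open Set Filter Topology Metric

noncomputable section

namespace Pool.Agent.S6

open Pool.Agent.CF (End Kind)
open Pool.Agent.Lib
open Pool.Agent.Lib.SH (bc ov ech wch bl sq1 ss)
open Pool.Agent.Lib.SH.Win

namespace NWIN

structure Hy (s : SD) (l : End) (L h τ a : ℝ) {π π' : Type} [Fintype π] (x : π → ℂ) (δ ρ : ℝ)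
    (x' : π' → ℂ) (lm Tw : ℂ → ℂ) (E1 T : ℝ → ℝ) (X K : Set E) : Prop where
  hL : 20 ≤ L
  d1 : 64 * δ ≤ ρ
  r1 : ρ ≤ 1 / 8
  h8 : ρ ≤ h / 8
  sep : Sepd (Sum.elim x x') ρ
  ring : s.Ring l True L h τ a x δ x' lm Tw E1 T X K
  cb : ChartB s l True h X K
  o1 : s.o ≤ 1 / 100

theorem ss_nonneg (e : ℝ) (v : ℂ) : 0 ≤ ss e v := le_min (norm_nonneg _) (norm_nonneg _)

namespace Hy

variable {s : SD} {l : End} {L h τ a : ℝ} {π π' : Type} [Fintype π] {x : π → ℂ} {δ ρ : ℝ}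
  {x' : π' → ℂ} {lm Tw : ℂ → ℂ} {E1 T : ℝ → ℝ} {X K : Set E}
  (H : Hy s l L h τ a x δ ρ x' lm Tw E1 T X K)
include H

theorem gm (k : π) : Gm l (x k) L δ ρ :=
  ⟨(H.ring.out.1 trivial).1, H.ring.wall.lk.2.1, H.sep.1 (Sum.inl k), H.hL, H.ring.num'.2.2.2.1,
    H.d1, H.r1⟩

theorem nm : 0 < δ ∧ 0 < s.o ∧ 0 < s.t ∧ s.t ≤ s.o * δ ∧ 100 * s.t ≤ δ ∧ 0 < s.y2 ∧
    s.y2 ≤ s.o * s.t ∧ 100 * s.y2 ≤ s.t ∧ 0 < a := by
  obtain ⟨a1, a2, a3, a4⟩ := H.ring.num.y2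
  obtain ⟨b1, -, -, b2, b3⟩ := H.ring.num'
  have := H.o1
  exact ⟨b2, by linarith, a3, b3, by nlinarith, a1, a2, by nlinarith, b1⟩

theorem ann (k : π) {ζ : ℂ} (h1 : ‖ζ‖ ≤ ρ / (2 * δ)) {b : ℝ} (h2 : b ≤ δ * ζ.im) :
    ph l (x k) δ ζ ∈ l.ann (Icc b h) := by
  have g := H.gm k
  refine ⟨(g.dep ζ).1, ?_⟩
  rw [(g.dep ζ).2]
  exact ⟨h2, by linarith [(abs_le.1 (g.dep_le h1)).2, H.h8, g.d0, g.d1]⟩

theorem ann' (k : π) {ζ : ℂ} (h1 : ‖ζ‖ ≤ ρ / (2 * δ)) (h2 : 0 ≤ ζ.im) :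
    ph l (x k) δ ζ ∈ l.ann (Icc (-a) h) :=
  H.ann k h1 (by nlinarith [H.nm.1, H.nm.2.2.2.2.2.2.2.2])

theorem nw (k : π) {ζ : ℂ} (h1 : ‖ζ‖ ≤ ρ / (2 * δ)) :
    Real.exp (-h) ≤ ‖wch (x k) δ 0 ζ‖ ∧ ‖wch (x k) δ 0 ζ‖ ≤ Real.exp h := by
  have g := H.gm k
  have := abs_le.1 (g.dep_le h1)
  rw [norm_wch g.hx, add_zero]
  constructor <;> exact Real.exp_le_exp.2 (by linarith [H.h8, g.d0, g.d1])

theorem up (k : π) {y : E} (h0 : y ∈ bc (wch (x k) δ 0) ⁻¹' s.cX l X) (h1 : ‖y.1‖ ≤ ρ / (2 * δ)) :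
    0 ≤ y.1.im := by
  have g := H.gm k
  have : ‖wch (x k) δ 0 y.1‖ ≤ 1 := H.cb.up trivial _ h0 (H.nw k h1).1 (H.nw k h1).2
  rw [norm_wch g.hx, add_zero, Real.exp_le_one_iff] at this
  nlinarith [g.d0]

theorem oth {k k' : π} (n : k ≠ k') {ζ ζ' : ℂ} (h1 : ‖ζ‖ ≤ ρ / (2 * δ)) (h2 : ‖ζ'‖ ≤ 3) :
    ph l (x k) δ ζ ≠ ph l (x k') δ ζ' :=
  (H.gm k).sep (H.gm k') (H.sep.2 (Sum.inl k) (Sum.inl k') fun e => n (Sum.inl.inj e)) h1 h2

theorem oth' {k k' : π} {ζ : ℂ} (h1 : ‖ζ‖ ≤ ρ / (2 * δ)) {u : ℝ} (hu : u ≤ 4)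
    (h2 : ph l (x k) δ ζ ∈ closedBall (hq l (x k') δ 0) (rp l L δ * Real.exp u)) : k = k' := by
  by_contra n
  obtain ⟨ζ', a1, a2⟩ := (H.gm k').surj hu h2
  exact H.oth n h1 (Gm.near_I a2).1 a1.symm

open Classical in
theorem prod (k : π) {ζ : ℂ} (h1 : ‖ζ‖ ≤ ρ / (2 * δ)) :
    AnalyticAt ℂ (fun v => ∏ i ∈ Finset.univ.erase k,
      (v - hq l (x i) δ 0) / (v - hq l (x i) (Real.sqrt 2 * δ) (-δ))) (ph l (x k) δ ζ) ∧
    ∏ i ∈ Finset.univ.erase k, (ph l (x k) δ ζ - hq l (x i) δ 0) /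
      (ph l (x k) δ ζ - hq l (x i) (Real.sqrt 2 * δ) (-δ)) ≠ 0 := by
  have a : ∀ i ∈ Finset.univ.erase k, ph l (x k) δ ζ - hq l (x i) δ 0 ≠ 0 ∧
      ph l (x k) δ ζ - hq l (x i) (Real.sqrt 2 * δ) (-δ) ≠ 0 := fun i b => by
    have n := (Finset.ne_of_mem_erase b).symm
    rw [← (H.gm i).phI, ← (H.gm i).phz]
    exact ⟨sub_ne_zero.2 (H.oth n h1 (by simp)), sub_ne_zero.2 (H.oth n h1 norm_z0)⟩
  exact ⟨Finset.analyticAt_fun_prod _ fun i b => (analyticAt_id.sub analyticAt_const).div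
    (analyticAt_id.sub analyticAt_const) (a i b).2,
    Finset.prod_ne_zero_iff.2 fun i b => div_ne_zero (a i b).1 (a i b).2⟩

/-- the inverse secant in the chart -/
theorem mult (k : π) : ∃ g : ℂ → ℂ, ∀ ζ : ℂ, ‖ζ‖ ≤ ρ / (2 * δ) → 0 ≤ ζ.im → AnalyticAt ℂ g ζ ∧
    g ζ ≠ 0 ∧ ∀ᶠ ξ in 𝓝 ζ, sq1 ξ ≠ 0 →
      (s.d0 (ph l (x k) δ ξ))⁻¹ * sq1 ξ = (ξ - Complex.I) * g ξ := by
  classical
  obtain ⟨m, hm⟩ := H.ring.pole
  have g := H.gm k
  refine ⟨fun ξ => m (ph l (x k) δ ξ) * (∏ i ∈ Finset.univ.erase k,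
    (ph l (x k) δ ξ - hq l (x i) δ 0) / (ph l (x k) δ ξ - hq l (x i) (Real.sqrt 2 * δ) (-δ))) *
    dslope (ph l (x k) δ) Complex.I ξ * (ξ + 1 + Real.sqrt 2 * Complex.I) /
    dslope (ph l (x k) δ) z0 ξ, fun ζ h1 h2 => ?_⟩
  obtain ⟨m1, m2, m3⟩ := hm _ (H.ann' k h1 h2)
  obtain ⟨p1, p2⟩ := H.prod k h1
  have n := g.ds_ne h1 norm_z0
  refine ⟨((((m1.comp (g.an ζ)).mul (p1.comp (g.an ζ))).mul (g.ds _ ζ)).mul (by fun_prop)).div
    (g.ds _ ζ) n, div_ne_zero (mul_ne_zero (mul_ne_zero (mul_ne_zero m2 p2)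
      (g.ds_ne h1 (by simp))) (conj_ne h2)) n, ?_⟩
  filter_upwards [(g.an ζ).continuousAt.eventually m3, (g.ds z0 ζ).continuousAt.eventually_ne n]
    with ξ b c d
  have e1 := sub_smul_dslope (ph l (x k) δ) Complex.I ξ
  have e2 := sub_smul_dslope (ph l (x k) δ) z0 ξ
  rw [sq1_eq] at d ⊢
  have d' := left_ne_zero_of_mul d
  rw [b, ← Finset.mul_prod_erase _ _ (Finset.mem_univ k), ← g.phI, ← g.phz, ← e1, ← e2]
  simp only [smul_eq_mul]
  field_simp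

theorem disc (k : π) {z : ℂ} (h1 : z ∈ closedBall (hq l (x k) δ 0) (l.r * prad (x k) δ 0 L)) :
    ∃ ζ, ph l (x k) δ ζ = z ∧ ‖ζ‖ ≤ ρ / (2 * δ) ∧ 3 / 4 ≤ ζ.im ∧ ζ ≠ z0 := by
  have g := H.gm k
  rw [g.rad_eq] at h1
  obtain ⟨ζ, a1, a2⟩ := g.surj (by norm_num) h1
  obtain ⟨b1, b2, -⟩ := Gm.near_I a2
  refine ⟨ζ, a1, by linarith [g.big], b2, fun e => ?_⟩
  have := Complex.abs_re_le_norm (ζ - Complex.I)
  rw [e] at this a2
  simp [z0] at this a2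
  linarith

theorem near_le {y : E} (h1 : y ∈ SH.near X s.w s.R) : y ∈ SH.near X s.w τ :=
  ⟨h1.1, h1.2.trans H.ring.num'.2.2.1⟩

/-- points of `K` over the window -/
theorem kpt (k : π) {ζ v : ℂ} (h0 : (ph l (x k) δ ζ, v) ∈ SH.near X s.w s.R)
    (hK : (ph l (x k) δ ζ, v) ∈ K) (h1 : ‖ζ‖ ≤ ρ / (2 * δ)) (h2 : 0 ≤ ζ.im) :
    (δ * ζ.im ≤ s.t ∨ ‖ph l (x k) δ ζ - hq l (x k) δ 0‖ ≤ rp l L δ * Real.exp s.t) ∧
      v = s.w (ph l (x k) δ ζ) + s.N (ph l (x k) δ ζ) := by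
  obtain ⟨a1, a2⟩ := H.ring.kd1 _ h0 hK (H.ann' k h1 h2)
  refine ⟨a1.imp (fun b => ((H.gm k).dep ζ).2 ▸ b.2.2) fun ⟨k', b⟩ => ?_, a2⟩
  obtain rfl := H.oth' h1 (by linarith [H.ring.wall.pf.num.2.2]) b
  exact mem_closedBall_iff_norm.1 b

theorem port (k : π) : s.Port (hq l (x k) δ 0) (rp l L δ) (l.r * prad (x k) δ 0 L) X K := by
  classical
  have g := H.gm k
  have sub : closedBall (hq l (x k) δ 0) (l.r * prad (x k) δ 0 L) ⊆ l.ann (Icc (-a) h) :=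
    fun z b => by
      obtain ⟨ζ, rfl, c, d, -⟩ := H.disc k b
      exact H.ann' k c (by linarith)
  refine ⟨H.ring.num, ?_, H.ring.port k, fun z b => H.ring.cmp z (sub b), ?_,
    np_near H.ring.std.cX H.ring.std.np isClosed_closedBall
      (fun z b => (H.ring.cmp z (sub b)).1.continuousAt) fun y b c d e => ?_, fun y b c d => ?_,
    fun z b => H.ring.kd2 z (Or.inr ⟨k, b⟩)⟩
  · rw [g.rad_eq]; have := g.rp_pos; gcongr; norm_num
  · obtain ⟨m, hm⟩ := H.ring.pole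
    refine ⟨fun v => m v * (∏ i ∈ Finset.univ.erase k,
      (v - hq l (x i) δ 0) / (v - hq l (x i) (Real.sqrt 2 * δ) (-δ))) /
        (v - hq l (x k) (Real.sqrt 2 * δ) (-δ)), fun z b => ?_⟩
    obtain ⟨m1, m2, m3⟩ := hm z (sub b)
    obtain ⟨ζ, rfl, c, -, d⟩ := H.disc k b
    obtain ⟨p1, p2⟩ := H.prod k c
    have n : ph l (x k) δ ζ - hq l (x k) (Real.sqrt 2 * δ) (-δ) ≠ 0 := by
      rw [← g.phz]; exact sub_ne_zero.2 fun e => d (g.inj c norm_z0 e)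
    refine ⟨(m1.mul p1).div (analyticAt_id.sub analyticAt_const) n,
      div_ne_zero (mul_ne_zero m2 p2) n, m3.mono fun v e => ?_⟩
    rw [e, ← Finset.mul_prod_erase _ _ (Finset.mem_univ k)]
    ring
  · refine (H.ring.tube y (H.near_le ⟨b, e.le⟩) c ?_).1.ne e
    obtain ⟨ζ, f, u, v, -⟩ := H.disc k d
    rw [← f]
    exact H.ann k u (by nlinarith [g.d0, g.d1, H.h8])
  · obtain ⟨z, v⟩ := y
    obtain ⟨ζ, rfl, u, w, -⟩ := H.disc k d
    obtain ⟨a1, a2⟩ := H.kpt k b c u (by linarith)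
    refine ⟨mem_closedBall_iff_norm.2 (a1.resolve_left fun e => ?_), a2⟩
    nlinarith [H.nm.1, H.nm.2.2.2.2.1]

theorem rz (k : π) {ζ : ℂ} (h1 : ‖ζ‖ ≤ ρ / (2 * δ)) (h2 : Real.exp (-L + 2) ≤ ‖bl ζ‖) {b u : ℝ}
    (hb : b ≤ δ * ζ.im) (hu : u ≤ 1) : ph l (x k) δ ζ ∈ SD.rz l x L δ h b u := by
  refine ⟨H.ann k h1 hb, fun k' => le_of_not_gt fun c => ?_⟩
  have g := H.gm k
  obtain rfl := H.oth' (L := L) h1 (u := u) (by linarith) (mem_closedBall_iff_norm.2 c.le)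
  have d := (g.port h1 (u := u) (by linarith) c.le).2.2
  have e1 : Real.exp (-L + 2) * Real.exp L = Real.exp 1 * Real.exp 1 := by
    rw [← Real.exp_add, ← Real.exp_add]; congr 1; ring
  have e2 := Real.exp_le_exp.2 hu
  have e3 := Real.add_one_le_exp 1
  have p := g.rp_pos
  have e4 : Real.exp (-L + 2) * Real.exp L * rp l L δ ≤ ‖bl ζ‖ * Real.exp L * rp l L δ := by gcongr
  have c' : ‖ph l (x k) δ ζ - hq l (x k) δ 0‖ < rp l L δ * Real.exp u := c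
  rw [e1] at e4
  nlinarith [mul_le_mul_of_nonneg_left e2 p.le, mul_pos p (Real.exp_pos 1)]

theorem pure (k : π) {ζ : ℂ} (h1 : |ζ.re| ≤ ρ / (2 * δ)) (h2 : 0 ≤ δ * ζ.im)
    (h3 : δ * ζ.im ≤ 2 * s.t) :
    ph l (x k) δ ζ ∈ l.ann (Icc 0 (2 * s.t)) ∧ Tw (ph l (x k) δ ζ) = T (l.dep (ph l (x k) δ ζ)) ∧
      N1 (fun z => lm z / s.d1 z) s.o (ph l (x k) δ ζ) := by
  have g := H.gm k
  obtain ⟨n1, n2, n3, n4, n5, n6, n7, n8, -⟩ := H.nm
  have m : ph l (x k) δ ζ ∈ l.ann (Icc 0 (2 * s.t)) :=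
    ⟨(g.dep ζ).1, by rw [(g.dep ζ).2]; exact ⟨h2, h3⟩⟩
  refine ⟨m, H.ring.pure _ (by rwa [if_pos trivial]) fun k' => le_trans ?_
    (g.far (H.sep.2 (Sum.inl k) (Sum.inr k') Sum.inl_ne_inr) h1 ?_)⟩
  · nlinarith [g.hr, g.d1]
  · rw [abs_le]; constructor <;> nlinarith

theorem spt (k : π) {ζ : ℂ} (h1 : |ζ.re| ≤ ρ / (2 * δ)) (h2 : 0 ≤ ζ.im) (h3 : δ * ζ.im ≤ 2 * s.t) :
    s.V (ph l (x k) δ ζ, s.w (ph l (x k) δ ζ) + s.N (ph l (x k) δ ζ)) =
      Ps s lm E1 T (δ * ζ.im) (ph l (x k) δ ζ) ∧ 0 ≤ (Ps s lm E1 T (δ * ζ.im) (ph l (x k) δ ζ)).re ∧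
    ∀ v : ℂ, (ph l (x k) δ ζ, v) ∈ SH.near X s.w s.R → s.V (ph l (x k) δ ζ, v) =
      Ps s lm E1 T (δ * ζ.im) (ph l (x k) δ ζ) → (ph l (x k) δ ζ, v) ∈ K := by
  have g := H.gm k
  have h4 := mul_nonneg g.d0.le h2
  have t0 := H.nm.2.2.1
  obtain ⟨a1, a2, a3⟩ := H.pure k h1 h4 h3
  obtain ⟨b1, b2, b3⟩ := wall_pt H.ring.num H.ring.wall (by linarith [H.o1])
    (End.ann_mono (Icc_subset_Icc (by linarith) le_rfl) a1) (by rwa [if_pos trivial]) a2 a3 (by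
      rw [(g.dep ζ).2]
      rcases h4.eq_or_lt with e | e
      · rw [← e]; exact ((H.ring.out.1 trivial).2 0 le_rfl).1.ge
      · exact nonneg_of_mul_nonneg_right (H.ring.wall.pf.dE _ ⟨by linarith, h3⟩).2.2 e)
  rw [(g.dep ζ).2] at b1 b2 b3
  refine ⟨b1, b2, fun v c d => ?_⟩
  have := b3 (v - s.w (ph l (x k) δ ζ)) c.2 (by rwa [add_sub_cancel])
  rw [← add_sub_cancel (s.w (ph l (x k) δ ζ)) v, this]
  exact H.ring.kd2 _ (Or.inl (by rwa [if_pos trivial]))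

end Hy

/-- the wall of the ring in the window chart -/
theorem strip (hS : St_SPW) {ι : ℝ} (hι : 0 < ι) : ∃ o > (0 : ℝ), ∀ {s : SD} {l : End}
    {L h τ a : ℝ} {π π' : Type} [Fintype π] {x : π → ℂ} {δ ρ : ℝ} {x' : π' → ℂ} {lm Tw : ℂ → ℂ}
    {E1 T : ℝ → ℝ} {X K : Set E}, Hy s l L h τ a x δ ρ x' lm Tw E1 T X K → s.o ≤ o →
    ∀ (k : π) (J : Set ℝ) (x0 r : ℝ), 1 / 16 ≤ r → r ≤ ρ / (2 * δ) →
    (∀ u ∈ J, |x0 + r * u| ≤ ρ / (2 * δ)) → ∃ Ψy : ℝ → ℝ → ℂ, ∀ e' lev : ℝ, SH.Rd e' s.e lev →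
      SH.PW J e' ι (s.t / (δ * r)) (SH.cW 1) lev (fun u y => Ps s lm E1 T (δ * r * y)
        (ph l (x k) δ (x0 + r * (u + y * Complex.I)))) Ψy := by
  obtain ⟨o, o0, S⟩ := spw hS hι
  refine ⟨o / 16, by positivity, fun {s l L h τ a π π' _ x δ ρ x' lm Tw E1 T X K} H o1 k J x0 r r0
    r1 hJ => ?_⟩
  have g := H.gm k
  obtain ⟨n1, n2, n3, n4, n5, n6, n7, n8, -⟩ := H.nm
  have im : ∀ u y : ℝ, δ * (x0 + r * (u + y * Complex.I) : ℂ).im = δ * r * y := fun u y => by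
    simp [mul_assoc]
  have re : ∀ u y : ℝ, (x0 + r * (u + y * Complex.I) : ℂ).re = x0 + r * u := fun u y => by simp
  refine S J (δ * r) (fun ζ => ph l (x k) δ (x0 + r * ζ)) H.ring.num H.ring.wall (by positivity)
    (by nlinarith [mul_le_mul_of_nonneg_right o1 n1.le, mul_pos o0 n1]) (by linarith)
    (fun u b y c => ⟨(g.an _).comp (by fun_prop), ?_, (g.dep _).1, (g.dep _).2.trans (im u y)⟩)
    fun y c => ?_
  · have d : HasDerivAt (fun ζ => ph l (x k) δ (x0 + r * ζ)) _ (u + y * Complex.I) :=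
      (g.der _).comp (u + y * Complex.I : ℂ)
        (((hasDerivAt_id (u + y * Complex.I : ℂ)).const_mul (r : ℂ)).const_add (x0 : ℂ))
    rw [d.deriv]
    simp only [norm_mul, norm_wch g.hx, im, add_zero, Complex.norm_real, Complex.norm_I,
      Real.norm_of_nonneg g.hr.le, Real.norm_of_nonneg n1.le, one_mul, mul_one,
      Real.norm_of_nonneg (show 0 ≤ r by linarith)]
    have e1 : Real.exp (-(δ * r * y)) ≤ 3 := (Real.exp_le_exp.2
      (show _ ≤ 1 by linarith [(abs_le.1 c).1, g.d2])).trans (by linarith [Real.exp_one_lt_d9])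
    rw [le_div_iff₀ (by positivity)] at r1
    have e2 : δ * r ≤ 1 := by linarith [g.r1]
    calc l.r * (Real.exp (-(δ * r * y)) * δ) * r = l.r * Real.exp (-(δ * r * y)) * (δ * r) := by
          ring
      _ ≤ 10 * 3 * 1 := by
          have := H.ring.wall.lk.2.2.1
          gcongr
      _ ≤ 100 := by norm_num
  · rcases lt_or_ge (δ * r * y) 0 with d | d
    · exact Or.inl ((eventually_lt_nhds d).mono fun v e => ⟨((H.ring.out.1 trivial).2 v e.le).1,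
        ((H.ring.out.1 trivial).2 v e.le).2, H.ring.wall.pf.S0 v (by linarith)⟩)
    · exact Or.inr fun u b => (H.pure k (by rw [re]; exact hJ u b) (by rwa [im])
        (by rw [im]; exact (abs_le.1 c).2)).2.2

/-- the wall of a port at one point -/
theorem pstrip (hS : St_SPW) {ι : ℝ} (hι : 0 < ι) : ∃ o > (0 : ℝ), ∀ {s : SD} {p z : ℂ} {ρ : ℝ}
    {E1 T : ℝ → ℝ}, s.Num → s.o ≤ o → s.o ≤ 1 / 10 →
    s.Wall (s.pe p ρ) s.d0 (fun z => (T ((s.pe p ρ).dep z) : ℂ)) E1 T (Iic (2 * s.t)) →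
    (∀ y ≤ 0, E1 y = 0) → z ≠ p → |(s.pe p ρ).dep z| ≤ s.t →
    |(s.V (z, s.w z + s.N z)).im| ≤ ι * ss s.e (s.V (z, s.w z + s.N z)) ∧
      0 ≤ (s.V (z, s.w z + s.N z)).re := by
  obtain ⟨o, o0, S⟩ := spw hS hι
  refine ⟨o, o0, fun {s p z ρ E1 T} n o1 o2 W e0 hz hd => ?_⟩
  have r0 : 0 < (s.pe p ρ).r := W.lk.2.1
  have r1 : ρ ≤ 10 := W.lk.2.2.1
  have t0 := n.y2.2.2.1
  have t1 := W.pf.num.2.2
  set d := (s.pe p ρ).dep z with hdd
  have rad : ∀ y : ℝ, (s.pe p ρ).rad y = ρ * Real.exp y := fun y => by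
    simp [End.rad, End.sgn, SD.pe]
  have nz : ‖z - p‖ = ρ * Real.exp d := (End.norm_eq_rad r0 hz).trans (rad d)
  have der : ∀ ζ : ℂ, HasDerivAt (fun ζ => p + (z - p) * Complex.exp (-d - Complex.I * ζ))
      ((z - p) * (Complex.exp (-d - Complex.I * ζ) * -Complex.I)) ζ := fun ζ => by
    have := ((((hasDerivAt_id ζ).const_mul Complex.I).const_sub (-d : ℂ)).cexp.const_mul
      (z - p)).const_add p
    simpa using this
  have nb : ∀ y : ℝ, ‖(z - p) * Complex.exp (-d - Complex.I * ((0 : ℝ) + y * Complex.I))‖ =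
      ρ * Real.exp y := fun y => by
    rw [norm_mul, nz, Complex.norm_exp, mul_assoc, ← Real.exp_add]; simp
  have dp : ∀ y : ℝ, _ := fun y => End.dep_of_norm r0 (s := y)
    (z := p + (z - p) * Complex.exp (-d - Complex.I * ((0 : ℝ) + y * Complex.I))) (by
      rw [rad, ← nb]; simp [SD.pe])
  obtain ⟨Ψy, P⟩ := S {0} 1 (fun ζ => p + (z - p) * Complex.exp (-d - Complex.I * ζ)) n W one_pos
    (by linarith [n.y2.2.2.2]) o1 (fun u b y c => by
      obtain rfl : u = 0 := b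
      refine ⟨by fun_prop, ?_, (dp y).1, by rw [(dp y).2, one_mul]⟩
      rw [(der _).deriv, ← mul_assoc, norm_mul, nb, norm_neg, Complex.norm_I, mul_one]
      have e1 : Real.exp y ≤ 3 := (Real.exp_le_exp.2
        (show _ ≤ 1 by linarith [(abs_le.1 c).2])).trans (by linarith [Real.exp_one_lt_d9])
      nlinarith [Real.exp_pos y]) fun y c => Or.inr fun u b => by
      obtain rfl : u = 0 := b
      exact (W.str _ ⟨(dp y).1, by rw [(dp y).2]; exact abs_le.1 (by simpa using c)⟩).2.2.2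
  have hd' := abs_le.1 hd
  have m : z ∈ (s.pe p ρ).ann (Icc (-(2 * s.t)) (2 * s.t)) :=
    ⟨hz, by linarith [hd'.1], by linarith [hd'.2]⟩
  obtain ⟨b1, b2, -⟩ := wall_pt n W o2 m ⟨hz, m.2.2⟩ rfl (W.str z m).2.2.2 (by
    rcases le_or_gt d 0 with e | e
    · exact (e0 d e).ge
    · exact nonneg_of_mul_nonneg_right (W.pf.dE _ m.2).2.2 e)
  have := (P s.e 0 (Or.inl ⟨rfl, le_rfl⟩)).he 0 rfl d
    ⟨by rw [div_one]; exact m.2.1, by rw [div_one]; exact m.2.2⟩ (norm_nonneg _)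
  have e : p + (z - p) * Complex.exp (-d - Complex.I * ((0 : ℝ) + d * Complex.I)) = z := by
    rw [show (-d - Complex.I * ((0 : ℝ) + d * Complex.I) : ℂ) = 0 by
      push_cast; linear_combination (-d : ℂ) * Complex.I_mul_I]
    simp
  simp only [e, one_mul] at this
  rw [b1]
  exact ⟨this, b2⟩

theorem ex_le {y2 t o d : ℝ} (h0 : 0 < y2) (h1 : y2 ≤ o * t) (h2 : y2 ≤ 1) (h3 : 0 < t)
    (h4 : d ≤ -t) : ex y2 d ≤ o * Real.exp d := by
  have o0 : 0 < o := by nlinarith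
  have a : d / y2 ≤ -(1 / o) := by
    rw [div_le_iff₀ h0, neg_mul, one_div_mul_eq_div, le_neg, div_le_iff₀ o0]; nlinarith
  have b : d / y2 ≤ d := by rw [div_le_iff₀ h0]; nlinarith
  have c : Real.exp (-(1 / o)) ≤ o := by
    rw [Real.exp_neg, inv_le_comm₀ (Real.exp_pos _) o0, ← one_div]
    linarith [Real.add_one_le_exp (1 / o)]
  calc ex y2 d ≤ Real.exp (-(1 / o) + d) := Real.exp_le_exp.2 (by linarith)
    _ ≤ _ := by rw [Real.exp_add]; gcongr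

theorem low {e c o ι : ℝ} {W : ℂ} (e0 : 0 < e) (c0 : 0 ≤ c) (c1 : c ≤ 1) (h : ‖W - 1‖ ≤ o)
    (o1 : o ≤ 1 / 10) (o2 : 2 * o ≤ ι) : |((e / 2 * c : ℝ) * W).im| ≤ ι * ss e ((e / 2 * c : ℝ) * W) ∧
      0 ≤ ((e / 2 * c : ℝ) * W).re ∧ ‖(e / 2 * c : ℝ) * W‖ ≤ e * c := by
  obtain ⟨a1, a2⟩ := n1_re h
  have o0 := (norm_nonneg _).trans h
  have a3 : |W.im| ≤ o := by simpa using (Complex.abs_im_le_norm (W - 1)).trans h
  have a4 := (le_abs_self _).trans (Complex.abs_re_le_norm W)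
  have p : 0 ≤ e / 2 * c := by positivity
  have n : ‖(e / 2 * c : ℝ) * W‖ = e / 2 * c * ‖W‖ := by
    rw [norm_mul, Complex.norm_real, Real.norm_of_nonneg p]
  have q := norm_sub_norm_le (e : ℂ) ((e / 2 * c : ℝ) * W)
  rw [norm_sub_rev, n, Complex.norm_real, Real.norm_of_nonneg e0.le] at q
  have s1 : e / 2 * c / 2 ≤ ss e ((e / 2 * c : ℝ) * W) := le_min (by rw [n]; nlinarith)
    (by nlinarith [mul_le_mul_of_nonneg_left a2 p])
  rw [Complex.im_ofReal_mul, Complex.re_ofReal_mul, abs_mul, abs_of_nonneg p, n]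
  have s2 := mul_le_mul o2 s1 (by positivity) (by linarith)
  exact ⟨by nlinarith [mul_le_mul_of_nonneg_left a3 p], by nlinarith, by nlinarith⟩

end NWIN

open NWIN

theorem st_nwin (hS : St_SPW) (hP : St_PSD) : St_NWIN := by
  classical
  intro ι L δ ρ hι hL hδ d1 r1
  obtain ⟨o1, p1, S1⟩ := strip hS hι
  obtain ⟨o2, p2, S2⟩ := pstrip hS hι
  obtain ⟨o3, p3, S3⟩ := hP (1 / 2) 1 (by norm_num) le_rfl one_pos le_rfl
  refine ⟨min (min o1 o2) (min o3 (min (ι / 2) (1 / 100))), by positivity,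
    fun s l h τ a π π' _ x x' lm Tw E1 T X K ho h8 sep ring cb k => ?_⟩
  simp only [le_min_iff] at ho
  obtain ⟨⟨q1, q2⟩, q3, q4, q5⟩ := ho
  have H : Hy s l L h τ a x δ ρ x' lm Tw E1 T X K := ⟨hL, d1, r1, h8, sep, ring, cb, q5⟩
  have g := H.gm k
  have P := H.port k
  obtain ⟨n1, n2, n3, n4, n5, n6, n7, n8, n9⟩ := H.nm
  have e0 := ring.num.e.1
  obtain ⟨g1, G⟩ := H.mult k
  set Q : E → ℂ := fun y => (y.2 - s.w (ph l (x k) δ y.1)) * s.Wt (ph l (x k) δ y.1, y.2) * g1 y.1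
    with hQ
  set Pt : E → ℂ := fun y => if sq1 y.1 = 0 then (y.1 - Complex.I) * Q y else
    s.V (ph l (x k) δ y.1, y.2) * sq1 y.1 with hPt
  have cmp : ∀ y ∈ bc (wch (x k) δ 0) ⁻¹' s.cX l X, ‖y.1‖ ≤ ρ / (2 * δ) →
      AnalyticAt ℂ s.w (ph l (x k) δ y.1) ∧ AnalyticAt ℂ s.Wt (ph l (x k) δ y.1, y.2) ∧
      ‖s.Wt (ph l (x k) δ y.1, y.2) - 1‖ ≤ s.o ∧
      ∀ᶠ v in 𝓝 ((ph l (x k) δ y.1, y.2) : E), s.V v = (v.2 - s.w v.1) / s.d0 v.1 * s.Wt v :=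
    fun y b c => by
      obtain ⟨a1, a2⟩ := ring.cmp _ (H.ann' k c (H.up k b c))
      have := a2 (y.2 - s.w (ph l (x k) δ y.1)) b.2
      rw [add_sub_cancel] at this
      exact ⟨a1, this⟩
  have key : ∀ y ∈ bc (wch (x k) δ 0) ⁻¹' s.cX l X, ‖y.1‖ ≤ ρ / (2 * δ) → AnalyticAt ℂ Q y ∧
      ∀ᶠ v in 𝓝 y, Pt v = (v.1 - Complex.I) * Q v := fun y b c => by
    obtain ⟨a1, a2, -, a4⟩ := cmp y b c
    obtain ⟨b1, -, b3⟩ := G y.1 c (H.up k b c)
    have c1 : AnalyticAt ℂ (bc (ph l (x k) δ)) y := SH.an_bc (g.an y.1)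
    refine ⟨((analyticAt_snd.sub (AnalyticAt.comp (f := fun v : E => ph l (x k) δ v.1) a1
      ((g.an y.1).comp analyticAt_fst))).mul (AnalyticAt.comp (f := bc (ph l (x k) δ)) a2 c1)).mul
      (b1.comp analyticAt_fst), ?_⟩
    filter_upwards [c1.continuousAt.eventually a4, continuousAt_fst.eventually b3] with v d e
    simp only [hPt]
    split_ifs with f
    · rfl
    · have d' : s.V (ph l (x k) δ v.1, v.2) = (v.2 - s.w (ph l (x k) δ v.1)) /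
        s.d0 (ph l (x k) δ v.1) * s.Wt (ph l (x k) δ v.1, v.2) := d
      rw [d', hQ]
      linear_combination (v.2 - s.w (ph l (x k) δ v.1)) * s.Wt (ph l (x k) δ v.1, v.2) * e f
  have anP : ∀ y ∈ bc (wch (x k) δ 0) ⁻¹' s.cX l X, ‖y.1‖ ≤ ρ / (2 * δ) → AnalyticAt ℂ Pt y :=
    fun y b c => ((analyticAt_fst.sub analyticAt_const).mul (key y b c).1).congr
      ((key y b c).2.mono fun v e => e.symm)
  have blI : ∀ ζ : ℂ, Real.exp (-L + 2) ≤ ‖bl ζ‖ → ζ - Complex.I ≠ 0 := fun ζ b e => by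
    rw [bl, e, zero_div, norm_zero] at b
    linarith [Real.exp_pos (-L + 2)]
  refine ⟨P, Pt, ⟨np_wch cb.np (ne0 g.hx) hδ (isCompact_closedBall _ _)
      fun z b => H.nw k (mem_closedBall_zero_iff.1 b),
    fun y b => H.up k b.1 (mem_closedBall_zero_iff.1 b.2),
    fun y b => anP y b.1 (mem_closedBall_zero_iff.1 b.2),
    fun y b c => ⟨Q, key y b (by rw [c, Complex.norm_I]; linarith [g.big])⟩,
    fun y _ b => if_neg b, fun y b c => ?_, fun x0 r b c => ?_, fun z b c d e => ?_,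
    fun b b0 b1 y y1 y2 y3 y4 => ?_⟩, fun y b c d e => ?_⟩
  · obtain ⟨ζ, v⟩ := y
    have c1 : ‖ζ‖ ≤ ρ / (2 * δ) := mem_closedBall_zero_iff.1 b.2
    have c2 : 0 ≤ ζ.im := H.up k b.1 c1
    have c3 : |ζ.re| ≤ ρ / (2 * δ) := (Complex.abs_re_le_norm ζ).trans c1
    obtain ⟨a1, a2⟩ := H.kpt k (v := v) b.1 c c1 c2
    obtain ⟨-, -, w1, w2⟩ := cmp _ b.1 c1
    replace w2 := w2.self_of_nhds
    show |(s.V (ph l (x k) δ ζ, v)).im| ≤ ι * ss s.e (s.V (ph l (x k) δ ζ, v)) ∧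
      0 ≤ (s.V (ph l (x k) δ ζ, v)).re ∧ (ζ.im ≤ ι ∨ (|Real.log ‖bl ζ‖ + L| ≤ 1 ∧ ζ ≠ Complex.I) ∨
        ‖bl ζ‖ ≤ Real.exp (-L + 1) ∧ ‖s.V (ph l (x k) δ ζ, v)‖ ≤ ι * s.e * Real.exp L * ‖bl ζ‖)
    dsimp only at w1 w2
    rcases a1 with a1 | a1
    · obtain ⟨s1, s2, -⟩ := H.spt k c3 c2 (by linarith)
      obtain ⟨Ψy, W⟩ := S1 H q1 k {0} ζ.re 1 (by norm_num) (by linarith [g.big])
        fun u f => by rw [show u = 0 from f]; simpa using c3
      have f : ζ.im ≤ s.t / δ := by rw [le_div_iff₀ hδ]; linarith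
      have := (W s.e 0 (Or.inl ⟨rfl, le_rfl⟩)).he 0 rfl ζ.im
        (by rw [mul_one]; exact ⟨by linarith, by linarith⟩) (norm_nonneg _)
      simp only [mul_one, Complex.ofReal_one, one_mul, Complex.ofReal_zero, zero_add,
        Complex.re_add_im] at this
      rw [a2, s1]
      exact ⟨this, s2, Or.inl (by nlinarith)⟩
    · obtain ⟨E1', T', W, f0, f1, -⟩ := P.wall
      obtain ⟨u1, u2, u3⟩ := g.port c1 (u := s.t) (by linarith [g.d2]) a1
      have rp0 := g.rp_pos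
      have eL := Real.exp_pos L
      by_cases n : ph l (x k) δ ζ = hq l (x k) δ 0
      · have : s.V (ph l (x k) δ ζ, v) = 0 := by rw [w2, a2, n, f1]; simp
        rw [this, g.inj c1 (by simp) (n.trans g.phI.symm)]
        simp only [Complex.zero_im, abs_zero, Complex.zero_re, bl, sub_self, zero_div, norm_zero]
        exact ⟨mul_nonneg hι.le (ss_nonneg _ _), le_rfl,
          Or.inr (Or.inr ⟨(Real.exp_pos _).le, by simp⟩)⟩
      set d := (s.pe (hq l (x k) δ 0) (rp l L δ)).dep (ph l (x k) δ ζ) with hd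
      have nz : ‖ph l (x k) δ ζ - hq l (x k) δ 0‖ = rp l L δ * Real.exp d :=
        (End.norm_eq_rad (e := s.pe (hq l (x k) δ 0) (rp l L δ)) rp0 n).trans
          (by simp [End.rad, End.sgn, SD.pe, hd])
      rw [nz] at a1 u2 u3
      have d2 : d ≤ s.t := Real.exp_le_exp.1 (le_of_mul_le_mul_left a1 rp0)
      have v1 : 3 / 4 * Real.exp d ≤ ‖bl ζ‖ * Real.exp L :=
        le_of_mul_le_mul_right (by linarith) rp0
      have v2 : ‖bl ζ‖ * Real.exp L ≤ 4 / 3 * Real.exp d :=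
        le_of_mul_le_mul_right (by linarith) rp0
      rcases le_total (-s.t) d with d3 | d3
      · obtain ⟨s1, s2⟩ := S2 ring.num q2 (by linarith) W f0 n (abs_le.2 ⟨d3, d2⟩)
        rw [a2]
        refine ⟨s1, s2, Or.inr (Or.inl ⟨?_, fun e => n (e ▸ g.phI)⟩)⟩
        have p : 0 < ‖bl ζ‖ * Real.exp L := lt_of_lt_of_le (by positivity) v1
        have l1 := Real.log_le_log (by positivity) v1
        have l2 := Real.log_le_log p v2
        rw [Real.log_mul (left_ne_zero_of_mul p.ne') eL.ne', Real.log_exp] at l1 l2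
        rw [Real.log_mul (by norm_num) (Real.exp_pos _).ne', Real.log_exp] at l1 l2
        rw [show (3 / 4 : ℝ) = (4 / 3)⁻¹ by norm_num, Real.log_inv] at l1
        rw [abs_le]
        constructor <;> linarith [SH.Ring.log_43, g.d2]
      · obtain ⟨m, hm⟩ := P.pole
        obtain ⟨-, m1, m2⟩ := hm (ph l (x k) δ ζ) (by
          rw [mem_closedBall_iff_norm, nz, g.rad_eq]; gcongr; linarith)
        have d0 : s.d0 (ph l (x k) δ ζ) ≠ 0 := fun e => by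
          have := m2.self_of_nhds
          rw [e, inv_zero] at this
          exact mul_ne_zero (sub_ne_zero.2 n) m1 this.symm
        have e1 : s.V (ph l (x k) δ ζ, v) =
            (s.e / 2 * T' d : ℝ) * s.Wt (ph l (x k) δ ζ, v) := by
          rw [w2]
          congr 1
          rw [a2, add_sub_cancel_left, W.eq _ ⟨n, show d ≤ 2 * s.t by linarith⟩, ← hd,
            f0 d (by linarith), W.pf.S0 d (by linarith)]
          push_cast; field_simp; ring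
        obtain ⟨-, t1, t2⟩ := W.pf.dT.2 d
        obtain ⟨s1, s2, s3⟩ := low (ι := ι) e0 t1 t2 w1 (by linarith) (by linarith)
        rw [e1]
        refine ⟨s1, s2, Or.inr (Or.inr ⟨?_, s3.trans ?_⟩)⟩
        · have e2 : Real.exp d ≤ 1 := Real.exp_le_one_iff.2 (by linarith)
          have e3 : Real.exp (-L + 1) * Real.exp L = Real.exp 1 := by
            rw [← Real.exp_add]; congr 1; ring
          refine le_of_mul_le_mul_right ?_ eL
          linarith [Real.add_one_le_exp 1]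
        · have e2 := (W.pf.low d (by linarith)).2.trans (ex_le n6 n7 (by linarith [g.d2]) n3 d3)
          have e3 := Real.exp_pos d
          have e4 : s.o * Real.exp d ≤ ι * (‖bl ζ‖ * Real.exp L) := by nlinarith
          nlinarith
  · have ad : SH.Ring.Adm (ρ / (2 * δ)) x0 r := by
      have := g.big
      rcases c with ⟨c, rfl⟩ | rfl | rfl
      · exact ⟨by linarith, by linarith, Or.inr (by ring)⟩
      · exact ⟨by norm_num, by linarith, Or.inl le_rfl⟩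
      · exact ⟨le_rfl, by linarith, Or.inl (by norm_num)⟩
    have r0 : 0 < r := by linarith [ad.1]
    have r0' : (r : ℂ) ≠ 0 := Complex.ofReal_ne_zero.2 r0.ne'
    obtain ⟨Ψy, W⟩ := S1 H q1 k (Icc (-1) 1) x0 r ad.1 (by linarith [ad.2.1, abs_nonneg x0])
      fun u f => (abs_add_le _ _).trans (by
        rw [abs_mul, abs_of_pos r0]; nlinarith [abs_le.2 f, ad.2.1])
    have eq : ∀ ζ : ℂ, Ps s lm E1 T (δ * r * (ζ.im / r)) (ph l (x k) δ (x0 + r *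
        (((ζ.re - x0) / r : ℝ) + (ζ.im / r : ℝ) * Complex.I))) =
        Ps s lm E1 T (δ * ζ.im) (ph l (x k) δ ζ) := fun ζ => by
      have e1 : δ * r * (ζ.im / r) = δ * ζ.im := by field_simp
      have e2 : (x0 + r * (((ζ.re - x0) / r : ℝ) + (ζ.im / r : ℝ) * Complex.I) : ℂ) = ζ := by
        conv_rhs => rw [← Complex.re_add_im ζ]
        push_cast; field_simp; ring
      rw [e1, e2]
    have ab : ∀ (ζ : ℂ) (c : ℝ), 0 ≤ ζ.im → (|ζ.im / r| ≤ c * (s.t / (δ * r)) ↔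
        δ * ζ.im ≤ c * s.t) := fun ζ c f => by
      rw [abs_of_nonneg (by positivity), ← mul_div_assoc, div_le_div_iff₀ r0 (by positivity),
        show ζ.im * (δ * r) = δ * ζ.im * r by ring, mul_le_mul_iff_left₀ r0]
    refine ⟨fun y f => ?_, _, _, Ψy, W s.e 0 (Or.inl ⟨rfl, le_rfl⟩), W 0 _ (Or.inr ⟨rfl, le_rfl⟩),
      fun y f u _ => ?_, fun y f _ u v => ?_⟩
    · have c1 := SH.Ring.box_norm ad.2.1 f.2
      have c2 := sq1_box ad f.2
      have c3 : AnalyticAt ℂ (fun v : E => sq1 v.1) y := 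
        ((analyticAt_fst.add analyticAt_const).pow 2).add analyticAt_const
      refine ((anP y f.1 c1).div c3 c2).congr ?_
      filter_upwards [c3.continuousAt.eventually_ne c2] with v e
      simp only [hPt, Pi.div_apply, if_neg e]
      exact mul_div_cancel_right₀ _ e
    · have c1 := SH.Ring.box_norm ad.2.1 f.2
      have c2 := H.up k f.1 c1
      obtain ⟨a1, a2⟩ := H.kpt k (v := y.2) f.1 u c1 c2
      have a3 := a1.resolve_right fun e => by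
        linarith [(g.port c1 (u := s.t) (by linarith [g.d2]) e).1, (ad.far f.2).1]
      refine ⟨by simpa only [one_mul] using (ab y.1 1 c2).2 (by linarith), ?_⟩
      simp only [eq]
      rw [← (H.spt k ((Complex.abs_re_le_norm _).trans c1) c2 (by linarith)).1, ← a2]; rfl
    · have c1 := SH.Ring.box_norm ad.2.1 f.2
      have c2 := H.up k f.1 c1
      simp only [eq] at v
      exact (H.spt k ((Complex.abs_re_le_norm _).trans c1) c2 ((ab y.1 2 c2).1 u)).2.2 y.2 f.1 v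
  · have c2 : 0 ≤ z.im := by linarith
    obtain ⟨-, a1, a2, -⟩ := ring.sht _ (H.rz k b d (b := -a) (u := -1 / 2) (by nlinarith)
      (by norm_num))
    have m := ring.mem _ (H.rz k b d (b := s.y2) (u := s.y2) (by nlinarith [g.d2])
      (by linarith [g.d2]))
    obtain ⟨-, b2, b3⟩ := G z b c2
    refine ⟨(z, s.w (ph l (x k) δ z) + s.e * s.d1 (ph l (x k) δ z)), ⟨m, ?_⟩, rfl, a2 fun f => ?_⟩
    · show ‖s.w (ph l (x k) δ z) + _ - s.w (ph l (x k) δ z)‖ ≤ s.R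
      rw [add_sub_cancel_left]; exact a1.le
    · have := b3.self_of_nhds e
      rw [f, inv_zero, zero_mul] at this
      exact mul_ne_zero (blI z d) b2 this.symm
  · have c2 := (S3 s _ _ _ X K q3 (by
      rw [g.rad_eq, div_mul_cancel_left₀ g.rp_pos.ne', Real.log_inv, Real.log_exp]; norm_num) P).c2
    have ee : ech l = SH.Ring.af l.c l.r := funext fun z => if_pos g.out
    have nn : ∀ v : E, ‖(bc (ech l) v).1 - hq l (x k) δ 0‖ =
        l.r * ‖v.1 - wch (x k) δ 0 Complex.I‖ := fun v => by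
      rw [← g.phI, norm_sub_rev, norm_sub_rev v.1, ← g.nrm, ee]; rfl
    have c3 : SH.PortB (s.cX l X \ bc (ech l) ⁻¹' K) (fun y => ‖s.cV l y‖)
        (wch (x k) δ 0 Complex.I) (prad (x k) δ 0 L) s.e 20 := fun B f1 f2 v f3 f4 => by
      refine c2 B f1 (fun u f5 f6 => ?_) (bc (ech l) v) f3 (by rw [nn]; gcongr; exact g.hr.le)
      obtain ⟨w, rfl⟩ := ee ▸ SH.Ring.af_surj l.c g.hr u
      exact f2 w f5 (by rwa [nn, mul_right_inj' g.hr.ne'] at f6)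
    refine SH.all_pb2.2 _ _ (x k) δ 0 L (ρ / (2 * δ)) _ _ (ne0 g.hx) hδ (by linarith)
      (by linarith [g.big]) (by rw [mul_div_assoc', div_le_iff₀ (by positivity)]; nlinarith) c3 b b0
      (fun u f => b1 u f.1 f.2) y ⟨y1, y2⟩ (fun e => ?_) y3 y4
    have := H.up k y1 y3
    rw [e] at this
    norm_num at this
  · have c2 := H.up k b c
    have e1 := (key y b c).2.self_of_nhds
    by_cases f : Pt y = 0
    · refine Or.inl (sub_eq_zero.1 ?_)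
      rw [e1] at f
      have w1 := (n1_re (cmp y b c).2.2.1).1
      exact ((mul_eq_zero.1 ((mul_eq_zero.1 ((mul_eq_zero.1 f).resolve_left
        (blI _ d))).resolve_right (G y.1 c c2).2.1)).resolve_right fun u => by
          rw [u, Complex.zero_re] at w1; linarith)
    · have f1 := sub_eq_zero.1 ((mul_eq_zero.1 e).resolve_left f)
      have f2 : sq1 y.1 ≠ 0 := fun u => f (by rw [f1, u, mul_zero])
      simp only [hPt, if_neg f2, mul_left_inj' f2] at f1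
      obtain ⟨-, -, -, a3⟩ := ring.sht _ (H.rz k c d (b := -a) (u := -1 / 2) (by nlinarith)
        (by norm_num))
      exact Or.inr ⟨H.rz k c d (by nlinarith) (by norm_num), sub_eq_iff_eq_add'.1
        (a3 (y.2 - s.w (ph l (x k) δ y.1)) b.2 (by rwa [add_sub_cancel]))⟩

end Pool.Agent.S6
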