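import Pool.Agent.Lib.S6.Site2
import Pool.Agent.Lib.SH.B_FIN

/-! The end properties at a large port. -/

open Set Filter Topology Metric

noncomputable section

namespace Pool.Agent.S6

open Pool.Agent.CF (End Kind)
open Pool.Agent.Lib Pool.Agent.Lib.SH Pool.Agent.Lib.SH.Win

namespace PEND7

/-- no points on an isolated graph with a free outer end -/
theorem nograph {l : End} (hr : 0 < l.r) {f : ℂ → ℂ} {lo hi : ℝ} {X K : Set E} (h : Std X K)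
    (hf : ∀ z ∈ l.ann (Ico lo hi), ContinuousAt f z)
    (h1 : ∀ y ∈ X, y.1 ∈ l.ann (Ico lo hi) → y.2 = f y.1 → y ∉ K ∧ lo < l.dep y.1 ∧
      ∀ᶠ x in 𝓝 y, x ∈ X → x ∉ K → x.2 = f x.1) :
    ∀ y ∈ X, y.1 ∈ l.ann (Ico lo hi) → y.2 ≠ f y.1 := by
  intro x0 hx0 hj e0
  have hsub : l.ann (Icc lo (l.dep x0.1)) ⊆ l.ann (Ico lo hi) :=
    End.ann_mono fun s a => ⟨a.1, a.2.trans_lt hj.2.2⟩
  have hZ : IsCompact (X ∩ (l.setW f).gr (l.ann (Icc lo (l.dep x0.1)))) :=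
    h.cX.inter_right (End.isCompact_gr (e := l.setW f) (End.isCompact_ann hr isCompact_Icc)
      fun z hz => (hf z (hsub hz)).continuousWithinAt).isClosed
  obtain ⟨y, hy, hmin⟩ := hZ.exists_isMinOn (f := fun x : E => l.dep x.1)
    ⟨x0, hx0, ⟨hj.1, hj.2.1, le_rfl⟩, e0⟩ fun x hx =>
      ((End.continuousAt_dep hr hx.2.1.1).comp continuousAt_fst).continuousWithinAt
  obtain ⟨hyK, hya, hev⟩ := h1 y hy.1 (hsub hy.2.1) hy.2.2
  obtain ⟨g, hg, hpk⟩ := FIN.peak_fun l hr hy.2.1.1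
  refine h.np y hy.1 hyK ⟨fun x => g x.1, hg.comp analyticAt_fst, ?_⟩
  have h2 : ∀ᶠ x : E in 𝓝 y, x.1 ∈ l.ann (Ioi lo) :=
    continuousAt_fst.eventually ((End.isOpen_ann hr isOpen_Ioi).mem_nhds ⟨hy.2.1.1, hya⟩)
  filter_upwards [hev, h2, h.cK.isOpen_compl.mem_nhds hyK] with x h2 h3 h4 hxX hne
  have h5 := h2 hxX h4
  refine hpk x.1 h3.1 ?_ fun a => hne (Prod.ext a ?_)
  · by_cases h6 : l.dep x.1 ≤ l.dep x0.1
    · exact hmin ⟨hxX, ⟨h3.1, le_of_lt h3.2, h6⟩, h5⟩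
    · exact hy.2.1.2.2.trans (not_le.1 h6).le
  · rw [h5, a]; exact hy.2.2.symm

variable {s : SD} {l : End} {X K : Set E} {Z : Set ℂ} {h τ : ℝ}

/-- nothing on a free piece of the new sheet -/
theorem no_new {lo hi : ℝ} {U Z' : Set ℂ} (hU : IsOpen U) (hr : 0 < l.r) (hs : Std X K)
    (he : 0 < s.e) (hτ : s.R ≤ τ) (hS : s.Sht Z')
    (H : ∀ y ∈ SH.near (X \ K) s.w τ, y.1 ∈ U → s.On Z y)
    (hw : ∀ z ∈ l.ann (Ico lo hi), z ∈ Z' ∧ z ∈ U ∧ ContinuousAt s.w z ∧ s.d1 z ≠ 0)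
    (h1 : ∀ y ∈ SH.near X s.w s.R, y.1 ∈ l.ann (Ico lo hi) → y.2 = s.w y.1 + s.e * s.d1 y.1 →
      y ∉ K ∧ (y ∉ K → lo < l.dep y.1)) :
    ∀ y ∈ X, y.1 ∈ l.ann (Ico lo hi) → y.2 ≠ s.w y.1 + s.e * s.d1 y.1 := by
  refine nograph hr hs (f := fun z => s.w z + s.e * s.d1 z) (fun z hz =>
    (hw z hz).2.2.1.add (continuousAt_const.mul (hS z (hw z hz).1).1)) fun y hy a b => ?_
  obtain ⟨c1, c2, c3, c4⟩ := hw _ a
  have c5 : y.2 - s.w y.1 = s.e * s.d1 y.1 := by rw [b, add_sub_cancel_left]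
  have c6 : ‖y.2 - s.w y.1‖ < s.R := by rw [c5]; exact (hS _ c1).2.1
  obtain ⟨d1, d2⟩ := h1 y ⟨hy, c6.le⟩ a b
  refine ⟨d1, d2 d1, ?_⟩
  have c : ContinuousAt (fun x : E => x.2 - s.w x.1) y :=
    continuousAt_snd.sub (c3.comp continuousAt_fst)
  filter_upwards [c.norm.eventually (gt_mem_nhds (c6.trans_le hτ)),
    continuousAt_fst.eventually (hU.mem_nhds c2), c.eventually_ne
    (by rw [c5]; exact mul_ne_zero (Complex.ofReal_ne_zero.2 he.ne') c4)] with x f f' g x1 x2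
  exact ((H x ⟨⟨x1, x2⟩, f.le⟩ f').resolve_left fun i => g (sub_eq_zero.2 i)).2

variable {lm Tw : ℂ → ℂ} {E1 T : ℝ → ℝ} {I : Set ℝ} {z : ℂ}

theorem d1_ne (hn : s.Num) (hS : s.Str Z) (hz : z ∈ Z) : s.d1 z ≠ 0 := fun a => by
  have b := (hS z hz).1
  rw [a, norm_zero, mul_zero] at b
  linarith [hn.R]

/-- below the height `y2` the wall misses the new sheet -/
theorem wall_ne (hW : s.Wall l lm Tw E1 T I) (hn : s.Num) (ho : s.o ≤ 1 / 100)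
    (hz : z ∈ l.ann I) (h1 : -(2 * s.t) ≤ l.dep z) (h2 : l.dep z < s.y2)
    (h3 : Tw z = T (l.dep z)) (h4 : ‖lm z / s.d1 z - 1‖ ≤ s.o) : s.N z ≠ s.e * s.d1 z := by
  intro e
  have p := hW.pf
  have a0 : l.dep z ∈ Icc (-(2 * s.t)) (2 * s.t) := ⟨h1, by linarith [p.num.1, p.num.2.1]⟩
  have a1 := d1_ne hn hW.str (z := z) ⟨hz.1, a0⟩
  have a2 : ‖s.d0 z / s.d1 z - 1‖ ≤ s.o := (hW.str z ⟨hz.1, a0⟩).2.2.2.2.1
  rw [hW.eq z hz, h3] at e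
  generalize l.dep z = y at *
  have a3 : E1 y ≤ 0 := by
    rcases le_or_gt 0 y with b | b
    · exact (p.e0 y ⟨b, by linarith [p.num.1]⟩).le
    · exact nonpos_of_mul_nonneg_right (p.dE y a0).2.2 b
  have a4 : (E1 y : ℂ) * (s.d0 z / s.d1 z) + s.e * (T y / 2 * (lm z / s.d1 z) +
      s.S y * (1 - lm z / s.d1 z / 2)) = s.e := by
    refine mul_right_cancel₀ a1 ?_
    rw [← e]; field_simp
  generalize s.d0 z / s.d1 z = u at *
  generalize lm z / s.d1 z = v at *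
  have a5 := congrArg Complex.re a4
  have b1 := abs_le.1 ((Complex.abs_re_le_norm _).trans a2)
  have b2 := abs_le.1 ((Complex.abs_re_le_norm _).trans h4)
  simp at a5 b1 b2
  have b3 := mul_nonpos_of_nonpos_of_nonneg a3 (show 0 ≤ u.re by linarith)
  have b4 := mul_nonneg (sub_nonneg.2 (p.dT.2 y).2.2) (show 0 ≤ v.re by linarith)
  have b5 := mul_pos (sub_pos.2 (p.S1.2.1 y h2)) (show 0 < 1 - v.re / 2 by linarith)
  have b6 : T y / 2 * v.re + s.S y * (1 - v.re / 2) < 1 := by linarith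
  nlinarith [mul_lt_mul_of_pos_left b6 hn.e.1]

theorem cmp_at (hc : s.Cmp Z) (hz : z ∈ Z) {ν : ℂ} (hν : ‖ν‖ ≤ s.R) :
    s.V (z, s.w z + ν) = ν / s.d0 z * s.Wt (z, s.w z + ν) := by
  rw [((hc z hz).2 ν hν).2.2.self_of_nhds, add_sub_cancel_left]

/-- the same at a port -/
theorem port_ne {p : ℂ} {ρ : ℝ} (hW : s.PWall p ρ) (hn : s.Num) (ho : s.o ≤ 1 / 100)
    (hc : s.Cmp Z) (hz : z ∈ Z) (h0 : z ≠ p) (h2 : (s.pe p ρ).dep z < s.y2) (h3 : s.d0 z ≠ 0)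
    (h4 : ‖s.e * s.d1 z‖ ≤ s.R) (h5 : s.V (z, s.w z + s.e * s.d1 z) = s.e) :
    s.N z ≠ s.e * s.d1 z := by
  obtain ⟨E1, T, hW, a1, -⟩ := hW
  have p1 := hW.pf
  have a0 : z ∈ (s.pe p ρ).ann (Iic (2 * s.t)) :=
    ⟨h0, mem_Iic.2 (by linarith [p1.num.1, p1.num.2.1])⟩
  rcases le_total 0 ((s.pe p ρ).dep z) with b | b
  · have b1 : -(2 * s.t) ≤ (s.pe p ρ).dep z := by linarith [hn.y2.2.2.1]
    exact wall_ne hW hn ho a0 b1 h2 rfl (hW.str z ⟨h0, b1, a0.2⟩).2.2.2.2.1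
  intro e
  have b1 := hW.eq z a0
  rw [a1 _ b, p1.S0 _ (by linarith [p1.num.1]), e] at b1
  have b2 := ((hc z hz).2 _ h4).2.1
  rw [cmp_at hc hz h4] at h5
  generalize s.Wt _ = v at *
  have b3 : s.e * s.d1 z / s.d0 z = (s.e * (T ((s.pe p ρ).dep z) / 2) : ℝ) := by
    rw [b1]; push_cast; field_simp; ring
  rw [b3] at h5
  have b4 := congrArg Complex.re h5
  have b5 := abs_le.1 ((Complex.abs_re_le_norm _).trans b2)
  rw [Complex.re_ofReal_mul, Complex.ofReal_re] at b4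
  rw [Complex.sub_re, Complex.one_re] at b5
  obtain ⟨-, b6, b7⟩ := p1.dT.2 ((s.pe p ρ).dep z)
  have b8 : T ((s.pe p ρ).dep z) / 2 * v.re < 1 := by nlinarith [b5.1, b5.2]
  nlinarith [mul_lt_mul_of_pos_left b8 hn.e.1]

/-- the end property from the weighted bound -/
theorem ep {D : Set E} {φ : E → ℝ} {r1 r2 Cu Λ0 κ γ thr : ℝ} (hk : l.k = Kind.pt) (h2 : 0 < r2)
    (hC : 1 ≤ Cu) (hγ : γ ≤ κ)
    (H : ∀ lv : ℝ, 0 < lv → thr ≤ lv → (∀ y ∈ SH.near D l.w τ, ‖y.1 - l.c‖ = r1 → φ y ≤ lv) →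
      ∀ y ∈ SH.near D l.w τ, ‖y.1 - l.c‖ ≤ r1 → φ y * (‖y.1 - l.c‖ / r1) ^ γ ≤ 2 * lv) :
    EP l D φ τ h r1 r2 Cu Λ0 κ thr := by
  refine fun lv a b => ⟨fun c => absurd hk c, fun c y hy d => ?_⟩
  rw [cc, if_pos hk] at c
  rw [col, if_pos hk] at d
  rw [if_pos hk]
  have a1 := H lv a b (fun v hv e => c v hv (mem_sphere_iff_norm.2 e)) y hy d.2
  have a2 : 0 < ‖y.1 - l.c‖ := h2.trans_le d.1
  have a3 : 0 < r1 := a2.trans_le d.2
  have a4 : 1 ≤ r1 / ‖y.1 - l.c‖ := (one_le_div a2).2 d.2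
  rw [← inv_div, Real.inv_rpow (by positivity), ← div_eq_mul_inv,
    div_le_iff₀ (by positivity)] at a1
  refine a1.trans (mul_le_mul ?_ (Real.rpow_le_rpow_of_exponent_le a4 hγ) (by positivity)
    (by positivity))
  nlinarith [Real.add_one_le_exp Cu]

end PEND7

open PEND7 in
theorem st_pend7 (hP : St_PSD) : St_PEND := by
  intro η θ ρ r1 hη hθ hθ1 hρ hr1
  have l0 : 0 < 1 + |Real.log (ρ / r1)| := by positivity
  obtain ⟨γ, g0, g1, g2, g3⟩ : ∃ γ : ℝ, 0 < γ ∧ γ ≤ η ∧ γ ≤ 1 / 2 ∧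
      γ * (1 + |Real.log (ρ / r1)|) ≤ 3 :=
    ⟨min (min η (1 / 2)) (3 / (1 + |Real.log (ρ / r1)|)), by positivity,
      min_le_of_left_le (min_le_left _ _), min_le_of_left_le (min_le_right _ _),
      (le_div_iff₀ l0).1 (min_le_right _ _)⟩
  obtain ⟨o, o0, H⟩ := hP γ θ g0 g2 hθ (hθ1.trans (Real.exp_le_one_iff.2 (by norm_num)))
  refine ⟨min o (1 / 100), by positivity,
    fun s l X K τ h r2 Cu Λ0 κ θ1 Dp ho hk hw hs hτ ht hp hS h2 hC hκ h1 => ?_⟩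
  obtain ⟨ho1, ho2⟩ := le_min_iff.1 ho
  have c := H s _ _ _ X K ho1 (le_trans (mul_le_mul_of_nonneg_left
    (by linarith [neg_abs_le (Real.log (ρ / r1))]) g0.le) g3) hp
  have hn := hp.num
  have he := hn.e.1
  have t1 : ∀ {D : Set E}, D ⊆ X \ K → ∀ y ∈ SH.near D l.w τ, ‖y.1 - l.c‖ ≤ r1 →
      y ∈ SH.near X s.w s.R \ K := fun b y hy d => ⟨⟨(b hy.1).1, (ht y ⟨(b hy.1).1, hw ▸ hy.2⟩
        (b hy.1).2 (mem_closedBall_iff_norm.2 d)).le⟩, (b hy.1).2⟩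
  have t2 : ∀ y ∈ SH.near X s.w s.R \ K, ‖y.2 - l.w y.1‖ ≤ τ := fun y hy =>
    hw ▸ hy.1.2.trans hτ
  have t3 : ∀ lv, Top l (X \ K) (psi s.V s.e) τ h r1 lv → ∀ y ∈ SH.near X s.w s.R \ K,
      ‖y.1 - l.c‖ = r1 → psi s.V s.e y ≤ lv := fun lv a y hy e =>
    a y ⟨⟨hy.1.1, hy.2⟩, t2 y hy⟩ (by rw [cc, if_pos hk]; exact mem_sphere_iff_norm.2 e)
  have t4 : ∀ lv, lv ≤ Real.exp (-333) * s.e ^ 2 → Top l (X \ K) (psi s.V s.e) τ h r1 lv →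
      ∀ y ∈ SH.near X s.w s.R \ K, ‖y.1 - l.c‖ ≤ r1 →
        psi s.V s.e y ≤ Real.exp (-330) * s.e ^ 2 := fun lv a b y hy e => by
    have d := (c.c1 _ (by gcongr) (fun u hu f => (t3 lv b u hu f).trans a) y hy e).2
    rwa [← mul_assoc, ← Real.exp_add, show (3 + -333 : ℝ) = -330 by norm_num] at d
  refine ⟨ep hk h2 hC (g1.trans hκ) fun lv a b d y hy e => ?_, fun a thr _ _ => ?_,
    fun a y hy e => ?_⟩
  · exact (c.c1 lv b (fun u hu f => d u ⟨⟨hu.1.1, hu.2⟩, t2 u hu⟩ f) y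
      (t1 subset_rfl y hy e) e).1.trans (by linarith)
  · obtain ⟨-, c2, c3⟩ := c.c3 (t4 _ (by gcongr) a)
    refine ⟨ep hk h2 hC (g1.trans hκ) fun lv a _ d y hy e => ?_,
      ep hk h2 hC (g1.trans hκ) fun lv a _ d y hy e => ?_⟩
    · exact (c2 lv a.le (fun u hu f f' => d u ⟨⟨⟨hu.1.1, hu.2⟩, f⟩, t2 u hu⟩ f') y
        (t1 (fun _ b => b.1) y hy e) e hy.1.2).trans (by linarith)
    · exact (c3 lv a.le (fun u hu f f' => d u ⟨⟨⟨hu.1.1, hu.2⟩, f⟩, t2 u hu⟩ f') y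
        (t1 (fun _ b => b.1) y hy e) e hy.1.2).1
  have a1 := t4 0 (by positivity) a
  obtain ⟨c1, c2, c3⟩ := c.c3 a1
  have sZ : ∀ z : ℂ, ρ * Real.exp (-3 / 8) ≤ ‖z - l.c‖ → ρ * Real.exp (-1 / 2) ≤ ‖z - l.c‖ :=
    fun z b => le_trans (mul_le_mul_of_nonneg_left (Real.exp_le_exp.2 (by norm_num)) hρ.le) b
  have s1 : ρ * Real.exp (-3 / 8) < ρ * Real.exp (-1 / 4) :=
    mul_lt_mul_of_pos_left (Real.exp_lt_exp.2 (by norm_num)) hρ
  have On : ∀ y ∈ SH.near (X \ K) s.w τ, ‖y.1 - l.c‖ ≤ r1 →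
      s.On {z | ρ * Real.exp (-1 / 4) ≤ ‖z - l.c‖} y := fun y hy e => by
    have hy' := t1 subset_rfl y (hw ▸ hy) e
    by_cases b0 : ‖s.V y‖ ≤ s.e / 2
    · exact Or.inl ((c3 0 le_rfl (fun u hu _ f => t3 0 a u hu f) y hy' e b0).2 rfl)
    have b1 : ‖s.V y - s.e‖ ≤ s.e / 2 := by
      by_contra b1
      have b2 := a1 y hy' e
      have b3 : Real.exp (-330) ≤ 1 / 4 := by
        rw [Real.exp_neg, one_div]
        exact inv_anti₀ (by norm_num) (by linarith [Real.add_one_le_exp (330 : ℝ)])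
      rw [psi, SH.pp, norm_mul] at b2
      have b4 := mul_lt_mul'' (not_le.1 b0) (not_le.1 b1) (by positivity) (by positivity)
      nlinarith [mul_le_mul_of_nonneg_right b3 (sq_nonneg s.e)]
    have b2 := c1 y hy' e b1
    have b3 := c2 0 le_rfl (fun u hu _ f => t3 0 a u hu f) y hy' e b1
    have b4 : 0 < ‖y.1 - l.c‖ := lt_of_lt_of_le (by positivity) b2
    have b6 : SH.pp s.e (s.V y) = 0 :=
      norm_le_zero_iff.1 (nonpos_of_mul_nonpos_left b3 (by positivity))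
    have b7 : s.V y = s.e := by
      rcases mul_eq_zero.1 b6 with b | b
      · exact absurd (by rw [b, norm_zero]; positivity) b0
      · exact sub_eq_zero.1 b
    have b9 := (hS _ ⟨sZ _ (s1.le.trans b2), e⟩).2.2.2 (y.2 - s.w y.1) hy'.1.2
      (by rw [add_sub_cancel]; exact b7)
    exact Or.inr ⟨b2, by rw [← b9, add_sub_cancel]⟩
  rw [End.near_pt hk, mem_closedBall_iff_norm] at e
  rw [hw] at hy ⊢
  rcases On y hy e with b | ⟨b, b'⟩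
  · exact Or.inl ⟨b, End.side_pt hk _⟩
  refine Or.inr ⟨⟨not_lt.1 fun d => ?_, e⟩, b'⟩
  have nr : ∀ z, z ≠ l.c → ‖z - l.c‖ = ρ * Real.exp ((s.pe l.c ρ).dep z) := fun z f => by
    refine (End.norm_eq_rad (e := s.pe l.c ρ) hρ f).trans ?_
    simp [End.rad, End.sgn, SD.pe]
  have y2 : s.y2 < 2 := by nlinarith [hn.y2.2.1, hn.y2.2.2.1, hn.y2.2.2.2]
  have q1 : ∀ z ∈ (s.pe l.c ρ).ann (Ico (-3 / 8) s.y2),
      z ∈ {z | ρ * Real.exp (-1 / 2) ≤ ‖z - l.c‖ ∧ ‖z - l.c‖ ≤ r1} ∧ z ∈ ball l.c r1 ∧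
        s.d0 z ≠ 0 := fun z f => by
    have f1 : ‖z - l.c‖ < r1 := by
      rw [nr z f.1]
      exact (mul_lt_mul_of_pos_left (Real.exp_lt_exp.2 (f.2.2.trans y2)) hρ).trans_le hp.rd
    refine ⟨⟨sZ z ?_, f1.le⟩, mem_ball_iff_norm.2 f1, fun e => ?_⟩
    · rw [nr z f.1]; exact mul_le_mul_of_nonneg_left (Real.exp_le_exp.2 f.2.1) hρ.le
    · obtain ⟨m, hm⟩ := hp.pole
      obtain ⟨-, m1, m2⟩ := hm z (mem_closedBall_iff_norm.2 f1.le)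
      have m3 := m2.self_of_nhds
      rw [e, inv_zero] at m3
      exact mul_ne_zero (sub_ne_zero.2 f.1) m1 m3.symm
  have q2 : ∀ z ∈ (s.pe l.c ρ).ann (Ico (-3 / 8) s.y2), s.d1 z ≠ 0 := fun z f e => by
    obtain ⟨g1, g2, g3⟩ := q1 z f
    have g4 := (hS z g1).2.2.1 g3
    rw [cmp_at hp.cmp (ball_subset_closedBall g2) (hS z g1).2.1.le, e, mul_zero, zero_div,
      zero_mul] at g4
    exact Complex.ofReal_ne_zero.2 he.ne' g4.symm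
  have y0 : ρ * Real.exp (-1 / 4) ≤ ‖y.1 - l.c‖ := b
  have y1 : y.1 ≠ l.c := sub_ne_zero.1 (norm_pos_iff.1 (lt_of_lt_of_le (by positivity) y0))
  rw [nr _ y1] at y0 d
  refine no_new (l := s.pe l.c ρ) (lo := -3 / 8) (hi := s.y2) isOpen_ball hρ hs he hτ hS
    (fun u hu f => On u hu (mem_ball_iff_norm.1 f).le)
    (fun z f => ⟨(q1 z f).1, (q1 z f).2.1,
      (hp.cmp z (ball_subset_closedBall (q1 z f).2.1)).1.continuousAt, q2 z f⟩)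
    (fun v v1 v2 v3 => ⟨fun c => ?_, fun c => ?_⟩) y hy.1.1
    ⟨y1, by linarith [Real.exp_le_exp.1 (le_of_mul_le_mul_left y0 hρ)],
      Real.exp_lt_exp.1 (lt_of_mul_lt_mul_left d hρ.le)⟩ b'
  · obtain ⟨g1, g2, g3⟩ := q1 _ v2
    exact port_ne hp.wall hn ho2 hp.cmp (ball_subset_closedBall g2) v2.1 v2.2.2 g3
      (hS _ g1).2.1.le ((hS _ g1).2.2.1 g3)
      (add_left_cancel ((hp.kd1 v v1 c (ball_subset_closedBall g2)).2.symm.trans v3))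
  · rcases On v ⟨⟨v1.1, c⟩, v1.2.trans hτ⟩ (q1 _ v2).1.2 with f | f
    · exact absurd (left_eq_add.1 (f.symm.trans v3))
        (mul_ne_zero (Complex.ofReal_ne_zero.2 he.ne') (q2 _ v2))
    · have f1 : ρ * Real.exp (-1 / 4) ≤ ‖v.1 - l.c‖ := f.1
      rw [nr _ v2.1] at f1
      linarith [Real.exp_le_exp.1 (le_of_mul_le_mul_left f1 hρ)]

end Pool.Agent.S6
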