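import Pool.Agent.Lib.S6.Site2
import Pool.Agent.Lib.SH.B_PORT
import Pool.Agent.Lib.SH.All1

/-! Ports at the site of the split. -/

open Set Filter Topology Metric

noncomputable section

namespace Pool.Agent.S6

open Pool.Agent.CF (End Kind)
open Pool.Agent.Lib
open Pool.Agent.Lib.SH (bc ov pp)
open Pool.Agent.Lib.SH.Ring (af af_norm af_surj portB_af)

namespace PSD

/-- the data of a port, unpacked -/
structure Cx (s : SD) (p : ℂ) (ρ rad : ℝ) (X K : Set E) (m : ℂ → ℂ) (E1 T : ℝ → ℝ) : Prop where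
  P : s.Port p ρ rad X K
  W : s.Wall (s.pe p ρ) s.d0 (fun z => (T ((s.pe p ρ).dep z) : ℂ)) E1 T (Iic (2 * s.t))
  E0 : ∀ y ≤ 0, E1 y = 0
  Np : s.N p = 0
  hm : ∀ z ∈ closedBall p rad, AnalyticAt ℂ m z ∧ m z ≠ 0 ∧
    ∀ᶠ v in 𝓝 z, (s.d0 v)⁻¹ = (v - p) * m v
  o : s.o ≤ 1 / 10

/-- the linear coordinate -/
def N0 (s : SD) (p : ℂ) (rad : ℝ) (m : ℂ → ℂ) (y : E) : ℂ :=
  rad * m (af p rad y.1) * (y.2 - s.w (af p rad y.1))

/-- the fibre function divided by the base coordinate -/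
def NN (s : SD) (p : ℂ) (rad : ℝ) (m : ℂ → ℂ) (y : E) : ℂ :=
  N0 s p rad m y * s.Wt (bc (af p rad) y)

/-- the chart of the wall -/
def bb (p : ℂ) (ρ : ℝ) (z : ℂ) : ℂ := p + ρ * Complex.exp (-(Complex.I * z))

theorem dep_eq (s : SD) (p : ℂ) (ρ : ℝ) (z : ℂ) :
    (s.pe p ρ).dep z = Real.log (‖z - p‖ / ρ) := by
  simp [SD.pe, End.dep, End.sgn]

theorem norm_ex (x y : ℝ) : ‖Complex.exp (-(Complex.I * (x + y * Complex.I)))‖ = Real.exp y := by
  rw [Complex.norm_exp]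
  simp

theorem bb_norm {p : ℂ} {ρ : ℝ} (h : 0 < ρ) (x y : ℝ) :
    ‖bb p ρ (x + y * Complex.I) - p‖ = ρ * Real.exp y := by
  rw [bb, add_sub_cancel_left, norm_mul, norm_ex, Complex.norm_real, Real.norm_of_nonneg h.le]

theorem bb_der (p : ℂ) (ρ : ℝ) (z : ℂ) : HasDerivAt (bb p ρ)
    (ρ * (Complex.exp (-(Complex.I * z)) * -(Complex.I * 1))) z :=
  ((((hasDerivAt_id z).const_mul Complex.I).neg.cexp).const_mul (ρ : ℂ)).const_add p

theorem re_inv {u : ℂ} (h : ‖u - 1‖ ≤ 1 / 10) : 1 / 2 ≤ (u⁻¹).re := by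
  have h1 : 9 / 10 ≤ ‖u‖ := by
    have := norm_sub_norm_le (1 : ℂ) u
    rw [norm_one, norm_sub_rev] at this
    linarith
  have h2 : u ≠ 0 := norm_pos_iff.1 (by linarith)
  have h3 : ‖u⁻¹ - 1‖ ≤ 1 / 2 := by
    rw [show u⁻¹ - 1 = -(u - 1) / u by field_simp; ring, norm_div, norm_neg,
      div_le_iff₀ (by linarith)]
    linarith
  have h4 := (Complex.abs_re_le_norm _).trans h3
  rw [Complex.sub_re, Complex.one_re] at h4
  linarith [(abs_le.1 h4).1]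

variable {s : SD} {p : ℂ} {ρ rad : ℝ} {X K : Set E} {m : ℂ → ℂ} {E1 T : ℝ → ℝ}

namespace Cx

variable (c : Cx s p ρ rad X K m E1 T)
include c

theorem rho : 0 < ρ := c.W.lk.2.1

theorem rad0 : 0 < rad := lt_of_lt_of_le (mul_pos c.rho (Real.exp_pos 2)) c.P.rd

theorem ex_eta : rad * Real.exp (Real.log (ρ / rad)) = ρ := by
  rw [Real.exp_log (div_pos c.rho c.rad0), mul_div_cancel₀ _ c.rad0.ne']

theorem eta : Real.log (ρ / rad) ≤ -2 := by
  rw [Real.log_le_iff_le_exp (div_pos c.rho c.rad0), div_le_iff₀ c.rad0, Real.exp_neg,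
    ← div_eq_inv_mul, le_div_iff₀ (Real.exp_pos 2)]
  exact c.P.rd

theorem mem {z : ℂ} (h : z ∈ closedBall (0 : ℂ) 1) : af p rad z ∈ closedBall p rad := by
  rw [mem_closedBall_iff_norm, af_norm c.rad0]
  exact mul_le_of_le_one_right c.rad0.le (mem_closedBall_zero_iff.1 h)

theorem ne {z : ℂ} (h : z ≠ 0) : af p rad z ≠ p := fun e => by
  have := af_norm (p := p) c.rad0 z
  rw [e, sub_self, norm_zero] at this
  exact (mul_pos c.rad0 (norm_pos_iff.2 h)).ne this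

theorem dep {z : ℂ} (h : z ≠ 0) :
    (s.pe p ρ).dep (af p rad z) = Real.log ‖z‖ - Real.log (ρ / rad) := by
  have h1 := norm_pos_iff.2 h
  rw [dep_eq, af_norm c.rad0, ← Real.log_div h1.ne' (div_pos c.rho c.rad0).ne']
  congr 1
  have := c.rad0.ne'
  field_simp

theorem nrm {z : ℂ} (h : z ≠ 0) :
    ‖af p rad z - p‖ = ρ * Real.exp (Real.log ‖z‖ - Real.log (ρ / rad)) := by
  rw [← c.dep h, dep_eq, Real.exp_log (div_pos (norm_pos_iff.2 (sub_ne_zero.2 (c.ne h))) c.rho),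
    mul_div_cancel₀ _ c.rho.ne']

theorem lin {y : E} (h : y.1 ∈ closedBall (0 : ℂ) 1) : y.1 * N0 s p rad m y =
    (y.2 - s.w (af p rad y.1)) * (s.d0 (af p rad y.1))⁻¹ := by
  rw [(c.hm _ (c.mem h)).2.2.self_of_nhds, N0, af]
  ring

theorem d0_ne {z : ℂ} (h : z ∈ closedBall (0 : ℂ) 1) (h0 : z ≠ 0) : s.d0 (af p rad z) ≠ 0 :=
  fun e => by
    have h1 := (c.hm _ (c.mem h)).2.2.self_of_nhds
    rw [e, inv_zero] at h1
    exact mul_ne_zero (sub_ne_zero.2 (c.ne h0)) (c.hm _ (c.mem h)).2.1 h1.symm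

theorem tube {y : E} (h : y ∈ ov (bc (af p rad) ⁻¹' SH.near X s.w s.R) (closedBall 0 1)) :
    AnalyticAt ℂ s.Wt (bc (af p rad) y) ∧ ‖s.Wt (bc (af p rad) y) - 1‖ ≤ s.o ∧
      y.1 * NN s p rad m y = s.V (bc (af p rad) y) := by
  obtain ⟨a1, a2, a3⟩ := (c.P.cmp _ (c.mem h.2)).2 _ h.1.2
  have e : ((af p rad y.1, s.w (af p rad y.1) +
      ((bc (af p rad) y).2 - s.w (bc (af p rad) y).1)) : E) = bc (af p rad) y :=
    Prod.ext rfl (add_sub_cancel _ _)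
  rw [e] at a1 a2 a3
  refine ⟨a1, a2, ?_⟩
  rw [a3.self_of_nhds, NN, ← mul_assoc, c.lin h.2, div_eq_mul_inv]
  rfl

theorem an0 {y : E} (h : y.1 ∈ closedBall (0 : ℂ) 1) : AnalyticAt ℂ (N0 s p rad m) y := by
  have a : AnalyticAt ℂ (fun y : E => af p rad y.1) y :=
    analyticAt_const.add (analyticAt_const.mul analyticAt_fst)
  exact (analyticAt_const.mul ((c.hm _ (c.mem h)).1.comp (f := fun y : E => af p rad y.1) a)).mul
    (analyticAt_snd.sub ((c.P.cmp _ (c.mem h)).1.comp (f := fun y : E => af p rad y.1) a))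

theorem an {y : E} (h : y ∈ ov (bc (af p rad) ⁻¹' SH.near X s.w s.R) (closedBall 0 1)) :
    AnalyticAt ℂ (NN s p rad m) y :=
  (c.an0 h.2).mul ((c.tube h).1.comp (f := bc (af p rad))
    ((analyticAt_const.add (analyticAt_const.mul analyticAt_fst)).prod analyticAt_snd))

theorem cmp {y : E} (h : y ∈ ov (bc (af p rad) ⁻¹' SH.near X s.w s.R) (closedBall 0 1)) :
    ‖NN s p rad m y - N0 s p rad m y‖ ≤ ‖N0 s p rad m y‖ / 10 := by
  rw [NN, ← mul_sub_one, norm_mul]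
  have := mul_le_mul_of_nonneg_left ((c.tube h).2.1.trans c.o) (norm_nonneg (N0 s p rad m y))
  linarith

/-- points of `K` lie on the wall -/
theorem onK {y : E} (h : y ∈ ov (bc (af p rad) ⁻¹' SH.near X s.w s.R) (closedBall 0 1))
    (hK : y ∈ bc (af p rad) ⁻¹' K) : y.2 - s.w (af p rad y.1) = s.N (af p rad y.1) ∧
      (y.1 ≠ 0 → Real.log ‖y.1‖ - Real.log (ρ / rad) ≤ s.t) ∧ (y.1 = 0 → N0 s p rad m y = 0) := by
  obtain ⟨a1, a2⟩ := c.P.kd1 _ h.1 hK (c.mem h.2)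
  have a3 : y.2 - s.w (af p rad y.1) = s.N (af p rad y.1) := sub_eq_of_eq_add' a2
  refine ⟨a3, fun h0 => ?_, fun h0 => ?_⟩
  · have a4 : ‖af p rad y.1 - p‖ ≤ ρ * Real.exp s.t := mem_closedBall_iff_norm.1 a1
    rw [c.nrm h0] at a4
    exact Real.exp_le_exp.1 (le_of_mul_le_mul_left a4 c.rho)
  · rw [N0, a3, h0, af, mul_zero, add_zero, c.Np, mul_zero]

theorem toK {y : E} (h0 : y.1 ≠ 0) (hd : Real.log ‖y.1‖ - Real.log (ρ / rad) ≤ 2 * s.t)
    (h : y.2 - s.w (af p rad y.1) = s.N (af p rad y.1)) : y ∈ bc (af p rad) ⁻¹' K := by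
  have a := c.P.kd2 (af p rad y.1) (by
    rw [mem_closedBall_iff_norm, c.nrm h0]
    exact mul_le_mul_of_nonneg_left (Real.exp_le_exp.2 hd) c.rho.le)
  rw [← h, add_sub_cancel] at a
  exact a

/-- the lower part of the wall -/
theorem low {z : ℂ} (h : z ∈ closedBall (0 : ℂ) 1) (h0 : z ≠ 0)
    (hd : Real.log ‖z‖ - Real.log (ρ / rad) ≤ s.y2 / 4) :
    s.N (af p rad z) * (s.d0 (af p rad z))⁻¹ =
      (s.e / 2 * T (Real.log ‖z‖ - Real.log (ρ / rad)) : ℝ) := by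
  obtain ⟨n1, n2, n3⟩ := c.W.pf.num
  have a := c.W.eq (af p rad z) ⟨c.ne h0, by rw [mem_Iic, c.dep h0]; linarith⟩
  have b : E1 (Real.log ‖z‖ - Real.log (ρ / rad)) = 0 := by
    rcases le_total (Real.log ‖z‖ - Real.log (ρ / rad)) 0 with k | k
    · exact c.E0 _ k
    · exact c.W.pf.e0 _ ⟨k, by linarith⟩
  rw [c.dep h0, b, c.W.pf.S0 _ hd] at a
  have := c.d0_ne h h0
  rw [a]
  push_cast
  field_simp
  ring

/-- the upper part of the wall is large -/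
theorem high {z : ℂ} (h : z ∈ closedBall (0 : ℂ) 1) (h0 : z ≠ 0)
    (hd : 7 * s.y2 / 32 ≤ Real.log ‖z‖ - Real.log (ρ / rad))
    (ht : Real.log ‖z‖ - Real.log (ρ / rad) ≤ s.t) :
    s.e / 2 * Real.exp (-288) ≤ ‖s.N (af p rad z) * (s.d0 (af p rad z))⁻¹‖ := by
  obtain ⟨n1, n2, n3⟩ := c.W.pf.num
  have he := c.P.num.e.1
  have a := c.W.eq (af p rad z) ⟨c.ne h0, by rw [mem_Iic, c.dep h0]; linarith⟩
  have b := c.W.str (af p rad z) ⟨c.ne h0, by rw [c.dep h0]; constructor <;> linarith⟩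
  rw [c.dep h0] at a
  set d := Real.log ‖z‖ - Real.log (ρ / rad)
  have d0 : 0 < d := by linarith
  have b1 : 0 ≤ E1 d :=
    (mul_nonneg_iff_of_pos_left d0).1 (c.W.pf.dE d ⟨by linarith, by linarith⟩).2.2
  have b2 : Real.exp (-288) ≤ T d := by
    have k := monotone_of_deriv_nonneg c.W.pf.dT.1 (fun y => (c.W.pf.dT.2 y).1) hd
    rw [c.W.pf.mid _ ⟨by linarith, by linarith⟩, ex,
      show 1024 * (7 * s.y2 / 32 / s.y2 - 1 / 2) = -288 by field_simp; norm_num] at k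
    exact k
  have b3 := (c.W.pf.dS.2 d).2.1
  have b4 := re_inv (b.2.2.2.2.1.trans c.o)
  have hd0 := c.d0_ne h h0
  have e1 : s.N (af p rad z) * (s.d0 (af p rad z))⁻¹ = (E1 d + s.e / 2 * T d - s.e * s.S d / 2 : ℝ) +
      (s.e * s.S d : ℝ) * (s.d0 (af p rad z) / s.d1 (af p rad z))⁻¹ := by
    rw [a, inv_div]
    push_cast
    field_simp
    ring
  refine le_trans ?_ (Complex.re_le_norm _)
  rw [e1, Complex.add_re, Complex.ofReal_re, Complex.re_ofReal_mul]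
  nlinarith [mul_le_mul_of_nonneg_left b4 (mul_nonneg he.le b3),
    mul_le_mul_of_nonneg_left b2 he.le]

theorem bb_mem (x : ℝ) {y : ℝ} (hy : y ∈ Icc (-(2 * s.t)) (2 * s.t)) :
    bb p ρ (x + y * Complex.I) ∈ (s.pe p ρ).ann (Icc (-(2 * s.t)) (2 * s.t)) := by
  have a := bb_norm (p := p) c.rho x y
  refine ⟨fun e => ?_, ?_⟩
  · rw [show bb p ρ (x + y * Complex.I) = p from e, sub_self, norm_zero] at a
    exact (mul_pos c.rho (Real.exp_pos y)).ne a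
  · rwa [dep_eq, a, mul_div_cancel_left₀ _ c.rho.ne', Real.log_exp]

theorem chart {z : ℂ} {x y : ℝ}
    (h : z = Complex.exp (Real.log (ρ / rad) - Complex.I * (x + y * Complex.I))) :
    z ≠ 0 ∧ Real.log ‖z‖ - Real.log (ρ / rad) = y ∧ af p rad z = bb p ρ (x + y * Complex.I) := by
  refine ⟨h ▸ Complex.exp_ne_zero _, by rw [h, SH.PPS.norm_ch, Real.log_exp]; ring, ?_⟩
  rw [h, af, bb, sub_eq_add_neg, Complex.exp_add, ← mul_assoc, ← Complex.ofReal_exp,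
    ← Complex.ofReal_mul, c.ex_eta]

/-- the description over the strip -/
theorem strip {z : ℂ} (h0 : z ≠ p) (hd : (s.pe p ρ).dep z ∈ Icc (-(2 * s.t)) (2 * s.t)) :
    s.d1 z ≠ 0 ∧ (∀ v : ℂ, s.V (z, v) = s.Θ (z, (v - s.w z) / s.d1 z)) ∧
    wv E1 T s.S (fun z => s.d0 z / s.d1 z) (fun z => s.d0 z / s.d1 z) s.e ((s.pe p ρ).dep z) z =
      s.N z / s.d1 z ∧
    ∀ ν : ℂ, ‖ν‖ ≤ s.R → s.Θ (z, ν / s.d1 z) = s.Θ (z, s.N z / s.d1 z) → ν = s.N z := by
  obtain ⟨b1, -, b3, -, b4, -⟩ := c.W.str z ⟨h0, hd⟩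
  obtain ⟨he, hr⟩ := c.P.num.e
  have h1 : s.d1 z ≠ 0 := fun e => by
    rw [e, norm_zero, mul_zero] at b1
    exact b1.not_gt c.P.num.R
  have h2 : wv E1 T s.S (fun z => s.d0 z / s.d1 z) (fun z => s.d0 z / s.d1 z) s.e
      ((s.pe p ρ).dep z) z = s.N z / s.d1 z := by
    rw [c.W.eq z ⟨h0, hd.2⟩, wv]
    push_cast
    field_simp
    ring
  refine ⟨h1, fun v => ?_, h2, fun ν hν h => ?_⟩
  · rw [SD.Θ, div_mul_cancel₀ _ h1, add_sub_cancel]
  have h3 : ‖s.N z / s.d1 z‖ ≤ s.r := by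
    rw [← h2, wv]
    have b5 := b4.trans c.o
    beta_reduce at b5
    set u := s.d0 z / s.d1 z
    set d := (s.pe p ρ).dep z
    have u1 : ‖u‖ ≤ 11 / 10 := by
      have := norm_add_le (u - 1) 1
      rw [sub_add_cancel, norm_one] at this
      linarith
    have u2 : ‖2 - u‖ ≤ 11 / 10 := by
      have := norm_sub_le 1 (u - 1)
      rw [show (1 : ℂ) - (u - 1) = 2 - u by ring, norm_one] at this
      linarith
    obtain ⟨-, t0, t1⟩ := c.W.pf.dT.2 d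
    obtain ⟨-, s0, s1⟩ := c.W.pf.dS.2 d
    refine (norm_add₃_le).trans ?_
    simp only [norm_mul, Complex.norm_real, Real.norm_eq_abs]
    rw [abs_of_nonneg t0, abs_of_nonneg s0, abs_of_pos (half_pos he)]
    have k1 := mul_le_mul (c.W.bd d hd) u1 (norm_nonneg _) (by linarith)
    have k2 := mul_le_mul (mul_le_mul_of_nonneg_left t1 (half_pos he).le) u1 (norm_nonneg _)
      (by linarith)
    have k3 := mul_le_mul (mul_le_mul_of_nonneg_left s1 (half_pos he).le) u2 (norm_nonneg _)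
      (by linarith)
    linarith
  have h4 : ‖ν / s.d1 z‖ ≤ s.r := by
    rw [norm_div, div_le_iff₀ (norm_pos_iff.2 h1)]
    exact hν.trans b1
  have h5 := b3 _ _ h4 h3
  rw [h, sub_self, zero_sub, norm_neg] at h5
  have h6 : ‖ν / s.d1 z - s.N z / s.d1 z‖ = 0 := by
    nlinarith [norm_nonneg (ν / s.d1 z - s.N z / s.d1 z), c.o]
  exact (div_left_inj' h1).1 (sub_eq_zero.1 (norm_eq_zero.1 h6))

/-- the deep points of `K` -/
theorem deep {θ : ℝ} (hθ : s.o ≤ θ) {y : E}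
    (h : y ∈ ov (bc (af p rad) ⁻¹' SH.near X s.w s.R) (closedBall 0 1))
    (hK : y ∈ bc (af p rad) ⁻¹' K) (h0 : y.1 ≠ 0)
    (hd : Real.log ‖y.1‖ - Real.log (ρ / rad) ≤ -s.t) :
    ‖NN s p rad m y‖ ≤ θ * s.e * Real.exp (-Real.log (ρ / rad)) / 10 := by
  obtain ⟨n1, n2, n3, n4⟩ := c.P.num.y2
  have he := c.P.num.e.1
  have a := c.lin h.2
  rw [(c.onK h hK).1, c.low h.2 h0 (by linarith)] at a
  have z1 : ‖y.1‖ = Real.exp (Real.log ‖y.1‖) := (Real.exp_log (norm_pos_iff.2 h0)).symm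
  set η := Real.log (ρ / rad)
  obtain ⟨d, hd'⟩ : ∃ d, Real.log ‖y.1‖ = d + η := ⟨_, (sub_add_cancel _ η).symm⟩
  rw [hd', add_sub_cancel_right] at a hd
  rw [hd'] at z1
  have t0 := (c.W.pf.dT.2 d).2.1
  have t1 := (c.W.pf.low d (by linarith)).2
  have o0 : 0 < s.o := n3.trans_le n4
  have b1 : Real.exp (d + η) * ‖N0 s p rad m y‖ = s.e / 2 * T d := by
    rw [← z1, ← norm_mul, a, Complex.norm_real, Real.norm_of_nonneg (by positivity)]
  have b2 : T d ≤ θ / 10 * Real.exp d := by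
    refine t1.trans ?_
    have k1 : d / s.y2 ≤ d - 1 / s.o + 1 := by
      have k2 : 1 / s.o ≤ s.t / s.y2 := by
        rw [div_le_div_iff₀ o0 n1]; linarith
      have k3 : s.y2 ≤ 1 := by nlinarith [c.o]
      have k4 : (d + s.t) / s.y2 ≤ d + s.t := by
        rw [div_le_iff₀ n1]; nlinarith
      rw [add_div] at k4
      linarith [c.o]
    have k5 : d / s.y2 ≤ -(1 / s.o) := by
      rw [div_le_iff₀ n1, neg_mul, le_neg, one_div, inv_mul_le_iff₀ o0]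
      nlinarith
    have k6 : 10 ≤ 1 / s.o := by rw [le_div_iff₀ o0]; linarith [c.o]
    have k7 : ex s.y2 d ≤ Real.exp (-(10 / s.o) + d) := Real.exp_le_exp.2 (by
      rw [show 10 / s.o = 10 * (1 / s.o) by ring]; linarith)
    refine k7.trans ?_
    rw [Real.exp_add, Real.exp_neg]
    refine mul_le_mul_of_nonneg_right ?_ (Real.exp_pos d).le
    refine (inv_anti₀ (by positivity)
      ((le_add_of_nonneg_right zero_le_one).trans (Real.add_one_le_exp (10 / s.o)))).trans ?_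
    rw [inv_div]
    linarith
  have b3 : ‖N0 s p rad m y‖ ≤ θ * s.e * Real.exp (-η) / 20 := by
    refine le_of_mul_le_mul_left ?_ (Real.exp_pos (d + η))
    rw [b1, show Real.exp (d + η) * (θ * s.e * Real.exp (-η) / 20) =
      s.e / 2 * (θ / 10 * (Real.exp (d + η) * Real.exp (-η))) by ring, ← Real.exp_add,
      add_neg_cancel_right]
    exact mul_le_mul_of_nonneg_left b2 (half_pos he).le
  have b4 := norm_sub_norm_le (NN s p rad m y) (N0 s p rad m y)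
  linarith [c.cmp h, norm_nonneg (N0 s p rad m y)]

theorem lowH {γ ι : ℝ} (g0 : 0 < γ) (g1 : γ ≤ 1 / 2) {ω : ℝ} (hω : s.o ≤ ω)
    (H : ∀ (I : Type) [Fintype I]
      (X K : Set E) (N : E → ℂ) (Ef Ef' : I → ℝ → ℝ) (u : I → ℂ → ℂ) (γ ι' y0 yt Mup : ℝ),
      0 < γ → γ ≤ 1 / 2 → 0 < ι' → ι' ≤ ω → yt ≤ -1 →
      (∀ i, ∀ y ≤ yt + 2 * ι', HasDerivAt (Ef i) (Ef' i y) y ∧ 0 ≤ Ef' i y ∧
        (y ≤ y0 → Ef i y = 0)) →
      (∀ y ≤ yt + 2 * ι', ∑ i, Ef i y ≤ ι' / 32 * ∑ i, Ef' i y) →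
      (∀ i, ∀ z ∈ closedBall (0 : ℂ) 1, SH.DirZ (u i) ω 1 z ∧ 1 / 2 ≤ ‖u i z‖ ∧ ‖u i z‖ ≤ 2) →
      Mup ≤ (∑ i, Ef i yt) ^ 2 * Real.exp (γ * yt) →
      (∀ y ∈ ov X (closedBall 0 1), y ∈ K → y.1 * N y ≠ 0 →
        ‖pp 0 (y.1 * N y)‖ * ‖y.1‖ ^ γ ≤ Real.exp 1 * Mup → Real.log ‖y.1‖ ≤ yt + ι' ∧
          y.1 * N y = ∑ i, (Ef i (Real.log ‖y.1‖) : ℂ) * u i y.1) →
      (∀ y ∈ ov X (closedBall 0 1), y.1 * N y ≠ 0 → Real.log ‖y.1‖ ≤ yt + 2 * ι' →
        y.1 * N y = ∑ i, (Ef i (Real.log ‖y.1‖) : ℂ) * u i y.1 → y ∈ K) →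
      SH.PPH2 X K N 0 γ ι (4 * 1 * Real.exp (2 * 1)) 0 Mup)
    {s0 : ℝ} (hs : ∀ y ≤ s0, T y = 0) (q : E → Prop) :
    SH.PPH2 {y | y ∈ bc (af p rad) ⁻¹' SH.near X s.w s.R ∧ q y} (bc (af p rad) ⁻¹' K)
      (N0 s p rad m) 0 γ ι (SH.cW 1) 0 ((s.e / 2 * Real.exp (-320)) ^ 2 *
        Real.exp (γ * (Real.log (ρ / rad) + 3 * s.y2 / 16))) := by
  obtain ⟨n1, n2, n3, n4⟩ := c.P.num.y2
  obtain ⟨-, n5, n6⟩ := c.W.pf.num
  have he := c.P.num.e.1
  have hη := c.eta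
  have key := H Unit {y | y ∈ bc (af p rad) ⁻¹' SH.near X s.w s.R ∧ q y} (bc (af p rad) ⁻¹' K)
    (N0 s p rad m) (fun _ y => s.e / 2 * T (y - Real.log (ρ / rad)))
    (fun _ y => s.e / 2 * deriv T (y - Real.log (ρ / rad))) (fun _ _ => 1) γ (s.y2 / 32)
    (Real.log (ρ / rad) + s0) (Real.log (ρ / rad) + 3 * s.y2 / 16)
    ((s.e / 2 * Real.exp (-320)) ^ 2 * Real.exp (γ * (Real.log (ρ / rad) + 3 * s.y2 / 16)))
    g0 g1 (by positivity) (by linarith) (by linarith)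
    (fun _ y _ => ⟨((c.W.pf.dT.1 _).hasDerivAt.comp_sub_const y _).const_mul _,
      mul_nonneg (half_pos he).le (c.W.pf.dT.2 _).1, fun h => by rw [hs _ (by linarith), mul_zero]⟩)
    (fun y hy => by
      have := (c.W.pf.low (y - Real.log (ρ / rad)) (by linarith)).1
      simp only [Finset.univ_unique, Finset.sum_singleton]
      nlinarith)
    (fun _ z _ => ⟨⟨analyticAt_const, by simpa using (n3.le.trans n4).trans hω, by simp,
      by simpa using (n3.le.trans n4).trans hω⟩, by norm_num, by norm_num⟩)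
    (by
      simp only [Finset.univ_unique, Finset.sum_singleton, add_sub_cancel_left]
      rw [c.W.pf.mid _ ⟨by linarith, by linarith⟩, ex,
        show 1024 * (3 * s.y2 / 16 / s.y2 - 1 / 2) = -320 by field_simp; norm_num])
    (fun y hy hK h1 h2 => by
      have h0 := left_ne_zero_of_mul h1
      obtain ⟨a1, a2, -⟩ := c.onK (SH.PORT.ov_part hy) hK
      simp only [Finset.univ_unique, Finset.sum_singleton, mul_one]
      rw [c.lin hy.2, a1] at h2 ⊢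
      have a3 : Real.log ‖y.1‖ - Real.log (ρ / rad) ≤ 7 * s.y2 / 32 := by
        by_contra a3
        have a4 := pow_le_pow_left₀ (by positivity) (c.high hy.2 h0 (not_le.1 a3).le (a2 h0)) 2
        have a5 : Real.exp (γ * (Real.log (ρ / rad) + 3 * s.y2 / 16)) ≤ ‖y.1‖ ^ γ := by
          rw [Real.rpow_def_of_pos (norm_pos_iff.2 h0), mul_comm γ]
          exact Real.exp_le_exp.2 (mul_le_mul_of_nonneg_right (by linarith) g0.le)
        rw [SH.PPS.pp_zero] at h2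
        have a6 := (mul_le_mul a4 a5 (Real.exp_pos _).le (sq_nonneg _)).trans h2
        rw [← mul_assoc, mul_le_mul_iff_left₀ (Real.exp_pos _), mul_pow, mul_pow, mul_left_comm,
          mul_le_mul_iff_right₀ (by positivity), ← Real.exp_nat_mul, ← Real.exp_nat_mul,
          ← Real.exp_add, Real.exp_le_exp] at a6
        norm_num at a6
      exact ⟨by linarith, c.low hy.2 h0 (by linarith)⟩)
    (fun y hy h1 h2 h3 => by
      have h0 := left_ne_zero_of_mul h1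
      simp only [Finset.univ_unique, Finset.sum_singleton, mul_one] at h3
      rw [c.lin hy.2, ← c.low hy.2 h0 (by linarith)] at h3
      exact c.toK h0 (by linarith) (mul_right_cancel₀ (inv_ne_zero (c.d0_ne hy.2 h0)) h3))
  intro M h1 h2
  obtain ⟨η, ι', lev, Ψ, Ψy, a1, a2, a3⟩ := key M h1 h2
  refine ⟨η, ι', lev, Ψ, Ψy, a1, a2.mono subset_rfl le_rfl ?_ le_rfl, a3⟩
  rw [SH.cW]
  linarith [Real.exp_pos (2 * 1)]

end Cx

end PSD

open PSD

theorem st_psd (hS : St_SPW) : St_PSD := by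
  intro γ θ g0 g1 θ0 θ1
  obtain ⟨ι, i0, HP⟩ := SH.st_port γ (SH.cW 1) g0 g1
  obtain ⟨o1, o10, H1⟩ := hS ι i0
  obtain ⟨ω, w0, H2⟩ := SH.all_pps ι 1 i0 zero_le_one
  refine ⟨min (min o1 ω) (min θ (1 / 10)), by positivity, fun s p ρ rad X K ho hγ P => ?_⟩
  simp only [le_min_iff] at ho
  obtain ⟨⟨q1, q2⟩, q3, q4⟩ := ho
  obtain ⟨E1, T, W, E0, Np, s0, hs⟩ := P.wall
  obtain ⟨m, hm⟩ := P.pole
  have c : Cx s p ρ rad X K m E1 T := ⟨P, W, E0, Np, hm, q4⟩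
  obtain ⟨n1, n2, n3, n4⟩ := P.num.y2
  obtain ⟨-, n5, n6⟩ := W.pf.num
  obtain ⟨he, hr⟩ := P.num.e
  have hη := c.eta
  have r0 := c.rad0
  obtain ⟨Ψy, hΨ⟩ := H1 univ E1 T s.S s.y2 s.t 1 s.e s.r s.o (bb p ρ) (fun z => s.d0 z / s.d1 z)
    (fun z => s.d0 z / s.d1 z) s.Θ W.pf one_pos (by linarith) he hr q1 W.bd
    (fun x _ y hy => by
      rw [div_one] at hy
      refine ⟨by unfold bb; fun_prop, ?_, (W.str _ (c.bb_mem x hy)).2.1⟩
      rw [(bb_der p ρ _).deriv, norm_mul, norm_mul, norm_ex, norm_neg, mul_one, Complex.norm_I,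
        mul_one, Complex.norm_real, Real.norm_of_nonneg c.rho.le]
      have a : Real.exp y ≤ Real.exp 1 := Real.exp_le_exp.2 (by linarith [hy.2])
      have b : ρ ≤ 10 := W.lk.2.2.1
      nlinarith [Real.exp_one_lt_d9, Real.exp_pos y, c.rho])
    (fun y hy => Or.inr fun x _ => by
      rw [div_one] at hy
      exact ⟨(W.str _ (c.bb_mem x hy)).2.2.2, (W.str _ (c.bb_mem x hy)).2.2.2⟩)
  have val : ∀ y ∈ ov (bc (af p rad) ⁻¹' SH.near X s.w s.R) (closedBall 0 1), ∀ t u : ℝ,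
      |u| ≤ 2 * s.t →
      y.1 = Complex.exp (Real.log (ρ / rad) - Complex.I * (t + u * Complex.I)) →
      y.1 * NN s p rad m y =
        s.Θ (af p rad y.1, (y.2 - s.w (af p rad y.1)) / s.d1 (af p rad y.1)) ∧
      s.Θ (bb p ρ (t + u * Complex.I), wv E1 T s.S (fun z => s.d0 z / s.d1 z)
        (fun z => s.d0 z / s.d1 z) s.e (1 * u) (bb p ρ (t + u * Complex.I))) =
        s.Θ (af p rad y.1, s.N (af p rad y.1) / s.d1 (af p rad y.1)) ∧
      (s.Θ (af p rad y.1, (y.2 - s.w (af p rad y.1)) / s.d1 (af p rad y.1)) =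
        s.Θ (af p rad y.1, s.N (af p rad y.1) / s.d1 (af p rad y.1)) →
        y ∈ bc (af p rad) ⁻¹' K) := by
    intro y hy t u hu hz
    obtain ⟨a1, a2, a3⟩ := c.chart hz
    have a4 := (c.dep a1).trans a2
    obtain ⟨-, b2, b3, b4⟩ := c.strip (c.ne a1) (by rw [a4]; exact abs_le.1 hu)
    refine ⟨(c.tube hy).2.2.trans (b2 _), by rw [← a3, ← b3, a4, one_mul], fun h => ?_⟩
    exact c.toK a1 (by rw [a2]; exact (abs_le.1 hu).2) (b4 _ hy.1.2 h)
  have PS : SH.PortS (bc (af p rad) ⁻¹' SH.near X s.w s.R) (bc (af p rad) ⁻¹' K) (NN s p rad m)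
      (N0 s p rad m) s.e (Real.log (ρ / rad)) θ γ ι (SH.cW 1) ((s.e / 2 * Real.exp (-320)) ^ 2 *
        Real.exp (γ * (Real.log (ρ / rad) + 3 * s.y2 / 16))) := by
    refine ⟨⟨he, by linarith, θ0, θ1, hγ⟩, SH.Win.np_aff r0 P.np,
      ⟨fun y hy => c.an hy, fun y hy => c.an0 hy.2⟩, fun y hy => c.cmp hy,
      ⟨s.t / 1, _, Ψy, hΨ _ 0 (Or.inl ⟨rfl, le_rfl⟩), hΨ 0 _ (Or.inr ⟨rfl, le_rfl⟩),
        fun y hy hK => ?_, fun y hy t u hu hz hv => ?_⟩, c.lowH g0 g1 q2 H2 hs _,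
      Real.exp (Real.log (ρ / rad) + min s0 0), Real.exp_pos _,
      Real.exp_le_one_iff.2 (by linarith [min_le_right s0 0]), fun y hy hK => ?_⟩
    · obtain ⟨a1, a2, a3⟩ := c.onK hy hK
      by_cases h0 : y.1 = 0
      · refine Or.inr ⟨by rw [h0, norm_zero]; positivity, ?_⟩
        rw [NN, a3 h0, zero_mul, norm_zero]
        positivity
      rcases le_total (Real.log ‖y.1‖ - Real.log (ρ / rad)) (-s.t) with h | h
      · exact Or.inr ⟨(Real.log_le_iff_le_exp (norm_pos_iff.2 h0)).1 (by linarith),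
          c.deep q3 hy hK h0 h⟩
      · have a4 : |Real.log ‖y.1‖ - Real.log (ρ / rad)| ≤ s.t := abs_le.2 ⟨h, a2 h0⟩
        refine Or.inl ⟨by rwa [div_one], fun t u hz => ?_⟩
        rw [(c.chart hz).2.1] at a4
        obtain ⟨b1, b2, -⟩ := val y hy t u (by linarith) hz
        rw [b1, b2, a1]
    · rw [div_one] at hu
      obtain ⟨b1, b2, b3⟩ := val y hy t u hu hz
      exact b3 (b1.symm.trans (hv.trans b2))
    · have a0 := mem_closedBall_zero_iff.1 hy.2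
      have hy' : y ∈ ov (bc (af p rad) ⁻¹' SH.near X s.w s.R) (closedBall 0 1) :=
        ⟨hy.1, mem_closedBall_zero_iff.2 (a0.trans
          (Real.exp_le_one_iff.2 (by linarith [min_le_right s0 0])))⟩
      obtain ⟨a1, -, a3⟩ := c.onK hy' hK
      by_cases h0 : y.1 = 0
      · exact a3 h0
      have a4 := (Real.log_le_iff_le_exp (norm_pos_iff.2 h0)).2 a0
      have a5 := c.lin hy'.2
      rw [a1, c.low hy'.2 h0 (by linarith [min_le_right s0 0]),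
        hs _ (by linarith [min_le_left s0 0]), mul_zero, Complex.ofReal_zero] at a5
      exact (mul_eq_zero.1 a5).resolve_left h0
  obtain ⟨C1, C2, C3⟩ := HP _ _ _ _ _ _ _ _ PS
  have pull : ∀ y ∈ SH.near X s.w s.R \ K, ‖y.1 - p‖ ≤ rad → ∃ v : E, bc (af p rad) v = y ∧
      v ∈ ov (bc (af p rad) ⁻¹' SH.near X s.w s.R) (closedBall 0 1) ∧
      v ∉ bc (af p rad) ⁻¹' K ∧ v.1 * NN s p rad m v = s.V y ∧ ‖y.1 - p‖ / rad = ‖v.1‖ := by
    intro y hy h
    obtain ⟨v, rfl⟩ := af_surj p r0 y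
    have a : ‖(bc (af p rad) v).1 - p‖ = rad * ‖v.1‖ := af_norm r0 _
    have b : v ∈ ov (bc (af p rad) ⁻¹' SH.near X s.w s.R) (closedBall 0 1) :=
      ⟨hy.1, mem_closedBall_zero_iff.2 (by nlinarith)⟩
    exact ⟨v, rfl, b, hy.2, (c.tube b).2.2, by rw [a, mul_div_cancel_left₀ _ r0.ne']⟩
  have push : ∀ v ∈ bc (af p rad) ⁻¹' SH.near X s.w s.R, ‖v.1‖ = 1 →
      v.1 * NN s p rad m v = s.V (bc (af p rad) v) ∧ ‖(bc (af p rad) v).1 - p‖ = rad :=
    fun v hv h => ⟨(c.tube ⟨hv, mem_closedBall_zero_iff.2 h.le⟩).2.2,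
      (af_norm r0 _).trans (by rw [h, mul_one])⟩
  refine ⟨fun B hB hb y hy h => ?_, portB_af r0 fun b hb h v hv h1 => ?_, fun hs => ?_⟩
  · obtain ⟨v, rfl, a1, a2, a3, a4⟩ := pull y hy h
    rw [psi, ← a3, a4]
    refine C1 B hB (fun u hu hK h1 => ?_) v a1 a2
    rw [(push u hu h1).1]
    exact hb _ ⟨hu, hK⟩ (push u hu h1).2
  · have a := C2 b hb (fun u hu h2 => by
      beta_reduce
      rw [(push u hu.1 (by rwa [sub_zero] at h2)).1]
      exact h u hu h2) v hv h1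
    beta_reduce at a ⊢
    rwa [(c.tube ⟨hv.1, mem_closedBall_iff_norm.2 h1⟩).2.2] at a
  obtain ⟨D1, D2, D3⟩ := C3 (Real.exp (-330)) (Real.exp_pos _).le
    (by
      rw [Real.exp_neg, one_div]
      exact inv_anti₀ (by norm_num) (by linarith [Real.add_one_le_exp 330]))
    (by
      have a : Real.exp (-3) ≤ Real.exp (γ * (Real.log (ρ / rad) + 3 * s.y2 / 16)) :=
        Real.exp_le_exp.2 (by nlinarith)
      refine le_trans ?_ (mul_le_mul_of_nonneg_left a (sq_nonneg _))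
      have b : Real.exp (-320) ^ 2 * Real.exp (-3) = Real.exp (-330) ^ 2 * Real.exp 17 := by
        rw [← Real.exp_nat_mul, ← Real.exp_nat_mul, ← Real.exp_add, ← Real.exp_add]
        norm_num
      have d : 16 ≤ Real.exp 17 := by linarith [Real.add_one_le_exp 17]
      rw [mul_pow (s.e / 2), mul_assoc ((s.e / 2) ^ 2), b]
      nlinarith [mul_le_mul_of_nonneg_left d (sq_nonneg (Real.exp (-330) * s.e))])
    (fun v hv hK => by
      rw [(c.tube hv).2.2]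
      exact hs _ ⟨hv.1, hK⟩ (mem_closedBall_iff_norm.1 (c.mem hv.2)))
  refine ⟨fun y hy h h1 => ?_, fun B hB hb y hy h h1 => ?_, fun B hB hb y hy h h1 => ?_⟩
  · obtain ⟨v, rfl, a1, a2, a3, a4⟩ := pull y hy h
    have a := D1 v a1 (by rwa [a3])
    rw [← a4, le_div_iff₀ r0, sub_eq_add_neg, Real.exp_add, mul_right_comm, mul_comm _ rad,
      c.ex_eta] at a
    rwa [neg_div]
  · obtain ⟨v, rfl, a1, a2, a3, a4⟩ := pull y hy h
    rw [psi, ← a3, a4]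
    refine D2 B hB (fun u hu hK h2 h1 => ?_) v a1 a2 (by rwa [a3])
    rw [(push u hu h1).1] at h2 ⊢
    exact hb _ ⟨hu, hK⟩ h2 (push u hu h1).2
  · obtain ⟨v, rfl, a1, a2, a3, a4⟩ := pull y hy h
    rw [psi, ← a3, a4]
    have a := D3 B hB (fun u hu hK h2 h1 => by
      rw [(push u hu h1).1] at h2 ⊢
      exact hb _ ⟨hu, hK⟩ h2 (push u hu h1).2) v a1 a2 (by rwa [a3])
    refine ⟨a.1, fun h0 => sub_eq_zero.1 ?_⟩
    exact (mul_eq_zero.1 (a.2 h0)).resolve_left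
      (mul_ne_zero (Complex.ofReal_ne_zero.2 r0.ne') (hm _ (c.mem a1.2)).2.1)

end Pool.Agent.S6
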