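import Pool.Agent.Lib.S6.Glue
import Pool.Agent.Lib.S6.B_PCS

/-!
The invariants `Wall` of a modified configuration from local data.
-/

open Set Filter Topology Metric
open scoped ContDiff

noncomputable section

namespace Pool.Agent.S6

open Pool.Agent.CF (End Kind IsCurve Geo SLH Cv Priv)
open Pool.Agent.Lib

/-- the facts of `SideWall` which concern one end -/
structure EndW {I : Type} (F : I → ℂ → ℂ) (hz : ℝ) (A B : Cv) (W : Wd I A.ι) (j : A.ι) :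
    Prop where
  port : (A.e j).k = Kind.pt → 0 < W.pr j ∧ Priv A B (A.e j).c (W.pr j) (A.e j).w ∧
    Pole (A.lam j) (A.e j).c (W.zn A hz j)
  loop : (A.e j).k ≠ Kind.pt → AnalyticOnNhd ℂ (A.lam j) (W.zn A hz j) ∧
    ∀ z ∈ W.zn A hz j, A.lam j z ≠ 0
  an : AnalyticOnNhd ℂ (A.e j).w (W.zn A hz j)
  pr : SH.PR (W.Ef j) ((A.e j).k ≠ Kind.pt ∧ j ≠ A.H)
  exact : ∀ z ∈ W.zn A hz j, F (W.cp j) z =
    (A.e j).w z + (W.Ef j ((wl (A.e j) (W.pr j)).dep z) : ℂ) * A.lam j z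

/-- a new curve `C'` with the same points, new walls on the side `C` -/
def Conf.upd {I : Type} (σ : Conf I) (C' : Cv) (F' : I → ℂ → ℂ) (W' : Wd I C'.ι) (hz' : ℝ)
    (Sd' : Finset E) : Conf I :=
  ⟨C', σ.K, σ.Nd, σ.TC, σ.TK, σ.D, F', W', σ.WK, hz', Sd'⟩

/-- local data of a modification on the side `C`: `Q k` is the region of the modification at the
old end `k`, `par j` is the old end in whose zone the new end `j` lies -/
structure Upd {I : Type} (fx : Fix I) (σ : Conf I) (C' : Cv) (F' : I → ℂ → ℂ) (W' : Wd I C'.ι)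
    (hz' : ℝ) (Sd' : Finset E) (par : C'.ι → σ.C.ι) (Q : σ.C.ι → Set ℂ) : Prop where
  smooth : ∀ i, ContDiff ℝ ∞ (F' i)
  hz : 0 < hz' ∧ hz' ≤ σ.hz
  crv : C'.Γ = σ.C.Γ ∧ C'.c = σ.C.c ∧ C'.R = σ.C.R ∧ par C'.H = σ.C.H
  up : ∀ j, W'.cp j = σ.WC.cp (par j) ∧ (C'.e j).w = (σ.C.e (par j)).w ∧
    W'.zn C' hz' j ⊆ σ.WC.zn σ.C σ.hz (par j) ∧ ((C'.e j).k ≠ Kind.pt → C'.e j = σ.C.e (par j))
  disj : ∀ j j', j ≠ j' → par j = par j' → Disjoint (W'.zn C' hz' j) (W'.zn C' hz' j')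
  sub : ∀ k, ∀ z ∈ Q k, z ∈ fx.dom (σ.WC.cp k) → z ∈ σ.WC.zn σ.C σ.hz k
  off : ∀ i, ∀ z ∈ fx.dom i, (∀ k, σ.WC.cp k = i → z ∉ Q k) → F' i z = σ.F i z ∧
    ((z, σ.F i z) ∉ σ.A → SH.dbar (F' i) z = SH.dbar (σ.F i) z)
  ends : ∀ j, EndW F' hz' C' σ.K W' j
  cov : ∀ k, ∀ z ∈ ct (σ.C.e k) (σ.WC.pr k), z ∉ Q k →
    ∃ j, par j = k ∧ z ∈ ct (C'.e j) (W'.pr j)
  con : ∀ k, ∀ z ∈ Q k, z ∈ fx.dom (σ.WC.cp k) → F' (σ.WC.cp k) z = (σ.C.e k).w z →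
    ∃ j, par j = k ∧ z ∈ ct (C'.e j) (W'.pr j)
  real : ∀ k, ∀ z ∈ Q k, z ∈ fx.dom (σ.WC.cp k) → F' (σ.WC.cp k) z ≠ (σ.C.e k).w z →
    SH.dbar (F' (σ.WC.cp k)) z ≠ 0 ∨ (z, F' (σ.WC.cp k) z) ∈ Sd'
  sad : σ.Sd ⊆ Sd' ∧ ∀ s ∈ Sd', SH.LB2 (fx.S F') s ∧ (s ∈ σ.Sd ∨ ∃ k, s.1 ∈ Q k ∧
    s.1 ∈ fx.dom (σ.WC.cp k) ∧ s.2 = F' (σ.WC.cp k) s.1 ∧ s.2 ≠ (σ.C.e k).w s.1)

namespace UPD

/-! ### zones and contact sets -/

theorem zn_mono {l : End} {ρ ρ' : ℝ} {one : Prop} {h h' : ℝ} (hh : h' ≤ h)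
    (hρ : l.k = Kind.pt → 0 ≤ ρ ∧ ρ' ≤ ρ) : zn l ρ' one h' ⊆ zn l ρ one h := by
  unfold zn
  split_ifs with hk ho
  · refine closedBall_subset_closedBall ?_
    calc ρ' * Real.exp h' ≤ ρ * Real.exp h' :=
          mul_le_mul_of_nonneg_right (hρ hk).2 (Real.exp_pos _).le
      _ ≤ ρ * Real.exp h := mul_le_mul_of_nonneg_left (Real.exp_le_exp.2 hh) (hρ hk).1
  · exact End.ann_mono (Icc_subset_Icc le_rfl hh)
  · exact End.ann_mono (Icc_subset_Icc (by linarith) hh)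

theorem zn_pt {l : End} (hk : l.k = Kind.pt) (ρ : ℝ) (one : Prop) (h : ℝ) :
    zn l ρ one h = closedBall l.c (ρ * Real.exp h) := if_pos hk

theorem zn_one {l : End} (hk : l.k ≠ Kind.pt) (ρ : ℝ) {one : Prop} (ho : one) (h : ℝ) :
    zn l ρ one h = l.ann (Icc 0 h) := by
  unfold zn; rw [if_neg hk, if_pos ho]

theorem zn_two {l : End} (hk : l.k ≠ Kind.pt) (ρ : ℝ) {one : Prop} (ho : ¬ one) (h : ℝ) :
    zn l ρ one h = l.ann (Icc (-h) h) := by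
  unfold zn; rw [if_neg hk, if_neg ho]

theorem zn_loop {l : End} (hk : l.k ≠ Kind.pt) (ρ : ℝ) (one : Prop) {h : ℝ} (h0 : 0 ≤ h) :
    zn l ρ one h ⊆ l.ann (Icc (-h) h) := by
  by_cases ho : one
  · rw [zn_one hk ρ ho]; exact End.ann_mono (Icc_subset_Icc (by linarith) le_rfl)
  · rw [zn_two hk ρ ho]

theorem ct_pt {l : End} (hk : l.k = Kind.pt) (ρ : ℝ) : ct l ρ = closedBall l.c ρ := if_pos hk

theorem ct_loop {l : End} (hk : l.k ≠ Kind.pt) (ρ : ℝ) : ct l ρ = l.circ := if_neg hk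

theorem wl_pt {l : End} (hk : l.k = Kind.pt) (ρ : ℝ) : wl l ρ = l.hole ρ := if_pos hk

theorem wl_loop {l : End} (hk : l.k ≠ Kind.pt) (ρ : ℝ) : wl l ρ = l := if_neg hk

theorem hole_dep (l : End) (ρ : ℝ) (z : ℂ) : (l.hole ρ).dep z = Real.log (‖z - l.c‖ / ρ) := by
  simp [End.dep, End.sgn, End.hole]

theorem ct_sub_zn {l : End} (ho : l.ok) {ρ : ℝ} (hρ : l.k = Kind.pt → 0 ≤ ρ) (one : Prop) {h : ℝ}
    (h0 : 0 ≤ h) : ct l ρ ⊆ zn l ρ one h := by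
  by_cases hk : l.k = Kind.pt
  · rw [ct_pt hk, zn_pt hk]
    exact closedBall_subset_closedBall
      (le_mul_of_one_le_right (hρ hk) (Real.one_le_exp h0))
  · rw [ct_loop hk]
    intro z hz
    obtain ⟨a, b⟩ := PCS.circ_dep (ho.pos hk) hz
    by_cases hone : one
    · rw [zn_one hk ρ hone]; exact ⟨a, by rw [b]; exact ⟨le_rfl, h0⟩⟩
    · rw [zn_two hk ρ hone]; exact ⟨a, by rw [b]; exact ⟨by linarith, h0⟩⟩

theorem isCompact_zn {l : End} (ho : l.ok) (ρ : ℝ) (one : Prop) (h : ℝ) :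
    IsCompact (zn l ρ one h) := by
  unfold zn
  split_ifs with hk h1
  · exact isCompact_closedBall _ _
  · exact End.isCompact_ann (ho.pos hk) isCompact_Icc
  · exact End.isCompact_ann (ho.pos hk) isCompact_Icc

theorem isCompact_ct (l : End) (ρ : ℝ) : IsCompact (ct l ρ) := by
  unfold ct
  split_ifs
  · exact isCompact_closedBall _ _
  · exact l.isCompact_circ

/-- the zones shrink to the contact set -/
theorem zn_shrink {l : End} (ho : l.ok) {ρ : ℝ} (hρ : l.k = Kind.pt → 0 ≤ ρ) (one : Prop)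
    {N : Set ℂ} (hN : N ∈ 𝓝ˢ (ct l ρ)) : ∃ t0 > 0, ∀ t ≤ t0, zn l ρ one t ⊆ N := by
  by_cases hk : l.k = Kind.pt
  · rw [ct_pt hk] at hN
    obtain ⟨U, hU, h1, h2⟩ := mem_nhdsSet_iff_exists.1 hN
    obtain ⟨ε, hε, h3⟩ := (isCompact_closedBall l.c ρ).exists_cthickening_subset_open hU h1
    rw [cthickening_closedBall hε.le (hρ hk)] at h3
    have hc : ContinuousAt (fun t : ℝ => ρ * Real.exp t) 0 := by fun_prop
    have h4 : ∀ᶠ t in 𝓝 (0 : ℝ), ρ * Real.exp t < ε + ρ :=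
      hc.eventually (eventually_lt_nhds (by simpa using hε))
    obtain ⟨t0, h5, h6⟩ := ((h4.filter_mono nhdsWithin_le_nhds).and
      (self_mem_nhdsWithin (s := Ioi (0 : ℝ)))).exists
    refine ⟨t0, h6, fun t ht z hz => h2 (h3 ?_)⟩
    have := zn_mono (l := l) (one := one) ht (fun a => ⟨hρ a, le_rfl⟩) hz
    rw [zn_pt hk] at this
    exact closedBall_subset_closedBall h5.le this
  · rw [ct_loop hk] at hN
    obtain ⟨δ, hδ, h⟩ := End.shrink ho hN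
    refine ⟨δ, hδ, fun t ht z hz => h δ δ le_rfl le_rfl ?_⟩
    rw [End.near_loop hk]
    exact zn_loop hk ρ one hδ.le (zn_mono ht (fun a => absurd a hk) hz)

theorem _root_.Pool.Agent.S6.Pole.mono {lam : ℂ → ℂ} {p : ℂ} {D D' : Set ℂ} (h : Pole lam p D)
    (hD : D' ⊆ D) : Pole lam p D' := by
  obtain ⟨g, h1, h2⟩ := h
  exact ⟨g, h1.mono hD, fun z hz => h2 z (hD hz)⟩

/-- a smaller disc, other presentations of the two curves -/
theorem priv_mono {A B A' B' : Cv} {p : ℂ} {ρ ρ' : ℝ} {w : ℂ → ℂ} (h : Priv A B p ρ w)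
    (hρ : ρ' ≤ ρ) (hP : A'.P = A.P) (hΓ : A'.Γ = A.Γ) (hc : A'.c = A.c) (hR : A'.R = A.R)
    (hl : CF.loops A'.e ⊆ CF.loops A.e) (hΓ' : B'.Γ = B.Γ) (hc' : B'.c = B.c) :
    Priv A' B' p ρ' w := by
  have s : closedBall p ρ' ⊆ closedBall p ρ := closedBall_subset_closedBall hρ
  refine ⟨?_, ?_, h.an.mono s, ?_, ?_, ?_, ?_⟩
  · rw [hc, hR]; exact s.trans h.ins
  · rw [hc']; exact fun z hz => h.far z (s hz)
  · rw [hP]; exact h.zero.filter_mono (nhdsSet_mono s)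
  · rw [hP, hΓ]
    exact fun z hz => ⟨(h.mem z (s hz)).1, fun a => (h.mem z (s hz)).2.1 (hl a),
      (h.mem z (s hz)).2.2⟩
  · rw [hΓ]; exact fun y a b => h.only y a (s b)
  · rw [hΓ']; exact fun y a b => h.none y a (s b)

theorem loops_addp (A : Cv) (π : Type) [Fintype π] (p : π → ℂ) (w lp : π → ℂ → ℂ)
    (lam : A.ι → ℂ → ℂ) : CF.loops (A.addp π p w lp lam).e = CF.loops A.e := by
  ext y
  constructor
  · rintro ⟨j | k, a, b⟩
    · exact ⟨j, a, b⟩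
    · exact absurd rfl a
  · rintro ⟨j, a, b⟩
    exact ⟨Sum.inl j, a, b⟩

/-! ### one side -/

section side

variable {I : Type} {fx : Fix I} {F : I → ℂ → ℂ} {hz : ℝ} {A B : Cv} {W : Wd I A.ι}

theorem endW (h : SideWall fx F hz A B W) (j : A.ι) : EndW F hz A B W j :=
  ⟨h.port j, h.loop j, h.an j, h.pr j, h.exact j⟩

theorem of_ends (hub : fx.c (W.cp A.H) = A.c ∧ fx.R (W.cp A.H) = A.R)
    (ends : ∀ j, EndW F hz A B W j) (dom : ∀ j, W.zn A hz j ⊆ fx.dom (W.cp j))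
    (disj : ∀ j k, j ≠ k → W.cp j = W.cp k → Disjoint (W.zn A hz j) (W.zn A hz k))
    (contact : ∀ y ∈ fx.S F, y ∈ A.Γ → ∃ j, y ∈ cg (A.e j) (W.pr j)) :
    SideWall fx F hz A B W :=
  ⟨hub, fun j => (ends j).port, fun j => (ends j).loop, fun j => (ends j).an, dom,
    fun j => (ends j).pr, fun j => (ends j).exact, disj, contact⟩

theorem ct_zn {j : A.ι} (h : EndW F hz A B W j) (ho : (A.e j).ok) {t : ℝ} (h0 : 0 ≤ t) :
    ct (A.e j) (W.pr j) ⊆ W.zn A t j :=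
  ct_sub_zn ho (fun a => (h.port a).1.le) _ h0

theorem zn_le {j : A.ι} (h : EndW F hz A B W j) {t t' : ℝ} (ht : t' ≤ t) :
    W.zn A t' j ⊆ W.zn A t j :=
  zn_mono ht fun a => ⟨(h.port a).1.le, le_rfl⟩

/-- on the contact set the surface is on the sheet -/
theorem exact_ct {j : A.ι} (h : EndW F hz A B W j) (ho : (A.e j).ok) (h0 : 0 ≤ hz) {z : ℂ}
    (hz' : z ∈ ct (A.e j) (W.pr j)) : F (W.cp j) z = (A.e j).w z := by
  rw [h.exact z (ct_zn h ho h0 hz')]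
  suffices W.Ef j ((wl (A.e j) (W.pr j)).dep z) = 0 by rw [this]; simp
  by_cases hk : (A.e j).k = Kind.pt
  · rw [wl_pt hk, hole_dep]
    rw [ct_pt hk, mem_closedBall, dist_eq_norm] at hz'
    have p := (h.port hk).1
    exact h.pr.one (fun a => a.1 hk) _
      (Real.log_nonpos (by positivity) ((div_le_one p).2 hz'))
  · rw [ct_loop hk] at hz'
    rw [wl_loop hk, (PCS.circ_dep (ho.pos hk) hz').2]
    exact PCS.PR_zero h.pr

/-- the contact sets lie on the curve -/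
theorem cg_sub {j : A.ι} (h : EndW F hz A B W j) (hc : IsCurve A.P A.Γ A.e) :
    cg (A.e j) (W.pr j) ⊆ A.Γ := by
  rintro ⟨z, v⟩ ⟨h1, h2⟩
  obtain rfl : v = (A.e j).w z := h2
  by_cases hk : (A.e j).k = Kind.pt
  · rw [ct_pt hk] at h1; exact ((h.port hk).2.1.mem z h1).1
  · rw [ct_loop hk] at h1; exact hc.mem_of_circ j h1

/-- near the contact set the curve lies on the sheet -/
theorem cg_loc {j : A.ι} (h : EndW F hz A B W j) (hc : IsCurve A.P A.Γ A.e) {z : ℂ}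
    (h1 : z ∈ ct (A.e j) (W.pr j)) :
    ∀ᶠ y in 𝓝 ((z, (A.e j).w z) : E), y ∈ A.Γ → y.2 = (A.e j).w y.1 := by
  by_cases hk : (A.e j).k = Kind.pt
  · rw [ct_pt hk] at h1
    have p := (h.port hk).2.1
    filter_upwards [CF.ift_unique (hc.poly.analyticAt _) (p.an z h1).continuousAt
      (eventually_nhdsSet_iff_forall.1 p.zero z h1) (p.mem z h1).2.2] with y a b
    exact a.1 (hc.zero y b)
  · rw [ct_loop hk] at h1
    filter_upwards [hc.loc j z h1] with y a b using (a.1 b).1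

/-- an unmodified end -/
theorem same {j : A.ι} (h : EndW F hz A B W j) {F' : I → ℂ → ℂ} {hz' : ℝ} {A' B' : Cv}
    {W' : Wd I A'.ι} {j' : A'.ι} (hh : hz' ≤ hz) (he : A'.e j' = A.e j)
    (hlam : A'.lam j' = A.lam j) (hpr : W'.pr j' = W.pr j) (hE : W'.Ef j' = W.Ef j)
    (hH : j' = A'.H ↔ j = A.H) (hF : ∀ z ∈ W.zn A hz' j, F' (W'.cp j') z = F (W.cp j) z)
    (hP : A'.P = A.P) (hΓ : A'.Γ = A.Γ) (hc : A'.c = A.c) (hR : A'.R = A.R)
    (hl : CF.loops A'.e ⊆ CF.loops A.e) (hΓ' : B'.Γ = B.Γ) (hc' : B'.c = B.c) :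
    EndW F' hz' A' B' W' j' := by
  have e : W'.zn A' hz' j' = W.zn A hz' j := by
    unfold Wd.zn; rw [he, hpr, propext hH]
  have s := zn_le h hh
  refine ⟨?_, ?_, ?_, ?_, ?_⟩
  · rw [e, he, hlam, hpr]
    exact fun a => ⟨(h.port a).1, priv_mono (h.port a).2.1 le_rfl hP hΓ hc hR hl hΓ' hc',
      (h.port a).2.2.mono s⟩
  · rw [e, he, hlam]
    exact fun a => ⟨(h.loop a).1.mono s, fun z b => (h.loop a).2 z (s b)⟩
  · rw [e, he]; exact h.an.mono s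
  · have : (j' ≠ A'.H) = (j ≠ A.H) := propext (not_congr hH)
    rw [he, hE, this]; exact h.pr
  · rw [e, he, hlam, hpr, hE]
    exact fun z b => (hF z b).trans (h.exact z (s b))

end side

/-! ### compactness -/

/-- a neighbourhood of a compact graph contains a vertical tube -/
theorem tube {Z : Set ℂ} (hZ : IsCompact Z) {f : ℂ → ℂ} (hf : ContinuousOn f Z) {p : E → Prop}
    (h : ∀ z ∈ Z, ∀ᶠ y in 𝓝 ((z, f z) : E), p y) :
    ∀ᶠ ε in 𝓝[>] (0 : ℝ), ∀ z ∈ Z, ∀ v, ‖v - f z‖ ≤ ε → p (z, v) := by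
  have hG : IsCompact ((fun z => ((z, f z) : E)) '' Z) :=
    hZ.image_of_continuousOn (continuousOn_id.prodMk hf)
  have hN : {y | p y} ∈ 𝓝ˢ ((fun z => ((z, f z) : E)) '' Z) :=
    mem_nhdsSet_iff_forall.2 (by rintro _ ⟨z, a, rfl⟩; exact h z a)
  obtain ⟨U, hU, h1, h2⟩ := mem_nhdsSet_iff_exists.1 hN
  obtain ⟨δ, hδ, h3⟩ := hG.exists_cthickening_subset_open hU h1
  filter_upwards [nhdsWithin_le_nhds (eventually_le_nhds hδ)] with ε hε z a v b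
  refine h2 (h3 (mem_cthickening_of_dist_le _ (z, f z) _ _ ⟨z, a, rfl⟩ ?_))
  rw [PCS.dist_gr]; exact b.trans hε

theorem ex_pos {p : ℝ → Prop} (h : ∀ᶠ ε in 𝓝[>] (0 : ℝ), p ε) : ∃ ε > 0, p ε := by
  obtain ⟨ε, a, b⟩ := (h.and self_mem_nhdsWithin).exists
  exact ⟨ε, b, a⟩

/-- the components stay disjoint -/
theorem gap_persist {I : Type} [Finite I] (fx : Fix I) {F : I → ℂ → ℂ}
    (hF : ∀ i, Continuous (F i))
    (gap : ∀ i i', i ≠ i' → ∀ z ∈ fx.dom i, z ∈ fx.dom i' → F i z ≠ F i' z) :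
    ∀ᶠ ε in 𝓝[>] (0 : ℝ), ∀ F' : I → ℂ → ℂ, (∀ i, ∀ z ∈ fx.dom i, ‖F' i z - F i z‖ ≤ ε) →
      ∀ i i', i ≠ i' → ∀ z ∈ fx.dom i, z ∈ fx.dom i' → F' i z ≠ F' i' z := by
  have key : ∀ i i', ∀ᶠ ε in 𝓝[>] (0 : ℝ), i ≠ i' → ∀ z ∈ fx.dom i, z ∈ fx.dom i' →
      2 * ε < ‖F i z - F i' z‖ := by
    intro i i'
    by_cases hi : i = i'
    · exact Eventually.of_forall fun _ a => absurd hi a
    have hc : IsCompact (fx.dom i ∩ fx.dom i') :=
      (PCS.isCompact_dom fx i).inter_right (PCS.isCompact_dom fx i').isClosed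
    obtain ⟨δ, hδ, h1⟩ : ∃ δ > 0, ∀ z ∈ fx.dom i ∩ fx.dom i', δ ≤ ‖F i z - F i' z‖ := by
      rcases (fx.dom i ∩ fx.dom i').eq_empty_or_nonempty with e | e
      · exact ⟨1, one_pos, fun z a => absurd (e ▸ a) (notMem_empty z)⟩
      · obtain ⟨z0, a, b⟩ := hc.exists_isMinOn e ((hF i).sub (hF i')).norm.continuousOn
        exact ⟨_, norm_pos_iff.2 (sub_ne_zero.2 (gap i i' hi z0 a.1 a.2)), fun z c => b c⟩
    filter_upwards [nhdsWithin_le_nhds (eventually_lt_nhds (half_pos hδ))] with ε a _ z b c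
    linarith [h1 z ⟨b, c⟩]
  filter_upwards [eventually_all.2 fun i => eventually_all.2 (key i)] with ε h F' hc i i' hi z a b e
  have h1 := h i i' hi z a b
  have h2 := hc i z a
  have h3 := hc i' z b
  have h4 : F i z - F i' z = (F' i' z - F i' z) - (F' i z - F i z) := by rw [e]; ring
  rw [h4] at h1
  linarith [norm_sub_le (F' i' z - F i' z) (F' i z - F i z)]

/-! ### two sides -/

/-- the static facts on both sides -/
structure Two {I : Type} (fx : Fix I) (F : I → ℂ → ℂ) (hz : ℝ) (A B : Cv) (W : Wd I A.ι)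
    (V : Wd I B.ι) : Prop where
  cont : ∀ i, Continuous (F i)
  gap : ∀ i i', i ≠ i' → ∀ z ∈ fx.dom i, z ∈ fx.dom i' → F i z ≠ F i' z
  pos : 0 < hz
  cA : IsCurve A.P A.Γ A.e
  cB : IsCurve B.P B.Γ B.e
  oA : A.hub.k = Kind.out
  oB : B.hub.k = Kind.out
  sA : SideWall fx F hz A B W
  sB : SideWall fx F hz B A V
  cross : ∀ j k, W.cp j = V.cp k → Disjoint (W.zn A hz j) (V.zn B hz k)

theorem two {I : Type} {fx : Fix I} {σ : Conf I} (h : Pre fx σ) :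
    Two fx σ.F σ.hz σ.C σ.K σ.WC σ.WK :=
  ⟨fun i => (h.wall.smooth i).continuous, h.wall.gap, h.wall.hz.1, h.alg.hC.curve,
    h.alg.hK.curve, h.alg.hC.out, h.alg.hK.out, h.wall.C, h.wall.K, h.wall.cross⟩

namespace Two

variable {I : Type} {fx : Fix I} {F : I → ℂ → ℂ} {hz : ℝ} {A B : Cv} {W : Wd I A.ι}
  {V : Wd I B.ι}

theorem symm (h : Two fx F hz A B W V) : Two fx F hz B A V W :=
  ⟨h.cont, h.gap, h.pos, h.cB, h.cA, h.oB, h.oA, h.sB, h.sA,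
    fun j k a => (h.cross k j a.symm).symm⟩

theorem ct_zn (h : Two fx F hz A B W V) (j : A.ι) {t : ℝ} (h0 : 0 ≤ t) :
    ct (A.e j) (W.pr j) ⊆ W.zn A t j :=
  UPD.ct_zn (endW h.sA j) (h.cA.ok j) h0

theorem exact_ct (h : Two fx F hz A B W V) (j : A.ι) {z : ℂ} (hz' : z ∈ ct (A.e j) (W.pr j)) :
    F (W.cp j) z = (A.e j).w z :=
  UPD.exact_ct (endW h.sA j) (h.cA.ok j) h.pos.le hz'

/-- contact points of the component `i` -/
theorem touch (h : Two fx F hz A B W V) {i : I} {z : ℂ} (h1 : z ∈ fx.dom i)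
    (h2 : (z, F i z) ∈ A.Γ) :
    ∃ j, W.cp j = i ∧ z ∈ ct (A.e j) (W.pr j) ∧ F i z = (A.e j).w z := by
  obtain ⟨j, a, b⟩ := h.sA.contact _ (PCS.mem_S.2 ⟨i, h1, rfl⟩) h2
  refine ⟨j, ?_, a, b⟩
  by_contra c
  exact h.gap _ _ c z (h.sA.dom j (h.ct_zn j h.pos.le a)) h1 ((h.exact_ct j a).trans b.symm)

theorem zn_off (h : Two fx F hz A B W V) {k : A.ι} {z : ℂ} (h1 : z ∈ W.zn A hz k) :
    (z, F (W.cp k) z) ∉ B.Γ := fun h2 => by
  obtain ⟨j, a, b, -⟩ := h.symm.touch (h.sA.dom k h1) h2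
  exact disjoint_left.1 (h.cross k j a.symm) h1 (h.symm.ct_zn j h.pos.le b)

theorem zn_on (h : Two fx F hz A B W V) {k : A.ι} {z : ℂ} (h1 : z ∈ W.zn A hz k)
    (h2 : (z, F (W.cp k) z) ∈ A.Γ) : z ∈ ct (A.e k) (W.pr k) := by
  obtain ⟨j, a, b, -⟩ := h.touch (h.sA.dom k h1) h2
  by_cases e : j = k
  · exact e ▸ b
  · exact absurd h1 (disjoint_left.1 (h.sA.disj j k e a) (h.ct_zn j h.pos.le b))

/-- in the zone the wall is off the sheet outside the contact set, where the sheet is on `A` -/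
theorem zn_ne (h : Two fx F hz A B W V) {k : A.ι} {z : ℂ} (h1 : z ∈ W.zn A hz k)
    (h2 : (z, (A.e k).w z) ∈ A.Γ) (h3 : F (W.cp k) z = (A.e k).w z) : z ∈ ct (A.e k) (W.pr k) :=
  h.zn_on h1 (h3 ▸ h2)

theorem cg_sub (h : Two fx F hz A B W V) (k : A.ι) : cg (A.e k) (W.pr k) ⊆ A.Γ :=
  UPD.cg_sub (endW h.sA k) h.cA

theorem cg_S (h : Two fx F hz A B W V) (k : A.ι) : cg (A.e k) (W.pr k) ⊆ fx.S F :=
  fun _ a => PCS.mem_S.2 ⟨W.cp k, h.sA.dom k (h.ct_zn k h.pos.le a.1),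
    a.2.trans (h.exact_ct k a.1).symm⟩

/-- the contact sets of `A` miss `B` -/
theorem cg_off (h : Two fx F hz A B W V) (k : A.ι) : Disjoint (cg (A.e k) (W.pr k)) B.Γ := by
  refine disjoint_left.2 ?_
  rintro ⟨z, v⟩ ⟨h1, h2⟩
  obtain rfl : v = (A.e k).w z := h2
  rw [← h.exact_ct k h1]
  exact h.zn_off (h.ct_zn k h.pos.le h1)

/-- a thin tube about the wall over a zone misses `B` and meets `A` only on the sheet -/
theorem iso (h : Two fx F hz A B W V) : ∀ᶠ ε in 𝓝[>] (0 : ℝ), ∀ k, ∀ z ∈ W.zn A hz k, ∀ v,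
    ‖v - F (W.cp k) z‖ ≤ ε → (z, v) ∉ B.Γ ∧ ((z, v) ∈ A.Γ → v = (A.e k).w z) := by
  refine eventually_all.2 fun k => tube (p := fun y => y ∉ B.Γ ∧ (y ∈ A.Γ → y.2 = (A.e k).w y.1))
    (isCompact_zn (h.cA.ok k) _ _ _) (h.cont _).continuousOn fun z h1 => ?_
  refine Eventually.and (h.cB.cpt.isClosed.isOpen_compl.mem_nhds (h.zn_off h1)) ?_
  by_cases h2 : (z, F (W.cp k) z) ∈ A.Γ
  · have h3 := h.zn_on h1 h2
    rw [h.exact_ct k h3]
    exact cg_loc (endW h.sA k) h.cA h3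
  · filter_upwards [h.cA.cpt.isClosed.isOpen_compl.mem_nhds h2] with y a b using absurd b a

/-- thin tubes over thin zones lie in a given neighbourhood of the contact set -/
theorem zone_nhds (h : Two fx F hz A B W V) (k : A.ι) {N : Set E}
    (hN : N ∈ 𝓝ˢ (cg (A.e k) (W.pr k))) : ∀ᶠ t in 𝓝[>] (0 : ℝ), ∀ z ∈ W.zn A t k, ∀ v,
      ‖v - F (W.cp k) z‖ ≤ t → (z, v) ∈ N := by
  obtain ⟨U, hU, h1, h2⟩ := mem_nhdsSet_iff_exists.1 hN
  have hc : Continuous fun z => ((z, F (W.cp k) z) : E) := continuous_id.prodMk (h.cont _)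
  obtain ⟨t0, p, q⟩ := zn_shrink (h.cA.ok k) (fun a => (h.sA.port k a).1.le) (k = A.H)
    (N := (fun z => ((z, F (W.cp k) z) : E)) ⁻¹' U)
    ((hU.preimage hc).mem_nhdsSet.2 fun z a => h1 ⟨a, h.exact_ct k a⟩)
  obtain ⟨ε, hε, r⟩ := ex_pos (tube (p := fun y => y ∈ U) (isCompact_zn (h.cA.ok k) (W.pr k)
    (k = A.H) t0) (h.cont (W.cp k)).continuousOn fun z a => hU.mem_nhds (q t0 le_rfl a))
  filter_upwards [nhdsWithin_le_nhds (eventually_le_nhds p),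
    nhdsWithin_le_nhds (eventually_le_nhds hε)] with t a b z c v d
  exact h2 (r z (zn_le (endW h.sA k) a c) v (d.trans b))

/-- modifications in thin zones of the ends in `P` -/
theorem nxt_zone (h : Two fx F hz A B W V) (P : A.ι → Prop) {T0 Y : Set E} (hT : IsClosed T0)
    (hd : ∀ k, P k → Disjoint (cg (A.e k) (W.pr k)) T0) (hY : A.Γ ⊆ Y) {ρ : ℝ} (hρ : 0 < ρ) :
    ∀ᶠ t in 𝓝[>] (0 : ℝ), ∀ F' : I → ℂ → ℂ, (∀ i, ∀ z ∈ fx.dom i, ‖F' i z - F i z‖ ≤ t) →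
      (∀ i, ∀ z ∈ fx.dom i, F' i z ≠ F i z → ∃ k, P k ∧ W.cp k = i ∧ z ∈ W.zn A t k) →
      fx.S F' ∩ T0 = fx.S F ∩ T0 ∧
        ∀ i, ∀ z ∈ fx.dom i, F' i z ≠ F i z → (z, F i z) ∈ thickening ρ Y := by
  have key : ∀ k, ∀ᶠ t in 𝓝[>] (0 : ℝ), P k → ∀ z ∈ W.zn A t k, ∀ v,
      ‖v - F (W.cp k) z‖ ≤ t → (z, v) ∈ T0ᶜ ∩ thickening ρ Y := by
    intro k
    by_cases hk : P k
    · filter_upwards [h.zone_nhds k ((hT.isOpen_compl.inter isOpen_thickening).mem_nhdsSet.2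
        fun y a => ⟨disjoint_left.1 (hd k hk) a,
          self_subset_thickening hρ _ (hY (h.cg_sub k a))⟩)] with t a _ using a
    · exact Eventually.of_forall fun _ a => absurd a hk
  filter_upwards [eventually_all.2 key, self_mem_nhdsWithin] with t a ht F' hc hm
  have h0 : ∀ v : ℂ, ‖v - v‖ ≤ t := fun v => by rw [sub_self, norm_zero]; exact le_of_lt ht
  refine ⟨?_, fun i z b c => ?_⟩
  · ext ⟨z, v⟩
    refine and_congr_left fun hT0 => ?_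
    rw [PCS.mem_S, PCS.mem_S]
    refine exists_congr fun i => and_congr_right fun b => ?_
    by_cases c : F' i z = F i z
    · rw [c]
    obtain ⟨k, p, rfl, q⟩ := hm i z b c
    constructor
    · rintro (rfl : v = F' _ z); exact absurd hT0 (a k p z q _ (hc _ z b)).1
    · rintro (rfl : v = F _ z); exact absurd hT0 (a k p z q _ (h0 _)).1
  · obtain ⟨k, p, rfl, q⟩ := hm i z b c
    exact (a k p z q _ (h0 _)).2

/-- the zones are neighbourhoods of the contact sets in the component -/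
theorem zn_nhds (h : Two fx F hz A B W V) (k : A.ι) {t : ℝ} (ht : 0 < t) {z0 : ℂ}
    (h0 : z0 ∈ ct (A.e k) (W.pr k)) : ∀ᶠ z in 𝓝 z0, z ∈ fx.dom (W.cp k) → z ∈ W.zn A t k := by
  unfold Wd.zn
  by_cases hk : (A.e k).k = Kind.pt
  · rw [ct_pt hk] at h0
    rw [zn_pt hk]
    have p := (h.sA.port k hk).1
    have : z0 ∈ ball (A.e k).c (W.pr k * Real.exp t) :=
      lt_of_le_of_lt h0 (lt_mul_of_one_lt_right p (Real.one_lt_exp_iff.2 ht))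
    filter_upwards [isOpen_ball.mem_nhds this] with z a _ using ball_subset_closedBall a
  · rw [ct_loop hk] at h0
    have hr := (h.cA.ok k).pos hk
    obtain ⟨a, b⟩ := PCS.circ_dep hr h0
    have : z0 ∈ (A.e k).ann (Ioo (-t) t) := ⟨a, by rw [b]; exact ⟨by linarith, ht⟩⟩
    filter_upwards [(End.isOpen_ann hr isOpen_Ioo).mem_nhds this] with z c d
    by_cases e : k = A.H
    · rw [zn_one hk _ e]
      refine ⟨c.1, (End.side_iff hk hr c.1).1 ?_, c.2.2.le⟩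
      subst e
      have o : (A.e A.H).k = Kind.out := h.oA
      refine ⟨fun _ => ?_, fun x => absurd (o.symm.trans x) (by decide)⟩
      have := d.2
      rwa [h.sA.hub.1, h.sA.hub.2] at this
    · rw [zn_two hk _ e]; exact ⟨c.1, c.2.1.le, c.2.2.le⟩

/-- outside the zones the surface is at a distance from the curve -/
theorem far [Finite I] (h : Two fx F hz A B W V) {t : ℝ} (ht : 0 < t) :
    ∀ᶠ ε in 𝓝[>] (0 : ℝ), ∀ i, ∀ z ∈ fx.dom i, (∀ k, W.cp k = i → z ∉ W.zn A t k) →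
      (z, F i z) ∉ cthickening ε A.Γ := by
  refine eventually_all.2 fun i => nhdsWithin_le_nhds ?_
  have key := (PCS.isCompact_dom fx i).eventually_forall_of_forall_eventually
    (x₀ := (0 : ℝ)) (P := fun ε z => z ∈ fx.dom i → (∀ k, W.cp k = i → z ∉ W.zn A t k) →
      (z, F i z) ∉ cthickening ε A.Γ) fun z0 h0 => ?_
  · filter_upwards [key] with ε a z b using a z b b
  by_cases h1 : (z0, F i z0) ∈ A.Γ
  · obtain ⟨k, rfl, b, -⟩ := h.touch h0 h1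
    filter_upwards [continuousAt_snd.eventually (h.zn_nhds k ht b)] with x c d e
    exact absurd (c d) (e k rfl)
  · obtain ⟨δ, hδ, h2⟩ := (disjoint_singleton_left.2 h1).exists_cthickenings isCompact_singleton
      h.cA.cpt.isClosed
    have h3 : (z0, F i z0) ∉ cthickening δ A.Γ :=
      disjoint_left.1 h2 (self_subset_cthickening _ rfl)
    have hc : Continuous fun x : ℝ × ℂ => ((x.2, F i x.2) : E) :=
      continuous_snd.prodMk ((h.cont i).comp continuous_snd)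
    filter_upwards [hc.continuousAt.eventually (isClosed_cthickening.isOpen_compl.mem_nhds h3),
      continuousAt_fst.eventually (eventually_le_nhds hδ)] with x a b _ _ c
    exact a (cthickening_mono b _ c)

end Two

end UPD

open UPD

/-- the invariants after a modification on the side `C` -/
theorem wall_upd {I : Type} [Finite I] {fx : Fix I} {σ : Conf I} (h : Pre fx σ) :
    ∀ᶠ ε in 𝓝[>] (0 : ℝ), ∀ (C' : Cv) (F' : I → ℂ → ℂ) (W' : Wd I C'.ι) (hz' : ℝ)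
      (Sd' : Finset E) (par : C'.ι → σ.C.ι) (Q : σ.C.ι → Set ℂ),
      (∀ i, ∀ z ∈ fx.dom i, ‖F' i z - σ.F i z‖ ≤ ε) → Upd fx σ C' F' W' hz' Sd' par Q →
      Wall fx (σ.upd C' F' W' hz' Sd') := by
  have T := two h
  filter_upwards [gap_persist fx T.cont T.gap, T.iso] with ε hg hi C' F' W' hz' Sd' par Q hc u
  obtain ⟨eΓ, ec, eR, eH⟩ := u.crv
  have eA : (σ.upd C' F' W' hz' Sd').A = σ.A := by
    show C'.Γ ∪ σ.K.Γ = σ.C.Γ ∪ σ.K.Γ
    rw [eΓ]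
  have iso := fun k z (a : z ∈ Q k) (b : z ∈ fx.dom (σ.WC.cp k)) =>
    hi k z (u.sub k z a b) _ (hc _ z b)
  have offK : ∀ k, ∀ z ∈ σ.WK.zn σ.K σ.hz k, F' (σ.WK.cp k) z = σ.F (σ.WK.cp k) z :=
    fun k z a => (u.off _ z (T.sB.dom k a) fun j b c => disjoint_left.1 (T.cross j k b)
      (u.sub j z c (b ▸ T.sB.dom k a)) a).1
  have mem : ∀ j z, z ∈ ct (C'.e j) (W'.pr j) → (z, (σ.C.e (par j)).w z) ∈ σ.C.Γ := by
    intro j z a
    by_cases hk : (C'.e j).k = Kind.pt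
    · rw [ct_pt hk] at a
      rw [← (u.up j).2.1, ← eΓ]
      exact (((u.ends j).port hk).2.1.mem z a).1
    · rw [ct_loop hk, (u.up j).2.2.2 hk] at a
      exact T.cA.mem_of_circ _ a
  have sK := fun k => zn_le (endW T.sB k) u.hz.2
  refine ⟨u.smooth, hg F' hc, ⟨u.hz.1, u.hz.2.trans h.wall.hz.2⟩, ?_, ?_, ?_, ?_, ?_⟩
  · refine of_ends ?_ u.ends (fun j z a => ?_) (fun j k a b => ?_) ?_
    · show fx.c (W'.cp C'.H) = C'.c ∧ fx.R (W'.cp C'.H) = C'.R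
      rw [(u.up _).1, eH, ec, eR]; exact T.sA.hub
    · show z ∈ fx.dom (W'.cp j)
      rw [(u.up j).1]; exact T.sA.dom _ ((u.up j).2.2.1 a)
    · by_cases e : par j = par k
      · exact u.disj j k a e
      · exact (T.sA.disj _ _ e ((u.up j).1.symm.trans (b.trans (u.up k).1))).mono
          (u.up j).2.2.1 (u.up k).2.2.1
    · rintro ⟨z, v⟩ a b
      obtain ⟨i, c, d⟩ := PCS.mem_S.1 a
      obtain rfl : v = F' i z := d
      have b' : (z, F' i z) ∈ σ.C.Γ := eΓ ▸ b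
      by_cases q : ∃ k, σ.WC.cp k = i ∧ z ∈ Q k
      · obtain ⟨k, rfl, q⟩ := q
        have e := (iso k z q c).2 b'
        obtain ⟨j, rfl, r⟩ := u.con k z q c e
        exact ⟨j, r, e.trans (congrFun (u.up j).2.1 z).symm⟩
      · have e := (u.off i z c fun k x y => q ⟨k, x, y⟩).1
        rw [e] at b'
        obtain ⟨k, x, y, y'⟩ := T.touch c b'
        obtain ⟨j, rfl, r⟩ := u.cov k z y fun y => q ⟨k, x, y⟩
        exact ⟨j, r, e.trans (y'.trans (congrFun (u.up j).2.1 z).symm)⟩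
  · refine of_ends T.sB.hub (fun k => same (endW T.sB k) u.hz.2 rfl rfl rfl rfl Iff.rfl
      (fun z a => offK k z (sK k a)) rfl rfl rfl rfl Subset.rfl eΓ ec)
      (fun j z a => T.sB.dom j (sK j a)) (fun j k a b => (T.sB.disj j k a b).mono (sK j) (sK k)) ?_
    rintro ⟨z, v⟩ a b
    obtain ⟨i, c, d⟩ := PCS.mem_S.1 a
    obtain rfl : v = F' i z := d
    by_cases q : ∃ k, σ.WC.cp k = i ∧ z ∈ Q k
    · obtain ⟨k, rfl, q⟩ := q
      exact absurd b (iso k z q c).1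
    · have e := (u.off i z c fun k x y => q ⟨k, x, y⟩).1
      exact T.sB.contact _ (PCS.mem_S.2 ⟨i, c, e⟩) b
  · exact fun j k a => (T.cross (par j) k ((u.up j).1.symm.trans a)).mono (u.up j).2.2.1 (sK k)
  · intro i z c a
    rw [eA] at a
    show SH.dbar (F' i) z ≠ 0 ∨ (z, F' i z) ∈ Sd'
    replace a : (z, F' i z) ∉ σ.A := a
    by_cases q : ∃ k, σ.WC.cp k = i ∧ z ∈ Q k
    · obtain ⟨k, rfl, q⟩ := q
      refine u.real k z q c fun e => a (Or.inl ?_)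
      obtain ⟨j, rfl, r⟩ := u.con k z q c e
      rw [e]; exact mem j z r
    · obtain ⟨e, e'⟩ := u.off i z c fun k x y => q ⟨k, x, y⟩
      rw [e] at a ⊢
      rw [e' a]
      exact (h.wall.real i z c a).imp id fun x => u.sad.1 x
  · intro s a
    rw [eA]
    obtain ⟨b, c | ⟨k, c, d, e, f⟩⟩ := u.sad.2 s a
    · exact ⟨(h.wall.saddle s c).1, b⟩
    · refine ⟨?_, b⟩
      obtain ⟨z, v⟩ := s
      obtain rfl : v = F' _ z := e
      rintro (x | x)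
      · exact f ((iso k z c d).2 x)
      · exact (iso k z c d).1 x

/-- new walls, directions and radii at the same ends. At an end `k` either nothing is changed
or the new wall is described. -/
theorem wall_reset {I : Type} [Finite I] {fx : Fix I} {σ : Conf I} (h : Pre fx σ) :
    ∀ᶠ ε in 𝓝[>] (0 : ℝ), ∀ (F' : I → ℂ → ℂ) (lam : σ.C.ι → ℂ → ℂ) (Ef : σ.C.ι → ℝ → ℝ)
      (pr : σ.C.ι → ℝ) (hz' : ℝ) (Q : σ.C.ι → Set ℂ),
      (∀ i, ∀ z ∈ fx.dom i, ‖F' i z - σ.F i z‖ ≤ ε) → (∀ i, ContDiff ℝ ∞ (F' i)) → 0 < hz' →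
      hz' ≤ σ.hz → (∀ k, ∀ z ∈ Q k, z ∈ fx.dom (σ.WC.cp k) → z ∈ σ.WC.zn σ.C σ.hz k) →
      (∀ i, ∀ z ∈ fx.dom i, (∀ k, σ.WC.cp k = i → z ∉ Q k) → F' i z = σ.F i z ∧
        ((z, σ.F i z) ∉ σ.A → SH.dbar (F' i) z = SH.dbar (σ.F i) z)) →
      (∀ k, (Q k = ∅ ∧ lam k = σ.C.lam k ∧ pr k = σ.WC.pr k ∧ Ef k = σ.WC.Ef k) ∨
        (((σ.C.e k).k = Kind.pt → 0 < pr k ∧ pr k ≤ σ.WC.pr k ∧
            Pole (lam k) (σ.C.e k).c (zn (σ.C.e k) (pr k) (k = σ.C.H) hz') ∧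
            ∀ z, pr k < ‖z - (σ.C.e k).c‖ → ‖z - (σ.C.e k).c‖ ≤ σ.WC.pr k → z ∈ Q k) ∧
          ((σ.C.e k).k ≠ Kind.pt →
            AnalyticOnNhd ℂ (lam k) (zn (σ.C.e k) (pr k) (k = σ.C.H) hz') ∧
            ∀ z ∈ zn (σ.C.e k) (pr k) (k = σ.C.H) hz', lam k z ≠ 0) ∧
          SH.PR (Ef k) ((σ.C.e k).k ≠ Kind.pt ∧ k ≠ σ.C.H) ∧
          (∀ z ∈ zn (σ.C.e k) (pr k) (k = σ.C.H) hz', F' (σ.WC.cp k) z =
            (σ.C.e k).w z + (Ef k ((wl (σ.C.e k) (pr k)).dep z) : ℂ) * lam k z) ∧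
          ∀ z ∈ Q k, z ∈ fx.dom (σ.WC.cp k) → z ∉ ct (σ.C.e k) (pr k) →
            F' (σ.WC.cp k) z ≠ (σ.C.e k).w z ∧ SH.dbar (F' (σ.WC.cp k)) z ≠ 0)) →
      (∀ s ∈ σ.Sd, SH.LB2 (fx.S F') s) → Wall fx (σ.reset F' lam Ef pr hz') := by
  have T := two h
  filter_upwards [wall_upd h] with ε H F' lam Ef pr hz' Q hc sm p1 p2 sub off dat sad
  have le : ∀ k, (σ.C.e k).k = Kind.pt → 0 ≤ σ.WC.pr k ∧ pr k ≤ σ.WC.pr k := fun k a =>
    ⟨(T.sA.port k a).1.le, (dat k).elim (fun b => b.2.2.1.le) fun b => (b.1 a).2.1⟩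
  have zs : ∀ k, zn (σ.C.e k) (pr k) (k = σ.C.H) hz' ⊆ σ.WC.zn σ.C σ.hz k := fun k =>
    zn_mono p2 (le k)
  have en : ∀ k, EndW F' hz' (σ.C.rot lam) σ.K ⟨σ.WC.cp, Ef, pr⟩ k := by
    intro k
    rcases dat k with ⟨a, b, c, d⟩ | ⟨a, b, c, d, -⟩
    · refine same (endW T.sA k) p2 rfl b c d Iff.rfl (fun z x => ?_) rfl rfl rfl rfl Subset.rfl
        rfl rfl
      have x' := zn_le (endW T.sA k) p2 x
      refine (off _ z (T.sA.dom k x') fun j y y' => ?_).1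
      by_cases e : j = k
      · rw [e, a] at y'; exact y'
      · exact disjoint_left.1 (T.sA.disj j k e y) (sub j z y' (y ▸ T.sA.dom k x')) x'
    · exact ⟨fun x => ⟨(a x).1, priv_mono (T.sA.port k x).2.1 (a x).2.1 rfl rfl rfl rfl Subset.rfl
        rfl rfl, (a x).2.2.1⟩, b, (T.sA.an k).mono (zs k), c, d⟩
  refine H (σ.C.rot lam) F' ⟨σ.WC.cp, Ef, pr⟩ hz' σ.Sd (fun j => j) Q hc ⟨sm, ⟨p1, p2⟩, ⟨rfl, rfl, rfl, rfl⟩,
    fun j => ⟨rfl, rfl, zs j, fun _ => rfl⟩, fun j j' a b => absurd b a, sub, off, en,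
    fun k z a b => ⟨k, rfl, ?_⟩, fun k z a b c => ⟨k, rfl, ?_⟩, fun k z a b c => Or.inl ?_,
    Subset.rfl, fun s a => ⟨sad s a, Or.inl a⟩⟩
  · show z ∈ ct (σ.C.e k) (pr k)
    rcases dat k with ⟨-, -, c, -⟩ | ⟨c, -⟩
    · rwa [c]
    · by_cases hk : (σ.C.e k).k = Kind.pt
      · rw [ct_pt hk, mem_closedBall, dist_eq_norm] at a ⊢
        exact not_lt.1 fun x => b ((c hk).2.2.2 z x a)
      · rwa [ct_loop hk] at a ⊢
  · rcases dat k with ⟨d, -⟩ | ⟨-, -, -, -, d⟩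
    · rw [d] at a; exact a.elim
    · by_contra x; exact (d z a b x).1 c
  · rcases dat k with ⟨d, -⟩ | ⟨-, -, -, -, d⟩
    · rw [d] at a; exact a.elim
    · exact (d z a b fun x => c (exact_ct (en k) (T.cA.ok k) p1.le x)).2

/-- new ports at the hub; only the component of the hub is changed, inside the set `Q` -/
theorem wall_born {I : Type} [Finite I] {fx : Fix I} {σ : Conf I} (h : Pre fx σ) :
    ∀ᶠ ε in 𝓝[>] (0 : ℝ), ∀ (π : Type) [Fintype π] (x : π → ℂ) (L δ : ℝ) (F' : I → ℂ → ℂ)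
      (Ef : σ.C.ι ⊕ π → ℝ → ℝ) (hz' : ℝ) (Sd' : Finset E) (Q : Set ℂ),
      (∀ i, ∀ z ∈ fx.dom i, ‖F' i z - σ.F i z‖ ≤ ε) → (∀ i, ContDiff ℝ ∞ (F' i)) → 0 < hz' →
      hz' ≤ σ.hz → (∀ z ∈ Q, z ∈ fx.dom (σ.WC.cp σ.C.H) → z ∈ σ.C.hub.ann (Icc 0 σ.hz)) →
      (∀ i, ∀ z ∈ fx.dom i, (σ.WC.cp σ.C.H = i → z ∉ Q) → F' i z = σ.F i z ∧
        ((z, σ.F i z) ∉ σ.A → SH.dbar (F' i) z = SH.dbar (σ.F i) z)) →
      (∀ j, j ≠ σ.C.H → Ef (Sum.inl j) = σ.WC.Ef j) →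
      EndW F' hz' (born σ.C π x δ) σ.K (Wd.born σ.C σ.WC.cp σ.WC.pr π L δ Ef) (Sum.inl σ.C.H) →
      (∀ k, EndW F' hz' (born σ.C π x δ) σ.K (Wd.born σ.C σ.WC.cp σ.WC.pr π L δ Ef) (Sum.inr k)) →
      (∀ k, ∀ z ∈ closedBall (hp σ.C (x k) δ 0) (bpr σ.C L δ * Real.exp hz'),
        z ∈ σ.C.hub.ann (Ioc hz' σ.hz) ∧
          ∀ k', k' ≠ k → z ∉ closedBall (hp σ.C (x k') δ 0) (bpr σ.C L δ * Real.exp hz')) →
      (∀ z ∈ Q, z ∈ fx.dom (σ.WC.cp σ.C.H) → z ∉ σ.C.hub.circ →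
        (∀ k, z ∉ closedBall (hp σ.C (x k) δ 0) (bpr σ.C L δ)) →
        F' (σ.WC.cp σ.C.H) z ≠ σ.C.hub.w z ∧
          (SH.dbar (F' (σ.WC.cp σ.C.H)) z ≠ 0 ∨ (z, F' (σ.WC.cp σ.C.H) z) ∈ Sd')) →
      σ.Sd ⊆ Sd' → (∀ s ∈ Sd', SH.LB2 (fx.S F') s ∧ (s ∈ σ.Sd ∨ (s.1 ∈ Q ∧
        s.1 ∈ fx.dom (σ.WC.cp σ.C.H) ∧ s.2 = F' (σ.WC.cp σ.C.H) s.1 ∧ s.2 ≠ σ.C.hub.w s.1))) →
      Wall fx (σ.born π x L δ F' Ef hz' Sd') := by
  classical
  have T := two h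
  filter_upwards [wall_upd h] with ε H π _ x L δ F' Ef hz' Sd' Q hc sm p1 p2 sub off eE eH eP geo
    loc s1 s2
  have hk : (σ.C.e σ.C.H).k ≠ Kind.pt := by
    have o : (σ.C.e σ.C.H).k = Kind.out := T.oA
    rw [o]; decide
  have zH : ∀ t, σ.WC.zn σ.C t σ.C.H = σ.C.hub.ann (Icc 0 t) := fun t => zn_one hk _ rfl t
  have zl : ∀ j, (Wd.born σ.C σ.WC.cp σ.WC.pr π L δ Ef).zn (born σ.C π x δ) hz' (Sum.inl j) =
      σ.WC.zn σ.C hz' j := fun j => by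
    show zn (σ.C.e j) (σ.WC.pr j) ((Sum.inl j : σ.C.ι ⊕ π) = Sum.inl σ.C.H) hz' = _
    rw [Sum.inl.injEq]; rfl
  have zr : ∀ k, (Wd.born σ.C σ.WC.cp σ.WC.pr π L δ Ef).zn (born σ.C π x δ) hz' (Sum.inr k) =
      closedBall (hp σ.C (x k) δ 0) (bpr σ.C L δ * Real.exp hz') := fun k => zn_pt rfl _ _ _
  have cr : ∀ k, ct ((born σ.C π x δ).e (Sum.inr k))
      ((Wd.born σ.C σ.WC.cp σ.WC.pr π L δ Ef).pr (Sum.inr k)) =
      closedBall (hp σ.C (x k) δ 0) (bpr σ.C L δ) := fun k => ct_pt rfl _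
  have cH : ct (σ.C.e σ.C.H) (σ.WC.pr σ.C.H) = σ.C.hub.circ := ct_loop hk _
  have con : ∀ z, ¬ (z ∉ σ.C.hub.circ ∧ ∀ k, z ∉ closedBall (hp σ.C (x k) δ 0) (bpr σ.C L δ)) →
      ∃ j : σ.C.ι ⊕ π, Sum.elim id (fun _ => σ.C.H) j = σ.C.H ∧ z ∈ ct ((born σ.C π x δ).e j)
        ((Wd.born σ.C σ.WC.cp σ.WC.pr π L δ Ef).pr j) := by
    intro z a
    by_cases b : z ∈ σ.C.hub.circ
    · exact ⟨Sum.inl σ.C.H, rfl, cH ▸ b⟩
    · obtain ⟨k, c⟩ := not_forall.1 fun c => a ⟨b, c⟩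
      exact ⟨Sum.inr k, rfl, cr k ▸ not_not.1 c⟩
  refine H (born σ.C π x δ) F' (Wd.born σ.C σ.WC.cp σ.WC.pr π L δ Ef) hz' Sd'
    (Sum.elim id fun _ => σ.C.H) (fun k => {z | k = σ.C.H ∧ z ∈ Q}) hc
    ⟨sm, ⟨p1, p2⟩, ⟨rfl, rfl, rfl, rfl⟩, ?_, ?_, ?_,
      fun i z a b => off i z a fun c d => b _ c ⟨rfl, d⟩, ?_,
      fun k z a _ => ⟨Sum.inl k, rfl, a⟩, ?_, ?_, s1, fun s a => ⟨(s2 s a).1,
        (s2 s a).2.imp id fun b => ⟨σ.C.H, ⟨rfl, b.1⟩, b.2⟩⟩⟩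
  · rintro (j | k)
    · exact ⟨rfl, rfl, zl j ▸ zn_le (endW T.sA j) p2, fun _ => rfl⟩
    · refine ⟨rfl, rfl, ?_, fun a => absurd rfl a⟩
      rw [zr]
      intro z a
      show z ∈ σ.WC.zn σ.C σ.hz σ.C.H
      rw [zH]
      exact End.ann_mono (Ioc_subset_Icc_self.trans (Icc_subset_Icc p1.le le_rfl)) (geo k z a).1
  · have lr : ∀ k, Disjoint (σ.WC.zn σ.C hz' σ.C.H)
        (closedBall (hp σ.C (x k) δ 0) (bpr σ.C L δ * Real.exp hz')) := fun k => by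
      rw [zH]
      exact disjoint_left.2 fun z a b => absurd (geo k z b).1.2.1 (not_lt.2 a.2.2)
    rintro (j | k) (j' | k') a b
    · exact absurd (congrArg Sum.inl b) a
    · obtain rfl : j = σ.C.H := b
      rw [zl, zr]; exact lr k'
    · obtain rfl : σ.C.H = j' := b
      rw [zl, zr]; exact (lr k).symm
    · rw [zr, zr]
      exact disjoint_left.2 fun z c => (geo k z c).2 k' fun e => a (congrArg Sum.inr e.symm)
  · rintro k z ⟨rfl, a⟩ b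
    rw [zH]; exact sub z a b
  · rintro (j | k)
    · by_cases e : j = σ.C.H
      · rw [e]; exact eH
      · refine same (endW T.sA j) p2 rfl (funext fun z => if_neg e) rfl (eE j e)
          Sum.inl_injective.eq_iff (fun z a => ?_) rfl rfl rfl rfl
          (loops_addp _ _ _ _ _ _).subset rfl rfl
        have a' := zn_le (endW T.sA j) p2 a
        refine (off _ z (T.sA.dom j a') fun b c => ?_).1
        refine disjoint_left.1 (T.sA.disj j _ e b.symm) a' ?_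
        rw [zH]; exact sub z c (b ▸ T.sA.dom j a')
    · exact eP k
  · rintro k z ⟨rfl, a⟩ b c
    exact con z fun d => (loc z a b d.1 d.2).1 c
  · rintro k z ⟨rfl, a⟩ b c
    by_contra d
    obtain ⟨j, e, f⟩ := con z fun g => d (loc z a b g.1 g.2).2
    rcases j with j | k
    · obtain rfl : j = σ.C.H := e
      exact c (exact_ct eH (T.cA.ok _) p1.le f)
    · exact c (exact_ct (eP k) (by simp [born, Cv.addp, End.ok]) p1.le f)

/-! ### both curves change -/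

namespace Conf

variable {I : Type} (σ : Conf I)

/-- the components of the ends of both curves -/
def cp : σ.C.ι ⊕ σ.K.ι → I := Sum.elim σ.WC.cp σ.WK.cp

/-- the zones of the ends of both curves -/
def Z (t : ℝ) : σ.C.ι ⊕ σ.K.ι → Set ℂ := Sum.elim (σ.WC.zn σ.C t) (σ.WK.zn σ.K t)

end Conf

/-- local data of a modification inside the zones of size `t` -/
structure Gen {I : Type} (fx : Fix I) (σ σ' : Conf I) (t : ℝ) (pC : σ'.C.ι → σ.C.ι ⊕ σ.K.ι)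
    (pK : σ'.K.ι → σ.C.ι ⊕ σ.K.ι) : Prop where
  smooth : ∀ i, ContDiff ℝ ∞ (σ'.F i)
  hz : 0 < σ'.hz ∧ σ'.hz ≤ 1
  hubC : fx.c (σ'.WC.cp σ'.C.H) = σ'.C.c ∧ fx.R (σ'.WC.cp σ'.C.H) = σ'.C.R
  hubK : fx.c (σ'.WK.cp σ'.K.H) = σ'.K.c ∧ fx.R (σ'.WK.cp σ'.K.H) = σ'.K.R
  endC : ∀ j, EndW σ'.F σ'.hz σ'.C σ'.K σ'.WC j
  endK : ∀ j, EndW σ'.F σ'.hz σ'.K σ'.C σ'.WK j
  upC : ∀ j, σ'.WC.cp j = σ.cp (pC j) ∧ σ'.WC.zn σ'.C σ'.hz j ⊆ σ.Z σ.hz (pC j)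
  upK : ∀ j, σ'.WK.cp j = σ.cp (pK j) ∧ σ'.WK.zn σ'.K σ'.hz j ⊆ σ.Z σ.hz (pK j)
  disjC : ∀ j j', j ≠ j' → pC j = pC j' →
    Disjoint (σ'.WC.zn σ'.C σ'.hz j) (σ'.WC.zn σ'.C σ'.hz j')
  disjK : ∀ j j', j ≠ j' → pK j = pK j' →
    Disjoint (σ'.WK.zn σ'.K σ'.hz j) (σ'.WK.zn σ'.K σ'.hz j')
  cross : ∀ j k, pC j = pK k → Disjoint (σ'.WC.zn σ'.C σ'.hz j) (σ'.WK.zn σ'.K σ'.hz k)
  off : ∀ i, ∀ z ∈ fx.dom i, (∀ κ, σ.cp κ = i → z ∉ σ.Z t κ) →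
    σ'.F i z = σ.F i z ∧ SH.dbar (σ'.F i) z = SH.dbar (σ.F i) z
  conC : ∀ κ, ∀ z ∈ σ.Z t κ, (z, σ'.F (σ.cp κ) z) ∈ σ'.C.Γ →
    ∃ j, (z, σ'.F (σ.cp κ) z) ∈ cg (σ'.C.e j) (σ'.WC.pr j)
  conK : ∀ κ, ∀ z ∈ σ.Z t κ, (z, σ'.F (σ.cp κ) z) ∈ σ'.K.Γ →
    ∃ j, (z, σ'.F (σ.cp κ) z) ∈ cg (σ'.K.e j) (σ'.WK.pr j)
  real : ∀ κ, ∀ z ∈ σ.Z t κ, (z, σ'.F (σ.cp κ) z) ∉ σ'.A →
    SH.dbar (σ'.F (σ.cp κ)) z ≠ 0 ∨ (z, σ'.F (σ.cp κ) z) ∈ σ'.Sd
  sad : σ.Sd ⊆ σ'.Sd ∧ ∀ s ∈ σ'.Sd, SH.LB2 (fx.S σ'.F) s ∧ (s ∈ σ.Sd ∨ s ∉ σ'.A)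

theorem UPD.Z_disj {I : Type} {fx : Fix I} {σ : Conf I} (h : Wall fx σ) (κ κ' : σ.C.ι ⊕ σ.K.ι)
    (h1 : κ ≠ κ') (h2 : σ.cp κ = σ.cp κ') : Disjoint (σ.Z σ.hz κ) (σ.Z σ.hz κ') := by
  rcases κ with j | k <;> rcases κ' with j' | k'
  · exact h.C.disj j j' (fun e => h1 (congrArg _ e)) h2
  · exact h.cross j k' h2
  · exact (h.cross j' k h2.symm).symm
  · exact h.K.disj k k' (fun e => h1 (congrArg _ e)) h2

theorem UPD.Z_dom {I : Type} {fx : Fix I} {σ : Conf I} (h : Wall fx σ) (κ : σ.C.ι ⊕ σ.K.ι) :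
    σ.Z σ.hz κ ⊆ fx.dom (σ.cp κ) := by
  rcases κ with j | k
  · exact h.C.dom j
  · exact h.K.dom k

theorem UPD.Z_mono {I : Type} {fx : Fix I} {σ : Conf I} (h : Wall fx σ) (κ : σ.C.ι ⊕ σ.K.ι)
    {t t' : ℝ} (ht : t' ≤ t) : σ.Z t' κ ⊆ σ.Z t κ := by
  rcases κ with j | k
  · exact zn_le (endW h.C j) ht
  · exact zn_le (endW h.K k) ht

/-- the invariants after a modification of both curves -/
theorem wall_gen {I : Type} [Finite I] {fx : Fix I} {σ : Conf I} (h : Pre fx σ) {t : ℝ}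
    (ht : 0 < t) : ∀ᶠ ε in 𝓝[>] (0 : ℝ), ∀ (σ' : Conf I) (pC : σ'.C.ι → σ.C.ι ⊕ σ.K.ι)
      (pK : σ'.K.ι → σ.C.ι ⊕ σ.K.ι), σ'.A ⊆ cthickening ε σ.C.Γ ∪ cthickening ε σ.K.Γ →
      (∀ i, ∀ z ∈ fx.dom i, ‖σ'.F i z - σ.F i z‖ ≤ ε) → Gen fx σ σ' t pC pK → Wall fx σ' := by
  have T := two h
  have sd : ∀ s ∈ σ.Sd, ∀ᶠ ε in 𝓝[>] (0 : ℝ),
      s ∉ cthickening ε σ.C.Γ ∪ cthickening ε σ.K.Γ := by
    intro s a
    obtain ⟨δ, hδ, h2⟩ := (disjoint_singleton_left.2 (h.wall.saddle s a).1).exists_cthickenings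
      isCompact_singleton h.cA.isClosed
    filter_upwards [nhdsWithin_le_nhds (eventually_le_nhds hδ)] with ε b c
    refine disjoint_left.1 h2 (self_subset_cthickening _ rfl) (cthickening_mono b _ ?_)
    exact c.elim (fun d => cthickening_subset_of_subset _ subset_union_left d)
      fun d => cthickening_subset_of_subset _ subset_union_right d
  filter_upwards [gap_persist fx T.cont T.gap, T.far ht, T.symm.far ht,
    (σ.Sd.eventually_all).2 sd] with ε hg f1 f2 f3 σ' pC pK hA hc u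
  have far : ∀ i, ∀ z ∈ fx.dom i, (¬ ∃ κ, σ.cp κ = i ∧ z ∈ σ.Z t κ) →
      (z, σ.F i z) ∉ cthickening ε σ.C.Γ ∪ cthickening ε σ.K.Γ := fun i z a b c =>
    c.elim (f1 i z a fun k x y => b ⟨Sum.inl k, x, y⟩) (f2 i z a fun k x y => b ⟨Sum.inr k, x, y⟩)
  have con : ∀ (G : Set E) (p : E → Prop), G ⊆ σ'.A →
      (∀ κ, ∀ z ∈ σ.Z t κ, (z, σ'.F (σ.cp κ) z) ∈ G → p (z, σ'.F (σ.cp κ) z)) →
      ∀ y ∈ fx.S σ'.F, y ∈ G → p y := by
    rintro G p hG hp ⟨z, v⟩ a b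
    obtain ⟨i, c, d⟩ := PCS.mem_S.1 a
    obtain rfl : v = σ'.F i z := d
    by_cases q : ∃ κ, σ.cp κ = i ∧ z ∈ σ.Z t κ
    · obtain ⟨κ, rfl, q⟩ := q
      exact hp κ z q b
    · rw [(u.off i z c fun k x y => q ⟨k, x, y⟩).1] at b
      exact absurd (hA (hG b)) (far i z c q)
  refine ⟨u.smooth, hg _ hc, u.hz, of_ends u.hubC u.endC (fun j z a => ?_) (fun j k a b => ?_)
    (con _ _ subset_union_left u.conC), of_ends u.hubK u.endK (fun j z a => ?_)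
    (fun j k a b => ?_) (con _ _ subset_union_right u.conK), fun j k b => ?_, fun i z c a => ?_,
    fun s a => ⟨(u.sad.2 s a).2.elim (fun b c => f3 s b (hA c)) id, (u.sad.2 s a).1⟩⟩
  · rw [(u.upC j).1]; exact Z_dom h.wall _ ((u.upC j).2 a)
  · by_cases e : pC j = pC k
    · exact u.disjC j k a e
    · exact (Z_disj h.wall _ _ e ((u.upC j).1.symm.trans (b.trans (u.upC k).1))).mono
        (u.upC j).2 (u.upC k).2
  · rw [(u.upK j).1]; exact Z_dom h.wall _ ((u.upK j).2 a)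
  · by_cases e : pK j = pK k
    · exact u.disjK j k a e
    · exact (Z_disj h.wall _ _ e ((u.upK j).1.symm.trans (b.trans (u.upK k).1))).mono
        (u.upK j).2 (u.upK k).2
  · by_cases e : pC j = pK k
    · exact u.cross j k e
    · exact (Z_disj h.wall _ _ e ((u.upC j).1.symm.trans (b.trans (u.upK k).1))).mono
        (u.upC j).2 (u.upK k).2
  · by_cases q : ∃ κ, σ.cp κ = i ∧ z ∈ σ.Z t κ
    · obtain ⟨κ, rfl, q⟩ := q
      exact u.real κ z q a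
    · obtain ⟨e, e'⟩ := u.off i z c fun k x y => q ⟨k, x, y⟩
      rw [e, e']
      refine (h.wall.real i z c fun x => far i z c q ?_).imp id fun x => u.sad.1 x
      exact x.imp (fun y => self_subset_cthickening _ y) fun y => self_subset_cthickening _ y

end Pool.Agent.S6
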