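import Pool.Agent.Lib.S6.RSite
import Pool.Agent.Lib.S6.Upd
import Pool.Agent.Lib.S6.Glue
import Pool.Agent.Lib.CF.All3

/-!
Rotation of directions and shrinking of ports.
-/

open Set Filter Topology Metric
open scoped ContDiff

noncomputable section

namespace Pool.Agent.S6

open Pool.Agent.CF (End Kind Cv HasWind)
open Pool.Agent.Lib DESC

namespace RESET

/-- the depth of the new foot -/
def ft (e : End) (ρ ρ' : ℝ) : ℝ := if e.k = Kind.pt then Real.log (ρ' / ρ) else 0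

theorem ft_loop {e : End} (hk : e.k ≠ Kind.pt) (ρ ρ' : ℝ) : ft e ρ ρ' = 0 := if_neg hk

theorem ft_le {e : End} {ρ ρ' : ℝ} (h : e.k = Kind.pt → 0 < ρ' ∧ ρ' ≤ ρ) : ft e ρ ρ' ≤ 0 := by
  unfold ft
  split_ifs with a
  · obtain ⟨b, c⟩ := h a
    exact Real.log_nonpos (div_pos b (b.trans_le c)).le ((div_le_one (b.trans_le c)).2 c)
  · exact le_rfl

theorem wl_c (e : End) (ρ : ℝ) : (wl e ρ).c = e.c := by unfold wl; split_ifs <;> rfl

theorem wl_r {e : End} (ok : e.ok) {ρ : ℝ} (h : e.k = Kind.pt → 0 < ρ) : 0 < (wl e ρ).r := by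
  unfold wl
  split_ifs with a
  · exact h a
  · exact ok.pos a

theorem wl_dep {e : End} {ρ ρ' : ℝ} (h : e.k = Kind.pt → 0 < ρ' ∧ ρ' ≤ ρ) {z : ℂ} (n : z ≠ e.c) :
    (wl e ρ').dep z = (wl e ρ).dep z - ft e ρ ρ' := by
  by_cases a : e.k = Kind.pt
  · obtain ⟨b, c⟩ := h a
    have d := (b.trans_le c).ne'
    have f := norm_ne_zero_iff.2 (sub_ne_zero.2 n)
    rw [wl_dep_pt a, wl_dep_pt a, ft, if_pos a, Real.log_div f b.ne', Real.log_div f d,
      Real.log_div b.ne' d]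
    ring
  · rw [wl_loop a, wl_loop a, ft_loop a, sub_zero]

theorem pt_le {e : End} (a : e.k = Kind.pt) {ρ : ℝ} (h : 0 < ρ) {z : ℂ} (n : z ≠ e.c) (s : ℝ) :
    (wl e ρ).dep z ≤ s ↔ ‖z - e.c‖ ≤ ρ * Real.exp s := by
  rw [wl_dep_pt a, Real.log_le_iff_le_exp (div_pos (norm_pos_iff.2 (sub_ne_zero.2 n)) h),
    div_le_iff₀ h, mul_comm]

theorem pt_lt {e : End} (a : e.k = Kind.pt) {ρ : ℝ} (h : 0 < ρ) {z : ℂ} (n : z ≠ e.c) (s : ℝ) :
    (wl e ρ).dep z < s ↔ ‖z - e.c‖ < ρ * Real.exp s := by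
  rw [wl_dep_pt a, Real.log_lt_iff_lt_exp (div_pos (norm_pos_iff.2 (sub_ne_zero.2 n)) h),
    div_lt_iff₀ h, mul_comm]

theorem mem_zn {e : End} {ρ : ℝ} (h : e.k = Kind.pt → 0 < ρ) (one : Prop) (s : ℝ) {z : ℂ}
    (n : z ≠ e.c) : z ∈ zn e ρ one s ↔ (wl e ρ).dep z ≤ s ∧
      (e.k ≠ Kind.pt → (one → 0 ≤ (wl e ρ).dep z) ∧ (¬ one → -s ≤ (wl e ρ).dep z)) := by
  by_cases a : e.k = Kind.pt
  · rw [zn_pt a, pt_le a (h a) n, mem_closedBall_iff_norm]; simp [a]
  · rw [zn_loop a, wl_loop a]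
    by_cases b : one
    · simp [End.ann, a, b, n, and_comm]
    · simp [End.ann, a, b, n, and_comm]

theorem mem_ct {e : End} (ok : e.ok) {ρ : ℝ} (h : e.k = Kind.pt → 0 < ρ) {z : ℂ} (n : z ≠ e.c)
    (d : (wl e ρ).dep z = 0) : z ∈ ct e ρ := by
  by_cases a : e.k = Kind.pt
  · rw [ct_pt a, mem_closedBall_iff_norm]
    simpa using (pt_le a (h a) n 0).1 d.le
  · rw [wl_loop a] at d
    rw [ct_loop a]; exact (End.mem_circ (ok.pos a)).2 ⟨n, d⟩

theorem reg_dep {l : End} {two : Prop} {y0 t : ℝ} {z : ℂ} (a : z ∈ reg l two y0 t) :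
    z ≠ l.c ∧ l.dep z ≤ 3 * t ∧ (two → -(3 * t) ≤ l.dep z) ∧ (¬ two → y0 ≤ l.dep z) :=
  ⟨a.1, a.2.2, fun b => by simpa only [if_pos b] using a.2.1,
    fun b => by simpa only [if_neg b] using a.2.1⟩

theorem reg_zn {e : End} {ρ ρ' : ℝ} (h : e.k = Kind.pt → 0 < ρ) (one : Prop) (t : ℝ) :
    reg (wl e ρ) (e.k ≠ Kind.pt ∧ ¬ one) (ft e ρ ρ') t ⊆ zn e ρ one (3 * t) := fun z a => by
  obtain ⟨a1, a2, a3, a4⟩ := reg_dep a
  rw [wl_c] at a1
  exact (mem_zn h one _ a1).2 ⟨a2, fun b => ⟨fun c => ft_loop b ρ ρ' ▸ a4 fun d => d.2 c,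
    fun c => a3 ⟨b, c⟩⟩⟩

theorem reg_nhds {e : End} (ok : e.ok) {ρ ρ' : ℝ} (h : e.k = Kind.pt → 0 < ρ) (one : Prop)
    {t s : ℝ} (hs : 3 * t < s) {z : ℂ}
    (a : z ∈ reg (wl e ρ) (e.k ≠ Kind.pt ∧ ¬ one) (ft e ρ ρ') t)
    (n : (wl e ρ).dep z ≠ ft e ρ ρ') : ∀ᶠ x in 𝓝 z, x ∈ zn e ρ one s := by
  obtain ⟨a1, a2, a3, a4⟩ := reg_dep a
  have c := End.continuousAt_dep (wl_r ok h) a1
  have e1 : ∀ᶠ x in 𝓝 z, e.k ≠ Kind.pt → one → 0 ≤ (wl e ρ).dep x := by
    by_cases b : e.k ≠ Kind.pt ∧ one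
    · have := (a4 fun d => d.2 b.2).lt_of_ne' n
      rw [ft_loop b.1] at this
      exact (c.eventually (eventually_ge_nhds this)).mono fun x d _ _ => d
    · exact Eventually.of_forall fun x d f => (b ⟨d, f⟩).elim
  have e2 : ∀ᶠ x in 𝓝 z, e.k ≠ Kind.pt → ¬ one → -s ≤ (wl e ρ).dep x := by
    by_cases b : e.k ≠ Kind.pt ∧ ¬ one
    · exact (c.eventually (eventually_ge_nhds (show -s < _ by linarith [a3 b]))).mono
        fun x d _ _ => d
    · exact Eventually.of_forall fun x d f => (b ⟨d, f⟩).elim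
  rw [wl_c] at a1
  filter_upwards [e1, e2, c.eventually (eventually_le_nhds (a2.trans_lt hs)),
    isOpen_ne.mem_nhds a1] with x b1 b2 b3 b4
  exact (mem_zn h one s b4).2 ⟨b3, fun d => ⟨b1 d, b2 d⟩⟩

section dirs

variable {I J : Type} {L : ℝ} {Cw : ℝ → ℝ} {fx : Fix I} {F : I → ℂ → ℂ} {hz : ℝ} {A B : Cv}
  {W : Wd I A.ι} {Y : Set E} {sp : Sp J} {fd : FD J A.ι} {τ : ℝ} {lam : A.ι → ℂ → ℂ}
  {pr : A.ι → ℝ} {V : Finset A.ι} {o : ℝ}

theorem site_pt (b : Base L Cw fx F hz A B W Y sp fd τ) {k : A.ι} (h : fd.site k)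
    (hk : (A.e k).k = Kind.pt) : ∃ D, PD L A sp fd k D := by
  rcases h with h | ⟨j, rfl⟩
  · exact ⟨_, Or.inl ⟨h, rfl⟩⟩
  · exact ⟨_, Or.inr ⟨j, rfl, by rwa [l_eq b.fit], rfl⟩⟩

theorem site_loop (b : Base L Cw fx F hz A B W Y sp fd τ) {k : A.ι} (h : fd.site k)
    (hk : (A.e k).k ≠ Kind.pt) : ∃ j, fd.m j = k := h.resolve_left fun a => hk (b.win_pt a)

theorem PD_site {k : A.ι} {D : Set ℂ} (h : PD L A sp fd k D) : fd.site k :=
  h.imp (fun a => a.1) fun ⟨j, a, _⟩ => ⟨j, a⟩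

theorem ratio (b : Base L Cw fx F hz A B W Y sp fd τ) (nd : NewD L A W.pr sp fd lam pr V o)
    {k : A.ι} {D : Set ℂ} (h : PD L A sp fd k D) : Ratio (A.lam k) (lam k) (A.e k).c D o := by
  rcases h with ⟨h, rfl⟩ | ⟨j, rfl, h, rfl⟩
  · exact nd.win k h
  · rw [← l_eq b.fit]; exact nd.port j h

theorem re_pos {u : ℂ} (o1 : o < 1) (h : ‖u - 1‖ ≤ o) : 0 < u.re := by
  have := (abs_le.1 (Complex.abs_re_le_norm (u - 1))).1
  simp only [Complex.sub_re, Complex.one_re] at this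
  linarith

/-- the two directions along a loop -/
theorem ringD (b : Base L Cw fx F hz A B W Y sp fd τ) (nd : NewD L A W.pr sp fd lam pr V o)
    {o' : ℝ} (o0 : 0 < o') (o1 : o < o') (j : J) : ∃ t0 > 0, ∀ t, 0 < t → t ≤ t0 →
      (sp.l j).k ≠ Kind.pt → ∀ z ∈ (sp.l j).ann (Icc (-t) t),
        AnalyticAt ℂ (A.lam (fd.m j)) z ∧ AnalyticAt ℂ (lam (fd.m j)) z ∧
        NDir (sp.l j) (fd.win A j) (fun k => (A.e k).c)
          (fun z => A.lam (fd.m j) z * fd.chart A j z) o' (2 * fd.CD) z ∧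
        NDir (sp.l j) (fd.win A j) (fun k => (A.e k).c)
          (fun z => lam (fd.m j) z * fd.chart A j z) o' (2 * fd.CD) z := by
  by_cases hk : (sp.l j).k = Kind.pt
  · exact ⟨1, one_pos, fun _ _ _ a => (a hk).elim⟩
  have hk' : (A.e (fd.m j)).k ≠ Kind.pt := by rwa [← l_eq b.fit]
  have c0 : 0 < fd.CD := by linarith [b.fit.num.2.1]
  obtain ⟨δ, d0, d1⟩ := End.shrink (b.lok j) (N := {z |
      AnalyticAt ℂ (A.lam (fd.m j)) z ∧ AnalyticAt ℂ (lam (fd.m j)) z ∧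
        NDir (sp.l j) (fd.win A j) (fun k => (A.e k).c)
          (fun z => A.lam (fd.m j) z * fd.chart A j z) o' (2 * fd.CD) z ∧
        NDir (sp.l j) (fd.win A j) (fun k => (A.e k).c)
          (fun z => lam (fd.m j) z * fd.chart A j z) o' (2 * fd.CD) z})
    (mem_nhdsSet_iff_forall.2 fun z hz => ((b.sw.loop _ hk').1 z (ct_sub b.sw b.ok _ b.h0.le (by
      rwa [ct_loop hk', ← l_eq b.fit]))).eventually_analyticAt.and
      ((nd.ring j hk z hz).1.eventually_analyticAt.and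
        ((NDir.nhds ((b.fit.ring j hk).2.2.1 z hz) o0 c0).and
          (NDir.nhds (nd.ring j hk z hz).2 o1 c0))))
  refine ⟨δ, d0, fun t _ a _ z hz => d1 t 0 a d0.le ?_⟩
  rwa [End.near_loop hk]

/-- the two directions at a port -/
theorem portD (b : Base L Cw fx F hz A B W Y sp fd τ) (nd : NewD L A W.pr sp fd lam pr V o)
    (o1 : o < 1) {k : A.ι} {D : Set ℂ} (h : PD L A sp fd k D) {s : ℝ} (s1 : s ≤ hz)
    (s2 : s ≤ sp.h) : Pole (lam k) (A.e k).c (W.zn A s k) ∧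
      ∀ z ∈ ball (A.e k).c (W.pr k * Real.exp s), z ≠ (A.e k).c → AnalyticAt ℂ (A.lam k) z ∧
        AnalyticAt ℂ (lam k) z ∧ 0 < (A.lam k z * (A.lam k z)⁻¹).re ∧
        0 < (lam k z * (A.lam k z)⁻¹).re := by
  have hk := b.PD_pt h
  obtain ⟨g, g1, g2⟩ := (b.sw.port k hk).2.2
  obtain ⟨u, u1, u2⟩ := ratio b nd h
  have z1 := zn_sub b.sw k s1
  have z2 := b.zn_PD h s2
  have z3 : ball (A.e k).c (W.pr k * Real.exp s) ⊆ W.zn A s k := by
    rw [Wd.zn, zn_pt hk]; exact ball_subset_closedBall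
  have un : ∀ z ∈ D, u z ≠ 0 := fun z a e => by simpa [e] using re_pos o1 (u2 z a).1
  refine ⟨⟨fun z => u z * g z, (u1.mono z2).mul (g1.mono z1), fun z a =>
    ⟨mul_ne_zero (un z (z2 a)) (g2 z (z1 a)).1, fun n => ?_⟩⟩, fun z a n => ?_⟩
  · rw [(u2 z (z2 a)).2.2 n, (g2 z (z1 a)).2 n, mul_div_assoc]
  · have e := (isOpen_ball.inter isOpen_ne).mem_nhds (show z ∈ _ ∩ {x | x ≠ (A.e k).c} from ⟨a, n⟩)
    have a1 : AnalyticAt ℂ (A.lam k) z :=
      ((g1 z (z1 (z3 a))).div (analyticAt_id.sub analyticAt_const) (sub_ne_zero.2 n)).congr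
        (by filter_upwards [e] with x c using ((g2 x (z1 (z3 c.1))).2 c.2).symm)
    have a2 : A.lam k z ≠ 0 := by
      rw [(g2 z (z1 (z3 a))).2 n]; exact div_ne_zero (g2 z (z1 (z3 a))).1 (sub_ne_zero.2 n)
    refine ⟨a1, ((u1 z (z2 (z3 a))).mul a1).congr
      (by filter_upwards [e] with x c using ((u2 x (z2 (z3 c.1))).2.2 c.2).symm), ?_, ?_⟩
    · rw [mul_inv_cancel₀ a2]; simp
    · rw [(u2 z (z2 (z3 a))).2.2 n, mul_inv_cancel_right₀ a2]; exact re_pos o1 (u2 z (z2 (z3 a))).1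

theorem sameW (b : Base L Cw fx F hz A B W Y sp fd τ) (nd : NewD L A W.pr sp fd lam pr V o)
    (o1 : o < 1) (k : A.ι) {n : ℤ} (hw : HasWind (A.e k) (A.lam k) n) :
    HasWind (A.e k) (lam k) n := by
  by_cases h : fd.site k
  swap
  · rwa [(nd.other k h).1]
  by_cases hk : (A.e k).k = Kind.pt
  · obtain ⟨D, hD⟩ := site_pt b h hk
    obtain ⟨u, u1, u2⟩ := ratio b nd hD
    have p := prpos b.sw k hk
    have m : D ∈ 𝓝 (A.e k).c := mem_of_superset (closedBall_mem_nhds _ (by positivity))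
      ((zn_pt hk _ _ 0).ge.trans (b.zn_PD hD b.hpos.le))
    have m' := mem_of_mem_nhds m
    refine ((hw.mul (HasWind.of_pt (b.ok k) hk (u1 _ m') fun e => by
      simpa [e] using re_pos o1 (u2 _ m').1)).congr ?_).cast (add_zero n)
    rw [End.circ_pt (b.ok k) hk, nhdsSet_singleton]
    filter_upwards [m] with z a c
    rw [(u2 z a).2.2 c, mul_comm]
  · obtain ⟨j, rfl⟩ := site_loop b h hk
    rw [← l_eq b.fit] at hw hk ⊢
    have w1 := HasWind.of_slit (fun z a => ((b.fit.ring j hk).2.2.1 z a).1)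
      fun z a => Or.inl ((b.fit.ring j hk).2.2.1 z a).2.1
    have w2 := HasWind.of_slit (fun z a => (nd.ring j hk z a).2.1)
      fun z a => Or.inl (nd.ring j hk z a).2.2.1
    refine (((hw.mul w2).div w1).congr ?_).cast (by simp)
    filter_upwards [w1.ne_zero] with z a c
    have := a c
    have a1 := left_ne_zero_of_mul this
    have a2 := right_ne_zero_of_mul this
    field_simp

end dirs

theorem core {ab : Ab} (hab : ab.OK) {I J : Type} [Fintype I] [Fintype J] {fx : Fix I}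
    (ok : fx.OK) {σ : Conf I} {sp : Sp J} {fd : FD J σ.C.ι} {τ : ℝ} {T0 : Set E}
    (c : Ctx fx ab.L ab.Cw σ sp fd τ T0) {o o' o1 : ℝ} (o0 : 0 < o) (p0 : 0 < o') (p1 : o' ≤ o)
    (p2 : ∀ k ∈ fd.U, 0 < σ.C.hub.dep (σ.C.e k).c → o' ≤ o * σ.C.hub.dep (σ.C.e k).c)
    (p3 : o1 < o') (p4 : o1 < 1)
    (H : ∀ (X K : Set E) (j : J), Std X K →
      AnalyticOnNhd ℂ (sp.l j).w ((sp.l j).near sp.h sp.r1) →
      ((sp.l j).k = Kind.pt → PDesc sp j (σ.C.lam (fd.m j)) (σ.WC.pr (fd.m j)) X K τ o →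
        sp.End1 (X \ K) τ j) ∧
      ((sp.l j).k ≠ Kind.pt → ∀ V Bs : Finset σ.C.ι, V ⊆ fd.U → Disjoint V Bs →
        (fd.m j = σ.C.H → fd.gain ≤ fd.gsum V) →
        RDesc ab σ.C σ.WC.pr sp fd j V Bs X K τ o → sp.End1 (X \ K) τ j))
    {lam : σ.C.ι → ℂ → ℂ} {pr : σ.C.ι → ℝ} {V : Finset σ.C.ι}
    (nd : NewD ab.L σ.C σ.WC.pr sp fd lam pr V o1) (n : ℕ) {ε : ℝ} (hε : 0 < ε) :
    ∃ (F' : I → ℂ → ℂ) (Ef' : σ.C.ι → ℝ → ℝ) (hz' : ℝ),
      Good fx (σ.reset F' lam Ef' pr hz') ∧ Nxt fx σ.F F' n ε T0 := by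
  classical
  have pre := c.good.pre
  have sw := pre.wall.C
  have b : Base ab.L ab.Cw fx σ.F σ.hz σ.C σ.K σ.WC σ.A sp fd τ :=
    ⟨by linarith [hab.num.1], hab.num.2.2.2.2.2.2.2.2, fun i => (pre.wall.smooth i).continuous,
      pre.wall.gap, pre.wall.hz.1, sw, pre.alg.hC.curve.ok, pre.alg.hC.out, c.fit, c.zone⟩
  have pp := prpos sw
  have pq : ∀ k, (σ.C.e k).k = Kind.pt → 0 < pr k ∧ pr k ≤ σ.WC.pr k := fun k a =>
    ⟨(nd.rad k a).1, (nd.rad k a).2.1⟩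
  obtain ⟨ρz, r0, G⟩ := glue st_pcs st_near st_inh ok c.good c.cert b.lok c.zone.an c.zone.iso
  obtain ⟨t1, a1, c1⟩ := small fun j => b.desc o0 j
  obtain ⟨t2, a2, c2⟩ := small fun j => ringD b nd p0 p3 j
  obtain ⟨t3, a3, c3⟩ := small fun k => exists_OP (sw.pr k)
  obtain ⟨t4, a4, c4⟩ := UPD.ex_pos ((UPD.two pre).nxt_zone fd.site c.T0.1 c.T0.2
    (Y := σ.A) subset_union_left r0)
  have h0 := b.h0
  have h1 := b.hpos
  obtain ⟨t, t0, m1, m2, m3, m4, m5, m6⟩ : ∃ t > 0, t ≤ t1 ∧ 4 * t ≤ t2 ∧ t ≤ t3 ∧ 4 * t ≤ t4 ∧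
      4 * t ≤ σ.hz ∧ 4 * t ≤ sp.h := by
    obtain ⟨t, p, q⟩ := small (κ := Fin 6) (p := fun i s => s ≤ ![t1, t2, t3, t4, σ.hz, sp.h] i)
      fun i => ⟨_, by fin_cases i <;> assumption, fun _ _ a => a⟩
    have q := q t p le_rfl
    exact ⟨t / 4, by positivity, by linarith [show t ≤ t1 from q 0], by linarith [show t ≤ t2 from q 1],
      by linarith [show t ≤ t3 from q 2], by linarith [show t ≤ t4 from q 3],
      by linarith [show t ≤ σ.hz from q 4], by linarith [show t ≤ sp.h from q 5]⟩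
  replace c2 := c2 (4 * t) (by positivity) m2
  replace c3 := c3 t t0 m3
  obtain ⟨r, r1, d⟩ := small (c1 t t0 m1)
  replace d := d r r1 le_rfl
  obtain ⟨η, e0, G⟩ := G r r1 r r1
  obtain ⟨εw, e1, Wl⟩ := UPD.ex_pos (wall_reset pre)
  obtain ⟨δ, d0, d1, d2, d3, d4, d5⟩ : ∃ δ > 0, δ ≤ ε ∧ δ ≤ η ∧ δ ≤ r ∧ δ ≤ t4 ∧ δ ≤ εw := by
    obtain ⟨t, p, q⟩ := small (κ := Fin 5) (p := fun i s => s ≤ ![ε, η, r, t4, εw] i)
      fun i => ⟨_, by fin_cases i <;> assumption, fun _ _ a => a⟩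
    have q := q t p le_rfl
    exact ⟨t, p, q 0, q 1, q 2, q 3, q 4⟩
  have dp : 0 < δ / ((Finset.univ : Finset σ.C.ι).card + 1) := by positivity
  have key : ∀ k, ∃ (y1 : ℝ) (Φ : ℝ → ℝ) (M : ℂ → ℂ), 0 < y1 ∧
      SH.Small (max n 1) (δ / ((Finset.univ : Finset σ.C.ι).card + 1)) M ∧
      (¬ fd.site k → ∀ z, M z = 0) ∧ (fd.site k → Md (wl (σ.C.e k) (σ.WC.pr k))
        ((σ.C.e k).k ≠ Kind.pt ∧ k ≠ σ.C.H) (σ.WC.Ef k) (σ.C.lam k) (lam k)
        (ft (σ.C.e k) (σ.WC.pr k) (pr k)) t y1 Φ M) := fun k => by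
    by_cases h : fd.site k
    swap
    · exact ⟨1, id, fun _ => 0, one_pos, SH.Small.zero _ dp.le, fun _ _ => rfl, fun a => (h a).elim⟩
    obtain ⟨ch, hch⟩ : ∃ ch : ℂ → ℂ, ∀ z ∈ (wl (σ.C.e k) (σ.WC.pr k)).ann
        (Ioo (ft (σ.C.e k) (σ.WC.pr k) (pr k) - 4 * t) (4 * t)), AnalyticAt ℂ (σ.C.lam k) z ∧
          AnalyticAt ℂ (lam k) z ∧ 0 < (σ.C.lam k z * ch z).re ∧ 0 < (lam k z * ch z).re := by
      by_cases hk : (σ.C.e k).k = Kind.pt
      · obtain ⟨D, hD⟩ := site_pt b h hk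
        refine ⟨fun z => (σ.C.lam k z)⁻¹, fun z a => ?_⟩
        have n : z ≠ (σ.C.e k).c := wl_c (σ.C.e k) (σ.WC.pr k) ▸ a.1
        exact (portD b nd p4 hD m5 m6).2 z
          (mem_ball_iff_norm.2 ((pt_lt hk (pp k hk) n _).1 a.2.2)) n
      · obtain ⟨j, rfl⟩ := site_loop b h hk
        rw [wl_loop hk, ft_loop hk, ← l_eq b.fit]
        rw [← l_eq b.fit] at hk
        refine ⟨fd.chart σ.C j, fun z a => ?_⟩
        obtain ⟨x1, x2, x3, x4⟩ := c2 j hk z ⟨a.1, by linarith [a.2.1], a.2.2.le⟩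
        exact ⟨x1, x2, x3.2.1, x4.2.1⟩
    obtain ⟨y1, Φ, M, x, y⟩ := site (wl_r (b.ok k) (pp k)) (sw.pr k) t0 (ft_le (pq k))
      (fun a => ft_loop a.1 _ _) hch (c3 k) (max n 1) dp
    exact ⟨y1, Φ, M, x.num.1, y, fun a => (a h).elim, fun _ => x⟩
  choose y1 Φ M k0 k1 k2 md using key
  obtain ⟨hz', z0, z1⟩ := small (p := fun k s => s ≤ y1 k / 2 ∧ s ≤ t) fun k =>
    ⟨min (y1 k / 2) t, by have := k0 k; positivity, fun s _ a => le_min_iff.1 a⟩
  replace z1 := z1 hz' z0 le_rfl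
  have z2 := (z1 σ.C.H).2
  set Q : σ.C.ι → Set ℂ := fun k => {z | fd.site k ∧ z ∈ reg (wl (σ.C.e k) (σ.WC.pr k))
    ((σ.C.e k).k ≠ Kind.pt ∧ k ≠ σ.C.H) (ft (σ.C.e k) (σ.WC.pr k) (pr k)) t} with hQ
  have q0 : ∀ k z, z ∉ Q k → M k z = 0 := fun k z a => by
    by_cases h : fd.site k
    · exact (md k h).off z fun x => a ⟨h, x⟩
    · exact k2 k h z
  have q1 : ∀ k, Q k ⊆ σ.WC.zn σ.C (3 * t) k := fun k z a => reg_zn (pp k) _ t a.2
  have q2 : ∀ k, Q k ⊆ σ.WC.zn σ.C σ.hz k := fun k => (q1 k).trans (zn_sub sw k (by linarith))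
  have q3 : ∀ k, IsClosed (Q k) := fun k => isClosed_const.inter
    (End.isCompact_ann (wl_r (b.ok k) (pp k)) isCompact_Icc).isClosed
  set F' : I → ℂ → ℂ := fun i z => σ.F i z + ∑ k, if σ.WC.cp k = i then M k z else 0 with hF
  have sm : ∀ i, SH.Small (max n 1) δ fun z => ∑ k, if σ.WC.cp k = i then M k z else 0 := fun i =>
    (SH.Small.sum_card Finset.univ (F := fun k z => if σ.WC.cp k = i then M k z else 0)
      fun k _ => by
        split_ifs
        · exact k1 k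
        · exact SH.Small.zero _ dp.le).mono le_rfl (by
      rw [mul_div_assoc', div_le_iff₀ (by positivity)]; nlinarith)
  have sF : ∀ i, ContDiff ℝ ∞ (F' i) := fun i => (pre.wall.smooth i).add (sm i).1
  have cl : MP_9ccfb7_an.Close (max n 1) δ σ.F F' fx.R fx.R := fun i =>
    ⟨by simpa only [hF, add_sub_cancel_left] using (sm i).2, le_rfl, by linarith⟩
  have f0 : ∀ i z, (∀ k, σ.WC.cp k = i → z ∉ Q k) → F' i z = σ.F i z := fun i z a => by
    simp only [hF, add_eq_left]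
    refine Finset.sum_eq_zero fun k _ => ?_
    split_ifs with e
    · exact q0 k z (a k e)
    · rfl
  have f1 : ∀ k, ∀ z ∈ σ.WC.zn σ.C σ.hz k, F' (σ.WC.cp k) z = (σ.C.e k).w z +
      (σ.WC.Ef k ((wl (σ.C.e k) (σ.WC.pr k)).dep z) : ℂ) * σ.C.lam k z + M k z := fun k z a => by
    simp only [hF]
    rw [sw.exact k z a, Finset.sum_eq_single k (fun k' _ n => ?_) (by simp), if_pos rfl]
    split_ifs with e
    · exact q0 k' z fun x => disjoint_left.1 (sw.disj k' k n e) (q2 k' x) a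
    · rfl
  have f2 : ∀ k, fd.site k → ∀ z ∈ σ.WC.zn σ.C (2 * t) k, z ≠ (σ.C.e k).c →
      F' (σ.WC.cp k) z - (σ.C.e k).w z =
        (cut (y1 k) (σ.WC.Ef k) ((wl (σ.C.e k) (σ.WC.pr k)).dep z) : ℝ) * σ.C.lam k z +
        (Φ k ((wl (σ.C.e k) (σ.WC.pr k)).dep z - ft (σ.C.e k) (σ.WC.pr k) (pr k)) : ℝ) *
          lam k z := fun k h z a n => by
    obtain ⟨x1, x2⟩ := (mem_zn (pp k) _ _ n).1 a
    rw [f1 k z (zn_sub sw k (by linarith) a), add_assoc, add_sub_cancel_left]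
    exact (md k h).eq z (by rwa [wl_c]) x1 fun y => (x2 y.1).2 y.2
  have f3 : ∀ k, (σ.C.e k).k = Kind.pt → F' (σ.WC.cp k) (σ.C.e k).c = (σ.C.e k).w (σ.C.e k).c :=
    fun k hk => by
      have m : (σ.C.e k).c ∈ ct (σ.C.e k) (σ.WC.pr k) := by
        rw [ct_pt hk]; exact mem_closedBall_self (pp k hk).le
      rw [f1 k _ (ct_sub sw b.ok k h0.le m), q0 k _ fun x => x.2.1 (wl_c _ _).symm, add_zero,
        ← sw.exact k _ (ct_sub sw b.ok k h0.le m), (on_ct sw h0 b.ok k m).2]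
  obtain ⟨n1, n2⟩ := c4 F' (fun i z _ => (close_le cl i z).trans d4) fun i z _ a => by
    by_contra x
    exact a (f0 i z fun k e y => x ⟨k, y.1, e, zn_sub sw k (by linarith) (q1 k y)⟩)
  have lc : Loc ab.L σ.C σ.WC sp fd F' V t o o' := by
    refine ⟨fun j hk => ?_, fun k D h => ?_⟩
    · have hk' : (σ.C.e (fd.m j)).k ≠ Kind.pt := by rwa [← l_eq b.fit]
      have st : fd.site (fd.m j) := Or.inr ⟨j, rfl⟩
      have x := md _ st
      have pE := sw.pr (fd.m j)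
      have op : ∀ y ∈ Icc (-(2 * t)) (2 * t), _ := fun y h =>
        c3 (fd.m j) y (by linarith [h.2]) fun _ => by linarith [h.1]
      have sg : ∀ y ∈ Icc (-(2 * t)) (2 * t), _ := fun y h =>
        PR_sign pE (op y h).2.1 (op y h).2.2
      refine ⟨fun i => cond i (Φ (fd.m j)) (cut (y1 (fd.m j)) (σ.WC.Ef (fd.m j))),
        fun i z => cond i (lam (fd.m j) z) (σ.C.lam (fd.m j) z) * fd.chart σ.C j z,
        fun i => ⟨fun y h => ?_, fun y h => ?_, fun z h => ?_⟩, fun z h => ?_,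
        fun n y h => ⟨true, (x.np.neg ⟨hk', n⟩ y h.2).ne⟩⟩
      · cases i
        · have := cut_st x.num.1 pE.flat.1 (PCS.PR_zero pE) (sg y h) (by positivity) (op y h).1
          refine ⟨(cut_smooth _ pE.flat.1).differentiable (by simp) y, this.trans ?_⟩
          exact mul_le_mul_of_nonneg_right (by linarith)
            (nonneg_of_mul_nonneg_right ((abs_nonneg _).trans this) (by positivity))
        · have := x.np.st y
          refine ⟨PR_diff x.np.pr y, this.trans ?_⟩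
          exact mul_le_mul_of_nonneg_right (by linarith)
            (nonneg_of_mul_nonneg_right ((abs_nonneg _).trans this) (by positivity))
      · cases i
        · exact ⟨cut_sign _ (sg y h), fun e u => by
            simp only [cond, cut, pE.one (fun v => v.2 e) y u, mul_zero]⟩
        · exact ⟨PR_sign x.np.pr (x.np.pos y) fun u => x.np.neg u y,
            fun e => x.np.pr.one (fun v => v.2 e) y⟩
      · obtain ⟨-, -, x3, x4⟩ := c2 j hk z ⟨h.1, by linarith [h.2.1], by linarith [h.2.2]⟩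
        cases i
        · exact x3
        · exact x4
      · have := f2 _ st z (by rwa [b.zn_ring hk]) (by rw [← l_eq b.fit]; exact h.1)
        rw [wl_loop hk', ft_loop hk', sub_zero, ← l_eq b.fit] at this
        simp only [this, Fintype.sum_bool, cond]
        ring
    · have hk := b.PD_pt h
      have x := md k (PD_site h)
      have pE := sw.pr k
      have n2 : ¬ ((σ.C.e k).k ≠ Kind.pt ∧ k ≠ σ.C.H) := fun a => a.1 hk
      have op : ∀ y ≤ 2 * t, _ := fun y h => c3 k y (by linarith) fun a => (n2 a).elim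
      have sg : ∀ y ≤ 2 * t, _ := fun y h => PR_sign pE (op y h).2.1 (op y h).2.2
      have g0 : ∀ y, 0 ≤ Φ k y := fun y => by
        rcases le_or_gt y 0 with a | a
        · exact (x.np.pr.one n2 y a).ge
        · exact (x.np.pos y a).le
      have y0 := ft_le (pq k)
      obtain ⟨u, u1, u2⟩ := ratio b nd h
      refine ⟨fun i => cond i (fun s => Φ k (s - ft (σ.C.e k) (σ.WC.pr k) (pr k)))
        (cut (y1 k) (σ.WC.Ef k)), fun i => cond i u fun _ => 1, _, y0, fun a => ?_, fun i => ?_,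
        sub_eq_zero.2 (f3 k hk), fun z a n => ?_, ?_⟩
      · rw [ft, if_pos hk, (nd.rad k hk).2.2 a, div_self (pp k hk).ne', Real.log_one]
      · cases i
        · refine ⟨analyticOnNhd_const, fun z _ => by simpa using o0.le, fun y a =>
            ⟨(cut_smooth _ pE.flat.1).differentiable (by simp) y, cut_st x.num.1 pE.flat.1
              (PCS.PR_zero pE) (sg y a) (by positivity) (op y a).1⟩, fun y a => ?_, fun y a => by
                simp only [cond, cut, pE.one n2 y (a.trans y0), mul_zero]⟩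
          rcases le_or_gt y 0 with e | e
          · simp only [cond, cut, pE.one n2 y e, mul_zero, le_refl]
          · exact mul_nonneg (cu_nonneg _) ((op y a).2.1 e).le
        · refine ⟨u1, fun z a => ⟨(u2 z a).1.trans (p3.le.trans p1), (u2 z a).2.1.trans (p3.le.trans p1)⟩,
            fun y _ => ⟨(PR_diff x.np.pr _).comp y (differentiableAt_id.sub_const _), ?_⟩,
            fun y _ => g0 _, fun y a => x.np.pr.one n2 _ (sub_nonpos.2 a)⟩
          simp only [cond]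
          rw [deriv_comp_sub_const]; exact x.np.st _
      · have m : z ∈ σ.WC.zn σ.C (2 * t) k := by rwa [Wd.zn, zn_pt hk]
        have := f2 k (PD_site h) z m n
        rw [wl_dep_pt hk, (u2 z (b.zn_PD h (by linarith) m)).2.2 n] at this
        simp only [this, Fintype.sum_bool, cond]
        ring
      · simp only [Fintype.sum_bool, cond]
        rw [cut_eq x.num.1 _ (x.num.2.trans (le_abs_self _))]
        linarith [g0 (t / 2 - ft (σ.C.e k) (σ.WC.pr k) (pr k))]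
  obtain ⟨lb, G⟩ := G (σ.reset F' lam (fun k => if fd.site k then Φ k else σ.WC.Ef k) pr hz') rfl sF
    ⟨cl.mono (le_max_right _ _) d2, n1⟩ n2
  refine ⟨F', _, hz', G ⟨CF.all_rota _ _ _ _ _ _ lam pre.alg fun k => ?_,
    Wl F' lam _ pr hz' Q (fun i z _ => (close_le cl i z).trans d5) sF z0 (by linarith)
      (fun k z a _ => q2 k a) (fun i z _ a => ⟨f0 i z a, fun _ => ?_⟩) (fun k => ?_) lb⟩
    fun X st tb j => ?_, cl.mono (le_max_left _ _) d1, n1⟩
  · obtain ⟨m, w, -⟩ := pre.alg.hC.lam k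
    exact ⟨m, w, sameW b nd p4 k w⟩
  · have : F' i =ᶠ[𝓝 z] σ.F i := by
      have : ∀ᶠ x in 𝓝 z, ∀ k, σ.WC.cp k = i → x ∉ Q k := eventually_all.2 fun k => by
        by_cases e : σ.WC.cp k = i
        · exact mem_of_superset ((q3 k).isOpen_compl.mem_nhds (a k e)) fun x y _ => y
        · exact Eventually.of_forall fun x y => (e y).elim
      exact this.mono fun x y => f0 i x y
    simp only [SH.dbar, this.fderiv_eq]
  · by_cases h : fd.site k
    swap
    · exact Or.inl ⟨eq_empty_of_forall_notMem fun z a => h a.1, (nd.other k h).1, (nd.other k h).2,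
        if_neg h⟩
    have x := md k h
    have zs : zn (σ.C.e k) (pr k) (k = σ.C.H) hz' ⊆ σ.WC.zn σ.C hz' k :=
      UPD.zn_mono le_rfl fun a => ⟨(pp k a).le, (pq k a).2⟩
    refine Or.inr ⟨fun hk => ⟨(pq k hk).1, (pq k hk).2, ?_, fun z u v => ⟨h, ?_⟩⟩, fun hk => ?_,
      by simpa only [if_pos h] using x.np.pr, fun z a => ?_, fun z a _ n => ?_⟩
    · obtain ⟨D, hD⟩ := site_pt b h hk
      exact (portD b nd p4 hD (by linarith) (by linarith)).1.mono zs
    · have n : z ≠ (σ.C.e k).c := fun e => by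
        rw [e, sub_self, norm_zero] at u; linarith [(pq k hk).1]
      refine ⟨by rwa [wl_c], ?_, (pt_le hk (pp k hk) n _).2 (v.trans (le_mul_of_one_le_right
        (pp k hk).le (Real.one_le_exp (by linarith))))⟩
      rw [if_neg fun a => a.1 hk, ← sub_nonneg, ← wl_dep (pq k) n]
      exact le_of_not_gt fun a => by
        have := (pt_lt hk (pq k hk).1 n 0).1 a
        rw [Real.exp_zero, mul_one] at this
        linarith
    · obtain ⟨j, rfl⟩ := site_loop b h hk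
      have hk' : (sp.l j).k ≠ Kind.pt := by rwa [l_eq b.fit]
      have m : ∀ z ∈ zn (σ.C.e (fd.m j)) (pr (fd.m j)) (fd.m j = σ.C.H) hz',
          z ∈ (sp.l j).ann (Icc (-(4 * t)) (4 * t)) := fun z a => by
        rw [l_eq b.fit]
        exact End.ann_mono (Icc_subset_Icc (by linarith) (by linarith))
          (UPD.zn_loop hk _ _ z0.le a)
      exact ⟨fun z a => (c2 j hk' z (m z a)).2.1,
        fun z a => by
          have := NDir.ne (c2 j hk' z (m z a)).2.2.2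
          exact left_ne_zero_of_mul this⟩
    · rw [if_pos h]
      by_cases n : z = (σ.C.e k).c
      · have hk : (σ.C.e k).k = Kind.pt := by
          by_contra hk
          rw [zn_loop hk] at a
          exact a.1 n
        rw [n, f3 k hk, wl_dep_pt hk]
        simp [PCS.PR_zero x.np.pr]
      · obtain ⟨x1, x2⟩ := (mem_zn (pp k) _ _ n).1 (zs a)
        have e : cut (y1 k) (σ.WC.Ef k) ((wl (σ.C.e k) (σ.WC.pr k)).dep z) = 0 := by
          by_cases u : (σ.C.e k).k ≠ Kind.pt ∧ k ≠ σ.C.H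
          · exact cut_zero (k0 k) _ (abs_le.2 ⟨by linarith [(x2 u.1).2 u.2, (z1 k).1],
              by linarith [(z1 k).1]⟩)
          · rcases le_or_gt ((wl (σ.C.e k) (σ.WC.pr k)).dep z) 0 with v | v
            · rw [cut, (sw.pr k).one u _ v, mul_zero]
            · exact cut_zero (k0 k) _ (by rw [abs_of_pos v]; linarith [(z1 k).1])
        have := f2 k h z (zn_sub sw k (by linarith) (zs a)) n
        rw [e, ← wl_dep (pq k) n] at this
        rw [← sub_eq_iff_eq_add', this]; simp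
    · have nc : z ≠ (σ.C.e k).c := wl_c (σ.C.e k) (σ.WC.pr k) ▸ a.2.1
      have nd : (wl (σ.C.e k) (σ.WC.pr k)).dep z ≠ ft (σ.C.e k) (σ.WC.pr k) (pr k) := fun e =>
        n (mem_ct (b.ok k) (fun u => (pq k u).1) nc (by rw [wl_dep (pq k) nc, e, sub_self]))
      exact x.real z a.2 nd _ _ (sw.an k z (q2 k a))
        ((reg_nhds (b.ok k) (pp k) _ (show 3 * t < σ.hz by linarith) a.2 nd).mono (f1 k))
  · obtain ⟨g1, g2⟩ := d j F' V o' X _ p0.le p1 (fun k h => p2 k h (c.fit.win k h).2.2.1)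
      (fun i z _ => (close_le cl i z).trans d3) lc rfl (tb j)
    obtain ⟨h1, h2⟩ := H X _ j st (c.zone.an j)
    by_cases h : (sp.l j).k = Kind.pt
    · exact h1 h (g1 h)
    · exact h2 h V ∅ nd.act.1 (Finset.disjoint_empty_right _) (fun _ => nd.act.2) (g2 h)

end RESET

theorem st_reset (hE : St_ENDS) : St_RESET := by
  intro ab hab I J _ _ fx σ0 sp fd ok
  obtain ⟨o, o0, H⟩ := ends_o hE hab σ0.C sp fd
  obtain ⟨o', p0, p1, p2⟩ := exists_o σ0.C fd o0
  refine ⟨min o' 1 / 2, by positivity, fun F lam Ef pr hz mu τ T0 c lam' pr' V nd k ε hε => ?_⟩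
  exact RESET.core hab ok c o0 p0 p1 p2 (by linarith [min_le_left o' 1])
    (by linarith [min_le_right o' 1]) (fun X K j => H lam pr mu c.fit c.good.pre.alg.hC.curve.ok
      c.good.pre.alg.hC.out X K τ j) nd k hε

end Pool.Agent.S6
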