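import Pool.Agent.Lib.S6.Ends2

/-!
The description of the surface at a loop, in the chart of the loop.
-/

open Set Filter Topology Metric

noncomputable section

namespace Pool.Agent.S6.ENDS

open Pool.Agent.CF (End Kind)
open Pool.Agent.Lib Pool.Agent.Lib.SH Pool.Agent.Lib.SH.Win Pool.Agent.Lib.SH.Ring

variable {l : End}

/-- maximum principle for the base coordinate -/
theorem LS.up {X K : Set E} {ch : ℂ → ℂ} {τ a R h : ℝ} (s : LS X K l ch τ a R h) {g : E → ℂ}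
    (hg : ContinuousOn g (ov (Xc X l a R) (AN h h)))
    (h1 : ∀ y ∈ ov (Xc X l a R) (AN h h), y ∈ bc (ech l) ⁻¹' K → g y = 0 → ‖y.1‖ ≤ 1)
    (h2 : ∀ y ∈ ov (Xc X l a R) (AN h h), y ∉ bc (ech l) ⁻¹' K → g y = 0) :
    ∀ y ∈ ov (Xc X l a R) (AN h h), g y = 0 → ‖y.1‖ ≤ 1 := by
  intro y hy e
  refine (le_total ‖y.1‖ 1).elim id fun c => ?_
  have h0 := s.ha.1.trans_le s.ha.2
  have := st_mpabs _ _ ((ov (Xc X l a R) (AN h h) ∩ g ⁻¹' {0}) ∩ {v | 1 ≤ ‖v.1‖}) Prod.fst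
    (fun _ => 0) 1 ⟨(s.np.cpt.of_isClosed_subset (hg.preimage_isClosed_of_isClosed
      s.np.cpt.isClosed isClosed_singleton) inter_subset_left).inter_right
        (isClosed_le continuous_const (by fun_prop)), fun v hv => hv.1.1.1,
      fun v hv => s.np.np v hv.1.1⟩ (fun _ _ => analyticAt_fst) (LRe.const 0 _) zero_le_one
    (fun v hv => ?_) y ⟨⟨hy, e⟩, c⟩
  · simpa using this
  rw [neg_zero, Real.exp_zero, mul_one]
  by_cases k : v ∈ bc (ech l) ⁻¹' K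
  · exact h1 v hv.1.1.1 k hv.1.1.2
  refine not_lt.1 fun d => hv.2.resolve_left k ?_
  have c1 : ContinuousAt (fun v : E => ‖v.1‖) v := by fun_prop
  have c2 : ContinuousAt (bc (ech l)) v :=
    (an_bc (ech_der s.hr (an_ne hv.1.1.1.2)).1).continuousAt
  filter_upwards [c1.eventually (Iio_mem_nhds (s.lt hv.1.1.1 k)), c1.eventually (Ioi_mem_nhds d),
    c2.eventually (s.std.cK.isOpen_compl.mem_nhds k)] with u b1 b2 b3 hu
  have b4 : u ∈ ov (Xc X l a R) (AN h h) := ⟨hu, (Real.exp_le_one_iff.2 (by linarith)).trans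
    (le_of_lt b2), (le_of_lt b1).trans (Real.exp_le_exp.2 s.ha.2)⟩
  exact ⟨⟨b4, h2 u b4 b3⟩, le_of_lt b2⟩

theorem norm_port {x : ℂ} (hx : ‖x‖ = 1) (δ : ℝ) : ‖wch x δ 0 Complex.I‖ = Real.exp (-δ) := by
  rw [norm_wch hx]; simp

theorem pc_geo {x z : ℂ} {δ : ℝ} (hx : ‖x‖ = 1) (hδ : 0 < δ) (h1 : δ ≤ 1 / 16)
    (h : pc x δ 0 z ≤ 1 / 10) :
    ‖z - x‖ ≤ 2 * δ ∧ δ / 2 ≤ -Real.log ‖z‖ ∧ -Real.log ‖z‖ ≤ 2 * δ := by
  have a1 := (wch_dist (x := x) (yr := 0) (z := Complex.I) (z' := 0) hδ (by simp; linarith)).2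
  rw [wch_zero, hx, sub_zero, Complex.norm_I] at a1
  have a2 := norm_port hx δ
  have a3 := Real.exp_pos (-δ)
  have a4 : Real.exp (-δ) ≤ 1 := Real.exp_le_one_iff.2 (by linarith)
  rw [pc, a2, div_le_iff₀ (by positivity)] at h
  have a5 := norm_sub_le_norm_sub_add_norm_sub z (wch x δ 0 Complex.I) x
  have a6 := abs_le.1 (abs_norm_sub_norm_le z (wch x δ 0 Complex.I))
  rw [a2] at a6
  have a7 : Real.exp (-(2 * δ)) ≤ ‖z‖ := by
    have b1 : Real.exp (-δ) ≤ 1 - δ / 5 := by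
      rw [Real.exp_neg, inv_le_iff_one_le_mul₀ (Real.exp_pos _)]
      nlinarith [Real.add_one_le_exp δ]
    rw [show -(2 * δ) = -δ + -δ by ring, Real.exp_add]
    nlinarith
  have a8 : ‖z‖ ≤ Real.exp (-(δ / 2)) := by
    rw [show -(δ / 2) = -δ + δ / 2 by ring, Real.exp_add]
    nlinarith [Real.add_one_le_exp (δ / 2)]
  have a9 := (Real.exp_pos _).trans_le a7
  exact ⟨by nlinarith, by linarith [(Real.log_le_iff_le_exp a9).2 a8],
    by linarith [(Real.le_log_iff_exp_le a9).2 a7]⟩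

theorem ech_sub (hk : l.k = Kind.out) (z z' : ℂ) : ech l z - ech l z' = l.r * (z - z') := by
  simp only [ech, if_pos hk]; ring

variable {W : Type} [Fintype W]

/-- chart factor with zeros at the ports -/
def chW (mu : ℂ → ℂ) (p : W → ℂ) (z : ℂ) : ℂ := mu z * ∏ i, (z - p i)

/-- the surface near a loop -/
structure RC (X K : Set E) (l : End) (mu N f : ℂ → ℂ) (p x : W → ℂ) (δ pr ρ s : W → ℝ)
    (L M8 τ a R h t t' : ℝ) (hub : Prop) (bir : W → Prop) : Prop where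
  ls : LS X K l (chW mu p) τ a R h
  num : h ≤ 1 ∧ a ≤ t ∧ t' ≤ 1 / 10 ∧ 13 ≤ L
  out : W → hub ∧ l.k = Kind.out
  hmu : ∀ z ∈ l.ann (Icc (-a) h), AnalyticAt ℂ mu z ∧ mu z ≠ 0
  win : ∀ i, ‖x i‖ = 1 ∧ 0 < δ i ∧ 64 * δ i ≤ s i ∧ s i ≤ ρ i ∧ ρ i ≤ h / 8 ∧
    (bir i → 4 * M8 * δ i ≤ t ∧ t ≤ s i ∧ 1 ≤ M8)
  hp : ∀ i, ech l (wch (x i) (δ i) 0 Complex.I) = p i ∧
    pr i ≤ 2 * l.r * δ i * Real.exp (-L + 1 / 2)
  sep : ∀ i k, i ≠ k → 2 * ρ i ≤ ‖x i - x k‖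
  k1 : ∀ y ∈ K, y.1 ∈ l.ann (Icc (-a) h) → ‖y.2 - l.w y.1‖ ≤ R →
    ((l.dep y.1 ≤ t ∧ (hub → 0 ≤ l.dep y.1)) ∨ ∃ i, ‖y.1 - p i‖ ≤ pr i * Real.exp t') ∧
      y.2 = l.w y.1 + N y.1
  k2 : ∀ z ∈ l.ann (Icc (-(2 * t)) (2 * t)), (hub → 0 ≤ l.dep z) → (z, l.w z + N z) ∈ K
  fm : ∀ z : ℂ, z ≠ 0 → |Real.log ‖z‖| ≤ 2 * t → (hub → ‖z‖ ≤ 1) →
    (∀ i, bir i → ∀ ζ : ℂ, ‖ζ‖ < M8 → z ≠ wch (x i) (δ i) 0 ζ) →
    N (ech l z) * chW mu p (ech l z) = f z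

namespace RC

variable {X K : Set E} {mu N f : ℂ → ℂ} {p x : W → ℂ} {δ pr ρ s : W → ℝ}
  {L M8 τ a R h t t' : ℝ} {hub : Prop} {bir : W → Prop}
  (c : RC X K l mu N f p x δ pr ρ s L M8 τ a R h t t' hub bir)
include c

theorem d1 (i : W) : δ i ≤ 1 / 16 ∧ ρ i ≤ 1 / 8 := by
  obtain ⟨-, a1, a2, a3, a4, -⟩ := c.win i
  constructor <;> linarith [c.num.1]

theorem ball (i : W) : closedBall (x i) (ρ i) ⊆ AN h h := fun _ hz =>
  ball_AN (c.win i).1 c.num.1 (c.win i).2.2.2.2.1 (mem_closedBall_iff_norm.1 hz)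

theorem dist (i : W) (z : ℂ) : ‖ech l z - p i‖ =
    l.r * (2 * δ i * Real.exp (-δ i)) * pc (x i) (δ i) 0 z := by
  have := (c.win i).2.1
  rw [← (c.hp i).1, ech_sub (c.out i).2, norm_mul, Complex.norm_real,
    Real.norm_of_nonneg c.ls.hr.le, pc, norm_port (c.win i).1]
  field_simp

theorem pd {i : W} {z : ℂ} (hz : ‖ech l z - p i‖ ≤ pr i * Real.exp t') :
    pc (x i) (δ i) 0 z ≤ Real.exp (-L + 7 / 10) := by
  have a1 := (c.win i).2.1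
  have a2 := c.ls.hr
  have a3 : Real.exp (-L + 1 / 2) * Real.exp t' ≤ Real.exp (-δ i) * Real.exp (-L + 7 / 10) := by
    rw [← Real.exp_add, ← Real.exp_add]
    exact Real.exp_le_exp.2 (by linarith [(c.d1 i).1, c.num.2.2.1])
  rw [c.dist] at hz
  refine le_of_mul_le_mul_left (hz.trans ((mul_le_mul_of_nonneg_right (c.hp i).2
    (Real.exp_pos _).le).trans ?_)) (by positivity)
  nlinarith [mul_pos a2 a1]

theorem far {i k : W} (e : i ≠ k) {z : ℂ} (hz : ‖z - x i‖ ≤ ρ i) : s k ≤ ‖z - x k‖ := by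
  have d1 := c.sep i k e
  have d2 := c.sep k i e.symm
  have d3 := norm_sub_le_norm_sub_add_norm_sub (x i) z (x k)
  rw [norm_sub_rev (x k)] at d2
  rw [norm_sub_rev (x i) z] at d3
  linarith [(c.win k).2.2.2.1]

theorem geo {i : W} {z : ℂ} (hz : pc (x i) (δ i) 0 z ≤ 1 / 10) :
    ‖z - x i‖ < s i ∧ δ i / 2 ≤ -Real.log ‖z‖ ∧ -Real.log ‖z‖ ≤ 2 * δ i := by
  obtain ⟨a1, a2⟩ := pc_geo (c.win i).1 (c.win i).2.1 (c.d1 i).1 hz
  exact ⟨by linarith [(c.win i).2.1, (c.win i).2.2.1], a2⟩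

theorem k1' {y : E} (hy : y ∈ ov (Xc X l a R) (AN h h)) (hk : y ∈ bc (ech l) ⁻¹' K) :
    ((|Real.log ‖y.1‖| ≤ t ∧ (hub → 0 ≤ -Real.log ‖y.1‖)) ∨
      ∃ i, ‖ech l y.1 - p i‖ ≤ pr i * Real.exp t') ∧ nu l y = N (ech l y.1) := by
  have a0 := (c.ls.mem hy).2
  obtain ⟨a1, a2⟩ := c.k1 _ hk a0 hy.1.2
  have a3 := a0.2.1
  change _ ≤ l.dep (ech l y.1) at a3
  change (l.dep (ech l y.1) ≤ t ∧ (hub → 0 ≤ l.dep (ech l y.1))) ∨ _ at a1
  rw [(ech_ne c.ls.hr (an_ne hy.2)).2] at a1 a3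
  exact ⟨a1.imp_left fun b => ⟨abs_le.2 ⟨by linarith [b.1], by linarith [c.num.2.1]⟩, b.2⟩,
    sub_eq_iff_eq_add'.2 a2⟩

theorem up (hb : hub) : ∀ y ∈ ov (Xc X l a R) (AN h h), ‖y.1‖ ≤ 1 := fun y hy =>
  c.ls.up (g := fun _ => 0) continuousOn_const (fun v hv k _ => (Real.log_nonpos_iff
    (norm_nonneg _)).1 (by
      rcases (c.k1' hv k).1 with b | ⟨i, b⟩
      · linarith [b.2 hb]
      · linarith [(c.geo (pc_small c.num.2.2.2 (c.pd b))).2.1, (c.win i).2.1]))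
    (fun _ _ _ => rfl) y hy rfl

theorem kwN {Ω : Set ℂ} (hΩ : Ω ⊆ AN h h) (h1 : ∀ z ∈ Ω, ∀ i,
    pc (x i) (δ i) 0 z ≤ Real.exp (-L + 7 / 10) → |Real.log ‖z‖| ≤ t) :
    KW (Xc X l a R) (bc (ech l) ⁻¹' K) (Vc l (chW mu p))
      (fun z => N (ech l z) * chW mu p (ech l z)) Ω t fun y => Vc l (chW mu p) y ≠ 0 := by
  intro y hy v0
  have hy' : y ∈ ov (Xc X l a R) (AN h h) := ⟨hy.1, hΩ hy.2⟩
  obtain ⟨e1, e2⟩ := ech_ne c.ls.hr (an_ne hy'.2)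
  refine ⟨fun k => ⟨(c.k1' hy' k).1.elim (·.1) fun ⟨i, b⟩ => h1 _ hy.2 i (c.pd b),
    by rw [Vc, (c.k1' hy' k).2]⟩, fun a b => ?_⟩
  have b1 : nu l y = N (ech l y.1) := mul_right_cancel₀ (right_ne_zero_of_mul v0) b
  have := c.k2 (ech l y.1) ⟨e1, by rw [e2]; exact (thin_mem (an_ne hy'.2) a).1⟩ fun hb => by
    rw [e2]; exact neg_nonneg.2 (Real.log_nonpos (norm_nonneg _) (c.up hb y hy'))
  rwa [← b1, nu, add_sub_cancel] at this

theorem bd {i : W} (hb : bir i) {ζ : ℂ} (hζ : ‖ζ‖ < M8) : ‖wch (x i) (δ i) 0 ζ - x i‖ < s i := by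
  obtain ⟨a1, a2, a3, a4, a5, a6⟩ := c.win i
  obtain ⟨b1, b2, b3⟩ := a6 hb
  have a7 : δ i * ‖ζ‖ < δ i * M8 := by gcongr
  have := (wch_dist (x := x i) (yr := 0) (z := ζ) (z' := 0) a2 (by
    rw [sub_zero]; linarith [(c.d1 i).2])).2
  rw [wch_zero, a1, sub_zero] at this
  linarith

theorem kwf {Ω : Set ℂ} (hΩ : Ω ⊆ AN h h) (h1 : ∀ z ∈ Ω, ∀ i,
    (bir i → s i ≤ ‖z - x i‖) ∧ (s i ≤ ‖z - x i‖ ∨ 1 / 10 < pc (x i) (δ i) 0 z)) :
    KW (Xc X l a R) (bc (ech l) ⁻¹' K) (Vc l (chW mu p)) f Ω t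
      fun y => Vc l (chW mu p) y ≠ 0 := by
  intro y hy v0
  obtain ⟨a1, a2⟩ := c.kwN hΩ (fun z hz i b => by
    have := pc_small c.num.2.2.2 b
    rcases (h1 z hz i).2 with d | d <;> linarith [(c.geo this).1]) y hy v0
  have a3 : |Real.log ‖y.1‖| ≤ 2 * t → N (ech l y.1) * chW mu p (ech l y.1) = f y.1 := fun b =>
    c.fm _ (an_ne (hΩ hy.2)) b (fun hb => c.up hb y ⟨hy.1, hΩ hy.2⟩) fun i d ζ e g =>
      absurd ((h1 _ hy.2 i).1 d) (by rw [g]; exact not_le.2 (c.bd d e))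
  have a4 := c.ls.ha.1.trans_le c.num.2.1
  exact ⟨fun k => ⟨(a1 k).1, (a1 k).2.trans (a3 (by linarith [(a1 k).1]))⟩,
    fun b e => a2 b (e.trans (a3 b).symm)⟩

theorem kw_ann : KW (Xc X l a R) (bc (ech l) ⁻¹' K) (Vc l (chW mu p)) f (annW h x s) t
    fun y => Vc l (chW mu p) y ≠ 0 :=
  c.kwf (fun _ hz => ⟨hz.1, hz.2.1⟩) fun _ hz i => ⟨fun _ => hz.2.2 i, Or.inl (hz.2.2 i)⟩

theorem kw_wo {i : W} (hb : ¬ bir i) : KW (Xc X l a R) (bc (ech l) ⁻¹' K) (Vc l (chW mu p)) f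
    (wo (x i) (δ i) (ρ i)) t fun y => Vc l (chW mu p) y ≠ 0 :=
  c.kwf (fun _ hz => c.ball i (mem_closedBall_iff_norm.2 hz.1)) fun z hz k => by
    by_cases e : i = k
    · subst e; exact ⟨fun d => absurd d hb, Or.inr hz.2⟩
    · exact ⟨fun _ => c.far e hz.1, Or.inl (c.far e hz.1)⟩

theorem kw_bir {i : W} (hb : bir i) : KW (Xc X l a R) (bc (ech l) ⁻¹' K) (Vc l (chW mu p))
    (fun z => N (ech l z) * chW mu p (ech l z)) (closedBall (x i) (ρ i)) t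
    fun y => Vc l (chW mu p) y ≠ 0 :=
  c.kwN (c.ball i) fun z hz k b => by
    obtain ⟨a1, a2, a3⟩ := c.geo (pc_small c.num.2.2.2 b)
    by_cases e : i = k
    · subst e
      obtain ⟨-, b1, -, -, -, b2⟩ := c.win i
      exact abs_le.2 ⟨by nlinarith [(b2 hb).1, (b2 hb).2.2], by nlinarith [(b2 hb).1, (b2 hb).2.2]⟩
    · linarith [c.far e (mem_closedBall_iff_norm.1 hz)]

open Classical in
theorem fac (i : W) (z : ℂ) : chW mu p (ech l z) = (z - wch (x i) (δ i) 0 Complex.I) *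
    (l.r * (mu (ech l z) * ∏ k ∈ Finset.univ.erase i, (ech l z - p k))) := by
  rw [chW, ← Finset.mul_prod_erase _ _ (Finset.mem_univ i), ← (c.hp i).1, ech_sub (c.out i).2]
  ring

open Classical in
theorem an_fac (i : W) {y : E} (hy : y ∈ ov (Xc X l a R) (AN h h)) : AnalyticAt ℂ
    (fun z => l.r * (mu (ech l z) * ∏ k ∈ Finset.univ.erase i, (ech l z - p k))) y.1 := by
  have := (ech_der c.ls.hr (an_ne hy.2)).1
  exact analyticAt_const.mul (((c.hmu _ (c.ls.mem hy).2).1.comp this).mul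
    (Finset.analyticAt_fun_prod _ fun k _ => this.sub analyticAt_const))

theorem port_mem (i : W) : wch (x i) (δ i) 0 Complex.I ∈ closedBall (x i) (ρ i) :=
  mem_closedBall_iff_norm.2 ((c.geo (by simp [pc])).1.le.trans (c.win i).2.2.2.1)

theorem wh (i : W) : WH (Xc X l a R) (bc (ech l) ⁻¹' K) (Vc l (chW mu p)) (x i) (δ i) (ρ i) := by
  obtain ⟨a1, a2, a3, a4, -⟩ := c.win i
  refine ⟨a1, a2, a3.trans a4, (c.d1 i).2, c.ls.np.mono isClosed_closedBall (c.ball i),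
    fun y hy => c.up (c.out i).1 y ⟨hy.1, c.ball i hy.2⟩, c.ls.an.mono (ov_mono (c.ball i)),
    fun y hy e => ?_⟩
  have b : y ∈ ov (Xc X l a R) (AN h h) := ⟨hy, c.ball i (e ▸ c.port_mem i)⟩
  exact ⟨_, (c.ls.an_nu y b).mul ((c.an_fac i b).comp analyticAt_fst),
    Eventually.of_forall fun v => by rw [Vc, c.fac i]; exact mul_left_comm _ _ _⟩

/-- in the port zone the surface is over the disc of the port -/
theorem own {i : W} (ht : t ≤ δ i / 4) {y : E} (hy : y ∈ Xc X l a R) (hk : y ∈ bc (ech l) ⁻¹' K)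
    (h1 : pc (x i) (δ i) 0 y.1 ≤ 1 / 10) :
    ‖ech l y.1 - p i‖ ≤ pr i * Real.exp t' ∧ nu l y = N (ech l y.1) := by
  obtain ⟨a1, a2, -⟩ := c.geo h1
  have a3 := a1.le.trans (c.win i).2.2.2.1
  obtain ⟨b | ⟨k, b⟩, d⟩ := c.k1' ⟨hy, c.ball i (mem_closedBall_iff_norm.2 a3)⟩ hk
  · linarith [neg_abs_le (Real.log ‖y.1‖), (c.win i).2.1, b.1]
  · by_cases e : i = k
    · exact ⟨e ▸ b, d⟩
    · linarith [c.far e a3, (c.geo (pc_small c.num.2.2.2 (c.pd b))).1]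

theorem ch_ne {y : E} (hy : y ∈ ov (Xc X l a R) (AN h h))
    (h1 : ∀ i, y.1 ≠ wch (x i) (δ i) 0 Complex.I) : chW mu p (ech l y.1) ≠ 0 :=
  mul_ne_zero (c.hmu _ (c.ls.mem hy).2).2 (Finset.prod_ne_zero_iff.2 fun i _ => by
    rw [← (c.hp i).1, ech_sub (c.out i).2]
    exact mul_ne_zero (Complex.ofReal_ne_zero.2 c.ls.hr.ne') (sub_ne_zero.2 (h1 i)))

theorem ev_pc (i : W) {ε : ℝ} (h0 : 0 < ε) :
    ∀ᶠ z in 𝓝 (wch (x i) (δ i) 0 Complex.I), pc (x i) (δ i) 0 z < ε :=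
  (show ContinuousAt (pc (x i) (δ i) 0) _ by unfold pc; fun_prop).eventually
    (Iio_mem_nhds (by simpa [pc] using h0))

/-- the formula in a birth window outside the birth disc -/
theorem bfm {i : W} (hb : bir i) {ζ : ℂ} (h1 : ‖ζ‖ ≤ ρ i / (2 * δ i)) (h2 : 0 ≤ ζ.im)
    (h3 : δ i * ζ.im ≤ 2 * t) (h4 : M8 ≤ ‖ζ‖) : N (ech l (wch (x i) (δ i) 0 ζ)) *
      chW mu p (ech l (wch (x i) (δ i) 0 ζ)) = f (wch (x i) (δ i) 0 ζ) := by
  obtain ⟨a1, a2, a3, a4, a5, a6⟩ := c.win i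
  refine c.fm _ (wch_ne (ne0 a1) _) (by rwa [abs_log_wch a1 a2, abs_of_nonneg h2]) (fun _ => by
    rw [norm_wch a1, Real.exp_le_one_iff, add_zero, neg_nonpos]; positivity) fun k b ζ' d e => ?_
  by_cases j : i = k
  · subst j
    rw [le_div_iff₀ (by positivity)] at h1
    have b1 : δ i * ‖ζ - ζ'‖ ≤ δ i * (‖ζ‖ + M8) :=
      mul_le_mul_of_nonneg_left ((norm_sub_le _ _).trans (by linarith)) a2.le
    rw [wch_inj (ne0 a1) a2 (by linarith [(a6 b).1, (a6 b).2.1, (c.d1 i).2]) e] at h4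
    linarith
  · have := c.far j (mem_closedBall_iff_norm.1 (wch_ball a1 a2 (c.d1 i).2 h1))
    rw [e] at this
    linarith [c.bd b d]

/-- the birth wall vanishes near the port -/
theorem bnear {i : W} {c0 CD y4 : ℝ} {D0 : ℂ → ℝ} (hS : Shape c0 CD M8 y4 L (x i) (δ i) 0 D0)
    (h8 : 4 ≤ M8) (h0 : N (p i) = 0) (h1 : ∀ ζ : ℂ, ‖ζ‖ < M8 → 0 ≤ ζ.im → ζ ≠ Complex.I →
      hgt L D0 ζ ≤ 0 → N (ech l (wch (x i) (δ i) 0 ζ)) *
        chW mu p (ech l (wch (x i) (δ i) 0 ζ)) = 0) :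
    ∀ᶠ z in 𝓝 (wch (x i) (δ i) 0 Complex.I), ∀ y ∈ ov (Xc X l a R) (AN h h),
      y ∈ bc (ech l) ⁻¹' K → y.1 = z → nu l y = 0 := by
  obtain ⟨a1, a2, -, a4, -⟩ := c.win i
  have hL := c.num.2.2.2
  filter_upwards [c.ev_pc i (Real.exp_pos (-L)), closedBall_mem_nhds _ (div_pos (norm_pos_iff.2
    (wch_ne (δ := δ i) (yr := 0) (ne0 a1) Complex.I)) (by norm_num : (0 : ℝ) < 12))]
    with z b1 b2 y hy k e
  rw [(c.k1' hy k).2]
  by_cases j : y.1 = wch (x i) (δ i) 0 Complex.I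
  · rw [j, (c.hp i).1, h0]
  obtain ⟨ζ, rfl, b3⟩ := wch_surj (ne0 a1) a2 _ (mem_closedBall_iff_norm.1 b2)
  have b4 := (pc_wch (yr := 0) (ne0 a1) a2 b3).1
  have b5 : Real.exp (-L) = Real.exp (-L / 2) * Real.exp (-L / 2) := by
    rw [← Real.exp_add]; congr 1; ring
  have b6 : Real.exp (-L / 2) ≤ 1 / 4 := by
    rw [neg_div, Real.exp_neg, inv_le_iff_one_le_mul₀ (Real.exp_pos _)]
    linarith [Real.add_one_le_exp (L / 2)]
  have b7 := Real.exp_pos (-L / 2)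
  have b8 : ζ ≠ Complex.I := fun g => j (by rw [e, g])
  have b9 := norm_le_norm_add_norm_sub' ζ Complex.I
  have d1 := abs_le.1 (Complex.abs_im_le_norm (ζ - Complex.I))
  rw [Complex.sub_im, Complex.I_im] at d1
  rw [Complex.norm_I] at b9
  have d2 := norm_pos_iff.2 (sub_ne_zero.2 b8)
  refine (mul_eq_zero.1 ?_).resolve_right (c.ch_ne hy fun k g => ?_)
  · rw [e]
    refine h1 ζ (by nlinarith) (by nlinarith) b8 ?_
    rw [hS.round ζ b8 (by nlinarith), add_comm, ← le_neg_iff_add_nonpos_right,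
      div_le_iff₀ (by linarith), neg_one_mul]
    exact (Real.log_le_iff_le_exp (show 0 < pc (x i) (δ i) 0 _ by linarith)).2 b1.le
  · by_cases m : i = k
    · exact j (m ▸ g)
    · have := c.far m ((c.geo (z := y.1) (by rw [e]; nlinarith)).1.le.trans a4)
      rw [g] at this
      exact absurd this (not_le.2 (c.geo (by simp [pc])).1)

/-- from the vanishing of the fibre coordinate -/
theorem zr (hN : ∀ i, ∀ᶠ z in 𝓝 (wch (x i) (δ i) 0 Complex.I),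
      ∀ y ∈ ov (Xc X l a R) (AN h h), y ∈ bc (ech l) ⁻¹' K → y.1 = z → nu l y = 0)
    (hs : ¬ hub → ∀ z ∈ l.ann (Ico (-a) 0), N z ≠ 0)
    (h0 : ∀ y ∈ ov (Xc X l a R) (AN h h), y ∉ bc (ech l) ⁻¹' K → Vc l (chW mu p) y = 0) :
    ∀ y ∈ near (X \ K) l.w τ, y.1 ∈ l.ann (Icc (-h) h) → y.2 = l.w y.1 ∧ l.side y.1 := by
  have z1 : ∀ y ∈ ov (Xc X l a R) (AN h h), y ∉ bc (ech l) ⁻¹' K →
      (∀ i, y.1 ≠ wch (x i) (δ i) 0 Complex.I) → nu l y = 0 := fun y hy k b =>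
    (mul_eq_zero.1 (h0 y hy k)).resolve_right (c.ch_ne hy b)
  have z2 : ∀ y ∈ ov (Xc X l a R) (AN h h), y ∉ bc (ech l) ⁻¹' K → nu l y = 0 := by
    intro y hy k
    by_contra d
    obtain ⟨i, e⟩ : ∃ i, y.1 = wch (x i) (δ i) 0 Complex.I := by
      by_contra g
      exact d (z1 y hy k fun i e => g ⟨i, e⟩)
    have b2 := hN i
    rw [← e] at b2
    have b3 : ∀ᶠ z in 𝓝 y.1, ‖z - x i‖ < s i :=
      (show ContinuousAt (fun z => ‖z - x i‖) y.1 by fun_prop).eventually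
        (Iio_mem_nhds (by rw [e]; exact (c.geo (by simp [pc])).1))
    obtain ⟨ε, e0, e1⟩ := nhds_basis_closedBall.eventually_iff.1 (b2.and b3)
    have b4 : closedBall y.1 ε ⊆ AN h h := fun z hz =>
      c.ball i (mem_closedBall_iff_norm.2 ((e1 hz).2.le.trans (c.win i).2.2.2.1))
    refine d (norm_le_zero_iff.1 (disc_max (c.ls.np.mono isClosed_closedBall b4)
      (c.ls.an_nu.mono (ov_mono b4)) le_rfl (fun v hv g => ?_) (fun v hv g f => ?_) y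
      ⟨hy.1, mem_closedBall_self e0.le⟩))
    · rw [(e1 hv.2).1 v ⟨hv.1, b4 hv.2⟩ g rfl, norm_zero]
    · have m := mem_closedBall_iff_norm.2 f.le
      rw [z1 v ⟨hv, b4 m⟩ g fun k b => ?_, norm_zero]
      by_cases j : i = k
      · rw [b, e, j, sub_self, norm_zero] at f
        exact e0.ne f
      · have := c.far j ((e1 m).2.le.trans (c.win i).2.2.2.1)
        rw [b] at this
        exact absurd this (not_le.2 (c.geo (by simp [pc])).1)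
  intro y hy hz
  obtain ⟨-, v, hv, rfl⟩ := c.ls.lift hy hz
  have b1 : ‖v.1‖ ≤ 1 := by
    by_cases hb : hub
    · exact c.up hb v hv
    refine c.ls.up c.ls.an_nu.continuousOn (fun u hu k e => not_lt.1 fun g => ?_) z2 v hv
      (z2 v hv hy.1.2)
    have a0 := (c.ls.mem hu).2
    refine hs hb _ ⟨a0.1, a0.2.1, ?_⟩ ((c.k1' hu k).2.symm.trans e)
    rw [(ech_ne c.ls.hr (an_ne hu.2)).2]
    exact neg_lt_zero.2 (Real.log_pos g)
  refine ⟨sub_eq_zero.1 (z2 v hv hy.1.2), fun e => ?_, fun e => ?_⟩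
  · change ‖ech l v.1 - l.c‖ ≤ _
    rw [ech, if_pos e, add_sub_cancel_left, norm_mul, Complex.norm_real,
      Real.norm_of_nonneg c.ls.hr.le]
    exact mul_le_of_le_one_right c.ls.hr.le b1
  · change _ ≤ ‖ech l v.1 - l.c‖
    rw [ech, if_neg (by simp [e]), add_sub_cancel_left, norm_div, Complex.norm_real,
      Real.norm_of_nonneg c.ls.hr.le]
    exact le_div_self c.ls.hr.le (norm_pos_iff.2 (an_ne hv.2)) b1

end RC

end Pool.Agent.S6.ENDS
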