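import Pool.Agent.Lib.S6.Blue

/-!
Section 6 of the project 9ccfb7: statement of the certificate of the split.
-/

open Set Filter Topology Metric

noncomputable section

namespace Pool.Agent.S6

open Pool.Agent.CF (End Kind IsCurve Geo)
open Pool.Agent.Lib

/-- the fibre function of the split, with the roots `0` (old curve) and `e` (new curve) -/
def sV (C K G q : E → ℂ) (y : E) : ℂ := G y * K y * C y / q y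

/-- the size function at the ends of the old curve -/
def sP (C K G q : E → ℂ) (e : ℝ) (y : E) : ℝ := ‖SH.pp e (sV C K G q y)‖

/-- the weight: `|A C / G| = sP * |q ^ 2 / (G ^ 2 K)|` -/
def sF (K G q : E → ℂ) (l : End) (z : ℂ) : ℝ :=
  Real.log ‖l.res (fun y => q y ^ 2 / (G y ^ 2 * K y)) z‖

/-- what the certificate of the split needs at an end `l` of the old curve; `D = X \ L`, and `Y`
is the union of the two new curves -/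
structure SiteOK (C K G q : E → ℂ) (l : End) (D Y : Set E)
    (e τ h r1 r2 Cu Λ0 κ κ1 κ0 θ θ1 Dp : ℝ) : Prop where
  b1 : EP l D (sP C K G q e) τ h r1 r2 Cu Λ0 κ (θ * e ^ 2)
  b2 : (∀ y ∈ SH.near D l.w τ, y.1 ∈ cc l h r1 → sP C K G q e y ≤ θ1 * e ^ 2) →
    ∀ thr > 0, (∀ y ∈ SH.near D l.w τ, y.1 ∈ cc l h r1 → sP C K G q e y ≤ Dp * thr) →
      EP l {y | y ∈ D ∧ ‖sV C K G q y - e‖ ≤ e / 2} (sP C K G q e) τ h r1 r2 Cu Λ0 κ1 thr ∧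
      EP l {y | y ∈ D ∧ ‖sV C K G q y‖ ≤ e / 2} (sP C K G q e) τ h r1 r2 Cu Λ0 κ0 thr
  zr : (∀ y ∈ SH.near D l.w τ, y.1 ∈ cc l h r1 → sP C K G q e y = 0) →
    ∀ y ∈ SH.near D l.w τ, y.1 ∈ l.near h r1 → y ∈ Y

/-- the same ends and constants with new sheets -/
def Sp.setW {J : Type} (sp : Sp J) (w : J → ℂ → ℂ) : Sp J :=
  { sp with l := fun j => (sp.l j).setW (w j) }

/-- The certificate of the split. `G0`, `q0` are the limits of `G`, `q`; all constants up to `θ`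
and `η` are chosen before `G`, `q`; `S` is the old surface. -/
def St_CERTB : Prop := ∀ (J J' : Type) [Fintype J] [Fintype J'] (C K G0 q0 : E → ℂ) (Γ Γ' : Set E)
  (l : J → End) (Sig Sig' : Finset ℂ) (h r1 c Λw : ℝ) (k kK κ κ1 κ0 : J → ℝ) (sp : Sp J'),
  IsCurve C Γ l → Geo C Γ l Sig r1 h → Geom K Γ' sp Sig' → Continuous G0 → Continuous q0 →
  (∀ y ∈ Γ, K y = 0 → y ∈ Γ' ∧ y.1 ∈ Sig ∧ y.1 ∈ Sig' ∧ q0 y ≠ 0) →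
  (∀ y ∈ Γ', C y = 0 → y ∈ Γ) →
  (∀ y ∈ Γ, (G0 y = 0 → y ∈ CF.ends l) ∧ (q0 y = 0 → y.1 ∈ Sig ∨ y ∈ CF.ends l)) → 0 ≤ c →
  (∀ j, LW (l j) h r1 (fun z => Real.log ‖(l j).res K z‖) (kK j) Λw) →
  ∑ j, (κ j + k j) ≤ -1 / 4 → ∑ j, (κ1 j + k j - c * kK j) ≤ -1 / 4 →
  ∑ j, (κ0 j + k j) ≤ -1 / 4 → (∀ j, sp.om j = (sp.l j).res (CF.dw K)) →
  PFit Γ' sp.l Sig' sp.h sp.r1 sp.r2 1 (fun j z => 2 * Real.log ‖(sp.l j).res C z‖) sp.κ sp.Cu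
    sp.Λ0 0 →
  PFit Γ' sp.l Sig' sp.h sp.r1 sp.r2 1 (fun j z => (2 + c) * Real.log ‖(sp.l j).res C z‖) sp.κ
    sp.Cu sp.Λ0 0 →
  ∃ Dp ≥ (1 : ℝ), ∀ Cu : ℝ, ∃ Λ1 ≥ (0 : ℝ), ∃ r20 > (0 : ℝ), ∀ Λ0 ≥ Λ1, ∀ r2, 0 < r2 → r2 ≤ r20 →
  ∀ θ1 > (0 : ℝ), ∃ θ > (0 : ℝ), ∃ η > (0 : ℝ), ∀ G q : E → ℂ, CF.IsPoly G → CF.IsPoly q →
    (∀ y ∈ Γ, ‖G y - G0 y‖ ≤ η ∧ ‖q y - q0 y‖ ≤ η) → (∀ y ∈ Γ', G y ≠ 0) →
    (∀ y ∈ Γ, G y = 0 → ∃ j, y ∈ (l j).gr ((l j).near h r1)) →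
    (∀ j, LW (l j) h r1 (sF K G q (l j)) (k j) Λw) →
    ∀ S : Set E, IsCompact S →
    (∀ y ∈ S, y ∈ Γ → ∃ j, y ∈ (l j).gr ((l j).nearO (h / 16) r2)) →
    (∀ y ∈ S, y ∈ Γ' → ∃ j, y ∈ (sp.l j).gr ((sp.l j).nearO (sp.h / 16) sp.r2)) →
    ∃ τ0 > (0 : ℝ), ∀ τ τ' : ℝ, 0 < τ → τ ≤ τ0 → 0 < τ' → τ' ≤ τ0 → ∃ R > (0 : ℝ),
    ∀ (e : ℝ) (w : J' → ℂ → ℂ) (A X L : Set E), 0 < e → e ≤ R →
      (∀ j, ∀ z ∈ (sp.l j).near sp.h sp.r1, ‖w j z - (sp.l j).w z‖ ≤ R ∧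
        SH.pA C K G q e (z, w j z) = 0 ∧ ((sp.l j).side z → (z, w j z) ∈ A)) →
      Std X L → L ⊆ cthickening R S → X \ L ⊆ cthickening R (Γ ∪ Γ') →
      (∀ y ∈ X, y ∉ L → SH.pA C K G q e y = 0 → y ∈ A ∨
        (∃ j, y.1 ∈ (l j).near h r1 ∧ ‖y.2 - (l j).w y.1‖ ≤ τ) ∨ ∃ j, y ∈ (sp.setW w).T τ' j) →
      (∀ j, SiteOK C K G q (l j) (X \ L) (A ∪ Γ) e τ h r1 r2 Cu Λ0 (κ j) (κ1 j) (κ0 j) θ θ1 Dp) →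
      (∀ j, (sp.setW w).End1 (X \ L) τ' j) → X ⊆ L ∪ (A ∪ Γ)

end Pool.Agent.S6
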