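import Pool.Agent.Lib.S6.PFit
import Pool.Agent.Lib.S6.BlueB
import Pool.Agent.Lib.S6.B_PCS
import Pool.Agent.Lib.SH.Fin2

/-!
Tools for the certificates: change of the tube, isolation of the sheets, comparison of sizes.
-/

open Set Filter Topology Metric

noncomputable section

namespace Pool.Agent.S6

open Pool.Agent.CF (End Kind IsCurve Geo SLH tube core reg dw pen)
open Pool.Agent.Lib

theorem Std.lm {X L : Set E} (h : Std X L) : HULL.LM X L univ :=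
  ⟨isOpen_univ, fun _ _ k => h.cX.isClosed.closure_subset k,
    fun y a _ b => SH.BRIDGE.noPeak_iff.2 (h.np y a b)⟩

/-- the end property sees only the points in the tube over the collar -/
theorem EP.congr {l : End} (ho : l.ok) {w : ℂ → ℂ} {D D' : Set E} {φ : E → ℝ}
    {τ τ' h r1 r2 Cu Λ0 κ thr : ℝ} (h0 : 0 < h) (hr : r2 ≤ r1)
    (H : ∀ y : E, y.1 ∈ col l h r1 r2 → (y ∈ SH.near D l.w τ ↔ y ∈ SH.near D' w τ'))
    (hE : EP (l.setW w) D' φ τ' h r1 r2 Cu Λ0 κ thr) : EP l D φ τ h r1 r2 Cu Λ0 κ thr := by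
  intro lv a b
  refine ⟨fun hk B Λ c d => ?_, fun T y c d => (hE lv a b).2 (fun u e f =>
    T u ((H u (PF.cc_col h0.le hr f)).2 e) f) y ((H y d).1 c) d⟩
  have m : ∀ s, h / 16 ≤ s → s ≤ h → ∀ z ∈ sphere l.c (l.rad s), z ∈ col l h r1 r2 :=
    fun s s1 s2 z hz => by
      rw [col, if_neg hk]; exact End.sphere_subset_ann (ho.pos hk) (mem_Icc.2 ⟨s1, s2⟩) hz
  obtain ⟨Λ1, S⟩ := (hE lv a b).1 hk B Λ c d
  refine ⟨Λ1, fun s hs f a1 a2 a3 a4 => ?_⟩
  obtain ⟨Bd, d1, d2, d3, d4⟩ := S s hs f a1 a2 a3 fun x x1 x2 x3 => by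
    have := (H x (m s (by linarith [hs.1]) (by linarith [hs.2]) _ x2)).2 ⟨x1, x3⟩
    exact a4 x this.1 x2 this.2
  refine ⟨Bd, d1, d2, fun x x1 x2 x3 => ?_, d4⟩
  have := (H x (m _ (by linarith [hs.1]) (by linarith [hs.2]) _ x2)).1 ⟨x1, x3⟩
  exact d3 x this.1 x2 this.2

theorem col_near {l : End} {h r1 r2 : ℝ} (h0 : 0 ≤ h) : col l h r1 r2 ⊆ l.near h r1 := by
  unfold col End.near
  split_ifs
  · exact fun z hz => mem_closedBall_iff_norm.2 hz.2
  · exact End.ann_mono (Icc_subset_Icc_left (by linarith))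

section
variable {J : Type} {P : E → ℂ} {Γ Γ' : Set E} {l : J → End} {Sig : Finset ℂ} {r1 h r2 : ℝ}

theorem near_two (hg : Geo P Γ l Sig r1 h) (j : J) :
    (l j).near h r1 ⊆ (l j).near (2 * h) (2 * r1) :=
  (l j).near_mono (by linarith [hg.hpos]) (by linarith [hg.r1pos])

/-- the sheet over the collar lies in the large core -/
theorem col_core (hc : IsCurve P Γ l) (hg : Geo P Γ l Sig r1 h) (hr : r2 ≤ r1) (j : J) {z : ℂ}
    (hz : z ∈ col (l j) h r1 r2) : (z, (l j).w z) ∈ core Γ l Sig r2 (h / 16) := by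
  have p1 := hg.hpos
  have p2 := hg.r1pos
  have m := near_two hg j (col_near p1.le hz)
  refine ⟨(hg.mem j m).2 ?_, fun b hb => by linarith [hg.sig j z m b hb], fun i hi => ?_⟩
  · by_cases hk : (l j).k = Kind.pt
    · exact End.side_pt hk z
    · rw [col, if_neg hk] at hz
      exact (End.side_iff hk ((hc.ok j).pos hk) hz.1).2 (by linarith [hz.2.1])
  · by_cases hij : i = j
    · subst hij
      have := hi.1
      unfold col End.nearO at *
      split_ifs at *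
      · exact absurd (mem_ball_iff_norm.1 this) (not_lt.2 hz.1)
      · exact absurd this.2.2 (not_lt.2 hz.2.1)
    · exact disjoint_left.1 (hg.disj hij) (End.gr_mono _ ((l i).nearO_subset_near
        (by linarith) (by linarith)) hi) ⟨m, rfl⟩

theorem cc_core (hc : IsCurve P Γ l) (hg : Geo P Γ l Sig r1 h) (j : J) {z : ℂ}
    (hz : z ∈ cc (l j) h r1) : (z, (l j).w z) ∈ core Γ l Sig r1 h := by
  unfold cc at hz
  split_ifs at hz with hk
  · exact SH.core_pt hg hk (mem_sphere_iff_norm.1 hz)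
  · exact SH.core_loop hc hg hk hz

/-- a point of the zone of an end, on the curve side and outside the inner zone, is in the
collar -/
theorem mem_col {l : End} (ho : l.ok) {z : ℂ} (h1 : z ∈ l.near h r1) (h2 : l.side z)
    (h3 : z ∉ l.near (h / 16) r2) : z ∈ col l h r1 r2 := by
  unfold col End.near at *
  split_ifs at * with hk
  · exact ⟨(not_le.1 (mem_closedBall_iff_norm.not.1 h3)).le, mem_closedBall_iff_norm.1 h1⟩
  · have := (End.side_iff hk (ho.pos hk) h1.1).1 h2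
    refine ⟨h1.1, ?_, h1.2.2⟩
    by_contra c
    exact h3 ⟨h1.1, by linarith, by linarith⟩

/-- isolation of the sheets -/
theorem iso [Finite J] (hc : IsCurve P Γ l) (hg : Geo P Γ l Sig r1 h) (hΓ' : IsCompact Γ')
    (hS : ∀ y ∈ Γ', P y = 0 → y.1 ∈ Sig) : ∃ τ0 > (0 : ℝ),
    (∀ j, ∀ y ∈ Γ ∪ Γ', y.1 ∈ (l j).near h r1 → ‖y.2 - (l j).w y.1‖ ≤ τ0 →
      y.2 = (l j).w y.1 ∧ (l j).side y.1 ∧ y ∉ Γ') ∧
    ∀ s > (0 : ℝ), ∃ R > (0 : ℝ), ∀ j, ∀ y ∈ cthickening R (Γ ∪ Γ'), y.1 ∈ (l j).near h r1 →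
      ‖y.2 - (l j).w y.1‖ ≤ τ0 → ‖y.2 - (l j).w y.1‖ < s := by
  have cn := fun j => End.isCompact_near (hc.ok j) h r1
  have cw := fun j => ((hg.wan j).mono (near_two hg j)).continuousOn
  have key : ∀ j, ∀ᶠ ε in 𝓝[>] (0 : ℝ), ∀ y ∈ Γ ∪ Γ', y.1 ∈ (l j).near h r1 →
      ‖y.2 - (l j).w y.1‖ ≤ ε → y.2 = (l j).w y.1 ∧ (l j).side y.1 ∧ y ∉ Γ' := fun j => by
    have hev : ∀ᶠ y in 𝓝ˢ ((l j).gr ((l j).near h r1)),
        y ∈ Γ ∪ Γ' → y.2 = (l j).w y.1 ∧ (l j).side y.1 ∧ y ∉ Γ' := by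
      refine eventually_nhdsSet_iff_forall.2 ?_
      rintro ⟨z, v⟩ ⟨y1, y2⟩
      obtain rfl : v = (l j).w z := y2
      have a2 : (z, (l j).w z) ∉ Γ' := fun k => by
        have := hg.sig j z (near_two hg j y1) z (hS _ k (hg.wz j z (near_two hg j y1)).1)
        rw [sub_self, norm_zero] at this
        linarith [hg.r1pos]
      filter_upwards [hg.loc j z (near_two hg j y1), hΓ'.isClosed.isOpen_compl.mem_nhds a2]
        with y b1 b2 b3 using ⟨(b1.1 (b3.resolve_right b2)).1, (b1.1 (b3.resolve_right b2)).2, b2⟩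
    obtain ⟨U, hU, h1, h2⟩ := mem_nhdsSet_iff_exists.1 hev
    obtain ⟨ε, hε, h3⟩ := SH.tube_sub (End.isCompact_gr (cn j) (cw j)) hU h1
    filter_upwards [mem_nhdsWithin_of_mem_nhds (Iic_mem_nhds hε)] with t ht y a b c
      using h2 (h3 (CF.mem_tube_gr.2 ⟨b, c.trans ht⟩)) a
  obtain ⟨τ0, k1, k2⟩ := ((eventually_all.2 key).and self_mem_nhdsWithin).exists
  refine ⟨τ0, k2, k1, fun s hs => ?_⟩
  have k3 : ∀ j, ∀ᶠ R in 𝓝[>] (0 : ℝ), ∀ y ∈ cthickening R (Γ ∪ Γ'), y.1 ∈ (l j).near h r1 →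
      ‖y.2 - (l j).w y.1‖ ≤ τ0 → ‖y.2 - (l j).w y.1‖ < s := fun j => by
    obtain ⟨η, a, b⟩ := st_near _ _ _ τ0 univ (hc.cpt.union hΓ') (cn j).isClosed (cw j)
      isOpen_univ (fun y c d e => ⟨(k1 j y c d e).1, trivial⟩) s hs
    filter_upwards [mem_nhdsWithin_of_mem_nhds (Iic_mem_nhds a)] with t ht y c d e
      using (b y (cthickening_mono ht _ c) d e).1
  obtain ⟨R, k4, k5⟩ := ((eventually_all.2 k3).and self_mem_nhdsWithin).exists
  exact ⟨R, k5, k4⟩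

end

/-- equality up to the factor `exp t` -/
def Cl (t a b : ℝ) : Prop := 0 ≤ a ∧ 0 ≤ b ∧ a ≤ Real.exp t * b ∧ b ≤ Real.exp t * a

namespace Cl

variable {t s a b a' b' : ℝ}

theorem refl (ha : 0 ≤ a) : Cl 0 a a := ⟨ha, ha, by simp, by simp⟩

theorem mono (h : Cl t a b) (hs : t ≤ s) : Cl s a b :=
  ⟨h.1, h.2.1, h.2.2.1.trans (mul_le_mul_of_nonneg_right (Real.exp_le_exp.2 hs) h.2.1),
    h.2.2.2.trans (mul_le_mul_of_nonneg_right (Real.exp_le_exp.2 hs) h.1)⟩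

theorem mul (h : Cl t a b) (h' : Cl s a' b') : Cl (t + s) (a * a') (b * b') := by
  obtain ⟨a1, a2, a3, a4⟩ := h
  obtain ⟨b1, b2, b3, b4⟩ := h'
  refine ⟨by positivity, by positivity, ?_, ?_⟩ <;> rw [Real.exp_add, mul_mul_mul_comm] <;> gcongr

theorem rpow (h : Cl t a b) {c : ℝ} (hc : 0 ≤ c) : Cl (t * c) (a ^ c) (b ^ c) := by
  obtain ⟨a1, a2, a3, a4⟩ := h
  refine ⟨by positivity, by positivity, ?_, ?_⟩ <;>
    rw [Real.exp_mul, ← Real.mul_rpow (Real.exp_pos t).le (by assumption)] <;> gcongr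

theorem inv (h : Cl t a b) (ha : 0 < a) (hb : 0 < b) : Cl t a⁻¹ b⁻¹ := by
  obtain ⟨a1, a2, a3, a4⟩ := h
  refine ⟨by positivity, by positivity, ?_, ?_⟩ <;>
    rw [← div_eq_mul_inv, le_div_iff₀ (by assumption), inv_mul_le_iff₀ (by assumption)] <;> linarith

theorem of_sub {u v : ℂ} (ht : 0 < t) (h : ‖u - v‖ ≤ (1 - Real.exp (-t)) * ‖v‖) :
    Cl t ‖u‖ ‖v‖ := by
  have a1 := abs_le.1 ((abs_norm_sub_norm_le u v).trans h)
  have a2 : Real.exp t * Real.exp (-t) = 1 := by rw [← Real.exp_add]; simp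
  have a3 := Real.add_one_le_exp t
  have a4 := Real.add_one_le_exp (-t)
  have a5 := norm_nonneg v
  refine ⟨norm_nonneg _, a5, by nlinarith, ?_⟩
  have := mul_le_mul_of_nonneg_left (show Real.exp (-t) * ‖v‖ ≤ ‖u‖ by linarith)
    (Real.exp_pos t).le
  rwa [← mul_assoc, a2, one_mul] at this

end Cl

theorem unif {A : Set E} (hA : IsCompact A) {H H' N : E → ℂ} (c1 : Continuous H)
    (c2 : Continuous H') (c3 : Continuous N) (h0 : ∀ y ∈ A, N y ≠ 0) {s : ℝ} (hs : 0 < s) :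
    ∃ R > (0 : ℝ), ∀ y ∈ A, ∀ e u : ℂ, ‖e‖ ≤ R → ‖u - y.2‖ ≤ R →
      ‖H (y.1, u) - e * H' (y.1, u) - H y‖ ≤ s * ‖N y‖ := by
  have : ∀ᶠ p in 𝓝 ((0, 0) : ℂ × ℂ), ∀ y ∈ A,
      ‖H (y.1, y.2 + p.2) - p.1 * H' (y.1, y.2 + p.2) - H y‖ < s * ‖N y‖ :=
    hA.eventually_forall_of_forall_eventually fun y hy =>
      ContinuousAt.eventually_lt (by fun_prop) (by fun_prop)
        (by simpa using mul_pos hs (norm_pos_iff.2 (h0 y hy)))
  obtain ⟨R, a, b⟩ := Metric.eventually_nhds_iff_ball.1 this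
  refine ⟨R / 2, half_pos a, fun y hy e u c d => ?_⟩
  have := b (e, u - y.2) (by
    rw [mem_ball, Prod.dist_eq, dist_zero_right, dist_zero_right]
    exact max_lt (by linarith) (by linarith)) y hy
  simpa using this.le

/-- a function without zeros on `A` is nearly constant on the fibre discs -/
theorem ratio {A : Set E} (hA : IsCompact A) {H : E → ℂ} (c1 : Continuous H)
    (h0 : ∀ y ∈ A, H y ≠ 0) {t : ℝ} (ht : 0 < t) :
    ∃ R > (0 : ℝ), ∀ y ∈ A, ∀ u : ℂ, ‖u - y.2‖ ≤ R → Cl t ‖H (y.1, u)‖ ‖H y‖ := by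
  obtain ⟨R, a, b⟩ := unif hA c1 c1 c1 h0 (s := 1 - Real.exp (-t))
    (sub_pos.2 (Real.exp_lt_one_iff.2 (by linarith)))
  exact ⟨R, a, fun y hy u c => Cl.of_sub ht (by simpa using b y hy 0 u (by simpa using a.le) c)⟩

/-- the size of `F - e q` near a simple root `v` -/
theorem cmp {A : Set E} (hA : IsCompact A) {F q : E → ℂ} (hF : CF.IsPoly F) (hq : CF.IsPoly q)
    (h0 : ∀ y ∈ A, dw F y ≠ 0) {t : ℝ} (ht : 0 < t) :
    ∃ R > (0 : ℝ), ∀ y ∈ A, ∀ e u v : ℂ, ‖e‖ ≤ R → ‖u - y.2‖ ≤ R → ‖v - y.2‖ ≤ R →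
      pen F q e (y.1, v) = 0 → Cl t ‖pen F q e (y.1, u)‖ (‖u - v‖ * ‖dw F y‖) := by
  obtain ⟨R, a, b⟩ := unif hA hF.dw.continuous hq.dw.continuous hF.dw.continuous h0
    (s := 1 - Real.exp (-t)) (sub_pos.2 (Real.exp_lt_one_iff.2 (by linarith)))
  refine ⟨R, a, fun y hy e u v c d f g => ?_⟩
  rw [← norm_mul]
  refine Cl.of_sub ht ?_
  have := (convex_closedBall y.2 R).norm_image_sub_le_of_norm_hasDerivWithin_le
    (f := fun x => pen F q e (y.1, x) - x * dw F y)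
    (f' := fun x => dw F (y.1, x) - e * dw q (y.1, x) - dw F y) (fun x _ => by
      rw [CF.dw_eq (hF.differentiableAt (y.1, x)), CF.dw_eq (hq.differentiableAt (y.1, x))]
      exact ((((CF.hasDerivAt_dw (hF.differentiableAt (y.1, x))).sub
        ((CF.hasDerivAt_dw (hq.differentiableAt (y.1, x))).const_mul e))).sub
        (by simpa using (hasDerivAt_id x).mul_const (dw F y))).hasDerivWithinAt)
    (fun x hx => b y hy e x c (mem_closedBall_iff_norm.1 hx)) (mem_closedBall_iff_norm.2 f)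
    (mem_closedBall_iff_norm.2 d)
  rw [g, show pen F q e (y.1, u) - u * dw F y - (0 - v * dw F y) =
    pen F q e (y.1, u) - (u - v) * dw F y by ring] at this
  rw [norm_mul]
  linarith

end Pool.Agent.S6
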