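import Pool.Agent.Lib.S6.Site2
import Pool.Agent.Lib.S6.Part
import Pool.Agent.Lib.S6.Ends3

/-!
The end properties at a loop after the split.
-/

open Set Filter Topology Metric

noncomputable section

namespace Pool.Agent.S6

open Pool.Agent.CF (End Kind)
open Pool.Agent.Lib Pool.Agent.Lib.SH Pool.Agent.Lib.SH.Ring ENDS

namespace RING

theorem ep_tr {l : End} {D D' : Set E} {φ : E → ℝ} {τ h r1 r2 Cu Λ0 κ thr : ℝ}
    (hk : l.k ≠ Kind.pt) (hr : 0 < l.r) (h0 : 0 < h)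
    (H : ∀ y : E, y.1 ∈ l.ann (Icc (-h) h) → (y ∈ near D l.w τ ↔ y ∈ near D' l.w τ))
    (hE : EP l D' φ τ h r1 r2 Cu Λ0 κ thr) : EP l D φ τ h r1 r2 Cu Λ0 κ thr := by
  have e : ∀ D r1 r2, EP l D φ τ h r1 r2 Cu Λ0 κ thr ↔ EP l D φ τ h 0 0 Cu Λ0 κ thr :=
    fun D r1 r2 => by simp only [EP, cc, col, if_neg hk]
  exact (e _ _ _).2 (EP.congr (w := l.w) (by rwa [End.ok, if_neg hk]) h0 le_rfl (fun y hy => H y
    (End.ann_mono (Icc_subset_Icc (a₁ := h / 16) (by linarith) le_rfl)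
      (by rwa [col, if_neg hk] at hy)))
    ((e _ _ _).1 hE))

theorem exists_sepd {W : Type} [Finite W] {x : W → ℂ} (hx : Function.Injective x)
    (h1 : ∀ k, ‖x k‖ = 1) {h : ℝ} (h0 : 0 < h) : ∃ ρ > (0 : ℝ), ρ ≤ h ∧ Sepd x ρ := by
  classical
  obtain ⟨o, a, b⟩ := pos_inf (p := fun (k : W × W) o => k.1 ≠ k.2 → 2 * o ≤ ‖x k.1 - x k.2‖)
    fun k => by
      by_cases e : k.1 = k.2
      · exact ⟨1, one_pos, fun d => absurd e d⟩
      · exact ⟨‖x k.1 - x k.2‖ / 2, half_pos (norm_pos_iff.2 (sub_ne_zero.2 (hx.ne e))),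
          fun _ => by linarith⟩
  refine ⟨min o h, lt_min a h0, min_le_right _ _, h1, fun k k' e => ?_⟩
  obtain ⟨_, c, d⟩ := b (k, k')
  linarith [d e, min_le_left o h]

variable {D : Set E} {V : E → ℂ} {e ρ β M M' s0 s0' θw : ℝ} {x : ℂ} {Q : E → Prop}

theorem wn_mono (h : WN D V e x ρ β M s0 Q) (h0 : 0 < M) (h1 : M ≤ M') (h2 : s0 ≤ s0')
    (hρ : 0 ≤ ρ) (hs : 0 ≤ s0) : WN D V e x ρ β M' s0' Q := by
  have a : ρ / M' ≤ ρ / M := by gcongr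
  exact ⟨fun T b => gp_mono (h.act T b) (by positivity) (by gcongr) h2 hρ (by positivity) hs,
    gp_mono h.neu h0 h1 h2 hρ le_rfl hs,
    fun b y hy c => h.zero (fun v hv d => b v hv (a.trans d)) y hy (c.trans a)⟩

theorem wt_mono (h : WT D V e x ρ M θw s0 Q) (h0 : 0 < M) (h1 : M ≤ M') (h2 : s0 ≤ s0')
    (hρ : 0 ≤ ρ) (hs : 0 ≤ s0) : WT D V e x ρ M' θw s0' Q := by
  have a : ρ / M' ≤ ρ / M := by gcongr
  exact ⟨gp_mono h.neu h0 h1 h2 hρ le_rfl hs, fun b => gp_mono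
      (h.act fun v hv d => b v hv (a.trans d)) h0 h1 h2 (by positivity) le_rfl hs,
    fun b y hy c => h.zero (fun v hv d => b v hv (a.trans d)) y hy (c.trans a)⟩

theorem hq_far {l : End} (hk : l.k = Kind.out) (hr : 0 < l.r) {x z : ℂ} (hx : ‖x‖ = 1)
    {s t δ : ℝ} (h1 : |s| + |t| ≤ 3 * δ) (h2 : δ ≤ 1 / 8) (hz : 100 * δ ≤ ‖z - x‖) :
    l.r * (94 * δ) ≤ ‖ech l z - hq l x s t‖ := by
  have a1 : ‖(-s + t * Complex.I : ℂ)‖ ≤ 3 * δ := (norm_add_le _ _).trans (by simpa using h1)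
  have a2 := Complex.norm_exp_sub_one_le (a1.trans (by linarith))
  have a3 : ech l z - hq l x s t = l.r * (z - x - x * (Complex.exp (-s + t * Complex.I) - 1)) := by
    rw [ech, if_pos hk, hq]; ring
  have a4 := norm_sub_norm_le (z - x) (x * (Complex.exp (-s + t * Complex.I) - 1))
  rw [norm_mul, hx] at a4
  rw [a3, norm_mul, Complex.norm_real, Real.norm_of_nonneg hr.le]
  exact mul_le_mul_of_nonneg_left (by linarith) hr.le

variable {s : SD} {l : End} {one : Prop} {L h τ a δ : ℝ} {π π' : Type} [Fintype π] {x : π → ℂ}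
  {x' : π' → ℂ} {lm Tw : ℂ → ℂ} {E1 T : ℝ → ℝ} {X K : Set E}

/-- cutting the hull below the loop -/
theorem cut (r : s.Ring l one L h τ a x δ x' lm Tw E1 T X K) (ha : a ≤ h) : ∃ X' K' : Set E,
    s.Ring l one L h τ a x δ x' lm Tw E1 T X' K' ∧ s.Cut l h a X' ∧ ∀ y : E,
      y.1 ∈ l.ann (Icc (-h) h) → (y ∈ near (X \ K) s.w τ ↔ y ∈ near (X' \ K') s.w τ) := by
  have hr := r.wall.lk.2.1
  have a0 := r.num'.1
  have c1 : IsClosed (Prod.fst ⁻¹' l.ann (Icc (-(2 * h)) (-a)) : Set E) :=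
    (End.isCompact_ann hr isCompact_Icc).isClosed.preimage continuous_fst
  refine ⟨X \ Prod.fst ⁻¹' l.ann (Ioo (-(2 * h)) (-a)), K ∪ Prod.fst ⁻¹' l.ann (Icc (-(2 * h)) (-a)),
    { r with
      std := ⟨r.std.cX.diff ((End.isOpen_ann hr isOpen_Ioo).preimage continuous_fst),
        r.std.cK.union c1, fun y hy k ⟨G, g1, g2⟩ => r.std.np y hy.1 (fun b => k (Or.inl b))
          ⟨G, g1, ?_⟩⟩
      tube := fun y hy k => r.tube y ⟨hy.1.1, hy.2⟩ fun b => k (Or.inl b)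
      kd1 := fun y hy k hz => r.kd1 y ⟨hy.1.1, hy.2⟩ (by_contra fun b => ?_) hz
      kd2 := fun z hz => Or.inl (r.kd2 z hz)
      mem := fun z hz => ⟨r.mem z hz, fun b => ?_⟩ }, fun y hy hz => not_lt.1 fun b =>
        hy.1.2 ⟨hz.1, by linarith [hz.2.1], b⟩, fun y hz => ⟨fun hy => ?_, fun hy =>
          ⟨⟨hy.1.1.1, fun b => hy.1.2 (Or.inl b)⟩, hy.2⟩⟩⟩
  · filter_upwards [g2, c1.isOpen_compl.mem_nhds fun b => k (Or.inr b)] with v b1 b2 hv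
    exact b1 ⟨hv, fun b => b2 (End.ann_mono Ioo_subset_Icc_self b)⟩
  · linarith [(r.tube y ⟨hy.1.1, hy.2.trans r.num'.2.2.1⟩ b (End.ann_mono (Icc_subset_Icc
      (by linarith) le_rfl) hz)).2, (k.resolve_left b).2.2]
  · linarith [b.2.2, hz.1.2.1, r.num.y2.1]
  · have := (r.tube y ⟨hy.1.1, hy.2⟩ hy.1.2 hz).2
    exact ⟨⟨⟨hy.1.1, fun b => by linarith [b.2.2]⟩, fun b => b.elim hy.1.2 fun b => by
      linarith [b.2.2]⟩, hy.2⟩

/-- the zeros of the two root function away from the windows -/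
theorem on_of (r : s.Ring l one L h τ a x δ x' lm Tw E1 T X K) (ho : s.o < 1) (hL : 0 ≤ L)
    (hx : ∀ k, ‖x k‖ = 1) (hδ : δ ≤ 1 / 8) {v : E} (h1 : ech l v.1 ∈ l.ann (Icc (-a) h))
    (h2 : ‖v.2 - s.w (ech l v.1)‖ ≤ s.R) (h3 : ∀ k, 100 * δ ≤ ‖v.1 - x k‖)
    (h4 : pp s.e (s.cV l v) = 0) : s.On (SD.rz l x L δ h (-a) (-1 / 4)) (bc (ech l) v) := by
  have hr := r.wall.lk.2.1
  have d0 := r.num'.2.2.2.1
  have far : ∀ k (u t : ℝ), |u| + |t| ≤ 3 * δ → l.r * (94 * δ) ≤ ‖ech l v.1 - hq l (x k) u t‖ :=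
    fun k u t b => hq_far (r.out.1 (by_contra fun c => (r.out.2 c).1.elim k)).1 hr (hx k) b hδ (h3 k)
  have ne : ∀ k (u t : ℝ), |u| + |t| ≤ 3 * δ → ech l v.1 - hq l (x k) u t ≠ 0 := fun k u t b =>
    norm_pos_iff.1 (lt_of_lt_of_le (by positivity) (far k u t b))
  have q1 : |δ| + |0| ≤ 3 * δ := by rw [abs_zero, abs_of_pos d0]; linarith
  have rz : ∀ u ≤ 0, ech l v.1 ∈ SD.rz l x L δ h (-a) u := fun u hu => ⟨h1, fun k => by
    have b1 : Real.exp (-δ - L) * Real.exp u ≤ 1 := by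
      rw [← Real.exp_add]; exact Real.exp_le_one_iff.2 (by linarith)
    nlinarith [far k δ 0 q1, mul_pos hr d0]⟩
  have ev : ((ech l v.1, s.w (ech l v.1) + (v.2 - s.w (ech l v.1))) : E) = bc (ech l) v :=
    Prod.ext rfl (add_sub_cancel _ _)
  rcases mul_eq_zero.1 h4 with b | b
  · obtain ⟨-, c1, c2⟩ := (r.cmp _ h1).2 _ h2
    obtain ⟨m, hm⟩ := r.pole
    obtain ⟨-, m1, m2⟩ := hm _ h1
    have c3 := c2.self_of_nhds
    rw [ev] at c1 c3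
    rw [SD.cV, c3, div_eq_mul_inv, show (s.d0 (bc (ech l) v).1)⁻¹ = _ from m2.self_of_nhds] at b
    refine Or.inl (sub_eq_zero.1 ((mul_eq_zero.1 ((mul_eq_zero.1 b).resolve_right fun d => ?_)
      ).resolve_right (mul_ne_zero m1 (Finset.prod_ne_zero_iff.2 fun k _ =>
        div_ne_zero (ne k _ _ q1) (ne k _ _ ?_)))))
    · rw [d, zero_sub, norm_neg, norm_one] at c1
      linarith
    · rw [abs_neg, abs_mul, abs_of_pos d0, abs_of_nonneg (Real.sqrt_nonneg 2)]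
      nlinarith [Real.sqrt_le_iff.2 (⟨by norm_num, by norm_num⟩ : (0 : ℝ) ≤ 2 ∧ (2 : ℝ) ≤ 2 ^ 2)]
  · exact Or.inr ⟨rz _ (by norm_num), sub_eq_iff_eq_add'.1 ((r.sht _ (rz _ (by norm_num))).2.2.2 _
      h2 ((congrArg s.V ev).trans (sub_eq_zero.1 b)))⟩

end RING

open RING in
theorem st_ring (hCHB : St_CHB) (hAWD : St_AWD) (hNWD : St_NWD) (hW3P : St_W3P) (hRNG : St_RNG)
    (hZRD : St_ZRD) : St_RING := by
  obtain ⟨L1, H1⟩ := hW3P
  obtain ⟨L2, H2⟩ := hNWD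
  refine ⟨max (max L1 L2) 20, fun L hL => ?_⟩
  simp only [max_le_iff] at hL
  obtain ⟨wc, hwc, M1, m1, θw, w0, H1⟩ := H1 L hL.1.1
  refine ⟨wc, hwc, fun h n Cu Λ0 η Dp κf π π' _ _ x x' hK hn inj hx hD => ?_⟩
  have h0 := hK.1
  have h1 := hK.2.1
  have c0 : (0 : ℝ) ≤ Fintype.card π := Nat.cast_nonneg _
  have b0 : 0 < 1 / (2 * (Fintype.card π : ℝ) + 2) := by positivity
  have b1 : 1 / (2 * (Fintype.card π : ℝ) + 2) ≤ 1 := (div_le_one (by positivity)).2 (by linarith)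
  obtain ⟨M2, m2, H2⟩ := H2 _ L b0 b1 hL.1.2
  obtain ⟨ρ, r0, r1, hs⟩ := exists_sepd inj hx (show 0 < h / 8 by positivity)
  obtain ⟨θ1, t1, H3⟩ := hRNG h n Cu Λ0 η κf π π' x x' ρ _ (max M1 M2) θw Dp hK hn hs r0 r1 b0 b1
    (le_max_of_le_left (by linarith)) w0 hD
  refine ⟨θ1, t1, fun θ t0 => ?_⟩
  obtain ⟨s0, s1, ι, i0, H3⟩ := H3 θ t0
  obtain ⟨o1, p1, H1⟩ := H1 ρ n r0 (by linarith)
  obtain ⟨o4, p4, H4⟩ := hAWD ι s0 h i0 s1 h0 h1
  filter_upwards [Ioc_mem_nhdsGT (show 0 < min (s0 / 100) (ρ / (64 + M2)) by positivity)] with δ hδ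
  have d0 := hδ.1
  obtain ⟨d1, d2⟩ := le_min_iff.1 hδ.2
  rw [le_div_iff₀ (by positivity)] at d1 d2
  have d3 : 64 * δ ≤ ρ := by nlinarith
  obtain ⟨o2, p2, H2⟩ := H2 δ ρ d0 (by nlinarith) (by linarith)
  refine ⟨min (min o1 o2) (min o4 (h / 100)), by positivity,
    fun s l one τ a δ' r1 r2 lm Tw E1 T X K ho r hw => ?_⟩
  simp only [le_min_iff] at ho
  obtain ⟨hk, hr, -, ew⟩ := r.wall.lk
  have a1 : a < h := by linarith [r.num'.2.1, r.num.y2.2.2.2, ho.2.2]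
  obtain ⟨X', K', r', c', e'⟩ := cut r a1.le
  have x1 : ∀ k, ‖x k‖ = 1 := fun k => hx (Sum.inl k)
  have cb := hCHB s l one L h τ a π π' x δ x' lm Tw E1 T X' K' a1 x1 (by linarith) (by linarith)
    (by linarith) r' c'
  have wn : (∀ k, WN (s.cX l X' \ bc (ech l) ⁻¹' K') (s.cV l) s.e (x k) ρ
      (1 / (2 * (Fintype.card π : ℝ) + 2)) (max M1 M2) s0
      fun y => s.On (SD.rz l x L δ h (-a) (-1 / 4)) (bc (ech l) y)) ∧
      ∀ k, WT (s.cX l X' \ bc (ech l) ⁻¹' K') (s.cV l) s.e (x' k) ρ (max M1 M2) θw s0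
      fun y => s.On (SD.rz l x L δ h (-a) (-1 / 4)) (bc (ech l) y) := by
    by_cases e : one
    · obtain rfl : one = True := eq_true e
      exact ⟨fun k => wn_mono (H2 s l h τ a π π' x x' lm Tw E1 T X' K' ho.1.2 ‹_› hs r' cb k)
        (by linarith) (le_max_right _ _) (by linarith) r0.le (by linarith), fun k => wt_mono
        (H1 s l h τ a π π' x δ x' δ' lm Tw E1 T X' K' ho.1.1 ‹_› d3 (by omega) hs r' cb (hw e) k)
        (by linarith) (le_max_left _ _) (by linarith) r0.le d0.le⟩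
    · exact ⟨fun k => (r.out.2 e).1.elim k, fun k => (r.out.2 e).2.1.elim k⟩
  obtain ⟨g1, g2, g3⟩ := H3 s l one X' K' τ r1 r2 _ hk hr ew r.num.e.1 r.num'.2.2.1
    (fun y a b c => (r'.tube y a b c).1.le) cb (H4 s l one L τ a π π' x δ x' lm Tw E1 T X' K' ho.2.1
      x1 (fun k => hx (Sum.inr k)) (by linarith) (by linarith) (by linarith) r' c') wn.1 wn.2
  rw [← ew] at e'
  have tp : ∀ lv, Top l (X \ K) (psi s.V s.e) τ h r1 lv → Top l (X' \ K') (psi s.V s.e) τ h r1 lv :=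
    fun lv b y hy hz => b y ((e' y (End.ann_mono (fun u (e : u = h) => by
      rw [e]; exact ⟨by linarith, le_rfl⟩) (by rwa [cc, if_neg hk] at hz))).2 hy) hz
  have pt : ∀ (p : E → Prop) (y : E), y.1 ∈ l.ann (Icc (-h) h) →
      (y ∈ near {y | y ∈ X \ K ∧ p y} l.w τ ↔ y ∈ near {y | y ∈ X' \ K' ∧ p y} l.w τ) :=
    fun p y hz => ⟨fun b => ⟨⟨((e' y hz).1 ⟨b.1.1, b.2⟩).1, b.1.2⟩, b.2⟩,
      fun b => ⟨⟨((e' y hz).2 ⟨b.1.1, b.2⟩).1, b.1.2⟩, b.2⟩⟩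
  refine ⟨ep_tr hk hr h0 e' (by rwa [one_div, inv_mul_eq_div] at g1), fun b thr c d =>
    (g2 (tp _ b) thr c (tp _ d)).imp (ep_tr hk hr h0 (pt _)) (ep_tr hk hr h0 (pt _)), fun b => ?_⟩
  rw [End.near, if_neg hk, ew]
  refine hZRD s l one L h τ a π π' x δ ρ x' lm Tw E1 T X K (by linarith) hL.2 hs d3 ‹_› h1 r
    fun y hy hz => ?_
  obtain ⟨v, v0, rfl⟩ := ech_surj hr hz.1
  obtain ⟨u1, u2⟩ := r.tube _ ⟨hy.1.1, hy.2⟩ hy.1.2 hz
  have u3 := ((e' _ hz).1 (ew ▸ hy)).1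
  have u4 := (ech_AN hr v0).1 hz
  exact (g3 (tp _ b) v ⟨⟨u3.1, u1.le⟩, u3.2⟩ u4.1 u4.2).elim (fun c => on_of r (by linarith)
    (by linarith) x1 (by linarith) ⟨hz.1, u2.le, hz.2.2⟩ u1.le
    (fun k => le_trans (by linarith) (c.2 (Sum.inl k))) c.1) id

end Pool.Agent.S6
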