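import Pool.Agent.Lib.S6.Site2
import Pool.Agent.Lib.S6.Ends2

/-!
The slope lemma for the three parts at a loop after the split.
-/

open Set Filter Topology Metric

noncomputable section

namespace Pool.Agent.S6

open Pool.Agent.CF (End Kind SLH)
open Pool.Agent.Lib Pool.Agent.Lib.SH Pool.Agent.Lib.SH.Ring ENDS

namespace RNG

/-- the tube in the chart -/
def cT (Y : Set E) (l : End) (R : ℝ) : Set E := bc (ech l) ⁻¹' near Y l.w R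

/-- bound on the annulus without the windows -/
def JB {W : Type} (D : Set E) (q : E → ℝ) (h : ℝ) (x : W → ℂ) (ρ0 : W → ℝ) (n : ℕ) (A : ℝ) : Prop :=
  ∀ y ∈ D, y.1 ∈ annW h x ρ0 → ∀ d : ℝ, 0 < d → d ≤ 1 → (∀ j, d ≤ ‖y.1 - x j‖) →
    q y ≤ A * d⁻¹ ^ (5 * n)

theorem core {h Cu Λ0 η : ℝ} {n : ℕ} {κf : ℝ → ℝ} (hK : Kit h n 0 Cu Λ0 η κf) :
    ∃ Λ1 : ℝ, ∀ (W : Type) [Fintype W] (x : W → ℂ) (ρ ex : W → ℝ) (C : ℝ),
      WinOK h n x ρ ex (fun _ => C) → ∃ ι > (0 : ℝ), ∀ (Y K : Set E) (l : End) (V : E → ℂ)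
      (ι' e R τ r1 r2 thr κ s0 : ℝ), ι' ≤ ι → l.k ≠ Kind.pt → 0 < l.r → 0 ≤ e → R ≤ τ → 0 ≤ thr →
      (∀ y ∈ near Y l.w τ, y ∉ K → y.1 ∈ l.ann (Icc (-h) h) → ‖y.2 - l.w y.1‖ ≤ R) →
      (∀ y ∈ near Y l.w R, y.1 ∈ l.ann (Icc (h / 16) h) → y ∉ K) →
      NP (cT Y l R) (bc (ech l) ⁻¹' K) (annW h x fun j => κf C * ρ j) →
      AnalyticOnNhd ℂ (fun y => V (bc (ech l) y)) (ov (cT Y l R) (annW h x fun j => κf C * ρ j)) →
      AW (cT Y l R) (bc (ech l) ⁻¹' K) (fun y => V (bc (ech l) y)) e ι' (cW 1) h x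
        (fun j => κf C * ρ j) →
      (∀ j, s0 ≤ κf C * ρ j ∧ ∃ Om, GP (cT Y l R \ bc (ech l) ⁻¹' K)
        (psi (fun y => V (bc (ech l) y)) e) (x j) (ex j) C s0 (ρ j) Om ∧
          Om ≤ C * thr * ρ j ^ (4 * n)) →
      η - (∑ j, ex j) / 2 ≤ κ →
      EP l (Y \ K) (psi V e) τ h r1 r2 Cu Λ0 κ thr ∧
        ∀ lv : ℝ, 0 < lv → thr ≤ lv → Top l (Y \ K) (psi V e) τ h r1 lv →
          JB (cT Y l R \ bc (ech l) ⁻¹' K) (psi (fun y => V (bc (ech l) y)) e) h x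
            (fun j => κf C * ρ j) n (lv * Real.exp Λ1) := by
  obtain ⟨h0, h1, k1, k2, k3, k4, k5, Λ1, Λ2, k6, k7, k8, k9, k10⟩ := hK
  refine ⟨Λ1, fun W _ x ρ ex C hW => ?_⟩
  have w : ∀ j, ‖x j‖ = 1 ∧ 0 < ρ j ∧ ρ j ≤ h / 8 ∧ |ex j| ≤ 4 ∧ 1 ≤ C ∧ 0 < κf C ∧
      κf C ≤ 1 / 3 := fun j => by
    obtain ⟨c1, c2, c3, c4, c5⟩ := hW.2.1 j
    exact ⟨c1, c2, c3, c4, c5, (k5 _ c5).1,
      (k5 _ c5).2.trans (one_div_le_one_div_of_le (by norm_num) (by linarith))⟩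
  have p1 : 0 < η * h / 4 := by positivity
  obtain ⟨ι1, i1, H1⟩ := all_endl h n 0 0 _ Λ1 κf h0 h1 k1 le_rfl p1 k6 k9 W x ρ ex (fun _ => C)
    hW.1 w hW.2.2 (cW 1) 0
  obtain ⟨ι2, i2, H2⟩ := all_endl h n 0 Λ0 _ Λ2 κf h0 h1 k1 k2 p1 k7 k10 W x ρ ex (fun _ => C)
    hW.1 w hW.2.2 (cW 1) 0
  have i0 : 0 < min ι1 ι2 := lt_min i1 i2
  refine ⟨min ι1 ι2, i0, ?_⟩
  intro Y K l V ι' e R τ r1 r2 thr κ s0 hι hk hr he hR ht tube hc np an aw gp hκ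
  have cl : ∀ z : ℂ, Real.exp (-h) ≤ ‖z‖ → ‖z‖ ≤ Real.exp (-(h / 16)) →
      ech l z ∈ l.ann (Icc (h / 16) h) := fun z b c => by
    have := (ech_AN (a := -(h / 16)) hr (an_ne ⟨b, c⟩)).2 ⟨b, c⟩
    rwa [neg_neg] at this
  have LH : LoopHyp Y K (psi V e) l (fun y => V (bc (ech l) y)) (fun _ => 1) (fun _ => 0) e h R n
      x ρ (fun j => κf C * ρ j) ex (fun _ => C) (min ι1 ι2) (cW 1) 0 0 1 0 0 thr := by
    obtain ⟨ι0, Ψ, Ψy, b1, b2, b3, b4⟩ := aw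
    refine ⟨he, np, an, fun _ _ => analyticAt_const,
      fun z _ => ⟨one_ne_zero, by simp, fun _ => by simpa using i0.le⟩,
      ⟨ι0, Ψ, Ψy, NL0.pw_mono b1 hι, b2, b3, fun y c d =>
        (b4 y c d).trans (Real.exp_le_exp.2 hι)⟩, fun j => ?_, by simp,
      fun z _ _ => ⟨analyticAt_const, by simp⟩, fun y hy b c =>
        ⟨fun k => (hc _ hy (cl _ b c) k).elim, fun _ => by simp [psi]⟩⟩
    obtain ⟨a1, Om, a2, a3⟩ := gp j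
    exact ⟨s0, Om, by simp only [mul_one]; exact a2, a1, by simpa using a3⟩
  have E1 := H1 _ _ _ l _ _ _ _ _ _ _ _ _ hk hr (by norm_num) le_rfl le_rfl zero_le_one ht
    (LH.mono (min_le_left _ _))
  have E2 := H2 _ _ _ l _ _ _ _ _ _ _ _ _ hk hr (by norm_num) le_rfl le_rfl zero_le_one ht
    (LH.mono (min_le_right _ _))
  have dn : ∀ y ∈ near Y l.w R, y ∉ K → y ∈ near (Y \ K) l.w τ := fun y hy hk =>
    ⟨⟨hy.1, hk⟩, hy.2.trans hR⟩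
  have up : ∀ y ∈ near (Y \ K) l.w τ, y.1 ∈ l.ann (Icc (h / 16) h) → y ∈ near Y l.w R :=
    fun y hy hz => ⟨hy.1.1, tube y ⟨hy.1.1, hy.2⟩ hy.1.2
      (End.ann_mono (Icc_subset_Icc (by linarith) le_rfl) hz)⟩
  refine ⟨fun lv b b' => ⟨fun _ B Λ' c d => slh_tr hr h0 ((E2 lv b b').1 B Λ' κ c d ?_) hR
    (fun y hy hz => Or.inl ⟨hy.1, hc y hy hz⟩) up, fun c y hy hz => ?_⟩,
    fun lv b b' c y hy hz d d0 d1 d2 => ?_⟩
  · rw [show (η * h / 4 + 2 * 0) * 2 / h = η / 2 by field_simp; ring]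
    linarith
  · rw [col, if_neg hk] at hz
    rw [cc, if_neg hk] at c
    rw [if_neg hk, mul_one]
    exact (((E1 lv b b').2 fun v e f => c v (dn v e f)).1 y (up y hy hz) hz).trans (by gcongr)
  · rw [Top, cc, if_neg hk] at c
    simpa [psi] using ((E1 lv b b').2 fun v e f => c v (dn v e f)).2 y ⟨hy.1, hz⟩ hy.2 d d0 d1 d2

/-- a part which is separated from the rest has no peak points -/
theorem np_part {X K : Set E} {Ω : Set ℂ} {V : E → ℂ} {p : ℂ → ℝ} {c : ℝ} (h : NP X K Ω)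
    (hV : AnalyticOnNhd ℂ V (ov X Ω)) (hp : Continuous p)
    (hs : ∀ y ∈ ov X Ω, y ∉ K → p (V y) ≠ c) : NP {y | y ∈ X ∧ p (V y) ≤ c} K Ω := by
  have e : ov {y | y ∈ X ∧ p (V y) ≤ c} Ω = ov X Ω ∩ (fun y => p (V y)) ⁻¹' Iic c :=
    Set.ext fun y => ⟨fun a => ⟨⟨a.1.1, a.2⟩, a.1.2⟩, fun a => ⟨⟨a.1.1, a.2⟩, a.1.2⟩⟩
  refine ⟨e ▸ h.cpt.of_isClosed_subset ((hp.comp_continuousOn hV.continuousOn
    ).preimage_isClosed_of_isClosed h.cpt.isClosed isClosed_Iic) inter_subset_left,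
    fun y hy => hy.1, fun y hy hk ⟨G, a1, a2⟩ => h.np y ⟨hy.1.1, hy.2⟩ hk ⟨G, a1, ?_⟩⟩
  have a3 : ContinuousAt (fun y => p (V y)) y :=
    hp.continuousAt.comp (hV y ⟨hy.1.1, hy.2⟩).continuousAt
  filter_upwards [a2, a3.eventually (Iio_mem_nhds (lt_of_le_of_ne hy.1.2
    (hs y ⟨hy.1.1, hy.2⟩ hk)))] with v b1 b2 hv
  exact b1 ⟨hv, le_of_lt b2⟩

theorem aw_sub {W : Type} {X Y K : Set E} {V : E → ℂ} {e ι C0 h : ℝ} {x : W → ℂ} {ρ0 : W → ℝ}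
    (H : AW X K V e ι C0 h x ρ0) (hY : Y ⊆ X) : AW Y K V e ι C0 h x ρ0 := by
  obtain ⟨ι0, Ψ, Ψy, b1, b2, b3, b4⟩ := H
  exact ⟨ι0, Ψ, Ψy, b1, fun y a => b2 y ⟨hY a.1, a.2⟩, fun y a => b3 y ⟨hY a.1, a.2⟩,
    fun y a => b4 y ⟨hY a.1, a.2⟩⟩

/-- a gain property of the whole set gives a gain property of a part above a threshold -/
theorem gp_part {D D' : Set E} {q : E → ℝ} {x : ℂ} {ex M C s0 ρ O1 Om : ℝ}
    (H : GP D q x ex M s0 ρ 0) (hD : D' ⊆ D) (M0 : 0 < M) (hM : M ≤ C) (hρ : 0 ≤ ρ) (hs : 0 ≤ s0)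
    (h1 : 0 ≤ O1) (hO : ∀ y ∈ D, ρ / M ≤ ‖y.1 - x‖ → ‖y.1 - x‖ ≤ ρ → q y ≤ O1)
    (hc : M * O1 ≤ C * Om) : GP D' q x ex C s0 ρ Om := by
  intro O a1 _ r a3 a4 y hy a5 a6
  have a : ρ / C ≤ ρ / M := by gcongr
  refine (H O1 h1 hO r a3 (a4.trans a) y (hD hy) a5 a6).trans ?_
  have b1 : 0 ≤ (r / ρ) ^ ex := Real.rpow_nonneg (div_nonneg (by linarith) hρ) _
  have b2 : C * Om ≤ C * O := by gcongr; linarith
  nlinarith

theorem sep_lt {e : ℝ} {v : ℂ} (he : 0 < e) (h : ‖pp e v‖ < e ^ 2 / 4) :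
    ‖v - e‖ ≠ e / 2 ∧ ‖v‖ ≠ e / 2 := by
  have a := norm_sub_le v (v - e)
  rw [sub_sub_cancel, Complex.norm_real, Real.norm_of_nonneg he.le] at a
  rw [pp, norm_mul] at h
  exact ⟨fun b => by nlinarith, fun b => by nlinarith⟩

theorem near_win {W : Type} {x : W → ℂ} {ρ d h : ℝ} {z : ℂ} (hx : Sepd x ρ) (h1 : h ≤ 1)
    (hρ : ρ ≤ h / 8) (hd : d ≤ ρ) {j : W} (a : d ≤ ‖z - x j‖) (b : ‖z - x j‖ ≤ ρ) :
    z ∈ annW h x fun _ => d := by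
  refine ⟨(ball_AN (hx.1 j) h1 hρ b).1, (ball_AN (hx.1 j) h1 hρ b).2, fun k => ?_⟩
  by_cases e : j = k
  · exact e ▸ a
  have d1 := hx.2 j k e
  have d3 := norm_sub_le_norm_sub_add_norm_sub (x j) z (x k)
  rw [norm_sub_rev (x j) z] at d3
  linarith

end RNG

open RNG in
theorem st_rng : St_RNG := by
  intro h n Cu Λ0 η κf π π' _ _ x x' ρ β M θw Dp hK hn hx ρ0 ρ1 β0 β1 M1 θw0 Dp1
  obtain ⟨Λ1, H⟩ := core hK
  obtain ⟨h0, h1, -, -, η0, -, k5, -⟩ := hK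
  have wk : ∀ (ρ' ex : π ⊕ π' → ℝ) (C : ℝ), (∀ j, 0 < ρ' j ∧ ρ' j ≤ ρ) → (∀ j, |ex j| ≤ 4) →
      1 ≤ C → WinOK h n (Sum.elim x x') ρ' ex fun _ => C := fun ρ' ex C a b c =>
    ⟨by rwa [Fintype.card_sum], fun j => ⟨hx.1 j, (a j).1, (a j).2.trans ρ1, b j, c⟩,
      fun j k e => by linarith [hx.2 j k e, (a j).2]⟩
  -- the constant of the parts
  obtain ⟨Cw, c1, c2⟩ : ∃ Cw : ℝ, M ≤ Cw ∧
      M * (Dp * Real.exp Λ1 * (ρ / M)⁻¹ ^ (5 * n)) ≤ Cw * (Cw * ρ ^ (4 * n)) := by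
    set A := M * (Dp * Real.exp Λ1 * (ρ / M)⁻¹ ^ (5 * n)) with hA
    have p : 0 < ρ ^ (4 * n) := by positivity
    refine ⟨max M (A / ρ ^ (4 * n)), le_max_left _ _, ?_⟩
    have a1 := (div_le_iff₀ p).1 (le_max_right M (A / ρ ^ (4 * n)))
    have a2 : 1 ≤ max M (A / ρ ^ (4 * n)) := M1.trans (le_max_left _ _)
    have a3 : 0 ≤ max M (A / ρ ^ (4 * n)) * ρ ^ (4 * n) := by positivity
    nlinarith
  have c3 : 1 ≤ Cw := M1.trans c1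
  obtain ⟨κ0, κ1⟩ := k5 Cw c3
  have κ2 : κf Cw ≤ 1 / M := κ1.trans (one_div_le_one_div_of_le (by linarith) (by linarith))
  have κ3 : κf Cw ≤ 1 := κ2.trans (by rw [div_le_one (by linarith)]; exact M1)
  -- the constant of the joint bound
  obtain ⟨C0, d1, d2⟩ : ∃ C0 : ℝ, M ≤ C0 ∧ κf C0 ≤ κf Cw / 4 := by
    refine ⟨max M (4 / κf Cw), le_max_left _ _,
      (k5 _ (M1.trans (le_max_left _ _))).2.trans ?_⟩
    have a := (div_le_iff₀ κ0).1 (le_max_right M (4 / κf Cw))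
    rw [div_le_div_iff₀ (by positivity) (by norm_num)]
    nlinarith
  have d3 : 1 ≤ C0 := M1.trans d1
  have d4 := (k5 C0 d3).1
  set d := κf C0 * ρ with hd
  have e0 : 0 < d := by positivity
  have e1 : d ≤ κf Cw * (ρ / 4) := by nlinarith
  have e2 : κf Cw * (ρ / 4) ≤ κf Cw * ρ := by nlinarith
  have e3 : κf Cw * ρ ≤ ρ / M := by
    rw [div_eq_inv_mul, ← one_div]; gcongr
  have e4 : ρ / M ≤ ρ := div_le_self ρ0.le M1
  have e5 : ρ ≤ 1 := by linarith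
  have e6 : 0 < ρ / M := by positivity
  refine ⟨min θw (1 / 8) / (Real.exp Λ1 * d⁻¹ ^ (5 * n)), by positivity, fun θ θ0 => ?_⟩
  set θ1 := min θw (1 / 8) / (Real.exp Λ1 * d⁻¹ ^ (5 * n)) with hθ1
  have t0 : 0 < θ1 := by positivity
  have t1 : θ1 * Real.exp Λ1 * d⁻¹ ^ (5 * n) = min θw (1 / 8) := by
    rw [hθ1]; field_simp
  obtain ⟨T, T1, T2⟩ : ∃ T : ℝ, 1 ≤ T ∧ 1 ≤ T * (θ * ρ ^ (4 * n)) := by
    refine ⟨max 1 (1 / (θ * ρ ^ (4 * n))), le_max_left _ _, ?_⟩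
    exact (div_le_iff₀ (by positivity)).1 (le_max_right _ _)
  have T3 : M ≤ M * T ^ 2 := by nlinarith [one_le_pow₀ T1 (n := 2)]
  have T4 : 1 ≤ M * T ^ 2 := M1.trans T3
  have T5 := (k5 _ T4).1
  have ex1 : ∀ a b : ℝ, |a| ≤ 4 → |b| ≤ 4 →
      ∀ j, |(Sum.elim (fun _ => a) (fun _ => b) : π ⊕ π' → ℝ) j| ≤ 4 := fun a b c d j => by
    cases j <;> assumption
  have sm : ∀ a b : ℝ, ∑ j, (Sum.elim (fun _ => a) (fun _ => b) : π ⊕ π' → ℝ) j =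
      Fintype.card π * a + Fintype.card π' * b := fun a b => by simp
  obtain ⟨ι1, i1, H1⟩ := H _ (Sum.elim x x') (fun _ => ρ) (Sum.elim (fun _ => -(2 * β)) fun _ => 0)
    (M * T ^ 2) (wk _ _ _ (fun _ => ⟨ρ0, le_rfl⟩)
      (ex1 _ _ (abs_le.2 ⟨by linarith, by linarith⟩) (by norm_num)) T4)
  obtain ⟨ι2, i2, H2⟩ := H _ (Sum.elim x x') (fun _ => ρ) (Sum.elim (fun _ => -4) fun _ => 0)
    C0 (wk _ _ _ (fun _ => ⟨ρ0, le_rfl⟩) (ex1 _ _ (by norm_num) (by norm_num)) d3)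
  obtain ⟨ι3, i3, H3⟩ := H _ (Sum.elim x x') (fun _ => ρ) (Sum.elim (fun _ => -4) fun _ => 0)
    Cw (wk _ _ _ (fun _ => ⟨ρ0, le_rfl⟩) (ex1 _ _ (by norm_num) (by norm_num)) c3)
  obtain ⟨ι4, i4, H4⟩ := H _ (Sum.elim x x') (Sum.elim (fun _ => ρ) fun _ => ρ / 4)
    (Sum.elim (fun _ => -4) fun _ => 3 / 2) Cw (wk _ _ _ (fun j => by
      cases j <;> exact ⟨by simpa using ρ0, by simp; try linarith⟩)
      (ex1 _ _ (by norm_num) (by norm_num [abs_le])) c3)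
  refine ⟨min d (κf (M * T ^ 2) * ρ), by positivity, min (min ι1 ι2) (min ι3 ι4), by positivity,
    ?_⟩
  set s0 := min d (κf (M * T ^ 2) * ρ) with hs0
  have s1 : s0 ≤ d := min_le_left _ _
  have s2 : s0 ≤ κf (M * T ^ 2) * ρ := min_le_right _ _
  have s3 : 0 < s0 := by positivity
  intro s l one X K τ r1 r2 Q hk hr hw he hR tube cb ca wn wt
  have hX : s.cX l X = cT X l s.R := by rw [cT, hw]; rfl
  obtain ⟨ca1, ca2, ca3⟩ := ca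
  have np := cb.np
  rw [hX] at np ca2 ca3 wn wt ⊢
  rw [← hw] at tube ca1
  have sub : ∀ ρ' : π ⊕ π' → ℝ, (∀ j, s0 ≤ ρ' j) →
      NP (cT X l s.R) (bc (ech l) ⁻¹' K) (annW h (Sum.elim x x') ρ') ∧
      AnalyticOnNhd ℂ (s.cV l) (ov (cT X l s.R) (annW h (Sum.elim x x') ρ')) := fun ρ' a =>
    ⟨np.mono (isClosed_annW _ _ _) fun z hz => ⟨hz.1, hz.2.1⟩,
      ca2.mono (ov_mono fun z hz => ⟨hz.1, hz.2.1, fun j => (a j).trans (hz.2.2 j)⟩)⟩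
  have p2 : 0 < s.e ^ 2 := by positivity
  -- the joint bound
  have JJ := (H2 X K l s.V _ s.e s.R τ r1 r2 0 _ s0 ((min_le_left _ _).trans (min_le_right _ _))
    hk hr he.le hR le_rfl tube ca1 (sub _ fun _ => s1).1 (sub _ fun _ => s1).2 (ca3 _ fun _ => s1)
    (fun j => ⟨s1, 0, by
      cases j
      · exact gp_mono (wn _).neu (by linarith) d1 le_rfl ρ0.le le_rfl s3.le
      · exact gp_mono (wt _).neu (by linarith) d1 le_rfl ρ0.le le_rfl s3.le, by simp⟩) le_rfl).2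
  have JW : ∀ lv : ℝ, 0 < lv → Top l (X \ K) (psi s.V s.e) τ h r1 lv → ∀ r, d ≤ r → r ≤ ρ →
      ∀ y ∈ cT X l s.R \ bc (ech l) ⁻¹' K, y.1 ∈ annW h (Sum.elim x x') (fun _ => r) →
      psi (s.cV l) s.e y ≤ lv * Real.exp Λ1 * r⁻¹ ^ (5 * n) := fun lv a b r c1 c2 y hy hz =>
    JJ lv a a.le b y hy ⟨hz.1, hz.2.1, fun j => c1.trans (hz.2.2 j)⟩ r (e0.trans_le c1)
      (c2.trans e5) hz.2.2
  have e7 : d ≤ ρ / M := by linarith
  refine ⟨(H1 X K l s.V _ s.e s.R τ r1 r2 (θ * s.e ^ 2) _ s0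
    ((min_le_left _ _).trans (min_le_left _ _)) hk hr he.le hR (by positivity) tube ca1
    (sub _ fun _ => s2).1 (sub _ fun _ => s2).2 (ca3 _ fun _ => s2) (fun j => ⟨s2, ?_⟩)
    (by rw [sm]; linarith)).1, fun top1 thr thr0 top2 => ?_, fun top y hy y1 y2 => ?_⟩
  · cases j
    · refine ⟨_, (wn _).act T T1, ?_⟩
      rw [div_le_iff₀ (by positivity)]
      have a1 : 1 ≤ M * T ^ 3 := by nlinarith [one_le_pow₀ T1 (n := 3)]
      have a2 : 1 * 1 ≤ M * T ^ 3 * (T * (θ * ρ ^ (4 * n))) :=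
        mul_le_mul a1 T2 zero_le_one (by linarith)
      nlinarith
    · exact ⟨0, gp_mono (wt _).neu (by linarith) T3 le_rfl ρ0.le le_rfl s3.le, by positivity⟩
  · have small : ∀ y ∈ cT X l s.R \ bc (ech l) ⁻¹' K, y.1 ∈ annW h (Sum.elim x x') (fun _ => d) →
        psi (s.cV l) s.e y ≤ min θw (1 / 8) * s.e ^ 2 := fun y hy hz => by
      rw [← t1]
      exact (JW _ (by positivity) top1 d le_rfl (by linarith) y hy hz).trans_eq (by ring)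
    have big : ∀ j, ∀ y ∈ cT X l s.R \ bc (ech l) ⁻¹' K, ρ / M ≤ ‖y.1 - Sum.elim x x' j‖ →
        ‖y.1 - Sum.elim x x' j‖ ≤ ρ → psi (s.cV l) s.e y ≤
          Dp * thr * Real.exp Λ1 * (ρ / M)⁻¹ ^ (5 * n) := fun j y hy a b =>
      JW _ (by positivity) top2 _ e7 e4 y hy (near_win hx h1 ρ1 e4 a b)
    have cst : M * (Dp * thr * Real.exp Λ1 * (ρ / M)⁻¹ ^ (5 * n)) ≤
        Cw * (Cw * thr * ρ ^ (4 * n)) := by nlinarith
    have part : ∀ p : ℂ → ℝ, Continuous p → (∀ v, ‖pp s.e v‖ < s.e ^ 2 / 4 → p v ≠ s.e / 2) →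
        {y | y ∈ X \ K ∧ p (s.V y) ≤ s.e / 2} = {y | y ∈ X ∧ p (s.V y) ≤ s.e / 2} \ K ∧
        cT {y | y ∈ X ∧ p (s.V y) ≤ s.e / 2} l s.R ⊆ cT X l s.R ∧
        (∀ y ∈ near {y | y ∈ X ∧ p (s.V y) ≤ s.e / 2} l.w τ, y ∉ K → y.1 ∈ l.ann (Icc (-h) h) →
          ‖y.2 - l.w y.1‖ ≤ s.R) ∧
        (∀ y ∈ near {y | y ∈ X ∧ p (s.V y) ≤ s.e / 2} l.w s.R, y.1 ∈ l.ann (Icc (h / 16) h) →
          y ∉ K) ∧ ∀ ρ' : π ⊕ π' → ℝ, (∀ j, d ≤ ρ' j) →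
          NP (cT {y | y ∈ X ∧ p (s.V y) ≤ s.e / 2} l s.R) (bc (ech l) ⁻¹' K)
            (annW h (Sum.elim x x') ρ') := fun p p1 p3 => by
      refine ⟨Set.ext fun y => ⟨fun a => ⟨⟨a.1.1, a.2⟩, a.1.2⟩, fun a => ⟨⟨a.1.1, a.2⟩, a.1.2⟩⟩,
        fun y a => ⟨a.1.1, a.2⟩, fun y a => tube y ⟨a.1.1, a.2⟩, fun y a => ca1 y ⟨a.1.1, a.2⟩,
        fun ρ' a => ?_⟩
      have a1 := sub ρ' fun j => s1.trans (a j)
      have a2 := np_part (c := s.e / 2) a1.1 a1.2 p1 fun y hy hk => p3 _ (lt_of_le_of_lt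
        (small y ⟨hy.1, hk⟩ ⟨hy.2.1, hy.2.2.1, fun j => (a j).trans (hy.2.2.2 j)⟩)
        (by nlinarith [min_le_right θw (1 / 8)]))
      have a3 : cT {y | y ∈ X ∧ p (s.V y) ≤ s.e / 2} l s.R =
          {y | y ∈ cT X l s.R ∧ p (s.cV l y) ≤ s.e / 2} :=
        Set.ext fun y => ⟨fun a => ⟨⟨a.1.1, a.2⟩, a.1.2⟩, fun a => ⟨⟨a.1.1, a.2⟩, a.1.2⟩⟩
      rwa [a3]
    have o1 : 0 ≤ Dp * thr * Real.exp Λ1 * (ρ / M)⁻¹ ^ (5 * n) := by positivity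
    constructor
    · obtain ⟨q1, q2, q3, q4, q5⟩ := part (fun v => ‖v - s.e‖) (by fun_prop)
        fun v a => (sep_lt he a).1
      have f : ∀ j : π ⊕ π', d ≤ κf Cw * ρ := fun _ => e1.trans e2
      rw [q1]
      refine (H3 _ K l s.V _ s.e s.R τ r1 r2 thr _ s0 ((min_le_right _ _).trans (min_le_left _ _))
        hk hr he.le hR thr0.le q3 q4 (q5 _ f) ((sub _ fun j => s1.trans (f j)).2.mono
          fun y a => ⟨q2 a.1, a.2⟩) (aw_sub (ca3 _ fun j => s1.trans (f j)) q2)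
        (fun j => ⟨s1.trans (f j), _, ?_, le_rfl⟩) (by rw [sm]; linarith)).1
      cases j
      · exact gp_part (wn _).neu (sdiff_subset_sdiff_left q2) (by linarith) c1 ρ0.le s3.le o1
          (big (Sum.inl _)) cst
      · exact gp_part (wt _).neu (sdiff_subset_sdiff_left q2) (by linarith) c1 ρ0.le s3.le o1
          (big (Sum.inr _)) cst
    · obtain ⟨q1, q2, q3, q4, q5⟩ := part (fun v => ‖v‖) (by fun_prop) fun v a => (sep_lt he a).2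
      have f : ∀ j : π ⊕ π', d ≤ κf Cw * (Sum.elim (fun _ => ρ) (fun _ => ρ / 4) j) := fun j => by
        cases j
        · exact e1.trans e2
        · exact e1
      rw [q1]
      refine (H4 _ K l s.V _ s.e s.R τ r1 r2 thr _ s0 ((min_le_right _ _).trans (min_le_right _ _))
        hk hr he.le hR thr0.le q3 q4 (q5 _ f) ((sub _ fun j => s1.trans (f j)).2.mono
          fun y a => ⟨q2 a.1, a.2⟩) (aw_sub (ca3 _ fun j => s1.trans (f j)) q2)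
        (fun j => ⟨s1.trans (f j), ?_⟩) (by rw [sm]; linarith)).1
      rcases j with j | j
      · exact ⟨_, gp_part (wn _).neu (sdiff_subset_sdiff_left q2) (by linarith) c1 ρ0.le s3.le o1
          (big (Sum.inl _)) cst, le_rfl⟩
      · have a1 := gp_mono ((wt j).act fun y hy a b => (small y hy
          (near_win hx h1 ρ1 (by linarith) (j := Sum.inr j) (e7.trans a) b)).trans
            (by gcongr; exact min_le_left _ _)) (by linarith) c1 le_rfl (by linarith) le_rfl s3.le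
        have a3 : cT {y | y ∈ X ∧ ‖s.V y‖ ≤ s.e / 2} l s.R \ bc (ech l) ⁻¹' K =
            {y | y ∈ cT X l s.R \ bc (ech l) ⁻¹' K ∧ ‖s.cV l y‖ ≤ s.e / 2} :=
          Set.ext fun y => ⟨fun a => ⟨⟨⟨a.1.1.1, a.1.2⟩, a.2⟩, a.1.1.2⟩,
            fun a => ⟨⟨⟨a.1.1.1, a.2⟩, a.1.1.2⟩, a.1.2⟩⟩
        exact ⟨0, a3 ▸ a1, by simp only [Sum.elim_inr]; positivity⟩
  · have z1 : ∀ y ∈ cT X l s.R \ bc (ech l) ⁻¹' K, y.1 ∈ annW h (Sum.elim x x') (fun _ => d) →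
        pp s.e (s.cV l y) = 0 := fun y hy hz => by
      have b1 : Tendsto (fun lv : ℝ => lv * Real.exp Λ1 * d⁻¹ ^ (5 * n)) (𝓝[>] 0) (𝓝 0) :=
        (Continuous.tendsto' (by fun_prop) _ _ (by simp)).mono_left nhdsWithin_le_nhds
      exact norm_le_zero_iff.1 (ge_of_tendsto b1 (eventually_mem_nhdsWithin.mono fun lv b =>
        JW lv b (fun v a c => (top v a c).trans (le_of_lt b)) d le_rfl (by linarith) y hy hz))
    by_cases b : ∀ j, d ≤ ‖y.1 - Sum.elim x x' j‖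
    · exact Or.inl ⟨z1 y hy ⟨y1, y2, b⟩, fun j => s1.trans (b j)⟩
    push Not at b
    obtain ⟨j, b⟩ := b
    have z2 : ∀ v ∈ cT X l s.R \ bc (ech l) ⁻¹' K, ρ / M ≤ ‖v.1 - Sum.elim x x' j‖ →
        ‖v.1 - Sum.elim x x' j‖ ≤ ρ → pp s.e (s.cV l v) = 0 := fun v hv a c =>
      z1 v hv (near_win hx h1 ρ1 (by linarith) (e7.trans a) c)
    cases j
    · exact Or.inr ((wn _).zero z2 y hy (b.le.trans e7))
    · exact Or.inr ((wt _).zero z2 y hy (b.le.trans e7))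

end Pool.Agent.S6
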