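import Pool.Agent.Lib.S6.B_FITNEW
import Pool.Agent.Lib.CF.WinD

/-!
The secant directions are targets of a path of rotations.
-/

open Set Filter Topology Metric

noncomputable section

namespace Pool.Agent.S6.Secd

open Pool.Agent.CF (End Kind Cv)
open FitNew

/-- direction of the inner zero -/
def xi (x : ℂ) (δ : ℝ) : ℂ := x * Complex.exp (-(Real.sqrt 2 * δ) - δ * Complex.I)

/-- the model factor -/
def ph (ξ ζ : ℂ) : ℂ := (ζ - ξ) * (1 - (starRingEnd ℂ) ξ * ζ) / ζ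

/-- one factor of `sgm` -/
def sg (C : Cv) (x : ℂ) (δ : ℝ) (z : ℂ) : ℂ :=
  -((starRingEnd ℂ) (xi x δ) / C.R) *
    ((z - hp C x (Real.sqrt 2 * δ) (-δ)) * (z - hp C x (-(Real.sqrt 2 * δ)) (-δ)) / (z - C.c))

lemma conj_xi (x : ℂ) (δ : ℝ) : (starRingEnd ℂ) (xi x δ) =
    (starRingEnd ℂ) x * Complex.exp (-(Real.sqrt 2 * δ) + δ * Complex.I) := by
  rw [xi, map_mul, ← Complex.exp_conj]
  congr 2
  simp

lemma conj_mul_one {x : ℂ} (hx : ‖x‖ = 1) : (starRingEnd ℂ) x * x = 1 := by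
  rw [Complex.conj_mul', hx]
  simp

lemma hp_u (C : Cv) (x : ℂ) (δ : ℝ) : hp C x (Real.sqrt 2 * δ) (-δ) = C.c + C.R * xi x δ := by
  rw [hp, xi, mul_assoc]
  congr 4
  push_cast
  ring

lemma hp_u' (C : Cv) {x : ℂ} (hx : ‖x‖ = 1) (δ : ℝ) :
    (starRingEnd ℂ) (xi x δ) * (hp C x (-(Real.sqrt 2 * δ)) (-δ) - C.c) = C.R := by
  rw [conj_xi, hp, add_sub_cancel_left]
  have h1 : Complex.exp (-(Real.sqrt 2 * δ) + δ * Complex.I) *
      Complex.exp (-((-(Real.sqrt 2 * δ) : ℝ) : ℂ) + ((-δ : ℝ) : ℂ) * Complex.I) = 1 := by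
    rw [← Complex.exp_add, ← Complex.exp_zero]
    congr 1
    push_cast
    ring
  have h2 := conj_mul_one hx
  linear_combination (C.R * (starRingEnd ℂ) x * x) * h1 + C.R * h2

lemma sg_eq (C : Cv) {x : ℂ} (hx : ‖x‖ = 1) (hR : 0 < C.R) (δ : ℝ) :
    sg C x δ = fun z => ph (xi x δ) ((z - C.c) / C.R) := by
  funext z
  have hR' : (C.R : ℂ) ≠ 0 := by exact_mod_cast hR.ne'
  by_cases hz : z - C.c = 0
  · simp [sg, ph, hz]
  have h1 := hp_u' C hx δ
  rw [sg, ph, hp_u]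
  field_simp
  linear_combination (z - C.c - C.R * xi x δ) * h1

lemma ph_deriv (ξ : ℂ) {ζ : ℂ} (h : ζ ≠ 0) :
    HasDerivAt (ph ξ) ((ξ / ζ - (starRingEnd ℂ) ξ * ζ) / ζ) ζ := by
  have h1 : HasDerivAt (fun ζ : ℂ => (ζ - ξ) * (1 - (starRingEnd ℂ) ξ * ζ))
      (1 * (1 - (starRingEnd ℂ) ξ * ζ) + (ζ - ξ) * (-((starRingEnd ℂ) ξ * 1))) ζ :=
    ((hasDerivAt_id ζ).sub_const ξ).fun_mul
      (((hasDerivAt_id ζ).const_mul ((starRingEnd ℂ) ξ)).const_sub 1)
  refine (h1.fun_div (hasDerivAt_id ζ) h).congr_deriv ?_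
  simp only [id]
  field_simp
  ring

lemma ph_circ (ξ : ℂ) {ζ : ℂ} (h : ‖ζ‖ = 1) : ph ξ ζ = ((‖ζ - ξ‖ ^ 2 : ℝ) : ℂ) ∧
    ∃ t : ℝ, |t| ≤ 2 * ‖ξ‖ * ‖ζ - ξ‖ ∧ ξ / ζ - (starRingEnd ℂ) ξ * ζ = t * Complex.I := by
  have h0 : ζ ≠ 0 := by
    rw [← norm_pos_iff, h]
    exact one_pos
  have h1 := conj_mul_one h
  refine ⟨?_, -2 * ((starRingEnd ℂ) ξ * (ζ - ξ)).im, ?_, ?_⟩
  · push_cast
    rw [← Complex.mul_conj', ph, map_sub, div_eq_iff h0]
    linear_combination (ξ - ζ) * h1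
  · have := Complex.abs_im_le_norm ((starRingEnd ℂ) ξ * (ζ - ξ))
    rw [norm_mul, Complex.norm_conj] at this
    rw [abs_mul, abs_neg, abs_two]
    linarith
  · have h2 : ξ / ζ = ξ * (starRingEnd ℂ) ζ := by
      rw [div_eq_iff h0, mul_assoc, h1, mul_one]
    rw [h2]
    apply Complex.ext
    · simp
    · simp
      ring

lemma norm_xi {x : ℂ} (hx : ‖x‖ = 1) (δ : ℝ) : ‖xi x δ‖ = Real.exp (-(Real.sqrt 2 * δ)) := by
  rw [xi, norm_mul, hx, one_mul, Complex.norm_exp]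
  simp

lemma sqrt_two : 1 ≤ Real.sqrt 2 ∧ Real.sqrt 2 ≤ 2 :=
  ⟨Real.one_le_sqrt.2 (by norm_num), Real.sqrt_le_iff.2 ⟨by norm_num, by norm_num⟩⟩

lemma xi_near {x : ℂ} (hx : ‖x‖ = 1) {δ : ℝ} (h0 : 0 ≤ δ) (h1 : δ ≤ 1 / 4) :
    ‖xi x δ - x‖ ≤ 6 * δ ∧ ‖xi x δ‖ ≤ 1 - 2 / 3 * δ := by
  obtain ⟨s1, s2⟩ := sqrt_two
  have a1 : ‖(-(Real.sqrt 2 * δ) - δ * Complex.I : ℂ)‖ ≤ 3 * δ := by
    refine (norm_sub_le _ _).trans ?_
    rw [norm_neg, norm_mul, norm_mul, Complex.norm_I, Complex.norm_real, Complex.norm_real,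
      Real.norm_of_nonneg h0, Real.norm_of_nonneg (by linarith)]
    nlinarith
  constructor
  · have a2 := Complex.norm_exp_sub_one_le (a1.trans (by linarith))
    have : xi x δ - x = x * (Complex.exp (-(Real.sqrt 2 * δ) - δ * Complex.I) - 1) := by
      rw [xi]
      ring
    rw [this, norm_mul, hx]
    linarith
  · rw [norm_xi hx]
    refine le_trans (Real.exp_le_exp.2 ?_) (exp_neg_le h0 (by linarith))
    nlinarith

/-- one factor on the circle -/
lemma sg_circ (C : Cv) {x : ℂ} (hx : ‖x‖ = 1) (hR : 0 < C.R) {δ : ℝ} (h0 : 0 < δ)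
    (h1 : δ ≤ 1 / 4) {z : ℂ} (hz : ‖z - C.c‖ = C.R) : AnalyticAt ℂ (sg C x δ) z ∧
    ∃ m t : ℝ, 0 < m ∧ sg C x δ z = m ∧ (z - C.c) * logDeriv (sg C x δ) z = t * Complex.I ∧
      ∀ s : ℝ, s ≤ ‖(z - C.c) / C.R - x‖ + δ → s * |t| ≤ 24 := by
  have hR' : (C.R : ℂ) ≠ 0 := by exact_mod_cast hR.ne'
  have hc : z - C.c ≠ 0 := by
    rw [← norm_pos_iff, hz]
    exact hR
  set ζ : ℂ := (z - C.c) / C.R with hζ
  have n1 : ‖ζ‖ = 1 := by
    rw [hζ, norm_div, hz, Complex.norm_real, Real.norm_of_nonneg hR.le, div_self hR.ne']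
  have n0 : ζ ≠ 0 := div_ne_zero hc hR'
  obtain ⟨a1, t, a2, a3⟩ := ph_circ (xi x δ) n1
  obtain ⟨b1, b2⟩ := xi_near hx h0.le h1
  have b3 : 2 / 3 * δ ≤ ‖ζ - xi x δ‖ := by linarith [norm_sub_norm_le ζ (xi x δ)]
  have b4 : 0 < ‖ζ - xi x δ‖ := by linarith
  have d1 : HasDerivAt (sg C x δ) ((xi x δ / ζ - (starRingEnd ℂ) (xi x δ) * ζ) / ζ * (1 / C.R))
      z := by
    rw [sg_eq C hx hR]
    exact (ph_deriv (xi x δ) n0).comp z (((hasDerivAt_id z).sub_const C.c).div_const (C.R : ℂ))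
  have d2 : sg C x δ z = ((‖ζ - xi x δ‖ ^ 2 : ℝ) : ℂ) := by
    rw [sg_eq C hx hR]
    exact a1
  refine ⟨?_, ‖ζ - xi x δ‖ ^ 2, t / ‖ζ - xi x δ‖ ^ 2, by positivity, d2, ?_, fun s hs => ?_⟩
  · unfold sg
    exact analyticAt_const.mul (AnalyticAt.fun_div (by fun_prop) (by fun_prop) hc)
  · have e1 : z - C.c = C.R * ζ := by
      rw [hζ]
      field_simp
    have e2 : ((‖ζ - xi x δ‖ : ℝ) : ℂ) ≠ 0 := by exact_mod_cast b4.ne'
    rw [logDeriv_apply, d1.deriv, d2, a3, e1]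
    push_cast
    field_simp
  · have c1 : ‖ζ - x‖ ≤ ‖ζ - xi x δ‖ + ‖xi x δ - x‖ := norm_sub_le_norm_sub_add_norm_sub _ _ _
    have c2 : s ≤ 12 * ‖ζ - xi x δ‖ := by linarith
    have c3 : |t| ≤ 2 * ‖ζ - xi x δ‖ := a2.trans (by nlinarith)
    rw [abs_div, abs_of_pos (by positivity : 0 < ‖ζ - xi x δ‖ ^ 2), ← mul_div_assoc,
      div_le_iff₀ (by positivity)]
    nlinarith [abs_nonneg t]

lemma ndir_congr {ι : Type} {l : End} {U : Finset ι} {p : ι → ℂ} {u u' : ℂ → ℂ} {o CD : ℝ} {z : ℂ}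
    (h : u' =ᶠ[𝓝 z] u) (hu : NDir l U p u o CD z) : NDir l U p u' o CD z := by
  unfold NDir at hu ⊢
  rw [h.deriv_eq, h.self_of_nhds]
  exact ⟨hu.1.congr h.symm, hu.2⟩

variable {π : Type} [Fintype π]

lemma sgm_eq (C : Cv) (x : π → ℂ) (δ : ℝ) : sgm C x δ = fun z => ∏ k, sg C (x k) δ z := rfl

/-- the product of the factors is a positive direction -/
lemma ndir_sgm (C : Cv) (hk : C.hub.k = Kind.out) (hR : 0 < C.R) {x : π → ℂ}
    (hx1 : ∀ k, ‖x k‖ = 1) {δ : ℝ} (h0 : 0 < δ) (h1 : δ ≤ 1 / 4) {ι : Type} {U : Finset ι}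
    {p : ι → ℂ} (hU : ∀ k, ∃ k' ∈ U, p k' = hp C (x k) δ 0) {z : ℂ} (hz : z ∈ C.hub.circ) :
    NDir C.hub U p (sgm C x δ) 0 (24 * Fintype.card π + 1) z := by
  have hz' : ‖z - C.c‖ = C.R := mem_sphere_iff_norm.1 hz
  have key := fun k => sg_circ C (hx1 k) hR h0 h1 hz'
  choose an m t a1 a2 a3 a4 using key
  have n0 : ∀ k, sg C (x k) δ z ≠ 0 := fun k => by
    rw [a2]
    exact_mod_cast (a1 k).ne'
  have e1 : sgm C x δ z = ((∏ k, m k : ℝ) : ℂ) := by
    rw [sgm_eq]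
    push_cast
    exact Finset.prod_congr rfl fun k _ => a2 k
  have p1 : 0 < ∏ k, m k := Finset.prod_pos fun k _ => a1 k
  have e2 : (z - C.hub.c) * deriv (sgm C x δ) z =
      (((∏ k, m k) * ∑ k, t k : ℝ) : ℂ) * Complex.I := by
    have b1 : logDeriv (sgm C x δ) z = ∑ k, logDeriv (sg C (x k) δ) z :=
      logDeriv_prod (fun k _ => n0 k) fun k _ => (an k).differentiableAt
    have b2 : (z - C.c) * logDeriv (sgm C x δ) z = ((∑ k, t k : ℝ) : ℂ) * Complex.I := by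
      rw [b1, Finset.mul_sum]
      push_cast
      rw [Finset.sum_mul]
      exact Finset.sum_congr rfl fun k _ => a3 k
    have b3 : ((∏ k, m k : ℝ) : ℂ) ≠ 0 := by exact_mod_cast p1.ne'
    rw [logDeriv_apply, e1, ← mul_div_assoc, div_eq_iff b3] at b2
    rw [Complex.ofReal_mul]
    exact b2.trans (by ring)
  refine ⟨?_, ?_, ?_, ?_, fun s _ hs => ?_⟩
  · rw [sgm_eq]
    exact Finset.analyticAt_fun_prod _ fun k _ => an k
  · rw [e1, Complex.ofReal_re]
    exact p1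
  · rw [e1, Complex.ofReal_im]
    simp
  · rw [e2, Complex.re_ofReal_mul]
    simp
  · rw [e2, e1, norm_mul, Complex.norm_I, mul_one, Complex.norm_real, Complex.norm_real,
      norm_mul, Real.norm_of_nonneg p1.le, Real.norm_eq_abs]
    have b1 : s * |∑ k, t k| ≤ 24 * Fintype.card π + 1 := by
      rcases le_total s 0 with h | h
      · have := mul_nonpos_of_nonpos_of_nonneg h (abs_nonneg (∑ k, t k))
        have : (0 : ℝ) ≤ Fintype.card π := Nat.cast_nonneg _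
        linarith
      · have c1 : s * |∑ k, t k| ≤ ∑ k, s * |t k| := by
          rw [← Finset.mul_sum]
          exact mul_le_mul_of_nonneg_left (Finset.abs_sum_le_sum_abs _ _) h
        have c2 : ∑ k, s * |t k| ≤ ∑ _k : π, (24 : ℝ) := by
          refine Finset.sum_le_sum fun k _ => a4 k s ?_
          obtain ⟨k', d1, d2⟩ := hU k
          have := hs k' d1
          rwa [d2, hx_hp C (hx1 k) hR, dep_hp C hk (hx1 k) hR] at this
        rw [Finset.sum_const, Finset.card_univ, nsmul_eq_mul] at c2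
        linarith
    nlinarith

lemma exp_small {L : ℝ} (hL : 100 ≤ L) : Real.exp (6 - L) ≤ 1 / (44 * L) := by
  have h1 := Real.quadratic_le_exp_of_nonneg (show 0 ≤ L - 6 by linarith)
  have h2 : 44 * L ≤ Real.exp (L - 6) := by nlinarith
  rw [show 6 - L = -(L - 6) by ring, Real.exp_neg, inv_eq_one_div]
  exact one_div_le_one_div_of_le (by linarith) h2

/-- the own factor near the port -/
lemma own {L : ℝ} (hL : 100 ≤ L) : ∀ᶠ δ in 𝓝[>] (0 : ℝ), ∀ η : ℂ, ‖η‖ ≤ Real.exp (6 - L) →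
    ‖ph (xi 1 δ) (Complex.exp (-δ) + δ * η) / (δ ^ 2 * (2 + 2 * Complex.I)) - 1‖ <
      1 / (20 * L) := by
  set s : ℂ := ((Real.sqrt 2 : ℝ) : ℂ) with hs
  have s2 : s * s = 2 := by
    rw [hs, ← Complex.ofReal_mul, Real.mul_self_sqrt (by norm_num)]
    simp
  set F1 : ℂ → ℂ := fun d => Complex.exp (-d) - Complex.exp (-(s * d) - d * Complex.I) with hF1
  set F2 : ℂ → ℂ := fun d => 1 - Complex.exp (-(s * d) + d * Complex.I) * Complex.exp (-d) with hF2
  have g0 : HasDerivAt (fun d : ℂ => Complex.exp (-d)) (-1) 0 := by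
    simpa using (hasDerivAt_neg (0 : ℂ)).cexp
  have g1 : HasDerivAt (fun d : ℂ => Complex.exp (-(s * d) - d * Complex.I)) (-s - Complex.I) 0 := by
    simpa using ((((hasDerivAt_id (0 : ℂ)).const_mul s).fun_neg).fun_sub
      ((hasDerivAt_id (0 : ℂ)).mul_const Complex.I)).cexp
  have g2 : HasDerivAt (fun d : ℂ => Complex.exp (-(s * d) + d * Complex.I)) (-s + Complex.I) 0 := by
    simpa using ((((hasDerivAt_id (0 : ℂ)).const_mul s).fun_neg).fun_add
      ((hasDerivAt_id (0 : ℂ)).mul_const Complex.I)).cexp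
  have d1 : HasDerivAt F1 (s - 1 + Complex.I) 0 := (g0.fun_sub g1).congr_deriv (by ring)
  have d2 : HasDerivAt F2 (s + 1 - Complex.I) 0 :=
    ((g2.fun_mul g0).const_sub 1).congr_deriv (by simp; ring)
  have c1 : ContinuousAt (dslope F1 0) 0 := continuousAt_dslope_same.2 d1.differentiableAt
  have c2 : ContinuousAt (dslope F2 0) 0 := continuousAt_dslope_same.2 d2.differentiableAt
  have v1 : dslope F1 0 0 = s - 1 + Complex.I := by rw [dslope_same, d1.deriv]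
  have v2 : dslope F2 0 0 = s + 1 - Complex.I := by rw [dslope_same, d2.deriv]
  have hI : (2 + 2 * Complex.I : ℂ) ≠ 0 := fun h => by simpa using congrArg Complex.re h
  set H : ℂ → ℂ → ℂ := fun d η => (dslope F1 0 d + η) *
    (dslope F2 0 d - Complex.exp (-(s * d) + d * Complex.I) * η) / (Complex.exp (-d) + d * η) /
      (2 + 2 * Complex.I) with hH
  have ev : ∀ᶠ d in 𝓝 (0 : ℂ), ∀ η ∈ closedBall (0 : ℂ) (Real.exp (6 - L)),
      ‖H d η - 1‖ < 1 / (20 * L) := by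
    refine (isCompact_closedBall _ _).eventually_forall_of_forall_eventually fun η hη => ?_
    have k1 : ContinuousAt (fun y : ℂ × ℂ => dslope F1 0 y.1) (0, η) :=
      ContinuousAt.comp (f := Prod.fst) c1 continuousAt_fst
    have k2 : ContinuousAt (fun y : ℂ × ℂ => dslope F2 0 y.1) (0, η) :=
      ContinuousAt.comp (f := Prod.fst) c2 continuousAt_fst
    have k3 : ContinuousAt (fun y : ℂ × ℂ => H y.1 y.2) (0, η) :=
      (((k1.add continuousAt_snd).mul (k2.sub (by fun_prop))).div (by fun_prop)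
        (by simp)).div_const _
    refine ((k3.sub continuousAt_const).norm).eventually_lt continuousAt_const ?_
    have e1 : H 0 η - 1 = -η * (2 * (Complex.I - 1) + η) / (2 + 2 * Complex.I) := by
      simp only [hH, v1, v2, mul_zero, zero_mul, neg_zero, add_zero, Complex.exp_zero, one_mul,
        div_one]
      rw [div_sub_one hI]
      congr 1
      linear_combination s2 - Complex.I_mul_I
    have e2 : ‖η‖ ≤ 1 / (44 * L) := (mem_closedBall_zero_iff.1 hη).trans (exp_small hL)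
    have e3 : 1 / (44 * L) ≤ 1 / 100 := one_div_le_one_div_of_le (by norm_num) (by linarith)
    have e4 : ‖2 * (Complex.I - 1)‖ = ‖(2 + 2 * Complex.I : ℂ)‖ := by
      have : 2 * (Complex.I - 1) = Complex.I * (2 + 2 * Complex.I) := by
        linear_combination (-2) * Complex.I_mul_I
      rw [this, norm_mul, Complex.norm_I, one_mul]
    have e5 : 2 ≤ ‖(2 + 2 * Complex.I : ℂ)‖ := by
      simpa using Complex.re_le_norm (2 + 2 * Complex.I)
    have e6 : ‖H 0 η - 1‖ ≤ 2 * ‖η‖ := by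
      rw [e1, norm_div, norm_mul, norm_neg, div_le_iff₀ (by linarith)]
      have := norm_add_le (2 * (Complex.I - 1)) η
      nlinarith [norm_nonneg η]
    have e7 : 2 * (1 / (44 * L)) < 1 / (20 * L) := by
      rw [mul_one_div, div_lt_div_iff₀ (by linarith) (by linarith)]
      linarith
    show ‖H 0 η - 1‖ < 1 / (20 * L)
    linarith
  have ev2 : ∀ᶠ δ : ℝ in 𝓝 (0 : ℝ), ∀ η ∈ closedBall (0 : ℂ) (Real.exp (6 - L)),
      ‖H δ η - 1‖ < 1 / (20 * L) :=
    (Complex.continuous_ofReal.tendsto' 0 0 (by simp)).eventually ev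
  filter_upwards [nhdsWithin_le_nhds ev2, self_mem_nhdsWithin] with δ h hδ η hη
  have hδ' : (δ : ℂ) ≠ 0 := by exact_mod_cast (ne_of_gt hδ)
  have a1 : (δ : ℂ) * dslope F1 0 δ = F1 δ := by simpa [hF1] using sub_smul_dslope F1 0 δ
  have a2 : (δ : ℂ) * dslope F2 0 δ = F2 δ := by simpa [hF2] using sub_smul_dslope F2 0 δ
  have a3 : ph (xi 1 δ) (Complex.exp (-δ) + δ * η) / (δ ^ 2 * (2 + 2 * Complex.I)) = H δ η := by
    have b1 : Complex.exp (-δ) + δ * η - xi 1 δ = δ * (dslope F1 0 δ + η) := by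
      rw [mul_add, a1, xi, hF1]
      ring
    have b2 : 1 - (starRingEnd ℂ) (xi 1 δ) * (Complex.exp (-δ) + δ * η) =
        δ * (dslope F2 0 δ - Complex.exp (-(s * δ) + δ * Complex.I) * η) := by
      rw [mul_sub, a2, conj_xi, hF2, map_one]
      ring
    rw [ph, b1, b2, hH]
    field_simp
  rw [a3]
  exact h η (mem_closedBall_zero_iff.2 hη)

lemma ph_mul {x : ℂ} (hx : ‖x‖ = 1) (ξ ω : ℂ) : ph (x * ξ) (x * ω) = ph ξ ω := by
  have h0 : x ≠ 0 := by
    rw [← norm_pos_iff, hx]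
    exact one_pos
  have h1 : 1 - (starRingEnd ℂ) (x * ξ) * (x * ω) = 1 - (starRingEnd ℂ) ξ * ω := by
    rw [map_mul]
    linear_combination (-(starRingEnd ℂ) ξ * ω) * conj_mul_one hx
  rw [ph, ph, h1, ← mul_sub, mul_assoc, mul_div_mul_left _ _ h0]

lemma own' (C : Cv) (hk : C.hub.k = Kind.out) (hR : 0 < C.R) {x : ℂ} (hx : ‖x‖ = 1) {L : ℝ}
    (hL : 100 ≤ L) : ∀ᶠ δ in 𝓝[>] (0 : ℝ), ∀ z ∈ pd L C.hub (hp C x δ 0),
      ‖sg C x δ z / (δ ^ 2 * (2 + 2 * Complex.I)) - 1‖ < 1 / (20 * L) := by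
  filter_upwards [own hL, self_mem_nhdsWithin] with δ h hδ z hz
  have hδ : 0 < δ := hδ
  have hδ' : (δ : ℂ) ≠ 0 := by exact_mod_cast hδ.ne'
  have hR' : (C.R : ℂ) ≠ 0 := by exact_mod_cast hR.ne'
  have h0 : x ≠ 0 := by
    rw [← norm_pos_iff, hx]
    exact one_pos
  rw [pd, mem_closedBall, dist_eq_norm, dep_hp C hk hx hR] at hz
  have a1 : ‖(z - hp C x δ 0) / (C.R * x * δ)‖ ≤ Real.exp (6 - L) := by
    rw [norm_div, norm_mul, norm_mul, hx, Complex.norm_real, Complex.norm_real,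
      Real.norm_of_nonneg hR.le, Real.norm_of_nonneg hδ.le, div_le_iff₀ (by positivity)]
    exact hz.trans_eq (by rw [Cv.R]; ring)
  have a2 : (z - C.c) / C.R = x * (Complex.exp (-δ) + δ * ((z - hp C x δ 0) / (C.R * x * δ))) := by
    have := hp_sub C x δ
    push_cast at this
    field_simp
    linear_combination this
  have a3 : xi x δ = x * xi 1 δ := by rw [xi, xi, one_mul]
  rw [sg_eq C hx hR]
  simp only
  rw [a2, a3, ph_mul hx]
  exact h _ a1

lemma cont_hp (C : Cv) (x : ℂ) {s t : ℝ → ℝ} (hs : Continuous s) (ht : Continuous t) :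
    Continuous fun δ => hp C x (s δ) (t δ) := by
  unfold hp
  fun_prop

lemma cont_xi (x : ℂ) : Continuous fun δ => (starRingEnd ℂ) (xi x δ) := by
  simp only [conj_xi]
  fun_prop

/-- the discs about the ports shrink to the boundary point -/
lemma pd_small (C : Cv) (hk : C.hub.k = Kind.out) (hR : 0 < C.R) {x : ℂ} (hx : ‖x‖ = 1) (L : ℝ)
    {P : ℝ → ℂ → Prop} (h : ∀ᶠ y : ℝ × ℂ in 𝓝 (0, hp C x 0 0), P y.1 y.2) :
    ∀ᶠ δ in 𝓝[>] (0 : ℝ), ∀ z ∈ pd L C.hub (hp C x δ 0), P δ z := by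
  obtain ⟨r, hr, hb⟩ := Metric.eventually_nhds_iff.1 h
  have c1 : Continuous fun δ : ℝ =>
      ‖hp C x δ 0 - hp C x 0 0‖ + C.R * δ * Real.exp (6 - L) := by
    have := cont_hp C x continuous_id (continuous_const (y := 0))
    exact ((this.sub continuous_const).norm).add (by fun_prop)
  have e1 := c1.continuousAt.eventually_lt (continuousAt_const (y := r)) (x₀ := 0) (by simpa using hr)
  filter_upwards [nhdsWithin_le_nhds e1, nhdsWithin_le_nhds (eventually_lt_nhds hr),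
    self_mem_nhdsWithin] with δ a1 a2 hδ z hz
  have hδ : 0 < δ := hδ
  rw [pd, mem_closedBall, dist_eq_norm, dep_hp C hk hx hR] at hz
  refine hb (y := (δ, z)) ?_
  rw [Prod.dist_eq, max_lt_iff, Real.dist_eq, sub_zero, abs_of_pos hδ, dist_eq_norm]
  have a3 : ‖z - hp C x 0 0‖ ≤ ‖z - hp C x δ 0‖ + ‖hp C x δ 0 - hp C x 0 0‖ :=
    norm_sub_le_norm_sub_add_norm_sub _ _ _
  have a4 : C.hub.r = C.R := rfl
  rw [a4] at hz
  exact ⟨a2, by linarith⟩

lemma hp_ne_c (C : Cv) (hR : 0 < C.R) {x : ℂ} (hx : ‖x‖ = 1) (s : ℝ) : hp C x s 0 ≠ C.c := by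
  rw [← sub_ne_zero, ← norm_pos_iff, norm_hp C hx hR]
  positivity

lemma cont_sg (C : Cv) (x : ℂ) {z : ℂ} (hz : z ≠ C.c) :
    ContinuousAt (fun y : ℝ × ℂ => sg C x y.1 y.2) (0, z) := by
  have c1 := (cont_xi x).comp (continuous_fst (X := ℝ) (Y := ℂ))
  have c2 := (cont_hp C x (s := fun δ => Real.sqrt 2 * δ) (t := fun δ => -δ) (by fun_prop)
    (by fun_prop)).comp (continuous_fst (X := ℝ) (Y := ℂ))
  have c3 := (cont_hp C x (s := fun δ => -(Real.sqrt 2 * δ)) (t := fun δ => -δ) (by fun_prop)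
    (by fun_prop)).comp (continuous_fst (X := ℝ) (Y := ℂ))
  exact (c1.div_const _).neg.continuousAt.mul
    (((continuous_snd.sub c2).mul (continuous_snd.sub c3)).continuousAt.div
      (continuous_snd.sub continuous_const).continuousAt (sub_ne_zero.2 hz))

lemma exp_dir : ∃ b : ℝ, (2 + 2 * Complex.I : ℂ) = Complex.exp (b + Real.pi / 4 * Complex.I) := by
  refine ⟨Real.log (2 * Real.sqrt 2), ?_⟩
  have h1 : (0 : ℝ) < 2 * Real.sqrt 2 := by positivity
  have h2 : ((Real.sqrt 2 : ℝ) : ℂ) * (Real.sqrt 2 : ℝ) = 2 := by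
    rw [← Complex.ofReal_mul, Real.mul_self_sqrt (by norm_num)]
    simp
  have h3 : (Real.pi / 4 : ℂ) = ((Real.pi / 4 : ℝ) : ℂ) := by push_cast; rfl
  rw [Complex.exp_add, ← Complex.ofReal_exp, Real.exp_log h1, Complex.exp_mul_I, h3,
    ← Complex.ofReal_cos, ← Complex.ofReal_sin, Real.cos_pi_div_four, Real.sin_pi_div_four]
  push_cast
  linear_combination (-1 - Complex.I) * h2

/-- the port direction of the product of the factors -/
lemma portDir_sgm (C : Cv) (hk : C.hub.k = Kind.out) (hR : 0 < C.R) {x : π → ℂ}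
    (hx1 : ∀ k, ‖x k‖ = 1) (hi : Function.Injective x) {L : ℝ} (hL : 100 ≤ L) (k : π) :
    ∀ᶠ δ in 𝓝[>] (0 : ℝ), PortDir L (hp C (x k) δ 0) (pd L C.hub (hp C (x k) δ 0))
      (sgm C x δ) := by
  classical
  have hR' : (C.R : ℂ) ≠ 0 := by exact_mod_cast hR.ne'
  have hb := hp_ne_c C hR (hx1 k) 0
  set M : ℝ := ∏ k' ∈ Finset.univ.erase k, ‖x k - x k'‖ ^ 2 with hM
  have M0 : 0 < M := Finset.prod_pos fun k' h =>
    pow_pos (norm_pos_iff.2 (sub_ne_zero.2 fun e => Finset.ne_of_mem_erase h (hi e).symm)) _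
  have M1 : (M : ℂ) ≠ 0 := by exact_mod_cast M0.ne'
  have v0 : ∏ k' ∈ Finset.univ.erase k, sg C (x k') 0 (hp C (x k) 0 0) = M := by
    rw [hM, Complex.ofReal_prod]
    refine Finset.prod_congr rfl fun k' _ => ?_
    have a1 : (hp C (x k) 0 0 - C.c) / C.R = x k := by
      rw [hp_sub]
      simp [hR']
    have a2 : xi (x k') 0 = x k' := by simp [xi]
    rw [sg_eq C (hx1 k') hR]
    simp only
    rw [a1, a2]
    exact (ph_circ _ (hx1 k)).1
  have c1 : ContinuousAt (fun y : ℝ × ℂ =>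
      ‖(∏ k' ∈ Finset.univ.erase k, sg C (x k') y.1 y.2) / M - 1‖) (0, hp C (x k) 0 0) :=
    (((tendsto_finsetProd _ fun k' _ => cont_sg C (x k') hb :
      ContinuousAt (fun y : ℝ × ℂ => ∏ k' ∈ Finset.univ.erase k, sg C (x k') y.1 y.2) _).div_const
        _).sub continuousAt_const).norm
  have e1 := pd_small C hk hR (hx1 k) L (P := fun δ z =>
    ‖(∏ k' ∈ Finset.univ.erase k, sg C (x k') δ z) / M - 1‖ < 1 / (100 * L) ∧ z ≠ C.c)
    ((c1.eventually_lt continuousAt_const (by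
      simp only [v0, div_self M1, sub_self, norm_zero]
      positivity)).and (continuousAt_snd.eventually_ne hb))
  obtain ⟨b, hb2⟩ := exp_dir
  filter_upwards [e1, own' C hk hR (hx1 k) hL, self_mem_nhdsWithin] with δ a1 a2 hδ
  have hδ : 0 < δ := hδ
  have hδ' : (δ : ℂ) ≠ 0 := by exact_mod_cast hδ.ne'
  have N1 : (δ ^ 2 * (2 + 2 * Complex.I) * M : ℂ) =
      Complex.exp ((Real.log (δ ^ 2 * M) + b : ℝ) + Real.pi / 4 * Complex.I) := by
    rw [Complex.ofReal_add, add_assoc, Complex.exp_add, ← hb2, ← Complex.ofReal_exp,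
      Real.exp_log (by positivity)]
    push_cast
    ring
  have N0 : (δ ^ 2 * (2 + 2 * Complex.I) * M : ℂ) ≠ 0 := by
    rw [N1]
    exact Complex.exp_ne_zero _
  have key : ∀ z ∈ pd L C.hub (hp C (x k) δ 0), ∃ w : ℂ, ‖w‖ ≤ 7 / (100 * L) ∧
      sgm C x δ z / (δ ^ 2 * (2 + 2 * Complex.I) * M) = 1 + w := by
    intro z hz
    have b1 := (a1 z hz).1
    have b2 := a2 z hz
    set u := sg C (x k) δ z / (δ ^ 2 * (2 + 2 * Complex.I)) - 1 with hu
    set v := (∏ k' ∈ Finset.univ.erase k, sg C (x k') δ z) / M - 1 with hv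
    refine ⟨u + v + u * v, ?_, ?_⟩
    · have b3 : 1 / (20 * L) ≤ 1 := by
        rw [div_le_one (by linarith)]
        linarith
      have b4 : ‖u * v‖ ≤ ‖v‖ := by
        rw [norm_mul]
        exact mul_le_of_le_one_left (norm_nonneg _) (by linarith)
      have b5 : 7 / (100 * L) = 1 / (20 * L) + 2 * (1 / (100 * L)) := by
        field_simp
        norm_num
      linarith [norm_add_le (u + v) (u * v), norm_add_le u v]
    · rw [sgm_eq]
      simp only
      rw [← Finset.mul_prod_erase _ _ (Finset.mem_univ k), ← div_mul_div_comm, hu, hv]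
      ring
  have hs : 7 / (100 * L) ≤ 1 / 2 := by
    rw [div_le_div_iff₀ (by linarith) (by norm_num)]
    linarith
  refine ⟨Real.log (δ ^ 2 * M) + b,
    fun z => Complex.log (sgm C x δ z / (δ ^ 2 * (2 + 2 * Complex.I) * M)), fun z hz => ?_,
    fun z hz => ?_⟩
  · obtain ⟨w, b1, b2⟩ := key z hz
    refine AnalyticAt.clog (AnalyticAt.fun_div ?_ analyticAt_const N0) ?_
    · rw [sgm_eq]
      refine Finset.analyticAt_fun_prod _ fun k' _ => ?_
      unfold sg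
      exact analyticAt_const.mul
        (AnalyticAt.fun_div (by fun_prop) (by fun_prop) (sub_ne_zero.2 (a1 z hz).2))
    · rw [b2]
      exact Complex.mem_slitPlane_of_norm_lt_one (by linarith)
  · obtain ⟨w, b1, b2⟩ := key z hz
    refine ⟨?_, fun _ => ?_⟩
    · simp only
      rw [b2]
      have b3 := Complex.norm_log_one_add_half_le_self (b1.trans hs)
      have b4 : 3 / 2 * (7 / (100 * L)) < 1 / (8 * L) := by
        rw [div_mul_div_comm, div_lt_div_iff₀ (by linarith) (by linarith)]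
        linarith
      linarith
    · have b3 : sgm C x δ z / (δ ^ 2 * (2 + 2 * Complex.I) * M) ≠ 0 := by
        rw [b2]
        exact Complex.slitPlane_ne_zero (Complex.mem_slitPlane_of_norm_lt_one (by linarith))
      rw [Complex.exp_add, ← N1, Complex.exp_log b3, mul_div_cancel₀ _ N0]

/-- the window factor of the secant -/
def fc (C : Cv) (x : π → ℂ) (δ : ℝ) : ℂ → ℂ :=
  CF.Winq.fac (∏ k, -((starRingEnd ℂ) (xi (x k) δ) / C.R)) (fun k => hp C (x k) δ 0)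
    (fun k => hp C (x k) (Real.sqrt 2 * δ) (-δ)) (fun k => hp C (x k) (-(Real.sqrt 2 * δ)) (-δ))
    fun k => hp C (x k) (-δ) 0

/-- the secant without windows -/
def sc (C K : Cv) (a : ℂ) (q G : E → ℂ) (l : End) : ℂ → ℂ :=
  C.sec K (fun y => G y *
    ∏ i ∈ Finset.univ.filter fun i => (C.e i).k = Kind.pt, (y.1 - (C.e i).c))
    (fun y => (y.1 - a) * q y) l

lemma lam_inl (C K : Cv) (a : ℂ) (q G : E → ℂ) (x : π → ℂ) (δ : ℝ) (j : C.ι) :
    (winS C K π a q G x δ).lam (Sum.inl j) = fun z => sc C K a q G (C.e j) z * fc C x δ z :=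
  funext fun z => CF.Winq.sec_eq C K _ a q G _ _ _ _ _ z

lemma lam_inr (C K : Cv) (a : ℂ) (q G : E → ℂ) (x : π → ℂ) (δ : ℝ) (k : π) :
    (winS C K π a q G x δ).lam (Sum.inr k) = fun z => sc C K a q G C.hub z * fc C x δ z :=
  funext fun z => CF.Winq.sec_eq C K _ a q G _ _ _ _ _ z

lemma fc_an (C : Cv) (x : π → ℂ) (δ : ℝ) {z : ℂ} (hz : ∀ k, z ≠ hp C (x k) δ 0) :
    AnalyticAt ℂ (fc C x δ) z := by
  unfold fc CF.Winq.fac
  exact AnalyticAt.fun_div
    (analyticAt_const.mul (Finset.analyticAt_fun_prod _ fun k _ => by fun_prop))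
    (Finset.analyticAt_fun_prod _ fun k _ => by fun_prop)
    (Finset.prod_ne_zero_iff.2 fun k _ => sub_ne_zero.2 (hz k))

lemma fc_cont (C : Cv) (x : π → ℂ) {z : ℂ} (hz : ∀ k, z ≠ hp C (x k) 0 0) :
    ContinuousAt (fun y : ℝ × ℂ => fc C x y.1 y.2) (0, z) := by
  have c0 : ∀ (k : π) (s t : ℝ → ℝ), Continuous s → Continuous t →
      Continuous fun y : ℝ × ℂ => y.2 - hp C (x k) (s y.1) (t y.1) := fun k s t hs ht =>
    continuous_snd.sub ((cont_hp C (x k) hs ht).comp continuous_fst)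
  unfold fc CF.Winq.fac
  refine ContinuousAt.div (Continuous.continuousAt (Continuous.mul ?_ ?_))
    (Continuous.continuousAt ?_) (Finset.prod_ne_zero_iff.2 fun k _ => sub_ne_zero.2 (hz k))
  · exact continuous_finsetProd _ fun k _ =>
      (((cont_xi (x k)).comp continuous_fst).div_const _).neg
  · exact continuous_finsetProd _ fun k _ =>
      ((c0 k (fun δ => Real.sqrt 2 * δ) (fun δ => -δ) (by fun_prop) (by fun_prop)).mul
        (c0 k (fun δ => -(Real.sqrt 2 * δ)) (fun δ => -δ) (by fun_prop) (by fun_prop))).mul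
        (c0 k (fun δ => -δ) (fun _ => 0) (by fun_prop) (by fun_prop))
  · exact continuous_finsetProd _ fun k _ =>
      c0 k (fun δ => δ) (fun _ => 0) (by fun_prop) (by fun_prop)

lemma a0_ne (C : Cv) (hR : 0 < C.R) {x : π → ℂ} (hx1 : ∀ k, ‖x k‖ = 1) (δ : ℝ) :
    ∏ k, -((starRingEnd ℂ) (xi (x k) δ) / C.R) ≠ 0 := by
  refine Finset.prod_ne_zero_iff.2 fun k _ => neg_ne_zero.2 (div_ne_zero ?_ ?_)
  · rw [← norm_pos_iff, Complex.norm_conj, norm_xi (hx1 k)]
    exact Real.exp_pos _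
  · exact_mod_cast hR.ne'

lemma fc_zero (C : Cv) (x : π → ℂ) : fc C x 0 =
    CF.Winq.fac (∏ k, -((starRingEnd ℂ) (xi (x k) 0) / C.R)) (fun k => hp C (x k) 0 0)
      (fun k => hp C (x k) 0 0) (fun k => hp C (x k) 0 0) fun k => hp C (x k) 0 0 := by
  simp only [fc, mul_zero, neg_zero]

lemma fc_ne (C : Cv) (hR : 0 < C.R) {x : π → ℂ} (hx1 : ∀ k, ‖x k‖ = 1) {z : ℂ}
    (hz : ∀ k, z ≠ hp C (x k) 0 0) : fc C x 0 z ≠ 0 := by
  have h := fun k => sub_ne_zero.2 (hz k)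
  rw [fc_zero]
  exact div_ne_zero (mul_ne_zero (a0_ne C hR hx1 0) (Finset.prod_ne_zero_iff.2 fun k _ =>
    mul_ne_zero (mul_ne_zero (h k) (h k)) (h k))) (Finset.prod_ne_zero_iff.2 fun k _ => h k)

lemma fc_wind (C : Cv) (hR : 0 < C.R) {x : π → ℂ} (hx1 : ∀ k, ‖x k‖ = 1) {l : End} (h0 : 0 ≤ l.r)
    (hz : ∀ k, l.r < ‖hp C (x k) 0 0 - l.c‖) : CF.HasWind l (fc C x 0) 0 := by
  have h := fun k => CF.HasWind.lin_out (hz k) h0
  rw [fc_zero]
  exact (CF.Winq.wind_fac (a0_ne C hR hx1 0) (fun _ => 0) (fun _ => 0) h h h h).cast (sub_self _)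

lemma fc_log (C : Cv) (hR : 0 < C.R) {x : π → ℂ} (hx1 : ∀ k, ‖x k‖ = 1) {N : Set ℂ}
    (hN : IsCompact N) (hz : ∀ z ∈ N, ∀ k, z ≠ hp C (x k) 0 0) :
    ∀ᶠ δ in 𝓝 (0 : ℝ), ∀ z ∈ N,
      AnalyticAt ℂ (fun z => Complex.log (fc C x δ z / fc C x 0 z)) z ∧
      ‖Complex.log (fc C x δ z / fc C x 0 z)‖ ≤ 1 ∧
      fc C x δ z = fc C x 0 z * Complex.exp (Complex.log (fc C x δ z / fc C x 0 z)) := by
  refine hN.eventually_forall_of_forall_eventually fun z h => ?_
  have n0 := fc_ne C hR hx1 (hz z h)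
  have c1 : ContinuousAt (fun y : ℝ × ℂ => fc C x 0 y.2) (0, z) :=
    ContinuousAt.comp (f := Prod.snd) (fc_an C x 0 (hz z h)).continuousAt continuousAt_snd
  have e1 : ∀ᶠ y : ℝ × ℂ in 𝓝 (0, z), ‖fc C x y.1 y.2 / fc C x 0 y.2 - 1‖ < 1 / 2 :=
    (((fc_cont C x (hz z h)).div c1 n0).sub continuousAt_const).norm.eventually_lt
      continuousAt_const (by simp [n0])
  have e2 : ∀ᶠ y : ℝ × ℂ in 𝓝 (0, z), ∀ k, y.2 - hp C (x k) y.1 0 ≠ 0 :=
    eventually_all.2 fun k => (continuous_snd.sub ((cont_hp C (x k) continuous_id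
      continuous_const).comp continuous_fst)).continuousAt.eventually_ne (sub_ne_zero.2 (hz z h k))
  have e3 : ∀ᶠ y : ℝ × ℂ in 𝓝 (0, z), ∀ k, y.2 ≠ hp C (x k) 0 0 :=
    eventually_all.2 fun k => continuousAt_snd.eventually_ne (hz z h k)
  filter_upwards [e1, e2, e3] with y a1 a2 a3
  have a4 := fc_ne C hR hx1 a3
  have a5 : fc C x y.1 y.2 / fc C x 0 y.2 = 1 + (fc C x y.1 y.2 / fc C x 0 y.2 - 1) := by ring
  have a6 : fc C x y.1 y.2 / fc C x 0 y.2 ∈ Complex.slitPlane := by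
    rw [a5]
    exact Complex.mem_slitPlane_of_norm_lt_one (by linarith)
  refine ⟨((fc_an C x y.1 fun k => sub_ne_zero.1 (a2 k)).fun_div (fc_an C x 0 a3) a4).clog a6,
    ?_, ?_⟩
  · rw [a5]
    linarith [Complex.norm_log_one_add_half_le_self a1.le]
  · rw [Complex.exp_log (Complex.slitPlane_ne_zero a6), mul_div_cancel₀ _ a4]

lemma fc_bB (C : Cv) (x : π → ℂ) (δ : ℝ) {z : ℂ}
    (hz : ∀ k, z ≠ hp C (x k) δ 0 ∧ z ≠ hp C (x k) (-δ) 0) :
    fc C x δ z * bB C x δ z / (z - C.c) ^ Fintype.card π = sgm C x δ z := by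
  have h1 : (z - C.c) ^ Fintype.card π = ∏ _k : π, (z - C.c) := by simp
  rw [h1, sgm_eq, fc, CF.Winq.fac, bB, ← Finset.prod_mul_distrib, ← Finset.prod_div_distrib,
    ← Finset.prod_mul_distrib, ← Finset.prod_div_distrib]
  refine Finset.prod_congr rfl fun k _ => ?_
  have a1 := sub_ne_zero.2 (hz k).1
  have a2 := sub_ne_zero.2 (hz k).2
  rw [sg, ← mul_div_assoc]
  field_simp

lemma hub_eq {S lam ch f b g w : ℂ} (h1 : w * S = lam * Complex.exp g) (h2 : lam * ch = 1)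
    (hw : w ≠ 0) : S * f * (ch * b * Complex.exp (-g)) = f * b / w := by
  have h3 : Complex.exp g * Complex.exp (-g) = 1 := by rw [← Complex.exp_add]; simp
  rw [eq_div_iff hw]
  linear_combination (f * ch * b * Complex.exp (-g)) * h1 +
    (f * b * Complex.exp g * Complex.exp (-g)) * h2 + f * b * h3

lemma off_circ (C : Cv) (hk : C.hub.k = Kind.out) (hR : 0 < C.R) {x : π → ℂ}
    (hx1 : ∀ k, ‖x k‖ = 1) {δ : ℝ} (hδ : 0 < δ) {z : ℂ} (hz : z ∈ C.hub.circ) :
    ∀ᶠ y in 𝓝 z, ∀ k, y ≠ hp C (x k) δ 0 ∧ y ≠ hp C (x k) (-δ) 0 := by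
  have h1 := ((End.mem_circ (e := C.hub) hR).1 hz).2
  refine eventually_all.2 fun k => Eventually.and (isOpen_ne.mem_nhds ?_) (isOpen_ne.mem_nhds ?_)
  · rintro rfl
    rw [dep_hp C hk (hx1 k) hR] at h1
    linarith
  · rintro rfl
    rw [dep_hp C hk (hx1 k) hR] at h1
    linarith

lemma off_pd (C : Cv) (hk : C.hub.k = Kind.out) (hR : 0 < C.R) {x : π → ℂ}
    (hx1 : ∀ k, ‖x k‖ = 1) (hi : Function.Injective x) {L : ℝ} (hL : 10 ≤ L) (k : π) :
    ∀ᶠ δ in 𝓝[>] (0 : ℝ), ∀ z ∈ pd L C.hub (hp C (x k) δ 0), z ≠ hp C (x k) δ 0 →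
      ∀ k', z ≠ hp C (x k') δ 0 ∧ z ≠ hp C (x k') (-δ) 0 := by
  have hR' : (C.R : ℂ) ≠ 0 := by exact_mod_cast hR.ne'
  have e1 := pd_small C hk hR (hx1 k) L
    (P := fun δ z => ∀ k', k' ≠ k → z - hp C (x k') δ 0 ≠ 0) (eventually_all.2 fun k' => by
      by_cases h : k' = k
      · exact Eventually.of_forall fun _ a => absurd h a
      · refine ((continuous_snd.sub ((cont_hp C (x k') continuous_id continuous_const).comp
          continuous_fst)).continuousAt.eventually_ne ?_).mono fun _ a _ => a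
        show hp C (x k) 0 0 - hp C (x k') 0 0 ≠ 0
        simpa [hp, sub_eq_zero, hR.ne'] using fun e => h (hi e).symm)
  filter_upwards [e1, nhdsWithin_le_nhds (eventually_lt_nhds (by norm_num : (0 : ℝ) < 1 / 2)),
    self_mem_nhdsWithin] with δ a1 a2 hδ z hz hne k'
  have hδ : 0 < δ := hδ
  have hd := dep_hp C hk (hx1 k) hR δ
  constructor
  · by_cases h : k' = k
    · rw [h]
      exact hne
    · exact sub_ne_zero.1 (a1 z hz k' h)
  · have a3 := pd_sub C hk hR hL (hp_ne_c C hR (hx1 k) δ) (by rw [hd]; exact hδ.le)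
      (by rw [hd]; exact a2.le) hz
    rw [hd, mem_closedBall, dist_eq_norm] at a3
    rintro rfl
    rw [norm_hp C (hx1 k') hR, neg_neg] at a3
    have := Real.one_le_exp hδ.le
    nlinarith

lemma far {c k x : ℂ} {R : ℝ} (hc : c = 1 ∨ c = -1) (hk : k = -c) (hR : 0 < R)
    (hx : ‖x - c‖ ≤ 1 / 2) : 8 / 5 ≤ ‖c + R * x - k‖ := by
  have h1 : ‖c‖ = 1 := by rcases hc with h | h <;> simp [h]
  have h2 : ((2 + R : ℝ) : ℂ) * c = (c + R * x - k) - R * (x - c) := by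
    rw [hk]
    push_cast
    ring
  have h3 := norm_sub_le (c + R * x - k) (R * (x - c))
  rw [← h2, norm_mul, norm_mul, h1, Complex.norm_real, Complex.norm_real,
    Real.norm_of_nonneg hR.le, Real.norm_of_nonneg (by linarith)] at h3
  nlinarith

end Pool.Agent.S6.Secd

namespace Pool.Agent.S6

open Pool.Agent.CF (End Kind Cv)
open FitNew Secd

theorem st_secd : St_SECD := by
  classical
  intro L C K Nd TC TK D a Z q G π _ x hL hA hS hP
  have hC := hA.hC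
  have hk : C.hub.k = Kind.out := hC.out
  have hnp : C.hub.k ≠ Kind.pt := by rw [hk]; decide
  have hR : 0 < C.R := lt_trans (by norm_num) hC.rad.1
  have hx1 : ∀ k, ‖x k‖ = 1 := fun k => (hP.2 k).1
  have hok := hC.curve.ok
  obtain ⟨-, ⟨h1, h1p, hF⟩, -⟩ := CF.st_arc C K TC TK hC hA.hK
  have hb : ∀ k j, j ≠ C.H → (C.e j).r < ‖hp C (x k) 0 0 - (C.e j).c‖ := by
    intro k j hj
    refine (hF _ ⟨hp_ne_c C hR (hx1 k) 0, ?_⟩ ?_).2.2.1 j hj
    · rw [dep_hp C hk (hx1 k) hR]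
      exact ⟨by linarith, h1p.le⟩
    · simpa [hp] using far hC.cen.1 hC.cen.2 hR (hP.2 k).2
  have key : ∀ j, ∃ g : ℂ → ℂ, ∀ᶠ z in 𝓝ˢ (C.e j).circ, AnalyticAt ℂ g z ∧
      (z ≠ (C.e j).c → AnalyticAt ℂ (C.lam j) z) ∧
      (j ≠ C.H → (∀ k, z ≠ hp C (x k) 0 0) ∧ (z ≠ (C.e j).c →
        sc C K a q G (C.e j) z * fc C x 0 z = C.lam j z * Complex.exp (g z))) ∧
      (j = C.H → z ≠ C.c → (z - C.c) ^ Fintype.card π * sc C K a q G C.hub z =
        C.lam C.H z * Complex.exp (g z)) := by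
    intro j
    obtain ⟨n, w1, -⟩ := hC.lam j
    by_cases hj : j = C.H
    · subst hj
      obtain ⟨g, g1, g2⟩ := hS.hub.exp
      refine ⟨g, ?_⟩
      filter_upwards [eventually_nhdsSet_iff_forall.2 fun z hz => (g1 z hz).eventually_analyticAt,
        g2, w1.analyticAt] with z a1 a2 a3
      exact ⟨a1, fun h => (a3 h).1, fun h => absurd rfl h, fun _ => a2⟩
    · obtain ⟨m, w2, w3⟩ := hS.side j hj
      have w4 : CF.SameW (C.e j) (C.lam j) fun z => sc C K a q G (C.e j) z * fc C x 0 z :=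
        ⟨m, w2, (w3.mul (fc_wind C hR hx1 (CF.Winq.ok_nonneg (hok j)) fun k => hb k j hj)).cast
          (add_zero _)⟩
      obtain ⟨g, g1, g2⟩ := w4.exp
      have w5 : ∀ᶠ z in 𝓝ˢ (C.e j).circ, ∀ k, z ≠ hp C (x k) 0 0 :=
        eventually_nhdsSet_iff_forall.2 fun z hz => eventually_all.2 fun k =>
          isOpen_ne.mem_nhds fun e => (hb k j hj).ne' (e ▸ mem_sphere_iff_norm.1 hz)
      refine ⟨g, ?_⟩
      filter_upwards [eventually_nhdsSet_iff_forall.2 fun z hz => (g1 z hz).eventually_analyticAt,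
        g2, w1.analyticAt, w5] with z a1 a2 a3 a4
      exact ⟨a1, fun h => (a3 h).1, fun _ => ⟨a4, a2⟩, fun h => absurd h hj⟩
  choose g hg using key
  obtain ⟨h0, sh, h0p⟩ := ((eventually_all.2 fun j => by
    obtain ⟨d, hd, h⟩ := End.shrink (hok j) (hg j)
    filter_upwards [nhdsWithin_le_nhds (eventually_le_nhds hd)] with t ht using h t t ht ht :
    ∀ᶠ h in 𝓝[>] (0 : ℝ), ∀ j, (C.e j).near h h ⊆ _).and self_mem_nhdsWithin).exists
  have h0p : 0 < h0 := h0p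
  have hcp := fun j => End.isCompact_near (hok j) h0 h0
  choose B hB using fun j => (hcp j).exists_bound_of_continuousOn (f := g j)
    fun z hz => (sh j hz).1.continuousAt.continuousWithinAt
  have hB' : ∀ j, B j ≤ ∑ i, |B i| := fun j => (le_abs_self _).trans
    (Finset.single_le_sum (f := fun i => |B i|) (fun i _ => abs_nonneg _) (Finset.mem_univ j))
  have hnb : ∀ j, ∀ z ∈ (C.e j).circ, (C.e j).near h0 h0 ∈ 𝓝 z := fun j z hz =>
    mem_of_superset ((End.isOpen_nearO (hok j) h0 h0).mem_nhds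
      (End.circ_subset_nearO (hok j) h0p h0p hz)) ((C.e j).nearO_subset_near le_rfl le_rfl)
  have hc0 : (0 : ℝ) ≤ Fintype.card π := Nat.cast_nonneg _
  refine ⟨h0, h0p, ∑ i, |B i| + 1, by positivity, 24 * Fintype.card π + 1, by linarith, ?_⟩
  intro sp fd ρ β s1 s2 s3 s4 hl hU hm hCD hOne _
  have hm' : ∀ j, fd.m j = j := fun j => by rw [hm]; rfl
  have hsub : ∀ j, (sp.l j).near sp.h sp.r1 ⊆ (C.e j).near h0 h0 := fun j => by
    rw [hl]
    exact (C.e j).near_mono s2 s4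
  have hone : ∀ j, (C.e j).k ≠ Kind.pt → ∀ z ∈ (C.e j).circ,
      ∀ᶠ y in 𝓝 z, C.lam j y * fd.chart C j y = 1 := fun j hj z hz => by
    have := hOne j (by rw [hl]; exact hj)
    rw [hl, hm'] at this
    exact (nhds_le_nhdsSet hz) this
  have e1 : ∀ᶠ δ in 𝓝[>] (0 : ℝ), ∀ j, j ≠ C.H → ∀ z ∈ (C.e j).near h0 h0,
      AnalyticAt ℂ (fun z => Complex.log (fc C x δ z / fc C x 0 z)) z ∧
      ‖Complex.log (fc C x δ z / fc C x 0 z)‖ ≤ 1 ∧
      fc C x δ z = fc C x 0 z * Complex.exp (Complex.log (fc C x δ z / fc C x 0 z)) := by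
    refine nhdsWithin_le_nhds (eventually_all.2 fun j => ?_)
    by_cases hj : j = C.H
    · exact Eventually.of_forall fun _ h => absurd hj h
    · exact (fc_log C hR hx1 (hcp j) fun z hz => ((sh j hz).2.2.1 hj).1).mono fun _ h _ => h
  have e2 : ∀ᶠ δ in 𝓝[>] (0 : ℝ), ∀ k, ∀ z ∈ pd L C.hub (hp C (x k) δ 0),
      z ∈ C.hub.near h0 h0 ∧ C.lam C.H z * fd.chart C C.H z = 1 := by
    refine eventually_all.2 fun k => pd_small C hk hR (hx1 k) L
      (P := fun _ z => z ∈ C.hub.near h0 h0 ∧ C.lam C.H z * fd.chart C C.H z = 1) ?_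
    have hq : hp C (x k) 0 0 ∈ C.hub.circ :=
      (End.mem_circ (e := C.hub) hR).2 ⟨hp_ne_c C hR (hx1 k) 0, dep_hp C hk (hx1 k) hR 0⟩
    have hq2 : ∀ᶠ z in 𝓝 (hp C (x k) 0 0),
        z ∈ C.hub.near h0 h0 ∧ C.lam C.H z * fd.chart C C.H z = 1 :=
      Eventually.and (hnb C.H _ hq) (hone C.H hnp _ hq)
    exact (continuousAt_snd (p := ((0 : ℝ), hp C (x k) 0 0))).eventually hq2
  have hubE : ∀ δ, ∀ z ∈ C.hub.near h0 h0, C.lam C.H z * fd.chart C C.H z = 1 →
      (∀ k, z ≠ hp C (x k) δ 0 ∧ z ≠ hp C (x k) (-δ) 0) →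
      sc C K a q G C.hub z * fc C x δ z * ((fd.born C π x δ ρ β).chart (born C π x δ) C.H z *
        Complex.exp (-g C.H z)) = sgm C x δ z := by
    intro δ z a1 a2 a3
    have a4 : z ≠ C.c := (End.near_loop hnp h0 h0 ▸ a1 : z ∈ C.hub.ann _).1
    rw [chart_hub C fd x δ ρ β (hm' _), hub_eq ((sh C.H a1).2.2.2 rfl a4) a2
      (pow_ne_zero _ (sub_ne_zero.2 a4)), fc_bB C x δ a3]
  filter_upwards [e1, e2, eventually_all.2 (off_pd C hk hR hx1 hP.1 (L := L) (by linarith)),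
    eventually_all.2 (portDir_sgm C hk hR hx1 hP.1 hL),
    nhdsWithin_le_nhds (eventually_le_nhds (by norm_num : (0 : ℝ) < 1 / 4)),
    self_mem_nhdsWithin] with δ e1 e2 e3 e4 e5 hδ
  have hδ : 0 < δ := hδ
  obtain ⟨l, lH, lO⟩ : ∃ l : C.ι → ℂ → ℂ, l C.H = g C.H ∧ ∀ j, j ≠ C.H →
      l j = fun z => g j z + Complex.log (fc C x δ z / fc C x 0 z) :=
    ⟨fun j => if j = C.H then g j else fun z => g j z + Complex.log (fc C x δ z / fc C x 0 z),
      if_pos rfl, fun j hj => if_neg hj⟩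
  have lE : ∀ j, j ≠ C.H → ∀ z ∈ (C.e j).near h0 h0, z ≠ (C.e j).c →
      sc C K a q G (C.e j) z * fc C x δ z = C.lam j z * Complex.exp (l j z) := by
    intro j hj z hz hc
    rw [lO j hj, (e1 j hj z hz).2.2, ← mul_assoc, ((sh j hz).2.2.1 hj).2 hc, Complex.exp_add,
      mul_assoc]
  have lA : ∀ j, ∀ z ∈ (C.e j).near h0 h0, AnalyticAt ℂ (l j) z ∧ ‖l j z‖ ≤ ∑ i, |B i| + 1 := by
    intro j z hz
    have a1 := (hB j z hz).trans (hB' j)
    by_cases hj : j = C.H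
    · subst hj
      rw [lH]
      exact ⟨(sh _ hz).1, by linarith⟩
    · rw [lO j hj]
      exact ⟨(sh j hz).1.add (e1 j hj z hz).1,
        (norm_add_le _ _).trans (add_le_add a1 (e1 j hj z hz).2.1)⟩
  have hlam : ∀ j, (winS C K π a q G x δ).lam ((fd.born C π x δ ρ β).m j) =
      fun z => sc C K a q G (C.e j) z * fc C x δ z := fun j => by
    show (winS C K π a q G x δ).lam (Sum.inl (fd.m j)) = _
    rw [hm', lam_inl]
  refine ⟨l, fun j => ⟨fun z hz => (lA j z (hsub j hz)).1, fun z hz => (lA j z (hsub j hz)).2⟩,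
    fun j hj z hz => ?_, fun j hj z hz hc => ?_, fun k hkU j hj => ?_⟩
  · rw [hl] at hj hz
    rw [hlam, hl]
    have hc : ∀ᶠ y in 𝓝 z, y ≠ (C.e j).c :=
      isOpen_ne.mem_nhds ((End.mem_circ ((hok j).pos hj)).1 hz).1
    have hn := mem_of_mem_nhds (hnb j z hz)
    have la := (sh j hn).2.1 hc.self_of_nhds
    by_cases hH : j = C.H
    · subst hH
      have oc := off_circ C hk hR hx1 hδ hz
      constructor
      · refine AnalyticAt.mul ?_ (fc_an C x δ fun k => (oc.self_of_nhds k).1)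
        refine AnalyticAt.congr (f := fun y => C.lam C.H y * Complex.exp (g C.H y) /
          (y - C.c) ^ Fintype.card π) ((la.mul (sh _ hn).1.cexp).fun_div (by fun_prop)
            (pow_ne_zero _ (sub_ne_zero.2 hc.self_of_nhds))) ?_
        filter_upwards [hc, hnb _ z hz] with y a1 a2
        rw [← (sh _ a2).2.2.2 rfl a1]
        exact mul_div_cancel_left₀ _ (pow_ne_zero _ (sub_ne_zero.2 a1))
      · refine ndir_congr (u := sgm C x δ) ?_ ?_
        · filter_upwards [oc, hnb _ z hz, hone _ hj z hz] with y a1 a2 a3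
          rw [lH]
          exact hubE δ y a2 a3 a1
        · show NDir C.hub _ _ _ 0 fd.CD z
          rw [hCD]
          refine ndir_sgm C hk hR hx1 hδ e5 (fun k => ⟨Sum.inr k, ?_, rfl⟩) hz
          have h1 : (fd.born C π x δ ρ β).win (born C π x δ) C.H = fd.U.disjSum Finset.univ :=
            if_pos (congrArg Sum.inl (hm' _))
          exact h1 ▸ Finset.inr_mem_disjSum.2 (Finset.mem_univ k)
    · have a0 : ∀ᶠ y in 𝓝 z, sc C K a q G (C.e j) y * fc C x δ y =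
          C.lam j y * Complex.exp (l j y) := by
        filter_upwards [hc, hnb j z hz] with y a1 a2 using lE j hH y a2 a1
      refine ⟨AnalyticAt.congr (la.mul (lA j z hn).1.cexp) (EventuallyEq.symm a0),
        ndir_one _ _ _ _ ?_ ?_⟩
      · show 0 ≤ fd.CD
        rw [hCD]
        linarith
      · filter_upwards [a0, hone j hj z hz] with y a1 a2
        rw [a1, chart_off C fd x δ ρ β (by rw [hm']; exact hH), Complex.exp_neg]
        have := Complex.exp_ne_zero (l j y)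
        field_simp
        exact a2
  · have hH : j ≠ C.H := fun h => hnp (by rw [hl, h] at hj; exact hj)
    have a1 : (born C π x δ).lam ((fd.born C π x δ ρ β).m j) = C.lam j := by
      show (born C π x δ).lam (Sum.inl (fd.m j)) = _
      rw [hm', lam_off C x δ hH]
    have a2 : z ∈ (sp.l j).near sp.h sp.r1 := by rwa [End.near_pt hj]
    rw [hlam, a1]
    exact lE j hH z (hsub j a2) (by rwa [hl] at hc)
  · have hH : j = C.H := (hm' j).symm.trans (Sum.inl_injective hj)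
    subst hH
    rcases k with k | k
    · have := Finset.inl_mem_disjSum.1 hkU
      rw [hU] at this
      exact absurd this (Finset.notMem_empty _)
    · obtain ⟨b, lg, a1, a2⟩ := e4 k
      refine ⟨b, lg, a1, fun z hz => ⟨(a2 z hz).1, fun hne => ?_⟩⟩
      rw [← (a2 z hz).2 hne, ← hubE δ z (e2 k z hz).1 (e2 k z hz).2 (e3 k z hz hne), lH]
      exact congrArg (· * _) (congrFun (lam_inr C K a q G x δ k) z)

end Pool.Agent.S6
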