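import Pool.Agent.Lib.S6.Site4
import Pool.Agent.Lib.CF.Div

/-!
Section 6 of the project 9ccfb7: the site of the split, assembly.
-/

open Set Filter Topology Metric
open scoped ContDiff

noncomputable section

namespace Pool.Agent.S6

open Pool.Agent.CF (End Kind IsCurve Geo SLH Cv Priv IsPoly dw)
open Pool.Agent.Lib

namespace SITE

theorem ep_mono {l : End} {D : Set E} {φ : E → ℝ} {τ h r1 r2 Cu Λ0 κ κ' thr : ℝ}
    (hk : l.k ≠ Kind.pt) (h0 : 0 ≤ h) (hκ : κ ≤ κ') (H : EP l D φ τ h r1 r2 Cu Λ0 κ thr) :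
    EP l D φ τ h r1 r2 Cu Λ0 κ' thr := fun lv a b => by
  obtain ⟨c, d⟩ := H lv a b
  refine ⟨fun k B Λ e f => ?_, by simpa only [if_neg hk] using d⟩
  obtain ⟨Λ1, H1⟩ := c k B Λ e f
  refine ⟨Λ1, fun s hs f a1 a2 a3 a4 => ?_⟩
  obtain ⟨Bd, b1, b2, b3, b4⟩ := H1 s hs f a1 a2 a3 a4
  exact ⟨Bd, b1, b2, b3, b4.trans (by gcongr)⟩

theorem ends_mono {l : End} {V : E → ℂ} {d1 : ℂ → ℂ} {e : ℝ} {U : Set ℂ} {D : Set E}
    {τ h r1 r2 Cu Λ0 κ1 κ1' κ2 κ0 θ θ1 θ1' Dp : ℝ} (hk : l.k ≠ Kind.pt) (h0 : 0 ≤ h)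
    (hκ : κ1 ≤ κ1') (hθ : θ1' ≤ θ1) (H : EndS l V d1 e U D τ h r1 r2 Cu Λ0 κ1 κ2 κ0 θ θ1 Dp) :
    EndS l V d1 e U D τ h r1 r2 Cu Λ0 κ1' κ2 κ0 θ θ1' Dp :=
  ⟨ep_mono hk h0 hκ H.b1, fun a => H.b2 fun y b c => (a y b c).trans (by gcongr), H.zr⟩

theorem ev_le {c : ℝ} (h : 0 < c) : ∀ᶠ s in 𝓝[>] (0 : ℝ), s ≤ c :=
  (eventually_le_nhds h).filter_mono nhdsWithin_le_nhds

theorem ev_pos : ∀ᶠ s in 𝓝[>] (0 : ℝ), 0 < s := self_mem_nhdsWithin

theorem lo0_mono (l : End) {t t' : ℝ} (h : t ≤ t') : lo0 l t' ≤ lo0 l t := by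
  unfold lo0; split_ifs <;> linarith

theorem rg_mono (C : Cv) {π : Type} (l : C.ι ⊕ π → End) (ρ : C.ι ⊕ π → ℝ) {h r1 s s' u : ℝ}
    (hs : s' ≤ s) (j : C.ι) : rg C l ρ h r1 s u j ⊆ rg C l ρ h r1 s' u j :=
  fun _ a => ⟨a.1, fun b => hs.trans (a.2.1 b), a.2.2⟩

theorem zS_mono (C : Cv) {π : Type} (l : C.ι ⊕ π → End) (ρ : C.ι ⊕ π → ℝ) {t t' : ℝ}
    (h : t ≤ t') (j : C.ι) : zS C l ρ t j ⊆ zS C l ρ t' j := fun _ ⟨k, a, b⟩ =>
  ⟨k, a, End.ann_mono (Icc_subset_Icc (lo0_mono _ h) (by linarith)) b⟩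

theorem wl_k (l : End) (ρ : ℝ) : (wl l ρ).k ≠ Kind.pt := by
  unfold wl
  split_ifs with h
  · simp [End.hole]
  · exact h

section
variable {I : Type} {C K : Cv} {π : Type} [Fintype π] {a : ℂ} {q G : E → ℂ} {x : π → ℂ}
  {L δ : ℝ}

theorem win_w (k : C.ι ⊕ π) : ((winS C K π a q G x δ).e k).w = (C.e (par C π k)).w := by
  cases k <;> rfl

theorem win_lam (k : C.ι ⊕ π) : (winS C K π a q G x δ).lam k =
    dF C.P K.P (gS C G x δ) (qS C a q x δ) (C.e (par C π k)).w := by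
  cases k <;> rfl

theorem win_ok (ok : ∀ i, (C.e i).ok) (k : C.ι ⊕ π) : ((winS C K π a q G x δ).e k).ok := by
  cases k with
  | inl j => exact ok j
  | inr i => exact (if_pos rfl).mpr rfl

theorem sk_of {fx : Fix I} {F : I → ℂ → ℂ} {W : Wd I (C.ι ⊕ π)} {hz r2 h r1 t β σ : ℝ}
    {pr : C.ι ⊕ π → ℝ} {PA : ℝ → E → ℂ} {d : ℂ × ℂ → ℂ} {Zb : Set ℂ} (ok : ∀ i, (C.e i).ok)
    (out : C.hub.k = Kind.out) (P1 : Pre1 fx C K π a q G x L δ r2 F W hz)
    (g : Geb C K π a q G x δ W h r1 t β) (th : 4 * t ≤ hz) (σ0 : 0 < σ) (hβ : β ≤ σ / 2)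
    (hpr : ∀ j, ((winS C K π a q G x δ).e j).k = Kind.pt → 0 < pr j ∧ pr j ≤ W.pr j)
    (k : C.ι ⊕ π)
    (sub : rg C (winS C K π a q G x δ).e W.pr h r1 (-(3 * t)) (-1 / 2) (par C π k) ⊆ Zb)
    (an : AnalyticOnNhd ℂ d (Zb ×ˢ ({0} : Set ℂ)))
    (d0 : ∀ᶠ z in 𝓝ˢ Zb, d (z, 0) = dF C.P K.P (gS C G x δ) (qS C a q x δ) (C.e (par C π k)).w z)
    (zer : ∀ᶠ e : ℝ in 𝓝[>] 0, ∀ z ∈ Zb, ∀ ν : ℂ, ‖ν‖ ≤ σ →
      PA e (z, (C.e (par C π k)).w z + ν) = 0 → ν = e * d (z, e)) :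
    SK (winS C K π a q G x δ) W pr PA d
      (rg C (winS C K π a q G x δ).e W.pr h r1 (-(3 * t)) (-1 / 2) (par C π k)) t σ k := by
  have t0 := g.num.1
  have s1 : (wk (winS C K π a q G x δ) W k).ann (Icc (lo0 ((winS C K π a q G x δ).e k) t) (3 * t))
      ⊆ Zb := fun z b => sub ((g.shyp _).cpt.2.2.2.1 ⟨k, rfl, b⟩)
  have zl : ∀ s ≤ hz, W.zn (winS C K π a q G x δ) s k ⊆ W.zn (winS C K π a q G x δ) hz k :=
    fun s b => UPD.zn_le (UPD.endW P1.sw k) b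
  have f0 : ((winS C K π a q G x δ).e k).k ≠ Kind.pt →
      RW.foot ((winS C K π a q G x δ).e k) (W.pr k) (pr k) = 0 := fun b => RW.foot_loop b _ _
  have l0 : ((winS C K π a q G x δ).e k).k ≠ Kind.pt →
      lo0 ((winS C K π a q G x δ).e k) t = -(3 * t) := fun b => if_neg b
  refine ⟨⟨win_ok ok k, out⟩, fun b => ⟨(hpr k b).1, (hpr k b).2,
    (P1.sw.port k b).2.2.mono (zl _ th)⟩, ⟨⟨wl_k _ _, (g.rad.1 k).1⟩, ⟨t0, g.num.2.1⟩,
    ⟨?_, fun b => f0 b.1, ?_, fun b => (l0 b.1).ge⟩, P1.sw.pr k, g.op k, fun z b => ?_,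
    an.mono (prod_mono s1 Subset.rfl), ?_⟩, (P1.sw.an k).mono (zl _ (by linarith)), g.zb k,
    ⟨σ0, fun z b => ((g.bd k).2 z b).trans hβ⟩, ?_⟩
  · by_cases b : ((winS C K π a q G x δ).e k).k = Kind.pt
    · rw [RW.foot_pt b]
      have := hpr k b
      exact Real.log_nonpos (div_pos this.1 (this.1.trans_le this.2)).le
        ((div_le_one (this.1.trans_le this.2)).2 this.2)
    · exact (f0 b).le
  · unfold lo0; split_ifs <;> linarith
  · refine g.an k z b.1 (b.2.elim (fun c => c.2) fun c => c.2) fun c => ?_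
    rcases b.2 with e | e
    · have := e.1
      rw [f0 c, l0 c, min_eq_right (by linarith)] at this
      linarith
    · exact e.1
  · rw [win_lam]; exact nhdsSet_mono s1 d0
  · rw [win_w]; exact zer.mono fun e b z c => b z (sub c)

end

end SITE

open SITE in
theorem st_site (hR : St_RING) (hP : St_PEND) (hV : St_VCM) (hS : St_STR) (hK : St_SITK)
    (hLR : St_LOWR) (hLH : St_LOWH) (hG : St_GEOB) (hD : St_KDS) (hE : St_DESC) : St_SITE := by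
  classical
  obtain ⟨L0, HR⟩ := hR
  refine ⟨max L0 20, fun L hL => ?_⟩
  obtain ⟨wc, wok, HR⟩ := HR L (le_of_max_le_left hL)
  have L20 : 20 ≤ L := le_of_max_le_right hL
  intro I _ fx C K Nd TC TK D a Z q G π π' _ _ x x' sp Sig n η Dp κf fo alg sec pos hl geom clear
    hn kit hDp
  have P0 : Pre0 C K Nd TC TK D a Z q G x x' sp Sig :=
    ⟨alg, sec, pos, hl, geom, clear, kit.2.1⟩
  have ok : ∀ i, (C.e i).ok := alg.hC.curve.ok
  have out : C.hub.k = Kind.out := alg.hC.out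
  have hp : (C.e C.H).k ≠ Kind.pt := fun b => by
    have : C.hub.k = Kind.pt := b
    rw [out] at this; cases this
  have h0 : 0 < sp.h := kit.1
  have η0' : 0 < η := kit.2.2.2.2.1
  have Cu1 : 1 ≤ sp.Cu := by
    obtain ⟨-, -, -, -, -, -, -, Λ1, Λ2, b1, -, b2, -⟩ := kit
    linarith
  have r10 : 0 < sp.r1 := geom.geo.r1pos
  obtain ⟨θH, θH0, RH⟩ := HR sp.h n sp.Cu sp.Λ0 η Dp κf π π' x x' kit hn pos.1
    (fun k => (pos.2 k).1) hDp
  obtain ⟨θL, θL0, RL⟩ := HR sp.h n sp.Cu sp.Λ0 η Dp κf Empty Empty Empty.elim Empty.elim kit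
    (by simp) (fun k => isEmptyElim k) (fun k => isEmptyElim k) hDp
  refine ⟨min (min θH θL) (Real.exp (-333)), by positivity, fun θ θ0 θ1 => ?_⟩
  filter_upwards [RH θ θ0, RL θ θ0, hG C K Nd TC TK D a Z q G π π' x x' sp Sig L P0 L20, ev_pos]
    with δ ⟨oH, oH0, RH⟩ ⟨oL, oL0, RL⟩ GE δ0
  intro F W hz sm gap hz0 sw r2 bp pr hpr τ τ0 iso t0 t00
  have P1 : Pre1 fx C K π a q G x L δ sp.r2 F W hz := ⟨sm, gap, hz0, sw, r2, bp⟩
  replace GE := GE I fx F W hz P1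
  have HP := fun (j : {j // (C.e j).k = Kind.pt}) => hP η θ (W.pr (Sum.inl j.1)) sp.r1 η0' θ0
    (θ1.trans (min_le_right _ _)) (sw.port (Sum.inl j.1) j.2).1 r10
  choose oP oP0 RP using HP
  obtain ⟨o, ⟨o1, o2, o3, o4⟩, o0⟩ := (((ev_le oH0).and ((ev_le oL0).and
    ((eventually_all.2 fun j => ev_le (oP0 j)).and
      (ev_le (show (0 : ℝ) < 1 / 100 by norm_num))))).and ev_pos).exists
  obtain ⟨t1, g1⟩ := (GE 1 one_pos).exists
  choose Wt HV using fun j => hV _ _ _ _ _ _ _ _ _ _ (g1.shyp j)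
  choose d dF' d0 dz HS using fun j => hS _ _ _ _ _ _ _ _ _ _ (g1.shyp j)
  obtain ⟨σ, ⟨σ1, σ2⟩, σ0⟩ := (((eventually_all.2 dz).and (ev_le τ0)).and ev_pos).exists
  have o40 : 0 < o / 4 := by positivity
  obtain ⟨r, hr, r0⟩ := ((eventually_all.2 fun j => HS j (o / 4) o40).and ev_pos).exists
  obtain ⟨t, ⟨g, KD⟩, b1, b2, b3, b4, b5⟩ := (((GE (min (σ / 2) (r / 4)) (by positivity)).and
    (hD C K Nd TC TK D a Z q G π π' x x' sp Sig L δ I fx F W hz τ P0 fo P1 τ0 iso)).and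
    ((ev_le t00).and ((ev_le (show 0 < hz / 4 by positivity)).and ((ev_le g1.num.1).and
      ((ev_le o0).and (ev_le (mul_pos o0 δ0))))))).exists
  have tp := g.num.1
  obtain ⟨R, ⟨hR, cR, KD⟩, R1, R0⟩ := (((eventually_all.2 hr).and
    ((eventually_all.2 fun j => HV j o o0).and (KD _ g))).and ((ev_le τ0).and ev_pos)).exists
  obtain ⟨η0, KD, η00⟩ := (KD.and ev_pos).exists
  have sb := fun j => rg_mono C (winS C K π a q G x δ).e W.pr (h := sp.h) (r1 := sp.r1)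
    (u := -1 / 2) (show -(3 * t1) ≤ -(3 * t) by linarith) j
  refine ⟨t, η0, d, tp, b1, by linarith, η00, fun j => (dF' j).mono (sb j), g.near,
    fun kk ε ε0 => ?_⟩
  have sk := fun k => sk_of (PA := fun e => SH.pA C.P K.P (gS C G x δ) (qS C a q x δ) e)
    (d := d (par C π k)) ok out P1 g (by linarith) σ0 (min_le_left _ _) hpr k (sb _) (dF' _).1
    (d0 _) (σ1 _)
  have inj : Function.Injective x' := fun i i' b =>
    Sum.inr_injective (pos.1 (a₁ := Sum.inr i) (a₂ := Sum.inr i') b)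
  filter_upwards [eventually_all.2 fun k => hK _ _ _ _ _ _ _ _ _ _ (sk k) kk ε ε0,
    eventually_all.2 fun k : {k : C.ι ⊕ π // k ≠ Sum.inl C.H} =>
      hLR _ _ _ _ _ _ _ _ _ (o / 4) _ (sk k.1) k.2 o40.le,
    hLH _ _ _ _ _ _ _ _ _ (o / 4) wc L π' x' (sk (Sum.inl C.H)) o40 wok inj
      (fun i => (pos.2 (Sum.inr i)).1), ev_le (mul_pos o0 tp), ev_pos] with y2 SI LR LH y1 y0
  filter_upwards [LH] with δ' ⟨sd, LH⟩
  have LK : ∀ k, ∃ (lm Tw : ℂ → ℂ) (T : ℝ → ℝ),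
      LowK wc L (winS C K π a q G x δ) W pr π' x' δ' y2 t (o / 4) sd k lm Tw T := fun k => by
    by_cases b : k = Sum.inl C.H
    · subst b; exact LH
    · exact LR ⟨k, b⟩ wc L π' x' δ' sd
  choose lm Tw T low using LK
  filter_upwards [eventually_all.2 fun k => SI k (lm k) (Tw k) (T k) (o / 4) _ (by linarith)
    (low k).low (low k).pf.1 (low k).pf.2, eventually_all.2 hR,
    ev_le (show 0 < r / 4 by positivity), ev_pos] with e SI ST e1 e0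
  choose M EA lA form site using SI
  choose Ef new using fun k => (low k).new e e0
  obtain ⟨hz', new, c1, c0⟩ := ((eventually_all.2 new).and
    ((ev_le (show 0 < y2 / 8 by positivity)).and ev_pos)).exists
  have SW := siteW_of (B := winS C K π a q G x δ) (M := M) (τ := τ)
    ⟨c0, by nlinarith⟩ σ2 fun k => site k π' x' δ' _ sd hz' c0 c1 (fun z b => b) (new k)
  refine ⟨M, _, EA, lA, hz', sd, SW, fun F' cl eq X Y std thick j fr mem => ?_⟩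
  let N : ℂ → ℂ := fun z =>
    if b : ∃ k, par C π k = j ∧ z ∈ W.zn (winS C K π a q G x δ) (3 * t) k then
      nW (winS C K π a q G x δ) W M b.choose z else 0
  let s : ℝ → SD := fun o' => ⟨(C.e j).w, vS C K (gS C G x δ) (qS C a q x δ), Wt j,
    C.sec K (gS C G x δ) (qS C a q x δ) (C.e j), fun z => d j (z, e), N, sS y2, e, y2, t, r, R, o'⟩
  have zs := zS_mono C (winS C K π a q G x δ).e W.pr b3 j
  have S1 := ST j (s o) rfl rfl rfl rfl rfl rfl rfl (by change o / 4 ≤ o; linarith)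
  have S2 := ST j (s (o / 4)) rfl rfl rfl rfl rfl rfl rfl le_rfl
  have mid : Mid C K π π' a q G x x' wc L δ δ' W pr M sd sp.h sp.r1 τ (min (σ / 2) (r / 4)) X Y j
      (s o) := by
    refine ⟨⟨ok, out, bp⟩, g, ⟨⟨⟨e0, by change 4 * e ≤ r; linarith⟩, ⟨y0, y1, tp, b4⟩, R0⟩, R1, δ0,
      b5, o4, min_le_right _ _⟩, ⟨rfl, rfl, rfl⟩, std, sw.pr, cR j (s o) rfl rfl rfl rfl rfl le_rfl,
      ⟨fun z b => S1.1 z (zs b), fun z b => (S2.1 z (zs b)).2.2.2⟩, fun z b => S1.2 z (sb j b),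
      fun k b z c => ?_, fun k b => ⟨lm k, Tw k, T k, low k, by subst b; exact form k⟩,
      KD M F' SW.bd cl eq X Y thick j fr, mem⟩
    have h1 : ∃ k, par C π k = j ∧ z ∈ W.zn (winS C K π a q G x δ) (3 * t) k := ⟨k, b, c⟩
    have h2 : h1.choose = k := by
      by_contra h3
      exact Set.disjoint_left.1 (g.disj _ _ h3 (h1.choose_spec.1.trans b.symm)) h1.choose_spec.2 c
    change N z = _
    simp only [N, dif_pos h1, h2]
  obtain ⟨D1, D2, D3⟩ := hE _ _ _ _ _ _ _ _ _ _ _ _ _ _ _ _ _ _ _ _ _ _ _ _ _ _ mid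
  by_cases hj : j = C.H
  · obtain ⟨lm', Tw', E1, T', c2, c3, c4⟩ := D3 hj
    rw [c4]
    subst hj
    simp only [if_true]
    refine ends_mono hp h0.le ?_ ((min_le_left _ _).trans (min_le_left _ _))
      (RH (s o) C.hub True τ (t / 2) δ' sp.r1 sp.r2 lm' Tw' E1 T' X Y o1 c2 fun _ => c3)
    have : (0 : ℝ) ≤ Fintype.card π := Nat.cast_nonneg _
    rw [add_le_add_iff_left, div_le_iff₀ (by positivity)]
    linarith
  · simp only [if_neg hj, add_zero]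
    by_cases hk : (C.e j).k = Kind.pt
    · obtain ⟨c2, c3, c4, c5⟩ := D1 hk
      rw [c5]
      exact RP ⟨j, hk⟩ (s o) (C.e j) X Y τ sp.h sp.r2 sp.Cu sp.Λ0 η _ Dp (o3 _) hk rfl std R1 c3 c2
        c4 geom.r2.1 Cu1 le_rfl (min_le_right _ _)
    · obtain ⟨lm', Tw', E1, T', c2, c4⟩ := D2 hk hj
      rw [c4]
      have := RL (s o) (C.e j) False τ (t / 2) δ' sp.r1 sp.r2 lm' Tw' E1 T' X Y o2 c2 False.elim
      simp only [Fintype.card_eq_zero, Nat.cast_zero, zero_div, mul_zero, sub_zero, add_zero]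
        at this
      exact ends_mono hk h0.le le_rfl ((min_le_left _ _).trans (min_le_right _ _)) this

end Pool.Agent.S6
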