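import Pool.Agent.Lib.S6.Site4
import Pool.Agent.Lib.S6.B_PRF

/-! Block SITK: the properties of the new walls at one site. -/

open Set Filter Topology Metric
open scoped ContDiff

noncomputable section

namespace Pool.Agent.S6

open Pool.Agent.CF (End Kind Cv)
open Pool.Agent.Lib

namespace SITK

theorem dep_c (l : End) : l.dep l.c = 0 := by simp [End.dep]

theorem pr0 {f : ℝ → ℝ} {two : Prop} (h : SH.PR f two) : f 0 = 0 := by
  simpa using h.flat.2 0

theorem aE_eq {I : Type} (B : Cv) (W : Wd I B.ι) (y2 : ℝ) (k : B.ι)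
    (hρ : (B.e k).k = Kind.pt → 0 < W.pr k) : aE B W y2 k = (wk B W k).move y2 := by
  unfold aE wk End.adj wl
  by_cases hk : (B.e k).k = Kind.pt
  · rw [if_pos hk, if_pos hk, if_pos (mul_pos (hρ hk) (Real.exp_pos _))]
    simp [End.hole, End.move, End.rad, End.sgn]
  · rw [if_neg hk, if_neg hk]

end SITK

open SITK in
theorem st_sitk (hL : St_LOC) : St_SITK := by
  intro I B W pr PA d Zb t τ k H kk ε hε
  have hτ := H.bd.1
  have hr : 0 < (wk B W k).r := H.st.lk.2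
  have hc : (wk B W k).c = (B.e k).c := RW.wl_c _ _
  have hρ : (B.e k).k = Kind.pt → 0 < W.pr k := fun a => (H.port a).1.trans_le (H.port a).2.1
  have mz : ∀ {s : ℝ} {z : ℂ}, z ≠ (wk B W k).c → (z ∈ W.zn B s k ↔ (wk B W k).dep z ≤ s ∧
      ((B.e k).k ≠ Kind.pt → (k = B.H → 0 ≤ (wk B W k).dep z) ∧
        (¬ k = B.H → -s ≤ (wk B W k).dep z))) := fun hz => RW.mem_zn hρ _ (hc ▸ hz)
  have ctr : (wk B W k).c ∈ W.zn B (3 * t) k → (B.e k).k = Kind.pt := fun hz => by
    by_contra hk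
    exact RW.zn_ne hk hz hc
  filter_upwards [hL _ _ _ _ d _ _ t H.st kk (min ε (τ / 2)) (by positivity)] with y2 h2
    lm Tw T o Sad ho low sT pf
  obtain ⟨y0, y1, -⟩ := pf.num
  have ht : 0 < t := by linarith
  filter_upwards [h2 lm Tw T o Sad ho low sT pf, H.zer, self_mem_nhdsWithin] with e h3 zer he
  obtain ⟨M, sm, loc⟩ := h3
  have he0 : 0 < e := he
  have n0 : nL (wk B W k) (W.Ef k) (B.lam k) M (wk B W k).c = 0 := by
    have : M (wk B W k).c = 0 := by
      by_contra h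
      exact (loc.supp _ h).1 rfl
    rw [nL, dep_c, pr0 H.st.pr, this, Complex.ofReal_zero, zero_mul, add_zero]
  have lwe : ∀ z, z ≠ (wk B W k).c → (wk B W k).dep z ≤ y2 / 8 →
      nL (wk B W k) (W.Ef k) (B.lam k) M z = lw (wk B W k) (W.Ef k) (B.lam k) lm Tw e y2 z :=
    fun z h1 h2 => by
      rw [loc.eq z h1 (by linarith), pf.S0 _ (by linarith), lw]
      push_cast
      ring
  have bd : ∀ z ∈ W.zn B (3 * t) k, ‖nL (wk B W k) (W.Ef k) (B.lam k) M z‖ ≤ τ := fun z hz => by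
    have a := sm.2 0 (Nat.zero_le _) z
    rw [norm_iteratedFDeriv_zero] at a
    have b := H.bd.2 z hz
    have c := min_le_right ε (τ / 2)
    exact (norm_add_le _ _).trans (by linarith)
  have pos : ∀ z ∈ (wk B W k).ann (Icc 0 (3 * t)), z ∈ W.zn B (3 * t) k := fun z hz =>
    (mz hz.1).2 ⟨hz.2.2, fun _ => ⟨fun _ => hz.2.1, fun _ => by linarith [hz.2.1]⟩⟩
  have circ : ∀ z, z ∈ (aE B W y2 k).circ ↔ z ≠ (wk B W k).c ∧ (wk B W k).dep z = y2 := fun z => by
    rw [aE_eq B W y2 k hρ, End.mem_circ (End.rad_pos hr y2)]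
    refine and_congr_right fun a => ?_
    rw [End.dep_move hr y2 a, sub_eq_zero]
  refine ⟨M, fun s => e / 2 * (sS y2 (y2 + s) - 1), fun v => 2 * d (v, e) - lm v,
    ⟨n0, loc.eq⟩, fun π' _ x' δ' W' sd hz' z0 z1 hS N => ?_⟩
  have mA : ∀ z ∈ (aE B W y2 k).ann (Icc (-hz') hz'),
      z ∈ (wk B W k).ann (Icc (7 * y2 / 8) (9 * y2 / 8)) ∧
        (aE B W y2 k).dep z = (wk B W k).dep z - y2 := fun z hz => by
    rw [aE_eq B W y2 k hρ] at hz ⊢
    have a := End.dep_move hr y2 (z := z) hz.1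
    have b := hz.2
    rw [a] at b
    exact ⟨⟨hz.1, by linarith [b.1], by linarith [b.2]⟩, a⟩
  refine ⟨⟨sm.1, fun j hj z => (sm.2 j hj z).trans (min_le_left _ _)⟩, fun z hz => ?_, bd,
    fun k' hk z hz => (N.sub k' hk z hz).1, N.pr, fun k' hk z hz => ?_, N.pole, N.loop, N.disj,
    fun z hz => ?_, (st_prf.2.1 y2 y0).2 (e / 2) (by positivity), fun z hz => ?_, ?_,
    fun z hz => ?_, fun k' hk => disjoint_left.2 fun z h1 h2 => ?_, fun z hz h0 => ?_,
    fun z hz hb h0 => ?_, fun z hz h0 h1 f hf => ?_, fun hk i => ?_⟩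
  · obtain ⟨a, b, c⟩ := loc.supp z hz
    refine (mz a).2 ⟨c, fun hk => ?_⟩
    rw [RW.foot_loop hk] at b
    exact ⟨fun _ => b, fun _ => by linarith⟩
  · obtain ⟨a, b⟩ := N.sub k' hk z hz
    by_cases h : z = (wk B W k).c
    · have p := ctr (h ▸ a)
      rcases k' with k' | i
      · obtain rfl : k' = k := hk
        have q : (wk (born B π' x' δ') W' (Sum.inl k')).c = z := (RW.wl_c _ _).trans (h.trans hc).symm
        have q1 := dep_c (wk (born B π' x' δ') W' (Sum.inl k'))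
        rw [q] at q1
        rw [q1, pr0 (N.pr _ rfl), Complex.ofReal_zero, zero_mul, h, n0]
      · obtain rfl : B.H = k := hk
        exact absurd (H.ok.2.symm.trans p) (by decide)
    · rw [lwe z h b]
      exact N.exact k' hk z hz (hc ▸ h)
  · obtain ⟨⟨a, b, c⟩, -⟩ := mA z hz
    have : z ∈ (wk B W k).ann (Icc 0 (3 * t)) := ⟨a, by linarith, by linarith⟩
    exact ⟨pos z this, H.zb.1 this⟩
  · obtain ⟨a, b, c, -⟩ := loc.anA z (mA z hz).1
    exact ⟨a, b, c⟩
  · rw [aE_eq B W y2 k hρ]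
    exact loc.same
  · obtain ⟨a, b⟩ := mA z hz
    rw [b, add_sub_cancel]
    exact (loc.anA z a).2.2.2
  · linarith [(mA z h1).1.2.1, (N.sub k' hk z h2).2]
  · by_cases h : z = (wk B W k).c
    · have p := ctr (h ▸ hz)
      refine ⟨Sum.inl k, rfl, ?_⟩
      show z ∈ ct (B.e k) (W'.pr (Sum.inl k))
      rw [ct, if_pos p, h, hc]
      exact mem_closedBall_self (N.ctr p).le
    · have a := ((mz h).1 hz).1
      have b : (wk B W k).dep z ≤ y2 / 8 := by
        by_contra b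
        exact loc.nz z ⟨h, by linarith, a⟩ h0
      exact N.zero z hz (hc ▸ h) b (lwe z h b ▸ h0)
  · have a := H.zb.2 ⟨hz, hb⟩
    exact (circ z).2 ⟨a.1, loc.one z a (zer z hb _ (bd z hz) h0)⟩
  · have h : z ≠ (wk B W k).c := fun h => h0 (h ▸ n0)
    obtain ⟨a, b⟩ := (mz h).1 hz
    exact (loc.real z h a (fun x => (b x.1).2 x.2) h0 (fun x => h1 ((circ z).2 ⟨h, x⟩)) f _
      (H.an z hz) hf).imp id (hS z)
  · obtain ⟨a, b, c⟩ := N.saddle hk i
    have e1 : wk B W k = B.hub := by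
      subst hk
      exact if_neg fun p => absurd (H.ok.2.symm.trans p) (by decide)
    have ev : ∀ᶠ v in 𝓝 (sd i), nL (wk B W k) (W.Ef k) (B.lam k) M v =
        lw (wk B W k) (W.Ef k) (B.lam k) lm Tw e y2 v := by
      filter_upwards [(End.isOpen_ann hr isOpen_Ioo).mem_nhds (e1 ▸ a)] with v hv
      exact lwe v hv.1 hv.2.2.le
    obtain ⟨a1, a2, a3⟩ := a
    refine ⟨⟨a1, a2, by linarith⟩, H.zb.1 (e1 ▸ ⟨a1, a2.le, by linarith⟩), ?_, fun x => ?_,
      fun S f hf => c S f ?_⟩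
    · rw [ev.self_of_nhds]
      exact b
    · have := ((circ _).1 x).2
      rw [e1] at this
      linarith
    · filter_upwards [hf, ev] with v h1 h2
      rw [h1, h2]

end Pool.Agent.S6
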