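import Pool.Agent.Lib.S6.SplG1

/-! Algebra and geometry of the split. -/

open Set Filter Topology Metric

noncomputable section

namespace Pool.Agent.S6

open Pool.Agent.CF (End Kind IsCurve Geo Cv Priv SheetFam SplitOut)

namespace SPLG

variable {J J0 : Type} {W K : Cv} {Nd Nd' : Finset E} {TC TK : ℤ} {D : ℕ} {G q : E → ℂ}
  {Sig Sig' : Finset ℂ} {r h h0 r0 s0 : ℝ} {sp : Sp J} {m : J → K.ι} {par : K.ι → J}
  {l : J0 → End} {par0 : W.ι → J0} {s t : W.ι → ℝ} {dC : W.ι → ℂ × ℂ → ℂ} {d : J → ℂ × ℂ → ℂ}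

theorem sub2 (hK : KIn W K Nd G sp Sig' m par) (j : J) :
    (sp.l j).near sp.h sp.r1 ⊆ (sp.l j).nearO (2 * sp.h) (2 * sp.r1) :=
  End.near_subset_nearO _ (by linarith [hK.geom.geo.hpos]) (by linarith [hK.geom.geo.r1pos])

theorem sub3 (hK : KIn W K Nd G sp Sig' m par) (j : J) :
    (sp.l j).near sp.h sp.r1 ⊆ (sp.l j).near (2 * sp.h) (2 * sp.r1) :=
  (sub2 hK j).trans (hK.geom.geo.nearO_sub j)

theorem fam (hA : CF.Alg W K Nd TC TK D) (hS : SIn W K Nd Nd' G q Sig r h)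
    (hK : KIn W K Nd G sp Sig' m par) (j : J) :
    ∃ d, SheetFam (W.pA K G q) (sp.l j).w ((sp.l j).near sp.h sp.r1) d := by
  have g := hK.geom.geo
  have p1 := hA.hC.curve.poly
  have p2 := hA.hK.curve.poly
  obtain ⟨d, a, -⟩ := CF.st_uift (fun x => G x * K.P x * W.P x) q (sp.l j).w _
    ((hS.pG.mul p2).mul p1) hS.pq (End.isCompact_near (hK.geom.curve.ok j) sp.h sp.r1)
    ((g.wan j).mono (sub3 hK j)) (by
      filter_upwards [(End.isOpen_nearO (hK.geom.curve.ok j) _ _).mem_nhdsSet.2 (sub2 hK j)]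
        with z hz
      simp [(g.wz j z (g.nearO_sub j hz)).1]) fun z hz => by
      obtain ⟨b0, b1⟩ := g.wz j z (sub3 hK j hz)
      rw [CF.dw_mul ((hS.pG.mul p2).differentiableAt _) (p1.differentiableAt _),
        CF.dw_mul (hS.pG.differentiableAt _) (p2.differentiableAt _), b0]
      simp only [mul_zero, zero_add, zero_mul, add_zero]
      exact mul_ne_zero (mul_ne_zero (hK.ne j z hz).1 b1) (hK.ne j z hz).2
  exact ⟨d, a⟩

theorem splitIn (hA : CF.Alg W K Nd TC TK D) (hS : SIn W K Nd Nd' G q Sig r h)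
    (hK : KIn W K Nd G sp Sig' m par)
    (hd : ∀ j, SheetFam (W.pA K G q) (sp.l j).w ((sp.l j).near sp.h sp.r1) (d j))
    (h1 : s0 ≤ h) (h2 : ∀ j, (W.e j).k ≠ Kind.pt → ∀ s, 0 < s → s ≤ s0 →
      (∀ z ∈ (W.e j).ann (Icc 0 s), 1 / 4 < ‖z‖) ∧
        closedBall (W.e j).c ((W.e j).rad s) ⊆ ball W.c W.R ∪ ball K.c K.R)
    (hc : CutP W K G q r s0 s t dC) : CF.SplitIn W K Nd Nd' G q Sig r h s t
      (Sum.elim dC fun k => d (par k)) fun j => W.sec K G q (W.e j) := by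
  have g := hS.geo
  have hC := hA.hC.curve
  have st : ∀ j, |s j| < 2 * h ∧ t j < 2 * r := fun j =>
    ⟨by rw [abs_of_pos (hc.le j).1]; linarith [(hc.le j).2.1, g.hpos],
      by linarith [(hc.le j).2.2, g.r1pos]⟩
  have cv := CF.all_move _ _ _ _ _ _ _ s t hC g st
  refine ⟨hS.pG, hS.pq, g, hS.sig, hS.gK, hS.gC, hS.qz, hS.qn, hS.qo, hS.dir, st,
    fun j hk => ⟨(hc.le j).1, h2 j hk _ (hc.le j).1 (hc.le j).2.1⟩, hc.port, ?_, fun j => ?_⟩
  · rintro (j | k)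
    · show SheetFam _ ((W.e j).adj (s j) (t j)).w _ _
      rw [End.adj_w]; exact hc.fam j
    · show SheetFam _ (K.e k).w _ _
      rw [(hK.par k).1]; exact (hd _).mono (hK.par k).2.1
  · have np := End.adj_ne_pt (s := s j) fun a => (hc.port j a).1
    have ne : ∀ z ∈ ((W.e j).adj (s j) (t j)).circ, q (z, (W.e j).w z) ≠ 0 ∧
        G (z, (W.e j).w z) * K.P (z, (W.e j).w z) * CF.dw W.P (z, (W.e j).w z) ≠ 0 := by
      intro z hz
      have a := g.nearO_sub j (End.adj_circ_subset (hC.ok j) (st j).1 (st j).2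
        (by linarith [g.r1pos]) hz)
      have b := g.cut_subset hC (fun j _ => (hc.le j).1.le) (cv.mem_of_circ j hz)
      rw [End.adj_w] at b
      refine ⟨fun c => g.not_near (hS.sig.2.2 _ (hS.qz.1 _ b c)) j a, mul_ne_zero (mul_ne_zero
        (fun c => ?_) fun c => g.not_near (hS.sig.2.1 _ (hA.nodal.left _ b c)) j a) (g.wz j z a).2⟩
      obtain ⟨i, c1, c2⟩ := hS.gC _ b c
      by_cases e : i = j
      · subst e
        rw [End.adj_pt c1 (hc.port i c1).1, show z = (W.e i).c from congrArg Prod.fst c2] at hz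
        exact (hc.port i c1).1.ne (by simpa [End.circ, End.hole] using hz)
      · refine (g.disj e).notMem_of_mem_left (a := (z, (W.e j).w z)) ?_ ⟨a, rfl⟩
        rw [c2, End.near_pt c1]; exact ⟨mem_closedBall_self (by linarith [g.r1pos]), rfl⟩
    have wa := cv.wan j
    rw [End.adj_w] at wa
    obtain ⟨k, a⟩ := CF.all_wext.1 _ (W.sec K G q (W.e j)) np ((cv.ok j).pos np)
      ((End.analyticOnNhd_res hS.pq wa).div (End.analyticOnNhd_res
        ((hS.pG.mul hA.hK.curve.poly).mul hC.poly.dw) wa) fun z hz => (ne z hz).2)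
      fun z hz => div_ne_zero (ne z hz).1 (ne z hz).2
    exact ⟨k, a, a⟩

/-- the open region covered by the tubes -/
def Q (sp : Sp J) (l : J0 → End) (h0 r0 τ τ' : ℝ) : Set E :=
  (⋃ j, {y : E | y.1 ∈ (l j).nearO h0 r0 ∧ ‖y.2 - (l j).w y.1‖ < τ}) ∪
    ⋃ j, {y : E | y.1 ∈ (sp.l j).nearO sp.h sp.r1 ∧ ‖y.2 - (sp.l j).w y.1‖ < τ'}

variable {τ τ' : ℝ}

theorem Q_open (hK : KIn W K Nd G sp Sig' m par) (hC : CIn W r h l h0 r0 par0) :
    IsOpen (Q sp l h0 r0 τ τ') :=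
  (isOpen_iUnion fun j => open_tube (End.isOpen_nearO (hC.ok j).1 _ _)
    ((hC.ok j).2.mono (End.nearO_subset_near _ le_rfl le_rfl)) _).union
    (isOpen_iUnion fun j => open_tube (End.isOpen_nearO (hK.geom.curve.ok j) _ _)
      ((hK.geom.geo.wan j).continuousOn.mono
        ((End.nearO_subset_near _ le_rfl le_rfl).trans (sub3 hK j))) _)

theorem Q_W (hC : CIn W r h l h0 r0 par0) (hτ : 0 < τ) {i : W.ι} {y : E}
    (hy : y ∈ (W.e i).gr ((W.e i).near (2 * h) (2 * r))) : y ∈ Q sp l h0 r0 τ τ' :=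
  Or.inl (mem_iUnion.2 ⟨par0 i, (hC.par i).2 hy.1, by
    rw [← (hC.par i).1, ← hy.2, sub_self, norm_zero]; exact hτ⟩)

theorem K_loop (hK : KIn W K Nd G sp Sig' m par) {k : K.ι} (hk : (K.e k).k ≠ Kind.pt) :
    K.e k = sp.l (par k) := by
  rw [(hK.eq (par k)).1, ← (hK.par k).2.2 hk]

theorem Q_K (hK : KIn W K Nd G sp Sig' m par) (hτ : 0 < τ') {y : E} (hy : y ∈ CF.loops K.e) :
    y ∈ Q sp l h0 r0 τ τ' := by
  obtain ⟨k, a, b, c⟩ := hy
  rw [K_loop hK a] at b c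
  exact Or.inr (mem_iUnion.2 ⟨par k, End.circ_subset_nearO (hK.geom.curve.ok _) hK.geom.geo.hpos
    hK.geom.geo.r1pos b, by rw [← c, sub_self, norm_zero]; exact hτ⟩)

theorem radius (hA : CF.Alg W K Nd TC TK D) (hS : SIn W K Nd Nd' G q Sig r h)
    (hK : KIn W K Nd G sp Sig' m par) (hC : CIn W r h l h0 r0 par0) (hτ : 0 < τ) (hτ' : 0 < τ') :
    ∃ R > (0 : ℝ), ∀ y ∈ cthickening R (W.Γ ∪ K.Γ), y ∉ Q sp l h0 r0 τ τ' →
      G y * K.P y * W.P y = 0 → y ∈ W.Γ ∪ K.Γ := by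
  have c1 := hA.hC.curve
  have c2 := hA.hK.curve
  have en : ∀ y ∈ CF.ends W.e, y ∈ Q sp l h0 r0 τ τ' := fun y ⟨i, a⟩ => Q_W hC hτ
    ⟨hS.geo.nearO_sub i (End.circ_subset_nearO (c1.ok i) (by linarith [hS.geo.hpos])
      (by linarith [hS.geo.r1pos]) a.1), a.2⟩
  obtain ⟨η, a, b⟩ := CF.PB.thick (c1.cpt.union c2.cpt) (Q := fun y => y ∉ Q sp l h0 r0 τ τ' →
      G y * K.P y * W.P y = 0 → y ∈ W.Γ ∪ K.Γ) fun y hy => by
    by_cases hq : y ∈ Q sp l h0 r0 τ τ'
    · filter_upwards [(Q_open hK hC).mem_nhds hq] with x a b using absurd a b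
    have g0 : G y ≠ 0 := fun e => hy.elim (fun a => by
      obtain ⟨i, b, c⟩ := hS.gC y a e
      exact hq (en y ⟨i, by rw [End.circ_pt (c1.ok i) b, c]; exact ⟨rfl, rfl⟩⟩))
      fun a => hS.gK y a e
    have g1 : ∀ᶠ x in 𝓝 y, W.P x = 0 → x ∈ W.Γ := by
      by_cases e : W.P y = 0
      · exact c1.int y (hy.elim id fun a => (hA.nodal.node y (hA.nodal.right y a e)).1)
          fun ⟨i, _, a⟩ => hq (en y ⟨i, a⟩)
      · exact (c1.poly.continuous.continuousAt.eventually_ne e).mono fun x a b => absurd b a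
    have g2 : ∀ᶠ x in 𝓝 y, K.P x = 0 → x ∈ K.Γ := by
      by_cases e : K.P y = 0
      · exact c2.int y (hy.elim (fun a => (hA.nodal.node y (hA.nodal.left y a e)).2.1) id)
          fun a => hq (Q_K hK hτ' a)
      · exact (c2.poly.continuous.continuousAt.eventually_ne e).mono fun x a b => absurd b a
    filter_upwards [hS.pG.continuous.continuousAt.eventually_ne g0, g1, g2] with x a b c _ e
    rcases mul_eq_zero.1 e with e | e
    · exact Or.inr (c ((mul_eq_zero.1 e).resolve_left a))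
    · exact Or.inl (b e)
  exact ⟨η / 2, half_pos a, fun y hy => b y
    (cthickening_subset_thickening' a (half_lt_self a) _ hy)⟩

theorem T_closed (hK : KIn W K Nd G sp Sig' m par) (τ : ℝ) (j : J) : IsClosed (sp.T τ j) :=
  closed_tube (End.isCompact_near (hK.geom.curve.ok j) _ _).isClosed
    ((hK.geom.geo.wan j).continuousOn.mono (sub3 hK j)) τ

/-- the radius of the tubes about the sheets of `K` -/
theorem tubes [Fintype J] (hA : CF.Alg W K Nd TC TK D) (hK : KIn W K Nd G sp Sig' m par)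
    (hd : ∀ j, SheetFam (W.pA K G q) (sp.l j).w ((sp.l j).near sp.h sp.r1) (d j)) :
    ∃ τ > (0 : ℝ), (∀ j, ∀ y ∈ sp.T τ j, y ∉ W.Γ) ∧
      (∀ j j', j ≠ j' → Disjoint (sp.T τ j) (sp.T τ j')) ∧
      ∀ᶠ ε in 𝓝 (0 : ℂ), ∀ j, ∀ z ∈ (sp.l j).near sp.h sp.r1, ∀ ν : ℂ, ‖ν‖ ≤ τ →
        (W.pA K G q ε (z, (sp.l j).w z + ν) = 0 ↔ ν = ε * d j (z, ε)) := by
  have cN := fun j => End.isCompact_near (hK.geom.curve.ok j) sp.h sp.r1
  have cw := fun j => (hK.geom.geo.wan j).continuousOn.mono (sub3 hK j)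
  choose σ s0 N s1 s2 using fun j => (hd j).sheet (cN j)
  have e1 : ∀ j, ∀ᶠ τ in 𝓝[>] (0 : ℝ), ∀ y ∈ sp.T τ j, y ∉ W.Γ := fun j =>
    (thin_tube (cN j) (cw j) (O := W.Γᶜ) fun y hy =>
      hA.hC.curve.cpt.isClosed.isOpen_compl.mem_nhds fun a => (hK.ne j _ hy.1).2 (by
        rw [← hy.2]; exact hA.hC.curve.zero y a)).mono fun τ a y b => a y b.1 b.2
  have e2 : ∀ j j', ∀ᶠ τ in 𝓝[>] (0 : ℝ), j ≠ j' → Disjoint (sp.T τ j) (sp.T τ j') := by
    intro j j'
    by_cases e : j = j'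
    · exact Eventually.of_forall fun _ a => absurd e a
    obtain ⟨U, V, u1, u2, u3, u4, u5⟩ := SeparatedNhds.of_isCompact_isCompact
      (End.isCompact_gr (cN j) (cw j)) (End.isCompact_gr (cN j') (cw j'))
      ((hK.geom.geo.disj e).mono (End.gr_mono _ (sub3 hK j)) (End.gr_mono _ (sub3 hK j')))
    filter_upwards [thin_tube (cN j) (cw j) fun y hy => u1.mem_nhds (u3 hy),
      thin_tube (cN j') (cw j') fun y hy => u2.mem_nhds (u4 hy)] with τ a b _
    exact u5.mono (fun y c => a y c.1 c.2) fun y c => b y c.1 c.2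
  obtain ⟨τ, ⟨a, b⟩, c⟩ := (((eventually_all.2 e1).and
    (eventually_all.2 fun j => eventually_all.2 (e2 j))).and
    ((show ∀ᶠ τ in 𝓝[>] (0 : ℝ), 0 < τ from self_mem_nhdsWithin).and (eventually_all.2 fun j =>
      (show ∀ᶠ τ in 𝓝[>] (0 : ℝ), τ ∈ Ioo 0 (σ j) from Ioo_mem_nhdsGT (s0 j))))).exists
  refine ⟨τ, c.1, a, b, (eventually_all.2 s2).mono fun ε f j z hz ν hν => ?_⟩
  exact (f j z (subset_of_mem_nhdsSet (s1 j) hz)).2 ν (hν.trans (c.2 j).2.le)

end SPLG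

open SPLG in
theorem st_splg : St_SPLG := by
  intro J J0 _ _ W K Nd Nd' TC TK D G q Sig Sig' r h h0 r0 sp m par l par0 hA hS hK hC
  choose d hd using fam hA hS hK
  obtain ⟨s1, s1p, hs⟩ := CF.st_cuts W K TC hA.hC
  obtain ⟨τ0, τ0p, t1, t2, t3⟩ := tubes hA hK hd
  refine ⟨d, hd, min s1 h, lt_min s1p hS.geo.hpos, τ0 / 2, half_pos τ0p, fun τ τ' hτ hτ' h1 => ?_⟩
  obtain ⟨R, Rp, hR⟩ := radius hA hS hK hC hτ (half_pos hτ')
  refine ⟨R, Rp, fun s t dC hc => ?_⟩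
  have hI := splitIn hA hS hK hd (min_le_right _ _)
    (fun j a s b c => hs j a s b (c.trans (min_le_left _ _))) hc
  obtain ⟨-, cv, sb, -, Γe, hO, o1, o2, -⟩ := CF.all_spl0 _ _ _ _ _ _ _ _ _ _ _ _ _ _ _ _ hA hI
  have c1 := hA.hC.curve
  have c2 := hA.hK.curve
  have g := hK.geom.geo
  have cN := fun j => End.isCompact_near (hK.geom.curve.ok j) sp.h sp.r1
  have dc : ∀ j, ∀ z ∈ (sp.l j).near sp.h sp.r1, ContinuousAt (d j) (z, 0) := fun j z hz =>
    ((hd j).1 (z, 0) ⟨hz, rfl⟩).continuousAt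
  have sm : ∀ η > (0 : ℝ), ∀ᶠ ε in 𝓝 (0 : ℂ), ∀ j, ∀ z ∈ (sp.l j).near sp.h sp.r1,
      ‖ε * d j (z, ε)‖ < η := fun η a =>
    eventually_all.2 fun j => CF.eventually_small (cN j) (dc j) a
  have eo : ∀ j, (W.ee K s t j).ok := by
    rintro (j | j)
    · exact cv.ok j
    · exact c2.ok j
  have ec : ∀ j, ∀ z ∈ (W.ee K s t j).circ, ContinuousAt (W.ee K s t j).w z ∧
      ContinuousAt (Sum.elim dC (fun k => d (par k)) j) (z, 0) := fun j z hz =>
    ⟨by rcases j with j | j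
        · exact (cv.wan j z hz).continuousAt
        · exact (c2.wan j z hz).continuousAt, ((hI.fam j).1 (z, 0) ⟨hz, rfl⟩).continuousAt⟩
  have e1 : ∀ j, ∀ᶠ ε in 𝓝[≠] (0 : ℂ), ∀ z ∈ (sp.l j).near sp.h sp.r1 ∩ {z | (sp.l j).side z},
      (z, (sp.l j).w z + ε * d j (z, ε)) ∈ Γe ε := fun j => by
    refine sout hO eo ec ((cN j).inter_right (End.isClosed_side _)) ((hd j).mono inter_subset_left)
      (fun z hz => ⟨(g.wan j z (sub3 hK j hz.1)).continuousAt,
        Or.inr ((g.mem j (sub3 hK j hz.1)).2 hz.2)⟩) ?_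
    rintro (i | k) a z b c e
    · exact absurd (e ▸ cv.zero _ (cv.mem_of_circ i c)) (hK.ne j z b.1).2
    · change (K.e k).k ≠ Kind.pt at a
      by_cases f : par k = j
      · exact Eventually.of_forall fun z' u => by
          show (K.e k).side z'
          rw [K_loop hK a, f]; exact u.2
      · exact ((g.disj f).notMem_of_mem_left (a := (z, (sp.l j).w z))
          ⟨sub3 hK _ ((hK.par k).2.1 c), (hK.par k).1 ▸ e⟩ ⟨sub3 hK j b.1, rfl⟩).elim
  have e2 : ∀ i, ∀ᶠ ε in 𝓝 (0 : ℂ), ∀ z ∈ ((W.e i).adj (s i) (t i)).circ, ∀ j,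
      (z, ((W.e i).adj (s i) (t i)).w z + ε * dC i (z, ε)) ∉ sp.T τ0 j := fun i => by
    obtain ⟨N, a, b⟩ := tube_gr (End.isCompact_circ _) (fun z hz => (ec (Sum.inl i) z hz).1)
      (fun z hz => (ec (Sum.inl i) z hz).2) (O := ⋂ j, (sp.T τ0 j)ᶜ) fun z hz =>
        iInter_mem.2 fun j => (T_closed hK τ0 j).isOpen_compl.mem_nhds fun c =>
          t1 j _ c (sb (cv.mem_of_circ i hz))
    exact b.mono fun ε c z hz => mem_iInter.1 (c z (subset_of_mem_nhdsSet a hz))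
  have e3 := zer ((hS.pG.mul c2.poly).mul c1.poly).continuous hS.pq.continuous hO
    (((c1.cpt.union c2.cpt).cthickening (r := R)).diff (Q_open (τ := τ) (τ' := τ' / 2) hK hC))
    fun y hy a => ⟨(hR y hy.1 hy.2 a).imp_left fun b => Or.inl ⟨b, fun i c =>
      hy.2 (Q_W hC hτ (End.gr_mono _ (hS.geo.nearO_sub i) c))⟩, by
      rintro ⟨i | k, b, c⟩
      · exact hy.2 (Q_W hC hτ ⟨CF.Spla.circ hA hI i c.1, End.adj_w ▸ c.2⟩)
      · exact hy.2 (Q_K hK (half_pos hτ') ⟨k, b, c⟩)⟩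
  refine ⟨Γe, ?_, fun η a => ?_, fun k ρ a b => ofReal_tendsto.eventually
    (o2 _ _ _ _ a (by rw [(hK.par k).1]; exact (hd _).mono b)), fun p ρ w a b => ?_,
    fun w d' U a b c e => ofReal_tendsto.eventually (sout hO eo ec a b
      (fun z hz => ⟨(c z hz).1, Or.inl (c z hz).2⟩) ?_)⟩
  · filter_upwards [ofReal_tendsto.eventually ((((o1.and hO.curve).and (eventually_all.2 e1)).and
      e3).and (nhdsWithin_le_nhds ((((eventually_all.2 e2).and t3).and (sm _ (half_pos hτ'))).and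
      (eventually_all.2 fun j => CF.eventually_analyticOnNhd (cN j) (hd j).1))))]
      with e ⟨⟨⟨⟨a1, a2⟩, a3⟩, a4⟩, ⟨⟨a5, a6⟩, a7⟩, a8⟩
    have an : ∀ j, AnalyticOnNhd ℂ (shW sp d e j) ((sp.l j).near sp.h sp.r1) := fun j =>
      ((g.wan j).mono (sub3 hK j)).add (analyticOnNhd_const.mul (a8 j))
    have z0 : ∀ j, ∀ z ∈ (sp.l j).near sp.h sp.r1, W.pA K G q e (z, shW sp d e j z) = 0 :=
      fun j z hz => (a6 j z hz _ (by linarith [a7 j z hz])).2 rfl
    have sT : ∀ j, (sp.setW (shW sp d e)).T τ' j ⊆ sp.T τ0 j := fun j y hy => ⟨hy.1, by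
      have b1 : ‖y.2 - shW sp d e j y.1‖ ≤ τ' := hy.2
      have b2 := norm_add_le (y.2 - shW sp d e j y.1) (e * d j (y.1, e))
      rw [show y.2 - shW sp d e j y.1 + e * d j (y.1, e) = y.2 - (sp.l j).w y.1 by
        unfold shW; ring] at b2
      linarith [a7 j y.1 hy.1]⟩
    have mT : ∀ j, ∀ z ∈ (sp.l j).near sp.h sp.r1, (z, shW sp d e j z) ∈ sp.T τ0 j :=
      fun j z hz => sT j ⟨hz, by
        show ‖shW sp d e j z - shW sp d e j z‖ ≤ τ'
        rw [sub_self, norm_zero]; exact hτ'.le⟩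
    refine ⟨a1, an, fun j z hz => ⟨z0 j z hz, fun b => a3 j z ⟨hz, b⟩⟩,
      fun j y hy => ⟨t1 j y (sT j hy), fun b => ?_⟩,
      fun j j' b => (t2 j j' b).mono (sT j) (sT j'), fun y hy b => ?_⟩
    · have b1 : y.2 = shW sp d e j y.1 := by
        have := (a6 j y.1 hy.1 _ (sT j hy).2).1 (by simpa using a2.zero y b)
        unfold shW; rw [← this]; ring
      refine ⟨b1, ?_⟩
      by_cases hk : (sp.l j).k = Kind.pt
      · exact End.side_pt hk _
      have b2 : y.1 ∈ (sp.l j).ann (Icc (-sp.h) sp.h) := End.near_loop hk sp.h sp.r1 ▸ hy.1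
      have b3 : (sp.l j).ann (Icc (-sp.h) 0) ⊆ (sp.l j).near sp.h sp.r1 := by
        rw [End.near_loop hk]; exact End.ann_mono (Icc_subset_Icc_right g.hpos.le)
      have hr := (hK.geom.curve.ok j).pos hk
      refine (End.side_iff hk hr b2.1).2 (not_lt.1 fun b4 => clop2 a2 (j := Sum.inr (m j))
        (l := sp.l j) (w := shW sp d e j) ?_ hk ((an j).continuousOn.mono b3) (fun z hz => ?_) y.1
        ⟨b2.1, b2.2.1, b4⟩ (b1 ▸ b))
      · show (K.e (m j)).pert (d (par (m j))) e = _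
        rw [← (hK.eq j).1, (hK.eq j).2]; rfl
      · have b5 := b3 (End.ann_mono Ico_subset_Icc_self hz)
        refine ⟨z0 j z b5, ?_⟩
        rintro ⟨i | k, c3, c4, c5⟩
        · have c6 : shW sp d e j z = ((W.e i).adj (s i) (t i)).w z + e * dC i (z, e) := c5
          exact a5 i z c4 j (c6 ▸ mT j z b5)
        · change (K.e k).k ≠ Kind.pt at c3
          change z ∈ (K.e k).circ at c4
          by_cases f : par k = j
          · rw [K_loop hK c3, f, End.mem_circ hr] at c4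
            exact hz.2.2.ne c4.2
          · have c6 : shW sp d e j z = (K.e k).w z + e * d (par k) (z, e) := c5
            rw [(hK.par k).1] at c6
            have c7 : shW sp d e j z = shW sp d e (par k) z := c6
            exact disjoint_left.1 (t2 _ _ f) (mT _ z ((hK.par k).2.1 c4)) (c7 ▸ mT j z b5)
    · by_cases hq : y ∈ Q sp l h0 r0 τ (τ' / 2)
      · rcases hq with hq | hq <;> obtain ⟨j, c3, c4⟩ := mem_iUnion.1 hq
        · exact Or.inr (Or.inl ⟨j, End.nearO_subset_near _ le_rfl le_rfl c3, c4.le⟩)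
        · have c5 := End.nearO_subset_near _ le_rfl le_rfl c3
          refine Or.inr (Or.inr ⟨j, c5, ?_⟩)
          have b2 := norm_sub_le (y.2 - (sp.l j).w y.1) (e * d j (y.1, e))
          rw [sub_sub] at b2
          show ‖y.2 - ((sp.l j).w y.1 + e * d j (y.1, e))‖ ≤ τ'
          linarith [a7 j y.1 c5]
      · exact Or.inl (a4 y ⟨hy, hq⟩ b)
  · filter_upwards [ofReal_tendsto.eventually ((hO.close η a).and (nhdsWithin_le_nhds (sm η a)))]
      with e ⟨b, c⟩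
    exact ⟨b.1, fun j z hz => by rw [shW, add_sub_cancel_left]; exact (c j z hz).le⟩
  · obtain ⟨η, hη, h3⟩ := CF.st_priv.2 (W.cut s t r h ∪ K.Γ) (closedBall p ρ)
      (cv.cpt.union c2.cpt) isClosed_closedBall fun y hy => hy.elim (b y) (a.none y)
    filter_upwards [ofReal_tendsto.eventually (hO.close η hη)] with e c
    exact ⟨a.ins, a.far, a.an, a.zero, a.mem, a.only, fun x hx => h3 x (c.1 hx)⟩
  · rintro (i | k) f z u v x
    · exact e i z u v (End.adj_w ▸ x)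
    · have y1 := c2.mem_of_circ k v
      have y2 : w z = (K.e k).w z := x
      exact absurd ⟨k, v, y2⟩ (hA.nodal.node _ (hA.nodal.left _ (sb (c z u).2)
        (c2.zero _ (y2 ▸ y1)))).2.2.2.2.2.2

end Pool.Agent.S6
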