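import Pool.Agent.Lib.S6.SplitB

/-!
Section 6 of the project 9ccfb7: algebra and geometry of the split, second form.
-/

open Set Filter Topology Metric
open scoped ContDiff

noncomputable section

namespace Pool.Agent.S6

open Pool.Agent.CF (End Kind IsCurve Geo SLH Cv Priv SheetFam)
open Pool.Agent.Lib

/-- `St_SPLG` with the isolation in the tubes of the fixed radius `τ1` -/
def St_SPLG2 : Prop := ∀ (J J0 : Type) [Fintype J] [Fintype J0] (W K : Cv) (Nd Nd' : Finset E)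
  (TC TK : ℤ) (D : ℕ) (G q : E → ℂ) (Sig Sig' : Finset ℂ) (r h h0 r0 : ℝ) (sp : Sp J)
  (m : J → K.ι) (par : K.ι → J) (l : J0 → End) (par0 : W.ι → J0), CF.Alg W K Nd TC TK D →
  SIn W K Nd Nd' G q Sig r h → KIn W K Nd G sp Sig' m par → CIn W r h l h0 r0 par0 →
  ∃ d : J → ℂ × ℂ → ℂ,
    (∀ j, SheetFam (W.pA K G q) (sp.l j).w ((sp.l j).near sp.h sp.r1) (d j)) ∧
    ∃ s0 > (0 : ℝ), ∃ τ1 > (0 : ℝ), ∀ τ τ' : ℝ, 0 < τ → 0 < τ' → τ' ≤ τ1 → ∃ R > (0 : ℝ),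
    ∀ (s t : W.ι → ℝ) (dC : W.ι → ℂ × ℂ → ℂ), CutP W K G q r s0 s t dC → ∃ Γe : ℂ → Set E,
      (∀ᶠ e : ℝ in 𝓝[>] 0,
        CF.Alg (splA W K G q s t dC (fun k => d (par k)) Γe e) W Nd' (2 * TC + TK)
          (2 * TC - Nd.card) (2 * D) ∧
        SOut W K (splA W K G q s t dC (fun k => d (par k)) Γe e) (W.pA K G q e) sp (shW sp d e)
          l h0 r0 τ τ' R ∧
        ∀ j, ∀ y ∈ (sp.setW (shW sp d e)).T τ1 j,
          y ∉ W.Γ ∧ (y ∈ Γe e → y.2 = shW sp d e j y.1)) ∧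
      (∀ η > (0 : ℝ), ∀ᶠ e : ℝ in 𝓝[>] 0, Γe e ⊆ thickening η (W.cut s t r h ∪ K.Γ) ∧
        ∀ j, ∀ z ∈ (sp.l j).near sp.h sp.r1, ‖shW sp d e j z - (sp.l j).w z‖ ≤ η) ∧
      (∀ k ρ, Priv K W (K.e k).c ρ (K.e k).w →
        closedBall (K.e k).c ρ ⊆ (sp.l (par k)).near sp.h sp.r1 → ∀ᶠ e : ℝ in 𝓝[>] 0,
          Priv (splA W K G q s t dC (fun k => d (par k)) Γe e) W (K.e k).c ρ
            ((K.e k).pert (d (par k)) e).w) ∧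
      (∀ p ρ w, Priv W K p ρ w → (∀ y ∈ W.cut s t r h, y.1 ∉ closedBall p ρ) →
        ∀ᶠ e : ℝ in 𝓝[>] 0, Priv W (splA W K G q s t dC (fun k => d (par k)) Γe e) p ρ w) ∧
      ∀ (w : ℂ → ℂ) (d' : ℂ × ℂ → ℂ) (U : Set ℂ), IsCompact U → SheetFam (W.pA K G q) w U d' →
        (∀ z ∈ U, ContinuousAt w z ∧ (z, w z) ∈ W.cut s t r h) →
        (∀ j, ∀ z ∈ U, z ∈ ((W.e j).adj (s j) (t j)).circ → w z = (W.e j).w z →
          ∀ᶠ z' in 𝓝 z, z' ∈ U → ((W.e j).adj (s j) (t j)).side z') →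
        ∀ᶠ e : ℝ in 𝓝[>] 0, ∀ z ∈ U, (z, w z + e * d' (z, e)) ∈ Γe e

end Pool.Agent.S6
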