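import Pool.Agent.Lib.S6.B_SPLG
import Pool.Agent.Lib.S6.SplitD

/-! Algebra and geometry of the split, second form. -/

open Set Filter Topology Metric

noncomputable section

namespace Pool.Agent.S6

open Pool.Agent.CF (End Kind IsCurve Geo Cv Priv SheetFam SplitOut)

open SPLG in
theorem st_splg2 : St_SPLG2 := by
  intro J J0 _ _ W K Nd Nd' TC TK D G q Sig Sig' r h h0 r0 sp m par l par0 hA hS hK hC
  choose d hd using fam hA hS hK
  obtain ⟨s1, s1p, hs⟩ := CF.st_cuts W K TC hA.hC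
  obtain ⟨τ0, τ0p, t1, t2, t3⟩ := tubes hA hK hd
  refine ⟨d, hd, min s1 h, lt_min s1p hS.geo.hpos, τ0 / 2, half_pos τ0p, fun τ τ' hτ hτ' h1 => ?_⟩
  obtain ⟨R, Rp, hR⟩ := radius hA hS hK hC hτ (half_pos hτ')
  refine ⟨R, Rp, fun s t dC hc => ?_⟩
  have hI := splitIn hA hS hK hd (min_le_right _ _)
    (fun j a s b c => hs j a s b (c.trans (min_le_left _ _))) hc
  obtain ⟨-, cv, sb, -, Γe, hO, o1, o2, -⟩ := CF.all_spl0 _ _ _ _ _ _ _ _ _ _ _ _ _ _ _ _ hA hI
  have c1 := hA.hC.curve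
  have c2 := hA.hK.curve
  have g := hK.geom.geo
  have cN := fun j => End.isCompact_near (hK.geom.curve.ok j) sp.h sp.r1
  have dc : ∀ j, ∀ z ∈ (sp.l j).near sp.h sp.r1, ContinuousAt (d j) (z, 0) := fun j z hz =>
    ((hd j).1 (z, 0) ⟨hz, rfl⟩).continuousAt
  have sm : ∀ η > (0 : ℝ), ∀ᶠ ε in 𝓝 (0 : ℂ), ∀ j, ∀ z ∈ (sp.l j).near sp.h sp.r1,
      ‖ε * d j (z, ε)‖ < η := fun η a =>
    eventually_all.2 fun j => CF.eventually_small (cN j) (dc j) a
  have eo : ∀ j, (W.ee K s t j).ok := by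
    rintro (j | j)
    · exact cv.ok j
    · exact c2.ok j
  have ec : ∀ j, ∀ z ∈ (W.ee K s t j).circ, ContinuousAt (W.ee K s t j).w z ∧
      ContinuousAt (Sum.elim dC (fun k => d (par k)) j) (z, 0) := fun j z hz =>
    ⟨by rcases j with j | j
        · exact (cv.wan j z hz).continuousAt
        · exact (c2.wan j z hz).continuousAt, ((hI.fam j).1 (z, 0) ⟨hz, rfl⟩).continuousAt⟩
  have e1 : ∀ j, ∀ᶠ ε in 𝓝[≠] (0 : ℂ), ∀ z ∈ (sp.l j).near sp.h sp.r1 ∩ {z | (sp.l j).side z},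
      (z, (sp.l j).w z + ε * d j (z, ε)) ∈ Γe ε := fun j => by
    refine sout hO eo ec ((cN j).inter_right (End.isClosed_side _)) ((hd j).mono inter_subset_left)
      (fun z hz => ⟨(g.wan j z (sub3 hK j hz.1)).continuousAt,
        Or.inr ((g.mem j (sub3 hK j hz.1)).2 hz.2)⟩) ?_
    rintro (i | k) a z b c e
    · exact absurd (e ▸ cv.zero _ (cv.mem_of_circ i c)) (hK.ne j z b.1).2
    · change (K.e k).k ≠ Kind.pt at a
      by_cases f : par k = j
      · exact Eventually.of_forall fun z' u => by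
          show (K.e k).side z'
          rw [K_loop hK a, f]; exact u.2
      · exact ((g.disj f).notMem_of_mem_left (a := (z, (sp.l j).w z))
          ⟨sub3 hK _ ((hK.par k).2.1 c), (hK.par k).1 ▸ e⟩ ⟨sub3 hK j b.1, rfl⟩).elim
  have e2 : ∀ i, ∀ᶠ ε in 𝓝 (0 : ℂ), ∀ z ∈ ((W.e i).adj (s i) (t i)).circ, ∀ j,
      (z, ((W.e i).adj (s i) (t i)).w z + ε * dC i (z, ε)) ∉ sp.T τ0 j := fun i => by
    obtain ⟨N, a, b⟩ := tube_gr (End.isCompact_circ _) (fun z hz => (ec (Sum.inl i) z hz).1)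
      (fun z hz => (ec (Sum.inl i) z hz).2) (O := ⋂ j, (sp.T τ0 j)ᶜ) fun z hz =>
        iInter_mem.2 fun j => (T_closed hK τ0 j).isOpen_compl.mem_nhds fun c =>
          t1 j _ c (sb (cv.mem_of_circ i hz))
    exact b.mono fun ε c z hz => mem_iInter.1 (c z (subset_of_mem_nhdsSet a hz))
  have e3 := zer ((hS.pG.mul c2.poly).mul c1.poly).continuous hS.pq.continuous hO
    (((c1.cpt.union c2.cpt).cthickening (r := R)).diff (Q_open (τ := τ) (τ' := τ' / 2) hK hC))
    fun y hy a => ⟨(hR y hy.1 hy.2 a).imp_left fun b => Or.inl ⟨b, fun i c =>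
      hy.2 (Q_W hC hτ (End.gr_mono _ (hS.geo.nearO_sub i) c))⟩, by
      rintro ⟨i | k, b, c⟩
      · exact hy.2 (Q_W hC hτ ⟨CF.Spla.circ hA hI i c.1, End.adj_w ▸ c.2⟩)
      · exact hy.2 (Q_K hK (half_pos hτ') ⟨k, b, c⟩)⟩
  refine ⟨Γe, ?_, fun η a => ?_, fun k ρ a b => ofReal_tendsto.eventually
    (o2 _ _ _ _ a (by rw [(hK.par k).1]; exact (hd _).mono b)), fun p ρ w a b => ?_,
    fun w d' U a b c e => ofReal_tendsto.eventually (sout hO eo ec a b
      (fun z hz => ⟨(c z hz).1, Or.inl (c z hz).2⟩) ?_)⟩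
  · filter_upwards [ofReal_tendsto.eventually ((((o1.and hO.curve).and (eventually_all.2 e1)).and
      e3).and (nhdsWithin_le_nhds ((((eventually_all.2 e2).and t3).and (sm _ (half_pos hτ'))).and
      (eventually_all.2 fun j => CF.eventually_analyticOnNhd (cN j) (hd j).1))))]
      with e ⟨⟨⟨⟨a1, a2⟩, a3⟩, a4⟩, ⟨⟨a5, a6⟩, a7⟩, a8⟩
    have an : ∀ j, AnalyticOnNhd ℂ (shW sp d e j) ((sp.l j).near sp.h sp.r1) := fun j =>
      ((g.wan j).mono (sub3 hK j)).add (analyticOnNhd_const.mul (a8 j))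
    have z0 : ∀ j, ∀ z ∈ (sp.l j).near sp.h sp.r1, W.pA K G q e (z, shW sp d e j z) = 0 :=
      fun j z hz => (a6 j z hz _ (by linarith [a7 j z hz])).2 rfl
    have sT1 : ∀ j, (sp.setW (shW sp d e)).T (τ0 / 2) j ⊆ sp.T τ0 j := fun j y hy => ⟨hy.1, by
      have b1 : ‖y.2 - shW sp d e j y.1‖ ≤ τ0 / 2 := hy.2
      have b2 := norm_add_le (y.2 - shW sp d e j y.1) (e * d j (y.1, e))
      rw [show y.2 - shW sp d e j y.1 + e * d j (y.1, e) = y.2 - (sp.l j).w y.1 by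
        unfold shW; ring] at b2
      linarith [a7 j y.1 hy.1]⟩
    have sT : ∀ j, (sp.setW (shW sp d e)).T τ' j ⊆ sp.T τ0 j := fun j y hy =>
      sT1 j ⟨hy.1, hy.2.trans h1⟩
    have i1 : ∀ j, ∀ y ∈ sp.T τ0 j, y ∈ Γe e → y.2 = shW sp d e j y.1 := fun j y hy b => by
      have := (a6 j y.1 hy.1 _ hy.2).1 (by simpa using a2.zero y b)
      unfold shW; rw [← this]; ring
    have mT : ∀ j, ∀ z ∈ (sp.l j).near sp.h sp.r1, (z, shW sp d e j z) ∈ sp.T τ0 j :=
      fun j z hz => sT j ⟨hz, by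
        show ‖shW sp d e j z - shW sp d e j z‖ ≤ τ'
        rw [sub_self, norm_zero]; exact hτ'.le⟩
    refine ⟨a1, ⟨an, fun j z hz => ⟨z0 j z hz, fun b => a3 j z ⟨hz, b⟩⟩,
      fun j y hy => ⟨t1 j y (sT j hy), fun b => ?_⟩,
      fun j j' b => (t2 j j' b).mono (sT j) (sT j'), fun y hy b => ?_⟩,
      fun j y hy => ⟨t1 j y (sT1 j hy), i1 j y (sT1 j hy)⟩⟩
    · have b1 := i1 j y (sT j hy) b
      refine ⟨b1, ?_⟩
      by_cases hk : (sp.l j).k = Kind.pt
      · exact End.side_pt hk _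
      have b2 : y.1 ∈ (sp.l j).ann (Icc (-sp.h) sp.h) := End.near_loop hk sp.h sp.r1 ▸ hy.1
      have b3 : (sp.l j).ann (Icc (-sp.h) 0) ⊆ (sp.l j).near sp.h sp.r1 := by
        rw [End.near_loop hk]; exact End.ann_mono (Icc_subset_Icc_right g.hpos.le)
      have hr := (hK.geom.curve.ok j).pos hk
      refine (End.side_iff hk hr b2.1).2 (not_lt.1 fun b4 => clop2 a2 (j := Sum.inr (m j))
        (l := sp.l j) (w := shW sp d e j) ?_ hk ((an j).continuousOn.mono b3) (fun z hz => ?_) y.1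
        ⟨b2.1, b2.2.1, b4⟩ (b1 ▸ b))
      · show (K.e (m j)).pert (d (par (m j))) e = _
        rw [← (hK.eq j).1, (hK.eq j).2]; rfl
      · have b5 := b3 (End.ann_mono Ico_subset_Icc_self hz)
        refine ⟨z0 j z b5, ?_⟩
        rintro ⟨i | k, c3, c4, c5⟩
        · have c6 : shW sp d e j z = ((W.e i).adj (s i) (t i)).w z + e * dC i (z, e) := c5
          exact a5 i z c4 j (c6 ▸ mT j z b5)
        · change (K.e k).k ≠ Kind.pt at c3
          change z ∈ (K.e k).circ at c4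
          by_cases f : par k = j
          · rw [K_loop hK c3, f, End.mem_circ hr] at c4
            exact hz.2.2.ne c4.2
          · have c6 : shW sp d e j z = (K.e k).w z + e * d (par k) (z, e) := c5
            rw [(hK.par k).1] at c6
            have c7 : shW sp d e j z = shW sp d e (par k) z := c6
            exact disjoint_left.1 (t2 _ _ f) (mT _ z ((hK.par k).2.1 c4)) (c7 ▸ mT j z b5)
    · by_cases hq : y ∈ Q sp l h0 r0 τ (τ' / 2)
      · rcases hq with hq | hq <;> obtain ⟨j, c3, c4⟩ := mem_iUnion.1 hq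
        · exact Or.inr (Or.inl ⟨j, End.nearO_subset_near _ le_rfl le_rfl c3, c4.le⟩)
        · have c5 := End.nearO_subset_near _ le_rfl le_rfl c3
          refine Or.inr (Or.inr ⟨j, c5, ?_⟩)
          have b2 := norm_sub_le (y.2 - (sp.l j).w y.1) (e * d j (y.1, e))
          rw [sub_sub] at b2
          show ‖y.2 - ((sp.l j).w y.1 + e * d j (y.1, e))‖ ≤ τ'
          linarith [a7 j y.1 c5]
      · exact Or.inl (a4 y ⟨hy, hq⟩ b)
  · filter_upwards [ofReal_tendsto.eventually ((hO.close η a).and (nhdsWithin_le_nhds (sm η a)))]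
      with e ⟨b, c⟩
    exact ⟨b.1, fun j z hz => by rw [shW, add_sub_cancel_left]; exact (c j z hz).le⟩
  · obtain ⟨η, hη, h3⟩ := CF.st_priv.2 (W.cut s t r h ∪ K.Γ) (closedBall p ρ)
      (cv.cpt.union c2.cpt) isClosed_closedBall fun y hy => hy.elim (b y) (a.none y)
    filter_upwards [ofReal_tendsto.eventually (hO.close η hη)] with e c
    exact ⟨a.ins, a.far, a.an, a.zero, a.mem, a.only, fun x hx => h3 x (c.1 hx)⟩
  · rintro (i | k) f z u v x
    · exact e i z u v (End.adj_w ▸ x)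
    · have y1 := c2.mem_of_circ k v
      have y2 : w z = (K.e k).w z := x
      exact absurd ⟨k, v, y2⟩ (hA.nodal.node _ (hA.nodal.left _ (sb (c z u).2)
        (c2.zero _ (y2 ▸ y1)))).2.2.2.2.2.2

end Pool.Agent.S6
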