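import Pool.Agent.Lib.S6.SplitB
import Pool.Agent.Lib.S6.B_SECD
import Pool.Agent.Lib.S6.B_LW
import Pool.Agent.Lib.S6.Hp

/-!
The weights of the certificate of the split.
-/

open Set Filter Topology Metric

noncomputable section

namespace Pool.Agent.S6.Splw

open Pool.Agent.CF (End Kind Cv HasWind)
open FitNew Secd

variable {π : Type} [Fintype π]

/-- the weight without windows -/
def vv (C K : Cv) (a : ℂ) (q G : E → ℂ) (l : End) (z : ℂ) : ℂ :=
  ((z - a) * l.res q z / (l.res G z *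
    ∏ i ∈ Finset.univ.filter fun i => (C.e i).k = Kind.pt, (z - (C.e i).c))) ^ 2 / l.res K.P z

lemma sF_eq (C K : Cv) (a : ℂ) (q G : E → ℂ) (x : π → ℂ) (δ : ℝ) (l : End) (z : ℂ) :
    sF K.P (gS C G x δ) (qS C a q x δ) l z =
      Real.log ‖vv C K a q G l z * fc C x δ z ^ 2‖ := by
  unfold sF
  congr 2
  simp only [End.res, gS, qS, CF.gWin, CF.qWin, fc, CF.Winq.fac, xi, vv]
  ring

/-- the region on which `LW` is a condition -/
def cl (l : End) (h r1 : ℝ) : Set ℂ :=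
  if l.k = Kind.pt then closedBall l.c r1 else l.ann (Icc (h / 16) h)

lemma cl_cpt {l : End} (ho : l.ok) (h r1 : ℝ) : IsCompact (cl l h r1) := by
  unfold cl
  split_ifs with hk
  · exact isCompact_closedBall _ _
  · exact End.isCompact_ann (ho.pos hk) isCompact_Icc

lemma cl_sub (l : End) {h : ℝ} (hh : 0 < h) (r1 : ℝ) : cl l h r1 ⊆ l.near h r1 := by
  unfold cl
  split_ifs with hk
  · rw [End.near_pt hk]
  · exact LWb.ann_sub hk hh r1

lemma mem_cl {l : End} {h r1 : ℝ} {z : ℂ} (hz : z ∈ l.near h r1)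
    (hd : l.k ≠ Kind.pt → h / 16 ≤ l.dep z) : z ∈ cl l h r1 := by
  unfold cl
  split_ifs with hk
  · rwa [End.near_pt hk] at hz
  · rw [End.near_loop hk] at hz
    exact ⟨hz.1, hd hk, hz.2.2⟩

lemma lw_cl {l : End} {h r1 Λ : ℝ} {g : ℂ → ℂ} (hg : AnalyticOnNhd ℂ g (cl l h r1)) (hΛ : 0 ≤ Λ)
    (hb : ∀ z ∈ cl l h r1, ‖g z‖ ≤ Λ) : LW l h r1 (fun z => (g z).re) 0 (2 * Λ) := by
  have key : ∀ z ∈ cl l h r1, ∀ z' ∈ cl l h r1, (g z).re - (g z').re ≤ 2 * Λ := by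
    intro z hz z' hz'
    have h1 := (abs_le.1 ((Complex.abs_re_le_norm _).trans (hb z hz))).2
    have h2 := (abs_le.1 ((Complex.abs_re_le_norm _).trans (hb z' hz'))).1
    linarith
  refine ⟨by rw [abs_zero]; linarith, g, fun hk => ?_, fun hk => ?_⟩
  · rw [cl, if_neg hk] at hg key
    exact ⟨hg, fun z hz => ⟨by ring, fun z' hz' => key z hz z' hz'⟩⟩
  · rw [cl, if_pos hk] at hg key
    exact ⟨hg, fun z hz => ⟨fun _ => by ring, fun z' hz' => key z hz z' hz'⟩⟩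

lemma lin_exp {c b z : ℂ} (h : ‖z - c‖ < ‖b - c‖) :
    AnalyticAt ℂ (fun z => Complex.log (c - b) + Complex.log ((z - b) / (c - b))) z ∧
      z - b = Complex.exp (Complex.log (c - b) + Complex.log ((z - b) / (c - b))) := by
  have h1 : 0 < ‖c - b‖ := by
    rw [norm_sub_rev]
    exact (norm_nonneg _).trans_lt h
  have h0 : c - b ≠ 0 := norm_pos_iff.1 h1
  have h2 : (z - b) / (c - b) ∈ Complex.slitPlane := by
    have : (z - b) / (c - b) = 1 + (z - c) / (c - b) := by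
      field_simp
      ring
    rw [this]
    refine Complex.mem_slitPlane_of_norm_lt_one ?_
    rw [norm_div, div_lt_one h1, norm_sub_rev c b]
    exact h
  refine ⟨analyticAt_const.add (AnalyticAt.clog (by fun_prop) h2), ?_⟩
  rw [Complex.exp_add, Complex.exp_log h0, Complex.exp_log (Complex.slitPlane_ne_zero h2),
    mul_div_cancel₀ _ h0]

/-- a bounded logarithm of the window factor -/
lemma fc_exp (C : Cv) (hR : 0 < C.R) {x : π → ℂ} (hx1 : ∀ k, ‖x k‖ = 1) {N : Set ℂ}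
    (hN : IsCompact N) {c : ℂ} (hz : ∀ z ∈ N, ∀ k, ‖z - c‖ < ‖hp C (x k) 0 0 - c‖) :
    ∃ B ≥ (0 : ℝ), ∀ᶠ δ in 𝓝 (0 : ℝ), ∃ g : ℂ → ℂ, AnalyticOnNhd ℂ g N ∧
      ∀ z ∈ N, ‖g z‖ ≤ B ∧ fc C x δ z = Complex.exp (g z) := by
  set lg : π → ℂ → ℂ := fun k z => Complex.log (c - hp C (x k) 0 0) +
    Complex.log ((z - hp C (x k) 0 0) / (c - hp C (x k) 0 0)) with hlg
  set g0 : ℂ → ℂ := fun z => Complex.log (∏ k, -((starRingEnd ℂ) (xi (x k) 0) / C.R)) +
    ∑ k, (lg k z + lg k z + lg k z) - ∑ k, lg k z with hg0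
  have a1 : AnalyticOnNhd ℂ g0 N := fun z h =>
    (analyticAt_const.add (Finset.analyticAt_fun_sum _ fun k _ =>
      ((lin_exp (hz z h k)).1.add (lin_exp (hz z h k)).1).add (lin_exp (hz z h k)).1)).sub
      (Finset.analyticAt_fun_sum _ fun k _ => (lin_exp (hz z h k)).1)
  have a2 : ∀ z ∈ N, fc C x 0 z = Complex.exp (g0 z) := fun z h => by
    have b1 : ∀ k, Complex.exp (lg k z) = z - hp C (x k) 0 0 := fun k => (lin_exp (hz z h k)).2.symm
    rw [hg0, fc_zero, CF.Winq.fac]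
    simp only [Complex.exp_sub, Complex.exp_add, Complex.exp_sum, b1,
      Complex.exp_log (a0_ne C hR hx1 0)]
  obtain ⟨B, hB⟩ := hN.exists_bound_of_continuousOn a1.continuousOn
  refine ⟨|B| + 1, by positivity, ?_⟩
  filter_upwards [fc_log C hR hx1 hN fun z h k e => (hz z h k).ne (by rw [e])] with δ hδ
  refine ⟨fun z => g0 z + Complex.log (fc C x δ z / fc C x 0 z),
    fun z h => (a1 z h).add (hδ z h).1, fun z h => ⟨?_, ?_⟩⟩
  · exact (norm_add_le _ _).trans (add_le_add ((hB z h).trans (le_abs_self _)) (hδ z h).2.1)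
  · rw [Complex.exp_add, ← a2 z h]
    exact (hδ z h).2.2

/-- the windings of the weight -/
lemma vv_wind {C K : Cv} {Nd : Finset E} {TC TK : ℤ} {D m : ℕ} {a : ℂ} {Z : Finset E}
    {q G : E → ℂ} (hA : CF.Alg C K Nd TC TK D) (hS : Sec C K Nd TC a Z q G m) :
    ∃ k kK : C.ι → ℤ, ∑ j, k j = 2 * Z.card - Nd.card ∧ ∑ j, kK j = Nd.card ∧
      (∀ j, HasWind (C.e j) ((C.e j).res K.P) (kK j)) ∧
      ∀ j, HasWind (C.e j) (vv C K a q G (C.e j)) (k j) := by
  classical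
  have cv := hA.hC.curve
  have ho := hA.hC.off.1
  obtain ⟨kK, a1, a2⟩ := CF.all_arg2 _ C.P K.P C.Γ C.e Nd cv ho hA.hK.curve.poly
    (hA.nodal.simpleZ cv hA.hK.curve hA.off).1
  obtain ⟨ka, b1, b2⟩ := CF.all_arg2 _ C.P (fun y => y.1 - a) C.Γ C.e Z cv ho
    (CF.IsPoly.fst.sub (CF.IsPoly.const a)) hS.z
  obtain ⟨kq, c1, c2⟩ := CF.all_arg2 _ C.P q C.Γ C.e ∅ cv ho hS.poly.1
    ⟨fun y hy h => absurd h (hS.ne y (Or.inl hy)).1, fun y hy => absurd hy (Finset.notMem_empty y)⟩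
  obtain ⟨kG, d1, d2⟩ := CF.all_arg2 _ C.P G C.Γ C.e ∅ cv ho hS.poly.2
    ⟨fun y hy h => absurd h (hS.ne y (Or.inl hy)).2, fun y hy => absurd hy (Finset.notMem_empty y)⟩
  have h1 : ∀ i, ∃ n : C.ι → ℤ, (C.e i).k = Kind.pt →
      (∀ j, HasWind (C.e j) (fun z => z - (C.e i).c) (n j)) ∧ ∑ j, n j = 0 := fun i => by
    by_cases hi : (C.e i).k = Kind.pt
    · obtain ⟨n, hn⟩ := CF.SEC.ptw CF.all_arg cv ho i hi fun y hy e => by
        have := (hA.hC.priv i hi).only y hy (by simp [e])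
        rwa [e] at this
      exact ⟨n, fun _ => ⟨hn.1, hn.2.1⟩⟩
    · exact ⟨fun _ => 0, fun h => absurd h hi⟩
  choose n hn using h1
  refine ⟨fun j => (2 : ℕ) * (ka j + kq j - (kG j +
    ∑ i ∈ Finset.univ.filter fun i => (C.e i).k = Kind.pt, n i j)) - kK j, kK, ?_, a2, a1,
    fun j => ?_⟩
  · rw [Finset.sum_sub_distrib, ← Finset.mul_sum, Finset.sum_sub_distrib, Finset.sum_add_distrib,
      Finset.sum_add_distrib, Finset.sum_comm,
      Finset.sum_eq_zero fun i hi => (hn i (Finset.mem_filter.1 hi).2).2, a2, b2, c2, d2]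
    simp
  · exact ((((b1 j).mul (c1 j)).div ((d1 j).mul (HasWind.prod _ fun i hi =>
      (hn i (Finset.mem_filter.1 hi).2).1 j))).pow 2).div (a1 j)

lemma cont_gq (C : Cv) (a : ℂ) {q G : E → ℂ} (hq : CF.IsPoly q) (hG : CF.IsPoly G) (x : π → ℂ) :
    (Continuous fun y : ℝ × E => gS C G x y.1 y.2) ∧
      Continuous fun y : ℝ × E => qS C a q x y.1 y.2 := by
  have c0 : ∀ (k : π) (s t : ℝ → ℝ), Continuous s → Continuous t →
      Continuous fun y : ℝ × E => y.2.1 - hp C (x k) (s y.1) (t y.1) := fun k s t hs ht =>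
    continuous_snd.fst.sub ((cont_hp C (x k) hs ht).comp continuous_fst)
  constructor
  · unfold gS CF.gWin
    exact ((hG.continuous.comp continuous_snd).mul
      (continuous_finsetProd _ fun i _ => by fun_prop)).mul
      (continuous_finsetProd _ fun k _ =>
        c0 k (fun δ => δ) (fun _ => 0) (by fun_prop) (by fun_prop))
  · unfold qS CF.qWin
    refine (Continuous.mul ?_ ((continuous_snd.fst.sub continuous_const).mul
      (hq.continuous.comp continuous_snd))).mul (continuous_finsetProd _ fun k _ =>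
      ((c0 k (fun δ => Real.sqrt 2 * δ) (fun δ => -δ) (by fun_prop) (by fun_prop)).mul
        (c0 k (fun δ => -(Real.sqrt 2 * δ)) (fun δ => -δ) (by fun_prop) (by fun_prop))).mul
        (c0 k (fun δ => -δ) (fun _ => 0) (by fun_prop) (by fun_prop)))
    exact continuous_finsetProd _ fun k _ =>
      (((cont_xi (x k)).comp continuous_fst).div_const _).neg

lemma qS_zero (C : Cv) (hR : 0 < C.R) (a : ℂ) (q : E → ℂ) {x : π → ℂ} (hx1 : ∀ k, ‖x k‖ = 1)
    {y : E} (hq : q y ≠ 0) (h : qS C a q x 0 y = 0) : y.1 = a ∨ ∃ k, y.1 = hp C (x k) 0 0 := by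
  rcases mul_eq_zero.1 h with h | h
  · exact Or.inl (sub_eq_zero.1 ((mul_eq_zero.1
      ((mul_eq_zero.1 h).resolve_left (a0_ne C hR hx1 0))).resolve_right hq))
  · obtain ⟨k, -, h⟩ := Finset.prod_eq_zero_iff.1 h
    simp only [mul_zero, neg_zero, mul_eq_zero, or_self] at h
    exact Or.inr ⟨k, sub_eq_zero.1 h⟩

lemma gS_zero (C : Cv) (G : E → ℂ) (x : π → ℂ) (δ : ℝ) {y : E} (hG : G y ≠ 0)
    (h : gS C G x δ y = 0) :
    (∃ i, (C.e i).k = Kind.pt ∧ y.1 = (C.e i).c) ∨ ∃ k, y.1 = hp C (x k) δ 0 := by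
  rcases mul_eq_zero.1 h with h | h
  · obtain ⟨i, hi, h⟩ := Finset.prod_eq_zero_iff.1 ((mul_eq_zero.1 h).resolve_left hG)
    exact Or.inl ⟨i, (Finset.mem_filter.1 hi).2, sub_eq_zero.1 h⟩
  · obtain ⟨k, -, h⟩ := Finset.prod_eq_zero_iff.1 h
    exact Or.inr ⟨k, sub_eq_zero.1 h⟩

end Pool.Agent.S6.Splw

namespace Pool.Agent.S6

open Pool.Agent.CF (End Kind Cv)
open FitNew Secd Splw

theorem st_splw : St_SPLW := by
  classical
  intro C K Nd TC TK D a Z q G π _ x hA hS hP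
  have hC := hA.hC
  have hk : C.hub.k = Kind.out := hC.out
  have hnp : C.hub.k ≠ Kind.pt := by rw [hk]; decide
  have hR : 0 < C.R := lt_trans (by norm_num) hC.rad.1
  have hx1 : ∀ k, ‖x k‖ = 1 := fun k => (hP.2 k).1
  have hok := hC.curve.ok
  obtain ⟨-, ⟨h1, h1p, hF⟩, -⟩ := CF.st_arc C K TC TK hC hA.hK
  have arc : ∀ k (δ : ℝ), 0 ≤ δ → δ ≤ h1 → δ ≤ 1 / 8 → _ := fun k δ a1 a2 a3 =>
    hF (hp C (x k) δ 0) (HP.mem_ann hk hR (hx1 k) (mem_Icc.2 ⟨by linarith, a2⟩) 0)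
      (HP.win_far hC (hP.2 k).2 a3 (HP.hp_near hR (hx1 k) a3
        (by rw [abs_of_nonneg a1]; linarith) (by rwa [abs_zero]))).le
  have hq : ∀ k, hp C (x k) 0 0 ∈ C.hub.circ := fun k =>
    (End.mem_circ (e := C.hub) hR).2 ⟨hp_ne_c C hR (hx1 k) 0, dep_hp C hk (hx1 k) hR 0⟩
  have e0 : ∀ y ∈ C.Γ, ∀ k (δ : ℝ), 0 ≤ δ → δ ≤ h1 → δ ≤ 1 / 8 → y.1 = hp C (x k) δ 0 →
      y.2 = C.hub.w y.1 := fun y hy k δ a1 a2 a3 e => by
    rw [e]
    exact (((arc k δ a1 a2 a3).1 y.2).1 (by rw [← e]; exact hy)).1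
  have e1 : ∀ y ∈ C.Γ, (∃ k, y.1 = hp C (x k) 0 0) → y ∈ CF.ends C.e := by
    rintro y hy ⟨k, e⟩
    exact ⟨C.H, by rw [e]; exact hq k, e0 y hy k 0 le_rfl h1p.le (by norm_num) e⟩
  have e2 : ∀ y ∈ C.Γ, ∀ i, (C.e i).k = Kind.pt → y.1 = (C.e i).c → y.2 = (C.e i).w y.1 :=
    fun y hy i hi e => (hC.priv i hi).only y hy (by simp [e])
  refine ⟨fun y hy h => ?_, fun y hy => ⟨fun h => ?_, fun h => ?_⟩, fun η hη => ?_, ?_⟩
  · rcases qS_zero C hR a q hx1 (hS.ne y (Or.inl (hA.nodal.node y hy).1)).1 h with e | ⟨k, e⟩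
    · exact hS.off.2 y hy e
    · exact (hA.off y hy).1 C.H (by rw [e]; exact hq k)
  · rcases gS_zero C G x 0 (hS.ne y (Or.inl hy)).2 h with ⟨i, hi, e⟩ | e
    · exact ⟨i, by rw [End.circ_pt (hok i) hi]; exact e, e2 y hy i hi e⟩
    · exact e1 y hy e
  · rcases qS_zero C hR a q hx1 (hS.ne y (Or.inl hy)).1 h with e | e
    · exact Or.inl (hS.z.1 y hy (sub_eq_zero.2 e))
    · exact Or.inr (e1 y hy e)
  · obtain ⟨c1, c2⟩ := cont_gq C a hS.poly.1 hS.poly.2 x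
    have c0 : Continuous fun y : ℝ × E => (((0 : ℝ), y.2) : ℝ × E) := by fun_prop
    refine nhdsWithin_le_nhds (hC.curve.cpt.eventually_forall_of_forall_eventually fun y _ => ?_)
    filter_upwards [(c1.sub (c1.comp c0)).norm.continuousAt.eventually_lt
      (continuousAt_const (y := η)) (x₀ := (0, y)) (by simpa using hη),
      (c2.sub (c2.comp c0)).norm.continuousAt.eventually_lt
      (continuousAt_const (y := η)) (x₀ := (0, y)) (by simpa using hη)] with p b1 b2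
    exact ⟨b1.le, b2.le⟩
  obtain ⟨k, kK, s1, s2, w1, w2⟩ := vv_wind hA hS
  choose t1 t1p lw1 using fun j => st_lw.2.2.2 (C.e j) _ _ (hok j) (w1 j)
  choose t2 t2p lw2 using fun j => st_lw.2.2.2 (C.e j) _ _ (hok j) (w2 j)
  have n1 : ∀ j, ∀ᶠ z in 𝓝ˢ (C.e j).circ, (z ≠ (C.e j).c → vv C K a q G (C.e j) z ≠ 0) ∧
      (j ≠ C.H → ∀ k, ‖z - (C.e j).c‖ < ‖hp C (x k) 0 0 - (C.e j).c‖) := fun j => by
    refine (w2 j).ne_zero.and ?_
    by_cases hj : j = C.H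
    · exact Eventually.of_forall fun _ h => absurd hj h
    · refine (eventually_nhdsSet_iff_forall.2 fun z hz => eventually_all.2 fun k => ?_).mono
        fun _ h _ => h
      refine ContinuousAt.eventually_lt (by fun_prop) continuousAt_const ?_
      rw [mem_sphere_iff_norm.1 hz]
      exact (arc k 0 le_rfl h1p.le (by norm_num)).2.2.1 j hj
  obtain ⟨h0, ⟨sh, u1, u2⟩, h0p⟩ := (((CF.SECA.shrink_all hok n1).and
    ((eventually_all.2 fun j => nhdsWithin_le_nhds (eventually_le_nhds (t1p j))).and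
      (eventually_all.2 fun j => nhdsWithin_le_nhds (eventually_le_nhds (t2p j))))).and
    self_mem_nhdsWithin).exists
  refine ⟨h0, h0p, fun h r1 a1 a2 a3 a4 => ?_⟩
  choose Λ1 l1 using fun j => lw1 j h r1 a1 (a2.trans (u1 j)) a3 (a4.trans (u1 j))
  choose Λ2 l2 using fun j => lw2 j h r1 a1 (a2.trans (u2 j)) a3 (a4.trans (u2 j))
  have sb : ∀ j, (C.e j).near h r1 ⊆ (C.e j).near h0 h0 := fun j => (C.e j).near_mono a2 a4
  have ins : ∀ j, ∀ z ∈ cl (C.e j) h r1, ∀ k, ‖z - (C.e j).c‖ < ‖hp C (x k) 0 0 - (C.e j).c‖ := by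
    intro j z hz k
    by_cases hj : j = C.H
    · subst hj
      have b1 : z ∈ C.hub.ann (Icc (h / 16) h) := by
        have : cl (C.e C.H) h r1 = C.hub.ann (Icc (h / 16) h) := if_neg hnp
        rwa [this] at hz
      exact ((CF.Winq.inside hk hR b1.1).1 (by linarith [b1.2.1])).trans_eq
        (mem_sphere_iff_norm.1 (hq k)).symm
    · exact (sh j (sb j (cl_sub _ a1 _ hz))).2 hj k
  choose B Bp hB using fun j => fc_exp C hR hx1 (cl_cpt (hok j) h r1) (ins j)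
  have hΛ : ∀ j, |Λ1 j| + |Λ2 j| + 4 * B j ≤ ∑ i, (|Λ1 i| + |Λ2 i| + 4 * B i) := fun j =>
    Finset.single_le_sum (f := fun i => |Λ1 i| + |Λ2 i| + 4 * B i)
      (fun i _ => by have := Bp i; positivity) (Finset.mem_univ j)
  refine ⟨∑ i, (|Λ1 i| + |Λ2 i| + 4 * B i), fun j => k j, fun j => kK j,
    by simpa using congrArg (Int.cast (R := ℝ)) s1, by simpa using congrArg (Int.cast (R := ℝ)) s2,
    fun j => ?_, ?_⟩
  · refine st_lw.2.1 _ _ _ _ _ _ _ _ 0 (l1 j) ?_ (fun _ _ _ _ => (add_zero _).symm) a1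
    linarith [hΛ j, le_abs_self (Λ1 j), abs_nonneg (Λ2 j), Bp j]
  filter_upwards [nhdsWithin_le_nhds (eventually_all.2 hB),
    Ioc_mem_nhdsGT (lt_min (lt_min h1p a1) (by norm_num : (0 : ℝ) < 1 / 8))] with δ b1 b2
  refine ⟨fun j => ?_, fun y hy e => ?_⟩
  · obtain ⟨g, g1, g2⟩ := b1 j
    have c1 := st_lw.1 _ _ _ _ _ _ _ _ _ 2 (l2 j) (lw_cl g1 (Bp j) fun z hz => (g2 z hz).1)
    rw [mul_zero, add_zero, abs_two] at c1
    refine st_lw.2.1 _ _ _ _ _ _ _ _ 0 c1 ?_ (fun z hz hc hd => ?_) a1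
    · linarith [hΛ j, le_abs_self (Λ2 j), abs_nonneg (Λ1 j)]
    · rw [sF_eq, (g2 z (mem_cl hz hd)).2, norm_mul, norm_pow, Complex.norm_exp,
        Real.log_mul (norm_ne_zero_iff.2 ((sh j (sb j hz)).1 hc)) (by positivity), Real.log_pow,
        Real.log_exp]
      push_cast
      ring
  · obtain ⟨c0, c1⟩ := b2
    have c2 := le_min_iff.1 c1
    have c3 := le_min_iff.1 c2.1
    rcases gS_zero C G x δ (hS.ne y (Or.inl hy)).2 e with ⟨i, hi, e⟩ | ⟨k, e⟩
    · refine ⟨i, ?_, e2 y hy i hi e⟩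
      rw [End.near_pt hi, e]
      exact mem_closedBall_self a3.le
    · refine ⟨C.H, ?_, e0 y hy k δ c0.le c3.1 c2.2 e⟩
      show y.1 ∈ C.hub.near h r1
      rw [End.near_loop hnp, e]
      exact HP.mem_ann hk hR (hx1 k) (mem_Icc.2 ⟨by linarith, c3.2⟩) 0

end Pool.Agent.S6
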