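import Pool.Agent.Lib.S6.Blue
import Pool.Agent.Lib.SH.All1
import Pool.Agent.Lib.CF.All3

/-!
Existence of the constants of the slope lemma and of the rigidity of a part.
-/

open Set Filter Topology Metric

noncomputable section

namespace Pool.Agent.S6

open Pool.Agent.CF (End Kind IsCurve Geo SLH tube core reg)
open Pool.Agent.Lib

theorem kit (hS : SH.St_SL) {h Λw η : ℝ} (n : ℕ) (h0 : 0 < h) (h1 : h ≤ 1) (h2 : 0 ≤ Λw)
    (h3 : 0 < η) (h4 : η ≤ 1) : ∃ Cu0 : ℝ, ∀ Cu Λ0 : ℝ, Cu0 ≤ Cu → 0 ≤ Λ0 →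
      ∃ κ0 : ℝ → ℝ, (∀ c, 1 ≤ c → 0 < κ0 c) ∧ ∀ κ : ℝ → ℝ,
        (∀ c, 1 ≤ c → 0 < κ c ∧ κ c ≤ κ0 c) → Kit h n Λw Cu Λ0 η κ := by
  obtain ⟨Λa, κa, a1, a2, a3⟩ := hS h n (2 * (0 + 2 * Λw + 1)) (η * h / 4) h0 h1 (by positivity)
    (by positivity)
  refine ⟨Λa + 2 * Λw + 1, fun Cu Λ0 hC p => ?_⟩
  obtain ⟨Λb, κb, b1, b2, b3⟩ := hS h n (2 * (Λ0 + 2 * Λw + 1)) (η * h / 4) h0 h1
    (by positivity) (by positivity)
  exact ⟨fun c => min (κa c) (κb c), fun c hc => lt_min (a2 c hc).1 (b2 c hc).1, fun κ hκ =>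
    ⟨h0, h1, h2, p, h3, h4, fun c hc => ⟨(hκ c hc).1,
      ((hκ c hc).2.trans (min_le_left _ _)).trans (a2 c hc).2⟩, Λa, Λb, a1, b1, hC,
      a3 κ fun c hc => ⟨(hκ c hc).1, (hκ c hc).2.trans (min_le_left _ _)⟩,
      b3 κ fun c hc => ⟨(hκ c hc).1, (hκ c hc).2.trans (min_le_right _ _)⟩⟩⟩

theorem st_kit : St_KIT := fun h n Λw η h0 h1 h2 h3 h4 => by
  obtain ⟨Cu0, H⟩ := kit SH.all_sl n h0 h1 h2 h3 h4
  refine ⟨max Cu0 0, le_max_right _ _, fun Λ0 p => ?_⟩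
  obtain ⟨κ0, a, b⟩ := H _ Λ0 (le_max_left _ 0) p
  exact ⟨κ0, b κ0 fun c hc => ⟨a c hc, le_rfl⟩⟩

namespace PF

theorem c1 {ψ φ a F M t lv b : ℝ} (h0 : 0 ≤ ψ) (ha : 0 < a) (hM : 0 < M) (hl : 0 < lv)
    (h1 : ψ ^ a * Real.exp F * M ≤ Real.exp t * φ) (h2 : φ ≤ lv * Real.exp b) :
    ψ ≤ Real.exp ((Real.log (lv / M) + t + b - F) / a) := by
  rw [← Real.rpow_le_rpow_iff h0 (Real.exp_pos _).le ha, ← Real.exp_mul,
    div_mul_cancel₀ _ ha.ne', Real.exp_sub, Real.exp_add, Real.exp_add,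
    Real.exp_log (div_pos hl hM), le_div_iff₀ (Real.exp_pos _), div_mul_eq_mul_div,
    div_mul_eq_mul_div, le_div_iff₀ hM]
  exact h1.trans ((mul_le_mul_of_nonneg_left h2 (Real.exp_pos t).le).trans_eq (by ring))

theorem c2 {ψ φ a F M t lv v : ℝ} (h0 : 0 ≤ ψ) (ha : 0 < a) (hM : 0 < M) (hl : 0 < lv)
    (h1 : φ ≤ Real.exp t * (ψ ^ a * Real.exp F * M)) (h2 : ψ ≤ Real.exp v) :
    φ ≤ lv * Real.exp (t + a * v + F - Real.log (lv / M)) := by
  have h3 := Real.rpow_le_rpow h0 h2 ha.le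
  rw [← Real.exp_mul, mul_comm v] at h3
  rw [Real.exp_sub, Real.exp_add, Real.exp_add, Real.exp_log (div_pos hl hM)]
  refine h1.trans ((by gcongr : _ ≤ Real.exp t * (Real.exp (a * v) * Real.exp F * M)).trans_eq ?_)
  field_simp

theorem avg {f1 f2 : ℂ → ℝ} {c : ℂ} {R : ℝ} (hR : 0 < R) (h1 : ContinuousOn f1 (sphere c R))
    (h2 : ContinuousOn f2 (sphere c R)) (a b d : ℝ) :
    Real.circleAverage (fun z => a * f1 z + b * f2 z + d) c R =
      a * Real.circleAverage f1 c R + b * Real.circleAverage f2 c R + d := by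
  have i1 : ContinuousOn (fun z => a * f1 z) (sphere c R) := continuousOn_const.mul h1
  have i2 : ContinuousOn (fun z => b * f2 z) (sphere c R) := continuousOn_const.mul h2
  have i3 : ContinuousOn (fun z => a * f1 z + b * f2 z) (sphere c R) := i1.add i2
  rw [Real.circleAverage_fun_add (ContinuousOn.circleIntegrable hR.le i3)
    (ContinuousOn.circleIntegrable hR.le continuousOn_const),
    Real.circleAverage_fun_add (ContinuousOn.circleIntegrable hR.le i1)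
      (ContinuousOn.circleIntegrable hR.le i2), Real.circleAverage_const]
  have e1 := Real.circleAverage_fun_smul (a := a) (f := f1) (c := c) (R := R)
  have e2 := Real.circleAverage_fun_smul (a := b) (f := f2) (c := c) (R := R)
  simp only [smul_eq_mul] at e1 e2
  rw [e1, e2]

theorem ext {s : Set ℂ} (hs : IsClosed s) {f : ℂ → ℝ} (hf : ContinuousOn f s) :
    ∃ g : ℂ → ℝ, Continuous g ∧ ∀ z ∈ s, g z = f z := by
  obtain ⟨g, hg⟩ := ContinuousMap.exists_restrict_eq hs ⟨s.restrict f, hf.restrict⟩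
  exact ⟨g, g.continuous, fun z hz => DFunLike.congr_fun hg ⟨z, hz⟩⟩

theorem cc_ne {l : End} (ho : l.ok) {h r1 : ℝ} (hr : 0 ≤ r1) : (cc l h r1).Nonempty := by
  unfold cc
  split_ifs with hk
  · exact NormedSpace.sphere_nonempty.2 hr
  · exact (NormedSpace.sphere_nonempty.2 (End.rad_pos (ho.pos hk) h).le).mono
      (End.sphere_subset_ann (ho.pos hk) rfl)

theorem cc_col {l : End} {h r1 r2 : ℝ} (h0 : 0 ≤ h) (hr : r2 ≤ r1) : cc l h r1 ⊆ col l h r1 r2 := by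
  unfold cc col
  split_ifs with hk
  · exact fun z hz => by
      have := mem_sphere_iff_norm.1 hz
      exact ⟨by linarith, this.le⟩
  · exact End.ann_mono (singleton_subset_iff.2 ⟨by linarith, le_rfl⟩)

/-- oscillation of `f` with the singular part at a point end removed -/
theorem osc {l : End} {h r1 r2 k Λ : ℝ} {f : ℂ → ℝ} (H : LW l h r1 f k Λ) (h0 : 0 < h)
    (h2 : 0 < r2) (hr : r2 ≤ r1) {z z0 : ℂ} (hz : z ∈ col l h r1 r2) (hz0 : z0 ∈ cc l h r1) :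
    |f z - f z0 - if l.k = Kind.pt then k * Real.log (r1 / ‖z - l.c‖) else 0| ≤ Λ * (1 + h) := by
  obtain ⟨a, g, b, c⟩ := H
  have p : 0 ≤ Λ := (abs_nonneg _).trans a
  have hz1 := cc_col h0.le hr hz0
  unfold cc col at *
  split_ifs at * with hk
  · obtain ⟨-, d⟩ := c hk
    have e0 := mem_sphere_iff_norm.1 hz0
    have m1 := mem_closedBall_iff_norm.2 hz.2
    have m2 := mem_closedBall_iff_norm.2 hz1.2
    rw [(d z m1).1 (sub_ne_zero.1 (norm_pos_iff.1 (h2.trans_le hz.1))),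
      (d z0 m2).1 (sub_ne_zero.1 (norm_pos_iff.1 (h2.trans_le hz1.1))), e0,
      div_self (by linarith), Real.log_one, abs_le]
    constructor <;> nlinarith [(d z m1).2 z0 m2, (d z0 m2).2 z m1]
  · obtain ⟨-, d⟩ := b hk
    have e1 : |k * (l.dep z0 - l.dep z)| ≤ Λ * h := by
      rw [abs_mul]
      exact mul_le_mul a (abs_le.2 ⟨by linarith [hz1.2.1, hz.2.2],
        by linarith [hz1.2.2, hz.2.1]⟩) (abs_nonneg _) p
    rw [(d z hz).1, (d z0 hz1).1, abs_le] at *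
    constructor <;> nlinarith [(d z hz).2 z0 hz1, (d z0 hz1).2 z hz]

/-- the end property of a part from the end property of the normal size -/
theorem endP (hW : CF.St_WEXT) {l : End} (ho : l.ok) {X K : Set E} {φ ψ : E → ℝ} {f : ℂ → ℝ}
    {τ h r1 r2 a k κ κ' Λw Cu Λ0 Λ C t thr M lv q : ℝ} (h0 : 0 < h) (h2 : 0 < r2) (hr : r2 ≤ r1)
    (ha : 0 < a) (ht : 0 ≤ t) (ht1 : t ≤ 1) (hM : 0 < M) (hl : 0 < lv) (H : LW l h r1 f k Λw)
    (hκ : a * κ + k + 4 * t / h ≤ κ') (q0 : 0 ≤ q) (q1 : l.k = Kind.pt → a * κ + k ≤ q)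
    (hC : 2 + 2 * (Λw * (1 + h)) + a * Cu + 2 * q ≤ C)
    (hΛ : 1 + C + Λw * (1 + h) ≤ a * Λ0) (hΛ' : Λ * C + Λw * (1 + h) ≤ a * Λ0)
    (hc : ∀ y ∈ SH.near X l.w τ, y.1 ∈ col l h r1 r2 → y ∉ K ∧ 0 ≤ ψ y ∧
      φ y ≤ Real.exp t * (ψ y ^ a * Real.exp (f y.1) * M) ∧
      ψ y ^ a * Real.exp (f y.1) * M ≤ Real.exp t * φ y)
    (hthr : 0 ≤ thr ∧ ∀ z ∈ cc l h r1, thr ^ a * Real.exp (f z) * M ≤ lv)
    (hE : EP l (X \ K) ψ τ h r1 r2 Cu Λ0 κ thr) :
    SH.EndP l X K φ τ h r1 r2 C Λ κ' lv := by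
  obtain ⟨z0, hz0⟩ := cc_ne ho (h := h) (h2.le.trans hr)
  set w := Real.log (lv / M) with hw
  set o := Λw * (1 + h) with ho'
  have p0 : 0 ≤ o := mul_nonneg ((abs_nonneg _).trans H.1) (by linarith)
  have p1 : ∀ b, 0 ≤ b → thr ≤ Real.exp ((w + b - f z0) / a) := fun b hb => by
    have := c1 (t := 0) (φ := lv) (b := b) hthr.1 ha hM hl (by simpa using hthr.2 z0 hz0)
      (le_mul_of_one_le_right hl.le (Real.one_le_exp hb))
    simpa using this
  have up : (∀ y ∈ SH.near X l.w τ, y ∉ K → y.1 ∈ cc l h r1 → φ y ≤ lv) →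
      ∀ y ∈ SH.near X l.w τ, y.1 ∈ col l h r1 r2 → φ y ≤ lv * Real.exp (2 + 2 * o + a * Cu +
        if l.k = Kind.pt then (a * κ + k) * Real.log (r1 / ‖y.1 - l.c‖) else 0) := by
    intro T y hy hy1
    obtain ⟨d1, d2, d3, -⟩ := hc y hy hy1
    have e1 := (hE _ (Real.exp_pos _) (p1 (1 + o) (by linarith))).2 (fun u hu hu1 => by
      obtain ⟨b1, b2, -, b4⟩ := hc u ⟨hu.1.1, hu.2⟩ (cc_col h0.le hr hu1)
      refine (c1 (b := 0) b2 ha hM hl b4 (by simpa using T u ⟨hu.1.1, hu.2⟩ b1 hu1)).trans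
        (Real.exp_le_exp.2 (div_le_div_of_nonneg_right ?_ ha.le))
      have := abs_le.1 (osc H h0 h2 hr (cc_col h0.le hr hz0) hu1)
      have e : (if l.k = Kind.pt then k * Real.log (r1 / ‖z0 - l.c‖) else 0) = 0 := by
        split_ifs with hk
        · rw [cc, if_pos hk, mem_sphere_iff_norm] at hz0
          rw [hz0, div_self (by linarith), Real.log_one, mul_zero]
        · rfl
      rw [e] at this
      linarith [this.2]) y ⟨⟨hy.1, d1⟩, hy.2⟩ hy1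
    have e2 := abs_le.1 (osc H h0 h2 hr hy1 hz0)
    have e3 : (if l.k = Kind.pt then (r1 / ‖y.1 - l.c‖) ^ κ else 1) =
        Real.exp (if l.k = Kind.pt then κ * Real.log (r1 / ‖y.1 - l.c‖) else 0) := by
      split_ifs with hk
      · rw [col, if_pos hk] at hy1
        rw [Real.rpow_def_of_pos (div_pos (by linarith) (h2.trans_le hy1.1)), mul_comm]
      · simp
    rw [e3, ← Real.exp_add, ← Real.exp_add] at e1
    refine (c2 d2 ha hM hl d3 e1).trans (mul_le_mul_of_nonneg_left (Real.exp_le_exp.2 ?_) hl.le)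
    rw [mul_add, mul_add, mul_div_cancel₀ _ ha.ne']
    split_ifs at e2 ⊢ <;> nlinarith [e2.2]
  refine ⟨fun hk => ⟨?_, fun T y b c => ?_⟩, fun hk T y b _ c d => ?_⟩
  · have hr0 := ho.pos hk
    obtain ⟨Λ1, S⟩ := (hE _ (Real.exp_pos _) (p1 0 le_rfl)).1 hk Λ0 Λ0 le_rfl le_rfl
    obtain ⟨-, g, G, -⟩ := id H
    obtain ⟨g1, g2⟩ := G hk
    have sp : ∀ s, h / 16 ≤ s → s ≤ h → ∀ z ∈ sphere l.c (l.rad s), z ∈ col l h r1 r2 ∧
        |f z - f z0| ≤ o ∧ f z = 1 * (g z).re + 0 * (g z).re + -k * s := fun s s1 s2 z hz => by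
      have m := End.sphere_subset_ann hr0 (show s ∈ Icc (h / 16) h from ⟨s1, s2⟩) hz
      have m' : z ∈ col l h r1 r2 := by rwa [col, if_neg hk]
      refine ⟨m', by simpa [hk] using osc H h0 h2 hr m' hz0, ?_⟩
      rw [(g2 z m).1, ((End.mem_sphere_rad hr0).1 hz).2]; ring
    have gc : ∀ s, h / 16 ≤ s → s ≤ h → ContinuousOn (fun z => (g z).re) (sphere l.c (l.rad s)) :=
      fun s s1 s2 => Complex.continuous_re.comp_continuousOn
        (g1.continuousOn.mono (End.sphere_subset_ann hr0 ⟨s1, s2⟩))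
    have fc : ∀ s, h / 16 ≤ s → s ≤ h → ContinuousOn f (sphere l.c (l.rad s)) := fun s s1 s2 =>
      (((continuousOn_const.mul (gc s s1 s2)).add (continuousOn_const.mul (gc s s1 s2))).add
        continuousOn_const).congr fun z hz => (sp s s1 s2 z hz).2.2
    have fa : ∀ s, h / 16 ≤ s → s ≤ h → Real.circleAverage f l.c (l.rad s) =
        Real.circleAverage (fun z => (g z).re) l.c (l.rad s) - k * s := fun s s1 s2 => by
      rw [Real.circleAverage_congr_sphere fun z hz => (sp s s1 s2 z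
        (by rwa [abs_of_pos (End.rad_pos hr0 s)] at hz)).2.2,
        avg (End.rad_pos hr0 s) (gc s s1 s2) (gc s s1 s2)]
      ring
    refine ⟨a * Λ1 + o, fun s hs f0 a1 a2 a3 a4 => ?_⟩
    have s1 : h / 16 ≤ s := by linarith [hs.1]
    have s2 : s ≤ h := by linarith [hs.2]
    have s3 : h / 16 ≤ s - h / 2 := by linarith [hs.1]
    have s4 : s - h / 2 ≤ h := by linarith [hs.2]
    have r0 := End.rad_pos hr0 s
    have r0' := End.rad_pos hr0 (s - h / 2)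
    obtain ⟨f1, b1, b2⟩ := ext isClosed_sphere
      (f := fun z => a⁻¹ * f0 z + -a⁻¹ * f z + (t + f z0) / a)
      (((continuousOn_const.mul a1.continuousOn).add
        (continuousOn_const.mul (fc s s1 s2))).add continuousOn_const)
    have m1 : a * Real.circleAverage f1 l.c (l.rad s) = Real.circleAverage f0 l.c (l.rad s) -
        Real.circleAverage f l.c (l.rad s) + t + f z0 := by
      rw [Real.circleAverage_congr_sphere fun z hz => b2 z (by rwa [abs_of_pos r0] at hz),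
        avg r0 a1.continuousOn (fc s s1 s2)]
      field_simp; ring
    have m2 : Real.circleAverage f l.c (l.rad s) ≤ f z0 + o :=
      Real.circleAverage_mono_on_of_le_circle ((fc s s1 s2).circleIntegrable r0.le) fun z hz => by
        rw [abs_of_pos r0] at hz; linarith [abs_le.1 (sp s s1 s2 z hz).2.1]
    obtain ⟨Bd, d1, d2, d3, d4⟩ := S s hs f1 b1
      (fun z hz => le_of_mul_le_mul_left (by
        rw [b2 z hz, show a * (a⁻¹ * f0 z + -a⁻¹ * f z + (t + f z0) / a) =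
          f0 z - f z + t + f z0 by field_simp; ring]
        linarith [a2 z hz, abs_le.1 (sp s s1 s2 z hz).2.1]) ha)
      (le_of_mul_le_mul_left (by rw [m1]; linarith) ha) fun x x1 x2 x3 => by
        obtain ⟨-, k2, -, k4⟩ := hc x ⟨x1.1, x3⟩ (sp s s1 s2 _ x2).1
        rw [div_le_iff₀ (Real.exp_pos _), ← Real.exp_add, b2 _ x2]
        refine (c1 k2 ha hM hl k4 ((div_le_iff₀' hl).1 (a4 x x1.1 x2 x3))).trans_eq ?_
        congr 1; field_simp; ring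
    refine ⟨fun z => a * Bd z + 1 * f z + (t - f z0), ((continuousOn_const.mul d1).add
      (continuousOn_const.mul (fc _ s3 s4))).add continuousOn_const, fun z hz => ?_,
      fun x x1 x2 x3 => ?_, ?_⟩
    · nlinarith [mul_le_mul_of_nonneg_left (d2 z hz) ha.le, abs_le.1 (sp _ s3 s4 z hz).2.1]
    · obtain ⟨k1, k2, k3, -⟩ := hc x ⟨x1, x3⟩ (sp _ s3 s4 _ x2).1
      have k5 := d3 x ⟨x1, k1⟩ x2 x3
      rw [div_le_iff₀ (Real.exp_pos _), ← Real.exp_add] at k5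
      rw [div_le_iff₀' hl]
      refine (c2 k2 ha hM hl k3 k5).trans_eq ?_
      congr 2; field_simp; ring
    · rw [avg r0' d1 (fc _ s3 s4), fa _ s3 s4]
      have m3 := hW.2.2.2 l g (h / 16) h hk hr0 (g1.mono (End.ann_mono Ioo_subset_Icc_self))
        s ⟨by linarith [hs.1], by linarith [hs.2]⟩ (s - h / 2)
        ⟨by linarith [hs.1], by linarith [hs.2]⟩
      have m4 := mul_le_mul_of_nonneg_left d4 ha.le
      rw [mul_add, m1, fa s s1 s2] at m4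
      have m5 : (a * κ + k + 4 * t / h) * (h / 2) = a * (κ * (h / 2)) + k * (h / 2) + 2 * t := by
        field_simp; ring
      linarith [mul_le_mul_of_nonneg_right hκ (half_pos h0).le]
  · have := up (fun u u1 u2 u3 => T u u1 u2 (by rwa [cc, if_neg hk] at u3)) y b
      (by rwa [col, if_neg hk])
    rw [if_neg hk] at this
    exact this.trans (mul_le_mul_of_nonneg_left (Real.exp_le_exp.2 (by linarith)) hl.le)
  · have := up (fun u u1 u2 u3 => T u u1 u2 (by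
      rwa [cc, if_pos hk, mem_sphere_iff_norm] at u3)) y b (by rw [col, if_pos hk]; exact ⟨c, d⟩)
    rw [if_pos hk] at this
    have n0 : 0 < ‖y.1 - l.c‖ := h2.trans_le c
    have n1 : 0 ≤ Real.log (r1 / ‖y.1 - l.c‖) := Real.log_nonneg ((one_le_div n0).2 d)
    have n2 : 0 ≤ 4 * t / h := by positivity
    refine ⟨fun k4 => this.trans (mul_le_mul_of_nonneg_left (Real.exp_le_exp.2 ?_) hl.le),
      this.trans (mul_le_mul_of_nonneg_left (Real.exp_le_exp.2 (by nlinarith)) hl.le)⟩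
    have n3 : Real.log (r1 / ‖y.1 - l.c‖) ≤ 2 := by
      rw [Real.log_le_iff_le_exp (div_pos (by linarith) n0), div_le_iff₀ n0]
      nlinarith [Real.quadratic_le_exp_of_nonneg (zero_le_two (α := ℝ))]
    nlinarith [q1 hk]

end PF

theorem st_trans : St_TRANS := fun l h r1 r2 a f k Λo κ Cu Λ0 t C Λ κ' ho h0 h2 hr a1 a2 H t0 t1
    c0 p0 hκ hp hC hΛ X K τ φ ψ thr M lv hM hl ht hc hthr hE => by
  have p1 : 0 ≤ Λo := (abs_nonneg _).trans H.1
  have p2 : 0 ≤ Λo * h := mul_nonneg p1 h0.le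
  have p3 : 0 ≤ C := by nlinarith
  have p4 : 0 ≤ Λ * C := mul_nonneg p0 p3
  have p5 : Λ0 ≤ a * Λ0 := le_mul_of_one_le_left (by nlinarith) a1
  exact PF.endP CF.all_wext ho h0 h2 hr (by linarith) t0 t1 hM hl H hκ p1 (fun hk => (hp hk).2)
    (by nlinarith) (by nlinarith) (by nlinarith) hc ⟨ht, hthr⟩ hE

/-- rigidity of a part with negative budget -/
theorem pfit {J : Type} [Fintype J] {P : E → ℂ} {G : Set E}
    {l : J → End} {Sig : Finset ℂ} {r1 h a : ℝ} (hc : IsCurve P G l) (hg : Geo P G l Sig r1 h)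
    (ha : 0 < a) {k κ : J → ℝ} (hs : ∑ j, (a * κ j + k j) ≤ -1 / 4) (Λw Cu Cn : ℝ) :
    ∃ Λ1 ≥ (0 : ℝ), ∃ r20 > (0 : ℝ), ∀ r2, 0 < r2 → r2 ≤ r20 →
      ∀ (f : J → ℂ → ℝ) (Λ0 : ℝ), (∀ j, LW (l j) h r1 (f j) (k j) Λw) → Λ1 ≤ Λ0 →
        PFit G l Sig h r1 r2 a f κ Cu Λ0 Cn := by
  have p1 := hg.r1pos
  have p2 := hg.hpos
  obtain ⟨Λ, a1, H⟩ := SH.partOK CF.all_part hc hg
  obtain ⟨t, t0, t1, t2⟩ : ∃ t > (0 : ℝ), t ≤ 1 ∧ Fintype.card J * (4 * t / h) ≤ 1 / 8 := by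
    refine ⟨min 1 (h / (32 * (Fintype.card J + 1))), by positivity, min_le_left _ _, ?_⟩
    have : min 1 (h / (32 * (Fintype.card J + 1))) ≤ h / (32 * (Fintype.card J + 1 : ℝ)) :=
      min_le_right _ _
    rw [le_div_iff₀ (by positivity)] at this
    rw [← mul_div_assoc, div_le_iff₀ p2]
    nlinarith [lt_min one_pos (show 0 < h / (32 * (Fintype.card J + 1 : ℝ)) by positivity)]
  set S := ∑ j, |a * κ j + k j| with hS
  have s1 : ∀ j, |a * κ j + k j| ≤ S := fun j => Finset.single_le_sum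
    (f := fun j => |a * κ j + k j|) (fun _ _ => abs_nonneg _) (Finset.mem_univ j)
  set C := max (max 1 Cn) (2 + 2 * (Λw * (1 + h)) + a * Cu + 2 * S) with hC
  have c1 : 1 ≤ C := (le_max_left _ _).trans (le_max_left _ _)
  obtain ⟨r20, a2, H⟩ := H C c1 (fun j => a * κ j + k j + 4 * t / h) (by
    rw [Finset.sum_add_distrib, Finset.sum_const, Finset.card_univ, nsmul_eq_mul]; linarith)
  refine ⟨(1 + C + Λ * C + |Λw * (1 + h)|) / a, by positivity, min r20 (r1 / 4), by positivity,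
    fun r2 b1 b2 f Λ0 hf hΛ => ⟨C, Λ, t, _, t0, by linarith,
      (le_max_right _ _).trans (le_max_left _ _), H r2 b1 (b2.trans (min_le_left _ _)),
      fun j X K τ φ ψ thr M lv k1 k2 k3 k4 k5 k6 => ?_⟩⟩
  have b3 : r2 ≤ r1 / 4 := b2.trans (min_le_right _ _)
  rw [div_le_iff₀' ha] at hΛ
  exact PF.endP CF.all_wext (hc.ok j) p2 b1 (by linarith) ha t0.le t1 k1 k2 (hf j) le_rfl
    (abs_nonneg _) (fun _ => le_abs_self _) (le_max_of_le_right (by linarith [s1 j]))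
    (by nlinarith [le_abs_self (Λw * (1 + h))]) (by linarith [le_abs_self (Λw * (1 + h))])
    k4 ⟨k3, k5⟩ k6

theorem PFit.congr {J : Type} {G : Set E} {l : J → End} {Sig : Finset ℂ} {h r1 r2 a : ℝ}
    {f f' : J → ℂ → ℝ} {κ : J → ℝ} {Cu Λ0 Cn b : ℝ} (H : PFit G l Sig h r1 r2 a f κ Cu Λ0 Cn)
    (h0 : 0 < h) (hr : r2 ≤ r1) (hf : ∀ j, ∀ z ∈ col (l j) h r1 r2, f' j z = f j z + b) :
    PFit G l Sig h r1 r2 a f' κ Cu Λ0 Cn := by
  obtain ⟨C, Λ, t, κ', a1, a2, a3, a4, a5⟩ := H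
  have e : ∀ j, ∀ z ∈ col (l j) h r1 r2, ∀ u M : ℝ,
      u * Real.exp (f j z) * (Real.exp b * M) = u * Real.exp (f' j z) * M := fun j z hz u M => by
    rw [hf j z hz, Real.exp_add]; ring
  refine ⟨C, Λ, t, κ', a1, a2, a3, a4, fun j X K τ φ ψ thr M lv k1 k2 k3 k4 k5 k6 =>
    a5 j X K τ φ ψ thr (Real.exp b * M) lv (by positivity) k2 k3 (fun y c d => ?_)
      (fun z hz => ?_) k6⟩
  · rw [e j _ d]; exact k4 y c d
  · rw [e j _ (PF.cc_col h0.le hr hz)]; exact k5 z hz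

theorem st_pfit : St_PFIT :=
  ⟨fun _ _ _ _ _ _ _ _ _ f _ _ Λo Cu Cn hc hg a1 _ hf _ _ hs => by
    obtain ⟨Λ1, b1, r20, b2, H⟩ := pfit hc hg (one_pos.trans_le a1) hs Λo Cu Cn
    exact ⟨Λ1, b1, r20, b2, fun Λ0 c1 r2 c2 c3 => H r2 c2 c3 f Λ0 hf c1⟩,
  fun _ _ _ _ _ _ _ _ _ _ _ _ _ _ _ H h0 hr hf => H.congr h0 hr hf⟩

/-- rigidity from the end properties -/
theorem PFit.rig {J : Type} [Fintype J] {P : E → ℂ} {G : Set E} {l : J → End} {Sig : Finset ℂ}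
    {h r1 r2 a : ℝ} {f : J → ℂ → ℝ} {κ : J → ℝ} {Cu Λ0 Cn : ℝ}
    (H : PFit G l Sig h r1 r2 a f κ Cu Λ0 Cn) (hc : IsCurve P G l) (hg : Geo P G l Sig r1 h)
    (h2 : 0 < r2) (h4 : r2 ≤ r1 / 4) : ∃ C ≥ (0 : ℝ), ∃ t > (0 : ℝ), ∀ (X K : Set E) (τ : ℝ)
      (φ : E → ℝ) (ψ : J → E → ℝ) (thr : J → ℝ) (M lv : ℝ), 0 < M → 0 < lv →
      (∀ j, ∀ y ∈ SH.near X (l j).w τ, y.1 ∈ col (l j) h r1 r2 → y ∉ K ∧ 0 ≤ ψ j y ∧
        φ y ≤ Real.exp t * (ψ j y ^ a * Real.exp (f j y.1) * M) ∧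
        ψ j y ^ a * Real.exp (f j y.1) * M ≤ Real.exp t * φ y) →
      (∀ j, 0 ≤ thr j ∧ ∀ z ∈ cc (l j) h r1, thr j ^ a * Real.exp (f j z) * M ≤ lv) →
      (∀ j, EP (l j) (X \ K) (ψ j) τ h r1 r2 Cu Λ0 (κ j) (thr j)) →
      SH.CoreB G l Sig r1 h τ X φ lv → (∀ D, 1 ≤ D → D ≤ Real.exp Cn →
        SH.Rig G l Sig r1 h r2 τ X K φ lv D) ∧
      (SH.TubeOK G l Sig h r2 τ X K φ → SH.NodeB G Sig r1 r2 τ X K φ (lv * Real.exp Cn) →
        ∀ x ∈ X, x ∈ tube (reg G l Sig (h / 16) r2 (r1 / 4)) τ → φ x ≤ lv * Real.exp C) := by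
  obtain ⟨C, Λ, t, κ', a1, a2, a3, a4, a5⟩ := H
  refine ⟨C, a2, t, a1, fun X K τ φ ψ thr M lv k1 k2 k3 k4 k5 k6 => ?_⟩
  have e : ∀ j, SH.EndP (l j) X K φ τ h r1 r2 C Λ (κ' j) lv := fun j =>
    a5 j X K τ φ (ψ j) (thr j) M lv k1 k2 (k4 j).1 (k3 j) (k4 j).2 (k5 j)
  have b := Real.exp_le_exp.2 a3
  exact ⟨fun D d1 d2 => SH.rig_of hc hg h2 h4 d1 (d2.trans b) k2 a4 k6 e, fun c d =>
    SH.upper hc hg h4 a2 k2 c k6 (d.mono (mul_le_mul_of_nonneg_left b k2.le)) e⟩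

end Pool.Agent.S6
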