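import Pool.Agent.Lib.S6.SplCore2
import Pool.Agent.Lib.S6.Blue4
import Pool.Agent.Lib.S6.PFit
import Pool.Agent.Lib.S6.B_KFIT
import Pool.Agent.Lib.S6.B_KMOD
import Pool.Agent.Lib.S6.B_KREL
import Pool.Agent.Lib.S6.B_GENW
import Pool.Agent.Lib.S6.B_GEOW
import Pool.Agent.Lib.S6.B_SPLG2
import Pool.Agent.Lib.S6.B_SPLW
import Pool.Agent.Lib.S6.B_CIN

/-!
Section 6 of the project 9ccfb7: the split from the site and the certificate.
-/

open Set Filter Topology Metric
open scoped ContDiff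

noncomputable section

namespace Pool.Agent.S6

open Pool.Agent.CF (End Kind IsCurve Geo SLH Cv Priv SheetFam)
open Pool.Agent.Lib

namespace SPL

theorem exp_two {y : ℝ} (h : y ≤ 1 / 2) : Real.exp y ≤ 2 := by
  have := Real.exp_one_lt_d9
  have := Real.exp_le_exp.2 h
  have e2 : Real.exp (1 / 2) * Real.exp (1 / 2) = Real.exp 1 := by rw [← Real.exp_add]; norm_num
  nlinarith [Real.exp_pos (1 / 2)]

open Classical in
theorem sum_hub {ι : Type} [Fintype ι] (H : ι) (η b : ℝ) :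
    ∑ j, (η + if j = H then b else 0) = Fintype.card ι * η + b := by
  rw [Finset.sum_add_distrib]; simp

theorem dep_nonneg {l : End} (hk : l.k = Kind.out) (hr : 0 < l.r) {z : ℂ} (hz : ‖z - l.c‖ < l.r) :
    0 ≤ l.dep z := by
  have := Real.log_nonpos (show 0 ≤ ‖z - l.c‖ / l.r by positivity) ((div_le_one hr).2 hz.le)
  simp only [End.dep, End.sgn, if_pos hk]
  push_cast
  linarith

end SPL

open SPL in
open Classical in
theorem st_split4 (hSI : St_SITE) (hCB : St_CERTB) (hSV : St_SERVE) : St_SPLIT4 := by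
  obtain ⟨L0, hS⟩ := hSI
  refine ⟨L0, fun ab ok hL => ?_⟩
  intro I J _ _ fx C K Nd TC TK D a Z q G π π' _ _ x x' prK sp fd Sig fok alg sec zD pos bud rdy one
    gain clr gne
  have L10 : 10 ≤ ab.L := by linarith [ok.num.1]
  have cw := ok.num.2.2.2.2.2.2.2.2
  have cC := alg.hC.curve
  have hR := HP.R_pos alg.hC
  have px : Pos C x := ⟨fun k k' e => Sum.inl_injective (pos.1 (a₁ := Sum.inl k) (a₂ := Sum.inl k') e),
    fun k => pos.2 (Sum.inl k)⟩
  have px' : Pos C x' :=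
    ⟨fun k k' e => Sum.inr_injective (pos.1 (a₁ := Sum.inr k) (a₂ := Sum.inr k') e),
      fun k => pos.2 (Sum.inr k)⟩
  obtain ⟨w1, w2, w3, h1, hh1, w4⟩ := st_splw C K Nd TC TK D a Z q G π x alg sec px
  obtain ⟨h2, hh2, SigB, sN, sZ, cb⟩ := st_clearb C K Nd TC TK D a Z q G _ π x alg sec px
  obtain ⟨h, hh, a1, a2, a3⟩ : ∃ h > 0, h ≤ h1 ∧ h ≤ h2 ∧ h ≤ 1 :=
    ⟨min h1 (min h2 1), by positivity, min_le_left _ _, (min_le_right _ _).trans (min_le_left _ _),
      (min_le_right _ _).trans (min_le_right _ _)⟩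
  obtain ⟨Λw, k, kK, sk, skK, lwK, lw⟩ := w4 h h hh a1 hh a1
  obtain ⟨clb, geo⟩ := cb h h hh a2 hh a2
  obtain ⟨η, hη, η1, η2⟩ : ∃ η > (0 : ℝ), η ≤ 1 ∧ Fintype.card C.ι * η ≤ 1 / 4 := by
    refine ⟨1 / (4 * Fintype.card C.ι + 4), by positivity, ?_, ?_⟩
    · rw [div_le_one (by positivity)]; linarith [(Nat.cast_nonneg (Fintype.card C.ι) : (0 : ℝ) ≤ _)]
    · rw [mul_one_div, div_le_iff₀ (by positivity)]; linarith
  have n1 : 3 * (D : ℝ) + 1 ≤ Nd.card := by exact_mod_cast alg.num.1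
  have n2 : 2 * (Nd.card : ℝ) ≤ TC := by exact_mod_cast alg.num.2.1
  have n3 : (Z.card : ℝ) ≤ D := by exact_mod_cast zD
  have n4 : (Z.card : ℝ) + Fintype.card π = TC := by exact_mod_cast sec.card
  have n5 : (0 : ℝ) ≤ D := Nat.cast_nonneg _
  have n6 : (xB TC Nd.card - 2) * Nd.card = 2 * TC + 1 - Nd.card := by
    unfold xB
    have : (Nd.card : ℝ) ≠ 0 := by linarith
    field_simp
    ring
  have n7 : 0 ≤ xB TC Nd.card - 2 :=
    nonneg_of_mul_nonneg_left (by rw [n6]; linarith) (show (0 : ℝ) < Nd.card by linarith)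
  have cG := sec.poly.2.continuous
  have cq := sec.poly.1.continuous
  obtain ⟨Dp, hDp, HC⟩ := hCB C.ι J C.P K.P (gS C G x 0) (qS C a q x 0) C.Γ K.Γ C.e SigB Sig h h
    (xB TC Nd.card - 2) Λw k kK (fun j => η + if j = C.H then 1 / 2 else 0)
    (fun j => η + if j = C.H then 2 * (Fintype.card π : ℝ) else 0)
    (fun j => η + if j = C.H then 2 * (Fintype.card π : ℝ) - 3 / 4 * Fintype.card π' else 0) sp
    cC geo rdy.geom (by unfold gS CF.gWin; fun_prop) (by unfold qS CF.qWin; fun_prop)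
    (fun y b c => have d := alg.nodal.left y b c
      ⟨(alg.nodal.node y d).2.1, sN y d, rdy.sig y d, w1 y d⟩)
    (fun y b c => (alg.nodal.node y (alg.nodal.right y b c)).1)
    (fun y b => ⟨(w2 y b).1, fun c => ((w2 y b).2 c).imp_left (sZ y)⟩) n7 lwK
    (by rw [Finset.sum_add_distrib, sum_hub, sk]; linarith)
    (by rw [Finset.sum_sub_distrib, Finset.sum_add_distrib, sum_hub, sk, ← Finset.mul_sum, skK, n6]
        linarith)
    (by rw [Finset.sum_add_distrib, sum_hub, sk]; linarith) rdy.om (rdy.part 2 (Or.inl rfl))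
    (by rw [add_sub_cancel]; exact rdy.part _ (Or.inr rfl))
  obtain ⟨Cu, -, HK⟩ := st_kit h (Fintype.card π + Fintype.card π') 0 η hh a3 le_rfl hη η1
  obtain ⟨Λ1, hΛ, r20, hr20, HC⟩ := HC Cu
  obtain ⟨κf, kit⟩ := HK Λ1 hΛ
  obtain ⟨r2, hr2, b1, b2⟩ : ∃ r2 > 0, r2 ≤ r20 ∧ r2 ≤ h / 8 :=
    ⟨min r20 (h / 8), by positivity, min_le_left _ _, min_le_right _ _⟩
  let sb : Sp C.ι := ⟨C.e, fun _ _ => 1, fun _ => 0, h, h, r2, Cu, Λ1⟩
  have geob : Geom C.P C.Γ sb SigB := ⟨cC, geo, hr2, b2⟩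
  obtain ⟨θ1, hθ1, HS⟩ := hS ab.L hL I fx C K Nd TC TK D a Z q G π π' x x' sb SigB _ η Dp κf fok alg
    sec pos rfl geob clb le_rfl kit hDp
  obtain ⟨θ, hθ, η', hη', HC⟩ := HC Λ1 le_rfl r2 hr2 b1 θ1 hθ1
  filter_upwards [HS (min θ θ1) (lt_min hθ hθ1) (min_le_right _ _), w3 η' hη', lw,
    st_cin J C K Nd TC TK D a Z q G π x SigB Sig h h r2 ab.L sp alg sec px geo L10 rdy.geom clr gne,
    ev_le (show (0 : ℝ) < 1 / 8 by norm_num)] with δ site near ⟨lwδ, gz⟩
    ⟨⟨Sg, sin⟩, cin, ball, bp, bp2, gnd⟩ ⟨hδ, δ8⟩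
  refine ⟨min r2 (C.R * δ / 200), by positivity,
    fun F WC WK hz Sd good e1 e2 e3 pr hpr kk ε hε => ?_⟩
  subst e1
  have pre := good.pre
  have T := UPD.two pre
  have prC : ∀ k, ((winS C K π a q G x δ).e k).k = Kind.pt → 0 < WC.pr k := fun k c =>
    (pre.wall.C.port k c).1
  have small : ∀ k, ((winS C K π a q G x δ).e k).k = Kind.pt → 2 * WC.pr k ≤ C.R * δ / 100 := by
    rintro (j | i) c
    · linarith [(e2 j c).trans_le (min_le_right _ _)]
    · rw [e3]; exact bp2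
  obtain ⟨p1, kp1⟩ := st_kpar J _ _ K WK.pr sp fd L10 cw rdy.fit rdy.all alg.hK.out alg.hK.curve.ok
    fun k c => (pre.wall.K.port k c).1
  have cert : CertQ fx (preS C K Nd TC TK D π a q G x δ F WC WK hz Sd) (gS C G x δ) (qS C a q x δ) sb
      sp _ _ _ θ θ1 Dp := HC _ _ sin.pG sin.pq near sin.gK gz lwδ (fx.S F) (PCS.isCompact_S fx T.cont)
    (fun y b c => by
      obtain ⟨j | i, u, v⟩ := pre.wall.C.contact y b c
      · refine ⟨j, ?_, v⟩
        by_cases g : (C.e j).k = Kind.pt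
        · rw [End.nearO_pt g]
          exact closedBall_subset_ball ((e2 j g).trans_le (min_le_left _ _)) (UPD.ct_pt g _ ▸ u)
        · exact End.circ_subset_nearO (cC.ok j) (by positivity) hr2 (UPD.ct_loop g _ ▸ u)
      · refine ⟨C.H, ball i ?_, v⟩
        rw [← e3 i]
        exact u)
    fun y b c => by
      obtain ⟨k, u, v⟩ := pre.wall.K.contact y b c
      exact ⟨p1 k, (kp1.ct k).2.1 u, kp1.w k ▸ v⟩
  have key := core st_kpar st_kmod st_krel st_kfit st_iso st_newf (st_genw st_newf) st_addk st_splg2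
    hSV ok fok good (x' := x') px' sin (by rintro (j | i) <;> rfl) rdy.fit rdy.all rdy.geom rdy.sig
    gain (fun j z b => ⟨gnd j z b, (clr j z b).1⟩) (sb := sb) (p0 := par C π) geob cin
    (fun j z b => (clb j z b).1) small hpr
    (Zf := fun s u j => rg C (winS C K π a q G x δ).e WC.pr h h s u j)
    (fun y hy y1 y2 => by
      obtain ⟨c1, c2, c3, c4⟩ := st_cutm C K π a q G x δ SigB Sg h h _ _ y WC.pr cC pre.alg.hC.curve
        geo sin.geo cin hy y1 fun k c => ⟨prC k c, by nlinarith [exp_two y2, small k c, prC k c]⟩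
      exact ⟨fun j => (c1 j).1,
        fun s u j d1 d2 z b => ⟨b.1, fun c => d1.trans (b.2.1 c), fun k f g =>
          (mul_le_mul_of_nonneg_left (Real.exp_le_exp.2 d2) (prC k g).le).trans (b.2.2 k f g)⟩,
        fun j => (c1 j).2.1, fun j => (c1 j).2.2, fun k => c2 y y k le_rfl le_rfl,
        fun k c => c3 k _ c (lt_mul_of_one_lt_right (prC k c) (Real.one_lt_exp_iff.2 hy))
          (pre.wall.C.port k c).2.1,
        fun p ρ' b c => c4 p ρ' b (HP.hub_loop alg.hC) c⟩)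
    (fun t ht t3 k z b c d => by
      by_contra g
      refine d ⟨c, fun f => ?_, fun k' _ f => ?_⟩
      · obtain j | i := k
        · exact (UPD.zn_loop (l := C.e j) f _ _ (by linarith) b).2.1
        · have b' : z ∈ closedBall (hp C (x i) δ 0) (WC.pr (Sum.inr i) * Real.exp (3 * t)) := b
          have u : Real.exp (3 * t) ≤ 3 :=
            (Real.exp_le_exp.2 (by linarith)).trans (Real.exp_one_lt_d9.le.trans (by norm_num))
          rw [e3 i] at b'
          have v := HP.win_in hR (px.2 i).1 hδ δ8 ((mem_closedBall_iff_norm.1 b').trans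
            (by nlinarith [mul_pos hR hδ]))
          exact le_trans (by linarith) (dep_nonneg alg.hC.out hR v.1)
      · by_contra u
        refine g ⟨k', f, mem_closedBall_iff_norm.2 ((not_le.1 u).le.trans ?_)⟩
        exact mul_le_of_le_one_right (prC k' f).le (Real.exp_le_one_iff.2 (by norm_num)))
    (min_le_left θ θ1)
    (site F WC hz pre.wall.smooth pre.wall.gap pre.wall.hz.1 pre.wall.C
      (fun j c => (e2 j c).trans_le (min_le_left _ _)) e3 pr hpr) cert kk hε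
  filter_upwards [key] with δ' ⟨e, y2, dC, d, p, Γe, lA, M, MK, EA, Ef, hz', sd, τ', T0, he, sub, cl,
    kp, ctx⟩
  obtain ⟨-, k2, k3, k4, k5, k6, -⟩ := st_kfit J C.ι ab.L ab.Cw (winS C K π a q G x δ) K WK.pr sp fd
    p (gS C G x δ) (qS C a q x δ) (fun _ => y2) (fun k => WC.pr k * Real.exp y2) dC d Γe e lA
    rdy.fit kp
  have np : ∀ k, (((winS C K π a q G x δ).e k).adj y2 (WC.pr k * Real.exp y2)).k ≠ Kind.pt :=
    fun k => End.adj_ne_pt fun c => mul_pos (prC k c) (Real.exp_pos _)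
  refine ⟨_, e, _, _, Ef, hz', _, _, _, τ', T0, he, rfl, sub, cl, ctx, k2 one, k3, rfl, k4, k5, rfl,
    ?_, rfl, ?_⟩
  · rintro (j | j) c
    · exact absurd c (np j)
    · exact (k6 _).2 ⟨j, rfl⟩
  · rintro (j | j) c
    · exact absurd c (np j)
    · exact ⟨j, c, rfl⟩

end Pool.Agent.S6
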