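import Pool.Agent.Lib.S6.Site2
import Pool.Agent.Lib.SH.B_PWG
import Pool.Agent.Lib.SH.B_AWG

/-! Block SPW: split walls are plain walls. -/

open Set Filter Topology Metric

noncomputable section

namespace Pool.Agent.S6

open Pool.Agent.Lib

namespace SPW

theorem n1_mono {u : ℂ → ℂ} {o o' : ℝ} {z : ℂ} (h : N1 u o z) (ho : o ≤ o') : N1 u o' z :=
  ⟨h.1, h.2.1.trans ho, h.2.2.trans ho⟩

theorem n1_two {u : ℂ → ℂ} {o : ℝ} {z : ℂ} (h : N1 u o z) : N1 (fun v => 2 - u v) o z := by
  refine ⟨analyticAt_const.sub h.1, ?_, ?_⟩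
  · have e : (2 : ℂ) - u z - 1 = -(u z - 1) := by ring
    rw [e, norm_neg]
    exact h.2.1
  · have e : deriv (fun v => 2 - u v) z = -deriv u z :=
      (h.1.differentiableAt.hasDerivAt.const_sub (2 : ℂ)).deriv
    rw [e, norm_neg]
    exact h.2.2

theorem n1_norm {u : ℂ → ℂ} {o : ℝ} {z : ℂ} (h : N1 u o z) : 1 - o ≤ ‖u z‖ ∧ ‖u z‖ ≤ 1 + o := by
  have a := abs_le.1 (abs_norm_sub_norm_le (u z) 1)
  rw [norm_one] at a
  constructor <;> linarith [h.2.1, a.1, a.2]

theorem n1_dir {u b : ℂ → ℂ} {o om : ℝ} {z : ℂ} (h : N1 u o (b z)) (hb : AnalyticAt ℂ b z)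
    (hd : ‖deriv b z‖ ≤ 100) (ho : 0 ≤ o) (h1 : o ≤ 1 / 1000) (h2 : 1000 * o ≤ om) :
    SH.Dir (fun v => u (b v)) om 1 z := by
  have e : deriv (fun v => u (b v)) z = deriv u (b z) * deriv b z :=
    (h.1.differentiableAt.hasDerivAt.comp z hb.differentiableAt.hasDerivAt).deriv
  have n1 := (n1_norm h).1
  have d1 : ‖deriv (fun v => u (b v)) z‖ ≤ o * 100 := by
    rw [e, norm_mul]
    exact mul_le_mul h.2.2 hd (norm_nonneg _) ho
  have r1 : |(u (b z) - 1).re| ≤ o := (Complex.abs_re_le_norm _).trans h.2.1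
  have r2 : |(u (b z) - 1).im| ≤ o := (Complex.abs_im_le_norm _).trans h.2.1
  rw [Complex.sub_re, Complex.one_re] at r1
  rw [Complex.sub_im, Complex.one_im, sub_zero] at r2
  have r3 := (abs_le.1 r1).1
  have o0 : 0 ≤ om := by linarith
  refine ⟨h.1.comp hb, r2.trans ?_, d1.trans ?_, ((Complex.abs_im_le_norm _).trans d1).trans ?_⟩
  · have : om * (1 / 2) ≤ om * (u (b z)).re := mul_le_mul_of_nonneg_left (by linarith) o0
    show o ≤ om * (u (b z)).re
    linarith
  · show o * 100 ≤ 1 * ‖u (b z)‖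
    linarith
  · have : om * (1 / 2) ≤ om * ‖u (b z)‖ := mul_le_mul_of_nonneg_left (by linarith) o0
    show o * 100 ≤ om * ‖u (b z)‖
    linarith

/-- the numerical core of the steepness -/
theorem steep_num {A0 A1 A2 D0 D1 D2 n0 n1 n2 t c e : ℝ} (ht : 0 < t) (hc : 0 < c) (he : 0 < e)
    (a1 : 0 ≤ A1) (a2 : 0 ≤ A2) (d1 : 0 ≤ D1) (d2 : 0 ≤ D2) (a0 : 0 ≤ A0) (h0 : A0 ≤ t / 8 * D0)
    (h : A1 + A2 ≤ t / 8 * (D1 + D2)) (m0 : 0 ≤ n0) (m1 : 9 / 10 ≤ n1 ∧ n1 ≤ 11 / 10)
    (m2 : 9 / 10 ≤ n2 ∧ n2 ≤ 11 / 10) :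
    A0 * n0 + e / 2 * A1 * n1 + e / 2 * A2 * n2 ≤
      t / c / 4 * (D0 * c * n0 + e / 2 * (D1 * c) * n1 + e / 2 * (D2 * c) * n2) := by
  have e1 : t / c / 4 * (D0 * c * n0 + e / 2 * (D1 * c) * n1 + e / 2 * (D2 * c) * n2) =
      t / 4 * D0 * n0 + e / 2 * (t / 4 * (D1 * n1 + D2 * n2)) := by
    field_simp
    ring
  rw [e1]
  have b0 : A0 * n0 ≤ t / 4 * D0 * n0 := mul_le_mul_of_nonneg_right (by linarith) m0
  have b1 : A1 * n1 ≤ A1 * (11 / 10) := mul_le_mul_of_nonneg_left m1.2 a1
  have b2 : A2 * n2 ≤ A2 * (11 / 10) := mul_le_mul_of_nonneg_left m2.2 a2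
  have b3 : D1 * (9 / 10) ≤ D1 * n1 := mul_le_mul_of_nonneg_left m1.1 d1
  have b4 : D2 * (9 / 10) ≤ D2 * n2 := mul_le_mul_of_nonneg_left m2.1 d2
  have b5 : t / 4 * (9 / 10 * (D1 + D2)) ≤ t / 4 * (D1 * n1 + D2 * n2) :=
    mul_le_mul_of_nonneg_left (by linarith) (by positivity)
  have b6 : 0 ≤ t * (D1 + D2) := by positivity
  have b7 : A1 * n1 + A2 * n2 ≤ t / 4 * (D1 * n1 + D2 * n2) := by linarith
  have b8 := mul_le_mul_of_nonneg_left b7 (show 0 ≤ e / 2 by positivity)
  linarith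

end SPW

open SPW in
theorem st_spw : St_SPW := by
  intro ι hι
  obtain ⟨om0, hom0, H⟩ := SH.st_pwg ι 1 hι zero_le_one
  obtain ⟨o, o0, o1, o2⟩ : ∃ o : ℝ, 0 < o ∧ o ≤ 1 / 1000 ∧ 1000 * o ≤ om0 :=
    ⟨min (1 / 1000) (om0 / 1000), by positivity, min_le_left _ _,
      by linarith [min_le_right (1 / 1000 : ℝ) (om0 / 1000)]⟩
  refine ⟨o, o0, ?_⟩
  intro J E1 T S y2 t c e r om b u1 u2 Θ pf hc htc he her hom hE hb hu
  obtain ⟨y0, y1, t1⟩ := pf.num
  have ht : 0 < t := by linarith
  have hι' : 0 < t / c := by positivity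
  have hι1 : t / c ≤ om0 := by
    rw [div_le_iff₀ hc]
    nlinarith
  have hI : ∀ y ∈ Icc (-(2 * (t / c))) (2 * (t / c)), c * y ∈ Icc (-(2 * t)) (2 * t) := by
    intro y hy
    have e1 : c * (2 * (t / c)) = 2 * t := by field_simp
    have a1 := mul_le_mul_of_nonneg_left hy.1 hc.le
    have a2 := mul_le_mul_of_nonneg_left hy.2 hc.le
    rw [mul_neg, e1] at a1
    rw [e1] at a2
    exact ⟨a1, a2⟩
  have dE0 : ∀ y ∈ Icc (-(2 * t)) (2 * t), 0 ≤ deriv E1 y := fun y hy =>
    nonneg_of_mul_nonneg_right ((abs_nonneg _).trans (pf.dE y hy).2.1) (by positivity)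
  have lin : ∀ y : ℝ, HasDerivAt (fun s : ℝ => c * s) c y := fun y => by
    simpa using (hasDerivAt_id y).const_mul c
  have Ep : ∀ y ∈ Icc (-(2 * t)) (2 * t), 0 ≤ y → 0 ≤ E1 y := fun y hy h0 => by
    rcases h0.eq_or_lt with h | h
    · rw [pf.e0 y ⟨h0, by linarith⟩]
    · exact nonneg_of_mul_nonneg_right (pf.dE y hy).2.2 h
  have En : ∀ y ∈ Icc (-(2 * t)) (2 * t), y ≤ y2 → E1 y ≤ 0 := fun y hy h0 => by
    rcases le_or_gt 0 y with h | h
    · rw [pf.e0 y ⟨h, by linarith⟩]
    · exact nonpos_of_mul_nonneg_right (pf.dE y hy).2.2 h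
  have hu' : ∀ y ∈ Icc (-(2 * (t / c))) (2 * (t / c)),
      (∀ᶠ s in 𝓝 (c * y), E1 s = 0 ∧ T s = 0 ∧ S s = 0) ∨
      ∀ x ∈ J, N1 u1 o (b (x + y * Complex.I)) ∧ N1 u2 o (b (x + y * Complex.I)) ∧
        N1 (fun v => 2 - u2 v) o (b (x + y * Complex.I)) := fun y hy =>
    (hu y hy).imp id fun h x hx => ⟨n1_mono (h x hx).1 hom, n1_mono (h x hx).2 hom,
      n1_two (n1_mono (h x hx).2 hom)⟩
  have W : SH.WS2 J ![fun y => E1 (c * y), fun y => e / 2 * T (c * y), fun y => e / 2 * S (c * y)]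
      ![fun y => deriv E1 (c * y) * c, fun y => e / 2 * (deriv T (c * y) * c),
        fun y => e / 2 * (deriv S (c * y) * c)]
      ![fun z => u1 (b z), fun z => u2 (b z), fun z => 2 - u2 (b z)] ![0, e / 2, e / 2]
      (fun y => Θ (b y.1, y.2)) e om0 1 (t / c) r := by
    refine ⟨fun i y hy => ?_, fun y hy => ?_, fun x hx y hy => ?_, fun y hy => ?_,
      ⟨he.le, by linarith⟩, fun x hx y hy => ⟨?_, ?_⟩⟩
    · have h1 := hI y hy
      have a0 := dE0 _ h1
      have a1 := (pf.dT.2 (c * y)).1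
      have a2 := (pf.dS.2 (c * y)).1
      fin_cases i
      · exact ⟨(pf.dE _ h1).1.hasDerivAt.comp y (lin y), mul_nonneg a0 hc.le⟩
      · exact ⟨((pf.dT.1 _).hasDerivAt.comp y (lin y)).const_mul (e / 2),
          mul_nonneg (by positivity) (mul_nonneg a1 hc.le)⟩
      · exact ⟨((pf.dS.1 _).hasDerivAt.comp y (lin y)).const_mul (e / 2),
          mul_nonneg (by positivity) (mul_nonneg a2 hc.le)⟩
    · rcases hu' y hy with h | h
      · have h' := (lin y).continuousAt.eventually h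
        refine Or.inl fun i => ?_
        fin_cases i
        · exact h'.mono fun s hs => hs.1
        · exact h'.mono fun s hs => by
            show e / 2 * T (c * s) = 0
            rw [hs.2.1, mul_zero]
        · exact h'.mono fun s hs => by
            show e / 2 * S (c * s) = 0
            rw [hs.2.2, mul_zero]
      · refine Or.inr ⟨fun x _ => Eventually.of_forall fun z => ?_, fun i => Or.inr fun x hx => ?_⟩
        · rw [Fin.sum_univ_three]
          show ((0 : ℝ) : ℂ) * u1 (b z) + ((e / 2 : ℝ) : ℂ) * u2 (b z) +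
            ((e / 2 : ℝ) : ℂ) * (2 - u2 (b z)) = e
          push_cast
          ring
        · obtain ⟨b1, b2, _⟩ := hb x hx y hy
          obtain ⟨n1, n2, n3⟩ := h x hx
          fin_cases i
          · exact n1_dir (u := u1) (b := b) n1 b1 b2 o0.le o1 o2
          · exact n1_dir (u := u2) (b := b) n2 b1 b2 o0.le o1 o2
          · exact n1_dir (u := fun v => 2 - u2 v) (b := b) n3 b1 b2 o0.le o1 o2
    · have h1 := hI y hy
      have a0 := dE0 _ h1
      obtain ⟨a1, a3, _⟩ := pf.dT.2 (c * y)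
      obtain ⟨a2, a4, _⟩ := pf.dS.2 (c * y)
      have he2 : 0 ≤ e / 2 := by positivity
      unfold SH.Steep
      simp only [Fin.sum_univ_three]
      rcases hu' y hy with h | h
      · obtain ⟨z0, z1, z2⟩ := h.self_of_nhds
        refine Or.inl ?_
        show |E1 (c * y) - 0| * ‖u1 (b (x + y * Complex.I))‖ +
          |e / 2 * T (c * y) - 0| * ‖u2 (b (x + y * Complex.I))‖ +
          |e / 2 * S (c * y) - 0| * ‖2 - u2 (b (x + y * Complex.I))‖ ≤
          t / c / 4 * (deriv E1 (c * y) * c * ‖u1 (b (x + y * Complex.I))‖ +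
            e / 2 * (deriv T (c * y) * c) * ‖u2 (b (x + y * Complex.I))‖ +
            e / 2 * (deriv S (c * y) * c) * ‖2 - u2 (b (x + y * Complex.I))‖)
        rw [z0, z1, z2]
        simp only [mul_zero, sub_zero, abs_zero, zero_mul, add_zero]
        positivity
      · obtain ⟨n1, n2, n3⟩ := h x hx
        have m2 := n1_norm n2
        have m3 := n1_norm n3
        rcases pf.steep _ h1 with s | s
        · refine Or.inl ?_
          show |E1 (c * y) - 0| * ‖u1 (b (x + y * Complex.I))‖ +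
            |e / 2 * T (c * y) - 0| * ‖u2 (b (x + y * Complex.I))‖ +
            |e / 2 * S (c * y) - 0| * ‖2 - u2 (b (x + y * Complex.I))‖ ≤
            t / c / 4 * (deriv E1 (c * y) * c * ‖u1 (b (x + y * Complex.I))‖ +
              e / 2 * (deriv T (c * y) * c) * ‖u2 (b (x + y * Complex.I))‖ +
              e / 2 * (deriv S (c * y) * c) * ‖2 - u2 (b (x + y * Complex.I))‖)
          rw [sub_zero, sub_zero, sub_zero, abs_of_nonneg (mul_nonneg he2 a3),
            abs_of_nonneg (mul_nonneg he2 a4)]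
          exact steep_num ht hc he a3 a4 a1 a2 (abs_nonneg _) (pf.dE _ h1).2.1 s (norm_nonneg _)
            ⟨by linarith [m2.1], by linarith [m2.2]⟩ ⟨by linarith [m3.1], by linarith [m3.2]⟩
        · refine Or.inr ?_
          show |E1 (c * y) - 0| * ‖u1 (b (x + y * Complex.I))‖ +
            |e / 2 * T (c * y) - e / 2| * ‖u2 (b (x + y * Complex.I))‖ +
            |e / 2 * S (c * y) - e / 2| * ‖2 - u2 (b (x + y * Complex.I))‖ ≤
            t / c / 4 * (deriv E1 (c * y) * c * ‖u1 (b (x + y * Complex.I))‖ +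
              e / 2 * (deriv T (c * y) * c) * ‖u2 (b (x + y * Complex.I))‖ +
              e / 2 * (deriv S (c * y) * c) * ‖2 - u2 (b (x + y * Complex.I))‖)
          have q : ∀ v : ℝ, |e / 2 * v - e / 2| = e / 2 * |v - 1| := fun v => by
            rw [show e / 2 * v - e / 2 = e / 2 * (v - 1) by ring, abs_mul, abs_of_nonneg he2]
          rw [sub_zero, q, q]
          exact steep_num ht hc he (abs_nonneg _) (abs_nonneg _) a1 a2 (abs_nonneg _)
            (pf.dE _ h1).2.1 s (norm_nonneg _)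
            ⟨by linarith [m2.1], by linarith [m2.2]⟩ ⟨by linarith [m3.1], by linarith [m3.2]⟩
    · have h1 := hI y hy
      obtain ⟨_, a3, a5⟩ := pf.dT.2 (c * y)
      obtain ⟨_, a4, _⟩ := pf.dS.2 (c * y)
      have he2 : 0 ≤ e / 2 := by positivity
      have pos : 0 ≤ E1 (c * y) → SH.Coh fun i => (![fun y => E1 (c * y),
          fun y => e / 2 * T (c * y), fun y => e / 2 * S (c * y)] : Fin 3 → ℝ → ℝ) i y :=
        fun h0 => Or.inl fun i => by
          fin_cases i
          · exact h0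
          · exact mul_nonneg he2 a3
          · exact mul_nonneg he2 a4
      constructor
      · rcases le_or_gt 0 (c * y) with h0 | h0
        · exact pos (Ep _ h1 h0)
        · rcases pf.neg _ ⟨h1.1, h0.le⟩ with h2 | h2
          · exact pos h2.ge
          · refine Or.inr fun i => ?_
            fin_cases i
            · exact En _ h1 (by linarith)
            · show e / 2 * T (c * y) ≤ 0
              rw [h2, mul_zero]
            · show e / 2 * S (c * y) ≤ 0
              rw [pf.S0 _ (by linarith), mul_zero]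
      · rcases le_total (c * y) y2 with h0 | h0
        · have s1 : S (c * y) ≤ 1 := by
            rcases h0.eq_or_lt with h | h
            · rw [h, pf.S1.1]
            · exact (pf.S1.2.1 _ h).le
          refine Or.inr fun i => ?_
          fin_cases i
          · show E1 (c * y) - 0 ≤ 0
            rw [sub_zero]
            exact En _ h1 h0
          · show e / 2 * T (c * y) - e / 2 ≤ 0
            linarith [mul_le_mul_of_nonneg_left a5 he2]
          · show e / 2 * S (c * y) - e / 2 ≤ 0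
            linarith [mul_le_mul_of_nonneg_left s1 he2]
        · have s1 : 1 ≤ S (c * y) := by
            rcases h0.eq_or_lt with h | h
            · rw [← h, pf.S1.1]
            · exact (pf.S1.2.2 _ h).le
          refine Or.inl fun i => ?_
          fin_cases i
          · show 0 ≤ E1 (c * y) - 0
            rw [sub_zero]
            exact Ep _ h1 (by linarith)
          · show 0 ≤ e / 2 * T (c * y) - e / 2
            rw [pf.T1 _ (by linarith), mul_one, sub_self]
          · show 0 ≤ e / 2 * S (c * y) - e / 2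
            linarith [mul_le_mul_of_nonneg_left s1 he2]
    · have h1 := hI y hy
      obtain ⟨_, a3, a5⟩ := pf.dT.2 (c * y)
      obtain ⟨_, a4, a6⟩ := pf.dS.2 (c * y)
      have he2 : 0 ≤ e / 2 := by positivity
      unfold SH.wsum
      rw [Fin.sum_univ_three]
      show ‖((E1 (c * y) : ℝ) : ℂ) * u1 (b (x + y * Complex.I)) +
        ((e / 2 * T (c * y) : ℝ) : ℂ) * u2 (b (x + y * Complex.I)) +
        ((e / 2 * S (c * y) : ℝ) : ℂ) * (2 - u2 (b (x + y * Complex.I)))‖ ≤ r
      rcases hu' y hy with h | h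
      · obtain ⟨z0, z1, z2⟩ := h.self_of_nhds
        rw [z0, z1, z2]
        simp only [mul_zero, Complex.ofReal_zero, zero_mul, add_zero, norm_zero]
        linarith
      · obtain ⟨n1, n2, n3⟩ := h x hx
        have m1 := (n1_norm n1).2
        have m2 := (n1_norm n2).2
        have m3 := (n1_norm n3).2
        refine norm_add₃_le.trans ?_
        simp only [norm_mul, Complex.norm_real, Real.norm_eq_abs]
        have c1 : |E1 (c * y)| * ‖u1 (b (x + y * Complex.I))‖ ≤ r / 4 * (11 / 10) :=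
          mul_le_mul (hE _ h1) (by linarith) (norm_nonneg _) (by linarith)
        have c2 : |e / 2| * |T (c * y)| * ‖u2 (b (x + y * Complex.I))‖ ≤ e / 2 * 1 * (11 / 10) := by
          rw [abs_of_nonneg he2, abs_of_nonneg a3]
          exact mul_le_mul (mul_le_mul_of_nonneg_left a5 he2) (by linarith) (norm_nonneg _)
            (by linarith)
        have c3 : |e / 2| * |S (c * y)| * ‖2 - u2 (b (x + y * Complex.I))‖ ≤
            e / 2 * 2 * (11 / 10) := by
          rw [abs_of_nonneg he2, abs_of_nonneg a4]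
          exact mul_le_mul (mul_le_mul_of_nonneg_left a6 he2) (by linarith) (norm_nonneg _)
            (by linarith)
        linarith
    · obtain ⟨b1, b2, b3⟩ := hb x hx y hy
      exact SH.AWG.th_mono (by linarith) le_rfl
        (SH.AWG.th_bc b1 b2 (by norm_num) o0.le (SH.AWG.th_mono hom le_rfl b3))
  obtain ⟨Ψy, hΨ⟩ := H (Fin 3) J _ _ _ _ _ e (t / c) r hι' hι1 W
  refine ⟨Ψy, fun e' lev hR => ?_⟩
  have e1 : (fun x y : ℝ => Θ (b (x + y * Complex.I),
      wv E1 T S u1 u2 e (c * y) (b (x + y * Complex.I)))) =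
      SH.wth ![fun y => E1 (c * y), fun y => e / 2 * T (c * y), fun y => e / 2 * S (c * y)]
        ![fun z => u1 (b z), fun z => u2 (b z), fun z => 2 - u2 (b z)]
        (fun y => Θ (b y.1, y.2)) := by
    funext x y
    unfold SH.wth SH.wsum wv
    rw [Fin.sum_univ_three]
    rfl
  rw [e1]
  exact hΨ e' lev hR

end Pool.Agent.S6
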