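import Pool.Agent.Lib.S6.StageA
import Pool.Agent.Lib.S6.Blue4
import Pool.Agent.Lib.S6.B_MAIN
import Pool.Agent.Lib.S6.B_SECA2
import Pool.Agent.Lib.S6.B_SECD
import Pool.Agent.Lib.S6.B_WINS

/-!
The stage.
-/

open Set Filter Topology Metric
open scoped ContDiff

noncomputable section

namespace Pool.Agent.S6

open Pool.Agent.CF (End Kind IsCurve Geo Half Priv Cv)
open Pool.Agent.Lib Pool.Agent.Lib.MP_9ccfb7_an

namespace STG

/-- graphs in the new curve -/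
theorem ng {C K : Cv} {Nd Z : Finset E} {TC TK : ℤ} {D : ℕ} (hA : CF.Alg C K Nd TC TK D)
    {a a0 : ℂ} {ρ : ℝ} (ha : a ∈ ball a0 ρ) (hZ : CF.SimpleZ C.P (fun y => y.1 - a) C.Γ C.e Z)
    (hN : ∀ y ∈ Nd, y.1 ≠ a) {G q : E → ℂ} (cG : Continuous G) (cq : Continuous q)
    (h1 : ∀ y ∈ Nd, q y ≠ 0) (h2 : ∀ y ∈ Z, G y ≠ 0) (h3 : ∀ y : E, y.1 = a → q y = 0) :
    ∃ η > (0 : ℝ), ∀ (Γ : Set E) (e : ℝ), 0 < e → (∀ y ∈ Γ, SH.pA C.P K.P G q e y = 0) →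
      Γ ⊆ thickening η (C.Γ ∪ K.Γ) → (∀ y ∈ Z, y ∈ Γ) → NoGr (C.Γ \ Γ) a0 ρ ∧
      (NoGr (K.Γ \ C.Γ) a0 ρ → NoGr (Γ \ C.Γ) a0 ρ) ∧
      (NoGr (C.Γ \ K.Γ) a0 ρ → NoGr (K.Γ \ C.Γ) a0 ρ → NoGr Γ a0 ρ) := by
  have pr := MAIN.pair hA
  have oU : IsOpen {y | q y ≠ 0} := isOpen_ne_fun cq continuous_const
  have sU : C.Γ ∩ K.Γ ⊆ {y | q y ≠ 0} := fun y a =>
    h1 y (hA.nodal.left y a.1 (hA.hK.curve.zero y a.2))
  have sV : ∀ y ∈ C.Γ, y.1 = a →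
      y ∈ interior {x | G x ≠ 0 ∧ K.P x ≠ 0 ∧ (C.P x = 0 → x ∈ C.Γ)} := fun y hy e => by
    have z := hZ.1 y hy (sub_eq_zero.2 e)
    exact mem_interior_iff_mem_nhds.2 ((cG.continuousAt.eventually_ne (h2 y z)).and
      ((hA.hK.curve.poly.continuous.continuousAt.eventually_ne fun k =>
        hN y (hA.nodal.left y hy k) e).and (hA.hC.curve.int y hy fun ⟨j, _, k⟩ =>
        (hZ.2 y z).2.2.2.2 j k.1)))
  obtain ⟨η1, a1, b1⟩ : ∃ η > 0, NoGr (C.Γ \ K.Γ) a0 ρ → NoGr (K.Γ \ C.Γ) a0 ρ →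
      NoGr (thickening η (C.Γ ∪ K.Γ) \ ({y | q y ≠ 0} ∩ {y | C.P y * K.P y = 0})) a0 ρ := by
    by_cases k : NoGr (C.Γ \ K.Γ) a0 ρ ∧ NoGr (K.Γ \ C.Γ) a0 ρ
    · exact (ng1 pr oU sU k.1 k.2).imp fun _ b => ⟨b.1, fun _ _ => b.2⟩
    · exact ⟨1, one_pos, fun c d => absurd ⟨c, d⟩ k⟩
  obtain ⟨η2, a2, b2⟩ : ∃ η > 0, NoGr (K.Γ \ C.Γ) a0 ρ →
      NoGr ((thickening η (C.Γ ∪ K.Γ) \ ({y | q y ≠ 0} ∩ {y | C.P y * K.P y = 0})) \
        (interior {x | G x ≠ 0 ∧ K.P x ≠ 0 ∧ (C.P x = 0 → x ∈ C.Γ)} ∩ {y | y.1 = a})) a0 ρ := by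
    by_cases k : NoGr (K.Γ \ C.Γ) a0 ρ
    · exact (ng2 pr oU sU k ha isOpen_interior sV).imp fun _ b => ⟨b.1, fun _ => b.2⟩
    · exact ⟨1, one_pos, fun c => absurd c k⟩
  refine ⟨min η1 η2, lt_min a1 a2, fun Γ e e0 z th sZ => ?_⟩
  have k1 : ∀ y ∈ Γ, y ∉ {y | q y ≠ 0} ∩ {y | C.P y * K.P y = 0} := fun y hy c => by
    have := z y hy
    rw [SH.pA, CF.pen, mul_assoc, mul_comm (K.P y), show C.P y * K.P y = 0 from c.2] at this
    exact mul_ne_zero (Complex.ofReal_ne_zero.2 e0.ne') c.1 (by simpa using this)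
  refine ⟨ng0 ha fun y hy c => sZ y (hZ.1 y hy (sub_eq_zero.2 c)), fun c => (b2 c).mono fun y hy =>
    ⟨⟨thickening_mono (min_le_right _ _) _ (th hy.1), k1 y hy.1⟩, fun d => ?_⟩, fun c d =>
    (b1 c d).mono fun y hy => ⟨thickening_mono (min_le_left _ _) _ (th hy), k1 y hy⟩⟩
  have := z y hy.1
  obtain ⟨g1, g2, g3⟩ := interior_subset d.1
  rw [SH.pA, CF.pen, h3 y d.2, mul_zero, sub_zero] at this
  exact hy.2 (g3 ((mul_eq_zero.1 this).resolve_left (mul_ne_zero g1 g2)))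

theorem card_fin {n : ℤ} (h : 0 ≤ n) : ((Fintype.card (Fin n.toNat) : ℕ) : ℤ) = n := by
  rw [Fintype.card_fin, Int.toNat_of_nonneg h]

theorem card_real {n : ℤ} (h : 0 ≤ n) : ((Fintype.card (Fin n.toNat) : ℕ) : ℝ) = n := by
  rw [← Int.cast_natCast, card_fin h]

/-- readiness for the new polynomial `A = G K C - e q` from readiness for `q` -/
theorem Rdy.shift {J : Type} {L : ℝ} {Cw : ℝ → ℝ} {W : Cv} {pr : W.ι → ℝ} {K G q : E → ℂ}
    {Nd : Finset E} {sp : Sp J} {fd : FD J W.ι} {Sig : Finset ℂ} {a e : ℝ} {xs : Set ℝ}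
    (h : Rdy L Cw W pr q Nd sp fd Sig a xs) (he : 0 < e) (hq : ∀ y ∈ W.Γ, q y = 0 → y ∈ Nd) :
    Rdy L Cw W pr (SH.pA W.P K G q e) Nd sp fd Sig a xs := by
  have r1 : sp.r2 ≤ sp.r1 := by linarith [h.geom.r2.1, h.geom.r2.2]
  refine ⟨h.geom, h.sig, h.om, h.all, h.fit, fun x hx =>
    (h.part x hx).congr (b := x * Real.log e) h.geom.geo.hpos r1 fun j z hz => ?_⟩
  have c := col_core h.geom.curve h.geom.geo r1 j hz
  have n : q (z, (sp.l j).w z) ≠ 0 := fun k =>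
    SH.core_ne_sig h.geom.r2.1 c (h.sig _ (hq _ c.1 k))
  rw [End.res, End.res, SH.pA, CF.pen, h.geom.curve.zero _ c.1, mul_zero, zero_sub, norm_neg,
    norm_mul, Complex.norm_real, Real.norm_of_nonneg he.le,
    Real.log_mul he.ne' (norm_ne_zero_iff.2 n)]
  ring

end STG

open STG in
theorem st_stage4 (hX : St_CTX) (hB : St_BIRTH) (hR : St_RESET) (hN : St_NEWGEO) (hP : St_PATH) :
    St_STAGE4 := by
  classical
  intro ab hab hS I _ fx ok s k ε hε a0 ρ hρ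
  obtain ⟨σ, good, ⟨J, _, sp, fd, Sig, rC, c1, ⟨x0, r0, f1, f2, f3, f4⟩, c3, c4, c5⟩,
    J', _, sp', fd', Sig', rK, d1, d2, d3, d4, d5, d6⟩ := s
  have hL : 10 ≤ ab.L := le_trans (by norm_num) hab.num.1
  have hC := hab.num.2.2.2.2.2.2.2.2
  have alg := good.pre.alg
  obtain ⟨n1, n2, n3⟩ := alg.num
  have R0 := HP.R_pos alg.hC
  have e5 : 0 < ε / 6 := by positivity
  have half : (0 : ℝ) < 1 / 2 ∧ (1 / 2 : ℝ) ≤ 1 := by norm_num
  -- the value `a`, the secant, the positions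
  obtain ⟨a, a1, -, a2, -, a3, -, -, Z, z1, z2⟩ := CF.all_gena _ _ _ _ _ _ (ball a0 ρ) Empty
    Empty.elim Empty.elim alg isOpen_ball (nonempty_ball.2 hρ)
  have m0 : 0 ≤ σ.TC - Z.card := by omega
  have m1 : 0 ≤ 4 * (2 * σ.TC + σ.TK) + 2 * (2 * σ.TC - σ.Nd.card) + 2 := by omega
  have m2 : 0 ≤ 4 * σ.TC + 2 * σ.TK + 2 := by omega
  have r3 : (2 : ℝ) * Z.card + 1 ≤ σ.Nd.card := by exact_mod_cast (by omega)
  have r4 : (2 : ℝ) * σ.Nd.card ≤ σ.TC := by exact_mod_cast n2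
  have r5 : (0 : ℝ) ≤ σ.TK := by exact_mod_cast n3
  have r6 : (0 : ℝ) ≤ Z.card := Nat.cast_nonneg _
  set π := Fin (σ.TC - Z.card).toNat
  set π' := Fin (4 * (2 * σ.TC + σ.TK) + 2 * (2 * σ.TC - σ.Nd.card) + 2).toNat
  set π'' := Fin (4 * σ.TC + 2 * σ.TK + 2).toNat
  have k0 : (Fintype.card π : ℝ) = σ.TC - Z.card := (card_real m0).trans (by push_cast; rfl)
  have k1 : (Fintype.card π' : ℝ) = 4 * (2 * σ.TC + σ.TK) + 2 * (2 * σ.TC - σ.Nd.card) + 2 :=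
    (card_real m1).trans (by push_cast; rfl)
  have k2 : (Fintype.card π'' : ℝ) = 4 * σ.TC + 2 * σ.TK + 2 :=
    (card_real m2).trans (by push_cast; rfl)
  obtain ⟨q, G, sec, gK⟩ := st_seca2 _ _ _ _ _ _ a Z (Fintype.card π)
    (⋃ j, (sp'.l j).near sp'.h sp'.r1) alg z1 (by rw [card_fin m0]; ring) a2 a3
    (isClosed_iUnion_of_finite fun j => (End.isCompact_near (rK.geom.curve.ok j) _ _).isClosed)
    fun c => by
      obtain ⟨j, c⟩ := mem_iUnion.1 c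
      exact (d6 j _ c).2.1 σ.C.c alg.hC.norm_c.1 (by norm_num) rfl
  obtain ⟨y, hy⟩ := plc f1 f2 (by linarith [norm_nonneg (x0 - σ.C.c)]) (π ⊕ π')
  obtain ⟨r9, p9⟩ := hy.exists
  have px := (p9.comp Sum.inl_injective).posn f3
  have py : Pos σ.C (Sum.elim (fun i => y (Sum.inl i)) fun i => y (Sum.inr i)) := by
    have := p9.posn f3
    rwa [← Sum.elim_comp_inl_inr y] at this
  set x : π → ℂ := fun i => y (Sum.inl i)
  set x' : π' → ℂ := fun i => y (Sum.inr i)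
  set β : ℝ := 1 / (2 * (Fintype.card π + 1)) with hβ
  have b0 : 0 < β ∧ β ≤ 1 := ⟨by positivity, by
    rw [hβ, div_le_one (by positivity)]; linarith⟩
  have b1 : (σ.TC : ℝ) - σ.Nd.card / 2 + 1 / 4 ≤ Fintype.card π * (1 - β / 2) := by
    have : Fintype.card π * β ≤ 1 / 2 := by
      rw [hβ, mul_one_div, div_le_iff₀ (by positivity)]; linarith
    linarith
  -- the second geometry
  obtain ⟨h0, u1, Λx, u2, CD, u3, sd⟩ := st_secd ab.L _ _ _ _ _ _ a Z q G π x hab.num.1 alg sec px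
  obtain ⟨spb, fdb, Sigb, g1, g2, g3, g4, g5, g6, g7, g8, g9, rb⟩ := hN ab.L ab.Cw σ.C σ.K.P σ.Nd
    σ.TC 2 {1} (σ.TC - σ.Nd.card / 2 + 1 / 4) CD Λx h0 (Fintype.card π) alg.hC.curve alg.hC.off.1
    alg.hC.out alg.hK.curve.poly (alg.nodal.simpleZ alg.hC.curve alg.hK.curve alg.off).1
    alg.hC.lam alg.hC.tot one_le_two le_rfl (by simp; linarith) u3 u2 u1
  rw [Finset.coe_singleton] at rb
  have p2 : 0 < spb.r2 := (rb (fun _ => spb.r2 - 1) fun _ _ => by linarith).geom.r2.1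
  replace rb := rb (shr σ.C σ.WC.pr spb.r2) (shr_lt p2)
  have lb : spb.l = σ.C.e := funext fun j => (rb.fit.eq j).1.trans (by rw [g4]; rfl)
  obtain ⟨r, ⟨p1, p3⟩, p4⟩ := ((hy.and (INIT.ev_le rC.geom.geo.hpos)).and
    (INIT.ev_le rb.geom.geo.hpos)).exists
  obtain ⟨τ, T0, t1, t2, t3, t4⟩ := hX ab hab I J J' fx σ sp fd Sig sp' fd' Sig' _ ok good.pre rC
    rK (Or.inl rfl) d3
  -- the depth of the windows
  obtain ⟨δ, ⟨⟨⟨F1, Ef1, hz1, Sd1, gd1, cl1⟩, v1, v2, v3, -, v4, -⟩, ⟨l, targ⟩, rb', spl⟩,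
      ⟨w1, w2, w3, w4, w5, w6, w7, w8⟩, δ0⟩ :=
    ((((bs hB hR hab ok ⟨good, rC.fit, t1, t2, t3, fun k _ => disjoint_left.2 fun y a b =>
      t4 y b (PATH.cg_subset good.pre k a)⟩ c1 c3 (c4.trans b1) (by
        have : (Fintype.card π : ℤ) = _ := card_fin m0
        omega) (fun j _ => rC.all j) (p1.comp Sum.inl_injective) p3 b0 f3 f4 p2 k e5).and
      (newRdy hL hC alg.hC.out R0 rb g8 g3 g4 g6.ge (p1.comp Sum.inl_injective) p4 b0 f1 f3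
        Λx)).and ((sd spb fdb (fun _ => r) (fun _ => β) rb.geom.geo.hpos g1 rb.geom.geo.r1pos g2 lb
        g3 g4 g7 g8 (by
          have := (rb.fit.ring σ.C.H (lb ▸ HP.hub_loop alg.hC)).1
          rwa [lb] at this)).and
      (hS I J' fx σ.C σ.K σ.Nd σ.TC σ.TK σ.D a Z q G π π' x x' σ.WK.pr sp' fd' Sig' ok alg sec z2 py
        (by rw [k1]; linarith) rK d1 d3 d6 fun j z hz => gK _
          (rK.geom.geo.wz j z (near_two rK.geom.geo j hz)).1 (mem_iUnion.2 ⟨j, hz⟩)))).and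
      ((st_wins _ _ _ _ _ _ a Z q G π x alg sec px).and self_mem_nhdsWithin)).exists
  obtain ⟨rb0, spl⟩ := spl
  have bp := (HP.bpr_le (A := σ.C) R0 δ0 hL).1
  have pp : ∀ j, (σ.C.e j).k = Kind.pt → 0 < shr σ.C σ.WC.pr spb.r2 j := fun j hj =>
    shr_pos p2 j (good.pre.wall.C.port j hj).1
  -- the path to the secant directions
  obtain ⟨F3, Ef3, hz3, gd3, cl3⟩ := hP ab hab I _ J' fx
    (bsC σ π x ab.L δ (shr σ.C σ.WC.pr spb.r2) F1 Ef1 hz1 Sd1) spb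
    (fdb.born σ.C π x δ (fun _ => r) fun _ => β) Sigb sp' fd' Sig' _ (winS σ.C σ.K π a q G x δ).lam Λx l
    (Sum.elim (shr σ.C (shr σ.C σ.WC.pr spb.r2) rb') fun _ => bpr σ.C ab.L δ) ok gd1 v1 v2 (v3 g9)
    (g5.le.trans (b1.trans v4.ge)) rK (Or.inl rfl) d3 targ (by
      rintro (j | i) hj
      · exact ⟨shr_pos rb0 j (pp j hj), shr_le _ j, fun c =>
          absurd (Finset.inl_mem_disjSum.1 c) (g3 ▸ Finset.notMem_empty j)⟩
      · exact ⟨bp, le_rfl, fun _ => rfl⟩) k _ e5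
  set W := winS σ.C σ.K π a q G x δ with hW
  -- the geometry of the old curve in its new role
  obtain ⟨h1, u4, clr⟩ := st_clear.1 σ.K W _ _ (qS σ.C a q x δ) w1.hK w1.hC w3.continuous
    fun j z hz c => (w4.2 _ (w4.1 _ (w1.hC.curve.mem_of_circ j hz) c)).2.2.2.2 j hz
  have s1 : ((ndS σ.C Z x δ).card : ℝ) = σ.TC := by exact_mod_cast w5
  have s2 : (0 : ℝ) < σ.TC := by linarith
  obtain ⟨spc, fdc, Sigc, i1, i2, i3, i4, i5, i6, -, i8, -, rc⟩ := hN ab.L ab.Cw W (qS σ.C a q x δ)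
    (ndS σ.C Z x δ) (2 * σ.TC - σ.Nd.card) 1 {2, xB (2 * σ.TC + σ.TK) (ndS σ.C Z x δ).card}
    (2 * (2 * σ.TC + σ.TK) + (2 * σ.TC - σ.Nd.card) + 3 / 2) 1 0 h1
    (Fintype.card π' + Fintype.card π') w1.hC.curve w1.hC.off.1 w1.hC.out w3 w4 w1.hC.lam w8
    le_rfl one_le_two (by
      intro t ht
      rcases Finset.mem_insert.1 ht with rfl | ht
      · push_cast; linarith
      · rw [Finset.mem_singleton.1 ht, xB, s1, add_mul, div_mul_cancel₀ _ s2.ne']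
        push_cast; linarith) le_rfl le_rfl u4
  rw [Finset.coe_pair] at rc
  have p5 : 0 < spc.r2 := (rc (fun _ => spc.r2 - 1) fun _ _ => by linarith).geom.r2.1
  set pr3 : σ.C.ι ⊕ π → ℝ :=
    Sum.elim (shr σ.C (shr σ.C σ.WC.pr spb.r2) rb') fun _ => bpr σ.C ab.L δ with hpr
  replace rc := rc (shr W pr3 spc.r2) (shr_lt p5)
  obtain ⟨r', p6, p7⟩ := (hy.and (INIT.ev_le rc.geom.geo.hpos)).exists
  obtain ⟨η, η0, ngr⟩ := ng alg a1 z1 a3 w2.continuous w3.continuous w6 w7 fun y e => by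
    simp [qS, CF.qWin, e]
  -- the split
  obtain ⟨δ', ⟨A, e, F4, WA, Ef4, hz4, Sd4, sp5, fd5, τ5, T5, e0, eA, th, cl4, ctx, o5, fr5, j1, j2,
      j3, j4, j5, j6, j7⟩, y1, y2, -, y3, y4, y5⟩ :=
    ((spl F3 ⟨Sum.elim σ.WC.cp fun _ => σ.WC.cp σ.C.H, Ef3, pr3⟩ σ.WK hz3 Sd1 gd3 rfl
      (fun j hj => shr_lt rb0 j hj) (fun _ => rfl) (shr W pr3 spc.r2)
      (fun j hj => ⟨shr_pos p5 j (gd3.pre.wall.C.port j hj).1, shr_le _ j⟩) k _
      (lt_min e5 η0)).and (newRdy hL hC w1.hC.out (HP.R_pos w1.hC) rc i8 i3 i4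
        (i6.ge.trans' (Nat.le_add_left _ _)) (p6.comp Sum.inr_injective) p7 half f1 f3 0)).exists
  have alg' := ctx.good.pre.alg
  obtain ⟨x5, r5', q1, q2, q3, q4⟩ := fr5 d2
  obtain ⟨x'', hx''⟩ := plc q1 q2 (by linarith [norm_nonneg (x5 - A.c)]) π''
  -- the geometry of the new curve
  obtain ⟨spa, fda, Siga, -, -, l3, l4, l5, l6, -, l8, -, ra⟩ := hN ab.L ab.Cw A σ.C.P
    (ndS σ.C Z x δ) (2 * σ.TC + σ.TK) 2 {1}
    ((2 * σ.TC + σ.TK : ℤ) - (ndS σ.C Z x δ).card / 2 + 1 / 4) 1 0 1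
    (Fintype.card π'' + (2 * σ.TC + σ.TK).toNat) alg'.hC.curve alg'.hC.off.1
    alg'.hC.out alg.hC.curve.poly (alg'.nodal.simpleZ alg'.hC.curve alg'.hK.curve alg'.off).1
    alg'.hC.lam alg'.hC.tot one_le_two le_rfl (by simp; linarith) le_rfl le_rfl one_pos
  rw [Finset.coe_singleton] at ra
  have p8 : 0 < spa.r2 := (ra (fun _ => spa.r2 - 1) fun _ _ => by linarith).geom.r2.1
  replace ra := ra (shr A WA.pr spa.r2) (shr_lt p8)
  obtain ⟨r'', ⟨o1, o2⟩, o3⟩ := ((hx''.and (INIT.ev_le ctx.fit.kit.1)).and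
    (INIT.ev_le ra.geom.geo.hpos)).exists
  have cA : A.c = σ.K.c := by
    have e1 : σ.C.c = -A.c := alg'.hC.cen.2
    rw [alg.hC.cen.2, e1, neg_neg]
  have clA : Clear A spc := fun j z hz => by
    have e1 : spc.l j = W.e j := (rc.fit.eq j).1.trans (by rw [i4]; rfl)
    have e2 : σ.C.P (z, (spc.l j).w z) = 0 := (rc.geom.geo.wz j z (near_two rc.geom.geo j hz)).1
    rw [e1] at hz e2 ⊢
    obtain ⟨e3, e4, e6⟩ := clr j z (End.near_mono _ i1 i2 hz)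
    refine ⟨?_, by rwa [cA, j6], fun i hi => ?_⟩
    · rw [eA, SH.pA, CF.pen, e2, mul_zero, zero_sub]
      exact neg_ne_zero.2 (mul_ne_zero (Complex.ofReal_ne_zero.2 e0.ne') e3)
    · obtain ⟨i', e7, e8⟩ := j7 i hi
      exact e8 ▸ e6 i' e7
  -- birth of the windows of the new curve
  obtain ⟨δ'', ⟨⟨F6, Ef6, hz6, Sd6, gd6, cl6⟩, aa1, aa2, -, aa3, aa4, aa5⟩, aa6⟩ :=
    (((bs hB hR hab ok ctx o5 (j1.le.trans (d3.trans j2.ge)) (π := π'') (j1.le.trans (d4.trans (by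
      rw [k2]; linarith))) (by
        have : (Fintype.card π'' : ℤ) = _ := card_fin m2
        have e1 : fd5.U.card = fd'.U.card := j3
        have e2 : fd5.n = fd'.n := j4
        show fd5.U.card + _ ≤ fd5.n
        omega) j5 o1 o2 half q3 q4 p8 k e5).and
      (newRdy hL hC alg'.hC.out (HP.R_pos alg'.hC) ra l8 l3 l4 (l6.ge.trans' (Nat.le_add_right _ _))
        o1 o3 half q1 q3 0)).and
      (st_clear.2 _ A spc π'' x'' (o1.posn q3) rc.geom.curve.ok clA)).exists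
  obtain ⟨ng1, ng2, ng3⟩ := ngr A.Γ e e0 (eA ▸ alg'.hC.curve.zero)
    (th.trans (thickening_mono (min_le_right _ _) _))
    fun y hy => (alg'.nodal.node y (Finset.mem_union_left _ hy)).1
  refine ⟨⟨_, gd6, ⟨_, inferInstance, spa, _, Siga, aa1, aa2, aa3, l5.le.trans (le_of_le_of_eq ?_
    aa4.symm), l5.le, ?_⟩, _, inferInstance, spc, _, Sigc, ?_, y2, y3,
    i5.le.trans (le_of_le_of_eq ?_ y4.symm), i5.le.trans_eq ?_, ?_, aa6⟩, ?_, ng1, ng2, ng3, id⟩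
  · rw [k2, s1]; push_cast; linarith
  · refine (congrArg (fun n : ℕ => (n : ℤ) + (2 * σ.TC + σ.TK)) aa5).trans_le ?_
    show _ ≤ (fda.n : ℤ)
    rw [l6]; push_cast; omega
  · have := Rdy.shift (K := σ.K.P) (G := gS σ.C G x δ) y1 e0 w4.1
    exact (show A.P = _ from eA) ▸ this
  · rw [k1]; linarith
  · show _ = 2 * ((2 * σ.TC + σ.TK : ℤ) : ℝ) + ((2 * σ.TC - σ.Nd.card : ℤ) : ℝ) + 3 / 2
    push_cast; ring
  · refine (congrArg (fun n : ℕ => (n : ℤ) +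
      (4 * (2 * σ.TC + σ.TK) + 2 * (2 * σ.TC - σ.Nd.card) + 2)) y5).trans_le ?_
    show _ ≤ (fdc.n : ℤ)
    have : (Fintype.card π' : ℤ) = _ := card_fin m1
    rw [i6]; push_cast; omega
  · have s0 := good.pre.wall.smooth
    have s1 := gd1.pre.wall.smooth
    have s3 := gd3.pre.wall.smooth
    have s4 := ctx.good.pre.wall.smooth
    exact (((cl1.trans cl3 s0 s1 s3).trans cl4 s0 s3 s4).trans cl6 s0 s4
      gd6.pre.wall.smooth).mono le_rfl (by linarith [min_le_left (ε / 6) η])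

end Pool.Agent.S6
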