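import Pool.Agent.Lib.S6.Site3
import Pool.Agent.Lib.SH.B_TH
import Pool.Agent.Lib.SH.B_AWG
import Pool.Agent.Lib.CF.B_UIFT

open Set Filter Topology Metric

noncomputable section

namespace Pool.Agent.S6

open Pool.Agent.CF (IsPoly dw)
open Pool.Agent.Lib

namespace STR

theorem tube {Z : Set ℂ} (hZ : IsCompact Z) {P : ℂ × ℂ → Prop}
    (h : ∀ᶠ p in 𝓝ˢ (Z ×ˢ ({0} : Set ℂ)), P p) : ∀ᶠ e : ℝ in 𝓝[>] 0, ∀ z ∈ Z, P (z, e) := by
  refine Eventually.filter_mono nhdsWithin_le_nhds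
    (hZ.eventually_forall_of_forall_eventually fun z hz => ?_)
  have c : ContinuousAt (fun p : ℝ × ℂ => ((p.2, (p.1 : ℂ)) : ℂ × ℂ)) (0, z) := by fun_prop
  exact c.eventually (by simpa using eventually_nhdsSet_iff_forall.1 h (z, 0) ⟨hz, rfl⟩)

theorem dw3 {g K C : E → ℂ} (hg : IsPoly g) (hK : IsPoly K) (hC : IsPoly C) {y : E}
    (h : C y = 0) : dw (fun y => g y * K y * C y) y = g y * K y * dw C y := by
  rw [CF.dw_mul ((hg.mul hK).differentiableAt y) (hC.differentiableAt y), h, mul_zero, zero_add]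

theorem dw_div {F q : E → ℂ} (hF : IsPoly F) (hq : IsPoly q) {y : E} (h : F y = 0)
    (h' : q y ≠ 0) : dw (fun y => F y / q y) y = dw F y / q y := by
  have a := CF.dw_mul (hF.differentiableAt y) ((hq.analyticAt y).inv h').differentiableAt
  rw [h, zero_mul, add_zero] at a
  simp only [div_eq_mul_inv]
  exact a

theorem small {Z : Set ℂ} {d : ℂ × ℂ → ℂ} (hd : AnalyticOnNhd ℂ d (Z ×ˢ ({0} : Set ℂ))) {R : ℝ}
    (hR : 0 < R) : ∀ᶠ p in 𝓝ˢ (Z ×ˢ ({0} : Set ℂ)), ‖p.2 * d p‖ < R :=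
  eventually_nhdsSet_iff_forall.2 fun p hp =>
    (continuousAt_snd.mul (hd p hp).continuousAt).norm.eventually
      (gt_mem_nhds (by simpa [show p.2 = 0 from hp.2] using hR))

theorem nz {Z : Set ℂ} {d : ℂ × ℂ → ℂ} (hd : AnalyticOnNhd ℂ d (Z ×ˢ ({0} : Set ℂ)))
    {w : ℂ → ℂ} (hw : AnalyticOnNhd ℂ w Z) {q : E → ℂ} (hq : IsPoly q)
    (h : ∀ z ∈ Z, q (z, w z) ≠ 0) :
    ∀ᶠ p in 𝓝ˢ (Z ×ˢ ({0} : Set ℂ)), q (p.1, w p.1 + p.2 * d p) ≠ 0 :=
  eventually_nhdsSet_iff_forall.2 fun p hp => by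
    have c : ContinuousAt (fun p : ℂ × ℂ => q (p.1, w p.1 + p.2 * d p)) p :=
      hq.continuous.continuousAt.comp (continuousAt_fst.prodMk
        (((hw _ hp.1).continuousAt.comp continuousAt_fst).add
          (continuousAt_snd.mul (hd p hp).continuousAt)))
    refine c.eventually_ne ?_
    rw [show p.2 = 0 from hp.2, zero_mul, add_zero]
    exact h _ hp.1

theorem nz0 {Z : Set ℂ} {w : ℂ → ℂ} (hw : AnalyticOnNhd ℂ w Z) {q : E → ℂ} (hq : IsPoly q)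
    (h : ∀ z ∈ Z, q (z, w z) ≠ 0) : ∀ᶠ z in 𝓝ˢ Z, q (z, w z) ≠ 0 :=
  eventually_nhdsSet_iff_forall.2 fun z hz =>
    (hq.continuous.continuousAt.comp (f := fun z => (z, w z))
      (continuousAt_id.prodMk (hw z hz).continuousAt)).eventually_ne (h z hz)

end STR

open STR in
theorem st_str (hF : St_FAM) : St_STR := by
  rintro C K G q g q' w Zc Zb Zs ⟨⟨pC, pK, pG, pq0, pg0, pq'⟩, ⟨cc, cb, cs, sb, bc⟩, ⟨wa, wz⟩, ne,
    ⟨pg, pq, eg, eq', ng, nq⟩⟩
  have pF : IsPoly fun y => g y * K y * C y := (pg0.mul pK).mul pC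
  have wb : ∀ᶠ z in 𝓝ˢ Zb, C (z, w z) = 0 := wz.filter_mono (nhdsSet_mono bc)
  have n1 : ∀ z ∈ Zb, g (z, w z) * K (z, w z) * dw C (z, w z) ≠ 0 := fun z hz => by
    obtain ⟨a, b, c, -⟩ := ne z (bc hz)
    rw [eg]
    exact mul_ne_zero (mul_ne_zero (mul_ne_zero c (ng z hz)) b) a
  have n2 : ∀ z ∈ Zs, q' (z, w z) ≠ 0 := fun z hz => by
    rw [eq']
    exact mul_ne_zero (ne z (bc (sb hz))).2.2.2 (nq z hz)
  obtain ⟨d, ⟨da, σ, σ0, dσ⟩, d0⟩ := CF.st_uift _ q' w Zb pF pq' cb (wa.mono bc)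
    (wb.mono fun z hz => by rw [hz, mul_zero]) fun z hz => by
      rw [dw3 pg0 pK pC (wb.self_of_nhdsSet z hz)]
      exact n1 z hz
  have d1 : ∀ᶠ z in 𝓝ˢ Zb, d (z, 0) = dF C K g q' w z := by
    filter_upwards [d0, wb] with z a b
    rw [a, dw3 pg0 pK pC b, dF]
  have sp : Zs ×ˢ ({0} : Set ℂ) ⊆ Zb ×ˢ {0} := prod_mono sb subset_rfl
  have on : ∀ᶠ p in 𝓝ˢ (Zb ×ˢ ({0} : Set ℂ)), g (p.1, w p.1 + p.2 * d p) *
      K (p.1, w p.1 + p.2 * d p) * C (p.1, w p.1 + p.2 * d p) =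
        p.2 * q' (p.1, w p.1 + p.2 * d p) := by
    filter_upwards [dσ, small da σ0] with p a b
    exact sub_eq_zero.1 ((a _ b.le).2 rfl)
  refine ⟨d, ⟨da, σ, σ0, dσ⟩, d1, ?_, fun o ho => ?_⟩
  · filter_upwards [Ioo_mem_nhdsGT σ0] with τ hτ
    filter_upwards [tube cb dσ] with e a z hz ν hν using (a z hz ν (hν.trans hτ.2.le)).1
  obtain ⟨r0, r1, H⟩ := SH.st_th (vF C K g q') w d Zs o cs (wa.mono (sb.trans bc))
    (fun z hz => (pF.analyticAt _).div (pq'.analyticAt _) (n2 z hz)) (da.mono sp) (by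
      filter_upwards [wb.filter_mono (nhdsSet_mono sb), d1.filter_mono (nhdsSet_mono sb),
        nz0 (wa.mono (sb.trans bc)) pq' n2, nz0 (wa.mono (sb.trans bc)) ((pg0.mul pK).mul pC.dw)
          fun z hz => n1 z (sb hz)] with z a b c e
      refine ⟨by rw [vF, a, mul_zero, zero_div], ?_⟩
      have f := dw_div pF pq' (y := (z, w z)) (by rw [a, mul_zero]) c
      rw [show vF C K g q' = fun y => g y * K y * C y / q' y from rfl, f, dw3 pg0 pK pC a, b, dF]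
      rw [div_mul_div_cancel₀ c, div_self e]) (by
      filter_upwards [on.filter_mono (nhdsSet_mono sp),
        nz (da.mono sp) (wa.mono (sb.trans bc)) pq' n2] with p a b
      rw [vF, a, mul_div_cancel_right₀ _ b]) ho
  have n3 : ∀ z ∈ Zs, dF C K g q' w z ≠ 0 := fun z hz => div_ne_zero (n2 z hz) (n1 z (sb hz))
  obtain ⟨m, m0, hm⟩ : ∃ m > (0 : ℝ), ∀ z ∈ Zs, m ≤ ‖dF C K g q' w z‖ := by
    refine cs.exists_forall_le' (fun z hz => ContinuousAt.continuousWithinAt ?_)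
      fun z hz => norm_pos_iff.2 (n3 z hz)
    have c : ContinuousAt (fun v => d (v, 0)) z :=
      (da (z, 0) ⟨sb hz, rfl⟩).continuousAt.comp (f := fun v : ℂ => ((v, 0) : ℂ × ℂ)) (by fun_prop)
    exact (c.congr (eventually_nhdsSet_iff_forall.1 d1 z (sb hz))).norm
  filter_upwards [Ioo_mem_nhdsGT r1] with r hr
  filter_upwards [Ioo_mem_nhdsGT (lt_min σ0 (show 0 < r * (m / 2) by
    have := hr.1; positivity))] with R hR
  filter_upwards [Ioo_mem_nhdsGT r1, tube cb dσ, tube cb on, tube cb (small da hR.1),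
    tube cb (nz da (wa.mono bc) pq0 fun z hz => (ne z (bc hz)).2.2.2),
    hF Zb d _ 1 cb da d1 one_pos,
    hF Zs d _ o cs (da.mono sp) (d1.filter_mono (nhdsSet_mono sb)) ho,
    hF Zs d _ (m / 2) cs (da.mono sp) (d1.filter_mono (nhdsSet_mono sb)) (by positivity)]
    with e he a1 a2 a3 a4 a5 a6 a7
  rintro ⟨w', V, Wt, d0', d1', N, S, e', y2, t, r', R', o'⟩ k1 k2 k3 k4 k5 k6 k7 ho'
  dsimp only at k1 k2 k3 k4 k5 k6 k7 ho'
  subst w' V d0' d1' e' r' R'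
  refine ⟨fun z hz => ?_, fun z hz => ⟨(a5 z hz).1.continuousAt, a3 z hz, fun n => ?_,
    fun ν b1 b2 => ?_⟩⟩
  · obtain ⟨-, b1, b2⟩ := H e (by rw [abs_of_pos he.1]; exact he.2.le) id z analyticAt_id hz
      (by simp)
    obtain ⟨-, c1, c2, c3⟩ := (a6 z hz).2.2.2 n3
    refine ⟨(hR.2.le.trans (min_le_right _ _)).trans (mul_le_mul_of_nonneg_left ?_ hr.1.le),
      SH.AWG.th_mono ho' hr.2.le b1, fun v v' f1 f2 => (b2 v v' (f1.trans hr.2.le)
        (f2.trans hr.2.le)).trans (mul_le_mul_of_nonneg_right ho' (norm_nonneg _)),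
      c1, c2.trans ho', c3.trans ho'⟩
    have f1 := (a7 z hz).2.1
    have f2 := norm_sub_norm_le (dF C K g q' w z) (d (z, e))
    rw [norm_sub_rev] at f2
    show m / 2 ≤ ‖d (z, e)‖
    linarith [hm z hz]
  · have b : q' (z, w z + e * d (z, e)) ≠ 0 := by
      rw [eq']
      refine mul_ne_zero (a4 z hz) fun c => n ?_
      show dF C K g q' w z = 0
      rw [dF, eq', show pq (z, w z).1 = 0 from c, mul_zero, zero_div]
    show vF C K g q' (z, w z + e * d (z, e)) = e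
    rw [vF, a2 z hz, mul_div_cancel_right₀ _ b]
  · refine (a1 z hz ν (b1.trans (hR.2.le.trans (min_le_left _ _)))).1 (sub_eq_zero.2 ?_)
    have b3 : vF C K g q' (z, w z + ν) = e := b2
    have b4 : q' (z, w z + ν) ≠ 0 := fun c => by
      rw [vF, c, div_zero] at b3
      exact he.1.ne (by exact_mod_cast b3)
    exact (div_eq_iff b4).1 b3

end Pool.Agent.S6
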