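import Pool.Agent.Lib.S6.W3A

/-!
Windows born in the split: the hypotheses of the window lemmas.
-/

open Set Filter Topology Metric
open scoped ContDiff

noncomputable section

namespace Pool.Agent.S6

open Pool.Agent.CF (End Kind)
open Pool.Agent.Lib
open Pool.Agent.Lib.SH (bc ov ech pp wch wp wr hgt bw ss cutP box)

namespace W3LU

/-- the phase of the birth wall -/
def ph (L : ℝ) (D0 : ℂ → ℝ) (th : ℝ → ℝ) (z : ℂ) : ℂ :=
  Complex.exp (Complex.I *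
    (if ‖z - Complex.I‖ < 4 * Real.exp (-L / 2) then th (hgt L D0 z) else 0))

theorem norm_ph (L : ℝ) (D0 : ℂ → ℝ) (th : ℝ → ℝ) (z : ℂ) : ‖ph L D0 th z‖ = 1 := by
  unfold ph
  split_ifs
  · exact Complex.norm_exp_I_mul_ofReal _
  · simp

theorem ph_one {L : ℝ} {D0 : ℂ → ℝ} {th : ℝ → ℝ} {z : ℂ} (h : th (hgt L D0 z) = 0) :
    ph L D0 th z = 1 := by
  simp [ph, h]

theorem bw_eq {L : ℝ} {D0 : ℂ → ℝ} {G th : ℝ → ℝ} {z : ℂ} (h : 0 < G (hgt L D0 z)) :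
    bw L D0 (fun s => Real.log (G s)) th z = G (hgt L D0 z) * ph L D0 th z := by
  rw [bw, Complex.exp_add, ← Complex.ofReal_exp, Real.exp_log h, ph]

theorem growth {G0 : ℝ → ℝ} {M8 σ0 : ℝ} (h : GZ G0 M8 σ0) (hM : 4 ≤ M8) (h1 : σ0 ≤ 1) :
    G0 (M8 + 1) ≤ G0 (2 * M8) * Real.exp (-3) := by
  have d := h.smooth.differentiable (by simp)
  have a1 : ∀ s, HasDerivAt (fun s => G0 s * Real.exp (-s))
      (deriv G0 s * Real.exp (-s) + G0 s * (Real.exp (-s) * -1)) s := fun s =>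
    (d s).hasDerivAt.mul (hasDerivAt_neg s).exp
  have a2 : MonotoneOn (fun s => G0 s * Real.exp (-s)) (Icc (M8 + 1) (2 * M8)) := by
    refine monotoneOn_of_deriv_nonneg (convex_Icc _ _)
      (fun s _ => (a1 s).continuousAt.continuousWithinAt)
      (fun s _ => (a1 s).differentiableAt.differentiableWithinAt) fun s hs => ?_
    have b0 := interior_subset hs
    have b1 := (h.steep s (by linarith [b0.1]) (by linarith [b0.2])).1
    have b2 := (h.mono s).1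
    rw [(a1 s).deriv]
    nlinarith [Real.exp_pos (-s), mul_le_mul_of_nonneg_right h1 b2]
  have a3 := a2 ⟨le_rfl, by linarith⟩ ⟨by linarith, le_rfl⟩ (by linarith : M8 + 1 ≤ 2 * M8)
  have a4 : Real.exp (-(2 * M8)) ≤ Real.exp (-3) * Real.exp (-(M8 + 1)) := by
    rw [← Real.exp_add]; exact Real.exp_le_exp.2 (by linarith)
  have a5 := (h.pos (2 * M8) (by linarith)).le
  refine le_of_mul_le_mul_right (a3.trans ?_) (Real.exp_pos (-(M8 + 1)))
  rw [mul_assoc]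
  exact mul_le_mul_of_nonneg_left a4 a5

theorem box_pt {r : ℝ} (hr : 0 < r) (x0 : ℝ) (z : ℂ) :
    (x0 : ℂ) + r * ((((z.re - x0) / r : ℝ) : ℂ) + ((z.im / r : ℝ) : ℂ) * Complex.I) = z := by
  have : (r : ℂ) ≠ 0 := Complex.ofReal_ne_zero.2 hr.ne'
  push_cast
  field_simp
  linear_combination Complex.re_add_im z

namespace Ctx

variable {wc : WC} {L ρ : ℝ} {s : SD} {l : End} {h τ a : ℝ} {π π' : Type} [Fintype π]
  [Fintype π'] {x : π → ℂ} {δ : ℝ} {x' : π' → ℂ} {δ' : ℝ} {lm Tw : ℂ → ℂ} {E1 T : ℝ → ℝ}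
  {X K : Set E} {D0 : π' → ℂ → ℝ} {G : ℝ → ℝ} {Bw : ℂ → ℂ}
  (c : Ctx wc L ρ s l h τ a x δ x' δ' lm Tw E1 T X K D0 G Bw)
include c

theorem dr' : 400000 * δ' ≤ ρ := by
  linarith [c.dy, c.yt, c.y0, c.ring.num.y2.2.2.2, c.o4]

theorem wm (k : π') {ζ : ℂ} (hζ : ‖ζ‖ ≤ ρ / (2 * δ')) : ‖wch (x' k) δ' 0 ζ - x' k‖ ≤ ρ :=
  mem_closedBall_iff_norm.1 (SH.Ring.wch_ball (c.u1 k) c.d0' c.rho.2.1 hζ)

theorem dp_wch (k : π') (ζ : ℂ) : dp (wch (x' k) δ' 0 ζ) = δ' * ζ.im := by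
  rw [dp, SH.Win.log_wch (c.u1 k), add_zero]

theorem wh (k : π') {ρ' : ℝ} (h1 : ρ / 4 ≤ ρ') (h2 : ρ' ≤ ρ) :
    SH.Ring.WH (s.cX l X) (bc (ech l) ⁻¹' K) (s.cP l x' δ') (x' k) δ' ρ' where
  hx := c.u1 k
  pos := c.d0'
  le := by linarith [c.dr', c.d0']
  rho := h2.trans c.rho.2.1
  np := c.ch.np.mono isClosed_closedBall fun z hz =>
    c.memA ((mem_closedBall_iff_norm.1 hz).trans h2)
  up := fun y hy => c.up hy.1 ((mem_closedBall_iff_norm.1 hy.2).trans h2)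
  an := fun y hy => c.anP hy.1 ((mem_closedBall_iff_norm.1 hy.2).trans h2)
  anB := fun y hy e => by
    have a1 : ‖y.1 - x' k‖ ≤ ρ := by
      rw [e]
      refine c.wm k ?_
      rw [Complex.norm_I, le_div_iff₀ (by linarith [c.d0'])]
      linarith [c.dr', c.d0']
    obtain ⟨-, -, -, g, b1, -, b2⟩ := c.bq1 a1 (c.up hy a1)
    refine ⟨fun v => (v.2 - s.w (ech l v.1)) * (s.d0 (ech l v.1))⁻¹ * (l.r * g (ech l v.1)),
      (c.cmpV hy a1).2.1.mul (analyticAt_const.mul (b1.comp_of_eq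
        ((c.an_ech _).comp analyticAt_fst) rfl)), Eventually.of_forall fun v => ?_⟩
    rw [SD.cP, b2, wp]
    ring

theorem win (k : π') {ζ : ℂ} (hζ : ‖ζ‖ ≤ ρ / (2 * δ')) (h0 : 0 ≤ ζ.im) (h1 : ζ ≠ Complex.I) :
    Bw (wch (x' k) δ' 0 ζ) = G (hgt L (D0 k) ζ) * ph L (D0 k) wc.th ζ := by
  have d0 := c.d0'
  refine c.bz.win k ζ ?_ (fun k' e => ?_) h0 h1
  · rw [le_div_iff₀ (by positivity)] at hζ
    linarith [c.rho.2.1]
  · have := c.far (c.wm k hζ) (Sum.inr k') fun f => e (Sum.inr.inj f)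
    simp only [Sum.elim_inr] at this
    nlinarith [c.o3, c.yt, c.y0, c.ring.num.y2.2.2.2, c.o4, c.m8]

theorem win_far (k : π') {ζ : ℂ} (hζ : ‖ζ‖ ≤ ρ / (2 * δ')) (h0 : 0 ≤ ζ.im) (h1 : wc.M8 ≤ ‖ζ‖) :
    Bw (wch (x' k) δ' 0 ζ) = G ζ.im := by
  have m8 := c.m8
  have a1 := norm_sub_norm_le ζ Complex.I
  rw [Complex.norm_I] at a1
  have a2 : Real.exp (-L / 2) ≤ 1 / 2 := by
    have := Real.add_one_le_exp (L / 2)
    rw [neg_div, Real.exp_neg, one_div]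
    exact inv_anti₀ two_pos (by linarith [c.ok.num.1])
  rw [c.win k hζ h0 (fun e => by rw [e, Complex.norm_I] at h1; linarith),
    (c.hbw.shape k).far ζ (by linarith) (Or.inl h1), ph, if_neg (by linarith)]
  simp

theorem ggrow : G (wc.M8 + 1) ≤ G (2 * wc.M8) * Real.exp (-3) := by
  have m8 := c.m8
  have d0 := c.d0'
  have o3 := c.o3
  have L1 := c.ok.num.1
  have a1 : wc.σ0 ≤ 1 := c.ok.num.2.2.2.2.2.2.2.trans ((div_le_one (by linarith)).2 (by linarith))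
  rw [c.gg _ (by nlinarith), c.gg _ (by nlinarith), mul_right_comm]
  exact mul_le_mul (growth c.ok.G0 m8 a1) (ex_mono c.y0 (by nlinarith)) (ex_pos _ _).le
    (mul_nonneg (c.ok.G0.pos _ (by linarith)).le (Real.exp_pos _).le)

theorem gnn (u : ℝ) : 0 ≤ G u := by
  rcases le_or_gt u 0 with a | a
  · rw [c.bg.zero u a]
  · exact (c.bg.pos u a).le

section
variable {k : π'} {y : E} (hy : y ∈ bc (wch (x' k) δ' 0) ⁻¹' s.cX l X) (hz : ‖y.1‖ ≤ ρ / (2 * δ'))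
include hy hz

theorem im0 : 0 ≤ y.1.im :=
  (c.wh k (by linarith [c.rho.1]) le_rfl).up' y ⟨hy, mem_closedBall_zero_iff.2 hz⟩

/-- the lower part of the wall in the window chart -/
theorem lowK (hk : y ∈ bc (wch (x' k) δ' 0) ⁻¹' (bc (ech l) ⁻¹' K))
    (h1 : ‖s.cV l (bc (wch (x' k) δ' 0) y)‖ ≤ 20 * (8 * Real.exp (-512) * s.e))
    (hp : s.cP l x' δ' (bc (wch (x' k) δ' 0) y) ≠ 0) :
    y.1 ≠ Complex.I ∧ 0 < hgt L (D0 k) y.1 ∧ δ' * y.1.im ≤ s.y2 / 8 ∧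
      s.cP l x' δ' (bc (wch (x' k) δ' 0) y) = s.e / 2 * Bw (wch (x' k) δ' 0 y.1) ∧
      s.cP l x' δ' (bc (wch (x' k) δ' 0) y) =
        (s.e / 2 * G (hgt L (D0 k) y.1) : ℝ) * ph L (D0 k) wc.th y.1 := by
  have a0 := c.wm k hz
  have a1 := c.small (y := bc (wch (x' k) δ' 0) y) hy a0 hk h1
  have a2 := c.pK (y := bc (wch (x' k) δ' 0) y) hy a0 (by linarith [c.y0]) hk hp
  have a3 : y.1 ≠ Complex.I := fun e => by
    obtain ⟨F, -, b⟩ := (c.wh k (by linarith [c.rho.1]) le_rfl).anB' y hy e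
    exact hp (by rw [b.self_of_nhds, e, sub_self, zero_mul])
  have a4 := c.win k hz (c.im0 hy hz) a3
  change dp (wch (x' k) δ' 0 y.1) ≤ _ at a1
  change _ = s.e / 2 * Bw (wch (x' k) δ' 0 y.1) at a2
  refine ⟨a3, not_le.1 fun b => hp ?_, by rwa [c.dp_wch] at a1, a2, ?_⟩
  · rw [a2, a4, c.bg.zero _ b]; simp
  · rw [a2, a4]; push_cast; ring

end

/-- the lower part -/
theorem w3l (k : π') {ρ' : ℝ} (h1 : ρ / 4 ≤ ρ') (h2 : ρ' ≤ ρ) :
    SH.W3L (bc (wch (x' k) δ' 0) ⁻¹' s.cX l X) (bc (wch (x' k) δ' 0) ⁻¹' (bc (ech l) ⁻¹' K))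
      (fun y => s.cV l (bc (wch (x' k) δ' 0) y)) (fun y => s.cP l x' δ' (bc (wch (x' k) δ' 0) y))
      (D0 k) (fun u => s.e / 2 * G u) wc.th s.e (8 * Real.exp (-512) * s.e) L wc.M8
      (ρ' / (2 * δ')) := by
  have w := c.wh k h1 h2
  have e0 := c.e0
  have d0 := c.d0'
  have m8 := c.m8
  have hm : ∀ {z : ℂ}, z ∈ closedBall (0 : ℂ) (ρ' / (2 * δ')) → ‖z‖ ≤ ρ / (2 * δ') := fun hz =>
    (mem_closedBall_zero_iff.1 hz).trans (by gcongr)
  refine ⟨⟨by positivity, ?_⟩, w.np', w.up', ⟨fun y hy => ?_, w.an'⟩, w.anB', fun y hy => ?_,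
    fun y hy hk b hp => ?_, fun y hy _ b1 b2 b3 b4 => ?_⟩
  · have a1 : (800 : ℝ) ≤ Real.exp 512 := by
      have := Real.quadratic_le_exp_of_nonneg (x := 512) (by norm_num)
      linarith
    have a2 : Real.exp (-512) * Real.exp 512 = 1 := by rw [← Real.exp_add]; simp
    have a3 := Real.exp_pos (-512)
    nlinarith [mul_le_mul_of_nonneg_left a1 a3.le]
  · exact (c.cmpV (y := bc (wch (x' k) δ' 0) y) hy.1 (c.wm k (hm hy.2))).1.comp_of_eq
      (SH.an_bc (SH.Win.an_wch _ _ _ _)) rfl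
  · obtain ⟨a1, a2⟩ := c.cmpP (y := bc (wch (x' k) δ' 0) y) hy.1 (c.wm k (hm hy.2))
    refine ⟨a1, fun b => a2 (le_trans ?_ (SH.Ring.wch_far (c.u1 k) d0 c.rho.2.1 (hm hy.2)).1)⟩
    nlinarith
  · obtain ⟨a1, a2, -, -, a3⟩ := c.lowK hy.1 (hm hy.2) hk b hp
    have a4 := c.bg.pos _ a2
    refine ⟨a1, a2, fun _ => ?_, fun b1 => ?_⟩
    · rw [bw_eq (G := fun u => s.e / 2 * G u) (by positivity)]
      exact a3
    · rw [a3, norm_mul, norm_ph, mul_one, Complex.norm_real, Real.norm_of_nonneg (by positivity)]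
      gcongr
      exact c.gmono b1.le
  · have a0 := c.im0 hy.1 (hm hy.2)
    have a4 := c.bg.pos _ b2
    rw [bw_eq (G := fun u => s.e / 2 * G u) (by positivity)] at b4
    have a1 : y.1.im ≤ 4 * wc.M8 := by
      rcases le_total wc.M8 ‖y.1‖ with a | a
      · rwa [(c.hbw.shape k).far _ (by linarith) (Or.inl a)] at b3
      · linarith [Complex.im_le_norm y.1]
    refine c.pK' (y := bc (wch (x' k) δ' 0) y) hy.1 (c.wm k (hm hy.2)) ?_ ?_ ?_
    · change dp (wch (x' k) δ' 0 y.1) ≤ _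
      rw [c.dp_wch]
      nlinarith [c.o3]
    · rw [b4]
      exact mul_ne_zero (Complex.ofReal_ne_zero.2 (by positivity))
        (norm_pos_iff.1 (by rw [norm_ph]; exact one_pos))
    · change _ = s.e / 2 * Bw (wch (x' k) δ' 0 y.1)
      rw [b4, c.win k (hm hy.2) a0 b1]
      push_cast
      ring

/-! ### the upper part -/

theorem tsm : ContDiff ℝ ∞ T := by
  rw [show T = fun y => G (y / δ') from funext c.tg]
  exact c.bg.smooth.comp (contDiff_id.div_const _)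

theorem cut : ContDiff ℝ ∞ (cutP (s.y2 / 4096) T) ∧
    (∀ y, y ≤ s.y2 / 8192 → cutP (s.y2 / 4096) T y = 0) ∧
    (∀ y, s.y2 / 4096 ≤ y → cutP (s.y2 / 4096) T y = T y) ∧
    ∀ y, 0 ≤ cutP (s.y2 / 4096) T y ∧ cutP (s.y2 / 4096) T y ≤ T y ∧
      0 ≤ deriv (cutP (s.y2 / 4096) T) y ∧ (1024 * T y ≤ s.y2 * deriv T y →
        1024 * cutP (s.y2 / 4096) T y ≤ s.y2 * deriv (cutP (s.y2 / 4096) T) y) := by
  obtain ⟨a1, a2, a3, a4⟩ := SH.st_cutp.1 T (s.y2 / 4096) c.tsm (by linarith [c.y0])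
  refine ⟨a1, fun y b => a2 y (by linarith), a3, fun y => ?_⟩
  obtain ⟨b1, b2, b3, b4, -⟩ := a4 y (c.pf.dT.2 y).2.1 (c.pf.dT.2 y).1
  exact ⟨b1, b2, b3, b4 _ _ (by norm_num) c.y0.le⟩

theorem pfc : Pf E1 (cutP (s.y2 / 4096) T) s.S s.y2 s.t := by
  obtain ⟨a1, a2, a3, a4⟩ := c.cut
  have y0 := c.y0
  have p := c.pf
  refine ⟨p.num, p.dE, ⟨a1.differentiable (by simp), fun y => ⟨(a4 y).2.2.1, (a4 y).1,
    (a4 y).2.1.trans (p.dT.2 y).2.2⟩⟩, p.dS, p.e0, fun y hy => Or.inr (a2 y (by linarith [hy.2])),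
    fun y hy => by rw [a3 y (by linarith), p.T1 y hy],
    fun y hy => ⟨(a4 y).2.2.2 (p.low y hy).1, (a4 y).2.1.trans (p.low y hy).2⟩,
    fun y hy => by rw [a3 y (by linarith [hy.1]), p.mid y hy], p.S0, p.S1, fun y hy => ?_⟩
  rcases le_or_gt y (s.y2 / 4) with b | b
  · left
    have b1 := (a4 y).2.2.2 (p.low y (by linarith)).1
    have b2 := (a4 y).2.2.1
    have b3 := (p.dS.2 y).1
    have b4 := c.yt
    rw [p.S0 y b]
    nlinarith [mul_le_mul_of_nonneg_right b4 b2, mul_nonneg c.t0.le b3, mul_nonneg y0.le b2]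
  · have b1 : cutP (s.y2 / 4096) T =ᶠ[𝓝 y] T :=
      (lt_mem_nhds b).mono fun v hv => a3 v (by linarith)
    rw [b1.deriv_eq, b1.self_of_nhds]
    exact p.steep y hy

end Ctx

/-- the chart of a box -/
def bx (l : End) (p : ℂ) (δ' x0 r : ℝ) (z : ℂ) : ℂ := ech l (wch p δ' 0 (x0 + r * z))

/-- the wall with the cut profile over a box -/
def Ps (s : SD) (l : End) (lm : ℂ → ℂ) (E1 T : ℝ → ℝ) (p : ℂ) (δ' x0 r : ℝ) (u v : ℝ) : ℂ :=
  s.Θ (bx l p δ' x0 r (u + v * Complex.I), wv E1 (cutP (s.y2 / 4096) T) s.S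
    (fun z => s.d0 z / s.d1 z) (fun z => lm z / s.d1 z) s.e (δ' * r * v)
      (bx l p δ' x0 r (u + v * Complex.I)))

/-- the conclusion of the wall lemma for all boxes -/
def PB (s : SD) (l : End) (lm : ℂ → ℂ) (E1 T : ℝ → ℝ) (p : ℂ) (δ' ρ ι : ℝ) : Prop :=
  ∀ x0 r : ℝ, ρ / 32 ≤ δ' * r → δ' * r ≤ 1 → ∃ Ψy : ℝ → ℝ → ℂ, ∀ e' lev : ℝ, SH.Rd e' s.e lev →
    SH.PW (Icc (-1) 1) e' ι (s.t / (δ' * r)) (SH.cW 1) lev (Ps s l lm E1 T p δ' x0 r) Ψy

namespace Ctx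

variable {wc : WC} {L ρ : ℝ} {s : SD} {l : End} {h τ a : ℝ} {π π' : Type} [Fintype π]
  [Fintype π'] {x : π → ℂ} {δ : ℝ} {x' : π' → ℂ} {δ' : ℝ} {lm Tw : ℂ → ℂ} {E1 T : ℝ → ℝ}
  {X K : Set E} {D0 : π' → ℂ → ℝ} {G : ℝ → ℝ} {Bw : ℂ → ℂ}
  (c : Ctx wc L ρ s l h τ a x δ x' δ' lm Tw E1 T X K D0 G Bw)
include c

theorem dp_bx (k : π') (x0 r u v : ℝ) :
    dp (wch (x' k) δ' 0 (x0 + r * (u + v * Complex.I))) = δ' * r * v := by
  rw [c.dp_wch]; simp [mul_assoc]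

theorem der_bx (k : π') {x0 r u v : ℝ} (h0 : 0 < δ' * r) (h1 : δ' * r ≤ 1)
    (h2 : -(2 * s.t) ≤ δ' * r * v) : AnalyticAt ℂ (bx l (x' k) δ' x0 r) (u + v * Complex.I) ∧
    ‖deriv (bx l (x' k) δ' x0 r) (u + v * Complex.I)‖ ≤ 100 := by
  have e : bx l (x' k) δ' x0 r = fun z => l.c + l.r * wch (x' k) δ' 0 (x0 + r * z) :=
    funext fun z => c.ech_eq _
  have a1 : HasDerivAt (fun z : ℂ => (x0 : ℂ) + r * z) r (u + v * Complex.I) := by
    simpa using ((hasDerivAt_id (u + v * Complex.I : ℂ)).const_mul (r : ℂ)).const_add (x0 : ℂ)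
  have a2 := (((SH.Win.hasDerivAt_wch (x' k) δ' 0 _).comp _ a1).const_mul (l.r : ℂ)).const_add l.c
  have r0 : 0 < r := (mul_pos_iff_of_pos_left c.d0').1 h0
  refine ⟨by rw [e]; unfold wch; fun_prop, ?_⟩
  rw [e]
  refine (congrArg norm a2.deriv).trans_le ?_
  have a3 : (x0 + r * (u + v * Complex.I) : ℂ).im = r * v := by simp
  rw [norm_mul, norm_mul, norm_mul, norm_mul, SH.Win.norm_wch (c.u1 k), a3, Complex.norm_I, one_mul,
    Complex.norm_real, Complex.norm_real, Complex.norm_real, Real.norm_of_nonneg c.r0.le,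
    Real.norm_of_nonneg c.d0'.le, Real.norm_of_nonneg r0.le, mul_assoc (Real.exp _)]
  have a4 : Real.exp (-(δ' * (r * v) + 0)) ≤ 3 :=
    (Real.exp_le_exp.2 (by linarith [c.t1])).trans (Real.exp_one_lt_d9.le.trans (by norm_num))
  have a5 := c.ring.wall.lk.2.2.1
  calc _ ≤ 10 * (3 * 1 : ℝ) := by gcongr
    _ ≤ _ := by norm_num

theorem pb (k : π') {ι o : ℝ} (H : ∀ (J : Set ℝ) (E1 T S : ℝ → ℝ)
    (y2 t c e r om : ℝ) (b u1 u2 : ℂ → ℂ) (Θ : E → ℂ), Pf E1 T S y2 t → 0 < c → t ≤ o * c →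
    0 < e → 4 * e ≤ r → om ≤ o → (∀ y ∈ Icc (-(2 * t)) (2 * t), |E1 y| ≤ r / 4) →
    (∀ x ∈ J, ∀ y ∈ Icc (-(2 * (t / c))) (2 * (t / c)), AnalyticAt ℂ b (x + y * Complex.I) ∧
      ‖deriv b (x + y * Complex.I)‖ ≤ 100 ∧ SH.Th Θ e om r (b (x + y * Complex.I))) →
    (∀ y ∈ Icc (-(2 * (t / c))) (2 * (t / c)),
      (∀ᶠ s in 𝓝 (c * y), E1 s = 0 ∧ T s = 0 ∧ S s = 0) ∨
        ∀ x ∈ J, N1 u1 om (b (x + y * Complex.I)) ∧ N1 u2 om (b (x + y * Complex.I))) →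
    ∃ Ψy : ℝ → ℝ → ℂ, ∀ e' lev : ℝ, SH.Rd e' e lev → SH.PW J e' ι (t / c) (SH.cW 1) lev
      (fun x y => Θ (b (x + y * Complex.I), wv E1 T S u1 u2 e (c * y) (b (x + y * Complex.I)))) Ψy)
    (ho : s.o ≤ o * (ρ / 32)) : PB s l lm E1 T (x' k) δ' ρ ι := by
  intro x0 r h1 h2
  have p0 := c.rho.1
  have h0 : 0 < δ' * r := by linarith
  have o0 : 0 < o := (mul_pos_iff_of_pos_right (by positivity)).1 (c.o0.trans_le ho)
  have y0 := c.y0
  have ne : ∀ z, wch (x' k) δ' 0 z ≠ 0 := SH.Win.wch_ne (SH.Win.ne0 (c.u1 k))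
  refine H _ E1 _ s.S s.y2 s.t (δ' * r) s.e s.r s.o (bx l (x' k) δ' x0 r) _ _ s.Θ c.pfc h0
    (c.ring.num.y2.2.2.2.trans (ho.trans (by gcongr))) c.e0 c.ring.num.e.2
    (ho.trans (by nlinarith [c.rho.2.1])) c.ring.wall.bd (fun u _ v hv => ?_) fun v hv => ?_
  · have a1 := SH.Ring.mem_sc h0 hv
    obtain ⟨a2, a3⟩ := c.der_bx k (x0 := x0) (u := u) h0 h2 a1.1
    exact ⟨a2, a3, (c.str (ne _) (by rwa [c.dp_bx])).2.2.1⟩
  · have a1 := SH.Ring.mem_sc h0 hv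
    rcases lt_or_ge (δ' * r * v) (s.y2 / 8192) with a | a
    · exact Or.inl ((gt_mem_nhds a).mono fun w hw => ⟨c.e1z (by linarith), c.cut.2.1 w hw.le,
        c.pf.S0 w (by linarith)⟩)
    · exact Or.inr fun u _ => ⟨(c.str (ne _) (by rwa [c.dp_bx])).2.2.2.1,
        (c.pure (ne _) (by rw [c.dp_bx]; exact ⟨a, a1.2⟩)).2⟩

theorem ps_eq (k : π') {r : ℝ} (hr : 0 < r) (x0 : ℝ) (z : ℂ) :
    Ps s l lm E1 T (x' k) δ' x0 r ((z.re - x0) / r) (z.im / r) =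
      s.Θ (ech l (wch (x' k) δ' 0 z), wv E1 (cutP (s.y2 / 4096) T) s.S
        (fun z => s.d0 z / s.d1 z) (fun z => lm z / s.d1 z) s.e (dp (wch (x' k) δ' 0 z))
        (ech l (wch (x' k) δ' 0 z))) := by
  rw [Ps, bx, box_pt hr, c.dp_wch, mul_assoc, mul_div_cancel₀ _ hr.ne']

section
variable {k : π'} {y : E} (hy : y ∈ bc (wch (x' k) δ' 0) ⁻¹' s.cX l X) (hz : ‖y.1‖ ≤ ρ / (2 * δ'))
  (hb : 8 * Real.exp (-512) * s.e < ‖s.cV l (bc (wch (x' k) δ' 0) y)‖) {r : ℝ} (hr : 0 < r) (x0 : ℝ)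
include hy hz hb hr

theorem upK (hk : y ∈ bc (wch (x' k) δ' 0) ⁻¹' (bc (ech l) ⁻¹' K)) :
    δ' * y.1.im ≤ s.t ∧ s.cV l (bc (wch (x' k) δ' 0) y) =
      Ps s l lm E1 T (x' k) δ' x0 r ((y.1.re - x0) / r) (y.1.im / r) := by
  have a0 := c.wm k hz
  have a1 := (c.kpt (y := bc (wch (x' k) δ' 0) y) hy a0 hk).1
  have a2 := c.large (y := bc (wch (x' k) δ' 0) y) hy a0 hk hb
  have a3 := c.vK (y := bc (wch (x' k) δ' 0) y) hy a0 hk (by linarith [c.y0])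
  change dp (wch (x' k) δ' 0 y.1) ≤ _ at a1
  change _ ≤ dp (wch (x' k) δ' 0 y.1) at a2
  refine ⟨by rwa [c.dp_wch] at a1, ?_⟩
  rw [c.ps_eq k hr, a3, wv, wv, c.cut.2.2.1 _ a2]
  rfl

theorem upK' (h1 : δ' * y.1.im ≤ 2 * s.t) (h2 : s.cV l (bc (wch (x' k) δ' 0) y) =
    Ps s l lm E1 T (x' k) δ' x0 r ((y.1.re - x0) / r) (y.1.im / r)) :
    y ∈ bc (wch (x' k) δ' 0) ⁻¹' (bc (ech l) ⁻¹' K) := by
  have a0 := c.wm k hz
  have y0 := c.y0
  have e0 := c.e0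
  have a1 : 0 ≤ dp (wch (x' k) δ' 0 y.1) := c.dp0 (y := bc (wch (x' k) δ' 0) y) hy a0
  rw [← c.dp_wch k] at h1
  rw [c.ps_eq k hr] at h2
  have ne := c.ne0 a0
  rcases le_or_gt (s.y2 / 4096) (dp (wch (x' k) δ' 0 y.1)) with a | a
  · refine c.vK' (y := bc (wch (x' k) δ' 0) y) hy a0 (le_trans (by linarith) a) h1 ?_
    rw [h2, wv, wv, c.cut.2.2.1 _ a]
    rfl
  exfalso
  set z := wch (x' k) δ' 0 y.1
  have a8 := Real.exp_pos (-512)
  have a2 : ‖wv E1 (cutP (s.y2 / 4096) T) s.S (fun z => s.d0 z / s.d1 z) (fun z => lm z / s.d1 z)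
      s.e (dp z) (ech l z)‖ ≤ 3 * Real.exp (-512) * s.e := by
    rw [wv, c.e1z (by linarith), c.pf.S0 _ (by linarith)]
    rcases le_total (dp z) (s.y2 / 8192) with b | b
    · rw [c.cut.2.1 _ b]
      simp only [mul_zero, Complex.ofReal_zero, zero_mul, add_zero, norm_zero]
      positivity
    · have b1 := (n1_norm (c.pure ne ⟨b, h1⟩).2).1
      obtain ⟨b2, b3, -⟩ := c.cut.2.2.2 (dp z)
      have b4 := b3.trans ((c.pf.low _ (by linarith)).2.trans (ex_mono y0 a.le))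
      have b5 : ex s.y2 (s.y2 / 4096) ≤ Real.exp (-512) * 3 := by
        refine le_trans ?_ (mul_le_mul_of_nonneg_left
          (Real.exp_one_lt_d9.le.trans (by norm_num)) a8.le)
        rw [ex, ← Real.exp_add, Real.exp_le_exp, div_div_cancel_left' y0.ne']
        norm_num
      simp only [mul_zero, Complex.ofReal_zero, zero_mul, add_zero, zero_add]
      rw [norm_mul, Complex.norm_real, Real.norm_of_nonneg (by positivity)]
      calc _ ≤ s.e / 2 * (Real.exp (-512) * 3) * 2 := by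
            gcongr
            · exact b4.trans b5
            · linarith [c.o1]
        _ = _ := by ring
  have a3 : Real.exp (-512) ≤ 1 := Real.exp_le_one_iff.2 (by norm_num)
  have a4 := ((c.str ne ⟨by linarith [c.t0], h1⟩).2.2.2.2.2 _
    (a2.trans (by nlinarith [c.ring.num.e.2]))).2
  rw [← h2] at a4
  nlinarith [mul_pos a8 e0]

end

theorem w3u (k : π') {ι : ℝ} (hι : 0 < ι) (H : PB s l lm E1 T (x' k) δ' ρ ι)
    (ho : 2 * s.o ≤ ι * ρ) :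
    SH.W3U (bc (wch (x' k) δ' 0) ⁻¹' s.cX l X) (bc (wch (x' k) δ' 0) ⁻¹' (bc (ech l) ⁻¹' K))
      (fun y => s.cV l (bc (wch (x' k) δ' 0) y)) (fun y => s.cP l x' δ' (bc (wch (x' k) δ' 0) y))
      (D0 k) (fun u => s.e / 2 * G u) s.e (8 * Real.exp (-512) * s.e) L wc.M8 ι (ρ / (2 * δ'))
      (SH.cW 1) := by
  have e0 := c.e0
  have d0 := c.d0'
  have m8 := c.m8
  have y0 := c.y0
  have t0 := c.t0
  have yt := c.yt
  have tu := c.ring.num.y2.2.2.2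
  obtain ⟨p0, p1, -, -⟩ := c.rho
  set R := ρ / (2 * δ') with hR
  have R0 : 0 < R := by positivity
  have R1 : δ' * R = ρ / 2 := by rw [hR]; field_simp
  have him : ∀ u : ℝ, δ' * u ≤ s.t → u ≤ ι * R := fun u hu =>
    le_of_mul_le_mul_left (by rw [mul_left_comm, R1]; linarith) d0
  have habs : ∀ {u r b : ℝ}, 0 ≤ u → 0 < r → (|u / r| ≤ b / (δ' * r) ↔ δ' * u ≤ b) :=
    fun {u r b} hu hr => by
      rw [abs_of_nonneg (by positivity), div_le_div_iff₀ hr (by positivity), ← mul_assoc,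
        mul_le_mul_iff_left₀ hr, mul_comm]
  refine ⟨fun y hy hk b => ?_, fun x0 r h1 h2 => ?_, fun y hy hk b hp b1 => ?_, fun x0 h1 => ?_⟩
  · have hz := mem_closedBall_zero_iff.1 hy.2
    obtain ⟨a1, a2⟩ := c.upK hy.1 hz b (r := R / 8) (by positivity) y.1.re hk
    obtain ⟨Ψy, a3⟩ := H y.1.re (R / 8) (by linarith) (by linarith)
    refine ⟨him _ a1, ?_⟩
    rw [a2]
    refine (a3 s.e 0 (Or.inl ⟨rfl, le_rfl⟩)).he _ (by simp) _ (abs_le.1 ?_) (norm_nonneg _)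
    rw [← mul_div_assoc, habs (c.im0 hy.1 hz) (by positivity)]
    linarith
  · have r0 : 0 < r := by rcases h2 with a | a <;> rw [a] <;> positivity
    have r1 : ρ / 32 ≤ δ' * r ∧ δ' * r ≤ 1 ∧ |x0| + 2 * r ≤ R := by
      rcases h2 with a | a <;> rw [a] <;> exact ⟨by linarith, by linarith, by linarith⟩
    obtain ⟨Ψy, a3⟩ := H x0 r r1.1 r1.2.1
    refine ⟨fun y hy => (c.w3l k (by linarith) le_rfl).an.1 y
      ⟨hy.1, mem_closedBall_zero_iff.2 (SH.Ring.box_norm r1.2.2 hy.2)⟩, _, _, Ψy,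
      a3 s.e 0 (Or.inl ⟨rfl, le_rfl⟩), a3 0 _ (Or.inr ⟨rfl, le_rfl⟩), fun y hy hk b => ?_,
      fun y hy b b1 b2 => ?_⟩
    · have hz := SH.Ring.box_norm r1.2.2 hy.2
      obtain ⟨a1, a2⟩ := c.upK hy.1 hz b r0 x0 hk
      exact ⟨(habs (c.im0 hy.1 hz) r0).2 a1, a2⟩
    · have hz := SH.Ring.box_norm r1.2.2 hy.2
      rw [← mul_div_assoc, habs (c.im0 hy.1 hz) r0] at b1
      exact c.upK' hy.1 hz b r0 x0 b1 b2
  · obtain ⟨-, -, a1, -, a2⟩ := c.lowK hy.1 (mem_closedBall_zero_iff.1 hy.2) hk b hp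
    refine ⟨him _ (by linarith), ?_⟩
    rw [a2, ph_one (c.bg.th0 _ (by linarith)), mul_one, Complex.ofReal_im, abs_zero]
    positivity
  · have r0 : 0 < R / 16 := by positivity
    have r1 : |x0| + 2 * (R / 16) ≤ R := by linarith
    have r2 : δ' * (R / 16) = ρ / 32 := by linarith
    have hT : ∀ u : ℝ, T (δ' * (R / 16) * (u / (R / 16))) = G u := fun u => by
      rw [c.tg]; congr 1; field_simp
    have lv : s.e / 2 * G (wc.M8 + 1) ≤ s.e / 2 * G (2 * wc.M8) * Real.exp (-3) := by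
      rw [mul_assoc]; gcongr; exact c.ggrow
    have nn : ∀ u : ℝ, ‖((s.e / 2 * G u : ℝ) : ℂ)‖ = s.e / 2 * G u := fun u => by
      rw [Complex.norm_real, Real.norm_of_nonneg (mul_nonneg (by positivity) (c.gnn u))]
    have c0 : 0 ≤ SH.cW 1 := by unfold SH.cW; positivity
    have s0 : ∀ v : ℂ, ss 0 v = ‖v‖ := fun v => by simp [ss]
    refine ⟨fun y => s.cP l x' δ' (bc (wch (x' k) δ' 0) y), fun _ => 0, 0,
      s.y2 / 8 / (δ' * (R / 16)), 0, 2, fun _ v => (s.e / 2 * T (δ' * (R / 16) * v) : ℝ),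
      fun _ v => (s.e / 2 * (deriv T (δ' * (R / 16) * v) * (δ' * (R / 16))) : ℝ), Or.inr rfl,
      le_rfl, fun y hy => (c.w3l k (by linarith) le_rfl).an.2 y
        ⟨hy.1.1, mem_closedBall_zero_iff.2 (SH.Ring.box_norm r1 hy.2)⟩, analyticOnNhd_const,
      fun _ _ => by simp, fun _ _ => by simpa using hι.le, fun y _ => by simp [pp, sq],
      ⟨by positivity, ?_, fun _ _ v _ => ?_, fun _ _ v _ => ?_, fun _ _ v hv _ => ?_,
        fun _ _ v _ _ _ _ _ => ?_, fun _ _ v _ _ => ?_⟩,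
      fun _ _ => by rw [zero_mul]; positivity, fun y hy hk b => ?_, fun y hy b b1 b2 => ?_⟩
    · rw [r2, div_le_iff₀ (by positivity)]
      nlinarith
    · exact (((c.pf.dT.1 _).hasDerivAt.comp v
        ((hasDerivAt_id v).const_mul (δ' * (R / 16)))).const_mul (s.e / 2)).ofReal_comp.congr_deriv
        (by simp)
    · have := (c.pf.dT.2 (δ' * (R / 16) * v)).1
      rw [Complex.ofReal_im, Complex.ofReal_re, abs_zero]
      positivity
    · have a1 := (SH.Ring.mem_sc (by positivity) hv).2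
      have a2 := (c.pf.low _ (by linarith : δ' * (R / 16) * v ≤ 3 * s.y2 / 8)).1
      obtain ⟨a3, a4, -⟩ := c.pf.dT.2 (δ' * (R / 16) * v)
      rw [s0, Complex.norm_real, Real.norm_of_nonneg (by positivity), Complex.ofReal_re]
      have a5 : s.y2 / 8 / (δ' * (R / 16)) *
          (s.e / 2 * (deriv T (δ' * (R / 16) * v) * (δ' * (R / 16)))) =
          s.e / 2 * (s.y2 * deriv T (δ' * (R / 16) * v) / 8) := by field_simp
      rw [a5]
      gcongr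
      linarith
    · rw [sub_self, norm_zero, Complex.zero_im, abs_zero, s0]
      constructor <;> positivity
    · rw [Complex.ofReal_im, abs_zero, s0]
      positivity
    · have hz := SH.Ring.box_norm r1 hy.2
      have a0 := c.im0 hy.1.1 hz
      have hp : s.cP l x' δ' (bc (wch (x' k) δ' 0) y) ≠ 0 := norm_pos_iff.1 (lt_of_le_of_lt
        (mul_nonneg (mul_nonneg (by positivity) (c.gnn _)) (Real.exp_pos _).le) b)
      obtain ⟨a1, -, a2, a3, a4⟩ := c.lowK hy.1.1 hz hk hy.1.2 hp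
      refine ⟨(habs a0 r0).2 a2, ?_⟩
      have a5 : wc.M8 ≤ ‖y.1‖ := by
        by_contra a
        have b1 := (c.hbw.shape k).le _ a0 a1
        have b2 := c.gmono (b1.trans (by linarith [Complex.im_le_norm y.1] :
          y.1.im + 1 ≤ wc.M8 + 1))
        beta_reduce at b
        rw [a4, norm_mul, norm_ph, mul_one, nn] at b
        nlinarith
      beta_reduce
      rw [hT, a3, c.win_far k hz a0 a5]
      push_cast
      rfl
    · have hz := SH.Ring.box_norm r1 hy.2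
      have a0 := c.im0 hy.1.1 hz
      rw [← mul_div_assoc, habs a0 r0] at b1
      beta_reduce at b b2
      rw [hT] at b2
      have hp : s.cP l x' δ' (bc (wch (x' k) δ' 0) y) ≠ 0 := norm_pos_iff.1 (lt_of_le_of_lt
        (mul_nonneg (mul_nonneg (by positivity) (c.gnn _)) (Real.exp_pos _).le) b)
      have a5 : wc.M8 ≤ ‖y.1‖ := by
        by_contra a
        have b3 := c.gmono (by linarith [Complex.im_le_norm y.1] : y.1.im ≤ wc.M8 + 1)
        rw [b2, nn] at b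
        nlinarith
      refine c.pK' (y := bc (wch (x' k) δ' 0) y) hy.1.1 (c.wm k hz) ?_ hp ?_
      · change dp (wch (x' k) δ' 0 y.1) ≤ _
        rw [c.dp_wch]
        linarith
      · change _ = s.e / 2 * Bw (wch (x' k) δ' 0 y.1)
        rw [b2, c.win_far k hz a0 a5]
        push_cast
        rfl

theorem last1 (k : π') {y : E} (hy : y ∈ s.cX l X) (hz : ‖y.1 - x' k‖ ≤ ρ) :
    AnalyticAt ℂ (s.cV l) y ∧
      (s.cP l x' δ' y = 0 → y.2 = s.w (ech l y.1) ∨ y.1 = wp (x' k) δ') ∧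
      (s.cV l y = s.e → s.On (SD.rz l x L δ h (-a) (-1 / 4)) (bc (ech l) y)) := by
  have a0 := c.up hy hz
  refine ⟨(c.cmpV hy hz).1, fun b => ?_, fun b => Or.inr ⟨c.memR hz a0 (by norm_num), ?_⟩⟩
  · obtain ⟨-, -, -, g, -, b1, b2⟩ := c.bq1 hz a0
    rw [SD.cP, b2, mul_eq_zero, mul_eq_zero, mul_eq_zero, sub_eq_zero, sub_eq_zero] at b
    rcases b with (b | b) | b | b
    · exact Or.inl b
    · exact absurd b (inv_ne_zero (c.an_d hz a0).2)
    · exact Or.inr b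
    · exact absurd b (mul_ne_zero c.rne b1)
  · exact sub_eq_iff_eq_add'.1 ((c.ring.sht _ (c.memR hz a0 (by norm_num))).2.2.2 _ hy.2
      ((congrArg (fun v => s.V (ech l y.1, v)) (add_sub_cancel _ _)).trans b))

theorem last2 (k : π') {y : E} (hy : y ∈ s.cX l X) (hk : y ∈ bc (ech l) ⁻¹' K)
    (hz : ‖y.1 - wp (x' k) δ'‖ ≤ wr (x' k) δ' L) : y.2 = s.w (ech l y.1) := by
  have d0 := c.d0'
  have dr := c.dr'
  have a1 : ‖wp (x' k) δ' - x' k‖ ≤ 9 / 8 * δ' := by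
    have := (SH.Ring.wch_far (c.u1 k) d0 c.rho.2.1 (z := Complex.I) (by
      rw [Complex.norm_I, le_div_iff₀ (by positivity)]; linarith)).2
    rwa [Complex.norm_I, mul_one] at this
  have a2 : wr (x' k) δ' L ≤ 2 * δ' := by
    have b1 : ‖wp (x' k) δ'‖ ≤ 1 := by
      rw [wp, SH.Win.norm_wch (c.u1 k), Real.exp_le_one_iff]; simp [d0.le]
    have b2 : Real.exp (-L) ≤ 1 := Real.exp_le_one_iff.2 (by linarith [c.ok.num.1])
    unfold wr
    calc _ ≤ 2 * δ' * 1 * 1 := by gcongr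
      _ = _ := by ring
  have a3 := norm_sub_le_norm_sub_add_norm_sub y.1 (wp (x' k) δ') (x' k)
  have a4 : ‖y.1 - x' k‖ ≤ ρ := by linarith
  have a5 := c.dp0 hy a4
  have a6 := dp_half (c.ne0 a4) a5 (by linarith [(c.kpt hy a4 hk).1, c.t1]) (c.u1 k)
  have a7 := (c.kpt hy a4 hk).2
  rw [c.nlow (c.ne0 a4) ⟨a5, by linarith [c.dy]⟩,
    (c.bz.zero _ (c.ne0 a4)).2 (Or.inr ⟨k, hz⟩), mul_zero, zero_mul] at a7
  exact sub_eq_zero.1 a7

theorem bg' : SH.BG (fun u => s.e / 2 * G u) wc.th wc.M8 := by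
  have e0 := c.e0
  have d : ∀ u, deriv (fun u => s.e / 2 * G u) u = s.e / 2 * deriv G u := fun u =>
    deriv_const_mul_field _
  exact ⟨contDiff_const.mul c.bg.smooth, fun u a => by rw [c.bg.zero u a, mul_zero],
    fun u a => mul_pos (by positivity) (c.bg.pos u a),
    fun u => by rw [d]; exact mul_nonneg (by positivity) (c.bg.mono u),
    fun u a b => by rw [d]; exact mul_pos (by positivity) (c.bg.strict u a b),
    c.bg.ths, c.bg.th0, c.bg.th1⟩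

end Ctx

end W3LU

theorem st_w3lu (hS : St_SPW) (hB : St_BQ) : St_W3LU := by
  intro wc L ι ρ n hok hι p0 p1
  obtain ⟨o, o0, H⟩ := hS ι hι
  have m8 := hok.num.2.2.2.1
  refine ⟨min (min (min (1 / 100) (o * (ρ / 32))) (min (ι * ρ / 2) (ι * ρ * ι)))
    (min (ρ / (100 * (n + 1))) (1 / (100000 * wc.M8))), by positivity, ?_⟩
  intro s l h τ a π π' _ _ x δ x' δ' lm Tw E1 T X K ho h1 h2 hn hs hR hC hW k
  obtain ⟨w1, w2, D0, G, Bw, w3, w4, w5, w6, w7, w8⟩ := hW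
  simp only [le_min_iff] at ho
  obtain ⟨⟨⟨o1, o2⟩, o3, o4⟩, o5, o6⟩ := ho
  obtain ⟨y0, y1, t0, t1⟩ := hR.num.y2
  have s0 : 0 < s.o := t0.trans_le t1
  have d0 : 0 < δ' := w3.num.2.2.2.2.1
  have n0 : (0 : ℝ) ≤ n := Nat.cast_nonneg n
  have n1 : (Fintype.card π' : ℝ) ≤ n := Nat.cast_le.2 hn
  have y2 : s.y2 ≤ 1 := by nlinarith
  have d1 : δ' ≤ s.o := by nlinarith
  rw [le_div_iff₀ (by positivity)] at o5 o6
  have c : W3LU.Ctx wc L ρ s l h τ a x δ x' δ' lm Tw E1 T X K D0 G Bw :=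
    ⟨hok, hB, ⟨p0, p1, h1, h2⟩, hs, hR, hC, w2, w3, w4, w5, w6, w7, w8, o1,
      le_trans (by nlinarith) o5, by nlinarith, by nlinarith⟩
  exact ⟨D0 k, fun u => s.e / 2 * G u, d0, d1.trans o4, w3.shape k, c.bg',
    fun u hu => congrArg _ (w8 u (by nlinarith [c.o3])), fun ρ' a1 a2 => c.w3l k a1 a2,
    c.w3u k hι (c.pb k H o2) (by linarith), fun y a1 a2 => c.last1 k a1 a2,
    fun y a1 a2 a3 => c.last2 k a1 a2 a3⟩

end Pool.Agent.S6
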