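import Pool.Agent.Lib.S6.Site2
import Pool.Agent.Lib.S6.Ends2
import Pool.Agent.Lib.S6.B_AB
import Pool.Agent.Lib.SH.B_W3N
import Pool.Agent.Lib.SH.B_W3A
import Pool.Agent.Lib.SH.B_PROF2

/-!
Section 6 of the project 9ccfb7: the properties of a window born in the split.
-/

open Set Filter Topology Metric
open scoped ContDiff

noncomputable section

namespace Pool.Agent.S6

open Pool.Agent.CF (End Kind)
open Pool.Agent.Lib
open Pool.Agent.Lib.SH (bc ov ech pp GP wch)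

namespace W3P

/-- steepness passes from `G0` to the profile of the wall -/
theorem steep {G G0 : ℝ → ℝ} {M8 σ0 e y2 δ s a b : ℝ} (h0 : GZ G0 M8 σ0) (he : 0 < e)
    (hy : 0 < y2) (hδ : 0 < δ) (hG : ∀ u ≤ 5 * M8, G u = e / 2 * (G0 u * ex y2 (δ * u)))
    (hs : 0 < s) (hs1 : s < 5 * M8) (hb : 0 ≤ b) (h : a * G0 s ≤ b * deriv G0 s) :
    a * G s ≤ b * deriv G s := by
  have h1 : HasDerivAt (fun u => e / 2 * ex y2 (δ * u))
      (e / 2 * (ex y2 (δ * s) * (1024 * (δ / y2)))) s := by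
    have := ((((((hasDerivAt_id s).const_mul δ).div_const y2).sub_const (1 / 2)).const_mul
      1024).exp).const_mul (e / 2)
    simpa only [ex, id, mul_one] using this
  have h2 : 0 < ex y2 (δ * s) := Real.exp_pos _
  have h3 := SH.st_prof2.2.2.2.2.2.2 G0 (fun u => e / 2 * ex y2 (δ * u)) s a b
    (h0.smooth.differentiable (by simp) s) h1.differentiableAt (h0.pos s hs).le (by positivity)
    (h0.mono s).1 (by rw [h1.deriv]; positivity) hb (Or.inl h)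
  have h4 : G =ᶠ[𝓝 s] fun t => G0 t * (e / 2 * ex y2 (δ * t)) := by
    filter_upwards [Iio_mem_nhds hs1] with t ht
    rw [hG t (le_of_lt ht)]; ring
  rwa [h4.deriv_eq, h4.self_of_nhds]

/-- lower bound for the profile -/
theorem low {G G0 th : ℝ → ℝ} {M8 σ0 e y2 δ s : ℝ} (h0 : GZ G0 M8 σ0) (hB : SH.BG G th M8)
    (he : 0 < e) (hy : 0 < y2) (hδ : 0 < δ) (hM : 4 ≤ M8)
    (hG : ∀ u ≤ 5 * M8, G u = e / 2 * (G0 u * ex y2 (δ * u))) (hs : 0 < s) :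
    e / 2 * (G0 (min s 1) * Real.exp (-512)) ≤ G s := by
  have h1 : 0 < min s 1 := lt_min hs one_pos
  have h2 : Real.exp (-512) ≤ ex y2 (δ * min s 1) := by
    have : 0 ≤ δ * min s 1 / y2 := by positivity
    exact Real.exp_le_exp.2 (by linarith)
  have h3 := h0.pos _ h1
  refine le_trans ?_ (monotone_of_deriv_nonneg (hB.smooth.differentiable (by simp)) hB.mono
    (min_le_left s 1))
  rw [hG _ ((min_le_right _ _).trans (by linarith))]
  gcongr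

/-- points near the centre of the window, in the window chart -/
theorem chart {x z : ℂ} {δ ρ : ℝ} (hx : ‖x‖ = 1) (hδ : 0 < δ) (hρ : ρ ≤ 1 / 8)
    (h : ‖z - x‖ ≤ ρ / 16) : ∃ ζ, wch x δ 0 ζ = z ∧ ‖ζ‖ ≤ ρ / (8 * δ) := by
  obtain ⟨ζ, c1, c2⟩ := SH.Win.wch_surj (yr := 0) (SH.Win.ne0 hx) hδ 0 (z := z) (by
    rw [SH.Ring.wch_zero, hx]; linarith)
  have c3 := (SH.Win.wch_dist (x := x) (yr := 0) hδ c2).1
  rw [c1, SH.Ring.wch_zero, hx, mul_one, sub_zero] at c3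
  refine ⟨ζ, c1, ?_⟩
  rw [le_div_iff₀ (by positivity)]
  nlinarith [norm_nonneg (z - x)]

/-- the maximum principle over a small disc about the centre of the filled disc -/
theorem centre {X K : Set E} {V F : E → ℂ} {e ε R : ℝ} (he : 0 < e) (h0 : 0 < ε)
    (hR : closedBall Complex.I ε ⊆ closedBall 0 R) (hn : SH.NP X K (closedBall 0 R))
    (hV : AnalyticOnNhd ℂ V (ov X (closedBall 0 R)))
    (hF : ∀ y : E, y.1 ∈ closedBall Complex.I ε → AnalyticAt ℂ F y)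
    (hK : ∀ y ∈ ov X (closedBall Complex.I ε), y ∈ K → F y = 0)
    (hs : ∀ y ∈ ov X (closedBall Complex.I ε), y ∉ K →
      (‖V y‖ ≤ e / 10 ∧ (F y = 0 ∨ y.1 = Complex.I)) ∨ V y = e) :
    ∀ y ∈ ov X (closedBall Complex.I ε), ‖V y‖ ≤ e / 2 → F y = 0 := by
  have h1 : ‖(e : ℂ)‖ = e := by rw [Complex.norm_real, Real.norm_eq_abs, abs_of_pos he]
  have h2 : SH.NP {y | y ∈ X ∧ ‖V y‖ ≤ e / 2} K (closedBall Complex.I ε) :=
    SH.W3N.np_part (hn.mono isClosed_closedBall hR)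
      (fun y hy => (hV y (SH.ov_mono hR hy)).continuousAt.norm) fun y hy hk a => by
        rcases hs y hy hk with c | c
        · linarith [c.1]
        · rw [c, h1] at a; linarith
  intro y hy hv
  refine norm_le_zero_iff.1 (SH.Win.disc_max (B := 0) h2 (fun v hv => hF v hv.2) le_rfl
    (fun v hv hk => (norm_eq_zero.2 (hK v ⟨hv.1.1, hv.2⟩ hk)).le) (fun v hv hk a => ?_) y
    ⟨⟨hy.1, hv⟩, hy.2⟩)
  rcases hs v ⟨hv.1, mem_closedBall_iff_norm.2 a.le⟩ hk with ⟨-, c | c⟩ | c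
  · exact (norm_eq_zero.2 c).le
  · rw [c, sub_self, norm_zero] at a; linarith
  · have := hv.2
    rw [c, h1] at this; linarith

end W3P

open W3P

theorem st_w3p (hU : St_W3LU) : St_W3P := by
  obtain ⟨th, Cth, -, t1, t2⟩ := AB.exists_th
  obtain ⟨c0, c1, c2, hL⟩ := SH.st_locf
  obtain ⟨CD, M8, y4, s1, s2, s3, L1, hS⟩ := SH.st_shape c0 c1 c2
  obtain ⟨L2, hL⟩ := hL CD
  obtain ⟨L3, hN⟩ := SH.st_w3n c0 CD c1 c2
  obtain ⟨L4, hA⟩ := SH.st_w3a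
  refine ⟨max (max L1 L2) (max (max L3 L4) 100), fun L hL0 => ?_⟩
  simp only [max_le_iff] at hL0
  obtain ⟨⟨l1, l2⟩, ⟨l3, l4⟩, l5⟩ := hL0
  obtain ⟨MN, n1, σN, n2, hN⟩ := hN L M8 Cth l3 (hL L l2) s1
  obtain ⟨ι, n3, hN⟩ := hN (SH.cW 1)
  obtain ⟨MA, a1, N1, hA⟩ := hA (1 / 2) L (by norm_num) (by norm_num) l4
  obtain ⟨σ, e1, e2, e3⟩ : ∃ σ : ℝ, 0 < σ ∧ σ ≤ σN ∧ σ ≤ 1 / (100 * L) :=
    ⟨min σN (1 / (100 * L)), by positivity, min_le_left _ _, min_le_right _ _⟩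
  obtain ⟨G0, g1, g2, g3, g4, g5, g6, g7⟩ := SH.st_prof2.2.2.2.2.2.1 M8 σ (by linarith) e1
  have hG0 : GZ G0 M8 σ := ⟨g1, g2, g3, g4, g5, g6, g7⟩
  obtain ⟨u1, f1, f2, f3⟩ : ∃ u : ℝ, 0 < u ∧ u ≤ 1 ∧ ∀ s, 0 < s → s ≤ u →
      N1 * G0 s ≤ s * deriv G0 s := by
    obtain ⟨u, a, b⟩ := mem_nhdsGT_iff_exists_Ioc_subset.1 (g7 N1)
    exact ⟨min u 1, lt_min a one_pos, min_le_right _ _, fun s c d =>
      b ⟨c, d.trans (min_le_left _ _)⟩⟩
  obtain ⟨u2, a2, hA⟩ := hA y4 u1 s2 s3 f1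
  have ok : WC.OK ⟨c0, CD, M8, y4, σ, th, G0⟩ L := ⟨⟨l5, c1, c2, s1, s2, s3, e1, e3⟩, hL L l2,
    fun x δ a b c => hS L l1 (hL L l2) x δ 0 a b c, ⟨t1, Cth, t2⟩, hG0⟩
  have g8 := g3 _ (lt_min a2 one_pos)
  obtain ⟨θ, w0, w1, w2⟩ : ∃ θ : ℝ, 0 < θ ∧ θ ≤ 16 * Real.exp (-512) ∧
      MN * θ ≤ G0 (min u2 1) * Real.exp (-512) / 2 :=
    ⟨min (16 * Real.exp (-512)) (G0 (min u2 1) * Real.exp (-512) / 2 / MN), by positivity,
      min_le_left _ _, by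
        rw [mul_comm, ← le_div_iff₀ (by linarith)]; exact min_le_right _ _⟩
  refine ⟨_, ok, 16 + MN + MA, by linarith, θ, w0, fun ρ n r0 r1 => ?_⟩
  obtain ⟨o, o0, hU⟩ := hU _ L ι ρ n ok n3 r0 r1
  refine ⟨min o (min (1 / 10) (min (ι / MN) (1 / MA))), by positivity, ?_⟩
  intro s l h τ a π π' _ _ x δ x' δ' lm Tw E1 T X K ho hh hδ hn hsep hR hB hW k
  simp only [le_min_iff] at ho
  obtain ⟨o1, o2, o3, o4⟩ := ho
  obtain ⟨D0, G, d0, -, hSh, hG, hGe, hWL, hWU, hE, hK⟩ :=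
    hU s l h τ a π π' x δ x' δ' lm Tw E1 T X K o1 hh hδ hn hsep hR hB hW k
  have hx : ‖x' k‖ = 1 := hsep.1 (Sum.inr k)
  have he := hR.num.e.1
  obtain ⟨y0, y1, y2, y3⟩ := hR.num.y2
  obtain ⟨a0, -, -, δ0, y5⟩ := hR.num'
  have so : 0 < s.o := y2.trans_le y3
  have d1 : 100 * δ' ≤ s.o * δ := by
    have b1 := hW.1
    have b2 : s.y2 ≤ s.t / 10 := by nlinarith
    have b3 : δ' ≤ s.y2 / 10 := by nlinarith
    linarith
  have d2 : 100 * δ' ≤ δ := by nlinarith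
  have d3 : MN * δ' ≤ ι * ρ := by
    rw [le_div_iff₀ (by linarith)] at o3
    nlinarith
  have d4 : MA * δ' ≤ ρ / 4 := by
    rw [le_div_iff₀ (by linarith)] at o4
    nlinarith
  have hd : Differentiable ℝ G := hG.smooth.differentiable (by simp)
  obtain ⟨N1', N2⟩ := hN (s.cX l X) (bc (ech l) ⁻¹' K) (s.cV l) (s.cP l x' δ') D0 G th (x' k) δ' ρ
    s.e _ y4 hx d0 r1 d3 hSh t2 hd hG.zero hG.pos (fun u b c => by
      have := steep (a := 1) (b := σ) hG0 he y0 d0 hGe b (by linarith) e1.le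
        (by rw [one_mul]; exact (g5 u b c).1)
      nlinarith [hG.mono u]) (hWL ρ (by linarith) le_rfl) hWU
  have hb := (hWL ρ (by linarith) le_rfl).num
  have m1 : ρ / (16 + MN + MA) ≤ ρ / MN := by gcongr; linarith
  have m2 : ρ / (16 + MN + MA) ≤ ρ / 16 := by gcongr; linarith
  refine ⟨SH.Ring.gp_mono N1' (by linarith) (by linarith) d2 r0.le le_rfl (by positivity),
    fun H => ?_, fun H => ?_⟩
  · have q := N2 (θ * s.e ^ 2) (by positivity) (by nlinarith [sq_nonneg s.e])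
      fun y hy hk b c => H y ⟨hy, hk⟩ (m1.trans b) c
    have q2 := hA (s.cX l X) (bc (ech l) ⁻¹' K) (s.cV l) (s.cP l x' δ') D0 G th (x' k) c0 CD Cth
      M8 δ' (ρ / 4) s.e _ hx d0 (by linarith) d4 s1 hSh t2 hd hG.zero hG.pos hG.mono
      (fun u b c => steep hG0 he y0 d0 hGe b (by linarith) b.le (f3 u b c))
      (hWL (ρ / 4) le_rfl (by linarith)) (fun y hy hk b c => by
        rcases q y hy hk (b.trans_eq (by field_simp; norm_num)) with d | d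
        · refine ⟨d.1, le_trans (le_of_mul_le_mul_right (d.2.trans ?_) he)
            (low hG0 hG he y0 d0 s1 hGe a2)⟩
          nlinarith [mul_le_mul_of_nonneg_right w2 (sq_nonneg s.e)]
        · linarith [(SH.W3N.tri he.le (s.cV l (bc (wch (x' k) δ' 0) y))).1, d.1, hb.2])
    have q3 : {y | y ∈ s.cX l X \ bc (ech l) ⁻¹' K ∧ ‖s.cV l y‖ ≤ s.e / 2} =
        {y | y ∈ s.cX l X ∧ ‖s.cV l y‖ ≤ s.e / 2} \ bc (ech l) ⁻¹' K :=
      Set.ext fun y => ⟨fun v => ⟨⟨v.1.1, v.2⟩, v.1.2⟩, fun v => ⟨⟨v.1.1, v.2⟩, v.1.2⟩⟩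
    rw [q3, show (3 / 2 : ℝ) = 2 - 1 / 2 by norm_num]
    exact SH.Ring.gp_mono q2 (by linarith) (by linarith) d2 (by linarith) le_rfl (by positivity)
  have q := N2 0 le_rfl (by nlinarith [hb.1])
    fun y hy hk b c => (norm_eq_zero.2 (H y ⟨hy, hk⟩ (m1.trans b) c)).le
  have p1 : ρ / (8 * δ') ≤ ρ / (2 * δ') := by gcongr; norm_num
  have p2 : 2 ≤ ρ / (8 * δ') := by rw [le_div_iff₀ (by positivity)]; linarith
  have q1 : ∀ y ∈ bc (wch (x' k) δ' 0) ⁻¹' s.cX l X,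
      y ∉ bc (wch (x' k) δ' 0) ⁻¹' (bc (ech l) ⁻¹' K) → ‖y.1‖ ≤ ρ / (8 * δ') →
      (‖s.cV l (bc (wch (x' k) δ' 0) y)‖ ≤ s.e / 10 ∧
        (y.2 - s.w (ech l (wch (x' k) δ' 0 y.1)) = 0 ∨ y.1 = Complex.I)) ∨
      s.cV l (bc (wch (x' k) δ' 0) y) = s.e := fun y hy hk b => by
    rcases q y hy hk b with d | d
    · refine Or.inl ⟨by linarith [d.1, hb.2], ?_⟩
      have d5 : s.cP l x' δ' (bc (wch (x' k) δ' 0) y) = 0 :=
        norm_le_zero_iff.1 (le_of_mul_le_mul_right (by simpa using d.2) he)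
      exact ((hE _ hy (mem_closedBall_iff_norm.1
        (SH.Ring.wch_ball hx d0 r1 (b.trans p1)))).2.1 d5).imp sub_eq_zero.2 fun c =>
          SH.Win.wch_inj (SH.Win.ne0 hx) d0 (SH.Win.dist_I d0 (by linarith) r1 (b.trans p1)) c
    · have d5 : pp s.e (s.cV l (bc (wch (x' k) δ' 0) y)) = 0 :=
        norm_le_zero_iff.1 (by simpa using d.2)
      refine Or.inr ((mul_eq_zero.1 d5).elim (fun c => ?_) sub_eq_zero.1)
      have d6 := (SH.W3N.tri he.le (s.cV l (bc (wch (x' k) δ' 0) y))).1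
      have d7 := d.1
      rw [c] at d6 d7
      rw [norm_zero] at d6
      linarith [hb.2]
  have ε0 : 0 < Real.exp (-L) := Real.exp_pos _
  have ε1 : Real.exp (-L) ≤ 1 := Real.exp_le_one_iff.2 (by linarith)
  have p3 : ∀ ζ ∈ closedBall Complex.I (Real.exp (-L)), ‖ζ‖ ≤ 2 ∧ 0 ≤ ζ.im ∧ ζ.im ≤ 2 :=
    fun ζ hζ => by
      have b1 := mem_closedBall_iff_norm.1 hζ
      have b2 := norm_le_norm_sub_add ζ Complex.I
      have b3 := abs_le.1 (Complex.abs_im_le_norm (ζ - Complex.I))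
      rw [Complex.norm_I] at b2
      rw [Complex.sub_im, Complex.I_im] at b3
      exact ⟨by linarith, by linarith [b3.1], by linarith [b3.2]⟩
  have lr := hR.wall.lk.2.1
  have q2 := centre (F := fun y => y.2 - s.w (ech l (wch (x' k) δ' 0 y.1))) he ε0
    (fun ζ hζ => mem_closedBall_zero_iff.2 ((p3 ζ hζ).1.trans (p2.trans p1)))
    (hWL ρ (by linarith) le_rfl).np (hWL ρ (by linarith) le_rfl).an.1
    (fun y hy => by
      have b0 := SH.Win.wch_ne (δ := δ') (yr := 0) (SH.Win.ne0 hx) y.1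
      obtain ⟨b1, b2⟩ := ENDS.ech_ne lr b0
      rw [SH.Win.log_wch hx, add_zero] at b2
      obtain ⟨-, b3, b4⟩ := p3 _ hy
      have b5 := (hR.cmp _ ⟨b1, by
        rw [b2]; constructor <;> nlinarith⟩).1
      exact analyticAt_snd.sub (b5.comp (f := fun y : E => ech l (wch (x' k) δ' 0 y.1))
        ((ENDS.ech_der lr b0).1.comp (f := fun y : E => wch (x' k) δ' 0 y.1)
          ((SH.Win.an_wch _ _ _ _).comp analyticAt_fst))))
    (fun y hy hk => by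
      have b1 := mem_closedBall_iff_norm.1 hy.2
      have b2 := (SH.Win.wch_dist (x := x' k) (yr := 0) d0 (z := y.1) (z' := Complex.I)
        (by nlinarith)).2
      refine sub_eq_zero.2 (hK _ hy.1 hk (b2.trans ?_))
      have b3 : 0 ≤ δ' * ‖wch (x' k) δ' 0 Complex.I‖ := by positivity
      unfold SH.wr SH.wp
      nlinarith [mul_le_mul_of_nonneg_left b1 b3, mul_nonneg b3 ε0.le])
    fun y hy hk => q1 y hy.1 hk ((p3 _ hy.2).1.trans p2)
  intro y hy b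
  obtain ⟨ζ, c3, c4⟩ := chart hx d0 r1 (b.trans m2)
  have c5 : bc (wch (x' k) δ' 0) (ζ, y.2) = y := Prod.ext c3 rfl
  have c6 : ((ζ, y.2) : E) ∈ bc (wch (x' k) δ' 0) ⁻¹' s.cX l X := by
    rw [mem_preimage, c5]; exact hy.1
  rcases q1 (ζ, y.2) c6 (by rw [mem_preimage, c5]; exact hy.2) c4 with ⟨d5, d⟩ | d
  · have d6 : y.2 - s.w (ech l (wch (x' k) δ' 0 ζ)) = 0 := d.elim id fun c =>
      q2 (ζ, y.2) ⟨c6, by rw [c]; exact mem_closedBall_self ε0.le⟩ (by linarith)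
    rw [c3] at d6
    exact Or.inl (sub_eq_zero.1 d6)
  · rw [c5] at d
    exact (hE y hy.1 (by linarith [b.trans m2])).2.2 d

end Pool.Agent.S6
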