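import Pool.Agent.Lib.S6.NWin1
import Pool.Agent.Lib.S6.W3A
import Pool.Agent.Lib.S6.Ends2
import Pool.Agent.Lib.SH.B_FIN

/-!
Nothing lies on the continuations of the sheets after the split.
-/

open Set Filter Topology Metric

noncomputable section

namespace Pool.Agent.S6

open Pool.Agent.CF (End Kind)
open Pool.Agent.Lib Pool.Agent.Lib.SH NWIN

namespace ZRD

variable {s : SD} {l : End} {one : Prop} {L h τ a δ : ℝ} {π π' : Type} [Fintype π] {x : π → ℂ}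
  {x' : π' → ℂ} {lm Tw : ℂ → ℂ} {E1 T : ℝ → ℝ} {X K : Set E}

theorem d1_ne {Z : Set ℂ} (n : s.Num) (h : s.Str Z) {z : ℂ} (hz : z ∈ Z) : s.d1 z ≠ 0 := fun e => by
  have := (h z hz).1
  rw [e, norm_zero, mul_zero] at this
  linarith [n.R]

/-- below the height `y2` the wall does not meet the new sheet -/
theorem upper {I : Set ℝ} (n : s.Num) (W : s.Wall l lm Tw E1 T I) (o : s.o ≤ 1 / 100) {z : ℂ}
    (h1 : z ∈ l.ann I) (h2 : z ∈ l.ann (Icc (-(2 * s.t)) (2 * s.t))) (h3 : E1 (l.dep z) = 0)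
    (h4 : l.dep z < s.y2) (h5 : Tw z = T (l.dep z)) (h6 : ‖lm z / s.d1 z - 1‖ ≤ s.o) :
    s.N z ≠ s.e * s.d1 z := fun e => by
  have a1 := d1_ne n W.str h2
  rw [W.eq z h1, h3, h5, Complex.ofReal_zero, zero_mul, zero_add,
    mul_right_inj' (Complex.ofReal_ne_zero.2 n.e.1.ne')] at e
  have a2 : (T (l.dep z) / 2 : ℝ) * (lm z / s.d1 z) +
      (s.S (l.dep z) : ℂ) * (1 - (1 / 2 : ℝ) * (lm z / s.d1 z)) = 1 := by
    push_cast
    field_simp
    linear_combination 2 * e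
  have a3 := congrArg Complex.re a2
  simp only [Complex.add_re, Complex.re_ofReal_mul, Complex.sub_re, Complex.one_re] at a3
  have a4 := n1_re h6
  have a5 := Complex.re_le_norm (lm z / s.d1 z)
  nlinarith [(W.pf.dT.2 (l.dep z)).2.2, W.pf.S1.2.1 _ h4]

theorem nog (r : s.Ring l one L h τ a x δ x' lm Tw E1 T X K) (ha : a < h) {Z : Set ℂ}
    (hOn : ∀ y ∈ near (X \ K) s.w τ, y.1 ∈ l.ann (Icc (-h) h) → s.On Z y) {m : End} {b : ℝ}
    {c : ℂ} (hc : c = 0 ∨ c = 1) (hk : m.k ≠ Kind.pt) (hr : 0 < m.r) (hb : 0 < b)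
    (hZ : ∀ z ∈ m.ann (Icc (-b) 0), z ∈ SD.rz l x L δ h (-a) (-1 / 2) ∧ l.dep z < h ∧ s.d1 z ≠ 0)
    (hN : ∀ z ∈ m.ann (Ico (-b) 0), (z, s.w z + s.N z) ∈ near X s.w s.R →
      (z, s.w z + s.N z) ∈ K → s.N z ≠ c * (s.e * s.d1 z))
    (hE : ∀ z ∈ m.ann {-b}, l.dep z ≤ -a ∨ (c = 1 ∧ z ∉ Z)) :
    ∀ y ∈ X, y ∉ K → y.1 ∈ m.ann (Ioo (-b) 0) → y.2 ≠ s.w y.1 + c * (s.e * s.d1 y.1) := by
  have e0 : (s.e : ℂ) ≠ 0 := Complex.ofReal_ne_zero.2 r.num.e.1.ne'
  have sm : ∀ z ∈ m.ann (Icc (-b) 0), ‖s.w z + c * (s.e * s.d1 z) - s.w z‖ < s.R := fun z hz => by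
    rw [add_sub_cancel_left]
    rcases hc with e | e <;> rw [e]
    · simpa using r.num.R
    · rw [one_mul]; exact (r.sht z (hZ z hz).1).2.1
  have k : ∀ z ∈ m.ann (Ico (-b) 0), (z, s.w z + c * (s.e * s.d1 z)) ∉ K ∩ X := fun z hz d => by
    have a1 := End.ann_mono Ico_subset_Icc_self hz
    have a2 := (r.kd1 _ ⟨d.2, (sm z a1).le⟩ d.1 (hZ z a1).1.1).2
    exact hN z hz (a2 ▸ ⟨d.2, (sm z a1).le⟩) (a2 ▸ d.1) (add_left_cancel a2).symm
  have cw : ∀ z ∈ m.ann (Icc (-b) 0), ContinuousAt s.w z ∧ ContinuousAt s.d1 z := fun z hz =>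
    ⟨(r.cmp z (hZ z hz).1.1).1.continuousAt, (r.sht z (hZ z hz).1).1⟩
  have := st_fin Unit (fun _ => m.setW fun z => s.w z + c * (s.e * s.d1 z)) (fun _ => b) X (K ∩ X)
    {y | y.1 ∈ m.ann (Ioo (-b) 0) → y.2 ≠ s.w y.1 + c * (s.e * s.d1 y.1)} r.std.cX
    (r.std.cK.inter r.std.cX.isClosed) (fun y hy d => r.std.np y hy fun e => d ⟨e, hy⟩)
    (fun _ => ⟨hk, hr, fun z hz => ((cw z hz).1.add (continuousAt_const.mul
      (continuousAt_const.mul (cw z hz).2))).continuousWithinAt⟩)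
    (fun y _ _ => or_iff_not_imp_left.2 fun d => ⟨(),
      (Classical.not_imp.1 d).1, not_not.1 (Classical.not_imp.1 d).2⟩) (fun _ y hy d => ?_)
    fun _ y d => ?_
  · exact fun y hy d => (this hy).resolve_left fun e => d e.1
  · obtain ⟨z, v⟩ := y
    obtain rfl : v = s.w z + c * (s.e * s.d1 z) := d.2
    have a0 : z ∈ m.ann (Ico (-b) 0) := ⟨d.1.1, d.1.2.ge, d.1.2.trans_lt (by linarith)⟩
    have a1 := End.ann_mono Ico_subset_Icc_self a0
    have a2 : _ ∉ K := fun e => k z a0 ⟨e, hy⟩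
    have a3 : z ∈ l.ann (Icc (-h) h) :=
      End.ann_mono (Icc_subset_Icc (by linarith) le_rfl) (hZ z a1).1.1
    have a4 := (sm z a1).le.trans r.num'.2.2.1
    rcases hE z d.1 with e | e
    · exact absurd (r.tube _ ⟨hy, a4⟩ a2 a3).2 (not_lt.2 e)
    · refine (hOn _ ⟨⟨hy, a2⟩, a4⟩ a3).elim (fun g => ?_) fun g => e.2 g.1
      rw [e.1, one_mul] at g
      exact mul_ne_zero e0 (hZ z a1).2.2 (add_eq_left.1 g)
  obtain ⟨z, v⟩ := y
  obtain rfl : v = s.w z + c * (s.e * s.d1 z) := d.2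
  have a1 := End.ann_mono Ioo_subset_Icc_self d.1
  refine ⟨k z (End.ann_mono Ioo_subset_Ico_self d.1), ?_⟩
  have c1 : ContinuousAt (fun y : E => y.2 - s.w y.1) (z, s.w z + c * (s.e * s.d1 z)) :=
    continuousAt_snd.sub ((cw z a1).1.comp continuousAt_fst)
  have c2 : ContinuousAt (fun y : E => y.2 - s.w y.1 - (1 - c) * (s.e * s.d1 y.1))
      (z, s.w z + c * (s.e * s.d1 z)) := c1.sub (continuousAt_const.mul
        (continuousAt_const.mul ((cw z a1).2.comp continuousAt_fst)))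
  filter_upwards [c1.norm.eventually (Iio_mem_nhds (sm z a1)), c2.eventually_ne (y := 0) (by
      have := mul_ne_zero e0 (hZ z a1).2.2
      rcases hc with e | e <;> simpa [e] using this), continuousAt_fst.eventually
    ((End.isOpen_ann r.wall.lk.2.1 (isOpen_Ioo (a := -h) (b := h))).mem_nhds
      ⟨(hZ z a1).1.1.1, by linarith [(hZ z a1).1.1.2.1], (hZ z a1).2.1⟩)] with u b1 b2 b3 b4 b5
  have := hOn u ⟨⟨b4, fun e => b5 ⟨e, b4⟩⟩, (le_of_lt b1).trans r.num'.2.2.1⟩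
    (End.ann_mono Ioo_subset_Icc_self b3)
  change u.2 = s.w u.1 + c * (s.e * s.d1 u.1)
  rcases hc with e | e <;> rcases this with g | g
  · rw [g, e, zero_mul, add_zero]
  · exact absurd (by rw [g.2, e]; ring) b2
  · exact absurd (by rw [g, e]; ring) b2
  · rw [g.2, e, one_mul]

end ZRD

open ZRD in
theorem st_zrd : St_ZRD := by
  classical
  intro s l one L h τ a π π' _ x δ ρ x' lm Tw E1 T X K o hL hs d1 r1 h1 r hOn y hy hz
  obtain ⟨hk, hr, -, ew⟩ := r.wall.lk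
  obtain ⟨a0, a1, a2, d0, a3⟩ := r.num'
  obtain ⟨y0, y1, t0, t1⟩ := r.num.y2
  have y2 := r.wall.pf.num.2.1
  have t2 : s.t ≤ δ / 100 := by nlinarith
  have ha : a < h := by linarith
  have e0 : (s.e : ℂ) ≠ 0 := Complex.ofReal_ne_zero.2 r.num.e.1.ne'
  have on : π → one := fun k => by_contra fun c => (r.out.2 c).1.elim k
  have g : ∀ k, Gm l (x k) L δ ρ := fun k =>
    ⟨(r.out.1 (on k)).1, hr, hs.1 (Sum.inl k), hL, d0, d1, by linarith⟩
  have pd : ∀ k z, ‖z - hq l (x k) δ 0‖ ≤ rp l L δ * Real.exp 1 → ∃ ζ, ph l (x k) δ ζ = z ∧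
      ‖ζ - Complex.I‖ ≤ 1 / 4 ∧ z ≠ l.c ∧ 3 / 4 * δ ≤ l.dep z ∧ l.dep z ≤ 2 * δ := fun k z b => by
    obtain ⟨ζ, rfl, c⟩ := (g k).surj (by norm_num) (mem_closedBall_iff_norm.2 b)
    obtain ⟨-, c1, c2⟩ := Gm.near_I c
    exact ⟨ζ, rfl, c, ((g k).dep ζ).1, by rw [((g k).dep ζ).2]; nlinarith,
      by rw [((g k).dep ζ).2]; nlinarith⟩
  have pe : ∀ k (z : ℂ) (u : ℝ), u ≤ 1 → ‖z - hq l (x k) δ 0‖ ≤ rp l L δ * Real.exp u →
      ‖z - hq l (x k) δ 0‖ ≤ rp l L δ * Real.exp 1 := fun k z u b c =>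
    c.trans (mul_le_mul_of_nonneg_left (Real.exp_le_exp.2 b) (g k).rp_pos.le)
  have st : ∀ z ∈ l.ann (Icc (-a) s.y2), z ∈ l.ann (Icc (-(2 * s.t)) (2 * s.t)) ∧
      z ∈ SD.rz l x L δ h (-a) (-1 / 2) ∧ l.dep z < h ∧ s.d1 z ≠ 0 := fun z b => by
    have c : z ∈ l.ann (Icc (-(2 * s.t)) (2 * s.t)) :=
      End.ann_mono (Icc_subset_Icc (by linarith) (by linarith)) b
    refine ⟨c, ⟨End.ann_mono (Icc_subset_Icc le_rfl (by linarith)) b, fun k => not_lt.1 fun e => ?_⟩,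
      by linarith [b.2.2], d1_ne r.num r.wall.str c⟩
    obtain ⟨_, -, -, -, f, -⟩ := pd k z (pe k z _ (by norm_num) e.le)
    linarith [b.2.2]
  have lo : ∀ z ∈ l.ann (Icc (-a) s.y2), (z, s.w z + s.N z) ∈ near X s.w s.R →
      (z, s.w z + s.N z) ∈ K → (one → 0 ≤ l.dep z) ∧ (l.dep z < 0 → ∃ c < (0 : ℝ),
        s.N z = c * s.d0 z) := fun z b c d => by
    have f : one → 0 ≤ l.dep z := fun e => by
      rcases (r.kd1 _ c d (st z b).2.1.1).1 with f | ⟨k, f⟩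
      · simpa only [if_pos e] using f.2.1
      · obtain ⟨_, -, -, -, f, -⟩ := pd k z (pe k z _ (by linarith) (mem_closedBall_iff_norm.1 f))
        linarith
    refine ⟨f, fun e => ?_⟩
    have n : ¬ one := fun n => not_lt.2 (f n) e
    obtain ⟨-, n1, n2⟩ := r.out.2 n
    have m := (st z b).1
    have n3 := n2 _ ⟨m.2.1, e⟩
    have m' := m
    rw [← if_neg n (t := (0 : ℝ)) (e := -(2 * s.t))] at m'
    refine ⟨_, n3, ?_⟩
    rw [r.wall.eq z m', (r.pure z m' fun k => n1.elim k).1, (r.wall.pf.neg _ ⟨m.2.1, e.le⟩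
      ).resolve_left n3.ne, r.wall.pf.S0 _ (by linarith)]
    simp
  have uu : ∀ z ∈ l.ann (Icc (-a) s.y2), 1 - s.o ≤ (s.d0 z / s.d1 z).re ∧
      ‖s.d0 z / s.d1 z‖ ≤ 1 + s.o := fun z b => n1_re (r.wall.str z (st z b).1).2.2.2.2.1
  obtain ⟨u1, u2⟩ := r.tube y ⟨hy.1.1, hy.2⟩ hy.1.2 hz
  rcases hOn y hy hz with b | b
  · refine Or.inl ⟨b, (End.side_iff hk hr hz.1).2 (not_lt.1 fun c => ?_)⟩
    refine nog r ha hOn (Or.inl rfl) hk hr a0 (fun z f => (st z (End.ann_mono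
      (Icc_subset_Icc le_rfl y0.le) f)).2) (fun z f p q e => ?_) (fun z f => Or.inl f.2.le) y
      hy.1.1 hy.1.2 ⟨hz.1, u2, c⟩ (by rw [b, zero_mul, add_zero])
    have m : z ∈ l.ann (Icc (-a) s.y2) := ⟨f.1, f.2.1, by linarith [f.2.2]⟩
    obtain ⟨c, c1, c2⟩ := (lo z m p q).2 f.2.2
    rw [c2, zero_mul, mul_eq_zero, or_iff_right (Complex.ofReal_ne_zero.2 c1.ne)] at e
    have := (uu z m).1
    rw [e, zero_div, Complex.zero_re] at this
    linarith
  refine Or.inr ⟨⟨⟨hz.1, not_lt.1 fun c => ?_, hz.2.2⟩, fun k => not_lt.1 fun c => ?_⟩, b.2⟩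
  · have mv : ∀ z I, z ∈ (l.move s.y2).ann I ↔ z ≠ l.c ∧ l.dep z - s.y2 ∈ I := fun z I =>
      and_congr_right fun e => by rw [End.dep_move hr _ e]
    refine nog r ha hOn (m := l.move s.y2) (b := a + s.y2) (Or.inr rfl) hk (End.rad_pos hr _)
      (by linarith) (fun z f => ?_) (fun z f p q e => ?_) (fun z f => Or.inl ?_) y hy.1.1 hy.1.2
      ((mv _ _).2 ⟨hz.1, by linarith, by linarith⟩) (by rw [b.2, one_mul])
    · obtain ⟨f1, f2, f3⟩ := (mv _ _).1 f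
      exact (st z ⟨f1, by linarith, by linarith⟩).2
    · obtain ⟨f1, f2, f3⟩ := (mv _ _).1 f
      have m : z ∈ l.ann (Icc (-a) s.y2) := ⟨f1, by linarith, by linarith⟩
      obtain ⟨m1, -, -, m2⟩ := st z m
      obtain ⟨v1, v2⟩ := uu z m
      rw [one_mul] at e
      rcases lt_or_ge (l.dep z) 0 with c | c
      · obtain ⟨c, c1, c2⟩ := (lo z m p q).2 c
        have : (c : ℂ) * (s.d0 z / s.d1 z) = s.e := by
          rw [← mul_div_assoc, ← c2, e, mul_div_cancel_right₀ _ m2]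
        have := congrArg Complex.re this
        rw [Complex.re_ofReal_mul, Complex.ofReal_re] at this
        nlinarith [r.num.e.1]
      have m3 : z ∈ l.ann (Icc (if one then 0 else -(2 * s.t)) (2 * s.t)) :=
        ⟨f1, by split_ifs; exacts [c, m1.2.1], m1.2.2⟩
      have m4 := r.wall.pf.e0 _ ⟨c, by linarith⟩
      rcases le_total (l.dep z) (s.y2 / 4) with d | d
      · rw [r.wall.eq z m3, m4, r.wall.pf.S0 _ d, Complex.ofReal_zero, zero_mul, zero_mul, zero_add,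
          add_zero, mul_right_inj' e0] at e
        have w1 := r.lowb z ⟨f1, c, d⟩
        rw [show Tw z * lm z = 2 * s.d1 z by rw [← e]; ring, norm_mul, Complex.norm_two] at w1
        rw [norm_div, div_le_iff₀ (norm_pos_iff.2 m2)] at v2
        nlinarith [norm_pos_iff.2 m2]
      · obtain ⟨w1, w2⟩ := r.pure z m3 fun k => by
          have n : l.k = Kind.out := (r.out.1 (by_contra fun c => (r.out.2 c).2.1.elim k)).1
          obtain ⟨v, v0, rfl⟩ := ENDS.ech_surj (y := (z, 0)) hr f1 |>.imp fun v b =>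
            (⟨b.1, congrArg Prod.fst b.2⟩ : (v : E).1 ≠ 0 ∧ ech l v.1 = z)
          rw [(ENDS.ech_ne hr v0).2] at c d f3
          have := W3LU.dp_half v0 c (by unfold W3LU.dp; linarith) (hs.1 (Sum.inr k))
          rw [ech, if_pos n, add_sub_add_left_eq_sub, ← mul_sub, norm_mul, Complex.norm_real,
            Real.norm_of_nonneg hr.le, mul_comm]
          exact mul_le_mul_of_nonneg_left (le_trans (by unfold W3LU.dp; linarith) this) hr.le
        exact upper r.num r.wall o m3 m1 m4 (by linarith) w1 w2.2.1 e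
    · linarith [show _ = _ from ((mv _ _).1 f).2]
  obtain ⟨F1, F, W, w1, -⟩ := r.port k
  have p0 := (g k).rp_pos
  set q := s.pe (hq l (x k) δ 0) (2 * l.r * δ * Real.exp (-δ - L)) with hq'
  have mv : ∀ z I, z ∈ (q.move s.y2).ann I ↔ z ≠ q.c ∧ q.dep z - s.y2 ∈ I := fun z I =>
    and_congr_right fun e => by rw [End.dep_move (e := q) p0 _ e]
  have nr : ∀ z, z ≠ q.c → ‖z - hq l (x k) δ 0‖ = rp l L δ * Real.exp (q.dep z) := fun z e =>
    (End.norm_eq_rad (e := q) p0 e).trans (by simp [End.rad, End.sgn, q, SD.pe, rp])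
  have pa : ∀ z, z ≠ q.c → -1 / 2 ≤ q.dep z → q.dep z ≤ s.y2 →
      z ∈ SD.rz l x L δ h (-a) (-1 / 2) ∧ l.dep z < h ∧ s.d0 z ≠ 0 ∧ ∀ ν : ℂ, ‖ν‖ ≤ s.R →
        ‖s.V (z, s.w z + ν)‖ ≤ 11 / 10 * ‖ν / s.d0 z‖ := fun z f1 f2 f3 => by
    obtain ⟨ζ, rfl, v1, v2, v3, v4⟩ := pd k z (pe k z _ (by linarith) (nr z f1).le)
    have v5 : ‖ζ‖ ≤ ρ / (2 * δ) := (Gm.near_I v1).1.trans (le_trans (by norm_num) (g k).big)
    have v6 : ∀ j ζ', j ≠ k → ‖ζ'‖ ≤ 3 → ph l (x k) δ ζ ≠ ph l (x j) δ ζ' := fun j ζ' e =>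
      (g k).sep (g j) (hs.2 (Sum.inl k) (Sum.inl j) fun b => e (Sum.inl_injective b).symm) v5
    have m : ph l (x k) δ ζ ∈ l.ann (Icc (-a) h) := ⟨v2, by linarith, by linarith⟩
    obtain ⟨m0, hm⟩ := r.pole
    obtain ⟨-, m1, m2⟩ := hm _ m
    refine ⟨⟨m, fun j => ?_⟩, by linarith, fun e => absurd (inv_eq_zero.2 e) ?_, fun ν hν => ?_⟩
    · by_cases e : j = k
      · rw [e, nr _ f1]
        exact mul_le_mul_of_nonneg_left (Real.exp_le_exp.2 f2) p0.le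
      · refine not_lt.1 fun b => ?_
        obtain ⟨ζ', c1, c2, -⟩ := pd j _ (pe j _ _ (by norm_num) b.le)
        exact v6 j ζ' e (Gm.near_I c2).1 c1.symm
    · rw [m2.self_of_nhds]
      refine mul_ne_zero m1 (Finset.prod_ne_zero_iff.2 fun j _ => div_ne_zero (sub_ne_zero.2 ?_)
        (sub_ne_zero.2 ?_))
      · by_cases e : j = k
        · rw [e]; exact f1
        · rw [← (g j).phI]; exact v6 j _ e (by simp)
      · rw [← (g j).phz]
        by_cases e : j = k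
        · rw [e]
          intro b
          have := (Complex.abs_re_le_norm _).trans v1
          rw [(g k).inj v5 norm_z0 b] at this
          norm_num [z0] at this
        · exact v6 j _ e norm_z0
    · obtain ⟨-, c1, c2⟩ := (r.cmp _ m).2 ν hν
      rw [c2.self_of_nhds, norm_mul, add_sub_cancel_left, mul_comm]
      exact mul_le_mul_of_nonneg_right (by linarith [(n1_re c1).2]) (norm_nonneg _)
  have pv : ∀ z, z ≠ q.c → -1 / 2 ≤ q.dep z → q.dep z ≤ s.y2 →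
      s.e ≤ 11 / 10 * ‖s.e * s.d1 z / s.d0 z‖ := fun z f1 f2 f3 => by
    obtain ⟨c1, -, c2, c3⟩ := pa z f1 f2 f3
    have := c3 _ (r.sht z c1).2.1.le
    rwa [(r.sht z c1).2.2.1 c2, Complex.norm_real, Real.norm_of_nonneg r.num.e.1.le] at this
  have b0 : y.1 ≠ q.c := fun e => by
    have := b.1.2 k
    rw [show y.1 = hq l (x k) δ 0 from e, sub_self, norm_zero] at this
    exact absurd this (not_le.2 (mul_pos p0 (Real.exp_pos _)))
  have b1 := b.1.2 k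
  rw [nr _ b0] at c b1
  have b2 := Real.exp_lt_exp.1 (lt_of_mul_lt_mul_left c p0.le)
  have b3 := Real.exp_le_exp.1 (le_of_mul_le_mul_left b1 p0)
  refine nog r ha hOn (m := q.move s.y2) (b := s.y2 + 1 / 2) (Or.inr rfl) W.lk.1 (End.rad_pos p0 _)
    (by linarith) (fun z f => ?_) (fun z f _ _ e => ?_) (fun z f => Or.inr ⟨rfl, fun e => ?_⟩) y
    hy.1.1 hy.1.2 ((mv _ _).2 ⟨b0, by linarith, by linarith⟩) (by rw [b.2, one_mul])
  · obtain ⟨f1, f2, f3⟩ := (mv _ _).1 f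
    obtain ⟨c1, c2, -⟩ := pa z f1 (by linarith) (by linarith)
    refine ⟨c1, c2, fun e => ?_⟩
    have := pv z f1 (by linarith) (by linarith)
    rw [e, mul_zero, zero_div, norm_zero] at this
    linarith [r.num.e.1]
  · obtain ⟨f1, f2, f3⟩ := (mv _ _).1 f
    have m3 : z ∈ q.ann (Iic (2 * s.t)) := ⟨f1, mem_Iic.2 (by linarith)⟩
    have m4 : F1 (q.dep z) = 0 := (le_total (q.dep z) 0).elim (w1 _) fun c =>
      W.pf.e0 _ ⟨c, by linarith⟩
    rw [one_mul] at e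
    rcases le_total (q.dep z) (s.y2 / 4) with d | d
    · have c1 := pv z f1 (by linarith) (by linarith)
      have c2 := W.pf.dT.2 (q.dep z)
      rw [← e, W.eq z m3, m4, W.pf.S0 _ d, Complex.ofReal_zero, zero_mul, zero_mul, zero_add,
        add_zero, mul_div_assoc, mul_div_cancel_right₀ _
          (pa z f1 (by linarith) (by linarith)).2.2.1, norm_mul, norm_div, Complex.norm_two,
        Complex.norm_real, Complex.norm_real, Real.norm_of_nonneg r.num.e.1.le,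
        Real.norm_of_nonneg c2.2.1] at c1
      nlinarith [r.num.e.1, c2.2.2]
    · have m1 : z ∈ q.ann (Icc (-(2 * s.t)) (2 * s.t)) := ⟨f1, by linarith, m3.2⟩
      exact upper r.num W o m3 m1 m4 (by linarith) rfl (W.str z m1).2.2.2.2.1 e
  · obtain ⟨f1, f2⟩ := (mv _ _).1 f
    have := e.2 k
    rw [nr _ f1] at this
    linarith [Real.exp_le_exp.1 (le_of_mul_le_mul_left this p0), show _ = _ from f2]

end Pool.Agent.S6
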