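import Pool.Agent.Lib.S6.BirWall
import Pool.Agent.Lib.S6.Upd
import Pool.Agent.Lib.S6.Hp

/-!
The old wall at the hub, and statements of the local parts of the birth step.
-/

open Set Filter Topology Metric
open scoped ContDiff

noncomputable section

namespace Pool.Agent.S6.Birth

open Pool.Agent.CF (End Kind Cv)
open Pool.Agent.Lib

/-- the old wall `f` at the hub -/
structure OW (A : Cv) (Ef : ℝ → ℝ) (f : ℂ → ℂ) (t : ℝ) : Prop where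
  hk : A.hub.k = Kind.out
  hR : 0 < A.R
  ht : 0 < t ∧ t ≤ 1 / 8
  sm : ContDiff ℝ ∞ f
  sE : ContDiff ℝ ∞ Ef
  E0 : ∀ s ≤ 0, Ef s = 0
  Ep : ∀ s, 0 < s → s ≤ 4 * t → 0 < Ef s ∧ 0 < deriv Ef s
  st : Stp Ef (Icc (-(2 * t)) (2 * t)) (t / 4)
  lam : ∀ z ∈ A.hub.ann (Icc (-t) (4 * t)), AnalyticAt ℂ (A.lam A.H) z ∧ A.lam A.H z ≠ 0
  w : AnalyticOnNhd ℂ A.hub.w (A.hub.ann (Icc 0 (4 * t)))
  ex : ∀ z ∈ A.hub.ann (Icc 0 (4 * t)), f z = A.hub.w z + (Ef (A.hub.dep z) : ℂ) * A.lam A.H z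

open Classical in
/-- the new profiles -/
def nEf (A : Cv) (π : Type) (Ef0 : A.ι → ℝ → ℝ) (L δ τ : ℝ) (G : ℝ → ℝ) : A.ι ⊕ π → ℝ → ℝ :=
  Sum.elim (fun j => if j = A.H then fun s => τ * G (s / δ) else Ef0 j) fun _ s => τ * G (s / L)

/-- the new ends -/
def St_BENDS : Prop := ∀ (ab : Ab) (I π : Type) [Fintype π] (A B : Cv) (x : π → ℂ) (Ef : ℝ → ℝ)
  (f : ℂ → ℂ) (t δ y1 τ : ℝ) (G : ℝ → ℝ) (D0 : π → ℂ → ℝ) (Bw M : ℂ → ℂ), ab.OK → OW A Ef f t →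
  HW ab A x Ef t δ y1 τ G D0 Bw M → HP.Wins A B x δ →
  ∃ hz' > (0 : ℝ), hz' ≤ t ∧ ∀ (cp : A.ι → I) (pr : A.ι → ℝ) (F' : I → ℂ → ℂ) (Ef0 : A.ι → ℝ → ℝ),
    (∀ z, F' (cp A.H) z = f z + M z) →
    EndW F' hz' (born A π x δ) B (Wd.born A cp pr π ab.L δ (nEf A π Ef0 ab.L δ τ G))
      (Sum.inl A.H) ∧
    (∀ k, EndW F' hz' (born A π x δ) B (Wd.born A cp pr π ab.L δ (nEf A π Ef0 ab.L δ τ G))
      (Sum.inr k)) ∧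
    ∀ k, ∀ z ∈ closedBall (hp A (x k) δ 0) (bpr A ab.L δ * Real.exp hz'),
      z ∈ A.hub.ann (Ioc hz' t) ∧
        ∀ k', k' ≠ k → z ∉ closedBall (hp A (x k') δ 0) (bpr A ab.L δ * Real.exp hz')

/-- the outer part of the support -/
def St_BOUT : Prop := ∀ (A : Cv) (Ef : ℝ → ℝ) (f : ℂ → ℂ) (t : ℝ), OW A Ef f t →
  ∃ ε > (0 : ℝ), ∀ M : ℂ → ℂ, SH.Small 1 ε M → ∀ z ∈ A.hub.ann (Icc (2 * t) (3 * t)),
    f z + M z ≠ A.hub.w z ∧ SH.dbar (fun z => f z + M z) z ≠ 0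

/-- the inner part of the support, and the saddles -/
def St_BIN : Prop := ∀ (ab : Ab) (π : Type) [Fintype π] (A : Cv) (x : π → ℂ) (Ef : ℝ → ℝ)
  (f : ℂ → ℂ) (t δ y1 τ : ℝ) (G : ℝ → ℝ) (D0 : π → ℂ → ℝ) (Bw M : ℂ → ℂ), ab.OK → OW A Ef f t →
  HW ab A x Ef t δ y1 τ G D0 Bw M →
  (∀ z ∈ A.hub.ann (Ioo 0 (5 * t / 2)),
    (∀ k, z ∉ closedBall (hp A (x k) δ 0) (bpr A ab.L δ)) → f z + M z ≠ A.hub.w z ∧
      (SH.dbar (fun z => f z + M z) z ≠ 0 ∨ ∃ k, z = A.c + A.R * SH.ws (x k) δ ab.L)) ∧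
  ∀ k z, z = A.c + A.R * SH.ws (x k) δ ab.L → z ∈ A.hub.ann (Ioo 0 t) ∧ f z + M z ≠ A.hub.w z ∧
    ∀ S : Set E, (∀ᶠ y in 𝓝 ((z, f z + M z) : E), y ∈ S ↔ y.2 = f y.1 + M y.1) →
      SH.LB2 S (z, f z + M z)

end Pool.Agent.S6.Birth
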