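import Pool.Agent.Lib.S6.BirCtx
import Pool.Agent.Lib.S6.Desc
import Pool.Agent.Lib.SH.All1

/-!
The description of the new surface at the hub in the birth step.
-/

open Set Filter Topology Metric
open scoped ContDiff

noncomputable section

namespace Pool.Agent.S6.Birth

open Pool.Agent.CF (End Kind Cv)
open Pool.Agent.Lib FitNew

/-- no points of the hull on the outer side of a one-sided wall -/
theorem up_tube {X K : Set E} {l : End} {h a R τ : ℝ} (st : Std X K) (hk : l.k ≠ Kind.pt)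
    (hr : 0 < l.r) (ha : 0 < a) (hah : a ≤ h) (hR : R ≤ τ)
    (hw : ∀ z ∈ l.ann (Icc (-h) h), ContinuousAt l.w z)
    (tb : ∀ y ∈ X, y ∉ K → y.1 ∈ l.ann (Icc (-h) h) → ‖y.2 - l.w y.1‖ ≤ τ →
      ‖y.2 - l.w y.1‖ < R ∧ -a < l.dep y.1)
    (hK : ∀ y ∈ K, y.1 ∈ l.ann (Icc (-a) h) → ‖y.2 - l.w y.1‖ ≤ R → 0 ≤ l.dep y.1) :
    ∀ y ∈ X, y ∉ K → y.1 ∈ l.ann (Icc (-h) h) → ‖y.2 - l.w y.1‖ ≤ τ → 0 ≤ l.dep y.1 := by
  have sub : l.ann (Icc (-a) a) ⊆ l.ann (Icc (-h) h) :=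
    End.ann_mono (Icc_subset_Icc (by linarith) hah)
  have cw : ∀ y : E, y.1 ∈ l.ann (Icc (-a) a) → ContinuousAt (fun y : E => ‖y.2 - l.w y.1‖) y :=
    fun y c => (continuousAt_snd.sub ((hw _ (sub c)).comp continuousAt_fst)).norm
  have cl : IsClosed {y : E | y ∈ Prod.fst ⁻¹' l.ann (Icc (-a) a) ∧ ‖y.2 - l.w y.1‖ ≤ R} :=
    ((End.isCompact_ann hr isCompact_Icc).isClosed.preimage continuous_fst).isClosed_le
      (fun y c => (cw y c).continuousWithinAt) continuousOn_const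
  have key := SH.all_up
    (X ∩ {y : E | y ∈ Prod.fst ⁻¹' l.ann (Icc (-a) a) ∧ ‖y.2 - l.w y.1‖ ≤ R})
    (K ∪ {y | a ≤ l.dep y.1}) l a 0 hk hr ha ⟨?_, fun _ c => c.1, fun y c n p => ?_⟩ (by linarith)
    ha.le fun y c => ?_
  · intro y y1 y2 y3 y4
    obtain ⟨c1, c2⟩ := tb y y1 y2 y3 y4
    by_contra n
    have m : y.1 ∈ l.ann (Icc (-a) a) := ⟨y3.1, c2.le, by linarith⟩
    exact n (key y ⟨⟨y1, m, c1.le⟩, m⟩)
  · exact (st.cX.inter_right cl).inter_right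
      ((End.isCompact_ann hr isCompact_Icc).isClosed.preimage continuous_fst)
  · rw [mem_union, not_or] at n
    obtain ⟨c1, c2⟩ := tb y c.1.1 n.1 (sub c.2) (c.1.2.2.trans hR)
    obtain ⟨g, g1, g2⟩ := p
    refine st.np y c.1.1 n.1 ⟨g, g1, ?_⟩
    filter_upwards [g2, (cw y c.2).eventually (eventually_lt_nhds c1),
      continuousAt_fst.eventually ((End.isOpen_ann hr isOpen_Ioo).mem_nhds
        (⟨c.2.1, c2, not_le.1 n.2⟩ : y.1 ∈ l.ann (Ioo (-a) a)))] with v v1 v2 v3 v4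
    exact v1 ⟨v4, End.ann_mono Ioo_subset_Icc_self v3, v2.le⟩
  · have k : y ∈ K → 0 ≤ l.dep y.1 := fun k =>
      hK y k (End.ann_mono (Icc_subset_Icc_right hah) c.2) c.1.2.2
    refine ⟨fun m => m.elim k fun m => ha.le.trans m, ?_⟩
    by_cases m : y ∈ K
    · linarith [k m]
    · exact (tb y c.1.1 m (sub c.2) (c.1.2.2.trans hR)).2

variable {π : Type} [Fintype π] {ab : Ab} {A : Cv} {x : π → ℂ} {Ef : ℝ → ℝ} {f : ℂ → ℂ}
  {t δ y1 τ' : ℝ} {G : ℝ → ℝ} {D0 : π → ℂ → ℝ} {Bw M : ℂ → ℂ}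

theorem HW.d0 (h : HW ab A x Ef t δ y1 τ' G D0 Bw M) : 0 < δ := h.bw.num.2.2.2.2.1

theorem HW.d1 (h : HW ab A x Ef t δ y1 τ' G D0 Bw M) : 64 * δ ≤ y1 := by
  nlinarith [h.num.2.2.2, h.bw.num.1, h.d0]

theorem HW.sep (h : HW ab A x Ef t δ y1 τ' G D0 Bw M) {k : π} {v : ℂ}
    (hv : ‖v - x k‖ ≤ 2 * ab.M8 * δ) (k' : π) (n : k' ≠ k) : 2 * ab.M8 * δ ≤ ‖v - x k'‖ := by
  have a := h.bw.sep k' k n
  have b := norm_sub_le_norm_sub_add_norm_sub (x k') v (x k)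
  rw [norm_sub_rev (x k') v] at b
  nlinarith [h.bw.num.1, h.d0]

/-- the wall in a window -/
theorem HW.win (h : HW ab A x Ef t δ y1 τ' G D0 Bw M) (k : π) {ζ : ℂ} (h1 : ‖ζ‖ < ab.M8)
    (h2 : 0 ≤ ζ.im) (h3 : ζ ≠ Complex.I) :
    Bw (SH.wch (x k) δ 0 ζ) = SH.BZ1.zf ab.L (D0 k) G ab.th ζ := by
  have d0 := h.d0
  have a : δ * ‖ζ‖ ≤ ab.M8 * δ := by nlinarith
  have b : δ * ‖ζ‖ ≤ 1 / 8 := by linarith [h.bw.num.2.2.2.2.2]
  refine h.bz.win k ζ b (h.sep ?_) h2 h3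
  have := (SH.BZ1.dist0 (h.bw.unit k) d0 b).2
  nlinarith [h.bw.num.1]

/-- the wall off the windows -/
theorem HW.far (h : HW ab A x Ef t δ y1 τ' G D0 Bw M) {v : ℂ} (h0 : v ≠ 0)
    (h1 : 0 ≤ -Real.log ‖v‖) (h2 : ∀ k ζ, ‖ζ‖ < ab.M8 → v ≠ SH.wch (x k) δ 0 ζ) :
    Bw v = G (-Real.log ‖v‖ / δ) := by
  obtain ⟨n1, n2, n3, n4, d0, n6⟩ := h.bw.num
  by_cases c : ∀ k, 2 * ab.M8 * δ ≤ ‖v - x k‖
  · exact h.bz.pure v h0 (Or.inl c)
  obtain ⟨k, c⟩ := not_forall.1 c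
  obtain ⟨ζ, rfl, e⟩ := SH.Win.wch_surj (yr := 0) (SH.Win.ne0 (h.bw.unit k)) d0 0 (z := v) (by
    rw [SH.BZ1.wch0, h.bw.unit k]; linarith)
  rw [sub_zero] at e
  have m : ab.M8 ≤ ‖ζ‖ := le_of_not_gt fun m => h2 k ζ m rfl
  have i := SH.BZ1.dep (h.bw.unit k) d0 ζ
  have i0 : 0 ≤ ζ.im := i ▸ div_nonneg h1 d0.le
  rw [i, ← SH.BZ1.far (G := G) (th := ab.th) (h.bw.shape k) n1 n3 n4 (by linarith) (Or.inl m)]
  exact h.bz.win k ζ e (h.sep (not_le.1 c).le) i0 fun e => by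
    rw [e, Complex.norm_I] at m; linarith

theorem HW.cut (o : OW A Ef f t) (h : HW ab A x Ef t δ y1 τ' G D0 Bw M) {s : ℝ} (hs : s ≤ y1 / 2) :
    SH.cutP y1 Ef s = 0 := (SH.st_cutp.1 Ef y1 o.sE h.num.2.1).2.1 s hs

theorem HW.pf0 (o : OW A Ef f t) (h : HW ab A x Ef t δ y1 τ' G D0 Bw M) (k : π) :
    pf A y1 τ' Ef Bw (hp A (x k) δ 0) = 0 := by
  have r : (A.R : ℂ) ≠ 0 := Complex.ofReal_ne_zero.2 o.hR.ne'
  have e : (hp A (x k) δ 0 - A.c) / A.R = SH.wp (x k) δ := by rw [← hp_wp]; field_simp; ring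
  rw [pf, dep_hp A o.hk (h.bw.unit k) o.hR, h.cut o (by linarith [h.d0, h.d1]), e,
    (h.bz.zero (SH.wp (x k) δ) (SH.Win.wch_ne (SH.Win.ne0 (h.bw.unit k)) _)).2 (Or.inr ⟨k, by
      rw [sub_self, norm_zero]; exact (SH.BZ1.wr_pos (SH.Win.ne0 (h.bw.unit k)) h.d0 _).le⟩)]
  simp

/-- the new wall in the new chart -/
theorem HW.chart (o : OW A Ef f t) (h : HW ab A x Ef t δ y1 τ' G D0 Bw M) {z ch : ℂ}
    (hz : z ∈ A.hub.ann (Icc 0 (2 * t))) (one : A.lam A.H z * ch = 1) :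
    (f z + M z - A.hub.w z) * (ch * bB A x δ z) = pf A y1 τ' Ef Bw z := by
  have t0 := o.ht.1
  have e : f z + M z - A.hub.w z = pf A y1 τ' Ef Bw z * (A.lam A.H z / bB A x δ z) := by
    rw [← h.eq z ⟨hz.1, hz.2.1, by linarith [hz.2.2]⟩, o.ex z ⟨hz.1, hz.2.1, by linarith [hz.2.2]⟩]
    ring
  by_cases c : ∃ k, z = hp A (x k) δ 0
  · obtain ⟨k, rfl⟩ := c
    rw [e, h.pf0 o k]; simp
  · have n := bB_ne A x δ (z := z) fun k => ⟨fun a => c ⟨k, a⟩,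
      ne_ref o.hR (h.bw.unit k) h.d0 (le_R o.hk o.hR hz.1 hz.2.1)⟩
    rw [e]
    field_simp
    linear_combination pf A y1 τ' Ef Bw z * one

theorem OW.nn (o : OW A Ef f t) {s : ℝ} (hs : s ∈ Icc (-(2 * t)) (2 * t)) :
    0 ≤ Ef s ∧ 0 ≤ deriv Ef s ∧ Ef s ≤ t / 4 * deriv Ef s := by
  have a := (o.st s hs).2
  have t0 := o.ht.1
  refine ⟨?_, ?_, (le_abs_self _).trans a⟩
  · rcases le_or_gt s 0 with c | c
    · exact (o.E0 s c).ge
    · exact (o.Ep s c (by linarith [hs.2])).1.le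
  · exact nonneg_of_mul_nonneg_right ((abs_nonneg _).trans a) (by positivity)

theorem HW.G0 (h : HW ab A x Ef t δ y1 τ' G D0 Bw M) (s : ℝ) : 0 ≤ G s := by
  rcases le_or_gt s 0 with c | c
  · exact (h.bg.zero s c).ge
  · exact (h.bg.pos s c).le

theorem HW.dG (h : HW ab A x Ef t δ y1 τ' G D0 Bw M) : Differentiable ℝ G :=
  h.bg.smooth.differentiable (by simp)

theorem HW.stp (hab : ab.OK) (h : HW ab A x Ef t δ y1 τ' G D0 Bw M) (S : Set ℝ) :
    Stp (fun s => τ' * G (s / δ)) S (t / 4) := fun s _ => by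
  have d0 := h.d0
  have τ0 := h.num.1
  have e := (((h.dG (s / δ)).hasDerivAt.comp s ((hasDerivAt_id s).div_const δ)).const_mul τ')
  refine ⟨e.differentiableAt, ?_⟩
  have e' : deriv (fun s => τ' * G (s / δ)) s = τ' * (deriv G (s / δ) * (1 / δ)) := e.deriv
  have m := h.bg.mono (s / δ)
  have g : G (s / δ) ≤ deriv G (s / δ) := by
    rcases le_or_gt (s / δ) 0 with c | c
    · rw [h.bg.zero _ c]; exact m
    · refine (h.st.1 _ c).trans (mul_le_of_le_one_left m (hab.num.2.2.2.2.2.2.2.1.trans ?_))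
      rw [div_le_one (by linarith [hab.num.1])]; linarith [hab.num.1]
  have u : 1 ≤ t / 4 * (1 / δ) := by
    rw [mul_one_div, le_div_iff₀ d0]; linarith [h.d1, h.num.2.2.1]
  rw [e', abs_of_nonneg (mul_nonneg τ0.le (h.G0 _))]
  calc τ' * G (s / δ) ≤ τ' * (deriv G (s / δ) * 1) := by rw [mul_one]; gcongr
    _ ≤ τ' * (deriv G (s / δ) * (t / 4 * (1 / δ))) := by gcongr
    _ = _ := by ring

theorem HW.bprof (h : HW ab A x Ef t δ y1 τ' G D0 Bw M) :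
    BProf (fun s => τ' * G s) ab.M8 ab.σ0 := by
  have τ0 := h.num.1
  refine ⟨h.dG.const_mul _, fun s c => by rw [h.bg.zero s c, mul_zero],
    fun s c => mul_pos τ0 (h.bg.pos s c), fun s c _ => ?_⟩
  rw [deriv_const_mul _ (h.dG s), mul_left_comm]
  exact mul_le_mul_of_nonneg_left (h.st.1 s c) τ0.le

theorem HW.disc (hab : ab.OK) (o : OW A Ef f t) (h : HW ab A x Ef t δ y1 τ' G D0 Bw M) (k : π)
    {s : ℝ} (hs : s ≤ 1 / 2) :
    closedBall (hp A (x k) δ 0) (bpr A ab.L δ * Real.exp s) ⊆ A.hub.ann (Icc 0 t) := by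
  have e := dep_hp A o.hk (h.bw.unit k) o.hR δ
  have d0 := h.d0
  have d1 : 64 * δ ≤ t := h.d1.trans h.num.2.2.1
  obtain ⟨b0, b1, -⟩ := HP.bpr_le o.hR d0 (L := ab.L) (by linarith [hab.num.1])
  have a : Real.exp s ≤ 2 := by
    have := Real.exp_le_exp.2 (show s + s ≤ 1 by linarith)
    rw [Real.exp_add] at this
    nlinarith [Real.exp_one_lt_d9, Real.exp_pos s]
  refine DESC.ball_ann o.hk o.hR (HP.hp_ne o.hR (h.bw.unit k) _ _) (by rwa [e])
    (by rw [e]; linarith [o.ht.2]) (by rw [e]; linarith) ?_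
  rw [e]
  show _ ≤ A.R * δ / 2
  nlinarith

open Classical in
theorem thin_born {J : Type} {fd : FD J A.ι} {j : J} (hj : fd.m j = A.H) (pr : A.ι → ℝ) (r : ℝ)
    (ρ β : π → ℝ) {s s' : ℝ}
    (h : ∀ k, closedBall (hp A (x k) δ 0) (r * Real.exp s') ⊆ A.hub.ann (Icc 0 s)) :
    thin (born A π x δ) (Sum.elim pr fun _ => r) (fd.born A π x δ ρ β) j s s' =
      thin A pr fd j s s' := by
  have h1 : (fd.born A π x δ ρ β).win (born A π x δ) j = fd.U.disjSum Finset.univ :=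
    if_pos (congrArg Sum.inl hj)
  have h2 : thin (born A π x δ) (Sum.elim pr fun _ => r) (fd.born A π x δ ρ β) j s s' =
      (A.e (fd.m j)).ann (Icc 0 s) ∪ ⋃ k ∈ fd.U.disjSum Finset.univ,
        closedBall ((born A π x δ).e k).c (Sum.elim pr (fun _ => r) k * Real.exp s') := by
    rw [← h1]
    exact congrArg (fun v => (A.e (fd.m j)).ann (Icc v s) ∪ _) (if_pos (congrArg Sum.inl hj))
  rw [h2, thin, DESC.win_eq hj, if_pos hj, hj]
  ext z
  simp only [mem_union, mem_iUnion]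
  constructor
  · rintro (a | ⟨k | k, a, b⟩)
    · exact Or.inl a
    · exact Or.inr ⟨k, Finset.inl_mem_disjSum.1 a, b⟩
    · exact Or.inl (h k b)
  · rintro (a | ⟨k, a, b⟩)
    · exact Or.inl a
    · exact Or.inr ⟨Sum.inl k, Finset.inl_mem_disjSum.2 a, b⟩

/-- the description at the hub -/
theorem rdesc (hab : ab.OK) (ow : OW A Ef f t) (h : HW ab A x Ef t δ y1 τ' G D0 Bw M) {J : Type}
    {sp : Sp J} {fd : FD J A.ι} {j : J} (hj : fd.m j = A.H) (hl : sp.l j = A.hub)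
    (hH : A.H ∉ fd.U) (hC : 0 ≤ fd.CD) (pr : A.ι → ℝ) (ρ β : π → ℝ) {X K : Set E}
    {τ o a t' R : ℝ} {N : ℂ → ℂ} (ha : 0 < a) (h1 : t ≤ o) (h2 : 0 < t') (h3 : t' ≤ o)
    (h4 : t' ≤ 1 / 4) (h5 : 0 < R) (h6 : R ≤ τ)
    (one : ∀ z ∈ A.hub.ann (Icc 0 (2 * t)), A.lam A.H z * fd.chart A j z = 1)
    (mu : AnalyticOnNhd ℂ (fd.mu j) (A.hub.ann (Icc (-a) sp.h)))
    (mu0 : ∀ z ∈ A.hub.ann (Icc (-a) sp.h), fd.mu j z ≠ 0)
    (hN : ∀ z ∈ A.hub.ann (Icc 0 (2 * t)), N z = f z + M z - A.hub.w z)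
    (pw : ∀ k ∈ fd.U, t ≤ o * A.hub.dep (A.e k).c ∧
      PortW N (A.lam k) (A.e k).c (pr k) (pd ab.L A.hub (A.e k).c) o t' R True)
    (kd : KD K A.hub.w N (A.hub.ann (Icc (-a) sp.h)) (thin A pr fd j t t')
      (thin A pr fd j (2 * t) (2 * t')) R)
    (tb : ∀ y ∈ X, y ∉ K → y ∈ sp.T τ j → ‖y.2 - A.hub.w y.1‖ < R ∧ 0 ≤ A.hub.dep y.1) :
    RDesc ab (born A π x δ) (Sum.elim pr fun _ => bpr A ab.L δ) sp (fd.born A π x δ ρ β) j
      (fd.U.map Function.Embedding.inl) (Finset.univ.map Function.Embedding.inr) X K τ o := by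
  classical
  have d0 := h.d0
  have d1 := h.d1
  obtain ⟨τ0, y0, y2, y3⟩ := h.num
  have t0 := ow.ht.1
  have hR := ow.hR
  have M4 := h.bw.num.1
  have w1 : (fd.born A π x δ ρ β).win (born A π x δ) j = fd.U.disjSum Finset.univ :=
    if_pos (congrArg Sum.inl hj)
  have m1 : (fd.born A π x δ ρ β).m j = (born A π x δ).H := congrArg Sum.inl hj
  have m2 : (fd.born A π x δ ρ β).mu j = fun z => fd.mu j z / ∏ k, (z - hp A (x k) (-δ) 0) :=
    funext fun z => if_pos hj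
  have sub : A.hub.ann (Icc (-min a (δ / 2)) sp.h) ⊆ A.hub.ann (Icc (-a) sp.h) :=
    End.ann_mono (Icc_subset_Icc_left (neg_le_neg (min_le_left _ _)))
  have ref : ∀ z ∈ A.hub.ann (Icc (-min a (δ / 2)) sp.h), ∀ k, z - hp A (x k) (-δ) 0 ≠ 0 :=
    fun z c k e => by
      have := c.2.1
      rw [sub_eq_zero.1 e, dep_hp A ow.hk (h.bw.unit k) hR] at this
      linarith [min_le_right a (δ / 2)]
  have wzE : ∀ k ζ, wz (born A π x δ).hub ((born A π x δ).e (Sum.inr k)).c ζ =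
      A.c + A.R * SH.wch (x k) δ 0 ζ := fun k ζ => by
    show wz A.hub (hp A (x k) δ 0) ζ = _
    rw [wz, hx_hp A (h.bw.unit k) hR, dep_hp A ow.hk (h.bw.unit k) hR]; rfl
  have nc : ∀ z ∈ A.hub.ann (Icc 0 (2 * t)),
      N z * (fd.born A π x δ ρ β).chart (born A π x δ) j z = pf A y1 τ' Ef Bw z := fun z c => by
    rw [hN z c, chart_hub A fd x δ ρ β hj, h.chart ow c (one z c)]
  obtain ⟨c1, c2, -, c4⟩ := SH.st_cutp.1 Ef y1 ow.sE y0
  unfold RDesc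
  rw [hl]
  refine ⟨N, fun i => cond i (SH.cutP y1 Ef) fun s => τ' * G (s / δ), fun _ _ => 1,
    min a (δ / 2), t, t', R, 0, by positivity, (min_le_right _ _).trans (by linarith), h1, h2, h3,
    h5, h6, le_rfl, by linarith, fun y p q r => ⟨(tb y p q r).1, ?_⟩, ?_, ?_, ?_,
    fun _ _ n => (n m1).elim, fun i => ⟨?_, fun y c => ?_, fun z _ =>
      ndir_one _ _ _ _ (mul_nonneg zero_le_two hC) (Eventually.of_forall fun _ => rfl)⟩, fun z c n => ?_, ?_⟩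
  · have : 0 < min a (δ / 2) := by positivity
    linarith [(tb y p q r).2]
  · rw [m2]
    exact fun z c => (mu z (sub c)).div (Finset.analyticAt_fun_prod _ fun _ _ => by fun_prop)
      (Finset.prod_ne_zero_iff.2 fun k _ => ref z c k)
  · rw [m2]
    exact fun z c => div_ne_zero (mu0 z (sub c)) (Finset.prod_ne_zero_iff.2 fun k _ => ref z c k)
  · rw [thin_born hj pr _ ρ β fun k => h.disc hab ow k (by linarith),
      thin_born hj pr _ ρ β fun k => (h.disc hab ow k (by linarith)).trans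
        (End.ann_mono (Icc_subset_Icc_right (by linarith)))]
    exact ⟨fun y p q => kd.1 y p (sub q), kd.2⟩
  · cases i
    · exact h.stp hab _
    · intro y c
      obtain ⟨e1, e2, e3⟩ := ow.nn c
      obtain ⟨g1, -, -, g4, -⟩ := c4 y e1 e2
      refine ⟨c1.differentiable (by simp) y, ?_⟩
      have := g4 1 (t / 4) zero_le_one (by positivity) (by rwa [one_mul])
      rwa [one_mul, ← abs_of_nonneg g1] at this
  · have e0 : y ≤ 0 → (cond i (SH.cutP y1 Ef) fun s => τ' * G (s / δ)) y = 0 := fun e => by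
      cases i
      · exact mul_eq_zero_of_right _ (h.bg.zero _ (div_nonpos_of_nonpos_of_nonneg e d0.le))
      · exact c2 y (by linarith)
    refine ⟨?_, fun _ => e0⟩
    rcases le_total y 0 with e | e
    · exact (mul_eq_zero_of_right _ (e0 e)).ge
    · refine mul_nonneg e ?_
      cases i
      · exact mul_nonneg τ0.le (h.G0 _)
      · exact (c4 y (ow.nn c).1 (ow.nn c).2.1).1
  · replace c : z ∈ A.hub.ann (Icc 0 (2 * t)) := ⟨c.1, (if_pos m1).ge.trans c.2.1, c.2.2⟩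
    rw [nc z c, pf, h.far (nz_ne hR c.1) (by rw [log_nz ow.hk hR c.1]; exact c.2.1) fun k ζ p e =>
      n (Sum.inr k) (w1 ▸ Finset.inr_mem_disjSum.2 (Finset.mem_univ k))
        (Finset.mem_map_of_mem _ (Finset.mem_univ k)) ζ p (by rw [wzE, ← e, back hR]),
      log_nz ow.hk hR c.1]
    simp
  · rintro (k | k) c
    · have kU : k ∈ fd.U := Finset.inl_mem_disjSum.1 (w1 ▸ c)
      refine ⟨fun _ => ⟨(pw k kU).1, (mul_pos t0 one_pos).le.trans ?_, ?_⟩, fun n => ?_⟩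
      · rw [mul_one]; exact (pw k kU).1
      · rw [lam_off A x δ fun e => hH (e ▸ kU)]
        obtain ⟨Eg, u, y, p1, p2, p3⟩ := (pw k kU).2
        exact ⟨Eg, u, y, p1, fun _ => p2 trivial, p3⟩
      · obtain ⟨_, -, e⟩ := Finset.mem_map.1 n
        cases e
    · have e1 : (born A π x δ).hub.dep ((born A π x δ).e (Sum.inr k)).c = δ :=
        dep_hp A ow.hk (h.bw.unit k) hR δ
      have e2 : hx (born A π x δ).hub ((born A π x δ).e (Sum.inr k)).c = x k :=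
        hx_hp A (h.bw.unit k) hR δ
      rw [e1, e2]
      refine ⟨fun n => (n (Finset.mem_map_of_mem _ (Finset.mem_univ k))).elim, fun _ => ⟨by linarith, fun _ _ => rfl, ?_, D0 k,
        fun s => τ' * G s, h.bw.shape k, h.bprof, fun s c => ?_, fun ζ p q r => ?_⟩⟩
      · have m : hp A (x k) δ 0 ∈ A.hub.ann (Icc 0 (2 * t)) :=
          HP.mem_ann ow.hk hR (h.bw.unit k) (mem_Icc.2 ⟨d0.le, by linarith⟩) 0
        show N (hp A (x k) δ 0) = 0
        rw [hN _ m, ow.ex _ ⟨m.1, m.2.1, by linarith [m.2.2]⟩, add_assoc,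
          h.eq _ ⟨m.1, m.2.1, by linarith [m.2.2]⟩, h.pf0 ow k]
        ring
      · simp only [Fintype.sum_bool, cond]
        rw [c2 _ (by nlinarith [c.2]), mul_div_cancel_right₀ _ d0.ne', zero_add]
      · have n0 := SH.Win.wch_ne (δ := δ) (yr := 0) (SH.Win.ne0 (h.bw.unit k)) ζ
        have r0 : (A.R : ℂ) ≠ 0 := Complex.ofReal_ne_zero.2 hR.ne'
        have n1 : A.c + A.R * SH.wch (x k) δ 0 ζ ≠ A.c := by simp [n0, hR.ne']
        have e3 : (A.c + A.R * SH.wch (x k) δ 0 ζ - A.c) / A.R = SH.wch (x k) δ 0 ζ := by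
          field_simp; ring
        have e4 : A.hub.dep (A.c + A.R * SH.wch (x k) δ 0 ζ) = δ * ζ.im := by
          rw [← log_nz ow.hk hR n1, e3, SH.Win.log_wch (h.bw.unit k), add_zero]
        have e5 : δ * ζ.im ≤ y1 / 2 := by
          have := (le_abs_self _).trans (Complex.abs_im_le_norm ζ)
          nlinarith
        rw [wzE, nc _ ⟨n1, by rw [e4]; exact ⟨by positivity, by linarith⟩⟩, pf, e3, e4, c2 _ e5,
          h.win k p q r, SH.BZ1.zf]
        by_cases g : 0 < SH.hgt ab.L (D0 k) ζ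
        · rw [if_pos g, SH.bw, Complex.exp_add, ← Complex.ofReal_exp,
            Real.exp_log (mul_pos τ0 (h.bg.pos _ g))]
          push_cast; ring
        · rw [if_neg g, h.bg.zero _ (not_lt.1 g)]; simp

end Pool.Agent.S6.Birth
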