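import Pool.Agent.Lib.S6.B_FITNEW
import Pool.Agent.Lib.CF.Basic
import Pool.Agent.Lib.SH.B_BZ1
import Pool.Agent.Lib.SH.B_BZ2
import Pool.Agent.Lib.SH.B_PROF2
import Pool.Agent.Lib.SH.B_AMP
import Pool.Agent.Lib.SH.B_CSM

/-!
The new wall at the hub in the birth step.
-/

open Set Filter Topology Metric
open scoped ContDiff

noncomputable section

namespace Pool.Agent.S6.Birth

open Pool.Agent.CF (End Kind Cv)
open Pool.Agent.Lib FitNew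

variable {π : Type} [Fintype π]

/-- the profile of the new wall -/
def pf (A : Cv) (y1 τ : ℝ) (Ef : ℝ → ℝ) (Bw : ℂ → ℂ) (z : ℂ) : ℂ :=
  (SH.cutP y1 Ef (A.hub.dep z) : ℝ) + τ * Bw ((z - A.c) / A.R)

/-- the new wall at the hub; `M` is the modification -/
structure HW (ab : Ab) (A : Cv) (x : π → ℂ) (Ef : ℝ → ℝ) (t δ y1 τ : ℝ) (G : ℝ → ℝ)
    (D0 : π → ℂ → ℝ) (Bw M : ℂ → ℂ) : Prop where
  num : 0 < τ ∧ 0 < y1 ∧ y1 ≤ t ∧ 16 * ab.M8 * δ ≤ y1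
  bw : SH.BW x ab.c0 ab.CD δ ab.L ab.M8 ab.y4 D0
  bg : SH.BG G ab.th ab.M8
  bz : SH.BZ x δ ab.L ab.M8 ab.y4 D0 G ab.th Bw
  st : (∀ s, 0 < s → G s ≤ ab.σ0 * deriv G s) ∧
    ∀ N : ℝ, ∀ᶠ y in 𝓝[>] (0 : ℝ), N * G y ≤ y * deriv G y
  off : ∀ z, z ∉ A.hub.ann (Ioo 0 (3 * t)) → M z = 0
  eq : ∀ z ∈ A.hub.ann (Icc 0 (5 * t / 2)), (Ef (A.hub.dep z) : ℂ) * A.lam A.H z + M z =
    pf A y1 τ Ef Bw z * (A.lam A.H z / bB A x δ z)

theorem hp_wp (A : Cv) (x : ℂ) (δ : ℝ) : A.c + A.R * SH.wp x δ = hp A x δ 0 := by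
  simp only [SH.wp, SH.wch, hp, mul_assoc]
  congr 4
  push_cast
  linear_combination (δ : ℂ) * Complex.I_mul_I

theorem norm_nz {A : Cv} (hk : A.hub.k = Kind.out) (hR : 0 < A.R) {z : ℂ} (hz : z ≠ A.c) :
    ‖(z - A.c) / A.R‖ = Real.exp (-A.hub.dep z) := by
  rw [norm_div, norm_of_dep A hk hR hz, Complex.norm_real, Real.norm_of_nonneg hR.le]
  field_simp

theorem log_nz {A : Cv} (hk : A.hub.k = Kind.out) (hR : 0 < A.R) {z : ℂ} (hz : z ≠ A.c) :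
    -Real.log ‖(z - A.c) / A.R‖ = A.hub.dep z := by
  rw [norm_nz hk hR hz, Real.log_exp, neg_neg]

theorem nz_ne {A : Cv} (hR : 0 < A.R) {z : ℂ} (hz : z ≠ A.c) : (z - A.c) / A.R ≠ 0 :=
  div_ne_zero (sub_ne_zero.2 hz) (Complex.ofReal_ne_zero.2 hR.ne')

theorem back {A : Cv} (hR : 0 < A.R) (z : ℂ) : A.c + A.R * ((z - A.c) / A.R) = z := by
  have : (A.R : ℂ) ≠ 0 := Complex.ofReal_ne_zero.2 hR.ne'
  field_simp; ring

/-- the reflected points lie outside the closed disc -/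
theorem ne_ref {A : Cv} (hR : 0 < A.R) {x : ℂ} (hx : ‖x‖ = 1) {δ : ℝ} (hδ : 0 < δ) {z : ℂ}
    (hz : ‖z - A.c‖ ≤ A.R) : z ≠ hp A x (-δ) 0 := fun e => by
  rw [e, norm_hp A hx hR, neg_neg] at hz
  nlinarith [Real.add_one_lt_exp hδ.ne']

theorem an_bB {A : Cv} (hR : 0 < A.R) {x : π → ℂ} (hx : ∀ k, ‖x k‖ = 1) {δ : ℝ} (hδ : 0 < δ)
    {z : ℂ} (hz : ‖z - A.c‖ ≤ A.R) : AnalyticAt ℂ (bB A x δ) z :=
  Finset.analyticAt_fun_prod _ fun k _ => (analyticAt_id.sub analyticAt_const).div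
    (analyticAt_id.sub analyticAt_const) (sub_ne_zero.2 (ne_ref hR (hx k) hδ hz))

theorem le_R {A : Cv} (hk : A.hub.k = Kind.out) (hR : 0 < A.R) {z : ℂ} (hz : z ≠ A.c)
    (h0 : 0 ≤ A.hub.dep z) : ‖z - A.c‖ ≤ A.R := by
  rw [norm_of_dep A hk hR hz]
  exact mul_le_of_le_one_right hR.le (Real.exp_le_one_iff.2 (by linarith))

theorem sm_an {f : ℂ → ℂ} {z : ℂ} (h : AnalyticAt ℂ f z) : ContDiffAt ℝ ∞ f z :=
  (h.contDiffAt (n := ∞)).restrict_scalars ℝ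

/-- the outer cut-off -/
def chi (t s : ℝ) : ℝ := Real.smoothTransition (6 - 2 * s / t)

theorem chi_smooth (t : ℝ) : ContDiff ℝ ∞ (chi t) :=
  Real.smoothTransition.contDiff.comp (contDiff_const.sub ((contDiff_const.mul contDiff_id).div_const t))

theorem chi_one {t s : ℝ} (ht : 0 < t) (h : s ≤ 5 * t / 2) : chi t s = 1 :=
  Real.smoothTransition.one_of_one_le (by
    have : 2 * s / t ≤ 5 := by rw [div_le_iff₀ ht]; linarith
    linarith)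

theorem chi_zero {t s : ℝ} (ht : 0 < t) (h : 3 * t ≤ s) : chi t s = 0 :=
  Real.smoothTransition.zero_of_nonpos (by
    have : 6 ≤ 2 * s / t := by rw [le_div_iff₀ ht]; linarith
    linarith)

theorem exists_G (ab : Ab) (h : ab.OK) : ∃ G : ℝ → ℝ, SH.BG G ab.th ab.M8 ∧
    (∀ s, 0 < s → G s ≤ ab.σ0 * deriv G s) ∧
    ∀ N : ℝ, ∀ᶠ y in 𝓝[>] (0 : ℝ), N * G y ≤ y * deriv G y := by
  have s0 : 0 < ab.σ0 := h.num.2.2.2.2.2.2.1
  obtain ⟨G, a1, a2, a3, a4⟩ := SH.st_prof2.1 ab.σ0 s0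
  have a5 : ∀ s, 0 < s → 0 < deriv G s := fun s hs =>
    (mul_pos_iff_of_pos_left s0).1 ((a3 s hs).1.trans_le (a3 s hs).2)
  refine ⟨G, ⟨a1, a2, fun s hs => (a3 s hs).1, fun s => ?_, fun s hs _ => a5 s hs, h.th.1,
    h.th.2.2.1, h.th.2.2.2.1⟩, fun s hs => (a3 s hs).2, a4⟩
  rcases lt_or_ge 0 s with hs | hs
  · exact (a5 s hs).le
  · have hm : IsLocalMin G s := Eventually.of_forall fun u => by
      rw [a2 s hs]
      rcases lt_or_ge 0 u with hu | hu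
      · exact (a3 u hu).1.le
      · exact (a2 u hu).ge
    exact hm.deriv_eq_zero.ge

theorem ev_bw (ab : Ab) (h : ab.OK) {x : π → ℂ} (hx : ∀ k, ‖x k‖ = 1)
    (hi : Function.Injective x) : ∀ᶠ δ in 𝓝[>] (0 : ℝ), ∃ D0 : π → ℂ → ℝ,
      SH.BW x ab.c0 ab.CD δ ab.L ab.M8 ab.y4 D0 := by
  obtain ⟨n1, -, -, n4, n5, n6, -⟩ := h.num
  have e0 : ∀ (c b : ℝ), 0 < b → ∀ᶠ δ in 𝓝[>] (0 : ℝ), c * δ ≤ b := fun c b hb =>
    (((continuous_const.mul continuous_id).tendsto' (0 : ℝ) 0 (by simp)).eventually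
      (eventually_le_nhds hb)).filter_mono nhdsWithin_le_nhds
  have e1 : ∀ᶠ δ in 𝓝[>] (0 : ℝ), ∀ k k', k ≠ k' → 8 * ab.M8 * δ ≤ ‖x k - x k'‖ :=
    eventually_all.2 fun k => eventually_all.2 fun k' => by
      by_cases e : k = k'
      · exact Eventually.of_forall fun _ a => absurd e a
      · exact (e0 _ _ (norm_pos_iff.2 (sub_ne_zero.2 fun a => e (hi a)))).mono fun _ a _ => a
  filter_upwards [e1, e0 (64 * ab.M8) 1 one_pos, self_mem_nhdsWithin] with δ a1 a2 a3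
  have d0 : 0 < δ := a3
  choose D0 hD using fun k => h.shape (x k) δ (SH.Win.ne0 (hx k)) d0 (by nlinarith)
  exact ⟨D0, ⟨n4, n5, n6, by linarith, d0, a2⟩, hx, a1, hD⟩

theorem exists_HW (ab : Ab) (h : ab.OK) {A : Cv} (hk : A.hub.k = Kind.out) (hR : 0 < A.R)
    {x : π → ℂ} (hx : ∀ k, ‖x k‖ = 1) (hi : Function.Injective x) {Ef : ℝ → ℝ}
    (hE : ContDiff ℝ ∞ Ef) (hE0 : ∀ s ≤ 0, Ef s = 0) {t : ℝ} (ht : 0 < t)
    (an : AnalyticOnNhd ℂ (A.lam A.H) (A.hub.ann (Icc (-t) (4 * t)))) (k : ℕ) {ε : ℝ}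
    (hε : 0 < ε) : ∀ᶠ δ in 𝓝[>] (0 : ℝ), ∃ (y1 τ : ℝ) (G : ℝ → ℝ) (D0 : π → ℂ → ℝ)
      (Bw M : ℂ → ℂ), HW ab A x Ef t δ y1 τ G D0 Bw M ∧ SH.Small k ε M := by
  have hr : 0 < A.hub.r := hR
  set U := A.hub.ann (Ioo (-t) (4 * t)) with hU
  have oU : IsOpen U := End.isOpen_ann hr isOpen_Ioo
  have sU : U ⊆ A.hub.ann (Icc (-t) (4 * t)) := End.ann_mono Ioo_subset_Icc_self
  have dU : ContDiffOn ℝ ∞ A.hub.dep U := fun z hz =>
    (SH.CSM.dep_smooth A.hub hr hz.1).contDiffWithinAt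
  have lU : ContDiffOn ℝ ∞ (A.lam A.H) U := fun z hz => (sm_an (an z (sU hz))).contDiffWithinAt
  have cU : IsCompact {z | z ∈ U ∧ |A.hub.dep z| ≤ t / 2} := by
    have : {z | z ∈ U ∧ |A.hub.dep z| ≤ t / 2} = A.hub.ann (Icc (-(t / 2)) (t / 2)) := by
      ext z
      exact ⟨fun a => ⟨a.1.1, abs_le.1 a.2⟩, fun a =>
        ⟨⟨a.1, by linarith [a.2.1], by linarith [a.2.2]⟩, abs_le.2 a.2⟩⟩
    rw [this]; exact End.isCompact_ann hr isCompact_Icc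
  obtain ⟨y1, ⟨s1, y2⟩, y0⟩ := (((SH.st_cutp.2 U A.hub.dep (A.lam A.H) Ef (t / 2) oU (by positivity)
    dU lU cU hE hE0 k (ε / 3) (by positivity)).and
    ((eventually_le_nhds ht).filter_mono nhdsWithin_le_nhds)).and self_mem_nhdsWithin).exists
  replace y0 : 0 < y1 := y0
  obtain ⟨c1, c2, c3, -⟩ := SH.st_cutp.1 Ef y1 hE y0
  have cc : ContDiffOn ℝ ∞ (fun z => ((chi t (A.hub.dep z) : ℝ) : ℂ)) U :=
    Complex.ofRealCLM.contDiff.comp_contDiffOn ((chi_smooth t).comp_contDiffOn dU)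
  obtain ⟨C, C0, s2⟩ := SH.st_csm.2.1 U (A.hub.ann (Icc (y1 / 2) (3 * t)))
    (A.hub.ann (Ioo (y1 / 4) (4 * t)))
    (fun z => ((chi t (A.hub.dep z) : ℝ) : ℂ) * ((SH.cutP y1 Ef (A.hub.dep z) : ℝ) : ℂ)) k oU
    (End.isCompact_ann hr isCompact_Icc)
    (End.ann_mono (Icc_subset_Ioo (by linarith) (by linarith))) (End.isOpen_ann hr isOpen_Ioo)
    (End.ann_mono (Icc_subset_Ioo (by linarith) (by linarith)))
    (cc.mul (Complex.ofRealCLM.contDiff.comp_contDiffOn (c1.comp_contDiffOn dU)))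
    (fun z hz hn => by
      rcases le_total (A.hub.dep z) (y1 / 2) with a | a
      · rw [c2 _ a]; simp
      · rw [chi_zero ht (le_of_not_ge fun b => hn ⟨hz.1, a, b⟩)]; simp)
  obtain ⟨Λ, hΛ⟩ := (End.isCompact_ann hr isCompact_Icc).exists_bound_of_continuousOn
    an.continuousOn
  have e0 : ∀ (c b : ℝ), 0 < b → ∀ᶠ δ in 𝓝[>] (0 : ℝ), c * δ ≤ b := fun c b hb =>
    (((continuous_const.mul continuous_id).tendsto' (0 : ℝ) 0 (by simp)).eventually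
      (eventually_le_nhds hb)).filter_mono nhdsWithin_le_nhds
  obtain ⟨η, ⟨η1, η2⟩, η0⟩ := (((e0 (C * (|Λ| * 2)) (ε / 3) (by positivity)).and
    (e0 1 1 one_pos)).and self_mem_nhdsWithin).exists
  replace η0 : 0 < η := η0
  have hR' : A.R * Real.exp (-(y1 / 4)) < A.R :=
    mul_lt_of_lt_one_right hR (Real.exp_lt_one_iff.2 (by linarith))
  obtain ⟨G, g1, g2⟩ := exists_G ab h
  filter_upwards [lgB_small A x hx hR hR' η0, ev_bw ab h hx hi, e0 (16 * ab.M8) y1 y0] with δ b1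
    ⟨D0, b2⟩ b3
  have d0 : 0 < δ := b2.num.2.2.2.2.1
  obtain ⟨Bw, b4⟩ := SH.st_bz1 π x _ _ _ _ _ _ D0 G _ b2 g1
  have sW : ∀ z ∈ A.hub.ann (Ioo (y1 / 4) (4 * t)),
      z ∈ closedBall A.c (A.R * Real.exp (-(y1 / 4))) := fun z hz => by
    rw [mem_closedBall_iff_norm, norm_of_dep A hk hR hz.1]
    gcongr
    exact hz.2.1.le
  have sW' : A.hub.ann (Ioo (y1 / 4) (4 * t)) ⊆ A.hub.ann (Icc (-t) (4 * t)) :=
    End.ann_mono fun s hs => ⟨by linarith [hs.1], hs.2.le⟩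
  have s3 := s2 (fun z => A.lam A.H z * (Complex.exp (-lgB A x δ z) - 1)) (|Λ| * 2 * η)
    (by positivity)
    (fun z hz => (an z (sW' hz)).mul ((b1 z (sW z hz)).1.neg.cexp.sub analyticAt_const))
    (fun z hz => by
      rw [norm_mul, mul_assoc]
      refine mul_le_mul ((hΛ z (sW' hz)).trans (le_abs_self _)) ?_ (norm_nonneg _) (abs_nonneg _)
      have a := (b1 z (sW z hz)).2.1
      refine (Complex.norm_exp_sub_one_le (by rw [norm_neg]; linarith)).trans ?_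
      rw [norm_neg]; linarith)
  have s4 := SH.st_bz3 π x _ _ _ _ _ _ D0 G _ Bw A.c A.R U
    (fun v => ((chi t (A.hub.dep v) : ℝ) : ℂ) * (A.lam A.H v / bB A x δ v)) b2 g1 b4 hR oU
    (fun a => a.1 rfl) (fun v hv v1 v2 => (cc.contDiffAt (oU.mem_nhds hv)).mul
      (sm_an ((an v (sU hv)).div (an_bB hR hx d0 v1)
        (bB_ne A x δ fun k => ⟨by rw [← hp_wp]; exact v2 k, ne_ref hR (hx k) d0 v1⟩))))
  have z0 : ∀ z, z ≠ A.c → A.hub.dep z ≤ 0 → Bw ((z - A.c) / A.R) = 0 := fun z a b =>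
    (b4.zero _ (nz_ne hR a)).2 (Or.inl (by
      rw [norm_nz hk hR a]; exact Real.one_le_exp (by linarith)))
  obtain ⟨τ, s5, τ0⟩ := (((SH.amp_real U (A.hub.ann (Icc 0 (3 * t))) _ oU
    (End.isCompact_ann hr isCompact_Icc) (End.ann_mono (Icc_subset_Ioo (by linarith) (by linarith)))
    s4 (fun z hz hn => by
      rcases le_total (A.hub.dep z) 0 with a | a
      · rw [z0 z hz.1 a, zero_mul]
      · rw [chi_zero ht (le_of_not_ge fun b => hn ⟨hz.1, a, b⟩)]; simp) k (ε / 3)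
    (by positivity)).filter_mono (nhdsWithin_le_nhds (s := Ioi 0))).and
      self_mem_nhdsWithin).exists
  refine ⟨y1, τ, G, D0, Bw, _, ⟨⟨τ0, y0, y2, b3⟩, b2, g1, b4, g2, fun z hz => ?_, fun z hz => ?_⟩,
    ((s1.add s3).add s5).mono le_rfl (by nlinarith)⟩
  · by_cases hu : z ∈ U
    · simp only [indicator_of_mem hu]
      rcases le_or_gt (A.hub.dep z) 0 with a | a
      · rw [z0 z hu.1 a, c2 _ (by linarith), hE0 _ a]; simp
      · have b : 3 * t ≤ A.hub.dep z := le_of_not_gt fun b => hz ⟨hu.1, a, b⟩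
        rw [chi_zero ht b, c3 _ (by linarith)]; simp
    · simp [indicator_of_notMem hu]
  · have hu : z ∈ U := ⟨hz.1, by linarith [hz.2.1], by linarith [hz.2.2]⟩
    simp only [indicator_of_mem hu, chi_one ht hz.2.2, pf]
    rcases le_or_gt (A.hub.dep z) (y1 / 2) with a | a
    · rw [c2 _ a]; push_cast; ring
    · rw [(b1 z (sW z ⟨hz.1, by linarith, by linarith [hz.2.2]⟩)).2.2, Complex.exp_neg]
      push_cast; ring

end Pool.Agent.S6.Birth
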