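import Pool.Agent.Lib.S6.Defs

/-!
Section 6 of the project 9ccfb7: statements of the blocks.
-/

open Set Filter Topology Metric
open scoped ContDiff

noncomputable section

namespace Pool.Agent.S6

open Pool.Agent.CF (End Kind IsCurve Geo SLH Cv Priv)
open Pool.Agent.Lib

/-! ### constants -/

def St_AB : Prop := ∃ ab : Ab, ab.OK

def St_KIT : Prop := ∀ (h : ℝ) (n : ℕ) (Λw η : ℝ), 0 < h → h ≤ 1 → 0 ≤ Λw → 0 < η → η ≤ 1 →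
  ∃ Cu ≥ (0 : ℝ), ∀ Λ0 ≥ (0 : ℝ), ∃ κf : ℝ → ℝ, Kit h n Λw Cu Λ0 η κf

/-- algebra of `LW` -/
def St_LW : Prop :=
  (∀ (l : End) (h r1 : ℝ) (f f' : ℂ → ℝ) (k k' Λ Λ' x : ℝ), LW l h r1 f k Λ → LW l h r1 f' k' Λ' →
    LW l h r1 (fun z => f z + x * f' z) (k + x * k') (Λ + |x| * Λ')) ∧
  (∀ (l : End) (h r1 : ℝ) (f f' : ℂ → ℝ) (k Λ Λ' b : ℝ), LW l h r1 f k Λ → Λ ≤ Λ' →
    (∀ z ∈ l.near h r1, z ≠ l.c → (l.k ≠ Kind.pt → h / 16 ≤ l.dep z) → f' z = f z + b) →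
    0 < h → LW l h r1 f' k Λ') ∧
  (∀ (l : End) (h r1 : ℝ) (g : ℂ → ℂ) (Λ : ℝ), 0 < h → AnalyticOnNhd ℂ g (l.near h r1) → 0 ≤ Λ →
    (∀ z ∈ l.near h r1, ‖g z‖ ≤ Λ) → LW l h r1 (fun z => (g z).re) 0 (2 * Λ)) ∧
  ∀ (l : End) (W : ℂ → ℂ) (k : ℤ), l.ok → CF.HasWind l W k → ∃ h0 > 0, ∀ h r1, 0 < h → h ≤ h0 →
    0 < r1 → r1 ≤ h0 → ∃ Λ, LW l h r1 (fun z => Real.log ‖W z‖) k Λ

def St_TRANS : Prop := ∀ (l : End) (h r1 r2 a : ℝ) (f : ℂ → ℝ) (k Λo κ Cu Λ0 t C Λ κ' : ℝ), l.ok →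
  0 < h → 0 < r2 → r2 ≤ r1 → 1 ≤ a → a ≤ 2 → LW l h r1 f k Λo → 0 ≤ t → t ≤ 1 → 0 ≤ Cu → 0 ≤ Λ →
  a * κ + k + 4 * t / h ≤ κ' → (l.k = Kind.pt → 0 ≤ a * κ + k ∧ a * κ + k ≤ Λo) →
  2 * Cu + (4 + 2 * h) * Λo + 4 ≤ C → C + Λ * C + (4 + 2 * h) * Λo + 4 ≤ Λ0 →
  Trans l h r1 r2 a f κ Cu Λ0 t C Λ κ'

/-- constants of a part; monotone in `Λ0`; constants may be added to `f` -/
def St_PFIT : Prop :=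
  (∀ (J : Type) [Fintype J] (P : E → ℂ) (G : Set E) (l : J → End) (Sig : Finset ℂ) (h r1 a : ℝ)
    (f : J → ℂ → ℝ) (k κ : J → ℝ) (Λo Cu Cn : ℝ), IsCurve P G l → Geo P G l Sig r1 h → 1 ≤ a →
    a ≤ 2 → (∀ j, LW (l j) h r1 (f j) (k j) Λo) → 0 ≤ Cu →
    (∀ j, (l j).k = Kind.pt → 0 ≤ a * κ j + k j) → ∑ j, (a * κ j + k j) ≤ -1 / 4 →
    ∃ Λ1 ≥ (0 : ℝ), ∃ r20 > (0 : ℝ), ∀ Λ0 ≥ Λ1, ∀ r2, 0 < r2 → r2 ≤ r20 →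
      PFit G l Sig h r1 r2 a f κ Cu Λ0 Cn) ∧
  ∀ (J : Type) (G : Set E) (l : J → End) (Sig : Finset ℂ) (h r1 r2 a : ℝ) (f f' : J → ℂ → ℝ)
    (κ : J → ℝ) (Cu Λ0 Cn b : ℝ), PFit G l Sig h r1 r2 a f κ Cu Λ0 Cn → 0 < h → r2 ≤ r1 →
    (∀ j, ∀ z ∈ col (l j) h r1 r2, f' j z = f j z + b) → PFit G l Sig h r1 r2 a f' κ Cu Λ0 Cn

/-! ### the end lemma -/

/-- the descriptions give the end properties -/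
def St_ENDS : Prop := ∀ ab : Ab, ab.OK → ∀ (W : Type) [Fintype W] (x : W → ℂ) (ρ β : W → ℝ)
  (h : ℝ) (n : ℕ) (Λw Cu Λ0 η CD : ℝ) (κf : ℝ → ℝ), ∃ o > (0 : ℝ),
  ∀ (J : Type) (A : Cv) (pr : A.ι → ℝ) (sp : Sp J) (fd : FD J A.ι) (wk : W → A.ι),
    Fit ab.L ab.Cw A pr sp fd → (∀ j, (A.e j).ok) → A.hub.k = Kind.out →
    (∀ k ∈ fd.U, ∃ i, wk i = k) → Function.Injective wk →
    (∀ i, wk i ∈ fd.U ∧ hx A.hub (A.e (wk i)).c = x i ∧ fd.ρ (wk i) = ρ i ∧ fd.β (wk i) = β i) →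
    sp.h = h ∧ fd.n = n ∧ fd.Λw = Λw ∧ sp.Cu = Cu ∧ sp.Λ0 = Λ0 ∧ fd.η = η ∧ fd.CD = CD ∧
      fd.κf = κf →
    ∀ (X K : Set E) (τ : ℝ) (j : J), Std X K →
      AnalyticOnNhd ℂ (sp.l j).w ((sp.l j).near sp.h sp.r1) →
      ((sp.l j).k = Kind.pt → PDesc sp j (A.lam (fd.m j)) (pr (fd.m j)) X K τ o →
        sp.End1 (X \ K) τ j) ∧
      ((sp.l j).k ≠ Kind.pt → ∀ V Bs : Finset A.ι, V ⊆ fd.U → Disjoint V Bs →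
        (fd.m j = A.H → fd.gain ≤ fd.gsum V) → RDesc ab A pr sp fd j V Bs X K τ o →
        sp.End1 (X \ K) τ j)

/-! ### frames -/

/-- vertical nearness from nearness to a compact set which is a graph in the tube -/
def St_NEAR : Prop := ∀ (Y : Set E) (Z : Set ℂ) (w : ℂ → ℂ) (τ : ℝ) (U : Set ℂ), IsCompact Y →
  IsClosed Z → ContinuousOn w Z → IsOpen U →
  (∀ y ∈ Y, y.1 ∈ Z → ‖y.2 - w y.1‖ ≤ τ → y.2 = w y.1 ∧ y.1 ∈ U) → ∀ R > 0, ∃ η > 0,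
    ∀ y ∈ cthickening η Y, y.1 ∈ Z → ‖y.2 - w y.1‖ ≤ τ → ‖y.2 - w y.1‖ < R ∧ y.1 ∈ U

/-- in a thin tube near `Z` the surfaces near `S` lie in the graphs `F' (cp k)` over `U k` -/
def St_FRAME : Prop := ∀ (I κ : Type) [Finite I] (fx : Fix I) (F : I → ℂ → ℂ) (Z : Set ℂ)
  (w : ℂ → ℂ) (cp : κ → I) (U : κ → Set ℂ), (∀ i, Continuous (F i)) → IsCompact Z →
  (∀ z ∈ Z, ContinuousAt w z) → (∀ k, IsOpen (U k)) →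
  (∀ i, ∀ z ∈ fx.dom i, z ∈ Z → F i z = w z → ∃ k, cp k = i ∧ z ∈ U k) →
  ∃ R > 0, ∀ F' : I → ℂ → ℂ, (∀ i, ∀ z ∈ fx.dom i, ‖F' i z - F i z‖ ≤ R) →
    ∀ y ∈ fx.S F', y.1 ∈ cthickening R Z → ‖y.2 - w y.1‖ ≤ R →
      ∃ k, y.1 ∈ U k ∧ y.1 ∈ fx.dom (cp k) ∧ y.2 = F' (cp k) y.1

/-- the hull of a small modification; `A'` is the new union of curves -/
def St_PCS : Prop := ∀ (I : Type) [Fintype I] (fx : Fix I) (σ : Conf I), fx.OK → Good fx σ →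
  ∃ ρz > 0, ∀ η1 > 0, ∃ η > 0, ∀ (F' : I → ℂ → ℂ) (A' : Set E), (∀ i, ContDiff ℝ ∞ (F' i)) →
    MP_9ccfb7_an.Close 1 η σ.F F' fx.R fx.R →
    (∀ i, ∀ z ∈ fx.dom i, F' i z ≠ σ.F i z → (z, σ.F i z) ∈ thickening ρz σ.A) →
    Std (SH.hull (fx.S F')) (fx.S F') ∧ SH.hull (fx.S F') \ fx.S F' ⊆ cthickening η1 σ.A ∧
    (∀ s ∈ σ.Sd, SH.LB2 (fx.S F') s) ∧
    (A' ⊆ SH.hull (fx.S F') → SH.hull (fx.S F') ⊆ fx.S F' ∪ A' →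
      SH.hull (A' ∪ fx.S F') ⊆ A' ∪ fx.S F')

/-- the curves lie in the hull of the surface -/
def St_INH : Prop := ∀ (I : Type) [Fintype I] (fx : Fix I) (σ : Conf I), fx.OK → Pre fx σ →
  σ.A ⊆ SH.hull (fx.S σ.F)

def St_ZONE : Prop :=
  (∀ (J : Type) [Fintype J] (L : ℝ) (Cw : ℝ → ℝ) (A : Cv) (pr : A.ι → ℝ) (sp : Sp J)
    (fd : FD J A.ι) (Sig : Finset ℂ) (G' : Set E), 10 ≤ L → (∀ β, 1 ≤ Cw β) →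
    Geom A.P A.Γ sp Sig → Fit L Cw A pr sp fd → (∀ k, fd.site k) → A.hub.k = Kind.out →
    (∀ k, (A.e k).k = Kind.pt → 0 < pr k) → IsCompact G' → (∀ y ∈ A.Γ, y ∈ G' → y.1 ∈ Sig) →
    ∃ τ0 > 0, ∀ τ, 0 < τ → τ ≤ τ0 → Zone A pr (A.Γ ∪ G') sp fd τ ∧ Zone A pr (G' ∪ A.Γ) sp fd τ) ∧
  (∀ (J : Type) (L : ℝ) (Cw : ℝ → ℝ) (A : Cv) (pr : A.ι → ℝ) (Y : Set E) (sp : Sp J)
    (fd : FD J A.ι) (τ : ℝ) (π : Type) [Fintype π] (x : π → ℂ) (δ : ℝ) (ρ β : π → ℝ), 10 ≤ L →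
    (∀ β, 1 ≤ Cw β) → A.hub.k = Kind.out → 0 < A.R → 0 < δ → Zone A pr Y sp fd τ →
    Fit L Cw (born A π x δ) (Sum.elim pr fun _ => bpr A L δ) sp (fd.born A π x δ ρ β) →
    Zone (born A π x δ) (Sum.elim pr fun _ => bpr A L δ) Y sp (fd.born A π x δ ρ β) τ) ∧
  ∀ (J : Type) (A : Cv) (pr pr' : A.ι → ℝ) (Y : Set E) (sp : Sp J) (fd : FD J A.ι) (τ : ℝ)
    (lam : A.ι → ℂ → ℂ) (mu : J → ℂ → ℂ), Zone A pr Y sp fd τ → (∀ k, pr' k ≤ pr k) →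
    Zone (A.rot lam) pr' Y sp (fd.setMu mu) τ

/-- an unmodified surface serves the ends -/
def St_SERVE : Prop := ∀ ab : Ab, ab.OK → ∀ (I J : Type) [Fintype I] [Fintype J] (fx : Fix I)
  (F : I → ℂ → ℂ) (hz : ℝ) (A B : Cv) (W : Wd I A.ι) (Y : Set E) (sp : Sp J) (fd : FD J A.ι)
  (τ : ℝ), (∀ i, ContDiff ℝ ∞ (F i)) →
  (∀ i i', i ≠ i' → ∀ z ∈ fx.dom i, z ∈ fx.dom i' → F i z ≠ F i' z) → 0 < hz →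
  SideWall fx F hz A B W → (∀ j, (A.e j).ok) → A.hub.k = Kind.out → IsCompact Y →
  Fit ab.L ab.Cw A W.pr sp fd → Zone A W.pr Y sp fd τ → fd.gain ≤ fd.gsum fd.U →
  Served sp τ (fx.S F) Y

/-- first certificate -/
def St_CERT1 : Prop := ∀ (J J' : Type) [Fintype J] [Fintype J'] (C K : E → ℂ) (G G' S : Set E)
  (sp : Sp J) (sp' : Sp J') (Sig Sig' : Finset ℂ), Geom C G sp Sig → Geom K G' sp' Sig' →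
  (∀ y ∈ G, K y = 0 → y ∈ G' ∧ y.1 ∈ Sig ∧ y.1 ∈ Sig') →
  (∀ y ∈ G', C y = 0 → y ∈ G) →
  (∀ j, sp.om j = (sp.l j).res (CF.dw C)) → (∀ j, sp'.om j = (sp'.l j).res (CF.dw K)) →
  PFit G sp.l Sig sp.h sp.r1 sp.r2 2 (fun j z => 1 * Real.log ‖(sp.l j).res K z‖) sp.κ sp.Cu
    sp.Λ0 0 →
  PFit G' sp'.l Sig' sp'.h sp'.r1 sp'.r2 1 (fun j z => 2 * Real.log ‖(sp'.l j).res C z‖) sp'.κ
    sp'.Cu sp'.Λ0 0 →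
  IsCompact S →
  (∀ y ∈ S, y ∈ G → ∃ j, y ∈ (sp.l j).gr ((sp.l j).nearO (sp.h / 16) sp.r2)) →
  (∀ y ∈ S, y ∈ G' → ∃ j, y ∈ (sp'.l j).gr ((sp'.l j).nearO (sp'.h / 16) sp'.r2)) →
  ∃ τ0 > 0, ∀ τ τ', 0 < τ → τ ≤ τ0 → 0 < τ' → τ' ≤ τ0 → ∃ η > 0, ∀ X L : Set E, Std X L →
    L ⊆ cthickening η S → X \ L ⊆ cthickening η (G ∪ G') → (∀ j, sp.End1 (X \ L) τ j) →
    (∀ j, sp'.End1 (X \ L) τ' j) → X ⊆ L ∪ (G ∪ G')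

/-- the context of the first certificate -/
def St_CTX : Prop := ∀ ab : Ab, ab.OK → ∀ (I J J' : Type) [Fintype I] [Fintype J] [Fintype J']
  (fx : Fix I) (σ : Conf I) (sp : Sp J) (fd : FD J σ.C.ι) (Sig : Finset ℂ) (sp' : Sp J')
  (fd' : FD J' σ.K.ι) (Sig' : Finset ℂ) (xs : Set ℝ), fx.OK → Pre fx σ →
  Rdy ab.L ab.Cw σ.C σ.WC.pr σ.K.P σ.Nd sp fd Sig 2 {1} →
  Rdy ab.L ab.Cw σ.K σ.WK.pr σ.C.P σ.Nd sp' fd' Sig' 1 xs → 2 ∈ xs → fd'.gain ≤ fd'.gsum fd'.U →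
  ∃ τ T0, Zone σ.C σ.WC.pr σ.A sp fd τ ∧ Cert sp τ (fx.S σ.F) T0 σ.A ∧ IsClosed T0 ∧
    ∀ y ∈ T0, y ∈ σ.C.Γ → False

/-- a certificate survives small steps -/
def St_CTXM : Prop := ∀ (I J : Type) [Fintype I] (fx : Fix I) (F : I → ℂ → ℂ) (sp : Sp J) (τ : ℝ)
  (T0 A : Set E), Cert sp τ (fx.S F) T0 A → ∃ η > 0, ∀ (F' : I → ℂ → ℂ) (k : ℕ) (ε : ℝ), ε ≤ η →
    Nxt fx F F' k ε T0 → Cert sp τ (fx.S F') T0 A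

/-! ### elementary steps -/

/-- admissible new directions and radii -/
structure NewD {J : Type} (L : ℝ) (A : Cv) (pr : A.ι → ℝ) (sp : Sp J) (fd : FD J A.ι)
    (lam : A.ι → ℂ → ℂ) (pr' : A.ι → ℝ) (V : Finset A.ι) (o : ℝ) : Prop where
  other : ∀ k, ¬ fd.site k → lam k = A.lam k ∧ pr' k = pr k
  ring : ∀ j, (sp.l j).k ≠ Kind.pt → ∀ z ∈ (sp.l j).circ, AnalyticAt ℂ (lam (fd.m j)) z ∧
    NDir (sp.l j) (fd.win A j) (fun k => (A.e k).c)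
      (fun z => lam (fd.m j) z * fd.chart A j z) o fd.CD z
  port : ∀ j, (sp.l j).k = Kind.pt → Ratio (A.lam (fd.m j)) (lam (fd.m j)) (sp.l j).c
    (closedBall (sp.l j).c sp.r1) o
  win : ∀ k ∈ fd.U, Ratio (A.lam k) (lam k) (A.e k).c (pd L A.hub (A.e k).c) o
  rad : ∀ k, (A.e k).k = Kind.pt → 0 < pr' k ∧ pr' k ≤ pr k ∧ (k ∈ V → pr' k = pr k)
  act : V ⊆ fd.U ∧ fd.gain ≤ fd.gsum V

/-- rotation of directions and shrinking of ports; `o` is uniform for all resets of `σ0` -/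
def St_RESET : Prop := ∀ ab : Ab, ab.OK → ∀ (I J : Type) [Fintype I] [Fintype J] (fx : Fix I)
  (σ0 : Conf I) (sp : Sp J) (fd : FD J σ0.C.ι), fx.OK → ∃ o > (0 : ℝ),
  ∀ (F : I → ℂ → ℂ) (lam : σ0.C.ι → ℂ → ℂ) (Ef : σ0.C.ι → ℝ → ℝ) (pr : σ0.C.ι → ℝ) (hz : ℝ)
    (mu : J → ℂ → ℂ) (τ : ℝ) (T0 : Set E),
    Ctx fx ab.L ab.Cw (σ0.reset F lam Ef pr hz) sp (fd.setMu mu) τ T0 →
    ∀ (lam' : σ0.C.ι → ℂ → ℂ) (pr' : σ0.C.ι → ℝ) (V : Finset σ0.C.ι),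
      NewD ab.L (σ0.C.rot lam) pr sp (fd.setMu mu) lam' pr' V o →
      ∀ (k : ℕ) (ε : ℝ), 0 < ε → ∃ (F' : I → ℂ → ℂ) (Ef' : σ0.C.ι → ℝ → ℝ) (hz' : ℝ),
        Good fx (σ0.reset F' lam' Ef' pr' hz') ∧ Nxt fx F F' k ε T0

/-- birth of windows at the hub of `C` -/
def St_BIRTH : Prop := ∀ ab : Ab, ab.OK → ∀ (I J : Type) [Fintype I] [Fintype J] (fx : Fix I)
  (σ : Conf I) (sp : Sp J) (fd : FD J σ.C.ι) (τ : ℝ) (T0 : Set E) (π : Type) [Fintype π]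
  (x : π → ℂ) (ρ β : π → ℝ), fx.OK → Ctx fx ab.L ab.Cw σ sp fd τ T0 → One σ.C sp fd →
  fd.gain ≤ fd.gsum fd.U → Pos σ.C x →
  (∀ᶠ δ in 𝓝[>] (0 : ℝ), Fit ab.L ab.Cw (born σ.C π x δ)
    (Sum.elim σ.WC.pr fun _ => bpr σ.C ab.L δ) sp (fd.born σ.C π x δ ρ β)) →
  ∀ (k : ℕ) (ε : ℝ), 0 < ε → ∀ᶠ δ in 𝓝[>] (0 : ℝ),
    ∃ (F' : I → ℂ → ℂ) (Ef' : σ.C.ι ⊕ π → ℝ → ℝ) (hz' : ℝ) (Sd' : Finset E),
      Good fx (σ.born π x ab.L δ F' Ef' hz' Sd') ∧ Nxt fx σ.F F' k ε T0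

/-- the new windows fit -/
def St_FITNEW : Prop := ∀ (J : Type) [Fintype J] (L : ℝ) (Cw : ℝ → ℝ) (A : Cv) (pr : A.ι → ℝ)
  (sp : Sp J) (fd : FD J A.ι) (π : Type) [Fintype π] (x : π → ℂ) (ρ β : π → ℝ) (Λx : ℝ), 10 ≤ L →
  (∀ β, 1 ≤ Cw β) → A.hub.k = Kind.out → 0 < A.R → Fit L Cw A pr sp fd → One A sp fd →
  fd.U.card + Fintype.card π ≤ fd.n →
  (∀ k, ‖x k‖ = 1 ∧ 0 < β k ∧ β k ≤ 1 ∧ 0 < ρ k ∧ ρ k ≤ sp.h / 8 ∧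
    (∀ k', k ≠ k' → 2 * ρ k ≤ ‖x k - x k'‖) ∧
    ∀ k' ∈ fd.U, 2 * ρ k ≤ ‖x k - hx A.hub (A.e k').c‖ ∧
      2 * fd.ρ k' ≤ ‖x k - hx A.hub (A.e k').c‖) →
  ∀ᶠ δ in 𝓝[>] (0 : ℝ),
    Fit L Cw (born A π x δ) (Sum.elim pr fun _ => bpr A L δ) sp (fd.born A π x δ ρ β) ∧
    One (born A π x δ) sp (fd.born A π x δ ρ β) ∧
    (Marg A sp fd Λx → Marg (born A π x δ) sp (fd.born A π x δ ρ β) Λx) ∧
    ∀ k, hx A.hub (hp A (x k) δ 0) = x k ∧ A.hub.dep (hp A (x k) δ 0) = δ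

/-- a new geometry in which all present ports are macro ports -/
def St_NEWGEO : Prop := ∀ (L : ℝ) (Cw : ℝ → ℝ) (A : Cv) (O : E → ℂ) (Nd : Finset E) (T : ℤ)
  (a : ℝ) (xs : Finset ℝ) (gain CD Λx h0 : ℝ) (n : ℕ), IsCurve A.P A.Γ A.e →
  CF.Off (CF.brv A.P A.Γ) A.e → A.hub.k = Kind.out → CF.IsPoly O →
  CF.SimpleZ A.P O A.Γ A.e Nd →
  (∀ j, ∃ k, CF.HasWind (A.e j) (A.lam j) k ∧ ((A.e j).k = Kind.pt → k = 1)) →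
  CF.TotW A.e (fun j z => A.lam j z * (A.e j).res (fun y => CF.dw A.P y * O y) z) T →
  1 ≤ a → a ≤ 2 → (∀ x ∈ xs, a * (T - Nd.card - gain) + x * Nd.card ≤ -1 / 2) → 1 ≤ CD →
  0 ≤ Λx → 0 < h0 →
  ∃ (sp : Sp A.ι) (fd : FD A.ι A.ι) (Sig : Finset ℂ), sp.h ≤ h0 ∧ sp.r1 ≤ h0 ∧ fd.U = ∅ ∧
    fd.m = id ∧ fd.gain = gain ∧ fd.n = n ∧ fd.CD = CD ∧ One A sp fd ∧ Marg A sp fd Λx ∧
    ∀ pr : A.ι → ℝ, (∀ j, (A.e j).k = Kind.pt → pr j < sp.r2) →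
      Rdy L Cw A pr O Nd sp fd Sig a xs

/-- target directions of a path of rotations -/
structure Targ {J : Type} (L : ℝ) (A : Cv) (sp : Sp J) (fd : FD J A.ι) (lam : A.ι → ℂ → ℂ)
    (Λx : ℝ) (l : J → ℂ → ℂ) : Prop where
  an : ∀ j, AnalyticOnNhd ℂ (l j) ((sp.l j).near sp.h sp.r1) ∧
    ∀ z ∈ (sp.l j).near sp.h sp.r1, ‖l j z‖ ≤ Λx
  ring : ∀ j, (sp.l j).k ≠ Kind.pt → ∀ z ∈ (sp.l j).circ, AnalyticAt ℂ (lam (fd.m j)) z ∧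
    NDir (sp.l j) (fd.win A j) (fun k => (A.e k).c)
      (fun z => lam (fd.m j) z * (fd.chart A j z * Complex.exp (-l j z))) 0 fd.CD z
  port : ∀ j, (sp.l j).k = Kind.pt → ∀ z ∈ closedBall (sp.l j).c sp.r1, z ≠ (sp.l j).c →
    lam (fd.m j) z = A.lam (fd.m j) z * Complex.exp (l j z)
  win : ∀ k ∈ fd.U, ∀ j, fd.m j = A.H → PortDir L (A.e k).c (pd L A.hub (A.e k).c)
    fun z => lam k z * (fd.chart A j z * Complex.exp (-l j z))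

/-- a path of rotations, with a final shrinking of the macro ports -/
def St_PATH : Prop := ∀ ab : Ab, ab.OK → ∀ (I J J' : Type) [Fintype I] [Fintype J] [Fintype J']
  (fx : Fix I) (σ : Conf I) (sp : Sp J) (fd : FD J σ.C.ι) (Sig : Finset ℂ) (sp' : Sp J')
  (fd' : FD J' σ.K.ι) (Sig' : Finset ℂ) (xs : Set ℝ) (lam : σ.C.ι → ℂ → ℂ) (Λx : ℝ)
  (l : J → ℂ → ℂ) (pr' : σ.C.ι → ℝ), fx.OK → Good fx σ →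
  Rdy ab.L ab.Cw σ.C σ.WC.pr σ.K.P σ.Nd sp fd Sig 2 {1} → One σ.C sp fd → Marg σ.C sp fd Λx →
  fd.gain ≤ fd.gsum fd.U →
  Rdy ab.L ab.Cw σ.K σ.WK.pr σ.C.P σ.Nd sp' fd' Sig' 1 xs → 2 ∈ xs → fd'.gain ≤ fd'.gsum fd'.U →
  Targ ab.L σ.C sp fd lam Λx l →
  (∀ k, (σ.C.e k).k = Kind.pt → 0 < pr' k ∧ pr' k ≤ σ.WC.pr k ∧ (k ∈ fd.U → pr' k = σ.WC.pr k)) →
  ∀ (k : ℕ) (ε : ℝ), 0 < ε → ∃ (F' : I → ℂ → ℂ) (Ef' : σ.C.ι → ℝ → ℝ) (hz' : ℝ),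
    Good fx (σ.reset F' lam Ef' pr' hz') ∧ MP_9ccfb7_an.Close k ε σ.F F' fx.R fx.R

/-- the secant directions are targets of a path -/
def St_SECD : Prop := ∀ (L : ℝ) (C K : Cv) (Nd : Finset E) (TC TK : ℤ) (D : ℕ) (a : ℂ)
  (Z : Finset E) (q G : E → ℂ) (π : Type) [Fintype π] (x : π → ℂ), 100 ≤ L →
  CF.Alg C K Nd TC TK D → Sec C K Nd TC a Z q G (Fintype.card π) → Pos C x →
  ∃ h0 > (0 : ℝ), ∃ Λx ≥ (0 : ℝ), ∃ CD ≥ (1 : ℝ), ∀ (sp : Sp C.ι) (fd : FD C.ι C.ι) (ρ β : π → ℝ),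
    0 < sp.h → sp.h ≤ h0 → 0 < sp.r1 → sp.r1 ≤ h0 → sp.l = C.e → fd.U = ∅ → fd.m = id →
    fd.CD = CD → One C sp fd → AnalyticOnNhd ℂ (fd.mu C.H) (C.hub.ann (Icc 0 sp.h)) →
    ∀ᶠ δ in 𝓝[>] (0 : ℝ), ∃ l : C.ι → ℂ → ℂ, Targ L (born C π x δ) sp (fd.born C π x δ ρ β)
      (winS C K π a q G x δ).lam Λx l

/-- the algebraic facts on the secant with windows -/
def St_WINS : Prop := ∀ (C K : Cv) (Nd : Finset E) (TC TK : ℤ) (D : ℕ) (a : ℂ)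
  (Z : Finset E) (q G : E → ℂ) (π : Type) [Fintype π] (x : π → ℂ),
  CF.Alg C K Nd TC TK D → Sec C K Nd TC a Z q G (Fintype.card π) → Pos C x →
  ∀ᶠ δ in 𝓝[>] (0 : ℝ), CF.Alg (winS C K π a q G x δ) K Nd TC TK D ∧
    CF.IsPoly (gS C G x δ) ∧ CF.IsPoly (qS C a q x δ) ∧
    CF.SimpleZ C.P (qS C a q x δ) C.Γ (winS C K π a q G x δ).e (ndS C Z x δ) ∧
    ((ndS C Z x δ).card : ℤ) = TC ∧ (∀ y ∈ Nd, qS C a q x δ y ≠ 0) ∧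
    (∀ y ∈ Z, gS C G x δ y ≠ 0) ∧
    CF.TotW (winS C K π a q G x δ).e (fun j z => (winS C K π a q G x δ).lam j z *
      ((winS C K π a q G x δ).e j).res (fun y => CF.dw C.P y * qS C a q x δ y) z)
      (2 * TC - Nd.card)

/-- the configuration before the split -/
def preS {I : Type} (C K : Cv) (Nd : Finset E) (TC TK : ℤ) (D : ℕ) (π : Type) [Fintype π] (a : ℂ)
    (q G : E → ℂ) (x : π → ℂ) (δ : ℝ) (F : I → ℂ → ℂ) (WC : Wd I (C.ι ⊕ π)) (WK : Wd I K.ι)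
    (hz : ℝ) (Sd : Finset E) : Conf I :=
  ⟨winS C K π a q G x δ, K, Nd, TC, TK, D, F, WC, WK, hz, Sd⟩

/-- the configuration after the split -/
def postS {I : Type} (C K A : Cv) (Nd Z : Finset E) (TC TK : ℤ) (D : ℕ) (π π' : Type) [Fintype π]
    [Fintype π'] (a : ℂ) (q G : E → ℂ) (x : π → ℂ) (x' : π' → ℂ) (L δ δ' : ℝ) (F : I → ℂ → ℂ)
    (WA : Wd I A.ι) (cp : C.ι ⊕ π → I) (pr : C.ι ⊕ π → ℝ) (Ef : (C.ι ⊕ π) ⊕ π' → ℝ → ℝ) (hz : ℝ)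
    (Sd : Finset E) : Conf I :=
  ⟨A, born (winS C K π a q G x δ) π' x' δ', ndS C Z x δ, 2 * TC + TK, 2 * TC - Nd.card, 2 * D, F,
    WA, Wd.born (winS C K π a q G x δ) cp pr π' L δ' Ef, hz, Sd⟩

/-- the split -/
def St_SPLIT : Prop := ∀ ab : Ab, ab.OK → ∀ (I J : Type) [Fintype I] [Fintype J] (fx : Fix I)
  (C K : Cv) (Nd : Finset E) (TC TK : ℤ) (D : ℕ) (a : ℂ) (Z : Finset E) (q G : E → ℂ)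
  (π π' : Type) [Fintype π] [Fintype π'] (x : π → ℂ) (x' : π' → ℂ) (prK : K.ι → ℝ) (sp : Sp J)
  (fd : FD J K.ι) (Sig : Finset ℂ), fx.OK → CF.Alg C K Nd TC TK D →
  Sec C K Nd TC a Z q G (Fintype.card π) → Z.card ≤ D → Pos C (Sum.elim x x') →
  2 * (TC : ℝ) - Nd.card + 1 ≤ 3 / 4 * Fintype.card π' →
  Rdy ab.L ab.Cw K prK C.P Nd sp fd Sig 1 {2, xB TC Nd.card} → One K sp fd →
  fd.gain ≤ fd.gsum fd.U →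
  ∀ᶠ δ in 𝓝[>] (0 : ℝ), ∃ rb > (0 : ℝ), ∀ (F : I → ℂ → ℂ) (WC : Wd I (C.ι ⊕ π)) (WK : Wd I K.ι)
    (hz : ℝ) (Sd : Finset E), Good fx (preS C K Nd TC TK D π a q G x δ F WC WK hz Sd) →
    WK.pr = prK → (∀ j, (C.e j).k = Kind.pt → WC.pr (Sum.inl j) < rb) →
    (∀ k, WC.pr (Sum.inr k) = bpr C ab.L δ) →
    ∀ pr : C.ι ⊕ π → ℝ, (∀ j, ((winS C K π a q G x δ).e j).k = Kind.pt →
      0 < pr j ∧ pr j ≤ WC.pr j) →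
    ∀ (k : ℕ) (ε : ℝ), 0 < ε → ∀ᶠ δ' in 𝓝[>] (0 : ℝ),
      ∃ (A : Cv) (e : ℝ) (F' : I → ℂ → ℂ) (WA : Wd I A.ι) (Ef : (C.ι ⊕ π) ⊕ π' → ℝ → ℝ) (hz' : ℝ)
        (Sd' : Finset E) (sp5 : Sp J) (fd5 : FD J A.ι) (τ : ℝ) (T0 : Set E),
        0 < e ∧ A.P = SH.pA C.P K.P (gS C G x δ) (qS C a q x δ) e ∧
        A.Γ ⊆ thickening ε (C.Γ ∪ K.Γ) ∧ MP_9ccfb7_an.Close k ε F F' fx.R fx.R ∧
        Ctx fx ab.L ab.Cw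
          (postS C K A Nd Z TC TK D π π' a q G x x' ab.L δ δ' F' WA WC.cp pr Ef hz' Sd')
          sp5 fd5 τ T0 ∧
        One A sp5 fd5 ∧ (Free K fd → Free A fd5) ∧ fd5.gain = fd.gain ∧
        fd5.gsum fd5.U = fd.gsum fd.U ∧ fd5.U.card = fd.U.card ∧ fd5.n = fd.n ∧
        (∀ j, (A.e j).k = Kind.pt → fd5.site j) ∧ ∀ y ∈ T0, y ∈ cg A.hub 0 → False

/-! ### the stage, the initial state -/

def St_STAGE : Prop := ∀ ab : Ab, ab.OK → ∀ (I : Type) [Fintype I] (fx : Fix I), fx.OK →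
  ∀ (s : State fx ab.L ab.Cw) (k : ℕ) (ε : ℝ), 0 < ε → ∀ (a : ℂ) (ρ : ℝ), 0 < ρ →
    ∃ s' : State fx ab.L ab.Cw, MP_9ccfb7_an.Close k ε s.σ.F s'.σ.F fx.R fx.R ∧
      MP_9ccfb7_an.NoGr (s'.σ.K.Γ \ s'.σ.C.Γ) a ρ ∧
      (MP_9ccfb7_an.NoGr (s.σ.K.Γ \ s.σ.C.Γ) a ρ → MP_9ccfb7_an.NoGr (s'.σ.C.Γ \ s'.σ.K.Γ) a ρ) ∧
      (MP_9ccfb7_an.NoGr (s.σ.C.Γ \ s.σ.K.Γ) a ρ → MP_9ccfb7_an.NoGr (s.σ.K.Γ \ s.σ.C.Γ) a ρ →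
        MP_9ccfb7_an.NoGr s'.σ.C.Γ a ρ) ∧
      (MP_9ccfb7_an.NoGr s.σ.C.Γ a ρ → MP_9ccfb7_an.NoGr s'.σ.K.Γ a ρ)

def St_INIT : Prop := ∀ ab : Ab, ab.OK → ∃ (I : Type) (_ : Fintype I) (fx : Fix I), fx.OK ∧
  Nonempty (State fx ab.L ab.Cw)

def St_MAIN : Prop := ∃ S, MP_9ccfb7_an.IsSurface S ∧ MP_9ccfb7_an.hull S ≠ S ∧
  ¬ MP_9ccfb7_an.HasDisc (MP_9ccfb7_an.hull S)

end Pool.Agent.S6
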