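import Pool.Agent.Lib.S6.Blue

/-!
Section 6 of the project 9ccfb7: statements in which the constant `L` is large.
-/

open Set Filter Topology Metric
open scoped ContDiff

noncomputable section

namespace Pool.Agent.S6

open Pool.Agent.CF (End Kind IsCurve Geo SLH Cv Priv)
open Pool.Agent.Lib

/-- the split for the constants `ab` -/
def SplitP (ab : Ab) : Prop := ∀ (I J : Type) [Fintype I] [Fintype J] (fx : Fix I)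
  (C K : Cv) (Nd : Finset E) (TC TK : ℤ) (D : ℕ) (a : ℂ) (Z : Finset E) (q G : E → ℂ)
  (π π' : Type) [Fintype π] [Fintype π'] (x : π → ℂ) (x' : π' → ℂ) (prK : K.ι → ℝ) (sp : Sp J)
  (fd : FD J K.ι) (Sig : Finset ℂ), fx.OK → CF.Alg C K Nd TC TK D →
  Sec C K Nd TC a Z q G (Fintype.card π) → Z.card ≤ D → Pos C (Sum.elim x x') →
  2 * (TC : ℝ) - Nd.card + 1 ≤ 3 / 4 * Fintype.card π' →
  Rdy ab.L ab.Cw K prK C.P Nd sp fd Sig 1 {2, xB TC Nd.card} → One K sp fd →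
  fd.gain ≤ fd.gsum fd.U →
  ∀ᶠ δ in 𝓝[>] (0 : ℝ), ∃ rb > (0 : ℝ), ∀ (F : I → ℂ → ℂ) (WC : Wd I (C.ι ⊕ π)) (WK : Wd I K.ι)
    (hz : ℝ) (Sd : Finset E), Good fx (preS C K Nd TC TK D π a q G x δ F WC WK hz Sd) →
    WK.pr = prK → (∀ j, (C.e j).k = Kind.pt → WC.pr (Sum.inl j) < rb) →
    (∀ k, WC.pr (Sum.inr k) = bpr C ab.L δ) →
    ∀ pr : C.ι ⊕ π → ℝ, (∀ j, ((winS C K π a q G x δ).e j).k = Kind.pt →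
      0 < pr j ∧ pr j ≤ WC.pr j) →
    ∀ (k : ℕ) (ε : ℝ), 0 < ε → ∀ᶠ δ' in 𝓝[>] (0 : ℝ),
      ∃ (A : Cv) (e : ℝ) (F' : I → ℂ → ℂ) (WA : Wd I A.ι) (Ef : (C.ι ⊕ π) ⊕ π' → ℝ → ℝ) (hz' : ℝ)
        (Sd' : Finset E) (sp5 : Sp J) (fd5 : FD J A.ι) (τ : ℝ) (T0 : Set E),
        0 < e ∧ A.P = SH.pA C.P K.P (gS C G x δ) (qS C a q x δ) e ∧
        A.Γ ⊆ thickening ε (C.Γ ∪ K.Γ) ∧ MP_9ccfb7_an.Close k ε F F' fx.R fx.R ∧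
        Ctx fx ab.L ab.Cw
          (postS C K A Nd Z TC TK D π π' a q G x x' ab.L δ δ' F' WA WC.cp pr Ef hz' Sd')
          sp5 fd5 τ T0 ∧
        One A sp5 fd5 ∧ (Free K fd → Free A fd5) ∧ fd5.gain = fd.gain ∧
        fd5.gsum fd5.U = fd.gsum fd.U ∧ fd5.U.card = fd.U.card ∧ fd5.n = fd.n ∧
        (∀ j, (A.e j).k = Kind.pt → fd5.site j) ∧ ∀ y ∈ T0, y ∈ cg A.hub 0 → False

/-- the stage for the constants `ab` -/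
def StageP (ab : Ab) : Prop := ∀ (I : Type) [Fintype I] (fx : Fix I), fx.OK →
  ∀ (s : State fx ab.L ab.Cw) (k : ℕ) (ε : ℝ), 0 < ε → ∀ (a : ℂ) (ρ : ℝ), 0 < ρ →
    ∃ s' : State fx ab.L ab.Cw, MP_9ccfb7_an.Close k ε s.σ.F s'.σ.F fx.R fx.R ∧
      MP_9ccfb7_an.NoGr (s'.σ.K.Γ \ s'.σ.C.Γ) a ρ ∧
      (MP_9ccfb7_an.NoGr (s.σ.K.Γ \ s.σ.C.Γ) a ρ → MP_9ccfb7_an.NoGr (s'.σ.C.Γ \ s'.σ.K.Γ) a ρ) ∧
      (MP_9ccfb7_an.NoGr (s.σ.C.Γ \ s.σ.K.Γ) a ρ → MP_9ccfb7_an.NoGr (s.σ.K.Γ \ s.σ.C.Γ) a ρ →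
        MP_9ccfb7_an.NoGr s'.σ.C.Γ a ρ) ∧
      (MP_9ccfb7_an.NoGr s.σ.C.Γ a ρ → MP_9ccfb7_an.NoGr s'.σ.K.Γ a ρ)

theorem split_iff : St_SPLIT ↔ ∀ ab : Ab, ab.OK → SplitP ab := Iff.rfl

theorem stage_iff : St_STAGE ↔ ∀ ab : Ab, ab.OK → StageP ab := Iff.rfl

def St_AB2 : Prop := ∀ L0 : ℝ, ∃ ab : Ab, ab.OK ∧ L0 ≤ ab.L

def St_SPLIT2 : Prop := ∃ L0 : ℝ, ∀ ab : Ab, ab.OK → L0 ≤ ab.L → SplitP ab

def St_STAGE2 : Prop := ∀ ab : Ab, ab.OK → SplitP ab → StageP ab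

/-- what the final assembly needs -/
def St_RUN : Prop := ∃ ab : Ab, ab.OK ∧ StageP ab

theorem run_of (h1 : St_AB2) (h2 : St_SPLIT2) (h3 : St_STAGE2) : St_RUN := by
  obtain ⟨L0, H⟩ := h2
  obtain ⟨ab, a, b⟩ := h1 L0
  exact ⟨ab, a, h3 ab a (H ab a b)⟩

end Pool.Agent.S6
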