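import Pool.Agent.Lib.S6.Part
import Pool.Agent.Lib.S6.B_LW

/-!
Tools for the certificate of the split: comparison of the sizes, rigidity of the parts.
-/

open Set Filter Topology Metric

noncomputable section

namespace Pool.Agent.S6

open Pool.Agent.CF (End Kind IsCurve Geo tube core reg dw pen IsPoly)
open Pool.Agent.Lib
open Pool.Agent.Lib.SH (fB fB0 fB1 fBK pA)

namespace CERTB

theorem cl_pos {t a b : ℝ} (h : Cl t a b) (hb : 0 < b) : 0 < a := by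
  by_contra c
  have e : a = 0 := le_antisymm (not_lt.1 c) h.1
  have := h.2.2.2
  rw [e, mul_zero] at this
  linarith

theorem cl_zero {t a b : ℝ} (h : Cl t a b) (ha : a ≤ 0) : b = 0 := by
  by_contra c
  exact absurd (cl_pos h (lt_of_le_of_ne h.2.1 (Ne.symm c))) (not_lt.2 ha)

theorem small (a : ℝ) {b : ℝ} (hb : 0 < b) : ∀ᶠ θ in 𝓝[>] (0 : ℝ), θ * a < b :=
  mem_nhdsWithin_of_mem_nhds (ContinuousAt.eventually_lt (f := fun θ : ℝ => θ * a)
    (g := fun _ => b) (by fun_prop) continuousAt_const (by simpa using hb))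

section
variable {C K G q : E → ℂ} {e : ℝ} {x : E}

theorem fB_eq (hG : G x ≠ 0) (hK : K x ≠ 0) (hq : q x ≠ 0) :
    fB C K G q e x = sP C K G q e x * ‖q x ^ 2 / (G x ^ 2 * K x)‖ := by
  rw [fB, sP, ← norm_mul, SH.pp, sV, pA, pen]
  congr 1
  field_simp

theorem pA_eq (hq : q x ≠ 0) : ‖pA C K G q e x‖ = ‖q x‖ * ‖sV C K G q x - e‖ := by
  rw [← norm_mul, sV, pA, pen]
  congr 1
  field_simp

theorem F_eq (hq : q x ≠ 0) : ‖G x * K x * C x‖ = ‖q x‖ * ‖sV C K G q x‖ := by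
  rw [← norm_mul, sV]
  congr 1
  field_simp

theorem sep_of_sP (hq : q x ≠ 0) (h : sP C K G q e x < e ^ 2 / 16) : SH.Sep C K G q e x := by
  have p : 0 < ‖q x‖ ^ 2 := pow_pos (norm_pos_iff.2 hq) 2
  rw [SH.Sep, pA_eq hq, F_eq hq]
  rw [sP, SH.pp, norm_mul] at h
  nlinarith

/-- the size function is bounded by `F0` -/
theorem sP_le {B q0 b : ℝ} (hG : G x ≠ 0) (hK : K x ≠ 0) (h1 : ‖G x‖ ≤ B) (h2 : ‖K x‖ ≤ B)
    (h0 : 0 < q0) (h3 : q0 ≤ ‖q x‖) (h4 : fB C K G q e x ≤ b) :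
    sP C K G q e x ≤ b * (B ^ 3 / q0 ^ 2) := by
  have a1 := norm_pos_iff.2 hG
  have a2 := norm_pos_iff.2 hK
  have a3 := h0.trans_le h3
  have a4 : sP C K G q e x = fB C K G q e x * (‖G x‖ ^ 2 * ‖K x‖ / ‖q x‖ ^ 2) := by
    rw [fB_eq hG hK (norm_pos_iff.1 a3), norm_div, norm_mul, norm_pow, norm_pow]
    field_simp
  have a5 : 0 ≤ fB C K G q e x := norm_nonneg _
  have a6 : 0 ≤ B := a1.le.trans h1
  rw [a4, pow_succ B 2]
  gcongr
  exact a5.trans h4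

theorem isOpen_sep (cC : Continuous C) (cK : Continuous K) (cG : Continuous G)
    (cq : Continuous q) : IsOpen {x | SH.Sep C K G q e x} := by
  unfold SH.Sep pA pen
  exact isOpen_lt (by fun_prop) (by fun_prop)

end

/-- comparison along the old curve -/
theorem cmpC {A : Set E} (hA : IsCompact A) {K G q : E → ℂ} (cK : Continuous K)
    (cG : Continuous G) (cq : Continuous q) (h0 : ∀ y ∈ A, G y ≠ 0 ∧ K y ≠ 0 ∧ q y ≠ 0)
    {t c : ℝ} (ht : 0 < t) (hc : 0 ≤ c) :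
    ∃ R > (0 : ℝ), ∀ y ∈ A, ∀ x : E, x.1 = y.1 → ‖x.2 - y.2‖ ≤ R → ∀ (C : E → ℂ) (e M : ℝ),
      0 ≤ M →
      Cl t (fB C K G q e x)
        (sP C K G q e x * Real.exp (Real.log ‖q y ^ 2 / (G y ^ 2 * K y)‖) * 1) ∧
      Cl t (fB0 C K G q e M x)
        (sP C K G q e x * Real.exp (Real.log ‖q y ^ 2 / (G y ^ 2 * K y)‖) * M) ∧
      Cl t (fB1 C K G q e M c x) (sP C K G q e x *
        Real.exp (Real.log ‖q y ^ 2 / (G y ^ 2 * K y)‖ + -c * Real.log ‖K y‖) * M) := by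
  have hs : 0 < t / (5 + c) := by positivity
  obtain ⟨R1, a1, b1⟩ := ratio hA cq (fun y hy => (h0 y hy).2.2) hs
  obtain ⟨R2, a2, b2⟩ := ratio hA cG (fun y hy => (h0 y hy).1) hs
  obtain ⟨R3, a3, b3⟩ := ratio hA cK (fun y hy => (h0 y hy).2.1) hs
  refine ⟨min R1 (min R2 R3), by positivity, ?_⟩
  rintro y hy ⟨z, u⟩ (rfl : z = y.1) hu C e M hM
  obtain ⟨g1, g2, g3⟩ := h0 y hy
  have c1 := b1 y hy u (hu.trans (min_le_left _ _))
  have c2 := b2 y hy u (hu.trans ((min_le_right _ _).trans (min_le_left _ _)))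
  have c3 := b3 y hy u (hu.trans ((min_le_right _ _).trans (min_le_right _ _)))
  have p1 := norm_pos_iff.2 g1
  have p2 := norm_pos_iff.2 g2
  have p3 := norm_pos_iff.2 g3
  have d1 := cl_pos c1 p3
  have d2 := cl_pos c2 p1
  have d3 := cl_pos c3 p2
  have e1 := (c1.mul c1).mul (((c2.mul c2).mul c3).inv (by positivity) (by positivity))
  have e2 := (c3.inv d3 p2).rpow hc
  have n : ∀ x : E, ‖q x‖ * ‖q x‖ * (‖G x‖ * ‖G x‖ * ‖K x‖)⁻¹ = ‖q x ^ 2 / (G x ^ 2 * K x)‖ :=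
    fun x => by rw [norm_div, norm_mul, norm_pow, norm_pow, sq, sq, div_eq_mul_inv]
  rw [n, n] at e1
  have p4 : 0 < ‖q y ^ 2 / (G y ^ 2 * K y)‖ := by rw [← n]; positivity
  have s1 : t / (5 + c) * 5 + t / (5 + c) * c = t := by field_simp
  have s2 : 0 ≤ t / (5 + c) * c := by positivity
  have f0 := fB_eq (C := C) (e := e) (norm_pos_iff.1 d2) (norm_pos_iff.1 d3) (norm_pos_iff.1 d1)
  have f1 := (Cl.refl (a := sP C K G q e (y.1, u)) (norm_nonneg _)).mul e1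
  rw [← f0] at f1
  rw [Real.exp_add, Real.exp_log p4, mul_comm (-c), ← Real.rpow_def_of_pos p2,
    Real.rpow_neg p2.le, ← Real.inv_rpow p2.le]
  refine ⟨?_, ?_, ?_⟩
  · rw [mul_one]; exact f1.mono (by linarith)
  · rw [fB0, mul_comm M]; exact (f1.mul (Cl.refl hM)).mono (by linarith)
  · have := ((f1.mul e2).mul (Cl.refl hM)).mono (s := t) (by linarith)
    rwa [mul_comm _ M, ← mul_assoc, mul_assoc (sP C K G q e _)] at this

/-- comparison along the other curve -/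
theorem cmpK {A : Set E} (hA : IsCompact A) {C K G q : E → ℂ} (pC : IsPoly C) (pK : IsPoly K)
    (pG : IsPoly G) (pq : IsPoly q)
    (h0 : ∀ y ∈ A, K y = 0 ∧ G y ≠ 0 ∧ C y ≠ 0 ∧ dw K y ≠ 0) {t c : ℝ} (ht : 0 < t)
    (hc : 0 ≤ c) :
    ∃ R > (0 : ℝ), ∀ y ∈ A, ∀ x : E, x.1 = y.1 → ‖x.2 - y.2‖ ≤ R → ∀ (e : ℝ) (v : ℂ), 0 < e →
      e ≤ R → ‖v - y.2‖ ≤ R → pA C K G q e (y.1, v) = 0 →
      Cl t (fB C K G q e x) (‖x.2 - v‖ * ‖dw K y‖ * Real.exp (2 * Real.log ‖C y‖) * 1) ∧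
      Cl t (fBK C K G q e c x)
        (‖x.2 - v‖ * ‖dw K y‖ * Real.exp ((2 + c) * Real.log ‖C y‖) * (e ^ c)⁻¹) := by
  have hs : 0 < t / (3 + c) := by positivity
  have w : ∀ y ∈ A, dw (fun x => G x * K x * C x) y = G y * dw K y * C y := fun y hy => by
    rw [CF.dw_mul ((pG.mul pK).differentiableAt y) (pC.differentiableAt y),
      CF.dw_mul (pG.differentiableAt y) (pK.differentiableAt y), (h0 y hy).1]
    ring
  obtain ⟨R1, a1, b1⟩ := cmp hA ((pG.mul pK).mul pC) pq (fun y hy => by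
    rw [w y hy]
    exact mul_ne_zero (mul_ne_zero (h0 y hy).2.1 (h0 y hy).2.2.2) (h0 y hy).2.2.1) hs
  obtain ⟨R2, a2, b2⟩ := ratio hA pG.continuous (fun y hy => (h0 y hy).2.1) hs
  obtain ⟨R3, a3, b3⟩ := ratio hA pC.continuous (fun y hy => (h0 y hy).2.2.1) hs
  refine ⟨min R1 (min R2 R3), by positivity, ?_⟩
  rintro y hy ⟨z, u⟩ (rfl : z = y.1) hu e v he he' hv hz
  obtain ⟨-, g1, g2, g3⟩ := h0 y hy
  have c1 := b1 y hy e u v (by
    rw [Complex.norm_real, Real.norm_of_nonneg he.le]; exact he'.trans (min_le_left _ _))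
    (hu.trans (min_le_left _ _)) (hv.trans (min_le_left _ _)) hz
  have c2 := b2 y hy u (hu.trans ((min_le_right _ _).trans (min_le_left _ _)))
  have c3 := b3 y hy u (hu.trans ((min_le_right _ _).trans (min_le_right _ _)))
  have p1 := norm_pos_iff.2 g1
  have p2 := norm_pos_iff.2 g2
  have e1 := (c1.mul c3).mul (c2.inv (cl_pos c2 p1) p1)
  have e2 := (c3.mul (Cl.refl (inv_pos.2 he).le)).rpow hc
  have n1 : ‖u - v‖ * ‖dw (fun x => G x * K x * C x) y‖ * ‖C y‖ * ‖G y‖⁻¹ =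
      ‖u - v‖ * ‖dw K y‖ * Real.exp (2 * Real.log ‖C y‖) := by
    rw [w y hy, norm_mul, norm_mul, two_mul, Real.exp_add, Real.exp_log p2]
    field_simp
  have n2 : ‖pen (fun x => G x * K x * C x) q e (y.1, u)‖ * ‖C (y.1, u)‖ * ‖G (y.1, u)‖⁻¹ =
      fB C K G q e (y.1, u) := by
    rw [fB, norm_div, norm_mul, div_eq_mul_inv, pA]
  rw [n1, n2] at e1
  have s1 : t / (3 + c) * 3 + t / (3 + c) * c = t := by field_simp
  have s2 : 0 ≤ t / (3 + c) * c := by positivity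
  refine ⟨?_, ?_⟩
  · rw [mul_one]; exact e1.mono (by linarith)
  · have := (e1.mul e2).mono (s := t) (by linarith)
    rw [Real.mul_rpow p2.le (inv_pos.2 he).le, Real.inv_rpow he.le,
      Real.rpow_def_of_pos p2, ← mul_assoc _ (Real.exp _) (e ^ c)⁻¹,
      mul_assoc _ (Real.exp _) (Real.exp _), ← Real.exp_add,
      show 2 * Real.log ‖C y‖ + Real.log ‖C y‖ * c = (2 + c) * Real.log ‖C y‖ by ring] at this
    rwa [fBK, div_eq_mul_inv]

/-- rigidity of a part from the end properties -/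
def RG {J : Type} (Γ : Set E) (l : J → End) (Sig : Finset ℂ) (h r1 r2 : ℝ) (f : J → ℂ → ℝ)
    (κ : J → ℝ) (Cu Λ0 D t : ℝ) : Prop :=
  ∀ (X K : Set E) (τ : ℝ) (φ : E → ℝ) (ψ : J → E → ℝ) (thr : J → ℝ) (M lv : ℝ), 0 < M → 0 < lv →
    (∀ j, ∀ y ∈ SH.near X (l j).w τ, y.1 ∈ col (l j) h r1 r2 → y ∉ K ∧ 0 ≤ ψ j y ∧
      Cl t (φ y) (ψ j y * Real.exp (f j y.1) * M)) →
    (∀ j, 0 ≤ thr j ∧ ∀ z ∈ cc (l j) h r1, thr j * Real.exp (f j z) * M ≤ lv) →
    (∀ j, EP (l j) (X \ K) (ψ j) τ h r1 r2 Cu Λ0 (κ j) (thr j)) →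
    SH.CoreB Γ l Sig r1 h τ X φ lv → SH.Rig Γ l Sig r1 h r2 τ X K φ lv D

theorem rg_of {J : Type} [Fintype J] {P : E → ℂ} {Γ : Set E} {l : J → End} {Sig : Finset ℂ}
    {h r1 r2 : ℝ} {f : J → ℂ → ℝ} {κ : J → ℝ} {Cu Λ0 Cn D : ℝ}
    (H : PFit Γ l Sig h r1 r2 1 f κ Cu Λ0 Cn) (hc : IsCurve P Γ l) (hg : Geo P Γ l Sig r1 h)
    (h2 : 0 < r2) (h4 : r2 ≤ r1 / 4) (d1 : 1 ≤ D) (d2 : D ≤ Real.exp Cn) :
    ∀ᶠ t in 𝓝[>] (0 : ℝ), RG Γ l Sig h r1 r2 f κ Cu Λ0 D t := by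
  obtain ⟨C, -, t0, a, b⟩ := H.rig hc hg h2 h4
  filter_upwards [mem_nhdsWithin_of_mem_nhds (Iic_mem_nhds a)] with t ht X K τ φ ψ thr M lv
    k1 k2 k3 k4 k5 k6
  refine (b X K τ φ ψ thr M lv k1 k2 (fun j y c d => ?_) (fun j => ?_) k5 k6).1 D d1 d2
  · obtain ⟨m1, m2, m3⟩ := k3 j y c d
    rw [Real.rpow_one]
    exact ⟨m1, m2, (m3.mono ht).2.2⟩
  · simpa only [Real.rpow_one] using k4 j

theorem isClosed_dsc {Γ : Set E} (hΓ : IsClosed Γ) (Sig : Finset ℂ) (r1 : ℝ) :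
    IsClosed (SH.dsc Γ Sig r1) := by
  have : SH.dsc Γ Sig r1 = Γ ∩ ⋃ b ∈ Sig, {x : E | ‖x.1 - b‖ ≤ r1} := by
    ext x; simp [SH.dsc]
  rw [this]
  exact hΓ.inter (Sig.finite_toSet.isClosed_biUnion fun b _ =>
    isClosed_le (by fun_prop) continuous_const)

/-- a neighbourhood of the surface misses the large core and the discs -/
theorem away {J : Type} [Fintype J] {P : E → ℂ} {Γ S : Set E} {l : J → End} {Sig : Finset ℂ}
    {h r1 r2 : ℝ} (hc : IsCurve P Γ l) (hg : Geo P Γ l Sig r1 h) (h2 : 0 < r2) (h4 : r2 ≤ r1 / 4)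
    (hS : IsCompact S) (H : ∀ y ∈ S, y ∈ Γ → ∃ j, y ∈ (l j).gr ((l j).nearO (h / 16) r2)) :
    IsCompact (core Γ l Sig r2 (h / 16)) ∧ ∃ R > (0 : ℝ),
      core Γ l Sig r2 (h / 16) ∪ SH.dsc Γ Sig r1 ⊆ (cthickening R S)ᶜ := by
  have p1 := hg.hpos
  have p2 := hg.r1pos
  have c1 := (CF.all_reg J P Γ l Sig r1 h hc hg).2 (h / 16) r2 (by linarith) (by linarith) h2
    (by linarith)
  obtain ⟨R, a, b⟩ := hS.exists_cthickening_subset_open
    (c1.isClosed.union (isClosed_dsc hc.cpt.isClosed Sig r1)).isOpen_compl fun y hy k => by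
      rcases k with k | k
      · obtain ⟨j, hj⟩ := H y hy k.1
        exact k.2.2 j hj
      · obtain ⟨j, hj⟩ := H y hy k.1
        obtain ⟨b, hb, k'⟩ := k.2
        linarith [hg.sig j _ ((l j).nearO_subset_near (by linarith) (by linarith) hj.1) b hb]
  exact ⟨c1, R, a, subset_compl_comm.1 b⟩

/-- the oscillation of a weight on the core circle -/
theorem osc_cc {l : End} {h r1 k Λ : ℝ} {f : ℂ → ℝ} (H : LW l h r1 f k Λ) (h0 : 0 < h)
    (h1 : 0 < r1) {z z0 : ℂ} (hz : z ∈ cc l h r1) (hz0 : z0 ∈ cc l h r1) :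
    |f z - f z0| ≤ Λ * (1 + h) := by
  have := PF.osc H h0 h1 le_rfl (PF.cc_col h0.le le_rfl hz) hz0
  split_ifs at this with hk
  · rw [cc, if_pos hk, mem_sphere_iff_norm] at hz
    rwa [hz, div_self h1.ne', Real.log_one, mul_zero, sub_zero] at this
  · rwa [sub_zero] at this

/-- the factor of the end property on the collar -/
theorem fac_le {l : End} {h r1 r2 κ s : ℝ} (h2 : 0 < r2) (hr : r2 ≤ r1) (hs : |κ| ≤ s) {z : ℂ}
    (hz : z ∈ col l h r1 r2) :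
    (if l.k = Kind.pt then (r1 / ‖z - l.c‖) ^ κ else 1) ≤ (r1 / r2) ^ s := by
  have a : 1 ≤ r1 / r2 := (one_le_div h2).2 hr
  have b : 0 ≤ s := (abs_nonneg _).trans hs
  split_ifs with hk
  · rw [col, if_pos hk] at hz
    have c : 0 < ‖z - l.c‖ := h2.trans_le hz.1
    exact (Real.rpow_le_rpow_of_exponent_le ((one_le_div c).2 hz.2)
      ((le_abs_self _).trans hs)).trans (Real.rpow_le_rpow (div_nonneg (by linarith) c.le)
      (div_le_div_of_nonneg_left (by linarith) h2 hz.1) b)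
  · exact Real.one_le_rpow a b

end CERTB

end Pool.Agent.S6
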