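import Pool.Agent.Lib.S6.B_SPLIT
import Pool.Agent.Lib.S6.B_AB
import Pool.Agent.Lib.S6.B_CTX2
import Pool.Agent.Lib.S6.B_CERTB
import Pool.Agent.Lib.S6.B_STAGE
import Pool.Agent.Lib.S6.B_INIT3
import Pool.Agent.Lib.S6.B_MAIN
import Pool.Agent.Lib.S6.B_BIRTH
import Pool.Agent.Lib.S6.B_RESET
import Pool.Agent.Lib.S6.B_ENDS
import Pool.Agent.Lib.S6.B_SERVE
import Pool.Agent.Lib.S6.B_PATH
import Pool.Agent.Lib.S6.B_CTXM
import Pool.Agent.Lib.S6.B_LW
import Pool.Agent.Lib.S6.B_SECA2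
import Pool.Agent.Lib.S6.B_NEWGEO7

/-!
Section 6 of the project 9ccfb7: the chain of the blocks.
-/

namespace Pool.Agent.S6

theorem main_of (hS : St_SITE) : St_MAIN :=
  st_main (run4_of st_ab2 (st_split4 hS st_certb (st_serve st_ends))
    (st_stage4 st_ctx2 (st_birth st_ends) (st_reset st_ends) st_newgeo7
      (st_path st_ctx2 st_ctxm (st_reset st_ends) st_lw)))
    (st_init3 st_newgeo7 st_ctx2 (st_serve st_ends) st_clear) st_inh

end Pool.Agent.S6
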