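import Pool.Agent.Lib.S6.Chain
import Pool.Agent.Lib.S6.B_SITE
import Pool.Agent.Lib.S6.B_RING
import Pool.Agent.Lib.S6.B_CHB
import Pool.Agent.Lib.S6.B_AWD
import Pool.Agent.Lib.S6.B_NWD
import Pool.Agent.Lib.S6.B_NWIN
import Pool.Agent.Lib.S6.B_PSD
import Pool.Agent.Lib.S6.B_SPW
import Pool.Agent.Lib.S6.B_W3P
import Pool.Agent.Lib.S6.B_W3LU
import Pool.Agent.Lib.S6.B_BQ
import Pool.Agent.Lib.S6.B_RNG
import Pool.Agent.Lib.S6.B_ZRD
import Pool.Agent.Lib.S6.B_VCM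
import Pool.Agent.Lib.S6.B_STR
import Pool.Agent.Lib.S6.B_SITK
import Pool.Agent.Lib.S6.B_LOWR
import Pool.Agent.Lib.S6.B_KDS

/-!
Section 6 of the project 9ccfb7: the chain of the blocks of the site.
-/

namespace Pool.Agent.S6

theorem ring_all : St_RING :=
  st_ring st_chb (st_awd st_spw) (st_nwd (st_nwin st_spw (st_psd st_spw)) (st_psd st_spw))
    (st_w3p (st_w3lu st_spw st_bq)) st_rng st_zrd

theorem main_of2 (hP : St_PEND) (hL : St_LOC) (hH : St_LOWH) (hG : St_GEOB) (hD : St_DESC) :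
    St_MAIN :=
  main_of (st_site ring_all hP st_vcm (st_str st_fam) (st_sitk hL) st_lowr hH hG st_kds hD)

end Pool.Agent.S6
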