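import Pool.Agent.Lib.S6.Blue3

/-!
Project 9ccfb7: joining the components of the surface by thin totally real bands.
-/

open Set Filter Topology Metric
open scoped ContDiff

noncomputable section

namespace Pool.Agent.S6.Cn

open Pool.Agent.Lib Pool.Agent.Lib.SH
open Pool.Agent.Lib.MP_9ccfb7_an (IsSurface HasDisc)

/-- height above the contact circle; `s = 1` for a port, `s = -1` for a hub -/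
def ph (c : ℂ) (ρ s : ℝ) (z : ℂ) : ℝ := s * (‖z - c‖ ^ 2 - ρ ^ 2)

/-- the part of a component of height at most `m` -/
def Dm (c : ℂ) (ρ s m : ℝ) : Set ℂ := {z | ph c ρ s z ≤ m ∧ (s = -1 → 0 ≤ ph c ρ s z)}

/-- horizontal segment -/
def seg (h x0 x1 : ℝ) : Set ℂ := {z | z.im = h ∧ x0 ≤ z.re ∧ z.re ≤ x1}

/-- a horizontal segment from one contact circle to another one -/
structure Edge (c c' : ℂ) (ρ ρ' s s' h x0 x1 : ℝ) : Prop where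
  lt : x0 < x1
  l0 : ph c ρ s ⟨x0, h⟩ = 0 ∧ 0 < s * (x0 - c.re)
  r0 : ph c' ρ' s' ⟨x1, h⟩ = 0 ∧ s' * (x1 - c'.re) < 0
  pos : ∀ x ∈ Icc x0 x1, (x0 < x → 0 < ph c ρ s ⟨x, h⟩) ∧ (x < x1 → 0 < ph c' ρ' s' ⟨x, h⟩)

/-- the initial surface, the curves `A` and the edges -/
structure Base {I J : Type} (c : I → ℂ) (ρ s : I → ℝ) (dom : I → Set ℂ) (F : I → ℂ → ℂ)
    (A : Set E) (f : Bool → ℂ → ℂ) (a b : J → I) (h x0 x1 : J → ℝ) : Prop where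
  rad : ∀ i, 0 < ρ i ∧ (s i = 1 ∨ s i = -1)
  cpt : ∀ i, IsCompact (dom i)
  sub : ∃ m0 > (0 : ℝ), ∀ i, Dm (c i) (ρ i) (s i) m0 ⊆ dom i
  sup : ∀ i, ∀ z ∈ dom i, s i = -1 → 0 ≤ ph (c i) (ρ i) (s i) z
  sm : ∀ i, ContDiff ℝ ∞ (F i)
  gap : ∀ i j, i ≠ j → ∀ z ∈ dom i, z ∈ dom j → F i z ≠ F j z
  cA : IsCompact A
  pA : hull A ⊆ A
  pY : hull (grs F dom ∪ A) ⊆ grs F dom ∪ A
  poly : ∀ k, IsPoly fun y => f k y.1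
  root : ∀ y ∈ A, ∃ k, y.2 = f k y.1
  ct : ∀ i, ∀ z ∈ dom i, (ph (c i) (ρ i) (s i) z ≤ 0 → (z, F i z) ∈ A) ∧
    (0 < ph (c i) (ρ i) (s i) z → (∀ k, F i z ≠ f k z) ∧ dbar (F i) z ≠ 0)
  edge : ∀ e, Edge (c (a e)) (c (b e)) (ρ (a e)) (ρ (b e)) (s (a e)) (s (b e)) (h e) (x0 e) (x1 e)
  inj : Function.Injective h
  conn : ∀ P : I → Prop, (∀ e, P (a e) ↔ P (b e)) → ∀ i j, P i → P j

/-- `G` is close to `F` with first derivatives -/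
def C1 (ε : ℝ) (F G : ℂ → ℂ) : Prop :=
  ∀ z, ‖G z - F z‖ ≤ ε ∧ ‖fderiv ℝ G z - fderiv ℝ F z‖ ≤ ε

/-- arbitrarily near `F` there are surfaces with nontrivial hull without discs -/
def Lims {I : Type} (dom : I → Set ℂ) (F : I → ℂ → ℂ) : Prop :=
  ∀ ε : ℝ, 0 < ε → ∃ G : I → ℂ → ℂ, (∀ i, ContDiff ℝ ∞ (G i) ∧ C1 ε (F i) (G i)) ∧
    hull (grs G dom) ≠ grs G dom ∧ ¬ HasDisc (hull (grs G dom))

/-- the limit theorem with control of the distance from the first state -/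
def St_LIM2 : Prop := ∀ ab : Ab, StageP2 ab → ∀ (I : Type) [Fintype I] (fx : Fix I), fx.OK →
  ∀ s0 : State2 fx ab.L ab.Cw, Lims fx.dom s0.σ.F

/-- the initial state with its geometry -/
def St_INIT4 : Prop := ∀ ab : Ab, ab.OK → ∃ (I J : Type) (_ : Fintype I) (_ : Fintype J)
  (fx : Fix I) (s0 : State2 fx ab.L ab.Cw) (c : I → ℂ) (ρ s : I → ℝ) (f : Bool → ℂ → ℂ)
  (a b : J → I) (h x0 x1 : J → ℝ), fx.OK ∧ Base c ρ s fx.dom s0.σ.F s0.σ.A f a b h x0 x1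

/-- existence of edges: from a port to a hub which contains it, and between two hubs -/
def St_EDGE : Prop :=
  (∀ (c c' : ℂ) (ρ ρ' : ℝ), 0 < ρ → ‖c - c'‖ + ρ < ρ' →
    {h | ∃ x0 x1, Edge c c' ρ ρ' 1 (-1) h x0 x1}.Infinite) ∧
  {h | ∃ x0 x1, Edge 1 (-1) (31 / 20) (31 / 20) (-1) (-1) h x0 x1}.Infinite ∧
  ∀ (J : Type) [Fintype J] (T : J → Set ℝ), (∀ e, (T e).Infinite) →
    ∃ h : J → ℝ, Function.Injective h ∧ ∀ e, h e ∈ T e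

/-- arcs over horizontal segments at different heights -/
def St_ARC : Prop := ∀ (J : Type) [Fintype J] (A : Set E) (P : E → ℂ) (g : J → ℂ → ℂ)
  (h x0 x1 : J → ℝ), IsCompact A → hull A ⊆ A → IsPoly P → (∀ y ∈ A, P y = 0) →
  (∀ e, Continuous (g e)) → Function.Injective h →
  (∀ e, ∀ z ∈ seg (h e) (x0 e) (x1 e), P (z, g e z) = 0 → (z, g e z) ∈ A) →
  hull (A ∪ grs g fun e => seg (h e) (x0 e) (x1 e)) ⊆ A ∪ grs g fun e => seg (h e) (x0 e) (x1 e)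

/-- components, charts, discs, connectedness of the pieces -/
def St_TOP : Prop :=
  (∀ (S : Set E) (x : E), IsSurface S → x ∈ S → IsSurface (connectedComponentIn S x)) ∧
  (∀ S : Set E, IsCompact S → (∀ p ∈ S, ∃ (f : ℂ → ℂ) (r : ℂ → ℝ), ContDiff ℝ ∞ f ∧
    ContDiff ℝ ∞ r ∧ (r p.1 < 0 ∨ fderiv ℝ r p.1 ≠ 0) ∧
      ∀ᶠ y in 𝓝 p, (y ∈ S ↔ y.2 = f y.1 ∧ r y.1 ≤ 0)) → IsSurface S) ∧
  (∀ X T : Set E, IsClosed X → ¬ HasDisc X → (∀ p ∈ T, p ∉ X → ∃ f : ℂ → ℂ, ContDiff ℝ ∞ f ∧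
    dbar f p.1 ≠ 0 ∧ ∀ᶠ y in 𝓝 p, y ∈ T → y.2 = f y.1) → ¬ HasDisc (X ∪ T)) ∧
  ∀ (c : ℂ) (ρ s m : ℝ), 0 < ρ → (s = 1 ∨ s = -1) → 0 < m → m < ρ ^ 2 →
    IsCompact (Dm c ρ s m) ∧ IsConnected (Dm c ρ s m) ∧ ∃ r : ℂ → ℝ, ContDiff ℝ ∞ r ∧
      ∀ z, (z ∈ Dm c ρ s m ↔ r z ≤ 0) ∧ (r z = 0 → fderiv ℝ r z ≠ 0)

/-- the bridge between two functions -/
def br (χ : ℝ → ℝ) (u Ga Gb : ℂ → ℂ) (z : ℂ) : ℂ :=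
  χ z.re * Ga z + (1 - χ z.re) * Gb z + u z

/-- the bridge avoids the roots and is totally real along the segment -/
def St_PATHC : Prop := ∀ (Fa Fb : ℂ → ℂ) (f : Bool → ℂ → ℂ) (h x0 x1 δ : ℝ), ContDiff ℝ ∞ Fa →
  ContDiff ℝ ∞ Fb → (∀ k, ContDiff ℝ ∞ (f k)) → 0 < δ → x0 + δ < x1 - δ →
  (∀ x ∈ Ioc x0 (x0 + δ), (∀ k, Fa ⟨x, h⟩ ≠ f k ⟨x, h⟩) ∧ dbar Fa ⟨x, h⟩ ≠ 0) →
  (∀ x ∈ Ico (x1 - δ) x1, (∀ k, Fb ⟨x, h⟩ ≠ f k ⟨x, h⟩) ∧ dbar Fb ⟨x, h⟩ ≠ 0) →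
  ∃ (χ : ℝ → ℝ) (u : ℂ → ℂ) (C : ℝ),
    (∀ Ga Gb : ℂ → ℂ, (∀ z : ℂ, z.re ≤ x0 + δ → br χ u Ga Gb z = Ga z) ∧
      (∀ z : ℂ, x1 - δ ≤ z.re → br χ u Ga Gb z = Gb z) ∧
      (ContDiff ℝ ∞ Ga → ContDiff ℝ ∞ Gb → ContDiff ℝ ∞ (br χ u Ga Gb) ∧
        ∀ ε : ℝ, C1 ε Fa Ga → C1 ε Fb Gb → C1 (C * ε) (br χ u Fa Fb) (br χ u Ga Gb))) ∧
    ∀ x ∈ Ioo x0 x1, (∀ k, br χ u Fa Fb ⟨x, h⟩ ≠ f k ⟨x, h⟩) ∧ dbar (br χ u Fa Fb) ⟨x, h⟩ ≠ 0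

/-- defining function of a band -/
def rb (φ φ' : ℂ → ℝ) (h m ε : ℝ) (z : ℂ) : ℝ :=
  1 - expNegInvGlue (2 * m - φ z) / expNegInvGlue m - expNegInvGlue (2 * m - φ' z) / expNegInvGlue m -
    2 * expNegInvGlue (1 - ((z.im - h) / ε) ^ 2) / expNegInvGlue 1

/-- the new part of a band -/
def band (φ φ' : ℂ → ℝ) (h x0 x1 m ε : ℝ) : Set ℂ :=
  {z | |z.im - h| ≤ ε ∧ x0 ≤ z.re ∧ z.re ≤ x1 ∧ m ≤ φ z ∧ m ≤ φ' z ∧ rb φ φ' h m ε z ≤ 0}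

/-- planar geometry of a band -/
structure Band (φ φ' : ℂ → ℝ) (D D' : Set ℂ) (h x0 x1 δ m ε : ℝ) : Prop where
  cpt : IsCompact (band φ φ' h x0 x1 m ε)
  sm : ContDiff ℝ ∞ (rb φ φ' h m ε)
  reg : ∀ z ∈ band φ φ' h x0 x1 m ε, rb φ φ' h m ε z < 0 ∨ fderiv ℝ (rb φ φ' h m ε) z ≠ 0
  loc : ∀ z ∈ band φ φ' h x0 x1 m ε, ∀ᶠ y in 𝓝 z, (rb φ φ' h m ε y ≤ 0 ↔
    y ∈ band φ φ' h x0 x1 m ε ∨ (y.re < x0 + δ ∧ y ∈ D) ∨ (x1 - δ < y.re ∧ y ∈ D'))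
  core : ∀ z ∈ seg h x0 x1, z ∈ band φ φ' h x0 x1 m ε ∨ (z.re < x0 + δ ∧ z ∈ D) ∨
    (x1 - δ < z.re ∧ z ∈ D')

def St_BAND : Prop := ∀ (c c' : ℂ) (ρ ρ' s s' h x0 x1 δ : ℝ), Edge c c' ρ ρ' s s' h x0 x1 →
  0 < δ → x0 + δ < x1 - δ → ∀ᶠ m in 𝓝[>] (0 : ℝ), ∀ᶠ ε in 𝓝[>] (0 : ℝ),
    Band (ph c ρ s) (ph c' ρ' s') (Dm c ρ s m) (Dm c' ρ' s' m) h x0 x1 δ m ε

/-- the hull of nearby surfaces, local form -/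
def St_HT2 : Prop := ∀ (α : Type) (l : Filter α) (H A : Set E) (K : α → Set E), IsCompact H →
  hull H ⊆ H → (∀ᶠ θ in l, IsCompact (K θ)) →
  (∀ η : ℝ, 0 < η → ∀ᶠ θ in l, K θ ⊆ thickening η H) →
  (∀ p ∈ H, p ∉ A → ∃ f : ℂ → ℂ, ContDiff ℝ ∞ f ∧ dbar f p.1 ≠ 0 ∧ ∃ U ∈ 𝓝 p,
    (∀ y ∈ H, y ∈ U → y.2 = f y.1) ∧ ∀ κ : ℝ, 0 < κ → ∀ᶠ θ in l, ∃ g : ℂ → ℂ,
      ContDiff ℝ ∞ g ∧ C1 κ f g ∧ ∀ y ∈ K θ, y ∈ U → y.2 = g y.1) →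
  ∀ R : ℝ, 0 < R → ∀ᶠ θ in l, hull (K θ) \ K θ ⊆ thickening R A

/-- the local maximum principle for the new part of a hull -/
def St_MPX : Prop := ∀ K T N : Set E, IsCompact K → IsClosed N → hull K \ K ⊆ N → K ∩ N ⊆ T →
  hull K ⊆ K ∪ hull T

def St_MAINC : Prop := ∃ S : Set E, IsSurface S ∧ IsConnected S ∧ MP_9ccfb7_an.hull S ≠ S ∧
  ¬ HasDisc (MP_9ccfb7_an.hull S)

/-- joining the components -/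
def St_CONN : Prop := ∀ (I J : Type) [Fintype I] [Fintype J] (c : I → ℂ) (ρ s : I → ℝ)
  (dom : I → Set ℂ) (F : I → ℂ → ℂ) (A : Set E) (f : Bool → ℂ → ℂ) (a b : J → I)
  (h x0 x1 : J → ℝ), Base c ρ s dom F A f a b h x0 x1 → Lims dom F → St_MAINC

theorem mainc_of (hR : St_RUN3) (hI : St_INIT4) (hL : St_LIM2) (hC : St_CONN) : St_MAINC := by
  obtain ⟨ab, ok, st⟩ := hR
  obtain ⟨I, J, _, _, fx, s0, c, ρ, s, f, a, b, h, x0, x1, h1, h2⟩ := hI ab ok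
  exact hC I J c ρ s _ _ _ f a b h x0 x1 h2 (hL ab st I fx h1 s0)

end Pool.Agent.S6.Cn
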