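import Pool.Agent.Lib.S6.Cn0
import Pool.Agent.Lib.SH.B_BRIDGE
import Pool.Agent.Lib.SH.B_HTUBE

/-! Arcs over horizontal lines attached to a polynomially convex part of an algebraic curve. -/

open Set Filter Topology Metric

noncomputable section

namespace Pool.Agent.S6.Cn

open Pool.Agent.Lib

namespace ARC

open Pool.Agent.HULL (hull)

/-- a compact set without peak points outside `K` lies in the hull of `K` -/
theorem sub_hull {Z K : Set E} (hZ : IsCompact Z) (h : ∀ y ∈ Z, y ∉ K → HULL.NoPeak Z y) :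
    Z ⊆ hull K := fun y hy => CF.mem_hull_iff.2 fun F hF _ hM =>
  HULL.maxabs HULL.c2 hZ hF.continuous.norm.continuousOn (fun x hx hb =>
    ⟨h x hx fun a => hb.not_ge (hM x a), F, hF.analyticAt x, Eventually.of_forall fun _ _ => rfl⟩)
    y hy

theorem maxa {Z K : Set E} (hZ : IsCompact Z) (h : ∀ y ∈ Z, y ∉ K → HULL.NoPeak Z y) {F : E → ℂ}
    (hF : ∀ y ∈ Z, AnalyticAt ℂ F y) {M : ℝ} (hM : ∀ y ∈ Z, y ∈ K → ‖F y‖ ≤ M) :
    ∀ y ∈ Z, ‖F y‖ ≤ M :=
  HULL.maxabs HULL.c2 hZ (fun y hy => (hF y hy).continuousAt.norm.continuousWithinAt)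
    fun x hx hb => ⟨h x hx fun a => hb.not_ge (hM x hx a), F, hF x hx,
      Eventually.of_forall fun _ _ => rfl⟩

theorem far {Hs : Set ℝ} (hH : Hs.Finite) (s : ℝ) : ∃ ρ > 0, ∀ t ∈ Hs, t ≠ s → ρ < |t - s| := by
  obtain ⟨ε, a, b⟩ := Metric.isOpen_iff.1 (hH.sdiff (t := {s})).isClosed.isOpen_compl s
    fun h => h.2 rfl
  refine ⟨ε / 2, half_pos a, fun t ht hs => ?_⟩
  by_contra k
  exact b (show t ∈ ball s ε by rw [mem_ball, Real.dist_eq]; linarith [not_lt.1 k]) ⟨ht, hs⟩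

/-- the hull stays over the lines -/
theorem lines {γ : Set E} {Hs : Set ℝ} (hγ : IsCompact γ) (hH : Hs.Finite)
    (h : ∀ y ∈ γ, y.1.im ∈ Hs) : ∀ y ∈ hull γ, y.1.im ∈ Hs := by
  intro y hy
  by_contra hn
  obtain ⟨ρ, a, b⟩ := far hH y.1.im
  have hX := HULL.isCompact_hull2 hγ
  have hP : IsCompact (Prod.fst '' hull γ) := hX.image continuous_fst
  have hne : (Prod.fst '' hull γ).Nonempty := ⟨_, y, hy, rfl⟩
  obtain ⟨R, hR⟩ := hP.isBounded.subset_closedBall y.1
  have hc : Continuous fun x : ℝ => infDist (y.1 + x) (Prod.fst '' hull γ) :=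
    (continuous_infDist_pt _).comp (by fun_prop)
  have h0 : 0 ≤ R := by simpa using hR ⟨y, hy, rfl⟩
  obtain ⟨x, -, hx⟩ := intermediate_value_Icc (show (0 : ℝ) ≤ R + ρ by linarith) hc.continuousOn
    (show ρ ∈ Icc _ _ from ⟨by
      simp only [Complex.ofReal_zero, add_zero]
      rw [infDist_zero_of_mem (mem_image_of_mem _ hy)]; exact a.le,
    (le_infDist hne).2 fun z hz => by
      have e := dist_triangle (y.1 + (R + ρ : ℝ)) z y.1
      rw [dist_self_add_left, Complex.norm_real, Real.norm_of_nonneg (by linarith)] at e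
      linarith [mem_closedBall.1 (hR hz)]⟩)
  have hx' : infDist (y.1 + x) (Prod.fst '' hull γ) = ρ := hx
  obtain ⟨_, ⟨y1, h1, rfl⟩, h2⟩ := hP.exists_infDist_eq_dist hne (y.1 + x)
  have h3 : ∀ w ∈ hull γ, ρ ≤ ‖w.1 - (y.1 + x)‖ := fun w hw => by
    rw [← hx', ← dist_eq_norm, dist_comm]
    exact infDist_le_dist_of_mem (mem_image_of_mem _ hw)
  obtain ⟨ρ', c, d⟩ : ∃ ρ' > ρ, ∀ w ∈ γ, ρ' ≤ ‖w.1 - (y.1 + x)‖ :=
    hγ.exists_forall_le' (by fun_prop) fun w hw => (b _ (h w hw) fun e => hn (e ▸ h w hw)).trans_le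
      (by simpa using Complex.abs_im_le_norm (w.1 - (y.1 + x)))
  have h4 := maxa hX (fun w hw => (HULL.lm_hull hγ).noPeak w hw (mem_univ _))
    (F := fun w => (w.1 - (y.1 + x))⁻¹) (fun w hw => (analyticAt_fst.sub analyticAt_const).inv
      (norm_pos_iff.1 (a.trans_le (h3 w hw)))) (M := ρ'⁻¹) (fun w _ hw => by
      rw [norm_inv]; exact inv_anti₀ (a.trans c) (d w hw)) y1 h1
  rw [norm_inv, ← dist_eq_norm, dist_comm, ← h2, hx'] at h4
  exact h4.not_gt (inv_strictAnti₀ a c)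

/-- compact sets over finitely many horizontal lines with finite fibres -/
theorem pc {γ : Set E} {Hs : Set ℝ} (hγ : IsCompact γ) (hH : Hs.Finite)
    (h : ∀ y ∈ γ, y.1.im ∈ Hs) (hf : ∀ z, {w | (z, w) ∈ γ}.Finite) : hull γ ⊆ γ := by
  intro y hy
  by_contra hn
  obtain ⟨ρ, a, b⟩ := far hH y.1.im
  have hX := HULL.isCompact_hull2 hγ
  have hi : Continuous fun w : E => w.1.im := by fun_prop
  have hZ : IsCompact (hull γ ∩ {w | w.1.im = y.1.im}) :=
    hX.inter_right (isClosed_eq hi continuous_const)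
  have h1 : ∀ w ∈ hull γ ∩ {w | w.1.im = y.1.im}, w ∉ γ →
      HULL.NoPeak (hull γ ∩ {w | w.1.im = y.1.im}) w := fun w hw e => by
    refine ((HULL.lm_hull hγ).noPeak w hw.1 (mem_univ _) e).mono ?_
    have : ∀ᶠ x in 𝓝 w, |x.1.im - y.1.im| < ρ :=
      (hi.sub continuous_const).abs.continuousAt.eventually_lt continuousAt_const (by
        simpa [show w.1.im = y.1.im from hw.2] using a)
    filter_upwards [this] with x c d
    exact ⟨d, by_contra fun k => c.not_gt (b _ (lines hγ hH h x d) k)⟩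
  set f : E → ℂ := fun w => ∏ v ∈ (hf y.1).toFinset, (w.2 - v) with hf0
  have fa : ∀ w, AnalyticAt ℂ f w := fun w =>
    Finset.analyticAt_fun_prod _ fun v _ => analyticAt_snd.sub analyticAt_const
  have fc : Continuous f := continuous_iff_continuousAt.2 fun w => (fa w).continuousAt
  have f0 : 0 < ‖f y‖ := norm_pos_iff.2 (Finset.prod_ne_zero_iff.2 fun v hv e => hn (by
    have := (hf y.1).mem_toFinset.1 hv
    rwa [← sub_eq_zero.1 e] at this))
  obtain ⟨M, hM⟩ := hγ.exists_bound_of_continuousOn fc.continuousOn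
  have hT : IsCompact (γ ∩ ({w | w.1.im = y.1.im} ∩ {w | ‖f y‖ / 2 ≤ ‖f w‖})) :=
    hγ.inter_right ((isClosed_eq hi continuous_const).inter (isClosed_le continuous_const fc.norm))
  obtain ⟨δ, c, d⟩ := hT.exists_forall_le' (f := fun w => (w.1.re - y.1.re) ^ 2) (a := 0)
    (by fun_prop) fun w hw => sq_pos_iff.2 fun e => by
      have e1 : w.1 = y.1 := Complex.ext (sub_eq_zero.1 e) hw.2.1
      have e2 : f w = 0 := Finset.prod_eq_zero ((hf y.1).mem_toFinset.2
        (show (y.1, w.2) ∈ γ from e1 ▸ hw.1)) (sub_self _)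
      have e3 : ‖f y‖ / 2 ≤ ‖f w‖ := hw.2.2
      rw [e2, norm_zero] at e3
      linarith
  have t1 : Tendsto (fun n : ℝ => M * Real.exp (-(n * δ))) atTop (𝓝 (M * 0)) :=
    (Real.tendsto_exp_neg_atTop_nhds_zero.comp (tendsto_id.atTop_mul_const c)).const_mul M
  obtain ⟨n, n1, n2⟩ := ((t1.eventually (gt_mem_nhds (show M * 0 < ‖f y‖ / 2 by
    simpa using f0))).and (eventually_ge_atTop 0)).exists
  have h2 := maxa hZ h1 (F := fun w => f w * Complex.exp (-(n * (w.1 - y.1) ^ 2)))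
    (fun w _ => (fa w).mul (analyticAt_const.mul
      ((analyticAt_fst.sub analyticAt_const).pow 2)).neg.cexp) (M := ‖f y‖ / 2) (fun w hw e => by
      have e1 : (-(n * (w.1 - y.1) ^ 2) : ℂ).re = -(n * (w.1.re - y.1.re) ^ 2) := by
        simp [sq, show w.1.im = y.1.im from hw.2]
      rw [norm_mul, Complex.norm_exp, e1]
      by_cases k : ‖f y‖ / 2 ≤ ‖f w‖
      · refine le_trans (mul_le_mul (hM w e) (Real.exp_le_exp.2 (neg_le_neg
          (mul_le_mul_of_nonneg_left (d w ⟨e, hw.2, k⟩) n2))) (Real.exp_pos _).le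
          ((norm_nonneg _).trans (hM w e))) n1.le
      · exact (mul_le_of_le_one_right (norm_nonneg _) (Real.exp_le_one_iff.2
          (neg_nonpos.2 (by positivity)))).trans (not_le.1 k).le) y ⟨hy, rfl⟩
  simp only [sub_self, ne_eq, OfNat.ofNat_ne_zero, not_false_eq_true, zero_pow, mul_zero,
    neg_zero, Complex.exp_zero, mul_one] at h2
  linarith

/-- off the curve the hull is controlled by the arcs -/
theorem off {A γ : Set E} {P : E → ℂ} (hγ : IsCompact γ) (hP : CF.IsPoly P)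
    (h0 : ∀ y ∈ A, P y = 0) {y : E} (hy : y ∈ hull (A ∪ γ)) (h : P y ≠ 0) : y ∈ hull γ := by
  refine CF.mem_hull_iff.2 fun F hF M hM => ?_
  obtain ⟨C, hC⟩ := hγ.exists_bound_of_continuousOn hP.continuous.continuousOn
  by_contra k
  rcases γ.eq_empty_or_nonempty with rfl | ⟨p, hp⟩
  · refine h (norm_le_zero_iff.1 (CF.mem_hull_iff.1 hy P hP 0 ?_))
    rintro x (a | a)
    · simp [h0 x a]
    · exact a.elim
  have m0 : 0 ≤ M := (norm_nonneg _).trans (hM p hp)
  have c0 : 0 ≤ C := (norm_nonneg _).trans (hC p hp)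
  have f0 : 0 < ‖F y‖ := m0.trans_lt (not_le.1 k)
  have h1 : ∀ n : ℕ, ‖P y‖ ≤ (M / ‖F y‖) ^ n * C := fun n => by
    have := CF.mem_hull_iff.1 hy (fun x => F x ^ n * P x) ((hF.pow n).mul hP) (M ^ n * C) (by
      rintro x (a | a)
      · simp only [h0 x a, mul_zero, norm_zero]; positivity
      · rw [norm_mul, norm_pow]
        exact mul_le_mul (pow_le_pow_left₀ (norm_nonneg _) (hM x a) n) (hC x a) (norm_nonneg _)
          (by positivity))
    rw [norm_mul, norm_pow] at this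
    rw [div_pow, div_mul_eq_mul_div, le_div_iff₀ (by positivity)]
    linarith
  have h2 := ge_of_tendsto' ((tendsto_pow_atTop_nhds_zero_of_lt_one (by positivity)
    ((div_lt_one f0).2 (not_le.1 k))).mul_const C) h1
  exact h (by simpa using h2)

/-- the general form: finitely many heights and finite fibres -/
theorem gen {A γ : Set E} {P : E → ℂ} {Hs : Set ℝ} (hA : IsCompact A) (hγ : IsCompact γ)
    (pA : hull A ⊆ A) (hP : CF.IsPoly P) (h0 : ∀ y ∈ A, P y = 0) (hH : Hs.Finite)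
    (h1 : ∀ y ∈ γ, y.1.im ∈ Hs) (h2 : ∀ z, {w | (z, w) ∈ γ}.Finite)
    (h3 : ∀ y ∈ γ, P y = 0 → y ∈ A) : hull (A ∪ γ) ⊆ A ∪ γ := by
  have k : ∀ y ∈ hull (A ∪ γ), y ∉ γ → P y = 0 := fun y hy e =>
    by_contra fun a => e (pc hγ hH h1 h2 (off hγ hP h0 hy a))
  have hZ : IsCompact (hull (A ∪ γ) ∩ {y | P y = 0}) :=
    (HULL.isCompact_hull2 (hA.union hγ)).inter_right (isClosed_eq hP.continuous continuous_const)
  intro y hy
  by_cases e : y ∈ γ
  · exact Or.inr e
  refine Or.inl (pA (sub_hull hZ (fun x hx a => ?_) ⟨hy, k y hy e⟩))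
  have b : x ∉ γ := fun c => a (h3 x c hx.2)
  refine ((HULL.lm_hull (hA.union hγ)).noPeak x hx.1 (mem_univ _) fun c => c.elim a b).mono ?_
  filter_upwards [hγ.isClosed.isOpen_compl.mem_nhds b] with w c d using ⟨d, k w d c⟩

theorem isCompact_seg (h x0 x1 : ℝ) : IsCompact (seg h x0 x1) := by
  have : seg h x0 x1 = (fun x : ℝ => (x + h * Complex.I : ℂ)) '' Icc x0 x1 := by
    ext z
    refine ⟨fun a => ⟨z.re, a.2, ?_⟩, ?_⟩
    · rw [← a.1]; exact Complex.re_add_im z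
    · rintro ⟨x, a, rfl⟩
      exact ⟨by simp, by simpa using a.1, by simpa using a.2⟩
  rw [this]
  exact isCompact_Icc.image (by fun_prop)

end ARC

theorem st_arc2 : St_ARC := by
  intro J _ A P g h x0 x1 hA pc ⟨q, hq⟩ h0 hg _ h3
  rw [SH.BRIDGE.hull_eq] at pc ⊢
  refine ARC.gen (P := P) (Hs := range h) hA
    (SH.HTUBE.isCompact_grs hg fun e => ARC.isCompact_seg _ _ _) pc
    (funext hq ▸ CF.IsPoly.of_mv q) h0 (finite_range h) (fun y ⟨e, a, _⟩ => ⟨e, a.1.symm⟩)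
    (fun z => (finite_range fun e => g e z).subset fun w ⟨e, _, a⟩ => ⟨e, Eq.symm a⟩)
    fun y ⟨e, a, b⟩ c => ?_
  have k : y = (y.1, g e y.1) := Prod.ext rfl b
  exact k ▸ h3 e _ a (k ▸ c)

end Pool.Agent.S6.Cn
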