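import Pool.Agent.Lib.S6.Cn0

/-!
Project 9ccfb7: planar geometry of a band.
-/

open Set Filter Topology Metric
open scoped ContDiff

noncomputable section

namespace Pool.Agent.S6.Cn

/-- derivative of the glue function -/
def gd (t : ℝ) : ℝ := t⁻¹ ^ 2 * expNegInvGlue t

theorem g_deriv (t : ℝ) : HasDerivAt expNegInvGlue (gd t) t := by
  have h := expNegInvGlue.hasDerivAt_polynomial_eval_inv_mul 1 t
  simpa [gd] using h

theorem gd_pos {t : ℝ} (ht : 0 < t) : 0 < gd t :=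
  mul_pos (pow_pos (inv_pos.2 ht) 2) (expNegInvGlue.pos_of_pos ht)

theorem gd_zero {t : ℝ} (ht : t ≤ 0) : gd t = 0 := by
  simp [gd, expNegInvGlue.zero_of_nonpos ht]

theorem g_lt {t m : ℝ} (hm : 0 < m) (h : t < m) : expNegInvGlue t < expNegInvGlue m := by
  rcases le_or_gt t 0 with ht | ht
  · rw [expNegInvGlue.zero_of_nonpos ht]
    exact expNegInvGlue.pos_of_pos hm
  · simp only [expNegInvGlue, not_le.2 ht, not_le.2 hm, if_false]
    exact Real.exp_lt_exp.2 (neg_lt_neg ((inv_lt_inv₀ hm ht).2 h))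

theorem line_deriv {φ : ℂ → ℝ} (hφ : ContDiff ℝ ∞ φ) (z v : ℂ) :
    HasDerivAt (fun t : ℝ => φ (z + t • v)) (fderiv ℝ φ z v) 0 := by
  have h1 : HasFDerivAt φ (fderiv ℝ φ z) (z + (0 : ℝ) • v) := by
    simpa using (hφ.differentiable (by simp) z).hasFDerivAt
  have h2 : HasDerivAt (fun t : ℝ => z + t • v) v 0 := by
    simpa using ((hasDerivAt_id (0 : ℝ)).smul_const v).const_add z
  exact h1.comp_hasDerivAt (f := fun t : ℝ => z + t • v) 0 h2

theorem rb_smooth {φ φ' : ℂ → ℝ} (hφ : ContDiff ℝ ∞ φ) (hφ' : ContDiff ℝ ∞ φ') (h m ε : ℝ) :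
    ContDiff ℝ ∞ (rb φ φ' h m ε) := by
  have hg : ContDiff ℝ ∞ expNegInvGlue := expNegInvGlue.contDiff (n := ⊤)
  have hi : ContDiff ℝ ∞ fun z : ℂ => z.im := Complex.imCLM.contDiff
  unfold rb
  exact ((contDiff_const.sub ((hg.comp (contDiff_const.sub hφ)).div_const _)).sub
    ((hg.comp (contDiff_const.sub hφ')).div_const _)).sub
    ((contDiff_const.mul (hg.comp (contDiff_const.sub
      (((hi.sub contDiff_const).div_const _).pow 2)))).div_const _)

theorem rb_deriv {φ φ' : ℂ → ℝ} (hφ : ContDiff ℝ ∞ φ) (hφ' : ContDiff ℝ ∞ φ') (h m ε : ℝ)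
    (z v : ℂ) : fderiv ℝ (rb φ φ' h m ε) z v =
      gd (2 * m - φ z) * fderiv ℝ φ z v / expNegInvGlue m +
      gd (2 * m - φ' z) * fderiv ℝ φ' z v / expNegInvGlue m +
      2 * (gd (1 - ((z.im - h) / ε) ^ 2) * (2 * ((z.im - h) / ε) * (v.im / ε))) /
        expNegInvGlue 1 := by
  have e0 : z + (0 : ℝ) • v = z := by simp
  have h1 : HasDerivAt (fun t : ℝ => expNegInvGlue (2 * m - φ (z + t • v)))
      (gd (2 * m - φ (z + (0 : ℝ) • v)) * -fderiv ℝ φ z v) 0 :=
    (g_deriv _).comp (0 : ℝ) ((line_deriv hφ z v).const_sub (2 * m))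
  have h2 : HasDerivAt (fun t : ℝ => expNegInvGlue (2 * m - φ' (z + t • v)))
      (gd (2 * m - φ' (z + (0 : ℝ) • v)) * -fderiv ℝ φ' z v) 0 :=
    (g_deriv _).comp (0 : ℝ) ((line_deriv hφ' z v).const_sub (2 * m))
  have h3 : HasDerivAt (fun t : ℝ => (z + t • v).im) v.im 0 := by
    have := ((hasDerivAt_id (0 : ℝ)).mul_const v.im).const_add z.im
    simpa using this
  have h4 : HasDerivAt (fun t : ℝ => expNegInvGlue (1 - (((z + t • v).im - h) / ε) ^ 2))
      (gd (1 - (((z + (0 : ℝ) • v).im - h) / ε) ^ 2) *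
        -(((2 : ℕ) : ℝ) * (((z + (0 : ℝ) • v).im - h) / ε) ^ (2 - 1) * (v.im / ε))) 0 :=
    (g_deriv _).comp (0 : ℝ) ((((h3.sub_const h).div_const ε).pow 2).const_sub 1)
  have h5 := (((h1.div_const (expNegInvGlue m)).const_sub 1).sub
    (h2.div_const (expNegInvGlue m))).sub ((h4.const_mul 2).div_const (expNegInvGlue 1))
  have h6 := (line_deriv (rb_smooth hφ hφ' h m ε) z v).unique h5
  rw [h6, e0]
  push_cast
  ring

theorem band_of {φ φ' : ℂ → ℝ} {D D' : Set ℂ} {h x0 x1 δ m ε : ℝ} (hm : 0 < m) (hε : 0 < ε)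
    (hδ : x0 + δ < x1 - δ) (hφ : ContDiff ℝ ∞ φ) (hφ' : ContDiff ℝ ∞ φ')
    (hD : ∀ z, (z ∈ D → φ z ≤ m) ∧ (0 ≤ φ z → φ z ≤ m → z ∈ D))
    (hD' : ∀ z, (z ∈ D' → φ' z ≤ m) ∧ (0 ≤ φ' z → φ' z ≤ m → z ∈ D'))
    (hA : ∀ z : ℂ, |z.im - h| ≤ 2 * ε → x0 ≤ z.re → z.re ≤ x1 → φ z ≤ 2 * m →
      z.re < x0 + δ ∧ 0 < fderiv ℝ φ z 1)
    (hB : ∀ z : ℂ, |z.im - h| ≤ 2 * ε → x0 ≤ z.re → z.re ≤ x1 → φ' z ≤ 2 * m →
      x1 - δ < z.re ∧ fderiv ℝ φ' z 1 < 0)
    (hC : ∀ z : ℂ, |z.im - h| ≤ 2 * ε → (z.re = x0 → φ z < m) ∧ (z.re = x1 → φ' z < m))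
    (hS : ∀ z ∈ seg h x0 x1, 0 ≤ φ z ∧ 0 ≤ φ' z) : Band φ φ' D D' h x0 x1 δ m ε := by
  have gm := expNegInvGlue.pos_of_pos hm
  have g1 := expNegInvGlue.pos_of_pos one_pos
  have sm := rb_smooth hφ hφ' h m ε
  have n1 : ∀ y, 0 ≤ expNegInvGlue (2 * m - φ y) / expNegInvGlue m := fun y =>
    div_nonneg (expNegInvGlue.nonneg _) gm.le
  have n2 : ∀ y, 0 ≤ expNegInvGlue (2 * m - φ' y) / expNegInvGlue m := fun y =>
    div_nonneg (expNegInvGlue.nonneg _) gm.le
  have n3 : ∀ y : ℂ, 0 ≤ 2 * expNegInvGlue (1 - ((y.im - h) / ε) ^ 2) / expNegInvGlue 1 :=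
    fun y => div_nonneg (mul_nonneg two_pos.le (expNegInvGlue.nonneg _)) g1.le
  refine ⟨?_, sm, ?_, ?_, ?_⟩
  · have hK : IsCompact (Icc x0 x1 ×ℂ Icc (h - ε) (h + ε)) :=
      IsCompact.reProdIm isCompact_Icc isCompact_Icc
    have cr := Complex.continuous_re
    have ci := Complex.continuous_im
    refine hK.of_isClosed_subset ?_ ?_
    · exact (isClosed_le (ci.sub continuous_const).abs continuous_const).inter
        ((isClosed_le continuous_const cr).inter ((isClosed_le cr continuous_const).inter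
        ((isClosed_le continuous_const hφ.continuous).inter
        ((isClosed_le continuous_const hφ'.continuous).inter
        (isClosed_le sm.continuous continuous_const)))))
    · rintro z ⟨h1, h2, h3, -⟩
      have := abs_le.1 h1
      exact Complex.mem_reProdIm.2 ⟨⟨h2, h3⟩, by linarith [this.1], by linarith [this.2]⟩
  · rintro z ⟨h1, h2, h3, -, -, h6⟩
    refine or_iff_not_imp_left.2 fun hn h0 => ?_
    have h1' : |z.im - h| ≤ 2 * ε := by linarith
    have d1 := rb_deriv hφ hφ' h m ε z 1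
    have dI := rb_deriv hφ hφ' h m ε z Complex.I
    rw [h0] at d1 dI
    simp only [zero_apply, Complex.one_im, zero_div, mul_zero, add_zero,
      Complex.I_im] at d1 dI
    rcases lt_or_ge (φ z) (2 * m) with ha | ha
    · obtain ⟨a1, a2⟩ := hA z h1' h2 h3 ha.le
      have hb : 2 * m < φ' z := lt_of_not_ge fun hb => by
        have := (hB z h1' h2 h3 hb).1
        linarith
      rw [gd_zero (t := 2 * m - φ' z) (by linarith), zero_mul, zero_div, add_zero] at d1
      exact (div_pos (mul_pos (gd_pos (t := 2 * m - φ z) (by linarith)) a2) gm).ne d1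
    rcases lt_or_ge (φ' z) (2 * m) with hb | hb
    · obtain ⟨a1, a2⟩ := hB z h1' h2 h3 hb.le
      rw [gd_zero (t := 2 * m - φ z) (by linarith), zero_mul, zero_div, zero_add] at d1
      exact (div_neg_of_neg_of_pos
        (mul_neg_of_pos_of_neg (gd_pos (t := 2 * m - φ' z) (by linarith)) a2) gm).ne d1.symm
    rw [gd_zero (t := 2 * m - φ z) (by linarith), gd_zero (t := 2 * m - φ' z) (by linarith),
      zero_mul, zero_mul, zero_div, zero_add, zero_add] at dI
    have e : rb φ φ' h m ε z = 0 := le_antisymm h6 (not_lt.1 hn)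
    unfold rb at e
    rw [expNegInvGlue.zero_of_nonpos (x := 2 * m - φ z) (by linarith),
      expNegInvGlue.zero_of_nonpos (x := 2 * m - φ' z) (by linarith), zero_div] at e
    have e2 : 2 * expNegInvGlue (1 - ((z.im - h) / ε) ^ 2) = expNegInvGlue 1 := by
      have : 2 * expNegInvGlue (1 - ((z.im - h) / ε) ^ 2) / expNegInvGlue 1 = 1 := by linarith
      exact (div_eq_one_iff_eq g1.ne').1 this
    have p1 : 0 < 1 - ((z.im - h) / ε) ^ 2 := lt_of_not_ge fun hh => by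
      rw [expNegInvGlue.zero_of_nonpos hh] at e2
      linarith
    have p2 : (z.im - h) / ε ≠ 0 := fun hh => by
      rw [hh] at e2
      norm_num at e2
    refine div_ne_zero (mul_ne_zero two_ne_zero (mul_ne_zero (gd_pos p1).ne'
      (mul_ne_zero (mul_ne_zero two_ne_zero p2) (one_div_pos.2 hε).ne'))) g1.ne' dI.symm
  · rintro z ⟨h1, h2, h3, h4, h5, -⟩
    have h1' : |z.im - h| ≤ 2 * ε := by linarith
    have l0 : x0 < z.re := lt_of_le_of_ne h2 fun e => by
      have := (hC z h1').1 e.symm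
      linarith
    have l1 : z.re < x1 := lt_of_le_of_ne h3 fun e => by
      have := (hC z h1').2 e
      linarith
    have cr := Complex.continuous_re
    have ci : Continuous fun y : ℂ => |y.im - h| :=
      (Complex.continuous_im.sub continuous_const).abs
    have v1 : ∀ᶠ y in 𝓝 z, x0 < y.re := cr.continuousAt.eventually (lt_mem_nhds l0)
    have v2 : ∀ᶠ y in 𝓝 z, y.re < x1 := cr.continuousAt.eventually (gt_mem_nhds l1)
    have v3 : ∀ᶠ y in 𝓝 z, |y.im - h| < 2 * ε :=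
      ci.continuousAt.eventually (gt_mem_nhds (show |z.im - h| < 2 * ε by linarith))
    have v4 : ∀ᶠ y in 𝓝 z, 0 < φ y :=
      hφ.continuous.continuousAt.eventually (lt_mem_nhds (show 0 < φ z by linarith))
    have v5 : ∀ᶠ y in 𝓝 z, 0 < φ' y :=
      hφ'.continuous.continuousAt.eventually (lt_mem_nhds (show 0 < φ' z by linarith))
    filter_upwards [v1, v2, v3, v4, v5] with y w1 w2 w3 w4 w5
    constructor
    · intro hr
      rcases le_or_gt (φ y) m with ha | ha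
      · exact Or.inr (Or.inl ⟨(hA y w3.le w1.le w2.le (by linarith)).1, (hD y).2 w4.le ha⟩)
      rcases le_or_gt (φ' y) m with hb | hb
      · exact Or.inr (Or.inr ⟨(hB y w3.le w1.le w2.le (by linarith)).1, (hD' y).2 w5.le hb⟩)
      refine Or.inl ⟨le_of_not_gt fun hh => ?_, w1.le, w2.le, ha.le, hb.le, hr⟩
      have q : 1 - ((y.im - h) / ε) ^ 2 ≤ 0 := by
        have : 1 ≤ |(y.im - h) / ε| := by
          rw [abs_div, abs_of_pos hε, le_div_iff₀ hε]
          linarith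
        have := (one_le_sq_iff_one_le_abs _).2 this
        linarith
      have k1 : expNegInvGlue (2 * m - φ y) / expNegInvGlue m < 1 :=
        (div_lt_one gm).2 (g_lt hm (by linarith))
      have k2 : expNegInvGlue (2 * m - φ' y) / expNegInvGlue m < 1 :=
        (div_lt_one gm).2 (g_lt hm (by linarith))
      unfold rb at hr
      rw [expNegInvGlue.zero_of_nonpos q, mul_zero, zero_div] at hr
      rcases le_or_gt (φ y) (2 * m) with ha2 | ha2
      · have a1 := (hA y w3.le w1.le w2.le ha2).1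
        have hb2 : 2 * m < φ' y := lt_of_not_ge fun hb => by
          have := (hB y w3.le w1.le w2.le hb).1
          linarith
        rw [expNegInvGlue.zero_of_nonpos (x := 2 * m - φ' y) (by linarith), zero_div] at hr
        linarith
      · rw [expNegInvGlue.zero_of_nonpos (x := 2 * m - φ y) (by linarith), zero_div] at hr
        linarith
    · rintro (hy | ⟨-, hy⟩ | ⟨-, hy⟩)
      · exact hy.2.2.2.2.2
      · have k : 1 ≤ expNegInvGlue (2 * m - φ y) / expNegInvGlue m :=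
          (one_le_div gm).2 (expNegInvGlue.monotone (by linarith [(hD y).1 hy]))
        unfold rb
        linarith [n2 y, n3 y]
      · have k : 1 ≤ expNegInvGlue (2 * m - φ' y) / expNegInvGlue m :=
          (one_le_div gm).2 (expNegInvGlue.monotone (by linarith [(hD' y).1 hy]))
        unfold rb
        linarith [n1 y, n3 y]
  · intro z hz
    obtain ⟨s1, s2⟩ := hS z hz
    obtain ⟨e, w1, w2⟩ := hz
    have e1 : |z.im - h| = 0 := by simp [e]
    have w3 : |z.im - h| ≤ 2 * ε := by linarith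
    rcases le_or_gt (φ z) m with ha | ha
    · exact Or.inr (Or.inl ⟨(hA z w3 w1 w2 (by linarith)).1, (hD z).2 s1 ha⟩)
    rcases le_or_gt (φ' z) m with hb | hb
    · exact Or.inr (Or.inr ⟨(hB z w3 w1 w2 (by linarith)).1, (hD' z).2 s2 hb⟩)
    refine Or.inl ⟨by linarith, w1, w2, ha.le, hb.le, ?_⟩
    have k : 2 * expNegInvGlue (1 - ((z.im - h) / ε) ^ 2) / expNegInvGlue 1 = 2 := by
      rw [e, sub_self, zero_div]
      norm_num
    unfold rb
    linarith [n1 z, n2 z]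

theorem ph_smooth (c : ℂ) (ρ s : ℝ) : ContDiff ℝ ∞ (ph c ρ s) := by
  unfold ph
  exact contDiff_const.mul (((contDiff_norm_sq ℝ).comp (contDiff_id.sub contDiff_const)).sub
    contDiff_const)

theorem ph_eq (c : ℂ) (ρ s : ℝ) (z : ℂ) :
    ph c ρ s z = s * ((z.re - c.re) ^ 2 + (z.im - c.im) ^ 2 - ρ ^ 2) := by
  unfold ph
  rw [Complex.sq_norm, Complex.normSq_apply, Complex.sub_re, Complex.sub_im]
  ring

theorem ph_deriv (c : ℂ) (ρ s : ℝ) (z : ℂ) :
    fderiv ℝ (ph c ρ s) z 1 = 2 * (s * (z.re - c.re)) := by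
  have h1 : HasDerivAt (fun t : ℝ => s * ((z.re + t - c.re) ^ 2 + (z.im - c.im) ^ 2 - ρ ^ 2))
      (s * (((2 : ℕ) : ℝ) * (z.re + 0 - c.re) ^ (2 - 1) * 1)) 0 :=
    (((((hasDerivAt_id (0 : ℝ)).const_add z.re).sub_const c.re).pow 2).add_const _
      |>.sub_const _).const_mul s
  have h2 := line_deriv (ph_smooth c ρ s) z 1
  have e : (fun t : ℝ => ph c ρ s (z + t • (1 : ℂ))) =
      fun t : ℝ => s * ((z.re + t - c.re) ^ 2 + (z.im - c.im) ^ 2 - ρ ^ 2) := by
    funext t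
    rw [ph_eq]
    simp
  rw [e] at h2
  rw [h2.unique h1]
  push_cast
  ring

/-- the height varies little across a thin strip -/
theorem ph_strip (c : ℂ) (ρ s h m : ℝ) (hm : 0 < m) : ∀ᶠ ε in 𝓝[>] (0 : ℝ), ∀ z : ℂ,
    |z.im - h| ≤ 2 * ε → |ph c ρ s z - ph c ρ s ⟨z.re, h⟩| < m := by
  have hc : Continuous fun y : ℝ => |s * ((y - c.im) ^ 2 - (h - c.im) ^ 2)| := by fun_prop
  have h1 : ∀ᶠ y in 𝓝 h, |s * ((y - c.im) ^ 2 - (h - c.im) ^ 2)| < m :=
    hc.continuousAt.eventually (gt_mem_nhds (by simpa using hm))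
  obtain ⟨r, hr, h2⟩ := Metric.eventually_nhds_iff.1 h1
  filter_upwards [Ioo_mem_nhdsGT (show (0 : ℝ) < r / 2 by linarith)] with ε hε z hz
  have e : ph c ρ s z - ph c ρ s ⟨z.re, h⟩ = s * ((z.im - c.im) ^ 2 - (h - c.im) ^ 2) := by
    rw [ph_eq, ph_eq]
    ring
  rw [e]
  exact h2 (by rw [Real.dist_eq]; linarith [hε.2])

/-- small values of a function on a segment are taken near its only zero -/
theorem small_near {f : ℝ → ℝ} (hf : Continuous f) {x0 x1 a : ℝ} {U : Set ℝ} (hU : U ∈ 𝓝 a)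
    (hp : ∀ x ∈ Icc x0 x1, x ≠ a → 0 < f x) :
    ∀ᶠ m in 𝓝[>] (0 : ℝ), ∀ x ∈ Icc x0 x1, f x ≤ 3 * m → x ∈ U := by
  have hK : IsCompact (Icc x0 x1 \ interior U) := isCompact_Icc.diff isOpen_interior
  obtain ⟨μ, hμ, h1⟩ := hK.exists_forall_le' (a := (0 : ℝ)) hf.continuousOn fun x hx =>
    hp x hx.1 fun e => hx.2 (e ▸ mem_interior_iff_mem_nhds.2 hU)
  filter_upwards [Ioo_mem_nhdsGT (show (0 : ℝ) < μ / 3 by linarith)] with m hm x hx hfx
  by_contra hn
  have := h1 x ⟨hx, fun hi => hn (interior_subset hi)⟩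
  linarith [hm.2]

theorem st_band : St_BAND := by
  intro c c' ρ ρ' s s' h x0 x1 δ E hδ hlt
  have cm : Continuous fun x : ℝ => (⟨x, h⟩ : ℂ) := by
    have : (fun x : ℝ => (⟨x, h⟩ : ℂ)) = fun x : ℝ => (x : ℂ) + h * Complex.I := by
      funext x
      apply Complex.ext <;> simp
    rw [this]
    fun_prop
  have u0 : {x : ℝ | x < x0 + δ ∧ 0 < s * (x - c.re)} ∈ 𝓝 x0 := by
    have hc : Continuous fun x : ℝ => s * (x - c.re) := by fun_prop
    exact (gt_mem_nhds (by linarith)).and (hc.continuousAt.eventually (lt_mem_nhds E.l0.2))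
  have u1 : {x : ℝ | x1 - δ < x ∧ s' * (x - c'.re) < 0} ∈ 𝓝 x1 := by
    have hc : Continuous fun x : ℝ => s' * (x - c'.re) := by fun_prop
    exact (lt_mem_nhds (by linarith)).and (hc.continuousAt.eventually (gt_mem_nhds E.r0.2))
  have m0 := small_near ((ph_smooth c ρ s).continuous.comp cm) u0 fun x hx hne =>
    (E.pos x hx).1 (lt_of_le_of_ne hx.1 hne.symm)
  have m1 := small_near ((ph_smooth c' ρ' s').continuous.comp cm) u1 fun x hx hne =>
    (E.pos x hx).2 (lt_of_le_of_ne hx.2 hne)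
  filter_upwards [m0, m1, self_mem_nhdsWithin] with m a0 a1 hm
  have hm : 0 < m := hm
  filter_upwards [ph_strip c ρ s h m hm, ph_strip c' ρ' s' h m hm, self_mem_nhdsWithin]
    with ε b0 b1 hε
  refine band_of hm hε hlt (ph_smooth c ρ s) (ph_smooth c' ρ' s')
    (fun z => ⟨fun hz => hz.1, fun h1 h2 => ⟨h2, fun _ => h1⟩⟩)
    (fun z => ⟨fun hz => hz.1, fun h1 h2 => ⟨h2, fun _ => h1⟩⟩) ?_ ?_ ?_ ?_
  · intro z h1 h2 h3 h4
    have k := abs_lt.1 (b0 z h1)
    have := a0 z.re ⟨h2, h3⟩ (show ph c ρ s ⟨z.re, h⟩ ≤ 3 * m by linarith [k.1])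
    rw [ph_deriv]
    exact ⟨this.1, by linarith [this.2]⟩
  · intro z h1 h2 h3 h4
    have k := abs_lt.1 (b1 z h1)
    have := a1 z.re ⟨h2, h3⟩ (show ph c' ρ' s' ⟨z.re, h⟩ ≤ 3 * m by linarith [k.1])
    rw [ph_deriv]
    exact ⟨this.1, by linarith [this.2]⟩
  · intro z h1
    have k0 := abs_lt.1 (b0 z h1)
    have k1 := abs_lt.1 (b1 z h1)
    refine ⟨fun e => ?_, fun e => ?_⟩
    · rw [e, E.l0.1] at k0
      linarith [k0.2]
    · rw [e, E.r0.1] at k1
      linarith [k1.2]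
  · rintro ⟨x, y⟩ ⟨e, w1, w2⟩
    dsimp only at e w1 w2
    subst e
    refine ⟨?_, ?_⟩
    · rcases eq_or_lt_of_le w1 with e | e
      · rw [← e, E.l0.1]
      · exact ((E.pos x ⟨w1, w2⟩).1 e).le
    · rcases eq_or_lt_of_le w2 with e | e
      · rw [e, E.r0.1]
      · exact ((E.pos x ⟨w1, w2⟩).2 e).le

end Pool.Agent.S6.Cn
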