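import Pool.Agent.Lib.S6.CnFin

/-!
Project 9ccfb7: choice of the parameters for the connected surface.
-/

open Set Filter Topology Metric
open scoped ContDiff

noncomputable section

namespace Pool.Agent.S6.Cn

open Pool.Agent.Lib Pool.Agent.Lib.SH
open Pool.Agent.Lib.MP_9ccfb7_an (IsSurface HasDisc)

theorem tub {Z : Set ℂ} (hZ : IsCompact Z) {f : ℂ → ℂ} (hf : Continuous f) {q : ℂ → ℝ}
    (hq : Continuous q) {N : Set E} (hN : IsOpen N) (h : ∀ z ∈ Z, q z ≤ 0 → (z, f z) ∈ N) :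
    ∀ᶠ η in 𝓝[>] (0 : ℝ), ∀ z ∈ Z, q z ≤ η → ∀ w, ‖w - f z‖ ≤ η → (z, w) ∈ N := by
  have h1 : ∀ᶠ η in 𝓝 (0 : ℝ), ∀ y ∈ Z ×ˢ closedBall (0 : ℂ) 1, q y.1 ≤ η → ‖y.2‖ ≤ η →
      (y.1, f y.1 + y.2) ∈ N := by
    refine (hZ.prod (isCompact_closedBall 0 1)).eventually_forall_of_forall_eventually
      fun y hy => ?_
    by_cases a : 0 < q y.1
    · exact (ContinuousAt.eventually_lt (f := fun p : ℝ × E => p.1) (g := fun p => q p.2.1)
        (by fun_prop) (by fun_prop) a).mono fun p b c => absurd c (not_le.2 b)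
    by_cases b : 0 < ‖y.2‖
    · exact (ContinuousAt.eventually_lt (f := fun p : ℝ × E => p.1) (g := fun p => ‖p.2.2‖)
        (by fun_prop) (by fun_prop) b).mono fun p b _ c => absurd c (not_le.2 b)
    have c : ContinuousAt (fun p : ℝ × E => ((p.2.1, f p.2.1 + p.2.2) : E)) (0, y) := by fun_prop
    refine (c.eventually (hN.mem_nhds ?_)).mono fun p d _ _ => d
    simpa [norm_le_zero_iff.1 (not_lt.1 b)] using h y.1 hy.1 (not_lt.1 a)
  filter_upwards [h1.filter_mono nhdsWithin_le_nhds, Ioo_mem_nhdsGT one_pos] with η a b z c d w e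
  simpa using a (z, w - f z) ⟨c, mem_closedBall_zero_iff.2 (e.trans b.2.le)⟩ d e

theorem tub' {κ : Type} [Finite κ] {Z : κ → Set ℂ} (hZ : ∀ k, IsCompact (Z k)) {f : κ → ℂ → ℂ}
    (hf : ∀ k, Continuous (f k)) {q : κ → ℂ → ℝ} (hq : ∀ k, Continuous (q k)) {N : κ → Set E}
    (hN : ∀ k, IsOpen (N k)) (h : ∀ k, ∀ z ∈ Z k, q k z ≤ 0 → (z, f k z) ∈ N k) :
    ∃ η > (0 : ℝ), ∀ k, ∀ z ∈ Z k, q k z ≤ η → ∀ w, ‖w - f k z‖ ≤ η → (z, w) ∈ N k :=
  let ⟨η, a, b⟩ := ((eventually_all.2 fun k => tub (hZ k) (hf k) (hq k) (hN k) (h k)).and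
    self_mem_nhdsWithin).exists
  ⟨η, b, a⟩

theorem C1.mono {ε ε' : ℝ} {F G : ℂ → ℂ} (h : C1 ε F G) (k : ε ≤ ε') : C1 ε' F G :=
  fun z => ⟨(h z).1.trans k, (h z).2.trans k⟩

theorem C1.db {ε : ℝ} {F G : ℂ → ℂ} (h : C1 ε F G) (z : ℂ) : ‖dbar G z - dbar F z‖ ≤ ε := by
  have e : dbar G z - dbar F z = ((fderiv ℝ G z - fderiv ℝ F z) 1 +
      Complex.I * (fderiv ℝ G z - fderiv ℝ F z) Complex.I) / 2 := by
    simp only [SH.dbar, ContinuousLinearMap.sub_apply]; ring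
  have a := (fderiv ℝ G z - fderiv ℝ F z).le_opNorm 1
  have b := (fderiv ℝ G z - fderiv ℝ F z).le_opNorm Complex.I
  have c := norm_add_le ((fderiv ℝ G z - fderiv ℝ F z) 1)
    (Complex.I * (fderiv ℝ G z - fderiv ℝ F z) Complex.I)
  rw [norm_mul, Complex.norm_I, one_mul] at c
  rw [norm_one, mul_one] at a
  rw [Complex.norm_I, mul_one] at b
  rw [e, norm_div, Complex.norm_two]
  linarith [(h z).2]

theorem cont_dbar {f : ℂ → ℂ} (hf : ContDiff ℝ ∞ f) : Continuous (dbar f) := by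
  have := hf.continuous_fderiv (by simp)
  unfold SH.dbar
  fun_prop

theorem cont_ph (c : ℂ) (ρ s : ℝ) : Continuous (ph c ρ s) := by unfold ph; fun_prop

/-- closed rectangle -/
def rct (h x0 x1 : ℝ) : Set ℂ := {z | |z.im - h| ≤ 1 ∧ x0 ≤ z.re ∧ z.re ≤ x1}

theorem cim (h : ℝ) : Continuous fun z : ℂ => |z.im - h| := by fun_prop

theorem rct_cpt (h x0 x1 : ℝ) : IsCompact (rct h x0 x1) := by
  refine (isCompact_Icc (a := x0) (b := x1)).reProdIm (isCompact_Icc (a := h - 1) (b := h + 1))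
    |>.of_isClosed_subset ?_ fun z hz => ⟨hz.2, by linarith [abs_le.1 hz.1],
      by linarith [abs_le.1 hz.1]⟩
  exact (isClosed_le (cim h) continuous_const).inter
    ((isClosed_le continuous_const Complex.continuous_re).inter
      (isClosed_le Complex.continuous_re continuous_const))

theorem rct_seg {h x0 x1 : ℝ} {z : ℂ} (a : z ∈ rct h x0 x1) (b : |z.im - h| ≤ 0) :
    z ∈ seg h x0 x1 := ⟨sub_eq_zero.1 (abs_nonpos_iff.1 b), a.2⟩

theorem seg_cpt (h x0 x1 : ℝ) : IsCompact (seg h x0 x1) :=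
  (rct_cpt h x0 x1).of_isClosed_subset ((isClosed_eq Complex.continuous_im continuous_const).inter
    ((isClosed_le continuous_const Complex.continuous_re).inter
      (isClosed_le Complex.continuous_re continuous_const)))
    fun z hz => ⟨by simp [hz.1], hz.2⟩

theorem seg_eq {h x0 x1 : ℝ} {z : ℂ} (a : z ∈ seg h x0 x1) : z = ⟨z.re, h⟩ := by rw [← a.1]

theorem band_cpt {φ φ' : ℂ → ℝ} (a : Continuous φ) (b : Continuous φ') (h x0 x1 m : ℝ) {ε : ℝ}
    (e : ε ≤ 1) : IsCompact (band φ φ' h x0 x1 m ε) := by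
  have c : Continuous expNegInvGlue := (expNegInvGlue.contDiff (n := 0)).continuous
  refine (rct_cpt h x0 x1).of_isClosed_subset ?_ fun z hz => ⟨hz.1.trans e, hz.2.1, hz.2.2.1⟩
  have d : Continuous (rb φ φ' h m ε) := by unfold rb; fun_prop
  exact (isClosed_le (cim h) continuous_const).inter
    ((isClosed_le continuous_const Complex.continuous_re).inter
    ((isClosed_le Complex.continuous_re continuous_const).inter
    ((isClosed_le continuous_const a).inter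
    ((isClosed_le continuous_const b).inter (isClosed_le d continuous_const)))))

theorem closed_imp (p : Prop) {q : ℂ → ℝ} (hq : Continuous q) : IsClosed {z | p → 0 ≤ q z} := by
  by_cases v : p
  · simpa [v] using isClosed_le continuous_const hq
  · simp [v]

theorem away {A T : Set E} (hA : IsCompact A) (hT : IsCompact T) (h : ∀ y ∈ T, y ∉ A) :
    ∃ R > (0 : ℝ), ∀ y ∈ T, y ∉ cthickening R A :=
  let ⟨R, a, b⟩ := hA.exists_cthickening_subset_open hT.isClosed.isOpen_compl fun y c d => h y d c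
  ⟨R, a, fun _ c d => b d c⟩

theorem st_conn (hA : St_ARC) (hT : St_TOP) (hP : St_PATHC) (hB : St_BAND) (hH : St_HT2)
    (hM : St_MPX) : St_CONN := by
  intro I J _ _ c ρ s dom F A f a b h x0 x1 B L
  obtain ⟨m0, m00, hm0⟩ := B.sub
  set φ : I → ℂ → ℝ := fun i => ph (c i) (ρ i) (s i) with hφ
  have φc : ∀ i, Continuous (φ i) := fun i => cont_ph _ _ _
  have Fc : ∀ i, Continuous (F i) := fun i => (B.sm i).continuous
  have fs : ∀ k, ContDiff ℝ ∞ (f k) := fun k => contDiff_iff_contDiffAt.2 fun z =>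
    (((B.poly k).analyticAt (z, 0)).comp (f := fun z : ℂ => ((z, 0) : E))
      (analyticAt_id.prod analyticAt_const)).contDiffAt.restrict_scalars ℝ
  have inD : ∀ i z, 0 ≤ φ i z → φ i z ≤ m0 → z ∈ dom i := fun i z u v => hm0 i ⟨v, fun _ => u⟩
  have offA : ∀ (z w : ℂ), (∀ k, w ≠ f k z) → (z, w) ∉ A := fun z w u v =>
    let ⟨k, e⟩ := B.root _ v; u k e
  -- the length of the ends
  obtain ⟨δ, δ1, δ0⟩ : ∃ δ : ℝ, (∀ e, x0 e + δ < x1 e - δ ∧
      (∀ x ∈ Icc (x0 e) (x0 e + δ), φ (a e) ⟨x, h e⟩ < m0) ∧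
      ∀ x ∈ Icc (x1 e - δ) (x1 e), φ (b e) ⟨x, h e⟩ < m0) ∧ 0 < δ := by
    refine ((eventually_all.2 fun e => ?_).and self_mem_nhdsWithin).exists (f := 𝓝[>] 0)
    have k : ∀ (i : I) (t : ℝ), φ i ⟨t, h e⟩ = 0 → ∃ r > (0 : ℝ), ∀ x, |x - t| < r →
        φ i ⟨x, h e⟩ < m0 := fun i t u => by
      have c1 : Continuous fun x : ℝ => φ i ⟨x, h e⟩ := (φc i).comp (by
        simp only [Complex.mk_eq_add_mul_I]; fun_prop)
      obtain ⟨r, r0, r1⟩ := Metric.eventually_nhds_iff.1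
        (c1.continuousAt.eventually (Iio_mem_nhds (u ▸ m00 : φ i ⟨t, h e⟩ < m0)))
      exact ⟨r, r0, fun x v => r1 v⟩
    obtain ⟨r, r0, r1⟩ := k _ _ (B.edge e).l0.1
    obtain ⟨r', r0', r1'⟩ := k _ _ (B.edge e).r0.1
    filter_upwards [Ioo_mem_nhdsGT r0, Ioo_mem_nhdsGT r0', Ioo_mem_nhdsGT
      (show 0 < (x1 e - x0 e) / 2 by linarith [(B.edge e).lt])] with δ u v w
    exact ⟨by linarith [w.2], fun x y => r1 x (abs_lt.2 ⟨by linarith [y.1], by linarith [y.2, u.2]⟩),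
      fun x y => r1' x (abs_lt.2 ⟨by linarith [y.1, v.2], by linarith [y.2]⟩)⟩
  choose χ u C P1 P2 using fun e => hP (F (a e)) (F (b e)) f (h e) (x0 e) (x1 e) δ (B.sm _) (B.sm _)
    fs δ0 (δ1 e).1 (fun x hx => by
      have := ((B.edge e).pos x ⟨hx.1.le, by linarith [hx.2, (δ1 e).1]⟩).1 hx.1
      exact (B.ct _ _ (inD _ _ this.le ((δ1 e).2.1 x ⟨hx.1.le, hx.2⟩).le)).2 this) fun x hx => by
      have := ((B.edge e).pos x ⟨by linarith [hx.1, (δ1 e).1], hx.2.le⟩).2 hx.2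
      exact (B.ct _ _ (inD _ _ this.le ((δ1 e).2.2 x ⟨hx.1, hx.2.le⟩).le)).2 this
  set g : (I → ℂ → ℂ) → J → ℂ → ℂ := fun G e => br (χ e) (u e) (G (a e)) (G (b e)) with hg
  have gs : ∀ e, ContDiff ℝ ∞ (g F e) := fun e => ((P1 e _ _).2.2 (B.sm _) (B.sm _)).1
  have gc : ∀ e, Continuous (g F e) := fun e => (gs e).continuous
  choose G G1 G2 G3 using fun n : ℕ => L (1 / ((n : ℝ) + 1)) (by positivity)
  have Gs : ∀ n e, ContDiff ℝ ∞ (g (G n) e) := fun n e => ((P1 e _ _).2.2 (G1 n _).1 (G1 n _).1).1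
  have cls : ∀ η : ℝ, 0 < η → ∀ᶠ n in atTop, (∀ i, C1 η (F i) (G n i)) ∧
      ∀ e, C1 η (g F e) (g (G n) e) := fun η η0 => by
    have t := tendsto_one_div_add_atTop_nhds_zero_nat (𝕜 := ℝ)
    filter_upwards [t.eventually (Iic_mem_nhds η0), eventually_all.2 fun e =>
      (t.const_mul (C e)).eventually (Iic_mem_nhds (by simpa using η0 : C e * 0 < η))] with n k1 k2
    exact ⟨fun i => (G1 n i).2.mono k1, fun e =>
      (((P1 e _ _).2.2 (G1 n _).1 (G1 n _).1).2 _ (G1 n _).2 (G1 n _).2).mono (k2 e)⟩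
  have inner : ∀ e, ∀ z ∈ seg (h e) (x0 e) (x1 e), (z, g F e z) ∈ A ∨
      ((∀ k, g F e z ≠ f k z) ∧ dbar (g F e) z ≠ 0) := fun e z hz => by
    rcases hz.2.1.eq_or_lt with k | k
    · have k1 : φ (a e) z = 0 := by rw [seg_eq hz, ← k]; exact (B.edge e).l0.1
      rw [show g F e z = F (a e) z from (P1 e _ _).1 z (by linarith)]
      exact Or.inl ((B.ct _ _ (inD _ _ k1.ge (k1.le.trans m00.le))).1 k1.le)
    rcases hz.2.2.eq_or_lt with k' | k'
    · have k1 : φ (b e) z = 0 := by rw [seg_eq hz, k']; exact (B.edge e).r0.1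
      rw [show g F e z = F (b e) z from (P1 e _ _).2.1 z (by linarith)]
      exact Or.inl ((B.ct _ _ (inD _ _ k1.ge (k1.le.trans m00.le))).1 k1.le)
    · rw [seg_eq hz]
      exact Or.inr (P2 e _ ⟨k, k'⟩)
  have opn : ∀ e, ∀ z ∈ seg (h e) (x0 e) (x1 e), x0 e < z.re → z.re < x1 e →
      (z, g F e z) ∉ A ∧ dbar (g F e) z ≠ 0 := fun e z hz k k' => by
    have := P2 e _ ⟨k, k'⟩
    rw [← seg_eq hz] at this
    exact ⟨offA _ _ this.1, this.2⟩
  set Γ := grs (g F) fun e => seg (h e) (x0 e) (x1 e) with hΓ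
  have cΓ : IsCompact Γ := HTUBE.isCompact_grs gc fun e => seg_cpt _ _ _
  have pH : hull (A ∪ Γ) ⊆ A ∪ Γ := hA J A (fun y => (y.2 - f true y.1) * (y.2 - f false y.1))
    (g F) h x0 x1 B.cA B.pA ((SH.IsPoly.snd.sub (B.poly _)).mul (SH.IsPoly.snd.sub (B.poly _)))
    (fun y hy => by
      obtain ⟨k, e⟩ := B.root y hy
      cases k <;> simp [e]) gc B.inj fun e z hz k => (inner e z hz).resolve_right fun v => by
        rcases mul_eq_zero.1 k with w | w <;> exact v.1 _ (sub_eq_zero.1 w)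
  obtain ⟨R0, R00, hR0⟩ := away B.cA (HTUBE.isCompact_grs gc fun e =>
    seg_cpt (h e) (x0 e + δ) (x1 e - δ)) (by
      rintro ⟨z, w⟩ ⟨e, k, rfl : w = g F e z⟩
      exact (opn e z ⟨k.1, by linarith [k.2.1], by linarith [k.2.2]⟩ (by linarith [k.2.1])
        (by linarith [k.2.2])).1)
  set D : ℝ → I → Set ℂ := fun m i => Dm (c i) (ρ i) (s i) m with hD
  set Bd : ℝ → ℝ → J → Set ℂ := fun m ε e => band (φ (a e)) (φ (b e)) (h e) (x0 e) (x1 e) m ε
    with hBd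
  have Dd : ∀ m, m ≤ m0 → ∀ i, D m i ⊆ dom i := fun m k i z hz => hm0 i ⟨hz.1.trans k, hz.2⟩
  have nearA : ∀ N : Set E, IsOpen N → A ⊆ N → ∃ η > (0 : ℝ), ∀ i, ∀ z ∈ dom i, φ i z ≤ η →
      ∀ w, ‖w - F i z‖ ≤ η → (z, w) ∈ N := fun N k1 k2 =>
    tub' B.cpt Fc φc (fun _ => k1) fun i z k3 k4 => k2 ((B.ct i z k3).1 k4)
  have imc : ∀ e, Continuous fun z : ℂ => |z.im - h e| := fun e => cim _
  obtain ⟨d, d0, d1⟩ : ∃ d > (0 : ℝ), ∀ e e', e ≠ e' → 2 * d < |h e - h e'| := by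
    have : ∀ᶠ d in 𝓝[>] (0 : ℝ), ∀ e e', e ≠ e' → 2 * d < |h e - h e'| :=
      eventually_all.2 fun e => eventually_all.2 fun e' => by
        by_cases k : e = e'
        · exact Eventually.of_forall fun _ v => absurd k v
        · filter_upwards [Ioo_mem_nhdsGT (half_pos (abs_pos.2 (sub_ne_zero.2 fun v => k (B.inj v))))]
            with d v _
          linarith [v.2]
    exact let ⟨d, k1, k2⟩ := (this.and self_mem_nhdsWithin).exists; ⟨d, k2, k1⟩
  have hts : ∀ e e' (z : ℂ), |z.im - h e| ≤ d → |z.im - h e'| ≤ d → e = e' := fun e e' z k1 k2 => by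
    by_contra k
    have := abs_sub_le (h e) z.im (h e')
    rw [abs_sub_comm (h e) z.im] at this
    linarith [d1 e e' k]
  set l : Filter (ℝ × ℝ × ℕ) := 𝓝[>] 0 ×ˢ 𝓝[>] 0 ×ˢ atTop with hl
  have sm : ∀ η : ℝ, 0 < η → ∀ᶠ θ in l, θ.1 ≤ η ∧ θ.2.1 ≤ η ∧ (∀ i, C1 η (F i) (G θ.2.2 i)) ∧
      ∀ e, C1 η (g F e) (g (G θ.2.2) e) := fun η η0 =>
    (Eventually.prod_mk (Ioc_mem_nhdsGT η0) (Eventually.prod_mk (Ioc_mem_nhdsGT η0) (cls η η0))).mono
      fun θ k => ⟨k.1.2, k.2.1.2, k.2.2⟩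
  have E1 := hH _ l (A ∪ Γ) A (fun θ => grs (G θ.2.2) (D θ.1) ∪ grs (g (G θ.2.2)) (Bd θ.1 θ.2.1))
    (B.cA.union cΓ) pH ?_ ?_ ?_ R0 R00
  rotate_left
  · filter_upwards [sm _ (lt_min m00 one_pos)] with θ k
    refine (HTUBE.isCompact_grs (fun i => (G1 _ i).1.continuous) fun i =>
      (B.cpt i).of_isClosed_subset ?_ (Dd _ (k.1.trans (min_le_left _ _)) i)).union
      (HTUBE.isCompact_grs (fun e => (Gs _ e).continuous) fun e =>
        band_cpt (φc _) (φc _) _ _ _ _ (k.2.1.trans (min_le_right _ _)))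
    exact (isClosed_le (φc i) continuous_const).inter (closed_imp _ (φc i))
  · intro η η0
    obtain ⟨η1, k1, k2⟩ := nearA _ isOpen_thickening
      (subset_union_left.trans (self_subset_thickening η0 (A ∪ Γ)))
    obtain ⟨η2, k3, k4⟩ := tub' (fun e => rct_cpt (h e) (x0 e) (x1 e)) gc imc
      (N := fun _ => thickening η (A ∪ Γ)) (fun _ => isOpen_thickening) fun e z v w =>
        self_subset_thickening η0 _ (Or.inr ⟨e, rct_seg v w, rfl⟩)
    filter_upwards [sm _ m00, sm _ one_pos, sm _ k1, sm _ k3] with θ v0 v1 v2 v3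
    rintro ⟨z, w⟩ (⟨i, t1, rfl : w = G _ i z⟩ | ⟨e, t1, rfl : w = g _ e z⟩)
    · exact k2 i z (Dd _ v0.1 i t1) (t1.1.trans v2.1) _ (v2.2.2.1 i z).1
    · exact k4 e z ⟨t1.1.trans v1.2.1, t1.2.1, t1.2.2.1⟩ (t1.1.trans v3.2.1) _ (v3.2.2.2 e z).1
  · rintro ⟨z, w⟩ hp hn
    obtain ⟨e, t1, rfl : w = g F e z⟩ := hp.resolve_left hn
    obtain ⟨r, r0, r1⟩ := nhds_basis_closedBall.mem_iff.1 (B.cA.isClosed.isOpen_compl.mem_nhds hn)
    have r2 : ∀ y ∈ closedBall ((z, g F e z) : E) (min r d), |y.1.im - h e| ≤ d := fun y v => by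
      have v1 : ‖y.1 - z‖ ≤ min r d := (norm_fst_le (y - (z, g F e z))).trans
        (mem_closedBall_iff_norm.1 v)
      have v2 := Complex.abs_im_le_norm (y.1 - z)
      rw [Complex.sub_im, show z.im = h e from t1.1] at v2
      linarith [min_le_right r d]
    have r3 : A ⊆ (closedBall ((z, g F e z) : E) (min r d))ᶜ := fun y v w =>
      r1 (closedBall_subset_closedBall (min_le_left _ _) w) v
    refine ⟨g F e, gs e, ((inner e z t1).resolve_left hn).2, _,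
      closedBall_mem_nhds _ (lt_min r0 d0), fun y v w => ?_, fun κ κ0 => ?_⟩
    · obtain ⟨e', v1, v2⟩ := v.resolve_left fun t => r3 t w
      obtain rfl := hts e e' _ (r2 y w) (by rw [show y.1.im = h e' from v1.1]; simpa using d0.le)
      exact v2
    obtain ⟨η1, k1, k2⟩ := nearA _ isClosed_closedBall.isOpen_compl r3
    filter_upwards [sm _ m00, sm _ k1, sm _ κ0, sm _ d0] with θ v0 v1 v2 v3
    refine ⟨_, Gs _ e, v2.2.2.2 e, ?_⟩
    rintro ⟨z', w⟩ (⟨i, t2, rfl : w = G _ i z'⟩ | ⟨e', t2, t3⟩) t4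
    · exact absurd t4 (k2 i z' (Dd _ v0.1 i t2) (t2.1.trans v1.1) _ (v1.2.2.1 i z').1)
    · obtain rfl := hts e e' _ (r2 _ t4) (t2.1.trans v3.2.1)
      exact t3
  obtain ⟨η1, k1, k2⟩ := nearA _ isOpen_thickening (self_subset_thickening R00 A)
  obtain ⟨m, ⟨⟨M1, M2⟩, M3⟩, M4⟩ := (((E1.curry.and (eventually_all.2 fun e =>
    hB _ _ _ _ _ _ _ _ _ δ (B.edge e) δ0 (δ1 e).1)).and (eventually_all.2 fun i =>
      Ioo_mem_nhdsGT (pow_pos (B.rad i).1 2))).and (Ioc_mem_nhdsGT (lt_min m00 k1))).exists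
  have M5 : m ≤ m0 := M4.2.trans (min_le_left _ _)
  have M6 : m ≤ η1 := M4.2.trans (min_le_right _ _)
  set Z : J → Set ℂ := fun e => rct (h e) (x0 e) (x1 e) ∩ ({z | m ≤ φ (a e) z} ∩ {z | m ≤ φ (b e) z})
    with hZ
  have cZ : ∀ e, IsCompact (Z e) := fun e => (rct_cpt _ _ _).inter_right
    ((isClosed_le continuous_const (φc _)).inter (isClosed_le continuous_const (φc _)))
  have oZ : ∀ e, ∀ z ∈ Z e, |z.im - h e| ≤ 0 → (z, g F e z) ∉ A ∧ dbar (g F e) z ≠ 0 :=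
    fun e z v w => by
      have t := rct_seg v.1 w
      refine opn e z t (t.2.1.lt_of_ne fun k => ?_) (t.2.2.lt_of_ne fun k => ?_)
      · have k1 : φ (a e) z = 0 := by rw [seg_eq t, ← k]; exact (B.edge e).l0.1
        linarith [show m ≤ φ (a e) z from v.2.1, M4.1]
      · have k1 : φ (b e) z = 0 := by rw [seg_eq t, k]; exact (B.edge e).r0.1
        linarith [show m ≤ φ (b e) z from v.2.2, M4.1]
  have cW : ∀ i, IsCompact (dom i ∩ {z | m ≤ φ i z}) := fun i =>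
    (B.cpt i).inter_right (isClosed_le continuous_const (φc _))
  obtain ⟨R1, R10, hR1⟩ := away B.cA ((HTUBE.isCompact_grs gc fun e => (cZ e).inter_right
    (isClosed_le (imc e) (continuous_const (y := (0 : ℝ))))).union (HTUBE.isCompact_grs Fc cW)) (by
      rintro ⟨z, w⟩ (⟨e, k, rfl : w = g F e z⟩ | ⟨i, k, rfl : w = F i z⟩)
      · exact (oZ e z k.1 k.2).1
      · exact offA _ _ ((B.ct i z k.1).2 (M4.1.trans_le k.2)).1)
  have op : ∀ R, IsOpen (cthickening R A)ᶜ := fun R => isClosed_cthickening.isOpen_compl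
  obtain ⟨η2, l1, l2⟩ := tub' (fun e => rct_cpt (h e) (x0 e + δ) (x1 e - δ)) gc imc
    (fun _ => op R0) fun e z v w => hR0 _ ⟨e, rct_seg v w, rfl⟩
  obtain ⟨η3, l3, l4⟩ := tub' cZ gc imc (fun _ => op R1) fun e z v w =>
    hR1 _ (Or.inl ⟨e, ⟨v, w⟩, rfl⟩)
  obtain ⟨η4, l5, l6⟩ := tub' cZ (fun e => cont_dbar (gs e)) imc (N := fun _ => {y | y.2 ≠ 0})
    (fun _ => isOpen_ne_fun continuous_snd continuous_const) fun e z v w => (oZ e z v w).2
  obtain ⟨η5, l7, l8⟩ := tub' cW Fc (q := fun _ _ => 0) (fun _ => continuous_const)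
    (fun _ => op R1) fun i z v _ => hR1 _ (Or.inr ⟨i, v, rfl⟩)
  obtain ⟨η6, l9, l10⟩ := tub' (κ := I × I) (Z := fun k => dom k.1 ∩ dom k.2)
    (fun k => (B.cpt _).inter_right (B.cpt _).isClosed) (f := fun k z => F k.1 z - F k.2 z)
    (fun k => (Fc _).sub (Fc _)) (q := fun _ _ => 0) (fun _ => continuous_const)
    (N := fun k => {y | k.1 ≠ k.2 → y.2 ≠ 0}) (fun k => by
      by_cases v : k.1 = k.2
      · simp [v]
      · simpa [v] using isOpen_ne_fun continuous_snd continuous_const)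
    fun k z v _ w => sub_ne_zero.2 (B.gap _ _ w z v.1 v.2)
  obtain ⟨η7, n1, n2⟩ := tub' (fun e => rct_cpt (h e) (x0 e) (x0 e + δ)) (f := fun _ _ => 0)
    (fun _ => continuous_const) imc (N := fun e => {y | φ (a e) y.1 < m0})
    (fun e => isOpen_lt ((φc _).comp continuous_fst) continuous_const) fun e z v w => by
      have t := rct_seg v w
      rw [seg_eq t]
      exact (δ1 e).2.1 _ t.2
  obtain ⟨η8, n3, n4⟩ := tub' (fun e => rct_cpt (h e) (x1 e - δ) (x1 e)) (f := fun _ _ => 0)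
    (fun _ => continuous_const) imc (N := fun e => {y | φ (b e) y.1 < m0})
    (fun e => isOpen_lt ((φc _).comp continuous_fst) continuous_const) fun e z v w => by
      have t := rct_seg v w
      rw [seg_eq t]
      exact (δ1 e).2.2 _ t.2
  obtain ⟨η9, n5, n6⟩ := all_htube I F dom dom A ∅ 1 R1 (fun i => (B.sm i).of_le (by simp)) B.cpt
    B.cpt (fun _ => subset_rfl) B.gap B.cA B.pY (fun i z v w => Or.inl ((B.ct i z v).2
      (not_le.1 fun t => w ((B.ct i z v).1 t))).2) (by simp) one_pos R10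
  obtain ⟨η10, n7, n8⟩ := tub' B.cpt Fc (q := fun _ _ => 0) (fun _ => continuous_const)
    (N := fun _ => thickening η9 (grs F dom ∪ A)) (fun _ => isOpen_thickening) fun i z v _ =>
      self_subset_thickening n5 _ (Or.inl ⟨i, v, rfl⟩)
  obtain ⟨η, p0, p1⟩ : ∃ η > (0 : ℝ), η ≤ 1 ∧ η ≤ d ∧ η ≤ η1 ∧ η ≤ η2 ∧ η ≤ η3 ∧ η ≤ η4 ∧ η ≤ η5 ∧
      η ≤ η6 / 2 ∧ η ≤ η7 ∧ η ≤ η8 ∧ η ≤ η9 ∧ η ≤ η10 :=
    ⟨min (min (min 1 d) (min η1 η2)) (min (min (min η3 η4) (min η5 (η6 / 2)))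
      (min (min η7 η8) (min η9 η10))), by positivity, by simp⟩
  obtain ⟨q1, q2, q3, q4, q5, q6, q7, q8, q9, q10, q11, q12⟩ := p1
  obtain ⟨ε, ⟨e1, e2⟩, e3⟩ := ((M1.curry.and (eventually_all.2 M2)).and (Ioc_mem_nhdsGT p0)).exists
  obtain ⟨n, u1, u2, u3⟩ := (e1.and (cls η p0)).exists
  have bz : ∀ e, ∀ z ∈ Bd m ε e, z ∈ Z e ∧ |z.im - h e| ≤ η := fun e z v =>
    ⟨⟨⟨v.1.trans (e3.2.trans q1), v.2.1, v.2.2.1⟩, v.2.2.2.1, v.2.2.2.2.1⟩, v.1.trans e3.2⟩
  refine Sit.main (dom := dom) (D := D m) (G := G n) (B := Bd m ε) (g := g (G n))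
    (r := fun e => rb (φ (a e)) (φ (b e)) (h e) m ε) (N0 := cthickening R0 A)
    (N1 := cthickening R1 A) ⟨⟨fun i => (G1 n i).1, Gs n, fun e => (e2 e).sm⟩,
      ⟨B.cpt, fun e => (e2 e).cpt⟩, ⟨isClosed_cthickening, isClosed_cthickening⟩,
      fun i => ⟨Dd m M5 i, hT.2.2.2 _ _ _ _ (B.rad i).1 (B.rad i).2 M4.1 (M3 i).2⟩,
      fun i j v z w t k => ?_, fun e z => ⟨(P1 e _ _).1 z, (P1 e _ _).2.1 z⟩,
      fun e z v => ⟨v.2.2.2.2.2, (e2 e).reg z v⟩, fun e => (e2 e).loc, fun e => (e2 e).core,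
      fun e => ⟨⟨⟨x0 e, h e⟩, ⟨rfl, le_rfl, (B.edge e).lt.le⟩, by simpa using δ0.le,
        (B.edge e).l0.1.le.trans M4.1.le, fun _ => (B.edge e).l0.1.ge⟩,
        ⟨x1 e, h e⟩, ⟨rfl, (B.edge e).lt.le, le_rfl⟩, by simpa using δ0.le,
        (B.edge e).r0.1.le.trans M4.1.le, fun _ => (B.edge e).r0.1.ge⟩,
      fun e z v => ⟨fun w => inD _ _ (M4.1.le.trans v.2.2.2.1) (le_of_lt (n2 e z
        ⟨(bz e z v).1.1.1, v.2.1, w⟩ ((bz e z v).2.trans q9) 0 (by simpa using n1.le))),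
        fun w => inD _ _ (M4.1.le.trans v.2.2.2.2.1) (le_of_lt (n4 e z
        ⟨(bz e z v).1.1.1, w, v.2.2.1⟩ ((bz e z v).2.trans q10) 0 (by simpa using n3.le)))⟩,
      fun e z v w t => l2 e z ⟨(bz e z v).1.1.1, w, t⟩ ((bz e z v).2.trans q4) _
        ((u3 e z).1.trans q4),
      fun i z v => thickening_subset_cthickening _ _ (k2 i z (Dd m M5 i v) (v.1.trans M6) _
        ((u2 i z).1.trans q3)),
      fun e e' v z w t => v (hts e e' z ((bz e z w).2.trans q2) ((bz e' z t).2.trans q2)),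
      fun e z v => ⟨l6 e z (bz e z v).1 ((bz e z v).2.trans q6) _ (((u3 e).db z).trans q6),
        l4 e z (bz e z v).1 ((bz e z v).2.trans q5) _ ((u3 e z).1.trans q5)⟩,
      fun i z v w => ⟨not_lt.1 fun t => l8 i z ⟨v, t.le⟩ l7.le _ ((u2 i z).1.trans q7) w,
        B.sup i z v⟩,
      n6 (G n) dom B.cpt (fun _ => subset_rfl) (fun i => (G1 n i).1.of_le (by simp))
        (fun i => (u2 i).mono q11) ?_ (by simp),
      u1.trans (thickening_subset_cthickening _ _), G2 n, G3 n, B.conn⟩ hT hM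
  · refine l10 (i, j) z ⟨w, t⟩ l9.le 0 ?_ v rfl
    have b4 := norm_sub_le (G n j z - F j z) (G n i z - F i z)
    rw [← k, sub_sub_sub_cancel_left] at b4
    have b5 := (u2 j z).1
    rw [← k] at b5
    rw [zero_sub, norm_neg]
    linarith [(u2 i z).1]
  · rintro ⟨z, w⟩ ⟨i, v, rfl : w = G n i z⟩
    exact thickening_subset_cthickening _ _ (n8 i z v n7.le _ ((u2 i z).1.trans q12))

end Pool.Agent.S6.Cn
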