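import Pool.Agent.Lib.S6.Cn0

/-!
Existence of edges.
-/

open Set

noncomputable section

namespace Pool.Agent.S6.Cn

namespace EDGE

theorem ph_eq (c : ℂ) (ρ s x h : ℝ) :
    ph c ρ s ⟨x, h⟩ = s * ((x - c.re) ^ 2 - (ρ ^ 2 - (h - c.im) ^ 2)) := by
  rw [ph, Complex.sq_norm, Complex.normSq_apply]
  simp only [Complex.sub_re, Complex.sub_im]
  ring

theorem port (c c' : ℂ) (ρ ρ' : ℝ) (hc : ‖c - c'‖ + ρ < ρ') {h : ℝ}
    (hh : h ∈ Ioo (c.im - ρ) (c.im + ρ)) : ∃ x0 x1, Edge c c' ρ ρ' 1 (-1) h x0 x1 := by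
  have r0 : 0 < ρ := by linarith [hh.1, hh.2]
  have a0 : 0 < ρ ^ 2 - (h - c.im) ^ 2 := by nlinarith [hh.1, hh.2]
  obtain ⟨w, w0, hw⟩ : ∃ w, 0 < w ∧ w ^ 2 = ρ ^ 2 - (h - c.im) ^ 2 :=
    ⟨_, Real.sqrt_pos.2 a0, Real.sq_sqrt a0.le⟩
  have e0 : ph c ρ 1 ⟨c.re + w, h⟩ = 0 := by rw [ph_eq, ← hw]; ring
  have e1 : ‖(⟨c.re + w, h⟩ : ℂ) - c‖ = ρ :=
    (pow_left_inj₀ (norm_nonneg _) r0.le two_ne_zero).1 (by rw [ph] at e0; linarith)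
  have e2 : 0 < ph c' ρ' (-1) ⟨c.re + w, h⟩ := by
    have := norm_sub_le_norm_sub_add_norm_sub (⟨c.re + w, h⟩ : ℂ) c c'
    have := norm_nonneg ((⟨c.re + w, h⟩ : ℂ) - c')
    rw [ph]
    nlinarith
  rw [ph_eq] at e2
  have a1 : 0 < ρ' ^ 2 - (h - c'.im) ^ 2 := by nlinarith [sq_nonneg (c.re + w - c'.re)]
  obtain ⟨v, v0, hv⟩ : ∃ v, 0 < v ∧ v ^ 2 = ρ' ^ 2 - (h - c'.im) ^ 2 :=
    ⟨_, Real.sqrt_pos.2 a1, Real.sq_sqrt a1.le⟩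
  rw [← hv] at e2
  obtain ⟨b1, b2⟩ := abs_lt_of_sq_lt_sq' (show (c.re + w - c'.re) ^ 2 < v ^ 2 by linarith) v0.le
  refine ⟨c.re + w, c'.re + v, by linarith, ⟨e0, by linarith⟩,
    ⟨by rw [ph_eq, ← hv]; ring, by linarith⟩, fun x hx => ⟨fun a => ?_, fun a => ?_⟩⟩
  · rw [ph_eq, ← hw]; nlinarith
  · rw [ph_eq, ← hv]; nlinarith [hx.1]

theorem hub {h : ℝ} (hh : h ∈ Ioo (0 : ℝ) 1) :
    ∃ x0 x1, Edge 1 (-1) (31 / 20) (31 / 20) (-1) (-1) h x0 x1 := by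
  have a0 : 1 < (31 / 20 : ℝ) ^ 2 - h ^ 2 := by nlinarith [hh.1, hh.2]
  obtain ⟨w, w0, hw⟩ : ∃ w, 0 < w ∧ w ^ 2 = (31 / 20 : ℝ) ^ 2 - h ^ 2 :=
    ⟨_, Real.sqrt_pos.2 (by linarith), Real.sq_sqrt (by linarith)⟩
  have w1 : 1 < w := by nlinarith
  refine ⟨1 - w, -1 + w, by linarith, ⟨?_, ?_⟩, ⟨?_, ?_⟩, fun x hx => ⟨fun a => ?_, fun a => ?_⟩⟩
  all_goals
    simp only [ph_eq, Complex.one_re, Complex.one_im, Complex.neg_re, Complex.neg_im, neg_zero,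
      sub_zero, ← hw]
  · ring
  · linarith
  · ring
  · linarith
  · nlinarith [hx.2]
  · nlinarith [hx.1]

end EDGE

theorem st_edge : St_EDGE := by
  refine ⟨fun c c' ρ ρ' r0 hc => (Ioo_infinite (show c.im - ρ < c.im + ρ by linarith)).mono
    fun h hh => EDGE.port c c' ρ ρ' hc hh,
    (Ioo_infinite zero_lt_one).mono fun h hh => EDGE.hub hh, fun J _ T hT => ?_⟩
  classical
  choose t t1 t2 using fun e => (hT e).exists_subset_card_eq (Fintype.card J)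
  obtain ⟨h, h1, h2⟩ := (Finset.all_card_le_biUnion_card_iff_exists_injective t).1 fun s => by
    rcases s.eq_empty_or_nonempty with rfl | ⟨e, he⟩
    · simp
    · exact (s.card_le_univ.trans (t2 e).ge).trans
        (Finset.card_le_card (Finset.subset_biUnion_of_mem t he))
  exact ⟨h, h1, fun e => t1 e (h2 e)⟩

end Pool.Agent.S6.Cn
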