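import Pool.Agent.Lib.S6.Cn0
import Pool.Agent.Lib.SH.B_BRIDGE
import Pool.Agent.Lib.CF.Basic

/-!
Project 9ccfb7: hulls of nearby surfaces and the local maximum principle.
-/

open Set Filter Topology Metric
open scoped ContDiff

noncomputable section

namespace Pool.Agent.S6.Cn

open Pool.Agent.Lib Pool.Agent.Lib.SH

theorem st_ht2 : St_HT2 := by
  intro α l H A K cH pc cK th loc R R0
  have usc : ∀ N : Set E, IsOpen N → H ⊆ N → ∀ᶠ θ in l, hull (K θ) ⊆ N := fun N a b => by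
    obtain ⟨η, c, d⟩ := HULL.usc2 cH a (by rw [← BRIDGE.hull_eq]; exact pc.trans b)
    filter_upwards [th η c] with θ e
    rw [BRIDGE.hull_eq]
    exact d _ e
  have key : ∃ U, IsOpen U ∧ H \ thickening R A ⊆ U ∧ ∀ᶠ θ in l, hull (K θ) ∩ U ⊆ K θ := by
    refine (cH.diff isOpen_thickening).induction_on
      (p := fun S => ∃ U, IsOpen U ∧ S ⊆ U ∧ ∀ᶠ θ in l, hull (K θ) ∩ U ⊆ K θ) ?_ ?_ ?_ ?_
    · exact ⟨∅, isOpen_empty, subset_rfl, Eventually.of_forall fun _ _ h => h.2.elim⟩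
    · rintro S S' h ⟨U, a, c, d⟩
      exact ⟨U, a, h.trans c, d⟩
    · rintro S S' ⟨U, a, c, g⟩ ⟨U', a', c', g'⟩
      refine ⟨U ∪ U', a.union a', union_subset_union c c', ?_⟩
      filter_upwards [g, g'] with θ u u' y hy using
        hy.2.elim (fun d => u ⟨hy.1, d⟩) fun d => u' ⟨hy.1, d⟩
    intro p hp
    obtain ⟨f, fs, n3, N, n1, n4, n5⟩ := loc p hp.1 fun a => hp.2 (self_subset_thickening R0 A a)
    have n2 := n4 p hp.1 (mem_of_mem_nhds n1)
    have fc := fs.continuous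
    obtain ⟨ε, hε, h2⟩ := Metric.mem_nhds_iff.1 n1
    obtain ⟨δ, hδ, h4⟩ := Metric.continuousAt_iff.1 (fc.continuousAt (x := p.1)) (ε / 2)
      (half_pos hε)
    obtain ⟨r, hr, hr1, κ, hκ, h5⟩ := st_lbt f p.1 (min (δ / 4) (ε / 4))
      (fs.of_le (by exact_mod_cast le_top)).contDiffAt n3 (by positivity)
    have r1 := hr1.trans (min_le_left _ _)
    have r2 := hr1.trans (min_le_right _ _)
    have h6 : ∀ y : E, ‖y.1 - p.1‖ ≤ 2 * r → ‖y.2 - f y.1‖ ≤ r → y ∈ N := by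
      intro y a c
      have d := h4 (x := y.1) (by rw [dist_eq_norm]; linarith)
      refine h2 (mem_ball.2 ?_)
      rw [Prod.dist_eq, dist_eq_norm, dist_eq_norm, n2]
      rw [dist_eq_norm] at d
      have e := norm_add_le (y.2 - f y.1) (f y.1 - f p.1)
      rw [sub_add_sub_cancel] at e
      exact max_lt (by linarith) (by linarith)
    have c1 : Continuous fun y : E => ‖y.1 - p.1‖ := by fun_prop
    have c2 : Continuous fun y : E => ‖y.2 - f y.1‖ := by fun_prop
    have o := (isOpen_lt c1 (continuous_const (y := r))).inter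
      (isOpen_lt c2 (continuous_const (y := r)))
    have m : p ∈ {y : E | ‖y.1 - p.1‖ < r} ∩ {y | ‖y.2 - f y.1‖ < r} :=
      ⟨by simpa using hr, by simpa [n2] using hr⟩
    refine ⟨_, mem_nhdsWithin_of_mem_nhds (o.mem_nhds m), _, o, subset_rfl, ?_⟩
    filter_upwards [cK, n5 κ hκ, usc ({y | 2 * r < ‖y.1 - p.1‖} ∪ {y | r < ‖y.2 - f y.1‖} ∪
      {y | ‖y.2 - f y.1‖ < κ}) (((isOpen_lt continuous_const c1).union
        (isOpen_lt continuous_const c2)).union (isOpen_lt c2 continuous_const)) fun y hy => by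
      by_contra k
      simp only [mem_union, mem_ofPred_eq, not_or, not_lt] at k
      have := n4 y hy (h6 y k.1.1 k.1.2)
      rw [this, sub_self, norm_zero] at k
      linarith [k.2]] with θ k1 ⟨g, g1, g2, g3⟩ hN y hy
    refine h5 _ _ g (by rw [BRIDGE.hull_eq]; exact (HULL.isCompact_hull2 k1).isClosed)
      (fun x hx b1 b2 => ⟨st_rossi _ k1 x hx, fun c => g3 x c (h6 x b1 b2), ?_⟩)
      (fun z _ => ⟨g1.differentiable (by simp) z, g2 z⟩) y hy.1 (le_of_lt hy.2.1) (le_of_lt hy.2.2)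
    rcases hN hx with (k | k) | k
    exacts [absurd b1 (not_le.2 k), absurd b2 (not_le.2 k), le_of_lt k]
  obtain ⟨U, a, b, c⟩ := key
  filter_upwards [c, usc (U ∪ thickening R A) (a.union isOpen_thickening) fun y hy =>
    (em (y ∈ thickening R A)).elim Or.inr fun k => Or.inl (b ⟨hy, k⟩)] with θ u v y hy using
    (v hy.1).resolve_left fun k => hy.2 (u ⟨hy.1, k⟩)

theorem st_mpx : St_MPX := by
  intro K T N cK cN h1 h2 y hy
  by_cases a : y ∈ K
  · exact Or.inl a
  have b := h1 ⟨hy, a⟩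
  rw [BRIDGE.hull_eq] at hy h1 ⊢
  refine Or.inr (CF.mem_hull_iff.2 fun F hF M hM => HULL.maxabs HULL.c2
    ((HULL.isCompact_hull2 cK).inter_right cN) (ψ := fun x => ‖F x‖)
    hF.continuous.norm.continuousOn (fun x hx hb => ⟨?_, F, hF.analyticAt x,
      Eventually.of_forall fun _ _ => rfl⟩) y ⟨hy, b⟩)
  have c : x ∉ K := fun d => hb.not_ge (hM x (h2 ⟨d, hx.2⟩))
  refine ((HULL.lm_hull cK).noPeak x hx.1 (mem_univ _) c).mono ?_
  filter_upwards [cK.isClosed.isOpen_compl.mem_nhds c] with w u v using ⟨v, h1 ⟨v, u⟩⟩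

end Pool.Agent.S6.Cn
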