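import Pool.Agent.Lib.S6.Cn0
import Pool.Agent.Lib.S6.B_INIT3
import Pool.Agent.Lib.S6.B_NEWGEO7
import Pool.Agent.Lib.S6.B_CTX2
import Pool.Agent.Lib.S6.B_SERVE
import Pool.Agent.Lib.S6.B_ENDS
import Pool.Agent.Lib.S6.B_SECA2
import Pool.Agent.Lib.S6.Upd

/-! The initial state with its geometry. -/

open Set Filter Topology Metric
open scoped ContDiff

noncomputable section

namespace Pool.Agent.S6.Cn

open Pool.Agent.CF (End Kind IsCurve Half Priv Cv)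
open Pool.Agent.Lib
open Pool.Agent.S6.INIT

namespace I4

open Classical in
/-- the sign of an end -/
def sg (l : End) : ℝ := if l.k = Kind.pt then 1 else -1

variable {l : End} {ρ t : ℝ} {lam : ℂ → ℂ} {G : Set E} {z : ℂ}

theorem sg_pt (h : l.k = Kind.pt) : sg l = 1 := if_pos h

theorem sg_loop (h : l.k ≠ Kind.pt) : sg l = -1 := if_neg h

theorem sq_le {a b : ℝ} (ha : 0 ≤ a) (hb : 0 ≤ b) : a ^ 2 - b ^ 2 ≤ 0 ↔ a ≤ b := by
  rw [sub_nonpos]; exact pow_le_pow_iff_left₀ ha hb two_ne_zero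

theorem mem_zn (h : EW l ρ lam G) : z ∈ zn l ρ True t ↔ lo l t ≤ ‖z - l.c‖ ∧ ‖z - l.c‖ ≤ hi l ρ t := by
  rw [← h.dom_eq]; rfl

theorem sup (h : EW l ρ lam G) (hz : z ∈ zn l ρ True t) (hs : sg l = -1) :
    0 ≤ ph l.c (wl l ρ).r (sg l) z := by
  have hk : l.k ≠ Kind.pt := fun a => by rw [sg, if_pos a] at hs; norm_num at hs
  have a := ((mem_zn h).1 hz).2
  rw [hi, if_neg hk] at a
  have := (sq_le (norm_nonneg _) (h.ok.pos hk).le).2 a
  rw [ph, hs, INIT.wl_loop hk]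
  linarith

theorem ct_iff (h : EW l ρ lam G) (hz : z ∈ zn l ρ True t) :
    ph l.c (wl l ρ).r (sg l) z ≤ 0 ↔ z ∈ ct l ρ := by
  by_cases hk : l.k = Kind.pt
  · rw [ph, sg, if_pos hk, one_mul, INIT.wl_pt hk, INIT.ct_pt hk, mem_closedBall_iff_norm]
    exact sq_le (norm_nonneg _) (h.pos hk).le
  · have a := ((mem_zn h).1 hz).2
    rw [hi, if_neg hk] at a
    have b := sq_le (h.ok.pos hk).le (norm_nonneg (z - l.c))
    rw [ph, sg, if_neg hk, INIT.wl_loop hk, INIT.ct_loop hk, End.circ, mem_sphere_iff_norm]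
    exact ⟨fun c => le_antisymm a (b.1 (by linarith)), fun c => by rw [c]; simp⟩

theorem sub (h : EW l ρ lam G) (ht : 0 < t) :
    ∀ᶠ m in 𝓝[>] (0 : ℝ), Dm l.c (wl l ρ).r (sg l) m ⊆ zn l ρ True t := by
  by_cases hk : l.k = Kind.pt
  · have a := h.pos hk
    have b : ρ < ρ * Real.exp t := lt_mul_of_one_lt_right a (Real.one_lt_exp_iff.2 ht)
    filter_upwards [Ioc_mem_nhdsGT (show 0 < (ρ * Real.exp t) ^ 2 - ρ ^ 2 by nlinarith)] with m c z d
    have e := d.1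
    rw [ph, sg, if_pos hk, one_mul, INIT.wl_pt hk] at e
    rw [INIT.zn_pt hk, mem_closedBall_iff_norm]
    refine (sq_le (norm_nonneg _) (a.trans b).le).1 ?_
    have : (l.hole ρ).r = ρ := rfl
    rw [this] at e
    linarith [c.2]
  · have a := h.ok.pos hk
    have b : l.r * Real.exp (-t) < l.r :=
      mul_lt_of_lt_one_right a (Real.exp_lt_one_iff.2 (by linarith))
    have b0 : 0 < l.r * Real.exp (-t) := mul_pos a (Real.exp_pos _)
    filter_upwards [Ioc_mem_nhdsGT (show 0 < l.r ^ 2 - (l.r * Real.exp (-t)) ^ 2 by nlinarith)]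
      with m c z d
    have s : sg l = -1 := if_neg hk
    have e := d.1
    have f := d.2 s
    rw [ph, s, INIT.wl_loop hk] at e f
    rw [mem_zn h, lo, hi, if_neg hk, if_neg hk]
    exact ⟨(sq_le b0.le (norm_nonneg _)).1 (by linarith [c.2]),
      (sq_le (norm_nonneg _) a.le).1 (by linarith)⟩

variable {A B : Cv} {T : ℤ} {pr : A.ι → ℝ} {I : Type} {fx : Fix I} {F : I → ℂ → ℂ} {cp : A.ι → I}

/-- off the contact set the wall is not on the sheet -/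
theorem off (hX : SX A B pr) (h : Half A B T)
    (sw : SideWall fx F t A B ⟨cp, fun _ => expNegInvGlue, pr⟩) (j : A.ι)
    (hz : z ∈ zn (A.e j) (pr j) True t) (hc : z ∉ ct (A.e j) (pr j)) :
    F (cp j) z ≠ (A.e j).w z := by
  have z0 := hX.zn cp (fun _ => expNegInvGlue) t j
  obtain ⟨a, b⟩ := (hX.ew h j).dep_zn hz hc
  have c : A.lam j z ≠ 0 := by
    by_cases hk : (A.e j).k = Kind.pt
    · obtain ⟨g, -, d⟩ := (sw.port j hk).2.2
      rw [(d z (z0 ▸ hz)).2 a]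
      exact div_ne_zero (d z (z0 ▸ hz)).1 (sub_ne_zero.2 a)
    · exact (sw.loop j hk).2 z (z0 ▸ hz)
  have e := sw.exact j z (z0 ▸ hz)
  intro f
  rw [show F (cp j) z = _ from f] at e
  exact mul_ne_zero (Complex.ofReal_ne_zero.2 (expNegInvGlue.pos_of_pos b).ne') c
    (left_eq_add.1 e)

/-- thin walls miss the second function -/
theorem other (hX : SX A B pr) (h : Half A B T) (ht : 0 < t)
    (sw : SideWall fx F t A B ⟨cp, fun _ => expNegInvGlue, pr⟩) (hF : ∀ i, Continuous (F i))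
    {g : ℂ → ℂ} (hg : Continuous g)
    (hn : ∀ j, ∀ z ∈ ct (A.e j) (pr j), (A.e j).w z ≠ g z) :
    ∀ᶠ s in 𝓝[>] (0 : ℝ), ∀ j, ∀ z ∈ zn (A.e j) (pr j) True s, F (cp j) z ≠ g z :=
  eventually_all.2 fun j => (hX.ew h j).shrink (N := {z | F (cp j) z ≠ g z})
    ((isOpen_ne_fun (hF _) hg).mem_nhdsSet.2 fun z a => by
      have e := UPD.exact_ct (UPD.endW sw j) (h.curve.ok j) ht.le a
      exact fun f => hn j z a (e.symm.trans f))

theorem inside {δ L : ℝ} {x : ℂ} (hr : 0 < A.R) (hx : ‖x‖ = 1) (h0 : 0 < δ) (h1 : δ ≤ 1 / 8)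
    (hL : 10 ≤ L) : ‖hp A x δ 0 - A.c‖ + bpr A L δ < A.R := by
  rw [HP.norm_hp hr hx]
  have a := (HP.bpr_le hr h0 hL).2.1
  have b := Real.abs_exp_sub_one_sub_id_le (x := -δ) (by rw [abs_neg, abs_of_pos h0]; linarith)
  have c := (abs_le.1 b).2
  nlinarith [mul_pos hr h0]

theorem poly_of {f : E → ℂ} (h : CF.IsPoly f) : SH.IsPoly f := by
  induction h with
  | const a => exact ⟨MvPolynomial.C a, fun _ => by simp⟩
  | fst => exact ⟨MvPolynomial.X 0, fun _ => by simp⟩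
  | snd => exact ⟨MvPolynomial.X 1, fun _ => by simp⟩
  | add _ _ a b =>
    obtain ⟨p, a⟩ := a
    obtain ⟨q, b⟩ := b
    exact ⟨p + q, fun x => by simp [a x, b x]⟩
  | mul _ _ a b =>
    obtain ⟨p, a⟩ := a
    obtain ⟨q, b⟩ := b
    exact ⟨p * q, fun x => by simp [a x, b x]⟩

end I4

open I4 SH.Init in
theorem st_init4 (hE : St_EDGE) : St_INIT4 := by
  classical
  have hN := st_newgeo7
  have hX := st_ctx2
  have hS := st_serve st_ends
  have hK := st_clear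
  intro ab hab
  obtain ⟨B, B1, B2⟩ := (infinite_of_mem_nhds (0 : ℂ) (closedBall_mem_nhds 0
    (show (0 : ℝ) < 1 / 2 by norm_num))).exists_subset_card_eq 4
  have B3 : ∀ b ∈ B, ‖b‖ ≤ 1 / 2 := fun b hb => mem_closedBall_zero_iff.1 (B1 hb)
  have hR : (3 / 2 : ℝ) < 31 / 20 ∧ (31 / 20 : ℝ) < 8 / 5 := by norm_num
  have n4 : (nodes B).card = 4 := (Finset.card_map _).trans B2
  have hA := CF.alg0 (c := 1) (m := 4) (m' := 4) (Or.inl rfl) hR hR B3 B2.ge (by simp [B2])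
    (by simp [B2])
  rw [B2, show (4 : ℤ) + (4 : ℕ) = 8 from rfl] at hA
  set C := CF.cv0 (fun _ => 0) 1 (31 / 20) 4
  set K := CF.cv0 (pB B) (-1) (31 / 20) 4
  have pK : ∃ y ∈ K.Γ, ‖y.1‖ < 1 / 5 := ⟨(0, pB B 0), ⟨by norm_num, rfl⟩, by simp⟩
  have hL : 10 < ab.L := by linarith [hab.num.1]
  have hC := hab.num.2.2.2.2.2.2.2.2
  obtain ⟨x, x1, x2⟩ := side (a := 2) (gain := 25 / 4) hN hA hL.le hC (fun _ => rfl) {1}
    (by norm_num) (by simp [n4]; norm_num) 34 42 (by norm_num)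
  obtain ⟨δ, ⟨c1, c2⟩, sp, fd, Sig, c3, c4, c5, c6, c7, c8, c9⟩ :=
    ((HP.born_alg hA x1).and x2).exists
  obtain ⟨h0, k1, k2⟩ := hK.1 _ K _ _ (born C (Fin 34) x δ).P c2.hC c2.hK
    c2.hC.curve.poly.continuous fun j z hz e =>
      (c2.off _ (c2.nodal.right _ (c2.hK.curve.mem_of_circ j hz) e)).2 j hz
  obtain ⟨x', y1, y2⟩ := side3 (a := 1) (gain := 51 / 2) hN (swap c2 pK) hL.le hC (fun _ => rfl)
    {2, xB 8 4} (by norm_num) (by simp [n4, xB]; norm_num) 34 84 (by norm_num) k1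
  obtain ⟨δ', ⟨d1, d2⟩, sp', fd', Sig', d3, d4, d5, d6, d7, d8, d9, d0⟩ :=
    ((HP.born_alg (swap c2 pK) y1).and y2).exists
  have hA' := swap d2 hA.pt
  have sC := (sx_born c1 hA.hC hL fun _ => rfl).born x' δ'
  have sK := sx_born d1 c2.hK hL fun _ => rfl
  rw [Finset.coe_singleton] at c3
  rw [Finset.coe_pair] at d3
  have g1 : fd.gain ≤ fd.gsum fd.U := by rw [c6, c7]; norm_num
  have g2 : fd'.gain ≤ fd'.gsum fd'.U := by rw [d6, d7]; norm_num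
  have hp : HULL.hull (C.Γ ∪ K.Γ) ⊆ C.Γ ∪ K.Γ :=
    pc (f := fun _ => 0) (c := 1) (c' := -1) (r := 31 / 20) (r' := 31 / 20) (CF.IsPoly.const 0)
      (pB_poly B) (by norm_num) (by norm_num) fun z hz => by
      linarith [norm_sub_le z 1, B3 z (pB_eq.1 hz.symm), norm_one (α := ℂ)]
  let C' := born C (Fin 34) x δ
  let K' := born K (Fin 34) x' δ'
  let pC : C'.ι → ℝ := Sum.elim (fun _ => 0) fun _ => bpr C ab.L δ
  let pK' : K'.ι → ℝ := Sum.elim (fun _ => 0) fun _ => bpr K ab.L δ'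
  have wC : ∀ j, (C'.e j).w = fun _ => 0 := by rintro (j | j) <;> rfl
  have wK : ∀ j, (K'.e j).w = pB B := by rintro (j | j) <;> rfl
  have nB : ∀ z, pB B z = 0 → (z, (0 : ℂ)) ∈ C'.Γ ∧ (z, (0 : ℂ)) ∈ K'.Γ := fun z a => by
    have b := hA'.nodal.node (z, 0) (mem_nodes.2 ⟨pB_eq.1 a, rfl⟩)
    exact ⟨b.1, b.2.1⟩
  obtain ⟨F, hF⟩ := INIT.thin hA' sC sK
  obtain ⟨t0, e1, e2, -⟩ := (hF 1 one_pos).exists
  obtain ⟨τ, T0, f1, f2, -⟩ := hX ab hab _ _ _ _ (cfT C' K' _ 8 8 1 pC pK' F t0) sp fd Sig sp' fd'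
    Sig' _ e1 e2 c3 d3 (Or.inl rfl) g2
  have cF := fun i => (e2.wall.smooth i).continuous
  obtain ⟨t, ⟨f3, f4⟩, o1, o2⟩ := ((pcT sC sK hF hp e2 f2 (hS ab hab _ _ _ F t0 _ _ _ _ sp fd τ
    e2.wall.smooth e2.wall.gap e2.wall.hz.1 e2.wall.C hA'.hC.curve.ok hA'.hC.out
    (PCS.isCompact_A e2) c3.fit f1 g1)).and
    ((other sC hA'.hC e2.wall.hz.1 e2.wall.C cF (g := pB B) (by unfold pB; fun_prop)
      fun j z a b => by
        rw [wC j] at b
        exact disjoint_left.1 (sC.other hA'.hC (fun y u v => (hA'.nodal.node y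
          (hA'.nodal.left y u (hA'.hK.curve.zero y v))).2.2.2.2.2.1) j)
          (show ((z, 0) : E) ∈ cg _ _ from ⟨a, by rw [wC j]⟩) (nB z b.symm).2).and
    (other sK hA'.hK e2.wall.hz.1 e2.wall.K cF (g := fun _ => 0) continuous_const
      fun j z a b => by
        rw [wK j] at b
        exact disjoint_left.1 (sK.other hA'.hK (fun y u v => (hA'.nodal.node y
          (hA'.nodal.left y v (hA'.hK.curve.zero y u))).2.2.2.2.2.2) j)
          (show ((z, 0) : E) ∈ cg _ _ from ⟨a, by rw [wK j]; exact b.symm⟩) (nB z b).1))).exists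
  have pre := f4.pre
  have ht : 0 < t := pre.wall.hz.1
  have T2 := UPD.two pre
  have dC : ∀ j, (fxT C' K' pC pK' t).dom (Sum.inl j) = zn (C'.e j) (pC j) True t := fun j =>
    (sC.ew hA'.hC j).dom_eq t
  have dK : ∀ j, (fxT C' K' pC pK' t).dom (Sum.inr j) = zn (K'.e j) (pK' j) True t := fun j =>
    (sK.ew hA'.hK j).dom_eq t
  let ρ : C'.ι ⊕ K'.ι → ℝ :=
    Sum.elim (fun j => (wl (C'.e j) (pC j)).r) fun j => (wl (K'.e j) (pK' j)).r
  let s : C'.ι ⊕ K'.ι → ℝ := Sum.elim (fun j => sg (C'.e j)) fun j => sg (K'.e j)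
  let a : (Fin 34 ⊕ Fin 34) ⊕ Unit → C'.ι ⊕ K'.ι :=
    Sum.elim (Sum.elim (fun k => Sum.inl (Sum.inr k)) fun k => Sum.inr (Sum.inr k))
      fun _ => Sum.inl C'.H
  let b : (Fin 34 ⊕ Fin 34) ⊕ Unit → C'.ι ⊕ K'.ι :=
    Sum.elim (Sum.elim (fun _ => Sum.inl C'.H) fun _ => Sum.inr K'.H) fun _ => Sum.inr K'.H
  have hC1 : ρ (Sum.inl C'.H) = 31 / 20 ∧ s (Sum.inl C'.H) = -1 :=
    ⟨congrArg End.r (INIT.wl_loop (HP.hub_loop hA'.hC)), sg_loop (HP.hub_loop hA'.hC)⟩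
  have hK1 : ρ (Sum.inr K'.H) = 31 / 20 ∧ s (Sum.inr K'.H) = -1 :=
    ⟨congrArg End.r (INIT.wl_loop (HP.hub_loop hA'.hK)), sg_loop (HP.hub_loop hA'.hK)⟩
  have hC2 : ∀ k, ρ (Sum.inl (Sum.inr k)) = bpr C ab.L δ ∧ s (Sum.inl (Sum.inr k)) = 1 := fun k =>
    ⟨congrArg End.r (INIT.wl_pt rfl), sg_pt rfl⟩
  have hK2 : ∀ k, ρ (Sum.inr (Sum.inr k)) = bpr K ab.L δ' ∧ s (Sum.inr (Sum.inr k)) = 1 := fun k =>
    ⟨congrArg End.r (INIT.wl_pt rfl), sg_pt rfl⟩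
  have rC := HP.R_pos hA.hC
  have rK := HP.R_pos hA.hK
  obtain ⟨h, h1, h2⟩ := hE.2.2 _ (fun e => {h | ∃ x0 x1, Edge ((fxT C' K' pC pK' t).c (a e))
      ((fxT C' K' pC pK' t).c (b e)) (ρ (a e)) (ρ (b e)) (s (a e)) (s (b e)) h x0 x1}) (by
    rintro ((k | k) | k)
    · simp only [a, b, Sum.elim_inl, hC1.1, hC1.2, (hC2 k).1, (hC2 k).2]
      exact hE.1 _ _ _ _ (HP.bpr_le rC c1.pos.1 hL.le).1
        (inside rC (x1.2 k).1 c1.pos.1 c1.pos.2 hL.le)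
    · simp only [a, b, Sum.elim_inl, Sum.elim_inr, hK1.1, hK1.2, (hK2 k).1, (hK2 k).2]
      exact hE.1 _ _ _ _ (HP.bpr_le rK d1.pos.1 hL.le).1
        (inside rK (y1.2 k).1 d1.pos.1 d1.pos.2 hL.le)
    · simp only [a, b, Sum.elim_inr, hC1.1, hC1.2, hK1.1, hK1.2]
      exact hE.2.1)
  choose x0 x1' h3 using h2
  obtain ⟨m0, m1, m2, m3⟩ := (Eventually.and
    (eventually_mem_nhdsWithin (a := (0 : ℝ)) (s := Ioi 0))
    ((eventually_all.2 fun j => sub (sC.ew hA'.hC j) ht).and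
      (eventually_all.2 fun j => sub (sK.ew hA'.hK j) ht))).exists
  have root : ∀ y ∈ C'.Γ ∪ K'.Γ, ∃ k : Bool, y.2 = (bif k then fun _ => 0 else pB B) y.1 :=
    fun y u => u.elim (fun v => ⟨true, v.2⟩) fun v => ⟨false, v.2⟩
  have real : ∀ i, ∀ z ∈ (fxT C' K' pC pK' t).dom i,
      (∀ k : Bool, F i z ≠ (bif k then fun _ => 0 else pB B) z) → SH.dbar (F i) z ≠ 0 :=
    fun i z u v => (pre.wall.real i z u fun w => let ⟨k, e⟩ := root _ w; v k e).resolve_right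
      (by simp [cfT])
  refine ⟨_, (Fin 34 ⊕ Fin 34) ⊕ Unit, inferInstance, inferInstance, _, ⟨_, f4,
    ⟨_, inferInstance, sp, fd, Sig, c3, c4, c5, g1, ?_, ?_⟩,
    _, inferInstance, sp', fd', Sig', ?_, d4, d5, g2, ?_, ?_,
    fun j z hz => (d0 j).2 ▸ k2 j z ((d0 j).1 hz)⟩, (fxT C' K' pC pK' t).c, ρ, s,
    fun k => bif k then fun _ => 0 else pB B, a, b, h, x0, x1', f3,
    ⟨?_, fun i => MP_9ccfb7_an.isCompact_ann _ _ _, ⟨m0, m1, ?_⟩, ?_, pre.wall.smooth, pre.wall.gap,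
      PCS.isCompact_A pre, SH.BRIDGE.hull_eq _ ▸ hp, ?_, ?_, root, ?_, h3, h1, ?_⟩⟩
  · rw [c6]; simp [cfT, n4]; norm_num
  · show (fd.U.card : ℤ) + 8 ≤ fd.n
    rw [c8, c9]; norm_num
  · exact n4 ▸ d3
  · rw [d6]; simp [cfT]; norm_num
  · show (fd'.U.card : ℤ) + (4 * 8 + 2 * 8 + 2) ≤ fd'.n
    rw [d8, d9]; norm_num
  · have u : ∀ l : End, sg l = 1 ∨ sg l = -1 := fun l => by unfold sg; split_ifs <;> simp
    rintro (j | j)
    · exact ⟨(sC.ew hA'.hC j).wl_pos, u _⟩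
    · exact ⟨(sK.ew hA'.hK j).wl_pos, u _⟩
  · rintro (j | j)
    · exact (m2 j).trans (dC j).ge
    · exact (m3 j).trans (dK j).ge
  · rintro (j | j) z u
    · exact sup (sC.ew hA'.hC j) ((dC j).le u)
    · exact sup (sK.ew hA'.hK j) ((dK j).le u)
  · rw [← PCS.S_eq, union_comm]
    exact f4.pc
  · rintro (_ | _)
    · exact poly_of (pB_poly B)
    · exact poly_of (CF.IsPoly.const 0)
  · rintro (j | j) z u
    · have v := ct_iff (sC.ew hA'.hC j) ((dC j).le u)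
      refine ⟨fun w => Or.inl (T2.cg_sub j ⟨v.1 w, T2.exact_ct j (v.1 w)⟩), fun w => ?_⟩
      have n : ∀ k : Bool, F (Sum.inl j) z ≠ (bif k then fun _ => 0 else pB B) z := by
        rintro (_ | _)
        · exact o1 j z ((dC j).le u)
        · exact wC j ▸ off sC hA'.hC pre.wall.C j ((dC j).le u) fun e => w.not_ge (v.2 e)
      exact ⟨n, real _ z u n⟩
    · have v := ct_iff (sK.ew hA'.hK j) ((dK j).le u)
      refine ⟨fun w => Or.inr (T2.symm.cg_sub j ⟨v.1 w, T2.symm.exact_ct j (v.1 w)⟩), fun w => ?_⟩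
      have n : ∀ k : Bool, F (Sum.inr j) z ≠ (bif k then fun _ => 0 else pB B) z := by
        rintro (_ | _)
        · exact wK j ▸ off sK hA'.hK pre.wall.K j ((dK j).le u) fun e => w.not_ge (v.2 e)
        · exact o2 j z ((dK j).le u)
      exact ⟨n, real _ z u n⟩
  · intro P u
    have v : ∀ i, P i ↔ P (Sum.inr K'.H) := by
      rintro ((i | i) | (i | i))
      · exact u (Sum.inr ())
      · exact (u (Sum.inl (Sum.inl i))).trans (u (Sum.inr ()))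
      · exact Iff.rfl
      · exact u (Sum.inl (Sum.inr i))
    exact fun i j w => (v j).2 ((v i).1 w)

end Pool.Agent.S6.Cn
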