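import Pool.Agent.Lib.S6.CnLim7
import Pool.Agent.Lib.S6.B_MAIN
import Pool.Agent.Lib.S6.B_INIT3

/-! Export of the family of thin initial states and of the limits of their towers. -/

open Set Filter Topology Metric
open scoped ContDiff

noncomputable section

namespace Pool.Agent.S6

open Pool.Agent.CF (End Kind IsCurve Half Priv Cv)
open Pool.Agent.Lib

namespace EXP

/-- the limit surface of the tower over `s0`, close to the walls of `s0` -/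
theorem gen2 (hH : St_INH) {I : Type} [Fintype I] {fx : Fix I} (ok : fx.OK) {St : Type*}
    (σ : St → Conf I) (good : ∀ s, Good fx (σ s)) (s0 : St)
    (hst : ∀ (s : St) (k : ℕ) (ε : ℝ), 0 < ε → ∀ (a : ℂ) (ρ : ℝ), 0 < ρ →
      ∃ s' : St, MP_9ccfb7_an.Close k ε (σ s).F (σ s').F fx.R fx.R ∧
        MP_9ccfb7_an.NoGr ((σ s').K.Γ \ (σ s').C.Γ) a ρ ∧
        (MP_9ccfb7_an.NoGr ((σ s).K.Γ \ (σ s).C.Γ) a ρ →
          MP_9ccfb7_an.NoGr ((σ s').C.Γ \ (σ s').K.Γ) a ρ) ∧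
        (MP_9ccfb7_an.NoGr ((σ s).C.Γ \ (σ s).K.Γ) a ρ →
          MP_9ccfb7_an.NoGr ((σ s).K.Γ \ (σ s).C.Γ) a ρ → MP_9ccfb7_an.NoGr (σ s').C.Γ a ρ) ∧
        (MP_9ccfb7_an.NoGr (σ s).C.Γ a ρ → MP_9ccfb7_an.NoGr (σ s').K.Γ a ρ))
    (k : ℕ) (ε : ℝ) (hε : 0 < ε) : ∃ G : I → ℂ → ℂ, (∀ i, ContDiff ℝ ∞ (G i)) ∧
      MP_9ccfb7_an.Close k ε (σ s0).F G fx.R fx.R ∧
      (∃ y ∈ MP_9ccfb7_an.hull (fx.S G), ‖y.1‖ ≤ 1 / 5) ∧
      ¬ MP_9ccfb7_an.HasDisc (MP_9ccfb7_an.hull (fx.S G)) := by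
  have hF : ∀ s i, ContDiff ℝ ∞ ((σ s).F i) := fun s => (good s).pre.wall.smooth
  obtain ⟨G, T, a1, a2, a3, a4⟩ := MP_9ccfb7_an.limit2 fx.c fx.r fx.R (fun s => (σ s).F)
    (fun _ => fx.R) (fun s => (σ s).Y fx) hF (fun _ i => ⟨(ok.lt i).1, (ok.lt i).2, le_rfl⟩)
    (fun s => by
      refine ⟨((good s).pre.alg.hC.curve.cpt.union (good s).pre.alg.hK.curve.cpt).union
        (MP_9ccfb7_an.isCompact_surf _ _ _ fun i => (hF s i).continuous),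
        SH.hull_eq _ ▸ (good s).pc, subset_union_right, fun z => ?_⟩
      refine (((MAIN.fibre (good s).pre.alg.hC.curve z).union
        (MAIN.fibre (good s).pre.alg.hK.curve z)).union
        (finite_range fun i => (σ s).F i z)).subset ?_
      rintro w ((a | a) | a)
      · exact Or.inl (Or.inl a)
      · exact Or.inl (Or.inr a)
      · obtain ⟨i, -, b⟩ := mem_iUnion.1 a
        exact Or.inr ⟨i, Eq.symm b⟩)
    (fun s => by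
      obtain ⟨y, a, b⟩ := (good s).pre.alg.pt
      exact ⟨y, SH.hull_eq _ ▸ hH I fx (σ s) ok (good s).pre (Or.inl a), b.le⟩) s0
    (MP_9ccfb7_an.ng5 _ _ (fun s => (σ s).C.Γ) (fun s => (σ s).K.Γ) _ hF
      (fun s a ρ hC hK => MP_9ccfb7_an.ng3 (MAIN.pair (good s).pre.alg) hC hK
        (SH.ng4_dbar (fun i => (hF s i).continuous) ((σ s).Sd.finite_toSet.image Prod.fst)
          fun i z a b c => ((good s).pre.wall.real i z a b).resolve_right fun d => c ⟨_, d, rfl⟩))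
      hst) k ε hε
  obtain rfl : T = fx.R := funext fun i => le_antisymm (a3 i) (a2 i).2.1
  exact ⟨G, a1, a2, a4⟩

open INIT

variable {A B : Cv} {Nd : Finset E} {T T' : ℤ} {D : ℕ}

theorem good2 (hX : St_CTX) (hS : St_SERVE) {ab : Ab} (hab : ab.OK) {pC : A.ι → ℝ}
    {pK : B.ι → ℝ} (hA : CF.Alg A B Nd T T' D) (sC : SX A B pC) (sK : SX B A pK)
    (hp : HULL.hull (A.Γ ∪ B.Γ) ⊆ A.Γ ∪ B.Γ) {J J' : Type} [Fintype J] [Fintype J'] {sp : Sp J}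
    {fd : FD J A.ι} {Sig : Finset ℂ} {sp' : Sp J'} {fd' : FD J' B.ι} {Sig' : Finset ℂ} {xs : Set ℝ}
    (c : Rdy ab.L ab.Cw A pC B.P Nd sp fd Sig 2 {1})
    (d : Rdy ab.L ab.Cw B pK A.P Nd sp' fd' Sig' 1 xs) (h2 : 2 ∈ xs)
    (g1 : fd.gain ≤ fd.gsum fd.U) (g2 : fd'.gain ≤ fd'.gsum fd'.U) :
    ∃ F, (∀ η > 0, ∀ᶠ t in 𝓝[>] (0 : ℝ), (fxT A B pC pK t).S F ⊆ thickening η (A.Γ ∪ B.Γ)) ∧
      ∀ᶠ t in 𝓝[>] (0 : ℝ), (fxT A B pC pK t).OK ∧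
        Good (fxT A B pC pK t) (cfT A B Nd T T' D pC pK F t) := by
  obtain ⟨F, hF⟩ := INIT.thin hA sC sK
  obtain ⟨t0, e1, e2, -⟩ := (hF 1 one_pos).exists
  obtain ⟨τ, T0, f1, f2, -⟩ := hX ab hab _ _ _ _ (cfT A B Nd T T' D pC pK F t0) sp fd Sig sp' fd'
    Sig' xs e1 e2 c d h2 g2
  exact ⟨F, fun η h => (hF η h).mono fun _ a => a.2.2, pcT sC sK hF hp e2 f2 (hS ab hab _ _ _ F t0
    _ _ _ _ sp fd τ e2.wall.smooth e2.wall.gap e2.wall.hz.1 e2.wall.C hA.hC.curve.ok hA.hC.out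
    (PCS.isCompact_A e2) c.fit f1 g1)⟩

/-- `A` is the graph of `f` over the disc about `c` of radius `31 / 20` -/
structure Gr (A : Cv) (f : ℂ → ℂ) (c : ℂ) : Prop where
  set : A.Γ = SH.Init.gd f c (31 / 20)
  cen : A.c = c
  rad : A.R = 31 / 20
  sheet : ∀ j, (A.e j).w = f

/-- the exported data -/
structure Data (C K : Cv) (Nd : Finset E) (TC TK : ℤ) (D : ℕ) (pC : C.ι → ℝ) (pK : K.ι → ℝ)
    (F : C.ι ⊕ K.ι → ℂ → ℂ) (p : ℂ → ℂ) : Prop where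
  alg : CF.Alg C K Nd TC TK D
  sC : SX C K pC
  sK : SX K C pK
  gC : Gr C (fun _ => 0) 1
  gK : Gr K p (-1)
  poly : CF.IsPoly fun y => p y.1
  zero : ∀ z, p z = 0 → ‖z‖ ≤ 1 / 2
  pc : HULL.hull (C.Γ ∪ K.Γ) ⊆ C.Γ ∪ K.Γ
  thin : ∀ η > 0, ∀ᶠ t in 𝓝[>] (0 : ℝ), (fxT C K pC pK t).S F ⊆ thickening η (C.Γ ∪ K.Γ)
  ev : ∀ᶠ t in 𝓝[>] (0 : ℝ), (fxT C K pC pK t).OK ∧
    Good (fxT C K pC pK t) (cfT C K Nd TC TK D pC pK F t) ∧ ∀ (k : ℕ) (ε : ℝ), 0 < ε →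
      ∃ G : C.ι ⊕ K.ι → ℂ → ℂ, (∀ i, ContDiff ℝ ∞ (G i)) ∧
        MP_9ccfb7_an.Close k ε F G (fxT C K pC pK t).R (fxT C K pC pK t).R ∧
        (∃ y ∈ MP_9ccfb7_an.hull ((fxT C K pC pK t).S G), ‖y.1‖ ≤ 1 / 5) ∧
        ¬ MP_9ccfb7_an.HasDisc (MP_9ccfb7_an.hull ((fxT C K pC pK t).S G))

end EXP

open INIT SH.Init in
theorem export7 (hR0 : St_RUN3) (hN : St_NEWGEO) (hX : St_CTX) (hS : St_SERVE) (hK : St_CLEAR)
    (hH : St_INH) : ∃ C K Nd TC TK D pC pK F p, EXP.Data C K Nd TC TK D pC pK F p := by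
  classical
  obtain ⟨ab, hab, hst⟩ := hR0
  obtain ⟨B, B1, B2⟩ := (infinite_of_mem_nhds (0 : ℂ) (closedBall_mem_nhds 0
    (show (0 : ℝ) < 1 / 2 by norm_num))).exists_subset_card_eq 4
  have B3 : ∀ b ∈ B, ‖b‖ ≤ 1 / 2 := fun b hb => mem_closedBall_zero_iff.1 (B1 hb)
  have hR : (3 / 2 : ℝ) < 31 / 20 ∧ (31 / 20 : ℝ) < 8 / 5 := by norm_num
  have n4 : (nodes B).card = 4 := (Finset.card_map _).trans B2
  have hA := CF.alg0 (c := 1) (m := 4) (m' := 4) (Or.inl rfl) hR hR B3 B2.ge (by simp [B2])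
    (by simp [B2])
  rw [B2, show (4 : ℤ) + (4 : ℕ) = 8 from rfl] at hA
  set C := CF.cv0 (fun _ => 0) 1 (31 / 20) 4
  set K := CF.cv0 (pB B) (-1) (31 / 20) 4
  have pK : ∃ y ∈ K.Γ, ‖y.1‖ < 1 / 5 := ⟨(0, pB B 0), ⟨by norm_num, rfl⟩, by simp⟩
  have hL : 10 < ab.L := by linarith [hab.num.1]
  have hC := hab.num.2.2.2.2.2.2.2.2
  obtain ⟨x, x1, x2⟩ := side (a := 2) (gain := 25 / 4) hN hA hL.le hC (fun _ => rfl) {1}
    (by norm_num) (by simp [n4]; norm_num) 34 42 (by norm_num)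
  obtain ⟨δ, ⟨c1, c2⟩, sp, fd, Sig, c3, c4, c5, c6, c7, c8, c9⟩ :=
    ((HP.born_alg hA x1).and x2).exists
  obtain ⟨h0, k1, k2⟩ := hK.1 _ K _ _ (born C (Fin 34) x δ).P c2.hC c2.hK
    c2.hC.curve.poly.continuous fun j z hz e =>
      (c2.off _ (c2.nodal.right _ (c2.hK.curve.mem_of_circ j hz) e)).2 j hz
  obtain ⟨x', y1, y2⟩ := side3 (a := 1) (gain := 51 / 2) hN (swap c2 pK) hL.le hC (fun _ => rfl)
    {2, xB 8 4} (by norm_num) (by simp [n4, xB]; norm_num) 34 84 (by norm_num) k1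
  obtain ⟨δ', ⟨d1, d2⟩, sp', fd', Sig', d3, d4, d5, d6, d7, d8, d9, d0⟩ :=
    ((HP.born_alg (swap c2 pK) y1).and y2).exists
  have hA' := swap d2 hA.pt
  have sC := (sx_born c1 hA.hC hL fun _ => rfl).born x' δ'
  have sK := sx_born d1 c2.hK hL fun _ => rfl
  rw [Finset.coe_singleton] at c3
  rw [Finset.coe_pair] at d3
  have g1 : fd.gain ≤ fd.gsum fd.U := by rw [c6, c7]; norm_num
  have g2 : fd'.gain ≤ fd'.gsum fd'.U := by rw [d6, d7]; norm_num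
  have hp : HULL.hull (C.Γ ∪ K.Γ) ⊆ C.Γ ∪ K.Γ :=
    pc (f := fun _ => 0) (c := 1) (c' := -1) (r := 31 / 20) (r' := 31 / 20) (CF.IsPoly.const 0)
      (pB_poly B) (by norm_num) (by norm_num) fun z hz => by
      linarith [norm_sub_le z 1, B3 z (pB_eq.1 hz.symm), norm_one (α := ℂ)]
  obtain ⟨F, f1, f2⟩ := EXP.good2 hX hS hab hA' sC sK hp c3 d3 (Or.inl rfl) g1 g2
  refine ⟨_, _, _, _, _, _, _, _, F, pB B, hA', sC, sK, ⟨rfl, rfl, rfl, by rintro (j | j) <;> rfl⟩,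
    ⟨rfl, rfl, rfl, by rintro (j | j) <;> rfl⟩, pB_poly B, fun z hz => B3 z (pB_eq.1 hz), hp, f1,
    f2.mono fun t ⟨f3, f4⟩ => ⟨f3, f4, ?_⟩⟩
  refine EXP.gen2 hH f3 (fun s : State2 _ ab.L ab.Cw => s.σ) (fun s => s.good) ⟨_, f4,
    ⟨_, inferInstance, sp, fd, Sig, c3, c4, c5, g1, ?_, ?_⟩,
    _, inferInstance, sp', fd', Sig', ?_, d4, d5, g2, ?_, ?_,
    fun j z hz => (d0 j).2 ▸ k2 j z ((d0 j).1 hz)⟩ (hst _ _ f3)
  · rw [c6]; simp [cfT, n4]; norm_num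
  · show (fd.U.card : ℤ) + 8 ≤ fd.n
    rw [c8, c9]; norm_num
  · exact n4 ▸ d3
  · rw [d6]; simp [cfT]; norm_num
  · show (fd'.U.card : ℤ) + (4 * 8 + 2 * 8 + 2) ≤ fd'.n
    rw [d8, d9]; norm_num

end Pool.Agent.S6
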