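import Pool.Agent.Lib.S6.Cn0
import Pool.Agent.Lib.S6.CnExp7

/-! The limit surfaces near a given state. -/

open Set Filter Topology Metric
open scoped ContDiff

noncomputable section

namespace Pool.Agent.S6.Cn

open Pool.Agent.Lib Pool.Agent.Lib.SH

theorem c1_of_close {I : Type} {F G : I → ℂ → ℂ} {R R' : I → ℝ} {ε : ℝ}
    (h : MP_9ccfb7_an.Close 1 ε F G R R') (hF : ∀ i, ContDiff ℝ ∞ (F i))
    (hG : ∀ i, ContDiff ℝ ∞ (G i)) (i : I) : C1 ε (F i) (G i) := fun z => by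
  refine ⟨h.norm i z, ?_⟩
  have a := (h i).1 1 le_rfl z
  rwa [norm_iteratedFDeriv_one, fderiv_fun_sub ((hG i).differentiable (by simp) z)
    ((hF i).differentiable (by simp) z)] at a

theorem st_lim2 : St_LIM2 := by
  intro ab hst I _ fx ok s0 ε hε
  obtain ⟨G, a1, a2, ⟨y, a3, a4⟩, a5⟩ := EXP.gen2 st_inh ok
    (fun s : State2 fx ab.L ab.Cw => s.σ) (fun s => s.good) s0 (hst I fx ok) 1 ε hε
  have e : grs G fx.dom = fx.S G := Set.ext fun _ => PCS.mem_S.symm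
  refine ⟨G, fun i => ⟨a1 i, c1_of_close a2 s0.good.pre.wall.smooth a1 i⟩, ?_⟩
  rw [e, SH.hull_eq]
  refine ⟨fun h => ?_, a5⟩
  rw [h] at a3
  obtain ⟨i, b, -⟩ := PCS.mem_S.1 a3
  linarith [ok.far i _ b]

end Pool.Agent.S6.Cn
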