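import Pool.Agent.Lib.S6.Cn0

/-!
Project 9ccfb7: a bridge between two functions along a horizontal segment, which avoids two
given graphs and is totally real.
-/

open Set Filter Topology Metric
open scoped ContDiff

noncomputable section

namespace Pool.Agent.S6.Cn

open Pool.Agent.Lib Pool.Agent.Lib.SH

namespace PATHC

theorem avoid {ι : Type} [Countable ι] (g : ι → ℝ → ℂ) (β : ℝ → ℝ) (a b : ℝ)
    (hg : ∀ k, ContDiff ℝ 1 (g k)) (hβ : ContDiff ℝ 1 β) (hp : ∀ x ∈ Ioo a b, β x ≠ 0) :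
    ∃ c : ℂ, ∀ k, ∀ x ∈ Ioo a b, g k x + β x * c ≠ 0 := by
  have h1 : ∀ k, dimH ((fun x => -g k x * ((β x)⁻¹ : ℝ)) '' Ioo a b) ≤ 1 := by
    intro k
    have h2 : ContDiffOn ℝ 1 (fun x => -g k x * ((β x)⁻¹ : ℝ)) (Ioo a b) :=
      (hg k).neg.contDiffOn.mul
        (Complex.ofRealCLM.contDiff.comp_contDiffOn (hβ.contDiffOn.inv hp))
    refine (h2.dimH_image_le (convex_Ioo a b) Subset.rfl).trans ?_
    exact (dimH_mono (subset_univ _)).trans Real.dimH_univ.le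
  have h3 : dimH (⋃ k, (fun x => -g k x * ((β x)⁻¹ : ℝ)) '' Ioo a b) < Module.finrank ℝ ℂ := by
    rw [dimH_iUnion, Complex.finrank_real_complex]
    exact (iSup_le h1).trans_lt (by norm_num)
  obtain ⟨c, hc⟩ := (dense_compl_of_dimH_lt_finrank h3).nonempty
  refine ⟨c, fun k x hx h0 => hc (mem_iUnion.2 ⟨k, x, hx, ?_⟩)⟩
  have h4 : (β x : ℂ) ≠ 0 := Complex.ofReal_ne_zero.2 (hp x hx)
  have h5 : -g k x = β x * c := by linear_combination -h0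
  simp only [h5, Complex.ofReal_inv]
  field_simp

theorem sm_pt (h : ℝ) : ContDiff ℝ ∞ fun x : ℝ => (⟨x, h⟩ : ℂ) := by
  have e : (fun x : ℝ => (⟨x, h⟩ : ℂ)) = fun x : ℝ => Complex.ofRealCLM x + h * Complex.I := by
    funext x
    apply Complex.ext <;> simp
  rw [e]
  exact Complex.ofRealCLM.contDiff.add contDiff_const

theorem sm_re {β : ℝ → ℝ} (hβ : ContDiff ℝ ∞ β) : ContDiff ℝ ∞ fun z : ℂ => (β z.re : ℂ) :=
  Complex.ofRealCLM.contDiff.comp (hβ.comp Complex.reCLM.contDiff)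

theorem sm_im (h : ℝ) : ContDiff ℝ ∞ fun z : ℂ => ((z.im - h : ℝ) : ℂ) :=
  Complex.ofRealCLM.contDiff.comp (Complex.imCLM.contDiff.sub contDiff_const)

theorem sm_dbar {F : ℂ → ℂ} (hF : ContDiff ℝ ∞ F) : ContDiff ℝ 1 (dbar F) := by
  have h1 : ContDiff ℝ 1 (fderiv ℝ F) := hF.fderiv_right (by norm_cast)
  exact ((h1.clm_apply contDiff_const).add
    (contDiff_const.mul (h1.clm_apply contDiff_const))).div_const 2

theorem sm_br {χ : ℝ → ℝ} {u Ga Gb : ℂ → ℂ} (hχ : ContDiff ℝ ∞ χ) (hu : ContDiff ℝ ∞ u)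
    (ha : ContDiff ℝ ∞ Ga) (hb : ContDiff ℝ ∞ Gb) : ContDiff ℝ ∞ (br χ u Ga Gb) :=
  (((sm_re hχ).mul ha).add ((contDiff_const.sub (sm_re hχ)).mul hb)).add hu

theorem dbar_lin {B w : ℂ → ℂ} {h : ℝ} {z : ℂ} (hB : DifferentiableAt ℝ B z)
    (hw : DifferentiableAt ℝ w z) (hz : z.im = h) :
    dbar (fun y => B y + w y * ((y.im - h : ℝ) : ℂ)) z = dbar B z + Complex.I * w z / 2 := by
  have h1 : HasFDerivAt (fun y : ℂ => ((y.im - h : ℝ) : ℂ))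
      (Complex.ofRealCLM.comp Complex.imCLM) z :=
    Complex.ofRealCLM.hasFDerivAt.comp z (Complex.imCLM.hasFDerivAt.sub_const h)
  have h2 := (hB.hasFDerivAt.fun_add (hw.hasFDerivAt.fun_mul h1)).fderiv
  unfold dbar
  rw [h2]
  simp [hz]
  ring

theorem dbar_half {F G : ℂ → ℂ} {S : Set ℂ} {z : ℂ} (hF : ContDiff ℝ ∞ F) (hG : ContDiff ℝ ∞ G)
    (hS : Convex ℝ S) (hi : (interior S).Nonempty) (hz : z ∈ S) (e : ∀ y ∈ S, F y = G y) :
    dbar F z = dbar G z := by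
  have h1 : HasFDerivWithinAt F (fderiv ℝ F z) S z :=
    (hF.differentiable (by simp) z).hasFDerivAt.hasFDerivWithinAt
  have h2 : HasFDerivWithinAt F (fderiv ℝ G z) S z :=
    (hG.differentiable (by simp) z).hasFDerivAt.hasFDerivWithinAt.congr e (e z hz)
  unfold dbar
  rw [(uniqueDiffOn_convex hS hi z hz).eq h1 h2]

theorem nm {X D : ℂ → ℂ} {z : ℂ} {M ε : ℝ} (hX : DifferentiableAt ℝ X z)
    (hD : DifferentiableAt ℝ D z) (h1 : ‖X z‖ ≤ 1) (h2 : ‖fderiv ℝ X z‖ ≤ M) (h3 : ‖D z‖ ≤ ε)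
    (h4 : ‖fderiv ℝ D z‖ ≤ ε) : ‖X z * D z‖ ≤ (1 + M) * ε ∧
      ‖fderiv ℝ (fun y => X y * D y) z‖ ≤ (1 + M) * ε := by
  have hε : 0 ≤ ε := (norm_nonneg _).trans h3
  have hM : 0 ≤ M := (norm_nonneg _).trans h2
  constructor
  · rw [norm_mul]
    have := mul_le_mul h1 h3 (norm_nonneg _) zero_le_one
    nlinarith
  · rw [fderiv_fun_mul hX hD]
    refine (norm_add_le _ _).trans ((add_le_add (norm_smul_le _ _) (norm_smul_le _ _)).trans ?_)
    have h5 := mul_le_mul h1 h4 (norm_nonneg _) zero_le_one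
    have h6 := mul_le_mul h3 h2 (norm_nonneg _) hε
    nlinarith

theorem nd {χ : ℝ → ℝ} (hχ : ContDiff ℝ ∞ χ) {M : ℝ} (hM : ∀ t, ‖deriv χ t‖ ≤ M) (z : ℂ) :
    ‖fderiv ℝ (fun y : ℂ => (χ y.re : ℂ)) z‖ ≤ M := by
  have h1 : HasFDerivAt (fun y : ℂ => (χ y.re : ℂ)) _ z :=
    Complex.ofRealCLM.hasFDerivAt.comp z
      ((hχ.differentiable (by simp) z.re).hasDerivAt.hasFDerivAt.comp z Complex.reCLM.hasFDerivAt)
  rw [h1.fderiv]
  refine ContinuousLinearMap.opNorm_le_bound _ ((norm_nonneg _).trans (hM 0)) fun v => ?_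
  have h2 := mul_le_mul (hM z.re) (Complex.abs_re_le_norm v) (abs_nonneg _)
    ((norm_nonneg _).trans (hM 0))
  simpa [mul_comm] using h2

theorem c1 {χ : ℝ → ℝ} (hχ : ContDiff ℝ ∞ χ) (h0 : ∀ t, 0 ≤ χ t) (h1 : ∀ t, χ t ≤ 1) {M : ℝ}
    (hM : ∀ t, ‖deriv χ t‖ ≤ M) {u Fa Fb Ga Gb : ℂ → ℂ} (hu : ContDiff ℝ ∞ u)
    (hFa : ContDiff ℝ ∞ Fa) (hFb : ContDiff ℝ ∞ Fb) (hGa : ContDiff ℝ ∞ Ga)
    (hGb : ContDiff ℝ ∞ Gb) {ε : ℝ} (ha : C1 ε Fa Ga) (hb : C1 ε Fb Gb) :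
    C1 (2 * (1 + M) * ε) (br χ u Fa Fb) (br χ u Ga Gb) := by
  intro z
  have d : ∀ {F : ℂ → ℂ}, ContDiff ℝ ∞ F → DifferentiableAt ℝ F z := fun hF =>
    hF.differentiable (by simp) z
  have n1 : ‖(χ z.re : ℂ)‖ ≤ 1 := by
    rw [Complex.norm_real, Real.norm_eq_abs, abs_le]
    exact ⟨by linarith [h0 z.re], h1 _⟩
  have n2 : ‖1 - (χ z.re : ℂ)‖ ≤ 1 := by
    rw [← Complex.ofReal_one, ← Complex.ofReal_sub, Complex.norm_real, Real.norm_eq_abs, abs_le]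
    exact ⟨by linarith [h1 z.re], by linarith [h0 z.re]⟩
  have n3 : ‖fderiv ℝ (fun y : ℂ => 1 - (χ y.re : ℂ)) z‖ ≤ M := by
    rw [fderiv_const_sub, norm_neg]
    exact nd hχ hM z
  obtain ⟨a1, a2⟩ := nm (X := fun y : ℂ => (χ y.re : ℂ)) (D := fun y => Ga y - Fa y)
    (d (sm_re hχ)) (d (hGa.sub hFa)) n1 (nd hχ hM z) (ha z).1
    (by rw [fderiv_fun_sub (d hGa) (d hFa)]; exact (ha z).2)
  obtain ⟨b1, b2⟩ := nm (X := fun y : ℂ => 1 - (χ y.re : ℂ)) (D := fun y => Gb y - Fb y)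
    (d (contDiff_const.sub (sm_re hχ))) (d (hGb.sub hFb)) n2 n3 (hb z).1
    (by rw [fderiv_fun_sub (d hGb) (d hFb)]; exact (hb z).2)
  have e : (fun y => br χ u Ga Gb y - br χ u Fa Fb y) = fun y : ℂ =>
      (χ y.re : ℂ) * (Ga y - Fa y) + (1 - (χ y.re : ℂ)) * (Gb y - Fb y) := by
    funext y
    unfold br
    ring
  constructor
  · rw [congrFun e z]
    exact (norm_add_le _ _).trans (by linarith)
  · rw [← fderiv_fun_sub (d (sm_br hχ hu hGa hGb)) (d (sm_br hχ hu hFa hFb)), e,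
      fderiv_fun_add (d ((sm_re hχ).mul (hGa.sub hFa)))
        (d ((contDiff_const.sub (sm_re hχ)).mul (hGb.sub hFb)))]
    exact (norm_add_le _ _).trans (by linarith)

theorem cut {a b : ℝ} (hab : a < b) : ∃ (χ : ℝ → ℝ) (M : ℝ), ContDiff ℝ ∞ χ ∧ (∀ t, 0 ≤ χ t) ∧
    (∀ t, χ t ≤ 1) ∧ (∀ t, t ≤ a → χ t = 1) ∧ (∀ t, b ≤ t → χ t = 0) ∧
    ∀ t, ‖deriv χ t‖ ≤ M := by
  have hp : 0 < b - a := sub_pos.2 hab
  let χ : ℝ → ℝ := fun t => Real.smoothTransition ((b - t) / (b - a))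
  have s : ContDiff ℝ ∞ χ :=
    Real.smoothTransition.contDiff.comp ((contDiff_const.sub contDiff_id).div_const _)
  have l : ∀ t, t ≤ a → χ t = 1 := fun t ht =>
    Real.smoothTransition.one_of_one_le ((one_le_div hp).2 (by linarith))
  have r : ∀ t, b ≤ t → χ t = 0 := fun t ht =>
    Real.smoothTransition.zero_of_nonpos (div_nonpos_of_nonpos_of_nonneg (by linarith) hp.le)
  have c : HasCompactSupport (deriv χ) := by
    refine HasCompactSupport.intro (isCompact_Icc (a := a) (b := b)) fun t ht => ?_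
    rcases lt_or_ge t a with h | h
    · have : χ =ᶠ[𝓝 t] fun _ => 1 :=
        mem_of_superset (Iio_mem_nhds h) fun y hy => l y (le_of_lt hy)
      rw [this.deriv_eq, deriv_const]
    · have h' : b < t := lt_of_not_ge fun h' => ht ⟨h, h'⟩
      have : χ =ᶠ[𝓝 t] fun _ => 0 :=
        mem_of_superset (Ioi_mem_nhds h') fun y hy => r y (le_of_lt hy)
      rw [this.deriv_eq, deriv_const]
  obtain ⟨M, hM⟩ := (s.continuous_deriv (by simp)).bounded_above_of_compact_support c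
  exact ⟨χ, M, s, fun _ => Real.smoothTransition.nonneg _, fun _ => Real.smoothTransition.le_one _,
    l, r, hM⟩

end PATHC

open PATHC in
theorem st_pathc : St_PATHC := by
  intro Fa Fb f h x0 x1 δ hFa hFb hf hδ hab ha hb
  set a := x0 + δ
  set b := x1 - δ
  obtain ⟨χ, M, s, c0, c1', l, r, hM⟩ := cut hab
  let β : ℝ → ℝ := fun t => expNegInvGlue (t - a) * expNegInvGlue (b - t)
  have sβ : ContDiff ℝ ∞ β :=
    (expNegInvGlue.contDiff.comp (contDiff_id.sub contDiff_const)).mul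
      (expNegInvGlue.contDiff.comp (contDiff_const.sub contDiff_id))
  have pβ : ∀ x ∈ Ioo a b, β x ≠ 0 := fun x hx =>
    (mul_pos (expNegInvGlue.pos_of_pos (sub_pos.2 hx.1))
      (expNegInvGlue.pos_of_pos (sub_pos.2 hx.2))).ne'
  have lβ : ∀ t, t ≤ a → β t = 0 := fun t ht => by
    simp only [β, expNegInvGlue.zero_of_nonpos (sub_nonpos.2 ht), zero_mul]
  have rβ : ∀ t, b ≤ t → β t = 0 := fun t ht => by
    simp only [β, expNegInvGlue.zero_of_nonpos (sub_nonpos.2 ht), mul_zero]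
  have o : ∀ {g : ℝ → ℂ}, ContDiff ℝ ∞ g → ContDiff ℝ 1 g := fun hg => hg.of_le (by simp)
  obtain ⟨p, hp⟩ := avoid (fun k x => br χ (fun _ => 0) Fa Fb ⟨x, h⟩ - f k ⟨x, h⟩) β a b
    (fun k => o (((sm_br s contDiff_const hFa hFb).sub (hf k)).comp (sm_pt h)))
    (sβ.of_le (by simp)) pβ
  have s0 : ContDiff ℝ ∞ fun z : ℂ => (β z.re : ℂ) * p := (sm_re sβ).mul contDiff_const
  have s1 := sm_br s s0 hFa hFb
  obtain ⟨q, hq⟩ := avoid
    (fun (_ : Unit) x => -2 * Complex.I * dbar (br χ (fun z : ℂ => (β z.re : ℂ) * p) Fa Fb) ⟨x, h⟩)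
    β a b (fun _ => contDiff_const.mul ((sm_dbar s1).comp (o (sm_pt h)))) (sβ.of_le (by simp)) pβ
  have s2 : ContDiff ℝ ∞ fun z : ℂ => (β z.re : ℂ) * q := (sm_re sβ).mul contDiff_const
  let u : ℂ → ℂ := fun z => β z.re * p + β z.re * q * ((z.im - h : ℝ) : ℂ)
  have su : ContDiff ℝ ∞ u := s0.add (s2.mul (sm_im h))
  have el : ∀ Ga Gb : ℂ → ℂ, ∀ z : ℂ, z.re ≤ a → br χ u Ga Gb z = Ga z := fun Ga Gb z hz => by
    simp [br, u, l _ hz, lβ _ hz]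
  have er : ∀ Ga Gb : ℂ → ℂ, ∀ z : ℂ, b ≤ z.re → br χ u Ga Gb z = Gb z := fun Ga Gb z hz => by
    simp [br, u, r _ hz, rβ _ hz]
  refine ⟨χ, u, 2 * (1 + M), fun Ga Gb => ⟨el Ga Gb, er Ga Gb, fun hGa hGb =>
    ⟨sm_br s su hGa hGb, fun ε h1 h2 => c1 s c0 c1' hM su hFa hFb hGa hGb h1 h2⟩⟩, fun x hx => ?_⟩
  rcases le_or_gt x a with h1 | h1
  · rw [el Fa Fb _ h1, dbar_half (S := {z : ℂ | z.re ≤ a}) (sm_br s su hFa hFb) hFa
      (convex_halfSpace_re_le a) ⟨(a - 1 : ℝ), by simp⟩ h1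
      (el Fa Fb)]
    exact ha x ⟨hx.1, h1⟩
  rcases le_or_gt b x with h2 | h2
  · rw [er Fa Fb _ h2, dbar_half (S := {z : ℂ | b ≤ z.re}) (sm_br s su hFa hFb) hFb
      (convex_halfSpace_re_ge b) ⟨(b + 1 : ℝ), by simp⟩ h2
      (er Fa Fb)]
    exact hb x ⟨h2, hx.2⟩
  refine ⟨fun k h3 => hp k x ⟨h1, h2⟩ ?_, fun h3 => hq () x ⟨h1, h2⟩ ?_⟩
  · rw [← h3]
    simp [br, u]
  · have e : br χ u Fa Fb = fun y => br χ (fun z : ℂ => (β z.re : ℂ) * p) Fa Fb y +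
        (β y.re : ℂ) * q * ((y.im - h : ℝ) : ℂ) := by
      funext y
      simp only [br, u]
      ring
    rw [e, dbar_lin (w := fun y : ℂ => (β y.re : ℂ) * q) (z := ⟨x, h⟩) (h := h)
      (s1.differentiable (by simp) _) (s2.differentiable (by simp) _) rfl] at h3
    linear_combination (-2 * Complex.I) * h3 + (β x * q) * Complex.I_mul_I

end Pool.Agent.S6.Cn
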