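import Pool.Agent.Lib.S6.Final2
import Pool.Agent.Lib.S6.B_LOC
import Pool.Agent.Lib.S6.B_LOWH2
import Pool.Agent.Lib.S6.CnConn
import Pool.Agent.Lib.S6.CnArc
import Pool.Agent.Lib.S6.CnBand
import Pool.Agent.Lib.S6.CnEdge
import Pool.Agent.Lib.S6.CnHt
import Pool.Agent.Lib.S6.CnInit
import Pool.Agent.Lib.S6.CnLim
import Pool.Agent.Lib.S6.CnPath

/-!
Project 9ccfb7: assembly of the connected version.
-/

namespace Pool.Agent.S6.Cn

theorem run3 : St_RUN3 :=
  run4_of st_ab2 (split_of st_loc st_lowh2) (st_stage4 st_ctx2 (st_birth st_ends) (st_reset st_ends)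
    st_newgeo7 (st_path st_ctx2 st_ctxm (st_reset st_ends) st_lw))

theorem mainc (hT : St_TOP) : St_MAINC :=
  mainc_of run3 (st_init4 st_edge) st_lim2 (st_conn st_arc2 hT st_pathc st_band st_ht2 st_mpx)

end Pool.Agent.S6.Cn
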