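import Pool.Agent.Lib.INI.Base
import Pool.Agent.Lib.CF.Basic
import Pool.Agent.Lib.MP_9ccfb7_an.Limit

/-!
Blueprint for the connected version of the surface of problem 9ccfb7.
-/

open Set Filter Topology Metric
open scoped ContDiff

noncomputable section

namespace Pool.Agent.S6.Cb

open Pool.Agent.Lib
open Pool.Agent.Lib.MP_9ccfb7_an (gr IsSurface HasDisc)
open Pool.Agent.HULL (hull)

abbrev E : Type := ℂ × ℂ

/-- the connected version of the main statement -/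
def MainC : Prop := ∃ S : Set E, IsSurface S ∧ IsConnected S ∧ MP_9ccfb7_an.hull S ≠ S ∧
  ¬ HasDisc (MP_9ccfb7_an.hull S)

/-- closeness in `C^1` -/
def Near1 (η : ℝ) (f g : ℂ → ℂ) : Prop :=
  ∀ z, ‖g z - f z‖ ≤ η ∧ ‖fderiv ℝ g z - fderiv ℝ f z‖ ≤ η

/-- union of graphs -/
def grs {I : Type} (g : I → ℂ → ℂ) (D : I → Set ℂ) : Set E := ⋃ i, gr (g i) (D i)

theorem mem_grs {I : Type} {g : I → ℂ → ℂ} {D : I → Set ℂ} {y : E} :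
    y ∈ grs g D ↔ ∃ i, y.1 ∈ D i ∧ y.2 = g i y.1 := mem_iUnion

theorem grs_mono {I : Type} {g : I → ℂ → ℂ} {D D' : I → Set ℂ} (h : ∀ i, D i ⊆ D' i) :
    grs g D ⊆ grs g D' := iUnion_mono fun i _ a => ⟨h i a.1, a.2⟩

theorem isCompact_grs {I : Type} [Finite I] {g : I → ℂ → ℂ} {D : I → Set ℂ}
    (hg : ∀ i, Continuous (g i)) (hD : ∀ i, IsCompact (D i)) : IsCompact (grs g D) :=
  isCompact_iUnion fun i => MP_9ccfb7_an.isCompact_gr (hg i) (hD i)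

theorem Near1.mono {η η' : ℝ} {f g : ℂ → ℂ} (h : Near1 η f g) (k : η ≤ η') : Near1 η' f g :=
  fun z => ⟨(h z).1.trans k, (h z).2.trans k⟩

theorem Near1.refl {η : ℝ} (h : 0 ≤ η) (f : ℂ → ℂ) : Near1 η f f := fun _ => by simpa using h

/-- a compact set without peak points outside `K` lies in the hull of `K` -/
theorem sub_hull {Z K : Set E} (hZ : IsCompact Z) (h : ∀ y ∈ Z, y ∉ K → HULL.NoPeak Z y) :
    Z ⊆ hull K := fun y hy => CF.mem_hull_iff.2 fun F hF M hM =>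
  HULL.maxabs HULL.c2 hZ hF.continuous.norm.continuousOn (fun x hx hb =>
    ⟨h x hx fun a => hb.not_ge (hM x a), F, hF.analyticAt x, Eventually.of_forall fun _ _ => rfl⟩)
    y hy

/-- removal of an open part in which the hull is trivial -/
theorem rm {K U : Set E} (hK : IsCompact K) (hU : IsOpen U) (h : hull K ∩ U ⊆ K) :
    hull K ⊆ hull (K \ U) ∪ K ∩ U := fun y hy => by
  by_cases hyU : y ∈ U
  · exact Or.inr ⟨h ⟨hy, hyU⟩, hyU⟩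
  refine Or.inl (sub_hull ((HULL.isCompact_hull2 hK).diff hU) (fun x hx hn => ?_) ⟨hy, hyU⟩)
  have h1 : x ∉ K := fun a => hn ⟨a, hx.2⟩
  refine ((HULL.lm_hull hK).noPeak x hx.1 (mem_univ _) h1).mono ?_
  filter_upwards [hK.isClosed.isOpen_compl.mem_nhds h1] with w a b using ⟨b, fun c => a (h ⟨b, c⟩)⟩

/-- two sheets over two discs, equal over `M` and disjoint elsewhere -/
structure Two (g : Bool → ℂ → ℂ) (c : Bool → ℂ) (R : Bool → ℝ) (P : Bool → Set ℂ) (M : Set ℂ) :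
    Prop where
  smooth : ∀ b, ContDiff ℝ ∞ (g b)
  pos : ∀ b, 0 < R b
  cpt : ∀ b, IsCompact (P b)
  sub : ∀ b, P b ⊆ closedBall (c b) (R b)
  opn : IsOpen M
  ins : ∀ b, M ⊆ ball (c b) (R b)
  eq : EqOn (g true) (g false) M
  sep : ∀ z ∈ P true, z ∈ P false → z ∉ M → g true z ≠ g false z

/-- near a point of one sheet there is only this sheet -/
theorem Two.loc {g : Bool → ℂ → ℂ} {c : Bool → ℂ} {R : Bool → ℝ} {P : Bool → Set ℂ} {M : Set ℂ}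
    (h : Two g c R P M) {b : Bool} {z : ℂ} (hz : z ∈ P b) :
    ∀ᶠ y in 𝓝 ((z, g b z) : E), y ∈ grs g P → y.2 = g b y.1 := by
  have k : ∀ a, ∀ᶠ y in 𝓝 ((z, g b z) : E), y ∈ gr (g a) (P a) → y.2 = g b y.1 := fun a => by
    by_cases e : a = b
    · exact Eventually.of_forall fun _ d => e ▸ d.2
    by_cases m : z ∈ M
    · filter_upwards [(h.opn.preimage continuous_fst).mem_nhds m] with y u d
      rw [d.2]
      rcases a with _ | _ <;> rcases b with _ | _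
      exacts [rfl, (h.eq u).symm, h.eq u, rfl]
    · filter_upwards [(MP_9ccfb7_an.isCompact_gr (h.smooth a).continuous
        (h.cpt a)).isClosed.isOpen_compl.mem_nhds (show (z, g b z) ∉ gr (g a) (P a) from
          fun d => by
            rcases a with _ | _ <;> rcases b with _ | _
            exacts [e rfl, h.sep z hz d.1 m d.2, h.sep z d.1 hz m d.2.symm, e rfl])] with y u d
      exact absurd d u
  filter_upwards [eventually_all.2 k] with y u d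
  obtain ⟨a, d⟩ := mem_iUnion.1 d
  exact u a d

/-- arcs over horizontal lines attached to a polynomially convex part of an algebraic curve -/
def St_ARC : Prop := ∀ (A γ : Set E) (P : E → ℂ) (Hs : Set ℝ), IsCompact A → IsCompact γ →
  hull A ⊆ A → CF.IsPoly P → (∀ y ∈ A, P y = 0) → Hs.Finite → (∀ y ∈ γ, y.1.im ∈ Hs) →
  (∀ z, {w | (z, w) ∈ γ}.Finite) → (∀ y ∈ γ, P y = 0 → y ∈ A) → hull (A ∪ γ) ⊆ A ∪ γ

/-- hulls are trivial near a compact set of totally real points -/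
def St_TUBE : Prop := ∀ (B : Type) [Finite B] (f : B → ℂ → ℂ) (Y T : Set E) (b : E → B)
  (N : E → Set E), IsCompact Y → hull Y ⊆ Y → IsCompact T → (∀ a, ContDiff ℝ 1 (f a)) →
  (∀ p ∈ T, N p ∈ 𝓝 p ∧ p.2 = f (b p) p.1 ∧ SH.dbar (f (b p)) p.1 ≠ 0 ∧
    ∀ y ∈ Y, y ∈ N p → y.2 = f (b p) y.1) →
  ∃ U, IsOpen U ∧ T ⊆ U ∧ ∃ η > 0, ∀ (K : Set E) (g : B → ℂ → ℂ), IsCompact K →
    K ⊆ thickening η Y → (∀ a, Differentiable ℝ (g a) ∧ Near1 η (f a) (g a)) →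
    (∀ p ∈ T, ∀ y ∈ K, y ∈ N p → y.2 = g (b p) y.1) →
    hull K ∩ U ⊆ K ∧ ∀ y ∈ K, y ∈ U → SH.Peak K y

/-- peak points carry no discs -/
def St_ND : Prop := ∀ X K : Set E, IsClosed X → ¬ HasDisc X →
  (∀ y ∈ K, y ∉ X → SH.Peak K y) → ¬ HasDisc (X ∪ K)

/-- regular values after a small linear perturbation -/
def St_REG : Prop := ∀ (B : Type) [Finite B] (g : B → ℂ → ℝ), (∀ b, ContDiff ℝ ∞ (g b)) →
  ∀ ε > 0, ∀ α β : ℝ, α < β → ∃ a : ℂ →L[ℝ] ℝ, ‖a‖ < ε ∧ ∃ c ∈ Ioo α β,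
    ∀ b z, g b z - a z = c → fderiv ℝ (g b) z ≠ a

/-- planar chart at a regular point -/
def St_LEV : Prop := ∀ (g : ℂ → ℝ) (z0 : ℂ), ContDiff ℝ ∞ g → fderiv ℝ g z0 ≠ 0 →
  ∃ (ψ χ : ℂ → ℂ) (s t : Set ℂ), IsOpen s ∧ IsOpen t ∧ z0 ∈ s ∧ MapsTo ψ s t ∧ MapsTo χ t s ∧
    (∀ z ∈ s, χ (ψ z) = z) ∧ (∀ z ∈ t, ψ (χ z) = z) ∧ ContDiffOn ℝ ∞ ψ s ∧ ContDiffOn ℝ ∞ χ t ∧
    ∀ z ∈ s, (ψ z).re = g z

/-- components of surfaces -/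
def St_COMP : Prop := ∀ (S : Set E) (p : E), IsSurface S → IsSurface (connectedComponentIn S p)

/-- a connected surface around a connected core -/
def St_SUB : Prop := ∀ (g : Bool → ℂ → ℂ) (c : Bool → ℂ) (R : Bool → ℝ) (P W : Bool → Set ℂ)
  (M : Set ℂ) (z0 : ℂ), Two g c R P M → z0 ∈ M →
  (∀ b, IsPreconnected (P b) ∧ z0 ∈ P b ∧ sphere (c b) (R b) ⊆ P b ∧ IsOpen (W b) ∧ P b ⊆ W b) →
  ∃ S, IsSurface S ∧ IsConnected S ∧ grs g P ⊆ S ∧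
    S ⊆ grs g fun b => W b ∩ closedBall (c b) (R b)

/-- the connected surface from a polynomially convex configuration -/
def St_FINC : Prop := ∀ (f : Bool → ℂ → ℂ) (c : Bool → ℂ) (R : Bool → ℝ) (D P : Bool → Set ℂ)
  (M : Set ℂ) (A : Set E) (z0 : ℂ), Two f c R P M → z0 ∈ M →
  (∀ b, IsPreconnected (P b) ∧ z0 ∈ P b ∧ sphere (c b) (R b) ⊆ D b ∧ IsCompact (D b) ∧
    D b ⊆ P b) → IsCompact A → hull (A ∪ grs f P) ⊆ A ∪ grs f P →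
  (∀ b, ∀ z ∈ P b, 1 / 4 ≤ ‖z‖ ∧ (z ∉ interior (D b ∪ (closedBall (c b) (R b))ᶜ) →
    SH.dbar (f b) z ≠ 0 ∧ (z, f b z) ∉ A)) →
  ∃ η > 0, ∀ g : Bool → ℂ → ℂ, (∀ b, ContDiff ℝ ∞ (g b) ∧ Near1 η (f b) (g b)) →
    EqOn (g true) (g false) M → (∃ y ∈ hull (grs g D), ‖y.1‖ ≤ 1 / 5) →
    ¬ HasDisc (hull (grs g D)) → MainC

/-- thin walls together with the arcs are polynomially convex -/
def St_PCS : Prop := ∀ (f : Bool → ℂ → ℂ) (c : Bool → ℂ) (R : Bool → ℝ) (D0 L : Bool → Set ℂ)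
  (M : Set ℂ) (A : Set E) (Q : E → ℂ) (Hs : Set ℝ), Two f c R (fun b => D0 b ∪ L b) M →
  (∀ b, IsCompact (D0 b) ∧ IsCompact (L b)) → IsCompact A → hull A ⊆ A → CF.IsPoly Q →
  (∀ y ∈ A, Q y = 0) → Hs.Finite → hull (A ∪ grs f D0) ⊆ A ∪ grs f D0 →
  (∀ b, ∀ z ∈ L b, z.im ∈ Hs ∧ (Q (z, f b z) = 0 → (z, f b z) ∈ A) ∧
    ((z, f b z) ∈ A → z ∈ interior (D0 b ∪ (closedBall (c b) (R b))ᶜ))) →
  (∀ b, ∀ z ∈ D0 b ∪ L b, (z, f b z) ∉ A → SH.dbar (f b) z ≠ 0) →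
  ∃ η > 0, ∀ D : Bool → Set ℂ, (∀ b, IsCompact (D b) ∧ D b ⊆ D0 b) → grs f D ⊆ thickening η A →
    hull (A ∪ grs f fun b => D b ∪ L b) ⊆ A ∪ grs f fun b => D b ∪ L b

/-- a complex number outside finitely many curves -/
def St_GEN : Prop := ∀ (J : Type) [Finite J] (φ : J → ℝ → ℂ) (U : J → Set ℝ),
  (∀ j, ∀ x ∈ U j, ContDiffAt ℝ 1 (φ j) x) → ∃ c : ℂ, ∀ j, ∀ x ∈ U j, φ j x ≠ c

/-- gluing the components of each side into one function -/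
def St_GLUE : Prop := ∀ (I J : Type) [Fintype I] [Finite J] (sd : I → Bool) (F : I → ℂ → ℂ)
  (D0 O : I → Set ℂ) (u : J → ℂ → ℂ) (Hs : Finset ℝ), (∀ i, ContDiff ℝ ∞ (F i)) →
  (∀ k, ContDiff ℝ ∞ (u k)) → (∀ i, IsCompact (D0 i) ∧ IsOpen (O i) ∧ D0 i ⊆ O i) →
  ∃ (Φ : (I → ℂ → ℂ) → Bool → ℂ → ℂ) (Z : I → Set ℂ) (C : ℝ), 0 < C ∧
    (∀ i, IsClosed (Z i) ∧ D0 i ⊆ Z i ∧ Z i ⊆ O i) ∧
    (∀ G : I → ℂ → ℂ, (∀ i, ContDiff ℝ ∞ (G i)) → (∀ b, ContDiff ℝ ∞ (Φ G b)) ∧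
      (∀ z, (∀ i, z ∉ Z i) → Φ G true z = Φ G false z) ∧
      (∀ i, ∀ z ∈ D0 i, (∀ j, sd j = sd i → z ∈ Z j → j = i) → Φ G (sd i) z = G i z) ∧
      ∀ η, (∀ i, Near1 η (F i) (G i)) → 0 ≤ η → ∀ b, Near1 (C * η) (Φ F b) (Φ G b)) ∧
    ∀ b z, (∀ i j, sd i = b → sd j = b → z ∈ Z i → z ∈ Z j → i = j) →
      (z.im ∈ Hs ∨ ∃ i, sd i = b ∧ z ∈ D0 i) →
      (∃ i, sd i = b ∧ z ∈ Z i ∧ Φ F b z = F i z ∧ SH.dbar (Φ F b) z = SH.dbar (F i) z) ∨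
      ((∀ k, Φ F b z ≠ u k z) ∧ SH.dbar (Φ F b) z ≠ 0)

/-- the centres of the hubs -/
def cen (b : Bool) : ℂ := if b then 1 else -1

/-- horizontal segment from `q` to the hub circle -/
def seg (b : Bool) (R : ℝ) (q : ℂ) : Set ℂ :=
  {z | z ∈ closedBall (cen b) R ∧ z.im = q.im ∧ (cen b * q).re ≤ (cen b * z).re}

/-- planar geometry of the segments -/
def St_SEG : Prop := ∀ (I : Type) [Finite I] (sd : I → Bool) (R : Bool → ℝ) (D : I → Set ℂ)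
  (q : I → ℂ), (∀ b, 3 / 2 < R b) →
  (∀ i, IsPreconnected (D i) ∧ q i ∈ D i ∧ D i ⊆ closedBall (cen (sd i)) (R (sd i)) ∧
    0 < (cen (sd i) * q i).re ∧ 1 / 4 ≤ ‖q i‖) →
  (∀ b, ∃ i, sd i = b ∧ sphere (cen b) (R b) ⊆ D i) →
  ∀ L : Bool → Set ℂ, (∀ b, L b = seg b (R b) Complex.I ∪ ⋃ i : {i // sd i = b}, seg b (R b) (q i)) →
    (∀ b, IsCompact (L b) ∧ Complex.I ∈ L b ∧ Complex.I ∈ ball (cen b) (R b) ∧
      IsPreconnected ((⋃ i : {i // sd i = b}, D i) ∪ L b) ∧ ∀ z ∈ L b, 1 / 4 ≤ ‖z‖) ∧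
    ∀ z ∈ L true, z ∈ L false → z = Complex.I

/-- the family of thin initial surfaces -/
structure Thin (I : Type) where
  sd : I → Bool
  dom : ℝ → I → Set ℂ
  F : I → ℂ → ℂ
  f : Bool → ℂ → ℂ
  R : Bool → ℝ
  q : I → ℂ

namespace Thin

variable {I : Type} (θ : Thin I)

/-- the hub discs -/
def H (b : Bool) : Set ℂ := closedBall (cen b) (θ.R b)

/-- the two curves -/
def A : Set E := grs θ.f θ.H

/-- the properties of the surface of width `t` -/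
structure At (t : ℝ) : Prop where
  sub : ∀ i, θ.dom t i ⊆ θ.H (θ.sd i)
  mid : ∀ i, Complex.I ∉ θ.dom t i
  disj : ∀ i j, θ.sd i = θ.sd j → ∀ z ∈ θ.dom t i, z ∈ θ.dom t j → i = j
  gap : ∀ i j, i ≠ j → ∀ z ∈ θ.dom t i, z ∈ θ.dom t j → θ.F i z ≠ θ.F j z
  far : ∀ i, ∀ z ∈ θ.dom t i, 1 / 4 ≤ ‖z‖
  other : ∀ i, ∀ z ∈ θ.dom t i, θ.F i z ≠ θ.f (!θ.sd i) z
  contact : ∀ i, ∀ z ∈ θ.dom t i, θ.F i z = θ.f (θ.sd i) z → ∀ s > 0, z ∈ θ.dom s i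
  real : ∀ i, ∀ z ∈ θ.dom t i, θ.F i z ≠ θ.f (θ.sd i) z → SH.dbar (θ.F i) z ≠ 0
  pc : hull (θ.A ∪ grs θ.F (θ.dom t)) ⊆ θ.A ∪ grs θ.F (θ.dom t)
  lim : ∀ ε > 0, ∃ G : I → ℂ → ℂ, (∀ i, ContDiff ℝ ∞ (G i) ∧ Near1 ε (θ.F i) (G i)) ∧
    (∃ y ∈ hull (grs G (θ.dom t)), ‖y.1‖ ≤ 1 / 5) ∧ ¬ HasDisc (hull (grs G (θ.dom t)))

structure OK : Prop where
  rad : ∀ b, 3 / 2 < θ.R b
  poly : ∀ b, CF.IsPoly fun y => θ.f b y.1
  pc : hull θ.A ⊆ θ.A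
  smooth : ∀ i, ContDiff ℝ ∞ (θ.F i)
  cpt : ∀ t i, IsCompact (θ.dom t i)
  nest : ∀ t t' i, 0 < t → t < t' → θ.dom t i ⊆ θ.dom t' i ∧
    θ.dom t i ⊆ interior (θ.dom t' i ∪ (θ.H (θ.sd i))ᶜ)
  conn : ∀ t i, 0 < t → IsPreconnected (θ.dom t i) ∧ θ.q i ∈ θ.dom t i
  pos : ∀ i, 0 < (cen (θ.sd i) * θ.q i).re ∧ 1 / 4 ≤ ‖θ.q i‖
  hub : ∀ b, ∃ i, θ.sd i = b ∧ ∀ t > 0, sphere (cen b) (θ.R b) ⊆ θ.dom t i
  thin : ∀ η > 0, ∀ᶠ t in 𝓝[>] (0 : ℝ), grs θ.F (θ.dom t) ⊆ thickening η θ.A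
  ev : ∀ᶠ t in 𝓝[>] (0 : ℝ), θ.At t

end Thin

/-- the abstract upgrade -/
def St_ASM : Prop := ∀ (I : Type) [Fintype I] (θ : Thin I), θ.OK → MainC

/-- the export of the initial state -/
def St_IF : Prop := ∃ (I : Type) (_ : Fintype I) (θ : Thin I), θ.OK

/-- the limit theorem with control of the limit -/
def St_LIM : Prop := ∀ (ι St : Type) [Finite ι] (c : ι → ℂ) (r R : ι → ℝ) (F : St → ι → ℂ → ℂ)
  (Y : St → Set E), (∀ s i, ContDiff ℝ ∞ (F s i)) → (∀ i, r i < R i ∧ 0 < R i) →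
  (∀ s, IsCompact (Y s) ∧ hull (Y s) ⊆ Y s ∧ MP_9ccfb7_an.surf c r R (F s) ⊆ Y s ∧
    ∀ z, {w | (z, w) ∈ Y s}.Finite) →
  (∀ s, ∃ y ∈ hull (MP_9ccfb7_an.surf c r R (F s)), ‖y.1‖ ≤ 1 / 5) →
  (∀ (s : St) (k : ℕ) (ε : ℝ), 0 < ε → ∀ (a : ℂ) (ρ : ℝ), 0 < ρ →
    ∃ s', MP_9ccfb7_an.Close k ε (F s) (F s') R R ∧ MP_9ccfb7_an.NoGr (Y s') a ρ) →
  ∀ (s0 : St) (ε : ℝ), 0 < ε → ∃ G : ι → ℂ → ℂ,
    (∀ i, ContDiff ℝ ∞ (G i) ∧ Near1 ε (F s0 i) (G i)) ∧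
    (∃ y ∈ hull (MP_9ccfb7_an.surf c r R G), ‖y.1‖ ≤ 1 / 5) ∧
    ¬ HasDisc (hull (MP_9ccfb7_an.surf c r R G))

theorem mainC_of (h1 : St_ASM) (h2 : St_IF) : MainC := by
  obtain ⟨I, _, θ, h⟩ := h2
  exact h1 I θ h

end Pool.Agent.S6.Cb
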