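import Pool.Agent.Lib.S6.Cn0
import Pool.Agent.Lib.SH.All1
import Pool.Agent.Lib.SH.Limit

/-!
Project 9ccfb7: the connected surface for fixed parameters.
-/

open Set Filter Topology Metric
open scoped ContDiff

noncomputable section

namespace Pool.Agent.S6.Cn

open Pool.Agent.Lib Pool.Agent.Lib.SH
open Pool.Agent.Lib.MP_9ccfb7_an (IsSurface HasDisc)

theorem sub_hull (K : Set E) : K ⊆ hull K := fun x hx _ _ _ hc => hc x hx

theorem gr_closed {f : ℂ → ℂ} {D : Set ℂ} (hf : Continuous f) (hD : IsClosed D) :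
    IsClosed {y : E | y.1 ∈ D ∧ y.2 = f y.1} :=
  (hD.preimage continuous_fst).inter (isClosed_eq continuous_snd (hf.comp continuous_fst))

theorem gr_conn {f : ℂ → ℂ} {D : Set ℂ} (hf : Continuous f) (hD : IsPreconnected D) :
    IsPreconnected {y : E | y.1 ∈ D ∧ y.2 = f y.1} := by
  have : {y : E | y.1 ∈ D ∧ y.2 = f y.1} = (fun z => ((z, f z) : E)) '' D :=
    Set.ext fun y => ⟨fun h => ⟨y.1, h.1, Prod.ext rfl h.2.symm⟩, fun ⟨z, a, b⟩ => b ▸ ⟨a, rfl⟩⟩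
  rw [this]
  exact hD.image _ (continuous_id.prodMk hf).continuousOn

theorem seg_conn (h x0 x1 : ℝ) : IsPreconnected (seg h x0 x1) := by
  have : seg h x0 x1 = (fun x : ℝ => (x : ℂ) + h * Complex.I) '' Icc x0 x1 :=
    Set.ext fun z => ⟨fun a => ⟨z.re, a.2, by rw [← a.1]; exact Complex.re_add_im z⟩, by
      rintro ⟨x, a, rfl⟩
      exact ⟨by simp, by simpa using a.1, by simpa using a.2⟩⟩
  rw [this]
  exact isPreconnected_Icc.image _ (by fun_prop)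

/-- the situation after the choice of all parameters; `D` are the thin components, `B` the
bands, `r` their defining functions -/
structure Sit {I J : Type} (dom D : I → Set ℂ) (G : I → ℂ → ℂ) (B : J → Set ℂ) (r : J → ℂ → ℝ)
    (g : J → ℂ → ℂ) (a b : J → I) (h x0 x1 : J → ℝ) (δ : ℝ) (N0 N1 : Set E) : Prop where
  sm : (∀ i, ContDiff ℝ ∞ (G i)) ∧ (∀ e, ContDiff ℝ ∞ (g e)) ∧ ∀ e, ContDiff ℝ ∞ (r e)
  cpt : (∀ i, IsCompact (dom i)) ∧ ∀ e, IsCompact (B e)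
  cl : IsClosed N0 ∧ IsClosed N1
  dm : ∀ i, D i ⊆ dom i ∧ IsCompact (D i) ∧ IsConnected (D i) ∧ ∃ q : ℂ → ℝ, ContDiff ℝ ∞ q ∧
    ∀ z, (z ∈ D i ↔ q z ≤ 0) ∧ (q z = 0 → fderiv ℝ q z ≠ 0)
  gap : ∀ i j, i ≠ j → ∀ z ∈ dom i, z ∈ dom j → G i z ≠ G j z
  gl : ∀ e z, (z.re ≤ x0 e + δ → g e z = G (a e) z) ∧ (x1 e - δ ≤ z.re → g e z = G (b e) z)
  reg : ∀ e, ∀ z ∈ B e, r e z ≤ 0 ∧ (r e z < 0 ∨ fderiv ℝ (r e) z ≠ 0)
  loc : ∀ e, ∀ z ∈ B e, ∀ᶠ y in 𝓝 z, (r e y ≤ 0 ↔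
    y ∈ B e ∨ (y.re < x0 e + δ ∧ y ∈ D (a e)) ∨ (x1 e - δ < y.re ∧ y ∈ D (b e)))
  core : ∀ e, ∀ z ∈ seg (h e) (x0 e) (x1 e), z ∈ B e ∨ (z.re < x0 e + δ ∧ z ∈ D (a e)) ∨
    (x1 e - δ < z.re ∧ z ∈ D (b e))
  ends : ∀ e, (∃ z ∈ seg (h e) (x0 e) (x1 e), z.re ≤ x0 e + δ ∧ z ∈ D (a e)) ∧
    ∃ z ∈ seg (h e) (x0 e) (x1 e), x1 e - δ ≤ z.re ∧ z ∈ D (b e)
  side : ∀ e, ∀ z ∈ B e, (z.re ≤ x0 e + δ → z ∈ dom (a e)) ∧ (x1 e - δ ≤ z.re → z ∈ dom (b e))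
  mid : ∀ e, ∀ z ∈ B e, x0 e + δ ≤ z.re → z.re ≤ x1 e - δ → (z, g e z) ∉ N0
  thin : ∀ i, ∀ z ∈ D i, (z, G i z) ∈ N0
  disj : ∀ e e', e ≠ e' → ∀ z ∈ B e, z ∉ B e'
  real : ∀ e, ∀ z ∈ B e, dbar (g e) z ≠ 0 ∧ (z, g e z) ∉ N1
  far : ∀ i, ∀ z ∈ dom i, (z, G i z) ∈ N1 → z ∈ D i
  h1 : hull (grs G dom) \ grs G dom ⊆ N1
  h0 : hull (grs G D ∪ grs g B) \ (grs G D ∪ grs g B) ⊆ N0
  ne : hull (grs G dom) ≠ grs G dom
  nd : ¬ HasDisc (hull (grs G dom))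
  conn : ∀ P : I → Prop, (∀ e, P (a e) ↔ P (b e)) → ∀ i j, P i → P j

namespace Sit

variable {I J : Type} [Fintype I] [Fintype J] {dom D : I → Set ℂ} {G : I → ℂ → ℂ}
  {B : J → Set ℂ} {r : J → ℂ → ℝ} {g : J → ℂ → ℂ} {a b : J → I} {h x0 x1 : J → ℝ} {δ : ℝ}
  {N0 N1 : Set E} (s : Sit dom D G B r g a b h x0 x1 δ N0 N1)
include s

theorem clD (i : I) : IsClosed {y : E | y.1 ∈ D i ∧ y.2 = G i y.1} :=
  gr_closed (s.sm.1 i).continuous (s.dm i).2.1.isClosed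

theorem band_loc {e : J} {p : E} (h1 : p.1 ∈ B e) (h2 : p.2 = g e p.1) :
    ∀ᶠ y in 𝓝 p, (y ∈ grs G D ∪ grs g B ↔ y.2 = g e y.1 ∧ r e y.1 ≤ 0) := by
  have cr : ContinuousAt (fun y : E => y.1.re) p := by fun_prop
  have e1 : ∀ e', ∀ᶠ y in 𝓝 p, e' ≠ e → y.1 ∉ B e' := fun e' => by
    by_cases k : e' = e
    · exact Eventually.of_forall fun _ c => absurd k c
    · exact ((continuous_fst.tendsto p).eventually ((s.cpt.2 e').isClosed.isOpen_compl.mem_nhds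
        (s.disj e e' (Ne.symm k) _ h1))).mono fun _ c _ => c
  have e2 : ∀ i, ∀ᶠ y in 𝓝 p, y.1 ∈ D i ∧ y.2 = G i y.1 →
      (i = a e ∧ y.1.re < x0 e + δ) ∨ (i = b e ∧ x1 e - δ < y.1.re) := fun i => by
    by_cases k : p.1 ∈ D i ∧ p.2 = G i p.1
    · have k1 : (p.1, g e p.1) ∈ N0 := by rw [← h2, k.2]; exact s.thin i _ k.1
      rcases lt_or_ge p.1.re (x0 e + δ) with c | c
      · have : i = a e := by
          by_contra d
          exact s.gap i _ d _ ((s.dm i).1 k.1) ((s.side e _ h1).1 c.le)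
            (by rw [← k.2, h2, (s.gl e _).1 c.le])
        exact (cr.eventually (Iio_mem_nhds c)).mono fun y d _ => Or.inl ⟨this, d⟩
      · have c' : x1 e - δ < p.1.re := not_le.1 fun d => s.mid e _ h1 c d k1
        have : i = b e := by
          by_contra d
          exact s.gap i _ d _ ((s.dm i).1 k.1) ((s.side e _ h1).2 c'.le)
            (by rw [← k.2, h2, (s.gl e _).2 c'.le])
        exact (cr.eventually (Ioi_mem_nhds c')).mono fun y d _ => Or.inr ⟨this, d⟩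
    · exact Eventually.mono ((s.clD i).isOpen_compl.mem_nhds k) fun y d c => absurd c d
  filter_upwards [eventually_all.2 e1, eventually_all.2 e2,
    (continuous_fst.tendsto p).eventually (s.loc e _ h1)] with y c1 c2 c3
  constructor
  · rintro (⟨i, d⟩ | ⟨e', d⟩)
    · rcases c2 i d with ⟨rfl, k⟩ | ⟨rfl, k⟩
      · exact ⟨d.2.trans ((s.gl e _).1 k.le).symm, c3.2 (Or.inr (Or.inl ⟨k, d.1⟩))⟩
      · exact ⟨d.2.trans ((s.gl e _).2 k.le).symm, c3.2 (Or.inr (Or.inr ⟨k, d.1⟩))⟩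
    · obtain rfl : e' = e := by
        by_contra k
        exact c1 e' k d.1
      exact ⟨d.2, (s.reg _ _ d.1).1⟩
  · rintro ⟨d1, d2⟩
    rcases c3.1 d2 with k | k | k
    · exact Or.inr ⟨e, k, d1⟩
    · exact Or.inl ⟨_, k.2, d1.trans ((s.gl e _).1 k.1.le)⟩
    · exact Or.inl ⟨_, k.2, d1.trans ((s.gl e _).2 k.1.le)⟩

theorem cK : IsCompact (grs G D ∪ grs g B) :=
  (HTUBE.isCompact_grs (fun i => (s.sm.1 i).continuous) fun i => (s.dm i).2.1).union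
    (HTUBE.isCompact_grs (fun e => (s.sm.2.1 e).continuous) s.cpt.2)

theorem surf (hT : St_TOP) : IsSurface (grs G D ∪ grs g B) := by
  refine hT.2.1 _ s.cK fun p hp => ?_
  by_cases k : p ∈ grs g B
  · obtain ⟨e, h1, h2⟩ := k
    exact ⟨g e, r e, s.sm.2.1 e, s.sm.2.2 e, (s.reg e _ h1).2, s.band_loc h1 h2⟩
  obtain ⟨i, h1, h2⟩ := hp.resolve_right k
  obtain ⟨-, -, -, q, q1, q2⟩ := s.dm i
  refine ⟨G i, q, s.sm.1 i, q1, ((q2 _).1.1 h1).lt_or_eq.imp_right (q2 _).2, ?_⟩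
  have e1 : ∀ j, ∀ᶠ y in 𝓝 p, y.1 ∈ D j ∧ y.2 = G j y.1 → j = i := fun j => by
    by_cases c : j = i
    · exact Eventually.of_forall fun _ _ => c
    · exact Eventually.mono ((s.clD j).isOpen_compl.mem_nhds fun d : p.1 ∈ D j ∧ p.2 = G j p.1 =>
        s.gap j i c _ ((s.dm j).1 d.1) ((s.dm i).1 h1) (d.2.symm.trans h2)) fun y d c => absurd c d
  filter_upwards [eventually_all.2 e1, (HTUBE.isCompact_grs (fun e => (s.sm.2.1 e).continuous)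
    s.cpt.2).isClosed.isOpen_compl.mem_nhds k] with y c1 c2
  constructor
  · rintro (⟨j, d⟩ | d)
    · obtain rfl := c1 j d
      exact ⟨d.2, (q2 _).1.1 d.1⟩
    · exact absurd d c2
  · exact fun d => Or.inl ⟨i, (q2 _).1.2 d.2, d.1⟩

theorem main (hT : St_TOP) (hM : St_MPX) : St_MAINC := by
  have sD : grs G D ⊆ grs G dom := fun y ⟨i, c, d⟩ => ⟨i, (s.dm i).1 c, d⟩
  obtain ⟨y0, y1, y2⟩ : ∃ y0 ∈ hull (grs G dom), y0 ∉ grs G dom := by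
    by_contra c
    push Not at c
    exact s.ne (Subset.antisymm c (sub_hull _))
  have y3 : y0 ∈ hull (grs G D) := (hM _ (grs G D) N1
    (HTUBE.isCompact_grs (fun i => (s.sm.1 i).continuous) s.cpt.1) s.cl.2 s.h1 (by
      rintro ⟨z, w⟩ ⟨⟨i, c, rfl : w = G i z⟩, d⟩
      exact ⟨i, s.far i z c d, rfl⟩) y1).resolve_left y2
  have y4 : y0 ∉ grs G D ∪ grs g B := by
    rintro (c | ⟨e, c, d⟩)
    · exact y2 (sD c)
    · exact (s.real e _ c).2 (d ▸ s.h1 ⟨y1, y2⟩)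
  obtain ⟨x, i0, xa⟩ : (grs G D).Nonempty := by
    by_contra c
    have := y3 (fun _ => 0) (SH.IsPoly.const 0) (-1) fun y hy => absurd ⟨y, hy⟩ c
    norm_num at this
  have xK : x ∈ grs G D ∪ grs g B := Or.inl ⟨i0, xa⟩
  set S := connectedComponentIn (grs G D ∪ grs g B) x with hS
  have key : ∀ W : Set E, IsPreconnected W → W ⊆ grs G D ∪ grs g B → ∀ y ∈ W, y ∈ S → W ⊆ S :=
    fun W c1 c2 y c3 c4 => by
      rw [hS, connectedComponentIn_eq c4]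
      exact c1.subset_connectedComponentIn c3 c2
  have kD : ∀ i, ∀ z ∈ D i, (z, G i z) ∈ S → {y : E | y.1 ∈ D i ∧ y.2 = G i y.1} ⊆ S :=
    fun i z c d => key _ (gr_conn (s.sm.1 i).continuous (s.dm i).2.2.1.2)
      (fun y k => Or.inl ⟨i, k⟩) _ ⟨c, rfl⟩ d
  have kS : ∀ e, ∀ z ∈ seg (h e) (x0 e) (x1 e), (z, g e z) ∈ S →
      {y : E | y.1 ∈ seg (h e) (x0 e) (x1 e) ∧ y.2 = g e y.1} ⊆ S := fun e z c d =>
    key _ (gr_conn (s.sm.2.1 e).continuous (seg_conn _ _ _)) (fun y k => by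
      rcases s.core e _ k.1 with u | u | u
      · exact Or.inr ⟨e, u, k.2⟩
      · exact Or.inl ⟨_, u.2, k.2.trans ((s.gl e _).1 u.1.le)⟩
      · exact Or.inl ⟨_, u.2, k.2.trans ((s.gl e _).2 u.1.le)⟩) _ ⟨c, rfl⟩ d
  have all : grs G D ⊆ S := fun y ⟨i, c⟩ => by
    refine s.conn (fun i => {y : E | y.1 ∈ D i ∧ y.2 = G i y.1} ⊆ S) (fun e => ?_) i0 i
      (kD i0 x.1 xa.1 (xa.2 ▸ mem_connectedComponentIn xK)) c
    obtain ⟨⟨z, c1, c2, c3⟩, z', d1, d2, d3⟩ := s.ends e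
    have c4 := (s.gl e z).1 c2
    have d4 := (s.gl e z').2 d2
    exact ⟨fun k => kD _ z' d3 (kS e z c1 (k ⟨c3, c4⟩) ⟨d1, d4.symm⟩),
      fun k => kD _ z c3 (kS e z' d1 (k ⟨d3, d4⟩) ⟨c1, c4.symm⟩)⟩
  have sK : S ⊆ grs G D ∪ grs g B := connectedComponentIn_subset _ _
  have hK : hull (grs G D ∪ grs g B) ⊆ grs G D ∪ grs g B ∪ hull (grs G dom) :=
    hM _ _ N0 s.cK s.cl.1 s.h0 (by
      rintro y ⟨c | ⟨e, c, d⟩, k⟩
      · exact sD c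
      rcases le_total y.1.re (x0 e + δ) with u | u
      · exact ⟨_, (s.side e _ c).1 u, d.trans ((s.gl e _).1 u)⟩
      rcases le_total (x1 e - δ) y.1.re with v | v
      · exact ⟨_, (s.side e _ c).2 v, d.trans ((s.gl e _).2 v)⟩
      · exact absurd (d ▸ k) (s.mid e _ c u v))
  refine ⟨S, hT.1 _ x (s.surf hT) xK, isConnected_connectedComponentIn_iff.2 xK, fun k => ?_,
    fun ⟨f, f1, f2, f3⟩ => ?_⟩
  · rw [← hull_eq] at k
    exact y4 (sK (k ▸ HTUBE.hull_mono all y3))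
  · refine hT.2.2.1 _ (grs G D ∪ grs g B) (HTUBE.isClosed_hull _) s.nd (fun p c d => ?_)
      ⟨f, f1, f2, fun t ht => (hK (HTUBE.hull_mono sK (hull_eq S ▸ f3 t ht))).symm⟩
    obtain ⟨e, c1, c2⟩ := c.resolve_left fun k => d (sub_hull _ (sD k))
    exact ⟨g e, s.sm.2.1 e, (s.real e _ c1).1, (s.band_loc c1 c2).mono fun y u v => (u.1 v).1⟩

end Sit

end Pool.Agent.S6.Cn
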