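import Pool.Agent.Lib.MP_9ccfb7_an.Limit

/-! The limit theorem with the limit walls exposed: they are `C^k`-close to the initial walls. -/

open Set Metric Filter Topology
open scoped ContDiff

namespace Pool.Agent.Lib.MP_9ccfb7_an

/-- The limit theorem: a tower of polynomially convex configurations gives the surface. -/
theorem limit2 {ι St : Type*} [Finite ι] (c : ι → ℂ) (r Rm : ι → ℝ) (F : St → ι → ℂ → ℂ)
    (R : St → ι → ℝ) (Y : St → Set (ℂ × ℂ))
    (hF : ∀ s i, ContDiff ℝ ∞ (F s i))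
    (hR : ∀ s i, r i < R s i ∧ 0 < R s i ∧ R s i ≤ Rm i)
    (hY : ∀ s, IsCompact (Y s) ∧ hull (Y s) ⊆ Y s ∧ surf c r (R s) (F s) ⊆ Y s ∧
      ∀ z, {w | (z, w) ∈ Y s}.Finite)
    (hpt : ∀ s, ∃ y ∈ hull (surf c r (R s) (F s)), ‖y.1‖ ≤ 1 / 5)
    (s0 : St)
    (hstep : ∀ (s : St) (k : ℕ) (ε : ℝ), 0 < ε → ∀ (a : ℂ) (ρ : ℝ), 0 < ρ →
      ∃ s', Close k ε (F s) (F s') (R s) (R s') ∧ NoGr (Y s') a ρ)
    (k0 : ℕ) (δ0 : ℝ) (hδ0 : 0 < δ0) :
    ∃ (G : ι → ℂ → ℂ) (T : ι → ℝ), (∀ i, ContDiff ℝ ∞ (G i)) ∧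
      Close k0 δ0 (F s0) G (R s0) T ∧ (∀ i, T i ≤ Rm i) ∧
      (∃ y ∈ hull (surf c r T G), ‖y.1‖ ≤ 1 / 5) ∧ ¬ HasDisc (hull (surf c r T G)) := by
  obtain ⟨a, ρ, hρ, hen⟩ := Lim.enum
  obtain ⟨d, d0, d1, d2⟩ : ∃ d > 0, d ≤ 1 ∧ d ≤ δ0 :=
    ⟨min 1 δ0, lt_min one_pos hδ0, min_le_left _ _, min_le_right _ _⟩
  have step : ∀ (n : ℕ) (p : St × {e : ℝ // 0 < e}), ∃ q : St × {e : ℝ // 0 < e},
      Close (n + k0) (p.2.1 / 2) (F p.1) (F q.1) (R p.1) (R q.1) ∧ q.2.1 ≤ p.2.1 / 2 ∧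
      ∀ (F' : ι → ℂ → ℂ) (R' : ι → ℝ), (∀ i z, ‖F' i z - F q.1 i z‖ ≤ q.2.1) →
        (∀ i, R' i ≤ R q.1 i + q.2.1) → NoGr (hull (surf c r R' F')) (a n) (ρ n) ∧
          NoVert (hull (surf c r R' F')) (1 / ((n : ℝ) + 1)) := by
    rintro n ⟨s, e, he⟩
    obtain ⟨s', h1, h2⟩ := hstep s (n + k0) (e / 2) (half_pos he) (a n) (ρ n) (hρ n)
    obtain ⟨y1, y2, y3, y4⟩ := hY s'
    obtain ⟨η1, a1, b1⟩ := h2.thick y1
    obtain ⟨η2, a2, b2⟩ := noVert_thick y1 y4 (τ := 1 / ((n : ℝ) + 1)) (by positivity)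
    obtain ⟨η, a3, b3⟩ := hull_usc y1 (isOpen_thickening (δ := min η1 η2) (E := Y s'))
      (y2.trans (self_subset_thickening (lt_min a1 a2) _))
    obtain ⟨δ, a4, b4⟩ := Lim.near c (fun i => (hF s' i).continuous)
      (fun i => (hR s' i).1.le) (fun i => (hR s' i).2.1) a3
    refine ⟨(s', ⟨min (e / 2) δ, lt_min (half_pos he) a4⟩), h1, min_le_left _ _,
      fun F' R' u v => ?_⟩
    have h3 : hull (surf c r R' F') ⊆ thickening (min η1 η2) (Y s') :=
      (hull_mono ((b4 F' R' (fun i z => (u i z).trans (min_le_right _ _)) fun i =>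
        (v i).trans (add_le_add le_rfl (min_le_right _ _))).trans
        (thickening_subset_of_subset _ y3))).trans b3
    exact ⟨b1.mono (h3.trans (thickening_mono (min_le_left _ _) _)),
      b2.mono (h3.trans (thickening_mono (min_le_right _ _) _))⟩
  choose nx h1 h2 h3 using step
  let p : ℕ → St × {e : ℝ // 0 < e} := fun n => Nat.rec (s0, ⟨d, d0⟩) nx n
  have pe : ∀ n, p (n + 1) = nx n (p n) := fun n => rfl
  let e : ℕ → ℝ := fun n => (p n).2.1
  have e0 : ∀ n, 0 < e n := fun n => (p n).2.2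
  have e1 : ∀ n, e (n + 1) ≤ e n / 2 := fun n => h2 n (p n)
  have e2 : e 0 ≤ 1 := d1
  have cl : ∀ n, Close (n + k0) (e n / 2) (F (p n).1) (F (p (n + 1)).1) (R (p n).1)
      (R (p (n + 1)).1) := fun n => h1 n (p n)
  let G : ι → ℂ → ℂ := fun i z =>
    F (p 0).1 i z + ∑' m, (F (p (m + 1)).1 i z - F (p m).1 i z)
  let T : ι → ℝ := fun i => R (p 0).1 i + ∑' m, (R (p (m + 1)).1 i - R (p m).1 i)
  have g1 : ∀ n i z, ‖G i z - F (p n).1 i z‖ ≤ e n := fun n i z =>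
    Lim.tail (u := fun n => F (p n).1 i z) e0 e1 e2 (fun m => (cl m).norm i z) n
  have t1 : ∀ n i, |T i - R (p n).1 i| ≤ e n := fun n i =>
    Lim.tail (u := fun n => R (p n).1 i) e0 e1 e2 (fun m => by
      rw [Real.norm_eq_abs, abs_le]
      constructor <;> linarith [(cl m i).2.1, (cl m i).2.2, e0 m]) n
  have el : Tendsto e atTop (𝓝 0) :=
    squeeze_zero (fun n => (e0 n).le) (Lim.geo e1 e2)
      (tendsto_pow_atTop_nhds_zero_of_lt_one (by norm_num) (by norm_num))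
  have tl : ∀ i, Tendsto (fun n => R (p n).1 i) atTop (𝓝 (T i)) := fun i =>
    tendsto_iff_norm_sub_tendsto_zero.2 (squeeze_zero (fun n => norm_nonneg _)
      (fun n => by rw [Real.norm_eq_abs, abs_sub_comm]; exact t1 n i) el)
  have t2 : ∀ n i, R (p n).1 i ≤ T i := fun n i =>
    (monotone_nat_of_le_succ fun m => (cl m i).2.1).ge_of_tendsto (tl i) n
  have t3 : ∀ i, T i ≤ Rm i := fun i =>
    le_of_tendsto' (tl i) fun n => (hR (p n).1 i).2.2
  have g2 : ∀ i, ContDiff ℝ ∞ (G i) := by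
    intro i
    refine (hF _ i).add (contDiff_tsum_of_eventually (N := ⊤) (v := fun _ m => (1 / 2) ^ m)
      (fun m => (hF _ i).sub (hF _ i)) (fun k _ => summable_geometric_two) fun k _ => ?_)
    rw [Nat.cofinite_eq_atTop]
    filter_upwards [eventually_ge_atTop k] with m hm z
    exact ((cl m i).1 k (hm.trans (Nat.le_add_right _ _)) z).trans (by linarith [Lim.geo e1 e2 m, e0 m])
  have hS : IsCompact (surf c r T G) := isCompact_surf _ _ _ fun i => (g2 i).continuous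
  have g3 : Close k0 δ0 (F s0) G (R s0) T := by
    refine fun i => ⟨fun j hj z => ?_, t2 0 i, ?_⟩
    · have ge : ∀ m, e m ≤ d / 2 ^ m := fun m => by
        induction m with
        | zero => rw [pow_zero, div_one]; exact le_rfl
        | succ m ih => rw [pow_succ, ← div_div]; linarith [e1 m]
      have hb : ∀ (l m : ℕ) (x : ℂ), (l : ℕ∞) ≤ (k0 : ℕ∞) → ‖iteratedFDeriv ℝ l
          (fun y => F (p (m + 1)).1 i y - F (p m).1 i y) x‖ ≤ d / 2 / 2 ^ m := fun l m x hl => by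
        refine ((cl m i).1 l ((Nat.cast_le.1 hl).trans (Nat.le_add_left _ _)) x).trans ?_
        rw [div_right_comm]
        linarith [ge m]
      have e4 : (fun z => G i z - F s0 i z) =
          fun y => ∑' m, (F (p (m + 1)).1 i y - F (p m).1 i y) :=
        funext fun y => add_sub_cancel_left _ _
      rw [e4, iteratedFDeriv_tsum_apply (N := (k0 : ℕ∞)) (v := fun _ m => d / 2 / 2 ^ m)
        (fun m => ((hF _ i).sub (hF _ i)).of_le (by exact_mod_cast le_top))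
        (fun _ _ => summable_geometric_two' d) hb (Nat.cast_le.2 hj)]
      exact (tsum_of_norm_bounded (hasSum_geometric_two' d)
        fun m => hb j m z (Nat.cast_le.2 hj)).trans d2
    · have := (abs_le.1 (t1 0 i)).2
      have e3 : e 0 = d := rfl
      show T i ≤ R (p 0).1 i + δ0
      linarith
  refine ⟨G, T, g2, g3, t3, ?_, fun h => ?_⟩
  · by_contra h
    obtain ⟨η, a1, b1⟩ := hull_usc hS (N := {x | 1 / 5 < ‖x.1‖})
      (isOpen_lt continuous_const continuous_fst.norm)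
      (fun x hx => not_le.1 fun h' => h ⟨x, hx, h'⟩)
    obtain ⟨n, hn⟩ := (el.eventually (gt_mem_nhds a1)).exists
    obtain ⟨y, y1, y2⟩ := hpt (p n).1
    refine absurd (b1 (hull_mono (fun x hx => ?_) y1)) (not_lt.2 y2)
    obtain ⟨i, hi, hx2⟩ := mem_iUnion.1 hx
    refine mem_thickening_iff.2 ⟨(x.1, G i x.1),
      mem_iUnion.2 ⟨i, ann_mono _ _ (t2 n i) hi, rfl⟩, ?_⟩
    rw [Prod.dist_eq]
    refine max_lt (by rw [dist_self]; exact a1) ?_
    show dist x.2 (G i x.1) < η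
    rw [hx2, dist_comm, dist_eq_norm]
    exact (g1 n i x.1).trans_lt hn
  · have key := fun n => h3 n (p n) G T (g1 (n + 1)) fun i => by
      have := (abs_le.1 (t1 (n + 1) i)).2
      show T i ≤ R (p (n + 1)).1 i + e (n + 1)
      linarith
    rcases h.cases with ⟨b, τ, hτ, H⟩ | ⟨τ, hτ, H⟩
    · obtain ⟨n, hn⟩ := hen b τ hτ
      exact H _ _ hn (key n).1
    · obtain ⟨n, hn⟩ := exists_nat_one_div_lt hτ
      exact H _ hn.le (key n).2

end Pool.Agent.Lib.MP_9ccfb7_an
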