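import Pool.Agent.Lib.S6.CnBlue

/-! Polynomial convexity of thin walls with arcs, and the final surface. -/

open Set Filter Topology Metric
open scoped ContDiff

noncomputable section

namespace Pool.Agent.S6.Cb

open Pool.Agent.Lib
open Pool.Agent.Lib.MP_9ccfb7_an (gr IsSurface HasDisc)
open Pool.Agent.HULL (hull)

theorem int_sub {D H : Set ℂ} {z : ℂ} (h : z ∈ interior (D ∪ Hᶜ)) (hz : z ∈ H) : z ∈ D :=
  (interior_subset h).resolve_right fun a => a hz

theorem ch {g : Bool → ℂ → ℂ} (P : Bool → Set ℂ) : ∃ b : E → Bool, ∀ p ∈ grs g P,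
    p.1 ∈ P (b p) ∧ p = (p.1, g (b p) p.1) := by
  have : ∀ p : E, ∃ b, p ∈ grs g P → p.1 ∈ P b ∧ p = (p.1, g b p.1) := fun p => by
    by_cases h : p ∈ grs g P
    · obtain ⟨b, h1, h2⟩ := mem_grs.1 h
      exact ⟨b, fun _ => ⟨h1, Prod.ext rfl h2⟩⟩
    · exact ⟨true, fun a => absurd a h⟩
  exact Classical.axiomOfChoice this

theorem Two.loc' {g : Bool → ℂ → ℂ} {c : Bool → ℂ} {R : Bool → ℝ} {P : Bool → Set ℂ} {M : Set ℂ}
    (h : Two g c R P M) {b : Bool} {p : E} (hz : p.1 ∈ P b) (e : p = (p.1, g b p.1)) :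
    ∀ᶠ y in 𝓝 p, y ∈ grs g P → y.2 = g b y.1 := by
  have := h.loc hz
  rwa [← e] at this

theorem st_pcs (hA : St_ARC) (hT : St_TUBE) : St_PCS := by
  intro f c R D0 L M A Q Hs tw cp cA pA hQ h0 hH p0 hL hr
  have fc := fun b => (tw.smooth b).continuous
  have cγ := isCompact_grs fc fun b => (cp b).2
  have h1 := hA A (grs f L) Q Hs cA cγ pA hQ h0 hH
    (fun y hy => by obtain ⟨b, a, -⟩ := mem_grs.1 hy; exact (hL b _ a).1)
    (fun z => (finite_range fun b => f b z).subset fun w hw => by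
      obtain ⟨b, -, a⟩ := mem_grs.1 hw; exact ⟨b, Eq.symm a⟩)
    fun y hy e => by
      obtain ⟨b, a, d⟩ := mem_grs.1 hy
      have k : y = (y.1, f b y.1) := Prod.ext rfl d
      exact k ▸ (hL b _ a).2.1 (k ▸ e)
  obtain ⟨b, hb⟩ := ch (g := f) fun b => L b \ interior (D0 b ∪ (closedBall (c b) (R b))ᶜ)
  have nA : ∀ p ∈ grs f fun b => L b \ interior (D0 b ∪ (closedBall (c b) (R b))ᶜ), p ∉ A :=
    fun p hp e => (hb p hp).1.2 ((hL _ _ (hb p hp).1.1).2.2 ((hb p hp).2 ▸ e))
  obtain ⟨U, u1, u2, η, u3, u4⟩ := hT Bool f (A ∪ grs f L) _ b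
    (fun p => {y | y ∉ A ∧ ((y ∈ grs f fun b => D0 b ∪ L b) → y.2 = f (b p) y.1)})
    (cA.union cγ) h1 (isCompact_grs fc fun b => (cp b).2.diff isOpen_interior)
    (fun b => (tw.smooth b).of_le (by simp)) fun p hp => ⟨Eventually.and
      (cA.isClosed.isOpen_compl.mem_nhds (nA p hp))
      (tw.loc' (Or.inr (hb p hp).1.1) (hb p hp).2), congrArg Prod.snd (hb p hp).2,
      hr _ _ (Or.inr (hb p hp).1.1) ((hb p hp).2 ▸ nA p hp), fun y hy a =>
        a.2 (grs_mono (fun _ => subset_union_right) (hy.resolve_left a.1))⟩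
  refine ⟨η, u3, fun D hD hη => ?_⟩
  have cK : IsCompact (A ∪ grs f fun b => D b ∪ L b) :=
    cA.union (isCompact_grs fc fun b => (hD b).1.union (cp b).2)
  have s1 : (grs f fun b => D b ∪ L b) ⊆ grs f fun b => D0 b ∪ L b :=
    grs_mono fun b => union_subset_union_left _ (hD b).2
  have h2 := (u4 _ f cK (by
      rintro y (a | a)
      · exact self_subset_thickening u3 _ (Or.inl a)
      obtain ⟨i, a1 | a1, a2⟩ := mem_grs.1 a
      · exact thickening_subset_of_subset _ subset_union_left (hη (mem_grs.2 ⟨i, a1, a2⟩))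
      · exact self_subset_thickening u3 _ (Or.inr (mem_grs.2 ⟨i, a1, a2⟩)))
    (fun b => ⟨(tw.smooth b).differentiable (by simp), Near1.refl u3.le _⟩)
    fun p _ y hy a => a.2 (s1 (hy.resolve_left a.1))).1
  have h3 : hull (A ∪ grs f fun b => D b ∪ L b) ⊆ A ∪ grs f D0 ∪ (A ∪ grs f fun b => D b ∪ L b) :=
    (rm cK u1 h2).trans (union_subset_union ((HULL.hull_mono (by
      rintro y ⟨a | a, d⟩
      · exact Or.inl a
      obtain ⟨i, a1 | a1, a2⟩ := mem_grs.1 a
      · exact Or.inr (mem_grs.2 ⟨i, (hD i).2 a1, a2⟩)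
      · exact Or.inr (mem_grs.2 ⟨i, int_sub (by_contra fun k => d (u2 (mem_grs.2 ⟨i, ⟨a1, k⟩, a2⟩)))
          (tw.sub i (Or.inr a1)), a2⟩))).trans p0) inter_subset_left)
  intro y hy
  by_contra hn
  have a : y ∉ A := fun a => hn (Or.inl a)
  obtain ⟨i, a1, a2⟩ := mem_grs.1 (((h3 hy).resolve_right hn).resolve_left a)
  have k : y = (y.1, f i y.1) := Prod.ext rfl a2
  refine SH.BRIDGE.noPeak_iff.1 ((HULL.lm_hull cK).noPeak y hy (mem_univ _) hn)
    (INI.peak ((tw.smooth i).differentiable (by simp) _) (hr i _ (Or.inl a1) (k ▸ a)) a2 ?_)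
  filter_upwards [tw.loc' (b := i) (Or.inl a1) k, cA.isClosed.isOpen_compl.mem_nhds a] with x d e hx
  rcases h3 hx with (j | j) | j | j
  exacts [absurd j e, d (grs_mono (fun _ => subset_union_left) j), absurd j e, d (s1 j)]

/-- uniform separation of the two sheets -/
theorem Two.unif {g : Bool → ℂ → ℂ} {c : Bool → ℂ} {R : Bool → ℝ} {P : Bool → Set ℂ} {M : Set ℂ}
    (h : Two g c R P M) (ne : ∀ b, (P b).Nonempty) : ∃ δ > 0, ∀ z,
      (∀ b, z ∈ thickening δ (P b)) → z ∉ M → 2 * δ < ‖g true z - g false z‖ := by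
  have gc : Continuous fun z => ‖g true z - g false z‖ :=
    ((h.smooth true).continuous.sub (h.smooth false).continuous).norm
  obtain ⟨a, a0, h1⟩ := (((h.cpt true).cthickening (r := 1)).diff h.opn).exists_forall_le'
    (f := fun z => infDist z (P true) + infDist z (P false) + ‖g true z - g false z‖)
    (((continuous_infDist_pt _).add (continuous_infDist_pt _)).add gc).continuousOn (a := 0)
    fun z hz => by
      have b1 := infDist_nonneg (x := z) (s := P true)
      have b2 := infDist_nonneg (x := z) (s := P false)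
      have b3 := norm_nonneg (g true z - g false z)
      by_contra k
      exact h.sep z (((h.cpt _).isClosed.mem_iff_infDist_zero (ne _)).2 (by linarith))
        (((h.cpt _).isClosed.mem_iff_infDist_zero (ne _)).2 (by linarith)) hz.2
        (sub_eq_zero.1 (norm_eq_zero.1 (by linarith)))
  refine ⟨min 1 (a / 4), by positivity, fun z hz m => ?_⟩
  have b1 := (mem_thickening_iff_infDist_lt (ne _)).1 (hz true)
  have b2 := (mem_thickening_iff_infDist_lt (ne _)).1 (hz false)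
  have b3 := h1 z ⟨thickening_subset_cthickening_of_le (min_le_left _ _) _ (hz true), m⟩
  linarith [min_le_right 1 (a / 4)]

theorem st_finc (hT : St_TUBE) (hN : St_ND) (hS : St_SUB) : St_FINC := by
  intro f c R D P M A z0 tw m0 hP cA pc hr
  have fc := fun b => (tw.smooth b).continuous
  obtain ⟨δ, d0, sp⟩ := tw.unif fun b => ⟨z0, (hP b).2.1⟩
  obtain ⟨b, hb⟩ := ch (g := f) fun b => P b \ interior (D b ∪ (closedBall (c b) (R b))ᶜ)
  have cT := isCompact_grs fc fun b =>
    (tw.cpt b).diff (isOpen_interior (s := D b ∪ (closedBall (c b) (R b))ᶜ))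
  have key : ∀ g : Bool → ℂ → ℂ, (∀ a z, ‖g a z - f a z‖ ≤ δ) → EqOn (g true) (g false) M →
      ∀ a (y : E), y.1 ∈ thickening δ (P a) → ‖y.2 - f a y.1‖ < δ →
      (y ∈ grs g fun a => thickening δ (P a)) → y.2 = g a y.1 := fun g g1 g2 a y y1 y2 y3 => by
    obtain ⟨a', k1, k2⟩ := mem_grs.1 y3
    by_cases m : y.1 ∈ M
    · rw [k2]
      rcases a with _ | _ <;> rcases a' with _ | _
      exacts [rfl, g2 m, (g2 m).symm, rfl]
    have k3 := norm_sub_le (y.2 - f a y.1) (y.2 - f a' y.1)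
    have k4 := g1 a' y.1
    rw [← k2] at k4
    rw [sub_sub_sub_cancel_left] at k3
    rcases a with _ | _ <;> rcases a' with _ | _
    · exact k2
    · linarith [sp y.1 (Bool.rec y1 k1) m]
    · rw [norm_sub_rev] at k3
      linarith [sp y.1 (Bool.rec k1 y1) m]
    · exact k2
  obtain ⟨U, u1, u2, η, u3, u4⟩ := hT Bool f (A ∪ grs f P) _ b
    (fun p => {y | y ∉ A ∧ y.1 ∈ thickening δ (P (b p)) ∧ ‖y.2 - f (b p) y.1‖ < δ})
    (cA.union (isCompact_grs fc tw.cpt)) pc cT (fun b => (tw.smooth b).of_le (by simp))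
    fun p hp => by
      obtain ⟨⟨k1, k2⟩, k3⟩ := hb p hp
      have k4 := (hr _ _ k1).2 k2
      have k5 : p.2 = f (b p) p.1 := congrArg Prod.snd k3
      have := fc (b p)
      refine ⟨Eventually.and (cA.isClosed.isOpen_compl.mem_nhds (k3 ▸ k4.2)) (Eventually.and
        ((isOpen_thickening.preimage continuous_fst).mem_nhds (self_subset_thickening d0 _ k1))
        (ContinuousAt.eventually_lt (f := fun y : E => ‖y.2 - f (b p) y.1‖) (by fun_prop)
          continuousAt_const (by simpa [k5] using d0))), k5, k4.1, fun y hy a => ?_⟩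
      exact key f (fun _ _ => by simpa using d0.le) tw.eq _ y a.2.1 a.2.2
        (grs_mono (fun _ => self_subset_thickening d0 _) (hy.resolve_left a.1))
  obtain ⟨ε, e0, e1⟩ := cT.exists_cthickening_subset_open u1 u2
  refine ⟨min (min δ ε) (η / 2), by positivity, fun g hg g2 ⟨y0, y1, y2⟩ nd => ?_⟩
  have g1 : ∀ a z, ‖g a z - f a z‖ ≤ δ := fun a z =>
    ((hg a).2 z).1.trans ((min_le_left _ _).trans (min_le_left _ _))
  have gc := fun a => (hg a).1.continuous
  have ds : ∀ a z, dist ((z, g a z) : E) (z, f a z) ≤ min (min δ ε) (η / 2) := fun a z => by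
    rw [Prod.dist_eq, dist_self, dist_eq_norm]
    exact max_le (by positivity) ((hg a).2 z).1
  obtain ⟨S, s1, s2, s3, s4⟩ := hS g c R P (fun a => (interior (D a ∪ (closedBall (c a) (R a))ᶜ) ∪
      {z | (z, g a z) ∈ U}) ∩ (thickening δ (P a) ∩
      ({z | (z, g a z) ∈ thickening η (A ∪ grs f P)} ∩ {z | 1 / 5 < ‖z‖}))) M z0
    ⟨fun a => (hg a).1, tw.pos, tw.cpt, tw.sub, tw.opn, tw.ins, g2, fun z k1 k2 m e => by
      have k3 := norm_sub_le (g false z - f false z) (g true z - f true z)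
      rw [e, sub_sub_sub_cancel_left] at k3
      have k4 := g1 true z
      rw [e] at k4
      linarith [sp z (Bool.rec (self_subset_thickening d0 _ k2) (self_subset_thickening d0 _ k1)) m,
        g1 false z]⟩ m0
    fun a => ⟨(hP a).1, (hP a).2.1, (hP a).2.2.1.trans (hP a).2.2.2.2,
      (isOpen_interior.union (u1.preimage (continuous_id.prodMk (gc a)))).inter
        (isOpen_thickening.inter ((isOpen_thickening.preimage (continuous_id.prodMk (gc a))).inter
          (isOpen_lt continuous_const continuous_norm))), fun z hz => ⟨by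
        by_cases k : z ∈ interior (D a ∪ (closedBall (c a) (R a))ᶜ)
        · exact Or.inl k
        · exact Or.inr (e1 (mem_cthickening_of_dist_le _ (z, f a z) _ _ (mem_grs.2 ⟨a, ⟨hz, k⟩, rfl⟩)
            ((ds a z).trans ((min_le_left _ _).trans (min_le_right _ _))))),
        self_subset_thickening d0 _ hz, mem_thickening_iff.2 ⟨(z, f a z),
          Or.inr (mem_grs.2 ⟨a, hz, rfl⟩), (ds a z).trans_lt
            ((min_le_right _ _).trans_lt (half_lt_self u3))⟩,
        show 1 / 5 < ‖z‖ by linarith [(hr a z hz).1]⟩⟩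
  have pr : ∀ y ∈ S, ∃ a, y = (y.1, g a y.1) ∧ y.1 ∈ _ := fun y hy => by
    obtain ⟨a, k1, k2⟩ := mem_grs.1 (s4 hy)
    exact ⟨a, Prod.ext rfl k2, k1⟩
  obtain ⟨h1, h2⟩ := u4 S g s1.1 (fun y hy => by
      obtain ⟨a, k1, k2⟩ := pr y hy
      exact k1 ▸ k2.1.2.2.1)
    (fun a => ⟨(hg a).1.differentiable (by simp), (hg a).2.mono
      ((min_le_right _ _).trans (half_le_self u3.le))⟩)
    fun p _ y hy a => key g g1 g2 _ y a.2.1 a.2.2 (grs_mono (fun _ _ k => k.1.2.1) (s4 hy))
  have h3 : hull S ⊆ hull (grs g D) ∪ S ∩ U := (rm s1.1 u1 h1).trans (union_subset_union_left _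
    (HULL.hull_mono fun y hy => by
      obtain ⟨a, k1, k2⟩ := pr y hy.1
      exact mem_grs.2 ⟨a, int_sub (k2.1.1.resolve_right fun k => hy.2 (k1 ▸ k)) k2.2,
        congrArg Prod.snd k1⟩))
  refine ⟨S, s1, s2, fun e => ?_, fun ⟨φ, k1, k2, k3⟩ => hN (hull (grs g D)) (S ∩ U)
    (HULL.isCompact_hull2 (isCompact_grs gc fun a => (hP a).2.2.2.1)).isClosed nd
    (fun y hy _ => ?_) ⟨φ, k1, k2, fun s hs => h3 (k3 s hs)⟩⟩
  · have k : y0 ∈ S := e.le (HULL.hull_mono
      ((grs_mono fun a => (hP a).2.2.2.2).trans s3) y1)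
    obtain ⟨a, -, k2⟩ := pr y0 k
    exact y2.not_gt k2.1.2.2.2
  · obtain ⟨G, k1, k2⟩ := h2 y hy.1 hy.2
    exact ⟨G, k1, k2.mono fun x a d => a d.1⟩

end Pool.Agent.S6.Cb
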