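import Pool.Agent.Lib.MP_9ccfb7_an.Stmt

/-! Components of surfaces are surfaces. -/

open Set Filter Topology Metric

namespace Pool.Agent.S6.Cn

open Pool.Agent.Lib.MP_9ccfb7_an (IsSurface)

theorem top1_loc {S : Set (ℂ × ℂ)} (h : IsSurface S) {p : ℂ × ℂ} (hp : p ∈ S) :
    ∃ N, IsOpen N ∧ p ∈ N ∧ IsPreconnected (S ∩ N) := by
  obtain ⟨φ, a, -, -, d⟩ := h.2 p hp
  obtain ⟨r, r0, hr⟩ := Metric.isOpen_iff.1 φ.open_target _ (φ.map_source a)
  refine ⟨φ.source ∩ φ ⁻¹' ball (φ p) r, φ.isOpen_inter_preimage isOpen_ball,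
    ⟨a, mem_ball_self r0⟩, ?_⟩
  have c1 : Convex ℝ {y : ℂ × ℂ | y.2 = 0 ∧ 0 ≤ y.1.re} := fun x hx y hy s t hs ht _ =>
    ⟨by simp [hx.1, hy.1], by
      simpa using add_nonneg (mul_nonneg hs hx.2) (mul_nonneg ht hy.2)⟩
  have e : S ∩ (φ.source ∩ φ ⁻¹' ball (φ p) r) =
      φ.symm '' ({y : ℂ × ℂ | y.2 = 0 ∧ 0 ≤ y.1.re} ∩ ball (φ p) r) := by
    ext x
    refine ⟨fun k => ⟨φ x, ⟨(d x k.2.1).1 k.1, k.2.2⟩, φ.left_inv k.2.1⟩, ?_⟩
    rintro ⟨y, k, rfl⟩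
    have t := hr k.2
    exact ⟨(d _ (φ.map_target t)).2 (by rw [φ.right_inv t]; exact k.1), φ.map_target t,
      by rw [mem_preimage, φ.right_inv t]; exact k.2⟩
  rw [e]
  exact (c1.inter (convex_ball _ _)).isPreconnected.image _
    (φ.continuousOn_symm.mono fun y k => hr k.2)

theorem top1 (S : Set (ℂ × ℂ)) (x : ℂ × ℂ) (h : IsSurface S) (hx : x ∈ S) :
    IsSurface (connectedComponentIn S x) := by
  refine ⟨?_, fun p hp => ?_⟩
  · refine h.1.of_isClosed_subset ?_ (connectedComponentIn_subset S x)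
    rw [connectedComponentIn_eq_image hx]
    exact h.1.isClosed.isClosedEmbedding_subtypeVal.isClosedMap _ isClosed_connectedComponent
  · have hS := connectedComponentIn_subset S x hp
    obtain ⟨N, a, b, c⟩ := top1_loc h hS
    obtain ⟨φ, d, e, f, g⟩ := h.2 p hS
    refine ⟨φ.restrOpen N a, ⟨d, b⟩, e.mono inter_subset_left, f.mono inter_subset_left,
      fun y hy => ⟨fun k => (g y hy.1).1 (connectedComponentIn_subset S x k), fun k => ?_⟩⟩
    rw [connectedComponentIn_eq hp]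
    exact c.subset_connectedComponentIn ⟨hS, b⟩ inter_subset_left ⟨(g y hy.1).2 k, hy.2⟩

end Pool.Agent.S6.Cn
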