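import Pool.Agent.Lib.MP_9ccfb7_an.Surf

/-!
Project 9ccfb7: charts of sets which are locally graphs over regular sublevel sets.
-/

open Set Filter Topology Metric
open scoped ContDiff

noncomputable section

namespace Pool.Agent.S6.Cn

open Pool.Agent.Lib.MP_9ccfb7_an (IsSurface Srf.chart)

theorem lev2 {ψ : ℂ → ℂ} {z0 : ℂ} (h : ContDiff ℝ ∞ ψ) (L : ℂ ≃L[ℝ] ℂ)
    (hL : HasFDerivAt ψ (L : ℂ →L[ℝ] ℂ) z0) : ∃ e : OpenPartialHomeomorph ℂ ℂ, z0 ∈ e.source ∧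
      (∀ z, e z = ψ z) ∧ ContDiffOn ℝ ∞ e.symm e.target := by
  have o : IsOpen (fderiv ℝ ψ ⁻¹' range ((↑) : (ℂ ≃L[ℝ] ℂ) → ℂ →L[ℝ] ℂ)) :=
    ContinuousLinearEquiv.isOpen.preimage (h.continuous_fderiv (by simp))
  refine ⟨(h.contDiffAt.toOpenPartialHomeomorph ψ hL (by simp)).restrOpen _ o,
    ⟨h.contDiffAt.mem_toOpenPartialHomeomorph_source hL (by simp), L, hL.fderiv.symm⟩,
    fun _ => rfl, fun y hy => ?_⟩
  obtain ⟨M, hM⟩ := (OpenPartialHomeomorph.map_target _ hy).2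
  exact (OpenPartialHomeomorph.contDiffAt_symm _ hy (f₀' := M)
    (hM ▸ (h.differentiable (by simp) _).hasFDerivAt) h.contDiffAt).contDiffWithinAt

theorem top2 (S : Set (ℂ × ℂ)) (hS : IsCompact S) (H : ∀ p ∈ S, ∃ (f : ℂ → ℂ) (r : ℂ → ℝ),
    ContDiff ℝ ∞ f ∧ ContDiff ℝ ∞ r ∧ (r p.1 < 0 ∨ fderiv ℝ r p.1 ≠ 0) ∧
      ∀ᶠ y in 𝓝 p, (y ∈ S ↔ y.2 = f y.1 ∧ r y.1 ≤ 0)) : IsSurface S := by
  refine ⟨hS, fun p hp => ?_⟩
  obtain ⟨f, r, f1, r1, r2, loc⟩ := H p hp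
  suffices k : ∃ ψ : ℂ → ℂ, ContDiff ℝ ∞ ψ ∧ (∃ L : ℂ ≃L[ℝ] ℂ, HasFDerivAt ψ (L : ℂ →L[ℝ] ℂ) p.1) ∧
      ∀ᶠ z in 𝓝 p.1, (r z ≤ 0 ↔ 0 ≤ (ψ z).re) by
    obtain ⟨ψ, a, ⟨L, b⟩, c⟩ := k
    obtain ⟨e, e1, e2, e3⟩ := lev2 a L b
    obtain ⟨U, u1, u2, u3⟩ := _root_.eventually_nhds_iff.1
      (loc.and ((continuous_fst.tendsto p).eventually c))
    obtain ⟨φ, g1, g2, g3, g4⟩ := Srf.chart e.open_source e.open_target e.mapsTo e.mapsTo_symm
      (fun _ => e.left_inv) (fun _ => e.right_inv) (a.contDiffOn.congr fun z _ => e2 z) e3 f1 u2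
    refine ⟨φ, g1 ▸ ⟨e1, u3⟩, g2, g3, fun x hx => ?_⟩
    rw [g1] at hx
    rw [g4, e2, (u1 x hx.2).1, (u1 x hx.2).2, sub_eq_zero]
  rcases r2 with b | b
  · refine ⟨fun z => z + (1 - p.1), by fun_prop, ⟨ContinuousLinearEquiv.refl ℝ ℂ,
      (hasFDerivAt_id _).add_const _⟩, ?_⟩
    filter_upwards [r1.continuous.continuousAt.eventually_lt continuousAt_const b,
      (show Continuous fun z : ℂ => (z + (1 - p.1)).re by fun_prop).continuousAt.eventually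
        (lt_mem_nhds (show (0 : ℝ) < (p.1 + (1 - p.1)).re by simp))] with z u v using
      iff_of_true u.le v.le
  set D := fderiv ℝ r p.1
  have dec : ∀ v : ℂ, D v = v.re * D 1 + v.im * D Complex.I := fun v => by
    conv_lhs => rw [show v = v.re • (1 : ℂ) + v.im • Complex.I by simp]
    rw [map_add, map_smul, map_smul]; rfl
  have a0 : (⟨D 1, D Complex.I⟩ : ℂ) ≠ 0 := fun c => b (by
    ext v
    rw [dec, show D 1 = 0 from congrArg Complex.re c, show D Complex.I = 0 from congrArg Complex.im c]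
    simp)
  let T : ℂ →L[ℝ] ℝ := D 1 • Complex.imCLM - D Complex.I • Complex.reCLM
  let L : ℂ ≃L[ℝ] ℂ := Complex.conjCLE.trans
    ((ContinuousLinearEquiv.unitsEquivAut ℂ (Units.mk0 _ (neg_ne_zero.2 a0))).restrictScalars ℝ)
  refine ⟨fun z => -(r z : ℂ) + (T z : ℂ) * Complex.I, (Complex.ofRealCLM.contDiff.comp r1).neg.add
    ((Complex.ofRealCLM.contDiff.comp T.contDiff).mul contDiff_const), ⟨L, ?_⟩,
    Eventually.of_forall fun z => by simp⟩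
  refine (((Complex.ofRealCLM.hasFDerivAt.comp _ (r1.differentiable (by simp) p.1).hasFDerivAt).neg).add
    ((Complex.ofRealCLM.hasFDerivAt.comp _ T.hasFDerivAt).mul_const Complex.I)).congr_fderiv ?_
  ext v
  change -((D v : ℝ) : ℂ) + Complex.I * ((D 1 * v.im - D Complex.I * v.re : ℝ) : ℂ) =
    (starRingEnd ℂ) v * -(⟨D 1, D Complex.I⟩ : ℂ)
  rw [dec]
  apply Complex.ext <;> simp <;> ring

end Pool.Agent.S6.Cn
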