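import Pool.Agent.Lib.S6.Cn0
import Pool.Agent.Lib.SH.B_BRIDGE

/-!
Project 9ccfb7: totally real pieces carry no analytic discs.
-/

open Set Filter Topology Metric
open scoped ContDiff

noncomputable section

namespace Pool.Agent.S6.Cn

open Pool.Agent.Lib Pool.Agent.Lib.SH
open Pool.Agent.Lib.MP_9ccfb7_an (HasDisc)

theorem top3 (X T : Set E) (hX : IsClosed X) (hn : ¬ HasDisc X)
    (H : ∀ p ∈ T, p ∉ X → ∃ f : ℂ → ℂ, ContDiff ℝ ∞ f ∧ dbar f p.1 ≠ 0 ∧
      ∀ᶠ y in 𝓝 p, y ∈ T → y.2 = f y.1) : ¬ HasDisc (X ∪ T) := by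
  rintro ⟨φ, hf, ⟨s, hs, t, ht, st⟩, hm⟩
  by_cases a : ∀ u ∈ ball (0 : ℂ) 1, φ u ∈ X
  · exact hn ⟨φ, hf, ⟨s, hs, t, ht, st⟩, a⟩
  push Not at a
  obtain ⟨u, hu, a⟩ := a
  have an := hf.analyticOnNhd isOpen_ball
  obtain ⟨f, f1, f2, f3⟩ := H _ ((hm u hu).resolve_left a) a
  have f4 : ∀ᶠ z in 𝓝 (φ u).1, dbar f z ≠ 0 := by
    have c := f1.continuous_fderiv (by simp)
    exact (show Continuous (dbar f) by unfold dbar; fun_prop).continuousAt.eventually_ne f2
  have h1 : ∀ᶠ v in 𝓝 u, (φ v).2 = f (φ v).1 := by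
    filter_upwards [(an u hu).continuousAt.eventually f3, isOpen_ball.mem_nhds hu,
      (an u hu).continuousAt.eventually (hX.isOpen_compl.mem_nhds a)] with v b c d using
      b ((hm v c).resolve_left d)
  have h2 : deriv φ =ᶠ[𝓝 u] 0 := by
    filter_upwards [h1.eventually_nhds, isOpen_ball.mem_nhds hu,
      (continuous_fst.continuousAt.comp (an u hu).continuousAt).eventually f4] with v b c d
    have e := (an v c).differentiableAt.hasDerivAt
    have e1 := e.hasFDerivAt.fst.restrictScalars ℝ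
    have e2 := e.hasFDerivAt.snd.restrictScalars ℝ
    have e3 := e2.unique (((f1.differentiable (by simp) (φ v).1).hasFDerivAt.comp v
      e1).congr_of_eventuallyEq b)
    have g : ∀ w : ℂ, w * (deriv φ v).2 = fderiv ℝ f (φ v).1 (w * (deriv φ v).1) :=
      fun w => congrArg (fun L : ℂ →L[ℝ] ℂ => L w) e3
    have k : (deriv φ v).1 = 0 := by
      by_contra k
      apply d
      have g1 := g (deriv φ v).1⁻¹
      have g2 := g (Complex.I * (deriv φ v).1⁻¹)
      rw [inv_mul_cancel₀ k] at g1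
      rw [mul_assoc Complex.I _ (deriv φ v).1, inv_mul_cancel₀ k, mul_one] at g2
      change (fderiv ℝ f (φ v).1 1 + Complex.I * fderiv ℝ f (φ v).1 Complex.I) / 2 = 0
      rw [← g1, ← g2]
      linear_combination ((deriv φ v).1⁻¹ * (deriv φ v).2 / 2) * Complex.I_mul_I
    have g1 := g 1
    rw [k, mul_zero, map_zero, one_mul] at g1
    exact Prod.ext k g1
  have h3 := an.deriv.eqOn_zero_of_preconnected_of_eventuallyEq_zero
    (convex_ball _ _).isPreconnected hu h2
  exact st (isOpen_ball.is_const_of_deriv_eq_zero (convex_ball _ _).isPreconnected hf h3 hs ht)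

end Pool.Agent.S6.Cn
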