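import Pool.Agent.Lib.S6.Cn0

/-!
Project 9ccfb7: the thin pieces are compact, connected regular sublevel sets.
-/

open Set Filter Topology Metric
open scoped ContDiff

noncomputable section

namespace Pool.Agent.S6.Cn

theorem top4 (c : ℂ) (ρ s m : ℝ) (hρ : 0 < ρ) (hs : s = 1 ∨ s = -1) (h0 : 0 < m) (h1 : m < ρ ^ 2) :
    IsCompact (Dm c ρ s m) ∧ IsConnected (Dm c ρ s m) ∧ ∃ r : ℂ → ℝ, ContDiff ℝ ∞ r ∧
      ∀ z, (z ∈ Dm c ρ s m ↔ r z ≤ 0) ∧ (r z = 0 → fderiv ℝ r z ≠ 0) := by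
  have sm : ContDiff ℝ ∞ (ph c ρ s) :=
    contDiff_const.mul (((contDiff_id.sub contDiff_const).norm_sq ℝ).sub contDiff_const)
  have der : ∀ z, fderiv ℝ (ph c ρ s) z (z - c) = s * (2 * ‖z - c‖ ^ 2) := fun z => by
    have := ((((hasFDerivAt_id z).sub_const c).norm_sq).sub_const (ρ ^ 2)).const_mul s
    rw [show fderiv ℝ (ph c ρ s) z = _ from this.fderiv]
    rw [← real_inner_self_eq_norm_sq]
    change s * (2 • inner ℝ (z - c) (z - c)) = _
    rw [two_nsmul, two_mul]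
  have key : ∀ a b : ℝ, 0 ≤ a → a ≤ b → (∀ z, z ∈ Dm c ρ s m ↔ a ≤ ‖z - c‖ ^ 2 ∧ ‖z - c‖ ^ 2 ≤ b) →
      IsCompact (Dm c ρ s m) ∧ IsConnected (Dm c ρ s m) := fun a b a0 ab h => by
    have e : Dm c ρ s m = (fun p : ℝ × ℝ => circleMap c √p.1 p.2) '' (Icc a b ×ˢ Icc (-4) 4) := by
      ext z
      rw [h]
      refine ⟨fun k => ⟨(‖z - c‖ ^ 2, (z - c).arg), ⟨k, by linarith [Complex.neg_pi_lt_arg (z - c),
        Real.pi_le_four], (Complex.arg_le_pi _).trans Real.pi_le_four⟩, ?_⟩, ?_⟩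
      · simp [circleMap]
      · rintro ⟨p, ⟨k, -⟩, rfl⟩
        rw [circleMap_sub_center, norm_circleMap_zero, sq_abs, Real.sq_sqrt (a0.trans k.1)]
        exact k
    have t : Continuous fun p : ℝ × ℝ => circleMap c √p.1 p.2 := by unfold circleMap; fun_prop
    rw [e]
    exact ⟨(isCompact_Icc.prod isCompact_Icc).image t,
      ((isConnected_Icc ab).prod (isConnected_Icc (by norm_num))).image _ t.continuousOn⟩
  rcases hs with rfl | rfl
  · obtain ⟨k1, k2⟩ := key 0 (ρ ^ 2 + m) le_rfl (by positivity) fun z =>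
      ⟨fun k => ⟨by positivity, by have := k.1; unfold ph at this; linarith⟩,
        fun k => ⟨by unfold ph; linarith [k.2], fun e => by norm_num at e⟩⟩
    refine ⟨k1, k2, fun z => ph c ρ 1 z - m, sm.sub contDiff_const, fun z =>
      ⟨⟨fun k => sub_nonpos.2 k.1, fun k => ⟨sub_nonpos.1 k, fun e => by norm_num at e⟩⟩,
        fun k e => ?_⟩⟩
    have := der z
    rw [fderiv_sub_const] at e
    rw [e, zero_apply] at this
    unfold ph at k
    nlinarith
  · obtain ⟨k1, k2⟩ := key (ρ ^ 2 - m) (ρ ^ 2) (by linarith) (by linarith) fun z =>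
      ⟨fun k => by have := k.1; have := k.2 rfl; unfold ph at *; constructor <;> linarith,
        fun k => ⟨by unfold ph; linarith [k.1], fun _ => by unfold ph; linarith [k.2]⟩⟩
    refine ⟨k1, k2, fun z => ph c ρ (-1) z * (ph c ρ (-1) z - m), sm.mul (sm.sub contDiff_const),
      fun z => ⟨⟨fun k => mul_nonpos_of_nonneg_of_nonpos (k.2 rfl) (sub_nonpos.2 k.1),
        fun k => ⟨by nlinarith, fun _ => by nlinarith⟩⟩, fun k e => ?_⟩⟩
    have d := (sm.differentiable (by simp) z).hasFDerivAt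
    have := congrArg (fun L : ℂ →L[ℝ] ℝ => L (z - c)) ((d.mul (d.sub_const m)).fderiv.symm.trans e)
    simp only [add_apply, smul_apply, der, smul_eq_mul,
      zero_apply] at this
    have u : ph c ρ (-1) z = ρ ^ 2 - ‖z - c‖ ^ 2 := by unfold ph; ring
    rcases mul_eq_zero.1 k with v | v <;> nlinarith [mul_pos h0 (sub_pos.2 h1), mul_pos h0 h0]

end Pool.Agent.S6.Cn
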