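import Pool.Agent.Lib.S6.CnTop1
import Pool.Agent.Lib.S6.CnTop2
import Pool.Agent.Lib.S6.CnTop3
import Pool.Agent.Lib.S6.CnTop4

namespace Pool.Agent.S6.Cn

theorem st_top42 : St_TOP := ⟨top1, top2, top3, top4⟩

end Pool.Agent.S6.Cn
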