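import Pool.Agent.Lib.S6.CnBlue

/-! Hulls near totally real points, and discs. -/

open Set Filter Topology Metric

noncomputable section

namespace Pool.Agent.S6.Cb

open Pool.Agent.Lib
open Pool.Agent.HULL (hull)

namespace TUBE

theorem dbar_sub (f g : ℂ → ℂ) (z w : ℂ) :
    ‖SH.dbar g w - SH.dbar f z‖ ≤ ‖fderiv ℝ g w - fderiv ℝ f z‖ := by
  have e : SH.dbar g w - SH.dbar f z = ((fderiv ℝ g w - fderiv ℝ f z) 1 +
      Complex.I * (fderiv ℝ g w - fderiv ℝ f z) Complex.I) / 2 := by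
    simp only [SH.dbar, sub_apply]; ring
  have a := (fderiv ℝ g w - fderiv ℝ f z).le_opNorm 1
  have b := (fderiv ℝ g w - fderiv ℝ f z).le_opNorm Complex.I
  have c := norm_add_le ((fderiv ℝ g w - fderiv ℝ f z) 1)
    (Complex.I * (fderiv ℝ g w - fderiv ℝ f z) Complex.I)
  rw [norm_mul] at c
  rw [e, norm_div]
  simp only [Complex.norm_I, norm_one, mul_one, one_mul, Complex.norm_ofNat] at a b c ⊢
  linarith

/-- one point -/
theorem one {f : ℂ → ℂ} {Y N : Set E} {z1 : ℂ} (hf : ContDiff ℝ 1 f)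
    (hN : N ∈ 𝓝 ((z1, f z1) : E)) (hb : SH.dbar f z1 ≠ 0) (hY : ∀ y ∈ Y, y ∈ N → y.2 = f y.1) :
    ∃ U, IsOpen U ∧ (z1, f z1) ∈ U ∧ ∃ O, IsOpen O ∧ Y ⊆ O ∧ ∃ η > 0, ∀ (K : Set E) (g : ℂ → ℂ),
      IsCompact K → Differentiable ℝ g → Near1 η f g → (∀ y ∈ K, y ∈ N → y.2 = g y.1) →
      hull K ⊆ O → hull K ∩ U ⊆ K ∧ ∀ y ∈ K, y ∈ U → SH.Peak K y := by
  have hb0 := norm_pos_iff.2 hb
  have fc := hf.continuous
  have h1 : ∀ᶠ p in 𝓝 ((z1, 0) : E), (p.1, p.2 + f p.1) ∈ N ∧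
      ‖fderiv ℝ f p.1 - fderiv ℝ f z1‖ < ‖SH.dbar f z1‖ / 2 := by
    have := hf.continuous_fderiv one_ne_zero
    refine Eventually.and (ContinuousAt.preimage_mem_nhds
      (f := fun p : E => ((p.1, p.2 + f p.1) : E)) (by fun_prop) (by simpa using hN)) ?_
    exact ContinuousAt.eventually_lt (f := fun p : E => ‖fderiv ℝ f p.1 - fderiv ℝ f z1‖)
      (by fun_prop) continuousAt_const (by simpa using hb0)
  obtain ⟨ε, hε, h2⟩ := nhds_basis_closedBall.eventually_iff.1 h1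
  obtain ⟨r, hr, r1, κ, hκ, h3⟩ := SH.st_lbt f z1 (ε / 2) hf.contDiffAt hb (half_pos hε)
  have h4 : ∀ y : E, ‖y.1 - z1‖ ≤ 2 * r → ‖y.2 - f y.1‖ ≤ r → y ∈ N ∧
      ‖fderiv ℝ f y.1 - fderiv ℝ f z1‖ < ‖SH.dbar f z1‖ / 2 := fun y a b => by
    simpa using h2 (x := (y.1, y.2 - f y.1)) (by
      rw [mem_closedBall, Prod.dist_eq, dist_eq_norm, dist_zero_right]
      exact max_le (by linarith) (by linarith))
  have c1 : Continuous fun y : E => ‖y.1 - z1‖ := by fun_prop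
  have c2 : Continuous fun y : E => ‖y.2 - f y.1‖ := by fun_prop
  have oU := (isOpen_lt c1 (continuous_const (y := r))).inter (isOpen_lt c2 (continuous_const (y := r)))
  refine ⟨_, oU, ⟨by simpa using hr, by simpa using hr⟩,
    {y | 2 * r < ‖y.1 - z1‖} ∪ {y | r < ‖y.2 - f y.1‖} ∪ {y | ‖y.2 - f y.1‖ < κ},
    ((isOpen_lt continuous_const c1).union (isOpen_lt continuous_const c2)).union
      (isOpen_lt c2 continuous_const), fun y hy => ?_, min κ (‖SH.dbar f z1‖ / 2), by positivity,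
    fun K g a1 a2 a3 a4 hO => ⟨fun y hy => ?_, fun y hy hU => ?_⟩⟩
  · by_contra k
    simp only [mem_union, mem_ofPred_eq, not_or, not_lt] at k
    have := hY y hy (h4 y k.1.1 k.1.2).1
    rw [this, sub_self, norm_zero] at k
    linarith [k.2]
  · refine h3 _ _ g (HULL.isCompact_hull2 a1).isClosed (fun x hx b1 b2 => ⟨fun c =>
      SH.BRIDGE.noPeak_iff.1 ((HULL.lm_hull a1).noPeak x hx (mem_univ _) c),
      fun c => a4 x c (h4 x b1 b2).1, ?_⟩) (fun z _ => ⟨a2 z, (a3 z).1.trans (min_le_left _ _),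
        (a3 z).2.trans (min_le_left _ _)⟩) y hy.1 (le_of_lt hy.2.1) (le_of_lt hy.2.2)
    rcases hO hx with (k | k) | k
    · exact absurd b1 (not_le.2 k)
    · exact absurd b2 (not_le.2 k)
    · exact le_of_lt k
  · have h5 : ∀ x ∈ _, x ∈ N ∧ _ := fun x (hx : x ∈ {y : E | ‖y.1 - z1‖ < r} ∩
      {y | ‖y.2 - f y.1‖ < r}) => h4 x (by linarith [show ‖x.1 - z1‖ < r from hx.1]) (le_of_lt hx.2)
    refine INI.peak (a2 _) (fun e => ?_) (a4 y hy (h5 y hU).1) ?_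
    · have b1 := dbar_sub f g z1 y.1
      have b2 := norm_add_le (fderiv ℝ g y.1 - fderiv ℝ f y.1) (fderiv ℝ f y.1 - fderiv ℝ f z1)
      rw [e, zero_sub, norm_neg] at b1
      rw [sub_add_sub_cancel] at b2
      linarith [(h5 y hU).2, (a3 y.1).2.trans (min_le_right _ _)]
    · filter_upwards [oU.mem_nhds hU] with x a b using a4 x b (h5 x a).1

end TUBE

theorem st_tube : St_TUBE := by
  intro B _ f Y T b N hY pc hT hf h
  have key : ∃ U, IsOpen U ∧ T ⊆ U ∧ ∃ O, IsOpen O ∧ Y ⊆ O ∧ ∃ η > 0,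
      ∀ (K : Set E) (g : B → ℂ → ℂ), IsCompact K →
        (∀ a, Differentiable ℝ (g a) ∧ Near1 η (f a) (g a)) →
        (∀ p ∈ T, ∀ y ∈ K, y ∈ N p → y.2 = g (b p) y.1) → hull K ⊆ O →
        hull K ∩ U ⊆ K ∧ ∀ y ∈ K, y ∈ U → SH.Peak K y := by
    refine hT.induction_on (p := fun S => ∃ U, IsOpen U ∧ S ⊆ U ∧ ∃ O, IsOpen O ∧ Y ⊆ O ∧
      ∃ η > 0, ∀ (K : Set E) (g : B → ℂ → ℂ), IsCompact K →
        (∀ a, Differentiable ℝ (g a) ∧ Near1 η (f a) (g a)) →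
        (∀ p ∈ T, ∀ y ∈ K, y ∈ N p → y.2 = g (b p) y.1) → hull K ⊆ O →
        hull K ∩ U ⊆ K ∧ ∀ y ∈ K, y ∈ U → SH.Peak K y) ?_ ?_ ?_ ?_
    · exact ⟨∅, isOpen_empty, subset_rfl, univ, isOpen_univ, subset_univ _, 1, one_pos,
        fun _ _ _ _ _ _ => ⟨fun _ a => a.2.elim, fun _ _ a => a.elim⟩⟩
    · rintro S S' k ⟨U, a, c, d⟩
      exact ⟨U, a, k.trans c, d⟩
    · rintro S S' ⟨U, a, c, O, d, e, η, i, j⟩ ⟨U', a', c', O', d', e', η', i', j'⟩
      refine ⟨U ∪ U', a.union a', union_subset_union c c', O ∩ O', d.inter d', subset_inter e e',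
        min η η', lt_min i i', fun K g k1 k2 k3 k4 => ?_⟩
      have l := j K g k1 (fun a => ⟨(k2 a).1, (k2 a).2.mono (min_le_left _ _)⟩) k3
        (k4.trans inter_subset_left)
      have l' := j' K g k1 (fun a => ⟨(k2 a).1, (k2 a).2.mono (min_le_right _ _)⟩) k3
        (k4.trans inter_subset_right)
      exact ⟨fun y hy => hy.2.elim (fun u => l.1 ⟨hy.1, u⟩) fun u => l'.1 ⟨hy.1, u⟩,
        fun y hy u => u.elim (l.2 y hy) (l'.2 y hy)⟩
    intro p hp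
    obtain ⟨a1, a2, a3, a4⟩ := h p hp
    have e : p = (p.1, f (b p) p.1) := Prod.ext rfl a2
    obtain ⟨U, c1, c2, O, c3, c4, η, c5, c6⟩ := TUBE.one (hf (b p)) (e ▸ a1) a3 a4
    exact ⟨U, mem_nhdsWithin_of_mem_nhds (c1.mem_nhds (e ▸ c2)), U, c1, subset_rfl, O, c3, c4, η,
      c5, fun K g k1 k2 k3 => c6 K _ k1 (k2 _).1 (k2 _).2 (k3 p hp)⟩
  obtain ⟨U, a, c, O, d, e, η, i, j⟩ := key
  obtain ⟨η1, e1, g1⟩ := HULL.usc2 hY d (pc.trans e)
  exact ⟨U, a, c, min η η1, lt_min i e1, fun K g k1 k2 k3 k4 => j K g k1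
    (fun a => ⟨(k3 a).1, (k3 a).2.mono (min_le_left _ _)⟩) k4
    (g1 K (k2.trans (thickening_mono (min_le_right _ _) _)))⟩

theorem st_nd : St_ND := by
  rintro X K hX hn h ⟨φ, h1, ⟨s, hs, t, ht, hst⟩, h2⟩
  have an : AnalyticOnNhd ℂ φ (ball 0 1) := h1.analyticOnNhd isOpen_ball
  refine hn ⟨φ, h1, ⟨s, hs, t, ht, hst⟩, fun ζ hζ => by_contra fun k => hst ?_⟩
  obtain ⟨G, g1, g2⟩ := h _ ((h2 ζ hζ).resolve_left k) k
  have c := (an ζ hζ).continuousAt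
  have e1 : ∀ᶠ x in 𝓝 ζ, φ x ≠ φ ζ → (G (φ x)).re < (G (φ ζ)).re := by
    filter_upwards [c.eventually g2, c.preimage_mem_nhds (hX.isOpen_compl.mem_nhds k),
      isOpen_ball.mem_nhds hζ] with x a b d using a ((h2 x d).resolve_left b)
  have e2 : ∀ᶠ x in 𝓝 ζ, ‖Complex.exp (G (φ x))‖ = ‖Complex.exp (G (φ ζ))‖ :=
    Complex.norm_eventually_eq_of_isLocalMax (f := fun x => Complex.exp (G (φ x)))
      ((g1.comp (an ζ hζ)).cexp.eventually_analyticAt.mono fun x a => a.differentiableAt)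
      (e1.mono fun x a => by
        simp only [Function.comp, Complex.norm_exp, Real.exp_le_exp]
        by_cases b : φ x = φ ζ
        · rw [b]
        · exact (a b).le)
  have e3 : φ =ᶠ[𝓝 ζ] fun _ => φ ζ := by
    filter_upwards [e1, e2] with x a b
    by_contra d
    rw [Complex.norm_exp, Complex.norm_exp, Real.exp_eq_exp] at b
    exact (a d).ne b
  have e4 := an.eqOn_of_preconnected_of_eventuallyEq analyticOnNhd_const
    (convex_ball 0 1).isPreconnected hζ e3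
  exact (e4 hs).trans (e4 ht).symm

end Pool.Agent.S6.Cb
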