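import Pool.Agent.Lib.SH.Cert3
import Pool.Agent.Lib.SH.Blue6
import Pool.Agent.Lib.SH.NGb
import Pool.Agent.Lib.CF.Alg

/-!
Section 6 of the project 9ccfb7: configurations, end properties, certificates, readiness.
-/

open Set Filter Topology Metric
open scoped ContDiff

noncomputable section

namespace Pool.Agent.S6

open Pool.Agent.CF (End Kind IsCurve Geo SLH Cv Priv)
open Pool.Agent.Lib

abbrev E : Type := ℂ × ℂ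

/-! ### the frame -/

/-- the components of the surface: annuli or discs, never changed -/
structure Fix (I : Type) where
  c : I → ℂ
  r : I → ℝ
  R : I → ℝ

def Fix.dom {I : Type} (fx : Fix I) (i : I) : Set ℂ := MP_9ccfb7_an.ann (fx.c i) (fx.r i) (fx.R i)

def Fix.S {I : Type} (fx : Fix I) (F : I → ℂ → ℂ) : Set E := MP_9ccfb7_an.surf fx.c fx.r fx.R F

structure Fix.OK {I : Type} (fx : Fix I) : Prop where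
  lt : ∀ i, fx.r i < fx.R i ∧ 0 < fx.R i
  far : ∀ i, ∀ z ∈ fx.dom i, 1 / 4 ≤ ‖z‖

/-! ### walls and configurations -/

/-- wall data of the ends of a curve: component, signed profile, radius of the filled disc -/
structure Wd (I ι : Type) where
  cp : ι → I
  Ef : ι → ℝ → ℝ
  pr : ι → ℝ

/-- the circle along which the wall leaves the curve -/
def wl (l : End) (ρ : ℝ) : End := if l.k = Kind.pt then l.hole ρ else l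

/-- contact set -/
def ct (l : End) (ρ : ℝ) : Set ℂ := if l.k = Kind.pt then closedBall l.c ρ else l.circ

/-- graph of the sheet over the contact set -/
def cg (l : End) (ρ : ℝ) : Set E := l.gr (ct l ρ)

open Classical in
/-- zone in which the wall has the exact form; `one` holds for the hub -/
def zn (l : End) (ρ : ℝ) (one : Prop) (hz : ℝ) : Set ℂ :=
  if l.k = Kind.pt then closedBall l.c (ρ * Real.exp hz)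
  else if one then l.ann (Icc 0 hz) else l.ann (Icc (-hz) hz)

/-- simple pole at `p`, no zeros in `D` -/
def Pole (lam : ℂ → ℂ) (p : ℂ) (D : Set ℂ) : Prop :=
  ∃ g : ℂ → ℂ, AnalyticOnNhd ℂ g D ∧ ∀ z ∈ D, g z ≠ 0 ∧ (z ≠ p → lam z = g z / (z - p))

/-- the zone of the end `j` -/
def Wd.zn {I : Type} (A : Cv) (W : Wd I A.ι) (hz : ℝ) (j : A.ι) : Set ℂ :=
  S6.zn (A.e j) (W.pr j) (j = A.H) hz

/-- the walls along the ends of `A`; `B` is the other curve -/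
structure SideWall {I : Type} (fx : Fix I) (F : I → ℂ → ℂ) (hz : ℝ) (A B : Cv) (W : Wd I A.ι) :
    Prop where
  hub : fx.c (W.cp A.H) = A.c ∧ fx.R (W.cp A.H) = A.R
  port : ∀ j, (A.e j).k = Kind.pt → 0 < W.pr j ∧ Priv A B (A.e j).c (W.pr j) (A.e j).w ∧
    Pole (A.lam j) (A.e j).c (W.zn A hz j)
  loop : ∀ j, (A.e j).k ≠ Kind.pt → AnalyticOnNhd ℂ (A.lam j) (W.zn A hz j) ∧
    ∀ z ∈ W.zn A hz j, A.lam j z ≠ 0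
  an : ∀ j, AnalyticOnNhd ℂ (A.e j).w (W.zn A hz j)
  dom : ∀ j, W.zn A hz j ⊆ fx.dom (W.cp j)
  pr : ∀ j, SH.PR (W.Ef j) ((A.e j).k ≠ Kind.pt ∧ j ≠ A.H)
  exact : ∀ j, ∀ z ∈ W.zn A hz j, F (W.cp j) z =
    (A.e j).w z + (W.Ef j ((wl (A.e j) (W.pr j)).dep z) : ℂ) * A.lam j z
  disj : ∀ j k, j ≠ k → W.cp j = W.cp k → Disjoint (W.zn A hz j) (W.zn A hz k)
  contact : ∀ y ∈ fx.S F, y ∈ A.Γ → ∃ j, y ∈ cg (A.e j) (W.pr j)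

structure Conf (I : Type) where
  C : Cv
  K : Cv
  Nd : Finset E
  TC : ℤ
  TK : ℤ
  D : ℕ
  F : I → ℂ → ℂ
  WC : Wd I C.ι
  WK : Wd I K.ι
  hz : ℝ
  Sd : Finset E

namespace Conf

variable {I : Type} (σ : Conf I)

/-- the two curves -/
def A : Set E := σ.C.Γ ∪ σ.K.Γ

def Y (fx : Fix I) : Set E := σ.C.Γ ∪ σ.K.Γ ∪ fx.S σ.F

/-- new walls and directions on the side `C` -/
def reset (F : I → ℂ → ℂ) (lam : σ.C.ι → ℂ → ℂ) (Ef : σ.C.ι → ℝ → ℝ) (pr : σ.C.ι → ℝ) (hz : ℝ) :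
    Conf I :=
  ⟨σ.C.rot lam, σ.K, σ.Nd, σ.TC, σ.TK, σ.D, F, ⟨σ.WC.cp, Ef, pr⟩, σ.WK, hz, σ.Sd⟩

end Conf

/-- the invariants of the surface -/
structure Wall {I : Type} (fx : Fix I) (σ : Conf I) : Prop where
  smooth : ∀ i, ContDiff ℝ ∞ (σ.F i)
  gap : ∀ i i', i ≠ i' → ∀ z ∈ fx.dom i, z ∈ fx.dom i' → σ.F i z ≠ σ.F i' z
  hz : 0 < σ.hz ∧ σ.hz ≤ 1
  C : SideWall fx σ.F σ.hz σ.C σ.K σ.WC
  K : SideWall fx σ.F σ.hz σ.K σ.C σ.WK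
  cross : ∀ j k, σ.WC.cp j = σ.WK.cp k →
    Disjoint (σ.WC.zn σ.C σ.hz j) (σ.WK.zn σ.K σ.hz k)
  real : ∀ i, ∀ z ∈ fx.dom i, (z, σ.F i z) ∉ σ.A → SH.dbar (σ.F i) z ≠ 0 ∨ (z, σ.F i z) ∈ σ.Sd
  saddle : ∀ s ∈ σ.Sd, s ∉ σ.A ∧ SH.LB2 (fx.S σ.F) s

/-- all invariants except polynomial convexity -/
structure Pre {I : Type} (fx : Fix I) (σ : Conf I) : Prop where
  alg : CF.Alg σ.C σ.K σ.Nd σ.TC σ.TK σ.D
  wall : Wall fx σ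

structure Good {I : Type} (fx : Fix I) (σ : Conf I) : Prop where
  pre : Pre fx σ
  pc : SH.hull (σ.Y fx) ⊆ σ.Y fx

/-! ### end properties -/

/-- core circle of an end -/
def cc (l : End) (h r1 : ℝ) : Set ℂ := if l.k = Kind.pt then sphere l.c r1 else l.ann {h}

/-- collar of a loop, long annulus of a point end -/
def col (l : End) (h r1 r2 : ℝ) : Set ℂ :=
  if l.k = Kind.pt then {z | r2 ≤ ‖z - l.c‖ ∧ ‖z - l.c‖ ≤ r1} else l.ann (Icc (h / 16) h)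

/-- end property of `φ` on `D = X \ K` for the levels above `thr` -/
def EP (l : End) (D : Set E) (φ : E → ℝ) (τ h r1 r2 Cu Λ0 κ thr : ℝ) : Prop :=
  ∀ lv : ℝ, 0 < lv → thr ≤ lv →
    (l.k ≠ Kind.pt → ∀ B Λ : ℝ, B ≤ Λ0 → Λ ≤ Λ0 → SLH l D (fun y => φ y / lv) τ h B Λ κ) ∧
    ((∀ y ∈ SH.near D l.w τ, y.1 ∈ cc l h r1 → φ y ≤ lv) →
      ∀ y ∈ SH.near D l.w τ, y.1 ∈ col l h r1 r2 →
        φ y ≤ lv * Real.exp Cu * if l.k = Kind.pt then (r1 / ‖y.1 - l.c‖) ^ κ else 1)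

/-- if `D` is on the sheet over the core circle, it is on the curve over the whole zone -/
def ZR (l : End) (D : Set E) (τ h r1 : ℝ) : Prop :=
  (∀ y ∈ SH.near D l.w τ, y.1 ∈ cc l h r1 → y.2 = l.w y.1) →
    ∀ y ∈ SH.near D l.w τ, y.1 ∈ l.near h r1 → y.2 = l.w y.1 ∧ l.side y.1

/-- `f = log |W|` with winding `k` and oscillation at most `Λ` -/
def LW (l : End) (h r1 : ℝ) (f : ℂ → ℝ) (k Λ : ℝ) : Prop :=
  |k| ≤ Λ ∧ ∃ g : ℂ → ℂ,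
    (l.k ≠ Kind.pt → AnalyticOnNhd ℂ g (l.ann (Icc (h / 16) h)) ∧
      ∀ z ∈ l.ann (Icc (h / 16) h), f z = (g z).re - k * l.dep z ∧
        ∀ z' ∈ l.ann (Icc (h / 16) h), (g z).re - (g z').re ≤ Λ) ∧
    (l.k = Kind.pt → AnalyticOnNhd ℂ g (closedBall l.c r1) ∧
      ∀ z ∈ closedBall l.c r1, (z ≠ l.c → f z = (g z).re + k * Real.log (r1 / ‖z - l.c‖)) ∧
        ∀ z' ∈ closedBall l.c r1, (g z).re - (g z').re ≤ Λ)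

/-- transfer of the end property from `ψ` to a function `φ ~ ψ ^ a * exp f * M` -/
def Trans (l : End) (h r1 r2 a : ℝ) (f : ℂ → ℝ) (κ Cu Λ0 t C Λ κ' : ℝ) : Prop :=
  ∀ (X K : Set E) (τ : ℝ) (φ ψ : E → ℝ) (thr M lv : ℝ), 0 < M → 0 < lv → 0 ≤ thr →
    (∀ y ∈ SH.near X l.w τ, y.1 ∈ col l h r1 r2 → y ∉ K ∧ 0 ≤ ψ y ∧
      φ y ≤ Real.exp t * (ψ y ^ a * Real.exp (f y.1) * M) ∧
      ψ y ^ a * Real.exp (f y.1) * M ≤ Real.exp t * φ y) →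
    (∀ z ∈ cc l h r1, thr ^ a * Real.exp (f z) * M ≤ lv) →
    EP l (X \ K) ψ τ h r1 r2 Cu Λ0 κ thr → SH.EndP l X K φ τ h r1 r2 C Λ κ' lv

/-- rigidity of a part whose function is comparable with `ψ j ^ a * exp (f j) * M` -/
def PFit {J : Type} (G : Set E) (l : J → End) (Sig : Finset ℂ) (h r1 r2 a : ℝ) (f : J → ℂ → ℝ)
    (κ : J → ℝ) (Cu Λ0 Cn : ℝ) : Prop :=
  ∃ (C Λ t : ℝ) (κ' : J → ℝ), 0 < t ∧ 0 ≤ C ∧ Cn ≤ C ∧ SH.PartOK G l Sig r1 h Λ C r2 κ' ∧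
    ∀ j, Trans (l j) h r1 r2 a (f j) (κ j) Cu Λ0 t C Λ (κ' j)

/-- a family of ends with the constants of the end properties -/
structure Sp (J : Type) where
  l : J → End
  om : J → ℂ → ℂ
  κ : J → ℝ
  h : ℝ
  r1 : ℝ
  r2 : ℝ
  Cu : ℝ
  Λ0 : ℝ

namespace Sp

variable {J : Type} (sp : Sp J)

/-- normal size -/
def φ (j : J) (y : E) : ℝ := ‖y.2 - (sp.l j).w y.1‖ * ‖sp.om j y.1‖

/-- the end tubes -/
def T (τ : ℝ) (j : J) : Set E :=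
  {y | y.1 ∈ (sp.l j).near sp.h sp.r1 ∧ ‖y.2 - (sp.l j).w y.1‖ ≤ τ}

/-- end properties of the end `j` -/
def End1 (D : Set E) (τ : ℝ) (j : J) : Prop :=
  EP (sp.l j) D (sp.φ j) τ sp.h sp.r1 sp.r2 sp.Cu sp.Λ0 (sp.κ j) 0 ∧ ZR (sp.l j) D τ sp.h sp.r1

end Sp

/-- standing hypotheses on a hull `X` and a surface `K` -/
structure Std (X K : Set E) : Prop where
  cX : IsCompact X
  cK : IsClosed K
  np : ∀ y ∈ X, y ∉ K → ¬ SH.Peak X y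

/-- certificate: the end properties of `sp` force `X ⊆ K ∪ A` -/
def Cert {J : Type} (sp : Sp J) (τ : ℝ) (S T0 A : Set E) : Prop :=
  ∃ η > 0, ∀ X K : Set E, Std X K → K ⊆ cthickening η S → K ∩ T0 = S ∩ T0 →
    X \ K ⊆ cthickening η A → A ⊆ X → (∀ j, sp.End1 (X \ K) τ j) → X ⊆ K ∪ A

/-- the surface `S` serves the ends of `sp` -/
def Served {J : Type} (sp : Sp J) (τ : ℝ) (S A : Set E) : Prop :=
  ∃ η > 0, ∀ X K : Set E, Std X K → X \ K ⊆ cthickening η A →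
    ∀ j, K ∩ sp.T τ j = S ∩ sp.T τ j → sp.End1 (X \ K) τ j

/-- geometry of a curve with the ends of `sp` -/
structure Geom {J : Type} (P : E → ℂ) (G : Set E) (sp : Sp J) (Sig : Finset ℂ) : Prop where
  curve : IsCurve P G sp.l
  geo : Geo P G sp.l Sig sp.r1 sp.h
  r2 : 0 < sp.r2 ∧ sp.r2 ≤ sp.r1 / 8

/-! ### directions, windows, readiness -/

/-- the constants of the slope lemma -/
def Kit (h : ℝ) (n : ℕ) (Λw Cu Λ0 η : ℝ) (κf : ℝ → ℝ) : Prop :=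
  0 < h ∧ h ≤ 1 ∧ 0 ≤ Λw ∧ 0 ≤ Λ0 ∧ 0 < η ∧ η ≤ 1 ∧
    (∀ C, 1 ≤ C → 0 < κf C ∧ κf C ≤ 1 / (3 * C)) ∧
    ∃ Λ1 Λ2 : ℝ, 0 ≤ Λ1 ∧ 0 ≤ Λ2 ∧ Λ1 + 2 * Λw + 1 ≤ Cu ∧
      SH.SLProp h n (2 * (0 + 2 * Λw + 1)) (η * h / 4) Λ1 κf ∧
      SH.SLProp h n (2 * (Λ0 + 2 * Λw + 1)) (η * h / 4) Λ2 κf

/-- direction of `p` seen from the centre of `l` -/
def hx (l : End) (p : ℂ) : ℂ := (p - l.c) / (‖p - l.c‖ : ℂ)

/-- nearly positive direction at the point `z`; `p k`, `k ∈ U`, are the ports of the windows -/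
def NDir {ι : Type} (l : End) (U : Finset ι) (p : ι → ℂ) (u : ℂ → ℂ) (o CD : ℝ) (z : ℂ) : Prop :=
  AnalyticAt ℂ u z ∧ 0 < (u z).re ∧ |(u z).im| ≤ o * (u z).re ∧
    |((z - l.c) * deriv u z).re| ≤ o * ‖u z‖ ∧
    ∀ s : ℝ, s ≤ 1 → (∀ k ∈ U, s ≤ ‖(z - l.c) / l.r - hx l (p k)‖ + l.dep (p k)) →
      s * ‖(z - l.c) * deriv u z‖ ≤ CD * ‖u z‖

/-- the disc about a port on which the port direction is controlled -/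
def pd (L : ℝ) (l : End) (p : ℂ) : Set ℂ := closedBall p (l.r * l.dep p * Real.exp (6 - L))

/-- the argument of `v` is nearly `π / 4` -/
def PortDir (L : ℝ) (p : ℂ) (D : Set ℂ) (v : ℂ → ℂ) : Prop :=
  ∃ (a : ℝ) (lg : ℂ → ℂ), AnalyticOnNhd ℂ lg D ∧ ∀ z ∈ D, ‖lg z‖ < 1 / (8 * L) ∧
    (z ≠ p → v z = Complex.exp (a + Real.pi / 4 * Complex.I + lg z))

/-- `lam' / lam` is close to `1` on the disc `D` about `p` -/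
def Ratio (lam lam' : ℂ → ℂ) (p : ℂ) (D : Set ℂ) (o : ℝ) : Prop :=
  ∃ u : ℂ → ℂ, AnalyticOnNhd ℂ u D ∧ ∀ z ∈ D, ‖u z - 1‖ ≤ o ∧ ‖(z - p) * deriv u z‖ ≤ o ∧
    (z ≠ p → lam' z = u z * lam z)

/-- data of a fit: macro ends `m`, windows `U` -/
structure FD (J ι : Type) where
  m : J → ι
  U : Finset ι
  mu : J → ℂ → ℂ
  k : J → ℝ
  ρ : ι → ℝ
  β : ι → ℝ
  n : ℕ
  Λw : ℝ
  η : ℝ
  CD : ℝ
  gain : ℝ
  κf : ℝ → ℝ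

namespace FD

variable {J : Type}

open Classical in
/-- the windows of the end `j` -/
def win (A : Cv) (fd : FD J A.ι) (j : J) : Finset A.ι := if fd.m j = A.H then fd.U else ∅

/-- the chart factor of a loop: the fibre coordinate is `(w - sheet) * chart` -/
def chart (A : Cv) (fd : FD J A.ι) (j : J) (z : ℂ) : ℂ :=
  fd.mu j z * ∏ k ∈ fd.win A j, (z - (A.e k).c)

/-- total gain of a set of active windows -/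
def gsum {ι : Type} (fd : FD J ι) (V : Finset ι) : ℝ := ∑ k ∈ V, (1 - fd.β k / 2)

/-- the sites which belong to the fit -/
def site {ι : Type} (fd : FD J ι) (k : ι) : Prop := k ∈ fd.U ∨ ∃ j, fd.m j = k

/-- new charts -/
def setMu {ι : Type} (fd : FD J ι) (mu : J → ℂ → ℂ) : FD J ι := { fd with mu := mu }

end FD

open Classical in
/-- the directions and windows of `A`, with port radii `pr`, fit the constants of `sp` -/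
structure Fit {J : Type} (L : ℝ) (Cw : ℝ → ℝ) (A : Cv) (pr : A.ι → ℝ) (sp : Sp J)
    (fd : FD J A.ι) : Prop where
  inj : Function.Injective fd.m
  eq : ∀ j, sp.l j = A.e (fd.m j) ∧ fd.m j ∉ fd.U
  hub : ∃ j, fd.m j = A.H
  kit : Kit sp.h fd.n fd.Λw sp.Cu sp.Λ0 fd.η fd.κf
  num : fd.U.card ≤ fd.n ∧ 1 ≤ fd.CD ∧ 0 < sp.r2 ∧ sp.r2 ≤ sp.r1 / 8
  ring : ∀ j, (sp.l j).k ≠ Kind.pt → AnalyticOnNhd ℂ (fd.mu j) ((sp.l j).ann (Icc 0 sp.h)) ∧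
    (∀ z ∈ (sp.l j).ann (Icc 0 sp.h), fd.mu j z ≠ 0) ∧
    (∀ z ∈ (sp.l j).circ, NDir (sp.l j) (fd.win A j) (fun k => (A.e k).c)
      (fun z => A.lam (fd.m j) z * fd.chart A j z) 0 fd.CD z) ∧
    (∃ Λ < fd.Λw, LW (sp.l j) sp.h sp.r1 (fun z => Real.log ‖sp.om j z / fd.chart A j z‖)
      (fd.k j) Λ) ∧
    (∀ z ∈ (sp.l j).ann (Icc (sp.h / 16) sp.h), sp.om j z ≠ 0) ∧
    fd.k j - (if fd.m j = A.H then fd.gain else 0) + fd.η ≤ sp.κ j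
  port : ∀ j, (sp.l j).k = Kind.pt →
    Pole (A.lam (fd.m j)) (sp.l j).c (closedBall (sp.l j).c sp.r1) ∧
    (∀ z ∈ closedBall (sp.l j).c sp.r1, sp.om j z ≠ 0) ∧
    LW (sp.l j) sp.h sp.r1 (fun z => Real.log ‖sp.om j z * A.lam (fd.m j) z‖) 1 fd.Λw ∧
    1 + fd.η ≤ sp.κ j ∧ pr (fd.m j) < sp.r2
  win : ∀ k ∈ fd.U, (A.e k).k = Kind.pt ∧ (A.e k).w = A.hub.w ∧
    0 < A.hub.dep (A.e k).c ∧ (A.e k).c ≠ A.c ∧ 0 < fd.β k ∧ fd.β k ≤ 1 ∧ fd.ρ k ≤ sp.h / 8 ∧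
    Cw (fd.β k) * A.hub.dep (A.e k).c ≤ fd.κf (Cw (fd.β k)) * fd.ρ k ∧
    (∀ k' ∈ fd.U, k ≠ k' → 2 * fd.ρ k ≤ ‖hx A.hub (A.e k).c - hx A.hub (A.e k').c‖) ∧
    |Real.log (pr k / (2 * A.R * A.hub.dep (A.e k).c)) + L| ≤ 1 / 2 ∧
    ∀ j, fd.m j = A.H → PortDir L (A.e k).c (pd L A.hub (A.e k).c)
      fun z => A.lam k z * fd.chart A j z

/-- the end tubes contain only the sheets, and the zones only the own contact sets; `Y` is the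
union of the two curves -/
structure Zone {J : Type} (A : Cv) (pr : A.ι → ℝ) (Y : Set E) (sp : Sp J) (fd : FD J A.ι)
    (τ : ℝ) : Prop where
  pos : 0 < τ
  an : ∀ j, AnalyticOnNhd ℂ (sp.l j).w ((sp.l j).near sp.h sp.r1)
  mem : ∀ j, ∀ z ∈ (sp.l j).near sp.h sp.r1, (sp.l j).side z → (z, (sp.l j).w z) ∈ A.Γ
  iso : ∀ j, ∀ y ∈ Y, y ∈ sp.T τ j → y.2 = (sp.l j).w y.1 ∧ (sp.l j).side y.1
  only : ∀ j k, k ≠ fd.m j → k ∉ fd.win A j →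
    Disjoint (cg (A.e k) (pr k)) ((sp.l j).gr ((sp.l j).near sp.h sp.r1))
  sep : ∀ j j', j ≠ j' → Disjoint ((sp.l j).gr ((sp.l j).near sp.h sp.r1))
    ((sp.l j').gr ((sp.l j').near sp.h sp.r1))

/-- spare room in the oscillation bounds of a fit -/
def Marg {J : Type} (A : Cv) (sp : Sp J) (fd : FD J A.ι) (Λx : ℝ) : Prop :=
  ∀ j, ∃ Λ, Λ + 2 * Λx < fd.Λw ∧
    ((sp.l j).k ≠ Kind.pt →
      LW (sp.l j) sp.h sp.r1 (fun z => Real.log ‖sp.om j z / fd.chart A j z‖) (fd.k j) Λ) ∧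
    ((sp.l j).k = Kind.pt →
      LW (sp.l j) sp.h sp.r1 (fun z => Real.log ‖sp.om j z * A.lam (fd.m j) z‖) 1 Λ)

/-- the chart of every loop is the inverse of the direction -/
def One {J : Type} (A : Cv) (sp : Sp J) (fd : FD J A.ι) : Prop :=
  ∀ j, (sp.l j).k ≠ Kind.pt → ∀ᶠ z in 𝓝ˢ (sp.l j).circ, A.lam (fd.m j) z * fd.chart A j z = 1

/-- a free arc for new windows -/
def Free {J : Type} (A : Cv) (fd : FD J A.ι) : Prop :=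
  ∃ (x0 : ℂ) (r0 : ℝ), ‖x0‖ = 1 ∧ 0 < r0 ∧ ‖x0 - A.c‖ + r0 ≤ 1 / 2 ∧
    ∀ k ∈ fd.U, 2 * fd.ρ k + r0 ≤ ‖hx A.hub (A.e k).c - x0‖

/-- readiness of `A` for the parts `φ ~ (normal size) ^ a * |O| ^ x`, `x ∈ xs` -/
structure Rdy {J : Type} (L : ℝ) (Cw : ℝ → ℝ) (A : Cv) (pr : A.ι → ℝ) (O : E → ℂ)
    (Nd : Finset E) (sp : Sp J) (fd : FD J A.ι) (Sig : Finset ℂ) (a : ℝ) (xs : Set ℝ) : Prop where
  geom : Geom A.P A.Γ sp Sig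
  sig : ∀ y ∈ Nd, y.1 ∈ Sig
  om : ∀ j, sp.om j = (sp.l j).res (CF.dw A.P)
  all : ∀ k, fd.site k
  fit : Fit L Cw A pr sp fd
  part : ∀ x ∈ xs, PFit A.Γ sp.l Sig sp.h sp.r1 sp.r2 a
    (fun j z => x * Real.log ‖(sp.l j).res O z‖) sp.κ sp.Cu sp.Λ0 0

/-- the exponent of the third part of the second certificate -/
def xB (TC : ℤ) (s : ℕ) : ℝ := 1 + (2 * (TC : ℝ) + 1) / s

def RdyC {I : Type} (L : ℝ) (Cw : ℝ → ℝ) (σ : Conf I) : Prop :=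
  ∃ (J : Type) (_ : Fintype J) (sp : Sp J) (fd : FD J σ.C.ι) (Sig : Finset ℂ),
    Rdy L Cw σ.C σ.WC.pr σ.K.P σ.Nd sp fd Sig 2 {1} ∧ One σ.C sp fd ∧ Free σ.C fd ∧
      fd.gain ≤ fd.gsum fd.U ∧ fd.gain ≤ σ.TC - σ.Nd.card / 2 + 1 / 4 ∧
      (fd.U.card : ℤ) + σ.TC ≤ fd.n

def RdyK {I : Type} (L : ℝ) (Cw : ℝ → ℝ) (σ : Conf I) : Prop :=
  ∃ (J : Type) (_ : Fintype J) (sp : Sp J) (fd : FD J σ.K.ι) (Sig : Finset ℂ),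
    Rdy L Cw σ.K σ.WK.pr σ.C.P σ.Nd sp fd Sig 1 {2, xB σ.TC σ.Nd.card} ∧ One σ.K sp fd ∧
      Free σ.K fd ∧ fd.gain ≤ fd.gsum fd.U ∧ fd.gain ≤ 2 * σ.TC + σ.TK + 3 / 2 ∧
      (fd.U.card : ℤ) + (4 * σ.TC + 2 * σ.TK + 2) ≤ fd.n

/-- states -/
structure State {I : Type} (fx : Fix I) (L : ℝ) (Cw : ℝ → ℝ) where
  σ : Conf I
  good : Good fx σ
  rC : RdyC L Cw σ
  rK : RdyK L Cw σ

/-- the context of a step on the side `C` -/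
structure Ctx {I J : Type} (fx : Fix I) (L : ℝ) (Cw : ℝ → ℝ) (σ : Conf I) (sp : Sp J)
    (fd : FD J σ.C.ι) (τ : ℝ) (T0 : Set E) : Prop where
  good : Good fx σ
  fit : Fit L Cw σ.C σ.WC.pr sp fd
  zone : Zone σ.C σ.WC.pr σ.A sp fd τ
  cert : Cert sp τ (fx.S σ.F) T0 σ.A
  T0 : IsClosed T0 ∧ ∀ k, fd.site k → Disjoint (cg (σ.C.e k) (σ.WC.pr k)) T0

/-- closeness of two surfaces, equality in `T0` -/
def Nxt {I : Type} (fx : Fix I) (F F' : I → ℂ → ℂ) (k : ℕ) (ε : ℝ) (T0 : Set E) : Prop :=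
  MP_9ccfb7_an.Close k ε F F' fx.R fx.R ∧ fx.S F' ∩ T0 = fx.S F ∩ T0

/-! ### absolute constants -/

/-- body of `St_WACT` -/
def WActP (L β M : ℝ) : Prop :=
  ∀ C0 Λ : ℝ, ∃ ι > (0 : ℝ), ∀ (X K : Set E) (P : E → ℂ) (ρ : ℝ), SH.ActH X K P L ι ρ C0 Λ →
    M ≤ ρ → ∀ O : ℝ, 0 ≤ O → (∀ y ∈ X, y ∉ K → ρ / M ≤ ‖y.1‖ → ‖y.1‖ ≤ ρ → ‖P y‖ ≤ O) →
    ∀ r : ℝ, 8 ≤ r → r ≤ ρ → ∀ y ∈ X, y ∉ K → ‖y.1‖ ≤ r →
      ‖P y‖ ≤ M ^ 2 * (r / ρ) ^ (2 - β) * O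

/-- body of `St_WNEU` -/
def WNeuP (L CN c0 M : ℝ) : Prop :=
  ∀ C0 Λ : ℝ, ∃ ι > (0 : ℝ),
  ∀ (X K : Set E) (Q : E → ℂ) (j iw ρ : ℝ), (j = 1 ∨ j = 2) → M ≤ ρ → 0 ≤ iw → iw ≤ ι →
    iw * (1 + Real.log ρ) ≤ c0 → SH.NP X K (closedBall 0 ρ) →
    (∀ y ∈ SH.ov X (closedBall 0 ρ), 0 ≤ y.1.im) →
    AnalyticOnNhd ℂ Q (SH.ov X (closedBall 0 ρ)) → (∀ y ∈ X, y.1 = Complex.I → Q y = 0) →
    (∀ y ∈ SH.ov X (closedBall 0 ρ), y ∈ K → Q y ≠ 0 →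
      (y.1.im ≤ ι ∧ |(Q y).im| ≤ iw * ‖Q y‖) ∨
      (‖SH.bl y.1‖ ≤ Real.exp (-L + 1) ∧
        |(Q y * Complex.exp (-(Complex.I * (j * Real.pi / 4)))).im| ≤ 4 / L * ‖Q y‖)) →
    (∀ x0 : ℝ, 4 ≤ |x0| → |x0| ≤ ρ / 2 → SH.WB X K Q x0 (|x0| / 8) ι C0 Λ 0) →
    (∀ x0 : ℝ, |x0| ≤ M → SH.WB X K Q x0 (1 / 16) ι C0 Λ 0) →
    ∀ O : ℝ, 0 ≤ O → (∀ y ∈ X, y ∉ K → ρ / 8 ≤ ‖y.1‖ → ‖y.1‖ ≤ ρ → ‖Q y‖ ≤ O) →
    ∀ y ∈ X, y ∉ K → ‖y.1‖ ≤ ρ → Real.exp (-L + 2) ≤ ‖SH.bl y.1‖ → ‖Q y‖ ≤ CN * O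

/-- profile of a birth wall -/
structure BProf (G : ℝ → ℝ) (M8 σ0 : ℝ) : Prop where
  diff : Differentiable ℝ G
  zero : ∀ s, s ≤ 0 → G s = 0
  pos : ∀ s, 0 < s → 0 < G s
  steep : ∀ s, 0 < s → s ≤ 4 * M8 → G s ≤ σ0 * deriv G s

/-- body of `St_WBIR` -/
def WBirP (c0 CD L M8 CN M σ0 : ℝ) (th : ℝ → ℝ) : Prop :=
  ∀ C0 Λ : ℝ, ∃ ι > (0 : ℝ),
  ∀ (X K : Set E) (P : E → ℂ) (D0 : ℂ → ℝ) (G : ℝ → ℝ) (ρ : ℝ), M ≤ ρ → 5 * M8 ≤ ι * ρ →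
    SH.Dev c0 CD L D0 → (∀ z : ℂ, 0 ≤ z.im → M8 ≤ ‖z‖ → SH.hgt L D0 z = z.im) →
    BProf G M8 σ0 → SH.NP X K (closedBall 0 ρ) →
    (∀ y ∈ SH.ov X (closedBall 0 ρ), 0 ≤ y.1.im) →
    AnalyticOnNhd ℂ P (SH.ov X (closedBall 0 ρ)) →
    (∀ y ∈ X, y.1 = Complex.I → ∃ F : E → ℂ, AnalyticAt ℂ F y ∧
      ∀ᶠ x in 𝓝 y, P x = (x.1 - Complex.I) * F x) →
    (∀ y ∈ SH.ov X (closedBall 0 ρ), y ∈ K → P y ≠ 0 → y.1 ≠ Complex.I ∧ 0 < SH.hgt L D0 y.1 ∧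
      (SH.hgt L D0 y.1 ≤ 4 * M8 → P y = SH.bw L D0 (fun s => Real.log (G s)) th y.1) ∧
      (4 * M8 < SH.hgt L D0 y.1 → G (4 * M8) ≤ ‖P y‖ ∧ y.1.im ≤ ι * ρ ∧
        |(P y).im| ≤ ι * ‖P y‖)) →
    (∀ y ∈ SH.ov X (closedBall 0 ρ), y.1 ≠ Complex.I → 0 < SH.hgt L D0 y.1 →
      SH.hgt L D0 y.1 ≤ 4 * M8 → P y = SH.bw L D0 (fun s => Real.log (G s)) th y.1 → y ∈ K) →
    (∀ x0 : ℝ, |x0| ≤ 5 / 8 * ρ →
      SH.WB X K P x0 (ρ / 8) ι C0 Λ (G (2 * M8) * Real.exp (-3))) →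
    ∀ O : ℝ, 0 ≤ O → (∀ y ∈ X, y ∉ K → ρ / 16 ≤ ‖y.1‖ → ‖y.1‖ ≤ ρ → ‖P y‖ ≤ O) →
    ∀ y ∈ X, y ∉ K → ‖y.1‖ ≤ ρ / 2 → ‖P y‖ ≤ CN * O

/-- the absolute constants -/
structure Ab where
  L : ℝ
  c0 : ℝ
  CD : ℝ
  M8 : ℝ
  y4 : ℝ
  σ0 : ℝ
  Cw : ℝ → ℝ
  th : ℝ → ℝ

structure Ab.OK (ab : Ab) : Prop where
  num : 100 ≤ ab.L ∧ 0 < ab.c0 ∧ ab.c0 ≤ 1 ∧ 4 ≤ ab.M8 ∧ 0 < ab.y4 ∧ ab.y4 ≤ 1 / 4 ∧
    0 < ab.σ0 ∧ ab.σ0 ≤ 1 / (100 * ab.L) ∧ ∀ β, 1 ≤ ab.Cw β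
  th : ContDiff ℝ ∞ ab.th ∧ (∃ Cth : ℝ, ab.σ0 * Cth ≤ 1 / 2 ∧
      ∀ s t, |ab.th s - ab.th t| ≤ Cth * |s - t|) ∧
    (∀ s, 2 / 5 ≤ s → ab.th s = 0) ∧ (∀ s, s ≤ 1 / 4 → ab.th s = Real.pi / 4) ∧
    ∀ s, 0 ≤ ab.th s ∧ ab.th s ≤ Real.pi / 4
  locf : SH.LocF ab.c0 ab.CD ab.L
  shape : ∀ (x : ℂ) (δ : ℝ), x ≠ 0 → 0 < δ → δ ≤ 1 / 8 →
    ∃ D0 : ℂ → ℝ, SH.Shape ab.c0 ab.CD ab.M8 ab.y4 ab.L x δ 0 D0
  act : ∀ β, 0 < β → β ≤ 1 → ∃ M ≥ (64 : ℝ), WActP ab.L β M ∧ 100000 * M ^ 5 ≤ ab.Cw β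
  neu : ∃ CN ≥ (1 : ℝ), ∃ c0 > (0 : ℝ), ∃ M ≥ (64 : ℝ), WNeuP ab.L CN c0 M ∧
    ∀ β, 100000 * CN ^ 2 * M ≤ ab.Cw β
  bir : ∃ CN ≥ (1 : ℝ), ∃ M ≥ (64 : ℝ), WBirP ab.c0 ab.CD ab.L ab.M8 CN M ab.σ0 ab.th ∧
    ∀ β, 100000 * CN ^ 2 * M ≤ ab.Cw β

/-! ### birth of windows, the secant -/

/-- the point at depth `s` in the direction `x * exp (i t)` -/
def hp (A : Cv) (x : ℂ) (s t : ℝ) : ℂ := A.c + A.R * x * Complex.exp (-s + t * Complex.I)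

/-- product of the Blaschke type factors of the new ports -/
def bB (A : Cv) {π : Type} [Fintype π] (x : π → ℂ) (δ : ℝ) (z : ℂ) : ℂ :=
  ∏ k, (z - hp A (x k) δ 0) / (z - hp A (x k) (-δ) 0)

/-- radius of a new filled disc -/
def bpr (A : Cv) (L δ : ℝ) : ℝ := 2 * A.R * δ * Real.exp (-δ - L)

open Classical in
/-- the curve with new ports at depth `δ` -/
def born (A : Cv) (π : Type) [Fintype π] (x : π → ℂ) (δ : ℝ) : Cv :=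
  A.addp π (fun k => hp A (x k) δ 0) (fun _ => A.hub.w)
    (fun _ z => Complex.exp (Real.pi / 4 * Complex.I) * A.lam A.H z / bB A x δ z)
    fun j z => if j = A.H then A.lam j z / bB A x δ z else A.lam j z

open Classical in
/-- the fit data with the new windows -/
def FD.born {J : Type} (A : Cv) (fd : FD J A.ι) (π : Type) [Fintype π] (x : π → ℂ) (δ : ℝ)
    (ρ β : π → ℝ) : FD J (A.ι ⊕ π) :=
  { fd with
    m := fun j => Sum.inl (fd.m j)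
    U := fd.U.disjSum Finset.univ
    mu := fun j z => if fd.m j = A.H then fd.mu j z / ∏ k, (z - hp A (x k) (-δ) 0) else fd.mu j z
    ρ := Sum.elim fd.ρ ρ
    β := Sum.elim fd.β β }

/-- the wall data with the new ports -/
def Wd.born {I : Type} (A : Cv) (cp : A.ι → I) (pr : A.ι → ℝ) (π : Type) (L δ : ℝ)
    (Ef : A.ι ⊕ π → ℝ → ℝ) : Wd I (A.ι ⊕ π) :=
  ⟨Sum.elim cp fun _ => cp A.H, Ef, Sum.elim pr fun _ => bpr A L δ⟩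

/-- the configuration after a birth on the side `C` -/
def Conf.born {I : Type} (σ : Conf I) (π : Type) [Fintype π] (x : π → ℂ) (L δ : ℝ)
    (F : I → ℂ → ℂ) (Ef : σ.C.ι ⊕ π → ℝ → ℝ) (hz : ℝ) (Sd : Finset E) : Conf I :=
  ⟨S6.born σ.C π x δ, σ.K, σ.Nd, σ.TC, σ.TK, σ.D, F,
    Wd.born σ.C σ.WC.cp σ.WC.pr π L δ Ef, σ.WK, hz, Sd⟩

/-- numerator of the secant -/
def qS (C : Cv) {π : Type} [Fintype π] (a : ℂ) (q : E → ℂ) (x : π → ℂ) (δ : ℝ) : E → ℂ :=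
  CF.qWin (∏ k, -((starRingEnd ℂ) (x k * Complex.exp (-(Real.sqrt 2 * δ) - δ * Complex.I)) / C.R))
    a q (fun k => hp C (x k) (Real.sqrt 2 * δ) (-δ)) (fun k => hp C (x k) (-(Real.sqrt 2 * δ)) (-δ))
    fun k => hp C (x k) (-δ) 0

/-- denominator of the secant -/
def gS (C : Cv) {π : Type} [Fintype π] (G : E → ℂ) (x : π → ℂ) (δ : ℝ) : E → ℂ :=
  CF.gWin C G fun k => hp C (x k) δ 0

/-- the curve with the new ports; all directions are the secant -/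
def winS (C K : Cv) (π : Type) [Fintype π] (a : ℂ) (q G : E → ℂ) (x : π → ℂ) (δ : ℝ) : Cv :=
  C.win K π (gS C G x δ) (qS C a q x δ) fun k => hp C (x k) δ 0

open Classical in
/-- the new nodes -/
def ndS (C : Cv) {π : Type} [Fintype π] (Z : Finset E) (x : π → ℂ) (δ : ℝ) : Finset E :=
  Z ∪ Finset.univ.image fun k =>
    (hp C (x k) (Real.sqrt 2 * δ) (-δ), C.hub.w (hp C (x k) (Real.sqrt 2 * δ) (-δ)))

/-- the positive factor of the secant at the hub -/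
def sgm (C : Cv) {π : Type} [Fintype π] (x : π → ℂ) (δ : ℝ) (z : ℂ) : ℂ :=
  ∏ k, -((starRingEnd ℂ) (x k * Complex.exp (-(Real.sqrt 2 * δ) - δ * Complex.I)) / C.R) *
    ((z - hp C (x k) (Real.sqrt 2 * δ) (-δ)) * (z - hp C (x k) (-(Real.sqrt 2 * δ)) (-δ)) /
      (z - C.c))

/-- the data of the macro secant -/
structure Sec (C K : Cv) (Nd : Finset E) (TC : ℤ) (a : ℂ) (Z : Finset E) (q G : E → ℂ) (m : ℕ) :
    Prop where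
  z : CF.SimpleZ C.P (fun y => y.1 - a) C.Γ C.e Z
  card : (Z.card : ℤ) + m = TC
  off : (∀ j, a ∉ (K.e j).circ) ∧ ∀ y ∈ Nd, y.1 ≠ a
  poly : CF.IsPoly q ∧ CF.IsPoly G
  ne : ∀ y ∈ C.Γ ∪ K.Γ, q y ≠ 0 ∧ G y ≠ 0
  side : ∀ j, j ≠ C.H → CF.SameW (C.e j) (C.lam j) (C.sec K (fun y => G y *
    ∏ i ∈ Finset.univ.filter fun i => (C.e i).k = Kind.pt, (y.1 - (C.e i).c))
    (fun y => (y.1 - a) * q y) (C.e j))
  hub : CF.SameW C.hub (C.lam C.H) fun z => (z - C.c) ^ m * C.sec K (fun y => G y *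
    ∏ i ∈ Finset.univ.filter fun i => (C.e i).k = Kind.pt, (y.1 - (C.e i).c))
    (fun y => (y.1 - a) * q y) C.hub z

/-- positions of windows on the private arc -/
def Pos (A : Cv) {π : Type} (x : π → ℂ) : Prop :=
  Function.Injective x ∧ ∀ k, ‖x k‖ = 1 ∧ ‖x k - A.c‖ ≤ 1 / 2

/-! ### descriptions of a surface near an end -/

/-- steep monotone profile -/
def Stp (f : ℝ → ℝ) (S : Set ℝ) (t : ℝ) : Prop :=
  ∀ y ∈ S, DifferentiableAt ℝ f y ∧ |f y| ≤ t * deriv f y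

/-- in the tube of radius `R` over `Z` the set `K` is in the graph of `w + N` over `U1`, and it
contains the graph over `U2` -/
def KD (K : Set E) (w N : ℂ → ℂ) (Z U1 U2 : Set ℂ) (R : ℝ) : Prop :=
  (∀ y ∈ K, y.1 ∈ Z → ‖y.2 - w y.1‖ ≤ R → y.1 ∈ U1 ∧ y.2 = w y.1 + N y.1) ∧
    ∀ z ∈ U2, (z, w z + N z) ∈ K

/-- the wall `N` at a port of radius `ρ`, relative to the direction `lam` on the disc `D` -/
def PortW (N lam : ℂ → ℂ) (p : ℂ) (ρ : ℝ) (D : Set ℂ) (o t R : ℝ) (act : Prop) : Prop :=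
  ∃ (Eg : Bool → ℝ → ℝ) (u : Bool → ℂ → ℂ) (y0 : ℝ), y0 ≤ 0 ∧ (act → y0 = 0) ∧
    (∀ i, AnalyticOnNhd ℂ (u i) D ∧ (∀ z ∈ D, ‖u i z - 1‖ ≤ o ∧ ‖(z - p) * deriv (u i) z‖ ≤ o) ∧
      Stp (Eg i) (Iic (2 * t)) (t / 64) ∧ (∀ y ≤ 2 * t, 0 ≤ Eg i y) ∧ ∀ y ≤ y0, Eg i y = 0) ∧
    N p = 0 ∧ (∀ z ∈ closedBall p (ρ * Real.exp (2 * t)), z ≠ p →
      N z = (∑ i, (Eg i (Real.log (‖z - p‖ / ρ)) : ℂ) * u i z) * lam z) ∧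
    ∀ z ∈ D, z ≠ p → 100 * R * (1 + ‖z - p‖ / ρ) ≤ (∑ i, Eg i (t / 2)) * ‖lam z‖

/-- description at a macro port -/
def PDesc {J : Type} (sp : Sp J) (j : J) (lam : ℂ → ℂ) (ρ : ℝ) (X K : Set E) (τ o : ℝ) : Prop :=
  ∃ (N : ℂ → ℂ) (t R : ℝ), 0 < t ∧ t ≤ o ∧ 0 < R ∧ R ≤ τ ∧ 0 < ρ ∧
    (∀ y ∈ X, y ∉ K → y ∈ sp.T τ j → ‖y.2 - (sp.l j).w y.1‖ < R) ∧
    KD K (sp.l j).w N (closedBall (sp.l j).c sp.r1) (closedBall (sp.l j).c (ρ * Real.exp t))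
      (closedBall (sp.l j).c (ρ * Real.exp (2 * t))) R ∧
    PortW N lam (sp.l j).c ρ (closedBall (sp.l j).c sp.r1) o t R False

/-- the chart of the window of the port `p` of the hub `l` -/
def wz (l : End) (p : ℂ) (ζ : ℂ) : ℂ := l.c + l.r * SH.wch (hx l p) (l.dep p) 0 ζ

open Classical in
/-- thin ring together with the discs about the ports -/
def thin {J : Type} (A : Cv) (pr : A.ι → ℝ) (fd : FD J A.ι) (j : J) (t t' : ℝ) : Set ℂ :=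
  (A.e (fd.m j)).ann (Icc (if fd.m j = A.H then 0 else -t) t) ∪
    ⋃ k ∈ fd.win A j, closedBall (A.e k).c (pr k * Real.exp t')

open Classical in
/-- description at a loop; the windows in `V` are active, those in `Bs` have the birth shape -/
def RDesc {J : Type} (ab : Ab) (A : Cv) (pr : A.ι → ℝ) (sp : Sp J) (fd : FD J A.ι) (j : J)
    (V Bs : Finset A.ι) (X K : Set E) (τ o : ℝ) : Prop :=
  ∃ (N : ℂ → ℂ) (Ef : Bool → ℝ → ℝ) (u : Bool → ℂ → ℂ) (a t t' R o' : ℝ),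
    0 < a ∧ a ≤ t ∧ t ≤ o ∧ 0 < t' ∧ t' ≤ o ∧ 0 < R ∧ R ≤ τ ∧ 0 ≤ o' ∧ o' ≤ o ∧
    (∀ y ∈ X, y ∉ K → y ∈ sp.T τ j → ‖y.2 - (sp.l j).w y.1‖ < R ∧ -a < (sp.l j).dep y.1) ∧
    AnalyticOnNhd ℂ (fd.mu j) ((sp.l j).ann (Icc (-a) sp.h)) ∧
    (∀ z ∈ (sp.l j).ann (Icc (-a) sp.h), fd.mu j z ≠ 0) ∧
    KD K (sp.l j).w N ((sp.l j).ann (Icc (-a) sp.h)) (thin A pr fd j t t')
      (thin A pr fd j (2 * t) (2 * t')) R ∧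
    (∀ z ∈ (sp.l j).ann (Ico (-a) 0), fd.m j ≠ A.H → N z ≠ 0) ∧
    (∀ i, Stp (Ef i) (Icc (-(2 * t)) (2 * t)) (t / 4) ∧
      (∀ y ∈ Icc (-(2 * t)) (2 * t), 0 ≤ y * Ef i y ∧ (fd.m j = A.H → y ≤ 0 → Ef i y = 0)) ∧
      ∀ z ∈ (sp.l j).ann (Icc (-(2 * t)) (2 * t)),
        NDir (sp.l j) (fd.win A j) (fun k => (A.e k).c) (u i) o' (2 * fd.CD) z) ∧
    (∀ z ∈ (sp.l j).ann (Icc (if fd.m j = A.H then 0 else -(2 * t)) (2 * t)),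
      (∀ k ∈ fd.win A j, k ∈ Bs → ∀ ζ : ℂ, ‖ζ‖ < ab.M8 → z ≠ wz A.hub (A.e k).c ζ) →
      N z * fd.chart A j z = ∑ i, (Ef i ((sp.l j).dep z) : ℂ) * u i z) ∧
    ∀ k ∈ fd.win A j,
      (k ∉ Bs → t ≤ o * A.hub.dep (A.e k).c ∧ o' ≤ o * A.hub.dep (A.e k).c ∧
        PortW N (A.lam k) (A.e k).c (pr k) (pd ab.L A.hub (A.e k).c) o t' R (k ∈ V)) ∧
      (k ∈ Bs → 4 * ab.M8 * A.hub.dep (A.e k).c ≤ t ∧ (∀ i z, u i z = 1) ∧ N (A.e k).c = 0 ∧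
        ∃ (D0 : ℂ → ℝ) (G : ℝ → ℝ),
          SH.Shape ab.c0 ab.CD ab.M8 ab.y4 ab.L (hx A.hub (A.e k).c) (A.hub.dep (A.e k).c) 0 D0 ∧
          BProf G ab.M8 ab.σ0 ∧
          (∀ s ∈ Icc 0 (4 * ab.M8), ∑ i, Ef i (s * A.hub.dep (A.e k).c) = G s) ∧
          ∀ ζ : ℂ, ‖ζ‖ < ab.M8 → 0 ≤ ζ.im → ζ ≠ Complex.I →
            N (wz A.hub (A.e k).c ζ) * fd.chart A j (wz A.hub (A.e k).c ζ) =
              if 0 < SH.hgt ab.L D0 ζ then SH.bw ab.L D0 (fun s => Real.log (G s)) ab.th ζ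
              else 0)

end Pool.Agent.S6
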