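import Pool.Agent.Lib.S6.EndsB

/-!
The three kinds of windows for linear walls, with the absolute constants.
-/

open Set Filter Topology Metric

noncomputable section

namespace Pool.Agent.S6.ENDS

open Pool.Agent.Lib Pool.Agent.Lib.SH Pool.Agent.Lib.SH.Win Pool.Agent.Lib.SH.Ring

/-- linear wall data in an ordinary window -/
structure OW {I : Type} [Fintype I] (X K : Set E) (P : E → ℂ) (Ef Ef' : I → ℝ → ℝ)
    (u : I → ℂ → ℂ) (Cf : ℂ → ℝ) (x : ℂ) (δ ρ L C o t : ℝ) (act : Prop) : Prop where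
  wh : WH X K P x δ ρ
  t0 : 0 < t ∧ t ≤ o * δ
  rl : RL Ef Ef' u (o * δ) Cf t
  pos : ∀ i y, 0 ≤ y → y ≤ 2 * t → 0 ≤ Ef i y
  cf : ∀ z ∈ closedBall x ρ, |Real.log ‖z‖| ≤ 2 * t → Cf z * (δ + ‖z - x‖) ≤ C / 2
  kw : KW X K P (zs Ef u) (wo x δ ρ) t fun y => P y ≠ 0
  port : ∀ y ∈ ov X (closedBall x ρ), y ∈ K → pc x δ 0 y.1 ≤ 1 / 10 → P y ≠ 0 →
    pc x δ 0 y.1 ≤ Real.exp (-L + 7 / 10) ∧ |Complex.arg (P y) - Real.pi / 4| ≤ 1 / L ∧
      (act → Real.exp (-L - 7 / 10) ≤ pc x δ 0 y.1)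

theorem boxes (ι C : ℝ) (hι : 0 < ι) (hC : 0 ≤ C) : ∃ o > (0 : ℝ), ∀ (I : Type) [Fintype I]
    (X K : Set E) (P : E → ℂ) (Ef Ef' : I → ℝ → ℝ) (u : I → ℂ → ℂ) (Cf : ℂ → ℝ) (x : ℂ)
    (δ ρ L o' t : ℝ) (act : Prop), o' ≤ o → OW X K P Ef Ef' u Cf x δ ρ L C o' t act →
    ∀ x0 r, Adm (ρ / (2 * δ)) x0 r → WB (bc (wch x δ 0) ⁻¹' X) (bc (wch x δ 0) ⁻¹' K)
      (fun y => P (bc (wch x δ 0) y)) x0 r ι (cW C) 0 0 := by
  obtain ⟨o, ho, H⟩ := wb_win ι C hι hC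
  refine ⟨o, ho, fun I _ X K P Ef Ef' u Cf x δ ρ L o' t act h1 h x0 r hA => ?_⟩
  have d0 := h.wh.pos
  have o0 : 0 < o' * δ := h.t0.1.trans_le h.t0.2
  have o1 : o' * δ ≤ o * δ := by gcongr
  obtain ⟨rr, hW⟩ := h.rl.rw o0.le
  exact H I X K P P (fun _ => 0) Ef Ef' u _ _ Cf (closedBall x ρ) x 0 0 _ δ ρ t 0 rr 2 h.wh.hx d0
    h.wh.d1 h.wh.rho h.t0.1 (h.t0.2.trans o1) o0 o1 (Or.inr rfl) hW h.cf h.wh.an x0 r 0 0 hA
    (Or.inl ⟨rfl, le_rfl⟩) (fun z hz => ⟨mem_closedBall_iff_norm.2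
      (hA.mem h.wh.hx d0 h.wh.d1 h.wh.rho hz).1, analyticAt_const, by simp,
      fun _ => by simpa using hι.le, by simp, fun w => by simp [pp, sq]⟩)
    (h.kw.mono subset_rfl fun y _ a => norm_pos_iff.1 a)

variable {I : Type} [Fintype I] {X K : Set E} {P : E → ℂ} {Ef Ef' : I → ℝ → ℝ} {u : I → ℂ → ℂ}
  {Cf : ℂ → ℝ} {x : ℂ} {δ ρ L C o t : ℝ} {act : Prop}

/-- points of the hub wall in the window chart -/
theorem OW.hub (h : OW X K P Ef Ef' u Cf x δ ρ L C o t act) {v : E}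
    (hv : v ∈ ov (bc (wch x δ 0) ⁻¹' X) (closedBall 0 (ρ / (2 * δ))))
    (hk : v ∈ bc (wch x δ 0) ⁻¹' K) (hp : P (bc (wch x δ 0) v) ≠ 0)
    (h1 : 1 / 10 < pc x δ 0 (wch x δ 0 v.1)) : v.1.im ≤ o ∧ 0 ≤ (P (bc (wch x δ 0) v)).re ∧
      |(P (bc (wch x δ 0) v)).im| ≤ o * δ * |(P (bc (wch x δ 0) v)).re| := by
  have d0 := h.wh.pos
  obtain ⟨a1, a2⟩ := (h.kw (bc (wch x δ 0) v)
    ⟨hv.1, mem_closedBall_iff_norm.1 (h.wh.mem hv.2), h1⟩ hp).1 hk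
  change |Real.log ‖wch x δ 0 v.1‖| ≤ t at a1
  have a3 := h.rl.im_le (h.t0.1.trans_le h.t0.2) (wch_ne (δ := δ) (yr := 0) (ne0 h.wh.hx) v.1)
    (by linarith [h.t0.1])
  have a4 := h.wh.up' v hv
  rw [abs_log_wch h.wh.hx d0, abs_of_nonneg a4] at a1
  rw [a2]
  refine ⟨by nlinarith [h.t0.2], a3.2 fun i => ?_, a3.1⟩
  rw [log_wch h.wh.hx, add_zero]
  exact h.pos i _ (by positivity) (by linarith [h.t0.1])

theorem bl_up {s b L : ℝ} (h1 : s ≤ Real.exp (-L + 7 / 10)) (h2 : b ≤ 4 / 3 * s) :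
    b ≤ Real.exp (-L + 1) := by
  rw [Real.exp_add] at h1 ⊢
  nlinarith [exp_07, Real.exp_pos (-L)]

/-- active windows -/
theorem act_core {L β M : ℝ} (H : WActP L β M) (hL : 13 ≤ L) (hM : 64 ≤ M) (b0 : 0 < β)
    (b1 : β ≤ 1) (C : ℝ) (hC : 0 ≤ C) : ∃ o > (0 : ℝ), ∀ (I : Type) [Fintype I]
    (X K : Set E) (P : E → ℂ) (Ef Ef' : I → ℝ → ℝ) (u : I → ℂ → ℂ) (Cf : ℂ → ℝ) (x : ℂ)
    (δ ρ o' t : ℝ) (act : Prop), o' ≤ o → act → OW X K P Ef Ef' u Cf x δ ρ L C o' t act →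
    1000 * M * δ ≤ ρ →
    PortB (X \ K) (fun y => ‖P y‖) (wch x δ 0 Complex.I) (prad x δ 0 L) 0 1000 →
    WinP (X \ K) P x ρ (4 - 2 * β) (20000 * M ^ 5) (100 * δ) := by
  obtain ⟨ι, hι, H⟩ := H (cW C) 0
  obtain ⟨o, ho, HB⟩ := boxes ι C hι hC
  refine ⟨min o ι, by positivity, fun I _ X K P Ef Ef' u Cf x δ ρ o' t act h1 ha h hρ hp => ?_⟩
  have w := h.wh
  have d0 := w.pos
  have d1 := w.d1
  have h2 := h1.trans (min_le_right _ _)
  have hR : M ≤ ρ / (2 * δ) := by rw [le_div_iff₀ (by positivity)]; nlinarith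
  have hw : ∀ x0 r, Adm (ρ / (2 * δ)) x0 r → WBL (bc (wch x δ 0) ⁻¹' X) (bc (wch x δ 0) ⁻¹' K)
      (fun y => P (bc (wch x δ 0) y)) x0 r ι (cW C) 0 := fun x0 r a =>
    ⟨0, le_rfl, HB I X K P Ef Ef' u Cf x δ ρ L o' t act (h1.trans (min_le_left _ _)) h x0 r a,
      Or.inl rfl⟩
  refine ActB.winP (fun O hO h1 r r1 r2 y hy => H _ _ _ _ ⟨w.np', w.up', w.an', w.anB',
    fun v hv hk => ?_, fun x0 a1 a2 => hw x0 _ ⟨by linarith, by linarith, Or.inr (by ring)⟩,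
    fun x0 a1 => hw x0 _ ⟨by norm_num, by linarith, Or.inl le_rfl⟩,
    fun b a1 => w.ppp hL hp b (le_trans (mul_nonneg hι.le (Real.sSup_nonneg (by
      rintro _ ⟨v, -, rfl⟩; exact norm_nonneg _))) a1)⟩ hR O hO (fun v a1 a2 => h1 v ⟨a1, a2⟩) r r1
    r2 y hy.1 hy.2) w.hx d0 w.rho b0.le (by linarith) (by linarith) hρ
  by_cases p0 : P (bc (wch x δ 0) v) = 0
  · exact Or.inl p0
  rcases lt_or_ge (1 / 10) (pc x δ 0 (wch x δ 0 v.1)) with a | a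
  · obtain ⟨a1, a2, a3⟩ := h.hub hv hk p0 a
    have a4 : 0 < o' * δ := h.t0.1.trans_le h.t0.2
    exact Or.inr (Or.inl ⟨by linarith, (arg_le a2 a3 a4.le).trans (by nlinarith)⟩)
  obtain ⟨a1, a2, a3⟩ := h.port (bc (wch x δ 0) v) ⟨hv.1, w.mem hv.2⟩ hk a p0
  have a4 := w.bl_le (mem_closedBall_zero_iff.1 hv.2) a
  have a5 : Real.exp (-L - 7 / 10) ≤ pc x δ 0 (wch x δ 0 v.1) := a3 ha
  have a6 : Real.exp (-L - 1) ≤ ‖bl v.1‖ := by
    have e1 : Real.exp (-L - 7 / 10) = Real.exp (-L - 1) * Real.exp (3 / 10) := by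
      rw [← Real.exp_add]; congr 1; ring
    have e2 : (4 / 3 : ℝ) ≤ Real.exp (3 / 10) := (Real.log_le_iff_le_exp (by norm_num)).1 log_43
    nlinarith [Real.exp_pos (-L - 1), a4.1]
  have a7 : 0 < ‖bl v.1‖ := (Real.exp_pos _).trans_le a6
  refine Or.inr (Or.inr (Or.inl ⟨abs_le.2 ⟨by linarith [(Real.le_log_iff_exp_le a7).2 a6],
    by linarith [(Real.log_le_iff_le_exp a7).2 (bl_up a1 a4.2)]⟩, fun e => ?_, a2⟩))
  simp [e, bl] at a7

theorem im_rot {v : ℂ} {a s : ℝ} (h : |Complex.arg v - a| ≤ s) :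
    |(v * Complex.exp (-(Complex.I * a))).im| ≤ s * ‖v‖ := by
  have e : v * Complex.exp (-(Complex.I * a)) =
      ‖v‖ * Complex.exp (((Complex.arg v - a : ℝ) : ℂ) * Complex.I) := by
    conv_lhs => rw [← Complex.norm_mul_exp_arg_mul_I v]
    rw [mul_assoc, ← Complex.exp_add]
    congr 2
    push_cast
    ring
  rw [e, Complex.im_ofReal_mul, Complex.exp_ofReal_mul_I_im, abs_mul, abs_norm, mul_comm]
  exact mul_le_mul_of_nonneg_right (Real.abs_sin_le_abs.trans h) (norm_nonneg _)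

/-- neutral windows -/
theorem neu_core {L CN c0 M : ℝ} (H : WNeuP L CN c0 M) (hL : 13 ≤ L) (hM : 64 ≤ M) (hc : 0 < c0)
    (hN : 1 ≤ CN) (C : ℝ) (hC : 0 ≤ C) : ∃ o > (0 : ℝ), ∀ (I : Type) [Fintype I]
    (X K : Set E) (P : E → ℂ) (Ef Ef' : I → ℝ → ℝ) (u : I → ℂ → ℂ) (Cf : ℂ → ℝ) (x : ℂ)
    (δ ρ o' t : ℝ) (act : Prop), o' ≤ o → OW X K P Ef Ef' u Cf x δ ρ L C o' t act →
    1000 * M * δ ≤ ρ → PortZ (X \ K) P (wch x δ 0 Complex.I) (prad x δ 0 L) →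
    WinP (X \ K) P x ρ 0 (10000 * CN ^ 2 * 8) (100 * δ) := by
  obtain ⟨ι, hι, H⟩ := H (cW C) 0
  obtain ⟨o, ho, HB⟩ := boxes ι C hι hC
  refine ⟨min o (min ι c0), by positivity,
    fun I _ X K P Ef Ef' u Cf x δ ρ o' t act h1 h hρ hp => ?_⟩
  have w := h.wh
  have d0 := w.pos
  have d1 := w.d1
  have m1 : o' ≤ ι := (h1.trans (min_le_right _ _)).trans (min_le_left _ _)
  have m2 : o' ≤ c0 := (h1.trans (min_le_right _ _)).trans (min_le_right _ _)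
  have m0 : 0 < o' * δ := h.t0.1.trans_le h.t0.2
  have m3 : 0 < o' := pos_of_mul_pos_left m0 d0.le
  have hR : 2 * M ≤ ρ / (2 * δ) := by rw [le_div_iff₀ (by positivity)]; nlinarith
  have hw := HB I X K P Ef Ef' u Cf x δ ρ L o' t act (h1.trans (min_le_left _ _)) h
  refine NeuB.winP' w hL (fun O hO h1 y hy h2 h3 => H _ _ _ 1 (o' * δ) _ (Or.inl rfl)
    (by linarith) m0.le (by nlinarith) ?_ w.np' w.up' w.an' (fun v a1 a2 => ?_)
    (fun v hv hk p0 => ?_) (fun x0 a1 a2 => hw x0 _ ⟨by linarith, by linarith, Or.inr (by ring)⟩)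
    (fun x0 a1 => hw x0 _ ⟨le_rfl, by linarith, Or.inl (by norm_num)⟩) O hO
    (fun v a1 a2 => h1 v ⟨a1, a2⟩) y hy.1 hy.2 (by linarith) h3) hN (by norm_num) (by nlinarith) hp
  · have a1 := Real.log_le_sub_one_of_pos (show 0 < ρ / (2 * δ) by linarith)
    have a2 : δ * (ρ / (2 * δ)) = ρ / 2 := by field_simp
    have a3 : δ * (1 + Real.log (ρ / (2 * δ))) ≤ 1 := by nlinarith [w.rho]
    rw [mul_assoc]
    nlinarith
  · obtain ⟨F, -, b⟩ := w.anB' v a1 a2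
    rw [b.self_of_nhds, a2, sub_self, zero_mul]
  rcases lt_or_ge (1 / 10) (pc x δ 0 (wch x δ 0 v.1)) with a | a
  · obtain ⟨a1, -, a3⟩ := h.hub hv hk p0 a
    exact Or.inl ⟨by linarith, a3.trans (mul_le_mul_of_nonneg_left (Complex.abs_re_le_norm _)
      m0.le)⟩
  obtain ⟨a1, a2, -⟩ := h.port (bc (wch x δ 0) v) ⟨hv.1, w.mem hv.2⟩ hk a p0
  refine Or.inr ⟨bl_up a1 (w.bl_le (mem_closedBall_zero_iff.1 hv.2) a).2, ?_⟩
  have := im_rot a2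
  push_cast at this ⊢
  rw [one_mul]
  exact this.trans (by gcongr; norm_num)

open Classical in
/-- birth windows -/
theorem bir_core {c0 CD L M8 CN M σ0 : ℝ} {th : ℝ → ℝ} (H : WBirP c0 CD L M8 CN M σ0 th)
    (hL : 13 ≤ L) (h8 : 4 ≤ M8) (hM : 64 ≤ M) (hN : 1 ≤ CN) (s0 : 0 < σ0) (s1 : σ0 ≤ 1) :
    ∃ o > (0 : ℝ), ∀ (I : Type) [Fintype I] (X K : Set E) (P : E → ℂ) (Ef : I → ℝ → ℝ)
    (Nc : ℂ → ℂ) (D0 : ℂ → ℝ) (G : ℝ → ℝ) (x : ℂ) (δ ρ t y4 : ℝ), WH X K P x δ ρ →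
    1000 * M * δ ≤ ρ → 4 * M8 * δ ≤ t → t ≤ o * ρ → Shape c0 CD M8 y4 L x δ 0 D0 → BProf G M8 σ0 →
    (∀ i, Stp (Ef i) (Icc (-(2 * t)) (2 * t)) (t / 4)) →
    (∀ y ∈ Icc (-(2 * t)) (2 * t), Coh fun i => Ef i y) →
    (∀ s ∈ Icc 0 (4 * M8), ∑ i, Ef i (s * δ) = G s) →
    (∀ ζ : ℂ, ‖ζ‖ ≤ ρ / (2 * δ) → 0 ≤ ζ.im → δ * ζ.im ≤ 2 * t → ζ ≠ Complex.I →
      Nc (wch x δ 0 ζ) = if ‖ζ‖ < M8 then
        (if 0 < hgt L D0 ζ then bw L D0 (fun s => Real.log (G s)) th ζ else 0)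
        else ((∑ i, Ef i (δ * ζ.im) : ℝ) : ℂ)) →
    KW X K P Nc (closedBall x ρ) t (fun y => P y ≠ 0) →
    WinP (X \ K) P x ρ 0 (10000 * CN ^ 2 * 16) (100 * δ) := by
  obtain ⟨ι, hι, H⟩ := H (cW 0) 0
  obtain ⟨o, ho, HB⟩ := wb_mac ι 0 hι le_rfl
  refine ⟨min (min (o / 16) (ι / 4)) 1, by positivity, ?_⟩
  intro I _ X K P Ef Nc D0 G x δ ρ t y4 h hρ t0 t1 hS hG hE hco hs hB hK
  have d0 := h.pos
  have hx := h.hx
  have ρ0 : 0 < ρ := by linarith [h.le]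
  have ρ1 := h.rho
  refine NeuB.winP (fun O hO h1 y hy h2 _ => ?_) hx d0 ρ1 hN (by norm_num) (by nlinarith)
  have m1 : min (min (o / 16) (ι / 4)) 1 ≤ o / 16 := (min_le_left _ _).trans (min_le_left _ _)
  have m2 : min (min (o / 16) (ι / 4)) 1 ≤ ι / 4 := (min_le_left _ _).trans (min_le_right _ _)
  have m3 := min_le_right (min (o / 16) (ι / 4)) 1
  have t2 : t ≤ o / 16 * ρ := t1.trans (by gcongr)
  have t3 : t ≤ ι / 4 * ρ := t1.trans (by gcongr)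
  have t4 : t ≤ 1 * ρ := t1.trans (by gcongr)
  have t5 : 0 < 4 * M8 * δ := by positivity
  have t6 : 0 < t := by linarith
  set R := ρ / (2 * δ) with hR
  have R0 : δ * R = ρ / 2 := by rw [hR]; field_simp
  have R1 := h.big
  have gd : ∀ s, HasDerivAt G (deriv G s) s := fun s => (hG.diff s).hasDerivAt
  have gr := fun {s t : ℝ} => WBIR.grow (H := 4 * M8) (s := s) (t := t) s0 gd hG.pos hG.steep
  have lv0 : 0 < G (2 * M8) * Real.exp (-3) := mul_pos (hG.pos _ (by linarith)) (Real.exp_pos _)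
  have lv1 : ∀ s, s ≤ M8 + 1 → G s ≤ G (2 * M8) * Real.exp (-3) := fun s a => by
    rcases le_or_gt s 0 with b | b
    · rw [hG.zero s b]; exact lv0.le
    have a1 := gr b (by linarith : s ≤ 2 * M8) (by linarith)
    have a2 : 3 ≤ (2 * M8 - s) / σ0 := by rw [le_div_iff₀ s0]; linarith
    rw [← Real.exp_log (hG.pos s b), ← Real.exp_log (hG.pos (2 * M8) (by linarith)),
      ← Real.exp_add]
    exact Real.exp_le_exp.2 (by linarith)
  have ed : ∀ i, ∀ y ∈ Icc (-(2 * t)) (2 * t), 0 ≤ deriv (Ef i) y := fun i y hy =>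
    nonneg_of_mul_nonneg_right ((abs_nonneg _).trans (hE i y hy).2) (by positivity)
  have hW : RL Ef (fun i => deriv (Ef i)) (fun _ _ => 1) o (fun _ => 0) t :=
    ⟨fun i y hy => ⟨(hE i y hy).1.hasDerivAt, ed i y hy⟩, fun i y hy => Or.inr fun z _ =>
      ⟨analyticAt_const, by simpa using ho.le, by simp, by simpa using ho.le⟩, fun y hy z _ => by
        rw [Finset.mul_sum]
        exact Finset.sum_le_sum fun i _ => by simpa using (hE i y hy).2, hco⟩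
  have em : ∀ s, 4 * M8 ≤ s → δ * s ≤ 2 * t → G (4 * M8) ≤ ∑ i, Ef i (δ * s) := fun s a b => by
    rw [← hs _ ⟨by linarith, le_rfl⟩]
    refine Finset.sum_le_sum fun i _ => monotoneOn_of_deriv_nonneg (convex_Icc _ _)
      (fun y hy => (hE i y hy).1.continuousAt.continuousWithinAt)
      (fun y hy => (hE i y (interior_subset hy)).1.differentiableWithinAt)
      (fun y hy => ed i y (interior_subset hy)) ⟨by linarith, by linarith⟩
      ⟨by nlinarith, b⟩ (by nlinarith)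
  have ez : ∀ z : ℂ, zs Ef (fun _ _ => 1) (wch x δ 0 z) = ((∑ i, Ef i (δ * z.im) : ℝ) : ℂ) :=
    fun z => by simp [zs, log_wch hx]
  have far : ∀ z : ℂ, 0 ≤ z.im → M8 ≤ ‖z‖ → hgt L D0 z = z.im := fun z a b =>
    hS.far z (by linarith) (Or.inl b)
  have low : ∀ z : ℂ, 0 ≤ z.im → hgt L D0 z ≤ 4 * M8 → z.im ≤ 4 * M8 := fun z b c => by
    rcases le_total M8 ‖z‖ with d | d
    · rwa [← far z b d]
    · linarith [Complex.im_le_norm z]
  have nb : ∀ z : ℂ, ‖z‖ ≤ R → 0 ≤ z.im → z ≠ Complex.I → hgt L D0 z ≤ 4 * M8 →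
      Nc (wch x δ 0 z) = if 0 < hgt L D0 z then bw L D0 (fun s => Real.log (G s)) th z else 0 := by
    intro z a b c d
    have e := low z b d
    rw [hB z a b (by nlinarith) c]
    split_ifs with f g g
    · rfl
    · rfl
    · rw [WBIR.bw_real (Or.inr (WBIR.far (by linarith) (by linarith [not_lt.1 f]))),
        Real.exp_log (hG.pos _ g), far z b (not_lt.1 f), mul_comm, hs _ ⟨b, e⟩]
    · rw [far z b (not_lt.1 f)] at g
      rw [mul_comm, hs _ ⟨b, e⟩, hG.zero _ (not_lt.1 g), Complex.ofReal_zero]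
  have kw : ∀ v ∈ ov (bc (wch x δ 0) ⁻¹' X) (closedBall 0 R), P (bc (wch x δ 0) v) ≠ 0 →
      v.1 ≠ Complex.I ∧ (v ∈ bc (wch x δ 0) ⁻¹' K → δ * v.1.im ≤ t ∧
        P (bc (wch x δ 0) v) = Nc (wch x δ 0 v.1)) ∧ (δ * v.1.im ≤ 2 * t →
        P (bc (wch x δ 0) v) = Nc (wch x δ 0 v.1) → v ∈ bc (wch x δ 0) ⁻¹' K) := by
    intro v hv p0
    refine ⟨fun e => ?_, ?_⟩
    · obtain ⟨F, -, a2⟩ := h.anB' v hv.1 e
      exact p0 (by rw [a2.self_of_nhds, e, sub_self, zero_mul])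
    · rw [← abs_of_nonneg (h.up' v hv), ← abs_log_wch hx d0]
      exact hK (bc (wch x δ 0) v) ⟨hv.1, h.mem hv.2⟩ p0
  obtain ⟨rr, hW'⟩ := hW.rw ho.le
  refine H (bc (wch x δ 0) ⁻¹' X) (bc (wch x δ 0) ⁻¹' K) (fun y => P (bc (wch x δ 0) y))
    D0 G R (by rw [hR, le_div_iff₀ (by positivity)]; nlinarith) (by nlinarith) hS.dev far hG
    h.np' h.up' h.an' h.anB' (fun v hv hk p0 => ?_) (fun v hv a b c d => ?_) (fun x0 a => ?_) O hO
    (fun v a b c d => h1 v ⟨a, b⟩ c d) y hy.1 hy.2 h2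
  · have v1 := mem_closedBall_zero_iff.1 hv.2
    have v2 := h.up' v hv
    obtain ⟨v3, k, -⟩ := kw v hv p0
    obtain ⟨k1, k2⟩ := k hk
    have k4 : 0 < hgt L D0 v.1 := not_le.1 fun a => p0 (by
      rw [k2, nb _ v1 v2 v3 (by linarith), if_neg (not_lt.2 a)])
    refine ⟨v3, k4, fun a => by rw [k2, nb _ v1 v2 v3 a, if_pos k4], fun a => ?_⟩
    have b0 : M8 ≤ ‖v.1‖ := by linarith [hS.le _ v2 v3, Complex.im_le_norm v.1]
    rw [far _ v2 b0] at a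
    rw [k2, hB _ v1 v2 (by linarith) v3, if_neg (not_lt.2 b0), Complex.ofReal_im, abs_zero,
      Complex.norm_real]
    exact ⟨(em _ a.le (by linarith)).trans (le_abs_self _), by nlinarith, by positivity⟩
  · have v1 := mem_closedBall_zero_iff.1 hv.2
    have v2 := h.up' v hv
    refine (kw v hv ?_).2.2 (by nlinarith [low _ v2 c]) (by rw [nb _ v1 v2 a c, if_pos b]; exact d)
    rw [show P _ = _ from d]
    exact Complex.exp_ne_zero _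
  · have bs : ∀ z ∈ box x0 (R / 8) (R / 8), ‖z‖ ≤ R := fun z hz => box_norm (by linarith) hz
    refine HB I X K P P (fun _ => 0) Ef _ _ _ _ _ (closedBall x ρ) x 0 0 o δ x0 (R / 8) t 0 _ 0 rr
      2 hx d0 (by linarith) (by linarith) t6 (by linarith) (by nlinarith) ho le_rfl (Or.inr rfl)
      (fun z hz => wch_ball hx d0 ρ1 (bs z hz)) h.an
      (fun z _ => ⟨analyticAt_const, by simp, fun _ => by simpa using hι.le, by
        rw [zero_mul]; positivity⟩) (fun v _ => by simp [pp, sq]) hW' (Or.inl ⟨rfl, le_rfl⟩)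
      (fun z a b => by simp) fun v hv hl => ?_
    have v1 := bs _ hv.2
    have v0 : v ∈ ov (bc (wch x δ 0) ⁻¹' X) (closedBall 0 R) :=
      ⟨hv.1, mem_closedBall_zero_iff.2 v1⟩
    have v2 := h.up' v v0
    obtain ⟨v3, k⟩ := kw v v0 (norm_pos_iff.1 (lv0.trans hl))
    rw [abs_of_nonneg v2]
    simp only [ez]
    rcases le_or_gt M8 ‖v.1‖ with c | c
    · refine ⟨fun a => ⟨(k.1 a).1, ?_⟩, fun a b => k.2 a ?_⟩
      · rw [(k.1 a).2, hB _ v1 v2 (by linarith [(k.1 a).1]) v3, if_neg (not_lt.2 c)]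
      · rw [b, hB _ v1 v2 a v3, if_neg (not_lt.2 c)]
    · have c1 := Complex.im_le_norm v.1
      have c2 := hS.le _ v2 v3
      refine ⟨fun a => ?_, fun a b => ?_⟩
      · rw [(k.1 a).2, nb _ v1 v2 v3 (by linarith)] at hl
        split_ifs at hl with f
        · rw [WBIR.bw_norm, Real.exp_log (hG.pos _ f)] at hl
          linarith [lv1 (hgt L D0 v.1) (by linarith)]
        · rw [norm_zero] at hl
          linarith
      · rw [b, mul_comm δ, hs _ ⟨v2, by linarith⟩, Complex.norm_real, Real.norm_eq_abs] at hl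
        rcases le_or_gt v.1.im 0 with f | f
        · rw [hG.zero _ f, abs_zero] at hl
          linarith
        · rw [abs_of_pos (hG.pos _ f)] at hl
          linarith [lv1 v.1.im (by linarith)]

end Pool.Agent.S6.ENDS
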