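import Pool.Agent.Lib.S6.Ends3

/-!
The ports of the windows.
-/

open Set Filter Topology Metric

noncomputable section

namespace Pool.Agent.S6.ENDS

open Pool.Agent.CF (End Kind)
open Pool.Agent.Lib Pool.Agent.Lib.SH Pool.Agent.Lib.SH.Win Pool.Agent.Lib.SH.Ring

theorem arg_class {I : Type} [Fintype I] {g : I → ℝ} {u : I → ℂ} {o L a : ℝ} {lg : ℂ}
    (hg : ∀ i, 0 ≤ g i) (hu : ∀ i, ‖u i - 1‖ ≤ o) (h0 : 0 ≤ o) (ho : o ≤ 1 / (8 * L)) (hL : 13 ≤ L)
    (hl : ‖lg‖ < 1 / (8 * L)) (hS : ∑ i, (g i : ℂ) * u i ≠ 0) :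
    |Complex.arg ((∑ i, (g i : ℂ) * u i) * Complex.exp (a + Real.pi / 4 * Complex.I + lg)) -
      Real.pi / 4| ≤ 1 / L := by
  have a0 : 1 / (8 * L) ≤ 1 / 100 := one_div_le_one_div_of_le (by norm_num) (by linarith)
  have k : ∀ i, 0 ≤ g i * (u i).re ∧ |g i * (u i).im| ≤ 2 * o * (g i * (u i).re) := fun i => by
    have a1 := abs_le.1 ((Complex.abs_re_le_norm _).trans (hu i))
    have a2 := (Complex.abs_im_le_norm _).trans (hu i)
    rw [Complex.sub_re, Complex.one_re] at a1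
    rw [Complex.sub_im, Complex.one_im, sub_zero] at a2
    have a3 : |(u i).im| ≤ 2 * o * (u i).re := by nlinarith
    rw [abs_mul, abs_of_nonneg (hg i)]
    exact ⟨mul_nonneg (hg i) (by linarith), by nlinarith [hg i]⟩
  set S := ∑ i, (g i : ℂ) * u i
  have e1 : S.re = ∑ i, g i * (u i).re := by simp [S]
  have e2 : S.im = ∑ i, g i * (u i).im := by simp [S]
  have a1 : 0 ≤ S.re := e1 ▸ Finset.sum_nonneg fun i _ => (k i).1
  have a2 := abs_le.1 (arg_le (o := 2 * o) a1 (by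
    rw [abs_of_nonneg a1, e1, e2, Finset.mul_sum]
    exact (Finset.abs_sum_le_sum_abs _ _).trans (Finset.sum_le_sum fun i _ => (k i).2))
    (by linarith))
  have a3 := abs_le.1 ((Complex.abs_im_le_norm lg).trans hl.le)
  have e3 : S * Complex.exp (a + Real.pi / 4 * Complex.I + lg) =
      (‖S‖ * Real.exp (a + lg.re) : ℝ) * (Complex.cos (S.arg + Real.pi / 4 + lg.im : ℝ) +
        Complex.sin (S.arg + Real.pi / 4 + lg.im : ℝ) * Complex.I) := by
    rw [← Complex.exp_mul_I]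
    conv_lhs => rw [← Complex.norm_mul_exp_arg_mul_I S, ← Complex.re_add_im lg]
    push_cast
    rw [mul_assoc, mul_assoc, ← Complex.exp_add, ← Complex.exp_add]
    congr 2
    ring
  have a4 : 1 / L = 8 * (1 / (8 * L)) := by field_simp
  rw [e3, Complex.arg_mul_cos_add_sin_mul_I (mul_pos (norm_pos_iff.2 hS) (Real.exp_pos _))
    ⟨by linarith [Real.pi_gt_three], by linarith [Real.pi_gt_three]⟩, abs_le]
  constructor <;> linarith

/-- the surface at the port of an ordinary window -/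
structure PT (K : Set E) (w N lam ch : ℂ → ℂ) (p : ℂ) (r δ pr L o t t' R : ℝ) (act : Prop) :
    Prop where
  t0 : t ≤ δ / 4 ∧ 0 < t'
  pw : PortW N lam p pr (closedBall p (r * δ * Real.exp (6 - L))) o t' R act
  dir : PortDir L p (closedBall p (r * δ * Real.exp (6 - L))) fun z => lam z * ch z
  low : 0 < pr → 2 * r * δ * Real.exp (-L - 1 / 2) ≤ pr
  k3 : ∀ z ∈ closedBall p (pr * Real.exp (2 * t')), (z, w z + N z) ∈ K

theorem PortW.zero {N lam : ℂ → ℂ} {p : ℂ} {ρ o t R : ℝ} {D : Set ℂ} {act : Prop}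
    (h : PortW N lam p ρ D o t R act) (hρ : 0 < ρ) (ht : 0 < t) : ∃ y0 : ℝ, (act → y0 = 0) ∧
      ∀ z, ‖z - p‖ ≤ ρ * Real.exp y0 → N z = 0 := by
  obtain ⟨Eg, u, y0, a1, a2, a3, a4, a5, -⟩ := h
  refine ⟨y0, a2, fun z hz => ?_⟩
  by_cases e : z = p
  · rw [e, a4]
  rw [a5 z (mem_closedBall_iff_norm.2 (hz.trans (by gcongr; linarith))) e,
    Finset.sum_eq_zero fun i _ => ?_, zero_mul]
  rw [(a3 i).2.2.2.2 _ ((Real.log_le_iff_le_exp (div_pos (norm_pos_iff.2 (sub_ne_zero.2 e))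
    hρ)).2 (by rw [div_le_iff₀' hρ]; exact hz)), Complex.ofReal_zero, zero_mul]

namespace RC

variable {W : Type} [Fintype W] {l : End} {X K : Set E} {mu N f : ℂ → ℂ} {p x : W → ℂ}
  {δ pr ρ s : W → ℝ} {L M8 τ a R h t t' : ℝ} {hub : Prop} {bir : W → Prop}
  (c : RC X K l mu N f p x δ pr ρ s L M8 τ a R h t t' hub bir)
include c

theorem rad (i : W) : l.r * prad (x i) (δ i) 0 L =
    2 * l.r * δ i * Real.exp (-δ i - L + 7 / 2) := by
  rw [prad, norm_port (c.win i).1, show -δ i - L + 7 / 2 = -δ i + (-L + 7 / 2) by ring,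
    Real.exp_add (-δ i)]
  ring

theorem radD (i : W) : closedBall (p i) (l.r * prad (x i) (δ i) 0 L) ⊆
    closedBall (p i) (l.r * δ i * Real.exp (6 - L)) := closedBall_subset_closedBall (by
  have a1 := mul_pos c.ls.hr (c.win i).2.1
  have a2 : Real.exp (-δ i - L + 7 / 2) ≤ Real.exp (5 - L) :=
    Real.exp_le_exp.2 (by linarith [(c.win i).2.1])
  rw [c.rad, show 6 - L = 1 + (5 - L) by ring, Real.exp_add 1]
  nlinarith [Real.add_one_le_exp 1, Real.exp_pos (5 - L), mul_le_mul_of_nonneg_left a2 a1.le,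
    mul_pos a1 (Real.exp_pos (5 - L))])

variable {i : W} {lam : ℂ → ℂ} {o : ℝ} {act : Prop}

theorem port (d : PT K l.w N lam (chW mu p) (p i) l.r (δ i) (pr i) L o t t' R act)
    (ho : o ≤ 1 / (8 * L)) : ∀ y ∈ ov (Xc X l a R) (closedBall (x i) (ρ i)),
    y ∈ bc (ech l) ⁻¹' K → pc (x i) (δ i) 0 y.1 ≤ 1 / 10 → Vc l (chW mu p) y ≠ 0 →
    pc (x i) (δ i) 0 y.1 ≤ Real.exp (-L + 7 / 10) ∧
      |Complex.arg (Vc l (chW mu p) y) - Real.pi / 4| ≤ 1 / L ∧
      (act → Real.exp (-L - 7 / 10) ≤ pc (x i) (δ i) 0 y.1) := by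
  intro y hy hk h1 v0
  obtain ⟨a1, a2⟩ := c.own d.t0.1 hy.1 hk h1
  have a3 := c.pd a1
  have a4 : ech l y.1 ≠ p i := fun e => right_ne_zero_of_mul v0 (by
    rw [e, chW, Finset.prod_eq_zero (Finset.mem_univ i) (sub_self _), mul_zero])
  have a5 := norm_pos_iff.2 (sub_ne_zero.2 a4)
  have a6 : 0 < pr i := pos_of_mul_pos_left (a5.trans_le a1) (Real.exp_pos _).le
  have a7 := mul_pos c.ls.hr (c.win i).2.1
  have a8 : ech l y.1 ∈ closedBall (p i) (l.r * δ i * Real.exp (6 - L)) := c.radD i (by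
    rw [mem_closedBall_iff_norm, c.dist, prad, norm_port (c.win i).1, mul_assoc]
    have := (c.win i).2.1
    have := c.ls.hr
    gcongr
    exact a3.trans (Real.exp_le_exp.2 (by linarith)))
  refine ⟨a3, ?_, fun ha => not_lt.1 fun b => ?_⟩
  · obtain ⟨Eg, u, y0, -, -, b1, -, b2, -⟩ := d.pw
    obtain ⟨A, lg, -, b3⟩ := d.dir
    have b4 : ‖ech l y.1 - p i‖ ≤ pr i * Real.exp (2 * t') := a1.trans (by gcongr; linarith [d.t0.2])
    rw [Vc, a2, b2 _ (mem_closedBall_iff_norm.2 b4) a4, mul_assoc,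
      show lam _ * chW mu p _ = _ from (b3 _ a8).2 a4] at v0 ⊢
    exact arg_class (fun k => (b1 k).2.2.2.1 _ ((Real.log_le_iff_le_exp (div_pos a5 a6)).2 (by
      rw [div_le_iff₀' a6]; exact b4))) (fun k => ((b1 k).2.1 _ a8).1)
      ((norm_nonneg _).trans ((b1 true).2.1 _ a8).1) ho c.num.2.2.2 (b3 _ a8).1
      (left_ne_zero_of_mul v0)
  · obtain ⟨y0, b1, b2⟩ := PortW.zero d.pw a6 d.t0.2
    refine left_ne_zero_of_mul v0 (a2.trans (b2 _ ?_))
    rw [b1 ha, Real.exp_zero, mul_one, c.dist]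
    refine le_trans ?_ (d.low a6)
    have b3 : Real.exp (-δ i) * pc (x i) (δ i) 0 y.1 ≤ 1 * Real.exp (-L - 1 / 2) :=
      mul_le_mul (Real.exp_le_one_iff.2 (by linarith [(c.win i).2.1]))
        (b.le.trans (Real.exp_le_exp.2 (by linarith))) (by unfold pc; have := (c.win i).2.1; positivity)
        zero_le_one
    nlinarith

theorem pnear (d : PT K l.w N lam (chW mu p) (p i) l.r (δ i) (pr i) L o t t' R act) :
    ∀ᶠ z in 𝓝 (wch (x i) (δ i) 0 Complex.I), ∀ y ∈ ov (Xc X l a R) (AN h h),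
      y ∈ bc (ech l) ⁻¹' K → y.1 = z → nu l y = 0 := by
  rcases le_or_gt (pr i) 0 with h0 | h0
  · obtain ⟨_, _, _, -, -, -, b, -⟩ := d.pw
    filter_upwards [c.ev_pc i (by norm_num : (0 : ℝ) < 1 / 10)] with z hz y hy k e
    obtain ⟨a1, a2⟩ := c.own d.t0.1 hy.1 k (e ▸ hz.le)
    rw [a2, sub_eq_zero.1 (norm_le_zero_iff.1
      (a1.trans (mul_nonpos_of_nonpos_of_nonneg h0 (Real.exp_pos _).le))), b]
  obtain ⟨y0, -, b⟩ := PortW.zero d.pw h0 d.t0.2
  filter_upwards [(ech_der c.ls.hr (wch_ne (ne0 (c.win i).1) _)).1.continuousAt.eventually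
    ((c.hp i).1 ▸ closedBall_mem_nhds (p i) (mul_pos h0 (Real.exp_pos y0)))] with z hz y hy k e
  rw [(c.k1' hy k).2, e, b _ ((c.hp i).1 ▸ mem_closedBall_iff_norm.1 hz)]

end RC

/-- micro ports -/
theorem ports (hP : St_PPHW) : ∃ o > (0 : ℝ), ∀ {W : Type} [Fintype W] {l : End} {X K : Set E}
    {mu N f : ℂ → ℂ} {p x : W → ℂ} {δ pr ρ s : W → ℝ} {L M8 τ a R h t t' : ℝ} {hub : Prop}
    {bir : W → Prop}, RC X K l mu N f p x δ pr ρ s L M8 τ a R h t t' hub bir →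
    ∀ {i : W} {lam : ℂ → ℂ} {o' : ℝ} {act : Prop},
    PT K l.w N lam (chW mu p) (p i) l.r (δ i) (pr i) L o' t t' R act → t' ≤ o → o' ≤ o →
    (act → PortB (Xc X l a R \ bc (ech l) ⁻¹' K) (fun y => ‖Vc l (chW mu p) y‖)
      (wch (x i) (δ i) 0 Complex.I) (prad (x i) (δ i) 0 L) 0 1000) ∧
    PortZ (Xc X l a R \ bc (ech l) ⁻¹' K) (Vc l (chW mu p)) (wch (x i) (δ i) 0 Complex.I)
      (prad (x i) (δ i) 0 L) := by
  classical
  obtain ⟨ι1, i1, H1⟩ := port_b (4 * 1 * Real.exp (2 * 1))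
  obtain ⟨ι2, i2, H2⟩ := port_z (1 / 2) (4 * 1 * Real.exp (2 * 1)) (by norm_num) le_rfl
  obtain ⟨o1, p1, P1⟩ := hP ι1 i1
  obtain ⟨o2, p2, P2⟩ := hP ι2 i2
  refine ⟨min o1 o2, lt_min p1 p2, ?_⟩
  intro W _ l X K mu N f p x δ pr ρ s L M8 τ a R h t t' hub bir c i lam o' act d t1 q1
  rw [le_min_iff] at t1 q1
  obtain ⟨hx, d0, -, w1, -⟩ := c.win i
  have hL := c.num.2.2.2
  have r0 := prad_pos (yr := 0) (ne0 hx) d0 L
  have r1 := mul_pos c.ls.hr r0
  set q := wch (x i) (δ i) 0 Complex.I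
  set r := prad (x i) (δ i) 0 L with hr
  have pcs : ∀ z : ℂ, ‖z‖ ≤ 1 → pc (x i) (δ i) 0 (af q r z) ≤ 1 / 10 := fun z hz =>
    (pc_pch (ne0 hx) d0 L z).trans_le ((mul_le_of_le_one_right (Real.exp_pos _).le hz).trans
      ((Real.exp_le_exp.2 (by linarith)).trans (exp_small hL)))
  have sb : closedBall q r ⊆ AN h h := fun z hz => by
    obtain ⟨v, e⟩ := af_surj q r0 (z, 0)
    have e1 : af q r v.1 = z := congrArg Prod.fst e
    rw [← e1, mem_closedBall_iff_norm, af_norm r0] at hz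
    exact e1 ▸ c.ball i (mem_closedBall_iff_norm.2 ((c.geo (pcs _ (by nlinarith))).1.le.trans w1))
  have np := c.ls.np.mono isClosed_closedBall sb
  rcases le_or_gt (pr i) 0 with n0 | n0
  · have k : ∀ b : ℝ, 0 ≤ b → (∀ y ∈ Xc X l a R \ bc (ech l) ⁻¹' K, ‖y.1 - q‖ = r →
        ‖Vc l (chW mu p) y‖ ≤ b) → ∀ y ∈ Xc X l a R \ bc (ech l) ⁻¹' K, ‖y.1 - q‖ ≤ r →
        ‖Vc l (chW mu p) y‖ ≤ b := fun b b0 b1 y hy b2 =>
      disc_max np (c.ls.an.mono (ov_mono sb)) b0 (fun v hv k => by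
        obtain ⟨u, rfl⟩ := af_surj q r0 v
        have b3 : ‖af q r u.1 - q‖ ≤ r := mem_closedBall_iff_norm.1 hv.2
        rw [af_norm r0] at b3
        have b4 : ech l (af q r u.1) = p i := sub_eq_zero.1 (norm_le_zero_iff.1
          ((c.own d.t0.1 hv.1 k (pcs _ (by nlinarith))).1.trans
            (mul_nonpos_of_nonpos_of_nonneg n0 (Real.exp_pos _).le)))
        rw [Vc, show ech l (bc (af q r) u).1 = p i from b4, chW,
          Finset.prod_eq_zero (Finset.mem_univ i) (sub_self _), mul_zero, mul_zero, norm_zero]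
        exact b0) (fun v hv k => b1 v ⟨hv, k⟩) y ⟨hy.1, mem_closedBall_iff_norm.2 b2⟩
    exact ⟨fun _ b b0 b1 y hy b2 => (k b b0 b1 y hy b2).trans (by linarith), fun b y hy b2 =>
      norm_le_zero_iff.1 (k 0 le_rfl (fun v hv e => (b v hv e).symm ▸ norm_zero.le) y hy b2)⟩
  obtain ⟨A, lg, g1, g2⟩ := d.dir
  have ea : ∀ z, ech l (af q r z) = af (p i) (l.r * r) z := fun z => by
    rw [af, af, ← (c.hp i).1, ← sub_eq_iff_eq_add', ech_sub (c.out i).2]
    push_cast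
    ring
  have eb : ∀ Y : Set E, bc (af q r) ⁻¹' (bc (ech l) ⁻¹' Y) = bc (af (p i) (l.r * r)) ⁻¹' Y :=
    fun Y => Set.ext fun v => by simp only [mem_preimage, bc, ea]
  have mD : ∀ z ∈ closedBall (0 : ℂ) 1, ech l (af q r z) ∈
      closedBall (p i) (l.r * δ i * Real.exp (6 - L)) := fun z hz => c.radD i (by
    rw [ea, mem_closedBall_iff_norm, af_norm r1]
    exact mul_le_of_le_one_right r1.le (mem_closedBall_zero_iff.1 hz))
  have mA : ∀ y ∈ ov (bc (af q r) ⁻¹' Xc X l a R) (closedBall 0 1),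
      bc (af q r) y ∈ ov (Xc X l a R) (AN h h) := fun y hy => ⟨hy.1, sb (by
    change af q r y.1 ∈ _
    rw [mem_closedBall_iff_norm, af_norm r0]
    exact mul_le_of_le_one_right r0.le (mem_closedBall_zero_iff.1 hy.2))⟩
  set N' : E → ℂ := fun y => nu l (bc (af q r) y) * (r * (l.r * (mu (ech l (af q r y.1)) *
    ∏ k ∈ Finset.univ.erase i, (ech l (af q r y.1) - p k)))) *
    Complex.exp (-(A + Real.pi / 4 * Complex.I + lg (ech l (af q r y.1)))) with hN'
  have e1 : ∀ y : E, y.1 * N' y = Vc l (chW mu p) (bc (af q r) y) *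
      Complex.exp (-(A + Real.pi / 4 * Complex.I + lg (ech l (af q r y.1)))) := fun y => by
    rw [hN', Vc, c.fac i]
    simp only [bc, af]
    ring
  have an : AnalyticOnNhd ℂ N' (ov (bc (af q r) ⁻¹' Xc X l a R) (closedBall 0 1)) := fun y hy => by
    have b1 : AnalyticAt ℂ (af q r) y.1 := analyticAt_const.add (analyticAt_const.mul analyticAt_id)
    have b2 := (ech_der c.ls.hr (an_ne (mA y hy).2)).1.comp (f := af q r) b1
    exact (((c.ls.an_nu _ (mA y hy)).comp (an_bc b1)).mul (analyticAt_const.mul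
      (((c.an_fac i (mA y hy)).comp (f := af q r) b1).comp analyticAt_fst))).mul
        (analyticAt_const.add (((g1 _ (mD _ hy.2)).comp (f := ech l ∘ af q r) b2).comp
          analyticAt_fst)).neg.cexp
  have u1 : pr i ≤ l.r * r * Real.exp (-2) := by
    rw [hr, c.rad, mul_assoc, ← Real.exp_add]
    exact (c.hp i).2.trans (mul_le_mul_of_nonneg_left (Real.exp_le_exp.2 (by
      linarith [(c.d1 i).1])) (by linarith [mul_pos c.ls.hr d0]))
  have u2 : l.r * r ≤ Real.exp 5 * pr i := by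
    refine le_trans ?_ (mul_le_mul_of_nonneg_left (d.low n0) (Real.exp_pos _).le)
    rw [hr, c.rad, mul_left_comm, ← Real.exp_add]
    exact mul_le_mul_of_nonneg_left (Real.exp_le_exp.2 (by linarith))
      (by linarith [mul_pos c.ls.hr d0])
  have u3 : ∀ y ∈ ov (near (cut X l a) l.w R) (closedBall (p i) (l.r * r)), ‖y.2 - l.w y.1‖ ≤ R ∧
      (y ∈ K → y.1 ∈ closedBall (p i) (pr i * Real.exp t') ∧ y.2 = l.w y.1 + N y.1) := by
    intro y hy
    obtain ⟨v, rfl⟩ := af_surj (p i) r1 y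
    have b1 : ‖af (p i) (l.r * r) v.1 - p i‖ ≤ _ := mem_closedBall_iff_norm.1 hy.2
    rw [af_norm r1] at b1
    refine ⟨hy.1.2, fun k => ?_⟩
    have := c.own (y := bc (af q r) v) d.t0.1 ((eb (near (cut X l a) l.w R)).ge hy.1) ((eb K).ge k)
      (pcs _ (by nlinarith))
    simp only [nu, bc, ea] at this
    exact ⟨mem_closedBall_iff_norm.2 this.1, sub_eq_iff_eq_add'.1 this.2⟩
  have u4 : ∀ y ∈ ov (bc (af (p i) (l.r * r)) ⁻¹' near (cut X l a) l.w R) (closedBall 0 1),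
      y.1 ≠ 0 → y.1 * N' y * lam (af (p i) (l.r * r) y.1) =
        y.2 - l.w (af (p i) (l.r * r) y.1) := fun y hy b => by
    have b1 := (g2 _ (mD _ hy.2)).2 (fun e => b (norm_eq_zero.1 (by
      have := af_norm (p := p i) r1 y.1
      rw [← ea, e, sub_self, norm_zero] at this
      exact (mul_eq_zero.1 this.symm).resolve_left r1.ne')))
    rw [e1, ← ea, Complex.exp_neg, ← b1, Vc]
    have b2 := b1 ▸ Complex.exp_ne_zero _
    have b3 := left_ne_zero_of_mul b2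
    have b4 := right_ne_zero_of_mul b2
    simp only [nu, bc]
    field_simp
  obtain ⟨M1, m1, m2⟩ := P1 _ K _ _ _ N' _ _ _ _ _ _ (1 / 2) _ _ n0 u1 d.t0.2 t1.1 q1.1 (by norm_num)
    le_rfl c.ls.hR.1 (c.radD i) d.pw u3 d.k3 u4
  obtain ⟨M2, m3, m4⟩ := P2 _ K _ _ _ N' _ _ _ _ _ _ (1 / 2) _ _ n0 u1 d.t0.2 t1.2 q1.2 (by norm_num)
    le_rfl c.ls.hR.1 (c.radD i) d.pw u3 d.k3 u4
  rw [← eb] at m2 m4
  rw [← eb, ← eb] at m1 m3
  refine ⟨fun ha => ?_, H2 _ _ _ N' q r M2 r0 np an m3 fun y hy _ => ⟨?_, (m4 y hy).2 u2⟩⟩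
  · have := H1 _ _ (Vc l (chW mu p)) N' q r (Real.exp (-A))⁻¹ 0 M1 r0 (by positivity) le_rfl np an
      (by rwa [zero_pow two_ne_zero]) fun y hy => ?_
    · rwa [mul_zero] at this
    have b1 := abs_le.1 ((Complex.abs_re_le_norm _).trans ((g2 _ (mD _ hy.2)).1.le.trans
      (one_div_le_one_div_of_le (by norm_num : (0 : ℝ) < 2) (by linarith))))
    have b2 : ‖y.1 * N' y‖ = ‖Vc l (chW mu p) (bc (af q r) y)‖ * (Real.exp (-A) *
        Real.exp (-(lg (ech l (af q r y.1))).re)) := by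
      rw [e1, norm_mul, Complex.norm_exp, ← Real.exp_add]
      congr 2
      simp [add_comm]
    have b3 := Real.add_one_le_exp (-(lg (ech l (af q r y.1))).re)
    have b4 : Real.exp (-(lg (ech l (af q r y.1))).re) ≤ 2 :=
      (Real.le_log_iff_exp_le two_pos).1 (by linarith [Real.log_two_gt_d9])
    have b5 := norm_nonneg (Vc l (chW mu p) (bc (af q r) y))
    have b6 : (Real.exp (-A))⁻¹ * ‖y.1 * N' y‖ = ‖Vc l (chW mu p) (bc (af q r) y)‖ *
        Real.exp (-(lg (ech l (af q r y.1))).re) := by rw [b2]; field_simp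
    refine ⟨by rw [mul_assoc, b6]; nlinarith, by rw [b6]; nlinarith, fun _ => (m2 y hy).2 u2,
      fun k b => ?_⟩
    obtain ⟨y0, c1, c2⟩ := PortW.zero d.pw n0 d.t0.2
    rw [e1, Vc, (c.k1' (mA y hy) k).2, c2, zero_mul, zero_mul, norm_zero]
    change ‖ech l (af q r y.1) - _‖ ≤ _
    rw [c1 ha, Real.exp_zero, mul_one, ea, af_norm r1]
    refine (mul_le_mul u2 b (norm_nonneg _) (by positivity)).trans ?_
    rw [mul_right_comm, ← Real.exp_add]
    exact mul_le_of_le_one_left n0.le (Real.exp_le_one_iff.2 (by norm_num))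
  · rw [e1, mul_eq_zero, or_iff_left (Complex.exp_ne_zero _)]

end Pool.Agent.S6.ENDS
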