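import Pool.Agent.Lib.S6.Blue
import Pool.Agent.Lib.SH.Ring4

/-!
Sub-statements of the end lemma: ports.
-/

open Set Filter Topology Metric

noncomputable section

namespace Pool.Agent.S6

open Pool.Agent.CF (End Kind)
open Pool.Agent.Lib
open Pool.Agent.Lib.SH (bc ov)
open Pool.Agent.Lib.SH.Ring (af)

/-- port hypotheses from the description of the wall at a port -/
def St_PPHW : Prop := ∀ ι : ℝ, 0 < ι → ∃ o > (0 : ℝ), ∀ (X K : Set E) (w Nw lam : ℂ → ℂ)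
  (N : E → ℂ) (p : ℂ) (D : Set ℂ) (rad ρ t R γ o' : ℝ) (act : Prop), 0 < ρ →
  ρ ≤ rad * Real.exp (-2) → 0 < t → t ≤ o → o' ≤ o → 0 < γ → γ ≤ 1 / 2 → 0 < R →
  closedBall p rad ⊆ D → PortW Nw lam p ρ D o' t R act →
  (∀ y ∈ ov X (closedBall p rad), ‖y.2 - w y.1‖ ≤ R ∧
    (y ∈ K → y.1 ∈ closedBall p (ρ * Real.exp t) ∧ y.2 = w y.1 + Nw y.1)) →
  (∀ z ∈ closedBall p (ρ * Real.exp (2 * t)), (z, w z + Nw z) ∈ K) →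
  (∀ y ∈ ov (bc (af p rad) ⁻¹' X) (closedBall 0 1), y.1 ≠ 0 →
    y.1 * N y * lam (af p rad y.1) = y.2 - w (af p rad y.1)) →
  ∃ Mup : ℝ, SH.PPH2 (bc (af p rad) ⁻¹' X) (bc (af p rad) ⁻¹' K) N 0 γ ι (4 * 1 * Real.exp (2 * 1))
      0 Mup ∧
    ∀ y ∈ ov (bc (af p rad) ⁻¹' X) (closedBall 0 1), ‖y.1 * N y‖ ^ 2 * ‖y.1‖ ^ γ ≤ Mup ∧
      (rad ≤ Real.exp 5 * ρ → ‖y.1 * N y‖ ^ 2 ≤ Mup)

/-- the end lemma at a macro port -/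
def St_ENDSP : Prop := ∀ η : ℝ, 0 < η → η ≤ 1 → ∃ o > (0 : ℝ), ∀ (J : Type) (sp : Sp J) (j : J)
  (lam : ℂ → ℂ) (X K : Set E) (ρ τ Λw o' : ℝ), o' ≤ o → Std X K → (sp.l j).k = Kind.pt →
  AnalyticOnNhd ℂ (sp.l j).w (closedBall (sp.l j).c sp.r1) →
  Pole lam (sp.l j).c (closedBall (sp.l j).c sp.r1) →
  (∀ z ∈ closedBall (sp.l j).c sp.r1, sp.om j z ≠ 0) →
  LW (sp.l j) sp.h sp.r1 (fun z => Real.log ‖sp.om j z * lam z‖) 1 Λw → 2 * Λw ≤ sp.Cu →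
  1 + η ≤ sp.κ j → ρ < sp.r2 → 0 < sp.r2 → sp.r2 ≤ sp.r1 / 8 → PDesc sp j lam ρ X K τ o' →
  sp.End1 (X \ K) τ j

end Pool.Agent.S6
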