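import Pool.Agent.Lib.S6.Final
import Pool.Agent.Lib.S6.B_SPLIT
import Pool.Agent.Lib.S6.B_CTX2
import Pool.Agent.Lib.S6.B_SITE
import Pool.Agent.Lib.S6.B_RING
import Pool.Agent.Lib.S6.B_RNG
import Pool.Agent.Lib.S6.B_PEND7
import Pool.Agent.Lib.S6.B_VCM
import Pool.Agent.Lib.S6.B_STR
import Pool.Agent.Lib.S6.B_SITK
import Pool.Agent.Lib.S6.B_LOWR
import Pool.Agent.Lib.S6.B_GEOB
import Pool.Agent.Lib.S6.B_KDS
import Pool.Agent.Lib.S6.B_DESC
import Pool.Agent.Lib.S6.B_CHB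
import Pool.Agent.Lib.S6.B_ZRD
import Pool.Agent.Lib.S6.B_AWD
import Pool.Agent.Lib.S6.B_NWD
import Pool.Agent.Lib.S6.B_NWIN
import Pool.Agent.Lib.S6.B_W3P
import Pool.Agent.Lib.S6.B_W3LU
import Pool.Agent.Lib.S6.B_PSD
import Pool.Agent.Lib.S6.B_SPW
import Pool.Agent.Lib.S6.B_BQ

/-!
Assembly of the project 9ccfb7 from the last two local lemmas.
-/

namespace Pool.Agent.S6

theorem site_of (hL : St_LOC) (hH : St_LOWH) : St_SITE :=
  st_site (st_ring st_chb (st_awd st_spw) (st_nwd (st_nwin st_spw (st_psd st_spw)) (st_psd st_spw))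
    (st_w3p (st_w3lu st_spw st_bq)) st_rng st_zrd) (st_pend7 (st_psd st_spw)) st_vcm
    (st_str st_fam) (st_sitk hL) st_lowr hH st_geob st_kds st_desc

theorem split_of (hL : St_LOC) (hH : St_LOWH) : St_SPLIT4 :=
  st_split4 (site_of hL hH) st_certb (st_serve st_ends)

theorem main_of2 (hL : St_LOC) (hH : St_LOWH) : St_MAIN := main_of st_ctx2 (split_of hL hH)

end Pool.Agent.S6
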