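import Pool.Agent.Lib.S6.Site4
import Pool.Agent.Lib.S6.Hp

/-!
Section 6 of the project 9ccfb7: the inverse of the secant on the zones of the ends.
-/

open Set Filter Topology Metric

noncomputable section

namespace Pool.Agent.S6

open Pool.Agent.CF (End Kind IsCurve Geo Cv IsPoly dw)

namespace GeoP

/-- analytic and nonzero at a point -/
def AN (f : ℂ → ℂ) (z : ℂ) : Prop := AnalyticAt ℂ f z ∧ f z ≠ 0

theorem AN.mul {f g : ℂ → ℂ} {z : ℂ} (a : AN f z) (b : AN g z) : AN (fun v => f v * g v) z :=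
  ⟨a.1.mul b.1, mul_ne_zero a.2 b.2⟩

theorem AN.div {f g : ℂ → ℂ} {z : ℂ} (a : AN f z) (b : AN g z) : AN (fun v => f v / g v) z :=
  ⟨a.1.div b.1 b.2, div_ne_zero a.2 b.2⟩

theorem AN.prod {ι : Type} (s : Finset ι) {f : ι → ℂ → ℂ} {z : ℂ} (h : ∀ i ∈ s, AN (f i) z) :
    AN (fun v => ∏ i ∈ s, f i v) z :=
  ⟨Finset.analyticAt_fun_prod _ fun i hi => (h i hi).1,
    Finset.prod_ne_zero_iff.2 fun i hi => (h i hi).2⟩

theorem AN.lin {z p : ℂ} (h : z ≠ p) : AN (fun v => v - p) z :=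
  ⟨analyticAt_id.sub analyticAt_const, sub_ne_zero.2 h⟩

theorem AN.const {b : ℂ} (h : b ≠ 0) (z : ℂ) : AN (fun _ => b) z := ⟨analyticAt_const, h⟩

theorem AN.res {P : E → ℂ} (hP : IsPoly P) {w : ℂ → ℂ} {z : ℂ} (hw : AnalyticAt ℂ w z)
    (h : P (z, w z) ≠ 0) : AN (fun v => P (v, w v)) z :=
  ⟨(hP.analyticAt _).fun_comp_of_eq (analyticAt_id.prod hw) rfl, h⟩

/-- the constant of the numerator -/
def a0 (C : Cv) {π : Type} [Fintype π] (x : π → ℂ) (δ : ℝ) : ℂ :=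
  ∏ k, -((starRingEnd ℂ) (x k * Complex.exp (-(Real.sqrt 2 * δ) - δ * Complex.I)) / C.R)

theorem a0_ne {C : Cv} {π : Type} [Fintype π] {x : π → ℂ} (hr : 0 < C.R) (hx : ∀ k, ‖x k‖ = 1)
    (δ : ℝ) : a0 C x δ ≠ 0 :=
  Finset.prod_ne_zero_iff.2 fun k _ => neg_ne_zero.2 (div_ne_zero ((map_ne_zero _).2
    (mul_ne_zero (norm_pos_iff.1 (by rw [hx k]; norm_num)) (Complex.exp_ne_zero _)))
    (Complex.ofReal_ne_zero.2 hr.ne'))

/-- the part of the inverse secant which does not see the ports and the windows -/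
def bs (C K : Cv) (a b : ℂ) (q G : E → ℂ) (w : ℂ → ℂ) (v : ℂ) : ℂ :=
  G (v, w v) * K.P (v, w v) * dw C.P (v, w v) / (b * ((v - a) * q (v, w v)))

theorem inv_sec (C K : Cv) {π : Type} [Fintype π] (a : ℂ) (q G : E → ℂ) (x : π → ℂ) (δ : ℝ)
    (l : End) (v : ℂ) : (C.sec K (gS C G x δ) (qS C a q x δ) l v)⁻¹ =
      bs C K a (a0 C x δ) q G l.w v *
        (∏ i ∈ Finset.univ.filter fun i => (C.e i).k = Kind.pt, (v - (C.e i).c)) *
        (∏ k, (v - hp C (x k) δ 0)) / ((∏ k, (v - hp C (x k) (Real.sqrt 2 * δ) (-δ))) *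
          ∏ k, ((v - hp C (x k) (-(Real.sqrt 2 * δ)) (-δ)) * (v - hp C (x k) (-δ) 0))) := by
  have alg : ∀ g A B k d b n Q : ℂ, (b * n * Q / (g * A * B * k * d))⁻¹ =
      g * k * d / (b * n) * A * B / Q := fun g A B k d b n Q => by rw [inv_div]; ring
  rw [← Finset.prod_mul_distrib]
  simp only [← mul_assoc]
  exact alg _ _ _ _ _ _ _ _

variable {C K : Cv} {Nd : Finset E} {TC TK : ℤ} {D : ℕ} {a : ℂ} {Z : Finset E} {q G : E → ℂ}
  {π π' : Type} [Fintype π] {x : π → ℂ} {x' : π' → ℂ} {sp : Sp C.ι} {Sig : Finset ℂ}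

theorem unit (h : Pre0 C K Nd TC TK D a Z q G x x' sp Sig) (k : π) : ‖x k‖ = 1 :=
  (h.pos.2 (Sum.inl k)).1

theorem bs_an (h : Pre0 C K Nd TC TK D a Z q G x x' sp Sig) (δ : ℝ) (j : C.ι) {z : ℂ}
    (hz : z ∈ (C.e j).near sp.h sp.r1) : AN (bs C K a (a0 C x δ) q G (C.e j).w) z := by
  have g : Geo C.P C.Γ C.e Sig sp.r1 sp.h := h.l ▸ h.geom.geo
  have hz2 : z ∈ (C.e j).near (2 * sp.h) (2 * sp.r1) :=
    (C.e j).near_mono (by linarith [g.hpos]) (by linarith [g.r1pos]) hz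
  have hw := g.wan j z hz2
  obtain ⟨c1, c2, c3, c4, -⟩ := h.clear j z hz
  exact (((AN.res h.sec.poly.2 hw c2).mul (AN.res h.alg.hK.curve.poly hw c1)).mul
    (AN.res h.alg.hC.curve.poly.dw hw (g.wz j z hz2).2)).div
    ((AN.const (a0_ne (HP.R_pos h.alg.hC) (unit h) δ) z).mul
      ((AN.lin c4).mul (AN.res h.sec.poly.1 hw c3)))

/-- the zones of the other ends stay away from the windows -/
theorem away (h : Pre0 C K Nd TC TK D a Z q G x x' sp Sig) :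
    ∀ᶠ δ in 𝓝[>] (0 : ℝ), ∀ j, j ≠ C.H → ∀ k, ∀ z ∈ (C.e j).near sp.h sp.r1,
      5 * C.R * δ < ‖z - (C.c + C.R * x k)‖ := by
  have hr := HP.R_pos h.alg.hC
  refine eventually_all.2 fun j => ?_
  by_cases e : j = C.H
  · exact Eventually.of_forall fun _ b => absurd e b
  have key : ∀ k, ∀ᶠ δ in 𝓝[>] (0 : ℝ), ∀ z ∈ (C.e j).near sp.h sp.r1,
      5 * C.R * δ < ‖z - (C.c + C.R * x k)‖ := fun k => by
    have hc := (End.isCompact_near (h.alg.hC.curve.ok j) sp.h sp.r1).isClosed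
    obtain ⟨ε, h0, h1⟩ := Metric.isOpen_iff.1 hc.isOpen_compl (C.c + C.R * x k)
      fun hz => (h.clear j _ hz).2.2.2.2.2 e k rfl
    filter_upwards [Ioo_mem_nhdsGT (show 0 < ε / (5 * C.R) by positivity)] with δ hδ z hz
    have h2 := (lt_div_iff₀ (by positivity)).1 hδ.2
    have h3 : ε ≤ ‖z - (C.c + C.R * x k)‖ := not_lt.1 fun b => h1 (mem_ball_iff_norm.2 b) hz
    linarith
  filter_upwards [eventually_all.2 key] with δ b _ using b

end GeoP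

open GeoP in
theorem GEOB.poles {C K : Cv} {Nd : Finset E} {TC TK : ℤ} {D : ℕ} {a : ℂ} {Z : Finset E}
    {q G : E → ℂ} {π π' : Type} [Fintype π] {x : π → ℂ} {x' : π' → ℂ} {sp : Sp C.ι}
    {Sig : Finset ℂ} (h : Pre0 C K Nd TC TK D a Z q G x x' sp Sig) :
    ∀ᶠ δ in 𝓝[>] (0 : ℝ), ∀ t : ℝ, 0 < t → t < δ → t ≤ sp.h →
      (∀ j, (C.e j).k = Kind.pt → ∃ m : ℂ → ℂ, ∀ z ∈ closedBall (C.e j).c sp.r1,
        AnalyticAt ℂ m z ∧ m z ≠ 0 ∧ ∀ᶠ v in 𝓝 z,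
          (C.sec K (gS C G x δ) (qS C a q x δ) (C.e j) v)⁻¹ = (v - (C.e j).c) * m v) ∧
      (∀ j, (C.e j).k ≠ Kind.pt → j ≠ C.H → ∃ m : ℂ → ℂ, ∀ z ∈ (C.e j).ann (Icc (-t) sp.h),
        AnalyticAt ℂ m z ∧ m z ≠ 0 ∧ ∀ᶠ v in 𝓝 z,
          (C.sec K (gS C G x δ) (qS C a q x δ) (C.e j) v)⁻¹ = m v) ∧
      ∃ m : ℂ → ℂ, ∀ z ∈ C.hub.ann (Icc (-t) sp.h), AnalyticAt ℂ m z ∧ m z ≠ 0 ∧ ∀ᶠ v in 𝓝 z,
        (C.sec K (gS C G x δ) (qS C a q x δ) C.hub v)⁻¹ =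
          m v * ∏ k, (v - hq C.hub (x k) δ 0) / (v - hq C.hub (x k) (Real.sqrt 2 * δ) (-δ)) := by
  classical
  have hr := HP.R_pos h.alg.hC
  have hH := HP.hub_loop h.alg.hC
  obtain ⟨s1, s2⟩ := HP.sqrt2
  filter_upwards [away h, Ioc_mem_nhdsGT (show (0 : ℝ) < 1 / 8 by norm_num)] with δ hδ h8 t t0 t1 t2
  have hδ0 := h8.1
  have hsδ : δ < Real.sqrt 2 * δ ∧ Real.sqrt 2 * δ ≤ 3 / 2 * δ := ⟨by nlinarith, by nlinarith⟩
  have miss : ∀ j, j ≠ C.H → ∀ z ∈ (C.e j).near sp.h sp.r1, ∀ k (s u : ℝ), |s| ≤ 3 / 2 * δ →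
      |u| ≤ δ → AN (fun v => v - hp C (x k) s u) z := fun j e z hz k s u hs hu =>
    AN.lin fun b => (hδ j e k z hz).not_ge (b ▸ HP.hp_near hr (unit h k) h8.2 hs hu)
  have b1 : |δ| ≤ 3 / 2 * δ := by rw [abs_of_pos hδ0]; linarith
  have b2 : |-δ| ≤ 3 / 2 * δ := by rw [abs_neg]; exact b1
  have b3 : |Real.sqrt 2 * δ| ≤ 3 / 2 * δ := by rw [abs_of_pos (by linarith)]; exact hsδ.2
  have b4 : |-(Real.sqrt 2 * δ)| ≤ 3 / 2 * δ := by rw [abs_neg]; exact b3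
  have b5 : |(0 : ℝ)| ≤ δ := by rw [abs_zero]; exact hδ0.le
  have b6 : |-δ| ≤ δ := by rw [abs_neg, abs_of_pos hδ0]
  have win : ∀ j, j ≠ C.H → ∀ z ∈ (C.e j).near sp.h sp.r1,
      AN (fun v => ∏ k, (v - hp C (x k) δ 0)) z ∧
      AN (fun v => (∏ k, (v - hp C (x k) (Real.sqrt 2 * δ) (-δ))) *
        ∏ k, ((v - hp C (x k) (-(Real.sqrt 2 * δ)) (-δ)) * (v - hp C (x k) (-δ) 0))) z :=
    fun j e z hz => ⟨AN.prod _ fun k _ => miss j e z hz k _ _ b1 b5,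
      (AN.prod _ fun k _ => miss j e z hz k _ _ b3 b6).mul (AN.prod _ fun k _ =>
        (miss j e z hz k _ _ b4 b6).mul (miss j e z hz k _ _ b2 b5))⟩
  have sub : ∀ j, (C.e j).k ≠ Kind.pt → (C.e j).ann (Icc (-t) sp.h) ⊆ (C.e j).near sp.h sp.r1 :=
    fun j e => by
      rw [End.near_loop e]
      exact End.ann_mono (Icc_subset_Icc (by linarith) le_rfl)
  have ports : ∀ j, (C.e j).k ≠ Kind.pt → ∀ z ∈ (C.e j).near sp.h sp.r1, AN (fun v =>
      ∏ i ∈ Finset.univ.filter fun i => (C.e i).k = Kind.pt, (v - (C.e i).c)) z :=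
    fun j e z hz => AN.prod _ fun i hi => AN.lin ((h.clear j z hz).2.2.2.2.1 i
      (fun b => e (b ▸ (Finset.mem_filter.1 hi).2)) (Finset.mem_filter.1 hi).2)
  refine ⟨fun j e => ?_, fun j e e' => ?_, ?_⟩
  · have e' : j ≠ C.H := fun b => hH (by rw [Cv.hub, ← b]; exact e)
    refine ⟨fun v => bs C K a (a0 C x δ) q G (C.e j).w v *
      (∏ i ∈ (Finset.univ.filter fun i => (C.e i).k = Kind.pt).erase j, (v - (C.e i).c)) *
      (∏ k, (v - hp C (x k) δ 0)) / ((∏ k, (v - hp C (x k) (Real.sqrt 2 * δ) (-δ))) *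
        ∏ k, ((v - hp C (x k) (-(Real.sqrt 2 * δ)) (-δ)) * (v - hp C (x k) (-δ) 0))),
      fun z hz => ?_⟩
    rw [← End.near_pt e sp.h] at hz
    have c := (((bs_an h δ j hz).mul (AN.prod
      ((Finset.univ.filter fun i => (C.e i).k = Kind.pt).erase j) fun i hi =>
        AN.lin ((h.clear j z hz).2.2.2.2.1 i (Finset.ne_of_mem_erase hi)
          (Finset.mem_filter.1 (Finset.mem_of_mem_erase hi)).2))).mul (win j e' z hz).1).div
      (win j e' z hz).2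
    refine ⟨c.1, c.2, Eventually.of_forall fun v => ?_⟩
    rw [inv_sec, ← Finset.mul_prod_erase _ _
      (Finset.mem_filter.2 ⟨Finset.mem_univ j, e⟩ : j ∈ Finset.univ.filter fun i =>
        (C.e i).k = Kind.pt)]
    ring
  · have c := fun z (hz : z ∈ (C.e j).ann (Icc (-t) sp.h)) =>
      (((bs_an h δ j (sub j e hz)).mul (ports j e z (sub j e hz))).mul
        (win j e' z (sub j e hz)).1).div (win j e' z (sub j e hz)).2
    exact ⟨_, fun z hz => ⟨(c z hz).1, (c z hz).2,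
      Eventually.of_forall fun v => inv_sec C K a q G x δ (C.e j) v⟩⟩
  · refine ⟨fun v => bs C K a (a0 C x δ) q G C.hub.w v *
      (∏ i ∈ Finset.univ.filter fun i => (C.e i).k = Kind.pt, (v - (C.e i).c)) /
        ∏ k, ((v - hp C (x k) (-(Real.sqrt 2 * δ)) (-δ)) * (v - hp C (x k) (-δ) 0)),
      fun z hz => ?_⟩
    have hz' := sub C.H hH hz
    have out : ∀ k (s u : ℝ), s < -t → AN (fun v => v - hp C (x k) s u) z := fun k s u hs =>
      AN.lin fun b => by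
        have b' := hz.2.1
        rw [b, HP.dep_hp h.alg.hC.out hr (unit h k)] at b'
        linarith
    have c := ((bs_an h δ C.H hz').mul (ports C.H hH z hz')).div (AN.prod Finset.univ fun k _ =>
      (out k (-(Real.sqrt 2 * δ)) (-δ) (by linarith)).mul (out k (-δ) 0 (by linarith)))
    refine ⟨c.1, c.2, Eventually.of_forall fun v => ?_⟩
    rw [inv_sec, Finset.prod_div_distrib]
    simp only [hp_eq]
    ring

end Pool.Agent.S6
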