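import Pool.Agent.Lib.S6.Hp
import Pool.Agent.Lib.S6.B_PCS
import Pool.Agent.Lib.SH.B_PROF
import Pool.Agent.Lib.INI.Base

/-! Thin walls along a hub or a port. -/

open Set Filter Topology Metric
open scoped ContDiff

noncomputable section

namespace Pool.Agent.S6.INIT

open Pool.Agent.CF (End Kind IsCurve Half Priv Cv Nodal HasWind)
open Pool.Agent.Lib
open Pool.Agent.INI (exists_ext)

section

variable {l : End} {ρ t : ℝ} {lam F : ℂ → ℂ} {G : Set E} {z : ℂ}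

theorem ct_pt (h : l.k = Kind.pt) : ct l ρ = closedBall l.c ρ := if_pos h
theorem ct_loop (h : l.k ≠ Kind.pt) : ct l ρ = l.circ := if_neg h
theorem wl_pt (h : l.k = Kind.pt) : wl l ρ = l.hole ρ := if_pos h
theorem wl_loop (h : l.k ≠ Kind.pt) : wl l ρ = l := if_neg h

theorem zn_pt (h : l.k = Kind.pt) (o : Prop) : zn l ρ o t = closedBall l.c (ρ * Real.exp t) :=
  if_pos h

theorem zn_one (h : l.k ≠ Kind.pt) {o : Prop} (ho : o) : zn l ρ o t = l.ann (Icc 0 t) := by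
  simp [zn, h, ho]

theorem wl_c : (wl l ρ).c = l.c := by unfold wl; split_ifs <;> rfl

theorem ct_cpt : IsCompact (ct l ρ) := by
  unfold ct; split_ifs
  · exact isCompact_closedBall _ _
  · exact End.isCompact_circ _

theorem dep_hole (z : ℂ) : (l.hole ρ).dep z = Real.log (‖z - l.c‖ / ρ) := by
  simp [End.dep, End.sgn, End.hole]

def lo (l : End) (t : ℝ) : ℝ := if l.k = Kind.pt then -1 else l.r * Real.exp (-t)

def hi (l : End) (ρ t : ℝ) : ℝ := if l.k = Kind.pt then ρ * Real.exp t else l.r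

/-- the wall -/
def wf (l : End) (ρ : ℝ) (lam : ℂ → ℂ) (z : ℂ) : ℂ :=
  (expNegInvGlue ((wl l ρ).dep z) : ℂ) * lam z

/-- a hub or a port -/
structure EW (l : End) (ρ : ℝ) (lam : ℂ → ℂ) (G : Set E) : Prop where
  ok : l.ok
  kind : l.k ≠ Kind.pt → l.k = Kind.out
  pos : l.k = Kind.pt → 0 < ρ
  an : ∀ᶠ z in 𝓝ˢ (ct l ρ), AnalyticAt ℂ l.w z ∧ (z ≠ l.c → AnalyticAt ℂ lam z ∧ lam z ≠ 0)
  reg : ∀ z ∈ ct l ρ, (z, l.w z) ∈ G ∧ 1 / 4 < ‖z‖ ∧
    ∀ᶠ y in 𝓝 ((z, l.w z) : E), y ∈ G → y.2 = l.w y.1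

namespace EW

theorem wl_pos (h : EW l ρ lam G) : 0 < (wl l ρ).r := by
  by_cases hk : l.k = Kind.pt
  · rw [wl_pt hk]; exact h.pos hk
  · rw [wl_loop hk]; exact h.ok.pos hk

theorem lt (h : EW l ρ lam G) (ht : 0 < t) : lo l t < hi l ρ t ∧ 0 < hi l ρ t := by
  unfold lo hi
  split_ifs with hk
  · have := mul_pos (h.pos hk) (Real.exp_pos t)
    exact ⟨by linarith, this⟩
  · have := h.ok.pos hk
    exact ⟨mul_lt_of_lt_one_right this (Real.exp_lt_one_iff.2 (by linarith)), this⟩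

theorem dom_eq (h : EW l ρ lam G) (t : ℝ) :
    MP_9ccfb7_an.ann l.c (lo l t) (hi l ρ t) = zn l ρ True t := by
  by_cases hk : l.k = Kind.pt
  · rw [zn_pt hk, lo, hi, if_pos hk, if_pos hk]
    ext z
    exact ⟨fun a => mem_closedBall_iff_norm.2 a.2, fun a =>
      ⟨by linarith [norm_nonneg (z - l.c)], mem_closedBall_iff_norm.1 a⟩⟩
  · rw [zn_one hk trivial, lo, hi, if_neg hk, if_neg hk]
    have hr := h.ok.pos hk
    have h1 : ∀ z, l.dep z = -Real.log (‖z - l.c‖ / l.r) :=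
      fun z => by simp [End.dep, End.sgn, h.kind hk]
    ext z
    constructor
    · rintro ⟨a, b⟩
      have h2 : 0 < ‖z - l.c‖ := lt_of_lt_of_le (by positivity) a
      refine ⟨sub_ne_zero.1 (norm_pos_iff.1 h2), ?_, ?_⟩ <;> rw [h1]
      · exact neg_nonneg.2 (Real.log_nonpos (by positivity) ((div_le_one hr).2 b))
      · rw [neg_le, Real.le_log_iff_exp_le (by positivity), le_div_iff₀ hr]; linarith
    · rintro ⟨a, b, c⟩
      have h2 : 0 < ‖z - l.c‖ := norm_pos_iff.2 (sub_ne_zero.2 a)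
      rw [h1] at b c
      rw [neg_le, Real.le_log_iff_exp_le (by positivity), le_div_iff₀ hr] at c
      rw [neg_nonneg, Real.log_nonpos_iff (by positivity), div_le_one hr] at b
      exact ⟨by linarith, b⟩

theorem zn_mono (h : EW l ρ lam G) {t' : ℝ} (ht : t ≤ t') : zn l ρ True t ⊆ zn l ρ True t' := by
  by_cases hk : l.k = Kind.pt
  · rw [zn_pt hk, zn_pt hk]
    exact closedBall_subset_closedBall
      (mul_le_mul_of_nonneg_left (Real.exp_le_exp.2 ht) (h.pos hk).le)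
  · rw [zn_one hk trivial, zn_one hk trivial]
    exact End.ann_mono (Icc_subset_Icc_right ht)

theorem shrink (h : EW l ρ lam G) {N : Set ℂ} (hN : N ∈ 𝓝ˢ (ct l ρ)) :
    ∀ᶠ t in 𝓝[>] (0 : ℝ), zn l ρ True t ⊆ N := by
  by_cases hk : l.k = Kind.pt
  · obtain ⟨U, a, b, c⟩ := mem_nhdsSet_iff_exists.1 hN
    obtain ⟨δ, e, f⟩ := ct_cpt.exists_cthickening_subset_open a b
    rw [ct_pt hk, cthickening_closedBall e.le (h.pos hk).le] at f
    have h1 : ContinuousAt (fun t : ℝ => ρ * Real.exp t) 0 := by fun_prop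
    filter_upwards [nhdsWithin_le_nhds (h1.eventually (gt_mem_nhds
      (show ρ * Real.exp 0 < δ + ρ by simpa using e)))] with t ht
    rw [zn_pt hk]
    exact (closedBall_subset_closedBall ht.le).trans (f.trans c)
  · rw [ct_loop hk] at hN
    obtain ⟨δ, a, b⟩ := End.shrink h.ok hN
    filter_upwards [Ioo_mem_nhdsGT a] with t ht
    have := b t δ ht.2.le le_rfl
    rw [End.near_loop hk] at this
    rw [zn_one hk trivial]
    exact (End.ann_mono (Icc_subset_Icc_left (by linarith [ht.1]))).trans this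

theorem dep_zn (h : EW l ρ lam G) (hz : z ∈ zn l ρ True t) (hc : z ∉ ct l ρ) :
    z ≠ l.c ∧ 0 < (wl l ρ).dep z := by
  by_cases hk : l.k = Kind.pt
  · rw [ct_pt hk, mem_closedBall_iff_norm, not_le] at hc
    have hr := h.pos hk
    rw [wl_pt hk, dep_hole]
    exact ⟨sub_ne_zero.1 (norm_pos_iff.1 (hr.trans hc)), Real.log_pos ((one_lt_div hr).2 hc)⟩
  · rw [zn_one hk trivial] at hz
    rw [ct_loop hk, End.mem_circ (h.ok.pos hk)] at hc
    rw [wl_loop hk]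
    exact ⟨hz.1, lt_of_le_of_ne hz.2.1 fun e => hc ⟨hz.1, e.symm⟩⟩

theorem wf_ct (h : EW l ρ lam G) (hz : z ∈ ct l ρ) : wf l ρ lam z = 0 := by
  rw [wf, expNegInvGlue.zero_of_nonpos]
  · simp
  by_cases hk : l.k = Kind.pt
  · rw [ct_pt hk, mem_closedBall_iff_norm] at hz
    have hr := h.pos hk
    rw [wl_pt hk, dep_hole]
    exact Real.log_nonpos (by positivity) ((div_le_one hr).2 hz)
  · rw [ct_loop hk, End.mem_circ (h.ok.pos hk)] at hz
    rw [wl_loop hk]; exact hz.2.le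

theorem cg_cpt (h : EW l ρ lam G) : IsCompact (cg l ρ) :=
  End.isCompact_gr ct_cpt fun z hz => (h.an.self_of_nhdsSet z hz).1.continuousAt.continuousWithinAt

theorem cg_sub (h : EW l ρ lam G) : cg l ρ ⊆ G := fun y hy => by
  have := (h.reg _ hy.1).1
  rwa [← hy.2] at this

/-- the smooth function -/
theorem ext (h : EW l ρ lam G) : ∃ F : ℂ → ℂ, ContDiff ℝ ∞ F ∧
    ∀ᶠ z in 𝓝ˢ (ct l ρ), ∀ᶠ x in 𝓝 z, F x = l.w x + wf l ρ lam x := by
  have h1 : ∀ᶠ z in 𝓝ˢ (ct l ρ), l.k ≠ Kind.pt → z ≠ l.c := by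
    by_cases hk : l.k = Kind.pt
    · exact Eventually.of_forall fun _ c => absurd hk c
    · rw [ct_loop hk]
      filter_upwards [isOpen_ne.mem_nhdsSet.2 fun z (hz : z ∈ l.circ) =>
        ((End.mem_circ (h.ok.pos hk)).1 hz).1] with z a _ using a
  obtain ⟨U, a, b, c⟩ := mem_nhdsSet_iff_exists.1 (h.an.and h1)
  obtain ⟨F, d, e⟩ := exists_ext (N := fun x => l.w x + wf l ρ lam x) a ct_cpt b
    fun z hz => ContDiffAt.contDiffWithinAt (by
      obtain ⟨⟨c1, c2⟩, c4⟩ := c hz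
      refine (c1.contDiffAt.restrict_scalars ℝ).add ?_
      by_cases e : z = l.c
      · have hk : l.k = Kind.pt := by_contra fun k => c4 k e
        refine (contDiffAt_const (c := 0)).congr_of_eventuallyEq ?_
        rw [e]
        filter_upwards [closedBall_mem_nhds l.c (h.pos hk)] with x hx
        exact h.wf_ct (by rwa [ct_pt hk])
      · exact (Complex.ofRealCLM.contDiff.contDiffAt.comp z (expNegInvGlue.contDiff.contDiffAt.comp z
          (SH.CSM.dep_smooth _ h.wl_pos (by rwa [wl_c])))).mul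
          ((c2 e).1.contDiffAt.restrict_scalars ℝ))
  exact ⟨F, d, eventually_nhdsSet_iff_forall.2 fun z hz =>
    (eventually_nhdsSet_iff_forall.1 e z hz).eventually_nhds⟩

theorem near (h : EW l ρ lam G) (hF : ContDiff ℝ ∞ F)
    (hE : ∀ᶠ z in 𝓝ˢ (ct l ρ), ∀ᶠ x in 𝓝 z, F x = l.w x + wf l ρ lam x) {O : Set E}
    (hO : ∀ y ∈ cg l ρ, O ∈ 𝓝 y) : ∀ᶠ t in 𝓝[>] (0 : ℝ), ∀ z ∈ zn l ρ True t, (z, F z) ∈ O := by
  refine h.shrink (N := {z | (z, F z) ∈ O}) (mem_nhdsSet_iff_forall.2 fun z hz => ?_)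
  refine (continuous_id.prodMk hF.continuous).continuousAt.preimage_mem_nhds (hO _ ⟨hz, ?_⟩)
  have := (hE.self_of_nhdsSet z hz).self_of_nhds
  rwa [h.wf_ct hz, add_zero] at this

theorem own (h : EW l ρ lam G) (hF : ContDiff ℝ ∞ F)
    (hE : ∀ᶠ z in 𝓝ˢ (ct l ρ), ∀ᶠ x in 𝓝 z, F x = l.w x + wf l ρ lam x) :
    ∀ᶠ t in 𝓝[>] (0 : ℝ), ∀ z ∈ zn l ρ True t,
      (AnalyticAt ℂ l.w z ∧ (z ≠ l.c → AnalyticAt ℂ lam z ∧ lam z ≠ 0)) ∧
      F z = l.w z + wf l ρ lam z ∧ 1 / 4 ≤ ‖z‖ ∧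
      ((z, F z) ∈ G → (z, F z) ∈ cg l ρ) ∧ ((z, F z) ∉ G → SH.dbar F z ≠ 0) := by
  have h1 := h.near hF hE (O := {y | y ∈ G → y.2 = l.w y.1}) fun y hy => by
    have := (h.reg _ hy.1).2.2
    rwa [← hy.2] at this
  have h2 := h.shrink (N := {z | 1 / 4 < ‖z‖})
    ((isOpen_lt continuous_const continuous_norm).mem_nhdsSet.2 fun z hz => (h.reg z hz).2.1)
  filter_upwards [h1, h2, h.shrink hE, h.shrink h.an] with t a b c d z hz
  have c1 := d hz
  have c2 := c hz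
  have c3 : F z = l.w z + wf l ρ lam z := c2.self_of_nhds
  refine ⟨c1, c3, (b hz).le, fun e => ⟨?_, a z hz e⟩, fun e => ?_⟩
  · by_contra k
    obtain ⟨k1, k2⟩ := h.dep_zn hz k
    have k4 : F z = l.w z := a z hz e
    rw [c3, add_eq_left] at k4
    exact mul_ne_zero (Complex.ofReal_ne_zero.2 (expNegInvGlue.pos_of_pos k2).ne') (c1.2 k1).2 k4
  · have k : z ∉ ct l ρ := fun k => e (by rw [c3, h.wf_ct k, add_zero]; exact (h.reg _ k).1)
    obtain ⟨k1, k2⟩ := h.dep_zn hz k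
    have k4 : z ≠ (wl l ρ).c := by rwa [wl_c]
    refine (SH.CSM.d1 Unit (wl l ρ).dep (fun _ s => (expNegInvGlue s : ℂ))
      (fun _ => ((((wl l ρ).dep z)⁻¹ ^ 2 * expNegInvGlue ((wl l ρ).dep z) : ℝ) : ℂ)) (fun _ => lam)
      F l.w z ((SH.CSM.dep_smooth _ h.wl_pos k4).differentiableAt (by simp))
      (SH.CSM.dep_grad _ h.wl_pos k4) c1.1
      (fun _ => ⟨(SH.PROF.e_deriv _).ofReal_comp, (c1.2 k1).1⟩) ?_ ?_).2
    · filter_upwards [c2] with x hx
      rw [hx, wf]; simp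
    · simpa using ⟨⟨k2.ne', k2⟩, (c1.2 k1).2⟩

end EW

end

/-- a curve whose ends are the hub and ports -/
structure SX (A B : Cv) (pr : A.ι → ℝ) : Prop where
  hp : ∀ j, (A.e j).k ≠ Kind.pt → j = A.H
  port : ∀ j, (A.e j).k = Kind.pt → 0 < pr j ∧ Priv A B (A.e j).c (pr j) (A.e j).w ∧
    ∃ ρ > pr j, Pole (A.lam j) (A.e j).c (closedBall (A.e j).c ρ)
  pdisj : ∀ j k, j ≠ k → (A.e j).k = Kind.pt → (A.e k).k = Kind.pt →
    Disjoint (closedBall (A.e j).c (pr j)) (closedBall (A.e k).c (pr k))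

section

variable {A B : Cv} {pr : A.ι → ℝ} {T : ℤ}

theorem pole_an {f : ℂ → ℂ} {p z : ℂ} {D : Set ℂ} (h : Pole f p D) (hD : D ∈ 𝓝 z) (hz : z ≠ p) :
    AnalyticAt ℂ f z ∧ f z ≠ 0 := by
  obtain ⟨g, a, b⟩ := h
  have c := mem_of_mem_nhds hD
  refine ⟨((a z c).div (analyticAt_id.sub analyticAt_const) (sub_ne_zero.2 hz)).congr ?_, ?_⟩
  · filter_upwards [hD, isOpen_ne.mem_nhds hz] with u d e using ((b u d).2 e).symm
  · rw [(b z c).2 hz]; exact div_ne_zero (b z c).1 (sub_ne_zero.2 hz)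

theorem SX.ew (hX : SX A B pr) (h : Half A B T) (j : A.ι) : EW (A.e j) (pr j) (A.lam j) A.Γ := by
  by_cases hk : (A.e j).k = Kind.pt
  · obtain ⟨a, hp, ρ, b, c⟩ := hX.port j hk
    refine ⟨h.curve.ok j, fun e => absurd hk e, fun _ => a, ?_, fun z hz => ?_⟩
    · rw [ct_pt hk]
      refine eventually_nhdsSet_iff_forall.2 fun z hz => ?_
      filter_upwards [(hp.an z hz).eventually_analyticAt,
        isOpen_ball.mem_nhds (closedBall_subset_ball b hz)] with u d e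
      exact ⟨d, pole_an c (mem_of_superset (isOpen_ball.mem_nhds e) ball_subset_closedBall)⟩
    · rw [ct_pt hk] at hz
      refine ⟨(hp.mem z hz).1, by linarith [hp.norm_gt h.norm_c.2 hz], ?_⟩
      filter_upwards [CF.ift_unique (h.curve.poly.analyticAt _) (hp.an z hz).continuousAt
        (eventually_nhdsSet_iff_forall.1 hp.zero z hz) (hp.mem z hz).2.2] with y d e
      exact d.1 (h.curve.zero y e)
  · obtain rfl := hX.hp j hk
    refine ⟨h.curve.ok _, fun _ => h.out, fun e => absurd e hk, ?_, fun z hz => ?_⟩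
    · rw [ct_loop hk]
      filter_upwards [HP.hub_lam h, eventually_nhdsSet_iff_forall.2 fun z hz =>
        (h.curve.wan A.H z hz).eventually_analyticAt] with z a b using ⟨b, fun _ => a.2⟩
    · rw [ct_loop hk] at hz
      exact ⟨h.curve.mem_of_circ _ hz, h.big _ z hz,
        (h.curve.loc _ z hz).mono fun y a b => (a.1 b).1⟩

theorem SX.zn (hX : SX A B pr) {I : Type} (cp : A.ι → I) (Ef : A.ι → ℝ → ℝ) (t : ℝ) (j : A.ι) :
    Wd.zn A ⟨cp, Ef, pr⟩ t j = zn (A.e j) (pr j) True t := by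
  unfold Wd.zn
  by_cases hk : (A.e j).k = Kind.pt
  · rw [zn_pt hk, zn_pt hk]
  · rw [zn_one hk (hX.hp j hk), zn_one hk trivial]

theorem SX.disj (hX : SX A B pr) {j k : A.ι} (hjk : j ≠ k) :
    Disjoint (cg (A.e j) (pr j)) (cg (A.e k) (pr k)) := by
  have key : ∀ j k, (A.e j).k = Kind.pt → (A.e k).k ≠ Kind.pt →
      Disjoint (cg (A.e j) (pr j)) (cg (A.e k) (pr k)) :=
    fun j k a b => disjoint_left.2 fun y c d => by
      have c1 := c.1
      have d1 := d.1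
      rw [ct_pt a] at c1
      rw [ct_loop b] at d1
      exact ((hX.port j a).2.1.mem _ c1).2.1 ⟨k, b, d1, c.2.symm.trans d.2⟩
  by_cases a : (A.e j).k = Kind.pt <;> by_cases b : (A.e k).k = Kind.pt
  · exact disjoint_left.2 fun y c d => disjoint_left.1 (hX.pdisj j k hjk a b)
      (ct_pt a ▸ c.1) (ct_pt b ▸ d.1)
  · exact key j k a b
  · exact (key k j b a).symm
  · exact absurd ((hX.hp j a).trans (hX.hp k b).symm) hjk

theorem SX.other (hX : SX A B pr) (h : Half A B T)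
    (hn : ∀ y ∈ A.Γ, y ∈ B.Γ → y ∉ CF.ends A.e) (j : A.ι) : Disjoint (cg (A.e j) (pr j)) B.Γ :=
  disjoint_left.2 fun y c d => by
    have c1 := c.1
    by_cases a : (A.e j).k = Kind.pt
    · rw [ct_pt a] at c1; exact (hX.port j a).2.1.none y d c1
    · rw [ct_loop a] at c1; exact hn y ((hX.ew h j).cg_sub c) d ⟨j, c1, c.2⟩

/-- the wall of one side -/
theorem SX.wall (hX : SX A B pr) (h : Half A B T) {I : Type} {cp : A.ι → I}
    (hc : Function.Injective cp) {F : I → ℂ → ℂ} {fx : ℝ → Fix I}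
    (h1 : ∀ t j, (fx t).c (cp j) = (A.e j).c ∧ (fx t).r (cp j) = lo (A.e j) t ∧
      (fx t).R (cp j) = hi (A.e j) (pr j) t) (hF : ∀ i, ContDiff ℝ ∞ (F i))
    (hE : ∀ j, ∀ᶠ z in 𝓝ˢ (ct (A.e j) (pr j)), ∀ᶠ x in 𝓝 z,
      F (cp j) x = (A.e j).w x + wf (A.e j) (pr j) (A.lam j) x)
    (ho : ∀ i, (∀ j, cp j ≠ i) → ∀ᶠ t in 𝓝[>] (0 : ℝ), ∀ z ∈ (fx t).dom i, (z, F i z) ∉ A.Γ)
    [Finite I] : ∀ᶠ t in 𝓝[>] (0 : ℝ),
      SideWall (fx t) F t A B ⟨cp, fun _ => expNegInvGlue, pr⟩ ∧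
      ∀ j, ((fx t).r (cp j) < (fx t).R (cp j) ∧ 0 < (fx t).R (cp j)) ∧ ∀ z ∈ (fx t).dom (cp j),
        1 / 4 ≤ ‖z‖ ∧ ((z, F (cp j) z) ∉ A.Γ → SH.dbar (F (cp j)) z ≠ 0) := by
  have d : ∀ t j, (fx t).dom (cp j) = S6.zn (A.e j) (pr j) True t := fun t j => by
    rw [Fix.dom, (h1 t j).1, (h1 t j).2.1, (h1 t j).2.2, (hX.ew h j).dom_eq]
  have e1 : ∀ j, ∀ᶠ t in 𝓝[>] (0 : ℝ), (A.e j).k = Kind.pt →
      Pole (A.lam j) (A.e j).c (S6.zn (A.e j) (pr j) True t) := fun j => by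
    by_cases hk : (A.e j).k = Kind.pt
    · obtain ⟨-, -, ρ, a, b⟩ := hX.port j hk
      filter_upwards [(hX.ew h j).shrink (N := closedBall (A.e j).c ρ) (mem_of_superset
        (isOpen_ball.mem_nhdsSet.2 (ct_pt hk ▸ closedBall_subset_ball a)) ball_subset_closedBall)]
        with t c _ using HP.Pole.mono b c
    · exact Eventually.of_forall fun _ c => absurd c hk
  have e2 : ∀ i, ∀ᶠ t in 𝓝[>] (0 : ℝ), (∀ j, cp j ≠ i) → ∀ z ∈ (fx t).dom i, (z, F i z) ∉ A.Γ :=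
    fun i => by
      by_cases a : ∀ j, cp j ≠ i
      · exact (ho i a).mono fun _ b _ => b
      · exact Eventually.of_forall fun _ b => absurd b a
  filter_upwards [eventually_all.2 e1, eventually_all.2 e2,
    eventually_all.2 fun j => (hX.ew h j).own (hF _) (hE j), self_mem_nhdsWithin]
    with t c1 c2 c3 (ht : 0 < t)
  have z0 := hX.zn cp (fun _ => expNegInvGlue) t
  have c4 : ∀ j, (A.e j).k ≠ Kind.pt → ∀ z ∈ S6.zn (A.e j) (pr j) True t, z ≠ (A.e j).c :=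
    fun j a z b => by rw [zn_one a trivial] at b; exact b.1
  refine ⟨⟨⟨(h1 t _).1, (h1 t _).2.2.trans (if_neg (HP.hub_loop h))⟩,
    fun j a => ⟨(hX.port j a).1, (hX.port j a).2.1, z0 j ▸ c1 j a⟩,
    fun j a => z0 j ▸ ⟨fun z b => ((c3 j z b).1.2 (c4 j a z b)).1,
      fun z b => ((c3 j z b).1.2 (c4 j a z b)).2⟩,
    fun j => z0 j ▸ fun z b => (c3 j z b).1.1, fun j => (z0 j).le.trans (d t j).ge,
    fun j => ?_, fun j => z0 j ▸ fun z b => (c3 j z b).2.1, fun j k a b => absurd (hc b) a,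
    fun y hy a => ?_⟩, fun j => ⟨?_, fun z b => ⟨(c3 j z (d t j ▸ b)).2.2.1,
      (c3 j z (d t j ▸ b)).2.2.2.2⟩⟩⟩
  · rw [eq_false fun a : (A.e j).k ≠ Kind.pt ∧ j ≠ A.H => a.2 (hX.hp j a.1)]
    exact SH.PROF.pr_e
  · obtain ⟨i, b, c⟩ := PCS.mem_S.1 hy
    have : y = (y.1, F i y.1) := Prod.ext rfl c
    by_cases e : ∀ j, cp j ≠ i
    · exact absurd (this ▸ a) (c2 i e _ b)
    · obtain ⟨j, rfl⟩ : ∃ j, cp j = i := by simpa using e
      exact ⟨j, this ▸ (c3 j y.1 (d t j ▸ b)).2.2.2.1 (this ▸ a)⟩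
  · rw [(h1 t j).2.1, (h1 t j).2.2]; exact (hX.ew h j).lt ht

end

/-- every end has its own component -/
def fxT (C K : Cv) (pC : C.ι → ℝ) (pK : K.ι → ℝ) (t : ℝ) : Fix (C.ι ⊕ K.ι) :=
  ⟨Sum.elim (fun j => (C.e j).c) fun j => (K.e j).c,
    Sum.elim (fun j => lo (C.e j) t) fun j => lo (K.e j) t,
    Sum.elim (fun j => hi (C.e j) (pC j) t) fun j => hi (K.e j) (pK j) t⟩

/-- the thin configuration -/
def cfT (C K : Cv) (Nd : Finset E) (TC TK : ℤ) (D : ℕ) (pC : C.ι → ℝ) (pK : K.ι → ℝ)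
    (F : C.ι ⊕ K.ι → ℂ → ℂ) (t : ℝ) : Conf (C.ι ⊕ K.ι) :=
  ⟨C, K, Nd, TC, TK, D, F, ⟨Sum.inl, fun _ => expNegInvGlue, pC⟩,
    ⟨Sum.inr, fun _ => expNegInvGlue, pK⟩, t, ∅⟩

variable {C K : Cv} {Nd : Finset E} {TC TK : ℤ} {D : ℕ} {pC : C.ι → ℝ} {pK : K.ι → ℝ}

theorem thin (hA : CF.Alg C K Nd TC TK D) (hC : SX C K pC) (hK : SX K C pK) :
    ∃ F : C.ι ⊕ K.ι → ℂ → ℂ, ∀ η > 0, ∀ᶠ t in 𝓝[>] (0 : ℝ), (fxT C K pC pK t).OK ∧
      Pre (fxT C K pC pK t) (cfT C K Nd TC TK D pC pK F t) ∧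
      (fxT C K pC pK t).S F ⊆ thickening η (C.Γ ∪ K.Γ) := by
  have h1 := hA.hC
  have h2 := hA.hK
  choose FC a1 a2 using fun j => (hC.ew h1 j).ext
  choose FK b1 b2 using fun j => (hK.ew h2 j).ext
  refine ⟨Sum.elim FC FK, fun η hη => ?_⟩
  have sm : ∀ i, ContDiff ℝ ∞ (Sum.elim FC FK i) := by
    rintro (j | j)
    · exact a1 j
    · exact b1 j
  have oC := hC.other h1 fun y a b =>
    (hA.nodal.node y (hA.nodal.left y a (h2.curve.zero y b))).2.2.2.2.2.1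
  have oK := hK.other h2 fun y a b =>
    (hA.nodal.node y (hA.nodal.right y a (h1.curve.zero y b))).2.2.2.2.2.2
  set g : C.ι ⊕ K.ι → Set E := Sum.elim (fun j => cg (C.e j) (pC j)) fun j => cg (K.e j) (pK j)
  have nr : ∀ (i : C.ι ⊕ K.ι) (O : Set E), (∀ y ∈ g i, O ∈ 𝓝 y) →
      ∀ᶠ t in 𝓝[>] (0 : ℝ), ∀ z ∈ (fxT C K pC pK t).dom i, (z, Sum.elim FC FK i z) ∈ O := by
    rintro (j | j) O hO
    · filter_upwards [(hC.ew h1 j).near (a1 j) (a2 j) hO] with t a z b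
      exact a z (((hC.ew h1 j).dom_eq t).le b)
    · filter_upwards [(hK.ew h2 j).near (b1 j) (b2 j) hO] with t a z b
      exact a z (((hK.ew h2 j).dom_eq t).le b)
  have cp : ∀ i, IsCompact (g i) := by
    rintro (j | j)
    · exact (hC.ew h1 j).cg_cpt
    · exact (hK.ew h2 j).cg_cpt
  have dj : ∀ i i', i ≠ i' → Disjoint (g i) (g i') := by
    rintro (j | j) (k | k) e
    · exact hC.disj fun a => e (congrArg _ a)
    · exact (oC j).mono_right (hK.ew h2 k).cg_sub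
    · exact (oK j).mono_right (hC.ew h1 k).cg_sub
    · exact hK.disj fun a => e (congrArg _ a)
  have e1 : ∀ i i', ∀ᶠ t in 𝓝[>] (0 : ℝ), i ≠ i' → ∀ z ∈ (fxT C K pC pK t).dom i,
      z ∈ (fxT C K pC pK t).dom i' → Sum.elim FC FK i z ≠ Sum.elim FC FK i' z := fun i i' => by
    by_cases e : i = i'
    · exact Eventually.of_forall fun _ a => absurd e a
    obtain ⟨U, V, u1, u2, u3, u4, u5⟩ :=
      SeparatedNhds.of_isCompact_isCompact (cp i) (cp i') (dj i i' e)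
    filter_upwards [nr i U fun y hy => u1.mem_nhds (u3 hy), nr i' V fun y hy => u2.mem_nhds (u4 hy)]
      with t a b _ z c d f
    exact disjoint_left.1 u5 (a z c) (f ▸ b z d)
  have e2 : ∀ i, ∀ᶠ t in 𝓝[>] (0 : ℝ), ∀ z ∈ (fxT C K pC pK t).dom i,
      (z, Sum.elim FC FK i z) ∈ thickening η (C.Γ ∪ K.Γ) := fun i =>
    nr i _ fun y hy => isOpen_thickening.mem_nhds (self_subset_thickening hη _ (by
      rcases i with j | j
      · exact Or.inl ((hC.ew h1 j).cg_sub hy)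
      · exact Or.inr ((hK.ew h2 j).cg_sub hy)))
  have e3 := hC.wall h1 Sum.inl_injective (F := Sum.elim FC FK) (fx := fxT C K pC pK)
    (fun _ _ => ⟨rfl, rfl, rfl⟩) sm a2 (by
      rintro (j | j) a
      · exact absurd rfl (a j)
      · exact nr (Sum.inr j) C.Γᶜ fun y hy =>
          h1.curve.cpt.isClosed.isOpen_compl.mem_nhds (disjoint_left.1 (oK j) hy))
  have e4 := hK.wall h2 Sum.inr_injective (F := Sum.elim FC FK) (fx := fxT C K pC pK)
    (fun _ _ => ⟨rfl, rfl, rfl⟩) sm b2 (by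
      rintro (j | j) a
      · exact nr (Sum.inl j) K.Γᶜ fun y hy =>
          h2.curve.cpt.isClosed.isOpen_compl.mem_nhds (disjoint_left.1 (oC j) hy)
      · exact absurd rfl (a j))
  filter_upwards [eventually_all.2 fun i => eventually_all.2 (e1 i), eventually_all.2 e2, e3, e4,
    Ioo_mem_nhdsGT one_pos] with t c1 c2 c3 c4 ht
  refine ⟨⟨?_, ?_⟩, ⟨hA, sm, c1, ⟨ht.1, ht.2.le⟩, c3.1, c4.1, fun j k a => (by cases a), ?_,
    by simp [cfT]⟩, fun y hy => ?_⟩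
  · rintro (j | j)
    · exact (c3.2 j).1
    · exact (c4.2 j).1
  · rintro (j | j) z hz
    · exact ((c3.2 j).2 z hz).1
    · exact ((c4.2 j).2 z hz).1
  · rintro (j | j) z hz a
    · exact Or.inl (((c3.2 j).2 z hz).2 fun b => a (Or.inl b))
    · exact Or.inl (((c4.2 j).2 z hz).2 fun b => a (Or.inr b))
  · obtain ⟨i, b, c⟩ := PCS.mem_S.1 hy
    have : y = (y.1, Sum.elim FC FK i y.1) := Prod.ext rfl c
    exact this ▸ c2 i y.1 b

/-- the certificate for a thick surface gives polynomial convexity for the thin ones -/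
theorem pcT {J : Type} {F : C.ι ⊕ K.ι → ℂ → ℂ} (hC : SX C K pC) (hK : SX K C pK)
    (h : ∀ η > 0, ∀ᶠ t in 𝓝[>] (0 : ℝ), (fxT C K pC pK t).OK ∧
      Pre (fxT C K pC pK t) (cfT C K Nd TC TK D pC pK F t) ∧
      (fxT C K pC pK t).S F ⊆ thickening η (C.Γ ∪ K.Γ))
    (hp : HULL.hull (C.Γ ∪ K.Γ) ⊆ C.Γ ∪ K.Γ) {t0 τ : ℝ}
    (hP : Pre (fxT C K pC pK t0) (cfT C K Nd TC TK D pC pK F t0))
    {sp : Sp J} {T0 : Set E} (h1 : Cert sp τ ((fxT C K pC pK t0).S F) T0 (C.Γ ∪ K.Γ))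
    (h2 : Served sp τ ((fxT C K pC pK t0).S F) (C.Γ ∪ K.Γ)) :
    ∀ᶠ t in 𝓝[>] (0 : ℝ), (fxT C K pC pK t).OK ∧
      Good (fxT C K pC pK t) (cfT C K Nd TC TK D pC pK F t) := by
  obtain ⟨η1, a1, b1⟩ := h1
  obtain ⟨η2, a2, b2⟩ := h2
  have hW := hP.wall
  have cA : IsCompact (C.Γ ∪ K.Γ) := PCS.isCompact_A hP
  obtain ⟨η, a, b⟩ := HULL.usc2 cA (isOpen_thickening (δ := min η1 η2) (E := C.Γ ∪ K.Γ))
    (hp.trans (self_subset_thickening (lt_min a1 a2) _))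
  have cS : ∀ t, IsCompact ((fxT C K pC pK t).S F) := fun t =>
    PCS.isCompact_S _ fun i => (hW.smooth i).continuous
  filter_upwards [h η a, Ioo_mem_nhdsGT hW.hz.1] with t ⟨c0, c1, c3⟩ ht
  have d1 : (fxT C K pC pK t).S F ⊆ (fxT C K pC pK t0).S F := fun y hy => by
    obtain ⟨i, e, f⟩ := PCS.mem_S.1 hy
    refine PCS.mem_S.2 ⟨i, ?_, f⟩
    rcases i with j | j
    · have g := hC.ew hP.alg.hC j
      exact (g.dom_eq t0).ge (g.zn_mono ht.2.le ((g.dom_eq t).le e))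
    · have g := hK.ew hP.alg.hK j
      exact (g.dom_eq t0).ge (g.zn_mono ht.2.le ((g.dom_eq t).le e))
  have d2 : Std (HULL.hull ((fxT C K pC pK t).S F)) ((fxT C K pC pK t0).S F) :=
    ⟨HULL.isCompact_hull2 (cS t), (cS t0).isClosed, fun y e f => SH.BRIDGE.noPeak_iff.1
      ((HULL.lm_hull (cS t)).noPeak y e (mem_univ _) fun g => f (d1 g))⟩
  have d3 : ∀ r, min η1 η2 ≤ r → HULL.hull ((fxT C K pC pK t).S F) \ (fxT C K pC pK t0).S F ⊆
      cthickening r (C.Γ ∪ K.Γ) := fun r hr y hy =>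
    thickening_subset_cthickening_of_le hr _ (b _ c3 hy.1)
  have d4 : C.Γ ∪ K.Γ ⊆ HULL.hull ((fxT C K pC pK t).S F) :=
    SH.BRIDGE.hull_eq _ ▸ st_inh _ _ _ c0 c1
  refine ⟨c0, c1, ?_⟩
  rw [SH.BRIDGE.hull_eq]
  exact INI.pc_thin hW.smooth (cS t) cA.isClosed d4 hW.gap
    (fun i z e f => (hW.real i z e f).resolve_right (by simp [cfT]))
    (b1 _ _ d2 (self_subset_cthickening _) rfl (d3 _ (min_le_left _ _)) d4
      fun j => b2 _ _ d2 (d3 _ (min_le_right _ _)) j rfl)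

end Pool.Agent.S6.INIT
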