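import Pool.Agent.Lib.S6.Site4
import Pool.Agent.Lib.S6.B_PRF
import Pool.Agent.Lib.S6.BirWall
import Pool.Agent.Lib.S6.Hp

/-!
The lower wall at the hub has the exact form at the new ends.
-/

open Set Filter Topology Metric
open scoped ContDiff

noncomputable section

namespace Pool.Agent.S6.LOWH

open Pool.Agent.CF (End Kind Cv)
open Pool.Agent.Lib

variable {π : Type} [Fintype π] {A : Cv} {x : π → ℂ} {c0 CD δ L M8 y4 : ℝ} {D0 : π → ℂ → ℝ}

theorem nz_sub (hR : 0 < A.R) (z p : ℂ) :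
    ‖z - (A.c + A.R * p)‖ = A.R * ‖(z - A.c) / A.R - p‖ := by
  have r : (A.R : ℂ) ≠ 0 := Complex.ofReal_ne_zero.2 hR.ne'
  rw [show z - (A.c + A.R * p) = A.R * ((z - A.c) / A.R - p) by field_simp; ring, norm_mul,
    Complex.norm_real, Real.norm_of_nonneg hR.le]

theorem norm_wp {p : ℂ} (h : ‖p‖ = 1) (δ : ℝ) : ‖SH.wp p δ‖ = Real.exp (-δ) := by
  rw [SH.wp, SH.Win.norm_wch h]; simp

theorem r_wr {p : ℂ} (h : ‖p‖ = 1) (δ L : ℝ) : A.R * SH.wr p δ L = bpr A L δ := by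
  rw [SH.wr, norm_wp h, bpr, sub_eq_add_neg, Real.exp_add]; ring

theorem nz_wp (hR : 0 < A.R) (z p : ℂ) (δ : ℝ) :
    ‖z - hp A p δ 0‖ = A.R * ‖(z - A.c) / A.R - SH.wp p δ‖ := by
  rw [← Birth.hp_wp, nz_sub hR]

theorem bpr_pos (hR : 0 < A.R) (h0 : 0 < δ) (L : ℝ) : 0 < bpr A L δ := by
  unfold bpr; positivity

theorem bpr_small (hR : 0 < A.R) (h0 : 0 < δ) (hL : 10 ≤ L) :
    2 * bpr A L δ ≤ A.R * Real.exp (-δ) * (δ / 2) := by
  have a := HP.exp_le_eighth (s := L) (by linarith)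
  have b := mul_pos (mul_pos hR (Real.exp_pos (-δ))) h0
  rw [bpr, sub_eq_add_neg, Real.exp_add]
  nlinarith

/-- the port discs lie at depth about `δ` -/
theorem disc (hk : A.hub.k = Kind.out) (hR : 0 < A.R) {p z : ℂ} (h : ‖p‖ = 1) (h0 : 0 < δ)
    (h1 : δ ≤ 1) (hL : 10 ≤ L) (hz : ‖z - hp A p δ 0‖ ≤ 2 * bpr A L δ) :
    z ∈ A.hub.ann (Icc (δ / 2) (2 * δ)) := by
  have a1 := hz.trans (bpr_small hR h0 hL)
  have a2 := HP.norm_hp hR h δ 0
  have a3 := norm_add_le (z - hp A p δ 0) (hp A p δ 0 - A.c)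
  have a4 := norm_sub_le (z - A.c) (z - hp A p δ 0)
  rw [sub_add_sub_cancel, a2] at a3
  rw [sub_sub_sub_cancel_left, a2] at a4
  have e0 := mul_pos hR (Real.exp_pos (-δ))
  have a5 : z ≠ A.c := fun e => by
    rw [e, sub_self, norm_zero, ← e] at a4
    nlinarith
  have a6 := FitNew.norm_of_dep A hk hR a5
  have b1 : Real.exp (-δ) * (1 + δ / 2) ≤ Real.exp (-(δ / 2)) := by
    rw [show -(δ / 2) = -δ + δ / 2 by ring, Real.exp_add]
    gcongr
    linarith [Real.add_one_le_exp (δ / 2)]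
  have b2 : Real.exp (-(2 * δ)) ≤ Real.exp (-δ) * (1 - δ / 2) := by
    rw [show -(2 * δ) = -δ + -δ by ring, Real.exp_add]
    gcongr
    have c1 : Real.exp (-δ) * Real.exp δ = 1 := by rw [← Real.exp_add]; simp
    have c2 := Real.add_one_le_exp δ
    have c3 := Real.exp_pos (-δ)
    by_contra a
    nlinarith [not_le.1 a, mul_nonneg h0.le (sub_nonneg.2 h1)]
  refine ⟨a5, le_of_not_gt fun b => ?_, le_of_not_gt fun b => ?_⟩
  · have := Real.exp_lt_exp.2 (neg_lt_neg b)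
    nlinarith
  · have := Real.exp_lt_exp.2 (neg_lt_neg b)
    nlinarith

omit [Fintype π] in
theorem sep (hR : 0 < A.R) (h : SH.BW x c0 CD δ L M8 y4 D0) {k k' : π} (e : k ≠ k') {z : ℂ}
    (hz : ‖z - hp A (x k) δ 0‖ ≤ 2 * bpr A L δ) : 2 * bpr A L δ < ‖z - hp A (x k') δ 0‖ := by
  obtain ⟨n1, -, -, n4, d0, -⟩ := h.num
  have a1 := bpr_small hR d0 n4
  have a2 := h.sep k k' e
  have a3 := norm_sub_le (z - hp A (x k') δ 0) (z - hp A (x k) δ 0)
  have a4 : z - hp A (x k') δ 0 - (z - hp A (x k) δ 0) =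
      A.R * (x k - x k') * Complex.exp (-δ + (0 : ℝ) * Complex.I) := by unfold hp; ring
  rw [a4, norm_mul, norm_mul, Complex.norm_exp, Complex.norm_real, Real.norm_of_nonneg hR.le] at a3
  simp only [Complex.ofReal_zero, zero_mul, add_zero, Complex.neg_re, Complex.ofReal_re] at a3
  have e0 := mul_pos hR (Real.exp_pos (-δ))
  nlinarith [mul_le_mul_of_nonneg_left a2 e0.le, mul_pos e0 d0,
    mul_le_mul_of_nonneg_left n1 (mul_pos e0 d0).le]

theorem pole (hR : 0 < A.R) (h : SH.BW x c0 CD δ L M8 y4 D0) (k : π) {D : Set ℂ}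
    (hD : ∀ z ∈ D, ‖z - hp A (x k) δ 0‖ ≤ 2 * bpr A L δ ∧ ‖z - A.c‖ ≤ A.R ∧
      AnalyticAt ℂ (A.lam A.H) z ∧ A.lam A.H z ≠ 0) :
    Pole ((born A π x δ).lam (Sum.inr k)) (hp A (x k) δ 0) D := by
  classical
  have d0 := h.num.2.2.2.2.1
  have b : ∀ z ∈ D, ∀ k' ∈ Finset.univ.erase k, z - hp A (x k') δ 0 ≠ 0 := fun z hz k' e f => by
    have := sep hR h (Finset.ne_of_mem_erase e).symm (hD z hz).1
    rw [f, norm_zero] at this
    linarith [bpr_pos hR d0 L]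
  refine ⟨fun z => Complex.exp (Real.pi / 4 * Complex.I) * A.lam A.H z *
    (∏ k', (z - hp A (x k') (-δ) 0)) / ∏ k' ∈ Finset.univ.erase k, (z - hp A (x k') δ 0),
    fun z hz => ?_, fun z hz => ?_⟩ <;> obtain ⟨-, a3, a1, a2⟩ := hD z hz
  · exact ((analyticAt_const.mul a1).mul (Finset.analyticAt_fun_prod _ fun _ _ =>
      analyticAt_id.sub analyticAt_const)).div (Finset.analyticAt_fun_prod _ fun _ _ =>
      analyticAt_id.sub analyticAt_const) (Finset.prod_ne_zero_iff.2 (b z hz))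
  · refine ⟨div_ne_zero (mul_ne_zero (mul_ne_zero (Complex.exp_ne_zero _) a2)
      (Finset.prod_ne_zero_iff.2 fun k' _ => sub_ne_zero.2 (Birth.ne_ref hR (h.unit k') d0 a3)))
      (Finset.prod_ne_zero_iff.2 (b z hz)), fun _ => ?_⟩
    show Complex.exp (Real.pi / 4 * Complex.I) * A.lam A.H z / bB A x δ z = _
    rw [bB, Finset.prod_div_distrib, ← Finset.mul_prod_erase _ _ (Finset.mem_univ k),
      div_div_eq_mul_div, div_div, mul_comm (z - hp A (x k) δ 0)]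

theorem ct_pt {l : End} {ρ : ℝ} {z : ℂ} (hk : l.k = Kind.pt) (h : ‖z - l.c‖ ≤ ρ) :
    z ∈ ct l ρ := by
  unfold ct
  rw [if_pos hk]
  exact mem_closedBall_iff_norm.2 h

theorem new_hub {I : Type} {B : Cv} {W : Wd I B.ι} {pr : B.ι → ℝ} {PA : ℝ → E → ℂ}
    {d : ℂ × ℂ → ℂ} {Zb : Set ℂ} {t τ : ℝ} {wc : WC} {L : ℝ} {π' : Type} [Fintype π']
    {x' : π' → ℂ} (h : SK B W pr PA d Zb t τ B.H) (hw : wc.OK L) {Φ : ℝ → ℝ} (hΦ : PhiOK Φ)
    {y2 : ℝ} (h0 : 0 < y2) (h1 : y2 ≤ t) : ∀ᶠ δ' in 𝓝[>] (0 : ℝ),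
    ∀ (D0 : π' → ℂ → ℝ) (Bw : ℂ → ℂ), SH.BW x' wc.c0 wc.CD δ' L wc.M8 wc.y4 D0 →
      SH.BZ x' δ' L wc.M8 wc.y4 D0 (fun u => wc.G0 u * Φ (δ' * u / y2 - 1 / 2)) wc.th Bw →
      ∀ e : ℝ, 0 < e → ∃ Ef : B.ι ⊕ π' → ℝ → ℝ, ∀ᶠ hz' in 𝓝[>] (0 : ℝ),
        New B W π' x' δ' (Wd.born B W.cp pr π' L δ' Ef)
          (lw (wk B W B.H) (W.Ef B.H) (B.lam B.H) (fun z => B.lam B.H z / bq B.hub x' δ' z)
            (fun z => Bw ((z - B.hub.c) / B.hub.r)) e y2) y2 t hz'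
          (fun i => B.hub.c + B.hub.r * SH.ws (x' i) δ' L) B.H := by
  have hk : B.hub.k = Kind.out := h.ok.2
  have hk' : (B.e B.H).k ≠ Kind.pt := by rw [show (B.e B.H).k = Kind.out from hk]; decide
  have hR : 0 < B.R := h.ok.1.pos hk'
  have ew : wk B W B.H = B.hub := UPD.wl_loop hk' _
  have ez : ∀ s, W.zn B s B.H = B.hub.ann (Icc 0 s) := fun s => UPD.zn_one hk' _ rfl s
  obtain ⟨t0, t1⟩ := h.st.tt
  have an : ∀ z ∈ B.hub.ann (Icc 0 (3 * t)), AnalyticAt ℂ (B.lam B.H) z ∧ B.lam B.H z ≠ 0 :=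
    fun z hz => h.st.an z (by
      rw [ew]; exact ⟨hz.1, Or.inr ⟨by linarith [hz.2.1], by linarith [hz.2.2]⟩⟩)
  obtain ⟨n1, n2, -, n4, n5, n6, n7, -⟩ := hw.num
  filter_upwards [Ioc_mem_nhdsGT (show 0 < y2 / 32 by positivity)] with δ hδ D0 Bw hW hZ e e0
  obtain ⟨d0, d1⟩ := hδ
  set G : ℝ → ℝ := fun u => wc.G0 u * Φ (δ * u / y2 - 1 / 2) with hG
  obtain ⟨p1, p2⟩ := st_prf.2.2.2.2.2 Φ wc.G0 wc.M8 wc.σ0 δ y2 hΦ hw.G0 n7 d0 h0
  obtain ⟨th1, Cth, th2⟩ := hw.th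
  have bg : SH.BG G wc.th wc.M8 := p2 _ _ th1 th2
  have cE := (st_prf.2.2.1 _ _ y2 h.st.pr h0).2.2.1
  set N := lw (wk B W B.H) (W.Ef B.H) (B.lam B.H) (fun z => B.lam B.H z / bq B.hub x' δ z)
    (fun z => Bw ((z - B.hub.c) / B.hub.r)) e y2 with hN
  have eN : ∀ z, B.hub.dep z ∈ Icc 0 (2 * y2) →
      N z = ((e / 2 : ℝ) : ℂ) * (Bw ((z - B.c) / B.R) * (B.lam B.H z / bB B x' δ z)) :=
    fun z hz => by
      rw [hN, lw, ew, cE _ hz, Complex.ofReal_zero, zero_mul, zero_add]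
      rfl
  have b0 := bpr_pos hR d0 L
  have dc : ∀ i z, ‖z - hp B (x' i) δ 0‖ ≤ 2 * bpr B L δ → z ∈ B.hub.ann (Icc (δ / 2) (2 * δ)) :=
    fun i z hz => disc hk hR (hW.unit i) d0 (by linarith) (by linarith) hz
  refine ⟨Sum.elim (fun _ s => e / 2 * G (s / δ)) fun _ s => e / 2 * G (s / L), ?_⟩
  filter_upwards [Ioc_mem_nhdsGT (mul_pos n5 d0)] with hz hh
  obtain ⟨z0, z1⟩ := hh
  have z2 : hz ≤ δ / 4 := by nlinarith
  set W' := Wd.born B W.cp pr π' L δ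
    (Sum.elim (fun _ s => e / 2 * G (s / δ)) fun _ s => e / 2 * G (s / L)) with hW'
  have zl : W'.zn (born B π' x' δ) hz (Sum.inl B.H) = B.hub.ann (Icc 0 hz) :=
    UPD.zn_one hk' _ rfl hz
  have zr : ∀ i, ∀ z ∈ W'.zn (born B π' x' δ) hz (Sum.inr i),
      ‖z - hp B (x' i) δ 0‖ ≤ 2 * bpr B L δ := fun i z a => by
    have a1 : ‖z - hp B (x' i) δ 0‖ ≤ bpr B L δ * Real.exp hz :=
      mem_closedBall_iff_norm.1 (UPD.zn_pt (l := (born B π' x' δ).e (Sum.inr i)) rfl _ _ _ ▸ a)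
    have a2 : Real.exp hz ≤ 2 := by
      have := Real.abs_exp_sub_one_le (x := hz) (by rw [abs_of_pos z0]; linarith)
      rw [abs_of_pos z0] at this
      linarith [(abs_le.1 this).2]
    nlinarith
  have cs : ∀ {P : B.ι ⊕ π' → Prop}, P (Sum.inl B.H) → (∀ i, P (Sum.inr i)) →
      ∀ k', par B π' k' = B.H → P k' := fun {P} a b k' e => by
    rcases k' with j | i
    · obtain rfl : j = B.H := e
      exact a
    · exact b i
  have nb : ∀ z ∈ B.hub.ann (Icc 0 (3 * t)), (∀ i, z ≠ hp B (x' i) δ 0) → bB B x' δ z ≠ 0 :=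
    fun z a b => FitNew.bB_ne B x' δ fun i =>
      ⟨b i, Birth.ne_ref hR (hW.unit i) d0 (Birth.le_R hk hR a.1 a.2.1)⟩
  refine ⟨cs (fun z a => ?_) fun i z a => ?_, cs ?_ fun i => ?_,
    cs (fun z a _ => ?_) fun i z a _ => ?_, cs (fun a => absurd a hk') fun i _ => ?_,
    cs (fun _ => ?_) fun i a => absurd rfl a, fun k1 k2 ne e1 e2 => ?_, fun z a a1 a2 a3 => ?_,
    fun a => absurd a hk', fun _ i => ?_⟩
  · rw [zl] at a
    rw [ez, ew]
    exact ⟨⟨a.1, a.2.1, by linarith [a.2.2]⟩, by linarith [a.2.2]⟩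
  · have := dc i z (zr i z a)
    rw [ez, ew]
    exact ⟨⟨this.1, by linarith [this.2.1], by linarith [this.2.2]⟩, by linarith [this.2.2]⟩
  · rw [show tw (born B π' x' δ) (Sum.inl B.H) = False from eq_false fun a => a.2 rfl]
    exact p1 _ _ (by positivity) d0
  · rw [show tw (born B π' x' δ) (Sum.inr i) = False from eq_false fun a => a.1 rfl]
    exact p1 _ _ (by positivity) (by linarith)
  · rw [zl] at a
    have a1 := Birth.log_nz hk hR a.1
    rw [eN z ⟨a.2.1, by linarith [a.2.2]⟩, hZ.pure _ (Birth.nz_ne hR a.1)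
      (Or.inr (by rw [a1]; linarith [a.2.2])), a1, HP.born_lam_hub,
      show wk (born B π' x' δ) W' (Sum.inl B.H) = B.hub from UPD.wl_loop hk' _]
    simp only [hW', Wd.born, Sum.elim_inl]
    push_cast
    ring
  · have a0 := zr i z a
    have a1 := dc i z a0
    have a2 := nz_wp hR z (x' i) δ
    have a3 := r_wr (A := B) (hW.unit i) δ L
    have a4 : (wk (born B π' x' δ) W' (Sum.inr i)).dep z =
        Real.log (‖(z - B.c) / B.R - SH.wp (x' i) δ‖ / SH.wr (x' i) δ L) := by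
      rw [← mul_div_mul_left _ _ hR.ne', ← a2, a3]
      exact (congrArg (fun l : End => l.dep z) (UPD.wl_pt rfl _)).trans (UPD.hole_dep _ _ _)
    rw [eN z ⟨by linarith [a1.2.1], by linarith [a1.2.2]⟩, hZ.port i _
      (le_of_mul_le_mul_left (by rw [← a2, mul_left_comm, a3]; exact a0) hR), a4]
    show _ = _ * (Complex.exp (Real.pi / 4 * Complex.I) * B.lam B.H z / bB B x' δ z)
    simp only [hW', Wd.born, Sum.elim_inr]
    push_cast
    ring
  · refine pole hR hW i fun z a => ?_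
    have a1 := dc i z (zr i z a)
    exact ⟨zr i z a, Birth.le_R hk hR a1.1 (by linarith [a1.2.1]),
      an z ⟨a1.1, by linarith [a1.2.1], by linarith [a1.2.2]⟩⟩
  · rw [zl, show (born B π' x' δ).lam (Sum.inl B.H) = fun z => B.lam B.H z / bB B x' δ z from
      funext HP.born_lam_hub]
    have k : ∀ z ∈ B.hub.ann (Icc 0 hz), z ∈ B.hub.ann (Icc 0 (3 * t)) ∧ bB B x' δ z ≠ 0 :=
      fun z a => by
        have a1 : z ∈ B.hub.ann (Icc 0 (3 * t)) := ⟨a.1, a.2.1, by linarith [a.2.2]⟩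
        refine ⟨a1, nb z a1 fun i e => ?_⟩
        have := a.2.2
        rw [e, HP.dep_hp hk hR (hW.unit i)] at this
        linarith
    exact ⟨fun z a => (an z (k z a).1).1.div
      (Birth.an_bB hR hW.unit d0 (Birth.le_R hk hR a.1 a.2.1)) (k z a).2,
      fun z a => div_ne_zero (an z (k z a).1).2 (k z a).2⟩
  · have k : ∀ i, Disjoint (W'.zn (born B π' x' δ) hz (Sum.inl B.H))
        (W'.zn (born B π' x' δ) hz (Sum.inr i)) := fun i => disjoint_left.2 fun z a b => by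
      rw [zl] at a
      linarith [a.2.2, (dc i z (zr i z b)).2.1]
    rcases k1 with j | i <;> rcases k2 with j' | i'
    · exact absurd (congrArg Sum.inl (Eq.trans (a := j) e1 (Eq.symm (a := j') e2))) ne
    · obtain rfl : j = B.H := e1
      exact k i'
    · obtain rfl : j' = B.H := e2
      exact (k i).symm
    · exact disjoint_left.2 fun z b c =>
        (sep hR hW (fun f => ne (congrArg _ f)) (zr i z b)).not_ge (zr i' z c)
  · rw [ez] at a
    rw [ew] at a2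
    have k : ∀ i, ‖z - hp B (x' i) δ 0‖ ≤ bpr B L δ → ∃ k', par B π' k' = B.H ∧
        z ∈ ct ((born B π' x' δ).e k') (W'.pr k') := fun i b =>
      ⟨Sum.inr i, rfl, ct_pt rfl b⟩
    by_cases c : ∃ i, z = hp B (x' i) δ 0
    · obtain ⟨i, c⟩ := c
      exact k i (by rw [c, sub_self, norm_zero]; exact b0.le)
    rw [eN z ⟨a.2.1, by linarith⟩] at a3
    have a4 := (mul_eq_zero.1 ((mul_eq_zero.1 a3).resolve_left
      (Complex.ofReal_ne_zero.2 (by positivity)))).resolve_right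
      (div_ne_zero (an z a).2 (nb z a fun i f => c ⟨i, f⟩))
    rcases (hZ.zero _ (Birth.nz_ne hR a.1)).1 a4 with b | ⟨i, b⟩
    · rw [Birth.norm_nz hk hR a.1, Real.one_le_exp_iff] at b
      refine ⟨Sum.inl B.H, rfl, ?_⟩
      change z ∈ ct (B.e B.H) _
      unfold ct
      rw [if_neg hk']
      exact (End.mem_circ hR).2 ⟨a.1, le_antisymm (by linarith) a.2.1⟩
    · refine k i ?_
      rw [nz_wp hR, ← r_wr (hW.unit i)]
      gcongr
  · obtain ⟨s1, -, s3⟩ := (SH.st_bz2 π' x' _ _ _ _ _ _ D0 G _ Bw B.c B.R n2 hw.locf hW bg hZ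
      hR).2 i
    have r : (B.R : ℂ) ≠ 0 := Complex.ofReal_ne_zero.2 hR.ne'
    have w0 : SH.ws (x' i) δ L ≠ 0 := SH.Win.wch_ne (SH.Win.ne0 (hW.unit i)) _
    set z := B.c + B.R * SH.ws (x' i) δ L with hzz
    have a1 : (z - B.c) / B.R = SH.ws (x' i) δ L := by rw [hzz]; field_simp; ring
    have a2 : z ≠ B.c := fun f => w0 (by rw [← a1, f, sub_self, zero_div])
    have a3 : B.hub.dep z = δ * Real.sqrt (1 - 2 / L) := by
      rw [← Birth.log_nz hk hR a2, a1, SH.ws, SH.Win.log_wch (hW.unit i)]; simp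
    have a4 : 2 / L ≤ 1 / 2 := by rw [div_le_iff₀ (by linarith)]; linarith
    have a5 : 0 < 2 / L := by positivity
    have a6 : 0 < Real.sqrt (1 - 2 / L) := Real.sqrt_pos.2 (by linarith)
    have a7 : Real.sqrt (1 - 2 / L) ≤ 1 := Real.sqrt_le_one.2 (by linarith)
    have a8 : z ∈ B.hub.ann (Ioo 0 (y2 / 8)) := ⟨a2, by rw [a3]; positivity, by rw [a3]; nlinarith⟩
    have a9 : z ∈ B.hub.ann (Icc 0 (3 * t)) := ⟨a2, a8.2.1.le, by linarith [a8.2.2]⟩
    have b1 : bB B x' δ z ≠ 0 := nb z a9 fun j f => s1 ((hZ.zero _ w0).2 (Or.inr ⟨j, by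
      refine le_of_mul_le_mul_left ?_ hR
      rw [← a1, ← nz_wp hR, r_wr (hW.unit j), ← f, sub_self, norm_zero]
      exact b0.le⟩))
    have b2 : ((e / 2 : ℝ) : ℂ) ≠ 0 := Complex.ofReal_ne_zero.2 (by positivity)
    have b3 := div_ne_zero (an z a9).2 b1
    refine ⟨a8, ?_, fun S f c1 c2 => s3 S f B.hub.w
      (fun v => ((e / 2 : ℝ) : ℂ) * (B.lam B.H v / bB B x' δ v)) (h.an z (ez _ ▸ a9))
      (analyticAt_const.mul ((an z a9).1.div
        (Birth.an_bB hR hW.unit d0 (Birth.le_R hk hR a2 a9.2.1)) b1)) (mul_ne_zero b2 b3) ?_ c2⟩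
    · change N z ≠ 0
      rw [eN z ⟨a9.2.1, by linarith [a8.2.2]⟩, a1]
      exact mul_ne_zero b2 (mul_ne_zero s1 b3)
    · filter_upwards [c1, (End.isOpen_ann hR isOpen_Ioo).mem_nhds a8] with v v1 v2
      rw [v1, eN v ⟨v2.2.1.le, by linarith [v2.2.2]⟩]
      ring

end Pool.Agent.S6.LOWH
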