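import Pool.Agent.Lib.S6.Site2
import Pool.Agent.Lib.S6.Desc

/-!
Windows with a pinned zero after the split: geometry of the chart and values of the wall.
-/

open Set Filter Topology Metric

noncomputable section

namespace Pool.Agent.S6.NWIN

open Pool.Agent.CF (End Kind)
open Pool.Agent.Lib
open Pool.Agent.Lib.SH (bc ov ech wch bl sq1 ss)
open Pool.Agent.Lib.SH.Win

/-- the window chart -/
def ph (l : End) (x : ℂ) (δ : ℝ) (ζ : ℂ) : ℂ := ech l (wch x δ 0 ζ)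

/-- radius of the port -/
def rp (l : End) (L δ : ℝ) : ℝ := 2 * l.r * δ * Real.exp (-δ - L)

/-- the pinned zero -/
def z0 : ℂ := -1 + Real.sqrt 2 * Complex.I

structure Gm (l : End) (x : ℂ) (L δ ρ : ℝ) : Prop where
  out : l.k = Kind.out
  hr : 0 < l.r
  hx : ‖x‖ = 1
  hL : 20 ≤ L
  d0 : 0 < δ
  d1 : 64 * δ ≤ ρ
  r1 : ρ ≤ 1 / 8

theorem sq1_eq (ζ : ℂ) : sq1 ζ = (ζ - z0) * (ζ + 1 + Real.sqrt 2 * Complex.I) := by
  have h : ((Real.sqrt 2 : ℝ) : ℂ) * Real.sqrt 2 = 2 := by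
    exact_mod_cast Real.mul_self_sqrt (by norm_num : (0 : ℝ) ≤ 2)
  unfold sq1 z0
  linear_combination (-1 : ℂ) * h + (Real.sqrt 2 : ℂ) ^ 2 * Complex.I_mul_I

theorem sqrt2 : 1 < Real.sqrt 2 ∧ Real.sqrt 2 < 2 :=
  ⟨Real.lt_sqrt_of_sq_lt (by norm_num), (Real.sqrt_lt' (by norm_num)).2 (by norm_num)⟩

theorem norm_z0 : ‖z0‖ ≤ 3 := by
  refine (norm_add_le _ _).trans ?_
  simp only [norm_neg, norm_one, norm_mul, Complex.norm_real, Complex.norm_I, mul_one,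
    Real.norm_eq_abs, abs_of_pos (one_pos.trans sqrt2.1)]
  linarith [sqrt2.2]

theorem conj_ne {ζ : ℂ} (h : 0 ≤ ζ.im) : ζ + 1 + Real.sqrt 2 * Complex.I ≠ 0 := fun e => by
  have := congrArg Complex.im e
  simp at this
  linarith [sqrt2.1]

theorem sq1_box {R x0 r : ℝ} (h : SH.Ring.Adm R x0 r) {ζ : ℂ} (hz : ζ ∈ SH.box x0 r r) :
    sq1 ζ ≠ 0 := fun e => by
  have a := congrArg Complex.re e
  have b := congrArg Complex.im e
  simp [sq1, sq] at a b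
  have c : ζ.re + 1 = 0 := by
    by_contra n
    have : ζ.im = 0 := by
      have : (ζ.re + 1) * ζ.im = 0 := by linarith
      exact (mul_eq_zero.1 this).resolve_left n
    rw [this] at a; nlinarith
  have h1 := hz.1
  have h2 := abs_le.1 hz.2
  rcases h.2.2 with d | d
  · rw [c] at a; nlinarith
  · have h3 := abs_sub_abs_le_abs_sub x0 ζ.re
    rw [abs_sub_comm] at h1
    rw [show ζ.re = -1 by linarith] at h1 h3
    simp only [abs_neg, abs_one] at h3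
    rw [c] at a; nlinarith

namespace Gm

variable {l : End} {x : ℂ} {L δ ρ : ℝ} (g : Gm l x L δ ρ)
include g

theorem eq (ζ : ℂ) : ph l x δ ζ = l.c + l.r * wch x δ 0 ζ := if_pos g.out

theorem d2 : δ ≤ 1 / 512 := by linarith [g.d1, g.r1]

theorem big : 32 ≤ ρ / (2 * δ) := by
  rw [le_div_iff₀ (by linarith [g.d0])]; linarith [g.d1]

theorem nrm (ζ v : ℂ) : ‖ph l x δ ζ - (l.c + l.r * v)‖ = l.r * ‖wch x δ 0 ζ - v‖ := by
  rw [g.eq, add_sub_add_left_eq_sub, ← mul_sub, norm_mul, Complex.norm_real,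
    Real.norm_of_nonneg g.hr.le]

theorem dep (ζ : ℂ) : ph l x δ ζ ≠ l.c ∧ l.dep (ph l x δ ζ) = δ * ζ.im := by
  refine End.dep_of_norm g.hr ?_
  have := g.nrm ζ 0
  rw [mul_zero, add_zero, sub_zero, norm_wch g.hx] at this
  rw [this, End.rad]; simp [End.sgn, g.out]

theorem phI : ph l x δ Complex.I = hq l x δ 0 := by
  rw [g.eq, hq, wch, mul_assoc]
  congr 4
  push_cast
  linear_combination (δ : ℂ) * Complex.I_mul_I

theorem phz : ph l x δ z0 = hq l x (Real.sqrt 2 * δ) (-δ) := by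
  rw [g.eq, hq, wch, mul_assoc, z0]
  congr 4
  push_cast
  linear_combination (δ : ℂ) * Real.sqrt 2 * Complex.I_mul_I

theorem der (ζ : ℂ) : HasDerivAt (ph l x δ) (l.r * (wch x δ 0 ζ * (Complex.I * δ))) ζ := by
  rw [funext g.eq]
  exact ((hasDerivAt_wch x δ 0 ζ).const_mul _).const_add _

theorem an (ζ : ℂ) : AnalyticAt ℂ (ph l x δ) ζ :=
  (show Differentiable ℂ (ph l x δ) from fun v => (g.der v).differentiableAt).analyticAt ζ

theorem inj {ζ ζ' : ℂ} (h : ‖ζ‖ ≤ ρ / (2 * δ)) (h' : ‖ζ'‖ ≤ 3) (e : ph l x δ ζ = ph l x δ ζ') :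
    ζ = ζ' := by
  have d := g.d0
  rw [g.eq, g.eq, add_right_inj, mul_right_inj' (Complex.ofReal_ne_zero.2 g.hr.ne')] at e
  refine wch_inj (ne0 g.hx) d ?_ e
  rw [le_div_iff₀ (by positivity)] at h
  nlinarith [norm_sub_le ζ ζ', g.d2, g.r1]

theorem ds (ζ' : ℂ) (ζ : ℂ) : AnalyticAt ℂ (dslope (ph l x δ) ζ') ζ :=
  ((Complex.differentiableOn_dslope univ_mem).2
    fun v _ => (g.der v).differentiableAt.differentiableWithinAt).analyticAt univ_mem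

theorem ds_ne {ζ ζ' : ℂ} (h : ‖ζ‖ ≤ ρ / (2 * δ)) (h' : ‖ζ'‖ ≤ 3) : dslope (ph l x δ) ζ' ζ ≠ 0 := by
  by_cases e : ζ = ζ'
  · rw [e, dslope_same, (g.der ζ').deriv]
    exact mul_ne_zero (Complex.ofReal_ne_zero.2 g.hr.ne') (mul_ne_zero (wch_ne (ne0 g.hx) _)
      (mul_ne_zero Complex.I_ne_zero (Complex.ofReal_ne_zero.2 g.d0.ne')))
  · intro a
    have := sub_smul_dslope (ph l x δ) ζ' ζ
    rw [a, smul_zero] at this
    exact e (g.inj h h' (sub_eq_zero.1 this.symm))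

theorem rp_pos : 0 < rp l L δ := by have := g.hr; have := g.d0; unfold rp; positivity

theorem nI : ‖wch x δ 0 Complex.I‖ = Real.exp (-δ) := by rw [norm_wch g.hx]; simp

theorem rad_eq : l.r * prad x δ 0 L = rp l L δ * Real.exp (7 / 2) := by
  rw [prad, g.nI, rp, show -δ - L = -δ + -L by ring, Real.exp_add, Real.exp_add]; ring

theorem pc_eq (v : ℂ) : ‖l.c + l.r * v - hq l x δ 0‖ = pc x δ 0 v * Real.exp L * rp l L δ := by
  have d := g.d0.ne'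
  rw [← g.phI, g.eq, add_sub_add_left_eq_sub, ← mul_sub, norm_mul, Complex.norm_real,
    Real.norm_of_nonneg g.hr.le, pc, g.nI, rp, show -δ - L = -δ + -L by ring, Real.exp_add,
    Real.exp_neg L]
  field_simp

theorem pc_le {v : ℂ} {u : ℝ} (h : ‖l.c + l.r * v - hq l x δ 0‖ ≤ rp l L δ * Real.exp u) :
    pc x δ 0 v ≤ Real.exp (-L + u) := by
  rw [g.pc_eq, mul_comm (rp l L δ), mul_le_mul_iff_left₀ g.rp_pos] at h
  rwa [Real.exp_add, Real.exp_neg, ← div_eq_inv_mul, le_div_iff₀ (Real.exp_pos _)]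

theorem small {u : ℝ} (h : u ≤ 4) : Real.exp (-L + u) ≤ 1 / 10 :=
  (Real.exp_le_exp.2 (by linarith)).trans (exp_small (L := L) (by linarith [g.hL]))

/-- points of the port disc in the chart -/
theorem surj {z : ℂ} {u : ℝ} (hu : u ≤ 4) (h : z ∈ closedBall (hq l x δ 0) (rp l L δ * Real.exp u)) :
    ∃ ζ, ph l x δ ζ = z ∧ ‖ζ - Complex.I‖ ≤ 1 / 4 := by
  have hr : (l.r : ℂ) ≠ 0 := Complex.ofReal_ne_zero.2 g.hr.ne'
  have e : l.c + l.r * ((z - l.c) / l.r) = z := by field_simp; ring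
  have a := (g.pc_le (v := (z - l.c) / l.r) (by rw [e]; exact mem_closedBall_iff_norm.1 h)).trans
    (g.small hu)
  have n := norm_pos_iff.2 (wch_ne (δ := δ) (yr := 0) (ne0 g.hx) Complex.I)
  have d := g.d0
  obtain ⟨ζ, b, c⟩ := wch_surj (yr := 0) (ne0 g.hx) d Complex.I (z := (z - l.c) / l.r) (by
    unfold pc at a
    rw [div_le_iff₀ (by positivity)] at a
    nlinarith [g.d2])
  exact ⟨ζ, by rw [g.eq, b, e], near_of_pc (ne0 g.hx) d c (by rwa [b])⟩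

omit g in
theorem near_I {ζ : ℂ} (h : ‖ζ - Complex.I‖ ≤ 1 / 4) : ‖ζ‖ ≤ 3 ∧ 3 / 4 ≤ ζ.im ∧ ζ.im ≤ 2 := by
  have a := norm_sub_norm_le ζ Complex.I
  have b := abs_le.1 (Complex.abs_im_le_norm (ζ - Complex.I))
  simp only [Complex.norm_I, Complex.sub_im, Complex.I_im] at a b
  exact ⟨by linarith, by linarith [b.1], by linarith [b.2]⟩

theorem sep {x' : ℂ} (g' : Gm l x' L δ ρ) (h : 2 * ρ ≤ ‖x - x'‖) {ζ ζ' : ℂ}
    (a : ‖ζ‖ ≤ ρ / (2 * δ)) (b : ‖ζ'‖ ≤ 3) : ph l x δ ζ ≠ ph l x' δ ζ' := fun e => by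
  have p : 0 < ρ := by linarith [g.d0, g.d1]
  rw [g.eq, g'.eq, add_right_inj, mul_right_inj' (Complex.ofReal_ne_zero.2 g.hr.ne')] at e
  have c := (wch_mem (yr := 0) g.hx g.d0 g.r1 (by simpa using p.le) a).1
  have d := (wch_mem (yr := 0) g'.hx g.d0 g.r1 (by simpa using p.le)
    (b.trans (by linarith [g.big]))).1
  have f := norm_sub_le_norm_sub_add_norm_sub x (wch x δ 0 ζ) x'
  rw [norm_sub_rev x (wch x δ 0 ζ)] at f
  rw [← e] at d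
  linarith

/-- a point of the window in the port disc -/
theorem port {ζ : ℂ} (a : ‖ζ‖ ≤ ρ / (2 * δ)) {u : ℝ} (hu : u ≤ 4)
    (h : ‖ph l x δ ζ - hq l x δ 0‖ ≤ rp l L δ * Real.exp u) : ‖ζ - Complex.I‖ ≤ 1 / 4 ∧
      3 / 4 * ‖ph l x δ ζ - hq l x δ 0‖ ≤ ‖bl ζ‖ * Real.exp L * rp l L δ ∧
      ‖bl ζ‖ * Real.exp L * rp l L δ ≤ 4 / 3 * ‖ph l x δ ζ - hq l x δ 0‖ := by
  rw [g.eq] at h ⊢
  have b := near_of_pc (ne0 g.hx) g.d0 (dist_I g.d0 (by linarith [g.d2]) g.r1 a)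
    ((g.pc_le h).trans (g.small hu))
  obtain ⟨c, d⟩ := bl_pc (yr := 0) (ne0 g.hx) g.d0 (by linarith [g.d2]) b
  have p : 0 < Real.exp L * rp l L δ := mul_pos (Real.exp_pos _) g.rp_pos
  rw [g.pc_eq]
  exact ⟨b, by nlinarith, by nlinarith⟩

theorem dep_le {ζ : ℂ} (a : ‖ζ‖ ≤ ρ / (2 * δ)) : |δ * ζ.im| ≤ 3 / 4 * ρ := by
  simpa using (wch_mem (yr := 0) g.hx g.d0 g.r1 (by simp; linarith [g.d0, g.d1]) a).2

/-- the strip of the window is far from the other windows -/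
theorem far {x' ζ : ℂ} (h : 2 * ρ ≤ ‖x - x'‖) (a : |ζ.re| ≤ ρ / (2 * δ)) (b : |ζ.im| ≤ 1) :
    l.r * ρ ≤ ‖ph l x δ ζ - (l.c + l.r * x')‖ := by
  rw [g.nrm]
  refine mul_le_mul_of_nonneg_left ?_ g.hr.le
  have c := (wch_mem (yr := 0) g.hx g.d0 g.r1 (by simp; linarith [g.d0, g.d1])
    (z := ζ.re) (by simpa using a)).1
  have n : ‖ζ - ζ.re‖ ≤ 1 := by
    rw [show ζ - ζ.re = ζ.im * Complex.I by rw [sub_eq_iff_eq_add', Complex.re_add_im]]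
    simpa using b
  have d := (wch_dist (x := x) (yr := 0) g.d0 (z := ζ) (z' := ζ.re)
    (by nlinarith [g.d0, g.d2])).2
  rw [norm_wch g.hx] at d
  simp only [Complex.ofReal_im, mul_zero, add_zero, neg_zero, Real.exp_zero, mul_one] at d
  have e := norm_sub_le_norm_sub_add_norm_sub x (wch x δ 0 ζ) x'
  have f := norm_sub_le_norm_sub_add_norm_sub x (wch x δ 0 ζ.re) (wch x δ 0 ζ)
  rw [norm_sub_rev x (wch x δ 0 ζ.re), norm_sub_rev (wch x δ 0 ζ.re) (wch x δ 0 ζ)] at f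
  nlinarith [g.d0, g.d1]

end Gm

/-! ### values of the wall -/

theorem n1_re {u : ℂ} {o : ℝ} (h : ‖u - 1‖ ≤ o) : 1 - o ≤ u.re ∧ ‖u‖ ≤ 1 + o := by
  have a := (abs_le.1 (Complex.abs_re_le_norm (u - 1))).1
  have b := norm_sub_norm_le u 1
  simp only [Complex.sub_re, Complex.one_re, norm_one] at a b
  exact ⟨by linarith, by linarith⟩

/-- the value of the wall in the fibre function -/
def Ps (s : SD) (lm : ℂ → ℂ) (E1 T : ℝ → ℝ) (y : ℝ) (z : ℂ) : ℂ :=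
  s.Θ (z, wv E1 T s.S (fun z => s.d0 z / s.d1 z) (fun z => lm z / s.d1 z) s.e y z)

theorem wall_pt {s : SD} {l : End} {lm Tw : ℂ → ℂ} {E1 T : ℝ → ℝ} {I : Set ℝ} (n : s.Num)
    (W : s.Wall l lm Tw E1 T I) (o1 : s.o ≤ 1 / 10) {z : ℂ}
    (h1 : z ∈ l.ann (Icc (-(2 * s.t)) (2 * s.t))) (h2 : z ∈ l.ann I) (h3 : Tw z = T (l.dep z))
    (h4 : N1 (fun z => lm z / s.d1 z) s.o z) (h5 : 0 ≤ E1 (l.dep z)) :
    s.V (z, s.w z + s.N z) = Ps s lm E1 T (l.dep z) z ∧ 0 ≤ (Ps s lm E1 T (l.dep z) z).re ∧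
      ∀ ν : ℂ, ‖ν‖ ≤ s.R → s.V (z, s.w z + ν) = Ps s lm E1 T (l.dep z) z → ν = s.N z := by
  obtain ⟨a1, a2, a3, a4⟩ := W.str z h1
  have r0 : 0 < s.r := by linarith [n.e.1, n.e.2]
  have o0 : 0 ≤ s.o := (norm_nonneg _).trans h4.2.1
  have d1 : s.d1 z ≠ 0 := fun e => by rw [e, norm_zero, mul_zero] at a1; linarith [n.R]
  set v := wv E1 T s.S (fun z => s.d0 z / s.d1 z) (fun z => lm z / s.d1 z) s.e (l.dep z) z with hv
  have e : v * s.d1 z = s.N z := by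
    rw [W.eq z h2, h3, hv, wv]; push_cast; field_simp; ring
  obtain ⟨b1, b2⟩ := n1_re a4.2.1
  obtain ⟨b3, b4⟩ := n1_re h4.2.1
  obtain ⟨b5, b6⟩ := n1_re (u := 2 - lm z / s.d1 z) (o := s.o) (by
    rw [show 2 - lm z / s.d1 z - 1 = -(lm z / s.d1 z - 1) by ring, norm_neg]; exact h4.2.1)
  obtain ⟨-, t1, t2⟩ := W.pf.dT.2 (l.dep z)
  obtain ⟨-, s1, s2⟩ := W.pf.dS.2 (l.dep z)
  have e0 := n.e.1
  have p1 : 0 ≤ s.e / 2 * T (l.dep z) := by positivity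
  have p2 : 0 ≤ s.e / 2 * s.S (l.dep z) := by positivity
  have bE := (le_abs_self _).trans (W.bd _ h1.2)
  set Sg := E1 (l.dep z) + s.e / 2 * T (l.dep z) + s.e / 2 * s.S (l.dep z) with hS
  have c1 : ‖v‖ ≤ (1 + s.o) * Sg := by
    refine (norm_add₃_le).trans ?_
    simp only [norm_mul, Complex.norm_real, Real.norm_of_nonneg h5, Real.norm_of_nonneg p1,
      Real.norm_of_nonneg p2]
    nlinarith [mul_le_mul_of_nonneg_left b2 h5, mul_le_mul_of_nonneg_left b4 p1,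
      mul_le_mul_of_nonneg_left b6 p2]
  have c2 : (1 - s.o) * Sg ≤ v.re := by
    simp only [hv, wv, Complex.add_re, Complex.re_ofReal_mul]
    nlinarith [mul_le_mul_of_nonneg_left b1 h5, mul_le_mul_of_nonneg_left b3 p1,
      mul_le_mul_of_nonneg_left b5 p2]
  have c0 : 0 ≤ Sg := by positivity
  have c3 : Sg ≤ 5 / 8 * s.r := by nlinarith [n.e.2]
  have c4 : ‖v‖ ≤ s.r := by nlinarith
  refine ⟨by rw [← e]; rfl, ?_, fun ν x y => ?_⟩
  · have := a3 v 0 c4 (by simpa using r0.le)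
    rw [a2.1.self_of_nhds.1, sub_zero, sub_zero] at this
    have f := (abs_le.1 (Complex.abs_re_le_norm (s.Θ (z, v) - v))).1
    rw [Complex.sub_re] at f
    show 0 ≤ (s.Θ (z, v)).re
    nlinarith [mul_le_mul_of_nonneg_left c1 o0, mul_nonneg o0 c0]
  · have f : ‖ν / s.d1 z‖ ≤ s.r := by
      rw [norm_div, div_le_iff₀ (norm_pos_iff.2 d1)]; linarith
    have := a3 (ν / s.d1 z) v f c4
    rw [show s.Θ (z, ν / s.d1 z) = s.Θ (z, v) by
      rw [SD.Θ, div_mul_cancel₀ _ d1]; exact y, sub_self, zero_sub, norm_neg] at this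
    have k : ‖ν / s.d1 z - v‖ ≤ 0 := by nlinarith [norm_nonneg (ν / s.d1 z - v)]
    rw [← e, ← sub_eq_zero.1 (norm_le_zero_iff.1 k), div_mul_cancel₀ _ d1]

theorem spw (hS : St_SPW) {ι : ℝ} (hι : 0 < ι) : ∃ o > (0 : ℝ), ∀ {s : SD} {l : End}
    {lm Tw : ℂ → ℂ} {E1 T : ℝ → ℝ} {I : Set ℝ} (J : Set ℝ) (c : ℝ) (b : ℂ → ℂ), s.Num →
    s.Wall l lm Tw E1 T I → 0 < c → s.t ≤ o * c → s.o ≤ o →
    (∀ x ∈ J, ∀ y : ℝ, |c * y| ≤ 2 * s.t → AnalyticAt ℂ b (x + y * Complex.I) ∧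
      ‖deriv b (x + y * Complex.I)‖ ≤ 100 ∧ b (x + y * Complex.I) ≠ l.c ∧
      l.dep (b (x + y * Complex.I)) = c * y) →
    (∀ y : ℝ, |c * y| ≤ 2 * s.t → (∀ᶠ u in 𝓝 (c * y), E1 u = 0 ∧ T u = 0 ∧ s.S u = 0) ∨
      ∀ x ∈ J, N1 (fun z => lm z / s.d1 z) s.o (b (x + y * Complex.I))) →
    ∃ Ψy : ℝ → ℝ → ℂ, ∀ e' lev : ℝ, SH.Rd e' s.e lev → SH.PW J e' ι (s.t / c) (SH.cW 1) lev
      (fun x y => Ps s lm E1 T (c * y) (b (x + y * Complex.I))) Ψy := by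
  obtain ⟨o, o0, H⟩ := hS ι hι
  refine ⟨o, o0, fun {s l lm Tw E1 T I} J c b n W c0 c1 c2 h1 h2 => ?_⟩
  have k : ∀ y ∈ Icc (-(2 * (s.t / c))) (2 * (s.t / c)), |c * y| ≤ 2 * s.t := fun y a => by
    have := abs_le.2 a
    rw [abs_mul, abs_of_pos c0]
    rw [← mul_div_assoc, le_div_iff₀ c0] at this
    linarith
  have m : ∀ x ∈ J, ∀ y ∈ Icc (-(2 * (s.t / c))) (2 * (s.t / c)), _ := fun x a y d =>
    W.str (b (x + y * Complex.I)) ⟨(h1 x a y (k y d)).2.2.1, by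
      rw [(h1 x a y (k y d)).2.2.2]; exact abs_le.1 (k y d)⟩
  exact H J E1 T s.S s.y2 s.t c s.e s.r s.o b _ _ s.Θ W.pf c0 c1 n.e.1 n.e.2 c2 W.bd
    (fun x a y d => ⟨(h1 x a y (k y d)).1, (h1 x a y (k y d)).2.1, (m x a y d).2.1⟩)
    fun y d => (h2 y (k y d)).imp_right fun f x a => ⟨(m x a y d).2.2.2, f x a⟩

end Pool.Agent.S6.NWIN
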