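import Pool.Agent.Lib.S6.Desc
import Pool.Agent.Lib.SH.B_PROF2
import Pool.Agent.Lib.SH.B_FLAT
import Pool.Agent.Lib.SH.B_AMP
import Pool.Agent.Lib.SH.B_CSM

/-!
The modification of one wall: the old wall is cut near its foot, a small new wall is added.
-/

open Set Filter Topology Metric
open scoped ContDiff

noncomputable section

namespace Pool.Agent.S6.RESET

open Pool.Agent.CF (End Kind Cv)
open Pool.Agent.Lib DESC

/-- a profile which is steep everywhere -/
structure NP (Φ : ℝ → ℝ) (two : Prop) (σ : ℝ) : Prop where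
  pr : SH.PR Φ two
  st : ∀ s, |Φ s| ≤ σ * deriv Φ s
  pos : ∀ s, 0 < s → 0 < Φ s
  neg : two → ∀ s, s < 0 → Φ s < 0

theorem exists_NP (two : Prop) {σ : ℝ} (h : 0 < σ) : ∃ Φ, NP Φ two σ := by
  classical
  obtain ⟨G, a1, a2, a3, a4⟩ := SH.st_prof2.1 σ h
  have g0 : ∀ s, 0 ≤ G s := fun s => by
    rcases le_or_gt s 0 with a | a
    · exact (a2 s a).ge
    · exact (a3 s a).1.le
  have g1 : ∀ s ≤ 0, deriv G s = 0 := fun s a =>
    IsLocalMin.deriv_eq_zero (Eventually.of_forall fun u => (a2 s a).symm ▸ g0 u)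
  obtain ⟨c, c1, c2, c3⟩ : ∃ c : ℝ, 0 ≤ c ∧ (two → c = 1) ∧ (¬ two → c = 0) :=
    ⟨if two then 1 else 0, by split_ifs <;> norm_num, fun a => if_pos a, fun a => if_neg a⟩
  have d : ∀ s, deriv (fun s => G s - c * G (-s)) s = deriv G s + c * deriv G (-s) := fun s => by
    have := (SH.PROF.diff a1 s).sub (((SH.PROF.diff a1 (-s)).comp s (hasDerivAt_neg s)).const_mul c)
    rw [show deriv G s + c * deriv G (-s) = deriv G s - c * (deriv G (-s) * -1) by ring]
    exact this.deriv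
  have p1 : ∀ s, 0 ≤ s → G s - c * G (-s) = G s ∧ deriv G s + c * deriv G (-s) = deriv G s :=
    fun s a => by simp [a2 (-s) (by linarith), g1 (-s) (by linarith)]
  have p2 : ∀ s ≤ 0, G s - c * G (-s) = -(c * G (-s)) ∧
      deriv G s + c * deriv G (-s) = c * deriv G (-s) := fun s a => by simp [a2 s a, g1 s a]
  have q1 : ∀ s, 0 < s → 0 < G s - c * G (-s) := fun s a => (p1 s a.le).1.symm ▸ (a3 s a).1
  have q2 : two → ∀ s, s < 0 → G s - c * G (-s) < 0 := fun b s a => by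
    rw [(p2 s a.le).1, c2 b]; linarith [(a3 (-s) (by linarith)).1]
  refine ⟨fun s => G s - c * G (-s), ⟨?_, eventually_nhdsWithin_of_forall q1,
    fun b => eventually_nhdsWithin_of_forall (q2 b), fun b s a => by simp [c3 b, a2 s a],
    fun A => ?_⟩, fun s => ?_, q1, q2⟩
  · simp only [sub_eq_add_neg]
    exact SH.PROF.flat_add (SH.PROF.flat_left a1 a2) (SH.PROF.flat_right
      (contDiff_const.mul (a1.comp contDiff_neg)).neg fun s a => by simp [a2 (-s) (by linarith)])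
  · have e1 := eventually_nhdsWithin_iff.1 (a4 A)
    have e2 := (continuous_neg.tendsto' (0 : ℝ) 0 neg_zero).eventually e1
    filter_upwards [e1, e2] with s b1 b2
    rw [d]
    rcases lt_trichotomy s 0 with a | rfl | a
    · rw [(p2 s a.le).1, (p2 s a.le).2, abs_neg, abs_of_nonneg (mul_nonneg c1 (g0 _)), abs_of_neg a]
      nlinarith [b2 (neg_pos.2 a)]
    · simp [a2 0 le_rfl]
    · rw [(p1 s a.le).1, (p1 s a.le).2, abs_of_nonneg (g0 _), abs_of_pos a]; exact b1 a
  · rw [d]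
    rcases lt_trichotomy s 0 with a | rfl | a
    · rw [(p2 s a.le).1, (p2 s a.le).2, abs_neg, abs_of_nonneg (mul_nonneg c1 (g0 _))]
      nlinarith [(a3 (-s) (neg_pos.2 a)).2]
    · simp [a2 0 le_rfl, g1 0 le_rfl]
    · rw [(p1 s a.le).1, (p1 s a.le).2, abs_of_nonneg (g0 _)]; exact (a3 s a).2

theorem NP.scale {Φ : ℝ → ℝ} {two : Prop} {σ c : ℝ} (h : NP Φ two σ) (hc : 0 < c) :
    NP (fun s => c * Φ s) two σ := by
  refine ⟨by simpa using SH.PROF.pr_scale h.pr hc one_pos, fun s => ?_,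
    fun s a => mul_pos hc (h.pos s a), fun b s a => mul_neg_of_pos_of_neg hc (h.neg b s a)⟩
  rw [deriv_const_mul_field, abs_mul, abs_of_pos hc]
  nlinarith [h.st s]

/-- the old profile on the scale `t` -/
def OP (Ef : ℝ → ℝ) (two : Prop) (t : ℝ) : Prop := ∀ y ≤ 4 * t, (two → -(4 * t) ≤ y) →
  |Ef y| ≤ t / 64 * deriv Ef y ∧ (0 < y → 0 < Ef y) ∧ (two → y < 0 → Ef y < 0)

theorem exists_OP {Ef : ℝ → ℝ} {two : Prop} (h : SH.PR Ef two) :
    ∃ t0 > 0, ∀ t, 0 < t → t ≤ t0 → OP Ef two t := by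
  obtain ⟨t0, p, q⟩ := PR_small h (2 * 128)
  refine ⟨t0 / 4, by positivity, fun t a b y c d => ?_⟩
  by_cases e : -(4 * t) ≤ y
  · have f : |y| ≤ 2 * (2 * t) := abs_le.2 ⟨by linarith, by linarith⟩
    obtain ⟨q1, q2⟩ := q y (by linarith)
    exact ⟨(PR_stp h (by norm_num) q1 f).trans_eq (by ring), q2⟩
  · have n : ¬ two := fun x => e (d x)
    have y0 : y < 0 := by linarith [not_le.1 e]
    have : Ef =ᶠ[𝓝 y] fun _ => 0 := (eventually_lt_nhds y0).mono fun x e => h.one n x e.le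
    exact ⟨by simp [this.deriv_eq, h.one n y y0.le], fun x => by linarith, fun x => (n x).elim⟩

/-- the inner cut-off -/
def cu (s : ℝ) : ℝ := Real.smoothTransition (2 * s - 1) + Real.smoothTransition (-(2 * s) - 1)

theorem cu_smooth : ContDiff ℝ ∞ cu := by
  unfold cu
  exact (Real.smoothTransition.contDiff.comp (by fun_prop)).add
    (Real.smoothTransition.contDiff.comp (by fun_prop))

theorem cu_nonneg (s : ℝ) : 0 ≤ cu s :=
  add_nonneg (Real.smoothTransition.nonneg _) (Real.smoothTransition.nonneg _)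

theorem cu_zero {s : ℝ} (h : |s| ≤ 1 / 2) : cu s = 0 := by
  rw [abs_le] at h
  rw [cu, Real.smoothTransition.zero_of_nonpos (by linarith),
    Real.smoothTransition.zero_of_nonpos (by linarith), add_zero]

theorem cu_one {s : ℝ} (h : 1 ≤ |s|) : cu s = 1 := by
  rcases le_abs.1 h with h | h
  · rw [cu, Real.smoothTransition.one_of_one_le (by linarith),
      Real.smoothTransition.zero_of_nonpos (by linarith), add_zero]
  · rw [cu, Real.smoothTransition.zero_of_nonpos (by linarith),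
      Real.smoothTransition.one_of_one_le (by linarith), zero_add]

theorem cu_deriv (s : ℝ) : (0 ≤ s → 0 ≤ deriv cu s) ∧ (s ≤ 0 → deriv cu s ≤ 0) := by
  refine ⟨fun a => ?_, fun a => ?_⟩
  · have : cu =ᶠ[𝓝 s] fun s => Real.smoothTransition (2 * s - 1) :=
      (eventually_gt_nhds (show -1 / 2 < s by linarith)).mono fun x b => by
        rw [cu, Real.smoothTransition.zero_of_nonpos (x := -(2 * x) - 1) (by linarith), add_zero]
    rw [this.deriv_eq]
    exact Monotone.deriv_nonneg fun x y b => Real.smoothTransition.monotone (by linarith)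
  · have : cu =ᶠ[𝓝 s] fun s => Real.smoothTransition (-(2 * s) - 1) :=
      (eventually_lt_nhds (show s < 1 / 2 by linarith)).mono fun x b => by
        rw [cu, Real.smoothTransition.zero_of_nonpos (x := 2 * x - 1) (by linarith), zero_add]
    rw [this.deriv_eq]
    exact Antitone.deriv_nonpos fun x y b => Real.smoothTransition.monotone (by linarith)

/-- the cut profile -/
def cut (y1 : ℝ) (Ef : ℝ → ℝ) (s : ℝ) : ℝ := cu (s / y1) * Ef s

theorem cut_smooth (y1 : ℝ) {Ef : ℝ → ℝ} (h : ContDiff ℝ ∞ Ef) : ContDiff ℝ ∞ (cut y1 Ef) :=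
  (cu_smooth.comp (contDiff_id.div_const y1)).mul h

theorem cut_zero {y1 : ℝ} (h0 : 0 < y1) (Ef : ℝ → ℝ) {s : ℝ} (h : |s| ≤ y1 / 2) :
    cut y1 Ef s = 0 := by
  rw [cut, cu_zero, zero_mul]
  rw [abs_div, abs_of_pos h0, div_le_iff₀ h0]; linarith

theorem cut_eq {y1 : ℝ} (h0 : 0 < y1) (Ef : ℝ → ℝ) {s : ℝ} (h : y1 ≤ |s|) :
    cut y1 Ef s = Ef s := by
  rw [cut, cu_one, one_mul]
  rwa [abs_div, abs_of_pos h0, one_le_div h0]

theorem cut_sign (y1 : ℝ) {Ef : ℝ → ℝ} {s : ℝ} (h : 0 ≤ s * Ef s) : 0 ≤ s * cut y1 Ef s := by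
  rw [cut, mul_left_comm]; exact mul_nonneg (cu_nonneg _) h

theorem cut_st {y1 : ℝ} (h0 : 0 < y1) {Ef : ℝ → ℝ} (hE : ContDiff ℝ ∞ Ef) (e0 : Ef 0 = 0) {s b : ℝ}
    (h : 0 ≤ s * Ef s) (hb : 0 ≤ b) (st : |Ef s| ≤ b * deriv Ef s) :
    |cut y1 Ef s| ≤ b * deriv (cut y1 Ef) s := by
  have d0 : HasDerivAt (fun x => cu (x / y1)) (deriv cu (s / y1) * (1 / y1)) s :=
    HasDerivAt.comp (h := fun x => x / y1) s (SH.PROF.diff cu_smooth (s / y1))
      ((hasDerivAt_id s).div_const y1)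
  have d : HasDerivAt (cut y1 Ef) (deriv cu (s / y1) * (1 / y1) * Ef s + cu (s / y1) * deriv Ef s)
      s := d0.mul (SH.PROF.diff hE s)
  have p : 0 ≤ deriv cu (s / y1) * Ef s := by
    rcases lt_trichotomy s 0 with a | rfl | a
    · exact mul_nonneg_of_nonpos_of_nonpos ((cu_deriv _).2 (div_neg_of_neg_of_pos a h0).le)
        (by nlinarith)
    · simp [e0]
    · exact mul_nonneg ((cu_deriv _).1 (div_pos a h0).le) (by nlinarith)
  have q : 0 ≤ deriv cu (s / y1) * (1 / y1) * Ef s := by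
    rw [mul_right_comm]; positivity
  rw [d.deriv, cut, abs_mul, abs_of_nonneg (cu_nonneg _)]
  have := mul_le_mul_of_nonneg_left st (cu_nonneg (s / y1))
  nlinarith [mul_nonneg hb q]

/-- the outer cut-off -/
def co (y0 t s : ℝ) : ℝ :=
  Real.smoothTransition (6 - 2 * s / t) * Real.smoothTransition (6 - 2 * (y0 - s) / t)

theorem co_smooth (y0 t : ℝ) : ContDiff ℝ ∞ (co y0 t) := by
  unfold co
  exact (Real.smoothTransition.contDiff.comp (by fun_prop)).mul
    (Real.smoothTransition.contDiff.comp (by fun_prop))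

theorem co_nonneg (y0 t s : ℝ) : 0 ≤ co y0 t s :=
  mul_nonneg (Real.smoothTransition.nonneg _) (Real.smoothTransition.nonneg _)

theorem co_one {y0 t s : ℝ} (ht : 0 < t) (h1 : s ≤ 5 * t / 2) (h2 : y0 - 5 * t / 2 ≤ s) :
    co y0 t s = 1 := by
  have a : 2 * s / t ≤ 5 := by rw [div_le_iff₀ ht]; linarith
  have b : 2 * (y0 - s) / t ≤ 5 := by rw [div_le_iff₀ ht]; linarith
  rw [co, Real.smoothTransition.one_of_one_le (by linarith),
    Real.smoothTransition.one_of_one_le (by linarith), one_mul]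

theorem co_zero {y0 t s : ℝ} (ht : 0 < t) (h : 3 * t ≤ s ∨ s ≤ y0 - 3 * t) : co y0 t s = 0 := by
  rcases h with h | h
  · have a : 6 ≤ 2 * s / t := by rw [le_div_iff₀ ht]; linarith
    rw [co, Real.smoothTransition.zero_of_nonpos (by linarith), zero_mul]
  · have a : 6 ≤ 2 * (y0 - s) / t := by rw [le_div_iff₀ ht]; linarith
    rw [co, Real.smoothTransition.zero_of_nonpos (x := 6 - 2 * (y0 - s) / t) (by linarith), mul_zero]

theorem two_ne {a b : ℝ} {v w c : ℂ} (hv : 0 < (v * c).re) (hw : 0 < (w * c).re)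
    (h : 0 ≤ a ∧ 0 ≤ b ∨ a ≤ 0 ∧ b ≤ 0) (n : a ≠ 0 ∨ b ≠ 0) : (a : ℂ) * v + b * w ≠ 0 := by
  intro e
  have e1 : ((a : ℂ) * (v * c) + b * (w * c)).re = 0 := by
    rw [show (a : ℂ) * (v * c) + b * (w * c) = (a * v + b * w) * c by ring, e]; simp
  simp only [Complex.add_re, Complex.re_ofReal_mul] at e1
  rcases h with ⟨h1, h2⟩ | ⟨h1, h2⟩ <;> rcases n with n | n
  · nlinarith [mul_pos (h1.lt_of_ne' n) hv, mul_nonneg h2 hw.le]
  · nlinarith [mul_pos (h2.lt_of_ne' n) hw, mul_nonneg h1 hv.le]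
  · nlinarith [mul_neg_of_neg_of_pos (h1.lt_of_ne n) hv, mul_nonpos_of_nonpos_of_nonneg h2 hw.le]
  · nlinarith [mul_neg_of_neg_of_pos (h2.lt_of_ne n) hw, mul_nonpos_of_nonpos_of_nonneg h1 hv.le]

open Classical in
/-- the region of the modification -/
def reg (l : End) (two : Prop) (y0 t : ℝ) : Set ℂ :=
  l.ann (Icc (if two then -(3 * t) else y0) (3 * t))

/-- the modification `M` of the wall `Ef (dep) * lam` -/
structure Md (l : End) (two : Prop) (Ef : ℝ → ℝ) (lam lam' : ℂ → ℂ) (y0 t y1 : ℝ) (Φ : ℝ → ℝ)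
    (M : ℂ → ℂ) : Prop where
  num : 0 < y1 ∧ y1 ≤ t / 2
  np : NP Φ two (t / 64)
  off : ∀ z, z ∉ reg l two y0 t → M z = 0
  eq : ∀ z, z ≠ l.c → l.dep z ≤ 2 * t → (two → -(2 * t) ≤ l.dep z) →
    (Ef (l.dep z) : ℂ) * lam z + M z =
      (cut y1 Ef (l.dep z) : ℝ) * lam z + (Φ (l.dep z - y0) : ℝ) * lam' z
  real : ∀ z ∈ reg l two y0 t, l.dep z ≠ y0 → ∀ f w : ℂ → ℂ, AnalyticAt ℂ w z →
    (∀ᶠ x in 𝓝 z, f x = w x + (Ef (l.dep x) : ℂ) * lam x + M x) → f z ≠ w z ∧ SH.dbar f z ≠ 0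

theorem sm_an {f : ℂ → ℂ} {z : ℂ} (h : AnalyticAt ℂ f z) : ContDiffAt ℝ ∞ f z :=
  (h.contDiffAt (n := ∞)).restrict_scalars ℝ

theorem site {l : End} (hr : 0 < l.r) {two : Prop} {Ef : ℝ → ℝ} (pr : SH.PR Ef two)
    {lam lam' ch : ℂ → ℂ} {y0 t : ℝ} (t0 : 0 < t) (hy : y0 ≤ 0) (hy2 : two → y0 = 0)
    (an : ∀ z ∈ l.ann (Ioo (y0 - 4 * t) (4 * t)), AnalyticAt ℂ lam z ∧ AnalyticAt ℂ lam' z ∧
      0 < (lam z * ch z).re ∧ 0 < (lam' z * ch z).re) (op : OP Ef two t) (k : ℕ) {ε : ℝ}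
    (hε : 0 < ε) : ∃ y1 Φ M, Md l two Ef lam lam' y0 t y1 Φ M ∧ SH.Small k ε M := by
  classical
  set U := l.ann (Ioo (y0 - 4 * t) (4 * t)) with hU
  have oU : IsOpen U := End.isOpen_ann hr isOpen_Ioo
  have dU : ContDiffOn ℝ ∞ l.dep U := fun z hz => (SH.CSM.dep_smooth l hr hz.1).contDiffWithinAt
  have cU : IsCompact {z | z ∈ U ∧ |l.dep z| ≤ t} := by
    have : {z | z ∈ U ∧ |l.dep z| ≤ t} = l.ann (Icc (-t) t) := by
      ext z
      exact ⟨fun a => ⟨a.1.1, abs_le.1 a.2⟩, fun a =>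
        ⟨⟨a.1, by linarith [a.2.1], by linarith [a.2.2]⟩, abs_le.2 a.2⟩⟩
    rw [this]; exact End.isCompact_ann hr isCompact_Icc
  obtain ⟨y1, ⟨s1, y2⟩, p1⟩ := (((SH.st_flat.1 U l.dep lam Ef (fun s => cu s - 1) t oU t0 dU
    (fun z hz => (sm_an (an z hz).1).contDiffWithinAt) cU pr.flat (cu_smooth.sub contDiff_const)
    (fun s a => by rw [cu_one a, sub_self]) k (ε / 2) (half_pos hε)).and
    ((eventually_le_nhds (half_pos t0)).filter_mono nhdsWithin_le_nhds)).and
      self_mem_nhdsWithin).exists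
  replace p1 : 0 < y1 := p1
  obtain ⟨Φ, np⟩ := exists_NP two (show 0 < t / 64 by positivity)
  have sE := pr.flat.1
  have sP := cut_smooth y1 sE
  set ψ : ℝ → ℝ := fun s => Φ (s - y0) * co y0 t s with hψ
  have sψ : ContDiff ℝ ∞ ψ :=
    (np.pr.flat.1.comp (contDiff_id.sub contDiff_const)).mul (co_smooth y0 t)
  have rU : reg l two y0 t ⊆ U := End.ann_mono fun s a => ⟨by
    have := a.1
    split_ifs at this <;> linarith, by linarith [a.2]⟩
  have rI : ∀ z ∈ reg l two y0 t, l.dep z ≤ 3 * t ∧ (two → -(3 * t) ≤ l.dep z) ∧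
      (¬ two → y0 ≤ l.dep z) := fun z a =>
    ⟨a.2.2, fun b => by simpa only [if_pos b] using a.2.1,
      fun b => by simpa only [if_neg b] using a.2.1⟩
  have nI : ∀ z ∈ U, z ∉ reg l two y0 t → 3 * t < l.dep z ∨ (two ∧ l.dep z < -(3 * t)) ∨
      (¬ two ∧ l.dep z < y0) := fun z a b => by
    by_contra c
    push Not at c
    refine b ⟨a.1, ?_, c.1⟩
    split_ifs with d
    · exact c.2.1 d
    · exact c.2.2 d
  have ψ0 : ∀ z ∈ U, z ∉ reg l two y0 t → ψ (l.dep z) = 0 := fun z a b => by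
    rcases nI z a b with c | c | c
    · simp [hψ, co_zero t0 (Or.inl c.le)]
    · simp [hψ, co_zero t0 (Or.inr (show l.dep z ≤ y0 - 3 * t by linarith [hy2 c.1, c.2]))]
    · simp [hψ, np.pr.one c.1 (l.dep z - y0) (by linarith [c.2])]
  have sg : ∀ y ≤ 4 * t, (two → -(4 * t) ≤ y) → 0 ≤ y * Ef y := fun y a b =>
    PR_sign pr (op y a b).2.1 (op y a b).2.2
  have stP : ∀ y ≤ 4 * t, (two → -(4 * t) ≤ y) → |cut y1 Ef y| ≤ t / 64 * deriv (cut y1 Ef) y :=
    fun y a b => cut_st p1 sE (PCS.PR_zero pr) (sg y a b) (by positivity) (op y a b).1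
  have s2 := SH.amp_real U (reg l two y0 t) (fun z => (ψ (l.dep z) : ℂ) * lam' z) oU
    (End.isCompact_ann hr isCompact_Icc) rU
    ((Complex.ofRealCLM.contDiff.comp_contDiffOn (sψ.comp_contDiffOn dU)).mul
      fun z hz => (sm_an (an z hz).2.1).contDiffWithinAt) (fun z a b => by simp [ψ0 z a b]) k (ε / 2)
    (half_pos hε)
  have far : ∀ z ∈ reg l two y0 t, (2 * t ≤ l.dep z ∨ l.dep z ≤ y0 - 2 * t) →
      cut y1 Ef (l.dep z) ≠ 0 := fun z a b => by
    obtain ⟨r1, r2, r3⟩ := rI z a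
    have o := (op (l.dep z) (by linarith) fun x => by linarith [r2 x]).2
    rcases b with b | b
    · rw [cut_eq p1 Ef (le_abs.2 (Or.inl (by linarith)))]; exact (o.1 (by linarith)).ne'
    · rw [cut_eq p1 Ef (le_abs.2 (Or.inr (by linarith)))]
      exact (o.2 (by_contra fun x => by linarith [r3 x]) (by linarith)).ne
  have cS : IsCompact (l.ann (Icc (if two then -(3 * t) else y0) (3 * t) ∩
      {s | 2 * t ≤ s ∨ s ≤ y0 - 2 * t})) :=
    End.isCompact_ann hr (isCompact_Icc.inter_right (isClosed_Ici.union isClosed_Iic))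
  have s3 := cS.eventually_forall_of_forall_eventually (x₀ := (0 : ℝ))
    (P := fun τ z => (deriv (cut y1 Ef) (l.dep z) : ℝ) * lam z +
      ((τ * deriv ψ (l.dep z) : ℝ) : ℂ) * lam' z ≠ 0) fun z a => by
      have a' : z ∈ reg l two y0 t := ⟨a.1, a.2.1⟩
      obtain ⟨b1, b2, b3, -⟩ := an z (rU a')
      obtain ⟨r1, r2, -⟩ := rI z a'
      have c1 : ContinuousAt (fun p : ℝ × ℂ => l.dep p.2) (0, z) :=
        ContinuousAt.comp (f := Prod.snd) (End.continuousAt_dep hr a.1) continuousAt_snd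
      have c2 := (sP.continuous_deriv (by simp)).continuousAt.comp c1
      have c3 := (sψ.continuous_deriv (by simp)).continuousAt.comp c1
      have c4 : ContinuousAt (fun p : ℝ × ℂ => lam p.2) (0, z) :=
        ContinuousAt.comp (f := Prod.snd) b1.continuousAt continuousAt_snd
      have c5 : ContinuousAt (fun p : ℝ × ℂ => lam' p.2) (0, z) :=
        ContinuousAt.comp (f := Prod.snd) b2.continuousAt continuousAt_snd
      refine ContinuousAt.eventually_ne (((Complex.continuous_ofReal.continuousAt.comp c2).mul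
        c4).add ((Complex.continuous_ofReal.continuousAt.comp (continuousAt_fst.mul c3)).mul c5)) ?_
      have d1 := stP (l.dep z) (by linarith) fun x => by linarith [r2 x]
      have d2 := abs_pos.2 (far z a' a.2.2)
      have d3 : deriv (cut y1 Ef) (l.dep z) ≠ 0 := fun e => by rw [e] at d1; linarith
      have d4 : lam z ≠ 0 := fun e => by simp [e] at b3
      simpa using ⟨d3, d4⟩
  obtain ⟨τ, ⟨s2, s3⟩, τ0⟩ := (((s2.and s3).filter_mono (nhdsWithin_le_nhds (s := Ioi 0))).and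
    self_mem_nhdsWithin).exists
  replace τ0 : 0 < τ := τ0
  have eU : ∀ z ∈ U, (Ef (l.dep z) : ℂ) * lam z +
      (U.indicator (fun z => (((cu (l.dep z / y1) - 1) * Ef (l.dep z) : ℝ) : ℂ) * lam z) z +
        U.indicator (fun z => (τ : ℂ) * ((ψ (l.dep z) : ℂ) * lam' z)) z) =
      (cut y1 Ef (l.dep z) : ℝ) * lam z + (τ * ψ (l.dep z) : ℝ) * lam' z := fun z a => by
    simp only [indicator_of_mem a, cut]
    push_cast; ring
  have off : ∀ z, z ∉ reg l two y0 t →
      U.indicator (fun z => (((cu (l.dep z / y1) - 1) * Ef (l.dep z) : ℝ) : ℂ) * lam z) z +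
        U.indicator (fun z => (τ : ℂ) * ((ψ (l.dep z) : ℂ) * lam' z)) z = 0 := fun z b => by
    by_cases a : z ∈ U
    · have e : cut y1 Ef (l.dep z) = Ef (l.dep z) := by
        rcases nI z a b with c | c | c
        · exact cut_eq p1 Ef (le_abs.2 (Or.inl (by linarith)))
        · exact cut_eq p1 Ef (le_abs.2 (Or.inr (by linarith [c.2])))
        · rw [cut, pr.one c.1 _ (by linarith [c.2]), mul_zero]
      have := eU z a
      rw [e, ψ0 z a b] at this
      simpa using this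
    · simp [indicator_of_notMem a]
  refine ⟨y1, fun s => τ * Φ s, _, ⟨⟨p1, y2⟩, np.scale τ0, off, fun z a b c => ?_,
    fun z a n f w hw hf => ?_⟩, (s1.add s2).mono le_rfl (by linarith)⟩
  · by_cases d : y0 - 2 * t ≤ l.dep z
    · rw [eU z ⟨a, by linarith, by linarith⟩, hψ]
      simp only [co_one t0 (show l.dep z ≤ 5 * t / 2 by linarith)
        (show y0 - 5 * t / 2 ≤ l.dep z by linarith), mul_one]
    · have n : ¬ two := fun x => d (by linarith [hy2 x, c x])
      rw [not_le] at d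
      rw [off z fun x => by linarith [(rI z x).2.2 n], cut, pr.one n _ (by linarith),
        np.pr.one n _ (by linarith)]
      simp
  · obtain ⟨b1, b2, b3, b4⟩ := an z (rU a)
    obtain ⟨r1, r2, r3⟩ := rI z a
    have r4 : two → -(4 * t) ≤ l.dep z := fun x => by linarith [r2 x]
    have hf' : ∀ᶠ x in 𝓝 z, f x = w x + ∑ i : Bool,
        ((cond i (τ * ψ (l.dep x)) (cut y1 Ef (l.dep x)) : ℝ) : ℂ) * cond i lam' lam x := by
      filter_upwards [hf, oU.mem_nhds (rU a)] with x c d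
      rw [c, add_assoc, eU x d, Fintype.sum_bool, add_comm (_ * lam x)]; rfl
    have nΦ : Φ (l.dep z - y0) ≠ 0 := by
      rcases lt_or_gt_of_ne n with c | c
      · exact (np.neg (by_contra fun x => by linarith [r3 x]) _ (by linarith)).ne
      · exact (np.pos _ (by linarith)).ne'
    have mid : ¬ (2 * t ≤ l.dep z ∨ l.dep z ≤ y0 - 2 * t) →
        ψ =ᶠ[𝓝 (l.dep z)] fun s => Φ (s - y0) := fun c => by
      push Not at c
      filter_upwards [eventually_lt_nhds c.1, eventually_gt_nhds c.2] with s d e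
      simp only [hψ, co_one t0 (show s ≤ 5 * t / 2 by linarith)
        (show y0 - 5 * t / 2 ≤ s by linarith), mul_one]
    refine ⟨fun e => ?_, (SH.CSM.d1 Bool l.dep
      (fun i s => ((cond i (τ * ψ s) (cut y1 Ef s) : ℝ) : ℂ))
      (fun i => ((cond i (τ * deriv ψ (l.dep z)) (deriv (cut y1 Ef) (l.dep z)) : ℝ) : ℂ))
      (fun i => cond i lam' lam) f w z
      ((SH.CSM.dep_smooth l hr a.1).differentiableAt (by simp)) (SH.CSM.dep_grad l hr a.1) hw
      (fun i => ?_) hf' ?_).2⟩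
    · have := hf'.self_of_nhds
      rw [e, left_eq_add, Fintype.sum_bool, add_comm] at this
      refine two_ne b3 b4 ?_ ?_ this
      · have g1 := cut_sign y1 (sg (l.dep z) (by linarith) r4)
        have g2 := co_nonneg y0 t (l.dep z)
        rcases lt_or_gt_of_ne n with c | c
        · have x : two := by_contra fun x => by linarith [r3 x]
          have := np.neg x (l.dep z - y0) (by linarith)
          exact Or.inr ⟨show cut y1 Ef (l.dep z) ≤ 0 by nlinarith [hy2 x], mul_nonpos_of_nonneg_of_nonpos τ0.le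
            (mul_nonpos_of_nonpos_of_nonneg this.le g2)⟩
        · have := np.pos (l.dep z - y0) (by linarith)
          refine Or.inl ⟨?_, mul_nonneg τ0.le (mul_nonneg this.le g2)⟩
          rcases le_or_gt (l.dep z) 0 with d | d
          · simp only [cond, cut, pr.one (fun x => by linarith [hy2 x]) _ d, mul_zero, le_refl]
          · exact nonneg_of_mul_nonneg_right g1 d |>.trans_eq rfl
      · by_cases c : 2 * t ≤ l.dep z ∨ l.dep z ≤ y0 - 2 * t
        · exact Or.inl (far z a c)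
        · exact Or.inr (mul_ne_zero τ0.ne' ((mid c).eq_of_nhds.symm ▸ nΦ))
    · cases i
      · exact ⟨(SH.PROF.diff sP _).ofReal_comp, b1⟩
      · exact ⟨((SH.PROF.diff sψ _).const_mul τ).ofReal_comp, b2⟩
    · rw [Fintype.sum_bool, add_comm]
      by_cases c : 2 * t ≤ l.dep z ∨ l.dep z ≤ y0 - 2 * t
      · exact s3 z ⟨a.1, a.2, c⟩
      · have d1 := stP (l.dep z) (by linarith) r4
        have d2 : 0 < deriv ψ (l.dep z) := by
          rw [(mid c).deriv_eq, deriv_comp_sub_const]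
          have := (abs_pos.2 nΦ).trans_le (np.st _)
          exact (mul_pos_iff_of_pos_left (by positivity)).1 this
        refine two_ne b3 b4 (Or.inl ⟨?_, (mul_pos τ0 d2).le⟩) (Or.inr (mul_pos τ0 d2).ne')
        exact nonneg_of_mul_nonneg_right ((abs_nonneg _).trans d1) (by positivity) |>.trans_eq rfl

end Pool.Agent.S6.RESET
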