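import Pool.Agent.Lib.S6.Upd
import Pool.Agent.Lib.SH.B_PROF2
import Pool.Agent.Lib.SH.B_AMP
import Pool.Agent.Lib.SH.B_CSM
import Pool.Agent.Lib.SH.B_FLAT

/-!
The modification of a wall at one end: the old profile is cut at its foot and a small new wall is
added.
-/

open Set Filter Topology Metric
open scoped ContDiff

noncomputable section

namespace Pool.Agent.S6.RW

open Pool.Agent.CF (End Kind)
open Pool.Agent.Lib

/-! ### profiles -/

/-- cut-off at the foot -/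
def cut (s : ℝ) : ℝ := Real.smoothTransition (2 * s - 1) + Real.smoothTransition (-2 * s - 1)

theorem cut_smooth : ContDiff ℝ ∞ cut :=
  (Real.smoothTransition.contDiff.comp ((contDiff_const.mul contDiff_id).sub contDiff_const)).add
    (Real.smoothTransition.contDiff.comp ((contDiff_const.mul contDiff_id).sub contDiff_const))

theorem cut_nonneg (s : ℝ) : 0 ≤ cut s :=
  add_nonneg (Real.smoothTransition.nonneg _) (Real.smoothTransition.nonneg _)

theorem cut_zero {s : ℝ} (h : |s| ≤ 1 / 2) : cut s = 0 := by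
  obtain ⟨a, b⟩ := abs_le.1 h
  rw [cut, Real.smoothTransition.zero_of_nonpos (by linarith),
    Real.smoothTransition.zero_of_nonpos (by linarith), add_zero]

theorem cut_one {s : ℝ} (h : 1 ≤ |s|) : cut s = 1 := by
  rcases le_abs.1 h with a | a
  · rw [cut, Real.smoothTransition.one_of_one_le (by linarith),
      Real.smoothTransition.zero_of_nonpos (by linarith), add_zero]
  · rw [cut, Real.smoothTransition.zero_of_nonpos (by linarith),
      Real.smoothTransition.one_of_one_le (by linarith), zero_add]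

theorem S_zero {s : ℝ} (h : s < 0) : deriv Real.smoothTransition s = 0 := by
  have : Real.smoothTransition =ᶠ[𝓝 s] fun _ => 0 := by
    filter_upwards [eventually_lt_nhds h] with x a using Real.smoothTransition.zero_of_nonpos a.le
  rw [this.deriv_eq, deriv_const]

theorem cut_deriv (s : ℝ) : 0 ≤ s * deriv cut s := by
  have d : ∀ x, HasDerivAt Real.smoothTransition (deriv Real.smoothTransition x) x :=
    SH.PROF.diff Real.smoothTransition.contDiff
  have h1 : HasDerivAt (fun s : ℝ => 2 * s - 1) 2 s := by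
    simpa using ((hasDerivAt_id s).const_mul 2).sub_const 1
  have h2 : HasDerivAt (fun s : ℝ => -2 * s - 1) (-2) s := by
    simpa using ((hasDerivAt_id s).const_mul (-2)).sub_const 1
  have h : HasDerivAt cut (deriv Real.smoothTransition (2 * s - 1) * 2 +
      deriv Real.smoothTransition (-2 * s - 1) * -2) s := ((d _).comp s h1).add ((d _).comp s h2)
  rw [h.deriv]
  have a := SH.PROF.S_nonneg (2 * s - 1)
  have b := SH.PROF.S_nonneg (-2 * s - 1)
  rcases le_total 0 s with c | c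
  · rw [S_zero (s := -2 * s - 1) (by linarith)]; nlinarith
  · rw [S_zero (s := 2 * s - 1) (by linarith)]; nlinarith

/-- outer cut-off -/
def chi (t s : ℝ) : ℝ := Real.smoothTransition (6 - 2 * s / t)

theorem chi_smooth (t : ℝ) : ContDiff ℝ ∞ (chi t) :=
  Real.smoothTransition.contDiff.comp
    (contDiff_const.sub ((contDiff_const.mul contDiff_id).div_const t))

theorem chi_one {t s : ℝ} (ht : 0 < t) (h : s ≤ 5 * t / 2) : chi t s = 1 :=
  Real.smoothTransition.one_of_one_le (by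
    have : 2 * s / t ≤ 5 := by rw [div_le_iff₀ ht]; linarith
    linarith)

theorem chi_zero {t s : ℝ} (ht : 0 < t) (h : 3 * t ≤ s) : chi t s = 0 :=
  Real.smoothTransition.zero_of_nonpos (by
    have : 6 ≤ 2 * s / t := by rw [le_div_iff₀ ht]; linarith
    linarith)

/-- monotone steep profile with foot `y0` at the scale `t` -/
structure Mon (f : ℝ → ℝ) (two : Prop) (y0 t : ℝ) : Prop where
  sm : ContDiff ℝ ∞ f
  pos : ∀ s, y0 < s → s ≤ 3 * t → 0 < f s
  neg : two → ∀ s, -(3 * t) ≤ s → s < y0 → f s < 0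
  one : ¬ two → ∀ s ≤ y0, f s = 0
  zero : f y0 = 0
  stp : ∀ s ≤ 3 * t, (two → -(3 * t) ≤ s) → |f s| ≤ t / 64 * deriv f s

theorem mon_of_pr {f : ℝ → ℝ} {two : Prop} (h : SH.PR f two) :
    ∀ᶠ t in 𝓝[>] (0 : ℝ), Mon f two 0 t := by
  have h1 : ∀ᶠ s in 𝓝 (0 : ℝ), (0 < s → 0 < f s) ∧ (two → s < 0 → f s < 0) ∧
      192 * |f s| ≤ |s| * deriv f s := by
    refine (eventually_nhdsWithin_iff.1 h.pos).and (Eventually.and ?_ (h.steep 192))
    by_cases a : two
    · exact (eventually_nhdsWithin_iff.1 (h.neg a)).mono fun s b _ => b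
    · exact Eventually.of_forall fun _ b => absurd b a
  obtain ⟨δ, hδ, h2⟩ := Metric.eventually_nhds_iff.1 h1
  have e : ∀ s t : ℝ, t < δ / 3 → -(3 * t) ≤ s → s ≤ 3 * t → dist s 0 < δ := fun s t a b c => by
    rw [Real.dist_eq, sub_zero, abs_lt]; constructor <;> linarith
  filter_upwards [nhdsWithin_le_nhds (eventually_lt_nhds (show 0 < δ / 3 by positivity)),
    self_mem_nhdsWithin] with t a b
  replace b : 0 < t := b
  refine ⟨h.flat.1, fun s c d => (h2 (e s t a (by linarith) d)).1 c,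
    fun x s c d => (h2 (e s t a c (by linarith))).2.1 x d, h.one, PCS.PR_zero h, fun s c d => ?_⟩
  by_cases x : -(3 * t) ≤ s
  · have p := (h2 (e s t a x c)).2.2
    have q : |s| ≤ 3 * t := abs_le.2 ⟨x, c⟩
    by_cases y : s = 0
    · rw [y, PCS.PR_zero h, abs_zero]
      have := h.flat.2 1
      rw [iteratedDeriv_one] at this
      rw [this, mul_zero]
    · have r : 0 < |s| := abs_pos.2 y
      have : 0 ≤ deriv f s := by
        by_contra z
        nlinarith [abs_nonneg (f s), mul_pos r (neg_pos.2 (not_le.1 z))]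
      nlinarith
  · have y : ¬ two := fun y => x (d y)
    have z : s < 0 := by linarith [not_le.1 x]
    have : f =ᶠ[𝓝 s] fun _ => 0 := by
      filter_upwards [eventually_lt_nhds z] with u v using h.one y u v.le
    rw [this.deriv_eq, deriv_const, h.one y s z.le]; simp

theorem exists_G {t : ℝ} (ht : 0 < t) :
    ∃ G : ℝ → ℝ, SH.PR G False ∧ ∀ y0, Mon (fun s => G (s - y0)) False y0 t := by
  obtain ⟨G, a1, a2, a3, a4⟩ := SH.st_prof2.1 (t / 64) (by positivity)
  have a5 : ∀ s ≤ 0, deriv G s = 0 := fun s hs => IsLocalMin.deriv_eq_zero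
    (Eventually.of_forall fun u => by
      rw [a2 s hs]
      rcases lt_or_ge 0 u with hu | hu
      · exact (a3 u hu).1.le
      · exact (a2 u hu).ge)
  refine ⟨G, ⟨SH.PROF.flat_left a1 a2, eventually_nhdsWithin_of_forall fun s a => (a3 s a).1,
    False.elim, fun _ => a2, fun A => ?_⟩, fun y0 => ⟨a1.comp (contDiff_id.sub contDiff_const),
    fun s a _ => (a3 _ (sub_pos.2 a)).1, False.elim, fun _ s a => a2 _ (sub_nonpos.2 a),
    by simp [a2 0 le_rfl], fun s _ _ => ?_⟩⟩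
  · filter_upwards [eventually_nhdsWithin_iff.1 (a4 A)] with s a
    rcases lt_or_ge 0 s with b | b
    · rw [abs_of_pos b, abs_of_pos (a3 s b).1]; exact a b
    · rw [a2 s b, a5 s b]; simp
  · rw [deriv_comp_sub_const]
    rcases lt_or_ge 0 (s - y0) with b | b
    · rw [abs_of_pos (a3 _ b).1]; exact (a3 _ b).2
    · rw [a2 _ b, a5 _ b]; simp

namespace Mon

variable {f : ℝ → ℝ} {two : Prop} {y0 t : ℝ}

theorem der (h : Mon f two y0 t) (s : ℝ) : HasDerivAt f (deriv f s) s := SH.PROF.diff h.sm s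

theorem ne (h : Mon f two y0 t) {s : ℝ} (h1 : s ≤ 3 * t)
    (h2 : y0 < s ∨ (two ∧ -(3 * t) ≤ s ∧ s < y0)) : f s ≠ 0 :=
  h2.elim (fun a => (h.pos s a h1).ne') fun a => (h.neg a.1 s a.2.1 a.2.2).ne

theorem dnn (h : Mon f two y0 t) (ht : 0 < t) {s : ℝ} (h1 : s ≤ 3 * t)
    (h2 : two → -(3 * t) ≤ s) : 0 ≤ deriv f s :=
  nonneg_of_mul_nonneg_right ((abs_nonneg _).trans (h.stp s h1 h2)) (by positivity)

theorem dpos (h : Mon f two y0 t) (ht : 0 < t) {s : ℝ} (h1 : s ≤ 3 * t)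
    (h2 : two → -(3 * t) ≤ s) (h3 : f s ≠ 0) : 0 < deriv f s :=
  (mul_pos_iff_of_pos_left (by positivity)).1 ((abs_pos.2 h3).trans_le (h.stp s h1 h2))

theorem sgn (h : Mon f two y0 t) {s : ℝ} (h1 : s ≤ 3 * t) (h2 : two → -(3 * t) ≤ s) :
    0 ≤ (s - y0) * f s := by
  rcases lt_trichotomy y0 s with a | a | a
  · exact (mul_pos (sub_pos.2 a) (h.pos s a h1)).le
  · rw [a, sub_self, zero_mul]
  · by_cases b : two
    · exact (mul_pos_of_neg_of_neg (sub_neg.2 a) (h.neg b s (h2 b) a)).le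
    · rw [h.one b s a.le, mul_zero]

theorem smul (h : Mon f two y0 t) {τ : ℝ} (hτ : 0 < τ) : Mon (fun s => τ * f s) two y0 t := by
  refine ⟨contDiff_const.mul h.sm, fun s a b => mul_pos hτ (h.pos s a b),
    fun x s a b => mul_neg_of_pos_of_neg hτ (h.neg x s a b),
    fun x s a => by rw [h.one x s a, mul_zero], by rw [h.zero, mul_zero], fun s a b => ?_⟩
  rw [((h.der s).const_mul τ).deriv, abs_mul, abs_of_pos hτ]
  nlinarith [h.stp s a b]

end Mon

/-- the cut profile -/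
def E1 (y1 : ℝ) (f : ℝ → ℝ) (s : ℝ) : ℝ := cut (s / y1) * f s

theorem E1_smooth {f : ℝ → ℝ} (hf : ContDiff ℝ ∞ f) (y1 : ℝ) : ContDiff ℝ ∞ (E1 y1 f) :=
  (cut_smooth.comp (contDiff_id.div_const y1)).mul hf

theorem E1_zero {y1 s : ℝ} (h0 : 0 < y1) (f : ℝ → ℝ) (h : |s| ≤ y1 / 2) : E1 y1 f s = 0 := by
  rw [E1, cut_zero, zero_mul]
  rw [abs_div, abs_of_pos h0, div_le_iff₀ h0]; linarith

theorem E1_eq {y1 s : ℝ} (h0 : 0 < y1) (f : ℝ → ℝ) (h : y1 ≤ |s|) : E1 y1 f s = f s := by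
  rw [E1, cut_one, one_mul]
  rwa [abs_div, abs_of_pos h0, one_le_div h0]

theorem E1_stp {f : ℝ → ℝ} {two : Prop} {t y1 : ℝ} (h : Mon f two 0 t) (ht : 0 < t) (h0 : 0 < y1)
    {s : ℝ} (h1 : s ≤ 3 * t) (h2 : two → -(3 * t) ≤ s) :
    |E1 y1 f s| ≤ t / 64 * deriv (E1 y1 f) s ∧ 0 ≤ s * E1 y1 f s := by
  have d : HasDerivAt (E1 y1 f) (deriv cut (s / y1) * (1 / y1) * f s + cut (s / y1) * deriv f s) s :=
    ((SH.PROF.diff cut_smooth _).comp s ((hasDerivAt_id s).div_const y1)).mul (h.der s)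
  have a := h.sgn h1 h2
  rw [sub_zero] at a
  have b := cut_deriv (s / y1)
  have c := cut_nonneg (s / y1)
  have e : 0 ≤ deriv cut (s / y1) * (1 / y1) * f s := by
    rcases lt_trichotomy 0 s with x | x | x
    · exact mul_nonneg (mul_nonneg (nonneg_of_mul_nonneg_right b (div_pos x h0)) (by positivity))
        (nonneg_of_mul_nonneg_right a x)
    · rw [← x, h.zero, mul_zero]
    · have p : deriv cut (s / y1) ≤ 0 := by
        by_contra z
        nlinarith [mul_pos (neg_pos.2 (div_neg_of_neg_of_pos x h0)) (not_le.1 z)]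
      have q : f s ≤ 0 := by
        by_contra z
        nlinarith [mul_pos (neg_pos.2 x) (not_le.1 z)]
      have r : 0 < 1 / y1 := by positivity
      nlinarith [mul_nonneg (mul_nonneg (neg_nonneg.2 p) (neg_nonneg.2 q)) r.le]
  refine ⟨?_, by rw [E1]; nlinarith [mul_nonneg c a]⟩
  rw [d.deriv, E1, abs_mul, abs_of_nonneg c]
  nlinarith [mul_le_mul_of_nonneg_left (h.stp s h1 h2) c, mul_nonneg ht.le e]

/-- the added profile -/
def E2 (y0 t τ : ℝ) (G : ℝ → ℝ) (s : ℝ) : ℝ := τ * (chi t s * chi t (y0 - s) * G s)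

theorem H_smooth {G : ℝ → ℝ} (hG : ContDiff ℝ ∞ G) (y0 t : ℝ) :
    ContDiff ℝ ∞ fun s => chi t s * chi t (y0 - s) * G s :=
  ((chi_smooth t).mul ((chi_smooth t).comp (contDiff_const.sub contDiff_id))).mul hG

theorem E2_eq {y0 t s : ℝ} (ht : 0 < t) (τ : ℝ) (G : ℝ → ℝ) (h1 : s ≤ 5 * t / 2)
    (h2 : y0 - 5 * t / 2 ≤ s) : E2 y0 t τ G s = τ * G s := by
  rw [E2, chi_one ht h1, chi_one ht (by linarith), one_mul, one_mul]

/-! ### the modification -/

theorem slit {a b : ℝ} {u v : ℂ} (hu : u ≠ 0) (h : v / u ∈ Complex.slitPlane) (hb : b ≠ 0)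
    (hab : 0 ≤ a * b) : (a : ℂ) * u + b * v ≠ 0 := by
  intro e
  have hb' : (b : ℂ) ≠ 0 := Complex.ofReal_ne_zero.2 hb
  have : v / u = ((-(a * b / b ^ 2) : ℝ) : ℂ) := by
    push_cast; field_simp; linear_combination e
  rw [this, Complex.ofReal_mem_slitPlane] at h
  have : 0 ≤ a * b / b ^ 2 := by positivity
  linarith

theorem slit_of {u v d : ℂ} (hu : 0 < (u * d).re) (hv : 0 < (v * d).re) :
    v / u ∈ Complex.slitPlane := by
  have h0 : u ≠ 0 := fun e => by simp [e] at hu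
  rw [Complex.mem_slitPlane_iff]
  by_contra c
  obtain ⟨c1, c2⟩ := not_or.1 c
  have e : v * d = v / u * (u * d) := by field_simp
  rw [e, Complex.mul_re, not_not.1 c2, zero_mul, sub_zero] at hv
  nlinarith [not_lt.1 c1]

theorem ev_ne {K : Set ℂ} (hK : IsCompact K) {a b : ℂ → ℂ} (ha : ∀ z ∈ K, ContinuousAt a z)
    (hb : ∀ z ∈ K, ContinuousAt b z) (h0 : ∀ z ∈ K, a z ≠ 0) :
    ∀ᶠ τ : ℝ in 𝓝 0, ∀ z ∈ K, a z + τ * b z ≠ 0 := by
  refine hK.eventually_forall_of_forall_eventually fun z hz => ?_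
  have : ContinuousAt (fun x : ℝ × ℂ => a x.2 + x.1 * b x.2) (0, z) :=
    (ContinuousAt.comp (x := ((0 : ℝ), z)) (ha z hz) continuousAt_snd).add
      ((Complex.continuous_ofReal.continuousAt.comp continuousAt_fst).mul
        (ContinuousAt.comp (x := ((0 : ℝ), z)) (hb z hz) continuousAt_snd))
  exact this.eventually_ne (by simpa using h0 z hz)

theorem sm_an {f : ℂ → ℂ} {z : ℂ} (h : AnalyticAt ℂ f z) : ContDiffAt ℝ ∞ f z :=
  (h.contDiffAt (n := ∞)).restrict_scalars ℝ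

/-- data of one end -/
structure Site (l : End) (two : Prop) (y0 t : ℝ) (f G : ℝ → ℝ) (lam lam' : ℂ → ℂ) : Prop where
  hr : 0 < l.r
  ht : 0 < t
  hy : y0 ≤ 0 ∧ (two → y0 = 0)
  flat : SH.Flat f
  hf : Mon f two 0 t
  hG : Mon G two y0 t
  an : ∀ z ∈ l.ann (Ioo (y0 - 4 * t) (4 * t)), AnalyticAt ℂ lam z ∧ AnalyticAt ℂ lam' z ∧
    lam z ≠ 0 ∧ lam' z / lam z ∈ Complex.slitPlane

/-- the modification -/
def md (l : End) (y0 t y1 τ : ℝ) (f G : ℝ → ℝ) (lam lam' : ℂ → ℂ) : ℂ → ℂ :=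
  (l.ann (Ioo (y0 - 4 * t) (4 * t))).indicator fun z =>
    ((E1 y1 f (l.dep z) - f (l.dep z) : ℝ) : ℂ) * lam z + (E2 y0 t τ G (l.dep z) : ℝ) * lam' z

namespace Site

variable {l : End} {two : Prop} {y0 t : ℝ} {f G : ℝ → ℝ} {lam lam' : ℂ → ℂ}

theorem small (h : Site l two y0 t f G lam lam') (n : ℕ) {ε : ℝ} (hε : 0 < ε) :
    ∀ᶠ y1 in 𝓝[>] (0 : ℝ), ∀ᶠ τ in 𝓝 (0 : ℝ), SH.Small n ε (md l y0 t y1 τ f G lam lam') := by
  have ht := h.ht
  have hy := h.hy.1
  set U := l.ann (Ioo (y0 - 4 * t) (4 * t)) with hU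
  have oU : IsOpen U := End.isOpen_ann h.hr isOpen_Ioo
  have dU : ContDiffOn ℝ ∞ l.dep U := fun z hz =>
    (SH.CSM.dep_smooth l h.hr hz.1).contDiffWithinAt
  have cU : IsCompact {z | z ∈ U ∧ |l.dep z| ≤ t} := by
    have : {z | z ∈ U ∧ |l.dep z| ≤ t} = l.ann (Icc (-t) t) := by
      ext z
      exact ⟨fun a => ⟨a.1.1, abs_le.1 a.2⟩, fun a =>
        ⟨⟨a.1, by linarith [a.2.1], by linarith [a.2.2]⟩, abs_le.2 a.2⟩⟩
    rw [this]; exact End.isCompact_ann h.hr isCompact_Icc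
  have s2 := SH.st_amp.1 U (l.ann (Icc (y0 - 3 * t) (3 * t)))
    (fun z => ((chi t (l.dep z) * chi t (y0 - l.dep z) * G (l.dep z) : ℝ) : ℂ) * lam' z) oU
    (End.isCompact_ann h.hr isCompact_Icc)
    (End.ann_mono (Icc_subset_Ioo (by linarith) (by linarith)))
    ((Complex.ofRealCLM.contDiff.comp_contDiffOn ((H_smooth h.hG.sm y0 t).comp_contDiffOn dU)).mul
      fun z hz => (sm_an (h.an z hz).2.1).contDiffWithinAt)
    (fun z hz hn => by
      rcases le_total (3 * t) (l.dep z) with a | a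
      · rw [chi_zero ht a]; simp
      · rw [chi_zero (s := y0 - l.dep z) ht
          (by linarith [lt_of_not_ge fun b => hn ⟨hz.1, b, a⟩])]; simp) n (ε / 2) (half_pos hε)
  filter_upwards [SH.st_flat.1 U l.dep lam f (fun s => cut s - 1) t oU ht dU
    (fun z hz => (sm_an (h.an z hz).1).contDiffWithinAt) cU h.flat
    (cut_smooth.sub contDiff_const) (fun s a => by rw [cut_one a, sub_self]) n (ε / 2)
    (half_pos hε)] with y1 s1
  filter_upwards [(Complex.continuous_ofReal.tendsto 0).eventually s2] with τ s2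
  refine ((s1.add s2).mono le_rfl (add_halves ε).le).congr fun z => ?_
  unfold md
  by_cases hz : z ∈ U
  · rw [indicator_of_mem hz, indicator_of_mem hz, indicator_of_mem hz, E1, E2]
    push_cast; ring
  · rw [indicator_of_notMem hz, indicator_of_notMem hz, indicator_of_notMem hz, add_zero]

theorem supp (h : Site l two y0 t f G lam lam') {y1 τ : ℝ} (h0 : 0 < y1) (h1 : y1 ≤ t) {z : ℂ}
    (hz : md l y0 t y1 τ f G lam lam' z ≠ 0) :
    z ∈ l.ann (Icc (y0 - 3 * t) (3 * t)) ∧ (¬ two → y0 < l.dep z) := by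
  have ht := h.ht
  have hy := h.hy.1
  have hU : z ∈ l.ann (Ioo (y0 - 4 * t) (4 * t)) := mem_of_indicator_ne_zero hz
  rw [md, indicator_of_mem hU] at hz
  refine ⟨⟨hU.1, le_of_not_gt fun a => hz ?_, le_of_not_gt fun a => hz ?_⟩,
    fun a => lt_of_not_ge fun b => hz ?_⟩
  · rw [E1_eq h0 f (le_abs.2 (Or.inr (by linarith))), E2,
      chi_zero (s := y0 - l.dep z) ht (by linarith)]; simp
  · rw [E1_eq h0 f (le_abs.2 (Or.inl (by linarith))), E2, chi_zero ht a.le]; simp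
  · rw [E1, E2, h.hf.one a _ (b.trans hy), h.hG.one a _ b]; simp

theorem eq (y1 τ : ℝ) {z : ℂ} (hz : z ∈ l.ann (Ioo (y0 - 4 * t) (4 * t))) :
    (f (l.dep z) : ℂ) * lam z + md l y0 t y1 τ f G lam lam' z =
      (E1 y1 f (l.dep z) : ℂ) * lam z + (E2 y0 t τ G (l.dep z) : ℝ) * lam' z := by
  rw [md, indicator_of_mem hz]; push_cast; ring

/-- the new wall is off the sheet and totally real -/
theorem nondeg (h : Site l two y0 t f G lam lam') : ∀ᶠ τ in 𝓝[>] (0 : ℝ), ∀ y1, 0 < y1 →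
    y1 ≤ t → ∀ z ∈ l.ann (Icc (y0 - 3 * t) (3 * t)), (y0 < l.dep z ∨ (two ∧ l.dep z < y0)) →
      (E1 y1 f (l.dep z) : ℂ) * lam z + (E2 y0 t τ G (l.dep z) : ℝ) * lam' z ≠ 0 ∧
      (deriv (E1 y1 f) (l.dep z) : ℝ) * lam z +
        (deriv (E2 y0 t τ G) (l.dep z) : ℝ) * lam' z ≠ 0 := by
  have ht := h.ht
  have hy := h.hy.1
  have hJ : IsCompact (Icc (2 * t) (3 * t) ∪ {s | two ∧ s ∈ Icc (-(3 * t)) (-(2 * t))}) := by
    refine isCompact_Icc.union ?_
    by_cases a : two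
    · simp only [a, true_and]; exact isCompact_Icc
    · simp [a]
  have hK := End.isCompact_ann h.hr hJ
  have mem : ∀ z ∈ l.ann (Icc (2 * t) (3 * t) ∪ {s | two ∧ s ∈ Icc (-(3 * t)) (-(2 * t))}),
      z ∈ l.ann (Ioo (y0 - 4 * t) (4 * t)) ∧ l.dep z ≤ 3 * t ∧ (two → -(3 * t) ≤ l.dep z) ∧
        f (l.dep z) ≠ 0 := by
    rintro z ⟨a, b | ⟨b, c⟩⟩
    · exact ⟨⟨a, by linarith [b.1], by linarith [b.2]⟩, b.2, fun _ => by linarith [b.1],
        h.hf.ne b.2 (Or.inl (by linarith [b.1]))⟩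
    · have := h.hy.2 b
      exact ⟨⟨a, by linarith [c.1], by linarith [c.2]⟩, by linarith [c.2], fun _ => c.1,
        h.hf.ne (by linarith [c.2]) (Or.inr ⟨b, c.1, by linarith [c.2]⟩)⟩
  have cont : ∀ (g : ℝ → ℝ) (u : ℂ → ℂ) (z : ℂ), Continuous g → z ≠ l.c → AnalyticAt ℂ u z →
      ContinuousAt (fun z => (g (l.dep z) : ℂ) * u z) z := fun g u z a b c =>
    ((Complex.continuous_ofReal.comp a).continuousAt.comp (End.continuousAt_dep h.hr b)).mul
      c.continuousAt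
  have hH := H_smooth h.hG.sm y0 t
  have k1 := ev_ne hK (a := fun z => (f (l.dep z) : ℂ) * lam z)
    (b := fun z => ((chi t (l.dep z) * chi t (y0 - l.dep z) * G (l.dep z) : ℝ) : ℂ) * lam' z)
    (fun z a => cont _ _ z h.hf.sm.continuous a.1 (h.an z (mem z a).1).1)
    (fun z a => cont _ _ z hH.continuous a.1 (h.an z (mem z a).1).2.1)
    fun z a => mul_ne_zero (Complex.ofReal_ne_zero.2 (mem z a).2.2.2) (h.an z (mem z a).1).2.2.1
  have k2 := ev_ne hK (a := fun z => (deriv f (l.dep z) : ℝ) * lam z)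
    (b := fun z => (deriv (fun s => chi t s * chi t (y0 - s) * G s) (l.dep z) : ℝ) * lam' z)
    (fun z a => cont _ _ z (h.hf.sm.continuous_deriv (by simp)) a.1 (h.an z (mem z a).1).1)
    (fun z a => cont _ _ z (hH.continuous_deriv (by simp)) a.1 (h.an z (mem z a).1).2.1)
    fun z a => mul_ne_zero (Complex.ofReal_ne_zero.2
      (h.hf.dpos ht (mem z a).2.1 (mem z a).2.2.1 (mem z a).2.2.2).ne') (h.an z (mem z a).1).2.2.1
  filter_upwards [nhdsWithin_le_nhds k1, nhdsWithin_le_nhds k2, self_mem_nhdsWithin]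
    with τ k1 k2 hτ y1 p0 p1 z hz hs
  replace hτ : 0 < τ := hτ
  obtain ⟨z0, z1, z2⟩ := hz
  by_cases c : z ∈ l.ann (Icc (2 * t) (3 * t) ∪ {s | two ∧ s ∈ Icc (-(3 * t)) (-(2 * t))})
  · have q : y1 < |l.dep z| := by
      rcases c.2 with b | ⟨-, b⟩
      · exact lt_abs.2 (Or.inl (by linarith [b.1]))
      · exact lt_abs.2 (Or.inr (by linarith [b.2]))
    have e : E1 y1 f =ᶠ[𝓝 (l.dep z)] f := by
      filter_upwards [continuous_abs.continuousAt.eventually (eventually_gt_nhds q)] with s a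
      exact E1_eq p0 f a.le
    have e2 : deriv (E2 y0 t τ G) (l.dep z) =
        τ * deriv (fun s => chi t s * chi t (y0 - s) * G s) (l.dep z) :=
      ((SH.PROF.diff hH _).const_mul τ).deriv
    rw [e.deriv_eq, e.self_of_nhds, e2, E2]
    have a := k1 z c
    have b := k2 z c
    push_cast at a b ⊢
    exact ⟨by rwa [mul_assoc (τ : ℂ)], by rwa [mul_assoc (τ : ℂ)]⟩
  · have c1 : l.dep z < 2 * t := lt_of_not_ge fun a => c ⟨z0, Or.inl ⟨a, z2⟩⟩
    have c0 : two → -(3 * t) ≤ l.dep z := fun a => by linarith [h.hy.2 a]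
    have c2 : y0 - 2 * t < l.dep z := by
      rcases hs with a | ⟨a, -⟩
      · linarith
      · exact lt_of_not_ge fun b => c ⟨z0, Or.inr ⟨a, c0 a, by linarith [h.hy.2 a]⟩⟩
    have e : E2 y0 t τ G =ᶠ[𝓝 (l.dep z)] fun s => τ * G s := by
      filter_upwards [eventually_lt_nhds c1, eventually_gt_nhds c2] with s a b
      exact E2_eq ht τ G (by linarith) (by linarith)
    have m := h.hG.smul hτ
    have n0 : τ * G (l.dep z) ≠ 0 := m.ne z2 (hs.imp id fun a => ⟨a.1, c0 a.1, a.2⟩)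
    have n1 := m.dpos ht z2 c0 n0
    obtain ⟨-, -, u0, u1⟩ := h.an z ⟨z0, by linarith, by linarith⟩
    obtain ⟨s1, s2⟩ := E1_stp h.hf ht p0 z2 c0
    rw [e.deriv_eq, e.self_of_nhds]
    refine ⟨slit u0 u1 n0 ?_, slit u0 u1 n1.ne' (mul_nonneg (nonneg_of_mul_nonneg_right
      ((abs_nonneg _).trans s1) (by positivity)) n1.le)⟩
    have s3 := m.sgn z2 c0
    rcases lt_trichotomy 0 (l.dep z) with a | a | a
    · exact mul_nonneg (nonneg_of_mul_nonneg_right s2 a)
        (nonneg_of_mul_nonneg_right s3 (by linarith))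
    · rw [← a, E1, h.hf.zero]; simp
    · by_cases b : two
      · rw [h.hy.2 b, sub_zero] at s3
        have p : E1 y1 f (l.dep z) ≤ 0 := by
          by_contra x
          nlinarith [mul_pos (neg_pos.2 a) (not_le.1 x)]
        have q : τ * G (l.dep z) ≤ 0 := by
          by_contra x
          nlinarith [mul_pos (neg_pos.2 a) (not_le.1 x)]
        exact mul_nonneg_of_nonpos_of_nonpos p q
      · rw [E1, h.hf.one b _ a.le]; simp

end Site

end Pool.Agent.S6.RW
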