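import Pool.Agent.Lib.S6.RWall1

/-!
The new walls of a reset.
-/

open Set Filter Topology Metric
open scoped ContDiff

noncomputable section

namespace Pool.Agent.S6

open Pool.Agent.CF (End Kind IsCurve Cv Priv)
open Pool.Agent.Lib UPD

namespace RW

/-- description of the new wall `F'` at the end `l` with old radius `ρ`, new radius `ρ'`, old
profile `f`, old direction `lam`, new direction `lam'` -/
structure Out (l : End) (ρ ρ' : ℝ) (hub : Prop) (t : ℝ) (f : ℝ → ℝ) (lam lam' F' : ℂ → ℂ)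
    (Eb : Bool → ℝ → ℝ) : Prop where
  eq : ∀ z ∈ zn l ρ hub (2 * t), z ≠ l.c → F' z = l.w z +
    ((Eb true ((wl l ρ).dep z) : ℂ) * lam z + (Eb false ((wl l ρ).dep z) : ℂ) * lam' z)
  ctr : l.k = Kind.pt → F' l.c = l.w l.c
  loop : l.k ≠ Kind.pt → ∀ i, Stp (Eb i) (Icc (-(2 * t)) (2 * t)) (t / 4) ∧
    ∀ y ∈ Icc (-(2 * t)) (2 * t), 0 ≤ y * Eb i y ∧ (hub → y ≤ 0 → Eb i y = 0)
  ne : l.k ≠ Kind.pt → ∀ z ∈ zn l ρ hub (2 * t), l.dep z ≠ 0 → F' z ≠ l.w z
  port : l.k = Kind.pt → (∀ i, Stp (Eb i) (Iic (2 * t)) (t / 64) ∧ (∀ y ≤ 2 * t, 0 ≤ Eb i y) ∧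
    ∀ y ≤ Real.log (ρ' / ρ), Eb i y = 0) ∧ 0 < f (t / 2) ∧ f (t / 2) ≤ ∑ i, Eb i (t / 2)

theorem pole_an {lam : ℂ → ℂ} {p z : ℂ} {R : ℝ} (h : Pole lam p (closedBall p R))
    (h1 : z ∈ ball p R) (h2 : z ≠ p) : AnalyticAt ℂ lam z ∧ lam z ≠ 0 := by
  obtain ⟨g, a, b⟩ := h
  have c := ball_subset_closedBall h1
  refine ⟨((a z c).div (analyticAt_id.sub analyticAt_const) (sub_ne_zero.2 h2)).congr ?_, ?_⟩
  · filter_upwards [isOpen_ball.mem_nhds h1, isOpen_ne.mem_nhds h2] with x d e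
    exact ((b x (ball_subset_closedBall d)).2 e).symm
  · rw [(b z c).2 h2]; exact div_ne_zero (b z c).1 (sub_ne_zero.2 h2)

theorem log_le {ρ r s : ℝ} (hρ : 0 < ρ) (hr : 0 < r) :
    Real.log (r / ρ) ≤ s ↔ r ≤ ρ * Real.exp s := by
  rw [Real.log_le_iff_le_exp (div_pos hr hρ), div_le_iff₀ hρ, mul_comm]

theorem wl_c (l : End) (ρ : ℝ) : (wl l ρ).c = l.c := by
  unfold wl; split_ifs <;> rfl

theorem wl_r {l : End} (ho : l.ok) {ρ : ℝ} (hρ : l.k = Kind.pt → 0 < ρ) : 0 < (wl l ρ).r := by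
  by_cases hk : l.k = Kind.pt
  · rw [wl_pt hk]; exact hρ hk
  · rw [wl_loop hk]; exact ho.pos hk

/-- depth and zones -/
theorem mem_zn {l : End} {ρ : ℝ} (hρ : l.k = Kind.pt → 0 < ρ) (hub : Prop) {s : ℝ} {z : ℂ}
    (hz : z ≠ l.c) : z ∈ zn l ρ hub s ↔ (wl l ρ).dep z ≤ s ∧
      (l.k ≠ Kind.pt → (hub → 0 ≤ (wl l ρ).dep z) ∧ (¬ hub → -s ≤ (wl l ρ).dep z)) := by
  by_cases hk : l.k = Kind.pt
  · rw [zn_pt hk, wl_pt hk, hole_dep, log_le (hρ hk) (norm_pos_iff.2 (sub_ne_zero.2 hz)),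
      mem_closedBall, dist_eq_norm]
    exact ⟨fun a => ⟨a, fun b => absurd hk b⟩, fun a => a.1⟩
  · rw [wl_loop hk]
    by_cases ho : hub
    · rw [zn_one hk ρ ho]
      exact ⟨fun a => ⟨a.2.2, fun _ => ⟨fun _ => a.2.1, fun b => absurd ho b⟩⟩,
        fun a => ⟨hz, (a.2 hk).1 ho, a.1⟩⟩
    · rw [zn_two hk ρ ho]
      exact ⟨fun a => ⟨a.2.2, fun _ => ⟨fun b => absurd b ho, fun _ => a.2.1⟩⟩,
        fun a => ⟨hz, (a.2 hk).2 ho, a.1⟩⟩

theorem zn_ne {l : End} (hk : l.k ≠ Kind.pt) {ρ : ℝ} {hub : Prop} {s : ℝ} {z : ℂ}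
    (hz : z ∈ zn l ρ hub s) : z ≠ l.c := by
  by_cases ho : hub
  · rw [zn_one hk ρ ho] at hz; exact hz.1
  · rw [zn_two hk ρ ho] at hz; exact hz.1

open Classical in
/-- the foot of the new wall -/
def foot (l : End) (ρ ρ' : ℝ) : ℝ := if l.k = Kind.pt then Real.log (ρ' / ρ) else 0

theorem foot_pt {l : End} (hk : l.k = Kind.pt) (ρ ρ' : ℝ) : foot l ρ ρ' = Real.log (ρ' / ρ) :=
  if_pos hk

theorem foot_loop {l : End} (hk : l.k ≠ Kind.pt) (ρ ρ' : ℝ) : foot l ρ ρ' = 0 := if_neg hk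

theorem dep_new {l : End} {ρ ρ' : ℝ} (hρ : l.k = Kind.pt → 0 < ρ ∧ 0 < ρ') {z : ℂ}
    (hz : z ≠ l.c) : (wl l ρ').dep z = (wl l ρ).dep z - foot l ρ ρ' := by
  by_cases hk : l.k = Kind.pt
  · have p := norm_pos_iff.2 (sub_ne_zero.2 hz)
    rw [wl_pt hk, wl_pt hk, hole_dep, hole_dep, foot_pt hk, Real.log_div p.ne' (hρ hk).2.ne',
      Real.log_div p.ne' (hρ hk).1.ne', Real.log_div (hρ hk).2.ne' (hρ hk).1.ne']
    ring
  · rw [wl_loop hk, wl_loop hk, foot_loop hk, sub_zero]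

/-- admissible new data at an end -/
structure New (l : End) (ρ ρ' : ℝ) (lam lam' : ℂ → ℂ) : Prop where
  loop : l.k ≠ Kind.pt → ∀ z ∈ l.circ, AnalyticAt ℂ lam' z ∧ lam' z / lam z ∈ Complex.slitPlane
  port : l.k = Kind.pt → 0 < ρ' ∧ ρ' ≤ ρ ∧ ∃ u : ℂ → ℂ, ∀ᶠ z in 𝓝ˢ (closedBall l.c ρ),
    AnalyticAt ℂ u z ∧ 0 < (u z).re ∧ (z ≠ l.c → lam' z = u z * lam z)

section one

variable {I : Type} {F : I → ℂ → ℂ} {hz : ℝ} {A B : Cv} {W : Wd I A.ι} {k : A.ι}

/-- the directions on thin zones -/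
theorem ev_dir (h : EndW F hz A B W k) (ho : (A.e k).ok) (h0 : 0 < hz) {ρ' : ℝ} {lam' : ℂ → ℂ}
    (hn : New (A.e k) (W.pr k) ρ' (A.lam k) lam') : ∀ᶠ t in 𝓝[>] (0 : ℝ),
    (∀ z ∈ zn (A.e k) (W.pr k) False (4 * t), z ≠ (A.e k).c → AnalyticAt ℂ (A.lam k) z ∧
      AnalyticAt ℂ lam' z ∧ A.lam k z ≠ 0 ∧ lam' z / A.lam k z ∈ Complex.slitPlane) ∧
    ((A.e k).k = Kind.pt → Pole lam' (A.e k).c (zn (A.e k) (W.pr k) False (4 * t))) := by
  have hρ : (A.e k).k = Kind.pt → 0 ≤ W.pr k := fun a => (h.port a).1.le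
  have ev : ∀ {N : Set ℂ}, N ∈ 𝓝ˢ (ct (A.e k) (W.pr k)) →
      ∀ᶠ t in 𝓝[>] (0 : ℝ), zn (A.e k) (W.pr k) False (4 * t) ⊆ N := fun hN => by
    obtain ⟨t0, a, b⟩ := zn_shrink ho hρ False hN
    filter_upwards [nhdsWithin_le_nhds (eventually_le_nhds (show 0 < t0 / 4 by positivity))]
      with t c using b _ (by linarith)
  by_cases hk : (A.e k).k = Kind.pt
  · obtain ⟨-, -, u, hu⟩ := hn.port hk
    obtain ⟨p0, -, pl⟩ := h.port hk
    have e : W.zn A hz k = closedBall (A.e k).c (W.pr k * Real.exp hz) := zn_pt hk _ _ _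
    rw [e] at pl
    have hb : ball (A.e k).c (W.pr k * Real.exp hz) ∈ 𝓝ˢ (closedBall (A.e k).c (W.pr k)) :=
      isOpen_ball.mem_nhdsSet.2 (closedBall_subset_ball
        (lt_mul_of_one_lt_right p0 (Real.one_lt_exp_iff.2 h0)))
    have hu' := eventually_nhdsSet_iff_forall.2 fun x a =>
      (eventually_nhdsSet_iff_forall.1 hu x a).eventually_nhds
    rw [← ct_pt hk] at hb hu'
    filter_upwards [ev hb, ev hu'] with t a b
    refine ⟨fun z c d => ?_, fun _ => ?_⟩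
    · obtain ⟨x, y⟩ := pole_an pl (a c) d
      have q := (b c).self_of_nhds
      refine ⟨x, (q.1.mul x).congr ?_, y, ?_⟩
      · filter_upwards [b c, isOpen_ne.mem_nhds d] with v i j using (i.2.2 j).symm
      · rw [q.2.2 d, mul_div_cancel_right₀ _ y]; exact Or.inl q.2.1
    · obtain ⟨g, g1, g2⟩ := pl
      refine ⟨fun z => u z * g z, fun z c => (b c).self_of_nhds.1.mul
        (g1 z (ball_subset_closedBall (a c))), fun z c => ?_⟩
      have q := (b c).self_of_nhds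
      have r := g2 z (ball_subset_closedBall (a c))
      exact ⟨mul_ne_zero (fun x => by simp [x] at q) r.1,
        fun d => by rw [q.2.2 d, r.2 d, mul_div_assoc]⟩
  · have hN : ∀ᶠ z in 𝓝ˢ (ct (A.e k) (W.pr k)), AnalyticAt ℂ (A.lam k) z ∧
        AnalyticAt ℂ lam' z ∧ A.lam k z ≠ 0 ∧ lam' z / A.lam k z ∈ Complex.slitPlane := by
      refine eventually_nhdsSet_iff_forall.2 fun z a => ?_
      have b := ct_zn h ho h0.le a
      rw [ct_loop hk] at a
      have c := (h.loop hk).1 z b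
      have d := (h.loop hk).2 z b
      obtain ⟨x, y⟩ := hn.loop hk z a
      exact c.eventually_analyticAt.and (x.eventually_analyticAt.and
        ((c.continuousAt.eventually_ne d).and ((x.continuousAt.div c.continuousAt d).eventually
          (Complex.isOpen_slitPlane.mem_nhds y))))
    filter_upwards [ev hN] with t a using ⟨fun z c _ => a c, fun x => absurd x hk⟩

end one

end RW

open RW

/-- The new walls of a reset at the ends in `P`. -/
theorem rwall {I : Type} [Finite I] {fx : Fix I} {σ : Conf I} (h : Pre fx σ) (P : σ.C.ι → Prop)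
    (lam' : σ.C.ι → ℂ → ℂ) (pr' : σ.C.ι → ℝ)
    (other : ∀ k, ¬ P k → lam' k = σ.C.lam k ∧ pr' k = σ.WC.pr k)
    (new : ∀ k, P k → New (σ.C.e k) (σ.WC.pr k) (pr' k) (σ.C.lam k) (lam' k)) :
    ∀ᶠ t in 𝓝[>] (0 : ℝ), ∀ (n : ℕ) (ε : ℝ), 0 < ε →
      ∃ (F' : I → ℂ → ℂ) (Ef' : σ.C.ι → ℝ → ℝ) (hz' : ℝ) (Eb : σ.C.ι → Bool → ℝ → ℝ),
        (∀ i, ContDiff ℝ ∞ (F' i)) ∧ MP_9ccfb7_an.Close n ε σ.F F' fx.R fx.R ∧
        (∀ i z, F' i z ≠ σ.F i z → ∃ k, P k ∧ σ.WC.cp k = i ∧ z ∈ σ.WC.zn σ.C (3 * t) k) ∧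
        ((∀ s ∈ σ.Sd, SH.LB2 (fx.S F') s) → Wall fx (σ.reset F' lam' Ef' pr' hz')) ∧
        ∀ k, P k → Out (σ.C.e k) (σ.WC.pr k) (pr' k) (k = σ.C.H) t (σ.WC.Ef k) (σ.C.lam k)
          (lam' k) (F' (σ.WC.cp k)) (Eb k) := by
  classical
  have T := two h
  obtain ⟨ε0, p0, H⟩ := ex_pos (wall_reset h)
  have dir : ∀ k, ∀ᶠ t in 𝓝[>] (0 : ℝ), P k → _ := fun k => by
    by_cases a : P k
    · exact (ev_dir (endW T.sA k) (T.cA.ok k) T.pos (new k a)).mono fun _ b _ => b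
    · exact Eventually.of_forall fun _ b => absurd b a
  filter_upwards [eventually_all.2 dir, eventually_all.2 fun k => mon_of_pr (T.sA.pr k),
    nhdsWithin_le_nhds (eventually_le_nhds (show 0 < σ.hz / 4 by linarith [T.pos])),
    self_mem_nhdsWithin] with t dir mon th ht n ε hε
  replace ht : 0 < t := ht
  obtain ⟨G1, g1, g2⟩ := exists_G ht
  have rp : ∀ k, (σ.C.e k).k = Kind.pt → 0 < σ.WC.pr k := fun k a => (T.sA.port k a).1
  set l : σ.C.ι → End := fun k => wl (σ.C.e k) (σ.WC.pr k) with hl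
  set y0 : σ.C.ι → ℝ := fun k => foot (σ.C.e k) (σ.WC.pr k) (pr' k) with hy0
  set G0 : σ.C.ι → ℝ → ℝ := fun k => if (σ.C.e k).k = Kind.pt then G1 else σ.WC.Ef k with hG0
  have lc : ∀ k, (l k).c = (σ.C.e k).c := fun k => wl_c _ _
  have yl : ∀ k, (σ.C.e k).k ≠ Kind.pt → y0 k = 0 := fun k a => foot_loop a _ _
  have prG : ∀ k, SH.PR (G0 k) ((σ.C.e k).k ≠ Kind.pt ∧ k ≠ σ.C.H) := fun k => by
    by_cases a : (σ.C.e k).k = Kind.pt
    · rw [show G0 k = G1 from if_pos a, eq_false fun b : (σ.C.e k).k ≠ Kind.pt ∧ k ≠ σ.C.H => b.1 a]; exact g1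
    · rw [show G0 k = σ.WC.Ef k from if_neg a]; exact T.sA.pr k
  have site : ∀ k, P k → Site (l k) ((σ.C.e k).k ≠ Kind.pt ∧ k ≠ σ.C.H) (y0 k) t (σ.WC.Ef k)
      (fun s => G0 k (s - y0 k)) (σ.C.lam k) (lam' k) := by
    intro k a
    refine ⟨wl_r (T.cA.ok k) (rp k), ht, ⟨?_, fun b => yl k b.1⟩, (T.sA.pr k).flat, mon k, ?_,
      fun z b => ?_⟩
    · by_cases c : (σ.C.e k).k = Kind.pt
      · obtain ⟨x, y, -⟩ := (new k a).port c
        rw [show y0 k = _ from foot_pt c _ _]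
        exact Real.log_nonpos (div_pos x (rp k c)).le ((div_le_one (rp k c)).2 y)
      · exact (yl k c).le
    · by_cases c : (σ.C.e k).k = Kind.pt
      · rw [show G0 k = G1 from if_pos c, eq_false fun b : (σ.C.e k).k ≠ Kind.pt ∧ k ≠ σ.C.H => b.1 c]; exact g2 _
      · rw [show G0 k = σ.WC.Ef k from if_neg c, yl k c]
        simpa only [sub_zero] using mon k
    · have c : z ≠ (σ.C.e k).c := lc k ▸ b.1
      refine (dir k a).1 z ((mem_zn (rp k) False c).2 ⟨b.2.2.le, fun d => ⟨False.elim,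
        fun _ => ?_⟩⟩) c
      have := b.2.1
      rw [yl k d] at this
      exact le_of_lt (by linarith)
  set ε1 := min ε ε0 / (Fintype.card σ.C.ι + 1) with hε1
  have p1 : 0 < ε1 := div_pos (lt_min hε p0) (by positivity)
  have sm : ∀ k, ∀ᶠ y1 in 𝓝[>] (0 : ℝ), P k → ∀ᶠ τ in 𝓝 (0 : ℝ), SH.Small n ε1 (md (l k) (y0 k) t
      y1 τ (σ.WC.Ef k) (fun s => G0 k (s - y0 k)) (σ.C.lam k) (lam' k)) := fun k => by
    by_cases a : P k
    · exact ((site k a).small n p1).mono fun _ b _ => b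
    · exact Eventually.of_forall fun _ b => absurd b a
  obtain ⟨y1, q0, q1, sm⟩ := ex_pos (Eventually.and
    (nhdsWithin_le_nhds (eventually_le_nhds (half_pos ht))) (eventually_all.2 sm))
  have nd : ∀ k, ∀ᶠ τ in 𝓝[>] (0 : ℝ), P k → _ ∧ _ := fun k => by
    by_cases a : P k
    · exact (((sm k a).filter_mono nhdsWithin_le_nhds).and (site k a).nondeg).mono fun _ b _ => b
    · exact Eventually.of_forall fun _ b => absurd b a
  obtain ⟨τ, hτ, nd⟩ := ex_pos (eventually_all.2 nd)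
  have q2 : y1 ≤ t := by linarith
  set M : σ.C.ι → ℂ → ℂ := fun k => md (l k) (y0 k) t y1 τ (σ.WC.Ef k)
    (fun s => G0 k (s - y0 k)) (σ.C.lam k) (lam' k) with hM
  set F' : I → ℂ → ℂ := fun i z =>
    σ.F i z + ∑ k ∈ Finset.univ.filter fun k => P k ∧ σ.WC.cp k = i, M k z with hF'
  have sS : ∀ i, SH.Small n (min ε ε0)
      fun z => ∑ k ∈ Finset.univ.filter fun k => P k ∧ σ.WC.cp k = i, M k z := fun i => by
    refine (SH.Small.sum_card _ fun k a => (nd k (Finset.mem_filter.1 a).2.1).1).mono le_rfl ?_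
    have a : (((Finset.univ.filter fun k => P k ∧ σ.WC.cp k = i).card : ℕ) : ℝ) ≤
        Fintype.card σ.C.ι + 1 := by
      have := Finset.card_le_univ (Finset.univ.filter fun k => P k ∧ σ.WC.cp k = i)
      exact_mod_cast this.trans (Nat.le_succ _)
    refine (mul_le_mul_of_nonneg_right a p1.le).trans (le_of_eq ?_)
    rw [hε1]; field_simp
  have dF : ∀ i, (fun z => F' i z - σ.F i z) =
      fun z => ∑ k ∈ Finset.univ.filter fun k => P k ∧ σ.WC.cp k = i, M k z :=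
    fun i => funext fun z => add_sub_cancel_left _ _
  have smF : ∀ i, ContDiff ℝ ∞ (F' i) := fun i => (h.wall.smooth i).add (sS i).1
  have z3 : ∀ k, σ.WC.zn σ.C (3 * t) k ⊆ σ.WC.zn σ.C σ.hz k := fun k =>
    zn_le (endW T.sA k) (by linarith)
  have supp : ∀ k, P k → ∀ z, M k z ≠ 0 → z ∈ σ.WC.zn σ.C (3 * t) k := by
    intro k a z b
    obtain ⟨c, d⟩ := (site k a).supp q0 q2 b
    refine (mem_zn (rp k) _ (lc k ▸ c.1)).2 ⟨c.2.2, fun e => ⟨fun x => ?_, fun _ => ?_⟩⟩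
    · have := d fun y => y.2 x
      rw [yl k e] at this; exact this.le
    · have := c.2.1
      rw [yl k e] at this; linarith
  have ev0 : ∀ k, P k → ∀ z, z ∉ σ.WC.zn σ.C (3 * t) k → ∀ᶠ x in 𝓝 z, M k x = 0 := by
    intro k a z b
    filter_upwards [(isCompact_zn (T.cA.ok k) _ _ _).isClosed.isOpen_compl.mem_nhds b] with x c
    by_contra d; exact c (supp k a x d)
  have loc : ∀ k, P k → ∀ z ∈ σ.WC.zn σ.C σ.hz k,
      ∀ᶠ x in 𝓝 z, F' (σ.WC.cp k) x = σ.F (σ.WC.cp k) x + M k x := by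
    intro k a z b
    have : ∀ j, ∀ᶠ x in 𝓝 z, j ≠ k → P j ∧ σ.WC.cp j = σ.WC.cp k → M j x = 0 := fun j => by
      by_cases c : j ≠ k ∧ P j ∧ σ.WC.cp j = σ.WC.cp k
      · exact (ev0 j c.2.1 z fun d => disjoint_left.1 (T.sA.disj j k c.1 c.2.2) (z3 j d) b).mono
          fun _ d _ _ => d
      · exact Eventually.of_forall fun _ d e => absurd ⟨d, e⟩ c
    filter_upwards [eventually_all.2 this] with x c
    show _ + _ = _
    rw [Finset.sum_eq_single_of_mem k (Finset.mem_filter.2 ⟨Finset.mem_univ _, a, rfl⟩)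
      fun j d e => c j e (Finset.mem_filter.1 d).2]
  have form : ∀ k, P k → ∀ z ∈ σ.WC.zn σ.C σ.hz k,
      z ∈ (l k).ann (Ioo (y0 k - 4 * t) (4 * t)) → F' (σ.WC.cp k) z = (σ.C.e k).w z +
        ((E1 y1 (σ.WC.Ef k) ((l k).dep z) : ℂ) * σ.C.lam k z +
          (E2 (y0 k) t τ (fun s => G0 k (s - y0 k)) ((l k).dep z) : ℝ) * lam' k z) := by
    intro k a z b c
    rw [(loc k a z b).self_of_nhds, T.sA.exact k z b, add_assoc]
    exact congrArg _ (Site.eq y1 τ c)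
  have good : ∀ k, P k → ∀ z ∈ σ.WC.zn σ.C (3 * t) k, z ≠ (σ.C.e k).c →
      (y0 k < (l k).dep z ∨ (((σ.C.e k).k ≠ Kind.pt ∧ k ≠ σ.C.H) ∧ (l k).dep z < y0 k)) →
      F' (σ.WC.cp k) z ≠ (σ.C.e k).w z ∧ SH.dbar (F' (σ.WC.cp k)) z ≠ 0 := by
    intro k a z b c d
    obtain ⟨b1, b2⟩ := (mem_zn (rp k) _ c).1 b
    have c' : z ≠ (l k).c := (lc k).symm ▸ c
    have b3 : y0 k - 3 * t ≤ (l k).dep z := by
      rcases d with d | ⟨d, -⟩
      · linarith
      · rw [yl k d.1]; linarith [(b2 d.1).2 d.2]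
    have U : z ∈ (l k).ann (Ioo (y0 k - 4 * t) (4 * t)) :=
      ⟨c', by linarith, lt_of_le_of_lt b1 (by linarith)⟩
    obtain ⟨n1, n2⟩ := (nd k a).2 y1 q0 q2 z ⟨c', b3, b1⟩ d
    refine ⟨by rw [form k a z (z3 k b) U]; exact fun e => n1 (add_eq_left.1 e), ?_⟩
    have hr := (site k a).hr
    have cd := End.continuousAt_dep hr c'
    have ins : ∀ᶠ x in 𝓝 z, x ∈ σ.WC.zn σ.C σ.hz k := by
      have i1 : ∀ᶠ x in 𝓝 z, (l k).dep x < σ.hz :=
        cd.eventually (eventually_lt_nhds (lt_of_le_of_lt b1 (by linarith)))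
      have i2 : ∀ᶠ x in 𝓝 z, (σ.C.e k).k ≠ Kind.pt → k = σ.C.H → 0 < (l k).dep x := by
        by_cases e : (σ.C.e k).k ≠ Kind.pt ∧ k = σ.C.H
        · refine (cd.eventually (eventually_gt_nhds ?_)).mono fun _ x _ _ => x
          rcases d with d | ⟨d, -⟩
          · rwa [yl k e.1] at d
          · exact absurd e.2 d.2
        · exact Eventually.of_forall fun _ x y => absurd ⟨x, y⟩ e
      have i3 : ∀ᶠ x in 𝓝 z, (σ.C.e k).k ≠ Kind.pt → -σ.hz < (l k).dep x := by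
        by_cases e : (σ.C.e k).k ≠ Kind.pt
        · refine (cd.eventually (eventually_gt_nhds ?_)).mono fun _ x _ => x
          rw [yl k e] at b3; linarith
        · exact Eventually.of_forall fun _ x => absurd x e
      filter_upwards [i1, i2, i3, isOpen_ne.mem_nhds c] with x j1 j2 j3 j4
      exact (mem_zn (rp k) _ j4).2 ⟨j1.le, fun e => ⟨fun y => (j2 e y).le, fun _ => (j3 e).le⟩⟩
    obtain ⟨a1, a2, -⟩ := (site k a).an z U
    refine (SH.st_dbs.1 Bool (l k).dep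
      (fun i s => ((cond i (E1 y1 (σ.WC.Ef k)) (E2 (y0 k) t τ fun s => G0 k (s - y0 k)) s : ℝ) : ℂ))
      (fun i => ((deriv (cond i (E1 y1 (σ.WC.Ef k)) (E2 (y0 k) t τ fun s => G0 k (s - y0 k)))
        ((l k).dep z) : ℝ) : ℂ)) (fun i => cond i (σ.C.lam k) (lam' k)) _ (σ.C.e k).w z
      ((SH.CSM.dep_smooth _ hr c').differentiableAt (by simp)) (SH.CSM.dep_grad _ hr c')
      (T.sA.an k z (z3 k b)) ?_ ?_ (by rw [Fintype.sum_bool]; exact n2)).2
    · rintro (_ | _)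
      · exact ⟨(SH.PROF.diff (contDiff_const.mul (H_smooth (site k a).hG.sm _ _)) _).ofReal_comp,
          a2⟩
      · exact ⟨(SH.PROF.diff (E1_smooth (site k a).hf.sm _) _).ofReal_comp, a1⟩
    · filter_upwards [ins, (End.isOpen_ann hr isOpen_Ioo).mem_nhds U] with x i j
      rw [Fintype.sum_bool]; exact form k a x i j
  have eq : ∀ k, P k → ∀ z ∈ σ.WC.zn σ.C (2 * t) k, z ≠ (σ.C.e k).c →
      F' (σ.WC.cp k) z = (σ.C.e k).w z + ((E1 y1 (σ.WC.Ef k) ((l k).dep z) : ℂ) * σ.C.lam k z +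
        (τ * G0 k ((l k).dep z - y0 k) : ℝ) * lam' k z) := by
    intro k a z b c
    obtain ⟨b1, b2⟩ := (mem_zn (rp k) _ c).1 b
    have b' := zn_le (endW T.sA k) (show 2 * t ≤ σ.hz by linarith) b
    replace b1 : (l k).dep z ≤ 2 * t := b1
    by_cases d : y0 k - 5 * t / 2 ≤ (l k).dep z
    · rw [form k a z b' ⟨(lc k).symm ▸ c, by linarith, by linarith⟩, E2_eq ht _ _ (by linarith) d]
    · have e : ¬ ((σ.C.e k).k ≠ Kind.pt ∧ k ≠ σ.C.H) := fun e => d (by
        rw [yl k e.1]; linarith [(b2 e.1).2 e.2])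
      have d' : (l k).dep z ≤ y0 k := by linarith [not_le.1 d]
      have m : M k z = 0 := by
        by_contra m; exact absurd (((site k a).supp q0 q2 m).2 e) (not_lt.2 d')
      have f0 := (site k a).hf.one e _ (d'.trans (site k a).hy.1)
      have f1 : G0 k ((l k).dep z - y0 k) = 0 := (site k a).hG.one e _ d'
      rw [(loc k a z b').self_of_nhds, T.sA.exact k z b', m, E1, f1]
      erw [f0]; simp
  have ctr : ∀ k, P k → (σ.C.e k).k = Kind.pt →
      F' (σ.WC.cp k) (σ.C.e k).c = (σ.C.e k).w (σ.C.e k).c := by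
    intro k a b
    have c : (σ.C.e k).c ∈ ct (σ.C.e k) (σ.WC.pr k) := by
      rw [ct_pt b]; exact mem_closedBall_self (rp k b).le
    have m : M k (σ.C.e k).c = 0 := by
      by_contra m; exact ((site k a).supp q0 q2 m).1.1 (lc k).symm
    rw [(loc k a _ (T.ct_zn k T.pos.le c)).self_of_nhds, m, add_zero, T.exact_ct k c]
  refine ⟨F', fun k => if P k then fun s => τ * G0 k s else σ.WC.Ef k, y1 / 2,
    fun k i => cond i (E1 y1 (σ.WC.Ef k)) fun s => τ * G0 k (s - y0 k), smF,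
    fun i => ⟨fun j a z => ?_, le_rfl, by linarith⟩, fun i z a => ?_, fun sad => ?_,
    fun k a => ?_⟩
  · rw [dF i]; exact ((sS i).2 j a z).trans (min_le_left _ _)
  · obtain ⟨k, b, c⟩ := Finset.exists_ne_zero_of_sum_ne_zero fun e => a (by
      show _ + _ = _
      rw [e, add_zero])
    exact ⟨k, (Finset.mem_filter.1 b).2.1, (Finset.mem_filter.1 b).2.2,
      supp k (Finset.mem_filter.1 b).2.1 z c⟩
  · refine H F' lam' _ pr' (y1 / 2) (fun k => {z | P k ∧ z ∈ σ.WC.zn σ.C (3 * t) k})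
      (fun i z _ => ?_) smF (half_pos q0) (by linarith) (fun k z a _ => z3 k a.2)
      (fun i z _ b => ?_) (fun k => ?_) sad
    · rw [congrFun (dF i) z]; exact ((sS i).norm_le z).trans (min_le_right _ _)
    · have e : F' i =ᶠ[𝓝 z] σ.F i := by
        filter_upwards [(Finset.eventually_all (Finset.univ.filter
          fun k => P k ∧ σ.WC.cp k = i)).2 fun k c => ev0 k (Finset.mem_filter.1 c).2.1 z fun d =>
            b k (Finset.mem_filter.1 c).2.2 ⟨(Finset.mem_filter.1 c).2.1, d⟩] with x c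
        show _ + _ = _
        rw [Finset.sum_eq_zero c, add_zero]
      exact ⟨e.self_of_nhds, fun _ => by rw [SH.dbar, SH.dbar, e.fderiv_eq]⟩
    by_cases a : P k
    swap
    · exact Or.inl ⟨eq_empty_of_forall_notMem fun z b => a b.1, (other k a).1, (other k a).2,
        if_neg a⟩
    have le : (σ.C.e k).k = Kind.pt → 0 ≤ σ.WC.pr k ∧ pr' k ≤ σ.WC.pr k := fun b =>
      ⟨(rp k b).le, ((new k a).port b).2.1⟩
    have rp' : (σ.C.e k).k = Kind.pt → 0 < σ.WC.pr k ∧ 0 < pr' k := fun b =>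
      ⟨rp k b, ((new k a).port b).1⟩
    have zs : ∀ s, y1 / 2 ≤ s → zn (σ.C.e k) (pr' k) (k = σ.C.H) (y1 / 2) ⊆ σ.WC.zn σ.C s k :=
      fun s b => zn_mono b le
    refine Or.inr ⟨fun b => ⟨(rp' b).2, (le b).2, ((dir k a).2 b).mono ?_, fun z _ c =>
      ⟨a, T.ct_zn k (by linarith) ?_⟩⟩, fun b => ?_, ?_, fun z b => ?_, fun z b _ c => ?_⟩
    · have := zs (4 * t) (by linarith)
      rw [Wd.zn, zn_pt b (σ.WC.pr k)] at this
      rwa [zn_pt b (σ.WC.pr k)]
    · rw [ct_pt b, mem_closedBall, dist_eq_norm]; exact c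
    · have x : ∀ z ∈ zn (σ.C.e k) (pr' k) (k = σ.C.H) (y1 / 2), _ := fun z c =>
        (dir k a).1 z (by
          rw [zn_two b _ not_false]
          exact End.ann_mono (Icc_subset_Icc (by linarith) (by linarith))
            (zn_loop b _ _ (half_pos q0).le c)) (zn_ne b c)
      exact ⟨fun z c => (x z c).2.1, fun z c e => Complex.slitPlane_ne_zero (x z c).2.2.2
        (by rw [e, zero_div])⟩
    · rw [if_pos a]
      simpa only [div_one] using SH.PROF.pr_scale (prG k) hτ one_pos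
    · rw [if_pos a]
      by_cases c : z = (σ.C.e k).c
      · have d : (σ.C.e k).k = Kind.pt := by_contra fun d => zn_ne d b c
        rw [c, ctr k a d, wl_pt d, hole_dep, sub_self, norm_zero, zero_div, Real.log_zero,
          PCS.PR_zero (prG k)]
        simp
      · obtain ⟨b1, b2⟩ := (mem_zn (rp k) _ c).1 (zs _ le_rfl b)
        have e : E1 y1 (σ.WC.Ef k) ((l k).dep z) = 0 := by
          by_cases d : -(y1 / 2) ≤ (l k).dep z
          · exact E1_zero q0 _ (abs_le.2 ⟨d, b1⟩)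
          · rw [E1, (site k a).hf.one (fun x => d ((b2 x.1).2 x.2)) _
              (by linarith [not_le.1 d]), mul_zero]
        rw [eq k a z (zs _ (by linarith) b) c, e, dep_new rp' c]
        simp [hl, hy0]
    · by_cases d : (σ.C.e k).k = Kind.pt
      · rw [ct_pt d, mem_closedBall, dist_eq_norm, not_le] at c
        have p := (rp' d).2.trans c
        refine good k a z b.2 (sub_ne_zero.1 (norm_pos_iff.1 p)) (Or.inl ?_)
        rw [show y0 k = _ from foot_pt d _ _, show l k = _ from wl_pt d _, hole_dep]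
        exact Real.log_lt_log (div_pos (rp' d).2 (rp' d).1) (div_lt_div_of_pos_right c (rp' d).1)
      · have p := zn_ne d b.2
        have r : (l k).dep z ≠ 0 := fun e => c (by
          rw [ct_loop d]
          rw [show l k = _ from wl_loop d _] at e
          exact (End.mem_circ ((T.cA.ok k).pos d)).2 ⟨p, e⟩)
        refine good k a z b.2 p ?_
        rw [yl k d]
        exact (lt_or_gt_of_ne r).symm.imp id fun x => ⟨⟨d, fun y =>
          absurd ((((mem_zn (rp k) _ p).1 b.2).2 d).1 y) (not_le.2 x)⟩, x⟩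
  · have S := site k a
    have m := S.hG.smul hτ
    have d1 := fun s => ((E1_smooth S.hf.sm y1).differentiable (by simp) s)
    have d2 := fun s => (m.sm.differentiable (by simp) s)
    refine ⟨eq k a, ctr k a, fun b => ?_, fun b z c d => ?_, fun b => ?_⟩
    · have w : ∀ x d : ℝ, |x| ≤ t / 64 * d → |x| ≤ t / 4 * d := fun x d e => by
        have : 0 ≤ d := nonneg_of_mul_nonneg_right ((abs_nonneg _).trans e) (by positivity)
        nlinarith
      rintro (_ | _)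
      · refine ⟨fun y c => ⟨d2 y, w _ _ (m.stp y (by linarith [c.2]) fun _ => by linarith [c.1])⟩,
          fun y c => ⟨?_, fun d e => m.one (fun x => x.2 d) y (by rwa [yl k b])⟩⟩
        have := m.sgn (s := y) (by linarith [c.2]) fun _ => by linarith [c.1]
        exact this.trans_eq (congrArg (· * _) (by rw [yl k b, sub_zero]))
      · have := fun y (c : y ∈ Icc (-(2 * t)) (2 * t)) => E1_stp S.hf ht q0 (s := y)
          (by linarith [c.2]) fun _ => by linarith [c.1]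
        exact ⟨fun y c => ⟨d1 y, w _ _ (this y c).1⟩, fun y c => ⟨(this y c).2, fun d e => by
          show E1 _ _ _ = 0
          rw [E1, S.hf.one (fun x => x.2 d) y e, mul_zero]⟩⟩
    · have p := zn_ne b c
      have c' := zn_le (endW T.sA k) (show 2 * t ≤ 3 * t by linarith) c
      have r : (l k).dep z ≠ 0 := by rwa [show l k = _ from wl_loop b _]
      refine (good k a z c' p ?_).1
      rw [yl k b]
      exact (lt_or_gt_of_ne r).symm.imp id fun x => ⟨⟨b, fun y =>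
        absurd ((((mem_zn (rp k) _ p).1 c').2 b).1 y) (not_le.2 x)⟩, x⟩
    · have e : ¬ ((σ.C.e k).k ≠ Kind.pt ∧ k ≠ σ.C.H) := fun x => x.1 b
      have yk : y0 k = Real.log (pr' k / σ.WC.pr k) := foot_pt b _ _
      have n2 : ∀ y ≤ 2 * t, 0 ≤ τ * G0 k (y - y0 k) := fun y c => by
        rcases lt_or_ge (y0 k) y with d | d
        · exact (m.pos y d (by linarith)).le
        · exact (m.one e y d).ge
      refine ⟨?_, S.hf.pos _ (half_pos ht) (by linarith), ?_⟩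
      · rintro (_ | _)
        · exact ⟨fun y c => ⟨d2 y, m.stp y (by linarith [mem_Iic.1 c]) fun x => absurd x e⟩, n2,
            fun y c => m.one e y (yk ▸ c)⟩
        · refine ⟨fun y c => ⟨d1 y, (E1_stp S.hf ht q0 (by linarith [mem_Iic.1 c])
            fun x => absurd x e).1⟩, fun y c => mul_nonneg (cut_nonneg _) ?_, fun y c => ?_⟩
          · rcases lt_or_ge 0 y with d | d
            · exact (S.hf.pos y d (by linarith)).le
            · exact (S.hf.one e y d).ge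
          · show E1 _ _ _ = 0
            rw [E1, S.hf.one e y ((yk ▸ c : y ≤ y0 k).trans S.hy.1), mul_zero]
      · rw [Fintype.sum_bool]
        show _ ≤ E1 _ _ _ + τ * _
        rw [E1_eq q0 _ (le_abs.2 (Or.inl q1))]
        linarith [n2 (t / 2) (by linarith)]

end Pool.Agent.S6
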