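import Pool.Agent.Lib.S6.Defs
import Pool.Agent.Lib.CF.Basic

/-!
Small analytic shears of the end tubes preserve the end properties.
-/

open Set Filter Topology Metric

noncomputable section

namespace Pool.Agent.S6

open Pool.Agent.CF (End Kind SLH)
open Pool.Agent.Lib

namespace Shear

/-- the vertical shift by `s` -/
def sh (s : ℂ → ℂ) (y : E) : E := (y.1, y.2 + s y.1)

theorem sh_neg (s : ℂ → ℂ) (y : E) : sh s (sh (fun z => -s z) y) = y := by simp [sh]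

theorem neg_sh (s : ℂ → ℂ) (y : E) : sh (fun z => -s z) (sh s y) = y := by simp [sh]

theorem an_sh {s : ℂ → ℂ} {y : E} (h : AnalyticAt ℂ s y.1) : AnalyticAt ℂ (sh s) y :=
  analyticAt_fst.prod (analyticAt_snd.add (h.comp_of_eq analyticAt_fst rfl))

theorem cc_sub {l : End} {h r1 : ℝ} (hh : 0 ≤ h) : cc l h r1 ⊆ l.near h r1 := by
  unfold cc End.near
  split_ifs
  · exact sphere_subset_closedBall
  · exact End.ann_mono (by rintro _ rfl; exact ⟨by linarith, le_rfl⟩)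

theorem col_sub {l : End} {h r1 r2 : ℝ} (hh : 0 ≤ h) : col l h r1 r2 ⊆ l.near h r1 := by
  unfold col End.near
  split_ifs
  · exact fun z hz => mem_closedBall_iff_norm.2 hz.2
  · exact End.ann_mono (Icc_subset_Icc (by linarith) le_rfl)

/-- the sets `D`, `D'` and the functions `φ`, `φ'` correspond over `Z` -/
def Cor (Z : Set ℂ) (w w' : ℂ → ℂ) (D D' : Set E) (φ φ' : E → ℝ) (τ : ℝ) : Prop :=
  ∀ Z' ⊆ Z, ∀ p : ℂ → ℝ → Prop,
    (∀ x ∈ D, x.1 ∈ Z' → ‖x.2 - w x.1‖ ≤ τ → p x.1 (φ x)) ↔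
      ∀ x ∈ D', x.1 ∈ Z' → ‖x.2 - w' x.1‖ ≤ τ → p x.1 (φ' x)

theorem cor_of {Z : Set ℂ} {w w' : ℂ → ℂ} {D D' : Set E} {φ φ' : E → ℝ} {τ : ℝ}
    (hD : ∀ y : E, y.1 ∈ Z → ‖y.2 - w y.1‖ ≤ τ → (y ∈ D ↔ sh (fun z => w' z - w z) y ∈ D'))
    (hφ : ∀ y : E, y.1 ∈ Z → φ y = φ' (sh (fun z => w' z - w z) y)) : Cor Z w w' D D' φ φ' τ := by
  intro Z' hZ p
  constructor
  · intro h x hx h1 h2
    have e : sh (fun z => w' z - w z) (sh (fun z => -(w' z - w z)) x) = x := sh_neg _ x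
    have h3 : ‖(sh (fun z => -(w' z - w z)) x).2 - w x.1‖ ≤ τ := by
      convert h2 using 2; simp only [sh]; ring
    have := h (sh (fun z => -(w' z - w z)) x)
      ((hD (sh (fun z => -(w' z - w z)) x) (hZ h1) h3).2 (by rwa [e])) h1 h3
    rwa [hφ (sh (fun z => -(w' z - w z)) x) (hZ h1), e] at this
  · intro h x hx h1 h2
    rw [hφ x (hZ h1)]
    refine h (sh (fun z => w' z - w z) x) ((hD x (hZ h1) h2).1 hx) h1 ?_
    convert h2 using 2; simp only [sh]; ring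

/-- transfer of the end property along a correspondence -/
theorem ep_of {l : End} (hl : l.ok) {w' : ℂ → ℂ} {D D' : Set E} {φ φ' : E → ℝ}
    {τ h r1 r2 Cu Λ0 κ thr : ℝ} (hh : 0 ≤ h) (hc : Cor (l.near h r1) l.w w' D D' φ φ' τ)
    (H : EP l D φ τ h r1 r2 Cu Λ0 κ thr) : EP (l.setW w') D' φ' τ h r1 r2 Cu Λ0 κ thr := by
  intro lv h0 h1
  obtain ⟨a1, a2⟩ := H lv h0 h1
  refine ⟨fun hk B Λ hB hΛ => ?_, fun ht y hy hy' => ?_⟩
  · obtain ⟨Λ1, b⟩ := a1 hk B Λ hB hΛ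
    have hsub : ∀ s ∈ Icc (-h) h, sphere l.c (l.rad s) ⊆ l.near h r1 := fun s hs => by
      rw [End.near_loop (e := l) hk]; exact End.sphere_subset_ann (hl.pos hk) hs
    refine ⟨Λ1, fun s hs f f1 f2 f3 f4 => ?_⟩
    obtain ⟨Bd, c1, c2, c3, c4⟩ := b s hs f f1 f2 f3
      ((hc _ (hsub s ⟨by linarith [hs.1], by linarith [hs.2]⟩)
        fun z t => t / lv ≤ Real.exp (f z)).2 f4)
    exact ⟨Bd, c1, c2, (hc _ (hsub (s - h / 2) ⟨by linarith [hs.1], by linarith [hs.2]⟩)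
      fun z t => t / lv ≤ Real.exp (Bd z)).1 c3, c4⟩
  · have b1 := (hc _ (cc_sub hh) fun _ t => t ≤ lv).2 fun x hx h2 h3 => ht x ⟨hx, h3⟩ h2
    have b2 := a2 fun x hx h2 => b1 x hx.1 h2 hx.2
    exact (hc _ (col_sub (r2 := r2) hh) fun z t =>
      t ≤ lv * Real.exp Cu * if l.k = Kind.pt then (r1 / ‖z - l.c‖) ^ κ else 1).1
      (fun x hx h2 h3 => b2 x ⟨hx, h3⟩ h2) y hy.1 hy' hy.2

theorem zr_of {l : End} {w' : ℂ → ℂ} {D D' : Set E} {τ h r1 : ℝ} (hh : 0 ≤ h)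
    (hc : Cor (l.near h r1) l.w w' D D' (fun y => ‖y.2 - l.w y.1‖) (fun y => ‖y.2 - w' y.1‖) τ)
    (H : ZR l D τ h r1) : ZR (l.setW w') D' τ h r1 := by
  intro ht y hy hy'
  have b1 := (hc _ (cc_sub hh) fun _ t => t = 0).2 fun x hx h2 h3 =>
    norm_eq_zero.2 (sub_eq_zero.2 (ht x ⟨hx, h3⟩ h2))
  have b2 := H fun x hx h2 => sub_eq_zero.1 (norm_eq_zero.1 (b1 x hx.1 h2 hx.2))
  have b3 := (hc _ subset_rfl fun z t => t = 0 ∧ l.side z).1 (fun x hx h2 h3 =>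
    ⟨norm_eq_zero.2 (sub_eq_zero.2 (b2 x ⟨hx, h3⟩ h2).1), (b2 x ⟨hx, h3⟩ h2).2⟩) y hy.1 hy' hy.2
  exact ⟨sub_eq_zero.1 (norm_eq_zero.1 b3.1), b3.2⟩

/-- the pull back of a hull and a surface under a shift which is analytic near `N` -/
theorem std_pull {X K : Set E} (h : Std X K) {s : ℂ → ℂ} {N : Set ℂ} (hN : IsCompact N)
    (hs : AnalyticOnNhd ℂ s N) :
    Std {y | y.1 ∈ N ∧ sh s y ∈ X} ({y | y.1 ∈ N ∧ sh s y ∈ K} ∪ {y | y.1 ∉ interior N}) := by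
  have hc : IsClosed {y : E | y.1 ∈ N} := hN.isClosed.preimage continuous_fst
  have c1 : ∀ t : ℂ → ℂ, AnalyticOnNhd ℂ t N → ContinuousOn (sh t) {y : E | y.1 ∈ N} :=
    fun t ht y hy => (an_sh (ht _ hy)).continuousAt.continuousWithinAt
  refine ⟨?_, IsClosed.union ((c1 s hs).preimage_isClosed_of_isClosed hc h.cK)
    ((isOpen_interior.preimage continuous_fst).isClosed_compl), fun y hy hK hp => ?_⟩
  · have : {y | y.1 ∈ N ∧ sh s y ∈ X} = sh (fun z => -s z) '' (X ∩ {y : E | y.1 ∈ N}) := by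
      ext y
      constructor
      · exact fun hy => ⟨sh s y, ⟨hy.2, hy.1⟩, neg_sh s y⟩
      · rintro ⟨x, hx, rfl⟩
        exact ⟨hx.2, by rw [sh_neg]; exact hx.1⟩
    rw [this]
    exact (h.cX.inter_right hc).image_of_continuousOn ((c1 _ hs.neg).mono inter_subset_right)
  · have h1 : y.1 ∈ interior N := by_contra fun h2 => hK (Or.inr h2)
    refine h.np (sh s y) hy.2 (fun h2 => hK (Or.inl ⟨hy.1, h2⟩)) ?_
    obtain ⟨G, g1, g2⟩ := hp
    have a1 : AnalyticAt ℂ (sh fun z => -s z) (sh s y) := an_sh (hs _ hy.1).neg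
    have a2 : Tendsto (sh fun z => -s z) (𝓝 (sh s y)) (𝓝 y) := by
      have := a1.continuousAt.tendsto
      rwa [neg_sh] at this
    refine ⟨fun x => G (sh (fun z => -s z) x), g1.comp_of_eq a1 (neg_sh s y), ?_⟩
    have a3 : ∀ᶠ x in 𝓝 (sh s y), x.1 ∈ interior N :=
      (isOpen_interior.preimage continuous_fst).mem_nhds h1
    filter_upwards [a2.eventually g2, a3] with x b1 b2 b3 b4
    rw [neg_sh]
    refine b1 ⟨interior_subset b2, by rwa [sh_neg]⟩ fun b5 => b4 ?_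
    rw [← b5, sh_neg]

theorem thick {A : Set E} {η : ℝ} (hη : 0 ≤ η) {s : ℂ → ℂ} {y : E} (h1 : ‖s y.1‖ ≤ η)
    (h2 : sh s y ∈ cthickening η A) : y ∈ cthickening (η + η) A := by
  refine cthickening_cthickening_subset hη hη A (mem_cthickening_of_dist_le y (sh s y) _ _ h2 ?_)
  rw [Prod.dist_eq]
  simpa [sh, hη, dist_eq_norm] using h1

end Shear

open Shear

/-- uniform end properties for the shifted ends: `sp'` has the constants of `sp`, its end `j'` is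
the end `j` of `sp` with the sheet `w'`, and `K` is the shift of `S` in the tube -/
theorem shear {J : Type} {sp : Sp J} {τ : ℝ} {S A : Set E} (h : Served sp τ S A) :
    ∃ η > 0, ∀ (J' : Type) (sp' : Sp J') (j : J) (j' : J') (w' : ℂ → ℂ), (sp.l j).ok → 0 ≤ sp.h →
      sp'.l j' = (sp.l j).setW w' → sp'.om j' = sp.om j → sp'.κ j' = sp.κ j → sp'.h = sp.h →
      sp'.r1 = sp.r1 → sp'.r2 = sp.r2 → sp'.Cu = sp.Cu → sp'.Λ0 = sp.Λ0 →
      AnalyticOnNhd ℂ (fun z => w' z - (sp.l j).w z) ((sp.l j).near sp.h sp.r1) →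
      (∀ z ∈ (sp.l j).near sp.h sp.r1, ‖w' z - (sp.l j).w z‖ < η) →
      ∀ X K : Set E, Std X K → X \ K ⊆ cthickening η A →
        (∀ y ∈ sp.T τ j, ((y.1, y.2 + (w' y.1 - (sp.l j).w y.1)) : E) ∈ K ↔ y ∈ S) →
        sp'.End1 (X \ K) τ j' := by
  obtain ⟨η, hη, H⟩ := h
  refine ⟨η / 2, by positivity,
    fun J' sp' j j' w' hl hh e1 e2 e3 e4 e5 e6 e7 e8 han hsm X K hX hA hK => ?_⟩
  set s : ℂ → ℂ := fun z => w' z - (sp.l j).w z with hs
  set Z := (sp.l j).near sp.h sp.r1 with hZ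
  have hU : IsOpen {z | AnalyticAt ℂ s z ∧ ‖s z‖ < η / 2} := by
    rw [isOpen_iff_mem_nhds]
    intro z hz
    exact hz.1.eventually_analyticAt.and
      (hz.1.continuousAt.norm.eventually_lt continuousAt_const hz.2)
  obtain ⟨N, hN, h1, h2⟩ := exists_compact_between (End.isCompact_near hl sp.h sp.r1) hU
    fun z hz => ⟨han z hz, hsm z hz⟩
  have hstd := std_pull hX hN fun z hz => (h2 hz).1
  set X1 : Set E := {y | y.1 ∈ N ∧ sh s y ∈ X}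
  set K1 : Set E := {y | y.1 ∈ N ∧ sh s y ∈ K} ∪ {y | y.1 ∉ interior N}
  have hK1 : ∀ y : E, y.1 ∈ Z → (y ∈ K1 ↔ sh s y ∈ K) := fun y hy =>
    ⟨fun h3 => h3.elim (fun h4 => h4.2) fun h4 => absurd (h1 hy) h4,
      fun h3 => Or.inl ⟨interior_subset (h1 hy), h3⟩⟩
  have key := H X1 K1 hstd (fun y hy => by
    have := thick (by positivity) (h2 hy.1.1).2.le
      (hA ⟨hy.1.2, fun h3 => hy.2 (Or.inl ⟨hy.1.1, h3⟩)⟩)
    rwa [add_halves] at this) j (by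
    ext y
    exact ⟨fun hy => ⟨(hK y hy.2).1 ((hK1 y hy.2.1).1 hy.1), hy.2⟩,
      fun hy => ⟨(hK1 y hy.2.1).2 ((hK y hy.2).2 hy.1), hy.2⟩⟩)
  have hD : ∀ y : E, y.1 ∈ Z → ‖y.2 - (sp.l j).w y.1‖ ≤ τ → (y ∈ X1 \ K1 ↔ sh s y ∈ X \ K) :=
    fun y hy _ => ⟨fun h3 => ⟨h3.1.2, fun h4 => h3.2 ((hK1 y hy).2 h4)⟩,
      fun h3 => ⟨⟨interior_subset (h1 hy), h3.1⟩, fun h4 => h3.2 ((hK1 y hy).1 h4)⟩⟩
  have hn : ∀ y : E, ‖y.2 - (sp.l j).w y.1‖ = ‖(sh s y).2 - w' (sh s y).1‖ := fun y => by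
    congr 1; simp only [sh, hs]; ring
  unfold Sp.End1
  rw [e1, e3, e4, e5, e6, e7, e8]
  refine ⟨ep_of hl hh (cor_of hD fun y _ => ?_) key.1, zr_of hh (cor_of hD fun y _ => hn y) key.2⟩
  unfold Sp.φ
  rw [e1, e2, hn y]
  rfl

/-- the shifted surface serves the shifted ends, uniformly -/
theorem shear_served {J : Type} {sp : Sp J} {τ : ℝ} {S A : Set E} (h : Served sp τ S A)
    (hl : ∀ j, (sp.l j).ok) (hh : 0 ≤ sp.h) :
    ∃ η > 0, ∀ w' : J → ℂ → ℂ,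
      (∀ j, AnalyticOnNhd ℂ (fun z => w' j z - (sp.l j).w z) ((sp.l j).near sp.h sp.r1) ∧
        ∀ z ∈ (sp.l j).near sp.h sp.r1, ‖w' j z - (sp.l j).w z‖ < η) →
      ∀ X K : Set E, Std X K → X \ K ⊆ cthickening η A → ∀ j,
        (∀ y ∈ sp.T τ j, ((y.1, y.2 + (w' j y.1 - (sp.l j).w y.1)) : E) ∈ K ↔ y ∈ S) →
        ({ sp with l := fun j => (sp.l j).setW (w' j) } : Sp J).End1 (X \ K) τ j := by
  obtain ⟨η, hη, H⟩ := shear h
  exact ⟨η, hη, fun w' hw X K hX hA j hK =>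
    H J { sp with l := fun j => (sp.l j).setW (w' j) } j j (w' j) (hl j) hh rfl rfl rfl rfl rfl rfl
      rfl rfl (hw j).1 (hw j).2 X K hX hA hK⟩

end Pool.Agent.S6
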