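import Pool.Agent.Lib.S6.Shear

/-!
Shears of the end tubes, with the relation between the surfaces only above the depth `-a`.
-/

open Set Filter Topology Metric

noncomputable section

namespace Pool.Agent.S6

open Pool.Agent.CF (End Kind SLH)
open Pool.Agent.Lib

namespace Shear

theorem isCompact_T {J : Type} (sp : Sp J) (τ : ℝ) (j : J)
    (hw : ContinuousOn (sp.l j).w ((sp.l j).near sp.h sp.r1)) {Z : Set ℂ} (hZ : IsCompact Z)
    (hs : Z ⊆ (sp.l j).near sp.h sp.r1) : IsCompact {y | y ∈ sp.T τ j ∧ y.1 ∈ Z} := by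
  have : {y | y ∈ sp.T τ j ∧ y.1 ∈ Z} = sh (sp.l j).w '' (Z ×ˢ closedBall 0 τ) := by
    ext y
    constructor
    · exact fun hy => ⟨(y.1, y.2 - (sp.l j).w y.1), ⟨hy.2, by simpa using hy.1.2⟩, by simp [sh]⟩
    · rintro ⟨x, hx, rfl⟩
      exact ⟨⟨hs hx.1, by simpa [sh] using hx.2⟩, hx.1⟩
  rw [this]
  exact (hZ.prod (isCompact_closedBall _ _)).image_of_continuousOn
    (continuousOn_fst.prodMk (continuousOn_snd.add
      (hw.comp continuousOn_fst fun x hx => hs hx.1)))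

/-- points of the tube which are close to `A` are above the depth `-a` -/
theorem above {J : Type} (sp : Sp J) (τ : ℝ) (j : J) (hl : (sp.l j).ok)
    (hw : ContinuousOn (sp.l j).w ((sp.l j).near sp.h sp.r1)) {A : Set E} (hA : IsClosed A)
    (iso : ∀ y ∈ A, y ∈ sp.T τ j → (sp.l j).side y.1) {a : ℝ} (ha : 0 < a) :
    ∃ η > 0, ∀ y ∈ sp.T τ j, y ∈ cthickening η A →
      (sp.l j).k = Kind.pt ∨ -a < (sp.l j).dep y.1 := by
  by_cases hk : (sp.l j).k = Kind.pt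
  · exact ⟨1, one_pos, fun _ _ _ => Or.inl hk⟩
  have hr := hl.pos hk
  have hc := isCompact_T sp τ j hw
    (End.isCompact_ann hr (I := Icc (-sp.h) sp.h ∩ Iic (-a)) (isCompact_Icc.inter_right isClosed_Iic))
    (by rw [End.near_loop hk]; exact End.ann_mono inter_subset_left)
  obtain ⟨η, hη, hd⟩ := Disjoint.exists_cthickenings (disjoint_left.2 fun y hy h2 => by
    have := (End.side_iff hk hr hy.2.1).1 (iso y h2 hy.1)
    have h3 : (sp.l j).dep y.1 ≤ -a := hy.2.2.2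
    linarith) hc hA
  refine ⟨η, hη, fun y hy h2 => Or.inr (lt_of_not_ge fun h3 => ?_)⟩
  have h4 := hy.1
  rw [End.near_loop hk] at h4
  exact disjoint_left.1 hd (self_subset_cthickening _ ⟨hy, h4.1, h4.2, h3⟩) h2

end Shear

open Shear

/-- as `shear`; analyticity of the shift and the relation between `K` and `S` are needed only
above the depth `-a` -/
theorem shear2 {J : Type} [Finite J] {sp : Sp J} {τ : ℝ} {S A : Set E} (h : Served sp τ S A)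
    (hS : IsClosed S) (hA : IsClosed A) (hl : ∀ j, (sp.l j).ok) (hh : 0 ≤ sp.h)
    (hw : ∀ j, ContinuousOn (sp.l j).w ((sp.l j).near sp.h sp.r1))
    (iso : ∀ j, ∀ y ∈ A, y ∈ sp.T τ j → (sp.l j).side y.1) {a : ℝ} (ha : 0 < a) :
    ∃ η > 0, ∀ (J' : Type) (sp' : Sp J') (j : J) (j' : J') (w' : ℂ → ℂ),
      sp'.l j' = (sp.l j).setW w' → sp'.om j' = sp.om j → sp'.κ j' = sp.κ j → sp'.h = sp.h →
      sp'.r1 = sp.r1 → sp'.r2 = sp.r2 → sp'.Cu = sp.Cu → sp'.Λ0 = sp.Λ0 →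
      (∀ z ∈ (sp.l j).near sp.h sp.r1, ‖w' z - (sp.l j).w z‖ < η ∧
        ((sp.l j).k = Kind.pt ∨ -a ≤ (sp.l j).dep z →
          AnalyticAt ℂ (fun z => w' z - (sp.l j).w z) z)) →
      ∀ X K : Set E, Std X K → X \ K ⊆ cthickening η A →
        (∀ y ∈ sp.T τ j, (sp.l j).k = Kind.pt ∨ -a ≤ (sp.l j).dep y.1 →
          (((y.1, y.2 + (w' y.1 - (sp.l j).w y.1)) : E) ∈ K ↔ y ∈ S)) →
        sp'.End1 (X \ K) τ j' := by
  obtain ⟨η0, hη0, H⟩ := h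
  choose η1 hη1 H1 using fun j => above sp τ j (hl j) (hw j) hA (iso j) (half_pos ha)
  obtain ⟨η, hη, hη2, hη3⟩ : ∃ η > 0, η ≤ η0 ∧ ∀ j, η ≤ η1 j := by
    have e1 : ∀ᶠ t in 𝓝[>] (0 : ℝ), ∀ j, t ≤ η1 j := eventually_all.2 fun j =>
      mem_nhdsWithin_of_mem_nhds (Iic_mem_nhds (hη1 j))
    have e2 : ∀ᶠ t in 𝓝[>] (0 : ℝ), t ≤ η0 := mem_nhdsWithin_of_mem_nhds (Iic_mem_nhds hη0)
    obtain ⟨t, h1, h2, h3⟩ := ((eventually_mem_nhdsWithin (a := (0 : ℝ)) (s := Ioi 0)).and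
      (e2.and e1)).exists
    exact ⟨t, h1, h2, h3⟩
  refine ⟨η / 2, by positivity,
    fun J' sp' j j' w' e1 e2 e3 e4 e5 e6 e7 e8 hsm X K hX hXA hK => ?_⟩
  set s : ℂ → ℂ := fun z => w' z - (sp.l j).w z with hs
  set Z := (sp.l j).near sp.h sp.r1 with hZ
  have hth : ∀ y : E, ‖s y.1‖ ≤ η / 2 → sh s y ∈ X \ K → y ∈ cthickening η A := fun y h1 h2 => by
    have := thick (by positivity) h1 (hXA h2)
    rwa [add_halves] at this
  obtain ⟨N, hN, h1, h2⟩ : ∃ N : Set ℂ, IsCompact N ∧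
      (∀ z ∈ Z, (sp.l j).k = Kind.pt ∨ -(a / 2) ≤ (sp.l j).dep z → z ∈ interior N) ∧
      ∀ z ∈ N, (AnalyticAt ℂ s z ∧ ‖s z‖ < η / 2) ∧
        ((sp.l j).k = Kind.pt ∨ -a ≤ (sp.l j).dep z) := by
    have hU : IsOpen {z | AnalyticAt ℂ s z ∧ ‖s z‖ < η / 2} := by
      rw [isOpen_iff_mem_nhds]
      intro z hz
      exact hz.1.eventually_analyticAt.and
        (hz.1.continuousAt.norm.eventually_lt continuousAt_const hz.2)
    by_cases hk : (sp.l j).k = Kind.pt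
    · obtain ⟨N, hN, h1, h2⟩ := exists_compact_between (End.isCompact_near (hl j) sp.h sp.r1) hU
        fun z hz => ⟨(hsm z hz).2 (Or.inl hk), (hsm z hz).1⟩
      exact ⟨N, hN, fun z hz _ => h1 hz, fun z hz => ⟨h2 hz, Or.inl hk⟩⟩
    · have hr := (hl j).pos hk
      have hZ' : Z = (sp.l j).ann (Icc (-sp.h) sp.h) := End.near_loop hk _ _
      obtain ⟨N, hN, h1, h2⟩ := exists_compact_between
        (End.isCompact_ann hr (I := Icc (-sp.h) sp.h ∩ Ici (-(a / 2)))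
          (isCompact_Icc.inter_right isClosed_Ici))
        (hU.inter (End.isOpen_ann hr (I := Ioi (-a)) isOpen_Ioi)) fun z hz => by
          have h3 : z ∈ Z := by rw [hZ']; exact ⟨hz.1, hz.2.1⟩
          have h4 : -(a / 2) ≤ (sp.l j).dep z := hz.2.2
          exact ⟨⟨(hsm z h3).2 (Or.inr (by linarith)), (hsm z h3).1⟩, hz.1,
            show -a < (sp.l j).dep z by linarith⟩
      refine ⟨N, hN, fun z hz h3 => h1 ?_, fun z hz => ⟨(h2 hz).1, Or.inr (le_of_lt (h2 hz).2.2)⟩⟩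
      rw [hZ'] at hz
      exact ⟨hz.1, hz.2, h3.resolve_left hk⟩
  have hstd := std_pull hX hN fun z hz => (h2 z hz).1.1
  set X1 : Set E := {y | y.1 ∈ N ∧ sh s y ∈ X} with hX1
  set K0 : Set E := {y | y.1 ∈ N ∧ sh s y ∈ K} ∪ {y | y.1 ∉ interior N} with hK0
  have hTc : IsClosed (sp.T τ j) := by
    have := isCompact_T sp τ j (hw j) (End.isCompact_near (hl j) sp.h sp.r1) subset_rfl
    rw [show {y | y ∈ sp.T τ j ∧ y.1 ∈ (sp.l j).near sp.h sp.r1} = sp.T τ j from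
      Set.ext fun y => ⟨fun h => h.1, fun h => ⟨h, h.1⟩⟩] at this
    exact this.isClosed
  have hin : ∀ y ∈ sp.T τ j, sh s y ∈ X \ K → y.1 ∈ interior N := fun y hy h3 =>
    h1 _ hy.1 ((H1 j y hy (cthickening_mono (hη3 j) A (hth y (hsm _ hy.1).1.le h3))).imp_right
      le_of_lt)
  have hK1 : ∀ y ∈ sp.T τ j, y ∈ X1 → y ∈ K0 → y ∈ S := fun y hy h3 h4 => by
    refine (hK y hy (h2 _ h3.1).2).1 (by_contra fun h5 => ?_)
    exact h4.elim (fun h6 => h5 h6.2) fun h6 => h6 (hin y hy ⟨h3.2, h5⟩)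
  have key := H X1 (X1 ∩ K0 ∪ S ∩ sp.T τ j)
    ⟨hstd.cX, (hstd.cX.isClosed.inter hstd.cK).union (hS.inter hTc),
      fun y hy h3 => hstd.np y hy fun h4 => h3 (Or.inl ⟨hy, h4⟩)⟩
    (fun y hy => cthickening_mono hη2 A (hth y (h2 _ hy.1.1).1.2.le
      ⟨hy.1.2, fun h3 => hy.2 (Or.inl ⟨hy.1, Or.inl ⟨hy.1.1, h3⟩⟩)⟩)) j (by
    ext y
    exact ⟨fun hy => ⟨hy.1.elim (fun h3 => hK1 y hy.2 h3.1 h3.2) fun h3 => h3.1, hy.2⟩,
      fun hy => ⟨Or.inr hy, hy.2⟩⟩)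
  have hD : ∀ y : E, y.1 ∈ Z → ‖y.2 - (sp.l j).w y.1‖ ≤ τ →
      (y ∈ X1 \ (X1 ∩ K0 ∪ S ∩ sp.T τ j) ↔ sh s y ∈ X \ K) := fun y hy hy' => by
    refine ⟨fun h3 => ⟨h3.1.2, fun h4 => h3.2 (Or.inl ⟨h3.1, Or.inl ⟨h3.1.1, h4⟩⟩)⟩, fun h3 => ?_⟩
    have h4 : y ∈ X1 := ⟨interior_subset (hin y ⟨hy, hy'⟩ h3), h3.1⟩
    refine ⟨h4, fun h5 => h3.2 ((hK y ⟨hy, hy'⟩ (h2 _ h4.1).2).2 ?_)⟩
    exact h5.elim (fun h6 => hK1 y ⟨hy, hy'⟩ h4 h6.2) fun h6 => h6.1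
  have hn : ∀ y : E, ‖y.2 - (sp.l j).w y.1‖ = ‖(sh s y).2 - w' (sh s y).1‖ := fun y => by
    congr 1; simp only [sh, hs]; ring
  unfold Sp.End1
  rw [e1, e3, e4, e5, e6, e7, e8]
  refine ⟨ep_of (hl j) hh (cor_of hD fun y _ => ?_) key.1,
    zr_of hh (cor_of hD fun y _ => hn y) key.2⟩
  unfold Sp.φ
  rw [e1, e2, hn y]
  rfl

end Pool.Agent.S6
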