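import Pool.Agent.Lib.S6.Blue2
import Pool.Agent.Lib.SH.Blue8

/-!
Section 6 of the project 9ccfb7: the site of the split, interface.
-/

open Set Filter Topology Metric
open scoped ContDiff

noncomputable section

namespace Pool.Agent.S6

open Pool.Agent.CF (End Kind IsCurve Geo SLH Cv Priv)
open Pool.Agent.Lib

/-- modulus of the two root function -/
def psi (V : E → ℂ) (e : ℝ) (y : E) : ℝ := ‖SH.pp e (V y)‖

/-- bound over the core circle -/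
def Top (l : End) (D : Set E) (φ : E → ℝ) (τ h r1 lv : ℝ) : Prop :=
  ∀ y ∈ SH.near D l.w τ, y.1 ∈ cc l h r1 → φ y ≤ lv

/-- the end properties at an end of the old curve after the split; the new sheet is
`w + e * d1` over `U` -/
structure EndS (l : End) (V : E → ℂ) (d1 : ℂ → ℂ) (e : ℝ) (U : Set ℂ) (D : Set E)
    (τ h r1 r2 Cu Λ0 κ1 κ2 κ0 θ θ1 Dp : ℝ) : Prop where
  b1 : EP l D (psi V e) τ h r1 r2 Cu Λ0 κ1 (θ * e ^ 2)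
  b2 : Top l D (psi V e) τ h r1 (θ1 * e ^ 2) → ∀ thr : ℝ, 0 < thr →
    Top l D (psi V e) τ h r1 (Dp * thr) →
    EP l {y | y ∈ D ∧ ‖V y - e‖ ≤ e / 2} (psi V e) τ h r1 r2 Cu Λ0 κ2 thr ∧
      EP l {y | y ∈ D ∧ ‖V y‖ ≤ e / 2} (psi V e) τ h r1 r2 Cu Λ0 κ0 thr
  zr : Top l D (psi V e) τ h r1 0 → ∀ y ∈ SH.near D l.w τ, y.1 ∈ l.near h r1 →
    (y.2 = l.w y.1 ∧ l.side y.1) ∨ (y.1 ∈ U ∧ y.2 = l.w y.1 + e * d1 y.1)

/-- the end of `C` in whose collar a new end lies -/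
def par (C : Cv) (π : Type) : C.ι ⊕ π → C.ι := Sum.elim id fun _ => C.H

/-- the part of the zone of the end `j` deeper than `s`, without the discs about the ports;
`l k`, `ρ k` are the ends and the radii of the ports -/
def rg (C : Cv) {π : Type} (l : C.ι ⊕ π → End) (ρ : C.ι ⊕ π → ℝ) (h r1 s u : ℝ) (j : C.ι) : Set ℂ :=
  {z | z ∈ (C.e j).near h r1 ∧ ((C.e j).k ≠ Kind.pt → s ≤ (C.e j).dep z) ∧
    ∀ k, par C π k = j → (l k).k = Kind.pt → ρ k * Real.exp u ≤ ‖z - (l k).c‖}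

/-- nothing vanishes on the sheets of `C` over the zones -/
def ClearB (C K : Cv) (a : ℂ) (q G : E → ℂ) {π : Type} (x : π → ℂ) (h r1 : ℝ) : Prop :=
  ∀ j, ∀ z ∈ (C.e j).near h r1, K.P (z, (C.e j).w z) ≠ 0 ∧ G (z, (C.e j).w z) ≠ 0 ∧
    q (z, (C.e j).w z) ≠ 0 ∧ z ≠ a ∧ (∀ i, i ≠ j → (C.e i).k = Kind.pt → z ≠ (C.e i).c) ∧
    (j ≠ C.H → ∀ k, z ≠ C.c + C.R * x k)

/-- the fibre function -/
def vS (C K : Cv) (g q : E → ℂ) (y : E) : ℂ := g y * K.P y * C.P y / q y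

/-- the loop of the new curve at the site `k`, before the perturbation -/
def aE {I : Type} (B : Cv) (W : Wd I B.ι) (y2 : ℝ) (k : B.ι) : End :=
  (B.e k).adj y2 (W.pr k * Real.exp y2)

/-- the new wall at the site `k`, relative to the old sheet -/
def nW {I : Type} (B : Cv) (W : Wd I B.ι) (M : B.ι → ℂ → ℂ) (k : B.ι) (z : ℂ) : ℂ :=
  (W.Ef k ((wl (B.e k) (W.pr k)).dep z) : ℂ) * B.lam k z + M k z

/-- the walls after the split at the ends of `B`: `W'` are the wall data of the old curve with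
the new ports, `EA`, `lA` those of the new curve `PA = 0`, whose sheets are `w + e * d1 k` over
`Zb k`; `sd` are the new saddles -/
structure SiteW {I : Type} (B : Cv) (W : Wd I B.ι) (π' : Type) [Fintype π'] (x' : π' → ℂ)
    (δ' : ℝ) (W' : Wd I (B.ι ⊕ π')) (PA : E → ℂ) (d1 : B.ι → ℂ → ℂ) (Zb : B.ι → Set ℂ)
    (e y2 t hz' τ : ℝ) (kk : ℕ) (ε : ℝ) (M : B.ι → ℂ → ℂ) (EA : B.ι → ℝ → ℝ) (lA : B.ι → ℂ → ℂ)
    (sd : π' → ℂ) : Prop where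
  pos : 0 < hz' ∧ hz' ≤ t
  small : ∀ k, SH.Small kk ε (M k)
  supp : ∀ k z, M k z ≠ 0 → z ∈ W.zn B (3 * t) k
  bd : ∀ k, ∀ z ∈ W.zn B (3 * t) k, ‖nW B W M k z‖ ≤ τ
  sub : ∀ k', W'.zn (born B π' x' δ') hz' k' ⊆ W.zn B (3 * t) (par B π' k')
  pr : ∀ k', SH.PR (W'.Ef k')
    (((born B π' x' δ').e k').k ≠ Kind.pt ∧ k' ≠ (born B π' x' δ').H)
  exact : ∀ k', ∀ z ∈ W'.zn (born B π' x' δ') hz' k', nW B W M (par B π' k') z =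
    (W'.Ef k' ((wl ((born B π' x' δ').e k') (W'.pr k')).dep z) : ℂ) * (born B π' x' δ').lam k' z
  pole : ∀ k', ((born B π' x' δ').e k').k = Kind.pt → Pole ((born B π' x' δ').lam k')
    ((born B π' x' δ').e k').c (W'.zn (born B π' x' δ') hz' k')
  loop : ∀ k', ((born B π' x' δ').e k').k ≠ Kind.pt →
    AnalyticOnNhd ℂ ((born B π' x' δ').lam k') (W'.zn (born B π' x' δ') hz' k') ∧
      ∀ z ∈ W'.zn (born B π' x' δ') hz' k', (born B π' x' δ').lam k' z ≠ 0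
  disj : ∀ k1 k2, k1 ≠ k2 → par B π' k1 = par B π' k2 →
    Disjoint (W'.zn (born B π' x' δ') hz' k1) (W'.zn (born B π' x' δ') hz' k2)
  subA : ∀ k, (aE B W y2 k).ann (Icc (-hz') hz') ⊆ W.zn B (3 * t) k ∩ Zb k
  prA : ∀ k, SH.PR (EA k) True
  anA : ∀ k, ∀ z ∈ (aE B W y2 k).ann (Icc (-hz') hz'), AnalyticAt ℂ (d1 k) z ∧
    AnalyticAt ℂ (lA k) z ∧ lA k z ≠ 0
  same : ∀ k, CF.SameW (aE B W y2 k) (B.lam k) (lA k)
  exactA : ∀ k, ∀ z ∈ (aE B W y2 k).ann (Icc (-hz') hz'), nW B W M k z =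
    e * d1 k z + (EA k ((aE B W y2 k).dep z) : ℂ) * lA k z
  cross : ∀ k', Disjoint ((aE B W y2 (par B π' k')).ann (Icc (-hz') hz'))
    (W'.zn (born B π' x' δ') hz' k')
  zero0 : ∀ k, ∀ z ∈ W.zn B (3 * t) k, nW B W M k z = 0 →
    ∃ k', par B π' k' = k ∧ z ∈ ct ((born B π' x' δ').e k') (W'.pr k')
  zero1 : ∀ k, ∀ z ∈ W.zn B (3 * t) k, z ∈ Zb k → PA (z, (B.e k).w z + nW B W M k z) = 0 →
    z ∈ (aE B W y2 k).circ
  real : ∀ k, ∀ z ∈ W.zn B (3 * t) k, nW B W M k z ≠ 0 → z ∉ (aE B W y2 k).circ → ∀ f : ℂ → ℂ,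
    (∀ᶠ v in 𝓝 z, f v = (B.e k).w v + nW B W M k v) →
    SH.dbar f z ≠ 0 ∨ (k = B.H ∧ ∃ i, z = sd i)
  saddle : ∀ i, sd i ∈ B.hub.ann (Ioo 0 t) ∧ sd i ∈ Zb B.H ∧ nW B W M B.H (sd i) ≠ 0 ∧
    sd i ∉ (aE B W y2 B.H).circ ∧ ∀ (S : Set E) (f : ℂ → ℂ),
      (∀ᶠ v in 𝓝 (sd i), f v = B.hub.w v + nW B W M B.H v) →
      (∀ᶠ y in 𝓝 ((sd i, f (sd i)) : E), y ∈ S ↔ y.2 = f y.1) → SH.LB2 S (sd i, f (sd i))

open Classical in
/-- the site of the split for the constant `L` -/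
def SiteP (L : ℝ) : Prop := ∀ (I : Type) [Fintype I] (fx : Fix I) (C K : Cv) (Nd : Finset E)
  (TC TK : ℤ) (D : ℕ) (a : ℂ) (Z : Finset E) (q G : E → ℂ) (π π' : Type) [Fintype π] [Fintype π']
  (x : π → ℂ) (x' : π' → ℂ) (sp : Sp C.ι) (Sig : Finset ℂ) (n : ℕ) (η Dp : ℝ) (κf : ℝ → ℝ),
  fx.OK → CF.Alg C K Nd TC TK D → Sec C K Nd TC a Z q G (Fintype.card π) →
  Pos C (Sum.elim x x') → sp.l = C.e → Geom C.P C.Γ sp Sig → ClearB C K a q G x sp.h sp.r1 →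
  Fintype.card π + Fintype.card π' ≤ n → Kit sp.h n 0 sp.Cu sp.Λ0 η κf → 1 ≤ Dp →
  ∃ θ1 > (0 : ℝ), ∀ θ : ℝ, 0 < θ → θ ≤ θ1 → ∀ᶠ δ in 𝓝[>] (0 : ℝ),
  ∀ (F : I → ℂ → ℂ) (W : Wd I (C.ι ⊕ π)) (hz : ℝ), (∀ i, ContDiff ℝ ∞ (F i)) →
    (∀ i i', i ≠ i' → ∀ z ∈ fx.dom i, z ∈ fx.dom i' → F i z ≠ F i' z) → 0 < hz →
    SideWall fx F hz (winS C K π a q G x δ) K W →
    (∀ j, (C.e j).k = Kind.pt → W.pr (Sum.inl j) < sp.r2) →
    (∀ k, W.pr (Sum.inr k) = bpr C L δ) →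
    ∀ pr : C.ι ⊕ π → ℝ, (∀ j, ((winS C K π a q G x δ).e j).k = Kind.pt →
      0 < pr j ∧ pr j ≤ W.pr j) →
    ∀ τ : ℝ, 0 < τ → (∀ j, ∀ y ∈ C.Γ ∪ K.Γ, y ∈ sp.T τ j →
      y.2 = (C.e j).w y.1 ∧ (C.e j).side y.1) →
    ∀ t0 : ℝ, 0 < t0 → ∃ (t η0 : ℝ) (d : C.ι → ℂ × ℂ → ℂ), 0 < t ∧ t ≤ t0 ∧ 4 * t ≤ hz ∧ 0 < η0 ∧
      (∀ j, CF.SheetFam (C.pA K (gS C G x δ) (qS C a q x δ)) (C.e j).w
        (rg C (winS C K π a q G x δ).e W.pr sp.h sp.r1 (-(3 * t)) (-1 / 2) j) (d j)) ∧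
      (∀ k, W.zn (winS C K π a q G x δ) (3 * t) k ⊆ (C.e (par C π k)).near sp.h sp.r1) ∧
      ∀ (kk : ℕ) (ε : ℝ), 0 < ε → ∀ᶠ y2 in 𝓝[>] (0 : ℝ), ∀ᶠ δ' in 𝓝[>] (0 : ℝ),
        ∀ᶠ e in 𝓝[>] (0 : ℝ), ∃ (M : C.ι ⊕ π → ℂ → ℂ) (Ef : (C.ι ⊕ π) ⊕ π' → ℝ → ℝ)
          (EA : C.ι ⊕ π → ℝ → ℝ) (lA : C.ι ⊕ π → ℂ → ℂ) (hz' : ℝ) (sd : π' → ℂ),
          SiteW (winS C K π a q G x δ) W π' x' δ'
            (Wd.born (winS C K π a q G x δ) W.cp pr π' L δ' Ef)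
            (SH.pA C.P K.P (gS C G x δ) (qS C a q x δ) e) (fun k z => d (par C π k) (z, e))
            (fun k => rg C (winS C K π a q G x δ).e W.pr sp.h sp.r1 (-(3 * t)) (-1 / 2)
              (par C π k)) e y2 t hz' τ kk ε M EA lA sd ∧
          ∀ F' : I → ℂ → ℂ, (∀ i, ∀ z ∈ fx.dom i, ‖F' i z - F i z‖ ≤ η0) →
            (∀ k, ∀ z ∈ W.zn (winS C K π a q G x δ) hz k,
              F' (W.cp k) z = F (W.cp k) z + M k z) →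
            ∀ X Y : Set E, Std X Y → X \ Y ⊆ cthickening η0 (C.Γ ∪ K.Γ) → ∀ j,
              Y ∩ sp.T τ j = fx.S F' ∩ sp.T τ j →
              (∀ z ∈ rg C (winS C K π a q G x δ).e W.pr sp.h sp.r1 y2 y2 j,
                (z, (C.e j).w z + e * d j (z, e)) ∈ X) →
              EndS (C.e j) (vS C K (gS C G x δ) (qS C a q x δ)) (fun z => d j (z, e)) e
                (rg C (winS C K π a q G x δ).e W.pr sp.h sp.r1 y2 y2 j) (X \ Y) τ sp.h sp.r1 sp.r2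
                sp.Cu sp.Λ0 (η + if j = C.H then 1 / 2 else 0)
                (η + if j = C.H then 2 * (Fintype.card π : ℝ) else 0)
                (η + if j = C.H then 2 * (Fintype.card π : ℝ) - 3 / 4 * Fintype.card π' else 0)
                θ θ1 Dp

def St_SITE : Prop := ∃ L0 : ℝ, ∀ L : ℝ, L0 ≤ L → SiteP L

end Pool.Agent.S6
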