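import Pool.Agent.Lib.S6.Site
import Pool.Agent.Lib.SH.Ring3

/-!
Section 6 of the project 9ccfb7: the site of the split, descriptions and end lemmas.
-/

open Set Filter Topology Metric
open scoped ContDiff

noncomputable section

namespace Pool.Agent.S6

open Pool.Agent.CF (End Kind IsCurve Geo SLH Cv Priv)
open Pool.Agent.Lib
open Pool.Agent.Lib.SH (bc ov ech pp GP)

/-! ### profiles and plain walls -/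

/-- `u` is close to `1` at `z` -/
def N1 (u : ℂ → ℂ) (o : ℝ) (z : ℂ) : Prop :=
  AnalyticAt ℂ u z ∧ ‖u z - 1‖ ≤ o ∧ ‖deriv u z‖ ≤ o

/-- the exponential part of the lower profile -/
def ex (y2 y : ℝ) : ℝ := Real.exp (1024 * (y / y2 - 1 / 2))

/-- the three profiles of a split wall -/
structure Pf (E1 T S : ℝ → ℝ) (y2 t : ℝ) : Prop where
  num : 0 < y2 ∧ 8 * y2 ≤ t ∧ t ≤ 1 / 16
  dE : ∀ y ∈ Icc (-(2 * t)) (2 * t), DifferentiableAt ℝ E1 y ∧ |E1 y| ≤ t / 8 * deriv E1 y ∧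
    0 ≤ y * E1 y
  dT : Differentiable ℝ T ∧ ∀ y, 0 ≤ deriv T y ∧ 0 ≤ T y ∧ T y ≤ 1
  dS : Differentiable ℝ S ∧ ∀ y, 0 ≤ deriv S y ∧ 0 ≤ S y ∧ S y ≤ 2
  e0 : ∀ y ∈ Icc 0 (2 * y2), E1 y = 0
  neg : ∀ y ∈ Icc (-(2 * t)) 0, E1 y = 0 ∨ T y = 0
  T1 : ∀ y, y2 / 2 ≤ y → T y = 1
  low : ∀ y ≤ 3 * y2 / 8, 1024 * T y ≤ y2 * deriv T y ∧ T y ≤ ex y2 y
  mid : ∀ y ∈ Icc (y2 / 8) (3 * y2 / 8), T y = ex y2 y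
  S0 : ∀ y ≤ y2 / 4, S y = 0
  S1 : S y2 = 1 ∧ (∀ y < y2, S y < 1) ∧ ∀ y, y2 < y → 1 < S y
  steep : ∀ y ∈ Icc (-(2 * t)) (2 * t), T y + S y ≤ t / 8 * (deriv T y + deriv S y) ∨
    |T y - 1| + |S y - 1| ≤ t / 8 * (deriv T y + deriv S y)

/-- the wall in the unit `d1` at the height `y` -/
def wv (E1 T S : ℝ → ℝ) (u1 u2 : ℂ → ℂ) (e y : ℝ) (z : ℂ) : ℂ :=
  (E1 y : ℂ) * u1 z + (e / 2 * T y : ℝ) * u2 z + (e / 2 * S y : ℝ) * (2 - u2 z)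

/-- split walls are plain walls; `b` is the chart, `c` the unit of the height -/
def St_SPW : Prop := ∀ ι : ℝ, 0 < ι → ∃ o > (0 : ℝ), ∀ (J : Set ℝ) (E1 T S : ℝ → ℝ)
  (y2 t c e r om : ℝ) (b u1 u2 : ℂ → ℂ) (Θ : E → ℂ), Pf E1 T S y2 t → 0 < c → t ≤ o * c → 0 < e →
  4 * e ≤ r → om ≤ o → (∀ y ∈ Icc (-(2 * t)) (2 * t), |E1 y| ≤ r / 4) →
  (∀ x ∈ J, ∀ y ∈ Icc (-(2 * (t / c))) (2 * (t / c)), AnalyticAt ℂ b (x + y * Complex.I) ∧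
    ‖deriv b (x + y * Complex.I)‖ ≤ 100 ∧ SH.Th Θ e om r (b (x + y * Complex.I))) →
  (∀ y ∈ Icc (-(2 * (t / c))) (2 * (t / c)),
    (∀ᶠ s in 𝓝 (c * y), E1 s = 0 ∧ T s = 0 ∧ S s = 0) ∨
      ∀ x ∈ J, N1 u1 om (b (x + y * Complex.I)) ∧ N1 u2 om (b (x + y * Complex.I))) →
  ∃ Ψy : ℝ → ℝ → ℂ, ∀ e' lev : ℝ, SH.Rd e' e lev → SH.PW J e' ι (t / c) (SH.cW 1) lev
    (fun x y => Θ (b (x + y * Complex.I), wv E1 T S u1 u2 e (c * y) (b (x + y * Complex.I)))) Ψy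

/-! ### descriptions -/

/-- data of an end: sheet `w`, fibre function `V`, secant `d0`, new sheet `w + e * d1`,
wall `w + N` -/
structure SD where
  w : ℂ → ℂ
  V : E → ℂ
  Wt : E → ℂ
  d0 : ℂ → ℂ
  d1 : ℂ → ℂ
  N : ℂ → ℂ
  S : ℝ → ℝ
  e : ℝ
  y2 : ℝ
  t : ℝ
  r : ℝ
  R : ℝ
  o : ℝ

/-- the point at depth `s` in the direction `x * exp (i t)` -/
def hq (l : End) (x : ℂ) (s t : ℝ) : ℂ := l.c + l.r * x * Complex.exp (-s + t * Complex.I)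

/-- product of the Blaschke type factors -/
def bq (l : End) {π : Type} [Fintype π] (x : π → ℂ) (δ : ℝ) (z : ℂ) : ℂ :=
  ∏ k, (z - hq l (x k) δ 0) / (z - hq l (x k) (-δ) 0)

theorem hp_eq (A : Cv) (x : ℂ) (s t : ℝ) : hp A x s t = hq A.hub x s t := rfl

theorem bB_eq (A : Cv) {π : Type} [Fintype π] (x : π → ℂ) (δ : ℝ) : bB A x δ = bq A.hub x δ := rfl

/-- profile of the birth walls in the split -/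
structure GZ (G0 : ℝ → ℝ) (M8 σ0 : ℝ) : Prop where
  smooth : ContDiff ℝ ∞ G0
  zero : ∀ s ≤ 0, G0 s = 0
  pos : ∀ s, 0 < s → 0 < G0 s
  mono : ∀ s, 0 ≤ deriv G0 s ∧ G0 s ≤ 1
  steep : ∀ s, 0 < s → s ≤ 4 * M8 → G0 s ≤ σ0 * deriv G0 s ∧ G0 s ≤ Real.exp ((s - 4 * M8) / σ0)
  one : ∀ s, 5 * M8 ≤ s → G0 s = 1
  flat : ∀ N : ℝ, ∀ᶠ y in 𝓝[>] (0 : ℝ), N * G0 y ≤ y * deriv G0 y

/-- constants of the windows born in the split -/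
structure WC where
  c0 : ℝ
  CD : ℝ
  M8 : ℝ
  y4 : ℝ
  σ0 : ℝ
  th : ℝ → ℝ
  G0 : ℝ → ℝ

structure WC.OK (wc : WC) (L : ℝ) : Prop where
  num : 100 ≤ L ∧ 0 < wc.c0 ∧ wc.c0 ≤ 1 ∧ 4 ≤ wc.M8 ∧ 0 < wc.y4 ∧ wc.y4 ≤ 1 / 4 ∧ 0 < wc.σ0 ∧
    wc.σ0 ≤ 1 / (100 * L)
  locf : SH.LocF wc.c0 wc.CD L
  shape : ∀ (x : ℂ) (δ : ℝ), x ≠ 0 → 0 < δ → δ ≤ 1 / 8 →
    ∃ D0 : ℂ → ℝ, SH.Shape wc.c0 wc.CD wc.M8 wc.y4 L x δ 0 D0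
  th : ContDiff ℝ ∞ wc.th ∧ ∃ Cth, SH.ThOK wc.th Cth
  G0 : GZ wc.G0 wc.M8 wc.σ0

namespace SD

variable (s : SD)

/-- the fibre function in the unit `d1` -/
def Θ (y : E) : ℂ := s.V (y.1, s.w y.1 + y.2 * s.d1 y.1)

structure Num : Prop where
  e : 0 < s.e ∧ 4 * s.e ≤ s.r
  y2 : 0 < s.y2 ∧ s.y2 ≤ s.o * s.t ∧ 0 < s.t ∧ s.t ≤ s.o
  R : 0 < s.R

/-- comparison of `V` with the linear coordinate -/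
def Cmp (Z : Set ℂ) : Prop := ∀ z ∈ Z, AnalyticAt ℂ s.w z ∧ ∀ ν : ℂ, ‖ν‖ ≤ s.R →
  AnalyticAt ℂ s.Wt (z, s.w z + ν) ∧ ‖s.Wt (z, s.w z + ν) - 1‖ ≤ s.o ∧
    ∀ᶠ y in 𝓝 ((z, s.w z + ν) : E), s.V y = (y.2 - s.w y.1) / s.d0 y.1 * s.Wt y

/-- the fibre map is near the identity -/
def Str (Z : Set ℂ) : Prop := ∀ z ∈ Z, s.R ≤ s.r * ‖s.d1 z‖ ∧ SH.Th s.Θ s.e s.o s.r z ∧
  (∀ v v' : ℂ, ‖v‖ ≤ s.r → ‖v'‖ ≤ s.r →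
    ‖s.Θ (z, v) - s.Θ (z, v') - (v - v')‖ ≤ s.o * ‖v - v'‖) ∧
  N1 (fun z => s.d0 z / s.d1 z) s.o z

/-- the new sheet -/
def Sht (Z : Set ℂ) : Prop := ∀ z ∈ Z, ContinuousAt s.d1 z ∧ ‖s.e * s.d1 z‖ < s.R ∧
  (s.d0 z ≠ 0 → s.V (z, s.w z + s.e * s.d1 z) = s.e) ∧
  ∀ ν : ℂ, ‖ν‖ ≤ s.R → s.V (z, s.w z + ν) = s.e → ν = s.e * s.d1 z

/-- the wall along the circle of `l`, at the depths in `I` -/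
structure Wall (l : End) (lm Tw : ℂ → ℂ) (E1 T : ℝ → ℝ) (I : Set ℝ) : Prop where
  lk : l.k ≠ Kind.pt ∧ 0 < l.r ∧ l.r ≤ 10 ∧ l.w = s.w
  pf : Pf E1 T s.S s.y2 s.t
  bd : ∀ y ∈ Icc (-(2 * s.t)) (2 * s.t), |E1 y| ≤ s.r / 4
  str : s.Str (l.ann (Icc (-(2 * s.t)) (2 * s.t)))
  eq : ∀ z ∈ l.ann I, s.N z = (E1 (l.dep z) : ℂ) * s.d0 z +
    s.e * (Tw z / 2 * lm z + (s.S (l.dep z) : ℂ) * (s.d1 z - lm z / 2))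

/-- the circle of a port -/
def pe (p : ℂ) (ρ : ℝ) : End := ⟨p, ρ, Kind.inn, s.w⟩

/-- the wall at a port -/
def PWall (p : ℂ) (ρ : ℝ) : Prop := ∃ E1 T : ℝ → ℝ,
  s.Wall (s.pe p ρ) s.d0 (fun z => (T ((s.pe p ρ).dep z) : ℂ)) E1 T (Iic (2 * s.t)) ∧
    (∀ y ≤ 0, E1 y = 0) ∧ s.N p = 0 ∧ ∃ s0 : ℝ, ∀ y ≤ s0, T y = 0

/-- description at a port -/
structure Port (p : ℂ) (ρ rad : ℝ) (X K : Set E) : Prop where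
  num : s.Num
  rd : ρ * Real.exp 2 ≤ rad
  wall : s.PWall p ρ
  cmp : s.Cmp (closedBall p rad)
  pole : ∃ m : ℂ → ℂ, ∀ z ∈ closedBall p rad, AnalyticAt ℂ m z ∧ m z ≠ 0 ∧
    ∀ᶠ v in 𝓝 z, (s.d0 v)⁻¹ = (v - p) * m v
  np : SH.NP (SH.near X s.w s.R) K (closedBall p rad)
  kd1 : ∀ y ∈ SH.near X s.w s.R, y ∈ K → y.1 ∈ closedBall p rad →
    y.1 ∈ closedBall p (ρ * Real.exp s.t) ∧ y.2 = s.w y.1 + s.N y.1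
  kd2 : ∀ z ∈ closedBall p (ρ * Real.exp (2 * s.t)), (z, s.w z + s.N z) ∈ K

/-- the conclusions at a port -/
structure PortC (p : ℂ) (ρ rad : ℝ) (D : Set E) (γ θ : ℝ) : Prop where
  c1 : ∀ B : ℝ, θ * s.e ^ 2 ≤ B → (∀ y ∈ D, ‖y.1 - p‖ = rad → psi s.V s.e y ≤ B) →
    ∀ y ∈ D, ‖y.1 - p‖ ≤ rad →
      psi s.V s.e y * (‖y.1 - p‖ / rad) ^ γ ≤ B ∧ psi s.V s.e y ≤ Real.exp 3 * B
  c2 : SH.PortB D (fun y => ‖s.V y‖) p rad s.e 20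
  c3 : (∀ y ∈ D, ‖y.1 - p‖ ≤ rad → psi s.V s.e y ≤ Real.exp (-330) * s.e ^ 2) →
    (∀ y ∈ D, ‖y.1 - p‖ ≤ rad → ‖s.V y - s.e‖ ≤ s.e / 2 → ρ * Real.exp (-1 / 4) ≤ ‖y.1 - p‖) ∧
    (∀ B : ℝ, 0 ≤ B → (∀ y ∈ D, ‖s.V y - s.e‖ ≤ s.e / 2 → ‖y.1 - p‖ = rad → psi s.V s.e y ≤ B) →
      ∀ y ∈ D, ‖y.1 - p‖ ≤ rad → ‖s.V y - s.e‖ ≤ s.e / 2 →
        psi s.V s.e y * (‖y.1 - p‖ / rad) ^ γ ≤ B) ∧
    ∀ B : ℝ, 0 ≤ B → (∀ y ∈ D, ‖s.V y‖ ≤ s.e / 2 → ‖y.1 - p‖ = rad → psi s.V s.e y ≤ B) →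
      ∀ y ∈ D, ‖y.1 - p‖ ≤ rad → ‖s.V y‖ ≤ s.e / 2 →
        psi s.V s.e y * (‖y.1 - p‖ / rad) ^ γ ≤ 2 * B ∧ (B = 0 → y.2 = s.w y.1)

/-- the part of the collar deeper than `a`, without the discs about the ports -/
def rz (l : End) {π : Type} (x : π → ℂ) (L δ h a u : ℝ) : Set ℂ :=
  {z | z ∈ l.ann (Icc a h) ∧
    ∀ k, 2 * l.r * δ * Real.exp (-δ - L) * Real.exp u ≤ ‖z - hq l (x k) δ 0‖}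

open Classical in
/-- description at a loop with the windows `x` (pinned zeros) and `x'` (born in the split) -/
structure Ring (l : End) (one : Prop) (L h τ a : ℝ) {π π' : Type} [Fintype π] (x : π → ℂ) (δ : ℝ)
    (x' : π' → ℂ) (lm Tw : ℂ → ℂ) (E1 T : ℝ → ℝ) (X K : Set E) : Prop where
  num : s.Num
  num' : 0 < a ∧ a ≤ s.t ∧ s.R ≤ τ ∧ 0 < δ ∧ s.t ≤ s.o * δ
  std : Std X K
  out : (one → l.k = Kind.out ∧ ∀ y ≤ 0, E1 y = 0 ∧ T y = 0) ∧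
    (¬ one → IsEmpty π ∧ IsEmpty π' ∧ ∀ y ∈ Ico (-(2 * s.t)) 0, E1 y < 0)
  wall : s.Wall l lm Tw E1 T (Icc (if one then 0 else -(2 * s.t)) (2 * s.t))
  pure : ∀ z ∈ l.ann (Icc (if one then 0 else -(2 * s.t)) (2 * s.t)),
    (∀ k, s.y2 / 20000 * l.r ≤ ‖z - (l.c + l.r * x' k)‖) →
      Tw z = T (l.dep z) ∧ N1 (fun z => lm z / s.d1 z) s.o z
  lowb : ∀ z ∈ l.ann (Icc 0 (s.y2 / 4)), ‖Tw z * lm z‖ ≤ ‖s.d0 z‖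
  tube : ∀ y ∈ SH.near X s.w τ, y ∉ K → y.1 ∈ l.ann (Icc (-h) h) →
    ‖y.2 - s.w y.1‖ < s.R ∧ -a < l.dep y.1
  cmp : s.Cmp (l.ann (Icc (-a) h))
  pole : ∃ m : ℂ → ℂ, ∀ z ∈ l.ann (Icc (-a) h), AnalyticAt ℂ m z ∧ m z ≠ 0 ∧
    ∀ᶠ v in 𝓝 z, (s.d0 v)⁻¹ =
      m v * ∏ k, (v - hq l (x k) δ 0) / (v - hq l (x k) (Real.sqrt 2 * δ) (-δ))
  kd1 : ∀ y ∈ SH.near X s.w s.R, y ∈ K → y.1 ∈ l.ann (Icc (-a) h) →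
    (y.1 ∈ l.ann (Icc (if one then 0 else -s.t) s.t) ∨ ∃ k, y.1 ∈ closedBall (hq l (x k) δ 0)
      (2 * l.r * δ * Real.exp (-δ - L) * Real.exp s.t)) ∧ y.2 = s.w y.1 + s.N y.1
  kd2 : ∀ z : ℂ, (z ∈ l.ann (Icc (if one then 0 else -(2 * s.t)) (2 * s.t)) ∨
    ∃ k, z ∈ closedBall (hq l (x k) δ 0)
      (2 * l.r * δ * Real.exp (-δ - L) * Real.exp (2 * s.t))) → (z, s.w z + s.N z) ∈ K
  port : ∀ k, s.PWall (hq l (x k) δ 0) (2 * l.r * δ * Real.exp (-δ - L))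
  sht : s.Sht (rz l x L δ h (-a) (-1 / 2))
  mem : ∀ z ∈ rz l x L δ h s.y2 s.y2, (z, s.w z + s.e * s.d1 z) ∈ X

/-- `X` is cut at the depth `-a` -/
def Cut (l : End) (h a : ℝ) (X : Set E) : Prop :=
  ∀ y ∈ SH.near X s.w s.R, y.1 ∈ l.ann (Icc (-h) h) → -a ≤ l.dep y.1

/-- the windows born in the split -/
def W3 (wc : WC) (L : ℝ) (l : End) {π' : Type} [Fintype π'] (x' : π' → ℂ) (δ' : ℝ)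
    (lm Tw : ℂ → ℂ) (T : ℝ → ℝ) : Prop :=
  δ' ≤ s.o * s.y2 ∧ (∀ z, lm z = s.d0 z / bq l x' δ' z) ∧
  ∃ (D0 : π' → ℂ → ℝ) (G : ℝ → ℝ) (Bw : ℂ → ℂ), SH.BW x' wc.c0 wc.CD δ' L wc.M8 wc.y4 D0 ∧
    SH.BG G wc.th wc.M8 ∧ SH.BZ x' δ' L wc.M8 wc.y4 D0 G wc.th Bw ∧
    (∀ z, Tw z = Bw ((z - l.c) / l.r)) ∧ (∀ y, T y = G (y / δ')) ∧
    ∀ u, δ' * u ≤ 3 * s.y2 / 8 → G u = wc.G0 u * ex s.y2 (δ' * u)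

/-- on the old sheet, or on the new sheet over `Z` -/
def On (Z : Set ℂ) (y : E) : Prop :=
  y.2 = s.w y.1 ∨ (y.1 ∈ Z ∧ y.2 = s.w y.1 + s.e * s.d1 y.1)

/-- the tube in the chart of the loop -/
def cX (l : End) (X : Set E) : Set E := bc (ech l) ⁻¹' SH.near X s.w s.R

/-- the fibre function in the chart of the loop -/
def cV (l : End) (y : E) : ℂ := s.V (bc (ech l) y)

end SD

/-! ### ports -/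

def St_PSD : Prop := ∀ γ θ : ℝ, 0 < γ → γ ≤ 1 / 2 → 0 < θ → θ ≤ 1 → ∃ o > (0 : ℝ),
  ∀ (s : SD) (p : ℂ) (ρ rad : ℝ) (X K : Set E), s.o ≤ o → γ * (1 - Real.log (ρ / rad)) ≤ 3 →
    s.Port p ρ rad X K → s.PortC p ρ rad (SH.near X s.w s.R \ K) γ θ

/-- large ports -/
def St_PEND : Prop := ∀ η θ ρ r1 : ℝ, 0 < η → 0 < θ → θ ≤ Real.exp (-333) → 0 < ρ → 0 < r1 →
  ∃ o > (0 : ℝ), ∀ (s : SD) (l : End) (X K : Set E) (τ h r2 Cu Λ0 κ θ1 Dp : ℝ), s.o ≤ o →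
    l.k = Kind.pt → l.w = s.w → Std X K → s.R ≤ τ →
    (∀ y ∈ SH.near X s.w τ, y ∉ K → y.1 ∈ closedBall l.c r1 → ‖y.2 - s.w y.1‖ < s.R) →
    s.Port l.c ρ r1 X K → s.Sht {z | ρ * Real.exp (-1 / 2) ≤ ‖z - l.c‖ ∧ ‖z - l.c‖ ≤ r1} →
    0 < r2 → 1 ≤ Cu → η ≤ κ → θ1 ≤ Real.exp (-333) →
    EndS l s.V s.d1 s.e {z | ρ * Real.exp s.y2 ≤ ‖z - l.c‖ ∧ ‖z - l.c‖ ≤ r1} (X \ K) τ h r1 r2 Cu
      Λ0 κ κ κ θ θ1 Dp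

/-! ### windows -/

/-- unit vectors at mutual distance at least `2 ρ` -/
def Sepd {W : Type} (x : W → ℂ) (ρ : ℝ) : Prop :=
  (∀ k, ‖x k‖ = 1) ∧ ∀ k k', k ≠ k' → 2 * ρ ≤ ‖x k - x k'‖

/-- a window with a pinned zero, in the chart of the loop -/
structure WN (D : Set E) (V : E → ℂ) (e : ℝ) (x : ℂ) (ρ β M s0 : ℝ) (Q : E → Prop) : Prop where
  act : ∀ T : ℝ, 1 ≤ T → GP D (psi V e) x (-(2 * β)) (M * T ^ 2) s0 ρ (e ^ 2 / T ^ 2)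
  neu : GP D (psi V e) x (-4) M s0 ρ 0
  zero : (∀ y ∈ D, ρ / M ≤ ‖y.1 - x‖ → ‖y.1 - x‖ ≤ ρ → pp e (V y) = 0) →
    ∀ y ∈ D, ‖y.1 - x‖ ≤ ρ / M → Q y

/-- a window born in the split, in the chart of the loop -/
structure WT (D : Set E) (V : E → ℂ) (e : ℝ) (x : ℂ) (ρ M θw s0 : ℝ) (Q : E → Prop) : Prop where
  neu : GP D (psi V e) x 0 M s0 ρ 0
  act : (∀ y ∈ D, ρ / M ≤ ‖y.1 - x‖ → ‖y.1 - x‖ ≤ ρ → psi V e y ≤ θw * e ^ 2) →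
    GP {y | y ∈ D ∧ ‖V y‖ ≤ e / 2} (psi V e) x (3 / 2) M s0 (ρ / 4) 0
  zero : (∀ y ∈ D, ρ / M ≤ ‖y.1 - x‖ → ‖y.1 - x‖ ≤ ρ → pp e (V y) = 0) →
    ∀ y ∈ D, ‖y.1 - x‖ ≤ ρ / M → Q y

/-- the basic facts in the chart of the loop -/
structure ChartB (s : SD) (l : End) (one : Prop) (h : ℝ) (X K : Set E) : Prop where
  np : SH.NP (s.cX l X) (bc (ech l) ⁻¹' K) {z | Real.exp (-h) ≤ ‖z‖ ∧ ‖z‖ ≤ Real.exp h}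
  up : one → ∀ y ∈ s.cX l X, Real.exp (-h) ≤ ‖y.1‖ → ‖y.1‖ ≤ Real.exp h → ‖y.1‖ ≤ 1

/-- the facts on the annulus without the discs of radius at least `s0` -/
structure ChartA (s : SD) (l : End) (h : ℝ) {W : Type} (x : W → ℂ) (s0 ι : ℝ) (X K : Set E) :
    Prop where
  col : ∀ y ∈ SH.near X s.w s.R, y.1 ∈ l.ann (Icc (h / 16) h) → y ∉ K
  an : AnalyticOnNhd ℂ (s.cV l) (ov (s.cX l X) (SH.annW h x fun _ => s0))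
  aw : ∀ ρ0 : W → ℝ, (∀ j, s0 ≤ ρ0 j) →
    SH.AW (s.cX l X) (bc (ech l) ⁻¹' K) (s.cV l) s.e ι (SH.cW 1) h x ρ0

def St_CHB : Prop := ∀ (s : SD) (l : End) (one : Prop) (L h τ a : ℝ) (π π' : Type) [Fintype π]
  (x : π → ℂ) (δ : ℝ) (x' : π' → ℂ) (lm Tw : ℂ → ℂ) (E1 T : ℝ → ℝ) (X K : Set E), a < h →
  (∀ k, ‖x k‖ = 1) → 10 ≤ L → δ ≤ 1 / 8 → s.o ≤ 1 / 16 →
  s.Ring l one L h τ a x δ x' lm Tw E1 T X K → s.Cut l h a X → ChartB s l one h X K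

def St_AWD : Prop := ∀ ι s0 h : ℝ, 0 < ι → 0 < s0 → 0 < h → h ≤ 1 → ∃ o > (0 : ℝ),
  ∀ (s : SD) (l : End) (one : Prop) (L τ a : ℝ) (π π' : Type) [Fintype π] (x : π → ℂ) (δ : ℝ)
    (x' : π' → ℂ) (lm Tw : ℂ → ℂ) (E1 T : ℝ → ℝ) (X K : Set E), s.o ≤ o →
    (∀ k, ‖x k‖ = 1) → (∀ k, ‖x' k‖ = 1) → 10 ≤ L → 100 * δ ≤ s0 → 100 * δ ≤ h →
    s.Ring l one L h τ a x δ x' lm Tw E1 T X K → s.Cut l h a X →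
    ChartA s l h (Sum.elim x x') s0 ι X K

/-- the hypotheses of the window lemmas with a pinned zero -/
def St_NWIN : Prop := ∀ ι L δ ρ : ℝ, 0 < ι → 20 ≤ L → 0 < δ → 64 * δ ≤ ρ → ρ ≤ 1 / 8 →
  ∃ o > (0 : ℝ), ∀ (s : SD) (l : End) (h τ a : ℝ) (π π' : Type) [Fintype π] (x : π → ℂ)
    (x' : π' → ℂ) (lm Tw : ℂ → ℂ) (E1 T : ℝ → ℝ) (X K : Set E), s.o ≤ o → ρ ≤ h / 8 →
    Sepd (Sum.elim x x') ρ → s.Ring l True L h τ a x δ x' lm Tw E1 T X K →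
    ChartB s l True h X K → ∀ k,
    s.Port (hq l (x k) δ 0) (2 * l.r * δ * Real.exp (-δ - L))
      (l.r * SH.Win.prad (x k) δ 0 L) X K ∧ ∃ Pt : E → ℂ,
      SH.NWin (bc (SH.wch (x k) δ 0) ⁻¹' s.cX l X) (bc (SH.wch (x k) δ 0) ⁻¹' (bc (ech l) ⁻¹' K))
        (fun y => s.cV l (bc (SH.wch (x k) δ 0) y)) Pt s.e L ι (ρ / (2 * δ)) (SH.cW 1) ∧
      ∀ y ∈ bc (SH.wch (x k) δ 0) ⁻¹' s.cX l X, ‖y.1‖ ≤ ρ / (2 * δ) →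
        Real.exp (-L + 2) ≤ ‖SH.bl y.1‖ → Pt y * (Pt y - s.e * SH.sq1 y.1) = 0 →
        s.On (SD.rz l x L δ h (-a) (-1 / 4)) (bc (ech l) (bc (SH.wch (x k) δ 0) y))

def St_NWD : Prop := ∃ L0 : ℝ, ∀ β L : ℝ, 0 < β → β ≤ 1 → L0 ≤ L → ∃ M ≥ (16 : ℝ), ∀ δ ρ : ℝ,
  0 < δ → M * δ ≤ ρ → ρ ≤ 1 / 8 → ∃ o > (0 : ℝ), ∀ (s : SD) (l : End) (h τ a : ℝ) (π π' : Type)
    [Fintype π] (x : π → ℂ) (x' : π' → ℂ) (lm Tw : ℂ → ℂ) (E1 T : ℝ → ℝ) (X K : Set E), s.o ≤ o →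
    ρ ≤ h / 8 → Sepd (Sum.elim x x') ρ → s.Ring l True L h τ a x δ x' lm Tw E1 T X K →
    ChartB s l True h X K → ∀ k,
    WN (s.cX l X \ bc (ech l) ⁻¹' K) (s.cV l) s.e (x k) ρ β M (100 * δ)
      fun y => s.On (SD.rz l x L δ h (-a) (-1 / 4)) (bc (ech l) y)

/-- bounds for the Blaschke type factors and for the birth wall, in the chart of the hub -/
def St_BQ : Prop := ∀ (l : End) (π : Type) [Fintype π] (x : π → ℂ) (δ ρ : ℝ), 0 < l.r → 0 < δ →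
  Sepd x ρ → 100 * (Fintype.card π + 1) * δ ≤ ρ → ρ ≤ 1 / 8 →
  (∀ z : ℂ, ‖z‖ ≤ 1 → AnalyticAt ℂ (bq l x δ) (l.c + l.r * z) ∧ ‖bq l x δ (l.c + l.r * z)‖ ≤ 1 ∧
    ((∀ k, 7 / 4 * δ ≤ ‖z - x k‖) → 1 / 7 ≤ ‖bq l x δ (l.c + l.r * z)‖) ∧
    (∀ k, ‖z - x k‖ ≤ ρ → ∃ g : ℂ → ℂ, AnalyticAt ℂ g (l.c + l.r * z) ∧ g (l.c + l.r * z) ≠ 0 ∧
      ∀ v, bq l x δ v = (v - hq l (x k) δ 0) * g v)) ∧
  (∀ (c0 CD L M8 y4 σ0 c : ℝ) (D0 : π → ℂ → ℝ) (G th : ℝ → ℝ) (Bw : ℂ → ℂ) (z : ℂ),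
    SH.BW x c0 CD δ L M8 y4 D0 → SH.BG G th M8 → SH.BZ x δ L M8 y4 D0 G th Bw → 0 < σ0 →
    σ0 ≤ 1 / (100 * L) → z ≠ 0 → ‖z‖ ≤ 1 → G (-Real.log ‖z‖ / δ + 1) ≤ c →
    (∀ u, 0 < u → u ≤ 4 → G u ≤ c * Real.exp ((u - 4 * M8) / σ0)) →
    ‖Bw z‖ ≤ 7 * c * ‖bq l x δ (l.c + l.r * z)‖) ∧
  ∀ (o d : ℝ) (z : ℂ), 0 < o → o ≤ 1 → 0 < d → d ≤ 1 → ‖z - l.c‖ ≤ l.r →
    100 * (Fintype.card π + 1) * δ ≤ o * d ^ 2 * min 1 l.r → (∀ k, d * l.r ≤ ‖z - (l.c + l.r * x k)‖) →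
    N1 (fun v => (bq l x δ v)⁻¹) o z

/-- the linear coordinate of the lower part of the wall, in the chart of the loop -/
def SD.cP (s : SD) (l : End) {π' : Type} [Fintype π'] (x' : π' → ℂ) (δ' : ℝ) (y : E) : ℂ :=
  (y.2 - s.w (ech l y.1)) * (s.d0 (ech l y.1))⁻¹ * bq l x' δ' (ech l y.1)

/-- the hypotheses of the window lemmas for the windows born in the split -/
def St_W3LU : Prop := ∀ (wc : WC) (L ι ρ : ℝ) (n : ℕ), wc.OK L → 0 < ι → 0 < ρ → ρ ≤ 1 / 8 →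
  ∃ o > (0 : ℝ), ∀ (s : SD) (l : End) (h τ a : ℝ) (π π' : Type) [Fintype π] [Fintype π']
    (x : π → ℂ) (δ : ℝ) (x' : π' → ℂ) (δ' : ℝ) (lm Tw : ℂ → ℂ) (E1 T : ℝ → ℝ) (X K : Set E),
    s.o ≤ o → ρ ≤ h / 8 → 64 * δ ≤ ρ → Fintype.card π' ≤ n → Sepd (Sum.elim x x') ρ →
    s.Ring l True L h τ a x δ x' lm Tw E1 T X K → ChartB s l True h X K →
    s.W3 wc L l x' δ' lm Tw T → ∀ k, ∃ (D0 : ℂ → ℝ) (G : ℝ → ℝ),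
      0 < δ' ∧ δ' ≤ ι * ρ * ι ∧ SH.Shape wc.c0 wc.CD wc.M8 wc.y4 L (x' k) δ' 0 D0 ∧
      SH.BG G wc.th wc.M8 ∧
      (∀ u ≤ 5 * wc.M8, G u = s.e / 2 * (wc.G0 u * ex s.y2 (δ' * u))) ∧
      (∀ ρ', ρ / 4 ≤ ρ' → ρ' ≤ ρ →
        SH.W3L (bc (SH.wch (x' k) δ' 0) ⁻¹' s.cX l X)
          (bc (SH.wch (x' k) δ' 0) ⁻¹' (bc (ech l) ⁻¹' K))
          (fun y => s.cV l (bc (SH.wch (x' k) δ' 0) y))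
          (fun y => s.cP l x' δ' (bc (SH.wch (x' k) δ' 0) y)) D0 G wc.th s.e
          (8 * Real.exp (-512) * s.e) L wc.M8 (ρ' / (2 * δ'))) ∧
      SH.W3U (bc (SH.wch (x' k) δ' 0) ⁻¹' s.cX l X)
          (bc (SH.wch (x' k) δ' 0) ⁻¹' (bc (ech l) ⁻¹' K))
          (fun y => s.cV l (bc (SH.wch (x' k) δ' 0) y))
          (fun y => s.cP l x' δ' (bc (SH.wch (x' k) δ' 0) y)) D0 G s.e
          (8 * Real.exp (-512) * s.e) L wc.M8 ι (ρ / (2 * δ')) (SH.cW 1) ∧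
      (∀ y ∈ s.cX l X, ‖y.1 - x' k‖ ≤ ρ → AnalyticAt ℂ (s.cV l) y ∧
        (s.cP l x' δ' y = 0 → y.2 = s.w (ech l y.1) ∨ y.1 = SH.wp (x' k) δ') ∧
        (s.cV l y = s.e → s.On (SD.rz l x L δ h (-a) (-1 / 4)) (bc (ech l) y))) ∧
      ∀ y ∈ s.cX l X, y ∈ bc (ech l) ⁻¹' K → ‖y.1 - SH.wp (x' k) δ'‖ ≤ SH.wr (x' k) δ' L →
        y.2 = s.w (ech l y.1)

def St_W3P : Prop := ∃ L0 : ℝ, ∀ L : ℝ, L0 ≤ L → ∃ wc : WC, wc.OK L ∧ ∃ M ≥ (16 : ℝ),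
  ∃ θw > (0 : ℝ), ∀ (ρ : ℝ) (n : ℕ), 0 < ρ → ρ ≤ 1 / 8 → ∃ o > (0 : ℝ),
  ∀ (s : SD) (l : End) (h τ a : ℝ) (π π' : Type) [Fintype π] [Fintype π']
    (x : π → ℂ) (δ : ℝ) (x' : π' → ℂ) (δ' : ℝ) (lm Tw : ℂ → ℂ) (E1 T : ℝ → ℝ) (X K : Set E),
    s.o ≤ o → ρ ≤ h / 8 → 64 * δ ≤ ρ → Fintype.card π' ≤ n → Sepd (Sum.elim x x') ρ →
    s.Ring l True L h τ a x δ x' lm Tw E1 T X K → ChartB s l True h X K →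
    s.W3 wc L l x' δ' lm Tw T → ∀ k,
    WT (s.cX l X \ bc (ech l) ⁻¹' K) (s.cV l) s.e (x' k) ρ M θw δ
      fun y => s.On (SD.rz l x L δ h (-a) (-1 / 4)) (bc (ech l) y)

/-! ### loops -/

/-- the slope lemma for the three parts -/
def St_RNG : Prop := ∀ (h : ℝ) (n : ℕ) (Cu Λ0 η : ℝ) (κf : ℝ → ℝ) (π π' : Type) [Fintype π]
  [Fintype π'] (x : π → ℂ) (x' : π' → ℂ) (ρ β M θw Dp : ℝ), Kit h n 0 Cu Λ0 η κf →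
  Fintype.card π + Fintype.card π' ≤ n → Sepd (Sum.elim x x') ρ → 0 < ρ → ρ ≤ h / 8 → 0 < β →
  β ≤ 1 → 1 ≤ M → 0 < θw → 1 ≤ Dp → ∃ θ1 > (0 : ℝ), ∀ θ : ℝ, 0 < θ → ∃ s0 > (0 : ℝ),
  ∃ ι > (0 : ℝ), ∀ (s : SD) (l : End) (one : Prop) (X K : Set E) (τ r1 r2 : ℝ) (Q : E → Prop),
    l.k ≠ Kind.pt → 0 < l.r → l.w = s.w → 0 < s.e → s.R ≤ τ →
    (∀ y ∈ SH.near X s.w τ, y ∉ K → y.1 ∈ l.ann (Icc (-h) h) → ‖y.2 - s.w y.1‖ ≤ s.R) →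
    ChartB s l one h X K → ChartA s l h (Sum.elim x x') s0 ι X K →
    (∀ k, WN (s.cX l X \ bc (ech l) ⁻¹' K) (s.cV l) s.e (x k) ρ β M s0 Q) →
    (∀ k, WT (s.cX l X \ bc (ech l) ⁻¹' K) (s.cV l) s.e (x' k) ρ M θw s0 Q) →
    EP l (X \ K) (psi s.V s.e) τ h r1 r2 Cu Λ0 (η + β * Fintype.card π) (θ * s.e ^ 2) ∧
    (Top l (X \ K) (psi s.V s.e) τ h r1 (θ1 * s.e ^ 2) → ∀ thr : ℝ, 0 < thr →
      Top l (X \ K) (psi s.V s.e) τ h r1 (Dp * thr) →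
      EP l {y | y ∈ X \ K ∧ ‖s.V y - s.e‖ ≤ s.e / 2} (psi s.V s.e) τ h r1 r2 Cu Λ0
        (η + 2 * (Fintype.card π : ℝ)) thr ∧
      EP l {y | y ∈ X \ K ∧ ‖s.V y‖ ≤ s.e / 2} (psi s.V s.e) τ h r1 r2 Cu Λ0
        (η + (2 * (Fintype.card π : ℝ) - 3 / 4 * Fintype.card π')) thr) ∧
    (Top l (X \ K) (psi s.V s.e) τ h r1 0 → ∀ y ∈ s.cX l X \ bc (ech l) ⁻¹' K,
      Real.exp (-h) ≤ ‖y.1‖ → ‖y.1‖ ≤ Real.exp h →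
      (pp s.e (s.cV l y) = 0 ∧ ∀ j, s0 ≤ ‖y.1 - Sum.elim x x' j‖) ∨ Q y)

/-- nothing lies on the continuations of the sheets -/
def St_ZRD : Prop := ∀ (s : SD) (l : End) (one : Prop) (L h τ a : ℝ) (π π' : Type) [Fintype π]
  (x : π → ℂ) (δ ρ : ℝ) (x' : π' → ℂ) (lm Tw : ℂ → ℂ) (E1 T : ℝ → ℝ) (X K : Set E),
  s.o ≤ 1 / 100 → 20 ≤ L → Sepd (Sum.elim x x') ρ → 64 * δ ≤ ρ → ρ ≤ h / 8 → h ≤ 1 →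
  s.Ring l one L h τ a x δ x' lm Tw E1 T X K →
  (∀ y ∈ SH.near (X \ K) s.w τ, y.1 ∈ l.ann (Icc (-h) h) →
    s.On (SD.rz l x L δ h (-a) (-1 / 4)) y) →
  ∀ y ∈ SH.near (X \ K) s.w τ, y.1 ∈ l.ann (Icc (-h) h) →
    (y.2 = s.w y.1 ∧ l.side y.1) ∨
      (y.1 ∈ SD.rz l x L δ h s.y2 s.y2 ∧ y.2 = s.w y.1 + s.e * s.d1 y.1)

def St_RING : Prop := ∃ L0 : ℝ, ∀ L : ℝ, L0 ≤ L → ∃ wc : WC, wc.OK L ∧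
  ∀ (h : ℝ) (n : ℕ) (Cu Λ0 η Dp : ℝ) (κf : ℝ → ℝ) (π π' : Type) [Fintype π] [Fintype π']
    (x : π → ℂ) (x' : π' → ℂ), Kit h n 0 Cu Λ0 η κf → Fintype.card π + Fintype.card π' ≤ n →
    Function.Injective (Sum.elim x x') → (∀ k, ‖Sum.elim x x' k‖ = 1) → 1 ≤ Dp →
    ∃ θ1 > (0 : ℝ), ∀ θ : ℝ, 0 < θ → ∀ᶠ δ in 𝓝[>] (0 : ℝ), ∃ o > (0 : ℝ),
    ∀ (s : SD) (l : End) (one : Prop) (τ a δ' r1 r2 : ℝ) (lm Tw : ℂ → ℂ) (E1 T : ℝ → ℝ)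
      (X K : Set E), s.o ≤ o → s.Ring l one L h τ a x δ x' lm Tw E1 T X K →
      (one → s.W3 wc L l x' δ' lm Tw T) →
      EndS l s.V s.d1 s.e (SD.rz l x L δ h s.y2 s.y2) (X \ K) τ h r1 r2 Cu Λ0
        (η + Fintype.card π / (2 * Fintype.card π + 2)) (η + 2 * (Fintype.card π : ℝ))
        (η + (2 * (Fintype.card π : ℝ) - 3 / 4 * Fintype.card π')) θ θ1 Dp

end Pool.Agent.S6
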