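import Pool.Agent.Lib.S6.Site2
import Pool.Agent.Lib.S6.RSite

/-!
Section 6 of the project 9ccfb7: the site of the split, profiles, sheets and the local wall.
-/

open Set Filter Topology Metric
open scoped ContDiff

noncomputable section

namespace Pool.Agent.S6

open Pool.Agent.CF (End Kind IsCurve Geo SLH Cv Priv IsPoly dw)
open Pool.Agent.Lib

/-! ### profiles -/

/-- the old profile, cut on the positive side -/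
def cutE (y2 : ℝ) (Ef : ℝ → ℝ) (s : ℝ) : ℝ := if s ≤ 0 then Ef s else SH.cutP (4 * y2) Ef s

/-- the upper profile -/
def sS (y2 y : ℝ) : ℝ :=
  if y ≤ y2 then Real.smoothTransition ((y - y2 / 4) / (3 * y2 / 4))
  else 1 + expNegInvGlue (y - y2)

structure PhiOK (Φ : ℝ → ℝ) : Prop where
  smooth : ContDiff ℝ ∞ Φ
  pos : ∀ s, 0 < Φ s ∧ Φ s ≤ 1 ∧ 0 ≤ deriv Φ s
  one : ∀ s, 0 ≤ s → Φ s = 1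
  exp : ∀ s, s ≤ -1 / 8 → Φ s = Real.exp (1024 * s) ∧ deriv Φ s = 1024 * Φ s

def St_PRF : Prop :=
  (∃ Φ, PhiOK Φ) ∧
  (∀ y2 : ℝ, 0 < y2 → ContDiff ℝ ∞ (sS y2) ∧
    ∀ c : ℝ, 0 < c → SH.PR (fun s => c * (sS y2 (y2 + s) - 1)) True) ∧
  (∀ (Ef : ℝ → ℝ) (two : Prop) (y2 : ℝ), SH.PR Ef two → 0 < y2 → ContDiff ℝ ∞ (cutE y2 Ef) ∧
    (∀ s, s ≤ 0 ∨ 4 * y2 ≤ s → cutE y2 Ef s = Ef s) ∧ (∀ s ∈ Icc 0 (2 * y2), cutE y2 Ef s = 0) ∧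
    ∀ s, |cutE y2 Ef s| ≤ |Ef s|) ∧
  (∀ (Φ : ℝ → ℝ) (t : ℝ), PhiOK Φ → 0 < t → t ≤ 1 / 32 → ∀ᶠ y2 in 𝓝[>] (0 : ℝ),
    ∀ (Ef Tl : ℝ → ℝ) (two : Prop), SH.PR Ef two → RESET.OP Ef two t → ContDiff ℝ ∞ Tl →
      (∀ y, 0 ≤ deriv Tl y ∧ 0 ≤ Tl y ∧ Tl y ≤ 1) → (∀ y, y2 / 8 ≤ y → Tl y = 1) →
      (two → ∀ y ≤ 0, Tl y = 0) →
      Pf (cutE y2 Ef) (fun y => Tl y * Φ (y / y2 - 1 / 2)) (sS y2) y2 t) ∧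
  (∀ (Φ Ef : ℝ → ℝ) (two : Prop) (s0 y2 c : ℝ), PhiOK Φ → SH.PR Ef two → s0 ≤ 0 →
    (two → s0 = 0) → 0 < y2 → 0 < c → SH.PR (fun s => cutE y2 Ef (s0 + s) +
      c * (Real.smoothTransition (8 * s / y2) * Φ ((s0 + s) / y2 - 1 / 2))) two) ∧
  ∀ (Φ G0 : ℝ → ℝ) (M8 σ0 δ y2 : ℝ), PhiOK Φ → GZ G0 M8 σ0 → 0 < σ0 → 0 < δ → 0 < y2 →
    (∀ c N : ℝ, 0 < c → 0 < N →
      SH.PR (fun s => c * (G0 (s / N) * Φ (δ * (s / N) / y2 - 1 / 2))) False) ∧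
    ∀ (th : ℝ → ℝ) (Cth : ℝ), ContDiff ℝ ∞ th → SH.ThOK th Cth →
      SH.BG (fun u => G0 u * Φ (δ * u / y2 - 1 / 2)) th M8

/-! ### sheets -/

/-- analytic families converge -/
def St_FAM : Prop := ∀ (Z : Set ℂ) (d : ℂ × ℂ → ℂ) (d0 : ℂ → ℂ) (o : ℝ), IsCompact Z →
  AnalyticOnNhd ℂ d (Z ×ˢ ({0} : Set ℂ)) → (∀ᶠ z in 𝓝ˢ Z, d (z, 0) = d0 z) → 0 < o →
  ∀ᶠ e : ℝ in 𝓝[>] 0, ∀ z ∈ Z, AnalyticAt ℂ (fun v => d (v, (e : ℂ))) z ∧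
    ‖d (z, e) - d0 z‖ ≤ o ∧
    ‖deriv (fun v => d (v, e)) z - deriv d0 z‖ ≤ o ∧
    ((∀ v ∈ Z, d0 v ≠ 0) → d (z, e) ≠ 0 ∧ N1 (fun v => d0 v / d (v, e)) o z)

/-- the fibre function -/
def vF (C K g q : E → ℂ) (y : E) : ℂ := g y * K y * C y / q y

/-- the secant -/
def dF (C K g q : E → ℂ) (w : ℂ → ℂ) (z : ℂ) : ℂ :=
  q (z, w z) / (g (z, w z) * K (z, w z) * dw C (z, w z))

theorem vS_eq (C K : Cv) (g q : E → ℂ) : vS C K g q = vF C.P K.P g q := rfl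

theorem sec_eq (C K : Cv) (g q : E → ℂ) (l : End) : C.sec K g q l = dF C.P K.P g q l.w := rfl

/-- hypotheses on the polynomials along the sheet `w`: `g` and `q'` are `G` and `q` times
functions of `z`; `Zc` is the whole zone, `Zb` the domain of the new sheet, `Zs` the strips -/
structure SHyp (C K G q g q' : E → ℂ) (w : ℂ → ℂ) (Zc Zb Zs : Set ℂ) : Prop where
  poly : IsPoly C ∧ IsPoly K ∧ IsPoly G ∧ IsPoly q ∧ IsPoly g ∧ IsPoly q'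
  cpt : IsCompact Zc ∧ IsCompact Zb ∧ IsCompact Zs ∧ Zs ⊆ Zb ∧ Zb ⊆ Zc
  wan : AnalyticOnNhd ℂ w Zc ∧ ∀ᶠ z in 𝓝ˢ Zc, C (z, w z) = 0
  ne : ∀ z ∈ Zc, dw C (z, w z) ≠ 0 ∧ K (z, w z) ≠ 0 ∧ G (z, w z) ≠ 0 ∧ q (z, w z) ≠ 0
  fac : ∃ pg pq : ℂ → ℂ, (∀ y, g y = G y * pg y.1) ∧ (∀ y, q' y = q y * pq y.1) ∧
    (∀ z ∈ Zb, pg z ≠ 0) ∧ ∀ z ∈ Zs, pq z ≠ 0

def St_VCM : Prop := ∀ (C K G q g q' : E → ℂ) (w : ℂ → ℂ) (Zc Zb Zs : Set ℂ),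
  SHyp C K G q g q' w Zc Zb Zs → ∃ Wt : E → ℂ, ∀ o : ℝ, 0 < o → ∀ᶠ R in 𝓝[>] (0 : ℝ),
    ∀ s : SD, s.w = w → s.V = vF C K g q' → s.Wt = Wt → s.d0 = dF C K g q' w → s.R = R →
      o ≤ s.o → s.Cmp Zc

def St_STR : Prop := ∀ (C K G q g q' : E → ℂ) (w : ℂ → ℂ) (Zc Zb Zs : Set ℂ),
  SHyp C K G q g q' w Zc Zb Zs → ∃ d : ℂ × ℂ → ℂ,
    CF.SheetFam (CF.pen (fun y => g y * K y * C y) q') w Zb d ∧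
    (∀ᶠ z in 𝓝ˢ Zb, d (z, 0) = dF C K g q' w z) ∧
    (∀ᶠ σ in 𝓝[>] (0 : ℝ), ∀ᶠ e : ℝ in 𝓝[>] 0, ∀ z ∈ Zb, ∀ ν : ℂ, ‖ν‖ ≤ σ →
      CF.pen (fun y => g y * K y * C y) q' e (z, w z + ν) = 0 → ν = e * d (z, e)) ∧
    ∀ o : ℝ, 0 < o → ∀ᶠ r in 𝓝[>] (0 : ℝ), ∀ᶠ R in 𝓝[>] (0 : ℝ), ∀ᶠ e : ℝ in 𝓝[>] 0,
      ∀ s : SD, s.w = w → s.V = vF C K g q' → s.d0 = dF C K g q' w →
        (s.d1 = fun z => d (z, e)) → s.e = e → s.r = r → s.R = R → o ≤ s.o →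
        s.Str Zs ∧ s.Sht Zb

/-! ### the local wall -/

/-- a site: circle `l`, old profile `Ef`, old direction `d0`, foot `s0` of the new wall; the new
sheet `d` is given at the depths in `[lo, 3 t]` -/
structure St0 (l : End) (two : Prop) (Ef : ℝ → ℝ) (d0 : ℂ → ℂ) (d : ℂ × ℂ → ℂ) (s0 lo t : ℝ) :
    Prop where
  lk : l.k ≠ Kind.pt ∧ 0 < l.r
  tt : 0 < t ∧ t ≤ 1 / 32
  foot : s0 ≤ 0 ∧ (two → s0 = 0) ∧ lo ≤ 0 ∧ (two → -(3 * t) ≤ lo)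
  pr : SH.PR Ef two
  op : RESET.OP Ef two t
  an : ∀ z ∈ l.ann (Icc (min s0 lo - t) (4 * t) ∪ Icc (-(4 * t)) (4 * t)),
    AnalyticAt ℂ d0 z ∧ d0 z ≠ 0
  fam : AnalyticOnNhd ℂ d (l.ann (Icc lo (3 * t)) ×ˢ ({0} : Set ℂ)) ∧
    ∀ᶠ z in 𝓝ˢ (l.ann (Icc lo (3 * t))), d (z, 0) = d0 z

/-- the lower part `Tw * lm` of the new wall; `Sad` are its saddles -/
structure Low (l : End) (d0 lm Tw : ℂ → ℂ) (T : ℝ → ℝ) (s0 y2 t o : ℝ) (Sad : Set ℂ) : Prop where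
  sm : ContDiffOn ℝ ∞ (fun z => Tw z * lm z) (l.ann (Ioo (s0 - t) (4 * t)))
  off : ∀ z, z ≠ l.c → l.dep z ≤ s0 → Tw z * lm z = 0
  pure : ∀ z ∈ l.ann (Icc (y2 / 16) (4 * t)), Tw z = T (l.dep z) ∧ AnalyticAt ℂ lm z ∧
    N1 (fun v => lm v / d0 v) o z
  lowb : ∀ z ∈ l.ann (Icc s0 (y2 / 4)), ‖Tw z * lm z‖ ≤ ‖d0 z‖
  real : ∀ z ∈ l.ann (Icc s0 (y2 / 8)), Tw z * lm z ≠ 0 → ∀ (f w : ℂ → ℂ) (c : ℝ), 0 < c →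
    AnalyticAt ℂ w z → (∀ᶠ v in 𝓝 z, f v = w v + c * (Tw v * lm v)) →
    SH.dbar f z ≠ 0 ∨ z ∈ Sad

/-- the wall `Ef (dep) * d0 + M` -/
def nL (l : End) (Ef : ℝ → ℝ) (d0 M : ℂ → ℂ) (z : ℂ) : ℂ := (Ef (l.dep z) : ℂ) * d0 z + M z

/-- the properties of the modification `M` -/
structure Loc (l : End) (two : Prop) (Ef : ℝ → ℝ) (d0 d1 lm Tw : ℂ → ℂ) (s0 lo e y2 t : ℝ)
    (Sad : Set ℂ) (M : ℂ → ℂ) : Prop where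
  supp : ∀ z, M z ≠ 0 → z ∈ l.ann (Icc s0 (3 * t))
  eq : ∀ z, z ≠ l.c → l.dep z ≤ 2 * t → nL l Ef d0 M z = (cutE y2 Ef (l.dep z) : ℂ) * d0 z +
    e * (Tw z / 2 * lm z + (sS y2 (l.dep z) : ℂ) * (d1 z - lm z / 2))
  nz : ∀ z ∈ l.ann (Icc (y2 / 8) (3 * t)), nL l Ef d0 M z ≠ 0
  one : ∀ z ∈ l.ann (Icc lo (3 * t)), nL l Ef d0 M z = e * d1 z → l.dep z = y2
  real : ∀ z, z ≠ l.c → l.dep z ≤ 3 * t → (two → -(3 * t) ≤ l.dep z) → nL l Ef d0 M z ≠ 0 →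
    l.dep z ≠ y2 → ∀ f w : ℂ → ℂ, AnalyticAt ℂ w z →
    (∀ᶠ v in 𝓝 z, f v = w v + nL l Ef d0 M v) → SH.dbar f z ≠ 0 ∨ z ∈ Sad
  anA : ∀ z ∈ l.ann (Icc (7 * y2 / 8) (9 * y2 / 8)), AnalyticAt ℂ d1 z ∧
    AnalyticAt ℂ (fun v => 2 * d1 v - lm v) z ∧ 2 * d1 z - lm z ≠ 0 ∧
    nL l Ef d0 M z = e * d1 z + ((e / 2 * (sS y2 (l.dep z) - 1) : ℝ) : ℂ) * (2 * d1 z - lm z)
  same : CF.SameW (l.move y2) d0 fun v => 2 * d1 v - lm v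

def St_LOC : Prop := ∀ (l : End) (two : Prop) (Ef : ℝ → ℝ) (d0 : ℂ → ℂ) (d : ℂ × ℂ → ℂ)
  (s0 lo t : ℝ), St0 l two Ef d0 d s0 lo t → ∀ (kk : ℕ) (ε : ℝ), 0 < ε →
  ∀ᶠ y2 in 𝓝[>] (0 : ℝ), ∀ (lm Tw : ℂ → ℂ) (T : ℝ → ℝ) (o : ℝ) (Sad : Set ℂ), o ≤ 1 / 100 →
    Low l d0 lm Tw T s0 y2 t o Sad → ContDiff ℝ ∞ T → Pf (cutE y2 Ef) T (sS y2) y2 t →
    ∀ᶠ e : ℝ in 𝓝[>] 0, ∃ M : ℂ → ℂ, SH.Small kk ε M ∧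
      Loc l two Ef d0 (fun z => d (z, e)) lm Tw s0 lo e y2 t Sad M

end Pool.Agent.S6
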