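import Pool.Agent.Lib.S6.Site3
import Pool.Agent.Lib.S6.RWall2

/-!
Section 6 of the project 9ccfb7: the site of the split, one site at a time, geometry, frames.
-/

open Set Filter Topology Metric
open scoped ContDiff

noncomputable section

namespace Pool.Agent.S6

open Pool.Agent.CF (End Kind IsCurve Geo SLH Cv Priv IsPoly dw)
open Pool.Agent.Lib

/-! ### one site -/

/-- the circle of the site `k` -/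
def wk {I : Type} (B : Cv) (W : Wd I B.ι) (k : B.ι) : End := wl (B.e k) (W.pr k)

/-- the wall at the site `k` is two-sided -/
def tw (B : Cv) (k : B.ι) : Prop := (B.e k).k ≠ Kind.pt ∧ k ≠ B.H

/-- lower end of the strip of a site -/
def lo0 (l : End) (t : ℝ) : ℝ := if l.k = Kind.pt then -1 / 2 else -(3 * t)

theorem nW_eq {I : Type} (B : Cv) (W : Wd I B.ι) (M : B.ι → ℂ → ℂ) (k : B.ι) :
    nW B W M k = nL (wk B W k) (W.Ef k) (B.lam k) (M k) := rfl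

/-- hypotheses at the site `k`; `pr k` is the new radius -/
structure SK {I : Type} (B : Cv) (W : Wd I B.ι) (pr : B.ι → ℝ) (PA : ℝ → E → ℂ) (d : ℂ × ℂ → ℂ)
    (Zb : Set ℂ) (t τ : ℝ) (k : B.ι) : Prop where
  ok : (B.e k).ok ∧ B.hub.k = Kind.out
  port : (B.e k).k = Kind.pt → 0 < pr k ∧ pr k ≤ W.pr k ∧
    Pole (B.lam k) (B.e k).c (W.zn B (4 * t) k)
  st : St0 (wk B W k) (tw B k) (W.Ef k) (B.lam k) d (RW.foot (B.e k) (W.pr k) (pr k))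
    (lo0 (B.e k) t) t
  an : AnalyticOnNhd ℂ (B.e k).w (W.zn B (3 * t) k)
  zb : (wk B W k).ann (Icc 0 (3 * t)) ⊆ Zb ∧
    W.zn B (3 * t) k ∩ Zb ⊆ (wk B W k).ann (Icc (lo0 (B.e k) t) (3 * t))
  bd : 0 < τ ∧ ∀ z ∈ W.zn B (3 * t) k, ‖(W.Ef k ((wk B W k).dep z) : ℂ) * B.lam k z‖ ≤ τ / 2
  zer : ∀ᶠ e : ℝ in 𝓝[>] 0, ∀ z ∈ Zb, ∀ ν : ℂ, ‖ν‖ ≤ τ → PA e (z, (B.e k).w z + ν) = 0 →
    ν = e * d (z, e)

/-- the lower part of the new wall -/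
def lw (l : End) (Ef : ℝ → ℝ) (d0 lm Tw : ℂ → ℂ) (e y2 : ℝ) (z : ℂ) : ℂ :=
  (cutE y2 Ef (l.dep z) : ℂ) * d0 z + ((e / 2 : ℝ) : ℂ) * (Tw z * lm z)

/-- the lower wall `N` has the exact form at the new ends over the site `k` -/
structure New {I : Type} (B : Cv) (W : Wd I B.ι) (π' : Type) [Fintype π'] (x' : π' → ℂ) (δ' : ℝ)
    (W' : Wd I (B.ι ⊕ π')) (N : ℂ → ℂ) (y2 t hz' : ℝ) (sd : π' → ℂ) (k : B.ι) : Prop where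
  sub : ∀ k', par B π' k' = k → ∀ z ∈ W'.zn (born B π' x' δ') hz' k',
    z ∈ W.zn B (3 * t) k ∧ (wk B W k).dep z ≤ y2 / 8
  pr : ∀ k', par B π' k' = k → SH.PR (W'.Ef k') (tw (born B π' x' δ') k')
  exact : ∀ k', par B π' k' = k → ∀ z ∈ W'.zn (born B π' x' δ') hz' k', z ≠ (B.e k).c →
    N z = (W'.Ef k' ((wk (born B π' x' δ') W' k').dep z) : ℂ) * (born B π' x' δ').lam k' z
  pole : ∀ k', par B π' k' = k → ((born B π' x' δ').e k').k = Kind.pt →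
    Pole ((born B π' x' δ').lam k') ((born B π' x' δ').e k').c
      (W'.zn (born B π' x' δ') hz' k')
  loop : ∀ k', par B π' k' = k → ((born B π' x' δ').e k').k ≠ Kind.pt →
    AnalyticOnNhd ℂ ((born B π' x' δ').lam k') (W'.zn (born B π' x' δ') hz' k') ∧
      ∀ z ∈ W'.zn (born B π' x' δ') hz' k', (born B π' x' δ').lam k' z ≠ 0
  disj : ∀ k1 k2, k1 ≠ k2 → par B π' k1 = k → par B π' k2 = k →
    Disjoint (W'.zn (born B π' x' δ') hz' k1) (W'.zn (born B π' x' δ') hz' k2)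
  zero : ∀ z ∈ W.zn B (3 * t) k, z ≠ (B.e k).c → (wk B W k).dep z ≤ y2 / 8 → N z = 0 →
    ∃ k', par B π' k' = k ∧ z ∈ ct ((born B π' x' δ').e k') (W'.pr k')
  ctr : (B.e k).k = Kind.pt → 0 < W'.pr (Sum.inl k)
  saddle : k = B.H → ∀ i, sd i ∈ B.hub.ann (Ioo 0 (y2 / 8)) ∧ N (sd i) ≠ 0 ∧
    ∀ (S : Set E) (f : ℂ → ℂ), (∀ᶠ v in 𝓝 (sd i), f v = B.hub.w v + N v) →
      (∀ᶠ y in 𝓝 ((sd i, f (sd i)) : E), y ∈ S ↔ y.2 = f y.1) → SH.LB2 S (sd i, f (sd i))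

/-- the part of `SiteW` at the site `k`; `N` is the new wall -/
structure SiteK {I : Type} (B : Cv) (W : Wd I B.ι) (π' : Type) [Fintype π'] (x' : π' → ℂ)
    (δ' : ℝ) (W' : Wd I (B.ι ⊕ π')) (PA : E → ℂ) (d1 : ℂ → ℂ) (Zb : Set ℂ)
    (e y2 t hz' τ : ℝ) (kk : ℕ) (ε : ℝ) (M N : ℂ → ℂ) (EA : ℝ → ℝ) (lA : ℂ → ℂ)
    (sd : π' → ℂ) (k : B.ι) : Prop where
  small : SH.Small kk ε M
  supp : ∀ z, M z ≠ 0 → z ∈ W.zn B (3 * t) k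
  bd : ∀ z ∈ W.zn B (3 * t) k, ‖N z‖ ≤ τ
  sub : ∀ k', par B π' k' = k → W'.zn (born B π' x' δ') hz' k' ⊆ W.zn B (3 * t) k
  pr : ∀ k', par B π' k' = k → SH.PR (W'.Ef k') (tw (born B π' x' δ') k')
  exact : ∀ k', par B π' k' = k → ∀ z ∈ W'.zn (born B π' x' δ') hz' k',
    N z = (W'.Ef k' ((wk (born B π' x' δ') W' k').dep z) : ℂ) * (born B π' x' δ').lam k' z
  pole : ∀ k', par B π' k' = k → ((born B π' x' δ').e k').k = Kind.pt →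
    Pole ((born B π' x' δ').lam k') ((born B π' x' δ').e k').c
      (W'.zn (born B π' x' δ') hz' k')
  loop : ∀ k', par B π' k' = k → ((born B π' x' δ').e k').k ≠ Kind.pt →
    AnalyticOnNhd ℂ ((born B π' x' δ').lam k') (W'.zn (born B π' x' δ') hz' k') ∧
      ∀ z ∈ W'.zn (born B π' x' δ') hz' k', (born B π' x' δ').lam k' z ≠ 0
  disj : ∀ k1 k2, k1 ≠ k2 → par B π' k1 = k → par B π' k2 = k →
    Disjoint (W'.zn (born B π' x' δ') hz' k1) (W'.zn (born B π' x' δ') hz' k2)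
  subA : (aE B W y2 k).ann (Icc (-hz') hz') ⊆ W.zn B (3 * t) k ∩ Zb
  prA : SH.PR EA True
  anA : ∀ z ∈ (aE B W y2 k).ann (Icc (-hz') hz'), AnalyticAt ℂ d1 z ∧
    AnalyticAt ℂ lA z ∧ lA z ≠ 0
  same : CF.SameW (aE B W y2 k) (B.lam k) lA
  exactA : ∀ z ∈ (aE B W y2 k).ann (Icc (-hz') hz'), N z =
    e * d1 z + (EA ((aE B W y2 k).dep z) : ℂ) * lA z
  cross : ∀ k', par B π' k' = k → Disjoint ((aE B W y2 k).ann (Icc (-hz') hz'))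
    (W'.zn (born B π' x' δ') hz' k')
  zero0 : ∀ z ∈ W.zn B (3 * t) k, N z = 0 →
    ∃ k', par B π' k' = k ∧ z ∈ ct ((born B π' x' δ').e k') (W'.pr k')
  zero1 : ∀ z ∈ W.zn B (3 * t) k, z ∈ Zb → PA (z, (B.e k).w z + N z) = 0 →
    z ∈ (aE B W y2 k).circ
  real : ∀ z ∈ W.zn B (3 * t) k, N z ≠ 0 → z ∉ (aE B W y2 k).circ → ∀ f : ℂ → ℂ,
    (∀ᶠ v in 𝓝 z, f v = (B.e k).w v + N v) → SH.dbar f z ≠ 0 ∨ (k = B.H ∧ ∃ i, z = sd i)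
  saddle : k = B.H → ∀ i, sd i ∈ B.hub.ann (Ioo 0 t) ∧ sd i ∈ Zb ∧ N (sd i) ≠ 0 ∧
    sd i ∉ (aE B W y2 k).circ ∧ ∀ (S : Set E) (f : ℂ → ℂ),
      (∀ᶠ v in 𝓝 (sd i), f v = B.hub.w v + N v) →
      (∀ᶠ y in 𝓝 ((sd i, f (sd i)) : E), y ∈ S ↔ y.2 = f y.1) → SH.LB2 S (sd i, f (sd i))

theorem siteW_of {I : Type} {B : Cv} {W : Wd I B.ι} {π' : Type} [Fintype π'] {x' : π' → ℂ}
    {L δ' : ℝ} {pr : B.ι → ℝ} {Ef : B.ι → B.ι ⊕ π' → ℝ → ℝ} {PA : E → ℂ} {d1 : B.ι → ℂ → ℂ}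
    {Zb : B.ι → Set ℂ} {e y2 t hz' τ τ' : ℝ} {kk : ℕ} {ε : ℝ} {M : B.ι → ℂ → ℂ}
    {EA : B.ι → ℝ → ℝ} {lA : B.ι → ℂ → ℂ} {sd : π' → ℂ} (h0 : 0 < hz' ∧ hz' ≤ t) (hτ : τ' ≤ τ)
    (h : ∀ k, SiteK B W π' x' δ' (Wd.born B W.cp pr π' L δ' (Ef k)) PA (d1 k) (Zb k) e y2 t hz' τ'
      kk ε (M k) (nW B W M k) (EA k) (lA k) sd k) :
    SiteW B W π' x' δ' (Wd.born B W.cp pr π' L δ' fun k' => Ef (par B π' k') k') PA d1 Zb e y2 t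
      hz' τ kk ε M EA lA sd :=
  ⟨h0, fun k => (h k).small, fun k => (h k).supp, fun k z hz => ((h k).bd z hz).trans hτ,
    fun k' => (h _).sub k' rfl, fun k' => (h _).pr k' rfl, fun k' => (h _).exact k' rfl,
    fun k' => (h _).pole k' rfl, fun k' => (h _).loop k' rfl,
    fun k1 k2 a b => (h _).disj k1 k2 a b rfl, fun k => (h k).subA, fun k => (h k).prA,
    fun k => (h k).anA, fun k => (h k).same, fun k => (h k).exactA, fun k' => (h _).cross k' rfl,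
    fun k => (h k).zero0, fun k => (h k).zero1, fun k => (h k).real, (h _).saddle rfl⟩

/-- the form of the new wall `N` -/
def Form (l : End) (Ef : ℝ → ℝ) (d0 d1 N lm Tw : ℂ → ℂ) (e y2 t : ℝ) : Prop :=
  N l.c = 0 ∧ ∀ z, z ≠ l.c → l.dep z ≤ 2 * t → N z = (cutE y2 Ef (l.dep z) : ℂ) * d0 z +
    e * (Tw z / 2 * lm z + (sS y2 (l.dep z) : ℂ) * (d1 z - lm z / 2))

def St_SITK : Prop := ∀ (I : Type) (B : Cv) (W : Wd I B.ι) (pr : B.ι → ℝ) (PA : ℝ → E → ℂ)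
  (d : ℂ × ℂ → ℂ) (Zb : Set ℂ) (t τ : ℝ) (k : B.ι), SK B W pr PA d Zb t τ k →
  ∀ (kk : ℕ) (ε : ℝ), 0 < ε → ∀ᶠ y2 in 𝓝[>] (0 : ℝ), ∀ (lm Tw : ℂ → ℂ) (T : ℝ → ℝ) (o : ℝ)
    (Sad : Set ℂ), o ≤ 1 / 100 →
    Low (wk B W k) (B.lam k) lm Tw T (RW.foot (B.e k) (W.pr k) (pr k)) y2 t o Sad →
    ContDiff ℝ ∞ T → Pf (cutE y2 (W.Ef k)) T (sS y2) y2 t →
    ∀ᶠ e : ℝ in 𝓝[>] 0, ∃ (M : ℂ → ℂ) (EA : ℝ → ℝ) (lA : ℂ → ℂ),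
      Form (wk B W k) (W.Ef k) (B.lam k) (fun z => d (z, e))
        (nL (wk B W k) (W.Ef k) (B.lam k) M) lm Tw e y2 t ∧
      ∀ (π' : Type) [Fintype π'] (x' : π' → ℂ) (δ' : ℝ) (W' : Wd I (B.ι ⊕ π')) (sd : π' → ℂ)
        (hz' : ℝ), 0 < hz' → hz' ≤ y2 / 8 → (∀ z ∈ Sad, k = B.H ∧ ∃ i, z = sd i) →
        New B W π' x' δ' W' (lw (wk B W k) (W.Ef k) (B.lam k) lm Tw e y2) y2 t hz' sd k →
        SiteK B W π' x' δ' W' (PA e) (fun z => d (z, e)) Zb e y2 t hz' τ kk ε M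
          (nL (wk B W k) (W.Ef k) (B.lam k) M) EA lA sd k

/-- the data of the lower wall at the site `k` -/
structure LowK {I : Type} (wc : WC) (L : ℝ) (B : Cv) (W : Wd I B.ι) (pr : B.ι → ℝ) (π' : Type)
    [Fintype π'] (x' : π' → ℂ) (δ' y2 t o : ℝ) (sd : π' → ℂ) (k : B.ι) (lm Tw : ℂ → ℂ)
    (T : ℝ → ℝ) : Prop where
  low : Low (wk B W k) (B.lam k) lm Tw T (RW.foot (B.e k) (W.pr k) (pr k)) y2 t o
    {z | k = B.H ∧ ∃ i, z = sd i}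
  pf : ContDiff ℝ ∞ T ∧ Pf (cutE y2 (W.Ef k)) T (sS y2) y2 t
  new : ∀ e : ℝ, 0 < e → ∃ Ef : B.ι ⊕ π' → ℝ → ℝ, ∀ᶠ hz' in 𝓝[>] (0 : ℝ),
    New B W π' x' δ' (Wd.born B W.cp pr π' L δ' Ef)
      (lw (wk B W k) (W.Ef k) (B.lam k) lm Tw e y2) y2 t hz' sd k
  rad : k ≠ B.H → lm = B.lam k ∧ (Tw = fun z => (T ((wk B W k).dep z) : ℂ)) ∧
    ∃ s0 : ℝ, ∀ y ≤ s0, T y = 0
  hub : k = B.H → (∀ y ≤ 0, T y = 0) ∧
    (∀ z ∈ B.hub.ann (Icc 0 (2 * t)), (∀ i, y2 / 20000 * B.R ≤ ‖z - (B.c + B.R * x' i)‖) →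
      Tw z = T (B.hub.dep z) ∧ N1 (fun v => lm v / B.lam k v) o z) ∧
    ∀ s : SD, s.d0 = B.lam k → s.y2 = y2 → o ≤ s.o → s.W3 wc L B.hub x' δ' lm Tw T

def St_LOWR : Prop := ∀ (I : Type) (B : Cv) (W : Wd I B.ι) (pr : B.ι → ℝ) (PA : ℝ → E → ℂ)
  (d : ℂ × ℂ → ℂ) (Zb : Set ℂ) (t τ o : ℝ) (k : B.ι), SK B W pr PA d Zb t τ k → k ≠ B.H → 0 ≤ o →
  ∀ᶠ y2 in 𝓝[>] (0 : ℝ), ∀ (wc : WC) (L : ℝ) (π' : Type) [Fintype π'] (x' : π' → ℂ) (δ' : ℝ)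
    (sd : π' → ℂ), ∃ (lm Tw : ℂ → ℂ) (T : ℝ → ℝ), LowK wc L B W pr π' x' δ' y2 t o sd k lm Tw T

def St_LOWH : Prop := ∀ (I : Type) (B : Cv) (W : Wd I B.ι) (pr : B.ι → ℝ) (PA : ℝ → E → ℂ)
  (d : ℂ × ℂ → ℂ) (Zb : Set ℂ) (t τ o : ℝ) (wc : WC) (L : ℝ) (π' : Type) [Fintype π']
  (x' : π' → ℂ), SK B W pr PA d Zb t τ B.H → 0 < o → wc.OK L → Function.Injective x' →
  (∀ i, ‖x' i‖ = 1) → ∀ᶠ y2 in 𝓝[>] (0 : ℝ), ∀ᶠ δ' in 𝓝[>] (0 : ℝ),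
    ∃ (sd : π' → ℂ) (lm Tw : ℂ → ℂ) (T : ℝ → ℝ), LowK wc L B W pr π' x' δ' y2 t o sd B.H lm Tw T

/-! ### geometry and frames -/

/-- the data which do not depend on the depth of the windows -/
structure Pre0 (C K : Cv) (Nd : Finset E) (TC TK : ℤ) (D : ℕ) (a : ℂ) (Z : Finset E)
    (q G : E → ℂ) {π π' : Type} [Fintype π] (x : π → ℂ) (x' : π' → ℂ) (sp : Sp C.ι)
    (Sig : Finset ℂ) : Prop where
  alg : CF.Alg C K Nd TC TK D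
  sec : Sec C K Nd TC a Z q G (Fintype.card π)
  pos : Pos C (Sum.elim x x')
  l : sp.l = C.e
  geom : Geom C.P C.Γ sp Sig
  clear : ClearB C K a q G x sp.h sp.r1
  h : sp.h ≤ 1

/-- the walls before the split -/
structure Pre1 {I : Type} (fx : Fix I) (C K : Cv) (π : Type) [Fintype π] (a : ℂ) (q G : E → ℂ)
    (x : π → ℂ) (L δ r2 : ℝ) (F : I → ℂ → ℂ) (W : Wd I (C.ι ⊕ π)) (hz : ℝ) : Prop where
  sm : ∀ i, ContDiff ℝ ∞ (F i)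
  gap : ∀ i i', i ≠ i' → ∀ z ∈ fx.dom i, z ∈ fx.dom i' → F i z ≠ F i' z
  hz0 : 0 < hz
  sw : SideWall fx F hz (winS C K π a q G x δ) K W
  r2 : ∀ j, (C.e j).k = Kind.pt → W.pr (Sum.inl j) < r2
  bp : ∀ k, W.pr (Sum.inr k) = bpr C L δ

/-- the strips about the circles of the sites in the zone of the end `j` -/
def zS (C : Cv) {π : Type} (l : C.ι ⊕ π → End) (ρ : C.ι ⊕ π → ℝ) (t : ℝ) (j : C.ι) : Set ℂ :=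
  {z | ∃ k, par C π k = j ∧ z ∈ (wl (l k) (ρ k)).ann (Icc (lo0 (l k) t) (3 * t))}

/-- geometry of the zones on the scale `t` -/
structure Geb {I : Type} (C K : Cv) (π : Type) [Fintype π] (a : ℂ) (q G : E → ℂ) (x : π → ℂ)
    (δ : ℝ) (W : Wd I (C.ι ⊕ π)) (h r1 t β : ℝ) : Prop where
  num : 0 < t ∧ t ≤ 1 / 32 ∧ 4 * t ≤ h ∧ 4 * t ≤ δ
  shyp : ∀ j, SHyp C.P K.P G q (gS C G x δ) (qS C a q x δ) (C.e j).w ((C.e j).near h r1)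
    (rg C (winS C K π a q G x δ).e W.pr h r1 (-(3 * t)) (-1 / 2) j)
    (zS C (winS C K π a q G x δ).e W.pr t j)
  near : ∀ k, W.zn (winS C K π a q G x δ) (3 * t) k ⊆ (C.e (par C π k)).near h r1
  disj : ∀ k k', k ≠ k' → par C π k = par C π k' →
    Disjoint (W.zn (winS C K π a q G x δ) (3 * t) k) (W.zn (winS C K π a q G x δ) (3 * t) k')
  zb : ∀ k, (wk (winS C K π a q G x δ) W k).ann (Icc 0 (3 * t)) ⊆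
      rg C (winS C K π a q G x δ).e W.pr h r1 (-(3 * t)) (-1 / 2) (par C π k) ∧
    W.zn (winS C K π a q G x δ) (3 * t) k ∩
        rg C (winS C K π a q G x δ).e W.pr h r1 (-(3 * t)) (-1 / 2) (par C π k) ⊆
      (wk (winS C K π a q G x δ) W k).ann (Icc (lo0 ((winS C K π a q G x δ).e k) t) (3 * t))
  op : ∀ k, RESET.OP (W.Ef k) (tw (winS C K π a q G x δ) k) t
  an : ∀ k z, z ≠ (wk (winS C K π a q G x δ) W k).c →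
    (wk (winS C K π a q G x δ) W k).dep z ≤ 4 * t →
    (((winS C K π a q G x δ).e k).k ≠ Kind.pt → -(4 * t) ≤ (wk (winS C K π a q G x δ) W k).dep z) →
    AnalyticAt ℂ ((winS C K π a q G x δ).lam k) z ∧ (winS C K π a q G x δ).lam k z ≠ 0
  bd : ∀ k, (∀ y ∈ Icc (-(2 * t)) (2 * t), |W.Ef k y| ≤ β) ∧
    ∀ z ∈ W.zn (winS C K π a q G x δ) (3 * t) k,
      ‖(W.Ef k ((wk (winS C K π a q G x δ) W k).dep z) : ℂ) * (winS C K π a q G x δ).lam k z‖ ≤ β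
  rad : (∀ k, 0 < (wk (winS C K π a q G x δ) W k).r ∧ (wk (winS C K π a q G x δ) W k).r ≤ 10) ∧
    ∀ j, (C.e j).k = Kind.pt → W.pr (Sum.inl j) * Real.exp 2 ≤ r1
  poleP : ∀ j, (C.e j).k = Kind.pt → ∃ m : ℂ → ℂ, ∀ z ∈ closedBall (C.e j).c r1,
    AnalyticAt ℂ m z ∧ m z ≠ 0 ∧ ∀ᶠ v in 𝓝 z,
      (C.sec K (gS C G x δ) (qS C a q x δ) (C.e j) v)⁻¹ = (v - (C.e j).c) * m v
  poleL : ∀ j, (C.e j).k ≠ Kind.pt → j ≠ C.H → ∃ m : ℂ → ℂ, ∀ z ∈ (C.e j).ann (Icc (-t) h),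
    AnalyticAt ℂ m z ∧ m z ≠ 0 ∧ ∀ᶠ v in 𝓝 z,
      (C.sec K (gS C G x δ) (qS C a q x δ) (C.e j) v)⁻¹ = m v
  poleH : ∃ m : ℂ → ℂ, ∀ z ∈ C.hub.ann (Icc (-t) h), AnalyticAt ℂ m z ∧ m z ≠ 0 ∧ ∀ᶠ v in 𝓝 z,
    (C.sec K (gS C G x δ) (qS C a q x δ) C.hub v)⁻¹ =
      m v * ∏ k, (v - hq C.hub (x k) δ 0) / (v - hq C.hub (x k) (Real.sqrt 2 * δ) (-δ))

def St_GEOB : Prop := ∀ (C K : Cv) (Nd : Finset E) (TC TK : ℤ) (D : ℕ) (a : ℂ) (Z : Finset E)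
  (q G : E → ℂ) (π π' : Type) [Fintype π] (x : π → ℂ) (x' : π' → ℂ) (sp : Sp C.ι)
  (Sig : Finset ℂ) (L : ℝ), Pre0 C K Nd TC TK D a Z q G x x' sp Sig → 20 ≤ L →
  ∀ᶠ δ in 𝓝[>] (0 : ℝ), ∀ (I : Type) (fx : Fix I) (F : I → ℂ → ℂ) (W : Wd I (C.ι ⊕ π)) (hz : ℝ),
    Pre1 fx C K π a q G x L δ sp.r2 F W hz → ∀ β : ℝ, 0 < β → ∀ᶠ t in 𝓝[>] (0 : ℝ),
      Geb C K π a q G x δ W sp.h sp.r1 t β

/-- the surface `Y` in the tube about the end `j`; `zn s k` are the zones, `N k` the walls -/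
structure KDs (C : Cv) {π : Type} (zn : ℝ → C.ι ⊕ π → Set ℂ) (N : C.ι ⊕ π → ℂ → ℂ)
    (h r1 τ t R : ℝ) (X Y : Set E) (j : C.ι) : Prop where
  tube : ∀ y ∈ SH.near X (C.e j).w τ, y ∉ Y → y.1 ∈ (C.e j).near h r1 →
    ‖y.2 - (C.e j).w y.1‖ < R ∧ ((C.e j).k ≠ Kind.pt → -(t / 2) < (C.e j).dep y.1)
  kd1 : ∀ y ∈ SH.near X (C.e j).w R, y ∈ Y → y.1 ∈ (C.e j).near h r1 →
    ((C.e j).k ≠ Kind.pt → -(t / 2) ≤ (C.e j).dep y.1) →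
    ∃ k, par C π k = j ∧ y.1 ∈ zn t k ∧ y.2 = (C.e j).w y.1 + N k y.1
  kd2 : ∀ k, par C π k = j → ∀ z ∈ zn (2 * t) k, (z, (C.e j).w z + N k z) ∈ Y

def St_KDS : Prop := ∀ (C K : Cv) (Nd : Finset E) (TC TK : ℤ) (D : ℕ) (a : ℂ) (Z : Finset E)
  (q G : E → ℂ) (π π' : Type) [Fintype π] (x : π → ℂ) (x' : π' → ℂ) (sp : Sp C.ι)
  (Sig : Finset ℂ) (L δ : ℝ) (I : Type) [Fintype I] (fx : Fix I) (F : I → ℂ → ℂ)
  (W : Wd I (C.ι ⊕ π)) (hz τ : ℝ), Pre0 C K Nd TC TK D a Z q G x x' sp Sig → fx.OK →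
  Pre1 fx C K π a q G x L δ sp.r2 F W hz → 0 < τ →
  (∀ j, ∀ y ∈ C.Γ ∪ K.Γ, y ∈ sp.T τ j → y.2 = (C.e j).w y.1 ∧ (C.e j).side y.1) →
  ∀ᶠ t in 𝓝[>] (0 : ℝ), ∀ β : ℝ, Geb C K π a q G x δ W sp.h sp.r1 t β →
    ∀ᶠ R in 𝓝[>] (0 : ℝ), ∀ᶠ η0 in 𝓝[>] (0 : ℝ), ∀ (M : C.ι ⊕ π → ℂ → ℂ) (F' : I → ℂ → ℂ),
      (∀ k, ∀ z ∈ W.zn (winS C K π a q G x δ) (3 * t) k, ‖nW (winS C K π a q G x δ) W M k z‖ ≤ τ) →
      (∀ i, ∀ z ∈ fx.dom i, ‖F' i z - F i z‖ ≤ η0) →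
      (∀ k, ∀ z ∈ W.zn (winS C K π a q G x δ) hz k, F' (W.cp k) z = F (W.cp k) z + M k z) →
      ∀ X Y : Set E, X \ Y ⊆ cthickening η0 (C.Γ ∪ K.Γ) → ∀ j,
        Y ∩ sp.T τ j = fx.S F' ∩ sp.T τ j →
        KDs C (W.zn (winS C K π a q G x δ)) (nW (winS C K π a q G x δ) W M) sp.h sp.r1 τ t R X Y j

/-- everything which is known at the end `j` after the construction -/
structure Mid {I : Type} (C K : Cv) (π π' : Type) [Fintype π] [Fintype π'] (a : ℂ) (q G : E → ℂ)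
    (x : π → ℂ) (x' : π' → ℂ) (wc : WC) (L δ δ' : ℝ) (W : Wd I (C.ι ⊕ π)) (pr : C.ι ⊕ π → ℝ)
    (M : C.ι ⊕ π → ℂ → ℂ) (sd : π' → ℂ) (h r1 τ β : ℝ) (X Y : Set E) (j : C.ι) (s : SD) :
    Prop where
  ok : (∀ i, (C.e i).ok) ∧ C.hub.k = Kind.out ∧ ∀ k, W.pr (Sum.inr k) = bpr C L δ
  geb : Geb C K π a q G x δ W h r1 s.t β
  num : s.Num ∧ s.R ≤ τ ∧ 0 < δ ∧ s.t ≤ s.o * δ ∧ s.o ≤ 1 / 100 ∧ β ≤ s.r / 4
  eqs : s.w = (C.e j).w ∧ s.d0 = C.sec K (gS C G x δ) (qS C a q x δ) (C.e j) ∧ s.S = sS s.y2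
  std : Std X Y
  prf : ∀ k, SH.PR (W.Ef k) (tw (winS C K π a q G x δ) k)
  cmp : s.Cmp ((C.e j).near h r1)
  str : s.Str (zS C (winS C K π a q G x δ).e W.pr s.t j) ∧
    ∀ z ∈ zS C (winS C K π a q G x δ).e W.pr s.t j, N1 (fun v => s.d0 v / s.d1 v) (s.o / 4) z
  sht : s.Sht (rg C (winS C K π a q G x δ).e W.pr h r1 (-(3 * s.t)) (-1 / 2) j)
  wall : ∀ k, par C π k = j → ∀ z ∈ W.zn (winS C K π a q G x δ) (3 * s.t) k,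
    s.N z = nW (winS C K π a q G x δ) W M k z
  low : ∀ k, par C π k = j → ∃ (lm Tw : ℂ → ℂ) (T : ℝ → ℝ),
    LowK wc L (winS C K π a q G x δ) W pr π' x' δ' s.y2 s.t (s.o / 4) sd k lm Tw T ∧
    Form (wk (winS C K π a q G x δ) W k) (W.Ef k) ((winS C K π a q G x δ).lam k) s.d1
      (nW (winS C K π a q G x δ) W M k) lm Tw s.e s.y2 s.t
  kd : KDs C (W.zn (winS C K π a q G x δ)) (nW (winS C K π a q G x δ) W M) h r1 τ s.t s.R X Y j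
  mem : ∀ z ∈ rg C (winS C K π a q G x δ).e W.pr h r1 s.y2 s.y2 j,
    (z, s.w z + s.e * s.d1 z) ∈ X

/-- the descriptions -/
def St_DESC : Prop := ∀ (I : Type) (C K : Cv) (π π' : Type) [Fintype π] [Fintype π'] (a : ℂ)
  (q G : E → ℂ) (x : π → ℂ) (x' : π' → ℂ) (wc : WC) (L δ δ' : ℝ) (W : Wd I (C.ι ⊕ π))
  (pr : C.ι ⊕ π → ℝ) (M : C.ι ⊕ π → ℂ → ℂ) (sd : π' → ℂ) (h r1 τ β : ℝ) (X Y : Set E) (j : C.ι)
  (s : SD), Mid C K π π' a q G x x' wc L δ δ' W pr M sd h r1 τ β X Y j s →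
  ((C.e j).k = Kind.pt → s.Port (C.e j).c (W.pr (Sum.inl j)) r1 X Y ∧
    (∀ y ∈ SH.near X s.w τ, y ∉ Y → y.1 ∈ closedBall (C.e j).c r1 → ‖y.2 - s.w y.1‖ < s.R) ∧
    s.Sht {z | W.pr (Sum.inl j) * Real.exp (-1 / 2) ≤ ‖z - (C.e j).c‖ ∧ ‖z - (C.e j).c‖ ≤ r1} ∧
    rg C (winS C K π a q G x δ).e W.pr h r1 s.y2 s.y2 j =
      {z | W.pr (Sum.inl j) * Real.exp s.y2 ≤ ‖z - (C.e j).c‖ ∧ ‖z - (C.e j).c‖ ≤ r1}) ∧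
  ((C.e j).k ≠ Kind.pt → j ≠ C.H → ∃ (lm Tw : ℂ → ℂ) (E1 T : ℝ → ℝ),
    s.Ring (C.e j) False L h τ (s.t / 2) (Empty.elim : Empty → ℂ) δ (Empty.elim : Empty → ℂ)
      lm Tw E1 T X Y ∧
    rg C (winS C K π a q G x δ).e W.pr h r1 s.y2 s.y2 j =
      SD.rz (C.e j) (Empty.elim : Empty → ℂ) L δ h s.y2 s.y2) ∧
  (j = C.H → ∃ (lm Tw : ℂ → ℂ) (E1 T : ℝ → ℝ),
    s.Ring C.hub True L h τ (s.t / 2) x δ x' lm Tw E1 T X Y ∧ s.W3 wc L C.hub x' δ' lm Tw T ∧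
    rg C (winS C K π a q G x δ).e W.pr h r1 s.y2 s.y2 j = SD.rz C.hub x L δ h s.y2 s.y2)

end Pool.Agent.S6
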