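import Pool.Agent.Lib.S6.SplitC
import Pool.Agent.Lib.S6.SplitD
import Pool.Agent.Lib.S6.Shear2
import Pool.Agent.Lib.S6.B_ZONE
import Pool.Agent.Lib.S6.Glue
import Pool.Agent.Lib.CF.All3

/-!
Section 6 of the project 9ccfb7: assembly of the split for a fixed configuration.
-/

open Set Filter Topology Metric
open scoped ContDiff

noncomputable section

namespace Pool.Agent.S6

open Pool.Agent.CF (End Kind IsCurve Geo SLH Cv Priv SheetFam)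
open Pool.Agent.Lib

namespace SPL

variable {I J J0 : Type}

/-- output of the site -/
def SiteQ (fx : Fix I) (σ : Conf I) (π' : Type) [Fintype π'] (x' : π' → ℂ) (L : ℝ) (G q : E → ℂ)
    (sb : Sp J0) (p0 : σ.C.ι → J0) (Zf : ℝ → ℝ → J0 → Set ℂ) (pr : σ.C.ι → ℝ) (κ κ1 κ0 : J0 → ℝ)
    (θ θ1 Dp : ℝ) : Prop :=
  ∀ τ : ℝ, 0 < τ → (∀ j, ∀ y ∈ σ.C.Γ ∪ σ.K.Γ, y ∈ sb.T τ j →
      y.2 = (sb.l j).w y.1 ∧ (sb.l j).side y.1) →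
    ∀ t0 : ℝ, 0 < t0 → ∃ (t η0 : ℝ) (d : J0 → ℂ × ℂ → ℂ), 0 < t ∧ t ≤ t0 ∧ 4 * t ≤ σ.hz ∧ 0 < η0 ∧
      (∀ j, SheetFam (σ.C.pA σ.K G q) (sb.l j).w (Zf (-(3 * t)) (-1 / 2) j) (d j)) ∧
      (∀ k, σ.WC.zn σ.C (3 * t) k ⊆ (sb.l (p0 k)).near sb.h sb.r1) ∧
      ∀ (kk : ℕ) (ε : ℝ), 0 < ε → ∀ᶠ y2 in 𝓝[>] (0 : ℝ), ∀ᶠ δ' in 𝓝[>] (0 : ℝ),
        ∀ᶠ e : ℝ in 𝓝[>] 0, ∃ (M : σ.C.ι → ℂ → ℂ) (Ef : σ.C.ι ⊕ π' → ℝ → ℝ)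
          (EA : σ.C.ι → ℝ → ℝ) (lA : σ.C.ι → ℂ → ℂ) (hz' : ℝ) (sd : π' → ℂ),
          SiteW σ.C σ.WC π' x' δ' (Wd.born σ.C σ.WC.cp pr π' L δ' Ef) (σ.C.pA σ.K G q e)
            (fun k z => d (p0 k) (z, e)) (fun k => Zf (-(3 * t)) (-1 / 2) (p0 k))
            e y2 t hz' τ kk ε M EA lA sd ∧
          ∀ F' : I → ℂ → ℂ, (∀ i, ∀ z ∈ fx.dom i, ‖F' i z - σ.F i z‖ ≤ η0) →
            (∀ k, ∀ z ∈ σ.WC.zn σ.C σ.hz k, F' (σ.WC.cp k) z = σ.F (σ.WC.cp k) z + M k z) →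
            ∀ X Y : Set E, Std X Y → X \ Y ⊆ cthickening η0 (σ.C.Γ ∪ σ.K.Γ) → ∀ j,
              Y ∩ sb.T τ j = fx.S F' ∩ sb.T τ j →
              (∀ z ∈ Zf y2 y2 j, (z, (sb.l j).w z + e * d j (z, e)) ∈ X) →
              EndS (sb.l j) (vS σ.C σ.K G q) (fun z => d j (z, e)) e (Zf y2 y2 j) (X \ Y) τ sb.h
                sb.r1 sb.r2 sb.Cu sb.Λ0 (κ j) (κ1 j) (κ0 j) θ θ1 Dp

/-- output of the certificate -/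
def CertQ (fx : Fix I) (σ : Conf I) (G q : E → ℂ) (sb : Sp J0) (sp : Sp J) (κ κ1 κ0 : J0 → ℝ)
    (θ θ1 Dp : ℝ) : Prop :=
  ∃ τ0 > (0 : ℝ), ∀ τ τ' : ℝ, 0 < τ → τ ≤ τ0 → 0 < τ' → τ' ≤ τ0 → ∃ R > (0 : ℝ),
    ∀ (e : ℝ) (w : J → ℂ → ℂ) (A X L : Set E), 0 < e → e ≤ R →
      (∀ j, ∀ z ∈ (sp.l j).near sp.h sp.r1, ‖w j z - (sp.l j).w z‖ ≤ R ∧
        SH.pA σ.C.P σ.K.P G q e (z, w j z) = 0 ∧ ((sp.l j).side z → (z, w j z) ∈ A)) →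
      Std X L → L ⊆ cthickening R (fx.S σ.F) → X \ L ⊆ cthickening R (σ.C.Γ ∪ σ.K.Γ) →
      (∀ y ∈ X, y ∉ L → SH.pA σ.C.P σ.K.P G q e y = 0 → y ∈ A ∨
        (∃ j, y.1 ∈ (sb.l j).near sb.h sb.r1 ∧ ‖y.2 - (sb.l j).w y.1‖ ≤ τ) ∨
          ∃ j, y ∈ (sp.setW w).T τ' j) →
      (∀ j, SiteOK σ.C.P σ.K.P G q (sb.l j) (X \ L) (A ∪ σ.C.Γ) e τ sb.h sb.r1 sb.r2 sb.Cu sb.Λ0
        (κ j) (κ1 j) (κ0 j) θ θ1 Dp) →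
      (∀ j, (sp.setW w).End1 (X \ L) τ' j) → X ⊆ L ∪ (A ∪ σ.C.Γ)

/-- the cut curve and the regions `Zf` -/
structure CutQ (σ : Conf I) (Zf : ℝ → ℝ → J0 → Set ℂ) (l : J0 → End) (p0 : σ.C.ι → J0)
    (r' h' y : ℝ) : Prop where
  cpt : ∀ j, IsCompact (Zf y y j)
  mono : ∀ s u j, s ≤ y → u ≤ y → Zf y y j ⊆ Zf s u j
  mem : ∀ j, ∀ z ∈ Zf y y j, ContinuousAt (l j).w z ∧
    (z, (l j).w z) ∈ σ.C.cut (fun _ => y) (fun k => σ.WC.pr k * Real.exp y) r' h'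
  side : ∀ j k, ∀ z ∈ Zf y y j, z ∈ (aE σ.C σ.WC y k).circ → (l j).w z = (σ.C.e k).w z →
    ∀ z' ∈ Zf y y j, (aE σ.C σ.WC y k).side z'
  circ : ∀ k, (aE σ.C σ.WC y k).circ ⊆ Zf y y (p0 k)
  port : ∀ k, (σ.C.e k).k = Kind.pt →
    ∀ v ∈ σ.C.cut (fun _ => y) (fun k => σ.WC.pr k * Real.exp y) r' h',
      v.1 ∉ closedBall (σ.C.e k).c (σ.WC.pr k)
  ring : ∀ p ρ', closedBall p ρ' ⊆ σ.C.hub.ann (Ioo (-y) y) → Priv σ.C σ.K p ρ' σ.C.hub.w →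
    ∀ v ∈ σ.C.cut (fun _ => y) (fun k => σ.WC.pr k * Real.exp y) r' h', v.1 ∉ closedBall p ρ'

theorem ev_Ioc {p : ℝ → Prop} (h : ∀ᶠ t in 𝓝[>] (0 : ℝ), p t) :
    ∃ t0 > 0, ∀ t, 0 < t → t ≤ t0 → p t := by
  obtain ⟨u, hu, H⟩ := mem_nhdsGT_iff_exists_Ioc_subset.1 h
  exact ⟨u, hu, fun t a b => H ⟨a, b⟩⟩

theorem ev_three {p : ℝ → Prop} (h : ∀ᶠ t in 𝓝[>] (0 : ℝ), p t) :
    ∀ᶠ t in 𝓝[>] (0 : ℝ), p (3 * t) := by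
  obtain ⟨u, hu, H⟩ := ev_Ioc h
  filter_upwards [Ioc_mem_nhdsGT (show 0 < u / 3 by positivity)] with t a
  exact H _ (by linarith [a.1]) (by linarith [a.2])

theorem ev_le {u : ℝ} (hu : 0 < u) : ∀ᶠ t in 𝓝[>] (0 : ℝ), 0 < t ∧ t ≤ u := Ioc_mem_nhdsGT hu

theorem ev_real {p : ℂ → Prop} (h : ∀ᶠ e in 𝓝 (0 : ℂ), p e) : ∀ᶠ e : ℝ in 𝓝[>] 0, p e := by
  have : Tendsto (fun e : ℝ => (e : ℂ)) (𝓝[>] 0) (𝓝 0) := by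
    simpa using (Complex.continuous_ofReal.tendsto 0).mono_left nhdsWithin_le_nhds
  exact this.eventually h

/-- the wall is near the sheet in thin zones -/
theorem zone_small {fx : Fix I} {F : I → ℂ → ℂ} {hz : ℝ} {A B : Cv} {W : Wd I A.ι} {V : Wd I B.ι}
    (h : UPD.Two fx F hz A B W V) {η : ℝ} (hη : 0 < η) :
    ∀ᶠ t in 𝓝[>] (0 : ℝ), ∀ k, ∀ z ∈ W.zn A t k, ‖F (W.cp k) z - (A.e k).w z‖ ≤ η := by
  refine eventually_all.2 fun k => ?_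
  have : {y : E | ‖y.2 - (A.e k).w y.1‖ < η} ∈ 𝓝ˢ (cg (A.e k) (W.pr k)) := by
    refine mem_nhdsSet_iff_forall.2 fun y hy => ?_
    have c : ContinuousAt (A.e k).w y.1 := (h.sA.an k _ (h.ct_zn k h.pos.le hy.1)).continuousAt
    have c2 : ContinuousAt (fun y : E => ‖y.2 - (A.e k).w y.1‖) y :=
      (continuousAt_snd.sub (c.comp continuousAt_fst)).norm
    exact c2.eventually_lt continuousAt_const (by simpa [hy.2] using hη)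
  filter_upwards [h.zone_nhds k this, self_mem_nhdsWithin] with t a b z c
  exact le_of_lt (a z c _ (by rw [sub_self, norm_zero]; exact le_of_lt b))

theorem zone_thick {fx : Fix I} {σ : Conf I} (h : Pre fx σ) {ρ : ℝ} (hρ : 0 < ρ) :
    ∀ᶠ t in 𝓝[>] (0 : ℝ), ∀ κ, ∀ z ∈ σ.Z t κ, (z, σ.F (σ.cp κ) z) ∈ thickening ρ σ.A := by
  have T := UPD.two h
  have N : ∀ Y ⊆ σ.A, thickening ρ σ.A ∈ 𝓝ˢ Y := fun Y a =>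
    isOpen_thickening.mem_nhdsSet.2 (a.trans (self_subset_thickening hρ _))
  filter_upwards [eventually_all.2 fun k => T.zone_nhds k (N _ ((T.cg_sub k).trans
    subset_union_left)), eventually_all.2 fun k => T.symm.zone_nhds k (N _ ((T.symm.cg_sub k).trans
    subset_union_right)), self_mem_nhdsWithin] with t a b c
  have e : ∀ v : ℂ, ‖v - v‖ ≤ t := fun v => by rw [sub_self, norm_zero]; exact le_of_lt c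
  rintro (k | k) z hz
  · exact a k z hz _ (e _)
  · exact b k z hz _ (e _)

theorem siteOK {C K : Cv} {G q : E → ℂ} {l : End} {d1 : ℂ → ℂ} {U : Set ℂ} {D Y : Set E}
    {e τ h r1 r2 Cu Λ0 κ κ1 κ0 θ θ' θ1 Dp : ℝ} (hθ : θ ≤ θ')
    (H : EndS l (vS C K G q) d1 e U D τ h r1 r2 Cu Λ0 κ κ1 κ0 θ θ1 Dp)
    (h1 : ∀ z ∈ l.near h r1, l.side z → (z, l.w z) ∈ Y) (h2 : ∀ z ∈ U, (z, l.w z + e * d1 z) ∈ Y) :
    SiteOK C.P K.P G q l D Y e τ h r1 r2 Cu Λ0 κ κ1 κ0 θ' θ1 Dp := by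
  refine ⟨fun lv a b => H.b1 lv a ((mul_le_mul_of_nonneg_right hθ (sq_nonneg e)).trans b),
    fun a thr b c => H.b2 a thr b c, fun a y b c => ?_⟩
  rcases H.zr (fun y b c => (a y b c).le) y b c with f | f
  · rw [show y = (y.1, l.w y.1) from Prod.ext rfl f.1]; exact h1 _ c f.2
  · rw [show y = (y.1, l.w y.1 + e * d1 y.1) from Prod.ext rfl f.2]; exact h2 _ f.1

end SPL

end Pool.Agent.S6
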