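import Pool.Agent.Lib.S6.SplCore

/-!
Section 6 of the project 9ccfb7: the split of a fixed configuration.
-/

open Set Filter Topology Metric
open scoped ContDiff

noncomputable section

namespace Pool.Agent.S6

open Pool.Agent.CF (End Kind IsCurve Geo SLH Cv Priv SheetFam)
open Pool.Agent.Lib

namespace SPL

variable {I J J0 : Type}

open Classical in
theorem adj_junk (W : Cv) (y : ℝ) (t : W.ι → ℝ) (j : W.ι) :
    (W.e j).adj y (if (W.e j).k = Kind.pt then t j else 0) = (W.e j).adj y (t j) := by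
  by_cases h : (W.e j).k = Kind.pt
  · rw [if_pos h]
  · rw [End.adj_loop h, End.adj_loop h]

theorem ev_priv {A B : Cv} (hA : IsCurve A.P A.Γ A.e) (hB : IsCompact B.Γ) {p : ℂ} {ρ : ℝ}
    {w : ℂ → ℂ} (h0 : 0 ≤ ρ) (h : Priv A B p ρ w) :
    ∀ᶠ y in 𝓝[>] (0 : ℝ), Priv A B p (ρ * Real.exp y) w := by
  obtain ⟨⟨ρ', a, b⟩, -⟩ := CF.st_privo A B p ρ w hA hB h0 h
  have c : ContinuousAt (fun y : ℝ => ρ * Real.exp y) 0 := by fun_prop
  filter_upwards [nhdsWithin_le_nhds (c.eventually_lt continuousAt_const (by simpa using a))]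
    with y d using CF.PRIVO.mono b d.le

theorem core (hKP : St_KPAR) (hKM : St_KMOD) (hKR : St_KREL) (hKF : St_KFIT) (hIS : St_ISO)
    (hNF : St_NEWF) (hGW : St_GENW) (hAK : St_ADDK) (hSG : St_SPLG2) (hSV : St_SERVE)
    [Fintype I] [Fintype J] [Fintype J0] {ab : Ab} (ok : ab.OK) {fx : Fix I} (fok : fx.OK)
    {σ : Conf I} (good : Good fx σ) {π' : Type} [Fintype π'] {x' : π' → ℂ} (pos : Pos σ.C x')
    {G q : E → ℂ} {Nd' : Finset E} {Sg Sig SigB : Finset ℂ} {r' h' : ℝ}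
    (sin : SIn σ.C σ.K σ.Nd Nd' G q Sg r' h')
    (hlam : ∀ k, σ.C.lam k = σ.C.sec σ.K G q (σ.C.e k)) {sp : Sp J} {fd : FD J σ.K.ι}
    (fit : Fit ab.L ab.Cw σ.K σ.WK.pr sp fd) (all : ∀ k, fd.site k)
    (geom : Geom σ.K.P σ.K.Γ sp Sig) (sig : ∀ y ∈ σ.Nd, y.1 ∈ Sig) (gain : fd.gain ≤ fd.gsum fd.U)
    (ne : ∀ j, ∀ z ∈ (sp.l j).near sp.h sp.r1,
      G (z, (sp.l j).w z) ≠ 0 ∧ σ.C.P (z, (sp.l j).w z) ≠ 0)
    {sb : Sp J0} {p0 : σ.C.ι → J0} (geob : Geom σ.C.P σ.C.Γ sb SigB)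
    (cin : CIn σ.C r' h' sb.l sb.h sb.r1 p0)
    (neb : ∀ j, ∀ z ∈ (sb.l j).near sb.h sb.r1, σ.K.P (z, (sb.l j).w z) ≠ 0)
    (small : ∀ k, (σ.C.e k).k = Kind.pt → 2 * σ.WC.pr k ≤ r') {pr : σ.C.ι → ℝ}
    (hpr : ∀ j, (σ.C.e j).k = Kind.pt → 0 < pr j ∧ pr j ≤ σ.WC.pr j) {Zf : ℝ → ℝ → J0 → Set ℂ}
    (cut : ∀ y, 0 < y → y ≤ h' → y ≤ 1 / 2 → CutQ σ Zf sb.l p0 r' h' y)
    (out : ∀ t, 0 < t → t ≤ 1 / 3 → ∀ k, ∀ z ∈ σ.WC.zn σ.C (3 * t) k,
      z ∈ (sb.l (p0 k)).near sb.h sb.r1 → z ∉ Zf (-(3 * t)) (-1 / 2) (p0 k) →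
      ∃ k', (σ.C.e k').k = Kind.pt ∧ z ∈ closedBall (σ.C.e k').c (σ.WC.pr k'))
    {κ κ1 κ0 : J0 → ℝ} {θ θ' θ1 Dp : ℝ} (hθ : θ ≤ θ')
    (site : SiteQ fx σ π' x' ab.L G q sb p0 Zf pr κ κ1 κ0 θ θ1 Dp)
    (cert : CertQ fx σ G q sb sp κ κ1 κ0 θ' θ1 Dp) (kk : ℕ) {ε : ℝ} (hε : 0 < ε) :
    ∀ᶠ δ' in 𝓝[>] (0 : ℝ), ∃ (e y2 : ℝ) (dC : σ.C.ι → ℂ × ℂ → ℂ) (d : J → ℂ × ℂ → ℂ)
      (p : σ.K.ι → J) (Γe : ℂ → Set E) (lA M : σ.C.ι → ℂ → ℂ) (MK : σ.K.ι → ℂ → ℂ)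
      (EA : σ.C.ι → ℝ → ℝ) (Ef : σ.C.ι ⊕ π' → ℝ → ℝ) (hz' : ℝ) (sd : π' → ℂ) (τ' : ℝ) (T0 : Set E),
      0 < e ∧ Γe e ⊆ thickening ε σ.A ∧
      MP_9ccfb7_an.Close kk ε σ.F (newF σ M MK) fx.R fx.R ∧ KPar σ.K σ.WK.pr sp fd p ∧
      Ctx fx ab.L ab.Cw
        (postG σ G q y2 dC (fun k => d (p k)) Γe e lA Nd' π' x' ab.L δ' M MK EA pr Ef hz' sd)
        (sp.setW (shW sp d e)) (fd.inr σ.C.ι) τ' T0 := by
  classical
  have pre := good.pre
  have alg := pre.alg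
  have T := UPD.two pre
  have cC := alg.hC.curve
  have cK := alg.hK.curve
  have L10 : 10 ≤ ab.L := by linarith [ok.num.1]
  have cw := ok.num.2.2.2.2.2.2.2.2
  have prK : ∀ k, (σ.K.e k).k = Kind.pt → 0 < σ.WK.pr k := fun k a => (pre.wall.K.port k a).1
  have prC : ∀ k, (σ.C.e k).k = Kind.pt → 0 < σ.WC.pr k := fun k a => (pre.wall.C.port k a).1
  obtain ⟨p, kp⟩ := hKP J _ _ σ.K σ.WK.pr sp fd L10 cw fit all alg.hK.out cK.ok prK
  have ctn : ∀ k, ct (σ.K.e k) (σ.WK.pr k) ⊆ (sp.l (p k)).near sp.h sp.r1 := fun k =>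
    (kp.ct k).2.1.trans (kp.ct k).2.2
  obtain ⟨d, fam, s0, hs0, τ1, hτ1, HG⟩ := hSG J J0 σ.C σ.K σ.Nd Nd' _ _ _ G q Sg Sig r' h' sb.h
    sb.r1 sp fd.m p sb.l p0 alg sin
    ⟨geom, sig, kp.eq, fun k => ⟨kp.w k, (kp.ct k).1.trans (ctn k), kp.loop k⟩, ne⟩ cin
  obtain ⟨τ0, hτ0, HC⟩ := cert
  obtain ⟨ρz, hρz, HQ⟩ := st_pcs I fx σ fok good
  obtain ⟨clT, τI, hτI, HI⟩ := hIS J0 _ _ σ.K.Γ sb SigB geob cK.cpt
    fun j z a b => neb j z a (cK.zero _ b)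
  obtain ⟨τ, hτ, τa, τb⟩ : ∃ τ > 0, τ ≤ τ0 ∧ τ ≤ τI :=
    ⟨min τ0 τI, lt_min hτ0 hτI, min_le_left _ _, min_le_right _ _⟩
  replace HI := HI τ τb
  obtain ⟨τz, hτz, HZ⟩ := st_zone2.1 J _ _ σ.K σ.WK.pr sp fd Sig σ.C.Γ L10 cw geom fit all
    alg.hK.out prK cC.cpt fun y a b => sig y (alg.nodal.left y a b)
  have evK : ∀ᶠ t in 𝓝[>] (0 : ℝ), ∀ k, σ.WK.zn σ.K t k ⊆ (sp.l (p k)).near sp.h sp.r1 := by
    refine eventually_all.2 fun k => ?_
    obtain ⟨u, a, b⟩ := UPD.zn_shrink (cK.ok k) (fun a => (prK k a).le) (k = σ.K.H)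
      (mem_of_superset ((End.isOpen_nearO (geom.curve.ok (p k)) _ _).mem_nhdsSet.2 (kp.ct k).2.1)
        (kp.ct k).2.2)
    exact (ev_le a).mono fun t c => b t c.2
  obtain ⟨t0, ht0, Ht⟩ := ev_Ioc ((hKM I fx σ (fun k => d (p k)) pre
    fun k => (fam (p k)).1.mono (prod_mono (ctn k) Subset.rfl)).and
    ((ev_three (zone_thick pre hρz)).and
    ((ev_three (zone_small T.symm (show 0 < τ1 / 3 by positivity))).and
    ((ev_three evK).and (ev_le (show (0 : ℝ) < 1 / 3 by norm_num))))))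
  obtain ⟨t, η0, dC, ht, tt0, thz, hη0, famC, znC, HS⟩ := site τ hτ
    (fun j y a b => a.elim (HI j y b).2 fun c => absurd c (HI j y b).1) t0 ht0
  obtain ⟨km, thick, smK, nearK, -, t3⟩ := Ht t ht tt0
  obtain ⟨Rk, hRk, a, ha, HR⟩ := hKR I J fx σ sp fd p τz pre kp (HZ τz hτz le_rfl).2 t ht
  obtain ⟨τ', hτ', τc, τd, τe, τf⟩ : ∃ τ' > 0, τ' ≤ τ0 ∧ τ' ≤ τ1 ∧ τ' ≤ τz ∧ τ' ≤ Rk :=
    ⟨min (min τ0 τ1) (min τz Rk), by positivity, (min_le_left _ _).trans (min_le_left _ _),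
      (min_le_left _ _).trans (min_le_right _ _), (min_le_right _ _).trans (min_le_left _ _),
      (min_le_right _ _).trans (min_le_right _ _)⟩
  have zone := (HZ τ' hτ' τe).2
  obtain ⟨ηs, hηs, HH⟩ := shear2 (hSV ab ok I J fx σ.F σ.hz σ.K σ.C σ.WK σ.A sp fd τ'
    pre.wall.smooth pre.wall.gap pre.wall.hz.1 pre.wall.K cK.ok alg.hK.out pre.cA fit zone gain)
    (PCS.isCompact_S fx T.cont).isClosed pre.cA.isClosed geom.curve.ok geom.geo.hpos.le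
    (fun j => (zone.an j).continuousOn) (fun j y a b => (zone.iso j y a b).2) ha
  obtain ⟨R, hR, HC⟩ := HC τ τ' hτ τa hτ' τc
  obtain ⟨Rz, hRz, HG⟩ := HG τ τ' hτ hτ' τd
  obtain ⟨R0, hR0, r1, r2, r3, r4⟩ : ∃ R0 > 0, R0 ≤ R ∧ R0 ≤ η0 ∧ R0 ≤ Rz ∧ R0 ≤ ηs :=
    ⟨min (min R η0) (min Rz ηs), by positivity, (min_le_left _ _).trans (min_le_left _ _),
      (min_le_left _ _).trans (min_le_right _ _), (min_le_right _ _).trans (min_le_left _ _),
      (min_le_right _ _).trans (min_le_right _ _)⟩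
  obtain ⟨ηP, hηP, HQ⟩ := HQ R0 hR0
  have t3p : 0 < 3 * t := by positivity
  obtain ⟨ρ0, hρ0, H0⟩ := (show Disjoint σ.K.Γ (⋃ j, sb.T τ j) from disjoint_left.2 fun y a b => by
    obtain ⟨j, c⟩ := mem_iUnion.1 b
    exact (HI j y c).1 a).exists_cthickenings cK.cpt (clT τ)
  obtain ⟨μ, ⟨HW, Hg⟩, ⟨hμ, m1⟩, ⟨-, m2⟩, ⟨-, m3⟩, ⟨-, m4⟩, ⟨-, m5⟩, -, m6⟩ :=
    (((wall_gen pre t3p).and (UPD.gap_persist fx T.cont T.gap)).and ((ev_le hε).and
      ((ev_le hηP).and ((ev_le (half_pos hR0)).and ((ev_le hRk).and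
      ((ev_le (show 0 < τ1 / 3 by positivity)).and (ev_le hρ0))))))).exists
  obtain ⟨ε1, hε1, n1⟩ : ∃ ε1 > 0, ((Fintype.card σ.C.ι : ℝ) + Fintype.card σ.K.ι) * ε1 ≤ μ := by
    refine ⟨μ / ((Fintype.card σ.C.ι : ℝ) + Fintype.card σ.K.ι + 1), by positivity, ?_⟩
    rw [← mul_div_assoc, div_le_iff₀ (by positivity)]
    nlinarith
  obtain ⟨y2, HS, ⟨hy, y1⟩, ⟨-, y3⟩, ⟨-, y4⟩, y5⟩ := ((HS (max kk 1) ε1 hε1).and ((ev_le hs0).and
    ((ev_le sin.geo.hpos).and ((ev_le (show (0 : ℝ) < 1 / 2 by norm_num)).and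
    (eventually_all.2 fun k : {k // (σ.C.e k).k = Kind.pt} => ev_priv cC cK.cpt (prC k k.2).le
      (pre.wall.C.port k k.2).2.1))))).exists
  have cq := cut y2 hy y3 y4
  have ey : Real.exp y2 ≤ 2 := by
    have := Real.exp_one_lt_d9
    have := Real.exp_le_exp.2 y4
    have e2 : Real.exp (1 / 2) * Real.exp (1 / 2) = Real.exp 1 := by rw [← Real.exp_add]; norm_num
    nlinarith [Real.exp_pos (1 / 2)]
  have famA : ∀ k, SheetFam (σ.C.pA σ.K G q) (σ.C.e k).w (aE σ.C σ.WC y2 k).circ (dC (p0 k)) :=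
    fun k => (cin.par k).1 ▸ (famC (p0 k)).mono
      ((cq.circ k).trans (cq.mono _ _ _ (by linarith) (by linarith)))
  obtain ⟨Γe, G1, G2, G3, G4, G5⟩ := HG (fun _ => y2)
    (fun k => if (σ.C.e k).k = Kind.pt then σ.WC.pr k * Real.exp y2 else 0) (fun k => dC (p0 k))
    ⟨fun k => ⟨hy, y1, by
      split_ifs with c
      · nlinarith [small k c, prC k c]
      · exact sin.geo.r1pos.le⟩,
    fun k c => by
      rw [if_pos c]
      exact ⟨mul_pos (prC k c) (Real.exp_pos _), y5 ⟨k, c⟩⟩,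
    fun k => by rw [adj_junk σ.C y2 fun k => σ.WC.pr k * Real.exp y2]; exact famA k⟩
  have eA : ∀ e : ℝ, splA σ.C σ.K G q (fun _ => y2)
      (fun k => if (σ.C.e k).k = Kind.pt then σ.WC.pr k * Real.exp y2 else 0) (fun k => dC (p0 k))
      (fun k => d (p k)) Γe e = splA σ.C σ.K G q (fun _ => y2) (fun k => σ.WC.pr k * Real.exp y2)
      (fun k => dC (p0 k)) (fun k => d (p k)) Γe e := fun e => by
    unfold splA Cv.split Cv.ee
    simp only [adj_junk σ.C y2 fun k => σ.WC.pr k * Real.exp y2]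
  have eC : σ.C.cut (fun _ => y2)
      (fun k => if (σ.C.e k).k = Kind.pt then σ.WC.pr k * Real.exp y2 else 0) r' h' =
      σ.C.cut (fun _ => y2) (fun k => σ.WC.pr k * Real.exp y2) r' h' := by
    unfold Cv.cut
    simp only [adj_junk σ.C y2 fun k => σ.WC.pr k * Real.exp y2]
  simp only [eA, eC, adj_junk σ.C y2 fun k => σ.WC.pr k * Real.exp y2] at G1 G2 G3 G4 G5
  have hR' := HP.R_pos alg.hC
  have cs : σ.C.cut (fun _ => y2) (fun k => σ.WC.pr k * Real.exp y2) r' h' ⊆ σ.C.Γ :=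
    sin.geo.cut_subset cC fun _ _ => hy.le
  filter_upwards [HS, HP.wins alg.hC alg.hK pos, HP.win_nhds hR'
    ((End.isOpen_ann hR' (isOpen_Ioo (a := -y2) (b := y2))).mem_nhdsSet.2
      fun z a => ⟨((End.mem_circ hR').1 a).1, by
        rw [((End.mem_circ hR').1 a).2]; exact ⟨by linarith, hy⟩⟩)] with δ' HS win wn
  obtain ⟨e, ⟨⟨he, e0⟩, ⟨algA, so, iso1⟩, ⟨cl1, cl2⟩, pK, pC, pW⟩, sout, ⟨MK, km⟩, sA,
      M, Ef, EA, lA, hz', sd, sw, HE⟩ :=
    (((ev_le hR).and (G1.and ((G2 μ hμ).and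
      ((eventually_all.2 fun k : {k // (σ.K.e k).k = Kind.pt} => G3 k _
        (pre.wall.K.port k k.2).2.1 (UPD.ct_pt k.2 (σ.WK.pr k) ▸ ctn k)).and
      ((eventually_all.2 fun k : {k // (σ.C.e k).k = Kind.pt} => G4 _ _ _
        (pre.wall.C.port k k.2).2.1 (cq.port k k.2)).and
      (eventually_all.2 fun k => G4 _ _ _ (win.priv k) (cq.ring _ _ (fun z a => wn _ z (pos.2 k).1
        (HP.win_in hR' (pos.2 k).1 win.pos.1 win.pos.2 (mem_closedBall_iff_norm.1 a)).2)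
        (win.priv k)))))))).and
      ((eventually_all.2 fun j => G5 _ (dC j) _ (cq.cpt j)
        ((famC j).mono (cq.mono _ _ _ (by linarith) (by linarith))) (cq.mem j)
        fun k z a b c => Eventually.of_forall (cq.side j k z a b c)).and
      ((km (max kk 1) ε1 hε1).and
      ((eventually_all.2 fun k => ev_real (CF.eventually_small (End.isCompact_circ _)
        (fun z a => ((famA k).1 (z, 0) ⟨a, rfl⟩).continuousAt) hτ1)).and HS)))).exists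
  obtain ⟨f1, f2, f3, f4, f5⟩ := hNF I fx σ M MK t (max kk 1) ε1 pre ht (by linarith) hε1.le
    sw.small km.small sw.supp km.off
  replace f2 := f2.mono le_rfl n1
  have f0 : ∀ i, ∀ z ∈ fx.dom i, ‖newF σ M MK i z - σ.F i z‖ ≤ μ := fun i z _ => close_le f2 i z
  have md : ∀ i, ∀ z ∈ fx.dom i, newF σ M MK i z ≠ σ.F i z →
      (z, σ.F i z) ∈ thickening ρz σ.A := fun i z b c => by
    by_contra g
    exact c (f5 i z b fun κ u v => g (u ▸ thick κ z v)).self_of_nhds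
  obtain ⟨s1, s2, s3, s4⟩ := HQ (newF σ M MK) (Γe e ∪ σ.C.Γ) f1
    (f2.mono (le_max_right _ _) m2) md
  obtain ⟨k1, -, -, -, -, k6, k7⟩ := hKF J J0 ab.L ab.Cw σ.C σ.K σ.WK.pr sp fd p G q (fun _ => y2)
    (fun k => σ.WC.pr k * Real.exp y2) (fun k => dC (p0 k)) d Γe e lA fit kp
  have gsub : Γe e ⊆ thickening μ σ.A :=
    cl1.trans (thickening_subset_of_subset _ (union_subset_union_left _ cs))
  have gen := hGW I fx σ G q y2 (fun k => dC (p0 k)) (fun k => d (p k)) Γe e lA Nd' π' x' ab.L δ' M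
    MK EA pr Ef hz' sd _ t τ _ ε1 pre ht thz hε1.le sw km algA.hC.curve
    (fun k z b => ⟨fun c v g => by
        obtain ⟨k', u, w⟩ := out t ht t3 k z b (znC k b) c
        exact (pC ⟨k', u⟩).none _ g w,
      fun v c g => (cin.par k).1 ▸ ((HI (p0 k) (z, v) ⟨znC k b, (cin.par k).1 ▸ c⟩).2 g).1⟩)
    (fun k z b => by
      have c := nearK k b
      have g := iso1 (p k) (z, newF σ M MK (σ.WK.cp k) z) ⟨c, by
        have u1 := f0 _ z (pre.wall.K.dom k (UPD.zn_le (UPD.endW pre.wall.K k) (by linarith) b))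
        have u2 := smK k z b
        have u3 := cl2 (p k) z c
        rw [kp.w k] at u2
        have u4 := norm_sub_le_norm_sub_add_norm_sub (newF σ M MK (σ.WK.cp k) z)
          (σ.F (σ.WK.cp k) z) (shW sp d e (p k) z)
        have u5 := norm_sub_le_norm_sub_add_norm_sub (σ.F (σ.WK.cp k) z) ((sp.l (p k)).w z)
          (shW sp d e (p k) z)
        rw [norm_sub_rev] at u3
        show ‖newF σ M MK (σ.WK.cp k) z - shW sp d e (p k) z‖ ≤ τ1
        linarith⟩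
      rw [kp.w k]
      exact ⟨so.an (p k) z c, g⟩)
    (fun k c => pK ⟨k, c⟩)
    (fun k c => ⟨(hpr k c).1, CF.PRIVO.mono (pC ⟨k, c⟩) (hpr k c).2⟩)
    (HP.bpr_le hR' win.pos.1 L10).1
    (fun k => CF.PRIVO.mono (pW k) (HP.bpr_le hR' win.pos.1 L10).2.1) (Hg _ f0) s3
  have pre' : Pre fx (postG σ G q y2 (fun k => dC (p0 k)) (fun k => d (p k)) Γe e lA Nd' π' x' ab.L
      δ' M MK EA pr Ef hz' sd) := by
    refine ⟨hAK σ.C _ _ _ _ _ π' x' δ' ⟨win.pos, fun k => UPD.priv_mono (pW k) le_rfl rfl rfl rfl rfl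
      Subset.rfl rfl rfl, win.good⟩ (CF.all_rota _ _ _ _ _ _ _ algA ?_) pos,
      HW _ _ _ (union_subset ?_ ?_) f0 gen⟩
    · rintro (k | k)
      · have u := sw.same k
        rw [hlam k] at u
        exact u
      · obtain ⟨n, u, -⟩ := algA.hC.lam (Sum.inr k)
        exact ⟨n, u, u⟩
    · refine (gsub.trans (thickening_subset_cthickening _ _)).trans ?_
      rw [Conf.A, cthickening_union]
    · exact (self_subset_cthickening _).trans subset_union_left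
  have U : ∀ X Y : Set E, Std X Y → Y ⊆ cthickening R (fx.S σ.F) →
      Y ∩ (⋃ j, sb.T τ j) = fx.S (newF σ M MK) ∩ (⋃ j, sb.T τ j) → X \ Y ⊆ cthickening R0 σ.A →
      Γe e ⊆ X → (∀ j, (sp.setW (shW sp d e)).End1 (X \ Y) τ' j) → X ⊆ Y ∪ (Γe e ∪ σ.C.Γ) :=
    fun X Y u1 u2 u3 u4 u5 u6 => HC e (shW sp d e) (Γe e) X Y he e0
      (fun j z b => ⟨by linarith [cl2 j z b], so.mem j z b⟩) u1 u2
      (u4.trans (cthickening_mono r1 _))
      (fun y b c g => so.zer y (cthickening_mono r3 _ (u4 ⟨b, c⟩)) g)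
      (fun j => siteOK hθ (HE _ (fun i z b => by linarith [f0 i z b])
        (fun k z b => (f3 k z b).self_of_nhds) X Y u1 (u4.trans (cthickening_mono r2 _)) j
        (by
          have v := congrArg (· ∩ sb.T τ j) u3
          simpa only [inter_assoc, inter_eq_right.2 (subset_iUnion (sb.T τ) j)] using v)
        fun z b => u5 (sout j z b))
        (fun z b c => Or.inr ((geob.geo.mem j (End.near_mono _ (by linarith [geob.geo.hpos])
          (by linarith [geob.geo.r1pos]) b)).2 c)) fun z b => Or.inl (sout j z b)) u6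
  have inh := st_inh I fx _ fok pre'
  refine ⟨e, y2, _, d, p, Γe, lA, M, MK, EA, Ef, hz', sd, τ', ⋃ j, sb.T τ j, he,
    gsub.trans (thickening_mono m1 _), f2.mono (le_max_left _ _) m1, kp, ⟨pre', s4 inh ?_⟩, k1,
    k7 _ _ _ _ _ _ _ hτ' so (fun i j z b c g => ?_) fun i b => mul_pos (prC i b) (Real.exp_pos _),
    ⟨R0 / 2, half_pos hR0, fun X Y u1 u2 u3 u4 u5 u6 => U X Y u1 (u2.trans ?_) u3 (u4.trans ?_)
      (subset_union_left.trans u5) u6⟩, clT τ, fun k b => ?_⟩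
  · refine U _ _ s1 ((PCS.S_near f0).trans (cthickening_mono (by linarith) _)) rfl s2
      (subset_union_left.trans inh) fun j => HH J (sp.setW (shW sp d e)) j j (shW sp d e j)
      rfl rfl rfl rfl rfl rfl rfl rfl
      (fun z b => ⟨by linarith [cl2 j z b], fun _ => (so.an j z b).sub (zone.an j z b)⟩) _ _ s1
      (s2.trans (cthickening_mono r4 _)) fun y b c => ?_
    refine HR (newF σ M MK) (fun j z => shW sp d e j z - (sp.l j).w z)
      (fun i z g => (f0 i z g).trans m4) (fun j z g => (cl2 j z g).trans m4) (fun k z g => ?_) j y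
      ⟨b.1, b.2.trans τf⟩ c
    rw [(f4 k z (UPD.zn_le (UPD.endW pre.wall.K k) (by linarith) g)).self_of_nhds, km.eq k z g]
    simp [shW]
  · refine (iso1 j (z, (σ.C.e i).w z) ⟨b, ?_⟩).1 (cs ?_)
    · show ‖(σ.C.e i).w z - shW sp d e j z‖ ≤ τ1
      rw [g, sub_add_cancel_left, norm_neg]
      exact (sA i z c).le
    · rw [(cin.par i).1]
      exact (cq.mem _ z (cq.circ i c)).2
  · refine (cthickening_subset_of_subset _ (PCS.S_near f0)).trans
      ((cthickening_cthickening_subset (half_pos hR0).le hμ.le _).trans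
        (cthickening_mono (by linarith) _))
  · refine (cthickening_subset_of_subset _ (union_subset
      (gsub.trans (thickening_subset_cthickening _ _))
      (subset_union_left.trans (self_subset_cthickening _)))).trans
      ((cthickening_cthickening_subset (half_pos hR0).le hμ.le _).trans
        (cthickening_mono (by linarith) _))
  · obtain ⟨k, rfl⟩ := (k6 k).1 b
    refine disjoint_left.2 fun y c g => disjoint_left.1 H0 ?_ (self_subset_cthickening _ g)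
    have c1 : y.1 ∈ ct (σ.K.e k) (σ.WK.pr k) := c.1
    have c2 : y.2 = (σ.K.e k).w y.1 + e * d (p k) (y.1, e) := c.2
    refine mem_cthickening_of_dist_le y (y.1, (σ.K.e k).w y.1) _ _
      (T.symm.cg_sub k ⟨c1, rfl⟩) ?_
    have u := cl2 (p k) y.1 (ctn k c1)
    rw [show y = (y.1, y.2) from rfl, PCS.dist_gr, c2, kp.w k]
    exact u.trans m6

end SPL

end Pool.Agent.S6
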