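import Pool.Agent.Lib.S6.SplitB

/-! Perturbed sheets and the curve of the split. -/

open Set Filter Topology Metric

noncomputable section

namespace Pool.Agent.S6.SPLG

open Pool.Agent.CF (End Kind IsCurve SheetFam SplitOut)

theorem contAt {w : ℂ → ℂ} {d : ℂ × ℂ → ℂ} {z : ℂ} (hw : ContinuousAt w z)
    (hd : ContinuousAt d (z, 0)) {O : Set E} (hO : O ∈ 𝓝 ((z, w z) : E)) :
    ∀ᶠ p : ℂ × ℂ in 𝓝 z ×ˢ 𝓝 0, ((p.1, w p.1 + p.2 * d p) : E) ∈ O := by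
  have a : ContinuousAt (fun p : ℂ × ℂ => ((p.1, w p.1 + p.2 * d p) : E)) (z, 0) :=
    continuousAt_fst.prodMk ((ContinuousAt.comp (g := w) (f := Prod.fst) hw continuousAt_fst).add
      (continuousAt_snd.mul hd))
  rw [← nhds_prod_eq]
  exact a.preimage_mem_nhds (by simpa using hO)

/-- the perturbed graphs over a neighbourhood of `Z` stay in `O` -/
theorem tube_gr {w : ℂ → ℂ} {d : ℂ × ℂ → ℂ} {Z : Set ℂ} (hZ : IsCompact Z)
    (hw : ∀ z ∈ Z, ContinuousAt w z) (hd : ∀ z ∈ Z, ContinuousAt d (z, 0)) {O : Set E}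
    (hO : ∀ z ∈ Z, O ∈ 𝓝 ((z, w z) : E)) :
    ∃ N ∈ 𝓝ˢ Z, ∀ᶠ ε in 𝓝 (0 : ℂ), ∀ z ∈ N, ((z, w z + ε * d (z, ε)) : E) ∈ O := by
  obtain ⟨pa, a, pb, b, c⟩ := eventually_prod_iff.1
    (hZ.mem_nhdsSet_prod_of_forall fun z hz => contAt (hw z hz) (hd z hz) (hO z hz))
  exact ⟨_, a, b.mono fun ε hε z hz => c hz hε⟩

variable {ι : Type} [Fintype ι] {A : ℂ → E → ℂ} {Γ0 Br : Set E} {e : ι → End}
  {d : ι → ℂ × ℂ → ℂ} {Γε : ℂ → Set E}

/-- perturbed sheets on the curve side belong to the new curve -/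
theorem sout (hO : SplitOut A Γ0 Br e d Γε) (ho : ∀ j, (e j).ok)
    (hw : ∀ j, ∀ z ∈ (e j).circ, ContinuousAt (e j).w z ∧ ContinuousAt (d j) (z, 0))
    {w : ℂ → ℂ} {d' : ℂ × ℂ → ℂ} {U : Set ℂ} (hU : IsCompact U) (hf : SheetFam A w U d')
    (h1 : ∀ z ∈ U, ContinuousAt w z ∧ (z, w z) ∈ Γ0)
    (h2 : ∀ j, (e j).k ≠ Kind.pt → ∀ z ∈ U, z ∈ (e j).circ → w z = (e j).w z →
      ∀ᶠ z' in 𝓝 z, z' ∈ U → (e j).side z') :
    ∀ᶠ ε in 𝓝[≠] (0 : ℂ), ∀ z ∈ U, (z, w z + ε * d' (z, ε)) ∈ Γε ε := by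
  have hd : ∀ z ∈ U, ContinuousAt d' (z, 0) := fun z hz => (hf.1 (z, 0) ⟨hz, rfl⟩).continuousAt
  have key : ∀ j, ∀ᶠ p : ℝ × ℂ in 𝓝[>] (0 : ℝ) ×ˢ 𝓝 (0 : ℂ), (e j).k ≠ Kind.pt → ∀ z ∈ U,
      (z, w z + p.2 * d' (z, p.2)) ∉ ((e j).pert (d j) p.2).gr ((e j).ann (Ioo (-p.1) 0)) := by
    intro j
    by_cases hk : (e j).k = Kind.pt
    · exact Eventually.of_forall fun _ a => absurd hk a
    have : ∀ᶠ x : (ℝ × ℂ) × ℂ in (𝓝[>] (0 : ℝ) ×ˢ 𝓝 (0 : ℂ)) ×ˢ 𝓝ˢ U, x.2 ∈ U →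
        (x.2, w x.2 + x.1.2 * d' (x.2, x.1.2)) ∉
          ((e j).pert (d j) x.1.2).gr ((e j).ann (Ioo (-x.1.1) 0)) := by
      refine hU.mem_prod_nhdsSet_of_forall fun z hz => ?_
      by_cases c : z ∈ (e j).circ ∧ w z = (e j).w z
      · filter_upwards [tendsto_snd.eventually (h2 j hk z hz c.1 c.2)] with x a b f
        exact ((End.side_iff hk ((ho j).pos hk) f.1.1).1 (a b)).not_gt f.1.2.2
      · obtain ⟨O, V, o1, o2, o3, o4, o5⟩ := SeparatedNhds.of_isCompact_isCompact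
          (End.isCompact_gr (e j).isCompact_circ fun x hx => (hw j x hx).1.continuousWithinAt)
          (isCompact_singleton (x := ((z, w z) : E))) (disjoint_singleton_right.2 c)
        obtain ⟨N, n1, n2⟩ := tube_gr (e j).isCompact_circ (fun x hx => (hw j x hx).1)
          (fun x hx => (hw j x hx).2) fun x hx => o1.mem_nhds (o3 ⟨hx, rfl⟩)
        obtain ⟨δ, d1, d2⟩ := End.shrink (ho j) n1
        filter_upwards [(tendsto_fst.comp tendsto_fst).eventually (Ioo_mem_nhdsGT d1),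
          (tendsto_snd.comp tendsto_fst).eventually n2,
          (tendsto_snd.prodMk (tendsto_snd.comp tendsto_fst)).eventually
            (contAt (h1 z hz).1 (hd z hz) (o2.mem_nhds (o4 rfl)))] with x a b f _ g
        have m : x.2 ∈ N := d2 _ δ a.2.le le_rfl (by
          rw [End.near_loop hk]; exact ⟨g.1.1, g.1.2.1.le, g.1.2.2.le.trans a.1.le⟩)
        have g2 : w x.2 + x.1.2 * d' (x.2, x.1.2) = (e j).w x.2 + x.1.2 * d j (x.2, x.1.2) := g.2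
        exact disjoint_left.1 o5 (b _ m) (g2 ▸ f)
    filter_upwards [this.curry] with p a _ z hz using a.self_of_nhdsSet z hz hz
  obtain ⟨a, a0, a1⟩ := ((show ∀ᶠ a in 𝓝[>] (0 : ℝ), 0 < a from self_mem_nhdsWithin).and
    (eventually_all.2 key).curry).exists
  obtain ⟨R, r0, r1⟩ := hO.zer a a0
  obtain ⟨σ, s0, N, s1, s2⟩ := hf.sheet hU
  filter_upwards [r1, nhdsWithin_le_nhds a1, nhdsWithin_le_nhds s2,
    nhdsWithin_le_nhds (CF.eventually_small hU hd (lt_min r0 s0))] with ε b1 b2 b3 b4 z hz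
  obtain ⟨c1, c2⟩ := lt_min_iff.1 (b4 z hz)
  refine (b1 _ (mem_thickening_iff.2 ⟨(z, w z), (h1 z hz).2, ?_⟩)
    (((b3 z (subset_of_mem_nhdsSet s1 hz)).2 _ c2.le).2 rfl)).resolve_right
    fun ⟨j, f, g⟩ => b2 j f z hz g
  simpa [Prod.dist_eq, dist_eq_norm, r0] using c1

omit [Fintype ι] in
/-- the continuation of a sheet beyond its loop misses the curve -/
theorem clop {P : E → ℂ} {Γ : Set E} (hc : IsCurve P Γ e) {j : ι} (hk : (e j).k ≠ Kind.pt) {h : ℝ}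
    {w : ℂ → ℂ} (hw : ContinuousOn w ((e j).ann (Icc (-h) 0)))
    (h0 : ∀ z ∈ (e j).circ, w z = (e j).w z)
    (h1 : ∀ z ∈ (e j).ann (Ico (-h) 0), P (z, w z) = 0 ∧ (z, w z) ∉ CF.loops e) :
    ∀ z ∈ (e j).ann (Ico (-h) 0), (z, w z) ∉ Γ := by
  intro z hz hΓ
  have hr := (hc.ok j).pos hk
  have hh : -h < 0 := hz.2.1.trans_lt hz.2.2
  have sub : (e j).ann (Ico (-h) 0) ⊆ (e j).ann (Icc (-h) 0) := End.ann_mono Ico_subset_Icc_self
  have cf : ContinuousOn (fun z => ((z, w z) : E)) ((e j).ann (Icc (-h) 0)) :=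
    continuousOn_id.prodMk hw
  have all : ∀ x ∈ (e j).ann (Ico (-h) 0), (x, w x) ∈ Γ := by
    have pc := End.isPreconnected_ann (e := e j) hr (isPreconnected_Ico (a := -h) (b := 0))
    refine fun x hx => pc.induction₂' (fun a b => (a, w a) ∈ Γ → (b, w b) ∈ Γ) (fun a ha => ?_)
      (fun _ _ _ _ _ _ f g => g ∘ f) hz hx hΓ
    have c := (cf.mono sub) a ha
    by_cases m : (a, w a) ∈ Γ
    · filter_upwards [c.eventually (hc.int _ m (h1 a ha).2), self_mem_nhdsWithin] with b f g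
      exact ⟨fun _ => f (h1 b g).1, fun _ => m⟩
    · filter_upwards [c.eventually (hc.cpt.isClosed.isOpen_compl.mem_nhds m)] with b f
      exact ⟨fun g => absurd g m, fun g => absurd g f⟩
  have p1 : ∀ s : ℝ, (e j).c + (e j).rad s ∈ sphere (e j).c ((e j).rad s) := fun s => by
    simp [(End.rad_pos hr s).le]
  have p2 : (e j).c + (e j).rad 0 ∈ (e j).circ :=
    (End.mem_circ hr).2 ((End.mem_sphere_rad hr).1 (p1 0))
  have p3 : Tendsto (fun s : ℝ => (e j).c + (e j).rad s) (𝓝[<] 0)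
      (𝓝[(e j).ann (Icc (-h) 0)] ((e j).c + (e j).rad 0)) := by
    refine tendsto_nhdsWithin_iff.2 ⟨((continuous_const.add (Complex.continuous_ofReal.comp
      (e j).continuous_rad)).tendsto 0).mono_left nhdsWithin_le_nhds, ?_⟩
    filter_upwards [Ioo_mem_nhdsLT hh] with s hs
    exact End.sphere_subset_ann hr (Ioo_subset_Icc_self hs) (p1 s)
  have p4 := (cf _ (End.sphere_subset_ann hr (right_mem_Icc.2 hh.le) (p1 0))).tendsto.comp p3
  rw [h0 _ p2] at p4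
  obtain ⟨s, s1, s2⟩ := ((p4.eventually (hc.loc j _ p2)).and (Ioo_mem_nhdsLT hh)).exists
  have m := (End.mem_sphere_rad hr).1 (p1 s)
  have := (End.side_iff hk hr m.1).1
    (s1.1 (all _ (End.sphere_subset_ann hr (Ioo_subset_Ico_self s2) (p1 s)))).2
  exact (m.2 ▸ this).not_gt s2.2

omit [Fintype ι] in
theorem clop2 {P : E → ℂ} {Γ : Set E} (hc : IsCurve P Γ e) {j : ι} {l : End} {w : ℂ → ℂ}
    (hl : e j = l.setW w) (hk : l.k ≠ Kind.pt) {h : ℝ} (hw : ContinuousOn w (l.ann (Icc (-h) 0)))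
    (h1 : ∀ z ∈ l.ann (Ico (-h) 0), P (z, w z) = 0 ∧ (z, w z) ∉ CF.loops e) :
    ∀ z ∈ l.ann (Ico (-h) 0), (z, w z) ∉ Γ := by
  have := clop hc (j := j) (h := h) (w := w)
  rw [hl] at this
  exact this hk hw (fun _ _ => rfl) h1

theorem open_tube {U : Set ℂ} {w : ℂ → ℂ} (hU : IsOpen U) (hw : ContinuousOn w U) (τ : ℝ) :
    IsOpen {y : E | y.1 ∈ U ∧ ‖y.2 - w y.1‖ < τ} :=
  ((continuousOn_snd.sub (hw.comp continuousOn_fst fun _ a => a)).norm).isOpen_inter_preimage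
    (hU.preimage continuous_fst) isOpen_Iio

theorem closed_tube {U : Set ℂ} {w : ℂ → ℂ} (hU : IsClosed U) (hw : ContinuousOn w U) (τ : ℝ) :
    IsClosed {y : E | y.1 ∈ U ∧ ‖y.2 - w y.1‖ ≤ τ} :=
  ((continuousOn_snd.sub (hw.comp continuousOn_fst fun _ a => a)).norm).preimage_isClosed_of_isClosed
    (hU.preimage continuous_fst) isClosed_Iic

/-- thin tubes lie in a neighbourhood of the graph -/
theorem thin_tube {l : End} {U : Set ℂ} (hU : IsCompact U) (hw : ContinuousOn l.w U) {O : Set E}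
    (hO : ∀ y ∈ l.gr U, O ∈ 𝓝 y) :
    ∀ᶠ τ in 𝓝[>] (0 : ℝ), ∀ y : E, y.1 ∈ U → ‖y.2 - l.w y.1‖ ≤ τ → y ∈ O := by
  obtain ⟨η, a, b⟩ := CF.PB.thick (End.isCompact_gr hU hw) hO
  filter_upwards [Ioo_mem_nhdsGT a] with τ h y c f
  refine b y (mem_thickening_iff.2 ⟨(y.1, l.w y.1), ⟨c, rfl⟩, ?_⟩)
  rw [Prod.dist_eq, dist_self, dist_eq_norm]
  exact max_lt a (f.trans_lt h.2)

theorem ofReal_tendsto : Tendsto (fun e : ℝ => (e : ℂ)) (𝓝[>] 0) (𝓝[≠] 0) :=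
  tendsto_nhdsWithin_iff.2 ⟨(Complex.continuous_ofReal.tendsto' 0 0 rfl).mono_left
    nhdsWithin_le_nhds, eventually_nhdsWithin_of_forall fun _ h =>
      Complex.ofReal_ne_zero.2 (ne_of_gt h)⟩

omit [Fintype ι] in
/-- zeros of the pencil in a compact set whose limit zeros are inner points -/
theorem zer {F0 F1 : E → ℂ} (h0 : Continuous F0) (h1 : Continuous F1)
    (hO : SplitOut (CF.pen F0 F1) Γ0 Br e d Γε) {Y : Set E} (hY : IsCompact Y)
    (h : ∀ y ∈ Y, F0 y = 0 → y ∈ Γ0 \ CF.loops e) :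
    ∀ᶠ ε in 𝓝[≠] (0 : ℂ), ∀ y ∈ Y, CF.pen F0 F1 ε y = 0 → y ∈ Γε ε := by
  obtain ⟨R, r0, r1⟩ := hO.inner (Y ∩ {y | F0 y = 0})
    (hY.inter_right (isClosed_eq h0 continuous_const)) fun y hy => h y hy.1 hy.2
  have a : ∀ᶠ ε in 𝓝 (0 : ℂ), ∀ y ∈ Y \ thickening R (Y ∩ {y | F0 y = 0}),
      CF.pen F0 F1 ε y ≠ 0 := by
    refine (hY.diff isOpen_thickening).eventually_forall_of_forall_eventually fun y hy => ?_
    have b : Continuous fun p : ℂ × E => F0 p.2 - p.1 * F1 p.2 := by fun_prop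
    refine b.continuousAt.eventually_ne ?_
    simpa using fun c => hy.2 (self_subset_thickening r0 _ ⟨hy.1, c⟩)
  filter_upwards [r1, nhdsWithin_le_nhds a] with ε b c y hy f
  exact (b y (by_contra fun g => c y ⟨hy, g⟩ f) f).1

end Pool.Agent.S6.SPLG
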