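import Pool.Agent.Lib.S6.Blue3
import Pool.Agent.Lib.S6.BlueB

/-!
Section 6 of the project 9ccfb7: algebra and geometry of the split.
-/

open Set Filter Topology Metric
open scoped ContDiff

noncomputable section

namespace Pool.Agent.S6

open Pool.Agent.CF (End Kind IsCurve Geo SLH Cv Priv SheetFam)
open Pool.Agent.Lib

/-- the weights of the certificate of the split -/
def St_SPLW : Prop := ∀ (C K : Cv) (Nd : Finset E) (TC TK : ℤ) (D : ℕ) (a : ℂ) (Z : Finset E)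
  (q G : E → ℂ) (π : Type) [Fintype π] (x : π → ℂ), CF.Alg C K Nd TC TK D →
  Sec C K Nd TC a Z q G (Fintype.card π) → Pos C x →
  (∀ y ∈ Nd, qS C a q x 0 y ≠ 0) ∧
  (∀ y ∈ C.Γ, (gS C G x 0 y = 0 → y ∈ CF.ends C.e) ∧
    (qS C a q x 0 y = 0 → y ∈ Z ∨ y ∈ CF.ends C.e)) ∧
  (∀ η > (0 : ℝ), ∀ᶠ δ in 𝓝[>] (0 : ℝ), ∀ y ∈ C.Γ,
    ‖gS C G x δ y - gS C G x 0 y‖ ≤ η ∧ ‖qS C a q x δ y - qS C a q x 0 y‖ ≤ η) ∧
  ∃ h0 > (0 : ℝ), ∀ h r1 : ℝ, 0 < h → h ≤ h0 → 0 < r1 → r1 ≤ h0 →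
    ∃ (Λw : ℝ) (k kK : C.ι → ℝ), ∑ j, k j = 2 * Z.card - Nd.card ∧ ∑ j, kK j = Nd.card ∧
      (∀ j, LW (C.e j) h r1 (fun z => Real.log ‖(C.e j).res K.P z‖) (kK j) Λw) ∧
      ∀ᶠ δ in 𝓝[>] (0 : ℝ),
        (∀ j, LW (C.e j) h r1 (sF K.P (gS C G x δ) (qS C a q x δ) (C.e j)) (k j) Λw) ∧
        ∀ y ∈ C.Γ, gS C G x δ y = 0 → ∃ j, y ∈ (C.e j).gr ((C.e j).near h r1)

/-- the hypotheses of the split which do not depend on the cut -/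
structure SIn (W K : Cv) (Nd Nd' : Finset E) (G q : E → ℂ) (Sig : Finset ℂ) (r h : ℝ) : Prop where
  pG : CF.IsPoly G
  pq : CF.IsPoly q
  geo : Geo W.P W.Γ W.e Sig r h
  sig : CF.brv K.P K.Γ ⊆ Sig ∧ (∀ y ∈ Nd, y.1 ∈ Sig) ∧ ∀ y ∈ Nd', y.1 ∈ Sig
  gK : ∀ y ∈ K.Γ, G y ≠ 0
  gC : ∀ y ∈ W.Γ, G y = 0 → ∃ j, (W.e j).k = Kind.pt ∧ y = ((W.e j).c, (W.e j).w (W.e j).c)
  qz : CF.SimpleZ W.P q W.Γ W.e Nd'
  qn : ∀ y ∈ Nd, q y ≠ 0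
  qo : ∀ y ∈ Nd', ∀ j, y.1 ∉ (K.e j).circ
  dir : ∀ j, CF.SameW (W.e j) (W.lam j) (W.sec K G q (W.e j))

/-- the macro ends of `K`; `par k` is the macro end whose zone contains the end `k` -/
structure KIn {J : Type} (W K : Cv) (Nd : Finset E) (G : E → ℂ) (sp : Sp J) (Sig : Finset ℂ)
    (m : J → K.ι) (par : K.ι → J) : Prop where
  geom : Geom K.P K.Γ sp Sig
  sig : ∀ y ∈ Nd, y.1 ∈ Sig
  eq : ∀ j, sp.l j = K.e (m j) ∧ par (m j) = j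
  par : ∀ k, (K.e k).w = (sp.l (par k)).w ∧ (K.e k).circ ⊆ (sp.l (par k)).near sp.h sp.r1 ∧
    ((K.e k).k ≠ Kind.pt → k = m (par k))
  ne : ∀ j, ∀ z ∈ (sp.l j).near sp.h sp.r1,
    G (z, (sp.l j).w z) ≠ 0 ∧ W.P (z, (sp.l j).w z) ≠ 0

/-- the macro ends of `W` -/
structure CIn {J : Type} (W : Cv) (r h : ℝ) (l : J → End) (h0 r0 : ℝ) (par : W.ι → J) : Prop where
  ok : ∀ j, (l j).ok ∧ ContinuousOn (l j).w ((l j).near h0 r0)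
  par : ∀ i, (W.e i).w = (l (par i)).w ∧
    (W.e i).near (2 * h) (2 * r) ⊆ (l (par i)).nearO h0 r0

/-- admissible cuts -/
structure CutP (W K : Cv) (G q : E → ℂ) (r s0 : ℝ) (s t : W.ι → ℝ) (dC : W.ι → ℂ × ℂ → ℂ) :
    Prop where
  le : ∀ j, 0 < s j ∧ s j ≤ s0 ∧ t j ≤ r
  port : ∀ j, (W.e j).k = Kind.pt → 0 < t j ∧ Priv W K (W.e j).c (t j) (W.e j).w
  fam : ∀ j, SheetFam (W.pA K G q) (W.e j).w ((W.e j).adj (s j) (t j)).circ (dC j)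

/-- the new curve, with the secant as direction on the new loops -/
def splA (W K : Cv) (G q : E → ℂ) (s t : W.ι → ℝ) (dC : W.ι → ℂ × ℂ → ℂ) (dK : K.ι → ℂ × ℂ → ℂ)
    (Γe : ℂ → Set E) (e : ℝ) : Cv :=
  W.split K G q s t (Sum.elim dC dK) (fun j => W.sec K G q (W.e j)) Γe e

/-- the shifted sheets -/
def shW {J : Type} (sp : Sp J) (d : J → ℂ × ℂ → ℂ) (e : ℝ) (j : J) (z : ℂ) : ℂ :=
  (sp.l j).w z + e * d j (z, e)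

/-- the facts on the new curve `A` for one value `e` -/
structure SOut {J J0 : Type} (W K A : Cv) (P : E → ℂ) (sp : Sp J) (w : J → ℂ → ℂ) (l : J0 → End)
    (h0 r0 τ τ' R : ℝ) : Prop where
  an : ∀ j, AnalyticOnNhd ℂ (w j) ((sp.l j).near sp.h sp.r1)
  mem : ∀ j, ∀ z ∈ (sp.l j).near sp.h sp.r1,
    P (z, w j z) = 0 ∧ ((sp.l j).side z → (z, w j z) ∈ A.Γ)
  iso : ∀ j, ∀ y ∈ (sp.setW w).T τ' j,
    y ∉ W.Γ ∧ (y ∈ A.Γ → y.2 = w j y.1 ∧ (sp.l j).side y.1)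
  sep : ∀ j j', j ≠ j' → Disjoint ((sp.setW w).T τ' j) ((sp.setW w).T τ' j')
  zer : ∀ y ∈ cthickening R (W.Γ ∪ K.Γ), P y = 0 → y ∈ A.Γ ∨
    (∃ j, y.1 ∈ (l j).near h0 r0 ∧ ‖y.2 - (l j).w y.1‖ ≤ τ) ∨ ∃ j, y ∈ (sp.setW w).T τ' j

/-- algebra and geometry of the split; the radius `R` does not depend on the cut -/
def St_SPLG : Prop := ∀ (J J0 : Type) [Fintype J] [Fintype J0] (W K : Cv) (Nd Nd' : Finset E)
  (TC TK : ℤ) (D : ℕ) (G q : E → ℂ) (Sig Sig' : Finset ℂ) (r h h0 r0 : ℝ) (sp : Sp J)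
  (m : J → K.ι) (par : K.ι → J) (l : J0 → End) (par0 : W.ι → J0), CF.Alg W K Nd TC TK D →
  SIn W K Nd Nd' G q Sig r h → KIn W K Nd G sp Sig' m par → CIn W r h l h0 r0 par0 →
  ∃ d : J → ℂ × ℂ → ℂ,
    (∀ j, SheetFam (W.pA K G q) (sp.l j).w ((sp.l j).near sp.h sp.r1) (d j)) ∧
    ∃ s0 > (0 : ℝ), ∃ τ1 > (0 : ℝ), ∀ τ τ' : ℝ, 0 < τ → 0 < τ' → τ' ≤ τ1 → ∃ R > (0 : ℝ),
    ∀ (s t : W.ι → ℝ) (dC : W.ι → ℂ × ℂ → ℂ), CutP W K G q r s0 s t dC → ∃ Γe : ℂ → Set E,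
      (∀ᶠ e : ℝ in 𝓝[>] 0,
        CF.Alg (splA W K G q s t dC (fun k => d (par k)) Γe e) W Nd' (2 * TC + TK)
          (2 * TC - Nd.card) (2 * D) ∧
        SOut W K (splA W K G q s t dC (fun k => d (par k)) Γe e) (W.pA K G q e) sp (shW sp d e)
          l h0 r0 τ τ' R) ∧
      (∀ η > (0 : ℝ), ∀ᶠ e : ℝ in 𝓝[>] 0, Γe e ⊆ thickening η (W.cut s t r h ∪ K.Γ) ∧
        ∀ j, ∀ z ∈ (sp.l j).near sp.h sp.r1, ‖shW sp d e j z - (sp.l j).w z‖ ≤ η) ∧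
      (∀ k ρ, Priv K W (K.e k).c ρ (K.e k).w →
        closedBall (K.e k).c ρ ⊆ (sp.l (par k)).near sp.h sp.r1 → ∀ᶠ e : ℝ in 𝓝[>] 0,
          Priv (splA W K G q s t dC (fun k => d (par k)) Γe e) W (K.e k).c ρ
            ((K.e k).pert (d (par k)) e).w) ∧
      (∀ p ρ w, Priv W K p ρ w → (∀ y ∈ W.cut s t r h, y.1 ∉ closedBall p ρ) →
        ∀ᶠ e : ℝ in 𝓝[>] 0, Priv W (splA W K G q s t dC (fun k => d (par k)) Γe e) p ρ w) ∧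
      ∀ (w : ℂ → ℂ) (d' : ℂ × ℂ → ℂ) (U : Set ℂ), IsCompact U → SheetFam (W.pA K G q) w U d' →
        (∀ z ∈ U, ContinuousAt w z ∧ (z, w z) ∈ W.cut s t r h) →
        (∀ j, ∀ z ∈ U, z ∈ ((W.e j).adj (s j) (t j)).circ → w z = (W.e j).w z →
          ∀ᶠ z' in 𝓝 z, z' ∈ U → ((W.e j).adj (s j) (t j)).side z') →
        ∀ᶠ e : ℝ in 𝓝[>] 0, ∀ z ∈ U, (z, w z + e * d' (z, e)) ∈ Γe e

end Pool.Agent.S6
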