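import Pool.Agent.Lib.S6.SplitB
import Pool.Agent.Lib.S6.Site
import Pool.Agent.Lib.S6.Upd

/-!
Section 6 of the project 9ccfb7: the second side of the split, geometry, the new walls.
-/

open Set Filter Topology Metric
open scoped ContDiff

noncomputable section

namespace Pool.Agent.S6

open Pool.Agent.CF (End Kind IsCurve Geo SLH Cv Priv SheetFam)
open Pool.Agent.Lib

/-! ### the side `K` -/

/-- `p k` is the macro end in whose zone the end `k` lies -/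
structure KPar {J : Type} (K : Cv) (pr : K.ι → ℝ) (sp : Sp J) (fd : FD J K.ι) (p : K.ι → J) :
    Prop where
  eq : ∀ j, sp.l j = K.e (fd.m j) ∧ p (fd.m j) = j
  mem : ∀ k, k = fd.m (p k) ∨ k ∈ fd.win K (p k)
  win : ∀ j, ∀ k ∈ fd.win K j, p k = j
  loop : ∀ k, (K.e k).k ≠ Kind.pt → k = fd.m (p k)
  w : ∀ k, (K.e k).w = (sp.l (p k)).w
  ct : ∀ k, (K.e k).circ ⊆ ct (K.e k) (pr k) ∧
    ct (K.e k) (pr k) ⊆ (sp.l (p k)).nearO (sp.h / 16) sp.r2 ∧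
    (sp.l (p k)).nearO (sp.h / 16) sp.r2 ⊆ (sp.l (p k)).near sp.h sp.r1

def St_KPAR : Prop := ∀ (J : Type) (L : ℝ) (Cw : ℝ → ℝ) (K : Cv) (pr : K.ι → ℝ) (sp : Sp J)
  (fd : FD J K.ι), 10 ≤ L → (∀ β, 1 ≤ Cw β) → Fit L Cw K pr sp fd → (∀ k, fd.site k) →
  K.hub.k = Kind.out → (∀ k, (K.e k).ok) → (∀ k, (K.e k).k = Kind.pt → 0 < pr k) →
  ∃ p, KPar K pr sp fd p

/-- the walls of `K` are shifted by `s` -/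
structure KMod {I : Type} (fx : Fix I) (F : I → ℂ → ℂ) (K : Cv) (W : Wd I K.ι) (s : K.ι → ℂ → ℂ)
    (t : ℝ) (kk : ℕ) (ε : ℝ) (M : K.ι → ℂ → ℂ) : Prop where
  small : ∀ k, SH.Small kk ε (M k)
  off : ∀ k, ∀ z ∈ fx.dom (W.cp k), z ∉ W.zn K (3 * t) k → ∀ᶠ v in 𝓝 z, M k v = 0
  eq : ∀ k, ∀ z ∈ W.zn K t k, M k z = s k z
  con : ∀ k, ∀ z ∈ W.zn K (3 * t) k, F (W.cp k) z + M k z = (K.e k).w z + s k z →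
    z ∈ ct (K.e k) (W.pr k)
  real : ∀ k, ∀ z ∈ W.zn K (3 * t) k, z ∉ ct (K.e k) (W.pr k) → ∀ f : ℂ → ℂ,
    (∀ᶠ v in 𝓝 z, f v = F (W.cp k) v + M k v) → SH.dbar f z ≠ 0

def St_KMOD : Prop := ∀ (I : Type) [Fintype I] (fx : Fix I) (σ : Conf I) (d : σ.K.ι → ℂ × ℂ → ℂ),
  Pre fx σ → (∀ k, AnalyticOnNhd ℂ (d k) (ct (σ.K.e k) (σ.WK.pr k) ×ˢ {0})) →
  ∀ᶠ t in 𝓝[>] (0 : ℝ), ∀ (kk : ℕ) (ε : ℝ), 0 < ε → ∀ᶠ e : ℝ in 𝓝[>] 0,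
    ∃ M, KMod fx σ.F σ.K σ.WK (fun k z => e * d k (z, e)) t kk ε M

/-- in thin tubes the new surface is the shift of the old one -/
def St_KREL : Prop := ∀ (I J : Type) [Fintype I] [Fintype J] (fx : Fix I) (σ : Conf I) (sp : Sp J)
  (fd : FD J σ.K.ι) (p : σ.K.ι → J) (τ : ℝ), Pre fx σ → KPar σ.K σ.WK.pr sp fd p →
  Zone σ.K σ.WK.pr σ.A sp fd τ → ∀ t > (0 : ℝ), ∃ R > (0 : ℝ), ∃ a > (0 : ℝ),
  ∀ (F' : I → ℂ → ℂ) (s : J → ℂ → ℂ), (∀ i, ∀ z ∈ fx.dom i, ‖F' i z - σ.F i z‖ ≤ R) →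
    (∀ j, ∀ z ∈ (sp.l j).near sp.h sp.r1, ‖s j z‖ ≤ R) →
    (∀ k, ∀ z ∈ σ.WK.zn σ.K t k, F' (σ.WK.cp k) z = σ.F (σ.WK.cp k) z + s (p k) z) →
    ∀ j, ∀ y ∈ sp.T R j, (sp.l j).k = Kind.pt ∨ -a ≤ (sp.l j).dep y.1 →
      (((y.1, y.2 + s j y.1) : E) ∈ fx.S F' ↔ y ∈ fx.S σ.F)

/-- the fit data as data for a curve with more ends -/
def FD.inr {J ι : Type} (fd : FD J ι) (κ : Type) : FD J (κ ⊕ ι) :=
  { fd with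
    m := fun j => Sum.inr (fd.m j)
    U := fd.U.map ⟨Sum.inr, Sum.inr_injective⟩
    ρ := Sum.elim (fun _ => 0) fd.ρ
    β := Sum.elim (fun _ => 0) fd.β }

/-- the new curve, with the directions `lA` on the new loops -/
def splB (W K : Cv) (G q : E → ℂ) (s t : W.ι → ℝ) (dC : W.ι → ℂ × ℂ → ℂ) (dK : K.ι → ℂ × ℂ → ℂ)
    (Γe : ℂ → Set E) (e : ℝ) (lA : W.ι → ℂ → ℂ) : Cv :=
  (splA W K G q s t dC dK Γe e).rot (Sum.elim lA K.lam)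

def St_KFIT : Prop := ∀ (J J0 : Type) (L : ℝ) (Cw : ℝ → ℝ) (W K : Cv) (pr : K.ι → ℝ) (sp : Sp J)
  (fd : FD J K.ι) (p : K.ι → J) (G q : E → ℂ) (s t : W.ι → ℝ) (dC : W.ι → ℂ × ℂ → ℂ)
  (d : J → ℂ × ℂ → ℂ) (Γe : ℂ → Set E) (e : ℝ) (lA : W.ι → ℂ → ℂ), Fit L Cw K pr sp fd →
  KPar K pr sp fd p →
  Fit L Cw (splB W K G q s t dC (fun k => d (p k)) Γe e lA) (Sum.elim (fun _ => 0) pr)
    (sp.setW (shW sp d e)) (fd.inr W.ι) ∧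
  (One K sp fd → One (splB W K G q s t dC (fun k => d (p k)) Γe e lA) (sp.setW (shW sp d e))
    (fd.inr W.ι)) ∧
  (Free K fd → Free (splB W K G q s t dC (fun k => d (p k)) Γe e lA) (fd.inr W.ι)) ∧
  (fd.inr W.ι).gsum (fd.inr W.ι).U = fd.gsum fd.U ∧ (fd.inr W.ι).U.card = fd.U.card ∧
  (∀ k, (fd.inr W.ι).site k ↔ ∃ k', k = Sum.inr k') ∧
  ∀ (P : E → ℂ) (l : J0 → End) (h0 r0 τ τ' R : ℝ), 0 < τ' →
    SOut W K (splA W K G q s t dC (fun k => d (p k)) Γe e) P sp (shW sp d e) l h0 r0 τ τ' R →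
    (∀ i j, ∀ z ∈ (sp.l j).near sp.h sp.r1, z ∈ ((W.e i).adj (s i) (t i)).circ →
      shW sp d e j z ≠ (W.e i).w z + e * dC i (z, e)) →
    (∀ i, (W.e i).k = Kind.pt → 0 < t i) →
    Zone (splB W K G q s t dC (fun k => d (p k)) Γe e lA) (Sum.elim (fun _ => 0) pr)
      (Γe e ∪ W.Γ) (sp.setW (shW sp d e)) (fd.inr W.ι) τ'

/-! ### geometry -/

def St_CLEARB : Prop := ∀ (C K : Cv) (Nd : Finset E) (TC TK : ℤ) (D : ℕ) (a : ℂ) (Z : Finset E)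
  (q G : E → ℂ) (m : ℕ) (π : Type) [Fintype π] (x : π → ℂ), CF.Alg C K Nd TC TK D →
  Sec C K Nd TC a Z q G m → Pos C x →
  ∃ h0 > (0 : ℝ), ∃ Sig : Finset ℂ, (∀ y ∈ Nd, y.1 ∈ Sig) ∧ (∀ y ∈ Z, y.1 ∈ Sig) ∧
    ∀ h r1 : ℝ, 0 < h → h ≤ h0 → 0 < r1 → r1 ≤ h0 →
      ClearB C K a q G x h r1 ∧ Geo C.P C.Γ C.e Sig r1 h

/-- thin end tubes contain only the sheets -/
def St_ISO : Prop := ∀ (J : Type) [Fintype J] (P : E → ℂ) (Γ Γ' : Set E) (sp : Sp J)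
  (Sig : Finset ℂ), Geom P Γ sp Sig → IsCompact Γ' →
  (∀ j, ∀ z ∈ (sp.l j).near sp.h sp.r1, (z, (sp.l j).w z) ∉ Γ') →
  (∀ τ, IsClosed (⋃ j, sp.T τ j)) ∧ ∃ τ0 > (0 : ℝ), ∀ τ ≤ τ0, ∀ j, ∀ y ∈ sp.T τ j, y ∉ Γ' ∧
    (y ∈ Γ → y.2 = (sp.l j).w y.1 ∧ (sp.l j).side y.1)

/-- the geometry at the depth `δ` -/
def St_CIN : Prop := ∀ (J : Type) [Fintype J] (C K : Cv) (Nd : Finset E) (TC TK : ℤ) (D : ℕ)
  (a : ℂ) (Z : Finset E) (q G : E → ℂ) (π : Type) [Fintype π] (x : π → ℂ) (Sig Sig' : Finset ℂ)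
  (h r1 r2 L : ℝ) (sp : Sp J), CF.Alg C K Nd TC TK D → Sec C K Nd TC a Z q G (Fintype.card π) →
  Pos C x → Geo C.P C.Γ C.e Sig r1 h → 10 ≤ L → Geom K.P K.Γ sp Sig' → Clear C sp →
  (∀ j, ∀ z ∈ (sp.l j).near sp.h sp.r1, G (z, (sp.l j).w z) ≠ 0) →
  ∀ᶠ δ in 𝓝[>] (0 : ℝ),
    (∃ Sg, SIn (winS C K π a q G x δ) K Nd (ndS C Z x δ) (gS C G x δ) (qS C a q x δ) Sg
      (C.R * δ / 100) (δ / 100)) ∧
    CIn (winS C K π a q G x δ) (C.R * δ / 100) (δ / 100) C.e h r1 (par C π) ∧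
    (∀ k, closedBall (hp C (x k) δ 0) (bpr C L δ) ⊆ C.hub.nearO (h / 16) r2) ∧
    0 < bpr C L δ ∧ 2 * bpr C L δ ≤ C.R * δ / 100 ∧
    ∀ j, ∀ z ∈ (sp.l j).near sp.h sp.r1, gS C G x δ (z, (sp.l j).w z) ≠ 0

/-- the cut curve -/
def St_CUTM : Prop := ∀ (C K : Cv) (π : Type) [Fintype π] (a : ℂ) (q G : E → ℂ) (x : π → ℂ) (δ : ℝ)
  (Sig Sg : Finset ℂ) (h r1 r' h' y : ℝ) (ρ : C.ι ⊕ π → ℝ), IsCurve C.P C.Γ C.e →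
  IsCurve C.P C.Γ (winS C K π a q G x δ).e → Geo C.P C.Γ C.e Sig r1 h →
  Geo C.P C.Γ (winS C K π a q G x δ).e Sg r' h' →
  CIn (winS C K π a q G x δ) r' h' C.e h r1 (par C π) → 0 < y → y ≤ h' →
  (∀ k, ((winS C K π a q G x δ).e k).k = Kind.pt → 0 < ρ k ∧ ρ k * Real.exp y ≤ r') →
  (∀ j, IsCompact (rg C (winS C K π a q G x δ).e ρ h r1 y y j) ∧
    (∀ z ∈ rg C (winS C K π a q G x δ).e ρ h r1 y y j, ContinuousAt (C.e j).w z ∧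
      (z, (C.e j).w z) ∈ (winS C K π a q G x δ).cut (fun _ => y) (fun k => ρ k * Real.exp y) r' h') ∧
    ∀ k, ∀ z ∈ rg C (winS C K π a q G x δ).e ρ h r1 y y j,
      z ∈ (((winS C K π a q G x δ).e k).adj y (ρ k * Real.exp y)).circ →
      (C.e j).w z = ((winS C K π a q G x δ).e k).w z →
      ∀ z' ∈ rg C (winS C K π a q G x δ).e ρ h r1 y y j,
        (((winS C K π a q G x δ).e k).adj y (ρ k * Real.exp y)).side z') ∧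
  (∀ (s u : ℝ) k, s ≤ y → u ≤ y →
    (((winS C K π a q G x δ).e k).adj y (ρ k * Real.exp y)).circ ⊆
      rg C (winS C K π a q G x δ).e ρ h r1 s u (par C π k)) ∧
  (∀ k ρ', ((winS C K π a q G x δ).e k).k = Kind.pt → ρ' < ρ k * Real.exp y →
    Priv (winS C K π a q G x δ) K ((winS C K π a q G x δ).e k).c ρ' ((winS C K π a q G x δ).e k).w →
    ∀ v ∈ (winS C K π a q G x δ).cut (fun _ => y) (fun k => ρ k * Real.exp y) r' h',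
      v.1 ∉ closedBall ((winS C K π a q G x δ).e k).c ρ') ∧
  ∀ p ρ', closedBall p ρ' ⊆ C.hub.ann (Ioo (-y) y) → C.hub.k ≠ Kind.pt →
    Priv (winS C K π a q G x δ) K p ρ' C.hub.w →
    ∀ v ∈ (winS C K π a q G x δ).cut (fun _ => y) (fun k => ρ k * Real.exp y) r' h',
      v.1 ∉ closedBall p ρ'

/-! ### the new walls -/

open Classical in
/-- sum of the modifications on the component `i` -/
def addM {I κ : Type} [Fintype κ] (cp : κ → I) (M : κ → ℂ → ℂ) (i : I) (z : ℂ) : ℂ :=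
  ∑ k, if cp k = i then M k z else 0

/-- the new surface -/
def newF {I : Type} (σ : Conf I) (M : σ.C.ι → ℂ → ℂ) (MK : σ.K.ι → ℂ → ℂ) (i : I) (z : ℂ) : ℂ :=
  σ.F i z + addM σ.WC.cp M i z + addM σ.WK.cp MK i z

/-- wall data of the new curve -/
def newW {I : Type} (σ : Conf I) (EA : σ.C.ι → ℝ → ℝ) : Wd I (σ.C.ι ⊕ σ.K.ι) :=
  ⟨Sum.elim σ.WC.cp σ.WK.cp, Sum.elim EA σ.WK.Ef, Sum.elim (fun _ => 0) σ.WK.pr⟩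

open Classical in
/-- the configuration after the split -/
def postG {I : Type} (σ : Conf I) (G q : E → ℂ) (y2 : ℝ) (dC : σ.C.ι → ℂ × ℂ → ℂ)
    (dK : σ.K.ι → ℂ × ℂ → ℂ) (Γe : ℂ → Set E) (e : ℝ) (lA : σ.C.ι → ℂ → ℂ) (Nd' : Finset E)
    (π' : Type) [Fintype π'] (x' : π' → ℂ) (L δ' : ℝ) (M : σ.C.ι → ℂ → ℂ) (MK : σ.K.ι → ℂ → ℂ)
    (EA : σ.C.ι → ℝ → ℝ) (pr : σ.C.ι → ℝ) (Ef : σ.C.ι ⊕ π' → ℝ → ℝ) (hz' : ℝ) (sd : π' → ℂ) :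
    Conf I :=
  ⟨splB σ.C σ.K G q (fun _ => y2) (fun k => σ.WC.pr k * Real.exp y2) dC dK Γe e lA,
    born σ.C π' x' δ', Nd', 2 * σ.TC + σ.TK, 2 * σ.TC - σ.Nd.card, 2 * σ.D, newF σ M MK, newW σ EA,
    Wd.born σ.C σ.WC.cp pr π' L δ' Ef, hz',
    σ.Sd ∪ Finset.univ.image fun i => (sd i, newF σ M MK (σ.WC.cp σ.C.H) (sd i))⟩

/-- the new surface in the zones -/
def St_NEWF : Prop := ∀ (I : Type) [Fintype I] (fx : Fix I) (σ : Conf I) (M : σ.C.ι → ℂ → ℂ)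
  (MK : σ.K.ι → ℂ → ℂ) (t : ℝ) (kk : ℕ) (ε : ℝ), Pre fx σ → 0 < t → 3 * t ≤ σ.hz → 0 ≤ ε →
  (∀ k, SH.Small kk ε (M k)) → (∀ k, SH.Small kk ε (MK k)) →
  (∀ k z, M k z ≠ 0 → z ∈ σ.WC.zn σ.C (3 * t) k) →
  (∀ k, ∀ z ∈ fx.dom (σ.WK.cp k), z ∉ σ.WK.zn σ.K (3 * t) k → ∀ᶠ v in 𝓝 z, MK k v = 0) →
  (∀ i, ContDiff ℝ ∞ (newF σ M MK i)) ∧
  MP_9ccfb7_an.Close kk ((Fintype.card σ.C.ι + Fintype.card σ.K.ι) * ε) σ.F (newF σ M MK)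
    fx.R fx.R ∧
  (∀ k, ∀ z ∈ σ.WC.zn σ.C σ.hz k, ∀ᶠ v in 𝓝 z,
    newF σ M MK (σ.WC.cp k) v = σ.F (σ.WC.cp k) v + M k v) ∧
  (∀ k, ∀ z ∈ σ.WK.zn σ.K σ.hz k, ∀ᶠ v in 𝓝 z,
    newF σ M MK (σ.WK.cp k) v = σ.F (σ.WK.cp k) v + MK k v) ∧
  ∀ i, ∀ z ∈ fx.dom i, (∀ κ, σ.cp κ = i → z ∉ σ.Z (3 * t) κ) → ∀ᶠ v in 𝓝 z, newF σ M MK i v = σ.F i v

/-- local data of the new walls -/
def St_GENW : Prop := ∀ (I : Type) [Fintype I] (fx : Fix I) (σ : Conf I) (G q : E → ℂ) (y2 : ℝ)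
  (dC : σ.C.ι → ℂ × ℂ → ℂ) (dK : σ.K.ι → ℂ × ℂ → ℂ) (Γe : ℂ → Set E) (e : ℝ) (lA : σ.C.ι → ℂ → ℂ)
  (Nd' : Finset E) (π' : Type) [Fintype π'] (x' : π' → ℂ) (L δ' : ℝ) (M : σ.C.ι → ℂ → ℂ)
  (MK : σ.K.ι → ℂ → ℂ) (EA : σ.C.ι → ℝ → ℝ) (pr : σ.C.ι → ℝ) (Ef : σ.C.ι ⊕ π' → ℝ → ℝ) (hz' : ℝ)
  (sd : π' → ℂ) (Zb : σ.C.ι → Set ℂ) (t τ : ℝ) (kk : ℕ) (ε : ℝ), Pre fx σ → 0 < t → 4 * t ≤ σ.hz →
  0 ≤ ε →
  SiteW σ.C σ.WC π' x' δ' (Wd.born σ.C σ.WC.cp pr π' L δ' Ef) (σ.C.pA σ.K G q e)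
    (fun k z => dC k (z, e)) Zb e y2 t hz' τ kk ε M EA lA sd →
  KMod fx σ.F σ.K σ.WK (fun k z => e * dK k (z, e)) t kk ε MK →
  IsCurve (σ.C.pA σ.K G q e) (Γe e)
    (splA σ.C σ.K G q (fun _ => y2) (fun k => σ.WC.pr k * Real.exp y2) dC dK Γe e).e →
  (∀ k, ∀ z ∈ σ.WC.zn σ.C (3 * t) k, (z ∉ Zb k → ∀ v, (z, v) ∉ Γe e) ∧
    ∀ v, ‖v - (σ.C.e k).w z‖ ≤ τ → (z, v) ∈ σ.C.Γ → v = (σ.C.e k).w z) →
  (∀ k, ∀ z ∈ σ.WK.zn σ.K (3 * t) k, AnalyticAt ℂ (fun z => (σ.K.e k).w z + e * dK k (z, e)) z ∧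
    (z, newF σ M MK (σ.WK.cp k) z) ∉ σ.C.Γ ∧ ((z, newF σ M MK (σ.WK.cp k) z) ∈ Γe e →
      newF σ M MK (σ.WK.cp k) z = (σ.K.e k).w z + e * dK k (z, e))) →
  (∀ k, (σ.K.e k).k = Kind.pt →
    Priv (splA σ.C σ.K G q (fun _ => y2) (fun k => σ.WC.pr k * Real.exp y2) dC dK Γe e) σ.C
      (σ.K.e k).c (σ.WK.pr k) ((σ.K.e k).pert (dK k) e).w) →
  (∀ k, (σ.C.e k).k = Kind.pt → 0 < pr k ∧ Priv σ.C
    (splA σ.C σ.K G q (fun _ => y2) (fun k => σ.WC.pr k * Real.exp y2) dC dK Γe e)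
    (σ.C.e k).c (pr k) (σ.C.e k).w) →
  0 < bpr σ.C L δ' → (∀ k, Priv σ.C
    (splA σ.C σ.K G q (fun _ => y2) (fun k => σ.WC.pr k * Real.exp y2) dC dK Γe e)
    (hp σ.C (x' k) δ' 0) (bpr σ.C L δ') σ.C.hub.w) →
  (∀ i i', i ≠ i' → ∀ z ∈ fx.dom i, z ∈ fx.dom i' → newF σ M MK i z ≠ newF σ M MK i' z) →
  (∀ s ∈ σ.Sd, SH.LB2 (fx.S (newF σ M MK)) s) →
  Gen fx σ (postG σ G q y2 dC dK Γe e lA Nd' π' x' L δ' M MK EA pr Ef hz' sd) (3 * t) id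
    fun k => Sum.inl (par σ.C π' k)

end Pool.Agent.S6
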