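import Pool.Agent.Lib.S6.B_PATH
import Pool.Agent.Lib.S6.B_FITNEW
import Pool.Agent.Lib.S6.B_ZONE
import Pool.Agent.Lib.S6.B_CTXM
import Pool.Agent.Lib.S6.B_INIT
import Pool.Agent.Lib.S6.Part

/-!
The pieces of the stage: positions, readiness for new windows, birth followed by shrinking.
-/

open Set Filter Topology Metric
open scoped ContDiff

noncomputable section

namespace Pool.Agent.S6.STG

open Pool.Agent.CF (End Kind IsCurve Geo Half Priv Cv)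
open Pool.Agent.Lib

/-- positions `x` of new windows of radius `r` near `x0`, which stays free -/
structure Plc {π : Type} (x0 : ℂ) (r0 : ℝ) (x : π → ℂ) (r : ℝ) : Prop where
  pos : 0 < r ∧ 8 * r ≤ r0
  one : ∀ k, ‖x k‖ = 1 ∧ ‖x k - x0‖ ≤ r0 / 2 ∧ 8 * r ≤ ‖x k - x0‖
  sep : ∀ k k', k ≠ k' → 8 * r ≤ ‖x k - x k'‖

theorem plc {x0 : ℂ} (hc : ‖x0‖ = 1) {r0 : ℝ} (h0 : 0 < r0) (h1 : r0 ≤ 1) (π : Type) [Fintype π] :
    ∃ x : π → ℂ, ∀ᶠ r in 𝓝[>] (0 : ℝ), Plc x0 r0 x r := by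
  have n0 : x0 ≠ 0 := norm_ne_zero_iff.1 (hc ▸ one_ne_zero)
  have inj : ∀ s ∈ Icc (0 : ℝ) (r0 / 2), ∀ t ∈ Icc (0 : ℝ) (r0 / 2),
      x0 * Complex.exp (Complex.I * s) = x0 * Complex.exp (Complex.I * t) → s = t := by
    intro s a t b e
    have := Real.pi_gt_three
    exact Complex.ofReal_injective (mul_left_cancel₀ Complex.I_ne_zero
      (Complex.exp_inj_of_neg_pi_lt_of_le_pi (by simp; linarith [a.1]) (by simp; linarith [a.2])
        (by simp; linarith [b.1]) (by simp; linarith [b.2]) (mul_left_cancel₀ n0 e)))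
  let e := (Fintype.equivFin π).toEmbedding.trans
    (Fin.valEmbedding.trans (Ioc_infinite (half_pos h0)).natEmbedding)
  refine ⟨fun k => x0 * Complex.exp (Complex.I * (e k : ℝ)), ?_⟩
  have e1 : ∀ k k', ∀ᶠ r in 𝓝[>] (0 : ℝ), k ≠ k' → 8 * r ≤
      ‖x0 * Complex.exp (Complex.I * (e k : ℝ)) - x0 * Complex.exp (Complex.I * (e k' : ℝ))‖ :=
    fun k k' => by
    by_cases c : k = k'
    · exact Eventually.of_forall fun _ d => absurd c d
    · exact (INIT.ev_le (norm_pos_iff.2 (sub_ne_zero.2 fun d => c (e.injective (Subtype.ext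
        (inj _ (Ioc_subset_Icc_self (e k).2) _ (Ioc_subset_Icc_self (e k').2) d)))))).mono
        fun _ d _ => d
  filter_upwards [self_mem_nhdsWithin, INIT.ev_le h0,
    eventually_all.2 fun k => eventually_all.2 (e1 k),
    eventually_all.2 fun k => INIT.ev_le (b := ‖x0 * Complex.exp (Complex.I * (e k : ℝ)) - x0‖)
      (norm_pos_iff.2 (sub_ne_zero.2 fun a => (e k).2.1.ne' (inj _ (Ioc_subset_Icc_self (e k).2) 0
        ⟨le_rfl, (half_pos h0).le⟩ (by simpa using a))))] with r c1 c2 c3 c4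
  refine ⟨⟨c1, c2⟩, fun k => ⟨by simp [hc], ?_, c4 k⟩, c3⟩
  rw [← mul_sub_one, norm_mul, hc, one_mul]
  exact Real.norm_exp_I_mul_ofReal_sub_one_le.trans
    ((Real.norm_of_nonneg (e k).2.1.le).le.trans (e k).2.2)

theorem Plc.comp {π π' : Type} {x0 : ℂ} {r0 r : ℝ} {x : π → ℂ} (h : Plc x0 r0 x r) {f : π' → π}
    (hf : Function.Injective f) : Plc x0 r0 (fun k => x (f k)) r :=
  ⟨h.pos, fun _ => h.one _, fun _ _ c => h.sep _ _ fun d => c (hf d)⟩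

theorem Plc.posn {π : Type} {x0 : ℂ} {r0 r : ℝ} {x : π → ℂ} (h : Plc x0 r0 x r) {A : Cv}
    (h1 : ‖x0 - A.c‖ + r0 ≤ 1 / 2) : Pos A x := by
  refine ⟨fun k k' c => by_contra fun d => ?_, fun k => ⟨(h.one k).1, ?_⟩⟩
  · have := h.sep k k' d
    rw [c, sub_self, norm_zero] at this
    linarith [h.pos.1]
  · linarith [norm_sub_le_norm_sub_add_norm_sub (x k) x0 A.c, (h.one k).2.1, h.pos.1, h.pos.2]

variable {J : Type} [Fintype J] {L : ℝ} {Cw : ℝ → ℝ} {A : Cv} {pr : A.ι → ℝ} {sp : Sp J}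
  {fd : FD J A.ι} {π : Type} [Fintype π] {x : π → ℂ} {x0 : ℂ} {r0 r β : ℝ}

theorem fitnew (hL : 10 ≤ L) (hC : ∀ β, 1 ≤ Cw β) (hk : A.hub.k = Kind.out) (hR : 0 < A.R)
    (hf : Fit L Cw A pr sp fd) (h1 : One A sp fd) (hn : fd.U.card + Fintype.card π ≤ fd.n)
    (hx : Plc x0 r0 x r) (hr : 8 * r ≤ sp.h) (hβ : 0 < β ∧ β ≤ 1)
    (hU : ∀ k ∈ fd.U, 2 * fd.ρ k + r0 ≤ ‖S6.hx A.hub (A.e k).c - x0‖ ∧ 0 ≤ fd.ρ k) (Λx : ℝ) :
    ∀ᶠ δ in 𝓝[>] (0 : ℝ),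
      Fit L Cw (born A π x δ) (Sum.elim pr fun _ => bpr A L δ) sp
        (fd.born A π x δ (fun _ => r) fun _ => β) ∧
      One (born A π x δ) sp (fd.born A π x δ (fun _ => r) fun _ => β) ∧
      (Marg A sp fd Λx → Marg (born A π x δ) sp (fd.born A π x δ (fun _ => r) fun _ => β) Λx) ∧
      ∀ k, S6.hx A.hub (hp A (x k) δ 0) = x k ∧ A.hub.dep (hp A (x k) δ 0) = δ :=
  st_fitnew _ L Cw A pr sp fd π x _ _ Λx hL hC hk hR hf h1 hn fun k =>
    ⟨(hx.one k).1, hβ.1, hβ.2, hx.pos.1, by linarith, fun k' c => by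
      linarith [hx.sep k k' c, hx.pos.1], fun k' c => by
      have a := norm_sub_le_norm_sub_add_norm_sub (S6.hx A.hub (A.e k').c) (x k) x0
      rw [norm_sub_rev _ (x k)] at a
      constructor <;> linarith [hU k' c, hx.one k, hx.pos.1, hx.pos.2]⟩

omit [Fintype J] in
theorem rho_nonneg (hC : ∀ β, 1 ≤ Cw β) (hf : Fit L Cw A pr sp fd) {k : A.ι} (hk : k ∈ fd.U) :
    0 ≤ fd.ρ k := by
  obtain ⟨-, -, w3, -, -, -, -, w8, -⟩ := hf.win k hk
  have c0 := hC (fd.β k)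
  exact (pos_of_mul_pos_right ((mul_pos (by linarith) w3).trans_le w8)
    (hf.kit.2.2.2.2.2.2.1 _ c0).1.le).le

omit [Fintype J] in
theorem gsum_new (δ : ℝ) : (fd.born A π x δ (fun _ => r) fun _ => β).gsum
    (Finset.univ.map Function.Embedding.inr) = Fintype.card π * (1 - β / 2) := by
  rw [FD.gsum, Finset.sum_map]
  simp [FD.born]; ring

/-- readiness of a new geometry after the birth of windows -/
theorem newRdy {sp : Sp A.ι} {fd : FD A.ι A.ι} {O : E → ℂ} {Nd : Finset E} {Sig : Finset ℂ}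
    {a : ℝ} {xs : Set ℝ} (hL : 10 ≤ L) (hC : ∀ β, 1 ≤ Cw β) (hk : A.hub.k = Kind.out)
    (hR : 0 < A.R) (hf : Rdy L Cw A pr O Nd sp fd Sig a xs) (h1 : One A sp fd) (hU : fd.U = ∅)
    (hm : fd.m = id) (hn : Fintype.card π ≤ fd.n) (hx : Plc x0 r0 x r) (hr : 8 * r ≤ sp.h)
    (hβ : 0 < β ∧ β ≤ 1) (h0 : ‖x0‖ = 1) (h2 : ‖x0 - A.c‖ + r0 ≤ 1 / 2) (Λx : ℝ) :
    ∀ᶠ δ in 𝓝[>] (0 : ℝ),
      Rdy L Cw (born A π x δ) (Sum.elim pr fun _ => bpr A L δ) O Nd sp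
        (fd.born A π x δ (fun _ => r) fun _ => β) Sig a xs ∧
      One (born A π x δ) sp (fd.born A π x δ (fun _ => r) fun _ => β) ∧
      (Marg A sp fd Λx → Marg (born A π x δ) sp (fd.born A π x δ (fun _ => r) fun _ => β) Λx) ∧
      Free (born A π x δ) (fd.born A π x δ (fun _ => r) fun _ => β) ∧
      (fd.born A π x δ (fun _ => r) fun _ => β).gsum (fd.born A π x δ (fun _ => r) fun _ => β).U =
        Fintype.card π * (1 - β / 2) ∧
      (fd.born A π x δ (fun _ => r) fun _ => β).U.card = Fintype.card π := by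
  filter_upwards [fitnew hL hC hk hR hf.fit h1 (by simpa [hU] using hn) hx hr hβ (by simp [hU]) Λx]
    with δ ⟨c1, c2, c3, c4⟩
  have e : (fd.born A π x δ (fun _ => r) fun _ => β).U =
      Finset.univ.map Function.Embedding.inr := by simp [FD.born, hU]
  refine ⟨⟨hf.geom, hf.sig, hf.om, ?_, c1, hf.part⟩, c2, c3, ⟨x0, r, h0, hx.pos.1,
    (by linarith [hx.pos.1, hx.pos.2] : ‖x0 - A.c‖ + r ≤ 1 / 2), fun k hk => ?_⟩,
    (congrArg (fd.born A π x δ (fun _ => r) fun _ => β).gsum e).trans (gsum_new δ),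
    (congrArg Finset.card e).trans (by simp)⟩
  · rintro (j | k)
    · exact Or.inr ⟨j, congrArg Sum.inl (congrFun hm j)⟩
    · exact Or.inl (e ▸ Finset.mem_map_of_mem _ (Finset.mem_univ k))
  · obtain ⟨k, -, rfl⟩ := Finset.mem_map.1 (e ▸ hk)
    show 2 * r + r ≤ ‖S6.hx A.hub (hp A (x k) δ 0) - x0‖
    rw [(c4 k).1]; linarith [(hx.one k).2.2, hx.pos.1]

/-- the configuration after a birth and a shrinking of the old ports -/
def bsC {I : Type} (σ : Conf I) (π : Type) [Fintype π] (x : π → ℂ) (L δ : ℝ) (pr : σ.C.ι → ℝ)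
    (F : I → ℂ → ℂ) (Ef : σ.C.ι ⊕ π → ℝ → ℝ) (hz : ℝ) (Sd : Finset E) : Conf I :=
  ⟨born σ.C π x δ, σ.K, σ.Nd, σ.TC, σ.TK, σ.D, F, Wd.born σ.C σ.WC.cp pr π L δ Ef, σ.WK, hz, Sd⟩

open Classical in
/-- smaller radii of the ports -/
def shr (A : Cv) (pr : A.ι → ℝ) (b : ℝ) (j : A.ι) : ℝ :=
  if (A.e j).k = Kind.pt then min (pr j) (b / 2) else pr j

theorem shr_lt {b : ℝ} (hb : 0 < b) (j : A.ι) (hk : (A.e j).k = Kind.pt) : shr A pr b j < b := by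
  rw [shr, if_pos hk]; exact (min_le_right _ _).trans_lt (half_lt_self hb)

theorem shr_le (b : ℝ) (j : A.ι) : shr A pr b j ≤ pr j := by
  unfold shr; split_ifs
  · exact min_le_left _ _
  · rfl

theorem shr_pos {b : ℝ} (hb : 0 < b) (j : A.ι) (hp : 0 < pr j) : 0 < shr A pr b j := by
  unfold shr; split_ifs
  · exact lt_min hp (half_pos hb)
  · exact hp

/-- birth of windows, then shrinking of the old ports -/
theorem bs (hB : St_BIRTH) (hR : St_RESET) {ab : Ab} (hab : ab.OK) {I : Type} [Fintype I]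
    {fx : Fix I} (ok : fx.OK) {σ : Conf I} {sp : Sp J} {fd : FD J σ.C.ι} {τ : ℝ} {T0 : Set E}
    (c : Ctx fx ab.L ab.Cw σ sp fd τ T0) (h1 : One σ.C sp fd) (g1 : fd.gain ≤ fd.gsum fd.U)
    (g2 : fd.gain ≤ Fintype.card π * (1 - β / 2)) (hn : fd.U.card + Fintype.card π ≤ fd.n)
    (hs : ∀ j, (σ.C.e j).k = Kind.pt → fd.site j) (hx : Plc x0 r0 x r) (hr : 8 * r ≤ sp.h)
    (hβ : 0 < β ∧ β ≤ 1) (h2 : ‖x0 - σ.C.c‖ + r0 ≤ 1 / 2)
    (hU : ∀ k ∈ fd.U, 2 * fd.ρ k + r0 ≤ ‖S6.hx σ.C.hub (σ.C.e k).c - x0‖) {b : ℝ} (hb : 0 < b)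
    (k : ℕ) {ε : ℝ} (hε : 0 < ε) : ∀ᶠ δ in 𝓝[>] (0 : ℝ),
      ∃ (F : I → ℂ → ℂ) (Ef : σ.C.ι ⊕ π → ℝ → ℝ) (hz : ℝ) (Sd : Finset E),
        Good fx (bsC σ π x ab.L δ (shr σ.C σ.WC.pr b) F Ef hz Sd) ∧
        MP_9ccfb7_an.Close k ε σ.F F fx.R fx.R := by
  have hL : 10 ≤ ab.L := le_trans (by norm_num) hab.num.1
  have hC := hab.num.2.2.2.2.2.2.2.2
  have half := c.good.pre.alg.hC
  have R0 := HP.R_pos half
  have fn := fitnew hL hC half.out R0 c.fit h1 hn hx hr hβ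
    (fun k hk => ⟨hU k hk, rho_nonneg hC c.fit hk⟩) 0
  obtain ⟨η, η0, hM⟩ := st_ctxm I J fx σ.F sp τ T0 σ.A c.cert
  have t0 : ∀ᶠ z in 𝓝ˢ σ.C.hub.circ, (z, σ.C.hub.w z) ∉ T0 := by
    refine eventually_nhdsSet_iff_forall.2 fun z hz => ?_
    obtain ⟨j, hj⟩ := c.fit.hub
    exact (continuousAt_id.prodMk (half.curve.wan σ.C.H z hz).continuousAt).eventually
      (c.T0.1.isOpen_compl.mem_nhds (disjoint_left.1 (c.T0.2 σ.C.H (Or.inr ⟨j, hj⟩))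
        ⟨(if_neg (HP.hub_loop half) : ct σ.C.hub _ = _).ge hz, rfl⟩))
  filter_upwards [hB ab hab I J fx σ sp fd τ T0 π x _ _ ok c h1 g1 (hx.posn h2)
    (fn.mono fun _ a => a.1) k _ (lt_min (half_pos hε) η0), fn, HP.win_nhds R0 t0,
    Ioc_mem_nhdsGT (show (0 : ℝ) < 1 / 8 by norm_num)] with δ ⟨F, Ef, hz, Sd, gd, nx⟩ f1 f2 f3
  obtain ⟨b1, b2, -⟩ := HP.bpr_le (A := σ.C) R0 f3.1 hL
  have c' : Ctx fx ab.L ab.Cw (σ.born π x ab.L δ F Ef hz Sd) sp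
      (fd.born σ.C π x δ (fun _ => r) fun _ => β) τ T0 := by
    refine ⟨gd, f1.1, ZONE.zone2 J _ _ _ _ _ sp fd τ π x δ _ _ hL hC half.out R0 f3.1 c.zone f1.1,
      hM F k _ (min_le_right _ _) nx, c.T0.1, ?_⟩
    rintro (j | i) hj
    · refine c.T0.2 j (hj.imp Finset.inl_mem_disjSum.1 ?_)
      exact fun ⟨i, a⟩ => ⟨i, Sum.inl_injective a⟩
    · refine disjoint_left.2 ?_
      rintro ⟨z, w⟩ ⟨y1, y2⟩
      obtain rfl : w = σ.C.hub.w z := y2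
      exact f2 (x i) z (hx.one i).1 (HP.win_in R0 (hx.one i).1 f3.1 f3.2
        ((mem_closedBall_iff_norm.1 y1).trans b2)).2
  obtain ⟨o, o0, hR⟩ := hR ab hab I J fx (σ.born π x ab.L δ F Ef hz Sd) sp
    (fd.born σ.C π x δ (fun _ => r) fun _ => β) ok
  have half' := gd.pre.alg.hC
  suffices nd : NewD ab.L (born σ.C π x δ) (Sum.elim σ.WC.pr fun _ => bpr σ.C ab.L δ) sp
      (fd.born σ.C π x δ (fun _ => r) fun _ => β) (born σ.C π x δ).lam
      (Sum.elim (shr σ.C σ.WC.pr b) fun _ => bpr σ.C ab.L δ)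
      (Finset.univ.map Function.Embedding.inr) o by
    obtain ⟨F', Ef', hz', gd', nx'⟩ := hR F (born σ.C π x δ).lam Ef
      (Sum.elim σ.WC.pr fun _ => bpr σ.C ab.L δ) hz (fd.born σ.C π x δ (fun _ => r) fun _ => β).mu
      τ T0 c' _ _ _ nd k _ (half_pos hε)
    exact ⟨F', Ef', hz', Sd, gd', (nx.1.trans nx'.1 c.good.pre.wall.smooth gd.pre.wall.smooth
      gd'.pre.wall.smooth).mono le_rfl (by linarith [min_le_left (ε / 2) η])⟩
  refine ⟨?_, fun j hj z hz => ⟨?_, PATH.ndir_mono ((f1.1.ring j hj).2.2.1 z hz) o0.le⟩,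
    fun j _ => PATH.ratio_one o0.le fun _ _ _ => rfl,
    fun j _ => PATH.ratio_one o0.le fun _ _ _ => rfl, ?_, ?_, (g2.trans_eq (gsum_new δ).symm)⟩
  · rintro (j | i) hj
    · refine ⟨rfl, if_neg fun a => hj ((hs j a).imp Finset.inl_mem_disjSum.2 ?_)⟩
      exact fun ⟨i, a⟩ => ⟨i, congrArg Sum.inl a⟩
    · exact ⟨rfl, rfl⟩
  · obtain ⟨n, w, -⟩ := half'.lam (Sum.inl (fd.m j))
    have e : (born σ.C π x δ).e (Sum.inl (fd.m j)) = sp.l j := (f1.1.eq j).1.symm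
    have o1 := half'.curve.ok (Sum.inl (fd.m j))
    erw [e] at w o1
    exact ((eventually_nhdsSet_iff_forall.1 w.analyticAt z hz).self_of_nhds
      ((End.mem_circ (o1.pos hj)).1 hz).1).1
  · rintro (j | i) hj
    · exact ⟨shr_pos hb j (c.good.pre.wall.C.port j hj).1, shr_le b j, fun a => by
        obtain ⟨i, -, e⟩ := Finset.mem_map.1 a
        exact absurd e Sum.inr_ne_inl⟩
    · exact ⟨b1, le_rfl, fun _ => rfl⟩
  · intro i hi
    obtain ⟨i, -, rfl⟩ := Finset.mem_map.1 hi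
    exact Finset.inr_mem_disjSum.2 (Finset.mem_univ i)

end Pool.Agent.S6.STG
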